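import Pool.Graph.R_pool_sql_team_seeded_3997aac3.Q97.UM.Base10

set_option autoImplicit false

/-!
# A sharp cut-off with a Fourier transform decaying like `exp (-c |v|^(2/3))`
-/

namespace Pool.Agent.H469.F4

open Filter Topology MeasureTheory Complex Pool.Agent.Q97.UM

noncomputable section

/-- a cut-off at `1/2` with a rapidly decaying Fourier transform -/
structure Cut (φ κ : ℝ → ℝ) (c C : ℝ) : Prop where
  cpos : 0 < c
  one : ∀ u : ℝ, |u| ≤ 1 / 2 → φ u = 1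
  zero : ∀ u : ℝ, 101 / 200 ≤ |u| → φ u = 0
  bd : ∀ u : ℝ, 0 ≤ φ u ∧ φ u ≤ 1
  cont : Continuous κ
  dec : ∀ v : ℝ, |κ v| ≤ C * Real.exp (-(c * |v| ^ (2 / 3 : ℝ)))
  rep : ∀ u : ℝ, (φ u : ℂ) = ∫ v : ℝ, (κ v : ℂ) * cexp (I * (u * v : ℝ))

/-- domination by a constant multiple of `(1 + y²)⁻¹`, with room for a factor `exp (a (1 + |y|)^(3/5))` -/
theorem exp_bdA {c : ℝ} (hc : 0 < c) (a : ℝ) (ha : 0 ≤ a) : ∃ K : ℝ, 0 ≤ K ∧ ∀ y : ℝ,
    Real.exp (-(c * |y| ^ (2 / 3 : ℝ))) * Real.exp (a * (1 + |y|) ^ (3 / 5 : ℝ)) * (1 + |y|) ^ 4 ≤ K * (1 + y ^ 2)⁻¹ := by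
  -- `(1 + x)^(3/5)` and `log (1 + x)` are small compared to `x^(2/3)`
  have h1 : ∀ᶠ x : ℝ in atTop, a * (1 + x) ^ (3 / 5 : ℝ) ≤ c / 2 * x ^ (2 / 3 : ℝ) := by
    have h2 : Tendsto (fun x : ℝ => x ^ (1 / 15 : ℝ)) atTop atTop := tendsto_rpow_atTop (by norm_num)
    filter_upwards [h2.eventually_ge_atTop (4 * a / c), eventually_ge_atTop (1 : ℝ)] with x hx hx1
    have hx0 : 0 < x := by linarith
    have h3 : (1 + x) ^ (3 / 5 : ℝ) ≤ 2 * x ^ (3 / 5 : ℝ) := by
      calc (1 + x) ^ (3 / 5 : ℝ) ≤ (2 * x) ^ (3 / 5 : ℝ) :=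
            Real.rpow_le_rpow (by linarith) (by linarith) (by norm_num)
        _ = (2 : ℝ) ^ (3 / 5 : ℝ) * x ^ (3 / 5 : ℝ) := Real.mul_rpow (by norm_num) hx0.le
        _ ≤ 2 * x ^ (3 / 5 : ℝ) := by
            apply mul_le_mul_of_nonneg_right _ (by positivity)
            calc (2 : ℝ) ^ (3 / 5 : ℝ) ≤ 2 ^ (1 : ℝ) :=
                  Real.rpow_le_rpow_of_exponent_le (by norm_num) (by norm_num)
              _ = 2 := Real.rpow_one 2
    have h4 : 2 * a ≤ c / 2 * x ^ (1 / 15 : ℝ) := by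
      rw [div_le_iff₀ hc] at hx
      linarith
    calc a * (1 + x) ^ (3 / 5 : ℝ) ≤ a * (2 * x ^ (3 / 5 : ℝ)) := mul_le_mul_of_nonneg_left h3 ha
      _ = 2 * a * x ^ (3 / 5 : ℝ) := by ring
      _ ≤ c / 2 * x ^ (1 / 15 : ℝ) * x ^ (3 / 5 : ℝ) := mul_le_mul_of_nonneg_right h4 (by positivity)
      _ = c / 2 * x ^ (2 / 3 : ℝ) := by
          rw [mul_assoc, ← Real.rpow_add hx0]
          norm_num
  have h2 : ∀ᶠ x : ℝ in atTop, (1 + x) ^ 4 * (1 + x ^ 2) ≤ Real.exp (c / 2 * x ^ (2 / 3 : ℝ)) := by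
    have h3 : Tendsto (fun x : ℝ => x ^ (2 / 3 : ℝ)) atTop atTop := tendsto_rpow_atTop (by norm_num)
    have h4 : ∀ᶠ y : ℝ in atTop, y ^ 9 * 32 ≤ Real.exp (c / 2 * y) := by
      have h5 := (isLittleO_pow_exp_pos_mul_atTop 9 (show 0 < c / 2 by positivity)).bound
        (show (0 : ℝ) < 1 / 32 by norm_num)
      filter_upwards [h5, eventually_ge_atTop (0 : ℝ)] with y hy hy0
      rw [Real.norm_of_nonneg (by positivity), Real.norm_of_nonneg (Real.exp_pos _).le] at hy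
      linarith
    filter_upwards [h3.eventually h4, eventually_ge_atTop (1 : ℝ)] with x hx hx1
    refine le_trans ?_ hx
    have h6 : (x ^ (2 / 3 : ℝ)) ^ 9 = x ^ 6 := by
      rw [← Real.rpow_natCast, ← Real.rpow_mul (by linarith)]
      norm_num
    rw [h6]
    have h7 : (1 + x) ^ 4 ≤ (2 * x) ^ 4 := pow_le_pow_left₀ (by linarith) (by linarith) 4
    have h8 : 1 + x ^ 2 ≤ 2 * x ^ 2 := by nlinarith
    calc (1 + x) ^ 4 * (1 + x ^ 2) ≤ (2 * x) ^ 4 * (2 * x ^ 2) := by gcongr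
      _ = x ^ 6 * 32 := by ring
  obtain ⟨X, hX⟩ := eventually_atTop.1 (h1.and h2)
  obtain ⟨Y, hY⟩ : ∃ Y : ℝ, Y = max X 0 := ⟨_, rfl⟩
  have hY0 : 0 ≤ Y := by rw [hY]; exact le_max_right _ _
  refine ⟨1 + Real.exp (a * (1 + Y) ^ (3 / 5 : ℝ)) * (1 + Y) ^ 4 * (1 + Y ^ 2), by positivity, fun y => ?_⟩
  rw [← sq_abs y]
  obtain ⟨x, hx⟩ : ∃ x : ℝ, x = |y| := ⟨_, rfl⟩
  rw [← hx]
  have hx0 : 0 ≤ x := by rw [hx]; exact abs_nonneg _
  rw [le_mul_inv_iff₀ (by positivity)]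
  rcases le_total Y x with h | h
  · obtain ⟨h3, h4⟩ := hX x ((le_max_left X 0).trans (by rw [← hY]; exact h))
    have h5 : Real.exp (a * (1 + x) ^ (3 / 5 : ℝ)) ≤ Real.exp (c / 2 * x ^ (2 / 3 : ℝ)) := Real.exp_le_exp.2 h3
    have h6 : Real.exp (-(c * x ^ (2 / 3 : ℝ))) * Real.exp (c / 2 * x ^ (2 / 3 : ℝ)) * Real.exp (c / 2 * x ^ (2 / 3 : ℝ)) = 1 := by
      rw [← Real.exp_add, ← Real.exp_add]
      rw [show -(c * x ^ (2 / 3 : ℝ)) + c / 2 * x ^ (2 / 3 : ℝ) + c / 2 * x ^ (2 / 3 : ℝ) = 0 by ring, Real.exp_zero]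
    calc Real.exp (-(c * x ^ (2 / 3 : ℝ))) * Real.exp (a * (1 + x) ^ (3 / 5 : ℝ)) * (1 + x) ^ 4 * (1 + x ^ 2) =
        Real.exp (-(c * x ^ (2 / 3 : ℝ))) * Real.exp (a * (1 + x) ^ (3 / 5 : ℝ)) * ((1 + x) ^ 4 * (1 + x ^ 2)) := by ring
      _ ≤ Real.exp (-(c * x ^ (2 / 3 : ℝ))) * Real.exp (c / 2 * x ^ (2 / 3 : ℝ)) * Real.exp (c / 2 * x ^ (2 / 3 : ℝ)) := by
          gcongr
      _ = 1 := h6
      _ ≤ _ := by
          have : 0 ≤ Real.exp (a * (1 + Y) ^ (3 / 5 : ℝ)) * (1 + Y) ^ 4 * (1 + Y ^ 2) := by positivity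
          linarith
  · have h3 : Real.exp (-(c * x ^ (2 / 3 : ℝ))) ≤ 1 := by
      rw [Real.exp_le_one_iff]
      have : 0 ≤ c * x ^ (2 / 3 : ℝ) := by positivity
      linarith
    calc Real.exp (-(c * x ^ (2 / 3 : ℝ))) * Real.exp (a * (1 + x) ^ (3 / 5 : ℝ)) * (1 + x) ^ 4 * (1 + x ^ 2) ≤
        1 * Real.exp (a * (1 + Y) ^ (3 / 5 : ℝ)) * (1 + Y) ^ 4 * (1 + Y ^ 2) := by gcongr
      _ ≤ _ := by linarith

theorem exp_intA {c : ℝ} (hc : 0 < c) (a : ℝ) (ha : 0 ≤ a) (n : ℕ) (hn : n ≤ 4) : Integrable fun y : ℝ =>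
    Real.exp (-(c * |y| ^ (2 / 3 : ℝ))) * Real.exp (a * (1 + |y|) ^ (3 / 5 : ℝ)) * (1 + |y|) ^ n := by
  obtain ⟨K, hK, hb⟩ := exp_bdA hc a ha
  refine (integrable_inv_one_add_sq.const_mul K).mono' ?_ ?_
  · have h1 : Continuous fun y : ℝ => |y| ^ (2 / 3 : ℝ) := continuous_abs.rpow_const fun _ => Or.inr (by norm_num)
    have h2 : Continuous fun y : ℝ => (1 + |y|) ^ (3 / 5 : ℝ) :=
      (continuous_const.add continuous_abs).rpow_const fun _ => Or.inr (by norm_num)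
    exact (by fun_prop : Continuous _).aestronglyMeasurable
  · refine Eventually.of_forall fun y => ?_
    rw [Real.norm_of_nonneg (by positivity)]
    refine le_trans ?_ (hb y)
    apply mul_le_mul_of_nonneg_left _ (by positivity)
    exact pow_le_pow_right₀ (by have := abs_nonneg y; linarith) hn

/-- existence of the cut-off -/
theorem exists_cut : ∃ (φ κ : ℝ → ℝ) (c C : ℝ), Cut φ κ c C := by
  obtain ⟨P, q, c, C, hG⟩ := Pool.Agent.Q210.UM.gev
  have hC : 0 ≤ C := by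
    have := (abs_nonneg _).trans (hG.dec 0)
    exact nonneg_of_mul_nonneg_left this (Real.exp_pos _)
  have hE : Integrable fun y : ℝ => Real.exp (-(c * |y| ^ (2 / 3 : ℝ))) := by
    have := exp_intA hG.cpos 0 le_rfl 0 (by norm_num)
    simpa using this
  have hqi : Integrable q := by
    refine (hE.const_mul C).mono' hG.cont.aestronglyMeasurable (Eventually.of_forall fun y => ?_)
    rw [Real.norm_eq_abs]
    exact hG.dec y
  -- continuity of `P`
  have hPc : Continuous P := by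
    have h1 : Continuous fun u : ℝ => ∫ y : ℝ, (q y : ℂ) * cexp (I * (u * y : ℝ)) := by
      refine continuous_of_dominated (bound := fun y => ‖q y‖) (fun u => ?_) (fun u => ?_) hqi.norm ?_
      · have := hG.cont
        exact (by fun_prop : Continuous _).aestronglyMeasurable
      · refine Eventually.of_forall fun y => ?_
        rw [norm_mul, Pool.Agent.Q210.UM.norm_exp, mul_one, Complex.norm_real]
      · exact Eventually.of_forall fun y => by fun_prop
    have h2 : P = fun u => (∫ y : ℝ, (q y : ℂ) * cexp (I * (u * y : ℝ))).re := by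
      funext u
      rw [← hG.rep u, Complex.ofReal_re]
    rw [h2]
    exact Complex.continuous_re.comp h1
  have hPi : ∀ x y, IntervalIntegrable P volume x y := fun x y => hPc.intervalIntegrable _ _
  obtain ⟨m, hm⟩ : ∃ m : ℝ, m = ∫ y in (-1 : ℝ)..1, P y := ⟨_, rfl⟩
  have hm0 : 1 / 2 ≤ m := by
    have h1 : ∫ y in (-(1 / 4) : ℝ)..(1 / 4), P y = 1 / 2 := by
      rw [intervalIntegral.integral_congr (g := fun _ => (1 : ℝ)) (fun y hy => ?_)]
      · simp
        norm_num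
      · rw [Set.uIcc_of_le (by norm_num)] at hy
        exact hG.flat y (abs_le.2 hy)
    have h2 : ∫ y in (-(1 / 4) : ℝ)..(1 / 4), P y ≤ ∫ y in (-1 : ℝ)..1, P y :=
      intervalIntegral.integral_mono_interval (by norm_num) (by norm_num) (by norm_num)
        (Eventually.of_forall fun y => (hG.bd y).1) (hPi _ _)
    rw [hm]
    linarith
  have hmp : 0 < m := by linarith
  -- integrals of `P` outside `[-1, 1]`
  have out1 : ∀ x y : ℝ, 1 ≤ x → 1 ≤ y → ∫ z in x..y, P z = 0 := by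
    intro x y hx hy
    rw [intervalIntegral.integral_congr (g := fun _ => (0 : ℝ)) (fun z hz => ?_)]
    · simp
    · apply hG.supp z
      have h1 : 1 ≤ z := by
        rw [Set.mem_uIcc] at hz
        rcases hz with hz | hz <;> linarith [hz.1, hz.2]
      rw [abs_of_nonneg (by linarith)]
      exact h1
  have out2 : ∀ x y : ℝ, x ≤ -1 → y ≤ -1 → ∫ z in x..y, P z = 0 := by
    intro x y hx hy
    rw [intervalIntegral.integral_congr (g := fun _ => (0 : ℝ)) (fun z hz => ?_)]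
    · simp
    · apply hG.supp z
      have h1 : z ≤ -1 := by
        rw [Set.mem_uIcc] at hz
        rcases hz with hz | hz <;> linarith [hz.1, hz.2]
      rw [abs_of_nonpos (by linarith)]
      linarith
  have inn : ∀ x y : ℝ, x ≤ -1 → 1 ≤ y → ∫ z in x..y, P z = m := by
    intro x y hx hy
    rw [← intervalIntegral.integral_add_adjacent_intervals (hPi x (-1)) (hPi (-1) y),
      ← intervalIntegral.integral_add_adjacent_intervals (hPi (-1) 1) (hPi 1 y), out2 x (-1) hx le_rfl,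
      out1 1 y le_rfl hy, ← hm]
    ring
  obtain ⟨φ, hφ⟩ : ∃ φ : ℝ → ℝ, φ = fun u => 1 / m * ∫ s in (-201 : ℝ)..201, P (400 * u + s) := ⟨_, rfl⟩
  have hφ' : ∀ u, φ u = 1 / m * ∫ z in (400 * u + -201)..(400 * u + 201), P z := by
    intro u
    rw [hφ]
    simp only
    rw [intervalIntegral.integral_comp_add_left (fun z => P z) (400 * u)]
  obtain ⟨κ, hκ⟩ : ∃ κ : ℝ → ℝ, κ = fun v => 402 / (400 * m) * (q (v / 400) * Real.sinc (201 * (v / 400))) := ⟨_, rfl⟩
  refine ⟨φ, κ, c / 400 ^ (2 / 3 : ℝ), 402 / (400 * m) * C, ?_⟩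
  refine ⟨by have := hG.cpos; positivity, fun u hu => ?_, fun u hu => ?_, fun u => ?_, ?_, fun v => ?_, fun u => ?_⟩
  · rw [hφ', inn]
    · field_simp
    · rw [abs_le] at hu; linarith
    · rw [abs_le] at hu; linarith
  · rw [hφ']
    rcases le_total 0 u with h | h
    · rw [abs_of_nonneg h] at hu
      rw [out1 _ _ (by linarith) (by linarith), mul_zero]
    · rw [abs_of_nonpos h] at hu
      rw [out2 _ _ (by linarith) (by linarith), mul_zero]
  · rw [hφ']
    have h0 : 0 ≤ ∫ z in (400 * u + -201)..(400 * u + 201), P z :=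
      intervalIntegral.integral_nonneg (by linarith) fun z _ => (hG.bd z).1
    refine ⟨by positivity, ?_⟩
    have h1 : ∫ z in (400 * u + -201)..(400 * u + 201), P z ≤
        ∫ z in (min (400 * u + -201) (-1))..(max (400 * u + 201) 1), P z :=
      intervalIntegral.integral_mono_interval (min_le_left _ _) (by linarith) (le_max_left _ _)
        (Eventually.of_forall fun y => (hG.bd y).1) (hPi _ _)
    rw [inn _ _ (min_le_right _ _) (le_max_right _ _)] at h1
    rw [one_div, inv_mul_le_iff₀ hmp, mul_one]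
    exact h1
  · rw [hκ]
    have h1 := hG.cont
    have h2 := Real.continuous_sinc
    fun_prop
  · rw [hκ]
    simp only
    have h1 := hG.dec (v / 400)
    have h2 : |Real.sinc (201 * (v / 400))| ≤ 1 := Real.abs_sinc_le_one _
    rw [abs_mul, abs_mul, abs_of_pos (by positivity : 0 < 402 / (400 * m))]
    have h3 : c * |v / 400| ^ (2 / 3 : ℝ) = c / 400 ^ (2 / 3 : ℝ) * |v| ^ (2 / 3 : ℝ) := by
      rw [abs_div, abs_of_pos (by norm_num : (0 : ℝ) < 400), Real.div_rpow (abs_nonneg _) (by norm_num)]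
      ring
    rw [h3] at h1
    calc 402 / (400 * m) * (|q (v / 400)| * |Real.sinc (201 * (v / 400))|) ≤
        402 / (400 * m) * ((C * Real.exp (-(c / 400 ^ (2 / 3 : ℝ) * |v| ^ (2 / 3 : ℝ)))) * 1) := by gcongr
      _ = _ := by ring
  · have h1 := Pool.Agent.Q210.UM.step (g := P) (Q := q) (φ := fun _ => 1) hG.cont hqi continuous_const
      (fun y => by simp) (fun u => by
        rw [hG.rep u]
        simp) 201 (by norm_num) (400 * u)
    have h2 : (φ u : ℂ) = ((402 / m : ℝ) : ℂ) * (((1 / (2 * 201)) * ∫ s in (-201 : ℝ)..201, P (400 * u + s) : ℝ) : ℂ) := by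
      rw [hφ, ← Complex.ofReal_mul]
      congr 1
      ring
    rw [h2, h1, ← integral_const_mul]
    have h3 := Measure.integral_comp_div (fun y : ℝ => ((402 / m : ℝ) : ℂ) *
      (((q y * (1 * Real.sinc (201 * y)) : ℝ) : ℂ) * cexp (I * (400 * u * y : ℝ)))) (400 : ℝ)
    rw [abs_of_pos (by norm_num : (0 : ℝ) < 400), Complex.real_smul] at h3
    have h4 : ∫ y : ℝ, ((402 / m : ℝ) : ℂ) * (((q y * (1 * Real.sinc (201 * y)) : ℝ) : ℂ) * cexp (I * (400 * u * y : ℝ))) =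
        ((1 / 400 : ℝ) : ℂ) * ∫ v : ℝ, ((402 / m : ℝ) : ℂ) *
      (((q (v / 400) * (1 * Real.sinc (201 * (v / 400))) : ℝ) : ℂ) * cexp (I * (400 * u * (v / 400) : ℝ))) := by
      rw [h3]
      push_cast
      ring
    rw [h4, ← integral_const_mul, hκ]
    refine integral_congr_ae (Eventually.of_forall fun v => ?_)
    simp only
    have h5 : 400 * u * (v / 400) = u * v := by ring
    have hmc : (m : ℂ) ≠ 0 := by exact_mod_cast hmp.ne'
    rw [h5]
    push_cast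
    field_simp

end

end Pool.Agent.H469.F4
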