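import Pool.Agent.H469.F4.PHS
import Pool.Agent.H469.F4.GW

set_option autoImplicit false

/-!
# Zeta is bounded by a smooth Dirichlet polynomial of length `T ^ (101/200)` and its translates
-/

namespace Pool.Agent.H469.F4

open Filter Topology MeasureTheory Complex Pool.Agent.Q97.UM
open Pool.Agent.Q86.UM (dp_cont dp_bdd)
open Pool.Agent.Q178.UM.PH (ph ph_norm)

noncomputable section

/-- coefficients of the smooth polynomial -/
def af (φ : ℝ → ℝ) (T : ℝ) (k : ℕ) : ℂ := ((φ (Real.log k / Real.log T) : ℝ) : ℂ)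

/-- the smooth polynomial -/
def A0 (φ : ℝ → ℝ) (T t : ℝ) : ℂ := dp ⌊T ^ (101 / 200 : ℝ)⌋₊ (af φ T) t

variable {φ κ : ℝ → ℝ} {c C : ℝ}

theorem Cut.C_nonneg (h : Cut φ κ c C) : 0 ≤ C := by
  have := (abs_nonneg _).trans (h.dec 0)
  exact nonneg_of_mul_nonneg_left this (Real.exp_pos _)

/-- integrability of the kernel with weights -/
theorem Cut.int_w (h : Cut φ κ c C) (a : ℝ) (ha : 0 ≤ a) (n : ℕ) (hn : n ≤ 4) : Integrable fun v : ℝ =>
    |κ v| * (Real.exp (a * (1 + |v|) ^ (3 / 5 : ℝ)) * (1 + |v|) ^ n) := by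
  refine ((exp_intA h.cpos a ha n hn).const_mul C).mono' ?_ (Eventually.of_forall fun v => ?_)
  · have h2 : Continuous fun y : ℝ => (1 + |y|) ^ (3 / 5 : ℝ) :=
      (continuous_const.add continuous_abs).rpow_const fun _ => Or.inr (by norm_num)
    have h3 := h.cont
    exact (by fun_prop : Continuous _).aestronglyMeasurable
  · rw [Real.norm_of_nonneg (by positivity)]
    calc |κ v| * (Real.exp (a * (1 + |v|) ^ (3 / 5 : ℝ)) * (1 + |v|) ^ n) ≤
        (C * Real.exp (-(c * |v| ^ (2 / 3 : ℝ)))) * (Real.exp (a * (1 + |v|) ^ (3 / 5 : ℝ)) * (1 + |v|) ^ n) := by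
          apply mul_le_mul_of_nonneg_right (h.dec v) (by positivity)
      _ = _ := by ring

theorem Cut.int_n (h : Cut φ κ c C) (n : ℕ) (hn : n ≤ 4) : Integrable fun v : ℝ => |κ v| * (1 + |v|) ^ n := by
  have := h.int_w 0 le_rfl n hn
  simpa using this

theorem Cut.int_abs (h : Cut φ κ c C) : Integrable fun v : ℝ => |κ v| := by
  have := h.int_n 0 (by norm_num)
  simpa using this

/-- the translates of a Dirichlet polynomial, averaged over the kernel -/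
theorem Cut.conv (h : Cut φ κ c C) (K : ℕ) (f : ℕ → ℂ) (t L ν : ℝ) :
    ∫ v : ℝ, ((κ v : ℂ) * cexp (-(I * (ν * v : ℝ)))) * dp K f (t - v / L) =
      dp K (fun k => f k * ((φ (Real.log k / L - ν) : ℝ) : ℂ)) t := by
  have hterm : ∀ k ∈ Finset.Icc 1 K, ∀ v : ℝ, (k : ℂ) ^ (-(1 / 2 + ((t - v / L : ℝ) : ℂ) * I)) =
      (k : ℂ) ^ (-(1 / 2 + (t : ℂ) * I)) * cexp (I * (Real.log k / L * v : ℝ)) := by
    intro k hk v
    have hk0 : (k : ℂ) ≠ 0 := by
      have := (Finset.mem_Icc.1 hk).1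
      exact_mod_cast (by omega : k ≠ 0)
    rw [Complex.cpow_def_of_ne_zero hk0, Complex.cpow_def_of_ne_zero hk0, ← Complex.exp_add]
    congr 1
    rw [← Complex.natCast_log]
    push_cast
    ring
  have hint : ∀ u : ℝ, Integrable fun v : ℝ => (κ v : ℂ) * cexp (I * (u * v : ℝ)) := by
    intro u
    refine h.int_abs.mono' ?_ (Eventually.of_forall fun v => ?_)
    · have := h.cont
      exact (by fun_prop : Continuous _).aestronglyMeasurable
    · rw [norm_mul, Pool.Agent.Q210.UM.norm_exp, mul_one, Complex.norm_real, Real.norm_eq_abs]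
  have hpt : ∀ v : ℝ, ((κ v : ℂ) * cexp (-(I * (ν * v : ℝ)))) * dp K f (t - v / L) =
      ∑ k ∈ Finset.Icc 1 K, (f k * (k : ℂ) ^ (-(1 / 2 + (t : ℂ) * I))) *
        ((κ v : ℂ) * cexp (I * ((Real.log k / L - ν) * v : ℝ))) := by
    intro v
    unfold dp
    rw [Finset.mul_sum]
    refine Finset.sum_congr rfl fun k hk => ?_
    rw [hterm k hk v]
    have h1 : cexp (I * ((Real.log k / L - ν) * v : ℝ)) =
        cexp (-(I * (ν * v : ℝ))) * cexp (I * (Real.log k / L * v : ℝ)) := by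
      rw [← Complex.exp_add]
      congr 1
      push_cast
      ring
    rw [h1]
    ring
  simp only [hpt]
  rw [integral_finset_sum _ fun k _ => (hint _).const_mul _]
  unfold dp
  refine Finset.sum_congr rfl fun k _ => ?_
  rw [integral_const_mul, ← h.rep]
  ring

theorem conv_int (h : Cut φ κ c C) (K : ℕ) (f : ℕ → ℂ) (t L ν : ℝ) :
    Integrable fun v : ℝ => ((κ v : ℂ) * cexp (-(I * (ν * v : ℝ)))) * dp K f (t - v / L) := by
  refine (h.int_abs.mul_const (∑ n ∈ Finset.Icc 1 K, ‖f n‖)).mono' ?_ (Eventually.of_forall fun v => ?_)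
  · have h1 := h.cont
    have h2 := dp_cont K f
    exact (by fun_prop : Continuous _).aestronglyMeasurable
  · have h1 : ‖cexp (-(I * (ν * v : ℝ)))‖ = 1 := by
      rw [Complex.norm_exp]
      simp
    rw [norm_mul, norm_mul, h1, mul_one, Complex.norm_real, Real.norm_eq_abs]
    exact mul_le_mul_of_nonneg_left (dp_bdd K f _) (abs_nonneg _)

theorem sum_rsqrt (n : ℕ) : ∑ k ∈ Finset.Icc 1 n, (k : ℝ) ^ (-(1 / 2) : ℝ) ≤ 2 * Real.sqrt n := by
  induction n with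
  | zero => simp
  | succ n ih =>
    rw [Finset.sum_Icc_succ_top (by omega)]
    have h1 : ((n + 1 : ℕ) : ℝ) ^ (-(1 / 2) : ℝ) = 1 / Real.sqrt ((n + 1 : ℕ) : ℝ) := by
      rw [Real.sqrt_eq_rpow, Real.rpow_neg (Nat.cast_nonneg _)]
      exact (one_div _).symm
    rw [h1]
    have h2 : 0 < Real.sqrt ((n + 1 : ℕ) : ℝ) := Real.sqrt_pos.2 (by positivity)
    have h3 : Real.sqrt n ^ 2 = n := Real.sq_sqrt (Nat.cast_nonneg _)
    have h4 : Real.sqrt ((n + 1 : ℕ) : ℝ) ^ 2 = n + 1 := by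
      rw [Real.sq_sqrt (Nat.cast_nonneg _)]
      push_cast
      ring
    have h5 : 1 / Real.sqrt ((n + 1 : ℕ) : ℝ) ≤ 2 * Real.sqrt ((n + 1 : ℕ) : ℝ) - 2 * Real.sqrt n := by
      rw [div_le_iff₀ h2]
      nlinarith [sq_nonneg (Real.sqrt ((n + 1 : ℕ) : ℝ) - Real.sqrt n)]
    linarith

/-- the short form of the smooth polynomial -/
theorem A0_eq (h : Cut φ κ c C) {T : ℝ} (hT : 1 < T) (t : ℝ) (K : ℕ) (hK : T ^ (101 / 200 : ℝ) ≤ K) :
    dp K (af φ T) t = A0 φ T t := by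
  unfold A0 dp
  have hle : ⌊T ^ (101 / 200 : ℝ)⌋₊ ≤ K := by
    have := Nat.floor_le_floor hK
    rwa [Nat.floor_natCast] at this
  symm
  refine Finset.sum_subset (Finset.Icc_subset_Icc_right hle) fun k hk hk' => ?_
  rw [Finset.mem_Icc] at hk hk'
  have hk1 : ⌊T ^ (101 / 200 : ℝ)⌋₊ < k := by
    by_contra hcon
    exact hk' ⟨hk.1, by omega⟩
  have hk2 : T ^ (101 / 200 : ℝ) < k := (Nat.floor_lt (by positivity)).1 hk1
  have hT0 : 0 < T := by linarith
  have hL : 0 < Real.log T := Real.log_pos hT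
  have h1 : 101 / 200 * Real.log T ≤ Real.log k := by
    rw [← Real.log_rpow hT0]
    exact Real.log_le_log (by positivity) hk2.le
  have h2 : 101 / 200 ≤ Real.log k / Real.log T := by
    rw [le_div_iff₀ hL]
    exact h1
  unfold af
  rw [h.zero _ (by rw [abs_of_nonneg (by linarith)]; exact h2)]
  simp

/-- zeta is bounded by the smooth polynomial and its translates -/
theorem afe (h : Cut φ κ c C) : ∃ C' : ℝ, 0 ≤ C' ∧ ∀ᶠ T : ℝ in atTop, ∀ t : ℝ, T / 2 ≤ t → t ≤ 3 * T →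
    ‖zt t‖ ≤ 2 * ‖A0 φ T t‖ + (∫ v : ℝ, |κ v| * ‖A0 φ T (t - v / Real.log T)‖) + C' * T ^ (-(3 / 8) : ℝ) := by
  obtain ⟨ψ, CB, hψc, hψ1, hψ0, hψb, hCB, hev⟩ := (Pool.Agent.Q92.UM.t_BLZ : S_BLZ)
  obtain ⟨J2, hJ2⟩ : ∃ J2 : ℝ, J2 = ∫ v : ℝ, |κ v| * (1 + |v|) ^ 2 := ⟨_, rfl⟩
  have hJ20 : 0 ≤ J2 := by
    rw [hJ2]
    exact integral_nonneg fun v => by positivity
  obtain ⟨C₁, hC₁⟩ : ∃ C₁ : ℝ, C₁ = 80 * (2 + CB) + 2 * CB + 64 := ⟨_, rfl⟩
  have hC₁0 : 0 ≤ C₁ := by rw [hC₁]; positivity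
  refine ⟨C₁ * (1 + J2) + CB, by positivity, ?_⟩
  have ev1 : ∀ᶠ T : ℝ in atTop, 3 / 4 < Real.log (T / 2 / (2 * Real.pi)) / Real.log T := by
    have h1 := Real.tendsto_log_atTop.eventually_ge_atTop (8 * Real.log (4 * Real.pi) + 1)
    filter_upwards [h1, eventually_ge_atTop (2 : ℝ)] with T hT hT2
    have hpi := Real.pi_gt_three
    have hl : 0 ≤ Real.log (4 * Real.pi) := Real.log_nonneg (by linarith)
    have hT0 : 0 < T := by linarith
    rw [lt_div_iff₀ (by linarith)]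
    have e : T / 2 / (2 * Real.pi) = T / (4 * Real.pi) := by
      field_simp
      ring
    rw [e, Real.log_div hT0.ne' (by positivity)]
    linarith
  filter_upwards [hev, ev1, eventually_ge_atTop (16 : ℝ), Real.tendsto_log_atTop.eventually_ge_atTop 1] with T hB hμ1 hT16 hL1
  intro t ht1 ht2
  have hT0 : 0 < T := by linarith
  have hT1 : 1 ≤ T := by linarith
  obtain ⟨L, hL⟩ : ∃ L : ℝ, L = Real.log T := ⟨_, rfl⟩
  rw [← hL] at hB hL1 hμ1 ⊢
  have hL0 : 0 < L := by linarith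
  have ht0 : 0 < t := by linarith
  have hpi := Real.pi_gt_three
  obtain ⟨K, hK⟩ : ∃ K : ℕ, K = ⌊T ^ (2 : ℝ)⌋₊ := ⟨_, rfl⟩
  rw [← hK] at hB
  obtain ⟨f, hf⟩ : ∃ f : ℕ → ℂ, f = fun k : ℕ => ((ψ (Real.log (k : ℝ) / L) : ℝ) : ℂ) := ⟨_, rfl⟩
  obtain ⟨Z, hZ⟩ : ∃ Z : ℝ → ℂ, Z = fun y => dp K f y := ⟨_, rfl⟩
  have hZB : ∀ y : ℝ, T / 4 ≤ y → y ≤ 4 * T → ‖zt y - Z y‖ ≤ CB / T ^ 3 := by
    intro y h1 h2
    have h3 := hB (1 / 2 + y * I) (by simp) (by simpa using h1) (by simpa using h2)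
    rw [hZ, hf]
    exact h3
  -- the trivial bound
  have hZt : ∀ y : ℝ, ‖Z y‖ ≤ 2 * T ^ (5 / 8 : ℝ) := by
    intro y
    rw [hZ]
    simp only
    unfold dp
    have hn : ∀ k ∈ Finset.Icc 1 K, ‖f k * (k : ℂ) ^ (-(1 / 2 + (y : ℂ) * I))‖ ≤
        if k ≤ ⌊T ^ (5 / 4 : ℝ)⌋₊ then (k : ℝ) ^ (-(1 / 2) : ℝ) else 0 := by
      intro k hk
      have hk1 := (Finset.mem_Icc.1 hk).1
      have e1 : ‖(k : ℂ) ^ (-(1 / 2 + (y : ℂ) * I))‖ = (k : ℝ) ^ (-(1 / 2) : ℝ) := by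
        rw [Complex.norm_natCast_cpow_of_pos hk1]
        congr 1
        simp
      rw [norm_mul, e1, hf]
      simp only
      rw [Complex.norm_real, Real.norm_of_nonneg (hψb _).1]
      split_ifs with hk2
      · have h1 : 0 ≤ (k : ℝ) ^ (-(1 / 2) : ℝ) := by positivity
        have h2 := (hψb (Real.log k / L)).2
        nlinarith
      · have hk3 : T ^ (5 / 4 : ℝ) < k := (Nat.floor_lt (by positivity)).1 (not_le.1 hk2)
        have h1 : 5 / 4 * L ≤ Real.log k := by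
          rw [hL, ← Real.log_rpow hT0]
          exact Real.log_le_log (by positivity) hk3.le
        rw [hψ0 _ (by rw [le_div_iff₀ hL0]; exact h1), zero_mul]
    refine (norm_sum_le _ _).trans ((Finset.sum_le_sum hn).trans ?_)
    rw [← Finset.sum_filter]
    have h1 : ∑ k ∈ (Finset.Icc 1 K).filter (fun k => k ≤ ⌊T ^ (5 / 4 : ℝ)⌋₊), (k : ℝ) ^ (-(1 / 2) : ℝ) ≤
        ∑ k ∈ Finset.Icc 1 ⌊T ^ (5 / 4 : ℝ)⌋₊, (k : ℝ) ^ (-(1 / 2) : ℝ) := by
      refine Finset.sum_le_sum_of_subset_of_nonneg (fun k hk => ?_) fun k _ _ => by positivity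
      rw [Finset.mem_filter, Finset.mem_Icc] at hk
      exact Finset.mem_Icc.2 ⟨hk.1.1, hk.2⟩
    refine h1.trans ((sum_rsqrt _).trans ?_)
    have h2 : Real.sqrt (⌊T ^ (5 / 4 : ℝ)⌋₊ : ℝ) ≤ Real.sqrt (T ^ (5 / 4 : ℝ)) :=
      Real.sqrt_le_sqrt (Nat.floor_le (by positivity))
    have h3 : Real.sqrt (T ^ (5 / 4 : ℝ)) = T ^ (5 / 8 : ℝ) := by
      rw [Real.sqrt_eq_rpow, ← Real.rpow_mul hT0.le]
      norm_num
    rw [h3] at h2
    linarith
  -- the rotated functional equation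
  obtain ⟨μ, hμ⟩ : ∃ μ : ℝ, μ = Real.log (t / (2 * Real.pi)) / L := ⟨_, rfl⟩
  obtain ⟨w, hw⟩ : ∃ w : ℂ, w = (starRingEnd ℂ) (ph t) ^ 2 := ⟨_, rfl⟩
  have hwn : ‖w‖ = 1 := by
    rw [hw, norm_pow, Complex.norm_conj, ph_norm, one_pow]
  have hen : ∀ x : ℝ, ‖cexp (I * (x : ℝ))‖ = 1 := Pool.Agent.Q210.UM.norm_exp
  have hT38 : 0 < T ^ (-(3 / 8) : ℝ) := by positivity
  have hT58 : T ^ (5 / 8 : ℝ) = T ^ (-(3 / 8) : ℝ) * T := by
    nth_rewrite 3 [← Real.rpow_one T]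
    rw [← Real.rpow_add hT0]
    norm_num
  have hT3 : 1 / T ^ 3 ≤ T ^ (-(3 / 8) : ℝ) := by
    have e : 1 / T ^ 3 = T ^ (-3 : ℝ) := by
      rw [Real.rpow_neg hT0.le, one_div]
      norm_cast
    rw [e]
    exact Real.rpow_le_rpow_of_exponent_le hT1 (by norm_num)
  have hrot : ∀ v : ℝ, ‖Z (t - v / L) - w * cexp (I * (μ * v : ℝ)) * (starRingEnd ℂ) (Z (t - v / L))‖ ≤
      C₁ * T ^ (-(3 / 8) : ℝ) * (1 + |v|) ^ 2 := by
    intro v
    have hv0 := abs_nonneg v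
    rcases le_or_gt (|v| / L) (T / 4) with hv | hv
    · have habs : |v / L| ≤ T / 4 := by rwa [abs_div, abs_of_pos hL0]
      have habs' := abs_le.1 habs
      have h1 := zeta_rot (t := t) (h := -(v / L)) (by linarith) (by rw [abs_neg]; linarith)
      have e0 : t + -(v / L) = t - v / L := by ring
      have e1 : cexp (-(I * (-(v / L) * Real.log (t / (2 * Real.pi)) : ℝ))) = cexp (I * (μ * v : ℝ)) := by
        congr 1
        rw [hμ]
        push_cast
        ring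
      rw [e0, e1, ← hw, abs_neg] at h1
      have h2 := hZB (t - v / L) (by linarith) (by linarith)
      obtain ⟨z, hz⟩ : ∃ z : ℂ, z = zt (t - v / L) := ⟨_, rfl⟩
      have hzz : riemannZeta (1 / 2 + ((t - v / L : ℝ) : ℂ) * I) = z := by rw [hz]; rfl
      rw [hzz] at h1
      rw [← hz] at h2
      obtain ⟨x, hx⟩ : ∃ x : ℂ, x = Z (t - v / L) := ⟨_, rfl⟩
      rw [← hx] at h2 ⊢
      have h3 : x - w * cexp (I * (μ * v : ℝ)) * (starRingEnd ℂ) x =
          (z - w * cexp (I * (μ * v : ℝ)) * (starRingEnd ℂ) z) - (z - x) +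
            w * cexp (I * (μ * v : ℝ)) * (starRingEnd ℂ) (z - x) := by
        rw [map_sub]
        ring
      rw [h3]
      have h4 : ‖w * cexp (I * (μ * v : ℝ)) * (starRingEnd ℂ) (z - x)‖ = ‖z - x‖ := by
        rw [norm_mul, norm_mul, hwn, hen, Complex.norm_conj]
        ring
      have h5 : ‖z‖ ≤ (2 + CB) * T ^ (5 / 8 : ℝ) := by
        have e2 : ‖z‖ ≤ ‖z - x‖ + ‖x‖ := by
          have := norm_add_le (z - x) x
          rwa [sub_add_cancel] at this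
        have e3 : ‖x‖ ≤ 2 * T ^ (5 / 8 : ℝ) := by rw [hx]; exact hZt _
        have e4 : CB / T ^ 3 ≤ CB * T ^ (5 / 8 : ℝ) := by
          rw [div_eq_mul_one_div]
          apply mul_le_mul_of_nonneg_left _ hCB
          refine hT3.trans ?_
          exact Real.rpow_le_rpow_of_exponent_le hT1 (by norm_num)
        linarith
      have h6 : 40 * |v / L| * (1 + |v / L|) / t * ‖z‖ ≤ 80 * (2 + CB) * T ^ (-(3 / 8) : ℝ) * (1 + |v|) ^ 2 := by
        have e2 : |v / L| ≤ |v| := by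
          rw [abs_div, abs_of_pos hL0]
          exact div_le_self hv0 hL1
        have e3 : 40 * |v / L| * (1 + |v / L|) / t ≤ 40 * (1 + |v|) * (1 + |v|) / (T / 2) := by
          gcongr
          linarith
        calc 40 * |v / L| * (1 + |v / L|) / t * ‖z‖ ≤
            40 * (1 + |v|) * (1 + |v|) / (T / 2) * ((2 + CB) * T ^ (5 / 8 : ℝ)) := by gcongr
          _ = _ := by
              rw [hT58]
              field_simp
              ring
      have h7 : CB / T ^ 3 ≤ CB * T ^ (-(3 / 8) : ℝ) := by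
        rw [div_eq_mul_one_div]
        exact mul_le_mul_of_nonneg_left hT3 hCB
      have h8 : 1 ≤ (1 + |v|) ^ 2 := one_le_pow₀ (by linarith)
      calc _ ≤ ‖(z - w * cexp (I * (μ * v : ℝ)) * (starRingEnd ℂ) z) - (z - x)‖ +
            ‖w * cexp (I * (μ * v : ℝ)) * (starRingEnd ℂ) (z - x)‖ := norm_add_le _ _
        _ ≤ (‖z - w * cexp (I * (μ * v : ℝ)) * (starRingEnd ℂ) z‖ + ‖z - x‖) + ‖z - x‖ := by
            rw [h4]
            exact add_le_add (norm_sub_le _ _) le_rfl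
        _ ≤ (80 * (2 + CB) * T ^ (-(3 / 8) : ℝ) * (1 + |v|) ^ 2 + CB * T ^ (-(3 / 8) : ℝ)) + CB * T ^ (-(3 / 8) : ℝ) := by
            gcongr
            · exact h1.trans h6
            · exact h2.trans h7
            · exact h2.trans h7
        _ ≤ _ := by
            rw [hC₁]
            have e5 : (2 * CB + 64) * T ^ (-(3 / 8) : ℝ) * 1 ≤ (2 * CB + 64) * T ^ (-(3 / 8) : ℝ) * (1 + |v|) ^ 2 := by
              gcongr
            have e6 : 0 ≤ 64 * T ^ (-(3 / 8) : ℝ) := by positivity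
            linarith
    · have h1 : ‖Z (t - v / L) - w * cexp (I * (μ * v : ℝ)) * (starRingEnd ℂ) (Z (t - v / L))‖ ≤
          4 * T ^ (5 / 8 : ℝ) := by
        refine (norm_sub_le _ _).trans ?_
        rw [norm_mul, norm_mul, hwn, hen, Complex.norm_conj]
        have := hZt (t - v / L)
        linarith
      refine h1.trans ?_
      have h2 : T / 4 ≤ |v| := by
        refine hv.le.trans (div_le_self hv0 hL1)
      have h3 : T * T / 16 ≤ (1 + |v|) ^ 2 := by nlinarith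
      calc 4 * T ^ (5 / 8 : ℝ) = 64 * T ^ (-(3 / 8) : ℝ) * (T / 16) := by rw [hT58]; ring
        _ ≤ 64 * T ^ (-(3 / 8) : ℝ) * (1 + |v|) ^ 2 := by
            gcongr
            nlinarith
        _ ≤ C₁ * T ^ (-(3 / 8) : ℝ) * (1 + |v|) ^ 2 := by
            gcongr
            rw [hC₁]
            have : 0 ≤ 80 * (2 + CB) + 2 * CB := by positivity
            linarith
  -- the polynomials
  have hT2 : T ^ (101 / 200 : ℝ) ≤ K := by
    have h1 : T ^ (2 : ℝ) < K + 1 := by rw [hK]; exact Nat.lt_floor_add_one _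
    have h2 : T ^ (2 : ℝ) = T * T := by
      rw [Real.rpow_two]
      ring
    have h3 : T ^ (101 / 200 : ℝ) ≤ T := by
      calc T ^ (101 / 200 : ℝ) ≤ T ^ (1 : ℝ) := Real.rpow_le_rpow_of_exponent_le hT1 (by norm_num)
        _ = T := Real.rpow_one T
    have h4 : T * T < K + 1 := by rw [← h2]; exact h1
    have h5 : 16 * T ≤ T * T := mul_le_mul_of_nonneg_right hT16 hT0.le
    have h6 : T ≤ K := by
      obtain ⟨S, hS⟩ : ∃ S : ℝ, S = T * T := ⟨_, rfl⟩
      rw [← hS] at h4 h5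
      linarith only [h4, h5, hT16]
    exact h3.trans h6
  have hA : ∀ y, dp K (af φ T) y = A0 φ T y := fun y => A0_eq h (by linarith) y K hT2
  have e3 : ∫ v : ℝ, ((κ v : ℂ) * cexp (-(I * ((0 : ℝ) * v : ℝ)))) * Z (t - v / L) = A0 φ T t := by
    rw [hZ]
    simp only
    rw [h.conv K f t L 0, ← hA]
    unfold dp
    refine Finset.sum_congr rfl fun k hk => ?_
    congr 1
    rw [hf]
    unfold af
    rw [← hL]
    rcases lt_or_ge (Real.log k / L) (101 / 200) with hk2 | hk2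
    · simp only
      rw [hψ1 _ (by linarith)]
      simp
    · have h0 := h.zero (Real.log k / L) (by rw [abs_of_nonneg (by linarith)]; exact hk2)
      simp [h0]
  obtain ⟨B, hBd⟩ : ∃ B : ℂ, B = Z t - ∫ v : ℝ, ((κ v : ℂ) * cexp (-(I * (μ * v : ℝ)))) * Z (t - v / L) := ⟨_, rfl⟩
  have hμlo : 3 / 4 < μ := by
    rw [hμ]
    refine hμ1.trans_le ?_
    apply div_le_div_of_nonneg_right _ hL0.le
    apply Real.log_le_log (by positivity)
    apply div_le_div_of_nonneg_right ht1 (by positivity)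
  have hμhi : μ ≤ 1 := by
    rw [hμ, div_le_one hL0, hL]
    apply Real.log_le_log (by positivity)
    rw [div_le_iff₀ (by positivity)]
    nlinarith
  have e4 : B = A0 φ T t - ∫ v : ℝ, ((κ v : ℂ) * cexp (-(I * (μ * v : ℝ)))) * A0 φ T (t - v / L) := by
    rw [hBd, hZ]
    simp only [← hA]
    rw [h.conv K f t L μ, h.conv K (af φ T) t L μ]
    unfold dp
    rw [← Finset.sum_sub_distrib, ← Finset.sum_sub_distrib]
    refine Finset.sum_congr rfl fun k hk => ?_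
    rw [← sub_mul, ← sub_mul]
    congr 1
    have hk1 := (Finset.mem_Icc.1 hk).1
    have hu0 : 0 ≤ Real.log k / L := div_nonneg (Real.log_nonneg (by exact_mod_cast hk1)) hL0.le
    rw [hf]
    unfold af
    rw [← hL]
    simp only
    obtain ⟨u, hu⟩ : ∃ u : ℝ, u = Real.log k / L := ⟨_, rfl⟩
    rw [← hu] at hu0 ⊢
    rcases lt_or_ge u (μ - 1 / 2) with h1 | h1
    · rw [hψ1 u (by linarith), h.one u (by rw [abs_of_nonneg hu0]; linarith)]
    · rcases le_or_gt u (μ + 1 / 2) with h2 | h2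
      · rw [h.one (u - μ) (by rw [abs_le]; constructor <;> linarith)]
        simp
      · rw [hψ0 u (by linarith), h.zero u (by rw [abs_of_nonneg hu0]; linarith)]
  -- comparison
  have hI1 := conv_int h K f t L 0
  have hIm := conv_int h K f t L μ
  have hR : ‖(Z t - A0 φ T t) - w * (starRingEnd ℂ) B‖ ≤ C₁ * (1 + J2) * T ^ (-(3 / 8) : ℝ) := by
    have hcj : (starRingEnd ℂ) (∫ v : ℝ, ((κ v : ℂ) * cexp (-(I * (μ * v : ℝ)))) * Z (t - v / L)) =
        ∫ v : ℝ, ((κ v : ℂ) * cexp (I * (μ * v : ℝ))) * (starRingEnd ℂ) (Z (t - v / L)) := by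
      rw [← integral_conj]
      refine integral_congr_ae (Eventually.of_forall fun v => ?_)
      simp only
      rw [map_mul, map_mul, Complex.conj_ofReal, ← Complex.exp_conj]
      congr 3
      simp
    have hint2 : Integrable fun v : ℝ => ((κ v : ℂ) * cexp (I * (μ * v : ℝ))) * (starRingEnd ℂ) (Z (t - v / L)) := by
      refine (h.int_abs.mul_const (2 * T ^ (5 / 8 : ℝ))).mono' ?_ (Eventually.of_forall fun v => ?_)
      · have h1 := h.cont
        have h2 : Continuous Z := by rw [hZ]; exact dp_cont K f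
        have h3 : Continuous fun v : ℝ => (starRingEnd ℂ) (Z (t - v / L)) :=
          Complex.continuous_conj.comp (h2.comp (by fun_prop))
        exact (((Complex.continuous_ofReal.comp h1).mul (by fun_prop)).mul h3).aestronglyMeasurable
      · rw [norm_mul, norm_mul, hen, mul_one, Complex.norm_real, Real.norm_eq_abs, Complex.norm_conj]
        exact mul_le_mul_of_nonneg_left (hZt _) (abs_nonneg _)
    have hint1 : Integrable fun v : ℝ => ((κ v : ℂ) * cexp (-(I * ((0 : ℝ) * v : ℝ)))) * Z (t - v / L) := by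
      rw [hZ]
      exact hI1
    have e5 : (Z t - A0 φ T t) - w * (starRingEnd ℂ) B =
        (Z t - w * (starRingEnd ℂ) (Z t)) - ∫ v : ℝ, (κ v : ℂ) *
          (Z (t - v / L) - w * cexp (I * (μ * v : ℝ)) * (starRingEnd ℂ) (Z (t - v / L))) := by
      have e6 : ∫ v : ℝ, (κ v : ℂ) *
          (Z (t - v / L) - w * cexp (I * (μ * v : ℝ)) * (starRingEnd ℂ) (Z (t - v / L))) =
          (∫ v : ℝ, ((κ v : ℂ) * cexp (-(I * ((0 : ℝ) * v : ℝ)))) * Z (t - v / L)) -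
          w * ∫ v : ℝ, ((κ v : ℂ) * cexp (I * (μ * v : ℝ))) * (starRingEnd ℂ) (Z (t - v / L)) := by
        rw [← integral_const_mul, ← integral_sub hint1 (hint2.const_mul w)]
        refine integral_congr_ae (Eventually.of_forall fun v => ?_)
        simp
        ring
      rw [e6, e3, hBd, map_sub, hcj]
      ring
    rw [e5]
    have e7 : ‖Z t - w * (starRingEnd ℂ) (Z t)‖ ≤ C₁ * T ^ (-(3 / 8) : ℝ) := by
      have := hrot 0
      simpa using this
    have e8 : ‖∫ v : ℝ, (κ v : ℂ) *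
          (Z (t - v / L) - w * cexp (I * (μ * v : ℝ)) * (starRingEnd ℂ) (Z (t - v / L)))‖ ≤
          C₁ * T ^ (-(3 / 8) : ℝ) * J2 := by
      rw [hJ2, ← integral_const_mul]
      refine norm_integral_le_of_norm_le ((h.int_n 2 (by norm_num)).const_mul _) (Eventually.of_forall fun v => ?_)
      rw [norm_mul, Complex.norm_real, Real.norm_eq_abs]
      calc |κ v| * ‖Z (t - v / L) - w * cexp (I * (μ * v : ℝ)) * (starRingEnd ℂ) (Z (t - v / L))‖ ≤
          |κ v| * (C₁ * T ^ (-(3 / 8) : ℝ) * (1 + |v|) ^ 2) := mul_le_mul_of_nonneg_left (hrot v) (abs_nonneg _)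
        _ = _ := by ring
    calc _ ≤ C₁ * T ^ (-(3 / 8) : ℝ) + C₁ * T ^ (-(3 / 8) : ℝ) * J2 := (norm_sub_le _ _).trans (add_le_add e7 e8)
      _ = _ := by ring
  -- the bound for `B`
  have hBn : ‖B‖ ≤ ‖A0 φ T t‖ + ∫ v : ℝ, |κ v| * ‖A0 φ T (t - v / L)‖ := by
    rw [e4]
    refine (norm_sub_le _ _).trans (add_le_add le_rfl ?_)
    refine (norm_integral_le_integral_norm _).trans (le_of_eq ?_)
    refine integral_congr_ae (Eventually.of_forall fun v => ?_)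
    have h1 : ‖cexp (-(I * (μ * v : ℝ)))‖ = 1 := by
      rw [Complex.norm_exp]
      simp
    simp only
    rw [norm_mul, norm_mul, h1, mul_one, Complex.norm_real, Real.norm_eq_abs]
  have hz1 := hZB t (by linarith) (by linarith)
  have h9 : ‖zt t‖ ≤ ‖zt t - Z t‖ + (‖A0 φ T t‖ + (‖(Z t - A0 φ T t) - w * (starRingEnd ℂ) B‖ + ‖B‖)) := by
    have e6 : zt t = (zt t - Z t) + (A0 φ T t + (((Z t - A0 φ T t) - w * (starRingEnd ℂ) B) + w * (starRingEnd ℂ) B)) := by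
      ring
    have e7 : ‖w * (starRingEnd ℂ) B‖ = ‖B‖ := by
      rw [norm_mul, hwn, one_mul, Complex.norm_conj]
    calc ‖zt t‖ = _ := congrArg norm e6
      _ ≤ ‖zt t - Z t‖ + (‖A0 φ T t‖ + (‖(Z t - A0 φ T t) - w * (starRingEnd ℂ) B‖ + ‖w * (starRingEnd ℂ) B‖)) := by
          refine (norm_add_le _ _).trans (add_le_add le_rfl ?_)
          exact (norm_add_le _ _).trans (add_le_add le_rfl (norm_add_le _ _))
      _ = _ := by rw [e7]
  have h10 : CB / T ^ 3 ≤ CB * T ^ (-(3 / 8) : ℝ) := by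
    rw [div_eq_mul_one_div]
    exact mul_le_mul_of_nonneg_left hT3 hCB
  have h11 : (C₁ * (1 + J2) + CB) * T ^ (-(3 / 8) : ℝ) = C₁ * (1 + J2) * T ^ (-(3 / 8) : ℝ) + CB * T ^ (-(3 / 8) : ℝ) := by
    ring
  rw [h11]
  linarith

/-- the square of the bound -/
theorem afe_sq (h : Cut φ κ c C) : ∃ C' : ℝ, 1 ≤ C' ∧ ∀ᶠ T : ℝ in atTop, ∀ t : ℝ, T / 2 ≤ t → t ≤ 3 * T →
    ‖zt t‖ ^ 2 ≤ C' * (‖A0 φ T t‖ ^ 2 + (∫ v : ℝ, |κ v| * ‖A0 φ T (t - v / Real.log T)‖ ^ 2) + T ^ (-(3 / 4) : ℝ)) := by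
  obtain ⟨C₀, hC₀, hev⟩ := afe h
  obtain ⟨J, hJ⟩ : ∃ J : ℝ, J = ∫ v : ℝ, |κ v| := ⟨_, rfl⟩
  have hJ0 : 0 ≤ J := by
    rw [hJ]
    exact integral_nonneg fun v => abs_nonneg _
  refine ⟨12 + 3 * J + 3 * C₀ ^ 2, by nlinarith [sq_nonneg C₀], ?_⟩
  filter_upwards [hev, eventually_ge_atTop (1 : ℝ)] with T hT hT1
  intro t ht1 ht2
  have hT0 : 0 < T := by linarith
  have h1 := hT t ht1 ht2
  obtain ⟨g, hg⟩ : ∃ g : ℝ → ℝ, g = fun v => ‖A0 φ T (t - v / Real.log T)‖ := ⟨_, rfl⟩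
  have hgc : Continuous g := by
    rw [hg]
    unfold A0
    exact ((dp_cont _ _).comp (by fun_prop)).norm
  obtain ⟨Bd, hBd⟩ : ∃ Bd : ℝ, Bd = ∑ n ∈ Finset.Icc 1 ⌊T ^ (101 / 200 : ℝ)⌋₊, ‖af φ T n‖ := ⟨_, rfl⟩
  have hgB : ∀ v, g v ≤ Bd := fun v => by
    rw [hg, hBd]
    exact dp_bdd _ _ _
  have hg0 : ∀ v, 0 ≤ g v := fun v => by
    rw [hg]
    exact norm_nonneg _
  have hBd0 : 0 ≤ Bd := (hg0 0).trans (hgB 0)
  have hi1 : Integrable fun v : ℝ => |κ v| * g v := by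
    refine (h.int_abs.mul_const Bd).mono' ((h.cont.abs).mul hgc).aestronglyMeasurable (Eventually.of_forall fun v => ?_)
    rw [Real.norm_of_nonneg (mul_nonneg (abs_nonneg _) (hg0 v))]
    exact mul_le_mul_of_nonneg_left (hgB v) (abs_nonneg _)
  have hi2 : Integrable fun v : ℝ => |κ v| * g v ^ 2 := by
    refine (h.int_abs.mul_const (Bd ^ 2)).mono' ((h.cont.abs).mul (hgc.pow 2)).aestronglyMeasurable (Eventually.of_forall fun v => ?_)
    rw [Real.norm_of_nonneg (mul_nonneg (abs_nonneg _) (sq_nonneg _))]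
    exact mul_le_mul_of_nonneg_left (pow_le_pow_left₀ (hg0 v) (hgB v) 2) (abs_nonneg _)
  -- Cauchy-Schwarz
  have hcs : (∫ v : ℝ, |κ v| * g v) ^ 2 ≤ J * ∫ v : ℝ, |κ v| * g v ^ 2 := by
    obtain ⟨X, hX⟩ : ∃ X : ℝ, X = ∫ v : ℝ, |κ v| * g v := ⟨_, rfl⟩
    obtain ⟨Y, hY⟩ : ∃ Y : ℝ, Y = ∫ v : ℝ, |κ v| * g v ^ 2 := ⟨_, rfl⟩
    rw [← hX, ← hY]
    have hq : ∀ s : ℝ, 0 ≤ Y - 2 * s * X + s ^ 2 * J := by
      intro s
      have h2 : 0 ≤ ∫ v : ℝ, |κ v| * (g v - s) ^ 2 :=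
        integral_nonneg fun v => mul_nonneg (abs_nonneg _) (sq_nonneg _)
      have h3 : ∫ v : ℝ, |κ v| * (g v - s) ^ 2 = Y - 2 * s * X + s ^ 2 * J := by
        have i3 : Integrable fun v : ℝ => 2 * s * (|κ v| * g v) := hi1.const_mul _
        have i4 : Integrable fun v : ℝ => s ^ 2 * |κ v| := h.int_abs.const_mul _
        have i5 : Integrable fun v : ℝ => |κ v| * g v ^ 2 - 2 * s * (|κ v| * g v) := hi2.sub i3
        have e1 : ∫ v : ℝ, |κ v| * (g v - s) ^ 2 = ∫ v : ℝ, ((|κ v| * g v ^ 2 - 2 * s * (|κ v| * g v)) + s ^ 2 * |κ v|) := by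
          refine integral_congr_ae (Eventually.of_forall fun v => ?_)
          simp only
          ring
        rw [e1, integral_add i5 i4, integral_sub hi2 i3, integral_const_mul, integral_const_mul, ← hX, ← hY, ← hJ]
      rwa [h3] at h2
    rcases hJ0.eq_or_lt with hJz | hJp
    · have hY0 : 0 ≤ Y := by
        have := hq 0
        simpa using this
      have hX0 : X = 0 := by
        by_contra hne
        have h2 := hq ((Y + 1) / (2 * X))
        rw [← hJz, mul_zero, add_zero] at h2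
        have h3 : 2 * ((Y + 1) / (2 * X)) * X = Y + 1 := by
          field_simp
        rw [h3] at h2
        linarith
      rw [hX0, ← hJz]
      simp
    · have h2 := hq (X / J)
      have h3 : Y - 2 * (X / J) * X + (X / J) ^ 2 * J = Y - X ^ 2 / J := by
        field_simp
        ring
      rw [h3, sub_nonneg, div_le_iff₀ hJp] at h2
      linarith
  obtain ⟨e, he⟩ : ∃ e : ℝ, e = T ^ (-(3 / 8) : ℝ) := ⟨_, rfl⟩
  have he2 : T ^ (-(3 / 4) : ℝ) = e ^ 2 := by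
    rw [he, ← Real.rpow_natCast, ← Real.rpow_mul hT0.le]
    norm_num
  have he0 : 0 ≤ e := by rw [he]; positivity
  have h1' : ‖zt t‖ ≤ 2 * ‖A0 φ T t‖ + (∫ v : ℝ, |κ v| * g v) + C₀ * e := by
    rw [hg, he]
    exact h1
  have hgoal : ∫ v : ℝ, |κ v| * ‖A0 φ T (t - v / Real.log T)‖ ^ 2 = ∫ v : ℝ, |κ v| * g v ^ 2 := by
    rw [hg]
  rw [hgoal, he2]
  obtain ⟨X, hX⟩ : ∃ X : ℝ, X = ∫ v : ℝ, |κ v| * g v := ⟨_, rfl⟩
  obtain ⟨Y, hY⟩ : ∃ Y : ℝ, Y = ∫ v : ℝ, |κ v| * g v ^ 2 := ⟨_, rfl⟩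
  rw [← hX] at h1' hcs
  rw [← hY] at hcs ⊢
  have hY0 : 0 ≤ Y := by
    rw [hY]
    exact integral_nonneg fun v => mul_nonneg (abs_nonneg _) (sq_nonneg _)
  have hX0 : 0 ≤ X := by
    rw [hX]
    exact integral_nonneg fun v => mul_nonneg (abs_nonneg _) (hg0 v)
  obtain ⟨x, hx⟩ : ∃ x : ℝ, x = ‖A0 φ T t‖ := ⟨_, rfl⟩
  have hx0 : 0 ≤ x := by rw [hx]; exact norm_nonneg _
  rw [← hx] at h1' ⊢
  have h2 : ‖zt t‖ ^ 2 ≤ (2 * x + X + C₀ * e) ^ 2 := pow_le_pow_left₀ (norm_nonneg _) h1' 2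
  have h3 : (2 * x + X + C₀ * e) ^ 2 ≤ 3 * (4 * x ^ 2 + X ^ 2 + C₀ ^ 2 * e ^ 2) := by
    nlinarith [sq_nonneg (2 * x - X), sq_nonneg (2 * x - C₀ * e), sq_nonneg (X - C₀ * e)]
  refine h2.trans (h3.trans ?_)
  have p1 : 0 ≤ x ^ 2 := sq_nonneg _
  have p2 : 0 ≤ e ^ 2 := sq_nonneg _
  have p3 : 0 ≤ C₀ ^ 2 := sq_nonneg _
  have q1 : 0 ≤ (3 * J + 3 * C₀ ^ 2) * x ^ 2 := by positivity
  have q2 : 0 ≤ (12 + 3 * C₀ ^ 2) * Y := by positivity
  have q3 : 0 ≤ (12 + 3 * J) * e ^ 2 := by positivity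
  nlinarith

end

end Pool.Agent.H469.F4
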