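import Pool.Agent.H469.F4.N13

set_option autoImplicit false

/-!
# The subcritical measures charge every interval and have no atoms in the limit
-/

namespace Pool.Agent.H469.F4

open Filter Topology MeasureTheory Complex

noncomputable section

theorem ind_eq {Y : ℝ → ℝ} (hY : Continuous Y) (lam : ℝ) {T : ℝ} (hT : 0 ≤ T) :
    ∫ t in (0 : ℝ)..T, Set.indicator {t : ℝ | lam < Y t} (fun _ => (1 : ℝ)) t = (volume {t : ℝ | t ∈ Set.Icc 0 T ∧ lam < Y t}).toReal := by
  have hop : IsOpen {t : ℝ | lam < Y t} := isOpen_lt continuous_const hY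
  rw [intervalIntegral.integral_of_le hT, ← integral_Icc_eq_integral_Ioc]
  rw [integral_indicator hop.measurableSet, setIntegral_const, smul_eq_mul, mul_one]
  unfold Measure.real
  rw [Measure.restrict_apply hop.measurableSet]
  congr 2
  ext t
  constructor
  · rintro ⟨h1, h2⟩
    exact ⟨h2, h1⟩
  · rintro ⟨h1, h2⟩
    exact ⟨h2, h1⟩

theorem ind_int {Y : ℝ → ℝ} (hY : Continuous Y) (lam S T : ℝ) : IntervalIntegrable (Set.indicator {t : ℝ | lam < Y t} (fun _ => (1 : ℝ))) volume S T := by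
  have hop : IsOpen {t : ℝ | lam < Y t} := isOpen_lt continuous_const hY
  have h1 : IntervalIntegrable (fun _ : ℝ => (1 : ℝ)) volume S T := continuous_const.intervalIntegrable _ _
  exact ⟨h1.1.indicator hop.measurableSet, h1.2.indicator hop.measurableSet⟩

/-- uniform upper bound for the moments -/
theorem nu_up {β q : ℝ} (hβ0 : 0 < β) (hβ2 : β < 2) (hq1 : 1 < q) (hq2 : q ≤ 2) (hqβ : q * β ^ 2 < 4) : ∃ C : ℝ, 0 < C ∧ ∀ᶠ T : ℝ in atTop,
    ∀ x h : ℝ, 0 ≤ x → x ≤ 1 → 1 / Real.log T ≤ h → h ≤ 1 →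
    ∫ t in (0 : ℝ)..T, Yg β x (x + h) t ^ q ≤ C * T * (Real.log T ^ (q * β ^ 2 / 4) * h ^ (q + q * β ^ 2 / 4 - q ^ 2 * β ^ 2 / 4)) := by
  have hq0 : 0 < q := by linarith
  obtain ⟨c, C, hc, hC, hev⟩ := mass_scales hβ0 hq1 hq2 (by nlinarith : β * q ≤ 4) 0
  have h2T : Tendsto (fun T : ℝ => 2 * T) atTop atTop := tendsto_id.const_mul_atTop two_pos
  obtain ⟨e, he⟩ : ∃ e : ℝ, e = q + q * β ^ 2 / 4 - q ^ 2 * β ^ 2 / 4 := ⟨_, rfl⟩
  obtain ⟨a, ha⟩ : ∃ a : ℝ, a = q * β ^ 2 / 4 := ⟨_, rfl⟩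
  have ha0 : 0 < a := by rw [ha]; positivity
  refine ⟨2 * (C * 2 ^ a), by positivity, ?_⟩
  filter_upwards [h2T.eventually hev, eventually_ge_atTop (2 : ℝ), Real.tendsto_log_atTop.eventually_ge_atTop 1] with T hev hT2 hL1 x h hx0 hx1 hh hh1
  rw [← he, ← ha]
  have hT0 : 0 < T := by linarith
  have hL0 : 0 < Real.log T := by linarith
  have hh0 : 0 < h := lt_of_lt_of_le (by positivity) hh
  have hlog1 : Real.log T ≤ Real.log (2 * T) := Real.log_le_log hT0 (by linarith)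
  have hlog2 : Real.log (2 * T) ≤ 2 * Real.log T := by
    rw [Real.log_mul (by norm_num) hT0.ne']
    have := Real.log_le_log (by norm_num) hT2
    linarith
  have hLL : 0 < Real.log (2 * T) := by linarith
  have h1 := (hev h (by
    rw [div_le_iff₀ hL0] at hh
    have : h * Real.log T ≤ h * Real.log (2 * T) := mul_le_mul_of_nonneg_left hlog1 hh0.le
    linarith) hh1).2
  have hPhl : Phl β q (h * Real.log (2 * T)) = (h * Real.log (2 * T)) ^ e := by
    unfold Phl
    rw [if_pos hqβ, ← he]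
  have h2 : Real.log (2 * T) ^ (q ^ 2 * β ^ 2 / 4 - q) * Phl β q (h * Real.log (2 * T)) = Real.log (2 * T) ^ a * h ^ e := by
    rw [hPhl, Real.mul_rpow hh0.le hLL.le]
    have e1 : Real.log (2 * T) ^ a = Real.log (2 * T) ^ (q ^ 2 * β ^ 2 / 4 - q) * Real.log (2 * T) ^ e := by
      rw [← Real.rpow_add hLL]
      congr 1
      rw [ha, he]
      ring
    rw [e1]
    ring
  rw [h2] at h1
  have h3 : Real.log (2 * T) ^ a ≤ 2 ^ a * Real.log T ^ a := by
    rw [← Real.mul_rpow (by norm_num) hL0.le]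
    exact Real.rpow_le_rpow hLL.le hlog2 ha0.le
  have hcont := Yg_pow_cont hβ0 hq0 0 (0 + h)
  have h4 : ∫ t in (0 : ℝ)..T, Yg β x (x + h) t ^ q ≤ ∫ t in (0 : ℝ)..(2 * T), Yg β 0 (0 + h) t ^ q := by
    have e1 : ∀ t, Yg β x (x + h) t = Yg β 0 (0 + h) (t + x) := by
      intro t
      rw [← Yg_shift]
      congr 1 <;> ring
    have e2 : ∫ t in (0 : ℝ)..T, Yg β x (x + h) t ^ q = ∫ t in x..(T + x), Yg β 0 (0 + h) t ^ q := by
      have := intervalIntegral.integral_comp_add_right (fun t => Yg β 0 (0 + h) t ^ q) x (a := 0) (b := T)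
      have e3 : (0 : ℝ) + x = x := zero_add x
      rw [e3] at this
      rw [← this]
      exact intervalIntegral.integral_congr fun t _ => by simp only [e1]
    rw [e2]
    exact intervalIntegral.integral_mono_interval hx0 (by linarith) (by linarith)
      (Eventually.of_forall fun t => Real.rpow_nonneg (Yg_nonneg β (by linarith) t) _) (hcont.intervalIntegrable _ _)
  refine h4.trans ?_
  have h5 : ∫ t in (0 : ℝ)..(2 * T), Yg β 0 (0 + h) t ^ q = 2 * T * (1 / (2 * T) * ∫ t in (0 : ℝ)..(2 * T), Yg β 0 (0 + h) t ^ q) := by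
    field_simp
  rw [h5]
  calc 2 * T * (1 / (2 * T) * ∫ t in (0 : ℝ)..(2 * T), Yg β 0 (0 + h) t ^ q) ≤ 2 * T * (C * (Real.log (2 * T) ^ a * h ^ e)) :=
        mul_le_mul_of_nonneg_left h1 (by positivity)
    _ ≤ 2 * T * (C * (2 ^ a * Real.log T ^ a * h ^ e)) := by
        apply mul_le_mul_of_nonneg_left _ (by positivity)
        apply mul_le_mul_of_nonneg_left _ hC.le
        exact mul_le_mul_of_nonneg_right h3 (by positivity)
    _ = _ := by ring

/-- uniform lower bound for the mean -/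
theorem nu_low {β : ℝ} (hβ0 : 0 < β) (hβ2 : β < 2) : ∃ c : ℝ, 0 < c ∧ ∀ᶠ T : ℝ in atTop, ∀ x h : ℝ, 0 ≤ x → x ≤ 1 → 0 ≤ h → h ≤ 1 →
    c * T * (Real.log T ^ (β ^ 2 / 4) * h) ≤ ∫ t in (0 : ℝ)..T, Yg β x (x + h) t := by
  obtain ⟨c, C, hc, hC, hev⟩ := one_pt hβ0.le (by linarith : β ≤ 4)
  have hT2 : Tendsto (fun T : ℝ => T / 2) atTop atTop := tendsto_id.atTop_div_const two_pos
  refine ⟨c / 2 * (1 / 2) ^ (β ^ 2 / 4), by positivity, ?_⟩
  filter_upwards [hT2.eventually hev, eventually_ge_atTop (8 : ℝ), Real.tendsto_log_atTop.eventually_ge_atTop 2] with T hev hT8 hL2 x h hx0 hx1 hh0 hh1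
  have hT0 : 0 < T := by linarith
  have h1 := swap_bd' (p := β) hβ0.le (T := T / 2) (a := x) (b := x + h) (B := c * (T / 2) * Real.log (T / 2) ^ (β ^ 2 / 4)) (by linarith) (fun v hv => by
    refine (hev v ?_).1
    rw [abs_of_nonneg (by linarith [hv.1])]
    linarith [hv.2])
  have e1 : x + h - x = h := by ring
  have e2 : 2 * (T / 2) = T := by ring
  rw [e1, e2] at h1
  have hlog : 1 / 2 * Real.log T ≤ Real.log (T / 2) := by
    rw [Real.log_div hT0.ne' (by norm_num)]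
    have := Real.log_two_lt_d9
    linarith
  have h2 : (1 / 2 : ℝ) ^ (β ^ 2 / 4) * Real.log T ^ (β ^ 2 / 4) ≤ Real.log (T / 2) ^ (β ^ 2 / 4) := by
    rw [← Real.mul_rpow (by norm_num) (by linarith)]
    exact Real.rpow_le_rpow (by linarith) hlog (by positivity)
  have h3 : ∫ t in (T / 2)..T, ∫ v in x..(x + h), fz β (t + v) ≤ ∫ t in (0 : ℝ)..T, Yg β x (x + h) t :=
    intervalIntegral.integral_mono_interval (by linarith) (by linarith) le_rfl
      (Eventually.of_forall fun t => Yg_nonneg β (by linarith) t) ((Yg_cont hβ0.le x (x + h)).intervalIntegrable _ _)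
  refine le_trans ?_ (h1.trans h3)
  calc c / 2 * (1 / 2) ^ (β ^ 2 / 4) * T * (Real.log T ^ (β ^ 2 / 4) * h) = h * (c * (T / 2) * ((1 / 2) ^ (β ^ 2 / 4) * Real.log T ^ (β ^ 2 / 4))) := by ring
    _ ≤ _ := by
        apply mul_le_mul_of_nonneg_left _ hh0
        exact mul_le_mul_of_nonneg_left h2 (by positivity)

/-- **every interval is charged** -/
theorem charge {β q : ℝ} (hβ0 : 0 < β) (hβ2 : β < 2) (hq1 : 1 < q) (hq2 : q ≤ 2) (hqβ : q * β ^ 2 < 4) : ∃ c : ℝ, 0 < c ∧ ∀ᶠ T : ℝ in atTop,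
    ∀ x h : ℝ, 0 ≤ x → x ≤ 1 → 1 / Real.log T ≤ h → h ≤ 1 →
    c * h ^ (q * β ^ 2 / 4) ≤ T⁻¹ * (volume {t : ℝ | t ∈ Set.Icc 0 T ∧ c * h * Real.log T ^ (β ^ 2 / 4) < Yg β x (x + h) t}).toReal := by
  obtain ⟨c₀, hc₀, hlow⟩ := nu_low hβ0 hβ2
  obtain ⟨C, hC, hup⟩ := nu_up hβ0 hβ2 hq1 hq2 hqβ
  have hq0 : 0 < q - 1 := by linarith
  obtain ⟨D, hD⟩ : ∃ D : ℝ, D = (4 * C / c₀) ^ (1 / (q - 1)) := ⟨_, rfl⟩
  have hD0 : 0 < D := by rw [hD]; positivity
  obtain ⟨a, ha⟩ : ∃ a : ℝ, a = β ^ 2 / 4 := ⟨_, rfl⟩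
  obtain ⟨c, hcd⟩ : ∃ c : ℝ, c = min (c₀ / 2) (c₀ / (4 * D)) := ⟨_, rfl⟩
  have hc1 : c ≤ c₀ / 2 := by rw [hcd]; exact min_le_left _ _
  have hc2 : c ≤ c₀ / (4 * D) := by rw [hcd]; exact min_le_right _ _
  have hc0 : 0 < c := by rw [hcd]; exact lt_min (by positivity) (by positivity)
  refine ⟨c, hc0, ?_⟩
  filter_upwards [hlow, hup, eventually_gt_atTop (0 : ℝ), Real.tendsto_log_atTop.eventually_ge_atTop 1] with T hlow hup hT0 hL1 x h hx0 hx1 hh hh1
  have hL0 : 0 < Real.log T := by linarith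
  have hh0 : 0 < h := lt_of_lt_of_le (by positivity) hh
  have h1 := hlow x h hx0 hx1 hh0.le hh1
  have h2 := hup x h hx0 hx1 hh hh1
  have eqa : q * β ^ 2 / 4 = q * a := by rw [ha]; ring
  have eqe : q + q * β ^ 2 / 4 - q ^ 2 * β ^ 2 / 4 = q + q * a - q ^ 2 * a := by rw [ha]; ring
  rw [eqe, eqa] at h2
  rw [← ha] at h1
  rw [eqa, ← ha]
  obtain ⟨L, hL⟩ : ∃ L : ℝ, L = Real.log T := ⟨_, rfl⟩
  rw [← hL] at h1 h2 hL0 hL1 ⊢
  obtain ⟨Y, hY⟩ : ∃ Y : ℝ → ℝ, Y = Yg β x (x + h) := ⟨_, rfl⟩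
  have hYc : Continuous Y := by rw [hY]; exact Yg_cont hβ0.le _ _
  have hY0 : ∀ t, 0 ≤ Y t := fun t => by rw [hY]; exact Yg_nonneg β (by linarith) t
  rw [← hY] at h1 h2 ⊢
  obtain ⟨lam, hlam⟩ : ∃ lam : ℝ, lam = c * h * L ^ a := ⟨_, rfl⟩
  rw [← hlam]
  have hlam0 : 0 < lam := by rw [hlam]; positivity
  obtain ⟨K, hK⟩ : ∃ K : ℝ, K = D * L ^ a * h ^ (1 - q * a) := ⟨_, rfl⟩
  have hK0 : 0 < K := by rw [hK]; positivity
  have hpt : ∀ t, Y t ≤ lam + K * Set.indicator {t : ℝ | lam < Y t} (fun _ => (1 : ℝ)) t + K ^ (1 - q) * Y t ^ q := by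
    intro t
    have hp : 0 ≤ K ^ (1 - q) * Y t ^ q := mul_nonneg (by positivity) (Real.rpow_nonneg (hY0 t) _)
    by_cases hlt : lam < Y t
    · rw [Set.indicator_of_mem (show t ∈ {t : ℝ | lam < Y t} from hlt), mul_one]
      rcases le_total (Y t) K with h3 | h3
      · linarith
      · have hYp : 0 < Y t := by linarith
        have h4 : Y t ≤ K ^ (1 - q) * Y t ^ q := by
          have e1 : Y t ^ q = Y t ^ (q - 1) * Y t := by
            nth_rewrite 3 [← Real.rpow_one (Y t)]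
            rw [← Real.rpow_add hYp]
            congr 1
            ring
          have e2 : K ^ (1 - q) = (K ^ (q - 1))⁻¹ := by
            rw [← Real.rpow_neg hK0.le]
            congr 1
            ring
          rw [e1, e2, ← mul_assoc]
          have e3 : 1 ≤ (K ^ (q - 1))⁻¹ * Y t ^ (q - 1) := by
            rw [← div_eq_inv_mul, one_le_div (by positivity)]
            exact Real.rpow_le_rpow hK0.le h3 (by linarith)
          nlinarith
        linarith
    · rw [Set.indicator_of_notMem (show t ∉ {t : ℝ | lam < Y t} from hlt), mul_zero]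
      have := not_lt.1 hlt
      linarith
  have hi1 : IntervalIntegrable (fun t => lam + K * Set.indicator {t : ℝ | lam < Y t} (fun _ => (1 : ℝ)) t) volume 0 T :=
    (continuous_const.intervalIntegrable _ _).add ((ind_int hYc lam 0 T).const_mul K)
  have hYq : Continuous fun t => Y t ^ q := hYc.rpow_const fun _ => Or.inr (by linarith)
  have hi2 : IntervalIntegrable (fun t => K ^ (1 - q) * Y t ^ q) volume 0 T := (hYq.intervalIntegrable _ _).const_mul _
  have h3 := intervalIntegral.integral_mono_on hT0.le (hYc.intervalIntegrable _ _) (hi1.add hi2) (fun t _ => hpt t)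
  rw [intervalIntegral.integral_add hi1 hi2, intervalIntegral.integral_add (continuous_const.intervalIntegrable _ _) ((ind_int hYc lam 0 T).const_mul K),
    intervalIntegral.integral_const_mul, intervalIntegral.integral_const_mul, intervalIntegral.integral_const, smul_eq_mul, sub_zero, ind_eq hYc lam hT0.le] at h3
  obtain ⟨V, hV⟩ : ∃ V : ℝ, V = (volume {t : ℝ | t ∈ Set.Icc 0 T ∧ lam < Y t}).toReal := ⟨_, rfl⟩
  rw [← hV] at h3 ⊢
  have hKe : K ^ (1 - q) * (C * T * (L ^ (q * a) * h ^ (q + q * a - q ^ 2 * a))) = T * (c₀ / 4) * (L ^ a * h) := by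
    have e1 : D ^ (1 - q) = c₀ / (4 * C) := by
      rw [hD, ← Real.rpow_mul (by positivity)]
      have : 1 / (q - 1) * (1 - q) = -1 := by
        field_simp
        ring
      rw [this, Real.rpow_neg_one, inv_div]
    have e2 : K ^ (1 - q) = D ^ (1 - q) * L ^ (a * (1 - q)) * h ^ ((1 - q * a) * (1 - q)) := by
      rw [hK, Real.mul_rpow (by positivity) (by positivity), Real.mul_rpow (by positivity) (by positivity), ← Real.rpow_mul hL0.le, ← Real.rpow_mul hh0.le]
    have e3 : L ^ a = L ^ (a * (1 - q)) * L ^ (q * a) := by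
      rw [← Real.rpow_add hL0]
      congr 1
      ring
    have e4 : h = h ^ ((1 - q * a) * (1 - q)) * h ^ (q + q * a - q ^ 2 * a) := by
      rw [← Real.rpow_add hh0]
      have : (1 - q * a) * (1 - q) + (q + q * a - q ^ 2 * a) = 1 := by ring
      rw [this, Real.rpow_one]
    have e5 : T * (c₀ / 4) * (L ^ (a * (1 - q)) * L ^ (q * a) * h) =
        T * (c₀ / 4) * (L ^ (a * (1 - q)) * L ^ (q * a) * (h ^ ((1 - q * a) * (1 - q)) * h ^ (q + q * a - q ^ 2 * a))) := by rw [← e4]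
    rw [e2, e1, e3, e5]
    field_simp
  have h4 : K ^ (1 - q) * ∫ t in (0 : ℝ)..T, Y t ^ q ≤ T * (c₀ / 4) * (L ^ a * h) := by
    rw [← hKe]
    exact mul_le_mul_of_nonneg_left h2 (by positivity)
  have h5 : T * lam ≤ T * (c₀ / 2) * (L ^ a * h) := by
    rw [hlam]
    have : c * (T * (L ^ a * h)) ≤ c₀ / 2 * (T * (L ^ a * h)) := mul_le_mul_of_nonneg_right hc1 (by positivity)
    linarith
  have h6 : T * (c₀ / 4) * (L ^ a * h) ≤ K * V := by linarith
  rw [le_inv_mul_iff₀ hT0]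
  have h7 : K * (T * (c * h ^ (q * a))) ≤ K * V := by
    refine le_trans ?_ h6
    have e5 : h ^ (1 - q * a) * h ^ (q * a) = h := by
      rw [← Real.rpow_add hh0]
      have : 1 - q * a + q * a = 1 := by ring
      rw [this, Real.rpow_one]
    have e6 : K * (T * (c * h ^ (q * a))) = (D * c) * (T * (L ^ a * (h ^ (1 - q * a) * h ^ (q * a)))) := by
      rw [hK]
      ring
    rw [e6, e5]
    have e7 : D * c ≤ c₀ / 4 := by
      rw [le_div_iff₀ (by positivity)] at hc2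
      linarith
    have e8 : D * c * (T * (L ^ a * h)) ≤ c₀ / 4 * (T * (L ^ a * h)) := mul_le_mul_of_nonneg_right e7 (by positivity)
    linarith
  exact le_of_mul_le_mul_left h7 hK0

end

end Pool.Agent.H469.F4
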