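import Pool.Agent.H469.F4.CHG

set_option autoImplicit false

/-!
# The subcritical measures have no atoms in the limit
-/

namespace Pool.Agent.H469.F4

open Filter Topology MeasureTheory Complex

noncomputable section

theorem markov_pow {Y : ℝ → ℝ} (hY : Continuous Y) (hY0 : ∀ t, 0 ≤ Y t) {lam q T : ℝ} (hlam : 0 < lam) (hq : 0 < q) (hT : 0 ≤ T) :
    lam ^ q * (volume {t : ℝ | t ∈ Set.Icc 0 T ∧ lam < Y t}).toReal ≤ ∫ t in (0 : ℝ)..T, Y t ^ q := by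
  rw [← ind_eq hY lam hT, ← intervalIntegral.integral_const_mul]
  refine intervalIntegral.integral_mono_on hT ((ind_int hY lam 0 T).const_mul _) ((hY.rpow_const fun _ => Or.inr hq.le).intervalIntegrable _ _) fun t _ => ?_
  unfold Set.indicator
  split_ifs with h
  · rw [mul_one]
    exact Real.rpow_le_rpow hlam.le (le_of_lt h) hq.le
  · rw [mul_zero]
    exact Real.rpow_nonneg (hY0 t) _

/-- **no atoms** -/
theorem no_atoms {β q : ℝ} (hβ0 : 0 < β) (hβ2 : β < 2) (hq1 : 1 < q) (hq2 : q ≤ 2) (hqβ : q * β ^ 2 < 4) : ∃ C : ℝ, 0 < C ∧ ∀ᶠ T : ℝ in atTop,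
    ∀ δ η : ℝ, 1 / Real.log T ≤ δ → δ ≤ 1 / 2 → 0 < η →
    η ^ q * (T⁻¹ * (volume {t : ℝ | t ∈ Set.Icc 0 T ∧ ∃ a b : ℝ, 0 ≤ a ∧ a ≤ b ∧ b ≤ 1 ∧ b - a ≤ δ ∧
      η * Real.log T ^ (β ^ 2 / 4) < Yg β a b t}).toReal) ≤ C * δ ^ ((q - 1) * (1 - q * β ^ 2 / 4)) := by
  have hq0 : 0 < q := by linarith
  obtain ⟨C, hC, hup⟩ := nu_up hβ0 hβ2 hq1 hq2 hqβ
  obtain ⟨e, he⟩ : ∃ e : ℝ, e = q + q * β ^ 2 / 4 - q ^ 2 * β ^ 2 / 4 := ⟨_, rfl⟩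
  refine ⟨2 * C * 2 ^ e, by positivity, ?_⟩
  filter_upwards [hup, eventually_gt_atTop (0 : ℝ), Real.tendsto_log_atTop.eventually_ge_atTop 1] with T hup hT0 hL1 δ η hδ hδ1 hη
  rw [← he] at hup
  have hL0 : 0 < Real.log T := by linarith
  have hδ0 : 0 < δ := lt_of_lt_of_le (by positivity) hδ
  obtain ⟨lam, hlam⟩ : ∃ lam : ℝ, lam = η * Real.log T ^ (β ^ 2 / 4) := ⟨_, rfl⟩
  have hlam0 : 0 < lam := by rw [hlam]; positivity
  have hlamq : lam ^ q = η ^ q * Real.log T ^ (q * β ^ 2 / 4) := by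
    rw [hlam, Real.mul_rpow hη.le (by positivity), ← Real.rpow_mul hL0.le]
    congr 2
    ring
  rw [← hlam]
  obtain ⟨N, hN⟩ : ∃ N : ℕ, N = ⌊1 / δ⌋₊ + 1 := ⟨_, rfl⟩
  obtain ⟨S, hS⟩ : ∃ S : ℕ → Set ℝ, S = fun j : ℕ => {t : ℝ | t ∈ Set.Icc 0 T ∧ lam < Yg β ((j : ℝ) * δ) ((j : ℝ) * δ + 2 * δ) t} := ⟨_, rfl⟩
  have hfin : ∀ j, volume (S j) ≠ ⊤ := by
    intro j
    refine ne_top_of_le_ne_top ?_ (measure_mono (show S j ⊆ Set.Icc 0 T from fun t ht => by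
      rw [hS] at ht
      exact ht.1))
    rw [Real.volume_Icc]
    exact ENNReal.ofReal_ne_top
  have hsub : {t : ℝ | t ∈ Set.Icc 0 T ∧ ∃ a b : ℝ, 0 ≤ a ∧ a ≤ b ∧ b ≤ 1 ∧ b - a ≤ δ ∧ lam < Yg β a b t} ⊆ ⋃ j ∈ Finset.range N, S j := by
    rintro t ⟨ht, a, b, ha0, hab, hb1, hbδ, hY⟩
    have h1 : ((⌊a / δ⌋₊ : ℕ) : ℝ) ≤ a / δ := Nat.floor_le (by positivity)
    have h2 : a / δ < (⌊a / δ⌋₊ : ℕ) + 1 := Nat.lt_floor_add_one _
    rw [le_div_iff₀ hδ0] at h1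
    rw [div_lt_iff₀ hδ0] at h2
    have h3 : ⌊a / δ⌋₊ < N := by
      rw [hN, Nat.lt_succ_iff]
      apply Nat.floor_le_floor
      exact div_le_div_of_nonneg_right (by linarith) hδ0.le
    simp only [Set.mem_iUnion]
    refine ⟨⌊a / δ⌋₊, Finset.mem_range.2 h3, ?_⟩
    rw [hS]
    refine ⟨ht, lt_of_lt_of_le hY ?_⟩
    exact Yg_mono hβ0.le h1 hab (by nlinarith) t
  have hmeas : (volume {t : ℝ | t ∈ Set.Icc 0 T ∧ ∃ a b : ℝ, 0 ≤ a ∧ a ≤ b ∧ b ≤ 1 ∧ b - a ≤ δ ∧ lam < Yg β a b t}).toReal ≤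
      ∑ j ∈ Finset.range N, (volume (S j)).toReal := by
    rw [← ENNReal.toReal_sum fun j _ => hfin j]
    apply ENNReal.toReal_mono (ENNReal.sum_ne_top.2 fun j _ => hfin j)
    exact (measure_mono hsub).trans (measure_biUnion_finset_le _ _)
  have hone : ∀ j ∈ Finset.range N, η ^ q * (volume (S j)).toReal ≤ C * T * (2 * δ) ^ e := by
    intro j hj
    have hjN : j ≤ ⌊1 / δ⌋₊ := by
      have := Finset.mem_range.1 hj
      rw [hN] at this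
      exact Nat.lt_succ_iff.1 this
    have h1 : (j : ℝ) ≤ 1 / δ := (Nat.cast_le.2 hjN).trans (Nat.floor_le (by positivity))
    have h2 : (j : ℝ) * δ ≤ 1 := by
      rw [le_div_iff₀ hδ0] at h1
      exact h1
    have h3 := markov_pow (Yg_cont hβ0.le (j * δ) (j * δ + 2 * δ)) (fun t => Yg_nonneg β (by linarith) t) hlam0 hq0 hT0.le
    have h4 := hup (j * δ) (2 * δ) (by positivity) h2 (by linarith) (by linarith)
    have h5 := h3.trans h4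
    rw [hlamq] at h5
    have hS' : S j = {t : ℝ | t ∈ Set.Icc 0 T ∧ lam < Yg β (j * δ) (j * δ + 2 * δ) t} := by rw [hS]
    rw [hS']
    have hp : 0 < Real.log T ^ (q * β ^ 2 / 4) := by positivity
    have h6 : Real.log T ^ (q * β ^ 2 / 4) * (η ^ q * (volume {t : ℝ | t ∈ Set.Icc 0 T ∧ lam < Yg β (j * δ) (j * δ + 2 * δ) t}).toReal) ≤
        Real.log T ^ (q * β ^ 2 / 4) * (C * T * (2 * δ) ^ e) := by
      linarith
    exact le_of_mul_le_mul_left h6 hp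
  have hηq : 0 < η ^ q := by positivity
  have h7 : η ^ q * (volume {t : ℝ | t ∈ Set.Icc 0 T ∧ ∃ a b : ℝ, 0 ≤ a ∧ a ≤ b ∧ b ≤ 1 ∧ b - a ≤ δ ∧ lam < Yg β a b t}).toReal ≤
      N * (C * T * (2 * δ) ^ e) := by
    refine (mul_le_mul_of_nonneg_left hmeas hηq.le).trans ?_
    rw [Finset.mul_sum]
    refine (Finset.sum_le_sum hone).trans (le_of_eq ?_)
    rw [Finset.sum_const, Finset.card_range, nsmul_eq_mul]
  have hNle : (N : ℝ) ≤ 2 / δ := by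
    rw [hN]
    push_cast
    have h1 : ((⌊1 / δ⌋₊ : ℕ) : ℝ) ≤ 1 / δ := Nat.floor_le (by positivity)
    have h2 : 1 ≤ 1 / δ := by
      rw [le_div_iff₀ hδ0]
      linarith
    have h3 : 2 / δ = 1 / δ + 1 / δ := by ring
    linarith
  have hpow : 2 / δ * (2 * δ) ^ e = 2 * 2 ^ e * δ ^ ((q - 1) * (1 - q * β ^ 2 / 4)) := by
    rw [Real.mul_rpow (by norm_num) hδ0.le]
    have e1 : δ ^ e = δ * δ ^ ((q - 1) * (1 - q * β ^ 2 / 4)) := by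
      nth_rewrite 2 [← Real.rpow_one δ]
      rw [← Real.rpow_add hδ0]
      congr 1
      rw [he]
      ring
    rw [e1]
    field_simp
  have h8 : N * (C * T * (2 * δ) ^ e) ≤ T * (2 * C * 2 ^ e * δ ^ ((q - 1) * (1 - q * β ^ 2 / 4))) := by
    calc N * (C * T * (2 * δ) ^ e) ≤ 2 / δ * (C * T * (2 * δ) ^ e) := mul_le_mul_of_nonneg_right hNle (by positivity)
      _ = C * T * (2 / δ * (2 * δ) ^ e) := by ring
      _ = _ := by rw [hpow]; ring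
  have h9 : η ^ q * (T⁻¹ * (volume {t : ℝ | t ∈ Set.Icc 0 T ∧ ∃ a b : ℝ, 0 ≤ a ∧ a ≤ b ∧ b ≤ 1 ∧ b - a ≤ δ ∧ lam < Yg β a b t}).toReal) =
      T⁻¹ * (η ^ q * (volume {t : ℝ | t ∈ Set.Icc 0 T ∧ ∃ a b : ℝ, 0 ≤ a ∧ a ≤ b ∧ b ≤ 1 ∧ b - a ≤ δ ∧ lam < Yg β a b t}).toReal) := by ring
  rw [h9, inv_mul_le_iff₀ hT0]
  exact h7.trans h8

end

end Pool.Agent.H469.F4
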