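import Pool.Agent.H469.F4.CHG2

set_option autoImplicit false

/-!
# Limit points of the subcritical measures
-/

namespace Pool.Agent.H469.F4

open Filter Topology MeasureTheory Complex
open scoped ENNReal NNReal

noncomputable section

/-- the measure `g(x) dx` on the unit interval (zero if it is not finite) -/
def density (g : ℝ → ℝ) : FiniteMeasure unitInterval :=
  open Classical in
  if h : IsFiniteMeasure ((volume : Measure unitInterval).withDensity fun x => ENNReal.ofReal (g x)) then ⟨_, h⟩ else 0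

theorem lint_unit {F : ℝ → ℝ} (hF : Continuous F) (hF0 : ∀ x, 0 ≤ F x) :
    ∫⁻ x : unitInterval, ENNReal.ofReal (F x) = ENNReal.ofReal (∫ x in (0 : ℝ)..1, F x) := by
  have h1 : ∫⁻ x : unitInterval, ENNReal.ofReal (F x) = ∫⁻ x in Set.Icc (0 : ℝ) 1, ENNReal.ofReal (F x) :=
    lintegral_subtype_comap measurableSet_Icc (fun x => ENNReal.ofReal (F x))
  rw [h1, intervalIntegral.integral_of_le zero_le_one, ← integral_Icc_eq_integral_Ioc, ofReal_integral_eq_lintegral_ofReal]
  · exact hF.integrableOn_Icc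
  · exact Eventually.of_forall hF0

theorem density_coe {g : ℝ → ℝ} (hg : Continuous g) (hg0 : ∀ x, 0 ≤ g x) :
    ((density g : FiniteMeasure unitInterval) : Measure unitInterval) = (volume : Measure unitInterval).withDensity fun x => ENNReal.ofReal (g x) := by
  have h : IsFiniteMeasure ((volume : Measure unitInterval).withDensity fun x => ENNReal.ofReal (g x)) := ⟨by
    rw [withDensity_apply _ MeasurableSet.univ, Measure.restrict_univ, lint_unit hg hg0]
    exact ENNReal.ofReal_lt_top⟩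
  unfold density
  rw [dif_pos h]
  rfl

/-- a test function -/
def tf (F : ℝ → ℝ) (hF : Continuous F) : BoundedContinuousFunction unitInterval ℝ≥0 :=
  BoundedContinuousFunction.mkOfCompact ⟨fun x => (F x).toNNReal, by fun_prop⟩

theorem test_eq {g F : ℝ → ℝ} (hg : Continuous g) (hg0 : ∀ x, 0 ≤ g x) (hF : Continuous F) (hF0 : ∀ x, 0 ≤ F x) :
    (((density g).testAgainstNN (tf F hF) : ℝ≥0) : ℝ) = ∫ x in (0 : ℝ)..1, F x * g x := by
  have h1 : (((density g).testAgainstNN (tf F hF) : ℝ≥0) : ℝ≥0∞) = ENNReal.ofReal (∫ x in (0 : ℝ)..1, F x * g x) := by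
    rw [FiniteMeasure.testAgainstNN_coe_eq, density_coe hg hg0, lintegral_withDensity_eq_lintegral_mul _ (by fun_prop)
      ((tf F hF).continuous.measurable.coe_nnreal_ennreal), ← lint_unit (F := fun x => F x * g x) (hF.mul hg) (fun x => mul_nonneg (hF0 x) (hg0 x))]
    refine lintegral_congr fun x => ?_
    show ENNReal.ofReal (g x) * ((F x).toNNReal : ℝ≥0∞) = ENNReal.ofReal (F x * g x)
    rw [ENNReal.ofReal_mul (hF0 x), mul_comm]
    rfl
  have h2 := congrArg ENNReal.toReal h1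
  rw [ENNReal.coe_toReal, ENNReal.toReal_ofReal (intervalIntegral.integral_nonneg zero_le_one fun x _ => mul_nonneg (hF0 x) (hg0 x))] at h2
  exact h2

/-- the ramp from `η/2` to `η` -/
def ramp (η y : ℝ) : ℝ := max 0 (min 1 (2 * y / η - 1))

theorem ramp_nonneg (η y : ℝ) : 0 ≤ ramp η y := le_max_left _ _

theorem ramp_one {η y : ℝ} (hη : 0 < η) (h : η ≤ y) : ramp η y = 1 := by
  unfold ramp
  have h1 : 2 ≤ 2 * y / η := by
    rw [le_div_iff₀ hη]
    linarith
  rw [min_eq_left (by linarith), max_eq_right zero_le_one]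

theorem ramp_zero {η y : ℝ} (hη : 0 < η) (h : y ≤ η / 2) : ramp η y = 0 := by
  unfold ramp
  have h1 : 2 * y / η ≤ 1 := by
    rw [div_le_one hη]
    linarith
  exact max_eq_left ((min_le_right _ _).trans (by linarith))

theorem ramp_cont (η : ℝ) : Continuous (ramp η) := by
  unfold ramp
  fun_prop

/-- the functional -/
def Gs (N : ℕ) (F : ℕ → ℝ → ℝ) (hF : ∀ j, Continuous (F j)) (η : ℝ) (μ : FiniteMeasure unitInterval) : ℝ :=
  min 1 (∑ j ∈ Finset.range N, ramp η ((μ.testAgainstNN (tf (F j) (hF j)) : ℝ≥0) : ℝ))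

variable {N : ℕ} {F : ℕ → ℝ → ℝ} {hF : ∀ j, Continuous (F j)} {η : ℝ}

theorem Gs_nonneg (μ : FiniteMeasure unitInterval) : 0 ≤ Gs N F hF η μ :=
  le_min zero_le_one (Finset.sum_nonneg fun _ _ => ramp_nonneg _ _)

theorem Gs_le (μ : FiniteMeasure unitInterval) : Gs N F hF η μ ≤ 1 := min_le_left _ _

theorem Gs_cont : Continuous (Gs N F hF η) := by
  unfold Gs
  refine continuous_const.min (continuous_finsetSum _ fun j _ => ?_)
  exact (ramp_cont η).comp (NNReal.continuous_coe.comp (FiniteMeasure.continuous_testAgainstNN_eval _))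

/-- the functional as a bounded continuous function -/
def Gb (N : ℕ) (F : ℕ → ℝ → ℝ) (hF : ∀ j, Continuous (F j)) (η : ℝ) : BoundedContinuousFunction (FiniteMeasure unitInterval) ℝ :=
  BoundedContinuousFunction.ofNormedAddCommGroup (Gs N F hF η) Gs_cont 1 fun μ => by
    rw [Real.norm_eq_abs, abs_of_nonneg (Gs_nonneg μ)]
    exact Gs_le μ

theorem Gs_one (hη : 0 < η) {μ : FiniteMeasure unitInterval} {j : ℕ} (hj : j < N) (h : η ≤ ((μ.testAgainstNN (tf (F j) (hF j)) : ℝ≥0) : ℝ)) :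
    Gs N F hF η μ = 1 := by
  unfold Gs
  apply min_eq_left
  have h1 := Finset.single_le_sum (f := fun j => ramp η ((μ.testAgainstNN (tf (F j) (hF j)) : ℝ≥0) : ℝ)) (fun _ _ => ramp_nonneg _ _) (Finset.mem_range.2 hj)
  simp only [ramp_one hη h] at h1
  exact h1

theorem Gs_zero (hη : 0 < η) {μ : FiniteMeasure unitInterval} (h : ∀ j, j < N → ((μ.testAgainstNN (tf (F j) (hF j)) : ℝ≥0) : ℝ) ≤ η / 2) :
    Gs N F hF η μ = 0 := by
  unfold Gs
  rw [Finset.sum_eq_zero fun j hj => ramp_zero hη (h j (Finset.mem_range.1 hj))]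
  exact min_eq_right zero_le_one

/-- the random measures -/
def nuR (β T ω : ℝ) : FiniteMeasure unitInterval :=
  density fun x => Real.log T ^ (-(β ^ 2 / 4)) * ‖riemannZeta (1 / 2 + Complex.I * x + Complex.I * (ω * T))‖ ^ β

theorem fz_form (β x ω T : ℝ) : ‖riemannZeta (1 / 2 + Complex.I * x + Complex.I * (ω * T))‖ ^ β = fz β (ω * T + x) := by
  show ‖riemannZeta (1 / 2 + Complex.I * x + Complex.I * (ω * T))‖ ^ β = ‖riemannZeta (1 / 2 + ((ω * T + x : ℝ) : ℂ) * Complex.I)‖ ^ β
  congr 3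
  push_cast
  ring

theorem nuR_test {β T : ℝ} (hβ : 0 < β) (hL : 0 < Real.log T) {f : ℝ → ℝ} (hf : Continuous f) (hf0 : ∀ x, 0 ≤ f x) (ω : ℝ) :
    (((nuR β T ω).testAgainstNN (tf f hf) : ℝ≥0) : ℝ) = Real.log T ^ (-(β ^ 2 / 4)) * ∫ x in (0 : ℝ)..1, f x * fz β (ω * T + x) := by
  unfold nuR
  simp only [fz_form]
  have hc : Continuous fun x : ℝ => Real.log T ^ (-(β ^ 2 / 4)) * fz β (ω * T + x) :=
    continuous_const.mul ((fz_cont hβ.le).comp (by fun_prop))
  rw [test_eq hc (fun x => mul_nonneg (by positivity) (fz_nonneg _ _)) hf hf0, ← intervalIntegral.integral_const_mul]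
  exact intervalIntegral.integral_congr fun x _ => by ring

theorem nuR_cont {β T : ℝ} (hβ : 0 < β) (hL : 0 < Real.log T) (hF0 : ∀ j x, 0 ≤ F j x) : Continuous fun ω => Gs N F hF η (nuR β T ω) := by
  unfold Gs
  refine continuous_const.min (continuous_finsetSum _ fun j _ => ?_)
  apply (ramp_cont η).comp
  simp only [nuR_test hβ hL (hF j) (hF0 j)]
  apply Continuous.mul continuous_const
  apply intervalIntegral.continuous_parametric_intervalIntegral_of_continuous' (f := fun ω x => F j x * fz β (ω * T + x))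
  exact ((hF j).comp continuous_snd).mul ((fz_cont hβ.le).comp (by fun_prop))

/-- a test function which is at least 1 on `[a, b]` sees the mass of `[a, b]` -/
theorem test_ge {β T : ℝ} (hβ : 0 < β) (hL : 0 < Real.log T) {f : ℝ → ℝ} (hf : Continuous f) (hf0 : ∀ x, 0 ≤ f x) {a b : ℝ} (ha : 0 ≤ a) (hab : a ≤ b) (hb : b ≤ 1)
    (h1 : ∀ x ∈ Set.Icc a b, 1 ≤ f x) (ω : ℝ) :
    Real.log T ^ (-(β ^ 2 / 4)) * Yg β a b (ω * T) ≤ (((nuR β T ω).testAgainstNN (tf f hf) : ℝ≥0) : ℝ) := by
  rw [nuR_test hβ hL hf hf0]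
  apply mul_le_mul_of_nonneg_left _ (by positivity)
  have hc : Continuous fun x : ℝ => fz β (ω * T + x) := (fz_cont hβ.le).comp (by fun_prop)
  unfold Yg
  calc ∫ v in a..b, fz β (ω * T + v) ≤ ∫ v in a..b, f v * fz β (ω * T + v) :=
        intervalIntegral.integral_mono_on hab (hc.intervalIntegrable _ _) ((hf.mul hc).intervalIntegrable _ _) fun x hx =>
          le_mul_of_one_le_left (fz_nonneg _ _) (h1 x hx)
    _ ≤ _ := intervalIntegral.integral_mono_interval ha hab hb (Eventually.of_forall fun x => mul_nonneg (hf0 x) (fz_nonneg _ _))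
        ((hf.mul hc).intervalIntegrable _ _)

/-- a test function which is at most 1, and 0 outside `[a, b]`, sees at most the mass of `[a, b]` -/
theorem test_le {β T : ℝ} (hβ : 0 < β) (hL : 0 < Real.log T) {f : ℝ → ℝ} (hf : Continuous f) (hf0 : ∀ x, 0 ≤ f x) (hf1 : ∀ x, f x ≤ 1) {a b : ℝ} (ha : 0 ≤ a) (hab : a ≤ b) (hb : b ≤ 1)
    (h1 : ∀ x ∈ Set.Icc (0 : ℝ) 1, x ∉ Set.Icc a b → f x = 0) (ω : ℝ) :
    (((nuR β T ω).testAgainstNN (tf f hf) : ℝ≥0) : ℝ) ≤ Real.log T ^ (-(β ^ 2 / 4)) * Yg β a b (ω * T) := by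
  rw [nuR_test hβ hL hf hf0]
  apply mul_le_mul_of_nonneg_left _ (by positivity)
  have hc : Continuous fun x : ℝ => fz β (ω * T + x) := (fz_cont hβ.le).comp (by fun_prop)
  have hi : ∀ c d : ℝ, IntervalIntegrable (fun x => f x * fz β (ω * T + x)) volume c d := fun c d => (hf.mul hc).intervalIntegrable _ _
  have e1 : ∫ x in (0 : ℝ)..1, f x * fz β (ω * T + x) = ∫ x in a..b, f x * fz β (ω * T + x) := by
    rw [← intervalIntegral.integral_add_adjacent_intervals (hi 0 a) (hi a 1), ← intervalIntegral.integral_add_adjacent_intervals (hi a b) (hi b 1)]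
    have e2 : ∫ x in (0 : ℝ)..a, f x * fz β (ω * T + x) = 0 := by
      rw [intervalIntegral.integral_of_le ha, ← integral_Ioc_eq_integral_Ioo.symm]
      apply setIntegral_eq_zero_of_forall_eq_zero
      intro x hx
      rw [h1 x ⟨hx.1.le, by linarith [hx.2]⟩ (fun h => absurd h.1 (not_le.2 hx.2)), zero_mul]
    have e3 : ∫ x in b..(1 : ℝ), f x * fz β (ω * T + x) = 0 := by
      rw [intervalIntegral.integral_of_le hb]
      apply setIntegral_eq_zero_of_forall_eq_zero
      intro x hx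
      rw [h1 x ⟨by linarith [hx.1], hx.2⟩ (fun h => absurd h.2 (not_le.2 hx.1)), zero_mul]
    rw [e2, e3, zero_add, add_zero]
  rw [e1]
  unfold Yg
  exact intervalIntegral.integral_mono_on hab (hi a b) (hc.intervalIntegrable _ _) fun x _ => mul_le_of_le_one_left (fz_nonneg _ _) (hf1 x)

end

end Pool.Agent.H469.F4
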