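import Pool.Agent.H469.F4.CHG3

set_option autoImplicit false

/-!
# Limit points of the subcritical measures: charges and atoms
-/

namespace Pool.Agent.H469.F4

open Filter Topology MeasureTheory Complex
open scoped ENNReal NNReal

noncomputable section

variable {N : ℕ} {F : ℕ → ℝ → ℝ} {hF : ∀ j, Continuous (F j)} {η : ℝ}

/-- limit points in distribution -/
def LimPt {Ω : Type} [MeasurableSpace Ω] (β : ℝ) (P : Measure Ω) (m : Ω → FiniteMeasure unitInterval) : Prop :=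
  ∃ T : ℕ → ℝ, Tendsto T atTop atTop ∧ ∀ G : BoundedContinuousFunction (FiniteMeasure unitInterval) ℝ,
    AEStronglyMeasurable (fun w => G (m w)) P ∧ Tendsto (fun n => ∫ ω in (0 : ℝ)..1, G (nuR β (T n) ω)) atTop (𝓝 (∫ w, G (m w) ∂P))

theorem pr_eq {T : ℝ} (hT : 0 < T) (E : ℝ → Prop) (F : ℝ → Prop) (h : ∀ ω, E ω ↔ F (ω * T)) :
    (volume {ω : ℝ | ω ∈ Set.Icc 0 1 ∧ E ω}).toReal = T⁻¹ * (volume {t : ℝ | t ∈ Set.Icc 0 T ∧ F t}).toReal := by
  have h1 : {ω : ℝ | ω ∈ Set.Icc 0 1 ∧ E ω} = (fun ω => ω * T) ⁻¹' {t : ℝ | t ∈ Set.Icc 0 T ∧ F t} := by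
    ext ω
    constructor
    · rintro ⟨⟨h2, h3⟩, h4⟩
      refine ⟨⟨by positivity, ?_⟩, (h ω).1 h4⟩
      nlinarith
    · rintro ⟨⟨h2, h3⟩, h4⟩
      refine ⟨⟨?_, ?_⟩, (h ω).2 h4⟩
      · exact nonneg_of_mul_nonneg_left h2 hT
      · exact le_of_mul_le_mul_right (by linarith) hT
  rw [h1, Real.volume_preimage_mul_right hT.ne', ENNReal.toReal_mul, ENNReal.toReal_ofReal (abs_nonneg _), abs_of_pos (by positivity)]

theorem lt_iff {a x y L : ℝ} (hL : 0 < L) : x < L ^ (-a) * y ↔ x * L ^ a < y := by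
  rw [Real.rpow_neg hL.le, lt_inv_mul_iff₀ (by positivity), mul_comm]

theorem int_le_prob {β T : ℝ} (hβ : 0 < β) (hL : 0 < Real.log T) (hF0 : ∀ j x, 0 ≤ F j x) (hη : 0 < η) {E : ℝ → Prop}
    (h : ∀ ω, (∃ j, j < N ∧ η / 2 < (((nuR β T ω).testAgainstNN (tf (F j) (hF j)) : ℝ≥0) : ℝ)) → E ω) :
    ∫ ω in (0 : ℝ)..1, Gs N F hF η (nuR β T ω) ≤ (volume {ω : ℝ | ω ∈ Set.Icc 0 1 ∧ E ω}).toReal := by
  have hc : Continuous fun ω => Gs N F hF η (nuR β T ω) := nuR_cont hβ hL hF0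
  have h1 : ∫ ω in (0 : ℝ)..1, Gs N F hF η (nuR β T ω) ≤ ∫ ω in (0 : ℝ)..1, Set.indicator {ω : ℝ | 0 < Gs N F hF η (nuR β T ω)} (fun _ => (1 : ℝ)) ω := by
    refine intervalIntegral.integral_mono_on zero_le_one (hc.intervalIntegrable _ _) (ind_int hc 0 0 1) fun ω _ => ?_
    unfold Set.indicator
    split_ifs with h2
    · exact Gs_le _
    · exact not_lt.1 h2
  rw [ind_eq hc 0 zero_le_one] at h1
  refine h1.trans (ENNReal.toReal_mono ?_ (measure_mono ?_))
  · refine ne_top_of_le_ne_top ?_ (measure_mono (show {ω : ℝ | ω ∈ Set.Icc 0 1 ∧ E ω} ⊆ Set.Icc 0 1 from fun t ht => ht.1))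
    rw [Real.volume_Icc]
    exact ENNReal.ofReal_ne_top
  · rintro ω ⟨h2, h3⟩
    refine ⟨h2, h ω ?_⟩
    by_contra hcon
    push Not at hcon
    rw [Gs_zero hη hcon] at h3
    exact lt_irrefl _ h3

theorem prob_le_int {β T : ℝ} (hβ : 0 < β) (hL : 0 < Real.log T) (hF0 : ∀ j x, 0 ≤ F j x) {Z : ℝ → ℝ} (hZ : Continuous Z) {c : ℝ}
    (h : ∀ ω, c < Z ω → Gs N F hF η (nuR β T ω) = 1) :
    (volume {ω : ℝ | ω ∈ Set.Icc 0 1 ∧ c < Z ω}).toReal ≤ ∫ ω in (0 : ℝ)..1, Gs N F hF η (nuR β T ω) := by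
  have hc : Continuous fun ω => Gs N F hF η (nuR β T ω) := nuR_cont hβ hL hF0
  rw [← ind_eq hZ c zero_le_one]
  refine intervalIntegral.integral_mono_on zero_le_one (ind_int hZ c 0 1) (hc.intervalIntegrable _ _) fun ω _ => ?_
  unfold Set.indicator
  split_ifs with h2
  · rw [h ω h2]
  · exact Gs_nonneg _

/-- the trapezoid -/
def trap (a b x : ℝ) : ℝ := max 0 (min 1 (4 / (b - a) * min (x - a) (b - x)))

theorem trap_cont (a b : ℝ) : Continuous (trap a b) := by
  unfold trap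
  fun_prop

theorem trap_one {a b x : ℝ} (hab : a < b) (hx : x ∈ Set.Icc (a + (b - a) / 4) (b - (b - a) / 4)) : 1 ≤ trap a b x := by
  unfold trap
  apply le_max_of_le_right
  apply le_min le_rfl
  have h1 : (b - a) / 4 ≤ min (x - a) (b - x) := le_min (by linarith [hx.1]) (by linarith [hx.2])
  have h2 : 0 < b - a := by linarith
  rw [div_mul_eq_mul_div, le_div_iff₀ h2]
  linarith

theorem trap_zero {a b x : ℝ} (hab : a < b) (hx : x ∉ Set.Icc a b) : trap a b x = 0 := by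
  unfold trap
  apply max_eq_left
  have h2 : 0 < b - a := by linarith
  have h1 : min (x - a) (b - x) ≤ 0 := by
    by_contra hcon
    push Not at hcon
    rw [lt_min_iff] at hcon
    exact hx ⟨by linarith [hcon.1], by linarith [hcon.2]⟩
  exact (min_le_right _ _).trans (mul_nonpos_of_nonneg_of_nonpos (by positivity) h1)

/-- **limit points charge every interval** -/
theorem lim_charge {β q : ℝ} (hβ0 : 0 < β) (hβ2 : β < 2) (hq1 : 1 < q) (hq2 : q ≤ 2) (hqβ : q * β ^ 2 < 4) : ∃ c : ℝ, 0 < c ∧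
    ∀ {Ω : Type} [MeasurableSpace Ω] (P : Measure Ω) [IsProbabilityMeasure P] (m : Ω → FiniteMeasure unitInterval), LimPt β P m →
    ∀ a b : ℝ, 0 ≤ a → a < b → b ≤ 1 →
    ENNReal.ofReal (c * (b - a) ^ (q * β ^ 2 / 4)) ≤ P {w | ENNReal.ofReal (c * (b - a)) < (m w : Measure unitInterval) {x | (x : ℝ) ∈ Set.Icc a b}} := by
  obtain ⟨c₀, hc₀, hch⟩ := charge hβ0 hβ2 hq1 hq2 hqβ
  refine ⟨c₀ / 4, by positivity, ?_⟩
  intro Ω _ P _ m hm a b ha hab hb
  obtain ⟨T, hT, hG⟩ := hm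
  obtain ⟨h, hh⟩ : ∃ h : ℝ, h = b - a := ⟨_, rfl⟩
  have hh0 : 0 < h := by rw [hh]; linarith
  obtain ⟨κ, hκ⟩ : ∃ κ : ℝ, κ = q * β ^ 2 / 4 := ⟨_, rfl⟩
  have hκ0 : 0 < κ := by rw [hκ]; positivity
  have hκ1 : κ ≤ 1 := by rw [hκ]; linarith
  rw [← hh, ← hκ]
  rw [← hκ] at hch
  have hF : ∀ _j : ℕ, Continuous (trap a b) := fun _ => trap_cont a b
  have hF0 : ∀ (_j : ℕ) (x : ℝ), 0 ≤ trap a b x := fun _ x => le_max_left _ _
  have hη : 0 < c₀ * (h / 2) := by positivity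
  have hlim := (hG (Gb 1 (fun _ => trap a b) hF (c₀ * (h / 2)))).2
  have hme := (hG (Gb 1 (fun _ => trap a b) hF (c₀ * (h / 2)))).1
  have hge : c₀ * (h / 2) ^ κ ≤ ∫ w, Gb 1 (fun _ => trap a b) hF (c₀ * (h / 2)) (m w) ∂P := by
    apply ge_of_tendsto hlim
    have hLt : Tendsto (fun n => Real.log (T n)) atTop atTop := Real.tendsto_log_atTop.comp hT
    filter_upwards [hT.eventually hch, hT.eventually_gt_atTop 0, hLt.eventually_ge_atTop 1, hLt.eventually_ge_atTop (2 / h)] with n h1 hT0 hL1 hLh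
    have hL0 : 0 < Real.log (T n) := by linarith
    have h2 : 1 / Real.log (T n) ≤ h / 2 := by
      rw [div_le_iff₀ hL0]
      rw [div_le_iff₀ hh0] at hLh
      linarith
    have h3 := h1 (a + h / 4) (h / 2) (by linarith) (by linarith) h2 (by linarith)
    rw [← pr_eq hT0 (fun ω => c₀ * (h / 2) < Real.log (T n) ^ (-(β ^ 2 / 4)) * Yg β (a + h / 4) (a + h / 4 + h / 2) (ω * T n)) _ (fun ω => lt_iff hL0)] at h3
    refine h3.trans ?_
    have hZ : Continuous fun ω => Real.log (T n) ^ (-(β ^ 2 / 4)) * Yg β (a + h / 4) (a + h / 4 + h / 2) (ω * T n) :=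
      continuous_const.mul ((Yg_cont hβ0.le _ _).comp (by fun_prop))
    refine prob_le_int hβ0 hL0 hF0 hZ fun ω hω => Gs_one hη zero_lt_one ?_
    refine hω.le.trans (test_ge hβ0 hL0 (trap_cont a b) (hF0 0) (by linarith) (by linarith) (by linarith) (fun x hx => trap_one hab ?_) ω)
    rw [← hh]
    exact ⟨hx.1, by linarith [hx.2]⟩
  have hpt : ∀ w, ENNReal.ofReal (Gb 1 (fun _ => trap a b) hF (c₀ * (h / 2)) (m w)) ≤
      Set.indicator {w | ENNReal.ofReal (c₀ / 4 * h) < (m w : Measure unitInterval) {x | (x : ℝ) ∈ Set.Icc a b}} (fun _ => (1 : ℝ≥0∞)) w := by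
    intro w
    unfold Set.indicator
    split_ifs with h2
    · exact ENNReal.ofReal_le_one.2 (Gs_le _)
    · have h3 : (((m w).testAgainstNN (tf (trap a b) (trap_cont a b)) : ℝ≥0) : ℝ≥0∞) ≤ (m w : Measure unitInterval) {x | (x : ℝ) ∈ Set.Icc a b} := by
        rw [FiniteMeasure.testAgainstNN_coe_eq]
        have h4 : ∀ x : unitInterval, ((tf (trap a b) (trap_cont a b) x : ℝ≥0) : ℝ≥0∞) ≤ Set.indicator {x : unitInterval | (x : ℝ) ∈ Set.Icc a b} (fun _ => (1 : ℝ≥0∞)) x := by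
          intro x
          unfold Set.indicator
          split_ifs with h5
          · have : tf (trap a b) (trap_cont a b) x ≤ 1 := by
              show (trap a b x).toNNReal ≤ 1
              rw [Real.toNNReal_le_one]
              exact max_le zero_le_one (min_le_left _ _)
            show ((tf (trap a b) (trap_cont a b) x : ℝ≥0) : ℝ≥0∞) ≤ 1
            exact_mod_cast this
          · have : tf (trap a b) (trap_cont a b) x = 0 := by
              show (trap a b x).toNNReal = 0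
              rw [trap_zero hab h5, Real.toNNReal_zero]
            rw [this]
            exact le_rfl
        refine (lintegral_mono h4).trans ((lintegral_indicator_const_le _ _).trans ?_)
        rw [one_mul]
      have h4 : (((m w).testAgainstNN (tf (trap a b) (trap_cont a b)) : ℝ≥0) : ℝ) ≤ c₀ * (h / 2) / 2 := by
        have h5 := h3.trans (not_lt.1 h2)
        have h6 := ENNReal.toReal_mono ENNReal.ofReal_ne_top h5
        rw [ENNReal.coe_toReal, ENNReal.toReal_ofReal (by positivity)] at h6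
        linarith
      have h5 : Gb 1 (fun _ => trap a b) hF (c₀ * (h / 2)) (m w) = 0 := Gs_zero hη fun j _ => h4
      rw [h5, ENNReal.ofReal_zero]
  have h1 : ENNReal.ofReal (∫ w, Gb 1 (fun _ => trap a b) hF (c₀ * (h / 2)) (m w) ∂P) = ∫⁻ w, ENNReal.ofReal (Gb 1 (fun _ => trap a b) hF (c₀ * (h / 2)) (m w)) ∂P := by
    apply ofReal_integral_eq_lintegral_ofReal
    · exact Integrable.of_bound hme 1 (Eventually.of_forall fun w => by
        rw [Real.norm_eq_abs, abs_of_nonneg (show 0 ≤ Gb 1 (fun _ => trap a b) hF (c₀ * (h / 2)) (m w) from Gs_nonneg _)]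
        exact Gs_le _)
    · exact Eventually.of_forall fun w => Gs_nonneg _
  have h2 : ENNReal.ofReal (c₀ / 4 * h ^ κ) ≤ ENNReal.ofReal (∫ w, Gb 1 (fun _ => trap a b) hF (c₀ * (h / 2)) (m w) ∂P) := by
    apply ENNReal.ofReal_le_ofReal
    refine le_trans ?_ hge
    have e1 : (h / 2) ^ κ = h ^ κ * (1 / 2) ^ κ := by
      rw [← Real.mul_rpow hh0.le (by norm_num)]
      congr 1
      ring
    have e2 : (1 / 2 : ℝ) ≤ (1 / 2) ^ κ := by
      calc (1 / 2 : ℝ) = (1 / 2) ^ (1 : ℝ) := (Real.rpow_one _).symm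
        _ ≤ _ := Real.rpow_le_rpow_of_exponent_ge (by norm_num) (by norm_num) hκ1
    rw [e1]
    have hp : 0 < h ^ κ := by positivity
    nlinarith [mul_pos hc₀ hp]
  refine h2.trans (h1.le.trans ((lintegral_mono hpt).trans ((lintegral_indicator_const_le _ _).trans ?_)))
  rw [one_mul]

end

end Pool.Agent.H469.F4
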