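import Pool.Agent.H469.F4.CHG4

set_option autoImplicit false

/-!
# Limit points of the subcritical measures have no atoms
-/

namespace Pool.Agent.H469.F4

open Filter Topology MeasureTheory Complex
open scoped ENNReal NNReal

noncomputable section

/-- the tent functions -/
def tent (N j : ℕ) (x : ℝ) : ℝ := max 0 (min 1 (2 - N * |x - j / N|))

theorem tent_cont (N j : ℕ) : Continuous (tent N j) := by
  unfold tent
  fun_prop

theorem tent_one {N j : ℕ} {x : ℝ} (h : N * |x - j / N| ≤ 1) : tent N j x = 1 := by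
  unfold tent
  rw [min_eq_left (by linarith), max_eq_right zero_le_one]

theorem tent_zero {N j : ℕ} {x : ℝ} (h : 2 ≤ N * |x - j / N|) : tent N j x = 0 := by
  unfold tent
  exact max_eq_left ((min_le_right _ _).trans (by linarith))

theorem atom_bound {β q : ℝ} (hβ0 : 0 < β) (hβ2 : β < 2) (hq1 : 1 < q) (hq2 : q ≤ 2) (hqβ : q * β ^ 2 < 4) : ∃ C : ℝ, 0 < C ∧
    ∀ {Ω : Type} [MeasurableSpace Ω] (P : Measure Ω) [IsProbabilityMeasure P] (m : Ω → FiniteMeasure unitInterval), LimPt β P m →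
    ∀ (η : ℝ) (N : ℕ), 0 < η → 8 ≤ N →
    P {w | ∃ x : unitInterval, ENNReal.ofReal η ≤ (m w : Measure unitInterval) {x}} ≤ ENNReal.ofReal (C * (4 / N) ^ ((q - 1) * (1 - q * β ^ 2 / 4)) / (η / 2) ^ q) := by
  obtain ⟨C, hC, hat⟩ := no_atoms hβ0 hβ2 hq1 hq2 hqβ
  refine ⟨C, hC, ?_⟩
  intro Ω _ P _ m hm η N hη hN
  obtain ⟨T, hT, hG⟩ := hm
  have hN0 : (0 : ℝ) < N := by
    have : 0 < N := by omega
    exact_mod_cast this
  have hN8 : (8 : ℝ) ≤ N := by exact_mod_cast hN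
  have hF : ∀ j : ℕ, Continuous (tent N j) := fun j => tent_cont N j
  have hF0 : ∀ (j : ℕ) (x : ℝ), 0 ≤ tent N j x := fun _ _ => le_max_left _ _
  have hF1 : ∀ (j : ℕ) (x : ℝ), tent N j x ≤ 1 := fun _ _ => max_le zero_le_one (min_le_left _ _)
  have hlim := (hG (Gb (N + 1) (tent N) hF η)).2
  have hme := (hG (Gb (N + 1) (tent N) hF η)).1
  have hle : ∫ w, Gb (N + 1) (tent N) hF η (m w) ∂P ≤ C * (4 / N) ^ ((q - 1) * (1 - q * β ^ 2 / 4)) / (η / 2) ^ q := by
    apply le_of_tendsto hlim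
    have hLt : Tendsto (fun n => Real.log (T n)) atTop atTop := Real.tendsto_log_atTop.comp hT
    filter_upwards [hT.eventually hat, hT.eventually_gt_atTop 0, hLt.eventually_ge_atTop 1, hLt.eventually_ge_atTop (N : ℝ)] with n h1 hT0 hL1 hLN
    have hL0 : 0 < Real.log (T n) := by linarith
    have h2 : 1 / Real.log (T n) ≤ 4 / N := by
      rw [div_le_div_iff₀ hL0 hN0]
      linarith
    have h3 := h1 (4 / N) (η / 2) h2 (by
      rw [div_le_div_iff₀ hN0 (by norm_num)]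
      linarith) (by positivity)
    rw [← pr_eq hT0 (fun ω => ∃ a b : ℝ, 0 ≤ a ∧ a ≤ b ∧ b ≤ 1 ∧ b - a ≤ 4 / N ∧ η / 2 < Real.log (T n) ^ (-(β ^ 2 / 4)) * Yg β a b (ω * T n)) _
      (fun ω => by simp only [lt_iff hL0])] at h3
    have h4 : ∫ ω in (0 : ℝ)..1, Gb (N + 1) (tent N) hF η (nuR β (T n) ω) ≤ (volume {ω : ℝ | ω ∈ Set.Icc 0 1 ∧
        ∃ a b : ℝ, 0 ≤ a ∧ a ≤ b ∧ b ≤ 1 ∧ b - a ≤ 4 / N ∧ η / 2 < Real.log (T n) ^ (-(β ^ 2 / 4)) * Yg β a b (ω * T n)}).toReal := by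
      refine int_le_prob hβ0 hL0 hF0 hη fun ω hω => ?_
      obtain ⟨j, hj, hjη⟩ := hω
      have hjN : (j : ℝ) ≤ N := by exact_mod_cast Nat.lt_succ_iff.1 hj
      have hj0 : (0 : ℝ) ≤ j := Nat.cast_nonneg _
      have hjN1 : (j : ℝ) / N ≤ 1 := by
        rw [div_le_one hN0]
        exact hjN
      have hjN0 : 0 ≤ (j : ℝ) / N := by positivity
      have h2N : 0 < 2 / (N : ℝ) := by positivity
      refine ⟨max 0 (j / N - 2 / N), min 1 (j / N + 2 / N), le_max_left _ _, ?_, min_le_left _ _, ?_, ?_⟩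
      · exact max_le (le_min zero_le_one (by linarith)) (le_min (by linarith) (by linarith))
      · have h5 : min 1 ((j : ℝ) / N + 2 / N) ≤ (j : ℝ) / N + 2 / N := min_le_right _ _
        have h6 : (j : ℝ) / N - 2 / N ≤ max 0 ((j : ℝ) / N - 2 / N) := le_max_right _ _
        have h7 : 4 / (N : ℝ) = 2 / N + 2 / N := by ring
        linarith
      · refine lt_of_lt_of_le hjη (test_le hβ0 hL0 (hF j) (hF0 j) (hF1 j) (le_max_left _ _) ?_ (min_le_left _ _) ?_ ω)
        · exact max_le (le_min zero_le_one (by linarith)) (le_min (by linarith) (by linarith))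
        · intro x hx hx'
          apply tent_zero
          have h5 : 2 / (N : ℝ) ≤ |x - j / N| := by
            rw [le_abs]
            by_contra hcon
            push Not at hcon
            apply hx'
            exact ⟨max_le hx.1 (by linarith [hcon.2]), le_min hx.2 (by linarith [hcon.1])⟩
          rw [div_le_iff₀ hN0] at h5
          linarith
    refine h4.trans ?_
    rw [le_div_iff₀ (by positivity)]
    linarith
  have h1 : ENNReal.ofReal (∫ w, Gb (N + 1) (tent N) hF η (m w) ∂P) = ∫⁻ w, ENNReal.ofReal (Gb (N + 1) (tent N) hF η (m w)) ∂P := by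
    apply ofReal_integral_eq_lintegral_ofReal
    · exact Integrable.of_bound hme 1 (Eventually.of_forall fun w => by
        rw [Real.norm_eq_abs, abs_of_nonneg (show 0 ≤ Gb (N + 1) (tent N) hF η (m w) from Gs_nonneg _)]
        exact Gs_le _)
    · exact Eventually.of_forall fun w => Gs_nonneg _
  have h2 := mul_meas_ge_le_lintegral₀ (μ := P) (f := fun w => ENNReal.ofReal (Gb (N + 1) (tent N) hF η (m w))) hme.aemeasurable.ennreal_ofReal 1
  rw [one_mul, ← h1] at h2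
  refine le_trans (measure_mono ?_) (h2.trans (ENNReal.ofReal_le_ofReal hle))
  rintro w ⟨x, hx⟩
  show 1 ≤ ENNReal.ofReal (Gb (N + 1) (tent N) hF η (m w))
  have hx0 : (0 : ℝ) ≤ x := x.2.1
  have hx1 : (x : ℝ) ≤ 1 := x.2.2
  have hf1 : ((⌊(N : ℝ) * x⌋₊ : ℕ) : ℝ) ≤ N * x := Nat.floor_le (by positivity)
  have hf2 : (N : ℝ) * x < (⌊(N : ℝ) * x⌋₊ : ℕ) + 1 := Nat.lt_floor_add_one _
  have hjlt : ⌊(N : ℝ) * x⌋₊ < N + 1 := by
    rw [Nat.lt_succ_iff]
    have : ((⌊(N : ℝ) * x⌋₊ : ℕ) : ℝ) ≤ N := by nlinarith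
    exact_mod_cast this
  have htent : tent N ⌊(N : ℝ) * x⌋₊ x = 1 := by
    apply tent_one
    have e1 : (N : ℝ) * |(x : ℝ) - (⌊(N : ℝ) * x⌋₊ : ℕ) / N| = |(N : ℝ) * (x : ℝ) - (⌊(N : ℝ) * x⌋₊ : ℕ)| := by
      have e2 : (N : ℝ) * (x : ℝ) - (⌊(N : ℝ) * x⌋₊ : ℕ) = (N : ℝ) * ((x : ℝ) - (⌊(N : ℝ) * x⌋₊ : ℕ) / N) := by
        field_simp
      rw [e2, abs_mul, abs_of_pos hN0]
    rw [e1, abs_le]
    constructor <;> linarith
  have h3 : (m w : Measure unitInterval) {x} ≤ (((m w).testAgainstNN (tf (tent N ⌊(N : ℝ) * x⌋₊) (hF _)) : ℝ≥0) : ℝ≥0∞) := by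
    rw [FiniteMeasure.testAgainstNN_coe_eq]
    have h4 : ∀ y : unitInterval, Set.indicator {x} (fun _ => (1 : ℝ≥0∞)) y ≤ ((tf (tent N ⌊(N : ℝ) * x⌋₊) (hF _) y : ℝ≥0) : ℝ≥0∞) := by
      intro y
      unfold Set.indicator
      split_ifs with h5
      · have h6 : y = x := h5
        have h7 : tf (tent N ⌊(N : ℝ) * x⌋₊) (hF _) y = 1 := by
          show (tent N ⌊(N : ℝ) * x⌋₊ y).toNNReal = 1
          rw [h6, htent, Real.toNNReal_one]
        rw [h7]
        exact le_rfl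
      · exact zero_le
    refine le_trans (le_of_eq ?_) (lintegral_mono h4)
    rw [lintegral_indicator_const (measurableSet_singleton x), one_mul]
  have h4 : η ≤ (((m w).testAgainstNN (tf (tent N ⌊(N : ℝ) * x⌋₊) (hF _)) : ℝ≥0) : ℝ) := by
    have h5 := hx.trans h3
    have h6 := ENNReal.toReal_mono ENNReal.coe_ne_top h5
    rwa [ENNReal.coe_toReal, ENNReal.toReal_ofReal hη.le] at h6
  have h5 : Gb (N + 1) (tent N) hF η (m w) = 1 := Gs_one hη hjlt h4
  rw [h5, ENNReal.ofReal_one]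

/-- **limit points have no atoms** -/
theorem lim_atoms {β : ℝ} (hβ0 : 0 < β) (hβ2 : β < 2) {Ω : Type} [MeasurableSpace Ω] (P : Measure Ω) [IsProbabilityMeasure P]
    (m : Ω → FiniteMeasure unitInterval) (hm : LimPt β P m) : ∀ᵐ w ∂P, ∀ x : unitInterval, (m w : Measure unitInterval) {x} = 0 := by
  have hβsq : 0 < β ^ 2 := by positivity
  have hβ4 : β ^ 2 < 4 := by nlinarith
  obtain ⟨q, hq⟩ : ∃ q : ℝ, q = min 2 ((1 + 4 / β ^ 2) / 2) := ⟨_, rfl⟩
  have h4β : 1 < 4 / β ^ 2 := by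
    rw [one_lt_div hβsq]
    exact hβ4
  have hq1 : 1 < q := by rw [hq]; exact lt_min (by norm_num) (by linarith)
  have hq2 : q ≤ 2 := by rw [hq]; exact min_le_left _ _
  have hq3 : q ≤ (1 + 4 / β ^ 2) / 2 := by rw [hq]; exact min_le_right _ _
  have hqβ : q * β ^ 2 < 4 := by
    have h1 : q * β ^ 2 ≤ (1 + 4 / β ^ 2) / 2 * β ^ 2 := mul_le_mul_of_nonneg_right hq3 hβsq.le
    have h2 : (1 + 4 / β ^ 2) / 2 * β ^ 2 = (β ^ 2 + 4) / 2 := by field_simp
    linarith
  obtain ⟨C, hC, hb⟩ := atom_bound hβ0 hβ2 hq1 hq2 hqβ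
  obtain ⟨κ, hκ⟩ : ∃ κ : ℝ, κ = (q - 1) * (1 - q * β ^ 2 / 4) := ⟨_, rfl⟩
  have hκ0 : 0 < κ := by rw [hκ]; exact mul_pos (by linarith) (by linarith)
  rw [← hκ] at hb
  have hz : ∀ η : ℝ, 0 < η → P {w | ∃ x : unitInterval, ENNReal.ofReal η ≤ (m w : Measure unitInterval) {x}} = 0 := by
    intro η hη
    have hlim : Tendsto (fun N : ℕ => ENNReal.ofReal (C * (4 / (N : ℝ)) ^ κ / (η / 2) ^ q)) atTop (𝓝 (ENNReal.ofReal (C * 0 ^ κ / (η / 2) ^ q))) := by
      apply ENNReal.tendsto_ofReal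
      apply Tendsto.div_const
      apply Tendsto.const_mul
      exact (tendsto_const_div_atTop_nhds_zero_nat 4).rpow_const (Or.inr hκ0.le)
    rw [Real.zero_rpow hκ0.ne', mul_zero, zero_div, ENNReal.ofReal_zero] at hlim
    have h1 : P {w | ∃ x : unitInterval, ENNReal.ofReal η ≤ (m w : Measure unitInterval) {x}} ≤ 0 := by
      apply ge_of_tendsto hlim
      filter_upwards [eventually_ge_atTop 8] with N hN
      exact hb P m hm η N hη hN
    exact le_antisymm h1 zero_le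
  rw [ae_iff]
  have hsub : {w | ¬ ∀ x : unitInterval, (m w : Measure unitInterval) {x} = 0} ⊆
      ⋃ k : ℕ, {w | ∃ x : unitInterval, ENNReal.ofReal (1 / ((k : ℝ) + 1)) ≤ (m w : Measure unitInterval) {x}} := by
    intro w hw
    simp only [Set.mem_ofPred_eq, not_forall] at hw
    obtain ⟨x, hx⟩ := hw
    have h1 : 0 < ((m w : Measure unitInterval) {x}).toReal := ENNReal.toReal_pos hx (measure_ne_top _ _)
    obtain ⟨k, hk⟩ := exists_nat_one_div_lt h1
    rw [Set.mem_iUnion]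
    refine ⟨k, x, ?_⟩
    rw [← ENNReal.ofReal_toReal (measure_ne_top (m w : Measure unitInterval) {x})]
    exact ENNReal.ofReal_le_ofReal hk.le
  refine measure_mono_null hsub ?_
  rw [measure_iUnion_null_iff]
  intro k
  exact hz _ (by positivity)

end

end Pool.Agent.H469.F4
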