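import Pool.Agent.H469.F4.SP2

set_option autoImplicit false

/-!
# The ratio of the mean squares with and without the short Euler product
-/

namespace Pool.Agent.H469.F4

open Filter Topology MeasureTheory Complex Pool.Agent.Q97.UM Pool.Agent.Q14.UM

noncomputable section

/-- removing the large primes -/
theorem shift_id {D κ Λ : ℝ} (hκ : 1 ≤ κ) (hΛ : 1 ≤ Λ) (hD : Λ ≤ D) (a a2 : ℕ → ℂ) :
    ∃ D' κ' : ℝ, Λ ≤ D' ∧ D' ≤ Real.exp 1 * Λ ∧ κ * (D / (Real.exp 1 * Λ)) ^ (9 / 10 : ℝ) ≤ κ' ∧ 1 ≤ κ' ∧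
      ∀ (N : ℕ) (b : ℕ → ℂ), (∀ n, b n ≠ 0 → 1 ≤ n ∧ n ≤ N) → SP (fun p => ¬ ⌊Real.exp D'⌋₊ < p) b →
        N2 (M9 D κ * N) (cv (ebk D κ a a2 0 (JB D)) b) * N2 (M9 D' κ') (ebk D' κ' a a2 0 (JB D')) =
          N2 (M9 D' κ' * N) (cv (ebk D' κ' a a2 0 (JB D')) b) * N2 (M9 D κ) (ebk D κ a a2 0 (JB D)) := by
  have hD0 : 0 < D := by linarith
  have hD1' : 1 ≤ D := by linarith
  obtain ⟨l, hlD⟩ : ∃ l : ℕ, l = ⌊Real.log (D / Λ)⌋₊ := ⟨_, rfl⟩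
  have hlog0 : 0 ≤ Real.log (D / Λ) := Real.log_nonneg (by
    rw [le_div_iff₀ (by linarith)]
    linarith)
  have hl1 : (l : ℝ) ≤ Real.log (D / Λ) := by rw [hlD]; exact Nat.floor_le hlog0
  have hl2 : Real.log (D / Λ) < l + 1 := by rw [hlD]; exact Nat.lt_floor_add_one _
  obtain ⟨D', hD'⟩ : ∃ D' : ℝ, D' = D * Real.exp (-(l : ℝ)) := ⟨_, rfl⟩
  have hDL : D / Λ = Real.exp (Real.log (D / Λ)) := (Real.exp_log (by positivity)).symm
  have hD'1 : Λ ≤ D' := by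
    have h1 : Real.exp (l : ℝ) ≤ D / Λ := by
      rw [hDL]
      exact Real.exp_le_exp.2 hl1
    rw [le_div_iff₀ (by linarith)] at h1
    rw [hD', Real.exp_neg, ← div_eq_mul_inv, le_div_iff₀ (Real.exp_pos _)]
    linarith
  have hle : D / (Real.exp 1 * Λ) ≤ Real.exp (l : ℝ) := by
    have h1 : D / Λ ≤ Real.exp ((l : ℝ) + 1) := by
      rw [hDL]
      exact Real.exp_le_exp.2 hl2.le
    rw [div_le_iff₀ (by linarith), Real.exp_add] at h1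
    rw [div_le_iff₀ (by positivity)]
    linarith
  have hD'2 : D' ≤ Real.exp 1 * Λ := by
    rw [div_le_iff₀ (by positivity)] at hle
    rw [hD', Real.exp_neg, ← div_eq_mul_inv, div_le_iff₀ (Real.exp_pos _)]
    linarith
  obtain ⟨κ', hκ'⟩ : ∃ κ' : ℝ, κ' = κ * Real.exp (9 / 10 * (l : ℝ)) := ⟨_, rfl⟩
  have hκ'0 : 1 ≤ κ' := by
    rw [hκ']
    have : 1 ≤ Real.exp (9 / 10 * (l : ℝ)) := Real.one_le_exp (by positivity)
    nlinarith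
  have hκ'1 : κ * (D / (Real.exp 1 * Λ)) ^ (9 / 10 : ℝ) ≤ κ' := by
    rw [hκ']
    apply mul_le_mul_of_nonneg_left _ (by linarith)
    calc (D / (Real.exp 1 * Λ)) ^ (9 / 10 : ℝ) ≤ Real.exp (l : ℝ) ^ (9 / 10 : ℝ) :=
          Real.rpow_le_rpow (by positivity) hle (by norm_num)
      _ = _ := by
          rw [← Real.exp_mul]
          congr 1
          ring
  refine ⟨D', κ', hD'1, hD'2, hκ'1, hκ'0, fun N b hb hSb => ?_⟩
  obtain ⟨X, hX⟩ : ∃ X : ℕ, X = ⌊Real.exp D'⌋₊ := ⟨_, rfl⟩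
  rw [← hX] at hSb
  have hXB : XB D l = Real.exp D' := by
    have := XB_shift D l 0
    rw [add_zero] at this
    rw [this, ← hD']
    unfold XB
    simp
  obtain ⟨r, hr⟩ : ∃ r : ℕ, r = JB D' := ⟨_, rfl⟩
  have hJ : JB D = l + r := by
    rw [hr, hD']
    exact JB_shift hD0 l (by rw [← hD']; linarith)
  obtain ⟨g, hg⟩ : ∃ g : ℕ → ℂ, g = ebk D κ a a2 l r := ⟨_, rfl⟩
  have hg' : ebk D' κ' a a2 0 (JB D') = g := by
    rw [hg, ebk_shift D κ, ← hD', ← hκ', hr]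
  obtain ⟨u, hu⟩ : ∃ u : ℕ → ℂ, u = ebk D κ a a2 0 l := ⟨_, rfl⟩
  have hc1 : ∀ n, g n ≠ 0 → 1 ≤ n ∧ n ≤ M9 D' κ' := by
    rw [← hg']
    exact ebk_supp (by linarith) hκ'0 a a2
  have he1 : ∀ n, ebk D κ a a2 0 (JB D) n ≠ 0 → 1 ≤ n ∧ n ≤ M9 D κ := ebk_supp hD1' hκ a a2
  have hsplit : ebk D κ a a2 0 (JB D) = cv u g := by
    rw [hJ, ebk_split, ← hg, ← hu, cv_comm]
  rw [hg']
  obtain ⟨M', hM'⟩ : ∃ M' : ℕ, M' = M9 D' κ' := ⟨_, rfl⟩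
  rw [← hM'] at hc1 ⊢
  obtain ⟨X₁, hX₁⟩ : FS u := by rw [hu]; exact FS_ebk D κ a a2 0 l
  have hSu : SP (fun p => X < p) u := by
    intro n hn
    rw [hu] at hn
    have h1 := SP_ebk' D κ a a2 0 l n hn
    refine ⟨h1.1, fun p hp hpn => ?_⟩
    obtain ⟨j, -, hj, h⟩ := h1.2 p hp hpn
    have h2 := (mem_PB h).2.1
    have h3 : XB D l ≤ XB D (j + 1) := XB_anti D hD0.le (by omega)
    rw [hXB] at h3
    rw [hX]
    have h4 : Real.exp D' < p := by linarith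
    exact (Nat.floor_lt (Real.exp_pos _).le).2 h4
  have hSg : SP (fun p => ¬ X < p) g := by
    intro n hn
    rw [hg] at hn
    have h1 := SP_ebk' D κ a a2 l r n hn
    refine ⟨h1.1, fun p hp hpn => ?_⟩
    obtain ⟨j, hj, -, h⟩ := h1.2 p hp hpn
    have h2 := (mem_PB h).2.2
    have h3 : XB D j ≤ XB D l := XB_anti D hD0.le hj
    rw [hXB] at h3
    rw [hX, not_lt]
    exact Nat.le_floor (h2.trans h3)
  have hgM : ∀ n, g n ≠ 0 → n ≤ M' := fun n hn => (hc1 n hn).2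
  have hgb : ∀ n, cv g b n ≠ 0 → n ≤ M' * N := by
    intro n hn
    obtain ⟨k, m, hkm, _, hk, hm⟩ := cv_supp hn
    rw [← hkm]
    exact Nat.mul_le_mul (hgM k hk) (hb m hm).2
  have i1 := N2_mul_eq u g (fun p => X < p) hSu hSg hX₁ hgM
  have i2 := N2_mul_eq u (cv g b) (fun p => X < p) hSu (SP_cv _ _ _ hSg hSb) hX₁ hgb
  have j1 : N2 (M9 D κ) (ebk D κ a a2 0 (JB D)) = N2 (X₁ * M') (cv u g) := by
    rw [← hsplit]
    refine N2_ext (fun n hn => (he1 n hn).2) fun n hn => ?_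
    rw [hsplit] at hn
    obtain ⟨k, m, hkm, _, hk, hm⟩ := cv_supp hn
    rw [← hkm]
    exact Nat.mul_le_mul (hX₁ k hk) (hgM m hm)
  have j2 : N2 (M9 D κ * N) (cv (ebk D κ a a2 0 (JB D)) b) = N2 (X₁ * (M' * N)) (cv u (cv g b)) := by
    rw [← cv_assoc, ← hsplit]
    refine N2_ext (fun n hn => ?_) fun n hn => ?_
    · obtain ⟨k, m, hkm, _, hk, hm⟩ := cv_supp hn
      rw [← hkm]
      exact Nat.mul_le_mul (he1 k hk).2 (hb m hm).2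
    · rw [hsplit, cv_assoc] at hn
      obtain ⟨k, m, hkm, _, hk, hm⟩ := cv_supp hn
      rw [← hkm]
      exact Nat.mul_le_mul (hX₁ k hk) (hgb m hm)
  rw [j1, j2, i1, i2]
  ring

theorem PA_aZ {X Y : ℕ} (h : X ≤ Y) (z : ℝ) (t : ℝ) : PA Y (aZ z X) (aZ z X) t = PA X (aS z) (aS z) t := by
  unfold PA
  symm
  have h1 : (Finset.Icc 1 X).filter Nat.Prime ⊆ (Finset.Icc 1 Y).filter Nat.Prime :=
    Finset.filter_subset_filter _ (Finset.Icc_subset_Icc_right h)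
  rw [← Finset.sum_subset h1 (f := fun p : ℕ => aZ z X p * (p : ℂ) ^ (-(1 / 2 + t * I)) + aZ z X p / 2 * (p : ℂ) ^ (-(1 + 2 * t * I)))]
  · refine Finset.sum_congr rfl fun p hp => ?_
    have h2 : p ≤ X := (Finset.mem_Icc.1 (Finset.mem_filter.1 hp).1).2
    unfold aZ aS
    rw [if_pos h2]
  · intro p hp hpX
    have h2 : ¬ p ≤ X := by
      intro h3
      apply hpX
      rw [Finset.mem_filter, Finset.mem_Icc] at hp ⊢
      exact ⟨⟨hp.1.1, h3⟩, hp.2⟩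
    unfold aZ
    rw [if_neg h2]
    simp

/-- the sum over the primes up to `X` of the reciprocals -/
def PR (X : ℕ) : ℝ := ∑ p ∈ (Finset.Icc 1 X).filter Nat.Prime, (1 : ℝ) / p

theorem sum_aT {X Y : ℕ} (h : X ≤ Y) (s z : ℝ) :
    ∑ p ∈ (Finset.Icc 1 Y).filter Nat.Prime, ‖aT s z X p‖ ^ 2 / (p : ℝ) =
      ((s + z) ^ 2 - s ^ 2) * PR X + ∑ p ∈ (Finset.Icc 1 Y).filter Nat.Prime, ‖aS s p‖ ^ 2 / (p : ℝ) := by
  have h1 : (Finset.Icc 1 X).filter Nat.Prime ⊆ (Finset.Icc 1 Y).filter Nat.Prime :=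
    Finset.filter_subset_filter _ (Finset.Icc_subset_Icc_right h)
  have h2 : ((s + z) ^ 2 - s ^ 2) * PR X = ∑ p ∈ (Finset.Icc 1 Y).filter Nat.Prime,
      (if p ≤ X then ((s + z) ^ 2 - s ^ 2) * ((1 : ℝ) / p) else 0) := by
    unfold PR
    rw [Finset.mul_sum, ← Finset.sum_subset h1]
    · refine Finset.sum_congr rfl fun p hp => ?_
      rw [if_pos (Finset.mem_Icc.1 (Finset.mem_filter.1 hp).1).2]
    · intro p hp hpX
      have h2 : ¬ p ≤ X := by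
        intro h3
        apply hpX
        rw [Finset.mem_filter, Finset.mem_Icc] at hp ⊢
        exact ⟨⟨hp.1.1, h3⟩, hp.2⟩
      rw [if_neg h2]
  rw [h2, ← Finset.sum_add_distrib]
  refine Finset.sum_congr rfl fun p _ => ?_
  unfold aT aZ aS
  by_cases h3 : p ≤ X
  · rw [if_pos h3, if_pos h3, ← Complex.ofReal_add, Complex.norm_real, Complex.norm_real, Real.norm_eq_abs, Real.norm_eq_abs, sq_abs, sq_abs]
    ring
  · rw [if_neg h3, if_neg h3]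
    simp

/-- **the ratio for the part of the small primes** -/
theorem ratio_core {A : ℝ} (hA : 1 ≤ A) : ∃ c C C₁ κ₀ : ℝ, 0 < c ∧ 0 < C ∧ 0 < C₁ ∧ ∀ (D κ : ℝ) (X : ℕ), 1 ≤ D → 1 ≤ κ → κ₀ ≤ κ →
    X ≤ ⌊Real.exp D⌋₊ → (2 * (JB D : ℝ) * Real.exp (-κ / 2)) ^ 2 * Real.exp (C₁ * Real.sqrt D) ≤ c →
    ∀ s z : ℝ, |s| ≤ A → |z| ≤ A → ∀ (N : ℕ) (b : ℕ → ℂ), (∀ n, b n ≠ 0 → 1 ≤ n ∧ n ≤ N) →
      (∀ t, 1 / 2 * ‖cexp (PA X (aS z) (aS z) t)‖ ≤ ‖dp N b t‖ ∧ ‖dp N b t‖ ≤ 2 * ‖cexp (PA X (aS z) (aS z) t)‖) →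
      c * Real.exp (((s + z) ^ 2 - s ^ 2) * PR X) * N2 (M9 D κ) (ebk D κ (aS s) (aS s) 0 (JB D)) ≤
        N2 (M9 D κ * N) (cv (ebk D κ (aS s) (aS s) 0 (JB D)) b) ∧
      N2 (M9 D κ * N) (cv (ebk D κ (aS s) (aS s) 0 (JB D)) b) ≤
        C * Real.exp (((s + z) ^ 2 - s ^ 2) * PR X) * N2 (M9 D κ) (ebk D κ (aS s) (aS s) 0 (JB D)) ∧
      0 < N2 (M9 D κ) (ebk D κ (aS s) (aS s) 0 (JB D)) := by
  obtain ⟨κ₀, hκ₀, cE, CE, hcE, hCE, hE⟩ := b_EN2 (2 * A) (by linarith)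
  obtain ⟨c, C, C₁, hc, hC, hC₁, h⟩ := core_ratio hA
  have hCE1 : 0 < CE + 1 := by linarith
  refine ⟨min c (c / 4 / (CE + 1)), C * 4 / cE, C₁, κ₀, by positivity, by positivity, hC₁, ?_⟩
  intro D κ X hD hκ hκk hX hsm s z hs hz N b hb hbX
  have hP := fun t => PA_aZ hX z t
  obtain ⟨h1, h2⟩ := h D κ X hD hκ (hsm.trans (min_le_left _ _)) s z hs hz 2 N b (by norm_num) hb (fun t => by
    rw [hP t]
    constructor
    · linarith [(hbX t).1]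
    · exact (hbX t).2)
  have hsA : ∀ n, ‖aS s n‖ ≤ 2 * A := fun n => (aS_norm hs n).trans (by linarith)
  obtain ⟨h3, h4⟩ := hE κ D (aS s) (aS s) hκk hD hsA hsA
  rw [sum_aT hX, Real.exp_add] at h1 h2
  obtain ⟨S, hS⟩ : ∃ S : ℝ, S = Real.exp (∑ p ∈ (Finset.Icc 1 ⌊Real.exp D⌋₊).filter Nat.Prime, ‖aS s p‖ ^ 2 / (p : ℝ)) := ⟨_, rfl⟩
  obtain ⟨E, hEd⟩ : ∃ E : ℝ, E = Real.exp (((s + z) ^ 2 - s ^ 2) * PR X) := ⟨_, rfl⟩
  rw [← hS] at h1 h2 h3 h4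
  rw [← hEd] at h1 h2 ⊢
  have hS0 : 0 < S := by rw [hS]; positivity
  have hE0 : 0 < E := by rw [hEd]; positivity
  obtain ⟨G, hG⟩ : ∃ G : ℝ, G = N2 (M9 D κ) (ebk D κ (aS s) (aS s) 0 (JB D)) := ⟨_, rfl⟩
  rw [← hG] at h3 h4 ⊢
  have hG0 : 0 < G := lt_of_lt_of_le (by positivity) h3
  refine ⟨?_, ?_, hG0⟩
  · calc min c (c / 4 / (CE + 1)) * E * G ≤ (c / 4 / (CE + 1)) * E * ((CE + 1) * S) := by
          apply mul_le_mul _ _ hG0.le (by positivity)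
          · exact mul_le_mul_of_nonneg_right (min_le_right _ _) hE0.le
          · refine h4.trans ?_
            apply mul_le_mul_of_nonneg_right _ hS0.le
            linarith
      _ = (c * (E * S)) / 4 := by field_simp
      _ ≤ (2 ^ 2 * N2 (M9 D κ * N) (cv (ebk D κ (aS s) (aS s) 0 (JB D)) b)) / 4 := by linarith
      _ = _ := by ring
  · calc N2 (M9 D κ * N) (cv (ebk D κ (aS s) (aS s) 0 (JB D)) b) ≤ C * 2 ^ 2 * (E * S) := h2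
      _ = (C * 4 / cE) * E * (cE * S) := by
          field_simp
          ring
      _ ≤ _ := mul_le_mul_of_nonneg_left h3 (by positivity)

end

end Pool.Agent.H469.F4
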