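import Pool.Agent.H469.F4.M5
import Pool.Agent.H469.F4.SP3

set_option autoImplicit false

/-!
# The penalty against the mean square of a product of two polynomials of blocks
-/

namespace Pool.Agent.H469.F4

open Filter Topology MeasureTheory Complex Pool.Agent.Q97.UM
open Pool.Agent.Q14.UM (mem_PB PB_disj sum_inv_sq SP SP_te SP_qb SP_cvp)
open Pool.Agent.Q299.UM (Fp Fp_apply NN_Fp qb_le te_le cvp_le Ee Ee_apply NN NN_mul NN_one NN_pow NN_Ee NN_sum NN_prod Le Le_mul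
  Ee_sum Ee_zero SPA SPA_mul SPA_one SPA_pow SPA_Ee SPA_prod SPA_mono N2A N2A_nonneg N2A_mul N2A_prod N2A_local Fp_one Fp_self SPA_Fp Fp_l1
  sum_ap Le_trans Le_refl)

noncomputable section

/-- a factor with the value one at `1` does not decrease the mean square -/
theorem NC_le_mul {F G : ArithmeticFunction ℂ} {P : ℕ → Prop} (hF : SC P F) (hF1 : F 1 = 1) (hG : SC (fun p => ¬ P p) G) (X : ℕ) :
    NC X G ≤ NC X (F * G) := by
  unfold NC
  refine Finset.sum_le_sum fun n hn => ?_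
  have hn0 : n ≠ 0 := by have := (Finset.mem_Icc.1 hn).1; omega
  by_cases h : G n = 0
  · rw [h, norm_zero]
    have : (0 : ℝ) ≤ ‖(F * G) n‖ ^ 2 / n := by positivity
    simpa using this
  · have h1 : (F * G) n = G n := by
      rw [ArithmeticFunction.mul_apply, Finset.sum_eq_single (1, n)]
      · rw [hF1, one_mul]
      · intro x hx hne
        rw [Nat.mem_divisorsAntidiagonal] at hx
        by_cases hx1 : x.1 = 1
        · exfalso
          apply hne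
          ext
          · exact hx1
          · have := hx.1
            rw [hx1, one_mul] at this
            exact this
        · obtain ⟨p, hp, hpx⟩ := Nat.exists_prime_and_dvd hx1
          have hpn : p ∣ n := by rw [← hx.1]; exact hpx.mul_right _
          have h2 : ¬ P p := hG n h p hp hpn
          by_cases h3 : F x.1 = 0
          · rw [h3, zero_mul]
          · exact absurd (hF x.1 h3 p hp hpx) h2
      · intro h'
        exact absurd (Nat.mem_divisorsAntidiagonal.2 ⟨one_mul n, hn0⟩) h'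
    rw [h1]

theorem Fp_add_le (x x2 y y2 : ℕ → ℂ) (p : ℕ) :
    Le (Fp x x2 p + Fp y y2 p) (Fp (fun n => ((‖x n‖ + ‖y n‖ : ℝ) : ℂ)) (fun n => ((‖x2 n‖ + ‖y2 n‖ : ℝ) : ℂ)) p) := by
  intro n
  rw [ArithmeticFunction.add_apply, Fp_apply, Fp_apply, Fp_apply]
  have e1 : ‖((‖x p‖ + ‖y p‖ : ℝ) : ℂ)‖ = ‖x p‖ + ‖y p‖ := by
    rw [Complex.norm_real, Real.norm_eq_abs, abs_of_nonneg (by positivity)]
  have e2 : ‖((‖x2 p‖ + ‖y2 p‖ : ℝ) : ℂ)‖ = ‖x2 p‖ + ‖y2 p‖ := by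
    rw [Complex.norm_real, Real.norm_eq_abs, abs_of_nonneg (by positivity)]
  rw [e1, e2]
  by_cases h0 : n = 0
  · simp [h0]
  · rw [if_neg h0, if_neg h0, if_neg h0]
    apply le_of_eq
    split_ifs <;> ring

theorem Le_sum' {s : Finset ℕ} {f g : ℕ → ArithmeticFunction ℝ} (h : ∀ p ∈ s, Le (f p) (g p)) : Le (∑ p ∈ s, f p) (∑ p ∈ s, g p) := by
  intro n
  rw [sum_apK, sum_apK]
  exact Finset.sum_le_sum fun p hp => h p hp n

/-- a majorised block with the penalty -/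
theorem penH_NC {A C₀ : ℝ} (hA : 1 ≤ A) {D : ℝ} (hD : 0 ≤ D) {l : ℕ} (hC : ∑ p ∈ PB D l, (1 : ℝ) / p ≤ C₀) {x x2 y y2 : ℕ → ℂ}
    (hx : ∀ n, ‖x n‖ ≤ A) (hx2 : ∀ n, ‖x2 n‖ ≤ A) (hy : ∀ n, ‖y n‖ ≤ A) (hy2 : ∀ n, ‖y2 n‖ ≤ A) (R s X : ℕ)
    {H : ArithmeticFunction ℂ} (hH : ∀ n, ‖H n‖ ≤ Ee (∑ p ∈ PB D l, Fp x x2 p) R n) :
    NC X (H * tA (cvp (qb D y y2 l) s)) ≤
      (s.factorial : ℝ) ^ 2 * Real.exp (36 * A ^ 2 * C₀ + 4 * Real.exp (18 * A)) := by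
  have hx' : NN (∑ p ∈ PB D l, Fp x x2 p) := NN_sum _ _ fun p _ => NN_Fp x x2 p
  have hy' : NN (∑ p ∈ PB D l, Fp y y2 p) := NN_sum _ _ fun p _ => NN_Fp y y2 p
  have h3 : Real.exp 1 • (∑ p ∈ PB D l, Fp x x2 p + ∑ p ∈ PB D l, Fp y y2 p) = ∑ p ∈ PB D l, fm x x2 y y2 p := by
    unfold fm
    rw [← Finset.sum_add_distrib, Finset.smul_sum]
  have h4 : Le (∑ p ∈ PB D l, Fp x x2 p + ∑ p ∈ PB D l, Fp y y2 p) (∑ p ∈ PB D l, fm x x2 y y2 p) := by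
    intro n
    rw [← h3, ArithmeticFunction.smul_map, smul_eq_mul]
    exact le_mul_of_one_le_left (NN_add hx' hy' n) (Real.one_le_exp (by norm_num))
  have h5 : ∀ n, n ≠ 0 → ‖(H * tA (cvp (qb D y y2 l) s)) n‖ ≤
      (s.factorial : ℝ) * Ee (∑ p ∈ PB D l, fm x x2 y y2 p) (R + s) n := by
    intro n hn
    rw [ArithmeticFunction.mul_apply]
    calc ‖∑ z ∈ n.divisorsAntidiagonal, H z.1 * tA (cvp (qb D y y2 l) s) z.2‖ ≤
        ∑ z ∈ n.divisorsAntidiagonal, Ee (∑ p ∈ PB D l, Fp x x2 p) R z.1 * ((s.factorial : ℝ) * Ee (∑ p ∈ PB D l, Fp y y2 p) s z.2) := by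
          refine (norm_sum_le _ _).trans (Finset.sum_le_sum fun z hz => ?_)
          obtain ⟨h1, h2⟩ := Nat.mem_divisorsAntidiagonal.1 hz
          have e4 : z.2 ≠ 0 := fun h => h2 (by rw [← h1, h, mul_zero])
          rw [norm_mul, tA_apply _ e4]
          refine mul_le_mul (hH z.1) ?_ (norm_nonneg _) (NN_Ee hx' R z.1)
          exact (cvp_le _ _ hy' (qb_le D y y2 l) s z.2).trans (pow_le_Ee hy' s z.2)
      _ = (s.factorial : ℝ) * (Ee (∑ p ∈ PB D l, Fp x x2 p) R * Ee (∑ p ∈ PB D l, Fp y y2 p) s) n := by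
          rw [ArithmeticFunction.mul_apply, Finset.mul_sum]
          exact Finset.sum_congr rfl fun z _ => by ring
      _ ≤ (s.factorial : ℝ) * Ee (∑ p ∈ PB D l, Fp x x2 p + ∑ p ∈ PB D l, Fp y y2 p) (R + s) n :=
          mul_le_mul_of_nonneg_left (Ee_mul_le hx' hy' R s n) (by positivity)
      _ ≤ (s.factorial : ℝ) * Ee (∑ p ∈ PB D l, fm x x2 y y2 p) (R + s) n :=
          mul_le_mul_of_nonneg_left (Ee_mono (NN_add hx' hy') h4 (R + s) n) (by positivity)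
  have hW := fm_bd hA hD hC hx hx2 hy hy2 (R + s) X
  calc NC X (H * tA (cvp (qb D y y2 l) s)) ≤
      (s.factorial : ℝ) ^ 2 * N2A X (Ee (∑ p ∈ PB D l, fm x x2 y y2 p) (R + s)) := by
        unfold NC N2A
        rw [Finset.mul_sum]
        refine Finset.sum_le_sum fun n hn => ?_
        have hn0 : n ≠ 0 := by have := (Finset.mem_Icc.1 hn).1; omega
        have h6 := pow_le_pow_left₀ (norm_nonneg _) (h5 n hn0) 2
        rw [mul_pow] at h6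
        have hnp : (0 : ℝ) < n := by exact_mod_cast Nat.pos_of_ne_zero hn0
        rw [← mul_div_assoc]
        gcongr
    _ ≤ _ := mul_le_mul_of_nonneg_left hW (by positivity)

/-- the constant of the penalty -/
def KP (A C₀ : ℝ) : ℝ := Real.exp (36 * (2 * A) ^ 2 * C₀ + 4 * Real.exp (18 * (2 * A)))

theorem KP_one {A C₀ : ℝ} (hC : 0 ≤ C₀) : 1 ≤ KP A C₀ := Real.one_le_exp (by positivity)

theorem te_maj {D : ℝ} {l : ℕ} {x x2 : ℕ → ℂ} (R n : ℕ) : ‖tA (te (qb D x x2 l) R) n‖ ≤ Ee (∑ p ∈ PB D l, Fp x x2 p) R n := by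
  rcases Nat.eq_zero_or_pos n with h | h
  · rw [h]
    simp
  · rw [tA_apply _ (by omega)]
    exact te_le _ _ (NN_sum _ _ fun p _ => NN_Fp x x2 p) (qb_le D x x2 l) R n

/-- one block of a product with the penalty -/
theorem pen3_NC {A C₀ : ℝ} (hA : 1 ≤ A) {D : ℝ} (hD : 0 ≤ D) {l : ℕ} (hC : ∑ p ∈ PB D l, (1 : ℝ) / p ≤ C₀) {x x2 y y2 w w2 : ℕ → ℂ}
    (hx : ∀ n, ‖x n‖ ≤ A) (hx2 : ∀ n, ‖x2 n‖ ≤ A) (hy : ∀ n, ‖y n‖ ≤ A) (hy2 : ∀ n, ‖y2 n‖ ≤ A)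
    (hw : ∀ n, ‖w n‖ ≤ A) (hw2 : ∀ n, ‖w2 n‖ ≤ A) (R S s X : ℕ) :
    NC X ((tA (te (qb D x x2 l) R) * tA (te (qb D y y2 l) S)) * tA (cvp (qb D w w2 l) s)) ≤ (s.factorial : ℝ) ^ 2 * KP A C₀ := by
  have hxy : ∀ u v : ℕ → ℂ, (∀ n, ‖u n‖ ≤ A) → (∀ n, ‖v n‖ ≤ A) → ∀ n, ‖(fun n => ((‖u n‖ + ‖v n‖ : ℝ) : ℂ)) n‖ ≤ 2 * A := by
    intro u v hu hv n
    show ‖((‖u n‖ + ‖v n‖ : ℝ) : ℂ)‖ ≤ 2 * A
    rw [Complex.norm_real, Real.norm_eq_abs, abs_of_nonneg (by positivity)]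
    linarith [hu n, hv n]
  refine penH_NC (A := 2 * A) (by linarith) hD hC (hxy x y hx hy) (hxy x2 y2 hx2 hy2) (fun n => (hw n).trans (by linarith))
    (fun n => (hw2 n).trans (by linarith)) (R + S) s X (fun n => ?_)
  have hx' : NN (∑ p ∈ PB D l, Fp x x2 p) := NN_sum _ _ fun p _ => NN_Fp x x2 p
  have hy' : NN (∑ p ∈ PB D l, Fp y y2 p) := NN_sum _ _ fun p _ => NN_Fp y y2 p
  rw [ArithmeticFunction.mul_apply]
  calc ‖∑ z ∈ n.divisorsAntidiagonal, tA (te (qb D x x2 l) R) z.1 * tA (te (qb D y y2 l) S) z.2‖ ≤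
      ∑ z ∈ n.divisorsAntidiagonal, Ee (∑ p ∈ PB D l, Fp x x2 p) R z.1 * Ee (∑ p ∈ PB D l, Fp y y2 p) S z.2 := by
        refine (norm_sum_le _ _).trans (Finset.sum_le_sum fun z _ => ?_)
        rw [norm_mul]
        exact mul_le_mul (te_maj R z.1) (te_maj S z.2) (norm_nonneg _) (NN_Ee hx' R z.1)
    _ = (Ee (∑ p ∈ PB D l, Fp x x2 p) R * Ee (∑ p ∈ PB D l, Fp y y2 p) S) n := by rw [ArithmeticFunction.mul_apply]
    _ ≤ Ee (∑ p ∈ PB D l, Fp x x2 p + ∑ p ∈ PB D l, Fp y y2 p) (R + S) n := Ee_mul_le hx' hy' R S n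
    _ ≤ _ := by
        refine Ee_mono (NN_add hx' hy') ?_ (R + S) n
        rw [← Finset.sum_add_distrib]
        exact Le_sum' fun p _ => Fp_add_le x x2 y y2 p

/-- one block of one factor with the penalty -/
theorem pen2_NC {A C₀ : ℝ} (hA : 1 ≤ A) {D : ℝ} (hD : 0 ≤ D) {l : ℕ} (hC : ∑ p ∈ PB D l, (1 : ℝ) / p ≤ C₀) {y y2 w w2 : ℕ → ℂ}
    (hy : ∀ n, ‖y n‖ ≤ A) (hy2 : ∀ n, ‖y2 n‖ ≤ A)
    (hw : ∀ n, ‖w n‖ ≤ A) (hw2 : ∀ n, ‖w2 n‖ ≤ A) (S s X : ℕ) :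
    NC X (tA (te (qb D y y2 l) S) * tA (cvp (qb D w w2 l) s)) ≤ (s.factorial : ℝ) ^ 2 * KP A C₀ :=
  penH_NC (A := 2 * A) (by linarith) hD hC (fun n => (hy n).trans (by linarith)) (fun n => (hy2 n).trans (by linarith))
    (fun n => (hw n).trans (by linarith)) (fun n => (hw2 n).trans (by linarith)) S s X (te_maj S)

theorem te_at_one (q : ℕ → ℂ) (hq : q 1 = 0) (R : ℕ) : te q R 1 = 1 := by
  unfold te
  rw [Finset.sum_eq_single 0]
  · show (if 1 = 1 then (1 : ℂ) else 0) / ((0 : ℕ).factorial : ℂ) = 1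
    simp
  · intro r _ hr
    obtain ⟨r, rfl⟩ : ∃ m, r = m + 1 := ⟨r - 1, by omega⟩
    have h1 : cvp q (r + 1) 1 = 0 := by
      show cv q (cvp q r) 1 = 0
      unfold cv
      rw [Nat.divisorsAntidiagonal_one, Finset.sum_singleton, hq, zero_mul]
    rw [h1, zero_div]
  · intro h
    simp at h

theorem qb_at_one (D : ℝ) (a a2 : ℕ → ℂ) (l : ℕ) : qb D a a2 l 1 = 0 := by
  unfold qb
  have h1 : (1 : ℕ) ∉ PB D l := fun h => Nat.not_prime_one (mem_PB h).1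
  have h2 : Nat.sqrt 1 = 1 := by decide
  rw [if_neg h1, h2, if_neg (fun h => h1 h.1), add_zero]

theorem ebk_at_one (D κ : ℝ) (a a2 : ℕ → ℂ) (l r : ℕ) : ebk D κ a a2 l r 1 = 1 := by
  induction r with
  | zero => show (if 1 = 1 then (1 : ℂ) else 0) = 1; simp
  | succ r ih =>
    show cv (te (qb D a a2 (l + r)) (R9 κ (l + r))) (ebk D κ a a2 l r) 1 = 1
    unfold cv
    rw [Nat.divisorsAntidiagonal_one, Finset.sum_singleton, ih, te_at_one _ (qb_at_one D a a2 (l + r)), mul_one]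

end

end Pool.Agent.H469.F4
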