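import Pool.Agent.H469.F4.HM1

set_option autoImplicit false

/-!
# The penalty against the mean square of a product of two polynomials of blocks, II
-/

namespace Pool.Agent.H469.F4

open Filter Topology MeasureTheory Complex Pool.Agent.Q97.UM
open Pool.Agent.Q14.UM (mem_PB PB_disj sum_inv_sq SP SP_te SP_qb SP_cvp)

noncomputable section

theorem NC_pen {F G P : ArithmeticFunction ℂ} {Q : ℕ → Prop} (hF : SC Q F) (hF1 : F 1 = 1) (hP : SC Q P)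
    (hG : SC (fun p => ¬ Q p) G) (X : ℕ) : NC X ((F * G) * P) ≤ NC X (F * P) * NC X (F * G) := by
  have e : (F * G) * P = (F * P) * G := by ring
  rw [e]
  refine (NC_mul (SC_mul hF hP) hG X).trans ?_
  exact mul_le_mul_of_nonneg_left (NC_le_mul hF hF1 hG X) (NC_nonneg _ _)

/-- taking one block out -/
theorem ebk_out (D κ : ℝ) (a a2 : ℕ → ℂ) {j J : ℕ} (hj : j < J) :
    tA (ebk D κ a a2 0 J) = tA (te (qb D a a2 j) (R9 κ j)) * (tA (ebk D κ a a2 (j + 1) (J - (j + 1))) * tA (ebk D κ a a2 0 j)) := by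
  have h1 : ebk D κ a a2 0 J = cv (ebk D κ a a2 (j + 1) (J - (j + 1))) (ebk D κ a a2 0 (j + 1)) := by
    have := ebk_split D κ a a2 (j + 1) (J - (j + 1))
    rwa [show j + 1 + (J - (j + 1)) = J by omega] at this
  have h2 := ebk_step D κ a a2 0 j
  rw [zero_add] at h2
  rw [h1, tA_cv, h2]
  ring

theorem NC_smulC (X : ℕ) (c : ℂ) (F : ArithmeticFunction ℂ) : NC X (c • F) = ‖c‖ ^ 2 * NC X F := by
  unfold NC
  rw [Finset.mul_sum]
  refine Finset.sum_congr rfl fun n _ => ?_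
  rw [ArithmeticFunction.smul_map, smul_eq_mul, norm_mul, mul_pow]
  ring

theorem tA_pwc (E κ' : ℝ) (w w2 : ℕ → ℂ) (j : ℕ) :
    tA (pwc E κ' w w2 (j + 1)) = ((20 / (R9 κ' j : ℂ)) ^ s7 j) • tA (cvp (qb E w w2 j) (s7 j)) := by
  ext n
  rw [ArithmeticFunction.smul_map, smul_eq_mul]
  rcases Nat.eq_zero_or_pos n with h | h
  · rw [h]
    simp
  · rw [tA_apply _ (by omega), tA_apply _ (by omega)]
    rfl

theorem norm_coef (κ' : ℝ) (j : ℕ) : ‖(20 / (R9 κ' j : ℂ)) ^ s7 j‖ = (20 / (R9 κ' j : ℝ)) ^ s7 j := by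
  rw [norm_pow, norm_div, Complex.norm_natCast]
  norm_num

theorem SC_cvp (D : ℝ) (a a2 : ℕ → ℂ) (l r : ℕ) : SC (fun p => p ∈ PB D l) (tA (cvp (qb D a a2 l) r)) :=
  SC_of_SP (SP_cvp _ _ (SP_qb D a a2 l) r)

theorem SC_off_hi {D κ : ℝ} (hD : 0 ≤ D) (a a2 : ℕ → ℂ) (j n : ℕ) : SC (fun p => ¬ p ∈ PB D j) (tA (ebk D κ a a2 (j + 1) n)) := by
  refine SC_mono (SC_ebk D κ a a2 (j + 1) n) ?_
  rintro p ⟨i, hi, _, hp⟩ hp'
  exact (by omega : i ≠ j) (PB_disj D hD hp hp')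

theorem SC_off_lo {D κ : ℝ} (hD : 0 ≤ D) (a a2 : ℕ → ℂ) (j : ℕ) : SC (fun p => ¬ p ∈ PB D j) (tA (ebk D κ a a2 0 j)) := by
  refine SC_mono (SC_ebk D κ a a2 0 j) ?_
  rintro p ⟨i, _, hi, hp⟩ hp'
  exact (by omega : i ≠ j) (PB_disj D hD hp hp')

/-- **one factor** -/
theorem ratioB {A C₀ : ℝ} (hA : 1 ≤ A) {E κ' : ℝ} (hE : 0 ≤ E) (hC : ∀ i, ∑ p ∈ PB E i, (1 : ℝ) / p ≤ C₀)
    {y y2 w w2 : ℕ → ℂ} (hy : ∀ n, ‖y n‖ ≤ A) (hy2 : ∀ n, ‖y2 n‖ ≤ A) (hw : ∀ n, ‖w n‖ ≤ A) (hw2 : ∀ n, ‖w2 n‖ ≤ A)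
    {j J : ℕ} (hj : j < J) (X : ℕ) :
    N2 X (cv (ebk E κ' y y2 0 J) (pwc E κ' w w2 (j + 1))) ≤ pen κ' (j + 1) * KP A C₀ * N2 X (ebk E κ' y y2 0 J) := by
  rw [N2_NC, N2_NC, tA_cv, tA_pwc, ebk_out E κ' y y2 hj, mul_smul_comm, NC_smulC, norm_coef]
  obtain ⟨F, hF⟩ : ∃ F : ArithmeticFunction ℂ, F = tA (te (qb E y y2 j) (R9 κ' j)) := ⟨_, rfl⟩
  obtain ⟨G, hG⟩ : ∃ G : ArithmeticFunction ℂ, G = tA (ebk E κ' y y2 (j + 1) (J - (j + 1))) * tA (ebk E κ' y y2 0 j) := ⟨_, rfl⟩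
  obtain ⟨P, hP⟩ : ∃ P : ArithmeticFunction ℂ, P = tA (cvp (qb E w w2 j) (s7 j)) := ⟨_, rfl⟩
  rw [← hF, ← hG, ← hP]
  have h1 : SC (fun p => p ∈ PB E j) F := by rw [hF]; exact SC_teb E y y2 j _
  have h2 : F 1 = 1 := by
    rw [hF, tA_apply _ one_ne_zero, te_at_one _ (qb_at_one E y y2 j)]
  have h3 : SC (fun p => p ∈ PB E j) P := by rw [hP]; exact SC_cvp E w w2 j _
  have h4 : SC (fun p => ¬ p ∈ PB E j) G := by
    rw [hG]
    exact SC_mul (SC_off_hi hE y y2 j _) (SC_off_lo hE y y2 j)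
  have h5 := NC_pen h1 h2 h3 h4 X
  have h6 : NC X (F * P) ≤ ((s7 j).factorial : ℝ) ^ 2 * KP A C₀ := by
    rw [hF, hP]
    exact pen2_NC hA hE (hC j) hy hy2 hw hw2 _ _ X
  have h7 := NC_nonneg X (F * G)
  calc ((20 / (R9 κ' j : ℝ)) ^ s7 j) ^ 2 * NC X (F * G * P) ≤
      ((20 / (R9 κ' j : ℝ)) ^ s7 j) ^ 2 * (((s7 j).factorial : ℝ) ^ 2 * KP A C₀ * NC X (F * G)) := by
        apply mul_le_mul_of_nonneg_left _ (by positivity)
        exact h5.trans (mul_le_mul_of_nonneg_right h6 h7)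
    _ = _ := by
        have e : pen κ' (j + 1) = ((20 / (R9 κ' j : ℝ)) ^ s7 j * (s7 j).factorial) ^ 2 := rfl
        rw [e]
        ring

/-- **two factors** -/
theorem ratioA {A C₀ : ℝ} (hA : 1 ≤ A) {D κ κ' : ℝ} {m : ℕ} (hD : 0 ≤ D)
    (hC : ∀ i, ∑ p ∈ PB (D * Real.exp (-(m : ℝ))) i, (1 : ℝ) / p ≤ C₀)
    {x x2 y y2 w w2 : ℕ → ℂ} (hx : ∀ n, ‖x n‖ ≤ A) (hx2 : ∀ n, ‖x2 n‖ ≤ A) (hy : ∀ n, ‖y n‖ ≤ A) (hy2 : ∀ n, ‖y2 n‖ ≤ A)
    (hw : ∀ n, ‖w n‖ ≤ A) (hw2 : ∀ n, ‖w2 n‖ ≤ A) {j J : ℕ} (hj : j < J) (X : ℕ) :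
    N2 X (cv (ebk D κ x x2 0 (m + J)) (cv (ebk (D * Real.exp (-(m : ℝ))) κ' y y2 0 J)
      (pwc (D * Real.exp (-(m : ℝ))) κ' w w2 (j + 1)))) ≤
      pen κ' (j + 1) * KP A C₀ * N2 X (cv (ebk D κ x x2 0 (m + J)) (ebk (D * Real.exp (-(m : ℝ))) κ' y y2 0 J)) := by
  obtain ⟨E, hEd⟩ : ∃ E : ℝ, E = D * Real.exp (-(m : ℝ)) := ⟨_, rfl⟩
  have hE : 0 ≤ E := by rw [hEd]; positivity
  have hPB : ∀ i, PB D (m + i) = PB E i := fun i => by rw [PB_shift, hEd]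
  have hqb : qb D x x2 (m + j) = qb E x x2 j := by
    funext n
    unfold qb
    rw [hPB]
  rw [← hEd] at hC ⊢
  rw [N2_NC, N2_NC, tA_cv, tA_cv, tA_cv, tA_pwc, ebk_out E κ' y y2 hj, ebk_out D κ x x2 (by omega : m + j < m + J), hqb,
    mul_smul_comm, mul_smul_comm, NC_smulC, norm_coef]
  obtain ⟨F1, hF1⟩ : ∃ F : ArithmeticFunction ℂ, F = tA (te (qb E y y2 j) (R9 κ' j)) := ⟨_, rfl⟩
  obtain ⟨F2, hF2⟩ : ∃ F : ArithmeticFunction ℂ, F = tA (te (qb E x x2 j) (R9 κ (m + j))) := ⟨_, rfl⟩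
  obtain ⟨G1, hG1⟩ : ∃ G : ArithmeticFunction ℂ, G = tA (ebk E κ' y y2 (j + 1) (J - (j + 1))) * tA (ebk E κ' y y2 0 j) := ⟨_, rfl⟩
  obtain ⟨G2, hG2⟩ : ∃ G : ArithmeticFunction ℂ, G = tA (ebk D κ x x2 (m + j + 1) (m + J - (m + j + 1))) * tA (ebk D κ x x2 0 (m + j)) := ⟨_, rfl⟩
  obtain ⟨P, hP⟩ : ∃ P : ArithmeticFunction ℂ, P = tA (cvp (qb E w w2 j) (s7 j)) := ⟨_, rfl⟩
  rw [← hF1, ← hG1, ← hP, ← hF2, ← hG2]
  have e1 : F2 * G2 * (F1 * G1 * P) = ((F2 * F1) * (G1 * G2)) * P := by ring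
  have e2 : F2 * G2 * (F1 * G1) = (F2 * F1) * (G1 * G2) := by ring
  rw [e1, e2]
  have h1 : SC (fun p => p ∈ PB E j) (F2 * F1) := by
    rw [hF1, hF2]
    exact SC_mul (SC_teb E x x2 j _) (SC_teb E y y2 j _)
  have h2 : (F2 * F1) 1 = 1 := by
    have a1 : F1 1 = 1 := by rw [hF1, tA_apply _ one_ne_zero, te_at_one _ (qb_at_one E y y2 j)]
    have a2 : F2 1 = 1 := by rw [hF2, tA_apply _ one_ne_zero, te_at_one _ (qb_at_one E x x2 j)]
    rw [ArithmeticFunction.mul_apply, Nat.divisorsAntidiagonal_one, Finset.sum_singleton, a1, a2, mul_one]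
  have h3 : SC (fun p => p ∈ PB E j) P := by rw [hP]; exact SC_cvp E w w2 j _
  have h4 : SC (fun p => ¬ p ∈ PB E j) (G1 * G2) := by
    rw [hG1, hG2]
    refine SC_mul (SC_mul (SC_off_hi hE y y2 j _) (SC_off_lo hE y y2 j)) (SC_mul ?_ ?_)
    · refine SC_mono (SC_off_hi hD x x2 (m + j) _) fun p hp => ?_
      rw [← hPB]
      exact hp
    · refine SC_mono (SC_off_lo hD x x2 (m + j)) fun p hp => ?_
      rw [← hPB]
      exact hp
  have h5 := NC_pen h1 h2 h3 h4 X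
  have h6 : NC X (F2 * F1 * P) ≤ ((s7 j).factorial : ℝ) ^ 2 * KP A C₀ := by
    rw [hF1, hF2, hP]
    exact pen3_NC hA hE (hC j) hx hx2 hy hy2 hw hw2 _ _ _ X
  have h7 := NC_nonneg X (F2 * F1 * (G1 * G2))
  calc ((20 / (R9 κ' j : ℝ)) ^ s7 j) ^ 2 * NC X (F2 * F1 * (G1 * G2) * P) ≤
      ((20 / (R9 κ' j : ℝ)) ^ s7 j) ^ 2 * (((s7 j).factorial : ℝ) ^ 2 * KP A C₀ * NC X (F2 * F1 * (G1 * G2))) := by
        apply mul_le_mul_of_nonneg_left _ (by positivity)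
        exact h5.trans (mul_le_mul_of_nonneg_right h6 h7)
    _ = _ := by
        have e : pen κ' (j + 1) = ((20 / (R9 κ' j : ℝ)) ^ s7 j * (s7 j).factorial) ^ 2 := rfl
        rw [e]
        ring

/-- the first blocks of the first factor only increase the mean square -/
theorem drop_first {D κ κ' : ℝ} {m : ℕ} (hD : 0 ≤ D) (x x2 y y2 : ℕ → ℂ) (J X : ℕ) :
    N2 X (cv (ebk D κ x x2 m J) (ebk (D * Real.exp (-(m : ℝ))) κ' y y2 0 J)) ≤
      N2 X (cv (ebk D κ x x2 0 (m + J)) (ebk (D * Real.exp (-(m : ℝ))) κ' y y2 0 J)) := by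
  obtain ⟨E, hEd⟩ : ∃ E : ℝ, E = D * Real.exp (-(m : ℝ)) := ⟨_, rfl⟩
  have hPB : ∀ i, PB D (m + i) = PB E i := fun i => by rw [PB_shift, hEd]
  rw [← hEd]
  rw [N2_NC, N2_NC, tA_cv, tA_cv, ebk_split, tA_cv]
  have e : tA (ebk D κ x x2 m J) * tA (ebk D κ x x2 0 m) * tA (ebk E κ' y y2 0 J) =
      tA (ebk D κ x x2 0 m) * (tA (ebk D κ x x2 m J) * tA (ebk E κ' y y2 0 J)) := by ring
  rw [e]
  refine NC_le_mul (P := fun p => ∃ i, i < m ∧ p ∈ PB D i) ?_ ?_ ?_ X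
  · refine SC_mono (SC_ebk D κ x x2 0 m) ?_
    rintro p ⟨i, _, hi, hp⟩
    exact ⟨i, by omega, hp⟩
  · rw [tA_apply _ one_ne_zero, ebk_at_one]
  · refine SC_mul ?_ ?_
    · refine SC_mono (SC_ebk D κ x x2 m J) ?_
      rintro p ⟨i, hi, _, hp⟩ ⟨i', hi', hp'⟩
      exact (by omega : i ≠ i') (PB_disj D hD hp hp')
    · refine SC_mono (SC_ebk E κ' y y2 0 J) ?_
      rintro p ⟨i, hi, _, hp⟩ ⟨i', hi', hp'⟩
      rw [← hPB] at hp
      exact (by omega : m + i ≠ i') (PB_disj D hD hp hp')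

/-- the sum of the penalties is small -/
theorem pen_small {η : ℝ} (hη : 0 < η) : ∃ K : ℝ, 4 ≤ K ∧ ∀ κ' : ℝ, K ≤ κ' → ∀ J : ℕ, ∑ j ∈ Finset.range J, pen κ' (j + 1) ≤ η := by
  obtain ⟨K, hK⟩ : ∃ K : ℝ, K = 8000 * (1 / η + 1) + 4 := ⟨_, rfl⟩
  have hη' : 0 < 1 / η := by positivity
  refine ⟨K, by rw [hK]; linarith [mul_pos (by norm_num : (0 : ℝ) < 8000) (by linarith : 0 < 1 / η + 1)], fun κ' hκ' J => ?_⟩
  have hK0 : 0 < K := by rw [hK]; positivity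
  have hκ0 : 0 < κ' := by linarith
  have hK1 : 1600 ≤ K := by rw [hK]; nlinarith
  have h1 : ∀ j ∈ Finset.range J, pen κ' (j + 1) ≤ (1600 / κ') * Real.exp (-1 / 4) ^ j := by
    intro j _
    have hj : (0 : ℝ) ≤ j := Nat.cast_nonneg j
    obtain ⟨s, hs⟩ : ∃ s : ℕ, s = s7 j := ⟨_, rfl⟩
    have hs1 : Real.exp (7 / 10 * (j : ℝ)) ≤ s := by rw [hs]; exact Nat.le_ceil _
    have hs2 : (s : ℝ) ≤ 2 * Real.exp (7 / 10 * (j : ℝ)) := by
      have h1 : (s : ℝ) ≤ Real.exp (7 / 10 * (j : ℝ)) + 1 := by rw [hs]; exact (Nat.ceil_lt_add_one (by positivity)).le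
      have h2 : 1 ≤ Real.exp (7 / 10 * (j : ℝ)) := Real.one_le_exp (by positivity)
      linarith
    have hs0 : 1 ≤ s := by
      have h2 : 1 ≤ Real.exp (7 / 10 * (j : ℝ)) := Real.one_le_exp (by positivity)
      have : (1 : ℝ) ≤ s := h2.trans hs1
      exact_mod_cast this
    have hR : κ' * Real.exp (9 / 10 * (j : ℝ)) ≤ R9 κ' j := Nat.le_ceil _
    have hR0 : 0 < (R9 κ' j : ℝ) := lt_of_lt_of_le (by positivity) hR
    have h2 : 20 * (s : ℝ) / R9 κ' j ≤ (40 / κ') * Real.exp (-(1 / 5) * j) := by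
      rw [div_le_iff₀ hR0]
      have h3 : (40 / κ') * Real.exp (-(1 / 5) * j) * (κ' * Real.exp (9 / 10 * (j : ℝ))) = 40 * Real.exp (7 / 10 * (j : ℝ)) := by
        have : (40 / κ') * Real.exp (-(1 / 5) * j) * (κ' * Real.exp (9 / 10 * (j : ℝ))) =
            (40 / κ' * κ') * (Real.exp (-(1 / 5) * j) * Real.exp (9 / 10 * (j : ℝ))) := by ring
        rw [this, div_mul_cancel₀ _ hκ0.ne', ← Real.exp_add]
        congr 2
        ring
      have h4 := mul_le_mul_of_nonneg_left hR (by positivity : 0 ≤ (40 / κ') * Real.exp (-(1 / 5) * j))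
      rw [h3] at h4
      linarith
    have h5 : (20 / (R9 κ' j : ℝ)) ^ s * (s.factorial : ℝ) ≤ (20 * (s : ℝ) / R9 κ' j) ^ s := by
      have h3 : (s.factorial : ℝ) ≤ (s : ℝ) ^ s := by exact_mod_cast Nat.factorial_le_pow s
      calc (20 / (R9 κ' j : ℝ)) ^ s * (s.factorial : ℝ) ≤ (20 / (R9 κ' j : ℝ)) ^ s * (s : ℝ) ^ s :=
            mul_le_mul_of_nonneg_left h3 (by positivity)
        _ = (20 * (s : ℝ) / R9 κ' j) ^ s := by rw [← mul_pow]; congr 1; ring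
    have h6 : (20 * (s : ℝ) / R9 κ' j) ≤ 1 := by
      refine h2.trans ?_
      have h7 : Real.exp (-(1 / 5) * j) ≤ 1 := by
        rw [Real.exp_le_one_iff]
        nlinarith
      have h8 : 40 / κ' ≤ 1 := by
        rw [div_le_one hκ0]
        linarith
      calc (40 / κ') * Real.exp (-(1 / 5) * j) ≤ 1 * 1 := mul_le_mul h8 h7 (Real.exp_pos _).le (by norm_num)
        _ = 1 := one_mul 1
    have h7 : (20 * (s : ℝ) / R9 κ' j) ^ s ≤ 20 * (s : ℝ) / R9 κ' j := by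
      calc (20 * (s : ℝ) / R9 κ' j) ^ s ≤ (20 * (s : ℝ) / R9 κ' j) ^ 1 :=
            pow_le_pow_of_le_one (by positivity) h6 hs0
        _ = _ := pow_one _
    have h8 : (20 / (R9 κ' j : ℝ)) ^ s * (s.factorial : ℝ) ≤ (40 / κ') * Real.exp (-(1 / 5) * j) := h5.trans (h7.trans h2)
    have e : pen κ' (j + 1) = ((20 / (R9 κ' j : ℝ)) ^ s * (s.factorial : ℝ)) ^ 2 := by rw [hs]; rfl
    rw [e]
    calc ((20 / (R9 κ' j : ℝ)) ^ s * (s.factorial : ℝ)) ^ 2 ≤ ((40 / κ') * Real.exp (-(1 / 5) * j)) ^ 2 :=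
          pow_le_pow_left₀ (by positivity) h8 2
      _ = (1600 / κ' ^ 2) * Real.exp (-(2 / 5) * j) := by
          rw [mul_pow, ← Real.exp_nat_mul, div_pow]
          congr 2
          · norm_num
          · push_cast; ring
      _ ≤ (1600 / κ') * Real.exp (-1 / 4) ^ j := by
          have hκ1 : κ' ≤ κ' ^ 2 := by nlinarith
          have a1 : 1600 / κ' ^ 2 ≤ 1600 / κ' := div_le_div_of_nonneg_left (by norm_num) hκ0 hκ1
          have a2 : Real.exp (-(2 / 5) * j) ≤ Real.exp (-1 / 4) ^ j := by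
            rw [← Real.exp_nat_mul]
            apply Real.exp_le_exp.2
            nlinarith
          exact mul_le_mul a1 a2 (Real.exp_pos _).le (by positivity)
  refine (Finset.sum_le_sum h1).trans ?_
  rw [← Finset.mul_sum]
  have hq : Real.exp (-1 / 4) ≤ 4 / 5 := by
    have h2 : Real.exp (-1 / 4) = (Real.exp (1 / 4))⁻¹ := by rw [← Real.exp_neg]; congr 1; ring
    rw [h2]
    have h3 : 1 / 4 + 1 ≤ Real.exp (1 / 4) := Real.add_one_le_exp _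
    rw [inv_le_comm₀ (Real.exp_pos _) (by norm_num)]
    linarith
  have hsum : ∑ j ∈ Finset.range J, Real.exp (-1 / 4) ^ j ≤ 5 := by
    have h2 : ∀ j ∈ Finset.range J, Real.exp (-1 / 4) ^ j ≤ (4 / 5 : ℝ) ^ j := fun j _ =>
      pow_le_pow_left₀ (Real.exp_pos _).le hq j
    refine (Finset.sum_le_sum h2).trans ?_
    have h3 : Summable fun j : ℕ => (4 / 5 : ℝ) ^ j := summable_geometric_of_lt_one (by norm_num) (by norm_num)
    refine (h3.sum_le_tsum _ fun j _ => by positivity).trans (le_of_eq ?_)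
    rw [tsum_geometric_of_lt_one (by norm_num) (by norm_num)]
    norm_num
  have h9 : 1600 / κ' * 5 ≤ η := by
    rw [div_mul_eq_mul_div, div_le_iff₀ hκ0]
    have h10 : η * K ≤ η * κ' := mul_le_mul_of_nonneg_left hκ' hη.le
    have h11 : η * K = 8000 * (1 + η) + 4 * η := by
      rw [hK]
      field_simp
    nlinarith
  exact (mul_le_mul_of_nonneg_left hsum (by positivity)).trans h9

end

end Pool.Agent.H469.F4
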