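import Pool.Agent.H469.F4.HM2

set_option autoImplicit false

/-!
# The good set, and a lower bound for the mean square of a product
-/

namespace Pool.Agent.H469.F4

open Filter Topology MeasureTheory Complex Pool.Agent.Q97.UM
open Pool.Agent.Q14.UM (mem_PB PB_disj)

noncomputable section

/-- truncated exponentials with summable errors -/
theorem prod_TEx_sum {r : ℕ} {R : ℕ → ℕ} {z : ℕ → ℂ} (h1 : ∀ j, j < r → 1 ≤ R j) (hz : ∀ j, j < r → ‖z j‖ ≤ (R j : ℝ) / 10)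
    (hη : ∑ j ∈ Finset.range r, Real.exp (-(R j : ℝ) / 2) ≤ 1 / 4) :
    1 / 2 * ‖cexp (∑ j ∈ Finset.range r, z j)‖ ≤ ‖∏ j ∈ Finset.range r, TEx (R j) (z j)‖ ∧
    ‖∏ j ∈ Finset.range r, TEx (R j) (z j)‖ ≤ 2 * ‖cexp (∑ j ∈ Finset.range r, z j)‖ := by
  obtain ⟨ε, hε⟩ : ∃ ε : ℕ → ℝ, ∀ j, ε j = Real.exp (-(R j : ℝ) / 2) := ⟨_, fun _ => rfl⟩
  have hε0 : ∀ j, 0 ≤ ε j := fun j => by rw [hε]; positivity
  have hη' : ∑ j ∈ Finset.range r, ε j ≤ 1 / 4 := by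
    rw [Finset.sum_congr rfl fun j _ => hε j]
    exact hη
  have hε1 : ∀ j ∈ Finset.range r, ε j ≤ 1 / 4 := fun j hj =>
    (Finset.single_le_sum (f := ε) (fun i _ => hε0 i) hj).trans hη'
  have hone : ∀ j ∈ Finset.range r, (1 - ε j) * ‖cexp (z j)‖ ≤ ‖TEx (R j) (z j)‖ ∧ ‖TEx (R j) (z j)‖ ≤ (1 + ε j) * ‖cexp (z j)‖ := by
    intro j hj
    have hj' := Finset.mem_range.1 hj
    have h2 := (b_TEX (R j) (z j) (h1 j hj')).2 (hz j hj')
    rw [← hε] at h2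
    have h5 := norm_sub_norm_le (cexp (z j)) (TEx (R j) (z j))
    have h6 := norm_sub_norm_le (TEx (R j) (z j)) (cexp (z j))
    rw [norm_sub_rev] at h5
    constructor
    · linarith
    · linarith
  have hlow1 : ∀ n : ℕ, n ≤ r → 1 - ∑ j ∈ Finset.range n, ε j ≤ ∏ j ∈ Finset.range n, (1 - ε j) ∧ 0 ≤ ∏ j ∈ Finset.range n, (1 - ε j) ∧
      ∏ j ∈ Finset.range n, (1 - ε j) ≤ 1 := by
    intro n
    induction n with
    | zero => intro _; simp
    | succ n ih =>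
      intro hn
      obtain ⟨i1, i2, i3⟩ := ih (by omega)
      have h7 := hε1 n (Finset.mem_range.2 (by omega))
      have h8 := hε0 n
      rw [Finset.sum_range_succ, Finset.prod_range_succ]
      refine ⟨?_, mul_nonneg i2 (by linarith), ?_⟩
      · nlinarith
      · nlinarith
  rw [norm_prod, Complex.exp_sum, norm_prod]
  have hlow : ∏ j ∈ Finset.range r, ((1 - ε j) * ‖cexp (z j)‖) ≤ ∏ j ∈ Finset.range r, ‖TEx (R j) (z j)‖ :=
    Finset.prod_le_prod (fun j hj => mul_nonneg (by linarith [hε1 j hj]) (norm_nonneg _)) fun j hj => (hone j hj).1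
  have hup : ∏ j ∈ Finset.range r, ‖TEx (R j) (z j)‖ ≤ ∏ j ∈ Finset.range r, ((1 + ε j) * ‖cexp (z j)‖) :=
    Finset.prod_le_prod (fun j _ => norm_nonneg _) fun j hj => (hone j hj).2
  rw [Finset.prod_mul_distrib] at hlow hup
  have hP : 0 ≤ ∏ j ∈ Finset.range r, ‖cexp (z j)‖ := Finset.prod_nonneg fun _ _ => norm_nonneg _
  have hc : ∏ j ∈ Finset.range r, (1 + ε j) ≤ 2 := by
    calc ∏ j ∈ Finset.range r, (1 + ε j) ≤ ∏ j ∈ Finset.range r, Real.exp (ε j) :=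
          Finset.prod_le_prod (fun j _ => by linarith [hε0 j]) fun j _ => by linarith [Real.add_one_le_exp (ε j)]
      _ = Real.exp (∑ j ∈ Finset.range r, ε j) := (Real.exp_sum _ _).symm
      _ ≤ Real.exp (1 / 4) := Real.exp_le_exp.2 hη'
      _ ≤ 2 := by
          have h9 : Real.exp (1 / 4) ≤ Real.exp (Real.log 2) := by
            apply Real.exp_le_exp.2
            linarith [Real.log_two_gt_d9]
          rwa [Real.exp_log (by norm_num)] at h9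
  obtain ⟨b1, -, -⟩ := hlow1 r le_rfl
  constructor
  · refine le_trans (mul_le_mul_of_nonneg_right ?_ hP) hlow
    linarith
  · exact hup.trans (mul_le_mul_of_nonneg_right hc hP)

theorem sum_R9 {κ' : ℝ} (hκ : 16 ≤ κ') (r : ℕ) : ∑ j ∈ Finset.range r, Real.exp (-(R9 κ' j : ℝ) / 2) ≤ 1 / 4 := by
  have h1 : ∀ j ∈ Finset.range r, Real.exp (-(R9 κ' j : ℝ) / 2) ≤ (1 / 8) * (1 / 8 : ℝ) ^ j := by
    intro j _
    have hj : (0 : ℝ) ≤ j := Nat.cast_nonneg j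
    have h2 : κ' * Real.exp (9 / 10 * (j : ℝ)) ≤ R9 κ' j := Nat.le_ceil _
    have h3 : 1 + 9 / 10 * (j : ℝ) ≤ Real.exp (9 / 10 * (j : ℝ)) := by
      have := Real.add_one_le_exp (9 / 10 * (j : ℝ))
      linarith
    have h4 : 6 * ((j : ℝ) + 1) ≤ R9 κ' j := by nlinarith
    calc Real.exp (-(R9 κ' j : ℝ) / 2) ≤ Real.exp (-(3 * ((j : ℝ) + 1))) := Real.exp_le_exp.2 (by linarith)
      _ = Real.exp (-3) ^ (j + 1) := by
          rw [← Real.exp_nat_mul]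
          congr 1
          push_cast
          ring
      _ ≤ (1 / 8) ^ (j + 1) := by
          apply pow_le_pow_left₀ (Real.exp_pos _).le
          rw [Real.exp_neg, one_div]
          apply inv_anti₀ (by norm_num)
          have h5 : Real.exp 3 = Real.exp 1 ^ 3 := by
            rw [← Real.exp_nat_mul]
            norm_num
          rw [h5]
          have h6 : (2 : ℝ) ≤ Real.exp 1 := by
            have := Real.add_one_le_exp (1 : ℝ)
            linarith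
          calc (8 : ℝ) = 2 ^ 3 := by norm_num
            _ ≤ Real.exp 1 ^ 3 := pow_le_pow_left₀ (by norm_num) h6 3
      _ = _ := by rw [pow_succ]; ring
  refine (Finset.sum_le_sum h1).trans ?_
  rw [← Finset.mul_sum]
  have h3 : Summable fun j : ℕ => (1 / 8 : ℝ) ^ j := summable_geometric_of_lt_one (by norm_num) (by norm_num)
  have h4 : ∑ j ∈ Finset.range r, (1 / 8 : ℝ) ^ j ≤ 8 / 7 := by
    refine (h3.sum_le_tsum _ fun j _ => by positivity).trans (le_of_eq ?_)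
    rw [tsum_geometric_of_lt_one (by norm_num) (by norm_num)]
    norm_num
  linarith

/-- multiples of a sequence -/
def sc (l : ℝ) (a : ℕ → ℂ) : ℕ → ℂ := fun n => (l : ℂ) * a n

theorem qb_sc (D l : ℝ) (a a2 : ℕ → ℂ) (j n : ℕ) : qb D (sc l a) (sc l a2) j n = (l : ℂ) * qb D a a2 j n := by
  unfold qb sc
  split_ifs <;> ring

theorem zf_sc (D l : ℝ) (a a2 : ℕ → ℂ) (j : ℕ) (t : ℝ) : zf D (sc l a) (sc l a2) j t = (l : ℂ) * zf D a a2 j t := by
  unfold zf dp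
  rw [Finset.mul_sum]
  refine Finset.sum_congr rfl fun n _ => ?_
  rw [qb_sc]
  ring

/-- the good set -/
def Gd (S E κ' : ℝ) (a a2 : ℕ → ℂ) : Set ℝ := {t | ∀ j, j < JB E → 20 * (S * ‖zf E a a2 j t‖) ≤ (R9 κ' j : ℝ)}

/-- the modulus of the exponential of the prime sum -/
def Mm (E : ℝ) (a a2 : ℕ → ℂ) (t : ℝ) : ℝ := Real.exp ((PA ⌊Real.exp E⌋₊ a a2 t).re)

theorem Mm_pos (E : ℝ) (a a2 : ℕ → ℂ) (t : ℝ) : 0 < Mm E a a2 t := Real.exp_pos _

theorem good_cmp {S E κ' κ'' : ℝ} (hE : 1 ≤ E) (hκ : 16 ≤ κ') (hκκ : κ' ≤ κ'') {a a2 : ℕ → ℂ} {t : ℝ} (ht : t ∈ Gd S E κ' a a2)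
    {l : ℝ} (hl : |l| ≤ S) :
    1 / 2 * Mm E a a2 t ^ l ≤ ‖dp (M9 E κ'') (ebk E κ'' (sc l a) (sc l a2) 0 (JB E)) t‖ ∧
      ‖dp (M9 E κ'') (ebk E κ'' (sc l a) (sc l a2) 0 (JB E)) t‖ ≤ 2 * Mm E a a2 t ^ l := by
  rw [dp_ebk hE (by linarith)]
  have hz : ∀ j : ℕ, j < JB E → ‖zf E (sc l a) (sc l a2) j t‖ ≤ (R9 κ'' j : ℝ) / 10 := by
    intro j hj
    rw [zf_sc, norm_mul, Complex.norm_real, Real.norm_eq_abs]
    have h1 := ht j hj
    have h2 : |l| * ‖zf E a a2 j t‖ ≤ S * ‖zf E a a2 j t‖ := mul_le_mul_of_nonneg_right hl (norm_nonneg _)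
    have h3 : (R9 κ' j : ℝ) ≤ R9 κ'' j := by
      have : R9 κ' j ≤ R9 κ'' j := Nat.ceil_mono (mul_le_mul_of_nonneg_right hκκ (Real.exp_pos _).le)
      exact_mod_cast this
    have h4 : (0 : ℝ) ≤ R9 κ'' j := Nat.cast_nonneg _
    linarith
  have h1 : ∀ j : ℕ, 1 ≤ R9 κ'' j := by
    intro j
    have h2 : (1 : ℝ) ≤ (R9 κ'' j : ℝ) := by
      have := R9_ge (κ := κ'') (by linarith) j
      linarith
    exact_mod_cast h2
  have h2 := prod_TEx_sum (r := JB E) (R := fun j => R9 κ'' j) (z := fun j => zf E (sc l a) (sc l a2) j t) (fun j _ => h1 j) hz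
    (sum_R9 (hκ.trans hκκ) _)
  have h3 : ‖cexp (∑ j ∈ Finset.range (JB E), zf E (sc l a) (sc l a2) j t)‖ = Mm E a a2 t ^ l := by
    have e1 : ∑ j ∈ Finset.range (JB E), zf E (sc l a) (sc l a2) j t = (l : ℂ) * PA ⌊Real.exp E⌋₊ a a2 t := by
      rw [Finset.sum_congr rfl fun j _ => zf_sc E l a a2 j t, ← Finset.mul_sum, sum_zf hE]
    rw [e1, Complex.norm_exp, Mm, ← Real.exp_mul]
    congr 1
    simp
    ring
  rw [h3] at h2
  exact h2

/-- outside the good set one of the penalties is at least one -/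
theorem bad_pw {S E κ' : ℝ} (hS : 0 ≤ S) (hκ : 0 < κ') {a a2 : ℕ → ℂ} {t : ℝ} (ht : t ∉ Gd S E κ' a a2) :
    1 ≤ ∑ j ∈ Finset.range (JB E), ‖pw E κ' (sc S a) (sc S a2) (j + 1) t‖ ^ 2 := by
  unfold Gd at ht
  rw [Set.mem_setOf_eq] at ht
  push Not at ht
  obtain ⟨j, hj, h⟩ := ht
  have h1 : 1 ≤ ‖pw E κ' (sc S a) (sc S a2) (j + 1) t‖ := by
    show 1 ≤ ‖(20 * zf E (sc S a) (sc S a2) j t / (R9 κ' j : ℂ)) ^ s7 j‖
    rw [norm_pow]
    apply one_le_pow₀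
    rw [norm_div, Complex.norm_natCast, norm_mul, zf_sc, norm_mul, Complex.norm_real, Real.norm_eq_abs, abs_of_nonneg hS]
    have hR : (0 : ℝ) < R9 κ' j := lt_of_lt_of_le hκ (R9_ge hκ.le j)
    rw [one_le_div hR]
    have : ‖(20 : ℂ)‖ = 20 := by norm_num
    rw [this]
    exact h.le
  refine le_trans ?_ (Finset.single_le_sum (f := fun j => ‖pw E κ' (sc S a) (sc S a2) (j + 1) t‖ ^ 2) (fun i _ => sq_nonneg _)
    (Finset.mem_range.2 hj))
  exact one_le_pow₀ h1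

/-- comparison of mean squares from a pointwise inequality -/
theorem mv_compare {L0 L1 J : ℕ} {f0 f1 : ℕ → ℂ} {Lg : ℕ → ℕ} {g : ℕ → (ℕ → ℂ)} {K : ℝ} (hK : 0 ≤ K)
    (h : ∀ t, ‖dp L0 f0 t‖ ^ 2 ≤ K * ‖dp L1 f1 t‖ ^ 2 + ∑ j ∈ Finset.range J, ‖dp (Lg j) (g j) t‖ ^ 2) :
    N2 L0 f0 ≤ 4 * (K * N2 L1 f1 + ∑ j ∈ Finset.range J, N2 (Lg j) (g j)) := by
  have hlen : ∀ n : ℕ, ∀ᶠ V : ℝ in atTop, (n : ℝ) ≤ V ^ (1 / 4 : ℝ) := fun n =>
    (tendsto_rpow_atTop (by norm_num : (0 : ℝ) < 1 / 4)).eventually_ge_atTop _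
  have hlenJ : ∀ᶠ V : ℝ in atTop, ∀ j ∈ Finset.range J, ((Lg j : ℕ) : ℝ) ≤ V ^ (1 / 4 : ℝ) :=
    (Finset.eventually_all _).2 fun j _ => hlen (Lg j)
  obtain ⟨V, hV⟩ := ((hlen L0).and ((hlen L1).and (hlenJ.and (eventually_ge_atTop (16 : ℝ))))).exists
  obtain ⟨hV0, hV1, hVJ, hV16⟩ := hV
  have hVp : 0 < V := by linarith
  obtain ⟨m1, -⟩ := Pool.Agent.Q84.UM.t_MVL V hV16 L0 hV0 f0
  obtain ⟨-, m2⟩ := Pool.Agent.Q84.UM.t_MVL V hV16 L1 hV1 f1
  have mj : ∀ j ∈ Finset.range J, ∫ t in V..(2 * V), ‖dp (Lg j) (g j) t‖ ^ 2 ≤ 2 * V * N2 (Lg j) (g j) := fun j hj =>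
    (Pool.Agent.Q84.UM.t_MVL V hV16 (Lg j) (hVJ j hj) (g j)).2
  have hc : ∀ (L : ℕ) (f : ℕ → ℂ), Continuous fun t => ‖dp L f t‖ ^ 2 := fun L f => (dpc' L f).norm.pow 2
  have c1 : Continuous fun t => K * ‖dp L1 f1 t‖ ^ 2 := continuous_const.mul (hc L1 f1)
  have c2 : Continuous fun t => ∑ j ∈ Finset.range J, ‖dp (Lg j) (g j) t‖ ^ 2 := continuous_finset_sum _ fun j _ => hc (Lg j) (g j)
  have c3 : Continuous fun t => K * ‖dp L1 f1 t‖ ^ 2 + ∑ j ∈ Finset.range J, ‖dp (Lg j) (g j) t‖ ^ 2 := c1.add c2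
  have i1 := intervalIntegral.integral_mono_on (μ := volume) (by linarith : V ≤ 2 * V) ((hc L0 f0).intervalIntegrable V (2 * V))
    (c3.intervalIntegrable V (2 * V)) fun t _ => h t
  rw [intervalIntegral.integral_add (c1.intervalIntegrable _ _) (c2.intervalIntegrable _ _), intervalIntegral.integral_const_mul,
    intervalIntegral.integral_finset_sum fun j _ => (hc (Lg j) (g j)).intervalIntegrable _ _] at i1
  have i2 := Finset.sum_le_sum mj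
  rw [← Finset.mul_sum] at i2
  have i3 : V / 2 * N2 L0 f0 ≤ K * (2 * V * N2 L1 f1) + 2 * V * ∑ j ∈ Finset.range J, N2 (Lg j) (g j) := by
    calc V / 2 * N2 L0 f0 ≤ _ := m1
      _ ≤ _ := i1
      _ ≤ _ := add_le_add (mul_le_mul_of_nonneg_left m2 hK) i2
  have i4 : (V / 2) * N2 L0 f0 ≤ (V / 2) * (4 * (K * N2 L1 f1 + ∑ j ∈ Finset.range J, N2 (Lg j) (g j))) := by
    calc _ ≤ _ := i3
      _ = _ := by ring
  exact le_of_mul_le_mul_left i4 (by linarith)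

end

end Pool.Agent.H469.F4
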