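import Pool.Agent.H469.F4.HM3

set_option autoImplicit false

/-!
# A lower bound for the mean square of a product
-/

namespace Pool.Agent.H469.F4

open Filter Topology MeasureTheory Complex Pool.Agent.Q97.UM
open Pool.Agent.Q14.UM (mem_PB PB_disj)

noncomputable section

theorem N2_ext_le {L X : ℕ} {f : ℕ → ℂ} (hf : ∀ n, L < n → f n = 0) : N2 X f ≤ N2 L f := by
  unfold N2
  have h1 : ∑ n ∈ Finset.Icc 1 X, ‖f n‖ ^ 2 / (n : ℝ) = ∑ n ∈ (Finset.Icc 1 X).filter (fun n => n ≤ L), ‖f n‖ ^ 2 / (n : ℝ) := by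
    rw [Finset.sum_filter]
    refine Finset.sum_congr rfl fun n _ => ?_
    split_ifs with h
    · rfl
    · rw [hf n (by omega)]
      simp
  rw [h1]
  refine Finset.sum_le_sum_of_subset_of_nonneg (fun n hn => ?_) fun n _ _ => by positivity
  rw [Finset.mem_filter, Finset.mem_Icc] at hn
  exact Finset.mem_Icc.2 ⟨hn.1.1, hn.2⟩

theorem N2_mono_len {L X : ℕ} (h : L ≤ X) (f : ℕ → ℂ) : N2 L f ≤ N2 X f := by
  unfold N2
  exact Finset.sum_le_sum_of_subset_of_nonneg (Finset.Icc_subset_Icc_right h) fun n _ _ => by positivity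

theorem ebk_len {D κ : ℝ} (hD : 1 ≤ D) (hκ : 1 ≤ κ) (a a2 : ℕ → ℂ) : ∀ n, M9 D κ < n → ebk D κ a a2 0 (JB D) n = 0 := by
  intro n hn
  by_contra h
  have := (ebk_supp hD hκ a a2 n h).2
  omega

theorem sc_le {l S B : ℝ} (hl : 0 ≤ l) (hlS : l ≤ S) {a : ℕ → ℂ} (ha : ∀ n, S * ‖a n‖ ≤ B) (n : ℕ) : ‖sc l a n‖ ≤ B := by
  unfold sc
  rw [norm_mul, Complex.norm_real, Real.norm_eq_abs, abs_of_nonneg hl]
  exact (mul_le_mul_of_nonneg_right hlS (norm_nonneg _)).trans (ha n)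

/-- the decomposition with the penalties -/
theorem dp_pwc {E κ' : ℝ} (hE : 1 ≤ E) {L : ℕ} {f : ℕ → ℂ} (hf : ∀ n, L < n → f n = 0) (w w2 : ℕ → ℂ) : ∃ Lp : ℕ → ℕ, (∀ j, 1 ≤ Lp j) ∧
    (∀ j, Real.log (Lp j) ≤ 4 * E) ∧ (∀ j n, Lp j < n → pwc E κ' w w2 (j + 1) n = 0) ∧ (∀ j, pwc E κ' w w2 (j + 1) 0 = 0) ∧
    ∀ j t, dp (L * Lp j) (cv f (pwc E κ' w w2 (j + 1))) t = dp L f t * pw E κ' w w2 (j + 1) t := by
  have h := fun j : ℕ => pwc_spec hE κ' w w2 (j + 1)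
  choose Lp h1 h2 h3 h4 h5 using h
  refine ⟨Lp, h1, h2, h3, h4, fun j t => ?_⟩
  rw [← Pool.Agent.Q84.UM.t_DPM.1 _ _ _ _ t hf (h3 j), h5 j t]

/-- **a lower bound for the mean square of a product** -/
theorem low_prod {B : ℝ} (hB : 1 ≤ B) : ∃ K c : ℝ, 16 ≤ K ∧ 0 < c ∧ ∀ (E κ' κ'' S l1 l2 : ℝ) (a a2 : ℕ → ℂ), 1 ≤ E → K ≤ κ' → κ' ≤ κ'' →
    0 ≤ l1 → 0 ≤ l2 → l1 + l2 ≤ S → (∀ n, S * ‖a n‖ ≤ B) → (∀ n, S * ‖a2 n‖ ≤ B) →
    c * Real.exp (∑ p ∈ (Finset.Icc 1 ⌊Real.exp E⌋₊).filter Nat.Prime, ‖sc (l1 + l2) a p‖ ^ 2 / p) ≤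
      N2 (M9 E κ'' * M9 E κ') (cv (ebk E κ'' (sc l1 a) (sc l1 a2) 0 (JB E)) (ebk E κ' (sc l2 a) (sc l2 a2) 0 (JB E))) := by
  obtain ⟨C₀, hC₀1, hC₀⟩ := Pool.Agent.Q198.UM.t_BM
  obtain ⟨κ₀, hκ₀, cE, CE, hcE, hCE, hEN⟩ := b_EN2 B hB
  have hKP := KP_one (A := B) (C₀ := C₀) (by linarith)
  obtain ⟨K₁, hK₁, hpen⟩ := pen_small (η := 1 / (8 * KP B C₀)) (by positivity)
  refine ⟨max 16 (max κ₀ K₁), cE / 512, le_max_left _ _, by positivity, ?_⟩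
  intro E κ' κ'' S l1 l2 a a2 hE hκ' hκ'' hl1 hl2 hlS ha ha2
  have h16 : 16 ≤ κ' := (le_max_left _ _).trans hκ'
  have hκ0 : κ₀ ≤ κ' := ((le_max_left _ _).trans (le_max_right _ _)).trans hκ'
  have hK1 : K₁ ≤ κ' := ((le_max_right _ _).trans (le_max_right _ _)).trans hκ'
  have hS : 0 ≤ S := by linarith
  obtain ⟨l, hl⟩ : ∃ l : ℝ, l = l1 + l2 := ⟨_, rfl⟩
  have hl0 : 0 ≤ l := by linarith
  rw [← hl]
  obtain ⟨f0, hf0⟩ : ∃ f : ℕ → ℂ, f = ebk E κ' (sc l a) (sc l a2) 0 (JB E) := ⟨_, rfl⟩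
  have hlen0 : ∀ n, M9 E κ' < n → f0 n = 0 := by rw [hf0]; exact ebk_len hE (by linarith) _ _
  obtain ⟨Lp, hLp1, -, hLp3, -, hLp5⟩ := dp_pwc (κ' := κ') hE hlen0 (sc S a) (sc S a2)
  have hlenA := ebk_len hE (by linarith : 1 ≤ κ'') (sc l1 a) (sc l1 a2)
  have hlenB := ebk_len hE (by linarith : 1 ≤ κ') (sc l2 a) (sc l2 a2)
  obtain ⟨F, hF⟩ : ∃ F : ℕ → ℂ, F = cv (ebk E κ'' (sc l1 a) (sc l1 a2) 0 (JB E)) (ebk E κ' (sc l2 a) (sc l2 a2) 0 (JB E)) := ⟨_, rfl⟩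
  have hdF : ∀ t, dp (M9 E κ'' * M9 E κ') F t = dp (M9 E κ'') (ebk E κ'' (sc l1 a) (sc l1 a2) 0 (JB E)) t *
      dp (M9 E κ') (ebk E κ' (sc l2 a) (sc l2 a2) 0 (JB E)) t := by
    intro t
    rw [hF, Pool.Agent.Q84.UM.t_DPM.1 _ _ _ _ t hlenA hlenB]
  rw [← hF]
  have hpt : ∀ t, ‖dp (M9 E κ') f0 t‖ ^ 2 ≤ 64 * ‖dp (M9 E κ'' * M9 E κ') F t‖ ^ 2 +
      ∑ j ∈ Finset.range (JB E), ‖dp (M9 E κ' * Lp j) (cv f0 (pwc E κ' (sc S a) (sc S a2) (j + 1))) t‖ ^ 2 := by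
    intro t
    have hnn : 0 ≤ ∑ j ∈ Finset.range (JB E), ‖dp (M9 E κ' * Lp j) (cv f0 (pwc E κ' (sc S a) (sc S a2) (j + 1))) t‖ ^ 2 :=
      Finset.sum_nonneg fun _ _ => sq_nonneg _
    by_cases ht : t ∈ Gd S E κ' a a2
    · obtain ⟨-, u1⟩ := good_cmp hE h16 le_rfl ht (l := l) (by rw [abs_of_nonneg hl0]; linarith)
      obtain ⟨v1, -⟩ := good_cmp hE h16 hκ'' ht (l := l1) (by rw [abs_of_nonneg hl1]; linarith)
      obtain ⟨w1, -⟩ := good_cmp hE h16 le_rfl ht (l := l2) (by rw [abs_of_nonneg hl2]; linarith)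
      rw [← hf0] at u1
      have hM := Mm_pos E a a2 t
      have e1 : Mm E a a2 t ^ l = Mm E a a2 t ^ l1 * Mm E a a2 t ^ l2 := by rw [hl, Real.rpow_add hM]
      obtain ⟨m1, hm1⟩ : ∃ m : ℝ, m = Mm E a a2 t ^ l1 := ⟨_, rfl⟩
      obtain ⟨m2, hm2⟩ : ∃ m : ℝ, m = Mm E a a2 t ^ l2 := ⟨_, rfl⟩
      have hm10 : 0 < m1 := by rw [hm1]; positivity
      have hm20 : 0 < m2 := by rw [hm2]; positivity
      rw [← hm1] at v1 e1
      rw [← hm2] at w1 e1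
      rw [e1] at u1
      have h1 : 1 / 4 * (m1 * m2) ≤ ‖dp (M9 E κ'' * M9 E κ') F t‖ := by
        rw [hdF, norm_mul]
        calc 1 / 4 * (m1 * m2) = (1 / 2 * m1) * (1 / 2 * m2) := by ring
          _ ≤ _ := mul_le_mul v1 w1 (by positivity) (norm_nonneg _)
      have h2 : ‖dp (M9 E κ') f0 t‖ ≤ 8 * ‖dp (M9 E κ'' * M9 E κ') F t‖ := by linarith
      have h3 := pow_le_pow_left₀ (norm_nonneg _) h2 2
      rw [mul_pow] at h3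
      linarith
    · have h1 := bad_pw hS (by linarith : 0 < κ') ht
      have h2 : ‖dp (M9 E κ') f0 t‖ ^ 2 ≤ ‖dp (M9 E κ') f0 t‖ ^ 2 * ∑ j ∈ Finset.range (JB E), ‖pw E κ' (sc S a) (sc S a2) (j + 1) t‖ ^ 2 :=
        le_mul_of_one_le_right (sq_nonneg _) h1
      have h3 : ‖dp (M9 E κ') f0 t‖ ^ 2 * ∑ j ∈ Finset.range (JB E), ‖pw E κ' (sc S a) (sc S a2) (j + 1) t‖ ^ 2 =
          ∑ j ∈ Finset.range (JB E), ‖dp (M9 E κ' * Lp j) (cv f0 (pwc E κ' (sc S a) (sc S a2) (j + 1))) t‖ ^ 2 := by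
        rw [Finset.mul_sum]
        refine Finset.sum_congr rfl fun j _ => ?_
        rw [hLp5 j t, norm_mul, mul_pow]
      have h4 : 0 ≤ 64 * ‖dp (M9 E κ'' * M9 E κ') F t‖ ^ 2 := by positivity
      linarith
  have h1 := mv_compare (K := 64) (by norm_num) hpt
  have hN0 : 0 ≤ N2 (M9 E κ') f0 := Pool.Agent.Q86.UM.N2_nonneg _ _
  have h2 : ∑ j ∈ Finset.range (JB E), N2 (M9 E κ' * Lp j) (cv f0 (pwc E κ' (sc S a) (sc S a2) (j + 1))) ≤ 1 / 8 * N2 (M9 E κ') f0 := by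
    have h3 : ∀ j ∈ Finset.range (JB E), N2 (M9 E κ' * Lp j) (cv f0 (pwc E κ' (sc S a) (sc S a2) (j + 1))) ≤
        pen κ' (j + 1) * (KP B C₀ * N2 (M9 E κ') f0) := by
      intro j hj
      rw [hf0]
      refine (ratioB hB (by linarith : (0 : ℝ) ≤ E) (fun i => hC₀ E i hE) (sc_le hl0 (by linarith) ha) (sc_le hl0 (by linarith) ha2)
        (sc_le hS le_rfl ha) (sc_le hS le_rfl ha2) (Finset.mem_range.1 hj) _).trans ?_
      rw [mul_assoc]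
      apply mul_le_mul_of_nonneg_left _ (pen_nonneg _ _)
      apply mul_le_mul_of_nonneg_left _ (by linarith)
      rw [← hf0]
      exact N2_ext_le hlen0
    refine (Finset.sum_le_sum h3).trans ?_
    rw [← Finset.sum_mul]
    calc (∑ j ∈ Finset.range (JB E), pen κ' (j + 1)) * (KP B C₀ * N2 (M9 E κ') f0) ≤
        1 / (8 * KP B C₀) * (KP B C₀ * N2 (M9 E κ') f0) :=
          mul_le_mul_of_nonneg_right (hpen κ' hK1 (JB E)) (by positivity)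
      _ = 1 / 8 * N2 (M9 E κ') f0 := by field_simp
  have h3 := (hEN κ' E (sc l a) (sc l a2) hκ0 hE (sc_le hl0 (by linarith) ha) (sc_le hl0 (by linarith) ha2)).1
  rw [← hf0] at h3
  linarith

end

end Pool.Agent.H469.F4
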