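import Pool.Agent.H469.F4.HM4

set_option autoImplicit false

/-!
# The mean squares of the products, in terms of the order
-/

namespace Pool.Agent.H469.F4

open Filter Topology MeasureTheory Complex Pool.Agent.Q97.UM
open Pool.Agent.Q14.UM (mem_PB PB_disj)
open Pool.Agent.Results.MP_fa2474_nt.OrderForEveryPolynomial (order order_eq sum_close norm_ap_le)

noncomputable section

theorem ap_sc {n : ℕ} (l : ℝ) (k α : Fin n → ℝ) : ap (fun j => l * k j) α = sc l (ap k α) := by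
  funext p
  unfold ap sc
  rw [Finset.mul_sum]
  refine Finset.sum_congr rfl fun j _ => ?_
  push_cast
  ring

theorem sc_sc (l l' : ℝ) (a : ℕ → ℂ) : sc l (sc l' a) = sc (l * l') a := by
  funext p
  unfold sc
  push_cast
  ring

theorem sc_one (a : ℕ → ℂ) : sc 1 a = a := by
  funext p
  unfold sc
  push_cast
  ring

theorem norm_ap_s {n : ℕ} {k : Fin n → ℝ} (hk : ∀ j, 0 ≤ k j) (α : Fin n → ℝ) (p : ℕ) : ‖ap k α p‖ ≤ ∑ j, k j :=
  norm_ap_le (le_of_eq (Finset.sum_congr rfl fun j _ => abs_of_nonneg (hk j))) α p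

theorem sc_norm {l : ℝ} (hl : 0 ≤ l) {a : ℕ → ℂ} {A : ℝ} (ha : ∀ n, ‖a n‖ ≤ A) (n : ℕ) : ‖sc l a n‖ ≤ l * A := by
  unfold sc
  rw [norm_mul, Complex.norm_real, Real.norm_eq_abs, abs_of_nonneg hl]
  exact mul_le_mul_of_nonneg_left (ha n) hl

/-- **mean squares** -/
theorem n2_facts {κ : ℝ} (hκ : 4 ≤ κ) {δ₀ : ℝ} (hδ₀ : 0 < δ₀) (hδ1 : δ₀ ≤ 1) {S : ℝ} (hS : 2 ≤ S) : ∃ K : ℝ, 16 ≤ K ∧
    ∀ (κ' : ℝ) (m : ℕ), K ≤ κ' → κ' ≤ κ * Real.exp (9 / 10 * (m : ℝ)) → ∃ c C : ℝ, 0 < c ∧ 0 < C ∧ ∀ᶠ T : ℝ in atTop,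
      1 ≤ δ₀ * Real.log T * Real.exp (-(m : ℝ)) ∧ ∀ (n : ℕ) (k α : Fin n → ℝ), (∀ j, 0 ≤ k j) → ∀ s : ℝ, s = ∑ j, k j → 2 ≤ s → s ≤ S →
        ∀ a a2 : ℕ → ℂ, a = ap (fun j => 2 / s * k j) α → a2 = ap (fun j => 2 / s * k j) (fun j => 2 * α j) →
        (∀ X : ℕ, N2 X (cv (eo δ₀ κ T (fun j => 2 / s * k j) α) (ebk (δ₀ * Real.log T * Real.exp (-(m : ℝ))) κ'
          (sc ((s - 2) / 2) a) (sc ((s - 2) / 2) a2) 0 (JB (δ₀ * Real.log T * Real.exp (-(m : ℝ)))))) ≤ C * order T k α) ∧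
        c * order T k α ≤ N2 (eM δ₀ κ T * M9 (δ₀ * Real.log T * Real.exp (-(m : ℝ))) κ')
          (cv (eo δ₀ κ T (fun j => 1 / s * k j) α) (ebk (δ₀ * Real.log T * Real.exp (-(m : ℝ))) κ'
          (sc ((s - 1) / 2) a) (sc ((s - 1) / 2) a2) 0 (JB (δ₀ * Real.log T * Real.exp (-(m : ℝ)))))) ∧
        N2 (M9 (δ₀ * Real.log T * Real.exp (-(m : ℝ))) κ') (ebk (δ₀ * Real.log T * Real.exp (-(m : ℝ))) κ'
          (sc (s / 2) a) (sc (s / 2) a2) 0 (JB (δ₀ * Real.log T * Real.exp (-(m : ℝ))))) ≤ C * order T k α := by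
  obtain ⟨C₀, hC₀1, hC₀⟩ := Pool.Agent.Q198.UM.t_BM
  obtain ⟨K₂, c₂, hK₂, hc₂, hlow⟩ := low_prod (B := 2 * S) (by linarith)
  obtain ⟨κ₀, hκ₀, cE, CE, hcE, hCE, hEN⟩ := b_EN2 S (by linarith)
  refine ⟨max K₂ κ₀, hK₂.trans (le_max_left _ _), ?_⟩
  intro κ' m hκ' hκm
  have hκ2 : K₂ ≤ κ' := (le_max_left _ _).trans hκ'
  have hκ0 : κ₀ ≤ κ' := (le_max_right _ _).trans hκ'
  have hκ16 : 16 ≤ κ' := hK₂.trans hκ2
  obtain ⟨δ', hδ'⟩ : ∃ δ' : ℝ, δ' = δ₀ * Real.exp (-(m : ℝ)) := ⟨_, rfl⟩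
  have hem : Real.exp (-(m : ℝ)) ≤ 1 := by
    rw [Real.exp_le_one_iff]
    have : (0 : ℝ) ≤ m := Nat.cast_nonneg m
    linarith
  have hδ'0 : 0 < δ' := by rw [hδ']; positivity
  have hδ'1 : δ' ≤ 1 := by
    rw [hδ']
    calc δ₀ * Real.exp (-(m : ℝ)) ≤ 1 * 1 := mul_le_mul hδ1 hem (Real.exp_pos _).le (by norm_num)
      _ = 1 := one_mul 1
  obtain ⟨Cz, hz⟩ := Pool.Agent.Q149.UM.t_MZ δ' hδ'0 hδ'1
  obtain ⟨Cw, hCw⟩ : ∃ Cw : ℝ, Cw = max Cz 0 := ⟨_, rfl⟩
  have hCw0 : 0 ≤ Cw := by rw [hCw]; exact le_max_right _ _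
  have hlogev : ∀ᶠ T : ℝ in atTop, 1 ≤ δ' * Real.log T := by
    filter_upwards [Real.tendsto_log_atTop.eventually_ge_atTop (1 / δ')] with T hT
    rw [div_le_iff₀ hδ'0] at hT
    linarith
  obtain ⟨G, hG⟩ : ∃ G : ℝ, G = Real.exp (S ^ 2 * Cw) := ⟨_, rfl⟩
  have hG0 : 0 < G := by rw [hG]; positivity
  obtain ⟨K4', hK4'⟩ : ∃ K : ℝ, K = K4 S C₀ * Real.exp (S ^ 2 * C₀ * m) := ⟨_, rfl⟩
  have hK40 : 0 < K4' := by rw [hK4']; unfold K4; positivity
  refine ⟨c₂ / G, (K4' + CE) * G, by positivity, by positivity, ?_⟩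
  filter_upwards [hz, hlogev, eventually_ge_atTop (16 : ℝ)] with T gz glog hT16
  have hT0 : 0 < T := by linarith
  have hL0 : 0 < Real.log T := Real.log_pos (by linarith)
  obtain ⟨D, hD⟩ : ∃ D : ℝ, D = δ₀ * Real.log T := ⟨_, rfl⟩
  obtain ⟨E, hE⟩ : ∃ E : ℝ, E = D * Real.exp (-(m : ℝ)) := ⟨_, rfl⟩
  have hE' : E = δ' * Real.log T := by rw [hE, hD, hδ']; ring
  have hE1 : 1 ≤ E := by rw [hE']; exact glog
  rw [← hD, ← hE]
  refine ⟨hE1, ?_⟩
  intro n k α hk s hs hs2 hsS a a2 ha ha2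
  have hs0 : 0 < s := by linarith
  have hD0 : 0 < D := by rw [hD]; positivity
  have hD1 : 1 ≤ D := by
    have h1 : E ≤ D := by
      rw [hE]
      exact mul_le_of_le_one_right hD0.le hem
    linarith
  have ha' : a = sc (2 / s) (ap k α) := by rw [ha, ap_sc]
  have ha2' : a2 = sc (2 / s) (ap k (fun j => 2 * α j)) := by rw [ha2, ap_sc]
  have hnk : ∀ p, ‖ap k α p‖ ≤ s := fun p => by rw [hs]; exact norm_ap_s hk α p
  have hnk2 : ∀ p, ‖ap k (fun j => 2 * α j) p‖ ≤ s := fun p => by rw [hs]; exact norm_ap_s hk _ p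
  have hna : ∀ p, ‖a p‖ ≤ 2 := fun p => by
    rw [ha']
    refine (sc_norm (by positivity) hnk p).trans (le_of_eq ?_)
    field_simp
  have hna2 : ∀ p, ‖a2 p‖ ≤ 2 := fun p => by
    rw [ha2']
    refine (sc_norm (by positivity) hnk2 p).trans (le_of_eq ?_)
    field_simp
  have hfull : sc (s / 2) a = ap k α := by
    rw [ha', sc_sc]
    have : s / 2 * (2 / s) = 1 := by field_simp
    rw [this, sc_one]
  have hfull2 : sc (s / 2) a2 = ap k (fun j => 2 * α j) := by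
    rw [ha2', sc_sc]
    have : s / 2 * (2 / s) = 1 := by field_simp
    rw [this, sc_one]
  have hhalf : ap (fun j => 1 / s * k j) α = sc (1 / 2) a := by
    rw [ap_sc, ha', sc_sc]
    congr 1
    field_simp
  have hhalf2 : ap (fun j => 1 / s * k j) (fun j => 2 * α j) = sc (1 / 2) a2 := by
    rw [ap_sc, ha2', sc_sc]
    congr 1
    field_simp
  -- the order
  have hexpE : Real.exp E = T ^ δ' := by rw [Real.rpow_def_of_pos hT0, mul_comm, hE']
  have hkA : ∑ j, |k j| ≤ S := by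
    rw [Finset.sum_congr rfl fun j _ => abs_of_nonneg (hk j), ← hs]
    exact hsS
  have hclose := sum_close (k := k) (α := α) (A := S) (C := Cw) (T := T) (X := ⌊T ^ δ'⌋₊) hCw0 hkA
    (fun u => (gz u).trans (by rw [hCw]; exact le_max_left _ _))
  rw [abs_le] at hclose
  obtain ⟨Y, hY⟩ : ∃ Y : ℝ, Y = ∑ p ∈ (Finset.Icc 1 ⌊T ^ δ'⌋₊).filter Nat.Prime, ‖ap k α p‖ ^ 2 / p := ⟨_, rfl⟩
  rw [← hY] at hclose
  have hord := order_eq (T := T) (by linarith) k α
  have hO1 : Real.exp Y ≤ G * order T k α := by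
    rw [hord, hG, ← Real.exp_add]
    apply Real.exp_le_exp.2
    linarith [hclose.2]
  have hO2 : order T k α ≤ G * Real.exp Y := by
    rw [hord, hG, ← Real.exp_add]
    apply Real.exp_le_exp.2
    linarith [hclose.1]
  have hord0 : 0 ≤ order T k α := by rw [hord]; positivity
  have hYE : ∑ p ∈ (Finset.Icc 1 ⌊Real.exp E⌋₊).filter Nat.Prime, ‖ap k α p‖ ^ 2 / p = Y := by rw [hexpE, hY]
  have hJ : JB D = m + JB E := by
    rw [hE]
    exact JB_shift hD0 m (by rw [← hE]; exact hE1)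
  refine ⟨fun X => ?_, ?_, ?_⟩
  · have hR : ∀ i, R9 κ' i ≤ R9 κ (m + i) := by
      intro i
      unfold R9
      apply Nat.ceil_mono
      calc κ' * Real.exp (9 / 10 * (i : ℝ)) ≤ κ * Real.exp (9 / 10 * (m : ℝ)) * Real.exp (9 / 10 * (i : ℝ)) :=
            mul_le_mul_of_nonneg_right hκm (Real.exp_pos _).le
        _ = κ * Real.exp (9 / 10 * ((m + i : ℕ) : ℝ)) := by
            rw [mul_assoc, ← Real.exp_add]
            congr 2
            push_cast
            ring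
    have hy : ∀ p, ‖sc ((s - 2) / 2) a p‖ ≤ S := fun p => (sc_norm (by linarith) hna p).trans (by linarith)
    have hy2 : ∀ p, ‖sc ((s - 2) / 2) a2 p‖ ≤ S := fun p => (sc_norm (by linarith) hna2 p).trans (by linarith)
    have h1 := total_NC (A := S) (C₀ := C₀) (by linarith) (by linarith) hD0 (by linarith : 4 ≤ κ') (r := m)
      (by rw [← hE]; exact hE1) hR (fun i => hC₀ _ i (by rw [← hE]; exact hE1)) (x := a) (x2 := a2)
      (y := sc ((s - 2) / 2) a) (y2 := sc ((s - 2) / 2) a2) (a := a) (a2 := a2) (fun p => (hna p).trans hS) (fun p => (hna2 p).trans hS)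
      hy hy2 (fun p => (hna p).trans hS) (fun p => (hna2 p).trans hS) 0 (Nat.zero_le _) X
    rw [← hE] at h1
    have e1 : cv (ebk E κ' (sc ((s - 2) / 2) a) (sc ((s - 2) / 2) a2) 0 (JB E - 0)) (pwc E κ' a a2 0) =
        ebk E κ' (sc ((s - 2) / 2) a) (sc ((s - 2) / 2) a2) 0 (JB E) := by
      rw [Nat.sub_zero]
      have h2 : pwc E κ' a a2 0 = fun n => if n = 1 then 1 else 0 := rfl
      rw [h2, cv_comm, cv_delta (ebk_at_zero _ _ _ _ _ _)]
    rw [e1] at h1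
    have e2 : eo δ₀ κ T (fun j => 2 / s * k j) α = ebk D κ a a2 0 (JB D) := by
      unfold eo
      rw [← hD, ← ha, ← ha2]
    rw [e2]
    refine h1.trans ?_
    have e3 : pen κ' 0 = 1 := rfl
    have e4 : SB E (fun p => a p + sc ((s - 2) / 2) a p) (JB E) = Y := by
      have e5 : (fun p => a p + sc ((s - 2) / 2) a p) = ap k α := by
        rw [← hfull]
        funext p
        unfold sc
        push_cast
        ring
      rw [e5, ← hYE]
      exact PS_blocks hE1 (fun p => ‖ap k α p‖ ^ 2 / p)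
    have e6 : SB D a m ≤ S ^ 2 * C₀ * m := by
      unfold SB
      have h2 : ∀ i ∈ Finset.range m, ∑ p ∈ PB D i, ‖a p‖ ^ 2 / (p : ℝ) ≤ S ^ 2 * C₀ := by
        intro i _
        calc ∑ p ∈ PB D i, ‖a p‖ ^ 2 / (p : ℝ) ≤ ∑ p ∈ PB D i, S ^ 2 * (1 / (p : ℝ)) := by
              refine Finset.sum_le_sum fun p _ => ?_
              rw [mul_one_div]
              have := pow_le_pow_left₀ (norm_nonneg _) ((hna p).trans hS) 2
              gcongr
          _ = S ^ 2 * ∑ p ∈ PB D i, 1 / (p : ℝ) := by rw [Finset.mul_sum]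
          _ ≤ S ^ 2 * C₀ := mul_le_mul_of_nonneg_left (hC₀ D i hD1) (by positivity)
      refine (Finset.sum_le_sum h2).trans (le_of_eq ?_)
      rw [Finset.sum_const, Finset.card_range, nsmul_eq_mul]
      ring
    rw [e3, e4]
    have h5 : Real.exp (SB D a m + Y) ≤ Real.exp (S ^ 2 * C₀ * m) * (G * order T k α) := by
      rw [Real.exp_add]
      exact mul_le_mul (Real.exp_le_exp.2 e6) hO1 (Real.exp_pos _).le (Real.exp_pos _).le
    have hK40' : 0 < K4 S C₀ := by unfold K4; positivity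
    calc K4 S C₀ * (Real.exp (S ^ 2 * C₀ * (0 : ℕ)) * 1) * Real.exp (SB D a m + Y) = K4 S C₀ * Real.exp (SB D a m + Y) := by simp
      _ ≤ K4 S C₀ * (Real.exp (S ^ 2 * C₀ * m) * (G * order T k α)) := mul_le_mul_of_nonneg_left h5 hK40'.le
      _ = K4' * G * order T k α := by rw [hK4']; ring
      _ ≤ (K4' + CE) * G * order T k α := by
          apply mul_le_mul_of_nonneg_right _ hord0
          apply mul_le_mul_of_nonneg_right _ hG0.le
          linarith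
  · have e1 : eo δ₀ κ T (fun j => 1 / s * k j) α = ebk D κ (sc (1 / 2) a) (sc (1 / 2) a2) 0 (m + JB E) := by
      unfold eo
      rw [← hD, hhalf, hhalf2, hJ]
    rw [e1]
    obtain ⟨κ'', hκ''⟩ : ∃ κ'' : ℝ, κ'' = κ * Real.exp (9 / 10 * (m : ℝ)) := ⟨_, rfl⟩
    have h1 := hlow E κ' κ'' S (1 / 2) ((s - 1) / 2) a a2 hE1 hκ2 (by rw [hκ'']; exact hκm) (by norm_num) (by linarith) (by linarith)
      (fun p => by have := hna p; nlinarith) (fun p => by have := hna2 p; nlinarith)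
    have e2 : (1 : ℝ) / 2 + (s - 1) / 2 = s / 2 := by ring
    rw [e2, hfull, hYE] at h1
    have h2 := drop_first (κ := κ) (κ' := κ') (m := m) hD0.le (sc (1 / 2) a) (sc (1 / 2) a2) (sc ((s - 1) / 2) a) (sc ((s - 1) / 2) a2)
      (JB E) (eM δ₀ κ T * M9 E κ')
    rw [ebk_shift D κ _ _ m (JB E), ← hE, ← hκ''] at h2
    refine le_trans ?_ h2
    have hlen : M9 E κ'' * M9 E κ' ≤ eM δ₀ κ T * M9 E κ' := by
      apply Nat.mul_le_mul_right
      unfold eM
      rw [← hD]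
      unfold M9
      apply Nat.floor_mono
      apply Real.exp_le_exp.2
      rw [hκ'', hE]
      have h3 : Real.exp (9 / 10 * (m : ℝ)) * Real.exp (-(m : ℝ)) ≤ 1 := by
        rw [← Real.exp_add, Real.exp_le_one_iff]
        have : (0 : ℝ) ≤ m := Nat.cast_nonneg m
        linarith
      calc 26 * (κ * Real.exp (9 / 10 * (m : ℝ))) * (D * Real.exp (-(m : ℝ))) =
          26 * κ * D * (Real.exp (9 / 10 * (m : ℝ)) * Real.exp (-(m : ℝ))) := by ring
        _ ≤ 26 * κ * D * 1 := mul_le_mul_of_nonneg_left h3 (by positivity)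
        _ = 26 * κ * D := mul_one _
    refine le_trans ?_ (N2_mono_len hlen _)
    refine le_trans ?_ h1
    calc c₂ / G * order T k α ≤ c₂ / G * (G * Real.exp Y) := mul_le_mul_of_nonneg_left hO2 (by positivity)
      _ = c₂ * Real.exp Y := by field_simp
  · have h1 := (hEN κ' E (sc (s / 2) a) (sc (s / 2) a2) hκ0 hE1 (by rw [hfull]; exact fun p => (hnk p).trans hsS)
      (by rw [hfull2]; exact fun p => (hnk2 p).trans hsS)).2
    refine h1.trans ?_
    rw [hfull, hYE]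
    calc CE * Real.exp Y ≤ CE * (G * order T k α) := mul_le_mul_of_nonneg_left hO1 hCE
      _ = CE * G * order T k α := by ring
      _ ≤ (K4' + CE) * G * order T k α := by
          apply mul_le_mul_of_nonneg_right _ hord0
          apply mul_le_mul_of_nonneg_right _ hG0.le
          linarith

end

end Pool.Agent.H469.F4
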