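import Pool.Agent.H469.F4.T9

set_option autoImplicit false

/-!
# The second moment of the measure of the high points
-/

namespace Pool.Agent.H469.F4

open Filter Topology MeasureTheory Complex Pool.Agent.Q97.UM
open scoped ENNReal

noncomputable section

/-- the exponent -/
def mex (s v : ℝ) : ℝ := if 2 * v ^ 2 ≤ s then 2 * v ^ 2 else if v ^ 2 ≤ 2 * s then 2 * Real.sqrt (2 * s) * v - s else s + v ^ 2

theorem mex_le {s v g : ℝ} (hs : 0 < s) (hv : 0 ≤ v) (hg0 : 0 ≤ g) (hg1 : g ≤ 1) : mex s v ≤ s * g + 2 * v ^ 2 / (1 + g) := by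
  have h1 : 0 < 1 + g := by linarith
  have hsub : s * g + 2 * v ^ 2 / (1 + g) = (s * g * (1 + g) + 2 * v ^ 2) / (1 + g) := by field_simp
  rw [hsub, le_div_iff₀ h1]
  unfold mex
  split_ifs with h2 h3
  · nlinarith [mul_nonneg hs.le hg0, mul_nonneg hs.le (mul_nonneg hg0 hg0), mul_nonneg hg0 (sub_nonneg.2 h2)]
  · have hq : Real.sqrt (2 * s) ^ 2 = 2 * s := Real.sq_sqrt (by linarith)
    obtain ⟨q, hqd⟩ : ∃ q : ℝ, q = Real.sqrt (2 * s) := ⟨_, rfl⟩
    rw [← hqd] at hq ⊢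
    have hs2 : s = q ^ 2 / 2 := by linarith
    rw [hs2]
    nlinarith [sq_nonneg (q * (1 + g) - 2 * v)]
  · push Not at h3
    have h4 : s * (1 + g) ≤ v ^ 2 := by nlinarith
    nlinarith [mul_nonneg (sub_nonneg.2 hg1) (sub_nonneg.2 h4)]

theorem mex_ge {s v : ℝ} (hs : 0 < s) (hv : 0 ≤ v) : ∃ a : ℝ, 0 ≤ a ∧ a ≤ 1 ∧ s * a + 2 * v ^ 2 / (1 + a) = mex s v := by
  unfold mex
  split_ifs with h2 h3
  · exact ⟨0, le_rfl, zero_le_one, by norm_num⟩
  · push Not at h2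
    have hq : Real.sqrt (2 * s) ^ 2 = 2 * s := Real.sq_sqrt (by linarith)
    have hq0 : 0 < Real.sqrt (2 * s) := Real.sqrt_pos.2 (by linarith)
    obtain ⟨q, hqd⟩ : ∃ q : ℝ, q = Real.sqrt (2 * s) := ⟨_, rfl⟩
    rw [← hqd] at hq hq0 ⊢
    have hs2 : s = q ^ 2 / 2 := by linarith
    have h4 : q ≤ 2 * v := by
      apply le_of_sq_le_sq _ (by linarith) |>.trans le_rfl
      nlinarith
    have h5 : v ≤ q := by
      apply le_of_sq_le_sq _ hq0.le |>.trans le_rfl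
      nlinarith
    have hv0 : 0 < v := by linarith
    refine ⟨2 * v / q - 1, ?_, ?_, ?_⟩
    · rw [sub_nonneg, le_div_iff₀ hq0]
      linarith
    · rw [sub_le_iff_le_add, div_le_iff₀ hq0]
      linarith
    · rw [hs2]
      field_simp
      ring
  · exact ⟨1, zero_le_one, le_rfl, by ring⟩

/-- the two-point matrix -/
theorem rN_two {g v : ℝ} (hg0 : 0 ≤ g) (hg1 : g ≤ 1) (hv : 0 ≤ v) {R : Fin 2 → Fin 2 → ℝ} (h00 : R 0 0 = 1) (h11 : R 1 1 = 1)
    (h01 : R 0 1 = g) (h10 : R 1 0 = g) : rN R (fun _ => v) = 2 * v ^ 2 / (1 + g) := by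
  have h1 : 0 < 1 + g := by linarith
  have hdV : ∀ k : Fin 2 → ℝ, dV R (fun _ => v) k = 2 * (k 0 * v + k 1 * v) - (k 0 * (k 0 + k 1 * g) + k 1 * (k 0 * g + k 1)) := by
    intro k
    unfold dV qR lR
    simp only [Fin.sum_univ_two, h00, h11, h01, h10, mul_one]
  have hle : ∀ k : Fin 2 → ℝ, dV R (fun _ => v) k ≤ 2 * v ^ 2 / (1 + g) := by
    intro k
    rw [hdV, le_div_iff₀ h1]
    have h2 : 0 ≤ (1 - g) * (1 + g) * (k 0 - k 1) ^ 2 := by
      have : 0 ≤ (1 - g) * (1 + g) := mul_nonneg (by linarith) h1.le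
      positivity
    nlinarith [sq_nonneg ((1 + g) * (k 0 + k 1) - 2 * v)]
  apply le_antisymm
  · apply csSup_le
    · exact ⟨_, fun _ => 0, fun _ => le_rfl, rfl⟩
    · rintro x ⟨k, hk, rfl⟩
      exact hle k
  · apply le_csSup
    · exact ⟨2 * v ^ 2 / (1 + g), by rintro x ⟨k, hk, rfl⟩; exact hle k⟩
    · refine ⟨fun _ => v / (1 + g), fun _ => by positivity, ?_⟩
      rw [hdV]
      field_simp
      ring

theorem ov_le_one {T u : ℝ} (hℓ : 0 < Real.log (Real.log T)) (hL : 0 < Real.log T) : ov T u ≤ 1 := by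
  unfold ov
  rw [div_le_one hℓ]
  have h1 : Real.log (1 / Real.log T) ≤ Real.log (max (1 / Real.log T) |u|) := Real.log_le_log (by positivity) (le_max_left _ _)
  rw [one_div, Real.log_inv] at h1
  rw [one_div]
  linarith

/-- the proportion for two points -/
def P2 (T V x y : ℝ) : ℝ := PN T (fun _ : Fin 2 => V) ![x, y]

/-- **two points** -/
theorem two_pt {A : ℝ} (hA : 0 ≤ A) : ∃ C : ℝ, 0 < C ∧ ∀ᶠ T : ℝ in atTop, ∀ v x y : ℝ, 0 ≤ v → |x| ≤ T / 2 → |y| ≤ T / 2 → |x - y| ≤ 1 →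
    (v ≤ A → Real.log T ^ (-(2 * v ^ 2 / (1 + ov T (x - y)))) * Real.exp (-(C * Real.sqrt (Real.log (Real.log T)))) ≤ P2 T (Real.log T ^ v) x y) ∧
    (v ≤ 1 → P2 T (Real.log T ^ v) x y ≤ C * Real.log T ^ (-(2 * v ^ 2 / (1 + ov T (x - y))))) := by
  obtain ⟨C₁, hC₁, h1⟩ := jointS_low 2 hA
  obtain ⟨C₂, hC₂, h2⟩ := jointS_up (n := 2) (by norm_num)
  refine ⟨C₁ + C₂, by positivity, ?_⟩
  have hℓ : Tendsto (fun T : ℝ => Real.log (Real.log T)) atTop atTop := Real.tendsto_log_atTop.comp Real.tendsto_log_atTop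
  filter_upwards [h1, h2, Real.tendsto_log_atTop.eventually_ge_atTop 1, hℓ.eventually_gt_atTop 0] with T h1 h2 hL1 hℓ0 v x y hv hx hy hxy
  have hL0 : 0 < Real.log T := by linarith
  have hα : ∀ j : Fin 2, |(![x, y] : Fin 2 → ℝ) j| ≤ T / 2 := by
    intro j
    fin_cases j
    · exact hx
    · exact hy
  have hw : ∀ j l : Fin 2, |(![x, y] : Fin 2 → ℝ) j - (![x, y] : Fin 2 → ℝ) l| ≤ 1 := by
    intro j l
    fin_cases j <;> fin_cases l
    · show |x - x| ≤ 1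
      rw [sub_self, abs_zero]
      exact zero_le_one
    · exact hxy
    · show |y - x| ≤ 1
      rw [abs_sub_comm]
      exact hxy
    · show |y - y| ≤ 1
      rw [sub_self, abs_zero]
      exact zero_le_one
  have hr : rN (fun j l => ov T ((![x, y] : Fin 2 → ℝ) j - (![x, y] : Fin 2 → ℝ) l)) (fun _ => v) = 2 * v ^ 2 / (1 + ov T (x - y)) := by
    apply rN_two (ov_nonneg hℓ0 hL1 hxy) (ov_le_one hℓ0 hL0) hv
    · show ov T (x - x) = 1
      rw [sub_self]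
      exact ov_zero hℓ0 hL0
    · show ov T (y - y) = 1
      rw [sub_self]
      exact ov_zero hℓ0 hL0
    · rfl
    · show ov T (y - x) = ov T (x - y)
      rw [← ov_neg]
      congr 1
      ring
  have hs0 := Real.sqrt_nonneg (Real.log (Real.log T))
  constructor
  · intro hvA
    have h3 := h1 (fun _ => v) ![x, y] (fun _ => hvA) hα hw
    rw [hr] at h3
    refine le_trans ?_ h3
    apply mul_le_mul_of_nonneg_left _ (Real.rpow_nonneg hL0.le _)
    apply Real.exp_le_exp.2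
    nlinarith [mul_nonneg hC₂.le hs0]
  · intro hv1
    have h3 := h2 (fun _ => v) ![x, y] (fun _ => hv) (by
      rw [Fin.sum_univ_two]
      linarith) hα hw
    rw [hr] at h3
    refine h3.trans (mul_le_mul_of_nonneg_right (by linarith) (Real.rpow_nonneg hL0.le _))

/-- the second moment of the measure of the high points -/
def hiM (μ : Measure ℝ) (V T : ℝ) : ℝ≥0∞ := ENNReal.ofReal (1 / T) * ∫⁻ t in Set.Icc T (2 * T), μ {h : ℝ | V < ‖zt (t + h)‖} ^ 2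

/-- Fubini -/
theorem hiM_eq {μ : Measure ℝ} [IsProbabilityMeasure μ] {V T : ℝ} (hT : 0 < T) :
    hiM μ V T = ∫⁻ x, ∫⁻ y, ENNReal.ofReal (P2 T V x y) ∂μ ∂μ := by
  obtain ⟨ν, hν⟩ : ∃ ν : Measure ℝ, ν = volume.restrict (Set.Icc T (2 * T)) := ⟨_, rfl⟩
  have hνf : IsFiniteMeasure ν := by rw [hν]; infer_instance
  have hop : IsOpen {p : ℝ × (ℝ × ℝ) | V < ‖zt (p.1 + p.2.1)‖ ∧ V < ‖zt (p.1 + p.2.2)‖} := by
    apply IsOpen.inter
    · exact isOpen_lt continuous_const ((ztc.comp (by fun_prop)).norm)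
    · exact isOpen_lt continuous_const ((ztc.comp (by fun_prop)).norm)
  have h1 : (ν.prod (μ.prod μ)) {p : ℝ × (ℝ × ℝ) | V < ‖zt (p.1 + p.2.1)‖ ∧ V < ‖zt (p.1 + p.2.2)‖} =
      ∫⁻ t, μ {h : ℝ | V < ‖zt (t + h)‖} ^ 2 ∂ν := by
    rw [Measure.prod_apply hop.measurableSet]
    refine lintegral_congr fun t => ?_
    have h2 : Prod.mk t ⁻¹' {p : ℝ × (ℝ × ℝ) | V < ‖zt (p.1 + p.2.1)‖ ∧ V < ‖zt (p.1 + p.2.2)‖} =
        {h : ℝ | V < ‖zt (t + h)‖} ×ˢ {h : ℝ | V < ‖zt (t + h)‖} := rfl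
    rw [h2, Measure.prod_prod, sq]
  have h3 : (ν.prod (μ.prod μ)) {p : ℝ × (ℝ × ℝ) | V < ‖zt (p.1 + p.2.1)‖ ∧ V < ‖zt (p.1 + p.2.2)‖} =
      ∫⁻ p : ℝ × ℝ, ν {t : ℝ | V < ‖zt (t + p.1)‖ ∧ V < ‖zt (t + p.2)‖} ∂(μ.prod μ) :=
    Measure.prod_apply_symm hop.measurableSet
  have h4 : ∀ x y : ℝ, ENNReal.ofReal (1 / T) * ν {t : ℝ | V < ‖zt (t + x)‖ ∧ V < ‖zt (t + y)‖} = ENNReal.ofReal (P2 T V x y) := by
    intro x y
    have hopx : IsOpen {t : ℝ | V < ‖zt (t + x)‖ ∧ V < ‖zt (t + y)‖} := by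
      apply IsOpen.inter
      · exact isOpen_lt continuous_const ((ztc.comp (by fun_prop)).norm)
      · exact isOpen_lt continuous_const ((ztc.comp (by fun_prop)).norm)
    have e1 : {t : ℝ | t ∈ Set.Icc T (2 * T) ∧ ∀ j : Fin 2, (fun _ : Fin 2 => V) j < ‖zt (t + (![x, y] : Fin 2 → ℝ) j)‖} =
        {t : ℝ | V < ‖zt (t + x)‖ ∧ V < ‖zt (t + y)‖} ∩ Set.Icc T (2 * T) := by
      ext t
      simp only [Set.mem_setOf_eq, Set.mem_inter_iff, Fin.forall_fin_two, Matrix.cons_val_zero, Matrix.cons_val_one]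
      tauto
    unfold P2 PN
    rw [e1, hν, Measure.restrict_apply hopx.measurableSet, ENNReal.ofReal_mul (by positivity), one_div, ENNReal.ofReal_toReal]
    refine ((measure_mono Set.inter_subset_right).trans_lt ?_).ne
    exact measure_Icc_lt_top
  unfold hiM
  rw [← hν, ← h1, h3, lintegral_prod _ (by
    exact (measurable_measure_prodMk_right hop.measurableSet).aemeasurable), ← lintegral_const_mul' _ _ ENNReal.ofReal_ne_top]
  refine lintegral_congr fun x => ?_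
  rw [← lintegral_const_mul' _ _ ENNReal.ofReal_ne_top]
  exact lintegral_congr fun y => h4 x y

end

end Pool.Agent.H469.F4
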