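import Pool.Agent.H469.F4.HPA

set_option autoImplicit false

/-!
# The second moment of the measure of the high points: regular measures
-/

namespace Pool.Agent.H469.F4

open Filter Topology MeasureTheory Complex Pool.Agent.Q97.UM
open scoped ENNReal

noncomputable section

/-- regular measures in a window of length 1 -/
def RegM (s c C r a : ℝ) (μ : Measure ℝ) : Prop := ∃ E : Set ℝ, μ Eᶜ = 0 ∧ E ⊆ Set.Icc a (a + 1) ∧ ∀ x ∈ E, ∀ ρ : ℝ, r ≤ ρ → ρ ≤ 1 →
  ENNReal.ofReal (c * ρ ^ s) ≤ μ (Metric.closedBall x ρ) ∧ μ (Metric.closedBall x ρ) ≤ ENNReal.ofReal (C * ρ ^ s)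

/-- the energy integral -/
theorem kernel_up {s C L : ℝ} (hs0 : 0 < s) (hs1 : s ≤ 1) (hC : 0 < C) (hL : 1 ≤ L) {μ : Measure ℝ} {x : ℝ}
    (h : ∀ ρ : ℝ, 1 / L ≤ ρ → ρ ≤ 1 → μ (Metric.closedBall x ρ) ≤ ENNReal.ofReal (C * ρ ^ s)) (hsupp : ∀ᵐ y ∂μ, |x - y| ≤ 1) :
    ∫⁻ y, ENNReal.ofReal ((max (1 / L) |x - y|) ^ (-s)) ∂μ ≤ ENNReal.ofReal (2 * C * (2 * Real.log L + 1)) := by
  have hL0 : 0 < L := by linarith
  obtain ⟨J, hJ1, hJ2⟩ := exists_nat_pow_near hL (one_lt_two)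
  have hpt : ∀ᵐ y ∂μ, ENNReal.ofReal ((max (1 / L) |x - y|) ^ (-s)) ≤
      ∑ j ∈ Finset.range (J + 1), ENNReal.ofReal (((1 / 2 : ℝ) ^ (j + 1)) ^ (-s)) * (Metric.closedBall x ((1 / 2 : ℝ) ^ j)).indicator (fun _ => (1 : ℝ≥0∞)) y := by
    filter_upwards [hsupp] with y hy
    obtain ⟨m, hm⟩ : ∃ m : ℝ, m = max (1 / L) |x - y| := ⟨_, rfl⟩
    rw [← hm]
    have hm1 : 1 / L ≤ m := by rw [hm]; exact le_max_left _ _
    have hm0 : 0 < m := lt_of_lt_of_le (by positivity) hm1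
    have hmx : |x - y| ≤ m := by rw [hm]; exact le_max_right _ _
    have hm2 : m ≤ 1 := by
      rw [hm]
      apply max_le _ hy
      rw [div_le_one hL0]
      exact hL
    obtain ⟨j, hj1, hj2⟩ := exists_nat_pow_near (show (1 : ℝ) ≤ 1 / m by rw [one_le_div hm0]; exact hm2) (one_lt_two)
    have hjJ : j < J + 1 := by
      have h1 : 1 / m ≤ L := by
        rw [div_le_iff₀ hm0]
        rw [div_le_iff₀ hL0] at hm1
        linarith
      have h2 : (2 : ℝ) ^ j < 2 ^ (J + 1) := lt_of_le_of_lt (hj1.trans h1) hJ2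
      exact (pow_lt_pow_iff_right₀ one_lt_two).1 h2
    have h3 : m ≤ (1 / 2 : ℝ) ^ j := by
      rw [one_div_pow, le_div_iff₀ (by positivity)]
      rw [le_div_iff₀ hm0] at hj1
      linarith
    have h4 : (1 / 2 : ℝ) ^ (j + 1) ≤ m := by
      rw [one_div_pow, div_le_iff₀ (by positivity)]
      rw [div_lt_iff₀ hm0] at hj2
      linarith
    have h5 : m ^ (-s) ≤ ((1 / 2 : ℝ) ^ (j + 1)) ^ (-s) := (Real.rpow_le_rpow_iff_of_neg hm0 (by positivity) (by linarith)).2 h4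
    refine (ENNReal.ofReal_le_ofReal h5).trans ?_
    have h6 : y ∈ Metric.closedBall x ((1 / 2 : ℝ) ^ j) := by
      rw [Metric.mem_closedBall, Real.dist_eq, abs_sub_comm]
      exact hmx.trans h3
    have h7 : ENNReal.ofReal (((1 / 2 : ℝ) ^ (j + 1)) ^ (-s)) =
        ENNReal.ofReal (((1 / 2 : ℝ) ^ (j + 1)) ^ (-s)) * (Metric.closedBall x ((1 / 2 : ℝ) ^ j)).indicator (fun _ => (1 : ℝ≥0∞)) y := by
      rw [Set.indicator_of_mem h6, mul_one]
    rw [h7]
    exact Finset.single_le_sum (f := fun j : ℕ => ENNReal.ofReal (((1 / 2 : ℝ) ^ (j + 1)) ^ (-s)) *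
      (Metric.closedBall x ((1 / 2 : ℝ) ^ j)).indicator (fun _ => (1 : ℝ≥0∞)) y) (fun _ _ => zero_le) (Finset.mem_range.2 hjJ)
  refine (lintegral_mono_ae hpt).trans ?_
  rw [lintegral_finsetSum _ (fun j _ => Measurable.const_mul (measurable_const.indicator Metric.isClosed_closedBall.measurableSet) _)]
  have hterm : ∀ j ∈ Finset.range (J + 1), ∫⁻ y, ENNReal.ofReal (((1 / 2 : ℝ) ^ (j + 1)) ^ (-s)) *
      (Metric.closedBall x ((1 / 2 : ℝ) ^ j)).indicator (fun _ => (1 : ℝ≥0∞)) y ∂μ ≤ ENNReal.ofReal (2 * C) := by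
    intro j hj
    have hj' : j ≤ J := Nat.lt_succ_iff.1 (Finset.mem_range.1 hj)
    rw [lintegral_const_mul' _ _ ENNReal.ofReal_ne_top, lintegral_indicator Metric.isClosed_closedBall.measurableSet, setLIntegral_const, one_mul]
    have h1 : 1 / L ≤ (1 / 2 : ℝ) ^ j := by
      rw [one_div_pow]
      apply one_div_le_one_div_of_le (by positivity)
      exact (pow_le_pow_right₀ one_le_two hj').trans hJ1
    have h2 : (1 / 2 : ℝ) ^ j ≤ 1 := pow_le_one₀ (by norm_num) (by norm_num)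
    refine (mul_le_mul_right (h _ h1 h2) _).trans ?_
    rw [← ENNReal.ofReal_mul (by positivity)]
    apply ENNReal.ofReal_le_ofReal
    have h3 : ((1 / 2 : ℝ) ^ (j + 1)) ^ (-s) * (C * ((1 / 2 : ℝ) ^ j) ^ s) = C * (2 : ℝ) ^ s := by
      have e1 : (1 / 2 : ℝ) ^ (j + 1) = (1 / 2 : ℝ) ^ j * (1 / 2) := pow_succ _ _
      rw [e1, Real.mul_rpow (by positivity) (by norm_num), Real.rpow_neg (by positivity : (0 : ℝ) ≤ (1 / 2 : ℝ) ^ j)]
      have e2 : (1 / 2 : ℝ) ^ (-s) = (2 : ℝ) ^ s := by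
        rw [one_div, Real.inv_rpow (by norm_num), Real.rpow_neg (by norm_num), inv_inv]
      rw [e2]
      have e3 : (((1 / 2 : ℝ) ^ j) ^ s) ≠ 0 := (Real.rpow_pos_of_pos (by positivity) _).ne'
      field_simp
    rw [h3]
    have h4 : (2 : ℝ) ^ s ≤ 2 := by
      calc (2 : ℝ) ^ s ≤ (2 : ℝ) ^ (1 : ℝ) := Real.rpow_le_rpow_of_exponent_le (by norm_num) hs1
        _ = 2 := Real.rpow_one _
    nlinarith
  refine (Finset.sum_le_sum hterm).trans ?_
  rw [Finset.sum_const, Finset.card_range, nsmul_eq_mul, ← ENNReal.ofReal_natCast, ← ENNReal.ofReal_mul (by positivity)]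
  apply ENNReal.ofReal_le_ofReal
  have hJl : (J : ℝ) ≤ 2 * Real.log L := by
    have h1 := Real.log_le_log (by positivity) hJ1
    rw [Real.log_pow] at h1
    have h2 : (1 / 2 : ℝ) ≤ Real.log 2 := by
      have := Real.log_two_gt_d9
      linarith
    have h3 : (J : ℝ) * (1 / 2) ≤ J * Real.log 2 := mul_le_mul_of_nonneg_left h2 (Nat.cast_nonneg _)
    linarith
  push_cast
  nlinarith

/-- **the second moment of the measure of the high points** -/
theorem hi_main {s c C A : ℝ} (hs0 : 0 < s) (hs1 : s ≤ 1) (hc : 0 < c) (hC : 0 < C) (hA : 0 ≤ A) : ∃ G : ℝ, 0 < G ∧ ∀ᶠ T : ℝ in atTop,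
    ∀ (μ : Measure ℝ) (a : ℝ), IsProbabilityMeasure μ → |a| ≤ T / 4 → RegM s c C (1 / Real.log T) a μ → ∀ v : ℝ, 0 ≤ v →
    (v ≤ A → ENNReal.ofReal (Real.log T ^ (-mex s v) * Real.exp (-(G * Real.sqrt (Real.log (Real.log T))))) ≤ hiM μ (Real.log T ^ v) T) ∧
    (v ≤ 1 → hiM μ (Real.log T ^ v) T ≤ ENNReal.ofReal (G * Real.log (Real.log T) * Real.log T ^ (-mex s v))) := by
  obtain ⟨C₁, hC₁, h1⟩ := two_pt hA
  refine ⟨C₁ + |Real.log c| + 6 * C₁ * C, by positivity, ?_⟩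
  have hℓ : Tendsto (fun T : ℝ => Real.log (Real.log T)) atTop atTop := Real.tendsto_log_atTop.comp Real.tendsto_log_atTop
  filter_upwards [h1, eventually_ge_atTop (4 : ℝ), Real.tendsto_log_atTop.eventually_ge_atTop 1, hℓ.eventually_ge_atTop 1] with T h1 hT4 hL1 hℓ1 μ a hμ ha hreg v hv
  obtain ⟨E, hE0, hEa, hE⟩ := hreg
  have hT0 : 0 < T := by linarith
  obtain ⟨L, hLd⟩ : ∃ L : ℝ, L = Real.log T := ⟨_, rfl⟩
  obtain ⟨ℓ, hℓd⟩ : ∃ ℓ : ℝ, ℓ = Real.log L := ⟨_, rfl⟩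
  have hov : ∀ u : ℝ, ov T u = -Real.log (max (1 / L) |u|) / ℓ := fun u => by
    unfold ov
    rw [hℓd, hLd]
  have hova : ∀ u : ℝ, |u| ≤ 1 → 0 ≤ ov T u ∧ ov T u ≤ 1 := fun u hu =>
    ⟨ov_nonneg (by linarith) hL1 hu, ov_le_one (by linarith) (by linarith)⟩
  rw [hiM_eq hT0, ← hLd]
  rw [← hLd] at h1 hL1 hℓ1 hE
  rw [← hℓd] at h1 hℓ1 ⊢
  have hL0 : 0 < L := by linarith
  have hℓ0 : 0 < ℓ := by linarith
  obtain ⟨z, hz⟩ : ∃ z : ℝ, z = Real.sqrt ℓ := ⟨_, rfl⟩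
  have hz1 : 1 ≤ z := by rw [hz]; exact Real.one_le_sqrt.2 hℓ1
  rw [← hz] at h1 ⊢
  have hae : ∀ᵐ x ∂μ, x ∈ E := by
    rw [ae_iff]
    exact hE0
  have hEx : ∀ x ∈ E, |x| ≤ T / 2 := by
    intro x hx
    have h2 := hEa hx
    have h3 := abs_le.1 ha
    rw [abs_le]
    constructor
    · linarith [h2.1, h3.1]
    · linarith [h2.2, h3.2]
  have hExy : ∀ x ∈ E, ∀ y ∈ E, |x - y| ≤ 1 := by
    intro x hx y hy
    have h2 := hEa hx
    have h3 := hEa hy
    rw [abs_le]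
    constructor
    · linarith [h2.1, h3.2]
    · linarith [h2.2, h3.1]
  have hlc := abs_nonneg (Real.log c)
  have hexpL : ∀ x : ℝ, L ^ x = Real.exp (ℓ * x) := fun x => by rw [Real.rpow_def_of_pos hL0, ← hℓd]
  constructor
  · intro hvA
    obtain ⟨a₀, ha0, ha1, haF⟩ := mex_ge hs0 hv
    obtain ⟨ρ, hρ⟩ : ∃ ρ : ℝ, ρ = L ^ (-a₀) := ⟨_, rfl⟩
    have hρ0 : 0 < ρ := by rw [hρ]; positivity
    have hρ1 : ρ ≤ 1 := by
      rw [hρ]
      exact Real.rpow_le_one_of_one_le_of_nonpos hL1 (by linarith)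
    have hρL : 1 / L ≤ ρ := by
      rw [hρ, one_div, ← Real.rpow_neg_one]
      exact Real.rpow_le_rpow_of_exponent_le hL1 (by linarith)
    obtain ⟨w, hw⟩ : ∃ w : ℝ, w = L ^ (-(2 * v ^ 2 / (1 + a₀))) * Real.exp (-(C₁ * z)) := ⟨_, rfl⟩
    have hw0 : 0 < w := by rw [hw]; positivity
    have hpt : ∀ x ∈ E, ∀ y ∈ E, |x - y| ≤ ρ → w ≤ P2 T (L ^ v) x y := by
      intro x hx y hy hxy
      refine le_trans ?_ ((h1 v x y hv (hEx x hx) (hEx y hy) (hExy x hx y hy)).1 hvA)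
      rw [hw]
      apply mul_le_mul_of_nonneg_right _ (Real.exp_pos _).le
      apply Real.rpow_le_rpow_of_exponent_le hL1
      apply neg_le_neg
      have h2 : a₀ ≤ ov T (x - y) := by
        rw [hov, le_div_iff₀ hℓ0]
        have h3 : Real.log (max (1 / L) |x - y|) ≤ Real.log ρ := Real.log_le_log (lt_of_lt_of_le (by positivity) (le_max_left _ _)) (max_le hρL hxy)
        rw [hρ, Real.log_rpow hL0, ← hℓd] at h3
        linarith
      exact div_le_div_of_nonneg_left (by positivity) (by linarith) (by linarith)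
    have hin : ∀ᵐ x ∂μ, ENNReal.ofReal (w * (c * ρ ^ s)) ≤ ∫⁻ y, ENNReal.ofReal (P2 T (L ^ v) x y) ∂μ := by
      filter_upwards [hae] with x hx
      have h2 : ∫⁻ y, (Metric.closedBall x ρ).indicator (fun _ => ENNReal.ofReal w) y ∂μ ≤ ∫⁻ y, ENNReal.ofReal (P2 T (L ^ v) x y) ∂μ := by
        apply lintegral_mono_ae
        filter_upwards [hae] with y hy
        unfold Set.indicator
        split_ifs with h3
        · rw [Metric.mem_closedBall, Real.dist_eq, abs_sub_comm] at h3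
          exact ENNReal.ofReal_le_ofReal (hpt x hx y hy h3)
        · exact zero_le
      refine le_trans ?_ h2
      rw [lintegral_indicator Metric.isClosed_closedBall.measurableSet, setLIntegral_const, ENNReal.ofReal_mul hw0.le]
      exact mul_le_mul_right (hE x hx ρ hρL hρ1).1 _
    have h3 : ∫⁻ _x, ENNReal.ofReal (w * (c * ρ ^ s)) ∂μ ≤ ∫⁻ x, ∫⁻ y, ENNReal.ofReal (P2 T (L ^ v) x y) ∂μ ∂μ := lintegral_mono_ae hin
    rw [lintegral_const, measure_univ, mul_one] at h3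
    refine le_trans (ENNReal.ofReal_le_ofReal ?_) h3
    have h4 : w * (c * ρ ^ s) = Real.exp (-(ℓ * mex s v) - C₁ * z + Real.log c) := by
      have e1 : c = Real.exp (Real.log c) := (Real.exp_log hc).symm
      have e2 : ρ ^ s = Real.exp (-(ℓ * (s * a₀))) := by
        rw [hρ, ← Real.rpow_mul hL0.le, hexpL]
        congr 1
        ring
      have e3 : w * (c * ρ ^ s) = Real.exp (ℓ * (-(2 * v ^ 2 / (1 + a₀)))) * Real.exp (-(C₁ * z)) * (Real.exp (Real.log c) * Real.exp (-(ℓ * (s * a₀)))) := by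
        rw [hw, hexpL, e2, ← e1]
      rw [e3, ← Real.exp_add, ← Real.exp_add, ← Real.exp_add]
      congr 1
      rw [← haF]
      ring
    rw [h4, hexpL, ← Real.exp_add]
    apply Real.exp_le_exp.2
    have h5 := neg_abs_le (Real.log c)
    have h6 : |Real.log c| ≤ |Real.log c| * z := le_mul_of_one_le_right hlc hz1
    have h7 : 0 ≤ 6 * C₁ * C * z := by positivity
    have e4 : (C₁ + |Real.log c| + 6 * C₁ * C) * z = C₁ * z + |Real.log c| * z + 6 * C₁ * C * z := by ring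
    rw [e4]
    have e5 : ℓ * -mex s v = -(ℓ * mex s v) := by ring
    rw [e5]
    linarith
  · intro hv1
    have hpt : ∀ x ∈ E, ∀ y ∈ E, P2 T (L ^ v) x y ≤ C₁ * L ^ (-mex s v) * (max (1 / L) |x - y|) ^ (-s) := by
      intro x hx y hy
      refine ((h1 v x y hv (hEx x hx) (hEx y hy) (hExy x hx y hy)).2 hv1).trans ?_
      rw [mul_assoc]
      apply mul_le_mul_of_nonneg_left _ hC₁.le
      obtain ⟨hg0, hg1⟩ := hova (x - y) (hExy x hx y hy)
      have h2 := mex_le hs0 hv hg0 hg1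
      have hm0 : 0 < max (1 / L) |x - y| := lt_of_lt_of_le (by positivity) (le_max_left _ _)
      have h3 : (max (1 / L) |x - y|) ^ (-s) = L ^ (s * ov T (x - y)) := by
        rw [Real.rpow_def_of_pos hm0, hexpL, hov]
        congr 1
        field_simp
      rw [h3, ← Real.rpow_add hL0]
      apply Real.rpow_le_rpow_of_exponent_le hL1
      linarith
    have hin : ∀ᵐ x ∂μ, ∫⁻ y, ENNReal.ofReal (P2 T (L ^ v) x y) ∂μ ≤ ENNReal.ofReal (C₁ * L ^ (-mex s v)) * ENNReal.ofReal (2 * C * (2 * Real.log L + 1)) := by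
      filter_upwards [hae] with x hx
      have h2 : ∫⁻ y, ENNReal.ofReal (P2 T (L ^ v) x y) ∂μ ≤ ∫⁻ y, ENNReal.ofReal (C₁ * L ^ (-mex s v)) * ENNReal.ofReal ((max (1 / L) |x - y|) ^ (-s)) ∂μ := by
        apply lintegral_mono_ae
        filter_upwards [hae] with y hy
        rw [← ENNReal.ofReal_mul (by positivity)]
        exact ENNReal.ofReal_le_ofReal (hpt x hx y hy)
      refine h2.trans ?_
      rw [lintegral_const_mul' _ _ ENNReal.ofReal_ne_top]
      refine mul_le_mul_right (kernel_up hs0 hs1 hC hL1 (fun ρ hρ1 hρ2 => (hE x hx ρ hρ1 hρ2).2) ?_) _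
      filter_upwards [hae] with y hy
      exact hExy x hx y hy
    refine (lintegral_mono_ae hin).trans ?_
    rw [lintegral_const, measure_univ, mul_one, ← ENNReal.ofReal_mul (by positivity)]
    apply ENNReal.ofReal_le_ofReal
    rw [← hℓd]
    have h5 : C₁ * L ^ (-mex s v) * (2 * C * (2 * ℓ + 1)) = (2 * C₁ * C * (2 * ℓ + 1)) * L ^ (-mex s v) := by ring
    rw [h5]
    apply mul_le_mul_of_nonneg_right _ (by positivity)
    have h6 : 0 < C₁ * C := by positivity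
    have h7 : 2 * C₁ * C * (2 * ℓ + 1) ≤ 6 * C₁ * C * ℓ := by nlinarith
    have h8 : 0 ≤ (C₁ + |Real.log c|) * ℓ := by positivity
    linarith

end

end Pool.Agent.H469.F4
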