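import Pool.Graph.R_pool_sql_team_seeded_3997aac3.Q97.UM.Base10

set_option autoImplicit false

/-!
# Families with coefficients of modulus at most `A`: removing the blocks `≤ j`

Adaptation of `S_JL` (library, project UM8) to coefficients of modulus at most `A`.
-/

namespace Pool.Agent.H469.F4

open Filter Topology MeasureTheory Complex Pool.Agent.Q97.UM
open Pool.Agent.Q86.UM (dp_cont dp_bdd zf_cont zf_bdd MB_mono MB_const_mul MB_sum MB_dp dp_low
  TEx_cont Ef_cont pw_cont zf_lc TEx_low R9_ge R9_four Ef_split geo_two geo_three)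

noncomputable section

/-- admissible families -/
structure FamA (A : ℝ) {m : ℕ} (k : Fin m → ℝ) (a a2 : Fin m → ℕ → ℂ) : Prop where
  nn : ∀ i, 0 ≤ k i
  sm : ∑ i, k i ≤ 1
  b1 : ∀ i n, ‖a i n‖ ≤ A
  b2 : ∀ i n, ‖a2 i n‖ ≤ A

/-- removing the blocks `≤ j` costs at most `exp(C e^{j/2})` -/
def S_JLA : Prop := ∀ A : ℝ, 1 ≤ A → ∀ m : ℕ, ∃ κ₀ : ℝ, 4 ≤ κ₀ ∧ ∀ κ : ℝ, κ₀ ≤ κ → ∃ C : ℝ, 1 ≤ C ∧ ∀ D : ℝ, 1 ≤ D →
  ∀ (k : Fin m → ℝ) (a a2 : Fin m → ℕ → ℂ),
  FamA A k a a2 → ∀ (N : ℕ) (b : ℕ → ℂ), 1 ≤ N → Real.log N ≤ D → (∀ n, b n ≠ 0 → 1 ≤ n ∧ n ≤ N) → ∀ W : ℝ,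
    MB (fun t => ‖Ef D κ (lc k a) (lc k a2) 0 t * dp N b t‖ ^ 2) W → ∀ j : ℕ,
      MB (fun t => ‖Ef D κ (lc k a) (lc k a2) (j + 1) t * dp N b t‖ ^ 2) (Real.exp (C * Real.exp ((j : ℝ) / 2)) * W)

/-- pointwise lower bound -/
theorem pointwise_lowA (hT : S_TEX) {m : ℕ} {A : ℝ} (D κ : ℝ) (hκ : 4 ≤ κ) (k : Fin m → ℝ) (a a2 : Fin m → ℕ → ℂ)
    (hF : FamA A k a a2) (j : ℕ) (t : ℝ) (μ : ℝ) (hμ : 0 ≤ μ) :
    Real.exp (-(2 * ((j : ℝ) + 1) + μ)) * ((1 + μ) * (1 - ∑ i, ∑ l ∈ Finset.range (j + 1), (20 / (R9 κ l : ℝ)) ^ 2 * ‖zf D (a i) (a2 i) l t‖ ^ 2)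
        - 2 * ∑ i, ∑ l ∈ Finset.range (j + 1), ‖zf D (a i) (a2 i) l t‖) ≤
      ‖∏ l ∈ Finset.range (min (j + 1) (JB D)), TEx (R9 κ l) (zf D (lc k a) (lc k a2) l t)‖ ^ 2 := by
  set Y := ∑ i, ∑ l ∈ Finset.range (j + 1), ‖zf D (a i) (a2 i) l t‖ with hY
  have hY0 : 0 ≤ Y := Finset.sum_nonneg fun i _ => Finset.sum_nonneg fun l _ => norm_nonneg _
  have hR0 : ∀ l, (0 : ℝ) < R9 κ l := fun l => by
    have := R9_four κ hκ l
    exact_mod_cast (by omega : 0 < R9 κ l)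
  by_cases hG : ∀ i, ∀ l ∈ Finset.range (j + 1), ‖zf D (a i) (a2 i) l t‖ ≤ (R9 κ l : ℝ) / 20
  · have hlow : Real.exp (-((j : ℝ) + 1)) * Real.exp (-Y) ≤
        ‖∏ l ∈ Finset.range (min (j + 1) (JB D)), TEx (R9 κ l) (zf D (lc k a) (lc k a2) l t)‖ := by
      rw [norm_prod]
      have h1 : ∀ l ∈ Finset.range (min (j + 1) (JB D)), Real.exp (-1) * Real.exp (-∑ i, ‖zf D (a i) (a2 i) l t‖) ≤
          ‖TEx (R9 κ l) (zf D (lc k a) (lc k a2) l t)‖ := by
        intro l hl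
        have hlj : l ∈ Finset.range (j + 1) := Finset.mem_range.mpr (lt_of_lt_of_le (Finset.mem_range.mp hl) (min_le_left _ _))
        have hz1 : ‖zf D (lc k a) (lc k a2) l t‖ ≤ ∑ i, k i * ‖zf D (a i) (a2 i) l t‖ := by
          rw [zf_lc]
          refine (norm_sum_le _ _).trans (Finset.sum_le_sum fun i _ => ?_)
          rw [norm_mul, Complex.norm_real, Real.norm_of_nonneg (hF.nn i)]
        have hz2 : ∑ i, k i * ‖zf D (a i) (a2 i) l t‖ ≤ (R9 κ l : ℝ) / 20 := by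
          calc ∑ i, k i * ‖zf D (a i) (a2 i) l t‖ ≤ ∑ i, k i * ((R9 κ l : ℝ) / 20) :=
                Finset.sum_le_sum fun i _ => mul_le_mul_of_nonneg_left (hG i l hlj) (hF.nn i)
            _ = (∑ i, k i) * ((R9 κ l : ℝ) / 20) := by rw [Finset.sum_mul]
            _ ≤ 1 * ((R9 κ l : ℝ) / 20) := mul_le_mul_of_nonneg_right hF.sm (by positivity)
            _ = _ := one_mul _
        have hz3 : ∑ i, k i * ‖zf D (a i) (a2 i) l t‖ ≤ ∑ i, ‖zf D (a i) (a2 i) l t‖ := by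
          refine Finset.sum_le_sum fun i _ => ?_
          have hki : k i ≤ 1 := (Finset.single_le_sum (fun i _ => hF.nn i) (Finset.mem_univ i)).trans hF.sm
          have := norm_nonneg (zf D (a i) (a2 i) l t)
          nlinarith
        have hRl := hR0 l
        have := TEx_low hT (R9 κ l) (R9_four κ hκ l) (zf D (lc k a) (lc k a2) l t) (by linarith)
        refine le_trans ?_ this
        apply mul_le_mul_of_nonneg_left _ (Real.exp_pos _).le
        apply Real.exp_le_exp.mpr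
        linarith
      refine le_trans ?_ (Finset.prod_le_prod (fun l _ => by positivity) h1)
      rw [Finset.prod_mul_distrib, Finset.prod_const, Finset.card_range, ← Real.exp_sum, ← Real.exp_nat_mul]
      have h2 : Real.exp (-((j : ℝ) + 1)) ≤ Real.exp (((min (j + 1) (JB D) : ℕ) : ℝ) * (-1)) := by
        apply Real.exp_le_exp.mpr
        have : ((min (j + 1) (JB D) : ℕ) : ℝ) ≤ (j : ℝ) + 1 := by
          have : min (j + 1) (JB D) ≤ j + 1 := min_le_left _ _
          exact_mod_cast this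
        linarith
      have h3 : Real.exp (-Y) ≤ Real.exp (∑ l ∈ Finset.range (min (j + 1) (JB D)), -∑ i, ‖zf D (a i) (a2 i) l t‖) := by
        apply Real.exp_le_exp.mpr
        rw [Finset.sum_neg_distrib, neg_le_neg_iff, hY, Finset.sum_comm]
        refine Finset.sum_le_sum fun i _ => ?_
        apply Finset.sum_le_sum_of_subset_of_nonneg
        · intro l hl
          exact Finset.mem_range.mpr (lt_of_lt_of_le (Finset.mem_range.mp hl) (min_le_left _ _))
        · intro l _ _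
          exact norm_nonneg _
      exact mul_le_mul h2 h3 (Real.exp_pos _).le (Real.exp_pos _).le
    have hsq : Real.exp (-(2 * ((j : ℝ) + 1))) * Real.exp (-(2 * Y)) ≤
        ‖∏ l ∈ Finset.range (min (j + 1) (JB D)), TEx (R9 κ l) (zf D (lc k a) (lc k a2) l t)‖ ^ 2 := by
      have := pow_le_pow_left₀ (by positivity) hlow 2
      refine le_trans (le_of_eq ?_) this
      rw [mul_pow, ← Real.exp_nat_mul, ← Real.exp_nat_mul]
      congr 1
      · congr 1
        push_cast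
        ring
      · congr 1
        push_cast
        ring
    refine le_trans ?_ hsq
    have h1 : (1 + μ) * (1 - ∑ i, ∑ l ∈ Finset.range (j + 1), (20 / (R9 κ l : ℝ)) ^ 2 * ‖zf D (a i) (a2 i) l t‖ ^ 2) - 2 * Y ≤
        1 + μ - 2 * Y := by
      have : 0 ≤ ∑ i, ∑ l ∈ Finset.range (j + 1), (20 / (R9 κ l : ℝ)) ^ 2 * ‖zf D (a i) (a2 i) l t‖ ^ 2 :=
        Finset.sum_nonneg fun i _ => Finset.sum_nonneg fun l _ => by positivity
      nlinarith
    have h2 : 1 + μ - 2 * Y ≤ Real.exp (μ - 2 * Y) := by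
      have := Real.add_one_le_exp (μ - 2 * Y)
      linarith
    calc Real.exp (-(2 * ((j : ℝ) + 1) + μ)) * _ ≤ Real.exp (-(2 * ((j : ℝ) + 1) + μ)) * Real.exp (μ - 2 * Y) :=
          mul_le_mul_of_nonneg_left (h1.trans h2) (Real.exp_pos _).le
      _ = _ := by
          rw [← Real.exp_add, ← Real.exp_add]
          congr 1
          ring
  · push Not at hG
    obtain ⟨i, l, hl, hil⟩ := hG
    have h1 : 1 ≤ ∑ i, ∑ l ∈ Finset.range (j + 1), (20 / (R9 κ l : ℝ)) ^ 2 * ‖zf D (a i) (a2 i) l t‖ ^ 2 := by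
      have e1 : (20 / (R9 κ l : ℝ)) ^ 2 * ‖zf D (a i) (a2 i) l t‖ ^ 2 ≤
          ∑ l ∈ Finset.range (j + 1), (20 / (R9 κ l : ℝ)) ^ 2 * ‖zf D (a i) (a2 i) l t‖ ^ 2 :=
        Finset.single_le_sum (f := fun l => (20 / (R9 κ l : ℝ)) ^ 2 * ‖zf D (a i) (a2 i) l t‖ ^ 2)
          (fun l _ => by positivity) hl
      have e2 : ∑ l ∈ Finset.range (j + 1), (20 / (R9 κ l : ℝ)) ^ 2 * ‖zf D (a i) (a2 i) l t‖ ^ 2 ≤
          ∑ i, ∑ l ∈ Finset.range (j + 1), (20 / (R9 κ l : ℝ)) ^ 2 * ‖zf D (a i) (a2 i) l t‖ ^ 2 :=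
        Finset.single_le_sum (f := fun i => ∑ l ∈ Finset.range (j + 1), (20 / (R9 κ l : ℝ)) ^ 2 * ‖zf D (a i) (a2 i) l t‖ ^ 2)
          (fun i _ => Finset.sum_nonneg fun l _ => by positivity) (Finset.mem_univ i)
      have e3 : 1 ≤ (20 / (R9 κ l : ℝ)) ^ 2 * ‖zf D (a i) (a2 i) l t‖ ^ 2 := by
        rw [← mul_pow]
        apply one_le_pow₀
        rw [div_mul_eq_mul_div, le_div_iff₀ (hR0 l)]
        linarith
      linarith
    have h2 : (1 + μ) * (1 - ∑ i, ∑ l ∈ Finset.range (j + 1), (20 / (R9 κ l : ℝ)) ^ 2 * ‖zf D (a i) (a2 i) l t‖ ^ 2) - 2 * Y ≤ 0 := by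
      nlinarith
    have h3 := Real.exp_pos (-(2 * ((j : ℝ) + 1) + μ))
    have h4 : Real.exp (-(2 * ((j : ℝ) + 1) + μ)) *
        ((1 + μ) * (1 - ∑ i, ∑ l ∈ Finset.range (j + 1), (20 / (R9 κ l : ℝ)) ^ 2 * ‖zf D (a i) (a2 i) l t‖ ^ 2) - 2 * Y) ≤ 0 :=
      mul_nonpos_of_nonneg_of_nonpos h3.le h2
    exact h4.trans (by positivity)

theorem t_JLA (hTEX : S_TEX) (hCOF : S_COF) (hPMT : S_PMT) (hMVL : S_MVL) : S_JLA := by
  obtain ⟨C₀, hC₀, hP⟩ := hPMT
  intro A hA m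
  obtain ⟨C₁, hC₁d⟩ : ∃ C₁ : ℝ, C₁ = C₀ * A ^ 2 := ⟨_, rfl⟩
  have hC₁ : 1 ≤ C₁ := by
    rw [hC₁d]
    have : 1 ≤ A ^ 2 := one_le_pow₀ hA
    nlinarith
  refine ⟨4 + 358400 * C₁ * m, by have : 0 ≤ 358400 * C₁ * (m : ℝ) := by positivity
                                  linarith, fun κ hκ => ?_⟩
  have hm0 : (0 : ℝ) ≤ m := Nat.cast_nonneg m
  have hC0 : 0 ≤ 358400 * C₁ * (m : ℝ) := by positivity
  have hκ4 : 4 ≤ κ := by linarith
  have hκ0 : 0 < κ := by linarith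
  have hκm : 358400 * C₁ * m ≤ κ := by linarith
  set K : ℝ := 6 * m * (1 + 28 * C₁ * κ) with hK
  have hK0 : 0 ≤ K := by positivity
  refine ⟨4 + 8 / 3 * K, by linarith, ?_⟩
  intro D hD k a a2 hF N b hN hlogN hb W hW j
  obtain ⟨M, c, hM, hlogM, hc, hdpc⟩ := (hCOF κ D (by linarith) hD (lc k a) (lc k a2) (lc k a) (lc k a2) (j + 1) 0).2.2
    N b hN hlogN hb
  have hdpc' : ∀ t, dp M c t = Ef D κ (lc k a) (lc k a2) (j + 1) t * dp N b t := by
    intro t
    rw [hdpc t]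
    simp [pw]
  have hsupp : ∀ n, c n ≠ 0 → 1 ≤ n ∧ n ≤ M := fun n hn => ⟨(hc n hn).1, (hc n hn).2.1⟩
  have hlog5 : Real.log M ≤ (26 * κ + 5) * D := by linarith
  have hNn := N2_nonneg M c
  have hdp := dp_cont M c
  have hz : ∀ i l, Continuous (zf D (a i) (a2 i) l) := fun i l => zf_cont _ _ _ _
  have hR0 : ∀ l, (0 : ℝ) < R9 κ l := fun l => by
    have := R9_four κ hκ4 l
    exact_mod_cast (by omega : 0 < R9 κ l)
  -- second moments of the blocks
  have hmom : ∀ i l, MB (fun t => ‖dp M c t‖ ^ 2 * ‖zf D (a i) (a2 i) l t‖ ^ 2) (56 * C₁ * κ * Real.exp l * N2 M c) := by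
    intro i l
    have h1 := hP A D hA hD (a i) (a2 i) (hF.b1 i) (hF.b2 i) M c hM hsupp l 1
    rw [← hC₁d] at h1
    have hzl := hz i l
    refine MB_mono (by fun_prop) (by fun_prop) (fun t => le_of_eq (by norm_num)) ?_ h1
    have h2 : Real.exp (l : ℝ) * Real.log M / D ≤ (26 * κ + 5) * Real.exp l := by
      rw [div_le_iff₀ (by linarith)]
      have := mul_le_mul_of_nonneg_left hlog5 (Real.exp_pos (l : ℝ)).le
      linarith
    have h3 : 1 ≤ Real.exp (l : ℝ) := Real.one_le_exp (by positivity)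
    have h4 : Real.exp (l : ℝ) * Real.log M / D + (1 : ℕ) + 1 ≤ 28 * κ * Real.exp l := by
      push_cast
      nlinarith
    have h5 : C₁ * (Real.exp (l : ℝ) * Real.log M / D + (1 : ℕ) + 1) * (2 * N2 M c) ≤ C₁ * (28 * κ * Real.exp l) * (2 * N2 M c) := by
      apply mul_le_mul_of_nonneg_right _ (by positivity)
      exact mul_le_mul_of_nonneg_left h4 (by positivity)
    rw [pow_one]
    linarith
  -- the exceptional set
  have hS2 : MB (fun t => ∑ i, ∑ l ∈ Finset.range (j + 1),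
      (20 / (R9 κ l : ℝ)) ^ 2 * (‖dp M c t‖ ^ 2 * ‖zf D (a i) (a2 i) l t‖ ^ 2)) (1 / 8 * N2 M c) := by
    have h1 : MB (fun t => ∑ i, ∑ l ∈ Finset.range (j + 1),
        (20 / (R9 κ l : ℝ)) ^ 2 * (‖dp M c t‖ ^ 2 * ‖zf D (a i) (a2 i) l t‖ ^ 2))
        (∑ _i : Fin m, ∑ l ∈ Finset.range (j + 1), (20 / (R9 κ l : ℝ)) ^ 2 * (56 * C₁ * κ * Real.exp l * N2 M c)) := by
      apply MB_sum
      · intro i _
        apply continuous_finsetSum
        intro l _
        have hzl := hz i l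
        fun_prop
      · intro i _
        apply MB_sum
        · intro l _
          have hzl := hz i l
          fun_prop
        · intro l _
          exact MB_const_mul _ (by positivity) (hmom i l)
    refine MB_mono ?_ ?_ (fun t => le_rfl) ?_ h1
    · apply continuous_finsetSum
      intro i _
      apply continuous_finsetSum
      intro l _
      have hzl := hz i l
      fun_prop
    · apply continuous_finsetSum
      intro i _
      apply continuous_finsetSum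
      intro l _
      have hzl := hz i l
      fun_prop
    · rw [Finset.sum_const, Finset.card_univ, Fintype.card_fin, nsmul_eq_mul]
      have h2 : ∀ l ∈ Finset.range (j + 1), (20 / (R9 κ l : ℝ)) ^ 2 * (56 * C₁ * κ * Real.exp l * N2 M c) ≤
          22400 * C₁ / κ * N2 M c * Real.exp (-(8 / 10 * (l : ℝ))) := by
        intro l _
        have hR := R9_ge κ l
        have hE : 0 < κ * Real.exp (9 / 10 * (l : ℝ)) := by positivity
        have h3 : (20 / (R9 κ l : ℝ)) ^ 2 ≤ (20 / (κ * Real.exp (9 / 10 * (l : ℝ)))) ^ 2 := by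
          apply pow_le_pow_left₀ (by positivity)
          exact div_le_div_of_nonneg_left (by norm_num) hE hR
        have h4 : (20 / (κ * Real.exp (9 / 10 * (l : ℝ)))) ^ 2 * (56 * C₁ * κ * Real.exp l * N2 M c) =
            22400 * C₁ / κ * N2 M c * (Real.exp l / Real.exp (9 / 10 * (l : ℝ)) ^ 2) := by
          field_simp
          ring
        have h5 : Real.exp (l : ℝ) / Real.exp (9 / 10 * (l : ℝ)) ^ 2 = Real.exp (-(8 / 10 * (l : ℝ))) := by
          rw [← Real.exp_nat_mul, ← Real.exp_sub]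
          congr 1
          push_cast
          ring
        calc (20 / (R9 κ l : ℝ)) ^ 2 * (56 * C₁ * κ * Real.exp l * N2 M c)
            ≤ (20 / (κ * Real.exp (9 / 10 * (l : ℝ)))) ^ 2 * (56 * C₁ * κ * Real.exp l * N2 M c) :=
              mul_le_mul_of_nonneg_right h3 (by positivity)
          _ = _ := by rw [h4, h5]
      calc (m : ℝ) * ∑ l ∈ Finset.range (j + 1), (20 / (R9 κ l : ℝ)) ^ 2 * (56 * C₁ * κ * Real.exp l * N2 M c)
          ≤ m * ∑ l ∈ Finset.range (j + 1), 22400 * C₁ / κ * N2 M c * Real.exp (-(8 / 10 * (l : ℝ))) :=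
            mul_le_mul_of_nonneg_left (Finset.sum_le_sum h2) hm0
        _ = m * (22400 * C₁ / κ * N2 M c) * ∑ l ∈ Finset.range (j + 1), Real.exp (-(8 / 10 * (l : ℝ))) := by
            rw [← Finset.mul_sum]
            ring
        _ ≤ m * (22400 * C₁ / κ * N2 M c) * 2 := mul_le_mul_of_nonneg_left (geo_two j) (by positivity)
        _ = (358400 * C₁ * m / κ) * (1 / 8 * N2 M c) := by ring
        _ ≤ 1 * (1 / 8 * N2 M c) := by
            apply mul_le_mul_of_nonneg_right _ (by positivity)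
            rw [div_le_one hκ0]
            exact hκm
        _ = _ := one_mul _
  -- the first moments
  have hY : MB (fun t => ∑ i, ∑ l ∈ Finset.range (j + 1), 2 * (‖dp M c t‖ ^ 2 * ‖zf D (a i) (a2 i) l t‖))
      (K * Real.exp ((j : ℝ) / 2) * N2 M c) := by
    have hone : ∀ i l, MB (fun t => 2 * (‖dp M c t‖ ^ 2 * ‖zf D (a i) (a2 i) l t‖))
        (2 * (1 + 28 * C₁ * κ) * N2 M c * Real.exp ((l : ℝ) / 2)) := by
      intro i l
      have hzl := hz i l
      have e1 : MB (fun t => Real.exp ((l : ℝ) / 2) * ‖dp M c t‖ ^ 2) (Real.exp ((l : ℝ) / 2) * (2 * N2 M c)) :=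
        MB_const_mul _ (Real.exp_pos _).le (MB_dp hMVL M c)
      have e2 : MB (fun t => Real.exp (-((l : ℝ) / 2)) * (‖dp M c t‖ ^ 2 * ‖zf D (a i) (a2 i) l t‖ ^ 2))
          (Real.exp (-((l : ℝ) / 2)) * (56 * C₁ * κ * Real.exp l * N2 M c)) :=
        MB_const_mul _ (Real.exp_pos _).le (hmom i l)
      have e3 : MB (fun t => Real.exp ((l : ℝ) / 2) * ‖dp M c t‖ ^ 2 +
          Real.exp (-((l : ℝ) / 2)) * (‖dp M c t‖ ^ 2 * ‖zf D (a i) (a2 i) l t‖ ^ 2))
          (Real.exp ((l : ℝ) / 2) * (2 * N2 M c) + Real.exp (-((l : ℝ) / 2)) * (56 * C₁ * κ * Real.exp l * N2 M c)) := by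
        unfold MB at *
        filter_upwards [e1, e2] with V h1 h2
        rw [intervalIntegral.integral_add (Continuous.intervalIntegrable (by fun_prop) _ _)
          (Continuous.intervalIntegrable (by fun_prop) _ _)]
        linarith
      refine MB_mono (by fun_prop) (by fun_prop) (fun t => ?_) (le_of_eq ?_) e3
      · have hx : 0 < Real.exp ((l : ℝ) / 2) := Real.exp_pos _
        have hinv : Real.exp (-((l : ℝ) / 2)) = (Real.exp ((l : ℝ) / 2))⁻¹ := Real.exp_neg _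
        rw [hinv]
        set s := Real.exp ((l : ℝ) / 2)
        set y := ‖zf D (a i) (a2 i) l t‖
        have hkey : 2 * y ≤ s + s⁻¹ * y ^ 2 := by
          have h1 : 0 ≤ (s - y) ^ 2 := sq_nonneg _
          have h2 : s + s⁻¹ * y ^ 2 - 2 * y = s⁻¹ * (s - y) ^ 2 := by
            field_simp
            ring
          have h3 : 0 ≤ s⁻¹ * (s - y) ^ 2 := by positivity
          linarith
        have := mul_le_mul_of_nonneg_left hkey (show 0 ≤ ‖dp M c t‖ ^ 2 by positivity)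
        linarith
      · have h1 : Real.exp (-((l : ℝ) / 2)) * Real.exp l = Real.exp ((l : ℝ) / 2) := by
          rw [← Real.exp_add]
          congr 1
          ring
        calc Real.exp ((l : ℝ) / 2) * (2 * N2 M c) + Real.exp (-((l : ℝ) / 2)) * (56 * C₁ * κ * Real.exp l * N2 M c)
            = Real.exp ((l : ℝ) / 2) * (2 * N2 M c) + 56 * C₁ * κ * N2 M c * (Real.exp (-((l : ℝ) / 2)) * Real.exp l) := by ring
          _ = _ := by
              rw [h1]
              ring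
    have h1 : MB (fun t => ∑ i, ∑ l ∈ Finset.range (j + 1), 2 * (‖dp M c t‖ ^ 2 * ‖zf D (a i) (a2 i) l t‖))
        (∑ _i : Fin m, ∑ l ∈ Finset.range (j + 1), 2 * (1 + 28 * C₁ * κ) * N2 M c * Real.exp ((l : ℝ) / 2)) := by
      apply MB_sum
      · intro i _
        apply continuous_finsetSum
        intro l _
        have hzl := hz i l
        fun_prop
      · intro i _
        apply MB_sum
        · intro l _
          have hzl := hz i l
          fun_prop
        · intro l _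
          exact hone i l
    refine MB_mono ?_ ?_ (fun t => le_rfl) ?_ h1
    · apply continuous_finsetSum
      intro i _
      apply continuous_finsetSum
      intro l _
      have hzl := hz i l
      fun_prop
    · apply continuous_finsetSum
      intro i _
      apply continuous_finsetSum
      intro l _
      have hzl := hz i l
      fun_prop
    · rw [Finset.sum_const, Finset.card_univ, Fintype.card_fin, nsmul_eq_mul, ← Finset.mul_sum]
      have := mul_le_mul_of_nonneg_left (geo_three j) (show 0 ≤ (m : ℝ) * (2 * (1 + 28 * C₁ * κ) * N2 M c) by positivity)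
      rw [hK]
      linarith
  -- comparison
  set L : ℝ := K * Real.exp ((j : ℝ) / 2) with hL
  have hL0 : 0 ≤ L := by positivity
  set μ : ℝ := 8 / 3 * L with hμ
  have hμ0 : 0 ≤ μ := by positivity
  set E : ℝ := Real.exp (-(2 * ((j : ℝ) + 1) + μ)) with hE
  have hE0 : 0 < E := Real.exp_pos _
  have hpt : ∀ t, E * ((1 + μ) * (‖dp M c t‖ ^ 2 - ∑ i, ∑ l ∈ Finset.range (j + 1),
      (20 / (R9 κ l : ℝ)) ^ 2 * (‖dp M c t‖ ^ 2 * ‖zf D (a i) (a2 i) l t‖ ^ 2)) -
      ∑ i, ∑ l ∈ Finset.range (j + 1), 2 * (‖dp M c t‖ ^ 2 * ‖zf D (a i) (a2 i) l t‖)) ≤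
      ‖Ef D κ (lc k a) (lc k a2) 0 t * dp N b t‖ ^ 2 := by
    intro t
    have h1 := pointwise_lowA hTEX D κ hκ4 k a a2 hF j t μ hμ0
    have h2 := mul_le_mul_of_nonneg_right h1 (show 0 ≤ ‖dp M c t‖ ^ 2 by positivity)
    have h3 : ‖Ef D κ (lc k a) (lc k a2) 0 t * dp N b t‖ ^ 2 =
        ‖∏ l ∈ Finset.range (min (j + 1) (JB D)), TEx (R9 κ l) (zf D (lc k a) (lc k a2) l t)‖ ^ 2 * ‖dp M c t‖ ^ 2 := by
      rw [Ef_split D κ _ _ j, mul_assoc, ← hdpc' t, norm_mul, mul_pow]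
    rw [h3]
    refine le_trans (le_of_eq ?_) h2
    have e1 : ∑ i, ∑ l ∈ Finset.range (j + 1), (20 / (R9 κ l : ℝ)) ^ 2 * (‖dp M c t‖ ^ 2 * ‖zf D (a i) (a2 i) l t‖ ^ 2) =
        ‖dp M c t‖ ^ 2 * ∑ i, ∑ l ∈ Finset.range (j + 1), (20 / (R9 κ l : ℝ)) ^ 2 * ‖zf D (a i) (a2 i) l t‖ ^ 2 := by
      rw [Finset.mul_sum]
      refine Finset.sum_congr rfl fun i _ => ?_
      rw [Finset.mul_sum]
      refine Finset.sum_congr rfl fun l _ => ?_
      ring
    have e2 : ∑ i, ∑ l ∈ Finset.range (j + 1), 2 * (‖dp M c t‖ ^ 2 * ‖zf D (a i) (a2 i) l t‖) =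
        ‖dp M c t‖ ^ 2 * (2 * ∑ i, ∑ l ∈ Finset.range (j + 1), ‖zf D (a i) (a2 i) l t‖) := by
      rw [Finset.mul_sum, Finset.mul_sum]
      refine Finset.sum_congr rfl fun i _ => ?_
      rw [Finset.mul_sum, Finset.mul_sum]
      refine Finset.sum_congr rfl fun l _ => ?_
      ring
    rw [e1, e2]
    ring
  have hkey : 3 / 8 * E * N2 M c ≤ W := by
    have hlow := dp_low hMVL M c
    unfold MB at hS2 hY hW
    obtain ⟨V, hV1, hV2, hV3, hV4, hV5⟩ := (hlow.and (hS2.and (hY.and (hW.and (eventually_gt_atTop (0 : ℝ)))))).exists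
    have hcS : Continuous (fun t => ∑ i, ∑ l ∈ Finset.range (j + 1),
        (20 / (R9 κ l : ℝ)) ^ 2 * (‖dp M c t‖ ^ 2 * ‖zf D (a i) (a2 i) l t‖ ^ 2)) := by
      apply continuous_finsetSum
      intro i _
      apply continuous_finsetSum
      intro l _
      have hzl := hz i l
      fun_prop
    have hcY : Continuous (fun t => ∑ i, ∑ l ∈ Finset.range (j + 1), 2 * (‖dp M c t‖ ^ 2 * ‖zf D (a i) (a2 i) l t‖)) := by
      apply continuous_finsetSum
      intro i _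
      apply continuous_finsetSum
      intro l _
      have hzl := hz i l
      fun_prop
    have hcH : Continuous (fun t => ‖dp M c t‖ ^ 2) := by fun_prop
    have hcE : Continuous (fun t => ‖Ef D κ (lc k a) (lc k a2) 0 t * dp N b t‖ ^ 2) := by
      have h1 := Ef_cont D κ (lc k a) (lc k a2) 0
      have h2 := dp_cont N b
      fun_prop
    have hint : E * ((1 + μ) * ((∫ t in V..(2 * V), ‖dp M c t‖ ^ 2) - ∫ t in V..(2 * V), ∑ i, ∑ l ∈ Finset.range (j + 1),
        (20 / (R9 κ l : ℝ)) ^ 2 * (‖dp M c t‖ ^ 2 * ‖zf D (a i) (a2 i) l t‖ ^ 2)) -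
        ∫ t in V..(2 * V), ∑ i, ∑ l ∈ Finset.range (j + 1), 2 * (‖dp M c t‖ ^ 2 * ‖zf D (a i) (a2 i) l t‖)) ≤
        ∫ t in V..(2 * V), ‖Ef D κ (lc k a) (lc k a2) 0 t * dp N b t‖ ^ 2 := by
      have hcA : Continuous (fun t => (1 + μ) * (‖dp M c t‖ ^ 2 - ∑ i, ∑ l ∈ Finset.range (j + 1),
          (20 / (R9 κ l : ℝ)) ^ 2 * (‖dp M c t‖ ^ 2 * ‖zf D (a i) (a2 i) l t‖ ^ 2))) :=
        continuous_const.mul (hcH.sub hcS)
      have hcB : Continuous (fun t => E * ((1 + μ) * (‖dp M c t‖ ^ 2 - ∑ i, ∑ l ∈ Finset.range (j + 1),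
          (20 / (R9 κ l : ℝ)) ^ 2 * (‖dp M c t‖ ^ 2 * ‖zf D (a i) (a2 i) l t‖ ^ 2)) -
          ∑ i, ∑ l ∈ Finset.range (j + 1), 2 * (‖dp M c t‖ ^ 2 * ‖zf D (a i) (a2 i) l t‖))) :=
        continuous_const.mul (hcA.sub hcY)
      rw [← intervalIntegral.integral_sub (hcH.intervalIntegrable _ _) (hcS.intervalIntegrable _ _),
        ← intervalIntegral.integral_const_mul,
        ← intervalIntegral.integral_sub (hcA.intervalIntegrable _ _) (hcY.intervalIntegrable _ _),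
        ← intervalIntegral.integral_const_mul]
      apply intervalIntegral.integral_mono_on (by linarith)
      · exact hcB.intervalIntegrable _ _
      · exact hcE.intervalIntegrable _ _
      · intro t _
        exact hpt t
    have h1 : V * (3 / 8 * N2 M c) ≤ (1 + μ) * ((∫ t in V..(2 * V), ‖dp M c t‖ ^ 2) - ∫ t in V..(2 * V), ∑ i, ∑ l ∈ Finset.range (j + 1),
        (20 / (R9 κ l : ℝ)) ^ 2 * (‖dp M c t‖ ^ 2 * ‖zf D (a i) (a2 i) l t‖ ^ 2)) -
        ∫ t in V..(2 * V), ∑ i, ∑ l ∈ Finset.range (j + 1), 2 * (‖dp M c t‖ ^ 2 * ‖zf D (a i) (a2 i) l t‖) := by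
      have h2 : V * (3 / 8 * N2 M c) ≤ (∫ t in V..(2 * V), ‖dp M c t‖ ^ 2) - ∫ t in V..(2 * V), ∑ i, ∑ l ∈ Finset.range (j + 1),
        (20 / (R9 κ l : ℝ)) ^ 2 * (‖dp M c t‖ ^ 2 * ‖zf D (a i) (a2 i) l t‖ ^ 2) := by linarith
      have h3 := mul_le_mul_of_nonneg_left h2 (show 0 ≤ 1 + μ by linarith)
      have h4 : (1 + μ) * (V * (3 / 8 * N2 M c)) = V * (3 / 8 * N2 M c) + L * N2 M c * V := by
        rw [hμ]
        ring
      linarith
    have h2 := mul_le_mul_of_nonneg_left h1 hE0.le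
    have h3 : (3 / 8 * E * N2 M c) * V ≤ W * V := by linarith
    exact le_of_mul_le_mul_right h3 hV5
  have hW0 : 0 ≤ W := le_trans (by positivity) hkey
  refine MB_mono ?_ (by fun_prop) (fun t => ?_) ?_ (MB_dp hMVL M c)
  · have h1 := Ef_cont D κ (lc k a) (lc k a2) (j + 1)
    have h2 := dp_cont N b
    fun_prop
  · rw [hdpc' t]
  · have h1 : N2 M c ≤ 8 / 3 * Real.exp (2 * ((j : ℝ) + 1) + μ) * W := by
      have h2 : Real.exp (2 * ((j : ℝ) + 1) + μ) * E = 1 := by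
        rw [hE, ← Real.exp_add]
        simp
      have h3 := mul_le_mul_of_nonneg_left hkey (show 0 ≤ 8 / 3 * Real.exp (2 * ((j : ℝ) + 1) + μ) by positivity)
      calc N2 M c = 8 / 3 * Real.exp (2 * ((j : ℝ) + 1) + μ) * (3 / 8 * E * N2 M c) := by
            linear_combination -(N2 M c) * h2
        _ ≤ _ := h3
    have h4 : (16 / 3 : ℝ) ≤ Real.exp 2 := by
      have h27 : (2.7182818283 : ℝ) < Real.exp 1 := Real.exp_one_gt_d9
      have : Real.exp 2 = Real.exp 1 ^ 2 := by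
        rw [← Real.exp_nat_mul]
        norm_num
      rw [this]
      calc (16 / 3 : ℝ) ≤ 2.7182818283 ^ 2 := by norm_num
        _ ≤ Real.exp 1 ^ 2 := pow_le_pow_left₀ (by norm_num) h27.le 2
    have h5 : Real.exp 2 * Real.exp (2 * ((j : ℝ) + 1) + μ) ≤ Real.exp ((4 + 8 / 3 * K) * Real.exp ((j : ℝ) / 2)) := by
      rw [← Real.exp_add]
      apply Real.exp_le_exp.mpr
      have h6 := Real.add_one_le_exp ((j : ℝ) / 2)
      rw [hμ, hL]
      linarith
    calc 2 * N2 M c ≤ 16 / 3 * Real.exp (2 * ((j : ℝ) + 1) + μ) * W := by linarith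
      _ ≤ Real.exp 2 * Real.exp (2 * ((j : ℝ) + 1) + μ) * W := by
          apply mul_le_mul_of_nonneg_right _ hW0
          exact mul_le_mul_of_nonneg_right h4 (Real.exp_pos _).le
      _ ≤ _ := mul_le_mul_of_nonneg_right h5 hW0


theorem b_JLA : S_JLA := t_JLA b_TEX b_COF b_PMT Pool.Agent.Q84.UM.t_MVL

end

end Pool.Agent.H469.F4
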