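import Pool.Graph.R_pool_sql_team_seeded_3997aac3.Q97.UM.Base10

set_option autoImplicit false

/-!
# The mean square of the polynomial of the blocks times a fixed polynomial
-/

namespace Pool.Agent.H469.F4

open Filter Topology MeasureTheory Complex Pool.Agent.Q97.UM
open Pool.Agent.Q14.UM (cv_coprime N2_mul_le N2_le_of_supp SP SP_cv SP_one SP_te SP_qb mem_PB XB_anti sum_zj)

noncomputable section

theorem N2_ext {b : ℕ → ℂ} {X Y : ℕ} (hX : ∀ n, b n ≠ 0 → n ≤ X) (hY : ∀ n, b n ≠ 0 → n ≤ Y) : N2 X b = N2 Y b := by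
  apply le_antisymm
  · exact N2_le_of_supp b X Y fun n hn => by
      by_contra h
      have := hY n h
      omega
  · exact N2_le_of_supp b Y X fun n hn => by
      by_contra h
      have := hX n h
      omega

/-- the mean square of a product with coprime supports -/
theorem N2_mul_eq (u v : ℕ → ℂ) (P : ℕ → Prop) (hu : SP P u) (hv : SP (fun p => ¬ P p) v) {X Y : ℕ}
    (hX : ∀ n, u n ≠ 0 → n ≤ X) (hY : ∀ n, v n ≠ 0 → n ≤ Y) : N2 (X * Y) (cv u v) = N2 X u * N2 Y v := by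
  apply le_antisymm _ (N2_mul_le u v P hu hv X Y)
  -- the sum over the pairs
  unfold N2
  rw [Finset.sum_mul_sum, ← Finset.sum_product']
  have h1 : ∀ n ∈ Finset.Icc 1 (X * Y), ‖cv u v n‖ ^ 2 / (n : ℝ) ≤
      ∑ z ∈ (Finset.Icc 1 X ×ˢ Finset.Icc 1 Y).filter (fun z => z.1 * z.2 = n), ‖u z.1‖ ^ 2 / (z.1 : ℝ) * (‖v z.2‖ ^ 2 / (z.2 : ℝ)) := by
    intro n hn
    by_cases h0 : cv u v n = 0
    · rw [h0]
      simp only [norm_zero, ne_eq, OfNat.ofNat_ne_zero, not_false_eq_true, zero_pow, zero_div]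
      exact Finset.sum_nonneg fun z _ => by positivity
    · obtain ⟨k, l, hkl, hn0, hk, hl⟩ := cv_supp h0
      have h2 : cv u v n = u k * v l := by
        rw [← hkl]
        exact cv_coprime u v P hu hv k l hk hl
      have hk0 : 1 ≤ k := Nat.one_le_iff_ne_zero.2 (hu k hk).1
      have hl0 : 1 ≤ l := Nat.one_le_iff_ne_zero.2 (hv l hl).1
      have h3 : (k, l) ∈ (Finset.Icc 1 X ×ˢ Finset.Icc 1 Y).filter (fun z => z.1 * z.2 = n) := by
        simp only [Finset.mem_filter, Finset.mem_product, Finset.mem_Icc]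
        exact ⟨⟨⟨hk0, hX k hk⟩, ⟨hl0, hY l hl⟩⟩, hkl⟩
      refine le_trans (le_of_eq ?_) (Finset.single_le_sum (f := fun z : ℕ × ℕ => ‖u z.1‖ ^ 2 / (z.1 : ℝ) * (‖v z.2‖ ^ 2 / (z.2 : ℝ)))
        (fun z _ => by positivity) h3)
      simp only
      rw [h2, norm_mul, ← hkl]
      have hd0 : (k : ℝ) ≠ 0 := by exact_mod_cast (hu k hk).1
      have he0 : (l : ℝ) ≠ 0 := by exact_mod_cast (hv l hl).1
      push_cast
      field_simp
  refine (Finset.sum_le_sum h1).trans ?_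
  have h2 : ∑ n ∈ Finset.Icc 1 (X * Y), ∑ z ∈ (Finset.Icc 1 X ×ˢ Finset.Icc 1 Y).filter (fun z => z.1 * z.2 = n),
      ‖u z.1‖ ^ 2 / (z.1 : ℝ) * (‖v z.2‖ ^ 2 / (z.2 : ℝ)) =
      ∑ z ∈ Finset.Icc 1 X ×ˢ Finset.Icc 1 Y, ‖u z.1‖ ^ 2 / (z.1 : ℝ) * (‖v z.2‖ ^ 2 / (z.2 : ℝ)) := by
    apply Finset.sum_fiberwise_of_maps_to
    intro z hz
    simp only [Finset.mem_product, Finset.mem_Icc] at hz ⊢
    exact ⟨Nat.one_le_iff_ne_zero.2 (mul_ne_zero (by omega) (by omega)), Nat.mul_le_mul hz.1.2 hz.2.2⟩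
  rw [h2]

theorem cv_delta {f : ℕ → ℂ} (hf : f 0 = 0) : cv (fun n => if n = 1 then 1 else 0) f = f := by
  funext n
  rcases eq_or_ne n 0 with h | h
  · subst h
    rw [cv_zero, hf]
  unfold cv
  rw [Finset.sum_eq_single (1, n)]
  · simp
  · intro p hp hne
    have h1 : p.1 ≠ 1 := by
      intro h1
      apply hne
      have h2 := (Nat.mem_divisorsAntidiagonal.1 hp).1
      rw [h1, one_mul] at h2
      exact Prod.ext h1 h2
    simp only
    rw [if_neg h1, zero_mul]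
  · intro h1
    exact absurd (Nat.mem_divisorsAntidiagonal.2 ⟨one_mul n, h⟩) h1

theorem ebk_at_zero (D κ : ℝ) (a a2 : ℕ → ℂ) (j r : ℕ) : ebk D κ a a2 j r 0 = 0 := by
  cases r with
  | zero => simp [ebk]
  | succ r => exact cv_zero _ _

/-- splitting the blocks -/
theorem ebk_split (D κ : ℝ) (a a2 : ℕ → ℂ) (l r : ℕ) :
    ebk D κ a a2 0 (l + r) = cv (ebk D κ a a2 l r) (ebk D κ a a2 0 l) := by
  induction r with
  | zero =>
    rw [add_zero]
    exact (cv_delta (ebk_at_zero D κ a a2 0 l)).symm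
  | succ r ih =>
    have h1 : ebk D κ a a2 0 (l + (r + 1)) = cv (te (qb D a a2 (l + r)) (R9 κ (l + r))) (ebk D κ a a2 0 (l + r)) := by
      show cv (te (qb D a a2 (0 + (l + r))) (R9 κ (0 + (l + r)))) (ebk D κ a a2 0 (l + r)) = _
      rw [zero_add]
    have h2 : ebk D κ a a2 l (r + 1) = cv (te (qb D a a2 (l + r)) (R9 κ (l + r))) (ebk D κ a a2 l r) := rfl
    rw [h1, ih, h2, cv_assoc]

theorem SP_ebk' (D κ : ℝ) (a a2 : ℕ → ℂ) (l r : ℕ) : SP (fun p => ∃ j, l ≤ j ∧ j < l + r ∧ p ∈ PB D j) (ebk D κ a a2 l r) := by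
  induction r with
  | zero => exact SP_one _
  | succ r ih =>
    have h2 : ebk D κ a a2 l (r + 1) = cv (te (qb D a a2 (l + r)) (R9 κ (l + r))) (ebk D κ a a2 l r) := rfl
    rw [h2]
    apply SP_cv
    · intro n hn
      have := SP_te _ _ (SP_qb D a a2 (l + r)) (R9 κ (l + r)) n hn
      exact ⟨this.1, fun p hp hpn => ⟨l + r, by omega, by omega, this.2 p hp hpn⟩⟩
    · intro n hn
      have := ih n hn
      refine ⟨this.1, fun p hp hpn => ?_⟩
      obtain ⟨j, hj1, hj, h⟩ := this.2 p hp hpn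
      exact ⟨j, hj1, by omega, h⟩

/-- finite support -/
def FS (u : ℕ → ℂ) : Prop := ∃ X : ℕ, ∀ n, u n ≠ 0 → n ≤ X

theorem FS_cv {u v : ℕ → ℂ} (hu : FS u) (hv : FS v) : FS (cv u v) := by
  obtain ⟨X, hX⟩ := hu
  obtain ⟨Y, hY⟩ := hv
  refine ⟨X * Y, fun n hn => ?_⟩
  obtain ⟨k, l, hkl, _, hk, hl⟩ := cv_supp hn
  rw [← hkl]
  exact Nat.mul_le_mul (hX k hk) (hY l hl)

theorem FS_one : FS (fun n => if n = 1 then (1 : ℂ) else 0) := ⟨1, fun n hn => by
  by_contra h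
  exact hn (if_neg (by omega))⟩

theorem FS_cvp {q : ℕ → ℂ} (hq : FS q) (r : ℕ) : FS (cvp q r) := by
  induction r with
  | zero => exact FS_one
  | succ r ih => exact FS_cv hq ih

theorem FS_te {q : ℕ → ℂ} (hq : FS q) (R : ℕ) : FS (te q R) := by
  choose X hX using fun r => FS_cvp hq r
  refine ⟨∑ r ∈ Finset.range (R + 1), X r, fun n hn => ?_⟩
  unfold te at hn
  obtain ⟨r, hr, h⟩ := Finset.exists_ne_zero_of_sum_ne_zero hn
  have h1 : cvp q r n ≠ 0 := by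
    intro h0
    rw [h0, zero_div] at h
    exact h rfl
  exact (hX r n h1).trans (Finset.single_le_sum (fun i _ => Nat.zero_le (X i)) hr)

theorem FS_qb (D : ℝ) (a a2 : ℕ → ℂ) (j : ℕ) : FS (qb D a a2 j) := by
  refine ⟨⌊XB D j⌋₊ ^ 2 + ⌊XB D j⌋₊, fun n hn => ?_⟩
  unfold qb at hn
  by_cases h1 : n ∈ PB D j
  · unfold PB at h1
    have := (Finset.mem_Icc.1 (Finset.mem_filter.1 h1).1).2
    omega
  · rw [if_neg h1, zero_add] at hn
    by_cases h2 : Nat.sqrt n ∈ PB D j ∧ n = Nat.sqrt n ^ 2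
    · have h3 := h2.1
      unfold PB at h3
      have h4 := (Finset.mem_Icc.1 (Finset.mem_filter.1 h3).1).2
      have h5 := Nat.pow_le_pow_left h4 2
      have h6 := h2.2
      omega
    · rw [if_neg h2] at hn
      exact absurd rfl hn

theorem FS_ebk (D κ : ℝ) (a a2 : ℕ → ℂ) (l r : ℕ) : FS (ebk D κ a a2 l r) := by
  induction r with
  | zero => exact FS_one
  | succ r ih => exact FS_cv (FS_te (FS_qb D a a2 (l + r)) _) ih

theorem XB_shift (D : ℝ) (l j : ℕ) : XB D (l + j) = XB (D * Real.exp (-(l : ℝ))) j := by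
  unfold XB
  congr 1
  rw [mul_assoc, ← Real.exp_add]
  congr 2
  push_cast
  ring

theorem PB_shift (D : ℝ) (l j : ℕ) : PB D (l + j) = PB (D * Real.exp (-(l : ℝ))) j := by
  unfold PB
  rw [add_assoc, XB_shift D l j, XB_shift D l (j + 1)]

theorem zf_shift (D : ℝ) (a a2 : ℕ → ℂ) (l j : ℕ) (t : ℝ) :
    zf D a a2 (l + j) t = zf (D * Real.exp (-(l : ℝ))) a a2 j t := by
  unfold zf
  have h1 : qb D a a2 (l + j) = qb (D * Real.exp (-(l : ℝ))) a a2 j := by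
    funext n
    unfold qb
    rw [PB_shift]
  rw [h1, XB_shift]

theorem JB_shift {D : ℝ} (hD : 0 < D) (l : ℕ) (h : 1 ≤ D * Real.exp (-(l : ℝ))) :
    JB D = l + JB (D * Real.exp (-(l : ℝ))) := by
  unfold JB
  have h1 : Real.log (2 * D) = Real.log (2 * (D * Real.exp (-(l : ℝ)))) + l := by
    rw [← mul_assoc, Real.log_mul (by positivity) (Real.exp_pos _).ne', Real.log_exp]
    ring
  have h2 : 0 ≤ Real.log (2 * (D * Real.exp (-(l : ℝ)))) := Real.log_nonneg (by linarith)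
  rw [h1, Nat.ceil_add_natCast h2, add_comm]

theorem qb_norm {A : ℝ} (hA : 0 ≤ A) {a a2 : ℕ → ℂ} (ha : ∀ n, ‖a n‖ ≤ A) (ha2 : ∀ n, ‖a2 n‖ ≤ A) (D : ℝ) (j n : ℕ) :
    ‖qb D a a2 j n‖ ≤ 2 * A := by
  unfold qb
  refine (norm_add_le _ _).trans ?_
  have h1 : ‖(if n ∈ PB D j then a n else 0 : ℂ)‖ ≤ A := by
    split_ifs
    · exact ha n
    · simpa using hA
  have h2 : ‖(if Nat.sqrt n ∈ PB D j ∧ n = Nat.sqrt n ^ 2 then a2 (Nat.sqrt n) / 2 else 0 : ℂ)‖ ≤ A := by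
    split_ifs
    · rw [norm_div]
      have := ha2 (Nat.sqrt n)
      have h3 : ‖(2 : ℂ)‖ = 2 := by simp
      rw [h3]
      linarith
    · simpa using hA
  linarith

/-- the product of the truncated exponentials in a bounded number of blocks with large degrees -/
theorem prod_TEx {r : ℕ} {R : ℕ → ℕ} {z : ℕ → ℂ} (h1 : ∀ j, j < r → 1 ≤ R j) (hz : ∀ j, j < r → ‖z j‖ ≤ (R j : ℝ) / 10)
    (hη : ∀ j, j < r → (r : ℝ) * Real.exp (-(R j : ℝ) / 2) ≤ 1 / 4) :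
    1 / 2 * ‖cexp (∑ j ∈ Finset.range r, z j)‖ ≤ ‖∏ j ∈ Finset.range r, TEx (R j) (z j)‖ ∧
    ‖∏ j ∈ Finset.range r, TEx (R j) (z j)‖ ≤ 2 * ‖cexp (∑ j ∈ Finset.range r, z j)‖ := by
  have hone : ∀ j, j < r → (1 - 1 / (4 * r)) * ‖cexp (z j)‖ ≤ ‖TEx (R j) (z j)‖ ∧ ‖TEx (R j) (z j)‖ ≤ (1 + 1 / (4 * r)) * ‖cexp (z j)‖ := by
    intro j hj
    have hr : (0 : ℝ) < r := by exact_mod_cast (by omega : 0 < r)
    have h2 := (b_TEX (R j) (z j) (h1 j hj)).2 (hz j hj)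
    have h3 : Real.exp (-(R j : ℝ) / 2) ≤ 1 / (4 * r) := by
      rw [le_div_iff₀ (by positivity)]
      have := hη j hj
      linarith
    have h4 : ‖TEx (R j) (z j) - cexp (z j)‖ ≤ 1 / (4 * r) * ‖cexp (z j)‖ :=
      h2.trans (mul_le_mul_of_nonneg_right h3 (norm_nonneg _))
    have h5 := norm_sub_norm_le (cexp (z j)) (TEx (R j) (z j))
    have h6 := norm_sub_norm_le (TEx (R j) (z j)) (cexp (z j))
    rw [norm_sub_rev] at h5
    constructor
    · linarith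
    · linarith
  rcases Nat.eq_zero_or_pos r with h0 | h0
  · subst h0
    simp
    norm_num
  have hr : (1 : ℝ) ≤ r := by exact_mod_cast h0
  have hx : 1 / (4 * (r : ℝ)) ≤ 1 / 4 := by
    apply div_le_div_of_nonneg_left (by norm_num) (by norm_num)
    linarith
  have hx0 : 0 ≤ 1 / (4 * (r : ℝ)) := by positivity
  rw [norm_prod, Complex.exp_sum, norm_prod]
  have hlow : ∏ j ∈ Finset.range r, ((1 - 1 / (4 * (r : ℝ))) * ‖cexp (z j)‖) ≤ ∏ j ∈ Finset.range r, ‖TEx (R j) (z j)‖ :=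
    Finset.prod_le_prod (fun j _ => mul_nonneg (by linarith) (norm_nonneg _)) fun j hj => (hone j (Finset.mem_range.1 hj)).1
  have hup : ∏ j ∈ Finset.range r, ‖TEx (R j) (z j)‖ ≤ ∏ j ∈ Finset.range r, ((1 + 1 / (4 * (r : ℝ))) * ‖cexp (z j)‖) :=
    Finset.prod_le_prod (fun j _ => norm_nonneg _) fun j hj => (hone j (Finset.mem_range.1 hj)).2
  rw [Finset.prod_mul_distrib, Finset.prod_const, Finset.card_range] at hlow hup
  have hb : 3 / 4 ≤ (1 - 1 / (4 * (r : ℝ))) ^ r := by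
    have h2 := one_add_mul_le_pow (a := -(1 / (4 * (r : ℝ)))) (by linarith) r
    have h3 : 1 + (r : ℝ) * (-(1 / (4 * (r : ℝ)))) = 3 / 4 := by
      field_simp
      norm_num
    rw [h3] at h2
    have h4 : 1 + -(1 / (4 * (r : ℝ))) = 1 - 1 / (4 * (r : ℝ)) := by ring
    rwa [h4] at h2
  have hc : (1 + 1 / (4 * (r : ℝ))) ^ r ≤ 2 := by
    have h2 : (1 + 1 / (4 * (r : ℝ))) ≤ Real.exp (1 / (4 * (r : ℝ))) := by
      have := Real.add_one_le_exp (1 / (4 * (r : ℝ)))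
      linarith
    calc (1 + 1 / (4 * (r : ℝ))) ^ r ≤ Real.exp (1 / (4 * (r : ℝ))) ^ r := pow_le_pow_left₀ (by positivity) h2 r
      _ = Real.exp (1 / 4) := by
          rw [← Real.exp_nat_mul]
          congr 1
          field_simp
      _ ≤ 2 := by
          have h3 : Real.exp (1 / 4) ≤ Real.exp 1 ^ (1 / 4 : ℝ) := by rw [← Real.exp_mul, one_mul]
          have h4 : Real.exp 1 < 16 := by have := Real.exp_one_lt_d9; linarith
          have h5 : Real.exp 1 ^ (1 / 4 : ℝ) ≤ 16 ^ (1 / 4 : ℝ) := Real.rpow_le_rpow (Real.exp_pos _).le h4.le (by norm_num)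
          have h6 : (16 : ℝ) ^ (1 / 4 : ℝ) = 2 := by
            rw [show (16 : ℝ) = 2 ^ (4 : ℝ) by norm_num, ← Real.rpow_mul (by norm_num)]
            norm_num
          linarith
  have hP : 0 ≤ ∏ j ∈ Finset.range r, ‖cexp (z j)‖ := Finset.prod_nonneg fun _ _ => norm_nonneg _
  constructor
  · refine le_trans ?_ hlow
    apply mul_le_mul_of_nonneg_right _ hP
    linarith
  · exact hup.trans (mul_le_mul_of_nonneg_right hc hP)

/-- **the part of the small primes** -/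
theorem small_part (κ A : ℝ) (hκ : 4 ≤ κ) (hA : 0 ≤ A) (N : ℕ) : ∃ Y : ℕ, ∀ᶠ D : ℝ in atTop, ∀ a a2 : ℕ → ℂ, (∀ n, ‖a n‖ ≤ A) →
    (∀ n, ‖a2 n‖ ≤ A) → ∃ (X : ℕ) (g : ℕ → ℂ), N < X ∧ X ≤ Y ∧ (∀ n, g n ≠ 0 → 1 ≤ n ∧ n ≤ M9 D κ) ∧
      (∀ t, 1 / 2 * ‖cexp (PA X a a2 t)‖ ≤ ‖dp (M9 D κ) g t‖ ∧ ‖dp (M9 D κ) g t‖ ≤ 2 * ‖cexp (PA X a a2 t)‖) ∧
      ∀ b : ℕ → ℂ, (∀ n, b n ≠ 0 → 1 ≤ n ∧ n ≤ N) →
        N2 (M9 D κ * N) (cv (ebk D κ a a2 0 (JB D)) b) * N2 (M9 D κ) g =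
          N2 (M9 D κ * N) (cv g b) * N2 (M9 D κ) (ebk D κ a a2 0 (JB D)) := by
  obtain ⟨Λ, hΛ⟩ : ∃ Λ : ℝ, Λ = Real.log (N + 3) := ⟨_, rfl⟩
  have hΛ1 : 1 ≤ Λ := by
    rw [hΛ, Real.le_log_iff_exp_le (by positivity)]
    have := Real.exp_one_lt_d9
    have h2 : (0 : ℝ) ≤ N := Nat.cast_nonneg N
    linarith
  have hexpΛ : Real.exp Λ = N + 3 := by rw [hΛ, Real.exp_log (by positivity)]
  obtain ⟨Y, hY⟩ : ∃ Y : ℕ, Y = ⌊Real.exp (Real.exp 1 * Λ)⌋₊ := ⟨_, rfl⟩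
  obtain ⟨K, hK⟩ : ∃ K : ℝ, K = (Y : ℝ) ^ 2 * (2 * A) := ⟨_, rfl⟩
  have hK0 : 0 ≤ K := by rw [hK]; positivity
  obtain ⟨rm, hrm⟩ : ∃ rm : ℝ, rm = Real.log (2 * (Real.exp 1 * Λ)) + 1 := ⟨_, rfl⟩
  refine ⟨Y, ?_⟩
  -- the block index tends to infinity
  have hl : Tendsto (fun D : ℝ => ⌊Real.log (D / Λ)⌋₊) atTop atTop :=
    tendsto_nat_floor_atTop.comp (Real.tendsto_log_atTop.comp (tendsto_id.atTop_div_const (by linarith)))
  have hR : Tendsto (fun D : ℝ => 4 * Real.exp (9 / 10 * ((⌊Real.log (D / Λ)⌋₊ : ℕ) : ℝ))) atTop atTop :=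
    (Real.tendsto_exp_atTop.comp ((tendsto_natCast_atTop_atTop.comp hl).const_mul_atTop (by norm_num))).const_mul_atTop (by norm_num)
  have hE : Tendsto (fun D : ℝ => rm * Real.exp (-(4 * Real.exp (9 / 10 * ((⌊Real.log (D / Λ)⌋₊ : ℕ) : ℝ))) / 2)) atTop (𝓝 0) := by
    have h1 : Tendsto (fun D : ℝ => -(4 * Real.exp (9 / 10 * ((⌊Real.log (D / Λ)⌋₊ : ℕ) : ℝ))) / 2) atTop atBot := by
      have := tendsto_neg_atTop_atBot.comp hR
      exact this.atBot_div_const (by norm_num)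
    have h2 := (Real.tendsto_exp_atBot.comp h1).const_mul rm
    rw [mul_zero] at h2
    exact h2
  filter_upwards [hR.eventually_ge_atTop (10 * K + 1), hE.eventually (gt_mem_nhds (show (0 : ℝ) < 1 / 4 by norm_num)),
    eventually_ge_atTop Λ] with D hD1 hD2 hD3
  intro a a2 ha ha2
  have hD0 : 0 < D := by linarith
  have hD1' : 1 ≤ D := by linarith
  obtain ⟨l, hlD⟩ : ∃ l : ℕ, l = ⌊Real.log (D / Λ)⌋₊ := ⟨_, rfl⟩
  rw [← hlD] at hD1 hD2
  have hlog0 : 0 ≤ Real.log (D / Λ) := Real.log_nonneg (by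
    rw [le_div_iff₀ (by linarith)]
    linarith)
  have hl1 : (l : ℝ) ≤ Real.log (D / Λ) := by rw [hlD]; exact Nat.floor_le hlog0
  have hl2 : Real.log (D / Λ) < l + 1 := by rw [hlD]; exact Nat.lt_floor_add_one _
  obtain ⟨D', hD'⟩ : ∃ D' : ℝ, D' = D * Real.exp (-(l : ℝ)) := ⟨_, rfl⟩
  have hDL : D / Λ = Real.exp (Real.log (D / Λ)) := (Real.exp_log (by positivity)).symm
  have hD'1 : Λ ≤ D' := by
    have h1 : Real.exp (l : ℝ) ≤ D / Λ := by
      rw [hDL]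
      exact Real.exp_le_exp.2 hl1
    rw [le_div_iff₀ (by linarith)] at h1
    rw [hD', Real.exp_neg, ← div_eq_mul_inv, le_div_iff₀ (Real.exp_pos _)]
    linarith
  have hD'2 : D' ≤ Real.exp 1 * Λ := by
    have h1 : D / Λ ≤ Real.exp ((l : ℝ) + 1) := by
      rw [hDL]
      exact Real.exp_le_exp.2 hl2.le
    rw [div_le_iff₀ (by linarith), Real.exp_add] at h1
    rw [hD', Real.exp_neg, ← div_eq_mul_inv, div_le_iff₀ (Real.exp_pos _)]
    linarith
  obtain ⟨X, hX⟩ : ∃ X : ℕ, X = ⌊Real.exp D'⌋₊ := ⟨_, rfl⟩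
  have hXN : N < X := by
    rw [hX]
    have h1 : ((N + 3 : ℕ) : ℝ) ≤ Real.exp D' := by
      push_cast
      rw [← hexpΛ]
      exact Real.exp_le_exp.2 hD'1
    have := Nat.le_floor h1
    omega
  have hXY : X ≤ Y := by
    rw [hX, hY]
    exact Nat.floor_le_floor (Real.exp_le_exp.2 hD'2)
  have hXB : XB D l = Real.exp D' := by
    have := XB_shift D l 0
    rw [add_zero] at this
    rw [this, ← hD']
    unfold XB
    simp
  obtain ⟨r, hr⟩ : ∃ r : ℕ, r = JB D' := ⟨_, rfl⟩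
  have hJ : JB D = l + r := by
    rw [hr, hD']
    exact JB_shift hD0 l (by rw [← hD']; linarith)
  have hrr : (r : ℝ) ≤ rm := by
    rw [hr, hrm]
    unfold JB
    have h1 : Real.log (2 * D') ≤ Real.log (2 * (Real.exp 1 * Λ)) := Real.log_le_log (by linarith) (by linarith)
    have h2 := Nat.ceil_lt_add_one (Real.log_nonneg (show (1 : ℝ) ≤ 2 * D' by linarith))
    linarith
  obtain ⟨g, hg⟩ : ∃ g : ℕ → ℂ, g = ebk D κ a a2 l r := ⟨_, rfl⟩
  obtain ⟨u, hu⟩ : ∃ u : ℕ → ℂ, u = ebk D κ a a2 0 l := ⟨_, rfl⟩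
  have hJl : JB D - l = r := by omega
  obtain ⟨hc1, hc2, -⟩ := b_COF κ D (by linarith) hD1' a a2 (fun _ => 1) (fun _ => 1) l 0
  rw [hJl, ← hg] at hc1 hc2
  obtain ⟨he1, -, -⟩ := b_COF κ D (by linarith) hD1' a a2 (fun _ => 1) (fun _ => 1) 0 0
  rw [Nat.sub_zero] at he1
  have hsplit : ebk D κ a a2 0 (JB D) = cv u g := by
    rw [hJ, ebk_split, ← hg, ← hu, cv_comm]
  refine ⟨X, g, hXN, hXY, hc1, fun t => ?_, fun b hb => ?_⟩
  · rw [hc2 t]
    unfold Ef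
    rw [hJ, Finset.prod_Ico_eq_prod_range]
    have h0 : l + r - l = r := by omega
    rw [h0]
    have hz : ∀ j, zf D a a2 (l + j) t = zf D' a a2 j t := fun j => by rw [zf_shift, ← hD']
    simp only [hz]
    have hsum : ∑ j ∈ Finset.range r, zf D' a a2 j t = PA X a a2 t := by
      rw [hr, hX]
      exact sum_zj D' a a2 (by linarith) t
    rw [← hsum]
    have hRj : ∀ j : ℕ, 4 * Real.exp (9 / 10 * (l : ℝ)) ≤ (R9 κ (l + j) : ℝ) := by
      intro j
      unfold R9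
      refine le_trans ?_ (Nat.le_ceil _)
      apply mul_le_mul hκ _ (Real.exp_pos _).le (by linarith)
      apply Real.exp_le_exp.2
      push_cast
      have : (0 : ℝ) ≤ j := Nat.cast_nonneg j
      linarith
    refine prod_TEx (R := fun j => R9 κ (l + j)) (z := fun j => zf D' a a2 j t) (fun j _ => ?_) (fun j _ => ?_) (fun j _ => ?_)
    · have h1 := hRj j
      have h2 : (1 : ℝ) ≤ (R9 κ (l + j) : ℝ) := by linarith
      exact_mod_cast h2
    · have h1 := hRj j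
      have h2 : ‖zf D' a a2 j t‖ ≤ K := by
        unfold zf
        refine (Pool.Agent.Q86.UM.dp_bdd _ _ _).trans ?_
        have h3 : ∑ n ∈ Finset.Icc 1 (⌊XB D' j⌋₊ ^ 2), ‖qb D' a a2 j n‖ ≤ ∑ _n ∈ Finset.Icc 1 (⌊XB D' j⌋₊ ^ 2), 2 * A :=
          Finset.sum_le_sum fun n _ => qb_norm hA ha ha2 D' j n
        rw [Finset.sum_const, Nat.card_Icc, nsmul_eq_mul] at h3
        refine h3.trans ?_
        rw [hK]
        apply mul_le_mul_of_nonneg_right _ (by positivity)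
        have h4 : ⌊XB D' j⌋₊ ≤ Y := by
          refine le_trans ?_ hXY
          rw [hX]
          apply Nat.floor_le_floor
          have := XB_anti D' (by linarith) (Nat.zero_le j)
          refine this.trans (le_of_eq ?_)
          unfold XB
          simp
        have h5 : ⌊XB D' j⌋₊ ^ 2 ≤ Y ^ 2 := Nat.pow_le_pow_left h4 2
        have h6 : ((⌊XB D' j⌋₊ ^ 2 + 1 - 1 : ℕ) : ℝ) ≤ ((Y ^ 2 : ℕ) : ℝ) := by
          exact_mod_cast (by omega : ⌊XB D' j⌋₊ ^ 2 + 1 - 1 ≤ Y ^ 2)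
        push_cast at h6 ⊢
        exact h6
      linarith
    · have h1 := hRj j
      have h2 : Real.exp (-(R9 κ (l + j) : ℝ) / 2) ≤ Real.exp (-(4 * Real.exp (9 / 10 * (l : ℝ))) / 2) :=
        Real.exp_le_exp.2 (by linarith)
      have h3 : (r : ℝ) * Real.exp (-(R9 κ (l + j) : ℝ) / 2) ≤ rm * Real.exp (-(4 * Real.exp (9 / 10 * (l : ℝ))) / 2) :=
        mul_le_mul hrr h2 (Real.exp_pos _).le ((Nat.cast_nonneg r).trans hrr)
      linarith
  · -- the identity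
    obtain ⟨X₁, hX₁⟩ : FS u := by rw [hu]; exact FS_ebk D κ a a2 0 l
    have hSu : SP (fun p => X < p) u := by
      intro n hn
      rw [hu] at hn
      have h1 := SP_ebk' D κ a a2 0 l n hn
      refine ⟨h1.1, fun p hp hpn => ?_⟩
      obtain ⟨j, -, hj, h⟩ := h1.2 p hp hpn
      have h2 := (mem_PB h).2.1
      have h3 : XB D l ≤ XB D (j + 1) := XB_anti D hD0.le (by omega)
      rw [hXB] at h3
      rw [hX]
      have h4 : Real.exp D' < p := by linarith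
      exact (Nat.floor_lt (Real.exp_pos _).le).2 h4
    have hSg : SP (fun p => ¬ X < p) g := by
      intro n hn
      rw [hg] at hn
      have h1 := SP_ebk' D κ a a2 l r n hn
      refine ⟨h1.1, fun p hp hpn => ?_⟩
      obtain ⟨j, hj, -, h⟩ := h1.2 p hp hpn
      have h2 := (mem_PB h).2.2
      have h3 : XB D j ≤ XB D l := XB_anti D hD0.le hj
      rw [hXB] at h3
      rw [hX, not_lt]
      exact Nat.le_floor (h2.trans h3)
    have hSb : SP (fun p => ¬ X < p) b := by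
      intro n hn
      have h1 := hb n hn
      refine ⟨by omega, fun p hp hpn => ?_⟩
      have := Nat.le_of_dvd (by omega) hpn
      omega
    have hgM : ∀ n, g n ≠ 0 → n ≤ M9 D κ := fun n hn => (hc1 n hn).2
    have hgb : ∀ n, cv g b n ≠ 0 → n ≤ M9 D κ * N := by
      intro n hn
      obtain ⟨k, m, hkm, _, hk, hm⟩ := cv_supp hn
      rw [← hkm]
      exact Nat.mul_le_mul (hgM k hk) (hb m hm).2
    have i1 := N2_mul_eq u g (fun p => X < p) hSu hSg hX₁ hgM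
    have i2 := N2_mul_eq u (cv g b) (fun p => X < p) hSu (SP_cv _ _ _ hSg hSb) hX₁ hgb
    have j1 : N2 (M9 D κ) (ebk D κ a a2 0 (JB D)) = N2 (X₁ * M9 D κ) (cv u g) := by
      rw [← hsplit]
      refine N2_ext (fun n hn => (he1 n hn).2) fun n hn => ?_
      rw [hsplit] at hn
      obtain ⟨k, m, hkm, _, hk, hm⟩ := cv_supp hn
      rw [← hkm]
      exact Nat.mul_le_mul (hX₁ k hk) (hgM m hm)
    have j2 : N2 (M9 D κ * N) (cv (ebk D κ a a2 0 (JB D)) b) = N2 (X₁ * (M9 D κ * N)) (cv u (cv g b)) := by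
      rw [← cv_assoc, ← hsplit]
      refine N2_ext (fun n hn => ?_) fun n hn => ?_
      · obtain ⟨k, m, hkm, _, hk, hm⟩ := cv_supp hn
        rw [← hkm]
        exact Nat.mul_le_mul (he1 k hk).2 (hb m hm).2
      · rw [hsplit, cv_assoc] at hn
        obtain ⟨k, m, hkm, _, hk, hm⟩ := cv_supp hn
        rw [← hkm]
        exact Nat.mul_le_mul (hX₁ k hk) (hgb m hm)
    rw [j1, j2, i1, i2]
    ring

end

end Pool.Agent.H469.F4
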