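import Pool.Graph.R_pool_sql_team_seeded_3997aac3.Q299.UM.EN2
import Pool.Agent.H469.F4.MUL

set_option autoImplicit false

/-!
# Products of truncated exponentials in one block of primes
-/

namespace Pool.Agent.H469.F4

open Filter Topology MeasureTheory Complex Pool.Agent.Q97.UM
open Pool.Agent.Q14.UM (mem_PB)
open Pool.Agent.Q299.UM (Fp Fp_apply NN_Fp qb_le te_le cvp_le Ee Ee_apply NN NN_mul NN_one NN_pow NN_Ee NN_sum NN_prod Le Le_mul
  Ee_sum Ee_zero SPA SPA_mul SPA_one SPA_pow SPA_Ee SPA_prod SPA_mono N2A N2A_nonneg N2A_mul N2A_prod N2A_local Fp_one Fp_self SPA_Fp Fp_l1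
  sum_ap Le_trans Le_refl)

noncomputable section

/-! ### truncated exponentials in the ring of arithmetic functions -/

section ring

variable {K : Type*} [Field K] [CharZero K]

/-- truncated exponential -/
def EK (F : ArithmeticFunction K) (R : ℕ) : ArithmeticFunction K := ∑ r ∈ Finset.range (R + 1), ((r.factorial : K)⁻¹) • F ^ r

/-- the terms of the product of two exponentials -/
def TT (F G : ArithmeticFunction K) (m : ℕ × ℕ) : ArithmeticFunction K :=
  ((m.1.factorial : K)⁻¹ * (m.2.factorial : K)⁻¹) • (F ^ m.1 * G ^ m.2)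

/-- evaluation -/
def evK (n : ℕ) : ArithmeticFunction K →+ K where
  toFun F := F n
  map_zero' := rfl
  map_add' _ _ := rfl

theorem sum_apK {ι : Type*} (s : Finset ι) (f : ι → ArithmeticFunction K) (n : ℕ) : (∑ i ∈ s, f i) n = ∑ i ∈ s, f i n :=
  map_sum (evK n) f s

/-- the pairs of degree at most `R` -/
def Tri (R : ℕ) : Finset (ℕ × ℕ) := (Finset.range (R + 1)).biUnion Finset.HasAntidiagonal.antidiagonal

theorem mem_Tri {R : ℕ} {m : ℕ × ℕ} : m ∈ Tri R ↔ m.1 + m.2 ≤ R := by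
  unfold Tri
  rw [Finset.mem_biUnion]
  constructor
  · rintro ⟨r, hr, hm⟩
    rw [Finset.HasAntidiagonal.mem_antidiagonal] at hm
    rw [Finset.mem_range] at hr
    omega
  · intro h
    exact ⟨m.1 + m.2, Finset.mem_range.2 (by omega), Finset.HasAntidiagonal.mem_antidiagonal.2 rfl⟩

theorem EK_add (F G : ArithmeticFunction K) (R : ℕ) : EK (F + G) R = ∑ m ∈ Tri R, TT F G m := by
  have h1 : EK (F + G) R = ∑ r ∈ Finset.range (R + 1), ∑ m ∈ Finset.HasAntidiagonal.antidiagonal r, TT F G m := by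
    unfold EK
    refine Finset.sum_congr rfl fun r _ => ?_
    rw [(Commute.all F G).add_pow', Finset.smul_sum]
    refine Finset.sum_congr rfl fun m hm => ?_
    rw [Finset.HasAntidiagonal.mem_antidiagonal] at hm
    unfold TT
    rw [← Nat.cast_smul_eq_nsmul K, smul_smul]
    congr 1
    rw [← hm]
    have h2 : (((m.1 + m.2).choose m.1 : K)) * m.1.factorial * m.2.factorial = ((m.1 + m.2).factorial : K) := by
      rw [Nat.choose_symm_add]
      exact_mod_cast congrArg (Nat.cast : ℕ → K) (Nat.add_choose_mul_factorial_mul_factorial m.1 m.2)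
    have h3 : (m.1.factorial : K) ≠ 0 := Nat.cast_ne_zero.2 (Nat.factorial_ne_zero _)
    have h4 : (m.2.factorial : K) ≠ 0 := Nat.cast_ne_zero.2 (Nat.factorial_ne_zero _)
    have h5 : ((m.1 + m.2).factorial : K) ≠ 0 := Nat.cast_ne_zero.2 (Nat.factorial_ne_zero _)
    field_simp
    linear_combination h2
  rw [h1]
  unfold Tri
  rw [Finset.sum_biUnion]
  intro r _ r' _ hr
  rw [Function.onFun, Finset.disjoint_left]
  intro m hm hm'
  rw [Finset.HasAntidiagonal.mem_antidiagonal] at hm hm'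
  exact hr (hm.symm.trans hm')

theorem EK_mul (F G : ArithmeticFunction K) (R S : ℕ) :
    EK F R * EK G S = ∑ m ∈ Finset.range (R + 1) ×ˢ Finset.range (S + 1), TT F G m := by
  unfold EK TT
  rw [Finset.sum_mul_sum, Finset.sum_product]
  refine Finset.sum_congr rfl fun i _ => Finset.sum_congr rfl fun j _ => ?_
  rw [smul_mul_smul_comm]

theorem rect_sub (R S : ℕ) : Finset.range (R + 1) ×ˢ Finset.range (S + 1) ⊆ Tri (R + S) := by
  intro m hm
  rw [Finset.mem_product, Finset.mem_range, Finset.mem_range] at hm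
  rw [mem_Tri]
  omega

end ring

theorem EK_real (F : ArithmeticFunction ℝ) (R : ℕ) : EK F R = Ee F R := rfl

theorem Ee_mul_le {F G : ArithmeticFunction ℝ} (hF : NN F) (hG : NN G) (R S : ℕ) : Le (Ee F R * Ee G S) (Ee (F + G) (R + S)) := by
  intro n
  rw [← EK_real, ← EK_real, ← EK_real, EK_mul, EK_add, sum_apK, sum_apK]
  refine Finset.sum_le_sum_of_subset_of_nonneg (rect_sub R S) fun m _ _ => ?_
  unfold TT
  rw [ArithmeticFunction.smul_map, smul_eq_mul]
  exact mul_nonneg (by positivity) (NN_mul (NN_pow hF _) (NN_pow hG _) n)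

/-- bounded by a nonnegative function -/
def Bd (F : ArithmeticFunction ℂ) (G : ArithmeticFunction ℝ) : Prop := ∀ n, ‖F n‖ ≤ G n

theorem Bd.nn {F : ArithmeticFunction ℂ} {G : ArithmeticFunction ℝ} (h : Bd F G) : NN G := fun n => (norm_nonneg _).trans (h n)

theorem Bd_mul {F F' : ArithmeticFunction ℂ} {G G' : ArithmeticFunction ℝ} (h : Bd F G) (h' : Bd F' G') : Bd (F * F') (G * G') := by
  intro n
  rw [ArithmeticFunction.mul_apply, ArithmeticFunction.mul_apply]
  refine (norm_sum_le _ _).trans (Finset.sum_le_sum fun x _ => ?_)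
  rw [norm_mul]
  exact mul_le_mul (h _) (h' _) (norm_nonneg _) (h.nn _)

theorem Bd_one : Bd 1 1 := by
  intro n
  rw [ArithmeticFunction.one_apply, ArithmeticFunction.one_apply]
  split_ifs <;> simp

theorem Bd_pow {F : ArithmeticFunction ℂ} {G : ArithmeticFunction ℝ} (h : Bd F G) (r : ℕ) : Bd (F ^ r) (G ^ r) := by
  induction r with
  | zero => rw [pow_zero, pow_zero]; exact Bd_one
  | succ r ih => rw [pow_succ, pow_succ]; exact Bd_mul ih h

theorem smul_powA (c : ℝ) (F : ArithmeticFunction ℝ) (r : ℕ) : (c • F) ^ r = c ^ r • F ^ r := by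
  rw [smul_pow]

/-- the product of two truncated exponentials is close to one truncated exponential -/
theorem EK_diff {F G : ArithmeticFunction ℂ} {F' G' : ArithmeticFunction ℝ} (hF : Bd F F') (hG : Bd G G') {R S : ℕ} (hRS : S ≤ R) (n : ℕ) :
    ‖(EK F R * EK G S) n‖ ≤ ‖EK (F + G) (R + S) n‖ + Real.exp (-(S : ℝ)) * Ee (Real.exp 1 • (F' + G')) (R + S) n := by
  classical
  have h1 : EK (F + G) (R + S) n = (EK F R * EK G S) n + ∑ m ∈ Tri (R + S) \ (Finset.range (R + 1) ×ˢ Finset.range (S + 1)), TT F G m n := by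
    rw [EK_mul, EK_add, sum_apK, sum_apK]
    have h0 := Finset.sum_sdiff (rect_sub R S) (f := fun m => TT F G m n)
    rw [← h0, add_comm]
  have h2 : ‖∑ m ∈ Tri (R + S) \ (Finset.range (R + 1) ×ˢ Finset.range (S + 1)), TT F G m n‖ ≤
      Real.exp (-(S : ℝ)) * Ee (Real.exp 1 • (F' + G')) (R + S) n := by
    rw [smul_add, ← EK_real, EK_add, sum_apK, Finset.mul_sum]
    refine (norm_sum_le _ _).trans ?_
    have h3 : ∀ m ∈ Tri (R + S) \ (Finset.range (R + 1) ×ˢ Finset.range (S + 1)), ‖TT F G m n‖ ≤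
        Real.exp (-(S : ℝ)) * TT (Real.exp 1 • F') (Real.exp 1 • G') m n := by
      intro m hm
      rw [Finset.mem_sdiff, mem_Tri, Finset.mem_product, Finset.mem_range, Finset.mem_range] at hm
      have h4 : S ≤ m.1 + m.2 := by
        by_contra h
        exact hm.2 ⟨by omega, by omega⟩
      unfold TT
      rw [ArithmeticFunction.smul_map, ArithmeticFunction.smul_map, smul_eq_mul, smul_eq_mul, norm_mul, norm_mul, norm_inv, norm_inv,
        Complex.norm_natCast, Complex.norm_natCast, smul_powA, smul_powA, smul_mul_smul_comm, ArithmeticFunction.smul_map, smul_eq_mul]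
      have h5 := Bd_mul (Bd_pow hF m.1) (Bd_pow hG m.2) n
      have h6 : 0 ≤ (F' ^ m.1 * G' ^ m.2) n := (norm_nonneg _).trans h5
      have h7 : 1 ≤ Real.exp (-(S : ℝ)) * (Real.exp 1 ^ m.1 * Real.exp 1 ^ m.2) := by
        rw [← pow_add, ← Real.exp_nat_mul, ← Real.exp_add]
        apply Real.one_le_exp
        have : (S : ℝ) ≤ ((m.1 + m.2 : ℕ) : ℝ) := by exact_mod_cast h4
        linarith
      have h8 : 0 ≤ ((m.1.factorial : ℝ)⁻¹ * (m.2.factorial : ℝ)⁻¹) := by positivity
      calc (m.1.factorial : ℝ)⁻¹ * (m.2.factorial : ℝ)⁻¹ * ‖(F ^ m.1 * G ^ m.2) n‖ ≤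
          (m.1.factorial : ℝ)⁻¹ * (m.2.factorial : ℝ)⁻¹ * (F' ^ m.1 * G' ^ m.2) n := mul_le_mul_of_nonneg_left h5 h8
        _ ≤ (Real.exp (-(S : ℝ)) * (Real.exp 1 ^ m.1 * Real.exp 1 ^ m.2)) *
            ((m.1.factorial : ℝ)⁻¹ * (m.2.factorial : ℝ)⁻¹ * (F' ^ m.1 * G' ^ m.2) n) :=
          le_mul_of_one_le_left (mul_nonneg h8 h6) h7
        _ = _ := by ring
    refine (Finset.sum_le_sum h3).trans (Finset.sum_le_sum_of_subset_of_nonneg Finset.sdiff_subset fun m _ _ => ?_)
    unfold TT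
    rw [ArithmeticFunction.smul_map, smul_eq_mul, smul_powA, smul_powA, smul_mul_smul_comm, ArithmeticFunction.smul_map, smul_eq_mul]
    have h6 : 0 ≤ (F' ^ m.1 * G' ^ m.2) n := (norm_nonneg _).trans (Bd_mul (Bd_pow hF m.1) (Bd_pow hG m.2) n)
    positivity
  have h9 : (EK F R * EK G S) n = EK (F + G) (R + S) n -
      ∑ m ∈ Tri (R + S) \ (Finset.range (R + 1) ×ˢ Finset.range (S + 1)), TT F G m n := by
    rw [h1]; ring
  rw [h9]
  exact (norm_sub_le _ _).trans (add_le_add le_rfl h2)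

/-! ### coefficient sequences -/

/-- the arithmetic function of a sequence -/
def tA (f : ℕ → ℂ) : ArithmeticFunction ℂ := ⟨fun n => if n = 0 then 0 else f n, by simp⟩

theorem tA_apply (f : ℕ → ℂ) {n : ℕ} (hn : n ≠ 0) : tA f n = f n := by
  show (if n = 0 then 0 else f n) = f n
  rw [if_neg hn]

theorem tA_cv (f g : ℕ → ℂ) : tA (cv f g) = tA f * tA g := by
  ext n
  by_cases hn : n = 0
  · subst hn
    simp
  · rw [tA_apply _ hn, ArithmeticFunction.mul_apply]
    unfold cv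
    refine Finset.sum_congr rfl fun x hx => ?_
    obtain ⟨h1, h2⟩ := Nat.mem_divisorsAntidiagonal.1 hx
    have h3 : x.1 ≠ 0 := fun h => h2 (by rw [← h1, h, zero_mul])
    have h4 : x.2 ≠ 0 := fun h => h2 (by rw [← h1, h, mul_zero])
    rw [tA_apply _ h3, tA_apply _ h4]

theorem tA_one : tA (fun n => if n = 1 then (1 : ℂ) else 0) = 1 := by
  ext n
  by_cases hn : n = 0
  · subst hn
    simp
  · rw [tA_apply _ hn, ArithmeticFunction.one_apply]

theorem tA_cvp (q : ℕ → ℂ) (r : ℕ) : tA (cvp q r) = tA q ^ r := by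
  induction r with
  | zero => rw [pow_zero]; exact tA_one
  | succ r ih =>
    rw [pow_succ', ← ih, ← tA_cv]
    rfl

theorem tA_te (q : ℕ → ℂ) (R : ℕ) : tA (te q R) = EK (tA q) R := by
  ext n
  by_cases hn : n = 0
  · subst hn
    simp
  · rw [tA_apply _ hn]
    unfold te EK
    rw [sum_apK]
    refine Finset.sum_congr rfl fun r _ => ?_
    rw [ArithmeticFunction.smul_map, smul_eq_mul, ← tA_cvp, tA_apply _ hn, div_eq_inv_mul]

/-- one block: the bound for the coefficients -/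
theorem te_mul_diff {q q' : ℕ → ℂ} {F G : ArithmeticFunction ℝ} (hq : ∀ n, ‖q n‖ ≤ F n) (hq' : ∀ n, ‖q' n‖ ≤ G n) {R S : ℕ} (hRS : S ≤ R)
    {n : ℕ} (hn : n ≠ 0) : ‖cv (te q R) (te q' S) n‖ ≤ ‖te (fun n => q n + q' n) (R + S) n‖ +
      Real.exp (-(S : ℝ)) * Ee (Real.exp 1 • (F + G)) (R + S) n := by
  have hb : ∀ (q : ℕ → ℂ) (F : ArithmeticFunction ℝ), (∀ n, ‖q n‖ ≤ F n) → Bd (tA q) F := by
    intro q F h m
    by_cases hm : m = 0
    · subst hm
      simp
    · rw [tA_apply _ hm]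
      exact h m
  have h1 := EK_diff (hb q F hq) (hb q' G hq') hRS n
  have h2 : tA (fun n => q n + q' n) = tA q + tA q' := by
    ext m
    by_cases hm : m = 0
    · subst hm
      simp
    · rw [ArithmeticFunction.add_apply, tA_apply _ hm, tA_apply _ hm, tA_apply _ hm]
  rw [← tA_te, ← tA_te, ← tA_cv, ← h2, ← tA_te, tA_apply _ hn, tA_apply _ hn] at h1
  exact h1

/-! ### one block -/

theorem SPA_smul {P : ℕ → Prop} {F : ArithmeticFunction ℝ} (hF : SPA P F) (c : ℝ) : SPA P (c • F) := by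
  intro n hn
  rw [ArithmeticFunction.smul_map, smul_eq_mul] at hn
  exact hF n (right_ne_zero_of_mul hn)

theorem SPA_add {P : ℕ → Prop} {F G : ArithmeticFunction ℝ} (hF : SPA P F) (hG : SPA P G) : SPA P (F + G) := by
  intro n hn
  rw [ArithmeticFunction.add_apply] at hn
  by_cases h : F n = 0
  · exact hG n fun h' => hn (by rw [h, h', add_zero])
  · exact hF n h

theorem NN_smul {F : ArithmeticFunction ℝ} (hF : NN F) {c : ℝ} (hc : 0 ≤ c) : NN (c • F) := by
  intro n
  rw [ArithmeticFunction.smul_map, smul_eq_mul]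
  exact mul_nonneg hc (hF n)

theorem NN_add {F G : ArithmeticFunction ℝ} (hF : NN F) (hG : NN G) : NN (F + G) := by
  intro n
  rw [ArithmeticFunction.add_apply]
  exact add_nonneg (hF n) (hG n)

theorem N2A_mono (X : ℕ) {F G : ArithmeticFunction ℝ} (hF : NN F) (h : Le F G) : N2A X F ≤ N2A X G := by
  unfold N2A
  refine Finset.sum_le_sum fun n _ => ?_
  have h1 := h n
  have h2 := hF n
  gcongr

/-- the general bound for one block of primes -/
theorem block_bd_aux (D : ℝ) (l : ℕ) (f : ℕ → ArithmeticFunction ℝ) (v : ℕ → ℝ) (S : ℝ) (hS : 0 ≤ S) (hf : ∀ p, NN (f p))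
    (hf1 : ∀ p, p.Prime → f p 1 = 0) (hfp : ∀ p, p.Prime → f p p ≤ v p) (hsp : ∀ p, p.Prime → SPA (fun q => q = p) (f p))
    (hl1 : ∀ p n : ℕ, ∑ d ∈ n.divisors, f p d ≤ S) (R X : ℕ) :
    N2A X (Ee (∑ p ∈ PB D l, f p) R) ≤ Real.exp (∑ p ∈ PB D l, (v p ^ 2 / p + 2 * Real.exp (2 * S) * (1 / (p : ℝ) ^ 2))) := by
  refine (N2A_mono X (NN_Ee (NN_sum _ _ fun p _ => hf p) R) (Ee_sum (PB D l) f hf R)).trans ?_
  refine (N2A_prod X _ _ (fun p => p) (fun _ _ _ _ h => h) fun p hp => SPA_Ee (hsp p (mem_PB hp).1) R).trans ?_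
  rw [Real.exp_sum]
  refine Finset.prod_le_prod (fun p _ => N2A_nonneg _ _) fun p hp => ?_
  have hpp := (mem_PB hp).1
  refine (N2A_local (hf p) hpp (hf1 p hpp) (hsp p hpp) S hS (hl1 p) R X).trans ?_
  have h1 : f p p ^ 2 / (p : ℝ) ≤ v p ^ 2 / p := by
    have := hf p p
    have := hfp p hpp
    gcongr
  have h2 := Real.add_one_le_exp (v p ^ 2 / (p : ℝ) + 2 * Real.exp (2 * S) * (1 / (p : ℝ) ^ 2))
  have h3 : 2 * Real.exp (2 * S) / (p : ℝ) ^ 2 = 2 * Real.exp (2 * S) * (1 / (p : ℝ) ^ 2) := by ring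
  linarith

end

end Pool.Agent.H469.F4
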