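import Pool.Agent.H469.F4.UBM4
import Pool.Graph.R_pool_sql_team_seeded_3997aac3.Results.MP_fa2474_nt.OrderForEveryPolynomial

set_option autoImplicit false

/-!
# Both bounds for products of total order at most four, relative to every Dirichlet polynomial
-/

namespace Pool.Agent.H469.F4

open Filter Topology MeasureTheory Complex Pool.Agent.Q97.UM
open Pool.Agent.Results.MP_fa2474_nt.OrderForEveryPolynomial (order order_eq sum_close norm_ap_le)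

noncomputable section

/-- the polynomial belonging to the exponents `k` and the shifts `α` -/
def eo (δ κ T : ℝ) {n : ℕ} (k α : Fin n → ℝ) : ℕ → ℂ :=
  ebk (δ * Real.log T) κ (ap k α) (ap k (fun j => 2 * α j)) 0 (JB (δ * Real.log T))

/-- its length -/
def eM (δ κ T : ℝ) : ℕ := M9 (δ * Real.log T) κ

/-- the product of the shifted values -/
def zpr {n : ℕ} (k α : Fin n → ℝ) (t : ℝ) : ℝ := ∏ j, ‖zt (t + α j)‖ ^ (2 * k j)

theorem zpr_nonneg {n : ℕ} (k α : Fin n → ℝ) (t : ℝ) : 0 ≤ zpr k α t :=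
  Finset.prod_nonneg fun _ _ => Real.rpow_nonneg (norm_nonneg _) _

theorem zpr_cont {n : ℕ} {k : Fin n → ℝ} (hk : ∀ j, 0 ≤ k j) (α : Fin n → ℝ) : Continuous (zpr k α) := by
  unfold zpr
  refine continuous_finsetProd _ fun i _ => ?_
  have h1 : Continuous fun t : ℝ => ‖zt (t + α i)‖ := (ztc.comp (by fun_prop)).norm
  exact h1.rpow_const fun t => Or.inr (by have := hk i; linarith)

/-- a two-sided bound, for all small `δ` -/
theorem ord4 (n : ℕ) : ∃ κ δ₀ : ℝ, 4 ≤ κ ∧ 0 < δ₀ ∧ ∀ δ : ℝ, 0 < δ → δ ≤ δ₀ → δ ≤ 1 ∧ 26 * κ * δ ≤ 1 / 8 ∧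
    ∃ θ c C : ℝ, 0 < θ ∧ θ ≤ 1 / 8 ∧ 0 < c ∧ 0 ≤ C ∧ ∀ᶠ T : ℝ in atTop, ∀ k α : Fin n → ℝ, (∀ j, 0 ≤ k j) → ∑ j, k j ≤ 2 →
      (∀ j, |α j| ≤ T / 2) →
      c * order T k α ≤ N2 (eM δ κ T) (eo δ κ T k α) ∧ N2 (eM δ κ T) (eo δ κ T k α) ≤ C * order T k α ∧
      (∀ m, eo δ κ T k α m ≠ 0 → 1 ≤ m ∧ m ≤ eM δ κ T) ∧ ((eM δ κ T : ℕ) : ℝ) ≤ T ^ (1 / 8 : ℝ) ∧
      ∀ N : ℕ, (N : ℝ) ≤ T ^ θ → ∀ b : ℕ → ℂ, (∀ m, b m ≠ 0 → 1 ≤ m ∧ m ≤ N) →
        c * T * N2 (eM δ κ T * N) (cv (eo δ κ T k α) b) ≤ ∫ t in T..(2 * T), zpr k α t * ‖dp N b t‖ ^ 2 ∧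
        ∫ t in T..(2 * T), zpr k α t * ‖dp N b t‖ ^ 2 ≤ C * T * N2 (eM δ κ T * N) (cv (eo δ κ T k α) b) := by
  obtain ⟨κ₁, hκ₁, h9⟩ := b_EK9 2 (by norm_num)
  obtain ⟨κ₂, hκ₂, hU⟩ := ubm4 n
  obtain ⟨κ₃, hκ₃, cE, CE, hcE, hCE, hE⟩ := b_EN2 2 (by norm_num)
  obtain ⟨κ, hκd⟩ : ∃ κ : ℝ, κ = max κ₁ (max κ₂ κ₃) := ⟨_, rfl⟩
  have hk1 : κ₁ ≤ κ := by rw [hκd]; exact le_max_left _ _
  have hk2 : κ₂ ≤ κ := by rw [hκd]; exact (le_max_left _ _).trans (le_max_right _ _)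
  have hk3 : κ₃ ≤ κ := by rw [hκd]; exact (le_max_right _ _).trans (le_max_right _ _)
  have hκ4 : 4 ≤ κ := hκ₁.trans hk1
  obtain ⟨δ₁, hδ₁, hU1⟩ := hU κ hk2
  obtain ⟨δ₂, hδ₂, hL1⟩ := b_LBK 2 (13 / 10 * κ) (by norm_num) (by linarith)
  refine ⟨κ, min (min δ₁ δ₂) (min 1 (1 / (208 * κ))), hκ4, by positivity, fun δ hδ0 hδd => ?_⟩
  have hδa : δ ≤ δ₁ := hδd.trans ((min_le_left _ _).trans (min_le_left _ _))
  have hδb : δ ≤ δ₂ := hδd.trans ((min_le_left _ _).trans (min_le_right _ _))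
  have hδc : δ ≤ 1 := hδd.trans ((min_le_right _ _).trans (min_le_left _ _))
  have hδe : δ ≤ 1 / (208 * κ) := hδd.trans ((min_le_right _ _).trans (min_le_right _ _))
  have h26 : 26 * κ * δ ≤ 1 / 8 := by
    have : 208 * κ * δ ≤ 1 := by
      rw [le_div_iff₀ (by positivity)] at hδe
      linarith
    linarith
  refine ⟨hδc, h26, ?_⟩
  obtain ⟨C9, c9, hC9, hc9, h9'⟩ := h9 κ δ hk1 hδ0
  obtain ⟨θU, CU, hθU, hCU, hU2⟩ := hU1 δ hδ0 hδa
  obtain ⟨θL, cL, hθL, hcL, hL2⟩ := hL1 δ hδ0 hδb C9 c9 hC9 hc9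
  obtain ⟨Cz, hz⟩ := Pool.Agent.Q149.UM.t_MZ δ hδ0 hδc
  have hlogev : ∀ᶠ T : ℝ in atTop, 1 ≤ δ * Real.log T := by
    filter_upwards [Real.tendsto_log_atTop.eventually_ge_atTop (1 / δ)] with T hT
    rw [div_le_iff₀ hδ0] at hT
    linarith
  obtain ⟨Cw, hCw⟩ : ∃ Cw : ℝ, Cw = max Cz 0 := ⟨_, rfl⟩
  have hCw0 : 0 ≤ Cw := by rw [hCw]; exact le_max_right _ _
  refine ⟨min (min θU θL) (1 / 8), min cL (cE * Real.exp (-(2 ^ 2 * Cw))),
    max CU (CE * Real.exp (2 ^ 2 * Cw)), by positivity, min_le_right _ _, by positivity, by positivity, ?_⟩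
  filter_upwards [h9', hU2, hL2, hz, hlogev, eventually_ge_atTop (16 : ℝ)] with T g9 gU gL gz glog hT16
  intro k α hk0 hk1 hα
  have hT0 : 0 < T := by linarith
  have hT1 : 1 ≤ T := by linarith
  have hkA : ∑ j, |k j| ≤ 2 := by
    rw [Finset.sum_congr rfl fun j _ => abs_of_nonneg (hk0 j)]
    exact hk1
  obtain ⟨J, M₀, q, w, hEK⟩ := g9 (ap k α) (ap k (fun j => 2 * α j)) (norm_ap_le hkA α) (norm_ap_le hkA _)
  obtain ⟨hE1, hE2⟩ := hE κ (δ * Real.log T) (ap k α) (ap k (fun j => 2 * α j)) hk3 glog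
    (norm_ap_le hkA α) (norm_ap_le hkA _)
  obtain ⟨M, hM⟩ : ∃ M : ℕ, M = eM δ κ T := ⟨_, rfl⟩
  obtain ⟨e, he⟩ : ∃ e : ℕ → ℂ, e = eo δ κ T k α := ⟨_, rfl⟩
  have hM' : M9 (δ * Real.log T) κ = M := by rw [hM]; rfl
  have he' : ebk (δ * Real.log T) κ (ap k α) (ap k (fun j => 2 * α j)) 0 (JB (δ * Real.log T)) = e := by rw [he]; rfl
  rw [hM', he'] at hE1 hE2 hEK
  rw [← hM, ← he]
  have hexp : Real.exp (δ * Real.log T) = T ^ δ := by
    rw [Real.rpow_def_of_pos hT0, mul_comm]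
  rw [hexp] at hE1 hE2
  have hMlen : (M : ℝ) ≤ T ^ (1 / 8 : ℝ) := by
    rw [← hM']
    unfold M9
    refine (Nat.floor_le (Real.exp_pos _).le).trans ?_
    rw [Real.rpow_def_of_pos hT0]
    apply Real.exp_le_exp.2
    have hL0 : 0 ≤ Real.log T := Real.log_nonneg hT1
    calc 26 * κ * (δ * Real.log T) = (26 * κ * δ) * Real.log T := by ring
      _ ≤ (1 / 8) * Real.log T := mul_le_mul_of_nonneg_right h26 hL0
      _ = Real.log T * (1 / 8) := by ring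
  have hclose := sum_close (k := k) (α := α) (A := 2) (C := Cw) (T := T) (X := ⌊T ^ δ⌋₊) hCw0 hkA
    (fun u => (gz u).trans (by rw [hCw]; exact le_max_left _ _))
  rw [abs_le] at hclose
  obtain ⟨Y, hY⟩ : ∃ Y : ℝ, Y = ∑ p ∈ (Finset.Icc 1 ⌊T ^ δ⌋₊).filter Nat.Prime, ‖ap k α p‖ ^ 2 / p := ⟨_, rfl⟩
  rw [← hY] at hE1 hE2 hclose
  have hord := order_eq (T := T) (by linarith) k α
  have hord0 : 0 ≤ order T k α := by rw [hord]; positivity
  have hN20 : ∀ (N : ℕ) (c : ℕ → ℂ), 0 ≤ N2 N c := Pool.Agent.Q86.UM.N2_nonneg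
  refine ⟨?_, ?_, hEK.supp, hMlen, fun N hN b hb => ⟨?_, ?_⟩⟩
  · have h1 : Real.exp (-(2 ^ 2 * Cw)) * order T k α ≤ Real.exp Y := by
      rw [hord, ← Real.exp_add]
      apply Real.exp_le_exp.2
      linarith [hclose.1]
    calc min cL (cE * Real.exp (-(2 ^ 2 * Cw))) * order T k α ≤ (cE * Real.exp (-(2 ^ 2 * Cw))) * order T k α :=
          mul_le_mul_of_nonneg_right (min_le_right _ _) hord0
      _ = cE * (Real.exp (-(2 ^ 2 * Cw)) * order T k α) := by ring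
      _ ≤ cE * Real.exp Y := mul_le_mul_of_nonneg_left h1 hcE.le
      _ ≤ _ := hE1
  · have h1 : Real.exp Y ≤ Real.exp (2 ^ 2 * Cw) * order T k α := by
      rw [hord, ← Real.exp_add]
      apply Real.exp_le_exp.2
      linarith [hclose.2]
    calc N2 M e ≤ CE * Real.exp Y := hE2
      _ ≤ CE * (Real.exp (2 ^ 2 * Cw) * order T k α) := mul_le_mul_of_nonneg_left h1 hCE
      _ = (CE * Real.exp (2 ^ 2 * Cw)) * order T k α := by ring
      _ ≤ _ := mul_le_mul_of_nonneg_right (le_max_right _ _) hord0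
  · have hNL : (N : ℝ) ≤ T ^ θL := hN.trans (Real.rpow_le_rpow_of_exponent_le hT1 ((min_le_left _ _).trans (min_le_right _ _)))
    have h1 := gL n k α hkA hα M e J M₀ q w hEK N hNL b hb
    have hc0 : Continuous fun t => zpr k α t * ‖dp N b t‖ ^ 2 := (zpr_cont hk0 α).mul ((dpc N b).norm.pow 2)
    have hnn : ∀ t, 0 ≤ zpr k α t * ‖dp N b t‖ ^ 2 := fun t => mul_nonneg (zpr_nonneg k α t) (by positivity)
    have h2 : ∫⁻ t in Set.Icc T (2 * T), ENNReal.ofReal ((∏ j, ‖zt (t + α j)‖ ^ (2 * k j)) * ‖dp N b t‖ ^ 2) =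
        ENNReal.ofReal (∫ t in T..(2 * T), zpr k α t * ‖dp N b t‖ ^ 2) := by
      rw [intervalIntegral.integral_of_le (by linarith), ← integral_Icc_eq_integral_Ioc,
        ofReal_integral_eq_lintegral_ofReal]
      · rfl
      · exact hc0.continuousOn.integrableOn_Icc
      · exact Eventually.of_forall hnn
    rw [h2] at h1
    have h3 : 0 ≤ ∫ t in T..(2 * T), zpr k α t * ‖dp N b t‖ ^ 2 :=
      intervalIntegral.integral_nonneg (by linarith) fun t _ => hnn t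
    have h4 := (ENNReal.ofReal_le_ofReal_iff h3).1 h1
    refine le_trans ?_ h4
    have := hN20 (M * N) (cv e b)
    apply mul_le_mul_of_nonneg_right _ this
    exact mul_le_mul_of_nonneg_right (min_le_left _ _) hT0.le
  · have hNU : (N : ℝ) ≤ T ^ θU := hN.trans (Real.rpow_le_rpow_of_exponent_le hT1 ((min_le_left _ _).trans (min_le_left _ _)))
    have h1 := gU k α hk0 hk1 hα N hNU b hb
    rw [hM', he'] at h1
    refine le_trans h1 ?_
    have := hN20 (M * N) (cv e b)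
    apply mul_le_mul_of_nonneg_right _ this
    exact mul_le_mul_of_nonneg_right (le_max_left _ _) hT0.le

end

end Pool.Agent.H469.F4
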