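import Pool.Agent.H469.F4.PHA
import Pool.Agent.H469.F4.ORD4

set_option autoImplicit false

/-!
# Prime phases under the moment measures on the critical line, orders at most four
-/

namespace Pool.Agent.H469.F4

open Filter Topology MeasureTheory Complex UnitAddTorus Pool.Agent.Q97.UM Pool.Agent.V1167.PP
open Pool.Agent.Results.MP_fa2474_nt.OrderForEveryPolynomial (order)

noncomputable section

theorem ES_nonneg (s : ℝ) (S : Finset Nat.Primes) {G : UnitAddTorus S → ℝ} (hG : ∀ θ, 0 ≤ G θ) : 0 ≤ ES s S G :=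
  integral_nonneg fun _ => hG _

/-- **the mean square relative to the small primes** -/
theorem ratio_small {s : ℝ} (hs0 : 0 ≤ s) (hs2 : s ≤ 2) {κ : ℝ} (hκ : 4 ≤ κ) {S : Finset Nat.Primes} (Q : C(UnitAddTorus S, ℂ))
    {N : ℕ} {b : ℕ → ℂ} (hSN : ∀ q ∈ S, (q : ℕ) ≤ N) (hb : ∀ n, b n ≠ 0 → 1 ≤ n ∧ n ≤ N)
    (hbQ : ∀ t, ‖dp N b t‖ = ‖Q (ph (pS S) t)‖) :
    ∀ᶠ D : ℝ in atTop,
      ES s S (fun θ => ‖Q θ‖ ^ 2) * N2 (M9 D κ) (ebk D κ (fun _ => (s : ℂ)) (fun _ => (s : ℂ)) 0 (JB D)) ≤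
        64 * K1 ^ 2 * N2 (M9 D κ * N) (cv (ebk D κ (fun _ => (s : ℂ)) (fun _ => (s : ℂ)) 0 (JB D)) b) ∧
      N2 (M9 D κ * N) (cv (ebk D κ (fun _ => (s : ℂ)) (fun _ => (s : ℂ)) 0 (JB D)) b) ≤
        64 * K1 ^ 2 * (ES s S (fun θ => ‖Q θ‖ ^ 2) * N2 (M9 D κ) (ebk D κ (fun _ => (s : ℂ)) (fun _ => (s : ℂ)) 0 (JB D))) := by
  obtain ⟨Y, hY⟩ := small_part κ 2 hκ (by norm_num) N
  filter_upwards [hY] with D hD
  have hsn : ∀ _n : ℕ, ‖(s : ℂ)‖ ≤ 2 := fun _ => by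
    rw [Complex.norm_real, Real.norm_of_nonneg hs0]
    exact hs2
  obtain ⟨X, g, hX1, -, hg, hgX, hid⟩ := hD (fun _ => (s : ℂ)) (fun _ => (s : ℂ)) hsn hsn
  obtain ⟨e, he⟩ : ∃ e : ℕ → ℂ, e = ebk D κ (fun _ => (s : ℂ)) (fun _ => (s : ℂ)) 0 (JB D) := ⟨_, rfl⟩
  have hi := hid b hb
  rw [← he] at hi ⊢
  obtain ⟨M, hM⟩ : ∃ M : ℕ, M = M9 D κ := ⟨_, rfl⟩
  rw [← hM] at hi hg hgX ⊢
  have hSX : S ⊆ SX X := fun q hq => mem_SX.2 ((hSN q hq).trans hX1.le)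
  have hgX' : ∀ t : ℝ, ‖cexp (PA X (fun _ => (s : ℂ)) (fun _ => (s : ℂ)) t)‖ / 2 ≤ ‖dp M g t‖ ∧
      ‖dp M g t‖ ≤ 2 * ‖cexp (PA X (fun _ => (s : ℂ)) (fun _ => (s : ℂ)) t)‖ := fun t => ⟨by have := (hgX t).1; linarith, (hgX t).2⟩
  have h1 := N2_euler hs0 hs2 hg hgX' hSX Q hb hbQ
  have h2 := N2_euler hs0 hs2 hg hgX' hSX (1 : C(UnitAddTorus S, ℂ)) (N := 1) (b := fun n => if n = 1 then 1 else 0)
    (fun n hn => by
      have : n = 1 := by
        by_contra h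
        exact hn (if_neg h)
      omega) (fun t => by
      unfold dp
      simp)
  have hg0 : g 0 = 0 := by
    by_contra h
    have := (hg 0 h).1
    omega
  rw [cv_comm g, cv_delta hg0, mul_one] at h2
  have h3 : ES s S (fun θ => ‖(1 : C(UnitAddTorus S, ℂ)) θ‖ ^ 2) = 1 := by
    have e1 : (fun θ : UnitAddTorus S => ‖(1 : C(UnitAddTorus S, ℂ)) θ‖ ^ 2) = fun _ => (1 : ℝ) := by
      funext θ
      simp
    rw [e1, ES_const]
  rw [h3, mul_one] at h2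
  obtain ⟨E, hE⟩ : ∃ E : ℝ, E = ES s S (fun θ => ‖Q θ‖ ^ 2) := ⟨_, rfl⟩
  have hE0 : 0 ≤ E := by
    rw [hE]
    exact ES_nonneg _ _ fun θ => by positivity
  rw [← hE] at h1 ⊢
  obtain ⟨m, hm⟩ : ∃ m : ℝ, m = mass s (pS (SX X)) := ⟨_, rfl⟩
  have hm0 : 0 < m := by rw [hm]; exact mass_pos (pS_prime _) s
  rw [← hm] at h1 h2
  obtain ⟨Ng, hNg⟩ : ∃ Ng : ℝ, Ng = N2 M g := ⟨_, rfl⟩
  obtain ⟨Ngb, hNgb⟩ : ∃ Ngb : ℝ, Ngb = N2 (M * N) (cv g b) := ⟨_, rfl⟩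
  obtain ⟨Ne, hNe⟩ : ∃ Ne : ℝ, Ne = N2 M e := ⟨_, rfl⟩
  obtain ⟨Neb, hNeb⟩ : ∃ Neb : ℝ, Neb = N2 (M * N) (cv e b) := ⟨_, rfl⟩
  have hNe0 : 0 ≤ Ne := by rw [hNe]; exact Pool.Agent.Q86.UM.N2_nonneg _ _
  rw [← hNg] at h2 hi
  rw [← hNgb] at h1 hi
  rw [← hNe] at hi ⊢
  rw [← hNeb] at hi ⊢
  have hK := K1_one
  have hK0 : 0 < K1 := by linarith
  have hNg0 : 0 < Ng := by
    by_contra h
    have : 8 * K1 * Ng ≤ 0 := mul_nonpos_of_nonneg_of_nonpos (by positivity) (not_lt.1 h)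
    linarith [h2.1]
  constructor
  · have h4 : (E * Ne) * Ng ≤ (64 * K1 ^ 2 * Neb) * Ng := by
      calc (E * Ne) * Ng ≤ (E * Ne) * (8 * K1 * m) := mul_le_mul_of_nonneg_left h2.2 (by positivity)
        _ = 8 * K1 * Ne * (m * E) := by ring
        _ ≤ 8 * K1 * Ne * (8 * K1 * Ngb) := mul_le_mul_of_nonneg_left h1.1 (by positivity)
        _ = 64 * K1 ^ 2 * (Ngb * Ne) := by ring
        _ = 64 * K1 ^ 2 * (Neb * Ng) := by rw [hi]
        _ = _ := by ring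
    exact le_of_mul_le_mul_right h4 hNg0
  · have h4 : Neb * Ng ≤ (64 * K1 ^ 2 * (E * Ne)) * Ng := by
      calc Neb * Ng = Ngb * Ne := hi
        _ ≤ (8 * K1 * (m * E)) * Ne := mul_le_mul_of_nonneg_right h1.2 hNe0
        _ = (8 * K1 * E * Ne) * m := by ring
        _ ≤ (8 * K1 * E * Ne) * (8 * K1 * Ng) := mul_le_mul_of_nonneg_left h2.1 (by positivity)
        _ = _ := by ring
    exact le_of_mul_le_mul_right h4 hNg0

theorem zeta_one_ev : ∀ᶠ T : ℝ in atTop, Real.log T / 2 ≤ ‖riemannZeta (1 + 1 / Real.log T)‖ ∧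
    ‖riemannZeta (1 + 1 / Real.log T)‖ ≤ 2 * Real.log T := by
  have h1 : Tendsto (fun T : ℝ => (1 + 1 / (Real.log T : ℂ))) atTop (𝓝[≠] 1) := by
    rw [tendsto_nhdsWithin_iff]
    constructor
    · have h2 : Tendsto (fun T : ℝ => (1 / Real.log T : ℝ)) atTop (𝓝 0) := by
        have := Real.tendsto_log_atTop.inv_tendsto_atTop
        refine this.congr fun T => ?_
        rw [Pi.inv_apply, one_div]
      have h3 := (Complex.continuous_ofReal.tendsto 0).comp h2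
      have h4 := h3.const_add (1 : ℂ)
      rw [Complex.ofReal_zero, add_zero] at h4
      refine h4.congr fun T => ?_
      simp
    · filter_upwards [Real.tendsto_log_atTop.eventually_gt_atTop 0] with T hT
      simp only [Set.mem_compl_iff, Set.mem_singleton_iff, add_eq_left, one_div, inv_eq_zero]
      exact_mod_cast hT.ne'
  have h2 := (riemannZeta_residue_one.comp h1).norm
  rw [norm_one] at h2
  filter_upwards [h2.eventually (Ioo_mem_nhds (show (1 / 2 : ℝ) < 1 by norm_num) (show (1 : ℝ) < 2 by norm_num)),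
    Real.tendsto_log_atTop.eventually_gt_atTop 0] with T hT hL
  simp only [Function.comp_apply, add_sub_cancel_left, norm_mul, norm_div, norm_one, Complex.norm_real, Real.norm_of_nonneg hL.le] at hT
  obtain ⟨hT1, hT2⟩ := hT
  rw [one_div_mul_eq_div, lt_div_iff₀ hL] at hT1
  rw [one_div_mul_eq_div, div_lt_iff₀ hL] at hT2
  constructor
  · linarith
  · linarith

theorem order_one {s : ℝ} (hs0 : 0 ≤ s) (hs2 : s ≤ 2) : ∀ᶠ T : ℝ in atTop,
    Real.log T ^ (s ^ 2) ≤ 16 * order T (fun _ : Fin 1 => s) (fun _ => 0) ∧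
    order T (fun _ : Fin 1 => s) (fun _ => 0) ≤ 16 * Real.log T ^ (s ^ 2) := by
  filter_upwards [zeta_one_ev, Real.tendsto_log_atTop.eventually_gt_atTop 0] with T hT hL
  have h1 : order T (fun _ : Fin 1 => s) (fun _ => 0) = ‖riemannZeta (1 + 1 / Real.log T)‖ ^ (s ^ 2) := by
    unfold order
    rw [Fin.prod_univ_one, Fin.prod_univ_one, sq]
    simp
  rw [h1]
  have hs4 : s ^ 2 ≤ 4 := by nlinarith
  have h16 : (2 : ℝ) ^ (s ^ 2) ≤ 16 := by
    calc (2 : ℝ) ^ (s ^ 2) ≤ 2 ^ (4 : ℝ) := Real.rpow_le_rpow_of_exponent_le (by norm_num) hs4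
      _ = 16 := by norm_num
  constructor
  · calc Real.log T ^ (s ^ 2) = (2 * (Real.log T / 2)) ^ (s ^ 2) := by congr 1; ring
      _ = 2 ^ (s ^ 2) * (Real.log T / 2) ^ (s ^ 2) := Real.mul_rpow (by norm_num) (by positivity)
      _ ≤ 16 * ‖riemannZeta (1 + 1 / Real.log T)‖ ^ (s ^ 2) := by
          apply mul_le_mul h16 _ (by positivity) (by norm_num)
          exact Real.rpow_le_rpow (by positivity) hT.1 (sq_nonneg s)
  · calc ‖riemannZeta (1 + 1 / Real.log T)‖ ^ (s ^ 2) ≤ (2 * Real.log T) ^ (s ^ 2) :=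
          Real.rpow_le_rpow (norm_nonneg _) hT.2 (sq_nonneg s)
      _ = 2 ^ (s ^ 2) * Real.log T ^ (s ^ 2) := Real.mul_rpow (by norm_num) hL.le
      _ ≤ 16 * Real.log T ^ (s ^ 2) := mul_le_mul_of_nonneg_right h16 (by positivity)

theorem ztw_cont {s : ℝ} (hs0 : 0 ≤ s) : Continuous fun t : ℝ => ‖zt t‖ ^ (2 * s) :=
  ztc.norm.rpow_const fun _ => Or.inr (by linarith)

/-- **trigonometric polynomials of finitely many phases** -/
theorem phase_sq : ∃ c C : ℝ, 0 < c ∧ 0 ≤ C ∧ ∀ s : ℝ, 0 ≤ s → s ≤ 2 → ∀ (S : Finset Nat.Primes) (Q : C(UnitAddTorus S, ℂ)) (N : ℕ)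
    (b : ℕ → ℂ), (∀ n, b n ≠ 0 → 1 ≤ n ∧ n ≤ N) → (∀ t, ‖dp N b t‖ = ‖Q (ph (pS S) t)‖) → ∀ᶠ T : ℝ in atTop,
    c * ES s S (fun θ => ‖Q θ‖ ^ 2) * (T * Real.log T ^ (s ^ 2)) ≤ ∫ t in T..(2 * T), ‖zt t‖ ^ (2 * s) * ‖Q (ph (pS S) t)‖ ^ 2 ∧
    ∫ t in T..(2 * T), ‖zt t‖ ^ (2 * s) * ‖Q (ph (pS S) t)‖ ^ 2 ≤ C * ES s S (fun θ => ‖Q θ‖ ^ 2) * (T * Real.log T ^ (s ^ 2)) := by
  obtain ⟨κ, δ₀, hκ, hδ₀, h⟩ := ord4 1
  obtain ⟨hδ1, h26, θ, c₀, C₀, hθ, hθ8, hc, hC, hev⟩ := h δ₀ hδ₀ le_rfl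
  have hK := K1_one
  have hK0 : 0 < K1 := by linarith
  refine ⟨c₀ * c₀ / (1024 * K1 ^ 2), 1024 * K1 ^ 2 * (C₀ * C₀), by positivity, by positivity, fun s hs0 hs2 S Q N b hb hbQ => ?_⟩
  -- enlarge the length
  obtain ⟨N', hN'⟩ : ∃ N' : ℕ, N' = max N (S.sup fun q => (q : ℕ)) := ⟨_, rfl⟩
  have hNN' : N ≤ N' := by rw [hN']; exact le_max_left _ _
  have hSN' : ∀ q ∈ S, (q : ℕ) ≤ N' := fun q hq => by
    rw [hN']
    exact (Finset.le_sup (f := fun q : Nat.Primes => (q : ℕ)) hq).trans (le_max_right _ _)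
  have hb' : ∀ n, b n ≠ 0 → 1 ≤ n ∧ n ≤ N' := fun n hn => ⟨(hb n hn).1, (hb n hn).2.trans hNN'⟩
  have hbQ' : ∀ t, ‖dp N' b t‖ = ‖Q (ph (pS S) t)‖ := fun t => by rw [dp_ext hb hNN', hbQ]
  have hr := ratio_small hs0 hs2 hκ Q hSN' hb' hbQ'
  have hD : Tendsto (fun T : ℝ => δ₀ * Real.log T) atTop atTop := Real.tendsto_log_atTop.const_mul_atTop hδ₀
  filter_upwards [hev, hD.eventually hr, order_one hs0 hs2, (tendsto_rpow_atTop hθ).eventually_ge_atTop (N' : ℝ),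
    eventually_ge_atTop (16 : ℝ), Real.tendsto_log_atTop.eventually_gt_atTop 0] with T g1 g2 g3 g4 hT16 hL
  have hT0 : 0 < T := by linarith
  obtain ⟨i1, i2, -, -, i3⟩ := g1 (fun _ : Fin 1 => s) (fun _ => 0) (fun _ => hs0) (by rw [Fin.sum_univ_one]; exact hs2)
    (fun _ => by rw [abs_zero]; linarith)
  obtain ⟨j1, j2⟩ := i3 N' g4 b hb'
  have hap : ap (fun _ : Fin 1 => s) (fun _ => 0) = fun _ => (s : ℂ) := by
    funext p
    unfold ap
    simp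
  have hap2 : ap (fun _ : Fin 1 => s) (fun _ => 2 * 0) = fun _ => (s : ℂ) := by
    rw [← hap]
    simp
  have heo : eo δ₀ κ T (fun _ : Fin 1 => s) (fun _ => 0) =
      ebk (δ₀ * Real.log T) κ (fun _ => (s : ℂ)) (fun _ => (s : ℂ)) 0 (JB (δ₀ * Real.log T)) := by
    unfold eo
    rw [hap2, hap]
  obtain ⟨e, he⟩ : ∃ e : ℕ → ℂ, e = eo δ₀ κ T (fun _ : Fin 1 => s) (fun _ => 0) := ⟨_, rfl⟩
  obtain ⟨M, hM⟩ : ∃ M : ℕ, M = eM δ₀ κ T := ⟨_, rfl⟩
  have hM' : M9 (δ₀ * Real.log T) κ = M := by rw [hM]; rfl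
  rw [← heo, ← he, hM'] at g2
  rw [← he, ← hM] at i1 i2 j1 j2
  have hzpr : ∀ t, zpr (fun _ : Fin 1 => s) (fun _ => 0) t = ‖zt t‖ ^ (2 * s) := fun t => by
    unfold zpr
    rw [Fin.prod_univ_one, add_zero]
  have hint : ∫ t in T..(2 * T), zpr (fun _ : Fin 1 => s) (fun _ => 0) t * ‖dp N' b t‖ ^ 2 =
      ∫ t in T..(2 * T), ‖zt t‖ ^ (2 * s) * ‖Q (ph (pS S) t)‖ ^ 2 := by
    congr 1
    funext t
    rw [hzpr, hbQ']
  rw [hint] at j1 j2
  obtain ⟨E, hE⟩ : ∃ E : ℝ, E = ES s S (fun θ => ‖Q θ‖ ^ 2) := ⟨_, rfl⟩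
  have hE0 : 0 ≤ E := by
    rw [hE]
    exact ES_nonneg _ _ fun θ => by positivity
  rw [← hE] at g2 ⊢
  obtain ⟨O, hO⟩ : ∃ O : ℝ, O = order T (fun _ : Fin 1 => s) (fun _ => 0) := ⟨_, rfl⟩
  rw [← hO] at g3 i1 i2
  obtain ⟨L, hLd⟩ : ∃ L : ℝ, L = Real.log T ^ (s ^ 2) := ⟨_, rfl⟩
  rw [← hLd] at g3 ⊢
  have hL0 : 0 ≤ L := by rw [hLd]; positivity
  have hO0 : 0 ≤ O := by linarith [g3.1]
  constructor
  · refine le_trans ?_ j1
    have h1 : E * (c₀ * O) ≤ 64 * K1 ^ 2 * N2 (M * N') (cv e b) := (mul_le_mul_of_nonneg_left i1 hE0).trans g2.1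
    have h2 : E * (c₀ * (L / 16)) ≤ 64 * K1 ^ 2 * N2 (M * N') (cv e b) := by
      refine le_trans ?_ h1
      apply mul_le_mul_of_nonneg_left _ hE0
      apply mul_le_mul_of_nonneg_left _ hc.le
      linarith [g3.1]
    calc c₀ * c₀ / (1024 * K1 ^ 2) * E * (T * L) = c₀ * T / (64 * K1 ^ 2) * (E * (c₀ * (L / 16))) := by
          field_simp
          ring
      _ ≤ c₀ * T / (64 * K1 ^ 2) * (64 * K1 ^ 2 * N2 (M * N') (cv e b)) := mul_le_mul_of_nonneg_left h2 (by positivity)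
      _ = _ := by field_simp
  · refine j2.trans ?_
    calc C₀ * T * N2 (M * N') (cv e b) ≤ C₀ * T * (64 * K1 ^ 2 * (E * (C₀ * (16 * L)))) := by
          apply mul_le_mul_of_nonneg_left _ (by positivity)
          refine g2.2.trans ?_
          apply mul_le_mul_of_nonneg_left _ (by positivity)
          apply mul_le_mul_of_nonneg_left _ hE0
          refine i2.trans ?_
          exact mul_le_mul_of_nonneg_left g3.2 hC
      _ = _ := by ring

/-- **continuous functions of finitely many phases** -/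
theorem phase_fin : ∃ c C : ℝ, 0 < c ∧ 0 ≤ C ∧ ∀ s : ℝ, 0 ≤ s → s ≤ 2 → ∀ (S : Finset Nat.Primes) (G : C(UnitAddTorus S, ℝ)),
    (∀ θ, 0 ≤ G θ) → ∀ ε : ℝ, 0 < ε → ∀ᶠ T : ℝ in atTop,
    (c * ES s S G - ε) * (T * Real.log T ^ (s ^ 2)) ≤ ∫ t in T..(2 * T), ‖zt t‖ ^ (2 * s) * G (ph (pS S) t) ∧
    ∫ t in T..(2 * T), ‖zt t‖ ^ (2 * s) * G (ph (pS S) t) ≤ (C * ES s S G + ε) * (T * Real.log T ^ (s ^ 2)) := by
  obtain ⟨c, C, hc, hC, h⟩ := phase_sq
  refine ⟨c, C, hc, hC, fun s hs0 hs2 S G hG ε hε => ?_⟩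
  obtain ⟨η, hη⟩ : ∃ η : ℝ, η = ε / (2 * C + c + 1) := ⟨_, rfl⟩
  have hη0 : 0 < η := by rw [hη]; positivity
  have hη1 : η * (2 * C + c + 1) = ε := by rw [hη]; field_simp
  obtain ⟨Q, N, b, hb, hQ, hbQ⟩ := approx_sq (pS_prime S) G hG hη0
  have h1 := h s hs0 hs2 S Q N b hb hbQ
  have h2 := h s hs0 hs2 S (1 : C(UnitAddTorus S, ℂ)) 1 (fun n => if n = 1 then 1 else 0) (fun n hn => by
      have : n = 1 := by
        by_contra h
        exact hn (if_neg h)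
      omega) (fun t => by
      unfold dp
      simp)
  have h3 : ES s S (fun θ => ‖(1 : C(UnitAddTorus S, ℂ)) θ‖ ^ 2) = 1 := by
    have e1 : (fun θ : UnitAddTorus S => ‖(1 : C(UnitAddTorus S, ℂ)) θ‖ ^ 2) = fun _ => (1 : ℝ) := by
      funext θ
      simp
    rw [e1, ES_const]
  rw [h3] at h2
  filter_upwards [h1, h2, eventually_gt_atTop (0 : ℝ), Real.tendsto_log_atTop.eventually_gt_atTop 0] with T g1 g2 hT0 hL
  obtain ⟨W, hW⟩ : ∃ W : ℝ, W = T * Real.log T ^ (s ^ 2) := ⟨_, rfl⟩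
  have hW0 : 0 ≤ W := by rw [hW]; positivity
  rw [← hW] at g1 g2 ⊢
  have hwc := ztw_cont hs0
  have hi1 : IntervalIntegrable (fun t => ‖zt t‖ ^ (2 * s)) volume T (2 * T) := hwc.intervalIntegrable _ _
  have hi2 : IntervalIntegrable (fun t => ‖zt t‖ ^ (2 * s) * ‖Q (ph (pS S) t)‖ ^ 2) volume T (2 * T) :=
    (hwc.mul ((Q.continuous.comp (ph_cont _)).norm.pow 2)).intervalIntegrable _ _
  have hi3 : IntervalIntegrable (fun t => ‖zt t‖ ^ (2 * s) * G (ph (pS S) t)) volume T (2 * T) :=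
    (hwc.mul (G.continuous.comp (ph_cont _))).intervalIntegrable _ _
  have hone : ∫ t in T..(2 * T), ‖zt t‖ ^ (2 * s) * ‖(1 : C(UnitAddTorus S, ℂ)) (ph (pS S) t)‖ ^ 2 =
      ∫ t in T..(2 * T), ‖zt t‖ ^ (2 * s) := by
    congr 1
    funext t
    simp
  rw [hone] at g2
  have hw0 : ∀ t, 0 ≤ ‖zt t‖ ^ (2 * s) := fun t => by positivity
  have hEQ1 : ES s S (fun θ => ‖Q θ‖ ^ 2) ≤ ES s S G + η :=
    ES_mono s S ⟨fun θ => ‖Q θ‖ ^ 2, Q.continuous.norm.pow 2⟩ G fun θ => by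
      have := (abs_le.1 (hQ θ)).2
      show ‖Q θ‖ ^ 2 ≤ G θ + η
      linarith
  have hEQ2 : ES s S G ≤ ES s S (fun θ => ‖Q θ‖ ^ 2) + η :=
    ES_mono s S G ⟨fun θ => ‖Q θ‖ ^ 2, Q.continuous.norm.pow 2⟩ fun θ => by
      have := (abs_le.1 (hQ θ)).1
      show G θ ≤ ‖Q θ‖ ^ 2 + η
      linarith
  have hup : ∫ t in T..(2 * T), ‖zt t‖ ^ (2 * s) * G (ph (pS S) t) ≤
      (∫ t in T..(2 * T), ‖zt t‖ ^ (2 * s) * ‖Q (ph (pS S) t)‖ ^ 2) + η * ∫ t in T..(2 * T), ‖zt t‖ ^ (2 * s) := by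
    rw [← intervalIntegral.integral_const_mul, ← intervalIntegral.integral_add hi2 (hi1.const_mul η)]
    refine intervalIntegral.integral_mono_on (by linarith) hi3 (hi2.add (hi1.const_mul η)) fun t _ => ?_
    have h5 := (abs_le.1 (hQ (ph (pS S) t))).1
    have h6 := mul_le_mul_of_nonneg_left (show G (ph (pS S) t) ≤ ‖Q (ph (pS S) t)‖ ^ 2 + η by linarith) (hw0 t)
    linarith
  have hlo : (∫ t in T..(2 * T), ‖zt t‖ ^ (2 * s) * ‖Q (ph (pS S) t)‖ ^ 2) - η * ∫ t in T..(2 * T), ‖zt t‖ ^ (2 * s) ≤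
      ∫ t in T..(2 * T), ‖zt t‖ ^ (2 * s) * G (ph (pS S) t) := by
    rw [← intervalIntegral.integral_const_mul, ← intervalIntegral.integral_sub hi2 (hi1.const_mul η)]
    refine intervalIntegral.integral_mono_on (by linarith) (hi2.sub (hi1.const_mul η)) hi3 fun t _ => ?_
    have h5 := (abs_le.1 (hQ (ph (pS S) t))).2
    have h6 := mul_le_mul_of_nonneg_left (show ‖Q (ph (pS S) t)‖ ^ 2 - η ≤ G (ph (pS S) t) by linarith) (hw0 t)
    linarith
  have hm : η * ∫ t in T..(2 * T), ‖zt t‖ ^ (2 * s) ≤ η * (C * 1 * W) := mul_le_mul_of_nonneg_left g2.2 hη0.le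
  constructor
  · refine le_trans ?_ hlo
    have h7 : c * (ES s S G - η) * W ≤ ∫ t in T..(2 * T), ‖zt t‖ ^ (2 * s) * ‖Q (ph (pS S) t)‖ ^ 2 := by
      refine le_trans ?_ g1.1
      apply mul_le_mul_of_nonneg_right _ hW0
      exact mul_le_mul_of_nonneg_left (by linarith) hc.le
    have h8 : (c * ES s S G - ε) * W ≤ c * (ES s S G - η) * W - η * (C * 1 * W) := by
      have h9 : (c * ES s S G - ε) * W = c * ES s S G * W - η * (2 * C + c + 1) * W := by rw [hη1]; ring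
      rw [h9]
      have h10 : 0 ≤ η * W := by positivity
      have h11 : 0 ≤ C * (η * W) := by positivity
      nlinarith
    linarith
  · refine hup.trans ?_
    have h7 : ∫ t in T..(2 * T), ‖zt t‖ ^ (2 * s) * ‖Q (ph (pS S) t)‖ ^ 2 ≤ C * (ES s S G + η) * W := by
      refine g1.2.trans ?_
      apply mul_le_mul_of_nonneg_right _ hW0
      exact mul_le_mul_of_nonneg_left hEQ1 hC
    have h8 : C * (ES s S G + η) * W + η * (C * 1 * W) ≤ (C * ES s S G + ε) * W := by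
      have h9 : (C * ES s S G + ε) * W = C * ES s S G * W + η * (2 * C + c + 1) * W := by rw [hη1]; ring
      rw [h9]
      have h10 : 0 ≤ η * W := by positivity
      have h11 : 0 ≤ c * (η * W) := by positivity
      nlinarith
    linarith

/-- the mean value over the law of all the phases -/
def EI (s : ℝ) (G : (Nat.Primes → ℂ) → ℝ) : ℝ :=
  ∫ x, G (fun p => ex (x p)) ∂(Measure.infinitePi fun p : Nat.Primes => law s p)

/-- the phases of all the primes -/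
def zp (t : ℝ) (p : Nat.Primes) : ℂ := ((p : ℕ) : ℂ) ^ ((t : ℂ) * I)

theorem zp_norm (t : ℝ) (p : Nat.Primes) : ‖zp t p‖ = 1 := by
  unfold zp
  rw [Complex.norm_natCast_cpow_of_pos p.2.pos]
  simp

theorem zp_cont : Continuous zp := by
  refine continuous_pi fun p => ?_
  unfold zp
  exact Continuous.const_cpow (by fun_prop) (Or.inl (by exact_mod_cast p.2.ne_zero))

theorem G_bdd {G : (Nat.Primes → ℂ) → ℝ} (hG : Continuous G) : ∃ C : ℝ, ∀ z : Nat.Primes → ℂ, (∀ i, ‖z i‖ = 1) → |G z| ≤ C := by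
  have hK : IsCompact (Set.univ.pi fun _ : Nat.Primes => Metric.closedBall (0 : ℂ) 1) :=
    isCompact_univ_pi fun _ => isCompact_closedBall _ _
  obtain ⟨C, hC⟩ := hK.exists_bound_of_continuousOn hG.continuousOn
  exact ⟨C, fun z hz => hC z fun i _ => by simp [hz i]⟩

theorem EI_int (s : ℝ) {G : (Nat.Primes → ℂ) → ℝ} (hG : Continuous G) :
    Integrable (fun x : Nat.Primes → ℝ => G (fun p => ex (x p))) (Measure.infinitePi fun p : Nat.Primes => law s p) := by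
  have := fun p : Nat.Primes => law_prob (s := s) p.2
  obtain ⟨C, hC⟩ := G_bdd hG
  refine (integrable_const (C : ℝ)).mono'
    (hG.comp (continuous_pi fun j => ex_cont.comp (continuous_apply j))).aestronglyMeasurable
    (Eventually.of_forall fun x => hC _ fun i => ex_norm _)

/-- **continuous functions of all the phases** -/
theorem phase_all : ∃ c C : ℝ, 0 < c ∧ 0 ≤ C ∧ ∀ s : ℝ, 0 ≤ s → s ≤ 2 → ∀ G : (Nat.Primes → ℂ) → ℝ, Continuous G →
    (∀ z, 0 ≤ G z) → ∀ ε : ℝ, 0 < ε → ∀ᶠ T : ℝ in atTop,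
    (c * EI s G - ε) * (T * Real.log T ^ (s ^ 2)) ≤ ∫ t in T..(2 * T), ‖zt t‖ ^ (2 * s) * G (zp t) ∧
    ∫ t in T..(2 * T), ‖zt t‖ ^ (2 * s) * G (zp t) ≤ (C * EI s G + ε) * (T * Real.log T ^ (s ^ 2)) := by
  obtain ⟨c, C, hc, hC, h⟩ := phase_fin
  refine ⟨c, C, hc, hC, fun s hs0 hs2 G hGc hG0 ε hε => ?_⟩
  have hlp := fun p : Nat.Primes => law_prob (s := s) p.2
  obtain ⟨η, hη⟩ : ∃ η : ℝ, η = ε / (4 * (C + c + 1)) := ⟨_, rfl⟩
  have hη0 : 0 < η := by rw [hη]; positivity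
  have hη1 : η * (4 * (C + c + 1)) = ε := by rw [hη]; field_simp
  obtain ⟨S, hS⟩ := cut_approx (G := fun z => ((G z : ℝ) : ℂ)) (Complex.continuous_ofReal.comp hGc) hη0
  have hS' : ∀ z : Nat.Primes → ℂ, (∀ i, ‖z i‖ = 1) → |G z - G (cut S (fun i => z i))| ≤ η := fun z hz => by
    have := hS z hz
    rwa [← Complex.ofReal_sub, Complex.norm_real, Real.norm_eq_abs] at this
  obtain ⟨GS, hGS⟩ : ∃ GS : C(UnitAddTorus S, ℝ), ∀ θ, GS θ = G (cut S (fun j => fourier 1 (θ j))) :=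
    ⟨⟨fun θ => G (cut S (fun j => fourier 1 (θ j))), hGc.comp ((cut_cont S).comp (continuous_pi fun j => by fun_prop))⟩,
      fun _ => rfl⟩
  have hGS0 : ∀ θ, 0 ≤ GS θ := fun θ => by rw [hGS]; exact hG0 _
  have hph : ∀ t, |G (zp t) - GS (ph (pS S) t)| ≤ η := fun t => by
    have h1 := hS' (zp t) (zp_norm t)
    have h2 : GS (ph (pS S) t) = G (cut S (fun i => zp t i)) := by
      rw [hGS]
      congr 2
      funext j
      exact fph _ (pS_prime S j).pos t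
    rw [h2]
    exact h1
  have hE : |EI s G - ES s S GS| ≤ η := by
    rw [ES_infinite s S GS]
    unfold EI
    have hi2 : Integrable (fun x : Nat.Primes → ℝ => GS (fun j : S => ((x (j : Nat.Primes) : ℝ) : UnitAddCircle)))
        (Measure.infinitePi fun p : Nat.Primes => law s p) := by
      refine (integrable_const (‖GS‖ : ℝ)).mono' ?_ (Eventually.of_forall fun x => GS.norm_coe_le_norm _)
      refine (GS.continuous.comp (continuous_pi fun j => ?_)).aestronglyMeasurable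
      exact (AddCircle.continuous_mk' 1).comp (continuous_apply (j : Nat.Primes))
    rw [← integral_sub (EI_int s hGc) hi2, ← Real.norm_eq_abs]
    refine (norm_integral_le_of_norm_le_const (C := η) (Eventually.of_forall fun x => ?_)).trans (by simp)
    rw [Real.norm_eq_abs]
    have h1 := hS' (fun p => ex (x p)) fun i => ex_norm _
    have h2 : GS (fun j : S => ((x (j : Nat.Primes) : ℝ) : UnitAddCircle)) = G (cut S (fun i : S => ex (x i))) := by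
      rw [hGS]
      congr 2
      funext j
      rw [fourier_ex]
      congr 1
      push_cast
      ring
    rw [h2]
    exact h1
  rw [abs_le] at hE
  have hone := h s hs0 hs2 S (1 : C(UnitAddTorus S, ℝ)) (fun θ => by simp) 1 one_pos
  have h1c : ES s S (1 : C(UnitAddTorus S, ℝ)) = 1 := ES_const s S 1
  rw [h1c] at hone
  obtain ⟨ε', hε'⟩ : ∃ ε' : ℝ, ε' = ε / 4 := ⟨_, rfl⟩
  filter_upwards [h s hs0 hs2 S GS hGS0 (ε / 4) (by positivity), hone, eventually_gt_atTop (0 : ℝ),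
    Real.tendsto_log_atTop.eventually_gt_atTop 0] with T g1 g2 hT0 hL
  obtain ⟨W, hW⟩ : ∃ W : ℝ, W = T * Real.log T ^ (s ^ 2) := ⟨_, rfl⟩
  have hW0 : 0 ≤ W := by rw [hW]; positivity
  rw [← hW] at g1 g2 ⊢
  have hwc := ztw_cont hs0
  have hi1 : IntervalIntegrable (fun t => ‖zt t‖ ^ (2 * s)) volume T (2 * T) := hwc.intervalIntegrable _ _
  have hi2 : IntervalIntegrable (fun t => ‖zt t‖ ^ (2 * s) * GS (ph (pS S) t)) volume T (2 * T) :=
    (hwc.mul (GS.continuous.comp (ph_cont _))).intervalIntegrable _ _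
  have hi3 : IntervalIntegrable (fun t => ‖zt t‖ ^ (2 * s) * G (zp t)) volume T (2 * T) :=
    (hwc.mul (hGc.comp zp_cont)).intervalIntegrable _ _
  have hone : ∫ t in T..(2 * T), ‖zt t‖ ^ (2 * s) * (1 : C(UnitAddTorus S, ℝ)) (ph (pS S) t) =
      ∫ t in T..(2 * T), ‖zt t‖ ^ (2 * s) := by
    congr 1
    funext t
    simp
  rw [hone] at g2
  have hw0 : ∀ t, 0 ≤ ‖zt t‖ ^ (2 * s) := fun t => by positivity
  have hup : ∫ t in T..(2 * T), ‖zt t‖ ^ (2 * s) * G (zp t) ≤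
      (∫ t in T..(2 * T), ‖zt t‖ ^ (2 * s) * GS (ph (pS S) t)) + η * ∫ t in T..(2 * T), ‖zt t‖ ^ (2 * s) := by
    rw [← intervalIntegral.integral_const_mul, ← intervalIntegral.integral_add hi2 (hi1.const_mul η)]
    refine intervalIntegral.integral_mono_on (by linarith) hi3 (hi2.add (hi1.const_mul η)) fun t _ => ?_
    have h5 := (abs_le.1 (hph t)).2
    have h6 := mul_le_mul_of_nonneg_left (show G (zp t) ≤ GS (ph (pS S) t) + η by linarith) (hw0 t)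
    linarith
  have hlo : (∫ t in T..(2 * T), ‖zt t‖ ^ (2 * s) * GS (ph (pS S) t)) - η * ∫ t in T..(2 * T), ‖zt t‖ ^ (2 * s) ≤
      ∫ t in T..(2 * T), ‖zt t‖ ^ (2 * s) * G (zp t) := by
    rw [← intervalIntegral.integral_const_mul, ← intervalIntegral.integral_sub hi2 (hi1.const_mul η)]
    refine intervalIntegral.integral_mono_on (by linarith) (hi2.sub (hi1.const_mul η)) hi3 fun t _ => ?_
    have h5 := (abs_le.1 (hph t)).1
    have h6 := mul_le_mul_of_nonneg_left (show GS (ph (pS S) t) - η ≤ G (zp t) by linarith) (hw0 t)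
    linarith
  have hm : η * ∫ t in T..(2 * T), ‖zt t‖ ^ (2 * s) ≤ η * ((C * 1 + 1) * W) := mul_le_mul_of_nonneg_left g2.2 hη0.le
  have hcη : c * (EI s G - η) ≤ c * ES s S GS := mul_le_mul_of_nonneg_left (by linarith) hc.le
  have hCη : C * ES s S GS ≤ C * (EI s G + η) := mul_le_mul_of_nonneg_left (by linarith) hC
  have hfin : c * η + η * (C * 1 + 1) + ε / 4 ≤ ε ∧ C * η + η * (C * 1 + 1) + ε / 4 ≤ ε := by
    have h0 : η * (4 * (C + c + 1)) = 4 * (η * C) + 4 * (η * c) + 4 * η := by ring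
    have h1 : 0 ≤ η * C := by positivity
    have h2 : 0 < η * c := by positivity
    have h3 : c * η = η * c := mul_comm _ _
    have h4 : C * η = η * C := mul_comm _ _
    constructor
    · linarith
    · linarith
  constructor
  · refine le_trans ?_ hlo
    have h7 : (c * EI s G - ε) * W ≤ (c * ES s S GS - ε / 4) * W - η * ((C * 1 + 1) * W) := by
      have h8 : (c * ES s S GS - ε / 4) * W - η * ((C * 1 + 1) * W) = (c * ES s S GS - ε / 4 - η * (C * 1 + 1)) * W := by ring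
      rw [h8]
      apply mul_le_mul_of_nonneg_right _ hW0
      linarith [hfin.1]
    linarith [g1.1]
  · refine hup.trans ?_
    have h7 : (C * ES s S GS + ε / 4) * W + η * ((C * 1 + 1) * W) ≤ (C * EI s G + ε) * W := by
      have h8 : (C * ES s S GS + ε / 4) * W + η * ((C * 1 + 1) * W) = (C * ES s S GS + ε / 4 + η * (C * 1 + 1)) * W := by ring
      rw [h8]
      apply mul_le_mul_of_nonneg_right _ hW0
      linarith [hfin.2]
    linarith [g1.2]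

end

end Pool.Agent.H469.F4
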