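import Pool.Agent.H469.F4.M9
import Pool.Agent.H469.F4.PHB
import Pool.Graph.R_pool_sql_team_seeded_620a6dc7.Helper156_SP.Der8
import Pool.Graph.R_pool_sql_team_seeded_2aa45f1a.Q231.RS.Weyl

set_option autoImplicit false

/-!
# One-point moments, the local inequality, and a pointwise bound
-/

namespace Pool.Agent.H469.F4

open Filter Topology MeasureTheory Complex Pool.Agent.Q97.UM
open Pool.Agent.Results.MP_fa2474_nt.OrderForEveryPolynomial (order)

noncomputable section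

theorem order_shift (T : ℝ) (s u : ℝ) : order T (fun _ : Fin 1 => s) (fun _ => u) = order T (fun _ : Fin 1 => s) (fun _ => 0) := by
  unfold order
  simp

/-- the indicator of one -/
def d1 : ℕ → ℂ := fun m => if m = 1 then 1 else 0

theorem dp_d1 (t : ℝ) : ‖dp 1 d1 t‖ = 1 := by
  unfold dp d1
  simp

theorem cv_d1 {e : ℕ → ℂ} (he : ∀ m, e m ≠ 0 → 1 ≤ m) : cv e d1 = e := by
  funext n
  unfold cv d1
  rcases Nat.eq_zero_or_pos n with h | h
  · subst h
    rw [Nat.divisorsAntidiagonal_zero, Finset.sum_empty]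
    by_contra hne
    have := he 0 (fun h => hne h.symm)
    omega
  · rw [Finset.sum_eq_single (n, 1)]
    · simp
    · rintro ⟨a, b⟩ hb hne
      rw [Nat.mem_divisorsAntidiagonal] at hb
      by_cases h1 : b = 1
      · exfalso
        apply hne
        rw [h1] at hb ⊢
        simp only at hb
        rw [← hb.1, mul_one]
      · simp [h1]
    · intro hn
      exfalso
      apply hn
      rw [Nat.mem_divisorsAntidiagonal]
      simp
      omega

/-- **one-point moments on dyadic intervals** -/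
theorem one_pt {β : ℝ} (hβ0 : 0 ≤ β) (hβ4 : β ≤ 4) : ∃ c C : ℝ, 0 < c ∧ 0 < C ∧ ∀ᶠ T : ℝ in atTop, ∀ u : ℝ, |u| ≤ T / 2 →
    c * T * Real.log T ^ (β ^ 2 / 4) ≤ ∫ t in T..(2 * T), fz β (t + u) ∧
    ∫ t in T..(2 * T), fz β (t + u) ≤ C * T * Real.log T ^ (β ^ 2 / 4) := by
  obtain ⟨κ, δ₀, hκ, hδ₀, h⟩ := ord4 1
  obtain ⟨hδ1, h26, θ, c₀, C₀, hθ, hθ8, hc, hC, hev⟩ := h δ₀ hδ₀ le_rfl
  obtain ⟨s, hs⟩ : ∃ s : ℝ, s = β / 2 := ⟨_, rfl⟩
  have hs0 : 0 ≤ s := by rw [hs]; positivity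
  have hs2 : s ≤ 2 := by rw [hs]; linarith
  refine ⟨c₀ * (c₀ / 16), (C₀ + 1) * ((C₀ + 1) * 16), by positivity, by positivity, ?_⟩
  filter_upwards [hev, order_one hs0 hs2, (tendsto_rpow_atTop hθ).eventually_ge_atTop (1 : ℝ),
    eventually_ge_atTop (16 : ℝ), Real.tendsto_log_atTop.eventually_gt_atTop 0] with T g1 g3 g4 hT16 hL u hu
  have hT0 : 0 < T := by linarith
  obtain ⟨f1, f2, f3, f4, f5⟩ := g1 (fun _ : Fin 1 => s) (fun _ => u) (fun _ => hs0) (by simpa using hs2) (fun _ => hu)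
  obtain ⟨f6, f7⟩ := f5 1 (by simpa using g4) d1 (fun m hm => by
    unfold d1 at hm
    by_cases h : m = 1
    · omega
    · simp [h] at hm)
  rw [order_shift] at f1 f2
  obtain ⟨M, hM⟩ : ∃ M : ℕ, M = eM δ₀ κ T := ⟨_, rfl⟩
  obtain ⟨e, he⟩ : ∃ e : ℕ → ℂ, e = eo δ₀ κ T (fun _ : Fin 1 => s) (fun _ => u) := ⟨_, rfl⟩
  rw [← hM, ← he] at f1 f2 f3 f6 f7
  have hcv : cv e d1 = e := cv_d1 (fun m hm => (f3 m hm).1)
  have hzp : ∀ t, zpr (fun _ : Fin 1 => s) (fun _ => u) t * ‖dp 1 d1 t‖ ^ 2 = fz β (t + u) := by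
    intro t
    rw [dp_d1]
    unfold zpr fz
    rw [Fin.prod_univ_one, one_pow, mul_one]
    congr 1
    rw [hs]
    ring
  have hI : ∫ t in T..(2 * T), zpr (fun _ : Fin 1 => s) (fun _ => u) t * ‖dp 1 d1 t‖ ^ 2 = ∫ t in T..(2 * T), fz β (t + u) :=
    intervalIntegral.integral_congr fun t _ => hzp t
  rw [hI, hcv, mul_one] at f6 f7
  have hs4 : s ^ 2 = β ^ 2 / 4 := by rw [hs]; ring
  rw [hs4] at g3
  constructor
  · calc c₀ * (c₀ / 16) * T * Real.log T ^ (β ^ 2 / 4) = c₀ * T * (c₀ * (Real.log T ^ (β ^ 2 / 4) / 16)) := by ring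
      _ ≤ c₀ * T * N2 M e := by
          apply mul_le_mul_of_nonneg_left _ (by positivity)
          refine le_trans ?_ f1
          apply mul_le_mul_of_nonneg_left _ hc.le
          linarith [g3.1]
      _ ≤ _ := f6
  · calc ∫ t in T..(2 * T), fz β (t + u) ≤ C₀ * T * N2 M e := f7
      _ ≤ C₀ * T * (C₀ * (16 * Real.log T ^ (β ^ 2 / 4))) := by
          apply mul_le_mul_of_nonneg_left _ (by positivity)
          refine f2.trans ?_
          apply mul_le_mul_of_nonneg_left _ hC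
          exact g3.2
      _ ≤ (C₀ + 1) * T * ((C₀ + 1) * (16 * Real.log T ^ (β ^ 2 / 4))) := by
          have : 0 ≤ Real.log T ^ (β ^ 2 / 4) := by positivity
          gcongr <;> linarith
      _ = _ := by ring

/-- **the local inequality** -/
theorem loc_sup {p : ℝ} (hp : 0 < p) : ∃ W : ℕ, ∃ δ C : ℝ, 0 < δ ∧ 0 < C ∧ ∀ᶠ T : ℝ in atTop, ∀ τ : ℝ, T / 2 ≤ τ → τ ≤ 4 * T →
    fz p τ ≤ C * T ^ (-δ) + C * Real.log T * ∫ y in (-(W : ℝ))..W, fz p (τ + y) := by
  obtain ⟨W, δ, K, T₁, hW, hδ, hK, hT1, hT1W, h⟩ := Pool.Agent.Helper156_SP.der_up 0 hp (κ := 1 / 2) (by norm_num)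
  obtain ⟨W', hW'⟩ := exists_nat_ge W
  refine ⟨W', δ, max (K * 2 ^ δ) (3 * K), hδ, by positivity, ?_⟩
  filter_upwards [eventually_ge_atTop (2 * T₁), eventually_ge_atTop (16 : ℝ)] with T hT hT16 τ hτ1 hτ2
  have hT0 : 0 < T := by linarith
  have hτ0 : 0 < τ := by linarith
  have hlog : (1 / 2 : ℝ) * Real.log (4 * T) ≤ Real.log τ := by
    have h1 : Real.log (T / 2) ≤ Real.log τ := Real.log_le_log (by positivity) hτ1
    have h2 : Real.log (4 * T) = Real.log 4 + Real.log T := Real.log_mul (by norm_num) hT0.ne'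
    have h3 : Real.log (T / 2) = Real.log T - Real.log 2 := Real.log_div hT0.ne' (by norm_num)
    have h4 : Real.log 4 = 2 * Real.log 2 := by
      rw [show (4 : ℝ) = 2 ^ 2 by norm_num, Real.log_pow]; norm_num
    have h5 : 4 * Real.log 2 ≤ Real.log T := by
      rw [show 4 * Real.log 2 = Real.log 16 by
        rw [show (16 : ℝ) = 2 ^ 4 by norm_num, Real.log_pow]; norm_num]
      exact Real.log_le_log (by norm_num) hT16
    linarith
  have h1 := h (4 * T) τ (by linarith) hτ2 hlog 1 (fun _ => 0) (fun _ => p) (by simp) (fun _ => hp.le) (by simp)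
  rw [Fin.prod_univ_one, Fin.sum_univ_one] at h1
  have e1 : ((0 : ℕ) : ℝ) * p = 0 := by simp
  simp only [e1, Real.rpow_zero, one_mul] at h1
  have e2 : ∀ x : ℝ, Pool.Agent.Helper156_SP.az x ^ p = fz p x := fun x => rfl
  have e3 : Pool.Agent.Helper156_SP.dz 0 τ ^ p = fz p τ := rfl
  rw [e3] at h1
  simp only [e2] at h1
  refine h1.trans ?_
  have hfc : Continuous fun y : ℝ => fz p (τ + y) := (fz_cont hp.le).comp (by fun_prop)
  have hlog4 : Real.log (4 * T) ≤ 3 * Real.log T := by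
    rw [Real.log_mul (by norm_num) hT0.ne']
    have : Real.log 4 ≤ Real.log T := Real.log_le_log (by norm_num) (by linarith)
    have h0 : 0 ≤ Real.log T := Real.log_nonneg (by linarith)
    linarith
  have hlog0 : 0 ≤ Real.log T := Real.log_nonneg (by linarith)
  have hI1 : ∫ y in (-W)..W, ((1 + 1 / 2 * Real.log (4 * T) * |y|) ^ 2)⁻¹ * fz p (τ + y) ≤ ∫ y in (-W)..W, fz p (τ + y) := by
    have hwc : Continuous fun y : ℝ => ((1 + 1 / 2 * Real.log (4 * T) * |y|) ^ 2)⁻¹ := by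
      have hl : 0 ≤ Real.log (4 * T) := Real.log_nonneg (by linarith)
      apply Continuous.inv₀ (by fun_prop)
      intro y
      positivity
    refine intervalIntegral.integral_mono_on (by linarith) ((hwc.mul hfc).intervalIntegrable _ _) (hfc.intervalIntegrable _ _) fun y _ => ?_
    have hl : 0 ≤ Real.log (4 * T) := Real.log_nonneg (by linarith)
    have h2 : ((1 + 1 / 2 * Real.log (4 * T) * |y|) ^ 2)⁻¹ ≤ 1 := by
      apply inv_le_one_of_one_le₀
      apply one_le_pow₀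
      have : 0 ≤ 1 / 2 * Real.log (4 * T) * |y| := by positivity
      linarith
    calc _ ≤ 1 * fz p (τ + y) := mul_le_mul_of_nonneg_right h2 (fz_nonneg _ _)
      _ = _ := one_mul _
  have hI2 : ∫ y in (-W)..W, fz p (τ + y) ≤ ∫ y in (-(W' : ℝ))..W', fz p (τ + y) :=
    intervalIntegral.integral_mono_interval (by linarith) (by linarith) hW' (Eventually.of_forall fun _ => fz_nonneg _ _)
      (hfc.intervalIntegrable _ _)
  have hI0 : 0 ≤ ∫ y in (-W)..W, ((1 + 1 / 2 * Real.log (4 * T) * |y|) ^ 2)⁻¹ * fz p (τ + y) :=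
    intervalIntegral.integral_nonneg (by linarith) fun y _ => by
      have := fz_nonneg p (τ + y)
      positivity
  have hA : K * τ ^ (-δ) ≤ max (K * 2 ^ δ) (3 * K) * T ^ (-δ) := by
    calc K * τ ^ (-δ) ≤ K * (T / 2) ^ (-δ) := by
          apply mul_le_mul_of_nonneg_left _ (by linarith)
          exact Real.rpow_le_rpow_of_nonpos (by positivity) hτ1 (by linarith)
      _ = (K * 2 ^ δ) * T ^ (-δ) := by
          rw [Real.div_rpow hT0.le (by norm_num), Real.rpow_neg (by norm_num : (0 : ℝ) ≤ 2)]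
          field_simp
      _ ≤ _ := mul_le_mul_of_nonneg_right (le_max_left _ _) (by positivity)
  have hB : K * Real.log (4 * T) * ∫ y in (-W)..W, ((1 + 1 / 2 * Real.log (4 * T) * |y|) ^ 2)⁻¹ * fz p (τ + y) ≤
      max (K * 2 ^ δ) (3 * K) * Real.log T * ∫ y in (-(W' : ℝ))..W', fz p (τ + y) := by
    have h3 : K * Real.log (4 * T) ≤ max (K * 2 ^ δ) (3 * K) * Real.log T := by
      calc K * Real.log (4 * T) ≤ K * (3 * Real.log T) := mul_le_mul_of_nonneg_left hlog4 (by linarith)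
        _ = (3 * K) * Real.log T := by ring
        _ ≤ _ := mul_le_mul_of_nonneg_right (le_max_right _ _) hlog0
    exact mul_le_mul h3 (hI1.trans hI2) hI0 (by positivity)
  linarith

/-- **a pointwise bound** -/
theorem pt_bd : ∀ᶠ T : ℝ in atTop, ∀ τ : ℝ, T / 2 ≤ τ → τ ≤ 4 * T → ‖zt τ‖ ≤ T ^ (1 / 5 : ℝ) := by
  obtain ⟨C, hC, h⟩ := Pool.Agent.Q231.RS.weyl_log
  have h1 : ∀ᶠ T : ℝ in atTop, C * (4 ^ (1 / 6 : ℝ) * (2 * Real.log T)) ≤ T ^ (1 / 30 : ℝ) := by
    have := (isLittleO_log_rpow_atTop (show (0 : ℝ) < 1 / 30 by norm_num)).def (c := 1 / (C * (4 ^ (1 / 6 : ℝ) * 2))) (by positivity)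
    filter_upwards [this, eventually_ge_atTop (1 : ℝ)] with T hT hT1
    rw [Real.norm_of_nonneg (Real.log_nonneg hT1), Real.norm_of_nonneg (by positivity)] at hT
    rw [one_div_mul_eq_div, le_div_iff₀ (by positivity)] at hT
    linarith
  filter_upwards [h1, eventually_ge_atTop (16 : ℝ)] with T hT hT16 τ hτ1 hτ2
  have hT0 : 0 < T := by linarith
  have hτ0 : 0 < τ := by linarith
  have h2 := h τ (by linarith)
  refine h2.trans ?_
  have h3 : τ ^ (1 / 6 : ℝ) ≤ 4 ^ (1 / 6 : ℝ) * T ^ (1 / 6 : ℝ) := by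
    rw [← Real.mul_rpow (by norm_num) hT0.le]
    exact Real.rpow_le_rpow hτ0.le hτ2 (by norm_num)
  have h4 : Real.log τ ≤ 2 * Real.log T := by
    calc Real.log τ ≤ Real.log (4 * T) := Real.log_le_log hτ0 hτ2
      _ = Real.log 4 + Real.log T := Real.log_mul (by norm_num) hT0.ne'
      _ ≤ 2 * Real.log T := by
          have : Real.log 4 ≤ Real.log T := Real.log_le_log (by norm_num) (by linarith)
          linarith
  have h5 : 0 ≤ Real.log τ := Real.log_nonneg (by linarith)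
  calc C * (τ ^ (1 / 6 : ℝ) * Real.log τ) ≤ C * ((4 ^ (1 / 6 : ℝ) * T ^ (1 / 6 : ℝ)) * (2 * Real.log T)) := by gcongr
    _ = (C * (4 ^ (1 / 6 : ℝ) * (2 * Real.log T))) * T ^ (1 / 6 : ℝ) := by ring
    _ ≤ T ^ (1 / 30 : ℝ) * T ^ (1 / 6 : ℝ) := mul_le_mul_of_nonneg_right hT (by positivity)
    _ = T ^ (1 / 5 : ℝ) := by
        rw [← Real.rpow_add hT0]
        norm_num

end

end Pool.Agent.H469.F4
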