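import Pool.Agent.H469.F4.M10

set_option autoImplicit false

/-!
# Moments of local maxima of order `2 < β ≤ 4`
-/

namespace Pool.Agent.H469.F4

open Filter Topology MeasureTheory Complex Pool.Agent.Q97.UM

noncomputable section

/-- Hölder's inequality -/
theorem hold {f g : ℝ → ℝ} (hf : Continuous f) (hg : Continuous g) (f0 : ∀ t, 0 ≤ f t) (g0 : ∀ t, 0 ≤ g t) {a b : ℝ} (hab : a ≤ b)
    {θ : ℝ} (h0 : 0 ≤ θ) (h1 : θ ≤ 1) {A B : ℝ} (hA : 0 < A) (hB : 0 < B) (hfA : ∫ t in a..b, f t ≤ A) (hgB : ∫ t in a..b, g t ≤ B) :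
    ∫ t in a..b, f t ^ (1 - θ) * g t ^ θ ≤ A ^ (1 - θ) * B ^ θ := by
  have hpt : ∀ t, f t ^ (1 - θ) * g t ^ θ ≤ A ^ (1 - θ) * B ^ θ * ((1 - θ) * (f t / A) + θ * (g t / B)) := by
    intro t
    have h2 := Real.geom_mean_le_arith_mean2_weighted (by linarith : 0 ≤ 1 - θ) h0 (div_nonneg (f0 t) hA.le) (div_nonneg (g0 t) hB.le)
      (by ring)
    rw [Real.div_rpow (f0 t) hA.le, Real.div_rpow (g0 t) hB.le] at h2
    have hA' : 0 < A ^ (1 - θ) := Real.rpow_pos_of_pos hA _
    have hB' : 0 < B ^ θ := Real.rpow_pos_of_pos hB _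
    calc f t ^ (1 - θ) * g t ^ θ = A ^ (1 - θ) * B ^ θ * (f t ^ (1 - θ) / A ^ (1 - θ) * (g t ^ θ / B ^ θ)) := by field_simp
      _ ≤ _ := mul_le_mul_of_nonneg_left h2 (by positivity)
  have c1 : Continuous fun t => f t ^ (1 - θ) * g t ^ θ :=
    (hf.rpow_const fun _ => Or.inr (by linarith)).mul (hg.rpow_const fun _ => Or.inr h0)
  have c2 : Continuous fun t => A ^ (1 - θ) * B ^ θ * ((1 - θ) * (f t / A) + θ * (g t / B)) := by fun_prop
  refine (intervalIntegral.integral_mono_on hab (c1.intervalIntegrable _ _) (c2.intervalIntegrable _ _) fun t _ => hpt t).trans ?_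
  rw [intervalIntegral.integral_const_mul]
  have cf : IntervalIntegrable (fun t => (1 - θ) * (f t / A)) volume a b := (by fun_prop : Continuous fun t => (1 - θ) * (f t / A)).intervalIntegrable _ _
  have cg : IntervalIntegrable (fun t => θ * (g t / B)) volume a b := (by fun_prop : Continuous fun t => θ * (g t / B)).intervalIntegrable _ _
  rw [intervalIntegral.integral_add cf cg, intervalIntegral.integral_const_mul, intervalIntegral.integral_const_mul,
    intervalIntegral.integral_div, intervalIntegral.integral_div]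
  have h3 : (∫ t in a..b, f t) / A ≤ 1 := (div_le_one hA).2 hfA
  have h4 : (∫ t in a..b, g t) / B ≤ 1 := (div_le_one hB).2 hgB
  have h5 : (1 - θ) * ((∫ t in a..b, f t) / A) + θ * ((∫ t in a..b, g t) / B) ≤ 1 := by
    have h6 := mul_le_mul_of_nonneg_left h3 (by linarith : 0 ≤ 1 - θ)
    have h7 := mul_le_mul_of_nonneg_left h4 h0
    linarith
  calc _ ≤ A ^ (1 - θ) * B ^ θ * 1 := mul_le_mul_of_nonneg_left h5 (by positivity)
    _ = _ := mul_one _

/-- solving a convexity inequality -/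
theorem solve {θ c C T L e e0 e1 A : ℝ} (h1 : θ < 1) (hc : 0 < c) (hC : 0 < C) (hT : 0 < T) (hL : 0 < L) (hA : 0 ≤ A)
    (he : e0 = (1 - θ) * e + θ * e1) (h : c * T * L ^ e0 ≤ A ^ (1 - θ) * (C * T * L ^ e1) ^ θ) :
    (c / C ^ θ) ^ (1 / (1 - θ)) * T * L ^ e ≤ A := by
  have hθ : 0 < 1 - θ := by linarith
  have hLe : 0 < L ^ e := Real.rpow_pos_of_pos hL _
  obtain ⟨x, hx⟩ : ∃ x : ℝ, x = A / (T * L ^ e) := ⟨_, rfl⟩
  have hx0 : 0 ≤ x := by rw [hx]; positivity
  have hAx : A = x * (T * L ^ e) := by rw [hx]; field_simp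
  have e2 : A ^ (1 - θ) * (C * T * L ^ e1) ^ θ = x ^ (1 - θ) * C ^ θ * (T * L ^ e0) := by
    rw [hAx, Real.mul_rpow hx0 (by positivity), Real.mul_rpow hT.le hLe.le, Real.mul_rpow (by positivity) (by positivity),
      Real.mul_rpow hC.le hT.le, ← Real.rpow_mul hL.le, ← Real.rpow_mul hL.le]
    have e3 : T = T ^ (1 - θ) * T ^ θ := by
      rw [← Real.rpow_add hT]
      simp
    have e4 : L ^ e0 = L ^ (e * (1 - θ)) * L ^ (e1 * θ) := by
      rw [← Real.rpow_add hL, he]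
      congr 1
      ring
    calc x ^ (1 - θ) * (T ^ (1 - θ) * L ^ (e * (1 - θ))) * (C ^ θ * T ^ θ * L ^ (e1 * θ)) =
        x ^ (1 - θ) * C ^ θ * ((T ^ (1 - θ) * T ^ θ) * (L ^ (e * (1 - θ)) * L ^ (e1 * θ))) := by ring
      _ = _ := by rw [← e3, ← e4]
  rw [e2] at h
  have h2 : c ≤ x ^ (1 - θ) * C ^ θ := by
    have h3 : 0 < T * L ^ e0 := by positivity
    have h4 : c * (T * L ^ e0) ≤ x ^ (1 - θ) * C ^ θ * (T * L ^ e0) := by linarith
    exact le_of_mul_le_mul_right h4 h3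
  have h5 : c / C ^ θ ≤ x ^ (1 - θ) := by
    rw [div_le_iff₀ (by positivity)]
    exact h2
  have h6 : (c / C ^ θ) ^ (1 / (1 - θ)) ≤ x := by
    calc (c / C ^ θ) ^ (1 / (1 - θ)) ≤ (x ^ (1 - θ)) ^ (1 / (1 - θ)) := Real.rpow_le_rpow (by positivity) h5 (by positivity)
      _ = x := by
          rw [← Real.rpow_mul hx0, mul_one_div_cancel hθ.ne', Real.rpow_one]
  rw [hAx]
  calc _ = (c / C ^ θ) ^ (1 / (1 - θ)) * (T * L ^ e) := by ring
    _ ≤ _ := mul_le_mul_of_nonneg_right h6 (by positivity)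

/-- the local maximum -/
def Mx (x t : ℝ) : ℝ := sSup ((fun h : ℝ => ‖zt (t + h)‖) '' Set.Icc x (x + 1))

theorem zth_cont (t : ℝ) : Continuous fun h : ℝ => ‖zt (t + h)‖ := (ztc.comp (by fun_prop)).norm

theorem Mx_bdd (x t : ℝ) : BddAbove ((fun h : ℝ => ‖zt (t + h)‖) '' Set.Icc x (x + 1)) :=
  isCompact_Icc.bddAbove_image (zth_cont t).continuousOn

theorem le_Mx {x t h : ℝ} (hh : h ∈ Set.Icc x (x + 1)) : ‖zt (t + h)‖ ≤ Mx x t :=
  le_csSup (Mx_bdd x t) ⟨h, hh, rfl⟩

theorem Mx_nonneg (x t : ℝ) : 0 ≤ Mx x t :=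
  (norm_nonneg _).trans (le_Mx (h := x) ⟨le_rfl, by linarith⟩)

theorem ex_Mx (x t : ℝ) : ∃ h ∈ Set.Icc x (x + 1), Mx x t = ‖zt (t + h)‖ := by
  have hne : (Set.Icc x (x + 1)).Nonempty := ⟨x, le_rfl, by linarith⟩
  obtain ⟨h, hh, he⟩ := isCompact_Icc.exists_sSup_image_eq hne (zth_cont t).continuousOn
  exact ⟨h, hh, he⟩

theorem Mx_cont (x : ℝ) : Continuous (Mx x) := by
  have h1 : Continuous (Function.uncurry fun t h : ℝ => ‖zt (t + h)‖) :=
    (ztc.comp (continuous_fst.add continuous_snd)).norm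
  exact isCompact_Icc.continuous_sSup h1

/-- the `p`-th power of the local maximum against a local mean -/
theorem Mx_le {p : ℝ} (hp : 0 < p) : ∃ W : ℕ, ∃ δ C : ℝ, 0 < δ ∧ 0 < C ∧ ∀ᶠ T : ℝ in atTop, ∀ x : ℝ, |x| ≤ T / 8 → ∀ t ∈ Set.Icc T (2 * T),
    Mx x t ^ p ≤ C * T ^ (-δ) + C * Real.log T * ∫ v in (x - W)..(x + 1 + W), fz p (t + v) := by
  obtain ⟨W, δ, C, hδ, hC, h⟩ := loc_sup hp
  refine ⟨W, δ, C, hδ, hC, ?_⟩
  filter_upwards [h, eventually_ge_atTop (16 : ℝ)] with T hT hT16 x hx t ht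
  obtain ⟨h, hh, he⟩ := ex_Mx x t
  have hx' := abs_le.1 hx
  have h1 := hT (t + h) (by linarith [ht.1, hh.1, hx'.1]) (by linarith [ht.2, hh.2, hx'.2])
  rw [he]
  refine h1.trans (add_le_add le_rfl ?_)
  have hL : 0 ≤ Real.log T := Real.log_nonneg (by linarith)
  apply mul_le_mul_of_nonneg_left _ (by positivity)
  have hfc : Continuous fun v : ℝ => fz p (t + v) := (fz_cont hp.le).comp (by fun_prop)
  have hW : (0 : ℝ) ≤ W := Nat.cast_nonneg _
  calc ∫ y in (-(W : ℝ))..W, fz p (t + h + y) = ∫ v in (h - W)..(h + W), fz p (t + v) := by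
        have := intervalIntegral.integral_comp_add_left (fun v => fz p (t + v)) h (a := -(W : ℝ)) (b := W)
        rw [show h - (W : ℝ) = h + -(W : ℝ) by ring, ← this]
        exact intervalIntegral.integral_congr fun y _ => by simp only [add_assoc]
    _ ≤ _ := intervalIntegral.integral_mono_interval (by linarith [hh.1]) (by linarith) (by linarith [hh.2])
          (Eventually.of_forall fun _ => fz_nonneg _ _) (hfc.intervalIntegrable _ _)

theorem swap_bd {p : ℝ} (hp : 0 ≤ p) {T a b B : ℝ} (hab : a ≤ b) (h : ∀ v ∈ Set.Icc a b, ∫ t in T..(2 * T), fz p (t + v) ≤ B) :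
    ∫ t in T..(2 * T), ∫ v in a..b, fz p (t + v) ≤ (b - a) * B := by
  have hGc : Continuous fun z : ℝ × ℝ => fz p (z.1 + z.2) := (fz_cont hp).comp (continuous_fst.add continuous_snd)
  rw [swap_cont (F := fun t u => fz p (t + u)) hGc]
  have hGi2 : Continuous fun u : ℝ => ∫ t in T..(2 * T), fz p (t + u) :=
    intervalIntegral.continuous_parametric_intervalIntegral_of_continuous' (f := fun u t => fz p (t + u))
      ((fz_cont hp).comp (continuous_snd.add continuous_fst)) T (2 * T)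
  have h5 := intervalIntegral.integral_mono_on (μ := volume) hab (hGi2.intervalIntegrable a b)
    ((continuous_const (y := B)).intervalIntegrable a b) h
  rwa [intervalIntegral.integral_const, smul_eq_mul] at h5

theorem swap_bd' {p : ℝ} (hp : 0 ≤ p) {T a b B : ℝ} (hab : a ≤ b) (h : ∀ v ∈ Set.Icc a b, B ≤ ∫ t in T..(2 * T), fz p (t + v)) :
    (b - a) * B ≤ ∫ t in T..(2 * T), ∫ v in a..b, fz p (t + v) := by
  have hGc : Continuous fun z : ℝ × ℝ => fz p (z.1 + z.2) := (fz_cont hp).comp (continuous_fst.add continuous_snd)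
  rw [swap_cont (F := fun t u => fz p (t + u)) hGc]
  have hGi2 : Continuous fun u : ℝ => ∫ t in T..(2 * T), fz p (t + u) :=
    intervalIntegral.continuous_parametric_intervalIntegral_of_continuous' (f := fun u t => fz p (t + u))
      ((fz_cont hp).comp (continuous_snd.add continuous_fst)) T (2 * T)
  have h5 := intervalIntegral.integral_mono_on (μ := volume) hab ((continuous_const (y := B)).intervalIntegrable a b)
    (hGi2.intervalIntegrable a b) h
  rwa [intervalIntegral.integral_const, smul_eq_mul] at h5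

/-- **upper bound for the moments of local maxima** -/
theorem max_upper {β : ℝ} (hβ0 : 0 < β) (hβ4 : β ≤ 4) : ∃ C : ℝ, 0 < C ∧ ∀ᶠ T : ℝ in atTop, ∀ x : ℝ, |x| ≤ T / 8 →
    ∫ t in T..(2 * T), Mx x t ^ β ≤ C * T * Real.log T ^ (β ^ 2 / 4 + 1) := by
  obtain ⟨W, δ, C, hδ, hC, h⟩ := Mx_le hβ0
  obtain ⟨c₁, C₁, hc₁, hC₁, h1⟩ := one_pt hβ0.le hβ4
  refine ⟨C * (1 + (1 + 2 * W) * C₁), by positivity, ?_⟩
  filter_upwards [h, h1, eventually_ge_atTop (16 : ℝ), eventually_ge_atTop (16 * ((W : ℝ) + 1)),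
    Real.tendsto_log_atTop.eventually_ge_atTop 1] with T hT h1 hT16 hTW hL1 x hx
  have hT0 : 0 < T := by linarith
  have hL0 : 0 < Real.log T := by linarith
  have hW : (0 : ℝ) ≤ W := Nat.cast_nonneg _
  have hx' := abs_le.1 hx
  have hMc : Continuous fun t => Mx x t ^ β := (Mx_cont x).rpow_const fun _ => Or.inr hβ0.le
  have hGc : Continuous fun z : ℝ × ℝ => fz β (z.1 + z.2) := (fz_cont hβ0.le).comp (continuous_fst.add continuous_snd)
  have hGi : Continuous fun t : ℝ => ∫ v in (x - W)..(x + 1 + W), fz β (t + v) :=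
    intervalIntegral.continuous_parametric_intervalIntegral_of_continuous' (f := fun t v => fz β (t + v)) hGc _ _
  have hRc : Continuous fun t : ℝ => C * T ^ (-δ) + C * Real.log T * ∫ v in (x - W)..(x + 1 + W), fz β (t + v) :=
    continuous_const.add (continuous_const.mul hGi)
  refine (intervalIntegral.integral_mono_on (by linarith) (hMc.intervalIntegrable _ _) (hRc.intervalIntegrable _ _) fun t ht => hT x hx t ht).trans ?_
  have i1 : IntervalIntegrable (fun _ : ℝ => C * T ^ (-δ)) volume T (2 * T) := continuous_const.intervalIntegrable _ _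
  have i2 : IntervalIntegrable (fun t : ℝ => C * Real.log T * ∫ v in (x - W)..(x + 1 + W), fz β (t + v)) volume T (2 * T) :=
    (continuous_const.mul hGi).intervalIntegrable _ _
  rw [intervalIntegral.integral_add i1 i2, intervalIntegral.integral_const, intervalIntegral.integral_const_mul, smul_eq_mul]
  have h2 : ∫ t in T..(2 * T), ∫ v in (x - W)..(x + 1 + W), fz β (t + v) ≤ (x + 1 + W - (x - W)) * (C₁ * T * Real.log T ^ (β ^ 2 / 4)) := by
    refine swap_bd hβ0.le (by linarith) fun v hv => (h1 v (abs_le.2 ⟨?_, ?_⟩)).2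
    · linarith [hv.1, hx'.1]
    · linarith [hv.2, hx'.2]
  have h3 : T ^ (-δ) ≤ 1 := Real.rpow_le_one_of_one_le_of_nonpos (by linarith) (by linarith)
  have h4 : (1 : ℝ) ≤ Real.log T ^ (β ^ 2 / 4 + 1) := Real.one_le_rpow hL1 (by positivity)
  have h5 : Real.log T * Real.log T ^ (β ^ 2 / 4) = Real.log T ^ (β ^ 2 / 4 + 1) := by
    rw [Real.rpow_add_one hL0.ne', mul_comm]
  calc (2 * T - T) * (C * T ^ (-δ)) + C * Real.log T * ∫ t in T..(2 * T), ∫ v in (x - W)..(x + 1 + W), fz β (t + v) ≤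
      (2 * T - T) * (C * Real.log T ^ (β ^ 2 / 4 + 1)) + C * Real.log T * ((x + 1 + W - (x - W)) * (C₁ * T * Real.log T ^ (β ^ 2 / 4))) := by
        refine add_le_add ?_ (mul_le_mul_of_nonneg_left h2 (by positivity))
        apply mul_le_mul_of_nonneg_left _ (by linarith)
        exact mul_le_mul_of_nonneg_left (h3.trans h4) hC.le
    _ = C * T * (Real.log T ^ (β ^ 2 / 4 + 1) + (1 + 2 * W) * C₁ * (Real.log T * Real.log T ^ (β ^ 2 / 4))) := by ring
    _ = _ := by rw [h5]; ring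

/-- **lower bound for the moments of local maxima** -/
theorem max_lower {β : ℝ} (hβ2 : 2 < β) (hβ4 : β ≤ 4) : ∃ c : ℝ, 0 < c ∧ ∀ᶠ T : ℝ in atTop, ∀ x : ℝ, |x| ≤ T / 8 →
    c * T * Real.log T ^ (β ^ 2 / 4 + 1) ≤ ∫ t in T..(2 * T), Mx x t ^ β := by
  have hβ0 : 0 < β := by linarith
  obtain ⟨C, hC, h⟩ := core_upper (γ := 2) (q := β / 2) (by norm_num) le_rfl (by linarith) (by linarith) (by intro h; linarith)
  obtain ⟨c₁, C₁, hc₁, hC₁, h1⟩ := one_pt hβ0.le hβ4
  obtain ⟨θ, hθ⟩ : ∃ θ : ℝ, θ = 2 / β := ⟨_, rfl⟩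
  have hθ0 : 0 < θ := by rw [hθ]; positivity
  have hθ1 : θ < 1 := by rw [hθ, div_lt_one hβ0]; exact hβ2
  refine ⟨(c₁ / (C + 1) ^ θ) ^ (1 / (1 - θ)), by positivity, ?_⟩
  filter_upwards [h, h1, eventually_ge_atTop (16 : ℝ), Real.tendsto_log_atTop.eventually_ge_atTop 1] with T hT h1 hT16 hL1 x hx
  have hT0 : 0 < T := by linarith
  have hL0 : 0 < Real.log T := by linarith
  have hx' := abs_le.1 hx
  have hMc : Continuous fun t => Mx x t ^ β := (Mx_cont x).rpow_const fun _ => Or.inr hβ0.le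
  have hXc : Continuous fun t => Xm 2 x t ^ (β / 2) := (Xm_cont (by norm_num) x).rpow_const fun _ => Or.inr (by linarith)
  have hM0 : ∀ t, 0 ≤ Mx x t ^ β := fun t => Real.rpow_nonneg (Mx_nonneg x t) _
  have hX0 : ∀ t, 0 ≤ Xm 2 x t ^ (β / 2) := fun t => Real.rpow_nonneg (Xm_nonneg 2 x t) _
  -- the lower bound for the two-parameter integral
  have h2 : c₁ * T * Real.log T ^ (β ^ 2 / 4) ≤ ∫ t in T..(2 * T), ∫ v in x..(x + 1), fz β (t + v) := by
    have h3 := swap_bd' (p := β) (T := T) (a := x) (b := x + 1) (B := c₁ * T * Real.log T ^ (β ^ 2 / 4)) hβ0.le (by linarith)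
      fun v hv => (h1 v (abs_le.2 ⟨by linarith [hv.1, hx'.1], by linarith [hv.2, hx'.2]⟩)).1
    calc _ = (x + 1 - x) * (c₁ * T * Real.log T ^ (β ^ 2 / 4)) := by ring
      _ ≤ _ := h3
  -- pointwise
  have h3 : ∀ t, ∫ v in x..(x + 1), fz β (t + v) ≤ (Mx x t ^ β) ^ (1 - θ) * (Xm 2 x t ^ (β / 2)) ^ θ := by
    intro t
    have e1 : (Mx x t ^ β) ^ (1 - θ) = Mx x t ^ (β - 2) := by
      rw [← Real.rpow_mul (Mx_nonneg x t)]
      congr 1
      rw [hθ]
      field_simp
    have e2 : (Xm 2 x t ^ (β / 2)) ^ θ = Xm 2 x t := by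
      rw [← Real.rpow_mul (Xm_nonneg 2 x t)]
      have : β / 2 * θ = 1 := by rw [hθ]; field_simp
      rw [this, Real.rpow_one]
    rw [e1, e2]
    unfold Xm
    rw [← intervalIntegral.integral_const_mul]
    have hc1 : Continuous fun v : ℝ => fz β (t + v) := (fz_cont hβ0.le).comp (by fun_prop)
    have hc2 : Continuous fun v : ℝ => Mx x t ^ (β - 2) * fz 2 (t + v) := continuous_const.mul ((fz_cont (by norm_num)).comp (by fun_prop))
    refine intervalIntegral.integral_mono_on (by linarith) (hc1.intervalIntegrable _ _) (hc2.intervalIntegrable _ _) fun v hv => ?_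
    unfold fz
    have h4 : ‖zt (t + v)‖ ^ β = ‖zt (t + v)‖ ^ (β - 2) * ‖zt (t + v)‖ ^ (2 : ℝ) := by
      rw [← Real.rpow_add' (norm_nonneg _) (by linarith)]
      congr 1
      ring
    rw [h4]
    apply mul_le_mul_of_nonneg_right _ (Real.rpow_nonneg (norm_nonneg _) _)
    exact Real.rpow_le_rpow (norm_nonneg _) (le_Mx hv) (by linarith)
  have hcP : Continuous fun t => (Mx x t ^ β) ^ (1 - θ) * (Xm 2 x t ^ (β / 2)) ^ θ :=
    (hMc.rpow_const fun _ => Or.inr (by linarith)).mul (hXc.rpow_const fun _ => Or.inr hθ0.le)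
  have hGi : Continuous fun t : ℝ => ∫ v in x..(x + 1), fz β (t + v) :=
    intervalIntegral.continuous_parametric_intervalIntegral_of_continuous' (f := fun t v => fz β (t + v))
      ((fz_cont hβ0.le).comp (continuous_fst.add continuous_snd)) _ _
  have h4 := h2.trans (intervalIntegral.integral_mono_on (by linarith) (hGi.intervalIntegrable _ _) (hcP.intervalIntegrable _ _)
    fun t _ => h3 t)
  have hexp : max (β / 2 * 2 ^ 2 / 4) ((β / 2) ^ 2 * 2 ^ 2 / 4 - β / 2 + 1) = β ^ 2 / 4 - β / 2 + 1 := by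
    rw [max_eq_right]
    · ring
    · nlinarith [sq_nonneg (β - 2)]
  have h5 := hT x hx
  rw [hexp] at h5
  refine le_of_forall_pos_le_add fun η hη => ?_
  have hI0 : 0 ≤ ∫ t in T..(2 * T), Mx x t ^ β := intervalIntegral.integral_nonneg (by linarith) fun t _ => hM0 t
  have hA : 0 < (∫ t in T..(2 * T), Mx x t ^ β) + η := by linarith
  have hLp : 0 < Real.log T ^ (β ^ 2 / 4 - β / 2 + 1) := Real.rpow_pos_of_pos hL0 _
  have hB : 0 < (C + 1) * T * Real.log T ^ (β ^ 2 / 4 - β / 2 + 1) := by positivity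
  have h6 := hold hMc hXc hM0 hX0 (by linarith : T ≤ 2 * T) hθ0.le hθ1.le hA hB (by linarith) (h5.trans (by
    have : 0 ≤ T * Real.log T ^ (β ^ 2 / 4 - β / 2 + 1) := by positivity
    nlinarith))
  refine solve hθ1 hc₁ (by positivity) hT0 hL0 hA.le ?_ (h4.trans h6)
  rw [hθ]
  field_simp
  ring

end

end Pool.Agent.H469.F4
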