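import Pool.Agent.H469.F4.M11

set_option autoImplicit false

/-!
# Moments of moments of real order: both bounds
-/

namespace Pool.Agent.H469.F4

open Filter Topology MeasureTheory Complex Pool.Agent.Q97.UM

noncomputable section

theorem Xm_shift (γ x j t : ℝ) : Xm γ (x + j) t = Xm γ x (t + j) := by
  unfold Xm
  have := intervalIntegral.integral_comp_add_left (fun v => fz γ (t + v)) j (a := x) (b := x + 1)
  have e1 : x + j = j + x := add_comm _ _
  have e2 : x + j + 1 = j + (x + 1) := by ring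
  rw [e2, e1, ← this]
  exact intervalIntegral.integral_congr fun v _ => by simp only [add_assoc]

theorem Xm_split (γ : ℝ) (hγ : 0 ≤ γ) (x t : ℝ) (W : ℕ) :
    ∫ v in (x - W)..(x + 1 + W), fz γ (t + v) = ∑ i ∈ Finset.range (2 * W + 1), Xm γ (x + ((i : ℝ) - W)) t := by
  have hc : Continuous fun v : ℝ => fz γ (t + v) := (fz_cont hγ).comp (by fun_prop)
  have h := intervalIntegral.sum_integral_adjacent_intervals (μ := volume) (f := fun v : ℝ => fz γ (t + v))
    (a := fun i : ℕ => x + ((i : ℝ) - W)) (n := 2 * W + 1) fun k _ => hc.intervalIntegrable _ _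
  have e0 : x + (((0 : ℕ) : ℝ) - W) = x - W := by simp; ring
  have e1 : x + (((2 * W + 1 : ℕ) : ℝ) - W) = x + 1 + W := by push_cast; ring
  rw [e0, e1] at h
  rw [← h]
  refine Finset.sum_congr rfl fun i _ => ?_
  unfold Xm
  congr 1
  push_cast
  ring

theorem sum_rpow_card {p : ℝ} (hp : 0 < p) (s : Finset ℕ) (x : ℕ → ℝ) (hx : ∀ i ∈ s, 0 ≤ x i) :
    (∑ i ∈ s, x i) ^ p ≤ (s.card : ℝ) ^ p * ∑ i ∈ s, x i ^ p := by
  have h1 : ∀ i ∈ s, x i ≤ (∑ i ∈ s, x i ^ p) ^ (1 / p) := by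
    intro i hi
    have h2 : x i ^ p ≤ ∑ i ∈ s, x i ^ p := Finset.single_le_sum (f := fun i => x i ^ p) (fun j hj => Real.rpow_nonneg (hx j hj) _) hi
    calc x i = (x i ^ p) ^ (1 / p) := by rw [← Real.rpow_mul (hx i hi), mul_one_div_cancel hp.ne', Real.rpow_one]
      _ ≤ _ := Real.rpow_le_rpow (Real.rpow_nonneg (hx i hi) _) h2 (by positivity)
  have h3 : 0 ≤ ∑ i ∈ s, x i ^ p := Finset.sum_nonneg fun i hi => Real.rpow_nonneg (hx i hi) _
  have h4 : ∑ i ∈ s, x i ≤ s.card * (∑ i ∈ s, x i ^ p) ^ (1 / p) := by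
    have := Finset.sum_le_card_nsmul s x _ h1
    rwa [nsmul_eq_mul] at this
  calc (∑ i ∈ s, x i) ^ p ≤ (s.card * (∑ i ∈ s, x i ^ p) ^ (1 / p)) ^ p := Real.rpow_le_rpow (Finset.sum_nonneg hx) h4 hp.le
    _ = _ := by
        rw [Real.mul_rpow (by positivity) (by positivity), ← Real.rpow_mul h3, one_div_mul_cancel hp.ne', Real.rpow_one]

theorem Xm_pow_cont {γ q : ℝ} (hγ : 0 < γ) (hq : 0 < q) (x : ℝ) : Continuous fun t => Xm γ x t ^ q :=
  (Xm_cont hγ.le x).rpow_const fun _ => Or.inr hq.le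

/-- moving the interval -/
theorem shift_le {γ q : ℝ} (hγ : 0 < γ) (hq : 0 < q) (hβ : γ * q ≤ 4) (W : ℕ) : ∀ᶠ T : ℝ in atTop, ∀ x : ℝ, |x| ≤ T / 8 → ∀ j : ℝ, |j| ≤ W →
    ∫ t in T..(2 * T), Xm γ (x + j) t ^ q ≤ (∫ t in T..(2 * T), Xm γ x t ^ q) + 2 * (W * T ^ (4 / 5 : ℝ)) := by
  filter_upwards [pt_bd, eventually_ge_atTop (16 : ℝ), eventually_ge_atTop (16 * (W : ℝ) + 16)] with T hT hT16 hTW x hx j hj
  have hT0 : 0 < T := by linarith
  have hx' := abs_le.1 hx
  have hj' := abs_le.1 hj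
  have hW : (0 : ℝ) ≤ W := Nat.cast_nonneg _
  have hXc := Xm_pow_cont hγ hq x
  have hX0 : ∀ s, 0 ≤ Xm γ x s ^ q := fun s => Real.rpow_nonneg (Xm_nonneg γ x s) _
  have hsup : ∀ s, T - W ≤ s → s ≤ 2 * T + W → Xm γ x s ^ q ≤ T ^ (4 / 5 : ℝ) := by
    intro s hs1 hs2
    have h1 : Xm γ x s ≤ T ^ (γ / 5) := by
      unfold Xm
      have hc1 : Continuous fun v : ℝ => fz γ (s + v) := (fz_cont hγ.le).comp (by fun_prop)
      have h2 := intervalIntegral.integral_mono_on (μ := volume) (by linarith : x ≤ x + 1) (hc1.intervalIntegrable _ _)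
        ((continuous_const (y := T ^ (γ / 5))).intervalIntegrable x (x + 1)) (fun v hv => by
          have h3 := hT (s + v) (by linarith [hv.1]) (by linarith [hv.2])
          unfold fz
          calc ‖zt (s + v)‖ ^ γ ≤ (T ^ (1 / 5 : ℝ)) ^ γ := Real.rpow_le_rpow (norm_nonneg _) h3 hγ.le
            _ = T ^ (γ / 5) := by
                rw [← Real.rpow_mul hT0.le]
                congr 1
                ring)
      rw [intervalIntegral.integral_const, smul_eq_mul] at h2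
      calc _ ≤ _ := h2
        _ = _ := by ring
    calc Xm γ x s ^ q ≤ (T ^ (γ / 5)) ^ q := Real.rpow_le_rpow (Xm_nonneg γ x s) h1 hq.le
      _ = T ^ (γ * q / 5) := by
          rw [← Real.rpow_mul hT0.le]
          congr 1
          ring
      _ ≤ T ^ (4 / 5 : ℝ) := Real.rpow_le_rpow_of_exponent_le (by linarith) (by linarith)
  have e1 : ∫ t in T..(2 * T), Xm γ (x + j) t ^ q = ∫ s in (T + j)..(2 * T + j), Xm γ x s ^ q := by
    rw [← intervalIntegral.integral_comp_add_right (fun s => Xm γ x s ^ q) j]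
    exact intervalIntegral.integral_congr fun t _ => by simp only [Xm_shift]
  rw [e1, ← intervalIntegral.integral_add_adjacent_intervals (hXc.intervalIntegrable (T + j) T) (hXc.intervalIntegrable T (2 * T + j)),
    ← intervalIntegral.integral_add_adjacent_intervals (hXc.intervalIntegrable T (2 * T)) (hXc.intervalIntegrable (2 * T) (2 * T + j))]
  have hb : ∀ a : ℝ, T - W ≤ a → a ≤ 2 * T + W → ∀ b : ℝ, T - W ≤ b → b ≤ 2 * T + W → |b - a| ≤ W →
      ∫ s in a..b, Xm γ x s ^ q ≤ W * T ^ (4 / 5 : ℝ) := by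
    intro a ha1 ha2 b hb1 hb2 hab
    have h1 : ‖∫ s in a..b, Xm γ x s ^ q‖ ≤ T ^ (4 / 5 : ℝ) * |b - a| := by
      apply intervalIntegral.norm_integral_le_of_norm_le_const
      intro s hs
      rw [Real.norm_of_nonneg (hX0 s)]
      have hs' := Set.uIoc_subset_uIcc hs
      rw [Set.mem_uIcc] at hs'
      rcases hs' with h | h
      · exact hsup s (by linarith [h.1]) (by linarith [h.2])
      · exact hsup s (by linarith [h.1]) (by linarith [h.2])
    calc ∫ s in a..b, Xm γ x s ^ q ≤ ‖∫ s in a..b, Xm γ x s ^ q‖ := Real.le_norm_self _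
      _ ≤ T ^ (4 / 5 : ℝ) * |b - a| := h1
      _ ≤ T ^ (4 / 5 : ℝ) * W := mul_le_mul_of_nonneg_left hab (by positivity)
      _ = _ := mul_comm _ _
  have h1 := hb (T + j) (by linarith [hj'.1]) (by linarith [hj'.2]) T (by linarith) (by linarith) (by
    rw [show T - (T + j) = -j by ring, abs_neg]; exact hj)
  have h2 := hb (2 * T) (by linarith [hj'.1]) (by linarith [hj'.2]) (2 * T + j) (by linarith [hj'.1]) (by linarith [hj'.2]) (by
    rw [show 2 * T + j - 2 * T = j by ring]; exact hj)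
  linarith

/-- **lower bound beyond the critical line, any `q > 0`, `2 < γ q ≤ 4`** -/
theorem lowB {γ q : ℝ} (hγ : 0 < γ) (hq : 0 < q) (hβ2 : 2 < γ * q) (hβ4 : γ * q ≤ 4) : ∃ c : ℝ, 0 < c ∧
    ∀ᶠ T : ℝ in atTop, ∀ x : ℝ, |x| ≤ T / 8 →
      c * T * Real.log T ^ ((γ * q) ^ 2 / 4 - q + 1) ≤ ∫ t in T..(2 * T), Xm γ x t ^ q := by
  obtain ⟨c, hc, h⟩ := max_lower hβ2 hβ4
  obtain ⟨W, δ, C, hδ, hC, h1⟩ := Mx_le hγ
  have h2 := shift_le hγ hq hβ4 W
  have hβ0 : 0 < γ * q := by positivity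
  obtain ⟨n, hn⟩ : ∃ n : ℕ, n = 2 * W + 1 := ⟨_, rfl⟩
  obtain ⟨K, hK⟩ : ∃ K : ℝ, K = 2 ^ q * C ^ q * (n : ℝ) ^ q := ⟨_, rfl⟩
  have hn0 : (0 : ℝ) < n := by rw [hn]; positivity
  have hK0 : 0 < K := by rw [hK]; positivity
  have hW : (0 : ℝ) ≤ W := Nat.cast_nonneg _
  -- the error terms are small
  have he1 : ∀ᶠ T : ℝ in atTop, 2 ^ q * C ^ q * T ^ (-(δ * q)) ≤ c / 4 := by
    have h3 : Tendsto (fun T : ℝ => 2 ^ q * C ^ q * T ^ (-(δ * q))) atTop (𝓝 (2 ^ q * C ^ q * 0)) :=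
      (tendsto_rpow_neg_atTop (by positivity)).const_mul _
    rw [mul_zero] at h3
    exact (h3.eventually_lt_const (by positivity : (0 : ℝ) < c / 4)).mono fun T hT => hT.le
  have he2 : ∀ᶠ T : ℝ in atTop, Real.log T ^ q * (K * n * (2 * W)) ≤ c / 4 * T ^ (1 / 5 : ℝ) := by
    have h3 := (isLittleO_log_rpow_rpow_atTop q (show (0 : ℝ) < 1 / 5 by norm_num)).def (c := c / 4 / (K * n * (2 * W) + 1)) (by positivity)
    filter_upwards [h3, eventually_ge_atTop (1 : ℝ)] with T hT hT1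
    have hL : 0 ≤ Real.log T := Real.log_nonneg hT1
    rw [Real.norm_of_nonneg (by positivity), Real.norm_of_nonneg (by positivity), div_mul_eq_mul_div, le_div_iff₀ (by positivity)] at hT
    have h4 : 0 ≤ Real.log T ^ q := by positivity
    nlinarith
  refine ⟨c / (2 * K * n), by positivity, ?_⟩
  filter_upwards [h, h1, h2, he1, he2, eventually_ge_atTop (16 : ℝ), Real.tendsto_log_atTop.eventually_ge_atTop 1]
    with T hT h1 h2 he1 he2 hT16 hL1 x hx
  have hT0 : 0 < T := by linarith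
  have hL0 : 0 < Real.log T := by linarith
  obtain ⟨I, hI⟩ : ∃ I : ℝ, I = ∫ t in T..(2 * T), Xm γ x t ^ q := ⟨_, rfl⟩
  rw [← hI]
  have hpt : ∀ t ∈ Set.Icc T (2 * T), Mx x t ^ (γ * q) ≤ 2 ^ q * C ^ q * T ^ (-(δ * q)) +
      K * Real.log T ^ q * ∑ i ∈ Finset.range n, Xm γ (x + ((i : ℝ) - W)) t ^ q := by
    intro t ht
    have h3 := h1 x hx t ht
    rw [Xm_split γ hγ.le, ← hn] at h3
    have hS0 : 0 ≤ ∑ i ∈ Finset.range n, Xm γ (x + ((i : ℝ) - W)) t := Finset.sum_nonneg fun i _ => Xm_nonneg _ _ _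
    obtain ⟨S, hS⟩ : ∃ S : ℝ, S = ∑ i ∈ Finset.range n, Xm γ (x + ((i : ℝ) - W)) t := ⟨_, rfl⟩
    rw [← hS] at h3 hS0
    have h4 : (Mx x t ^ γ) ^ q ≤ (C * T ^ (-δ) + C * Real.log T * S) ^ q :=
      Real.rpow_le_rpow (Real.rpow_nonneg (Mx_nonneg x t) _) h3 hq.le
    have h5 : (C * T ^ (-δ) + C * Real.log T * S) ^ q ≤ 2 ^ q * ((C * T ^ (-δ)) ^ q + (C * Real.log T * S) ^ q) := by
      have a0 : 0 ≤ C * T ^ (-δ) := by positivity
      have b0 : 0 ≤ C * Real.log T * S := by positivity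
      have h6 : C * T ^ (-δ) + C * Real.log T * S ≤ 2 * max (C * T ^ (-δ)) (C * Real.log T * S) := by
        linarith [le_max_left (C * T ^ (-δ)) (C * Real.log T * S), le_max_right (C * T ^ (-δ)) (C * Real.log T * S)]
      calc _ ≤ (2 * max (C * T ^ (-δ)) (C * Real.log T * S)) ^ q := Real.rpow_le_rpow (by positivity) h6 hq.le
        _ = 2 ^ q * (max (C * T ^ (-δ)) (C * Real.log T * S)) ^ q := Real.mul_rpow (by norm_num) (le_max_of_le_left a0)
        _ ≤ _ := by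
            apply mul_le_mul_of_nonneg_left _ (by positivity)
            have a1 : 0 ≤ (C * T ^ (-δ)) ^ q := by positivity
            have b1 : 0 ≤ (C * Real.log T * S) ^ q := by positivity
            rcases max_cases (C * T ^ (-δ)) (C * Real.log T * S) with h | h
            · rw [h.1]; linarith
            · rw [h.1]; linarith
    have h7 : S ^ q ≤ (n : ℝ) ^ q * ∑ i ∈ Finset.range n, Xm γ (x + ((i : ℝ) - W)) t ^ q := by
      rw [hS]
      have := sum_rpow_card hq (Finset.range n) (fun i => Xm γ (x + ((i : ℝ) - W)) t) fun i _ => Xm_nonneg _ _ _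
      rwa [Finset.card_range] at this
    rw [← Real.rpow_mul (Mx_nonneg x t)] at h4
    refine (h4.trans h5).trans ?_
    rw [Real.mul_rpow hC.le (by positivity), ← Real.rpow_mul hT0.le, Real.mul_rpow (by positivity) hS0, Real.mul_rpow hC.le hL0.le]
    have e1 : -δ * q = -(δ * q) := by ring
    rw [e1]
    calc 2 ^ q * (C ^ q * T ^ (-(δ * q)) + C ^ q * Real.log T ^ q * S ^ q) =
        2 ^ q * C ^ q * T ^ (-(δ * q)) + 2 ^ q * C ^ q * Real.log T ^ q * S ^ q := by ring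
      _ ≤ 2 ^ q * C ^ q * T ^ (-(δ * q)) + 2 ^ q * C ^ q * Real.log T ^ q *
          ((n : ℝ) ^ q * ∑ i ∈ Finset.range n, Xm γ (x + ((i : ℝ) - W)) t ^ q) :=
          add_le_add le_rfl (mul_le_mul_of_nonneg_left h7 (by positivity))
      _ = _ := by rw [hK]; ring
  have hMc : Continuous fun t => Mx x t ^ (γ * q) := (Mx_cont x).rpow_const fun _ => Or.inr hβ0.le
  have hSc : Continuous fun t => ∑ i ∈ Finset.range n, Xm γ (x + ((i : ℝ) - W)) t ^ q :=
    continuous_finsetSum _ fun i _ => Xm_pow_cont hγ hq _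
  have i1 : IntervalIntegrable (fun _ : ℝ => 2 ^ q * C ^ q * T ^ (-(δ * q))) volume T (2 * T) := continuous_const.intervalIntegrable _ _
  have i2 : IntervalIntegrable (fun t : ℝ => K * Real.log T ^ q * ∑ i ∈ Finset.range n, Xm γ (x + ((i : ℝ) - W)) t ^ q) volume T (2 * T) :=
    (continuous_const.mul hSc).intervalIntegrable _ _
  have h8 := intervalIntegral.integral_mono_on (by linarith : T ≤ 2 * T) (hMc.intervalIntegrable _ _) (i1.add i2) hpt
  rw [intervalIntegral.integral_add i1 i2, intervalIntegral.integral_const, intervalIntegral.integral_const_mul, smul_eq_mul,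
    intervalIntegral.integral_finsetSum fun i _ => (Xm_pow_cont hγ hq _).intervalIntegrable _ _] at h8
  have h9 : ∑ i ∈ Finset.range n, ∫ t in T..(2 * T), Xm γ (x + ((i : ℝ) - W)) t ^ q ≤ n * (I + 2 * (W * T ^ (4 / 5 : ℝ))) := by
    have : ∑ i ∈ Finset.range n, ∫ t in T..(2 * T), Xm γ (x + ((i : ℝ) - W)) t ^ q ≤
        ∑ i ∈ Finset.range n, (I + 2 * (W * T ^ (4 / 5 : ℝ))) := by
      refine Finset.sum_le_sum fun i hi => ?_
      rw [hI]
      refine h2 x hx _ ?_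
      have hi' : (i : ℝ) ≤ 2 * W := by
        have : i ≤ 2 * W := by
          have := Finset.mem_range.1 hi
          omega
        exact_mod_cast this
      have hi0 : (0 : ℝ) ≤ i := Nat.cast_nonneg _
      rw [abs_le]
      constructor <;> linarith
    rwa [Finset.sum_const, Finset.card_range, nsmul_eq_mul] at this
  have h10 := hT x hx
  obtain ⟨P, hP⟩ : ∃ P : ℝ, P = Real.log T ^ ((γ * q) ^ 2 / 4 + 1) := ⟨_, rfl⟩
  rw [← hP] at h10
  have hP1 : 1 ≤ P := by rw [hP]; exact Real.one_le_rpow hL1 (by positivity)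
  have hPe : Real.log T ^ q * Real.log T ^ ((γ * q) ^ 2 / 4 - q + 1) = P := by
    rw [hP, ← Real.rpow_add hL0]
    congr 1
    ring
  have hTT : T ^ (1 / 5 : ℝ) * T ^ (4 / 5 : ℝ) = T := by
    rw [← Real.rpow_add hT0]
    norm_num
  -- the errors
  have h11 : (2 * T - T) * (2 ^ q * C ^ q * T ^ (-(δ * q))) ≤ c / 4 * T * P := by
    calc _ ≤ (2 * T - T) * (c / 4) := mul_le_mul_of_nonneg_left he1 (by linarith)
      _ = c / 4 * T * 1 := by ring
      _ ≤ _ := mul_le_mul_of_nonneg_left hP1 (by positivity)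
  have h12 : K * Real.log T ^ q * (n * (2 * (W * T ^ (4 / 5 : ℝ)))) ≤ c / 4 * T * P := by
    calc K * Real.log T ^ q * (n * (2 * (W * T ^ (4 / 5 : ℝ)))) = (Real.log T ^ q * (K * n * (2 * W))) * T ^ (4 / 5 : ℝ) := by ring
      _ ≤ (c / 4 * T ^ (1 / 5 : ℝ)) * T ^ (4 / 5 : ℝ) := mul_le_mul_of_nonneg_right he2 (by positivity)
      _ = c / 4 * (T ^ (1 / 5 : ℝ) * T ^ (4 / 5 : ℝ)) := by ring
      _ = c / 4 * T * 1 := by rw [hTT]; ring
      _ ≤ _ := mul_le_mul_of_nonneg_left hP1 (by positivity)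
  have h13 : c * T * P ≤ c / 4 * T * P + (c / 4 * T * P + K * Real.log T ^ q * (n * I)) := by
    calc c * T * P ≤ _ := h10
      _ ≤ _ := h8
      _ ≤ (2 * T - T) * (2 ^ q * C ^ q * T ^ (-(δ * q))) + K * Real.log T ^ q * (n * (I + 2 * (W * T ^ (4 / 5 : ℝ)))) :=
          add_le_add le_rfl (mul_le_mul_of_nonneg_left h9 (by positivity))
      _ = (2 * T - T) * (2 ^ q * C ^ q * T ^ (-(δ * q))) + (K * Real.log T ^ q * (n * (2 * (W * T ^ (4 / 5 : ℝ)))) +
          K * Real.log T ^ q * (n * I)) := by ring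
      _ ≤ _ := add_le_add h11 (add_le_add h12 le_rfl)
  have h14 : c / 2 * T * P ≤ K * Real.log T ^ q * (n * I) := by linarith
  have hLq : 0 < Real.log T ^ q := Real.rpow_pos_of_pos hL0 _
  rw [← hPe] at h14
  have h15 : Real.log T ^ q * (c / 2 * T * Real.log T ^ ((γ * q) ^ 2 / 4 - q + 1)) ≤ Real.log T ^ q * (K * (n * I)) := by linarith
  have h16 := le_of_mul_le_mul_left h15 hLq
  calc c / (2 * K * n) * T * Real.log T ^ ((γ * q) ^ 2 / 4 - q + 1) =
      (c / 2 * T * Real.log T ^ ((γ * q) ^ 2 / 4 - q + 1)) / (K * n) := by field_simp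
    _ ≤ (K * (n * I)) / (K * n) := by gcongr
    _ = I := by field_simp

end

end Pool.Agent.H469.F4
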