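import Pool.Agent.H469.F4.M12

set_option autoImplicit false

/-!
# Moments of moments of real order: the two regions
-/

namespace Pool.Agent.H469.F4

open Filter Topology MeasureTheory Complex Pool.Agent.Q97.UM

noncomputable section

theorem Xm_le_max {γ : ℝ} (hγ : 2 ≤ γ) (x t : ℝ) : Xm γ x t ≤ Mx x t ^ (γ - 2) * Xm 2 x t := by
  unfold Xm
  rw [← intervalIntegral.integral_const_mul]
  have hc1 : Continuous fun v : ℝ => fz γ (t + v) := (fz_cont (by linarith)).comp (by fun_prop)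
  have hc2 : Continuous fun v : ℝ => Mx x t ^ (γ - 2) * fz 2 (t + v) := continuous_const.mul ((fz_cont (by norm_num)).comp (by fun_prop))
  refine intervalIntegral.integral_mono_on (by linarith) (hc1.intervalIntegrable _ _) (hc2.intervalIntegrable _ _) fun v hv => ?_
  unfold fz
  have h4 : ‖zt (t + v)‖ ^ γ = ‖zt (t + v)‖ ^ (γ - 2) * ‖zt (t + v)‖ ^ (2 : ℝ) := by
    rw [← Real.rpow_add' (norm_nonneg _) (by linarith)]
    congr 1
    ring
  rw [h4]
  apply mul_le_mul_of_nonneg_right _ (Real.rpow_nonneg (norm_nonneg _) _)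
  exact Real.rpow_le_rpow (norm_nonneg _) (le_Mx hv) (by linarith)

/-- **upper bound beyond the critical line** -/
theorem upB {γ q : ℝ} (hγ : 0 < γ) (hq : 0 < q) (hq2 : q ≤ 2) (hβ2 : 2 < γ * q) (hβ4 : γ * q ≤ 4) (hcr : 4 < q * γ ^ 2) : ∃ C : ℝ, 0 < C ∧
    ∀ᶠ T : ℝ in atTop, ∀ x : ℝ, |x| ≤ T / 8 →
      ∫ t in T..(2 * T), Xm γ x t ^ q ≤ C * T * Real.log T ^ ((γ * q) ^ 2 / 4 - q + 1) := by
  rcases lt_or_ge γ 2 with hγ2 | hγ2
  · have hq1 : 1 < q := by nlinarith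
    obtain ⟨C, hC, h⟩ := core_upper hγ hγ2.le hq1 hq2 hcr.ne'
    refine ⟨C + 1, by positivity, ?_⟩
    have hexp : max (q * γ ^ 2 / 4) (q ^ 2 * γ ^ 2 / 4 - q + 1) = (γ * q) ^ 2 / 4 - q + 1 := by
      rw [max_eq_right]
      · ring
      · nlinarith
    rw [hexp] at h
    filter_upwards [h, eventually_ge_atTop (16 : ℝ)] with T hT hT16 x hx
    refine (hT x hx).trans ?_
    have : 0 ≤ T * Real.log T ^ ((γ * q) ^ 2 / 4 - q + 1) := by
      have := Real.log_nonneg (by linarith : (1 : ℝ) ≤ T)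
      positivity
    nlinarith
  · obtain ⟨C, hC, h⟩ := core_upper (γ := 2) (q := γ * q / 2) (by norm_num) le_rfl (by linarith) (by linarith) (by intro h; linarith)
    obtain ⟨C', hC', h'⟩ := max_upper (β := γ * q) (by positivity) hβ4
    obtain ⟨θ, hθ⟩ : ∃ θ : ℝ, θ = 2 / γ := ⟨_, rfl⟩
    have hθ0 : 0 < θ := by rw [hθ]; positivity
    have hθ1 : θ ≤ 1 := by rw [hθ, div_le_one hγ]; exact hγ2
    have hβ0 : 0 < γ * q := by positivity
    refine ⟨C' ^ (1 - θ) * (C + 1) ^ θ, by positivity, ?_⟩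
    have hexp : max (γ * q / 2 * 2 ^ 2 / 4) ((γ * q / 2) ^ 2 * 2 ^ 2 / 4 - γ * q / 2 + 1) = (γ * q) ^ 2 / 4 - γ * q / 2 + 1 := by
      rw [max_eq_right]
      · ring
      · nlinarith [sq_nonneg (γ * q - 2)]
    rw [hexp] at h
    filter_upwards [h, h', eventually_ge_atTop (16 : ℝ), Real.tendsto_log_atTop.eventually_ge_atTop 1] with T hT hT' hT16 hL1 x hx
    have hT0 : 0 < T := by linarith
    have hL0 : 0 < Real.log T := by linarith
    have hMc : Continuous fun t => Mx x t ^ (γ * q) := (Mx_cont x).rpow_const fun _ => Or.inr hβ0.le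
    have hXc : Continuous fun t => Xm 2 x t ^ (γ * q / 2) := (Xm_cont (by norm_num) x).rpow_const fun _ => Or.inr (by positivity)
    have hM0 : ∀ t, 0 ≤ Mx x t ^ (γ * q) := fun t => Real.rpow_nonneg (Mx_nonneg x t) _
    have hX0 : ∀ t, 0 ≤ Xm 2 x t ^ (γ * q / 2) := fun t => Real.rpow_nonneg (Xm_nonneg 2 x t) _
    have hpt : ∀ t, Xm γ x t ^ q ≤ (Mx x t ^ (γ * q)) ^ (1 - θ) * (Xm 2 x t ^ (γ * q / 2)) ^ θ := by
      intro t
      have h1 := Real.rpow_le_rpow (Xm_nonneg γ x t) (Xm_le_max hγ2 x t) hq.le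
      refine h1.trans (le_of_eq ?_)
      rw [Real.mul_rpow (Real.rpow_nonneg (Mx_nonneg x t) _) (Xm_nonneg 2 x t), ← Real.rpow_mul (Mx_nonneg x t),
        ← Real.rpow_mul (Mx_nonneg x t), ← Real.rpow_mul (Xm_nonneg 2 x t)]
      congr 2
      · rw [hθ]
        field_simp
      · rw [hθ]
        field_simp
    have hcP : Continuous fun t => (Mx x t ^ (γ * q)) ^ (1 - θ) * (Xm 2 x t ^ (γ * q / 2)) ^ θ :=
      (hMc.rpow_const fun _ => Or.inr (by linarith)).mul (hXc.rpow_const fun _ => Or.inr hθ0.le)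
    refine (intervalIntegral.integral_mono_on (by linarith) ((Xm_pow_cont hγ hq x).intervalIntegrable _ _) (hcP.intervalIntegrable _ _)
      fun t _ => hpt t).trans ?_
    have hLp : 0 < Real.log T ^ ((γ * q) ^ 2 / 4 - γ * q / 2 + 1) := Real.rpow_pos_of_pos hL0 _
    have h6 := hold hMc hXc hM0 hX0 (by linarith : T ≤ 2 * T) hθ0.le hθ1 (A := C' * T * Real.log T ^ ((γ * q) ^ 2 / 4 + 1))
      (B := (C + 1) * T * Real.log T ^ ((γ * q) ^ 2 / 4 - γ * q / 2 + 1)) (by positivity) (by positivity) (hT' x hx) ((hT x hx).trans (by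
      have : 0 ≤ T * Real.log T ^ ((γ * q) ^ 2 / 4 - γ * q / 2 + 1) := by positivity
      nlinarith))
    refine h6.trans (le_of_eq ?_)
    rw [Real.mul_rpow (by positivity) (by positivity), Real.mul_rpow hC'.le hT0.le, Real.mul_rpow (by positivity) (by positivity),
      Real.mul_rpow (by positivity) hT0.le, ← Real.rpow_mul hL0.le, ← Real.rpow_mul hL0.le]
    have e3 : T ^ (1 - θ) * T ^ θ = T := by
      rw [← Real.rpow_add hT0]
      simp
    have e4 : Real.log T ^ (((γ * q) ^ 2 / 4 + 1) * (1 - θ)) * Real.log T ^ (((γ * q) ^ 2 / 4 - γ * q / 2 + 1) * θ) =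
        Real.log T ^ ((γ * q) ^ 2 / 4 - q + 1) := by
      rw [← Real.rpow_add hL0]
      congr 1
      rw [hθ]
      field_simp
      ring
    calc C' ^ (1 - θ) * T ^ (1 - θ) * Real.log T ^ (((γ * q) ^ 2 / 4 + 1) * (1 - θ)) *
          ((C + 1) ^ θ * T ^ θ * Real.log T ^ (((γ * q) ^ 2 / 4 - γ * q / 2 + 1) * θ)) =
        C' ^ (1 - θ) * (C + 1) ^ θ * (T ^ (1 - θ) * T ^ θ) * (Real.log T ^ (((γ * q) ^ 2 / 4 + 1) * (1 - θ)) *
          Real.log T ^ (((γ * q) ^ 2 / 4 - γ * q / 2 + 1) * θ)) := by ring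
      _ = _ := by rw [e3, e4]

/-- the first moment -/
theorem Xm_mean {γ : ℝ} (hγ : 0 < γ) (hγ4 : γ ≤ 4) : ∃ c C : ℝ, 0 < c ∧ 0 < C ∧ ∀ᶠ T : ℝ in atTop, ∀ x : ℝ, |x| ≤ T / 8 →
    c * T * Real.log T ^ (γ ^ 2 / 4) ≤ ∫ t in T..(2 * T), Xm γ x t ∧
    ∫ t in T..(2 * T), Xm γ x t ≤ C * T * Real.log T ^ (γ ^ 2 / 4) := by
  obtain ⟨c, C, hc, hC, h⟩ := one_pt hγ.le hγ4
  refine ⟨c, C, hc, hC, ?_⟩
  filter_upwards [h, eventually_ge_atTop (16 : ℝ)] with T hT hT16 x hx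
  have hx' := abs_le.1 hx
  constructor
  · have h3 := swap_bd' (p := γ) (T := T) (a := x) (b := x + 1) (B := c * T * Real.log T ^ (γ ^ 2 / 4)) hγ.le (by linarith)
      fun v hv => (hT v (abs_le.2 ⟨by linarith [hv.1, hx'.1], by linarith [hv.2, hx'.2]⟩)).1
    calc _ = (x + 1 - x) * (c * T * Real.log T ^ (γ ^ 2 / 4)) := by ring
      _ ≤ _ := h3
  · have h3 := swap_bd (p := γ) (T := T) (a := x) (b := x + 1) (B := C * T * Real.log T ^ (γ ^ 2 / 4)) hγ.le (by linarith)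
      fun v hv => (hT v (abs_le.2 ⟨by linarith [hv.1, hx'.1], by linarith [hv.2, hx'.2]⟩)).2
    calc _ ≤ _ := h3
      _ = _ := by ring

theorem int_one (T : ℝ) : ∫ _t in T..(2 * T), (1 : ℝ) = T := by
  rw [intervalIntegral.integral_const, smul_eq_mul]
  ring

/-- **upper bound before the critical line** -/
theorem upA {γ q : ℝ} (hγ : 0 < γ) (hγ2 : γ < 2) (hq : 0 < q) (hq2 : q ≤ 2) (hcr : q * γ ^ 2 < 4) : ∃ C : ℝ, 0 < C ∧
    ∀ᶠ T : ℝ in atTop, ∀ x : ℝ, |x| ≤ T / 8 → ∫ t in T..(2 * T), Xm γ x t ^ q ≤ C * T * Real.log T ^ (q * γ ^ 2 / 4) := by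
  rcases lt_or_ge 1 q with hq1 | hq1
  · obtain ⟨C, hC, h⟩ := core_upper hγ hγ2.le hq1 hq2 hcr.ne
    refine ⟨C + 1, by positivity, ?_⟩
    have hexp : max (q * γ ^ 2 / 4) (q ^ 2 * γ ^ 2 / 4 - q + 1) = q * γ ^ 2 / 4 := by
      rw [max_eq_left]
      nlinarith
    rw [hexp] at h
    filter_upwards [h, eventually_ge_atTop (16 : ℝ)] with T hT hT16 x hx
    refine (hT x hx).trans ?_
    have : 0 ≤ T * Real.log T ^ (q * γ ^ 2 / 4) := by
      have := Real.log_nonneg (by linarith : (1 : ℝ) ≤ T)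
      positivity
    nlinarith
  · obtain ⟨c, C, hc, hC, h⟩ := Xm_mean hγ (by linarith)
    refine ⟨C ^ q, by positivity, ?_⟩
    filter_upwards [h, eventually_ge_atTop (16 : ℝ), Real.tendsto_log_atTop.eventually_ge_atTop 1] with T hT hT16 hL1 x hx
    have hT0 : 0 < T := by linarith
    have hL0 : 0 < Real.log T := by linarith
    have h6 := hold (f := fun _ => (1 : ℝ)) (g := Xm γ x) continuous_const (Xm_cont hγ.le x) (fun _ => zero_le_one) (Xm_nonneg γ x)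
      (by linarith : T ≤ 2 * T) hq.le hq1 hT0 (B := C * T * Real.log T ^ (γ ^ 2 / 4)) (by positivity) (int_one T).le (hT x hx).2
    simp only [Real.one_rpow, one_mul] at h6
    refine h6.trans (le_of_eq ?_)
    rw [Real.mul_rpow (by positivity) (by positivity), Real.mul_rpow hC.le hT0.le, ← Real.rpow_mul hL0.le]
    have e3 : T ^ (1 - q) * T ^ q = T := by
      rw [← Real.rpow_add hT0]
      simp
    calc T ^ (1 - q) * (C ^ q * T ^ q * Real.log T ^ (γ ^ 2 / 4 * q)) = C ^ q * (T ^ (1 - q) * T ^ q) * Real.log T ^ (γ ^ 2 / 4 * q) := by ring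
      _ = _ := by
          rw [e3]
          congr 2
          ring

/-- **lower bound before the critical line** -/
theorem lowA {γ q : ℝ} (hγ : 0 < γ) (hγ2 : γ < 2) (hq : 0 < q) : ∃ c : ℝ, 0 < c ∧
    ∀ᶠ T : ℝ in atTop, ∀ x : ℝ, |x| ≤ T / 8 → c * T * Real.log T ^ (q * γ ^ 2 / 4) ≤ ∫ t in T..(2 * T), Xm γ x t ^ q := by
  obtain ⟨c, C, hc, hC, h⟩ := Xm_mean hγ (by linarith)
  rcases lt_or_ge q 1 with hq1 | hq1
  · -- convexity between `q`, `1` and some `r > 1`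
    obtain ⟨r, hr⟩ : ∃ r : ℝ, r = min 2 ((1 + 4 / γ ^ 2) / 2) := ⟨_, rfl⟩
    have h4 : 1 < 4 / γ ^ 2 := by
      rw [lt_div_iff₀ (by positivity)]
      nlinarith
    have hr1 : 1 < r := by
      rw [hr]
      exact lt_min (by norm_num) (by linarith)
    have hr2 : r ≤ 2 := by rw [hr]; exact min_le_left _ _
    have hrc : r * γ ^ 2 < 4 := by
      have h5 : r ≤ (1 + 4 / γ ^ 2) / 2 := by rw [hr]; exact min_le_right _ _
      calc r * γ ^ 2 ≤ (1 + 4 / γ ^ 2) / 2 * γ ^ 2 := mul_le_mul_of_nonneg_right h5 (by positivity)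
        _ = (γ ^ 2 + 4) / 2 := by field_simp
        _ < 4 := by nlinarith
    have hr0 : 0 < r := by linarith
    obtain ⟨C₂, hC₂, h₂⟩ := upA hγ hγ2 hr0 hr2 hrc
    obtain ⟨θ, hθ⟩ : ∃ θ : ℝ, θ = (1 - q) / (r - q) := ⟨_, rfl⟩
    have hrq : 0 < r - q := by linarith
    have hθ0 : 0 < θ := by rw [hθ]; exact div_pos (by linarith) hrq
    have hθ1 : θ < 1 := by rw [hθ, div_lt_one hrq]; linarith
    have hθe : q * (1 - θ) + r * θ = 1 := by
      rw [hθ]
      field_simp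
      ring
    refine ⟨(c / C₂ ^ θ) ^ (1 / (1 - θ)), by positivity, ?_⟩
    filter_upwards [h, h₂, eventually_ge_atTop (16 : ℝ), Real.tendsto_log_atTop.eventually_ge_atTop 1] with T hT hT₂ hT16 hL1 x hx
    have hT0 : 0 < T := by linarith
    have hL0 : 0 < Real.log T := by linarith
    refine le_of_forall_pos_le_add fun η hη => ?_
    have hI0 : 0 ≤ ∫ t in T..(2 * T), Xm γ x t ^ q := intervalIntegral.integral_nonneg (by linarith) fun t _ => Real.rpow_nonneg (Xm_nonneg γ x t) _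
    have hA : 0 < (∫ t in T..(2 * T), Xm γ x t ^ q) + η := by linarith
    have h6 := hold (Xm_pow_cont hγ hq x) (Xm_pow_cont hγ hr0 x) (fun t => Real.rpow_nonneg (Xm_nonneg γ x t) _)
      (fun t => Real.rpow_nonneg (Xm_nonneg γ x t) _) (by linarith : T ≤ 2 * T) hθ0.le hθ1.le hA
      (B := C₂ * T * Real.log T ^ (r * γ ^ 2 / 4)) (by positivity) (by linarith) (hT₂ x hx)
    have h7 : ∫ t in T..(2 * T), (Xm γ x t ^ q) ^ (1 - θ) * (Xm γ x t ^ r) ^ θ = ∫ t in T..(2 * T), Xm γ x t := by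
      refine intervalIntegral.integral_congr fun t _ => ?_
      show (Xm γ x t ^ q) ^ (1 - θ) * (Xm γ x t ^ r) ^ θ = Xm γ x t
      rw [← Real.rpow_mul (Xm_nonneg γ x t), ← Real.rpow_mul (Xm_nonneg γ x t), ← Real.rpow_add' (Xm_nonneg γ x t), hθe, Real.rpow_one]
      rw [hθe]
      exact one_ne_zero
    rw [h7] at h6
    refine solve hθ1 hc hC₂ hT0 hL0 hA.le ?_ ((hT x hx).1.trans h6)
    have : γ ^ 2 / 4 * (q * (1 - θ) + r * θ) = γ ^ 2 / 4 := by rw [hθe, mul_one]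
    linarith
  · obtain ⟨θ, hθ⟩ : ∃ θ : ℝ, θ = 1 - 1 / q := ⟨_, rfl⟩
    have hθ0 : 0 ≤ θ := by
      rw [hθ]
      have : 1 / q ≤ 1 := (div_le_one hq).2 hq1
      linarith
    have hθ1 : θ < 1 := by
      rw [hθ]
      have : 0 < 1 / q := by positivity
      linarith
    refine ⟨(c / (1 : ℝ) ^ θ) ^ (1 / (1 - θ)), by positivity, ?_⟩
    filter_upwards [h, eventually_ge_atTop (16 : ℝ), Real.tendsto_log_atTop.eventually_ge_atTop 1] with T hT hT16 hL1 x hx
    have hT0 : 0 < T := by linarith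
    have hL0 : 0 < Real.log T := by linarith
    refine le_of_forall_pos_le_add fun η hη => ?_
    have hI0 : 0 ≤ ∫ t in T..(2 * T), Xm γ x t ^ q := intervalIntegral.integral_nonneg (by linarith) fun t _ => Real.rpow_nonneg (Xm_nonneg γ x t) _
    have hA : 0 < (∫ t in T..(2 * T), Xm γ x t ^ q) + η := by linarith
    have h6 := hold (g := fun _ => (1 : ℝ)) (Xm_pow_cont hγ hq x) continuous_const (fun t => Real.rpow_nonneg (Xm_nonneg γ x t) _)
      (fun _ => zero_le_one) (by linarith : T ≤ 2 * T) hθ0 hθ1.le hA (B := 1 * T * Real.log T ^ (0 : ℝ)) (by positivity) (by linarith)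
      (by rw [int_one, Real.rpow_zero]; linarith)
    have h7 : ∫ t in T..(2 * T), (Xm γ x t ^ q) ^ (1 - θ) * (1 : ℝ) ^ θ = ∫ t in T..(2 * T), Xm γ x t := by
      refine intervalIntegral.integral_congr fun t _ => ?_
      show (Xm γ x t ^ q) ^ (1 - θ) * (1 : ℝ) ^ θ = Xm γ x t
      rw [Real.one_rpow, mul_one, ← Real.rpow_mul (Xm_nonneg γ x t)]
      have : q * (1 - θ) = 1 := by rw [hθ]; field_simp; ring
      rw [this, Real.rpow_one]
    rw [h7] at h6
    refine solve hθ1 hc one_pos hT0 hL0 hA.le ?_ ((hT x hx).1.trans h6)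
    rw [hθ]
    field_simp
    ring

end

end Pool.Agent.H469.F4
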