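import Pool.Agent.H469.F4.M13

set_option autoImplicit false

/-!
# Moments of moments: general fixed intervals, and means over `[0, T]`
-/

namespace Pool.Agent.H469.F4

open Filter Topology MeasureTheory Complex Pool.Agent.Q97.UM

noncomputable section

/-- the local moment over `[a, b]` -/
def Yg (γ a b t : ℝ) : ℝ := ∫ v in a..b, fz γ (t + v)

theorem Yg_cont {γ : ℝ} (hγ : 0 ≤ γ) (a b : ℝ) : Continuous (Yg γ a b) := by
  unfold Yg
  apply intervalIntegral.continuous_parametric_intervalIntegral_of_continuous'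
  exact (fz_cont hγ).comp (continuous_fst.add continuous_snd)

theorem Yg_nonneg (γ : ℝ) {a b : ℝ} (hab : a ≤ b) (t : ℝ) : 0 ≤ Yg γ a b t :=
  intervalIntegral.integral_nonneg hab fun _ _ => fz_nonneg _ _

theorem Yg_shift (γ a b j t : ℝ) : Yg γ (a + j) (b + j) t = Yg γ a b (t + j) := by
  unfold Yg
  have := intervalIntegral.integral_comp_add_left (fun v => fz γ (t + v)) j (a := a) (b := b)
  rw [add_comm a j, add_comm b j, ← this]
  exact intervalIntegral.integral_congr fun v _ => by simp only [add_assoc]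

theorem Yg_pow_cont {γ q : ℝ} (hγ : 0 < γ) (hq : 0 < q) (a b : ℝ) : Continuous fun t => Yg γ a b t ^ q :=
  (Yg_cont hγ.le a b).rpow_const fun _ => Or.inr hq.le

theorem Yg_mono {γ : ℝ} (hγ : 0 ≤ γ) {a b c d : ℝ} (h1 : c ≤ a) (h2 : a ≤ b) (h3 : b ≤ d) (t : ℝ) : Yg γ a b t ≤ Yg γ c d t := by
  have hc : Continuous fun v : ℝ => fz γ (t + v) := (fz_cont hγ).comp (by fun_prop)
  exact intervalIntegral.integral_mono_interval h1 h2 h3 (Eventually.of_forall fun _ => fz_nonneg _ _) (hc.intervalIntegrable _ _)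

/-- a chain of intervals -/
theorem Yg_chain {γ : ℝ} (hγ : 0 ≤ γ) (a d : ℝ) (n : ℕ) (t : ℝ) :
    Yg γ a (a + n * d) t = ∑ i ∈ Finset.range n, Yg γ (a + i * d) (a + d + i * d) t := by
  have hc : Continuous fun v : ℝ => fz γ (t + v) := (fz_cont hγ).comp (by fun_prop)
  have h := intervalIntegral.sum_integral_adjacent_intervals (μ := volume) (f := fun v : ℝ => fz γ (t + v))
    (a := fun i : ℕ => a + i * d) (n := n) fun k _ => hc.intervalIntegrable _ _
  unfold Yg
  have e0 : a + ((0 : ℕ) : ℝ) * d = a := by simp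
  rw [e0] at h
  rw [← h]
  refine Finset.sum_congr rfl fun i _ => ?_
  congr 1
  push_cast
  ring

/-- moving the interval -/
theorem Yg_shift_le {γ q : ℝ} (hγ : 0 < γ) (hq : 0 < q) (hβ : γ * q ≤ 4) {a b : ℝ} (hab : a ≤ b) {j : ℝ} (hj : 0 ≤ j) :
    ∀ᶠ T : ℝ in atTop, ∫ t in T..(2 * T), Yg γ (a + j) (b + j) t ^ q ≤
      (∫ t in T..(2 * T), Yg γ a b t ^ q) + (b - a) ^ q * j * T ^ (4 / 5 : ℝ) := by
  filter_upwards [pt_bd, eventually_ge_atTop (16 : ℝ), eventually_ge_atTop (8 * (|a| + |b| + j))] with T hT hT16 hTW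
  have hT0 : 0 < T := by linarith
  have ha' := abs_le.1 (le_refl |a|)
  have hb' := abs_le.1 (le_refl |b|)
  have hXc := Yg_pow_cont hγ hq a b
  have hX0 : ∀ s, 0 ≤ Yg γ a b s ^ q := fun s => Real.rpow_nonneg (Yg_nonneg γ hab s) _
  have hba : 0 ≤ b - a := by linarith
  have hsup : ∀ s, T ≤ s → s ≤ 2 * T + j → Yg γ a b s ^ q ≤ (b - a) ^ q * T ^ (4 / 5 : ℝ) := by
    intro s hs1 hs2
    have h1 : Yg γ a b s ≤ (b - a) * T ^ (γ / 5) := by
      unfold Yg
      have hc1 : Continuous fun v : ℝ => fz γ (s + v) := (fz_cont hγ.le).comp (by fun_prop)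
      have h2 := intervalIntegral.integral_mono_on (μ := volume) hab (hc1.intervalIntegrable _ _)
        ((continuous_const (y := T ^ (γ / 5))).intervalIntegrable a b) (fun v hv => by
          have h3 := hT (s + v) (by linarith [hv.1, abs_nonneg b]) (by linarith [hv.2, abs_nonneg a])
          unfold fz
          calc ‖zt (s + v)‖ ^ γ ≤ (T ^ (1 / 5 : ℝ)) ^ γ := Real.rpow_le_rpow (norm_nonneg _) h3 hγ.le
            _ = T ^ (γ / 5) := by
                rw [← Real.rpow_mul hT0.le]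
                congr 1
                ring)
      rwa [intervalIntegral.integral_const, smul_eq_mul] at h2
    calc Yg γ a b s ^ q ≤ ((b - a) * T ^ (γ / 5)) ^ q := Real.rpow_le_rpow (Yg_nonneg γ hab s) h1 hq.le
      _ = (b - a) ^ q * T ^ (γ * q / 5) := by
          rw [Real.mul_rpow hba (by positivity), ← Real.rpow_mul hT0.le]
          congr 2
          ring
      _ ≤ _ := by
          apply mul_le_mul_of_nonneg_left _ (by positivity)
          exact Real.rpow_le_rpow_of_exponent_le (by linarith) (by linarith)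
  have e1 : ∫ t in T..(2 * T), Yg γ (a + j) (b + j) t ^ q = ∫ s in (T + j)..(2 * T + j), Yg γ a b s ^ q := by
    rw [← intervalIntegral.integral_comp_add_right (fun s => Yg γ a b s ^ q) j]
    exact intervalIntegral.integral_congr fun t _ => by simp only [Yg_shift]
  have e2 : ∫ s in (T + j)..(2 * T + j), Yg γ a b s ^ q ≤ ∫ s in T..(2 * T + j), Yg γ a b s ^ q :=
    intervalIntegral.integral_mono_interval (by linarith) (by linarith) le_rfl (Eventually.of_forall hX0) (hXc.intervalIntegrable _ _)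
  rw [e1]
  refine e2.trans ?_
  rw [← intervalIntegral.integral_add_adjacent_intervals (hXc.intervalIntegrable T (2 * T)) (hXc.intervalIntegrable (2 * T) (2 * T + j))]
  apply add_le_add le_rfl
  have h2 := intervalIntegral.integral_mono_on (μ := volume) (by linarith : 2 * T ≤ 2 * T + j) (hXc.intervalIntegrable _ _)
    ((continuous_const (y := (b - a) ^ q * T ^ (4 / 5 : ℝ))).intervalIntegrable (2 * T) (2 * T + j))
    (fun s hs => hsup s (by linarith [hs.1]) hs.2)
  rw [intervalIntegral.integral_const, smul_eq_mul] at h2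
  calc _ ≤ _ := h2
    _ = _ := by ring

/-- from unit intervals to `[a, b]`, upper bounds -/
theorem gen_up {γ q e : ℝ} (hγ : 0 < γ) (hq : 0 < q) (h : ∃ C : ℝ, 0 < C ∧ ∀ᶠ T : ℝ in atTop, ∀ x : ℝ, |x| ≤ T / 8 →
    ∫ t in T..(2 * T), Xm γ x t ^ q ≤ C * T * Real.log T ^ e) {a b : ℝ} (hab : a < b) :
    ∃ C : ℝ, 0 < C ∧ ∀ᶠ T : ℝ in atTop, ∫ t in T..(2 * T), Yg γ a b t ^ q ≤ C * T * Real.log T ^ e := by
  obtain ⟨C, hC, h⟩ := h
  obtain ⟨n, hn⟩ := exists_nat_ge (b - a)
  have hn0 : (0 : ℝ) < n := by linarith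
  refine ⟨(n : ℝ) ^ q * n * C, by positivity, ?_⟩
  filter_upwards [h, eventually_ge_atTop (16 : ℝ), eventually_ge_atTop (8 * (|a| + n))] with T hT hT16 hTa
  have hT0 : 0 < T := by linarith
  have hpt : ∀ t, Yg γ a b t ^ q ≤ (n : ℝ) ^ q * ∑ i ∈ Finset.range n, Xm γ (a + i) t ^ q := by
    intro t
    have h1 : Yg γ a b t ≤ ∑ i ∈ Finset.range n, Xm γ (a + i) t := by
      refine (Yg_mono hγ.le le_rfl hab.le (by linarith : b ≤ a + n * 1) t).trans ?_
      rw [Yg_chain hγ.le]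
      refine Finset.sum_le_sum fun i _ => le_of_eq ?_
      unfold Yg Xm
      congr 1
      · ring
      · ring
    have h2 := sum_rpow_card hq (Finset.range n) (fun i => Xm γ (a + i) t) fun i _ => Xm_nonneg _ _ _
    rw [Finset.card_range] at h2
    exact (Real.rpow_le_rpow (Yg_nonneg γ hab.le t) h1 hq.le).trans h2
  have hSc : Continuous fun t => (n : ℝ) ^ q * ∑ i ∈ Finset.range n, Xm γ (a + i) t ^ q :=
    continuous_const.mul (continuous_finsetSum _ fun i _ => Xm_pow_cont hγ hq _)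
  refine (intervalIntegral.integral_mono_on (by linarith) ((Yg_pow_cont hγ hq a b).intervalIntegrable _ _) (hSc.intervalIntegrable _ _)
    fun t _ => hpt t).trans ?_
  rw [intervalIntegral.integral_const_mul, intervalIntegral.integral_finsetSum fun i _ => (Xm_pow_cont hγ hq _).intervalIntegrable _ _]
  have h3 : ∑ i ∈ Finset.range n, ∫ t in T..(2 * T), Xm γ (a + i) t ^ q ≤ ∑ i ∈ Finset.range n, C * T * Real.log T ^ e := by
    refine Finset.sum_le_sum fun i hi => hT _ ?_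
    have hi' : (i : ℝ) ≤ n := by exact_mod_cast (Finset.mem_range.1 hi).le
    have hi0 : (0 : ℝ) ≤ i := Nat.cast_nonneg _
    calc |a + (i : ℝ)| ≤ |a| + |(i : ℝ)| := abs_add_le _ _
      _ = |a| + i := by rw [abs_of_nonneg hi0]
      _ ≤ T / 8 := by linarith
  rw [Finset.sum_const, Finset.card_range, nsmul_eq_mul] at h3
  calc _ ≤ (n : ℝ) ^ q * (n * (C * T * Real.log T ^ e)) := mul_le_mul_of_nonneg_left h3 (by positivity)
    _ = _ := by ring

/-- from unit intervals to `[a, b]`, lower bounds -/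
theorem gen_low {γ q e : ℝ} (hγ : 0 < γ) (hq : 0 < q) (hβ : γ * q ≤ 4) (he : 0 ≤ e) (h : ∃ c : ℝ, 0 < c ∧ ∀ᶠ T : ℝ in atTop, ∀ x : ℝ, |x| ≤ T / 8 →
    c * T * Real.log T ^ e ≤ ∫ t in T..(2 * T), Xm γ x t ^ q) {a b : ℝ} (hab : a < b) :
    ∃ c : ℝ, 0 < c ∧ ∀ᶠ T : ℝ in atTop, c * T * Real.log T ^ e ≤ ∫ t in T..(2 * T), Yg γ a b t ^ q := by
  obtain ⟨c, hc, h⟩ := h
  obtain ⟨d, hd⟩ : ∃ d : ℝ, d = b - a := ⟨_, rfl⟩
  have hd0 : 0 < d := by linarith
  obtain ⟨n, hn⟩ := exists_nat_ge (1 / d)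
  have hn1 : 1 ≤ (n : ℝ) * d := by
    rw [div_le_iff₀ hd0] at hn
    exact hn
  have hn0 : (0 : ℝ) < n := by
    rcases Nat.eq_zero_or_pos n with h | h
    · rw [h] at hn1; norm_num at hn1
    · exact_mod_cast h
  have hs : ∀ᶠ T : ℝ in atTop, ∀ i ∈ Finset.range n, ∫ t in T..(2 * T), Yg γ (a + i * d) (b + i * d) t ^ q ≤
      (∫ t in T..(2 * T), Yg γ a b t ^ q) + (b - a) ^ q * (i * d) * T ^ (4 / 5 : ℝ) := by
    rw [Filter.eventually_all_finset]
    intro i _
    exact Yg_shift_le hγ hq hβ hab.le (by positivity)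
  obtain ⟨K, hK⟩ : ∃ K : ℝ, K = (n : ℝ) ^ q * n * (d ^ q * (n * d)) := ⟨_, rfl⟩
  have hK0 : 0 ≤ K := by rw [hK]; positivity
  have hsm : ∀ᶠ T : ℝ in atTop, K ≤ c / 2 * T ^ (1 / 5 : ℝ) := by
    have := (tendsto_rpow_atTop (show (0 : ℝ) < 1 / 5 by norm_num)).eventually_ge_atTop (K / (c / 2))
    filter_upwards [this] with T hT
    rw [div_le_iff₀ (by positivity)] at hT
    linarith
  refine ⟨c / 2 / ((n : ℝ) ^ q * n), by positivity, ?_⟩
  filter_upwards [h, hs, hsm, eventually_ge_atTop (16 : ℝ), eventually_ge_atTop (8 * |a|), Real.tendsto_log_atTop.eventually_ge_atTop 1]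
    with T hT hs hsm hT16 hTa hL1
  have hT0 : 0 < T := by linarith
  obtain ⟨I, hI⟩ : ∃ I : ℝ, I = ∫ t in T..(2 * T), Yg γ a b t ^ q := ⟨_, rfl⟩
  rw [← hI] at hs ⊢
  have h1 := hT a (by linarith)
  have hpt : ∀ t, Xm γ a t ^ q ≤ (n : ℝ) ^ q * ∑ i ∈ Finset.range n, Yg γ (a + i * d) (b + i * d) t ^ q := by
    intro t
    have h1 : Xm γ a t ≤ ∑ i ∈ Finset.range n, Yg γ (a + (i : ℝ) * d) (b + (i : ℝ) * d) t := by
      have e1 : Xm γ a t = Yg γ a (a + 1) t := rfl
      rw [e1]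
      refine (Yg_mono hγ.le le_rfl (by linarith) (by linarith : a + 1 ≤ a + n * d) t).trans ?_
      rw [Yg_chain hγ.le]
      refine Finset.sum_le_sum fun i _ => le_of_eq ?_
      have : a + d = b := by linarith
      rw [this]
    have h2 := sum_rpow_card hq (Finset.range n) (fun i : ℕ => Yg γ (a + (i : ℝ) * d) (b + (i : ℝ) * d) t)
      fun i _ => Yg_nonneg _ (by linarith) _
    rw [Finset.card_range] at h2
    exact (Real.rpow_le_rpow (Xm_nonneg γ a t) h1 hq.le).trans h2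
  have hSc : Continuous fun t => (n : ℝ) ^ q * ∑ i ∈ Finset.range n, Yg γ (a + i * d) (b + i * d) t ^ q :=
    continuous_const.mul (continuous_finsetSum _ fun i _ => Yg_pow_cont hγ hq _ _)
  have h2 := intervalIntegral.integral_mono_on (μ := volume) (by linarith : T ≤ 2 * T) ((Xm_pow_cont hγ hq a).intervalIntegrable _ _)
    (hSc.intervalIntegrable _ _) fun t _ => hpt t
  rw [intervalIntegral.integral_const_mul, intervalIntegral.integral_finsetSum fun i _ => (Yg_pow_cont hγ hq _ _).intervalIntegrable _ _] at h2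
  have h3 : ∑ i ∈ Finset.range n, ∫ t in T..(2 * T), Yg γ (a + i * d) (b + i * d) t ^ q ≤
      ∑ i ∈ Finset.range n, (I + d ^ q * (n * d) * T ^ (4 / 5 : ℝ)) := by
    refine Finset.sum_le_sum fun i hi => (hs i hi).trans ?_
    have hi' : (i : ℝ) ≤ n := by exact_mod_cast (Finset.mem_range.1 hi).le
    rw [← hd]
    gcongr
  rw [Finset.sum_const, Finset.card_range, nsmul_eq_mul] at h3
  have hTT : T ^ (1 / 5 : ℝ) * T ^ (4 / 5 : ℝ) = T := by
    rw [← Real.rpow_add hT0]
    norm_num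
  have hP1 : 1 ≤ Real.log T ^ e := Real.one_le_rpow hL1 he
  have h4 : K * T ^ (4 / 5 : ℝ) ≤ c / 2 * T * Real.log T ^ e := by
    calc K * T ^ (4 / 5 : ℝ) ≤ (c / 2 * T ^ (1 / 5 : ℝ)) * T ^ (4 / 5 : ℝ) := mul_le_mul_of_nonneg_right hsm (by positivity)
      _ = c / 2 * T * 1 := by rw [mul_assoc, hTT]; ring
      _ ≤ _ := mul_le_mul_of_nonneg_left hP1 (by positivity)
  have h5 : c * T * Real.log T ^ e ≤ (n : ℝ) ^ q * n * I + K * T ^ (4 / 5 : ℝ) := by
    calc _ ≤ _ := h1
      _ ≤ _ := h2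
      _ ≤ (n : ℝ) ^ q * (n * (I + d ^ q * (n * d) * T ^ (4 / 5 : ℝ))) := mul_le_mul_of_nonneg_left h3 (by positivity)
      _ = _ := by rw [hK]; ring
  have h6 : c / 2 * T * Real.log T ^ e ≤ (n : ℝ) ^ q * n * I := by linarith
  calc c / 2 / ((n : ℝ) ^ q * n) * T * Real.log T ^ e = (c / 2 * T * Real.log T ^ e) / ((n : ℝ) ^ q * n) := by ring
    _ ≤ ((n : ℝ) ^ q * n * I) / ((n : ℝ) ^ q * n) := by gcongr
    _ = I := by field_simp

/-- from dyadic intervals to `[0, T]`, upper bounds -/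
theorem dy_up {g : ℝ → ℝ} (hg : Continuous g) (g0 : ∀ t, 0 ≤ g t) {e : ℝ} (he : 0 ≤ e)
    (h : ∃ C : ℝ, 0 < C ∧ ∀ᶠ T : ℝ in atTop, ∫ t in T..(2 * T), g t ≤ C * T * Real.log T ^ e) :
    ∃ C : ℝ, 0 < C ∧ ∀ᶠ T : ℝ in atTop, (1 / T) * ∫ t in (0 : ℝ)..T, g t ≤ C * Real.log T ^ e := by
  obtain ⟨C, hC, h⟩ := h
  rw [Filter.eventually_atTop] at h
  obtain ⟨T₀, h⟩ := h
  obtain ⟨T₁, hT₁⟩ : ∃ T₁ : ℝ, T₁ = max T₀ 16 := ⟨_, rfl⟩
  have hT10 : T₀ ≤ T₁ := by rw [hT₁]; exact le_max_left _ _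
  have hT116 : 16 ≤ T₁ := by rw [hT₁]; exact le_max_right _ _
  have hgi : ∀ a b : ℝ, IntervalIntegrable g volume a b := fun a b => hg.intervalIntegrable a b
  have key : ∀ n : ℕ, ∀ T : ℝ, T₁ ≤ T → T ≤ 2 ^ n * T₁ → ∫ t in T₁..T, g t ≤ 2 * C * T * Real.log T ^ e := by
    intro n
    induction n with
    | zero =>
      intro T h1 h2
      have h3 : T = T₁ := by
        rw [pow_zero, one_mul] at h2
        exact le_antisymm h2 h1
      rw [h3, intervalIntegral.integral_same]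
      have : 0 ≤ Real.log T₁ := Real.log_nonneg (by linarith)
      positivity
    | succ n ih =>
      intro T h1 h2
      have hT0 : 0 < T := by linarith
      have hL : 0 ≤ Real.log T := Real.log_nonneg (by linarith)
      rcases le_or_gt T (2 * T₁) with h3 | h3
      · calc ∫ t in T₁..T, g t ≤ ∫ t in T₁..(2 * T₁), g t :=
              intervalIntegral.integral_mono_interval le_rfl h1 h3 (Eventually.of_forall g0) (hgi _ _)
          _ ≤ C * T₁ * Real.log T₁ ^ e := h T₁ hT10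
          _ ≤ C * T * Real.log T ^ e := by
              have : 0 ≤ Real.log T₁ := Real.log_nonneg (by linarith)
              have h4 : Real.log T₁ ≤ Real.log T := Real.log_le_log (by linarith) h1
              gcongr
          _ ≤ 2 * C * T * Real.log T ^ e := by
              have : 0 ≤ C * T * Real.log T ^ e := by positivity
              nlinarith
      · have h4 : ∫ t in T₁..(T / 2), g t ≤ 2 * C * (T / 2) * Real.log (T / 2) ^ e := ih (T / 2) (by linarith) (by
          rw [pow_succ] at h2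
          linarith)
        have h5 : ∫ t in (T / 2)..T, g t ≤ C * (T / 2) * Real.log (T / 2) ^ e := by
          have := h (T / 2) (by linarith)
          rwa [show 2 * (T / 2) = T by ring] at this
        have h6 : Real.log (T / 2) ^ e ≤ Real.log T ^ e := by
          apply Real.rpow_le_rpow (Real.log_nonneg (by linarith)) _ he
          exact Real.log_le_log (by linarith) (by linarith)
        rw [← intervalIntegral.integral_add_adjacent_intervals (hgi T₁ (T / 2)) (hgi (T / 2) T)]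
        calc _ ≤ 2 * C * (T / 2) * Real.log (T / 2) ^ e + C * (T / 2) * Real.log (T / 2) ^ e := add_le_add h4 h5
          _ = 3 / 2 * C * T * Real.log (T / 2) ^ e := by ring
          _ ≤ 3 / 2 * C * T * Real.log T ^ e := mul_le_mul_of_nonneg_left h6 (by positivity)
          _ ≤ 2 * C * T * Real.log T ^ e := by
              have : 0 ≤ C * T * Real.log T ^ e := by positivity
              nlinarith
  refine ⟨2 * C + 1, by positivity, ?_⟩
  obtain ⟨K, hK⟩ : ∃ K : ℝ, K = ∫ t in (0 : ℝ)..T₁, g t := ⟨_, rfl⟩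
  filter_upwards [eventually_ge_atTop T₁, eventually_ge_atTop K, Real.tendsto_log_atTop.eventually_ge_atTop 1] with T hT hTK hL1
  have hT0 : 0 < T := by linarith
  obtain ⟨n, hn⟩ : ∃ n : ℕ, T ≤ 2 ^ n * T₁ := by
    obtain ⟨n, hn⟩ := pow_unbounded_of_one_lt T (by norm_num : (1 : ℝ) < 2)
    exact ⟨n, hn.le.trans (le_mul_of_one_le_right (by positivity) (by linarith))⟩
  have h1 := key n T hT hn
  have hP1 : 1 ≤ Real.log T ^ e := Real.one_le_rpow hL1 he
  rw [← intervalIntegral.integral_add_adjacent_intervals (hgi 0 T₁) (hgi T₁ T), ← hK, one_div, inv_mul_le_iff₀ hT0]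
  calc K + ∫ t in T₁..T, g t ≤ T * 1 + 2 * C * T * Real.log T ^ e := by linarith
    _ ≤ T * Real.log T ^ e + 2 * C * T * Real.log T ^ e := by
        apply add_le_add _ le_rfl
        exact mul_le_mul_of_nonneg_left hP1 hT0.le
    _ = _ := by ring

/-- from dyadic intervals to `[0, T]`, lower bounds -/
theorem dy_low {g : ℝ → ℝ} (hg : Continuous g) (g0 : ∀ t, 0 ≤ g t) {e : ℝ} (he : 0 ≤ e)
    (h : ∃ c : ℝ, 0 < c ∧ ∀ᶠ T : ℝ in atTop, c * T * Real.log T ^ e ≤ ∫ t in T..(2 * T), g t) :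
    ∃ c : ℝ, 0 < c ∧ ∀ᶠ T : ℝ in atTop, c * Real.log T ^ e ≤ (1 / T) * ∫ t in (0 : ℝ)..T, g t := by
  obtain ⟨c, hc, h⟩ := h
  refine ⟨c / 2 * (1 / 2) ^ e, by positivity, ?_⟩
  have h2 : ∀ᶠ T : ℝ in atTop, c * (T / 2) * Real.log (T / 2) ^ e ≤ ∫ t in (T / 2)..(2 * (T / 2)), g t :=
    (tendsto_id.atTop_div_const (by norm_num : (0 : ℝ) < 2)).eventually h
  filter_upwards [h2, eventually_ge_atTop (16 : ℝ)] with T hT hT16
  have hT0 : 0 < T := by linarith
  have hgi : ∀ a b : ℝ, IntervalIntegrable g volume a b := fun a b => hg.intervalIntegrable a b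
  rw [show 2 * (T / 2) = T by ring] at hT
  have h3 : ∫ t in (T / 2)..T, g t ≤ ∫ t in (0 : ℝ)..T, g t :=
    intervalIntegral.integral_mono_interval (by linarith) (by linarith) le_rfl (Eventually.of_forall g0) (hgi _ _)
  have hL0 : 0 ≤ Real.log T := Real.log_nonneg (by linarith)
  have h4 : 1 / 2 * Real.log T ≤ Real.log (T / 2) := by
    rw [Real.log_div hT0.ne' (by norm_num)]
    have h5 : 2 * Real.log 2 ≤ Real.log T := by
      rw [show 2 * Real.log 2 = Real.log 4 by
        rw [show (4 : ℝ) = 2 ^ 2 by norm_num, Real.log_pow]; norm_num]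
      exact Real.log_le_log (by norm_num) (by linarith)
    linarith
  have h5 : (1 / 2) ^ e * Real.log T ^ e ≤ Real.log (T / 2) ^ e := by
    rw [← Real.mul_rpow (by norm_num) hL0]
    exact Real.rpow_le_rpow (by positivity) h4 he
  rw [show (1 : ℝ) / T = T⁻¹ from one_div T, le_inv_mul_iff₀ hT0]
  calc T * (c / 2 * (1 / 2) ^ e * Real.log T ^ e) = c * (T / 2) * ((1 / 2) ^ e * Real.log T ^ e) := by ring
    _ ≤ c * (T / 2) * Real.log (T / 2) ^ e := mul_le_mul_of_nonneg_left h5 (by positivity)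
    _ ≤ _ := hT.trans h3

end

end Pool.Agent.H469.F4
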