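import Pool.Agent.H469.F4.M14

set_option autoImplicit false

/-!
# Local maxima over intervals of length `0 ≤ H ≤ 1`, uniformly
-/

namespace Pool.Agent.H469.F4

open Filter Topology MeasureTheory Complex Pool.Agent.Q97.UM

noncomputable section

/-- the weight -/
def ww (L y : ℝ) : ℝ := ((1 + 1 / 2 * L * |y|) ^ 2)⁻¹

theorem ww_cont {L : ℝ} (hL : 0 ≤ L) : Continuous (ww L) := by
  unfold ww
  apply Continuous.inv₀ (by fun_prop)
  intro y
  positivity

theorem ww_nonneg (L y : ℝ) : 0 ≤ ww L y := by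
  unfold ww
  positivity

/-- the mass of the weight -/
theorem ww_int {L : ℝ} (hL : 0 < L) {W : ℝ} (hW : 0 ≤ W) : ∫ y in (-W)..W, ww L y ≤ 4 / L := by
  have hc := ww_cont hL.le
  have hev : ∫ y in (-W)..0, ww L y = ∫ y in (0 : ℝ)..W, ww L y := by
    have := intervalIntegral.integral_comp_neg (ww L) (a := 0) (b := W)
    rw [neg_zero] at this
    rw [← this]
    refine intervalIntegral.integral_congr fun y _ => ?_
    simp only [ww, abs_neg]
  rw [← intervalIntegral.integral_add_adjacent_intervals (hc.intervalIntegrable (-W) 0) (hc.intervalIntegrable 0 W), hev]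
  have h1 : ∫ y in (0 : ℝ)..W, ww L y = (-(2 / L) * (1 + 1 / 2 * L * W)⁻¹) - (-(2 / L) * (1 + 1 / 2 * L * 0)⁻¹) := by
    apply intervalIntegral.integral_eq_sub_of_hasDerivAt
    · intro y hy
      rw [Set.uIcc_of_le hW] at hy
      have h2 : 0 < 1 + 1 / 2 * L * y := by
        have : 0 ≤ 1 / 2 * L * y := mul_nonneg (by positivity) hy.1
        linarith
      have h3 : HasDerivAt (fun y : ℝ => 1 + 1 / 2 * L * y) (1 / 2 * L) y := by
        have := ((hasDerivAt_id y).const_mul (1 / 2 * L)).const_add 1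
        simpa using this
      have h4 := (h3.inv h2.ne').const_mul (-(2 / L))
      refine h4.congr_deriv ?_
      unfold ww
      rw [abs_of_nonneg hy.1]
      field_simp
    · exact hc.intervalIntegrable _ _
  rw [h1]
  have h5 : 0 ≤ (1 + 1 / 2 * L * W)⁻¹ := by positivity
  have h6 : 0 ≤ 2 / L * (1 + 1 / 2 * L * W)⁻¹ := by positivity
  rw [mul_zero, add_zero, inv_one]
  have h7 : 4 / L = 2 * (2 / L) := by ring
  rw [h7]
  linarith

/-- **the local inequality with its weight** -/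
theorem loc_supw {p : ℝ} (hp : 0 < p) : ∃ W : ℕ, ∃ δ C : ℝ, 0 < δ ∧ 0 < C ∧ ∀ᶠ T : ℝ in atTop, ∀ τ : ℝ, T / 2 ≤ τ → τ ≤ 4 * T →
    fz p τ ≤ C * T ^ (-δ) + C * Real.log T * ∫ y in (-(W : ℝ))..W, ww (Real.log T) y * fz p (τ + y) := by
  obtain ⟨W, δ, K, T₁, hW, hδ, hK, hT1, hT1W, h⟩ := Pool.Agent.Helper156_SP.der_up 0 hp (κ := 1 / 2) (by norm_num)
  obtain ⟨W', hW'⟩ := exists_nat_ge W
  refine ⟨W', δ, max (K * 2 ^ δ) (3 * K), hδ, by positivity, ?_⟩
  filter_upwards [eventually_ge_atTop (2 * T₁), eventually_ge_atTop (16 : ℝ)] with T hT hT16 τ hτ1 hτ2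
  have hT0 : 0 < T := by linarith
  have hτ0 : 0 < τ := by linarith
  have hlog : (1 / 2 : ℝ) * Real.log (4 * T) ≤ Real.log τ := by
    have h1 : Real.log (T / 2) ≤ Real.log τ := Real.log_le_log (by positivity) hτ1
    have h2 : Real.log (4 * T) = Real.log 4 + Real.log T := Real.log_mul (by norm_num) hT0.ne'
    have h3 : Real.log (T / 2) = Real.log T - Real.log 2 := Real.log_div hT0.ne' (by norm_num)
    have h4 : Real.log 4 = 2 * Real.log 2 := by
      rw [show (4 : ℝ) = 2 ^ 2 by norm_num, Real.log_pow]; norm_num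
    have h5 : 4 * Real.log 2 ≤ Real.log T := by
      rw [show 4 * Real.log 2 = Real.log 16 by
        rw [show (16 : ℝ) = 2 ^ 4 by norm_num, Real.log_pow]; norm_num]
      exact Real.log_le_log (by norm_num) hT16
    linarith
  have h1 := h (4 * T) τ (by linarith) hτ2 hlog 1 (fun _ => 0) (fun _ => p) (by simp) (fun _ => hp.le) (by simp)
  rw [Fin.prod_univ_one, Fin.sum_univ_one] at h1
  have e1 : ((0 : ℕ) : ℝ) * p = 0 := by simp
  simp only [e1, Real.rpow_zero, one_mul] at h1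
  have e2 : ∀ x : ℝ, Pool.Agent.Helper156_SP.az x ^ p = fz p x := fun x => rfl
  have e3 : Pool.Agent.Helper156_SP.dz 0 τ ^ p = fz p τ := rfl
  rw [e3] at h1
  simp only [e2] at h1
  refine h1.trans ?_
  have hlog0 : 0 ≤ Real.log T := Real.log_nonneg (by linarith)
  have hfc : Continuous fun y : ℝ => fz p (τ + y) := (fz_cont hp.le).comp (by fun_prop)
  have hwc := ww_cont hlog0
  have hlog4 : Real.log (4 * T) ≤ 3 * Real.log T := by
    rw [Real.log_mul (by norm_num) hT0.ne']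
    have : Real.log 4 ≤ Real.log T := Real.log_le_log (by norm_num) (by linarith)
    linarith
  have hlog1 : Real.log T ≤ Real.log (4 * T) := Real.log_le_log hT0 (by linarith)
  have hI1 : ∫ y in (-W)..W, ((1 + 1 / 2 * Real.log (4 * T) * |y|) ^ 2)⁻¹ * fz p (τ + y) ≤ ∫ y in (-W)..W, ww (Real.log T) y * fz p (τ + y) := by
    have hwc' : Continuous fun y : ℝ => ((1 + 1 / 2 * Real.log (4 * T) * |y|) ^ 2)⁻¹ := by
      have hl : 0 ≤ Real.log (4 * T) := Real.log_nonneg (by linarith)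
      apply Continuous.inv₀ (by fun_prop)
      intro y
      positivity
    refine intervalIntegral.integral_mono_on (by linarith) ((hwc'.mul hfc).intervalIntegrable _ _) ((hwc.mul hfc).intervalIntegrable _ _) fun y _ => ?_
    have h2 : ((1 + 1 / 2 * Real.log (4 * T) * |y|) ^ 2)⁻¹ ≤ ww (Real.log T) y := by
      unfold ww
      apply inv_anti₀ (by positivity)
      have := abs_nonneg y
      gcongr
    exact mul_le_mul_of_nonneg_right h2 (fz_nonneg _ _)
  have hnn : ∀ y, 0 ≤ ww (Real.log T) y * fz p (τ + y) := fun y => mul_nonneg (ww_nonneg _ _) (fz_nonneg _ _)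
  have hI2 : ∫ y in (-W)..W, ww (Real.log T) y * fz p (τ + y) ≤ ∫ y in (-(W' : ℝ))..W', ww (Real.log T) y * fz p (τ + y) :=
    intervalIntegral.integral_mono_interval (by linarith) (by linarith) hW' (Eventually.of_forall hnn)
      ((hwc.mul hfc).intervalIntegrable _ _)
  have hI0 : 0 ≤ ∫ y in (-W)..W, ((1 + 1 / 2 * Real.log (4 * T) * |y|) ^ 2)⁻¹ * fz p (τ + y) :=
    intervalIntegral.integral_nonneg (by linarith) fun y _ => by
      have := fz_nonneg p (τ + y)
      positivity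
  have hA : K * τ ^ (-δ) ≤ max (K * 2 ^ δ) (3 * K) * T ^ (-δ) := by
    calc K * τ ^ (-δ) ≤ K * (T / 2) ^ (-δ) := by
          apply mul_le_mul_of_nonneg_left _ (by linarith)
          exact Real.rpow_le_rpow_of_nonpos (by positivity) hτ1 (by linarith)
      _ = (K * 2 ^ δ) * T ^ (-δ) := by
          rw [Real.div_rpow hT0.le (by norm_num), Real.rpow_neg (by norm_num : (0 : ℝ) ≤ 2)]
          field_simp
      _ ≤ _ := mul_le_mul_of_nonneg_right (le_max_left _ _) (by positivity)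
  have hB : K * Real.log (4 * T) * ∫ y in (-W)..W, ((1 + 1 / 2 * Real.log (4 * T) * |y|) ^ 2)⁻¹ * fz p (τ + y) ≤
      max (K * 2 ^ δ) (3 * K) * Real.log T * ∫ y in (-(W' : ℝ))..W', ww (Real.log T) y * fz p (τ + y) := by
    have h3 : K * Real.log (4 * T) ≤ max (K * 2 ^ δ) (3 * K) * Real.log T := by
      calc K * Real.log (4 * T) ≤ K * (3 * Real.log T) := mul_le_mul_of_nonneg_left hlog4 (by linarith)
        _ = (3 * K) * Real.log T := by ring
        _ ≤ _ := mul_le_mul_of_nonneg_right (le_max_right _ _) hlog0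
    exact mul_le_mul h3 (hI1.trans hI2) hI0 (by positivity)
  linarith

/-- the local maximum over an interval of length `H` -/
def MH (H x t : ℝ) : ℝ := sSup ((fun h : ℝ => ‖zt (t + h)‖) '' Set.Icc x (x + H))

theorem MH_bdd (H x t : ℝ) : BddAbove ((fun h : ℝ => ‖zt (t + h)‖) '' Set.Icc x (x + H)) :=
  isCompact_Icc.bddAbove_image (zth_cont t).continuousOn

theorem le_MH {H x t h : ℝ} (hh : h ∈ Set.Icc x (x + H)) : ‖zt (t + h)‖ ≤ MH H x t :=
  le_csSup (MH_bdd H x t) ⟨h, hh, rfl⟩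

theorem MH_nonneg {H : ℝ} (hH : 0 ≤ H) (x t : ℝ) : 0 ≤ MH H x t :=
  (norm_nonneg _).trans (le_MH (h := x) ⟨le_rfl, by linarith⟩)

theorem ex_MH {H : ℝ} (hH : 0 ≤ H) (x t : ℝ) : ∃ h ∈ Set.Icc x (x + H), MH H x t = ‖zt (t + h)‖ := by
  have hne : (Set.Icc x (x + H)).Nonempty := ⟨x, le_rfl, by linarith⟩
  obtain ⟨h, hh, he⟩ := isCompact_Icc.exists_sSup_image_eq hne (zth_cont t).continuousOn
  exact ⟨h, hh, he⟩

theorem MH_cont (H x : ℝ) : Continuous (MH H x) := by
  have h1 : Continuous (Function.uncurry fun t h : ℝ => ‖zt (t + h)‖) :=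
    (ztc.comp (continuous_fst.add continuous_snd)).norm
  exact isCompact_Icc.continuous_sSup h1

/-- intervals of length `1/log T` -/
theorem micro_upper {β : ℝ} (hβ0 : 0 < β) (hβ4 : β ≤ 4) : ∃ C : ℝ, 0 < C ∧ ∀ᶠ T : ℝ in atTop, ∀ x : ℝ, |x| ≤ T / 8 →
    ∫ t in T..(2 * T), MH (1 / Real.log T) x t ^ β ≤ C * T * Real.log T ^ (β ^ 2 / 4) := by
  obtain ⟨W, δ, C, hδ, hC, h⟩ := loc_supw hβ0
  obtain ⟨c₁, C₁, hc₁, hC₁, h1⟩ := one_pt hβ0.le hβ4
  refine ⟨C * (1 + 9 * C₁), by positivity, ?_⟩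
  filter_upwards [h, h1, eventually_ge_atTop (16 : ℝ), eventually_ge_atTop (16 * ((W : ℝ) + 2)),
    Real.tendsto_log_atTop.eventually_ge_atTop 1] with T hT h1 hT16 hTW hL1 x hx
  have hT0 : 0 < T := by linarith
  have hL0 : 0 < Real.log T := by linarith
  obtain ⟨L, hL⟩ : ∃ L : ℝ, L = Real.log T := ⟨_, rfl⟩
  rw [← hL] at hT h1 hL1 hL0 ⊢
  have hH0 : 0 ≤ 1 / L := by positivity
  have hH1 : 1 / L ≤ 1 := (div_le_one hL0).2 hL1
  have hW : (0 : ℝ) ≤ W := Nat.cast_nonneg _
  have hx' := abs_le.1 hx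
  have hwc := ww_cont hL0.le
  -- pointwise
  have hpt : ∀ t ∈ Set.Icc T (2 * T), MH (1 / L) x t ^ β ≤ C * T ^ (-δ) +
      C * L * ∫ v in (-((W : ℝ) + 1))..(W + 1), 9 / 4 * ww L v * fz β (t + (x + v)) := by
    intro t ht
    obtain ⟨h, hh, he⟩ := ex_MH hH0 x t
    have h2 := hT (t + h) (by linarith [ht.1, hh.1, hx'.1]) (by linarith [ht.2, hh.2, hx'.2])
    rw [he]
    refine h2.trans (add_le_add le_rfl ?_)
    apply mul_le_mul_of_nonneg_left _ (by positivity)
    have hfc : Continuous fun v : ℝ => fz β (t + (x + v)) := (fz_cont hβ0.le).comp (by fun_prop)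
    have hfc2 : Continuous fun v : ℝ => ww L (v - (h - x)) * fz β (t + (x + v)) := (hwc.comp (by fun_prop)).mul hfc
    have hfc3 : Continuous fun v : ℝ => 9 / 4 * ww L v * fz β (t + (x + v)) := (continuous_const.mul hwc).mul hfc
    calc ∫ y in (-(W : ℝ))..W, ww L y * fz β (t + h + y) = ∫ v in (h - x - W)..(h - x + W), ww L (v - (h - x)) * fz β (t + (x + v)) := by
          have := intervalIntegral.integral_comp_add_left (fun v => ww L (v - (h - x)) * fz β (t + (x + v))) (h - x) (a := -(W : ℝ)) (b := W)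
          rw [show h - x - (W : ℝ) = h - x + -(W : ℝ) by ring, ← this]
          refine intervalIntegral.integral_congr fun y _ => ?_
          show ww L y * fz β (t + h + y) = ww L (h - x + y - (h - x)) * fz β (t + (x + (h - x + y)))
          congr 2
          · ring
          · ring
      _ ≤ ∫ v in (-((W : ℝ) + 1))..(W + 1), ww L (v - (h - x)) * fz β (t + (x + v)) :=
          intervalIntegral.integral_mono_interval (by linarith [hh.1]) (by linarith) (by linarith [hh.2])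
            (Eventually.of_forall fun v => mul_nonneg (ww_nonneg _ _) (fz_nonneg _ _)) (hfc2.intervalIntegrable _ _)
      _ ≤ _ := by
          refine intervalIntegral.integral_mono_on (by linarith) (hfc2.intervalIntegrable _ _) (hfc3.intervalIntegrable _ _) fun v _ => ?_
          apply mul_le_mul_of_nonneg_right _ (fz_nonneg _ _)
          unfold ww
          have h3 : |v| ≤ |v - (h - x)| + 1 / L := by
            have h4 : |v| ≤ |v - (h - x)| + |h - x| := by
              have := abs_add_le (v - (h - x)) (h - x)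
              rwa [sub_add_cancel] at this
            have h5 : |h - x| ≤ 1 / L := by
              rw [abs_of_nonneg (by linarith [hh.1])]
              linarith [hh.2]
            linarith
          have h6 : 1 + 1 / 2 * L * |v| ≤ 3 / 2 * (1 + 1 / 2 * L * |v - (h - x)|) := by
            have h7 : 1 / 2 * L * |v| ≤ 1 / 2 * L * (|v - (h - x)| + 1 / L) := mul_le_mul_of_nonneg_left h3 (by positivity)
            have h8 : 1 / 2 * L * (1 / L) = 1 / 2 := by field_simp
            have h9 : 0 ≤ 1 / 2 * L * |v - (h - x)| := by positivity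
            nlinarith
          have h10 : (1 + 1 / 2 * L * |v|) ^ 2 ≤ 9 / 4 * (1 + 1 / 2 * L * |v - (h - x)|) ^ 2 := by
            calc (1 + 1 / 2 * L * |v|) ^ 2 ≤ (3 / 2 * (1 + 1 / 2 * L * |v - (h - x)|)) ^ 2 := pow_le_pow_left₀ (by positivity) h6 2
              _ = _ := by ring
          have h11 : 0 < (1 + 1 / 2 * L * |v|) ^ 2 := by positivity
          have h12 : 0 < (1 + 1 / 2 * L * |v - (h - x)|) ^ 2 := by positivity
          rw [inv_le_iff_one_le_mul₀ h12]
          rw [show 9 / 4 * ((1 + 1 / 2 * L * |v|) ^ 2)⁻¹ * (1 + 1 / 2 * L * |v - (h - x)|) ^ 2 =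
            (9 / 4 * (1 + 1 / 2 * L * |v - (h - x)|) ^ 2) / (1 + 1 / 2 * L * |v|) ^ 2 by field_simp]
          rw [one_le_div h11]
          exact h10
  -- integrate
  have hMc : Continuous fun t => MH (1 / L) x t ^ β := (MH_cont _ x).rpow_const fun _ => Or.inr hβ0.le
  have hGc : Continuous fun z : ℝ × ℝ => 9 / 4 * ww L z.2 * fz β (z.1 + (x + z.2)) :=
    (continuous_const.mul (hwc.comp continuous_snd)).mul ((fz_cont hβ0.le).comp (by fun_prop))
  have hGi : Continuous fun t : ℝ => ∫ v in (-((W : ℝ) + 1))..(W + 1), 9 / 4 * ww L v * fz β (t + (x + v)) :=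
    intervalIntegral.continuous_parametric_intervalIntegral_of_continuous' (f := fun t v => 9 / 4 * ww L v * fz β (t + (x + v))) hGc _ _
  have i1 : IntervalIntegrable (fun _ : ℝ => C * T ^ (-δ)) volume T (2 * T) := continuous_const.intervalIntegrable _ _
  have i2 : IntervalIntegrable (fun t : ℝ => C * L * ∫ v in (-((W : ℝ) + 1))..(W + 1), 9 / 4 * ww L v * fz β (t + (x + v))) volume T (2 * T) :=
    (continuous_const.mul hGi).intervalIntegrable _ _
  refine (intervalIntegral.integral_mono_on (by linarith) (hMc.intervalIntegrable _ _) (i1.add i2) hpt).trans ?_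
  rw [intervalIntegral.integral_add i1 i2, intervalIntegral.integral_const, intervalIntegral.integral_const_mul, smul_eq_mul]
  obtain ⟨B, hB⟩ : ∃ B : ℝ, B = C₁ * T * L ^ (β ^ 2 / 4) := ⟨_, rfl⟩
  have hB0 : 0 ≤ B := by rw [hB]; positivity
  have h2 : ∫ t in T..(2 * T), ∫ v in (-((W : ℝ) + 1))..(W + 1), 9 / 4 * ww L v * fz β (t + (x + v)) ≤ 9 / L * B := by
    rw [swap_cont (F := fun t v => 9 / 4 * ww L v * fz β (t + (x + v))) hGc]
    have hGc2 : Continuous fun z : ℝ × ℝ => 9 / 4 * ww L z.1 * fz β (z.2 + (x + z.1)) :=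
      (continuous_const.mul (hwc.comp continuous_fst)).mul ((fz_cont hβ0.le).comp (by fun_prop))
    have hGi2 : Continuous fun v : ℝ => ∫ t in T..(2 * T), 9 / 4 * ww L v * fz β (t + (x + v)) :=
      intervalIntegral.continuous_parametric_intervalIntegral_of_continuous' (f := fun v t => 9 / 4 * ww L v * fz β (t + (x + v))) hGc2 T (2 * T)
    have hc4 : Continuous fun v : ℝ => 9 / 4 * B * ww L v := continuous_const.mul hwc
    refine (intervalIntegral.integral_mono_on (by linarith) (hGi2.intervalIntegrable _ _) (hc4.intervalIntegrable _ _) fun v hv => ?_).trans ?_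
    · rw [intervalIntegral.integral_const_mul]
      have h3 := (h1 (x + v) (abs_le.2 ⟨by linarith [hv.1], by linarith [hv.2]⟩)).2
      rw [← hB] at h3
      calc 9 / 4 * ww L v * ∫ t in T..(2 * T), fz β (t + (x + v)) ≤ 9 / 4 * ww L v * B :=
            mul_le_mul_of_nonneg_left h3 (by have := ww_nonneg L v; positivity)
        _ = _ := by ring
    · rw [intervalIntegral.integral_const_mul]
      have h4 := ww_int hL0 (by positivity : (0 : ℝ) ≤ W + 1)
      calc 9 / 4 * B * ∫ y in (-((W : ℝ) + 1))..(W + 1), ww L y ≤ 9 / 4 * B * (4 / L) := mul_le_mul_of_nonneg_left h4 (by positivity)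
        _ = _ := by ring
  have h3 : T ^ (-δ) ≤ 1 := Real.rpow_le_one_of_one_le_of_nonpos (by linarith) (by linarith)
  have h4 : (1 : ℝ) ≤ L ^ (β ^ 2 / 4) := Real.one_le_rpow hL1 (by positivity)
  calc (2 * T - T) * (C * T ^ (-δ)) + C * L * ∫ t in T..(2 * T), ∫ v in (-((W : ℝ) + 1))..(W + 1), 9 / 4 * ww L v * fz β (t + (x + v)) ≤
      (2 * T - T) * (C * L ^ (β ^ 2 / 4)) + C * L * (9 / L * B) := by
        refine add_le_add ?_ (mul_le_mul_of_nonneg_left h2 (by positivity))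
        apply mul_le_mul_of_nonneg_left _ (by linarith)
        exact mul_le_mul_of_nonneg_left (h3.trans h4) hC.le
    _ = C * (1 + 9 * C₁) * T * L ^ (β ^ 2 / 4) := by rw [hB]; field_simp; ring

/-- a maximum over a chain of intervals -/
theorem MH_chain {β : ℝ} (hβ : 0 < β) {H d : ℝ} (hH : 0 ≤ H) (hd : 0 < d) (x t : ℝ) :
    MH H x t ^ β ≤ ∑ i ∈ Finset.range (⌊H / d⌋₊ + 1), MH d (x + i * d) t ^ β := by
  obtain ⟨h, hh, he⟩ := ex_MH hH x t
  obtain ⟨i, hi⟩ : ∃ i : ℕ, i = ⌊(h - x) / d⌋₊ := ⟨_, rfl⟩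
  have h0 : 0 ≤ (h - x) / d := div_nonneg (by linarith [hh.1]) hd.le
  have h1 : (i : ℝ) * d ≤ h - x := by
    have := Nat.floor_le h0
    rw [← hi, le_div_iff₀ hd] at this
    exact this
  have h2 : h - x < (i + 1) * d := by
    have := Nat.lt_floor_add_one ((h - x) / d)
    rw [← hi, div_lt_iff₀ hd] at this
    exact this
  have h3 : i ∈ Finset.range (⌊H / d⌋₊ + 1) := by
    rw [Finset.mem_range, Nat.lt_succ_iff, hi]
    exact Nat.floor_le_floor (div_le_div_of_nonneg_right (by linarith [hh.2]) hd.le)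
  have h4 : MH H x t ≤ MH d (x + i * d) t := by
    rw [he]
    exact le_MH ⟨by linarith, by linarith⟩
  exact (Real.rpow_le_rpow (MH_nonneg hH x t) h4 hβ.le).trans
    (Finset.single_le_sum (f := fun i : ℕ => MH d (x + i * d) t ^ β) (fun j _ => Real.rpow_nonneg (MH_nonneg hd.le _ _) _) h3)

/-- **upper bound, uniformly in the length** -/
theorem maxH_upper {β : ℝ} (hβ0 : 0 < β) (hβ4 : β ≤ 4) : ∃ C : ℝ, 0 < C ∧ ∀ᶠ T : ℝ in atTop, ∀ x : ℝ, |x| ≤ T / 16 → ∀ H : ℝ, 0 ≤ H → H ≤ 1 →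
    ∫ t in T..(2 * T), MH H x t ^ β ≤ C * T * ((1 + H * Real.log T) * Real.log T ^ (β ^ 2 / 4)) := by
  obtain ⟨C, hC, h⟩ := micro_upper hβ0 hβ4
  refine ⟨C, hC, ?_⟩
  filter_upwards [h, eventually_ge_atTop (32 : ℝ), Real.tendsto_log_atTop.eventually_ge_atTop 1] with T hT hT32 hL1 x hx H hH0 hH1
  have hT0 : 0 < T := by linarith
  have hL0 : 0 < Real.log T := by linarith
  obtain ⟨L, hL⟩ : ∃ L : ℝ, L = Real.log T := ⟨_, rfl⟩
  rw [← hL] at hT hL1 hL0 ⊢
  have hd0 : 0 < 1 / L := by positivity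
  have hcM : ∀ H x, Continuous fun t => MH H x t ^ β := fun H x => (MH_cont H x).rpow_const fun _ => Or.inr hβ0.le
  refine (intervalIntegral.integral_mono_on (by linarith) ((hcM H x).intervalIntegrable _ _)
    ((continuous_finsetSum _ fun i _ => hcM _ _).intervalIntegrable _ _) fun t _ => MH_chain hβ0 hH0 hd0 x t).trans ?_
  rw [intervalIntegral.integral_finsetSum fun i _ => (hcM _ _).intervalIntegrable _ _]
  have hn : ((⌊H / (1 / L)⌋₊ : ℕ) : ℝ) ≤ H * L := by
    refine (Nat.floor_le (div_nonneg hH0 hd0.le)).trans (le_of_eq ?_)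
    field_simp
  have h1 : ∀ i ∈ Finset.range (⌊H / (1 / L)⌋₊ + 1), ∫ t in T..(2 * T), MH (1 / L) (x + i * (1 / L)) t ^ β ≤ C * T * L ^ (β ^ 2 / 4) := by
    intro i hi
    apply hT
    have hi' : (i : ℝ) ≤ H * L := by
      have h2 : i ≤ ⌊H / (1 / L)⌋₊ := by
        have := Finset.mem_range.1 hi
        omega
      exact (Nat.cast_le.2 h2).trans hn
    have h3 : (i : ℝ) * (1 / L) ≤ 1 := by
      calc (i : ℝ) * (1 / L) ≤ H * L * (1 / L) := mul_le_mul_of_nonneg_right hi' hd0.le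
        _ = H := by field_simp
        _ ≤ 1 := hH1
    have h4 : 0 ≤ (i : ℝ) * (1 / L) := by positivity
    calc |x + (i : ℝ) * (1 / L)| ≤ |x| + |(i : ℝ) * (1 / L)| := abs_add_le _ _
      _ ≤ T / 16 + 1 := by rw [abs_of_nonneg h4]; linarith
      _ ≤ T / 8 := by linarith
  refine (Finset.sum_le_sum h1).trans ?_
  rw [Finset.sum_const, Finset.card_range, nsmul_eq_mul]
  push_cast
  calc ((⌊H / (1 / L)⌋₊ : ℝ) + 1) * (C * T * L ^ (β ^ 2 / 4)) ≤ (H * L + 1) * (C * T * L ^ (β ^ 2 / 4)) :=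
        mul_le_mul_of_nonneg_right (by linarith) (by positivity)
    _ = _ := by ring

/-- the local moments over intervals of length `H` -/
theorem coreH {γ q : ℝ} (hγ0 : 0 < γ) (hγ2 : γ ≤ 2) (hq1 : 1 < q) (hq2 : q ≤ 2) (hne : q * γ ^ 2 ≠ 4) : ∃ C : ℝ, 0 ≤ C ∧
    ∀ᶠ T : ℝ in atTop, ∀ x : ℝ, |x| ≤ T / 8 → ∀ H : ℝ, 0 ≤ H → H ≤ 1 → ∫ t in T..(2 * T), Yg γ x (x + H) t ^ q ≤
      C * (T * H) * Real.log T ^ (max (q * γ ^ 2 / 4) (q ^ 2 * γ ^ 2 / 4 - q + 1)) := by
  obtain ⟨C, hC, hA⟩ := all_rings hγ0 hγ2 hq1 hq2 hne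
  refine ⟨C, hC, ?_⟩
  filter_upwards [hA, eventually_ge_atTop (16 : ℝ)] with T hA hT16 x hx H hH0 hH1
  have hfc := fz_cont hγ0.le
  obtain ⟨B, hB⟩ : ∃ B : ℝ, B = C * T * Real.log T ^ (max (q * γ ^ 2 / 4) (q ^ 2 * γ ^ 2 / 4 - q + 1)) := ⟨_, rfl⟩
  have hB' : C * (T * H) * Real.log T ^ (max (q * γ ^ 2 / 4) (q ^ 2 * γ ^ 2 / 4 - q + 1)) = H * B := by rw [hB]; ring
  rw [hB']
  rw [← hB] at hA
  obtain ⟨g, hg⟩ : ∃ g : ℝ → ℝ, g = fun τ => fz γ τ * Hz γ 0 1 τ ^ (q - 1) := ⟨_, rfl⟩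
  have hgc : Continuous g := by
    rw [hg]
    exact hfc.mul ((Hz_cont hγ0.le 0 1).rpow_const fun _ => Or.inr (by linarith))
  have hxH : x ≤ x + H := by linarith
  have hpt : ∀ t, Yg γ x (x + H) t ^ q ≤ ∫ u in x..(x + H), g (t + u) := by
    intro t
    have hX0 := Yg_nonneg γ hxH t
    have e1 : Yg γ x (x + H) t ^ q = Yg γ x (x + H) t * Yg γ x (x + H) t ^ (q - 1) := by
      rcases hX0.lt_or_eq with h | h
      · rw [← Real.rpow_one_add' hX0 (by linarith)]
        congr 1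
        ring
      · rw [← h, Real.zero_rpow (by linarith), Real.zero_rpow (by linarith), zero_mul]
    rw [e1]
    have e2 : Yg γ x (x + H) t * Yg γ x (x + H) t ^ (q - 1) = ∫ u in x..(x + H), fz γ (t + u) * Yg γ x (x + H) t ^ (q - 1) := by
      rw [intervalIntegral.integral_mul_const]
      rfl
    rw [e2]
    have c1 : Continuous fun u : ℝ => fz γ (t + u) * Yg γ x (x + H) t ^ (q - 1) := (hfc.comp (by fun_prop)).mul continuous_const
    have c2 : Continuous fun u : ℝ => g (t + u) := hgc.comp (by fun_prop)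
    refine intervalIntegral.integral_mono_on hxH (c1.intervalIntegrable _ _) (c2.intervalIntegrable _ _) fun u hu => ?_
    rw [hg]
    simp only
    apply mul_le_mul_of_nonneg_left _ (fz_nonneg _ _)
    refine Real.rpow_le_rpow hX0 ?_ (by linarith)
    have h1 : Yg γ x (x + H) t ≤ Yg γ x (x + 1) t := Yg_mono hγ0.le le_rfl hxH (by linarith) t
    exact h1.trans (Xm_le_Hz hγ0.le ⟨hu.1, by linarith [hu.2]⟩ t)
  have hGc : Continuous fun z : ℝ × ℝ => g (z.1 + z.2) := hgc.comp (continuous_fst.add continuous_snd)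
  have hGi : Continuous fun t : ℝ => ∫ u in x..(x + H), g (t + u) :=
    intervalIntegral.continuous_parametric_intervalIntegral_of_continuous' (f := fun t u => g (t + u)) hGc x (x + H)
  refine (intervalIntegral.integral_mono_on (by linarith) ((Yg_pow_cont hγ0 (by linarith) x (x + H)).intervalIntegrable _ _)
    (hGi.intervalIntegrable _ _) fun t _ => hpt t).trans ?_
  rw [swap_cont (F := fun t u => g (t + u)) hGc]
  have hGi2 : Continuous fun u : ℝ => ∫ t in T..(2 * T), g (t + u) :=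
    intervalIntegral.continuous_parametric_intervalIntegral_of_continuous' (f := fun u t => g (t + u)) (hGc.comp continuous_swap) T (2 * T)
  have hx' := abs_le.1 hx
  have h3 : ∀ u ∈ Set.Icc x (x + H), ∫ t in T..(2 * T), g (t + u) ≤ B := by
    intro u hu
    have h4 := hA u (abs_le.2 ⟨by linarith [hu.1, hx'.1], by linarith [hu.2, hx'.2]⟩)
    rw [hg]
    exact h4
  have h5 := intervalIntegral.integral_mono_on (μ := volume) hxH (hGi2.intervalIntegrable x (x + H))
    ((continuous_const (y := B)).intervalIntegrable x (x + H)) h3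
  rw [intervalIntegral.integral_const, smul_eq_mul] at h5
  calc _ ≤ (x + H - x) * B := h5
    _ = H * B := by ring

/-- **lower bound, uniformly in the length** -/
theorem maxH_lower {β : ℝ} (hβ2 : 2 < β) (hβ4 : β ≤ 4) : ∃ c : ℝ, 0 < c ∧ ∀ᶠ T : ℝ in atTop, ∀ x : ℝ, |x| ≤ T / 8 → ∀ H : ℝ, 0 ≤ H → H ≤ 1 →
    c * T * ((1 + H * Real.log T) * Real.log T ^ (β ^ 2 / 4)) ≤ ∫ t in T..(2 * T), MH H x t ^ β := by
  have hβ0 : 0 < β := by linarith
  obtain ⟨C, hC, h⟩ := coreH (γ := 2) (q := β / 2) (by norm_num) le_rfl (by linarith) (by linarith) (by intro h; linarith)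
  obtain ⟨c₁, C₁, hc₁, hC₁, h1⟩ := one_pt hβ0.le hβ4
  obtain ⟨θ, hθ⟩ : ∃ θ : ℝ, θ = 2 / β := ⟨_, rfl⟩
  have hθ0 : 0 < θ := by rw [hθ]; positivity
  have hθ1 : θ < 1 := by rw [hθ, div_lt_one hβ0]; exact hβ2
  obtain ⟨c₂, hc₂⟩ : ∃ c₂ : ℝ, c₂ = (c₁ / (C + 1) ^ θ) ^ (1 / (1 - θ)) := ⟨_, rfl⟩
  have hc20 : 0 < c₂ := by rw [hc₂]; positivity
  refine ⟨min c₁ c₂ / 2, by positivity, ?_⟩
  filter_upwards [h, h1, eventually_ge_atTop (16 : ℝ), Real.tendsto_log_atTop.eventually_ge_atTop 1] with T hT h1 hT16 hL1 x hx H hH0 hH1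
  have hT0 : 0 < T := by linarith
  have hL0 : 0 < Real.log T := by linarith
  have hx' := abs_le.1 hx
  have hMc : Continuous fun t => MH H x t ^ β := (MH_cont H x).rpow_const fun _ => Or.inr hβ0.le
  have hM0 : ∀ t, 0 ≤ MH H x t ^ β := fun t => Real.rpow_nonneg (MH_nonneg hH0 x t) _
  have hI0 : 0 ≤ ∫ t in T..(2 * T), MH H x t ^ β := intervalIntegral.integral_nonneg (by linarith) fun t _ => hM0 t
  have hLp : 0 < Real.log T ^ (β ^ 2 / 4) := Real.rpow_pos_of_pos hL0 _
  -- the trivial part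
  have hA1 : c₁ * T * Real.log T ^ (β ^ 2 / 4) ≤ ∫ t in T..(2 * T), MH H x t ^ β := by
    refine (h1 x (by linarith)).1.trans ?_
    have hc : Continuous fun t => fz β (t + x) := (fz_cont hβ0.le).comp (by fun_prop)
    refine intervalIntegral.integral_mono_on (by linarith) (hc.intervalIntegrable _ _) (hMc.intervalIntegrable _ _) fun t _ => ?_
    exact Real.rpow_le_rpow (norm_nonneg _) (le_MH ⟨le_rfl, by linarith⟩) hβ0.le
  -- the main part
  have hA2 : c₂ * T * (H * Real.log T * Real.log T ^ (β ^ 2 / 4)) ≤ ∫ t in T..(2 * T), MH H x t ^ β := by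
    rcases hH0.lt_or_eq with hH | hH
    swap
    · rw [← hH, zero_mul, zero_mul, mul_zero]
      rw [← hH] at hI0
      exact hI0
    have hxH : x ≤ x + H := by linarith
    have hXc : Continuous fun t => Yg 2 x (x + H) t ^ (β / 2) := Yg_pow_cont (by norm_num) (by linarith) x (x + H)
    have hX0 : ∀ t, 0 ≤ Yg 2 x (x + H) t ^ (β / 2) := fun t => Real.rpow_nonneg (Yg_nonneg 2 hxH t) _
    have h2 : c₁ * (T * H) * Real.log T ^ (β ^ 2 / 4) ≤ ∫ t in T..(2 * T), ∫ v in x..(x + H), fz β (t + v) := by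
      have h3 := swap_bd' (p := β) (T := T) (a := x) (b := x + H) (B := c₁ * T * Real.log T ^ (β ^ 2 / 4)) hβ0.le hxH
        fun v hv => (h1 v (abs_le.2 ⟨by linarith [hv.1, hx'.1], by linarith [hv.2, hx'.2]⟩)).1
      calc _ = (x + H - x) * (c₁ * T * Real.log T ^ (β ^ 2 / 4)) := by ring
        _ ≤ _ := h3
    have h3 : ∀ t, ∫ v in x..(x + H), fz β (t + v) ≤ (MH H x t ^ β) ^ (1 - θ) * (Yg 2 x (x + H) t ^ (β / 2)) ^ θ := by
      intro t
      have e1 : (MH H x t ^ β) ^ (1 - θ) = MH H x t ^ (β - 2) := by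
        rw [← Real.rpow_mul (MH_nonneg hH0 x t)]
        congr 1
        rw [hθ]
        field_simp
      have e2 : (Yg 2 x (x + H) t ^ (β / 2)) ^ θ = Yg 2 x (x + H) t := by
        rw [← Real.rpow_mul (Yg_nonneg 2 hxH t)]
        have : β / 2 * θ = 1 := by rw [hθ]; field_simp
        rw [this, Real.rpow_one]
      rw [e1, e2]
      unfold Yg
      rw [← intervalIntegral.integral_const_mul]
      have hc1 : Continuous fun v : ℝ => fz β (t + v) := (fz_cont hβ0.le).comp (by fun_prop)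
      have hc2 : Continuous fun v : ℝ => MH H x t ^ (β - 2) * fz 2 (t + v) := continuous_const.mul ((fz_cont (by norm_num)).comp (by fun_prop))
      refine intervalIntegral.integral_mono_on hxH (hc1.intervalIntegrable _ _) (hc2.intervalIntegrable _ _) fun v hv => ?_
      unfold fz
      have h4 : ‖zt (t + v)‖ ^ β = ‖zt (t + v)‖ ^ (β - 2) * ‖zt (t + v)‖ ^ (2 : ℝ) := by
        rw [← Real.rpow_add' (norm_nonneg _) (by linarith)]
        congr 1
        ring
      rw [h4]
      apply mul_le_mul_of_nonneg_right _ (Real.rpow_nonneg (norm_nonneg _) _)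
      exact Real.rpow_le_rpow (norm_nonneg _) (le_MH hv) (by linarith)
    have hcP : Continuous fun t => (MH H x t ^ β) ^ (1 - θ) * (Yg 2 x (x + H) t ^ (β / 2)) ^ θ :=
      (hMc.rpow_const fun _ => Or.inr (by linarith)).mul (hXc.rpow_const fun _ => Or.inr hθ0.le)
    have hGi : Continuous fun t : ℝ => ∫ v in x..(x + H), fz β (t + v) :=
      intervalIntegral.continuous_parametric_intervalIntegral_of_continuous' (f := fun t v => fz β (t + v))
        ((fz_cont hβ0.le).comp (continuous_fst.add continuous_snd)) _ _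
    have h4 := h2.trans (intervalIntegral.integral_mono_on (by linarith) (hGi.intervalIntegrable _ _) (hcP.intervalIntegrable _ _)
      fun t _ => h3 t)
    have hexp : max (β / 2 * 2 ^ 2 / 4) ((β / 2) ^ 2 * 2 ^ 2 / 4 - β / 2 + 1) = β ^ 2 / 4 - β / 2 + 1 := by
      rw [max_eq_right]
      · ring
      · nlinarith [sq_nonneg (β - 2)]
    have h5 := hT x hx H hH0 hH1
    rw [hexp] at h5
    refine le_of_forall_pos_le_add fun η hη => ?_
    have hA : 0 < (∫ t in T..(2 * T), MH H x t ^ β) + η := by linarith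
    have hLq : 0 < Real.log T ^ (β ^ 2 / 4 - β / 2 + 1) := Real.rpow_pos_of_pos hL0 _
    have hTH : 0 < T * H := by positivity
    have hB : 0 < (C + 1) * (T * H) * Real.log T ^ (β ^ 2 / 4 - β / 2 + 1) := by positivity
    have h6 := hold hMc hXc hM0 hX0 (by linarith : T ≤ 2 * T) hθ0.le hθ1.le hA hB (by linarith) (h5.trans (by
      have : 0 ≤ (T * H) * Real.log T ^ (β ^ 2 / 4 - β / 2 + 1) := by positivity
      nlinarith))
    have h7 := solve (e := β ^ 2 / 4 + 1) hθ1 hc₁ (by positivity : 0 < C + 1) hTH hL0 hA.le (by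
      rw [hθ]
      field_simp
      ring) (h4.trans h6)
    rw [← hc₂] at h7
    calc c₂ * T * (H * Real.log T * Real.log T ^ (β ^ 2 / 4)) = c₂ * (T * H) * Real.log T ^ (β ^ 2 / 4 + 1) := by
          rw [Real.rpow_add_one hL0.ne']
          ring
      _ ≤ _ := h7
  have hm1 : min c₁ c₂ ≤ c₁ := min_le_left _ _
  have hm2 : min c₁ c₂ ≤ c₂ := min_le_right _ _
  have hA3 : min c₁ c₂ * (T * Real.log T ^ (β ^ 2 / 4)) ≤ ∫ t in T..(2 * T), MH H x t ^ β := by
    calc _ ≤ c₁ * (T * Real.log T ^ (β ^ 2 / 4)) := mul_le_mul_of_nonneg_right hm1 (by positivity)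
      _ = c₁ * T * Real.log T ^ (β ^ 2 / 4) := by ring
      _ ≤ _ := hA1
  have hA4 : min c₁ c₂ * (T * (H * Real.log T * Real.log T ^ (β ^ 2 / 4))) ≤ ∫ t in T..(2 * T), MH H x t ^ β := by
    calc _ ≤ c₂ * (T * (H * Real.log T * Real.log T ^ (β ^ 2 / 4))) := mul_le_mul_of_nonneg_right hm2 (by positivity)
      _ = c₂ * T * (H * Real.log T * Real.log T ^ (β ^ 2 / 4)) := by ring
      _ ≤ _ := hA2
  calc min c₁ c₂ / 2 * T * ((1 + H * Real.log T) * Real.log T ^ (β ^ 2 / 4)) =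
      (min c₁ c₂ * (T * Real.log T ^ (β ^ 2 / 4)) + min c₁ c₂ * (T * (H * Real.log T * Real.log T ^ (β ^ 2 / 4)))) / 2 := by ring
    _ ≤ _ := by linarith

end

end Pool.Agent.H469.F4
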