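import Pool.Agent.H469.F4.M14

set_option autoImplicit false

/-!
# Moments of the masses of short intervals: upper bounds
-/

namespace Pool.Agent.H469.F4

open Filter Topology MeasureTheory Complex Pool.Agent.Q97.UM

noncomputable section

/-- the rings and their contributions -/
theorem ring_data {γ q : ℝ} (hγ0 : 0 < γ) (hγ2 : γ ≤ 2) (hq1 : 1 < q) (hq2 : q ≤ 2) : ∃ δ C : ℝ, ∃ m₀ : ℕ, 0 < δ ∧ δ ≤ 1 ∧ 0 ≤ C ∧
    ∀ᶠ T : ℝ in atTop, ∃ n : ℕ, n ≠ 0 ∧ Real.exp m₀ ≤ δ * Real.log T ∧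
      (∀ i, i < n → 0 ≤ bnd (δ * Real.log T) m₀ n i ∧ bnd (δ * Real.log T) m₀ n i ≤ bnd (δ * Real.log T) m₀ n (i + 1) ∧
        bnd (δ * Real.log T) m₀ n (i + 1) ≤ 1) ∧
      ∀ u : ℝ, |u| ≤ T / 4 → ∀ i ∈ Finset.range n,
        ∫ t in T..(2 * T), fz γ (t + u) * Hz γ (bnd (δ * Real.log T) m₀ n i) (bnd (δ * Real.log T) m₀ n (i + 1)) (t + u) ^ (q - 1) ≤
        C * T * ((δ * Real.log T) ^ (q ^ 2 * γ ^ 2 / 4 - q + 1) * Real.exp (-((q - 1) * (q * γ ^ 2 / 4 - 1)) * ((m₀ + i : ℕ) : ℝ))) := by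
  obtain ⟨δ, C, E₀, m₀, hδ, hδ1, hC, hE₀, hR⟩ := one_ring
  obtain ⟨η, hη⟩ : ∃ η : ℝ, η = (q - 1) * (q * γ ^ 2 / 4 - 1) := ⟨_, rfl⟩
  obtain ⟨Q, hQ⟩ : ∃ Q : ℝ, Q = q ^ 2 * γ ^ 2 / 4 - q + 1 := ⟨_, rfl⟩
  have hQη : q * γ ^ 2 / 4 = Q - η := by rw [hQ, hη]; ring
  refine ⟨δ, C * (1 + 3 * E₀), m₀, hδ, hδ1, by positivity, ?_⟩
  have hD1 : ∀ᶠ T : ℝ in atTop, E₀ * Real.exp m₀ ≤ δ * Real.log T :=
    (Real.tendsto_log_atTop.const_mul_atTop hδ).eventually_ge_atTop _
  filter_upwards [hR, hD1, eventually_ge_atTop (16 : ℝ)] with T hR hD1 hT16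
  obtain ⟨D, hDd⟩ : ∃ D : ℝ, D = δ * Real.log T := ⟨_, rfl⟩
  rw [← hDd] at hR hD1 ⊢
  have hT0 : 0 < T := by linarith
  have hL0 : 0 < Real.log T := Real.log_pos (by linarith)
  have hD0 : 0 < D := lt_of_lt_of_le (by positivity) hD1
  have hE0p : 0 < E₀ := by linarith
  have hDL : D ≤ Real.log T := by
    rw [hDd]
    nlinarith
  -- the number of the last ring
  obtain ⟨R, hRd⟩ : ∃ R : ℕ, R = ⌊Real.log (D / E₀)⌋₊ := ⟨_, rfl⟩
  have hlog0 : (m₀ : ℝ) ≤ Real.log (D / E₀) := by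
    rw [Real.le_log_iff_exp_le (by positivity), le_div_iff₀ hE0p]
    linarith
  have hm0R : (0 : ℝ) ≤ m₀ := Nat.cast_nonneg _
  have hR1 : (R : ℝ) ≤ Real.log (D / E₀) := by
    rw [hRd]
    exact Nat.floor_le (hm0R.trans hlog0)
  have hR2 : Real.log (D / E₀) < R + 1 := by
    rw [hRd]
    exact Nat.lt_floor_add_one _
  have hmR : m₀ ≤ R := by
    rw [hRd]
    exact Nat.le_floor hlog0
  have hER : Real.exp R ≤ D / E₀ := by
    rw [← Real.le_log_iff_exp_le (by positivity)]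
    exact hR1
  have hER2 : D < 3 * E₀ * Real.exp R := by
    have h1 : D / E₀ < Real.exp (R + 1) := by
      rw [← Real.log_lt_iff_lt_exp (by positivity)]
      exact hR2
    rw [div_lt_iff₀ hE0p, Real.exp_add] at h1
    have h2 := Real.exp_one_lt_d9
    have h3 := Real.exp_pos (R : ℝ)
    have h4 : Real.exp R * Real.exp 1 * E₀ ≤ Real.exp R * 3 * E₀ := by gcongr; linarith
    linarith
  obtain ⟨n, hn⟩ : ∃ n : ℕ, n = R - m₀ + 1 := ⟨_, rfl⟩
  have hn0 : n ≠ 0 := by omega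
  have hexpR : Real.exp R ≤ D := hER.trans (div_le_self hD0.le hE₀)
  -- the rings
  have hbnd : ∀ i, i < n → 0 ≤ bnd D m₀ n i ∧ bnd D m₀ n i ≤ bnd D m₀ n (i + 1) ∧ bnd D m₀ n (i + 1) ≤ 1 ∧
      (bnd D m₀ n (i + 1) - bnd D m₀ n i) * (D * Real.exp (-((m₀ + i : ℕ) : ℝ))) ≤ 3 * E₀ ∧
      (m₀ + i = m₀ ∨ Real.exp (-1) ≤ bnd D m₀ n i * (D * Real.exp (-((m₀ + i : ℕ) : ℝ)))) := by
    intro i hi
    have hle1 : ∀ j : ℕ, j < n → Real.exp ((m₀ : ℝ) + j - 1) / D ≤ 1 := by
      intro j hj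
      rw [div_le_one hD0]
      refine le_trans (Real.exp_le_exp.2 ?_) hexpR
      have : ((m₀ + j : ℕ) : ℝ) ≤ ((R : ℕ) : ℝ) := by
        have : m₀ + j ≤ R := by omega
        exact_mod_cast this
      push_cast at this
      linarith
    have hnn : ∀ j : ℕ, 0 ≤ bnd D m₀ n j := by
      intro j
      unfold bnd
      split_ifs <;> positivity
    have hle : ∀ j : ℕ, bnd D m₀ n j ≤ 1 := by
      intro j
      unfold bnd
      split_ifs with h1 h2
      · norm_num
      · exact le_rfl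
      · exact hle1 j (by omega)
    have hEi : 0 < D * Real.exp (-((m₀ + i : ℕ) : ℝ)) := by positivity
    refine ⟨hnn i, ?_, hle (i + 1), ?_, ?_⟩
    · by_cases h0 : i = 0
      · subst h0
        have : bnd D m₀ n 0 = 0 := by unfold bnd; simp
        rw [this]
        exact hnn 1
      · by_cases h1 : n ≤ i + 1
        · have : bnd D m₀ n (i + 1) = 1 := by unfold bnd; rw [if_neg (by omega), if_pos h1]
          rw [this]
          exact hle i
        · unfold bnd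
          rw [if_neg h0, if_neg (by omega), if_neg (by omega), if_neg h1]
          apply div_le_div_of_nonneg_right _ hD0.le
          apply Real.exp_le_exp.2
          push_cast
          linarith
    · have h3 : bnd D m₀ n (i + 1) * (D * Real.exp (-((m₀ + i : ℕ) : ℝ))) ≤ 3 * E₀ := by
        by_cases h1 : n ≤ i + 1
        · have e1 : bnd D m₀ n (i + 1) = 1 := by unfold bnd; rw [if_neg (by omega), if_pos h1]
          rw [e1, one_mul]
          have e2 : m₀ + i = R := by omega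
          rw [e2]
          have e3 : Real.exp R * Real.exp (-(R : ℝ)) = 1 := by rw [← Real.exp_add]; simp
          calc D * Real.exp (-(R : ℝ)) ≤ 3 * E₀ * Real.exp R * Real.exp (-(R : ℝ)) :=
                mul_le_mul_of_nonneg_right hER2.le (Real.exp_pos _).le
            _ = 3 * E₀ := by rw [mul_assoc, e3, mul_one]
        · have e1 : bnd D m₀ n (i + 1) = Real.exp ((m₀ : ℝ) + i) / D := by
            unfold bnd
            rw [if_neg (by omega), if_neg h1]
            congr 2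
            push_cast
            ring
          rw [e1]
          have e3 : Real.exp ((m₀ : ℝ) + i) / D * (D * Real.exp (-((m₀ + i : ℕ) : ℝ))) = 1 := by
            have e4 : Real.exp ((m₀ : ℝ) + i) * Real.exp (-((m₀ + i : ℕ) : ℝ)) = 1 := by
              rw [← Real.exp_add]
              push_cast
              simp
            calc Real.exp ((m₀ : ℝ) + i) / D * (D * Real.exp (-((m₀ + i : ℕ) : ℝ))) =
                (Real.exp ((m₀ : ℝ) + i) * Real.exp (-((m₀ + i : ℕ) : ℝ))) * (D / D) := by ring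
              _ = 1 := by rw [e4, div_self hD0.ne', mul_one]
          rw [e3]
          linarith
      have h4 : 0 ≤ bnd D m₀ n i * (D * Real.exp (-((m₀ + i : ℕ) : ℝ))) := mul_nonneg (hnn i) hEi.le
      linarith
    · by_cases h0 : i = 0
      · left
        omega
      · right
        have e1 : bnd D m₀ n i = Real.exp ((m₀ : ℝ) + i - 1) / D := by
          unfold bnd
          rw [if_neg h0, if_neg (by omega)]
        rw [e1]
        have e4 : Real.exp ((m₀ : ℝ) + i - 1) * Real.exp (-((m₀ + i : ℕ) : ℝ)) = Real.exp (-1) := by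
          rw [← Real.exp_add]
          congr 1
          push_cast
          ring
        refine le_of_eq ?_
        calc Real.exp (-1) = (Real.exp ((m₀ : ℝ) + i - 1) * Real.exp (-((m₀ + i : ℕ) : ℝ))) * (D / D) := by
              rw [e4, div_self hD0.ne', mul_one]
          _ = _ := by ring
  refine ⟨n, hn0, ?_, fun i hi => ⟨(hbnd i hi).1, (hbnd i hi).2.1, (hbnd i hi).2.2.1⟩, ?_⟩
  · have : Real.exp m₀ ≤ E₀ * Real.exp m₀ := le_mul_of_one_le_left (Real.exp_pos _).le hE₀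
    linarith
  intro u hu
  rw [← hη, ← hQ]
  -- one ring
  have hring : ∀ i ∈ Finset.range n, ∫ t in T..(2 * T), fz γ (t + u) * Hz γ (bnd D m₀ n i) (bnd D m₀ n (i + 1)) (t + u) ^ (q - 1) ≤
      C * (1 + 3 * E₀) * T * (D ^ Q * Real.exp (-η * ((m₀ + i : ℕ) : ℝ))) := by
    intro i hi
    rw [Finset.mem_range] at hi
    obtain ⟨h1, h2, h3, h4, h5⟩ := hbnd i hi
    have hEi : E₀ ≤ D * Real.exp (-((m₀ + i : ℕ) : ℝ)) := by
      have e1 : ((m₀ + i : ℕ) : ℝ) ≤ R := by
        have : m₀ + i ≤ R := by omega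
        exact_mod_cast this
      have e2 : E₀ * Real.exp R ≤ D := by
        rw [le_div_iff₀ hE0p] at hER
        linarith
      have e3 : Real.exp R * Real.exp (-(R : ℝ)) = 1 := by rw [← Real.exp_add]; simp
      calc E₀ = E₀ * Real.exp R * Real.exp (-(R : ℝ)) := by rw [mul_assoc, e3, mul_one]
        _ ≤ D * Real.exp (-(R : ℝ)) := mul_le_mul_of_nonneg_right e2 (Real.exp_pos _).le
        _ ≤ _ := by
            apply mul_le_mul_of_nonneg_left _ hD0.le
            apply Real.exp_le_exp.2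
            linarith
    have h6 := hR (m₀ + i) (by omega) hEi γ q hγ0.le hγ2 hq1.le hq2 u hu (bnd D m₀ n i) (bnd D m₀ n (i + 1)) (3 * E₀) h1 h2 h3
      (by positivity) h4 h5
    refine h6.trans (le_of_eq ?_)
    congr 1
    rw [← hQ, Real.mul_rpow hD0.le (Real.exp_pos _).le, ← Real.exp_mul]
    have e4 : Real.exp (((m₀ + i : ℕ) : ℝ) * (γ ^ 2 / 4 * q)) * (D ^ Q * Real.exp (-((m₀ + i : ℕ) : ℝ) * Q)) =
        D ^ Q * (Real.exp (((m₀ + i : ℕ) : ℝ) * (γ ^ 2 / 4 * q)) * Real.exp (-((m₀ + i : ℕ) : ℝ) * Q)) := by ring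
    rw [e4, ← Real.exp_add]
    congr 2
    have e5 : γ ^ 2 / 4 * q = Q - η := by linarith
    rw [e5]
    ring
  exact hring

end

end Pool.Agent.H469.F4
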