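import Pool.Agent.H469.F4.M16

set_option autoImplicit false

/-!
# Moments of the masses of short intervals: upper bounds, the sum over the rings
-/

namespace Pool.Agent.H469.F4

open Filter Topology MeasureTheory Complex Pool.Agent.Q97.UM

noncomputable section

/-- the power mean inequality for integrals -/
theorem pow_mean {f : ℝ → ℝ} (hf : Continuous f) (f0 : ∀ t, 0 ≤ f t) {a b q : ℝ} (hab : a ≤ b) (hq : 1 ≤ q) :
    (∫ t in a..b, f t) ^ q ≤ (b - a) ^ (q - 1) * ∫ t in a..b, f t ^ q := by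
  have hq0 : 0 < q := by linarith
  have hfq : Continuous fun t => f t ^ q := hf.rpow_const fun _ => Or.inr hq0.le
  obtain ⟨I, hI⟩ : ∃ I : ℝ, I = ∫ t in a..b, f t := ⟨_, rfl⟩
  obtain ⟨J, hJ⟩ : ∃ J : ℝ, J = ∫ t in a..b, f t ^ q := ⟨_, rfl⟩
  have hI0 : 0 ≤ I := by rw [hI]; exact intervalIntegral.integral_nonneg hab fun _ _ => f0 _
  have hJ0 : 0 ≤ J := by rw [hJ]; exact intervalIntegral.integral_nonneg hab fun _ _ => Real.rpow_nonneg (f0 _) _
  rw [← hI, ← hJ]
  have hba : 0 ≤ b - a := by linarith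
  rcases hI0.eq_or_lt with h | h
  · rw [← h, Real.zero_rpow hq0.ne']
    positivity
  rcases hba.eq_or_lt with hd | hd
  · exfalso
    have : a = b := by linarith
    rw [this, intervalIntegral.integral_same] at hI
    linarith
  obtain ⟨m, hm⟩ : ∃ m : ℝ, m = I / (b - a) := ⟨_, rfl⟩
  have hm0 : 0 < m := by rw [hm]; positivity
  have hIm : I = m * (b - a) := by rw [hm]; field_simp
  have hpt : ∀ t, f t ≤ m ^ (1 - q) / q * f t ^ q + (1 - 1 / q) * m := by
    intro t
    have h1 := Real.geom_mean_le_arith_mean2_weighted (w₁ := 1 / q) (w₂ := 1 - 1 / q) (p₁ := f t ^ q * m ^ (1 - q)) (p₂ := m)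
      (by positivity) (by rw [sub_nonneg, div_le_one hq0]; exact hq) (mul_nonneg (Real.rpow_nonneg (f0 t) _) (Real.rpow_nonneg hm0.le _))
      hm0.le (by ring)
    have h2 : (f t ^ q * m ^ (1 - q)) ^ (1 / q) * m ^ (1 - 1 / q) = f t := by
      rw [Real.mul_rpow (Real.rpow_nonneg (f0 t) _) (Real.rpow_nonneg hm0.le _), ← Real.rpow_mul (f0 t), ← Real.rpow_mul hm0.le,
        mul_assoc, ← Real.rpow_add hm0]
      have e1 : q * (1 / q) = 1 := by field_simp
      have e2 : (1 - q) * (1 / q) + (1 - 1 / q) = 0 := by field_simp; ring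
      rw [e1, e2, Real.rpow_one, Real.rpow_zero, mul_one]
    rw [h2] at h1
    calc f t ≤ 1 / q * (f t ^ q * m ^ (1 - q)) + (1 - 1 / q) * m := h1
      _ = _ := by ring
  have c2 : Continuous fun t => m ^ (1 - q) / q * f t ^ q + (1 - 1 / q) * m := (continuous_const.mul hfq).add continuous_const
  have h1 := intervalIntegral.integral_mono_on (μ := volume) hab (hf.intervalIntegrable a b) (c2.intervalIntegrable a b) fun t _ => hpt t
  have c3 : Continuous fun t => m ^ (1 - q) / q * f t ^ q := continuous_const.mul hfq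
  have c4 : Continuous fun _ : ℝ => (1 - 1 / q) * m := continuous_const
  rw [intervalIntegral.integral_add (c3.intervalIntegrable a b) (c4.intervalIntegrable a b),
    intervalIntegral.integral_const_mul, intervalIntegral.integral_const, smul_eq_mul, ← hI, ← hJ] at h1
  have h2 : m * (b - a) ≤ m ^ (1 - q) * J := by
    have h3 : m * (b - a) ≤ m ^ (1 - q) / q * J + (b - a) * ((1 - 1 / q) * m) := by rw [← hIm]; exact h1
    have h4 : m * (b - a) / q ≤ m ^ (1 - q) * J / q := by
      have e1 : m ^ (1 - q) / q * J = m ^ (1 - q) * J / q := by ring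
      have e2 : (b - a) * ((1 - 1 / q) * m) = m * (b - a) - m * (b - a) / q := by field_simp
      rw [e1, e2] at h3
      linarith
    exact (div_le_div_iff_of_pos_right hq0).1 h4
  have h3 : m ^ q * (b - a) ≤ J := by
    have h4 := mul_le_mul_of_nonneg_left h2 (Real.rpow_nonneg hm0.le (q - 1))
    have e1 : m ^ (q - 1) * (m * (b - a)) = m ^ q * (b - a) := by
      rw [← mul_assoc, Real.rpow_sub_one hm0.ne', div_mul_cancel₀ _ hm0.ne']
    have e2 : m ^ (q - 1) * (m ^ (1 - q) * J) = J := by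
      rw [← mul_assoc, ← Real.rpow_add hm0]
      have : q - 1 + (1 - q) = 0 := by ring
      rw [this, Real.rpow_zero, one_mul]
    rwa [e1, e2] at h4
  rw [hIm, Real.mul_rpow hm0.le hd.le]
  calc m ^ q * (b - a) ^ q = (b - a) ^ (q - 1) * (m ^ q * (b - a)) := by
        have : (b - a) ^ q = (b - a) ^ (q - 1) * (b - a) := by rw [Real.rpow_sub_one hd.ne', div_mul_cancel₀ _ hd.ne']
        rw [this]
        ring
    _ ≤ _ := mul_le_mul_of_nonneg_left h3 (by positivity)

/-- very short intervals -/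
theorem small_h {γ q : ℝ} (hγ0 : 0 < γ) (hq1 : 1 < q) (hq2 : q ≤ 2) (hβ : γ * q ≤ 4) : ∃ C : ℝ, 0 < C ∧
    ∀ᶠ T : ℝ in atTop, ∀ u : ℝ, |u| ≤ T / 4 → ∀ h : ℝ, 0 < h → h ≤ 1 → ∫ t in T..(2 * T), fz γ (t + u) * Hz γ 0 h (t + u) ^ (q - 1) ≤
      C * T * (h ^ (q - 1) * Real.log T ^ (q ^ 2 * γ ^ 2 / 4)) := by
  obtain ⟨c₁, C₁, hc₁, hC₁, h1⟩ := one_pt (β := γ * q) (by positivity) hβ
  have hq0 : 0 < q := by linarith
  refine ⟨4 * C₁, by positivity, ?_⟩
  filter_upwards [h1, eventually_ge_atTop (16 : ℝ)] with T h1 hT16 u hu h hh hh1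
  have hT0 : 0 < T := by linarith
  have hL0 : 0 < Real.log T := Real.log_pos (by linarith)
  have hu' := abs_le.1 hu
  have hfc := fz_cont hγ0.le
  obtain ⟨M, hM⟩ : ∃ M : ℝ, M = Real.log T ^ (q ^ 2 * γ ^ 2 / 4) := ⟨_, rfl⟩
  have hM0 : 0 < M := by rw [hM]; positivity
  have eM : Real.log T ^ ((γ * q) ^ 2 / 4) = M := by
    rw [hM]
    congr 1
    ring
  rw [eM] at h1
  rw [← hM]
  have hpw : ∀ τ, fz γ τ ^ q = fz (γ * q) τ := fun τ => by
    unfold fz
    rw [Real.rpow_mul (norm_nonneg _)]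
  -- the two functions
  have cf : Continuous fun t => fz (γ * q) (t + u) := (fz_cont (by positivity)).comp (by fun_prop)
  have cg : Continuous fun t => Hz γ 0 h (t + u) ^ q := ((Hz_cont hγ0.le 0 h).comp (by fun_prop)).rpow_const fun _ => Or.inr hq0.le
  have bf : ∫ t in T..(2 * T), fz (γ * q) (t + u) ≤ C₁ * T * M := (h1 u (abs_le.2 ⟨by linarith, by linarith⟩)).2
  have bg : ∫ t in T..(2 * T), Hz γ 0 h (t + u) ^ q ≤ (2 * h) ^ q * (C₁ * T * M) := by
    have hpt : ∀ t, Hz γ 0 h (t + u) ^ q ≤ (2 * h) ^ (q - 1) * ∫ v in (u - h)..(u + h), fz (γ * q) (t + v) := by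
      intro t
      have c1 : Continuous fun w : ℝ => fz γ (t + u + w) := hfc.comp (by fun_prop)
      have c2 : Continuous fun w : ℝ => fz γ (t + u - w) := hfc.comp (by fun_prop)
      have hc : Continuous fun v : ℝ => fz γ (t + v) := hfc.comp (by fun_prop)
      have e : Hz γ 0 h (t + u) = ∫ v in (u - h)..(u + h), fz γ (t + v) := by
        unfold Hz
        rw [intervalIntegral.integral_add (c1.intervalIntegrable _ _) (c2.intervalIntegrable _ _)]
        have e1 : ∫ w in (0 : ℝ)..h, fz γ (t + u + w) = ∫ v in u..(u + h), fz γ (t + v) := by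
          have := intervalIntegral.integral_comp_add_left (fun v => fz γ (t + v)) u (a := 0) (b := h)
          rw [add_zero] at this
          rw [← this]
          exact intervalIntegral.integral_congr fun w _ => by simp only [add_assoc]
        have e2 : ∫ w in (0 : ℝ)..h, fz γ (t + u - w) = ∫ v in (u - h)..u, fz γ (t + v) := by
          have := intervalIntegral.integral_comp_sub_left (fun v => fz γ (t + v)) u (a := 0) (b := h)
          rw [sub_zero] at this
          rw [← this]
          exact intervalIntegral.integral_congr fun w _ => by simp only [add_sub_assoc]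
        rw [e1, e2, add_comm, intervalIntegral.integral_add_adjacent_intervals (hc.intervalIntegrable _ _) (hc.intervalIntegrable _ _)]
      rw [e]
      have h2 := pow_mean hc (fun v => fz_nonneg _ _) (a := u - h) (b := u + h) (q := q) (by linarith) hq1.le
      have e3 : u + h - (u - h) = 2 * h := by ring
      rw [e3] at h2
      refine h2.trans (le_of_eq ?_)
      congr 1
      exact intervalIntegral.integral_congr fun v _ => hpw _
    have hGc : Continuous fun z : ℝ × ℝ => fz (γ * q) (z.1 + z.2) := (fz_cont (by positivity)).comp (continuous_fst.add continuous_snd)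
    have hGi : Continuous fun t : ℝ => ∫ v in (u - h)..(u + h), fz (γ * q) (t + v) :=
      intervalIntegral.continuous_parametric_intervalIntegral_of_continuous' (f := fun t v => fz (γ * q) (t + v)) hGc _ _
    have hGi' : Continuous fun t : ℝ => (2 * h) ^ (q - 1) * ∫ v in (u - h)..(u + h), fz (γ * q) (t + v) := continuous_const.mul hGi
    refine (intervalIntegral.integral_mono_on (by linarith) (cg.intervalIntegrable _ _)
      (hGi'.intervalIntegrable _ _) fun t _ => hpt t).trans ?_
    rw [intervalIntegral.integral_const_mul]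
    have h3 := swap_bd (p := γ * q) (by positivity) (T := T) (a := u - h) (b := u + h) (B := C₁ * T * M) (by linarith)
      fun v hv => (h1 v (abs_le.2 ⟨by linarith [hv.1], by linarith [hv.2]⟩)).2
    have e3 : u + h - (u - h) = 2 * h := by ring
    rw [e3] at h3
    have h4 := mul_le_mul_of_nonneg_left h3 (show 0 ≤ (2 * h) ^ (q - 1) by positivity)
    refine h4.trans (le_of_eq ?_)
    have : (2 * h) ^ q = (2 * h) ^ (q - 1) * (2 * h) := by
      rw [Real.rpow_sub_one (by positivity), div_mul_cancel₀ _ (by positivity)]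
    rw [this]
    ring
  have hθ := hold (f := fun t => fz (γ * q) (t + u)) (g := fun t => Hz γ 0 h (t + u) ^ q) cf cg (fun t => fz_nonneg _ _)
    (fun t => Real.rpow_nonneg (Hz_nonneg γ hh.le _) _) (a := T) (b := 2 * T) (by linarith) (θ := (q - 1) / q) (by positivity)
    (by rw [div_le_one hq0]; linarith) (A := C₁ * T * M) (B := (2 * h) ^ q * (C₁ * T * M)) (by positivity) (by positivity) bf bg
  have e1 : 1 - (q - 1) / q = 1 / q := by field_simp; ring
  rw [e1] at hθ
  have e2 : ∀ t, fz (γ * q) (t + u) ^ (1 / q) * (Hz γ 0 h (t + u) ^ q) ^ ((q - 1) / q) = fz γ (t + u) * Hz γ 0 h (t + u) ^ (q - 1) := by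
    intro t
    rw [← hpw, ← Real.rpow_mul (fz_nonneg _ _), ← Real.rpow_mul (Hz_nonneg γ hh.le _)]
    have e3 : q * (1 / q) = 1 := by field_simp
    have e4 : q * ((q - 1) / q) = q - 1 := by field_simp
    rw [e3, e4, Real.rpow_one]
  simp only [e2] at hθ
  refine hθ.trans ?_
  obtain ⟨A, hA⟩ : ∃ A : ℝ, A = C₁ * T * M := ⟨_, rfl⟩
  have hA0 : 0 < A := by rw [hA]; positivity
  rw [← hA, Real.mul_rpow (by positivity) hA0.le, ← Real.rpow_mul (by positivity)]
  have e4 : q * ((q - 1) / q) = q - 1 := by field_simp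
  rw [e4]
  have e5 : A ^ (1 / q) * ((2 * h) ^ (q - 1) * A ^ ((q - 1) / q)) = (2 * h) ^ (q - 1) * A := by
    calc A ^ (1 / q) * ((2 * h) ^ (q - 1) * A ^ ((q - 1) / q)) = (2 * h) ^ (q - 1) * (A ^ (1 / q) * A ^ ((q - 1) / q)) := by ring
      _ = (2 * h) ^ (q - 1) * A := by
          rw [← Real.rpow_add hA0]
          have : 1 / q + (q - 1) / q = 1 := by field_simp; ring
          rw [this, Real.rpow_one]
  rw [e5, Real.mul_rpow (by norm_num) hh.le, hA]
  have h2q : (2 : ℝ) ^ (q - 1) ≤ 4 := by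
    calc (2 : ℝ) ^ (q - 1) ≤ 2 ^ (2 : ℝ) := Real.rpow_le_rpow_of_exponent_le (by norm_num) (by linarith)
      _ = 4 := by norm_num
  have h0 : 0 ≤ h ^ (q - 1) * (C₁ * T * M) := by positivity
  calc 2 ^ (q - 1) * h ^ (q - 1) * (C₁ * T * M) = 2 ^ (q - 1) * (h ^ (q - 1) * (C₁ * T * M)) := by ring
    _ ≤ 4 * (h ^ (q - 1) * (C₁ * T * M)) := mul_le_mul_of_nonneg_right h2q h0
    _ = _ := by ring

end

end Pool.Agent.H469.F4
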