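import Pool.Agent.H469.F4.M17

set_option autoImplicit false

/-!
# Moments of the masses of intervals of every length up to one: the upper bound
-/

namespace Pool.Agent.H469.F4

open Filter Topology MeasureTheory Complex Pool.Agent.Q97.UM

noncomputable section

theorem geo_le {a : ℝ} (ha : 0 < a) (m n : ℕ) (hn : n ≠ 0) :
    ∑ i ∈ Finset.range n, Real.exp (a * ((m + i : ℕ) : ℝ)) ≤ 1 / (1 - Real.exp (-a)) * Real.exp (a * ((m + n - 1 : ℕ) : ℝ)) := by
  have hexp1 : Real.exp (-a) < 1 := by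
    rw [Real.exp_lt_one_iff]
    linarith
  rw [← Finset.sum_range_reflect]
  have h1 : ∀ j ∈ Finset.range n, Real.exp (a * ((m + (n - 1 - j) : ℕ) : ℝ)) = Real.exp (a * ((m + n - 1 : ℕ) : ℝ)) * Real.exp (-a) ^ j := by
    intro j hj
    have hj' := Finset.mem_range.1 hj
    have e1 : ((m + (n - 1 - j) : ℕ) : ℝ) = ((m + n - 1 : ℕ) : ℝ) - j := by
      have : m + (n - 1 - j) + j = m + n - 1 := by omega
      have h2 : ((m + (n - 1 - j) : ℕ) : ℝ) + j = ((m + n - 1 : ℕ) : ℝ) := by exact_mod_cast this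
      linarith
    rw [e1, ← Real.exp_nat_mul, ← Real.exp_add]
    congr 1
    ring
  rw [Finset.sum_congr rfl h1, ← Finset.mul_sum, mul_comm]
  apply mul_le_mul_of_nonneg_right _ (Real.exp_pos _).le
  have hs := summable_geometric_of_lt_one (Real.exp_pos (-a)).le hexp1
  rw [one_div, ← tsum_geometric_of_lt_one (Real.exp_pos (-a)).le hexp1]
  exact hs.sum_le_tsum _ fun i _ => by positivity

/-- **a neighbourhood of any radius** -/
theorem all_rings_h {γ q : ℝ} (hγ0 : 0 < γ) (hγ2 : γ < 2) (hq1 : 1 < q) (hq2 : q ≤ 2) (hcr : q * γ ^ 2 < 4) : ∃ C : ℝ, 0 < C ∧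
    ∀ᶠ T : ℝ in atTop, ∀ u : ℝ, |u| ≤ T / 4 → ∀ h : ℝ, 0 < h → h ≤ 1 → ∫ t in T..(2 * T), fz γ (t + u) * Hz γ 0 h (t + u) ^ (q - 1) ≤
      C * T * (Real.log T ^ (q * γ ^ 2 / 4) * h ^ ((q - 1) * (1 - q * γ ^ 2 / 4))) := by
  obtain ⟨δ, C₁, m₀, hδ, hδ1, hC₁, hev⟩ := ring_data hγ0 hγ2.le hq1 hq2
  obtain ⟨C₂, hC₂, hsm⟩ := small_h hγ0 hq1 hq2 (by nlinarith)
  obtain ⟨a, ha⟩ : ∃ a : ℝ, a = (q - 1) * (1 - q * γ ^ 2 / 4) := ⟨_, rfl⟩
  have ha0 : 0 < a := by
    rw [ha]
    apply mul_pos (by linarith)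
    linarith
  obtain ⟨b, hb⟩ : ∃ b : ℝ, b = (q - 1) * (q * γ ^ 2 / 4) := ⟨_, rfl⟩
  have hb0 : 0 ≤ b := by
    rw [hb]
    apply mul_nonneg (by linarith)
    positivity
  obtain ⟨g, hg⟩ : ∃ g : ℝ, g = 1 / (1 - Real.exp (-a)) := ⟨_, rfl⟩
  have hexp1 : Real.exp (-a) < 1 := by
    rw [Real.exp_lt_one_iff]
    linarith
  have hg0 : 0 ≤ g := by
    rw [hg]
    have : 0 < 1 - Real.exp (-a) := by linarith
    positivity
  rw [← ha]
  refine ⟨C₂ * (Real.exp m₀ / δ) ^ b + C₁ * (g * Real.exp a), by positivity, ?_⟩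
  filter_upwards [hev, hsm, eventually_ge_atTop (16 : ℝ)] with T hev hsm hT16 u hu h hh hh1
  obtain ⟨n, hn0, hD1, hbnd, hring⟩ := hev
  obtain ⟨D, hDd⟩ : ∃ D : ℝ, D = δ * Real.log T := ⟨_, rfl⟩
  have hT0 : 0 < T := by linarith
  have hL0 : 0 < Real.log T := Real.log_pos (by linarith)
  rw [← hDd] at hD1 hbnd hring
  have hD0 : 0 < D := lt_of_lt_of_le (by positivity) hD1
  have hDL : D ≤ Real.log T := by
    rw [hDd]
    nlinarith
  have hc1 : 0 ≤ C₂ * (Real.exp m₀ / δ) ^ b * T * (Real.log T ^ (q * γ ^ 2 / 4) * h ^ a) := by positivity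
  have hc2 : 0 ≤ C₁ * (g * Real.exp a) * T * (Real.log T ^ (q * γ ^ 2 / 4) * h ^ a) := by positivity
  have hsplit : (C₂ * (Real.exp m₀ / δ) ^ b + C₁ * (g * Real.exp a)) * T * (Real.log T ^ (q * γ ^ 2 / 4) * h ^ a) =
      C₂ * (Real.exp m₀ / δ) ^ b * T * (Real.log T ^ (q * γ ^ 2 / 4) * h ^ a) +
      C₁ * (g * Real.exp a) * T * (Real.log T ^ (q * γ ^ 2 / 4) * h ^ a) := by ring
  rw [hsplit]
  rcases le_or_gt (h * D) (Real.exp m₀) with hcase | hcase
  · -- very short intervals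
    refine le_trans ((hsm u hu h hh hh1).trans ?_) (le_add_of_nonneg_right hc2)
    have h1 : h ^ (q - 1) = h ^ a * h ^ b := by
      rw [← Real.rpow_add hh]
      congr 1
      rw [ha, hb]
      ring
    have h2 : h ^ b ≤ (Real.exp m₀ / δ) ^ b * Real.log T ^ (-b) := by
      have h3 : h ≤ Real.exp m₀ / D := by rwa [le_div_iff₀ hD0]
      refine (Real.rpow_le_rpow hh.le h3 hb0).trans (le_of_eq ?_)
      rw [hDd, ← div_div, Real.div_rpow (by positivity) hL0.le, Real.rpow_neg hL0.le]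
      rfl
    have h3 : Real.log T ^ (-b) * Real.log T ^ (q ^ 2 * γ ^ 2 / 4) = Real.log T ^ (q * γ ^ 2 / 4) := by
      rw [← Real.rpow_add hL0]
      congr 1
      rw [hb]
      ring
    rw [h1]
    calc C₂ * T * (h ^ a * h ^ b * Real.log T ^ (q ^ 2 * γ ^ 2 / 4)) =
        C₂ * T * (h ^ a * Real.log T ^ (q ^ 2 * γ ^ 2 / 4)) * h ^ b := by ring
      _ ≤ C₂ * T * (h ^ a * Real.log T ^ (q ^ 2 * γ ^ 2 / 4)) * ((Real.exp m₀ / δ) ^ b * Real.log T ^ (-b)) :=
          mul_le_mul_of_nonneg_left h2 (by positivity)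
      _ = C₂ * (Real.exp m₀ / δ) ^ b * T * ((Real.log T ^ (-b) * Real.log T ^ (q ^ 2 * γ ^ 2 / 4)) * h ^ a) := by ring
      _ = _ := by rw [h3]
  · -- the rings
    refine le_trans ?_ (le_add_of_nonneg_left hc1)
    have hhD : 0 < h * D := by positivity
    obtain ⟨r, hr⟩ : ∃ r : ℕ, r = ⌊Real.log (h * D)⌋₊ := ⟨_, rfl⟩
    have hm0R : (0 : ℝ) ≤ m₀ := Nat.cast_nonneg _
    have hlog0 : (m₀ : ℝ) ≤ Real.log (h * D) := by
      rw [Real.le_log_iff_exp_le hhD]
      exact hcase.le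
    have hr1 : (r : ℝ) ≤ Real.log (h * D) := by
      rw [hr]
      exact Nat.floor_le (hm0R.trans hlog0)
    have hr2 : Real.log (h * D) < r + 1 := by
      rw [hr]
      exact Nat.lt_floor_add_one _
    have hmr : m₀ ≤ r := by
      rw [hr]
      exact Nat.le_floor hlog0
    obtain ⟨n', hn'⟩ : ∃ n' : ℕ, n' = min n (r + 2 - m₀) := ⟨_, rfl⟩
    have hn'n : n' ≤ n := by rw [hn']; exact min_le_left _ _
    have hn'0 : n' ≠ 0 := by omega
    have hn'r : m₀ + n' - 1 ≤ r + 1 := by omega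
    have hb' : h ≤ bnd D m₀ n n' := by
      unfold bnd
      rw [if_neg hn'0]
      split_ifs with h1
      · exact hh1
      · have h2 : n' = r + 2 - m₀ := by omega
        rw [le_div_iff₀ hD0]
        have h3 : h * D < Real.exp ((r : ℝ) + 1) := by
          rw [← Real.log_lt_iff_lt_exp hhD]
          exact hr2
        have h4 : (m₀ : ℝ) + n' - 1 = r + 1 := by
          have : m₀ + n' = r + 2 := by omega
          have h5 : (m₀ : ℝ) + n' = r + 2 := by exact_mod_cast this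
          linarith
        rw [h4]
        exact h3.le
    have hfc := fz_cont hγ0.le
    have hHz : ∀ τ, Hz γ 0 h τ ≤ ∑ i ∈ Finset.range n', Hz γ (bnd D m₀ n i) (bnd D m₀ n (i + 1)) τ := by
      intro τ
      have hc : Continuous fun w : ℝ => fz γ (τ + w) + fz γ (τ - w) :=
        (hfc.comp (by fun_prop)).add (hfc.comp (by fun_prop))
      unfold Hz
      rw [intervalIntegral.sum_integral_adjacent_intervals fun k _ => hc.intervalIntegrable _ _]
      have h0 : bnd D m₀ n 0 = 0 := by unfold bnd; simp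
      rw [h0]
      exact intervalIntegral.integral_mono_interval le_rfl hh.le hb'
        (Eventually.of_forall fun _ => add_nonneg (fz_nonneg _ _) (fz_nonneg _ _)) (hc.intervalIntegrable _ _)
    have huc : Continuous fun t : ℝ => t + u := by fun_prop
    have hcH : ∀ a b : ℝ, Continuous fun t : ℝ => fz γ (t + u) * Hz γ a b (t + u) ^ (q - 1) := fun a b =>
      (hfc.comp huc).mul (((Hz_cont hγ0.le a b).comp huc).rpow_const fun _ => Or.inr (by linarith))
    obtain ⟨Q, hQ⟩ : ∃ Q : ℝ, Q = q ^ 2 * γ ^ 2 / 4 - q + 1 := ⟨_, rfl⟩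
    have hQa : Q + a = q * γ ^ 2 / 4 := by rw [hQ, ha]; ring
    have haη : -((q - 1) * (q * γ ^ 2 / 4 - 1)) = a := by rw [ha]; ring
    rw [← hQ, haη] at hring
    have hsum : ∫ t in T..(2 * T), fz γ (t + u) * Hz γ 0 h (t + u) ^ (q - 1) ≤
        ∑ i ∈ Finset.range n', C₁ * T * (D ^ Q * Real.exp (a * ((m₀ + i : ℕ) : ℝ))) := by
      have h1 : ∀ t ∈ Set.Icc T (2 * T), fz γ (t + u) * Hz γ 0 h (t + u) ^ (q - 1) ≤
          ∑ i ∈ Finset.range n', fz γ (t + u) * Hz γ (bnd D m₀ n i) (bnd D m₀ n (i + 1)) (t + u) ^ (q - 1) := by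
        intro t _
        rw [← Finset.mul_sum]
        apply mul_le_mul_of_nonneg_left _ (fz_nonneg _ _)
        refine (Real.rpow_le_rpow (Hz_nonneg γ hh.le _) (hHz _) (by linarith)).trans ?_
        exact sum_rpow_le (by linarith : 0 < q - 1) (by linarith) _ _ fun i hi =>
          Hz_nonneg γ (hbnd i (lt_of_lt_of_le (Finset.mem_range.1 hi) hn'n)).2.1 _
      refine (intervalIntegral.integral_mono_on (by linarith) ((hcH 0 h).intervalIntegrable _ _)
        ((continuous_finsetSum _ fun i _ => hcH (bnd D m₀ n i) (bnd D m₀ n (i + 1))).intervalIntegrable _ _) h1).trans ?_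
      rw [intervalIntegral.integral_finsetSum fun i _ => (hcH (bnd D m₀ n i) (bnd D m₀ n (i + 1))).intervalIntegrable _ _]
      exact Finset.sum_le_sum fun i hi => hring u hu i (Finset.mem_range.2 (lt_of_lt_of_le (Finset.mem_range.1 hi) hn'n))
    refine hsum.trans ?_
    rw [← Finset.mul_sum, ← Finset.mul_sum]
    have h1 := geo_le ha0 m₀ n' hn'0
    rw [← hg] at h1
    have h2 : Real.exp (a * ((m₀ + n' - 1 : ℕ) : ℝ)) ≤ Real.exp a * (h * D) ^ a := by
      have h3 : ((m₀ + n' - 1 : ℕ) : ℝ) ≤ r + 1 := by exact_mod_cast hn'r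
      calc Real.exp (a * ((m₀ + n' - 1 : ℕ) : ℝ)) ≤ Real.exp (a * (Real.log (h * D) + 1)) := by
            apply Real.exp_le_exp.2
            apply mul_le_mul_of_nonneg_left _ ha0.le
            linarith
        _ = Real.exp a * (h * D) ^ a := by
            rw [Real.rpow_def_of_pos hhD, ← Real.exp_add]
            congr 1
            ring
    have h3 : D ^ Q * ∑ i ∈ Finset.range n', Real.exp (a * ((m₀ + i : ℕ) : ℝ)) ≤ g * Real.exp a * (Real.log T ^ (q * γ ^ 2 / 4) * h ^ a) := by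
      calc D ^ Q * ∑ i ∈ Finset.range n', Real.exp (a * ((m₀ + i : ℕ) : ℝ)) ≤ D ^ Q * (g * (Real.exp a * (h * D) ^ a)) := by
            apply mul_le_mul_of_nonneg_left _ (by positivity)
            exact h1.trans (mul_le_mul_of_nonneg_left h2 hg0)
        _ = g * Real.exp a * (D ^ (Q + a) * h ^ a) := by
            rw [Real.mul_rpow hh.le hD0.le, Real.rpow_add hD0]
            ring
        _ ≤ g * Real.exp a * (Real.log T ^ (Q + a) * h ^ a) := by
            apply mul_le_mul_of_nonneg_left _ (by positivity)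
            apply mul_le_mul_of_nonneg_right _ (by positivity)
            exact Real.rpow_le_rpow hD0.le hDL (by rw [hQa]; positivity)
        _ = _ := by rw [hQa]
    calc C₁ * T * (D ^ Q * ∑ i ∈ Finset.range n', Real.exp (a * ((m₀ + i : ℕ) : ℝ))) ≤
        C₁ * T * (g * Real.exp a * (Real.log T ^ (q * γ ^ 2 / 4) * h ^ a)) := mul_le_mul_of_nonneg_left h3 (by positivity)
      _ = _ := by ring

/-- the interval and its neighbourhoods -/
theorem Yg_le_Hz {γ : ℝ} (hγ : 0 ≤ γ) {x h u : ℝ} (hh : 0 ≤ h) (hu : u ∈ Set.Icc x (x + h)) (t : ℝ) :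
    Yg γ x (x + h) t ≤ Hz γ 0 h (t + u) := by
  have hc : Continuous fun v : ℝ => fz γ (t + v) := (fz_cont hγ).comp (by fun_prop)
  have c1 : Continuous fun w : ℝ => fz γ (t + u + w) := (fz_cont hγ).comp (by fun_prop)
  have c2 : Continuous fun w : ℝ => fz γ (t + u - w) := (fz_cont hγ).comp (by fun_prop)
  have h1 : Hz γ 0 h (t + u) = ∫ v in (u - h)..(u + h), fz γ (t + v) := by
    unfold Hz
    rw [intervalIntegral.integral_add (c1.intervalIntegrable _ _) (c2.intervalIntegrable _ _)]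
    have e1 : ∫ w in (0 : ℝ)..h, fz γ (t + u + w) = ∫ v in u..(u + h), fz γ (t + v) := by
      have := intervalIntegral.integral_comp_add_left (fun v => fz γ (t + v)) u (a := 0) (b := h)
      rw [add_zero] at this
      rw [← this]
      exact intervalIntegral.integral_congr fun w _ => by simp only [add_assoc]
    have e2 : ∫ w in (0 : ℝ)..h, fz γ (t + u - w) = ∫ v in (u - h)..u, fz γ (t + v) := by
      have := intervalIntegral.integral_comp_sub_left (fun v => fz γ (t + v)) u (a := 0) (b := h)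
      rw [sub_zero] at this
      rw [← this]
      exact intervalIntegral.integral_congr fun w _ => by simp only [add_sub_assoc]
    rw [e1, e2, add_comm, intervalIntegral.integral_add_adjacent_intervals (hc.intervalIntegrable _ _) (hc.intervalIntegrable _ _)]
  rw [h1]
  unfold Yg
  refine intervalIntegral.integral_mono_interval (by linarith [hu.2]) (by linarith) (by linarith [hu.1])
    (Eventually.of_forall fun _ => fz_nonneg _ _) (hc.intervalIntegrable _ _)

/-- **the upper bound for intervals of every length up to one** -/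
theorem meso_up {γ q : ℝ} (hγ0 : 0 < γ) (hγ2 : γ < 2) (hq1 : 1 < q) (hq2 : q ≤ 2) (hcr : q * γ ^ 2 < 4) : ∃ C : ℝ, 0 < C ∧
    ∀ᶠ T : ℝ in atTop, ∀ x : ℝ, |x| ≤ T / 8 → ∀ h : ℝ, 0 < h → h ≤ 1 → ∫ t in T..(2 * T), Yg γ x (x + h) t ^ q ≤
      C * T * (Real.log T ^ (q * γ ^ 2 / 4) * h ^ (q + q * γ ^ 2 / 4 - q ^ 2 * γ ^ 2 / 4)) := by
  obtain ⟨C, hC, hA⟩ := all_rings_h hγ0 hγ2 hq1 hq2 hcr
  refine ⟨C, hC, ?_⟩
  filter_upwards [hA, eventually_ge_atTop (16 : ℝ)] with T hA hT16 x hx h hh hh1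
  have hA := fun u hu => hA u hu h hh hh1
  have hfc := fz_cont hγ0.le
  obtain ⟨B, hB⟩ : ∃ B : ℝ, B = C * T * (Real.log T ^ (q * γ ^ 2 / 4) * h ^ ((q - 1) * (1 - q * γ ^ 2 / 4))) := ⟨_, rfl⟩
  have hBh : h * B = C * T * (Real.log T ^ (q * γ ^ 2 / 4) * h ^ (q + q * γ ^ 2 / 4 - q ^ 2 * γ ^ 2 / 4)) := by
    have e : h ^ (q + q * γ ^ 2 / 4 - q ^ 2 * γ ^ 2 / 4) = h * h ^ ((q - 1) * (1 - q * γ ^ 2 / 4)) := by
      rw [← Real.rpow_one_add' hh.le]
      · congr 1
        ring
      · have : 0 ≤ (q - 1) * (1 - q * γ ^ 2 / 4) := mul_nonneg (by linarith) (by linarith)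
        linarith
    rw [e, hB]
    ring
  rw [← hBh]
  rw [← hB] at hA
  obtain ⟨g, hg⟩ : ∃ g : ℝ → ℝ, g = fun τ => fz γ τ * Hz γ 0 h τ ^ (q - 1) := ⟨_, rfl⟩
  have hgc : Continuous g := by
    rw [hg]
    exact hfc.mul ((Hz_cont hγ0.le 0 h).rpow_const fun _ => Or.inr (by linarith))
  have hpt : ∀ t, Yg γ x (x + h) t ^ q ≤ ∫ u in x..(x + h), g (t + u) := by
    intro t
    have hX0 := Yg_nonneg γ (by linarith : x ≤ x + h) t
    have e1 : Yg γ x (x + h) t ^ q = Yg γ x (x + h) t * Yg γ x (x + h) t ^ (q - 1) := by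
      rcases hX0.lt_or_eq with h' | h'
      · rw [← Real.rpow_one_add' hX0 (by linarith)]
        congr 1
        ring
      · rw [← h', Real.zero_rpow (by linarith), Real.zero_rpow (by linarith), zero_mul]
    rw [e1]
    have e2 : Yg γ x (x + h) t * Yg γ x (x + h) t ^ (q - 1) = ∫ u in x..(x + h), fz γ (t + u) * Yg γ x (x + h) t ^ (q - 1) := by
      rw [intervalIntegral.integral_mul_const]
      rfl
    rw [e2]
    have c1 : Continuous fun u : ℝ => fz γ (t + u) * Yg γ x (x + h) t ^ (q - 1) := (hfc.comp (by fun_prop)).mul continuous_const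
    have c2 : Continuous fun u : ℝ => g (t + u) := hgc.comp (by fun_prop)
    refine intervalIntegral.integral_mono_on (by linarith) (c1.intervalIntegrable _ _) (c2.intervalIntegrable _ _) fun u hu => ?_
    rw [hg]
    simp only
    apply mul_le_mul_of_nonneg_left _ (fz_nonneg _ _)
    exact Real.rpow_le_rpow hX0 (Yg_le_Hz hγ0.le hh.le hu t) (by linarith)
  have hXc : Continuous fun t => Yg γ x (x + h) t ^ q := Yg_pow_cont hγ0 (by linarith) _ _
  have hGc : Continuous fun z : ℝ × ℝ => g (z.1 + z.2) := hgc.comp (continuous_fst.add continuous_snd)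
  have hGi : Continuous fun t : ℝ => ∫ u in x..(x + h), g (t + u) :=
    intervalIntegral.continuous_parametric_intervalIntegral_of_continuous' (f := fun t u => g (t + u)) hGc x (x + h)
  refine (intervalIntegral.integral_mono_on (by linarith) (hXc.intervalIntegrable _ _) (hGi.intervalIntegrable _ _) fun t _ => hpt t).trans ?_
  rw [swap_cont (F := fun t u => g (t + u)) hGc]
  have hGi2 : Continuous fun u : ℝ => ∫ t in T..(2 * T), g (t + u) :=
    intervalIntegral.continuous_parametric_intervalIntegral_of_continuous' (f := fun u t => g (t + u)) (hGc.comp continuous_swap) T (2 * T)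
  have hx' := abs_le.1 hx
  have h3 : ∀ u ∈ Set.Icc x (x + h), ∫ t in T..(2 * T), g (t + u) ≤ B := by
    intro u hu
    have h4 := hA u (abs_le.2 ⟨by linarith [hu.1, hx'.1], by linarith [hu.2, hx'.2]⟩)
    rw [hg]
    exact h4
  have h5 := intervalIntegral.integral_mono_on (μ := volume) (by linarith : x ≤ x + h) (hGi2.intervalIntegrable x (x + h))
    ((continuous_const (y := B)).intervalIntegrable x (x + h)) h3
  rw [intervalIntegral.integral_const, smul_eq_mul] at h5
  calc _ ≤ (x + h - x) * B := h5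
    _ = h * B := by ring

end

end Pool.Agent.H469.F4
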