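import Pool.Agent.H469.F4.M1

set_option autoImplicit false

/-!
# The mean square of a product of two polynomials of blocks
-/

namespace Pool.Agent.H469.F4

open Filter Topology MeasureTheory Complex Pool.Agent.Q97.UM
open Pool.Agent.Q14.UM (mem_PB PB_disj sum_inv_sq SP SP_te SP_qb)
open Pool.Agent.Q299.UM (Fp Fp_apply NN_Fp qb_le te_le cvp_le Ee Ee_apply NN NN_mul NN_one NN_pow NN_Ee NN_sum NN_prod Le Le_mul
  Ee_sum Ee_zero SPA SPA_mul SPA_one SPA_pow SPA_Ee SPA_prod SPA_mono N2A N2A_nonneg N2A_mul N2A_prod N2A_local Fp_one Fp_self SPA_Fp Fp_l1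
  sum_ap Le_trans Le_refl)

noncomputable section

/-- mean square of a complex arithmetic function -/
def NC (X : ℕ) (F : ArithmeticFunction ℂ) : ℝ := ∑ n ∈ Finset.Icc 1 X, ‖F n‖ ^ 2 / n

theorem NC_nonneg (X : ℕ) (F : ArithmeticFunction ℂ) : 0 ≤ NC X F := by
  unfold NC
  positivity

theorem N2_NC (X : ℕ) (f : ℕ → ℂ) : N2 X f = NC X (tA f) := by
  unfold N2 NC
  refine Finset.sum_congr rfl fun n hn => ?_
  rw [tA_apply _ (by have := (Finset.mem_Icc.1 hn).1; omega)]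

/-- all primes dividing an element of the support satisfy `P` -/
def SC (P : ℕ → Prop) (F : ArithmeticFunction ℂ) : Prop := ∀ n, F n ≠ 0 → ∀ p, p.Prime → p ∣ n → P p

theorem SC_mul {P : ℕ → Prop} {F G : ArithmeticFunction ℂ} (hF : SC P F) (hG : SC P G) : SC P (F * G) := by
  intro n hn p hp hpn
  rw [ArithmeticFunction.mul_apply] at hn
  obtain ⟨x, hx, h⟩ := Finset.exists_ne_zero_of_sum_ne_zero hn
  rw [Nat.mem_divisorsAntidiagonal] at hx
  rw [← hx.1] at hpn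
  rcases (Nat.Prime.dvd_mul hp).1 hpn with h3 | h3
  · exact hF x.1 (left_ne_zero_of_mul h) p hp h3
  · exact hG x.2 (right_ne_zero_of_mul h) p hp h3

theorem SC_one (P : ℕ → Prop) : SC P 1 := by
  intro n hn p hp hpn
  have : n = 1 := by
    by_contra h
    exact hn (ArithmeticFunction.one_apply_ne h)
  rw [this] at hpn
  exact absurd (Nat.dvd_one.1 hpn) hp.one_lt.ne'

theorem SC_pow {P : ℕ → Prop} {F : ArithmeticFunction ℂ} (hF : SC P F) (r : ℕ) : SC P (F ^ r) := by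
  induction r with
  | zero => rw [pow_zero]; exact SC_one P
  | succ r ih => rw [pow_succ]; exact SC_mul ih hF

theorem SC_smul {P : ℕ → Prop} {F : ArithmeticFunction ℂ} (hF : SC P F) (c : ℂ) : SC P (c • F) := by
  intro n hn
  rw [ArithmeticFunction.smul_map, smul_eq_mul] at hn
  exact hF n (right_ne_zero_of_mul hn)

theorem SC_mono {P Q : ℕ → Prop} {F : ArithmeticFunction ℂ} (hF : SC P F) (h : ∀ p, P p → Q p) : SC Q F :=
  fun n hn p hp hpn => h p (hF n hn p hp hpn)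

theorem SC_of_SP {P : ℕ → Prop} {f : ℕ → ℂ} (h : SP P f) : SC P (tA f) := by
  intro n hn
  by_cases h0 : n = 0
  · subst h0
    simp at hn
  · rw [tA_apply _ h0] at hn
    exact (h n hn).2

theorem norm_sum_sq_single {ι : Type*} (s : Finset ι) (f : ι → ℂ) (h : ∀ x ∈ s, ∀ y ∈ s, f x ≠ 0 → f y ≠ 0 → x = y) :
    ‖∑ x ∈ s, f x‖ ^ 2 = ∑ x ∈ s, ‖f x‖ ^ 2 := by
  by_cases h0 : ∀ x ∈ s, f x = 0
  · rw [Finset.sum_eq_zero h0, Finset.sum_eq_zero (fun x hx => by rw [h0 x hx, norm_zero]; ring), norm_zero]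
    ring
  · push Not at h0
    obtain ⟨x₀, hx₀, hf⟩ := h0
    have h1 : ∀ y ∈ s, y ≠ x₀ → f y = 0 := by
      intro y hy hne
      by_contra h2
      exact hne (h y hy x₀ hx₀ h2 hf)
    rw [Finset.sum_eq_single x₀ h1 (fun h3 => absurd hx₀ h3),
      Finset.sum_eq_single x₀ (fun y hy hne => by rw [h1 y hy hne, norm_zero]; ring) (fun h3 => absurd hx₀ h3)]

theorem NC_mul {F G : ArithmeticFunction ℂ} {P : ℕ → Prop} (hF : SC P F) (hG : SC (fun p => ¬ P p) G) (X : ℕ) :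
    NC X (F * G) ≤ NC X F * NC X G := by
  have cop : ∀ x y, F x ≠ 0 → G y ≠ 0 → Nat.Coprime x y := by
    intro x y hx hy
    by_contra hc
    obtain ⟨p, hp, h1, h2⟩ := Nat.Prime.not_coprime_iff_dvd.1 hc
    exact hG y hy p hp h2 (hF x hx p hp h1)
  have h1 : ∀ n ∈ Finset.Icc 1 X, ‖(F * G) n‖ ^ 2 / (n : ℝ) =
      ∑ x ∈ n.divisorsAntidiagonal, (‖F x.1‖ ^ 2 / (x.1 : ℝ)) * (‖G x.2‖ ^ 2 / (x.2 : ℝ)) := by
    intro n hn
    have hn0 : n ≠ 0 := by
      have := (Finset.mem_Icc.1 hn).1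
      omega
    rw [ArithmeticFunction.mul_apply, norm_sum_sq_single, Finset.sum_div]
    · refine Finset.sum_congr rfl fun x hx => ?_
      rw [Nat.mem_divisorsAntidiagonal] at hx
      have h2 : (n : ℝ) = x.1 * x.2 := by exact_mod_cast hx.1.symm
      rw [h2, norm_mul, mul_pow, div_mul_div_comm]
    · intro x hx y hy hfx hfy
      rw [Nat.mem_divisorsAntidiagonal] at hx hy
      have a1 := left_ne_zero_of_mul hfx
      have a2 := right_ne_zero_of_mul hfx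
      have b1 := left_ne_zero_of_mul hfy
      have b2 := right_ne_zero_of_mul hfy
      have e1 : x.1 ∣ y.1 := by
        have : x.1 ∣ y.1 * y.2 := ⟨x.2, by rw [hy.1, hx.1]⟩
        exact (cop _ _ a1 b2).dvd_of_dvd_mul_right this
      have e2 : y.1 ∣ x.1 := by
        have : y.1 ∣ x.1 * x.2 := ⟨y.2, by rw [hy.1, hx.1]⟩
        exact (cop _ _ b1 a2).dvd_of_dvd_mul_right this
      have e3 : x.1 = y.1 := Nat.dvd_antisymm e1 e2
      have e4 : x.2 = y.2 := by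
        have h5 : x.1 * x.2 = x.1 * y.2 := by rw [hx.1, e3, hy.1]
        refine Nat.eq_of_mul_eq_mul_left (Nat.pos_of_ne_zero ?_) h5
        rintro h6
        rw [h6, zero_mul] at hx
        exact hn0 hx.1.symm
      exact Prod.ext e3 e4
  unfold NC
  rw [Finset.sum_congr rfl h1, ← Finset.sum_biUnion, Finset.sum_mul_sum, ← Finset.sum_product']
  · refine Finset.sum_le_sum_of_subset_of_nonneg ?_ fun x _ _ => by positivity
    intro x hx
    rw [Finset.mem_biUnion] at hx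
    obtain ⟨n, hn, hx⟩ := hx
    rw [Nat.mem_divisorsAntidiagonal] at hx
    rw [Finset.mem_Icc] at hn
    have h2 : x.1 ≠ 0 := fun h => hx.2 (by rw [← hx.1, h, zero_mul])
    have h3 : x.2 ≠ 0 := fun h => hx.2 (by rw [← hx.1, h, mul_zero])
    rw [Finset.mem_product, Finset.mem_Icc, Finset.mem_Icc]
    refine ⟨⟨Nat.pos_of_ne_zero h2, ?_⟩, Nat.pos_of_ne_zero h3, ?_⟩
    · exact (Nat.le_mul_of_pos_right _ (Nat.pos_of_ne_zero h3)).trans (hx.1.le.trans hn.2)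
    · exact (Nat.le_mul_of_pos_left _ (Nat.pos_of_ne_zero h2)).trans (hx.1.le.trans hn.2)
  · intro n _ m _ hnm
    rw [Function.onFun, Finset.disjoint_left]
    intro x hx hx'
    rw [Nat.mem_divisorsAntidiagonal] at hx hx'
    exact hnm (hx.1.symm.trans hx'.1)

theorem NC_one (X : ℕ) : NC X 1 ≤ 1 := by
  unfold NC
  have h1 : ∀ n ∈ Finset.Icc 1 X, ‖(1 : ArithmeticFunction ℂ) n‖ ^ 2 / (n : ℝ) = if n = 1 then 1 else 0 := by
    intro n _
    rw [ArithmeticFunction.one_apply]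
    split_ifs with h
    · rw [h]; simp
    · simp
  rw [Finset.sum_congr rfl h1, Finset.sum_ite_eq']
  split_ifs <;> norm_num

/-! ### single blocks -/

theorem sum_sq_blocks {D : ℝ} (hD : 0 ≤ D) (s : Finset ℕ) : ∑ i ∈ s, ∑ p ∈ PB D i, (1 / (p : ℝ) ^ 2) ≤ 2 := by
  rw [← Finset.sum_biUnion]
  · obtain ⟨N, hN⟩ : ∃ N : ℕ, s.biUnion (fun i => PB D i) ⊆ Finset.Icc 1 N := by
      refine ⟨∑ p ∈ s.biUnion (fun i => PB D i), p, fun p hp => ?_⟩
      rw [Finset.mem_Icc]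
      have h1 : p.Prime := by
        rw [Finset.mem_biUnion] at hp
        obtain ⟨i, _, hi⟩ := hp
        exact (mem_PB hi).1
      exact ⟨h1.one_lt.le, Finset.single_le_sum (f := fun p => p) (fun _ _ => Nat.zero_le _) hp⟩
    exact (Finset.sum_le_sum_of_subset_of_nonneg hN fun p _ _ => by positivity).trans (sum_inv_sq N)
  · intro i _ j _ hij
    rw [Function.onFun, Finset.disjoint_left]
    intro p hp hp'
    exact hij (PB_disj D hD hp hp')

/-- the majorant of one block -/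
theorem te_NC {A : ℝ} (D : ℝ) {x x2 : ℕ → ℂ} (hx : ∀ n, ‖x n‖ ≤ A) (hx2 : ∀ n, ‖x2 n‖ ≤ A) (l R X : ℕ) :
    NC X (tA (te (qb D x x2 l) R)) ≤ Real.exp (∑ p ∈ PB D l, (‖x p‖ ^ 2 / p + 2 * Real.exp (3 * A) * (1 / (p : ℝ) ^ 2))) := by
  have hA : 0 ≤ A := (norm_nonneg _).trans (hx 0)
  have h1 : NC X (tA (te (qb D x x2 l) R)) ≤ N2A X (Ee (∑ p ∈ PB D l, Fp x x2 p) R) := by
    unfold NC N2A
    refine Finset.sum_le_sum fun n hn => ?_
    rw [tA_apply _ (by have := (Finset.mem_Icc.1 hn).1; omega)]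
    have := te_le _ _ (NN_sum _ _ fun p _ => NN_Fp x x2 p) (qb_le D x x2 l) R n
    gcongr
  refine h1.trans ?_
  unfold N2A
  have h2 := Pool.Agent.Q299.UM.NN_Ee (NN_sum (PB D l) _ fun p _ => NN_Fp x x2 p) R
  refine (N2A_mono X h2 (Ee_sum (PB D l) (Fp x x2) (NN_Fp x x2) R)).trans ?_
  refine (N2A_prod X _ _ (fun p => p) (fun _ _ _ _ h => h) fun p hp => SPA_Ee (SPA_Fp x x2 (mem_PB hp).1) R).trans ?_
  rw [Real.exp_sum]
  refine Finset.prod_le_prod (fun p _ => N2A_nonneg _ _) fun p hp => ?_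
  have hpp := (mem_PB hp).1
  have h3 := N2A_local (NN_Fp x x2 p) hpp (Fp_one x x2 hpp) (SPA_Fp x x2 hpp) (‖x p‖ + ‖x2 p‖ / 2) (by positivity) (Fp_l1 x x2 p) R X
  rw [Fp_self x x2 hpp] at h3
  have h4 : Real.exp (2 * (‖x p‖ + ‖x2 p‖ / 2)) ≤ Real.exp (3 * A) := by
    apply Real.exp_le_exp.2
    have e1 := hx p
    have e2 := hx2 p
    linarith
  have h5 : 2 * Real.exp (2 * (‖x p‖ + ‖x2 p‖ / 2)) / (p : ℝ) ^ 2 ≤ 2 * Real.exp (3 * A) * (1 / (p : ℝ) ^ 2) := by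
    rw [mul_one_div]
    gcongr
  have h6 := Real.add_one_le_exp (‖x p‖ ^ 2 / (p : ℝ) + 2 * Real.exp (3 * A) * (1 / (p : ℝ) ^ 2))
  linarith

/-- the family used for the majorants of products -/
def fm (x x2 y y2 : ℕ → ℂ) (p : ℕ) : ArithmeticFunction ℝ := Real.exp 1 • (Fp x x2 p + Fp y y2 p)

theorem fm_bd {A C₀ : ℝ} (hA : 1 ≤ A) {D : ℝ} (hD : 0 ≤ D) {l : ℕ} (hC : ∑ p ∈ PB D l, (1 : ℝ) / p ≤ C₀) {x x2 y y2 : ℕ → ℂ}
    (hx : ∀ n, ‖x n‖ ≤ A) (hx2 : ∀ n, ‖x2 n‖ ≤ A) (hy : ∀ n, ‖y n‖ ≤ A) (hy2 : ∀ n, ‖y2 n‖ ≤ A) (R X : ℕ) :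
    N2A X (Ee (∑ p ∈ PB D l, fm x x2 y y2 p) R) ≤ Real.exp (36 * A ^ 2 * C₀ + 4 * Real.exp (18 * A)) := by
  have he : Real.exp 1 ≤ 3 := by
    have := Real.exp_one_lt_d9
    linarith
  have he0 := Real.exp_pos 1
  refine (block_bd_aux D l (fm x x2 y y2) (fun _ => 6 * A) (9 * A) (by linarith) (fun p => NN_smul (NN_add (NN_Fp _ _ _) (NN_Fp _ _ _)) he0.le)
    (fun p hp => ?_) (fun p hp => ?_) (fun p hp => SPA_smul (SPA_add (SPA_Fp _ _ hp) (SPA_Fp _ _ hp)) _) (fun p n => ?_) R X).trans ?_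
  · unfold fm
    rw [ArithmeticFunction.smul_map, ArithmeticFunction.add_apply, Fp_one _ _ hp, Fp_one _ _ hp]
    simp
  · unfold fm
    rw [ArithmeticFunction.smul_map, ArithmeticFunction.add_apply, Fp_self _ _ hp, Fp_self _ _ hp, smul_eq_mul]
    have e1 := hx p
    have e2 := hy p
    have e3 := norm_nonneg (x p)
    have e4 := norm_nonneg (y p)
    nlinarith
  · unfold fm
    simp only [ArithmeticFunction.smul_map, ArithmeticFunction.add_apply, smul_eq_mul]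
    rw [← Finset.mul_sum, Finset.sum_add_distrib]
    have e1 := Fp_l1 x x2 p n
    have e2 := Fp_l1 y y2 p n
    have f1 := hx p
    have f2 := hx2 p
    have f3 := hy p
    have f4 := hy2 p
    have e3 : 0 ≤ ∑ d ∈ n.divisors, Fp x x2 p d := Finset.sum_nonneg fun d _ => NN_Fp _ _ _ d
    have e4 : 0 ≤ ∑ d ∈ n.divisors, Fp y y2 p d := Finset.sum_nonneg fun d _ => NN_Fp _ _ _ d
    calc Real.exp 1 * (∑ d ∈ n.divisors, Fp x x2 p d + ∑ d ∈ n.divisors, Fp y y2 p d) ≤ 3 * (3 * A) :=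
          mul_le_mul he (by linarith) (by linarith) (by norm_num)
      _ = 9 * A := by ring
  · apply Real.exp_le_exp.2
    rw [Finset.sum_add_distrib, ← Finset.mul_sum]
    have h1 : ∑ p ∈ PB D l, (6 * A) ^ 2 / (p : ℝ) ≤ 36 * A ^ 2 * C₀ := by
      calc ∑ p ∈ PB D l, (6 * A) ^ 2 / (p : ℝ) = 36 * A ^ 2 * ∑ p ∈ PB D l, (1 : ℝ) / p := by
            rw [Finset.mul_sum]
            exact Finset.sum_congr rfl fun p _ => by ring
        _ ≤ _ := mul_le_mul_of_nonneg_left hC (by positivity)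
    have h2 : ∑ p ∈ PB D l, (1 / (p : ℝ) ^ 2) ≤ 2 := by
      have := sum_sq_blocks hD {l}
      rwa [Finset.sum_singleton] at this
    have h3 : 2 * Real.exp (2 * (9 * A)) * ∑ p ∈ PB D l, (1 / (p : ℝ) ^ 2) ≤ 2 * Real.exp (2 * (9 * A)) * 2 :=
      mul_le_mul_of_nonneg_left h2 (by positivity)
    have h4 : 2 * (9 * A) = 18 * A := by ring
    rw [h4] at h3 ⊢
    linarith

/-- the product of two truncated exponentials in one block -/
theorem te_te_NC {A C₀ : ℝ} (hA : 1 ≤ A) {D : ℝ} (hD : 0 ≤ D) {l : ℕ} (hC : ∑ p ∈ PB D l, (1 : ℝ) / p ≤ C₀) {x x2 y y2 : ℕ → ℂ}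
    (hx : ∀ n, ‖x n‖ ≤ A) (hx2 : ∀ n, ‖x2 n‖ ≤ A) (hy : ∀ n, ‖y n‖ ≤ A) (hy2 : ∀ n, ‖y2 n‖ ≤ A) {R S : ℕ} (hRS : S ≤ R) (X : ℕ) :
    NC X (tA (te (qb D x x2 l) R) * tA (te (qb D y y2 l) S)) ≤
      (1 + 3 * Real.exp (36 * A ^ 2 * C₀ + 4 * Real.exp (18 * A)) * Real.exp (-(S : ℝ))) *
        Real.exp (∑ p ∈ PB D l, (‖x p + y p‖ ^ 2 / p + 2 * Real.exp (6 * A) * (1 / (p : ℝ) ^ 2))) := by
  obtain ⟨V, hV⟩ : ∃ V : ℝ, V = Real.exp (36 * A ^ 2 * C₀ + 4 * Real.exp (18 * A)) := ⟨_, rfl⟩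
  obtain ⟨ε, hε⟩ : ∃ ε : ℝ, ε = Real.exp (-(S : ℝ)) := ⟨_, rfl⟩
  have hε0 : 0 < ε := by rw [hε]; exact Real.exp_pos _
  have hε1 : ε ≤ 1 := by
    rw [hε]
    apply Real.exp_le_one_iff.2
    have : (0 : ℝ) ≤ S := Nat.cast_nonneg S
    linarith
  have hsum : (fun n => qb D x x2 l n + qb D y y2 l n) = qb D (fun n => x n + y n) (fun n => x2 n + y2 n) l := by
    funext n
    unfold qb
    split_ifs <;> ring
  have hU : NC X (tA (te (fun n => qb D x x2 l n + qb D y y2 l n) (R + S))) ≤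
      Real.exp (∑ p ∈ PB D l, (‖x p + y p‖ ^ 2 / p + 2 * Real.exp (6 * A) * (1 / (p : ℝ) ^ 2))) := by
    rw [hsum]
    have h1 := te_NC (A := 2 * A) D (x := fun n => x n + y n) (x2 := fun n => x2 n + y2 n)
      (fun n => (norm_add_le _ _).trans (by have := hx n; have := hy n; linarith))
      (fun n => (norm_add_le _ _).trans (by have := hx2 n; have := hy2 n; linarith)) l (R + S) X
    have e : 3 * (2 * A) = 6 * A := by ring
    rw [e] at h1
    exact h1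
  obtain ⟨U, hUd⟩ : ∃ U : ℝ, U = Real.exp (∑ p ∈ PB D l, (‖x p + y p‖ ^ 2 / p + 2 * Real.exp (6 * A) * (1 / (p : ℝ) ^ 2))) := ⟨_, rfl⟩
  have hU1 : 1 ≤ U := by
    rw [hUd]
    apply Real.one_le_exp
    exact Finset.sum_nonneg fun p _ => by positivity
  have hW := fm_bd hA hD hC hx hx2 hy hy2 (R + S) X
  rw [← hV] at hW
  rw [← hV, ← hε, ← hUd]
  rw [← hUd] at hU
  have h1 : NC X (tA (te (qb D x x2 l) R) * tA (te (qb D y y2 l) S)) ≤
      (1 + ε) * NC X (tA (te (fun n => qb D x x2 l n + qb D y y2 l n) (R + S))) +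
        (ε ^ 2 + ε) * N2A X (Ee (∑ p ∈ PB D l, fm x x2 y y2 p) (R + S)) := by
    unfold NC N2A
    rw [Finset.mul_sum, Finset.mul_sum, ← Finset.sum_add_distrib]
    refine Finset.sum_le_sum fun n hn => ?_
    have hn0 : n ≠ 0 := by have := (Finset.mem_Icc.1 hn).1; omega
    have h2 := te_mul_diff (qb_le D x x2 l) (qb_le D y y2 l) hRS hn0
    rw [← tA_cv, tA_apply _ hn0, tA_apply _ hn0]
    have h3 : Real.exp 1 • (∑ p ∈ PB D l, Fp x x2 p + ∑ p ∈ PB D l, Fp y y2 p) = ∑ p ∈ PB D l, fm x x2 y y2 p := by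
      unfold fm
      rw [← Finset.sum_add_distrib, Finset.smul_sum]
    rw [h3, ← hε] at h2
    obtain ⟨a, ha⟩ : ∃ a : ℝ, a = ‖te (fun n => qb D x x2 l n + qb D y y2 l n) (R + S) n‖ := ⟨_, rfl⟩
    obtain ⟨b, hb⟩ : ∃ b : ℝ, b = Ee (∑ p ∈ PB D l, fm x x2 y y2 p) (R + S) n := ⟨_, rfl⟩
    rw [← ha, ← hb] at h2 ⊢
    have ha0 : 0 ≤ a := by rw [ha]; exact norm_nonneg _
    have hb0 : 0 ≤ b := by
      rw [hb]
      exact NN_Ee (NN_sum _ _ fun p _ => NN_smul (NN_add (NN_Fp _ _ _) (NN_Fp _ _ _)) (Real.exp_pos 1).le) _ n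
    have hnp : (0 : ℝ) < n := by exact_mod_cast Nat.pos_of_ne_zero hn0
    have h4 : ‖cv (te (qb D x x2 l) R) (te (qb D y y2 l) S) n‖ ^ 2 ≤ (1 + ε) * a ^ 2 + (ε ^ 2 + ε) * b ^ 2 := by
      have h5 := pow_le_pow_left₀ (norm_nonneg _) h2 2
      have h6 : (a + ε * b) ^ 2 ≤ (1 + ε) * a ^ 2 + (ε ^ 2 + ε) * b ^ 2 := by
        nlinarith [mul_nonneg hε0.le (sq_nonneg (a - b))]
      linarith
    have h7 : (1 + ε) * (a ^ 2 / (n : ℝ)) + (ε ^ 2 + ε) * (b ^ 2 / (n : ℝ)) = ((1 + ε) * a ^ 2 + (ε ^ 2 + ε) * b ^ 2) / n := by ring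
    rw [h7]
    gcongr
  refine h1.trans ?_
  have hV0 : 0 ≤ V := by rw [hV]; exact (Real.exp_pos _).le
  have hV1 : 1 ≤ V := by
    rw [hV]
    apply Real.one_le_exp
    have : 0 ≤ C₀ := (Finset.sum_nonneg fun p _ => by positivity).trans hC
    positivity
  have h2 : (1 + ε) * NC X (tA (te (fun n => qb D x x2 l n + qb D y y2 l n) (R + S))) ≤ (1 + ε) * U :=
    mul_le_mul_of_nonneg_left hU (by linarith)
  have h3 : (ε ^ 2 + ε) * N2A X (Ee (∑ p ∈ PB D l, fm x x2 y y2 p) (R + S)) ≤ (2 * ε) * V := by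
    apply mul_le_mul _ hW (N2A_nonneg _ _) (by linarith)
    nlinarith
  have h4 : ε ≤ ε * V := le_mul_of_one_le_right hε0.le hV1
  have h5 : 2 * ε * V ≤ 2 * ε * V * U := le_mul_of_one_le_right (by positivity) hU1
  calc _ ≤ (1 + ε) * U + 2 * ε * V * U := by linarith
    _ = (1 + ε + 2 * (ε * V)) * U := by ring
    _ ≤ (1 + 3 * V * ε) * U := by
      apply mul_le_mul_of_nonneg_right _ (by linarith)
      linarith

end

end Pool.Agent.H469.F4
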