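import Pool.Agent.H469.F4.M2

set_option autoImplicit false

/-!
# The mean square of the product of the polynomial of the blocks and of a weight on the small primes
-/

namespace Pool.Agent.H469.F4

open Filter Topology MeasureTheory Complex Pool.Agent.Q97.UM
open Pool.Agent.Q14.UM (mem_PB PB_disj sum_inv_sq SP SP_te SP_qb SP_cvp)
open Pool.Agent.Q299.UM (Fp Fp_apply NN_Fp qb_le te_le cvp_le Ee Ee_apply NN NN_mul NN_one NN_pow NN_Ee NN_sum NN_prod Le Le_mul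
  Ee_sum Ee_zero SPA SPA_mul SPA_one SPA_pow SPA_Ee SPA_prod SPA_mono N2A N2A_nonneg N2A_mul N2A_prod N2A_local Fp_one Fp_self SPA_Fp Fp_l1
  sum_ap Le_trans Le_refl)

noncomputable section

theorem Le_pow {F G : ArithmeticFunction ℝ} (hF : NN F) (h : Le F G) (r : ℕ) : Le (F ^ r) (G ^ r) := by
  have hG : NN G := fun n => (hF n).trans (h n)
  induction r with
  | zero => rw [pow_zero, pow_zero]; exact Le_refl _
  | succ r ih => rw [pow_succ, pow_succ]; exact Le_mul ih h (NN_pow hG r) hF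

theorem Ee_mono {F G : ArithmeticFunction ℝ} (hF : NN F) (h : Le F G) (R : ℕ) : Le (Ee F R) (Ee G R) := by
  intro n
  rw [Ee_apply, Ee_apply]
  refine Finset.sum_le_sum fun r _ => ?_
  have := Le_pow hF h r n
  gcongr

theorem pow_le_Ee {F : ArithmeticFunction ℝ} (hF : NN F) (s n : ℕ) : (F ^ s) n ≤ (s.factorial : ℝ) * Ee F s n := by
  rw [Ee_apply, Finset.mul_sum]
  have h1 := Finset.single_le_sum (f := fun r => (s.factorial : ℝ) * ((F ^ r) n / (r.factorial : ℝ)))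
    (fun r _ => by have := NN_pow hF r n; positivity) (Finset.self_mem_range_succ s)
  refine le_trans (le_of_eq ?_) h1
  have : (s.factorial : ℝ) ≠ 0 := by positivity
  field_simp

/-- the block with the penalty -/
theorem pen_NC {A C₀ : ℝ} (hA : 1 ≤ A) {D : ℝ} (hD : 0 ≤ D) {l : ℕ} (hC : ∑ p ∈ PB D l, (1 : ℝ) / p ≤ C₀) {x x2 y y2 : ℕ → ℂ}
    (hx : ∀ n, ‖x n‖ ≤ A) (hx2 : ∀ n, ‖x2 n‖ ≤ A) (hy : ∀ n, ‖y n‖ ≤ A) (hy2 : ∀ n, ‖y2 n‖ ≤ A) (R s X : ℕ) :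
    NC X (tA (te (qb D x x2 l) R) * tA (cvp (qb D y y2 l) s)) ≤
      (s.factorial : ℝ) ^ 2 * Real.exp (36 * A ^ 2 * C₀ + 4 * Real.exp (18 * A)) := by
  have hx' : NN (∑ p ∈ PB D l, Fp x x2 p) := NN_sum _ _ fun p _ => NN_Fp x x2 p
  have hy' : NN (∑ p ∈ PB D l, Fp y y2 p) := NN_sum _ _ fun p _ => NN_Fp y y2 p
  have h3 : Real.exp 1 • (∑ p ∈ PB D l, Fp x x2 p + ∑ p ∈ PB D l, Fp y y2 p) = ∑ p ∈ PB D l, fm x x2 y y2 p := by
    unfold fm
    rw [← Finset.sum_add_distrib, Finset.smul_sum]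
  have h4 : Le (∑ p ∈ PB D l, Fp x x2 p + ∑ p ∈ PB D l, Fp y y2 p) (∑ p ∈ PB D l, fm x x2 y y2 p) := by
    intro n
    rw [← h3, ArithmeticFunction.smul_map, smul_eq_mul]
    exact le_mul_of_one_le_left (NN_add hx' hy' n) (Real.one_le_exp (by norm_num))
  have h5 : ∀ n, n ≠ 0 → ‖(tA (te (qb D x x2 l) R) * tA (cvp (qb D y y2 l) s)) n‖ ≤
      (s.factorial : ℝ) * Ee (∑ p ∈ PB D l, fm x x2 y y2 p) (R + s) n := by
    intro n hn
    rw [ArithmeticFunction.mul_apply]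
    calc ‖∑ z ∈ n.divisorsAntidiagonal, tA (te (qb D x x2 l) R) z.1 * tA (cvp (qb D y y2 l) s) z.2‖ ≤
        ∑ z ∈ n.divisorsAntidiagonal, Ee (∑ p ∈ PB D l, Fp x x2 p) R z.1 * ((s.factorial : ℝ) * Ee (∑ p ∈ PB D l, Fp y y2 p) s z.2) := by
          refine (norm_sum_le _ _).trans (Finset.sum_le_sum fun z hz => ?_)
          obtain ⟨h1, h2⟩ := Nat.mem_divisorsAntidiagonal.1 hz
          have e3 : z.1 ≠ 0 := fun h => h2 (by rw [← h1, h, zero_mul])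
          have e4 : z.2 ≠ 0 := fun h => h2 (by rw [← h1, h, mul_zero])
          rw [norm_mul, tA_apply _ e3, tA_apply _ e4]
          refine mul_le_mul (te_le _ _ hx' (qb_le D x x2 l) R z.1) ?_ (norm_nonneg _) (NN_Ee hx' R z.1)
          exact (cvp_le _ _ hy' (qb_le D y y2 l) s z.2).trans (pow_le_Ee hy' s z.2)
      _ = (s.factorial : ℝ) * (Ee (∑ p ∈ PB D l, Fp x x2 p) R * Ee (∑ p ∈ PB D l, Fp y y2 p) s) n := by
          rw [ArithmeticFunction.mul_apply, Finset.mul_sum]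
          exact Finset.sum_congr rfl fun z _ => by ring
      _ ≤ (s.factorial : ℝ) * Ee (∑ p ∈ PB D l, Fp x x2 p + ∑ p ∈ PB D l, Fp y y2 p) (R + s) n :=
          mul_le_mul_of_nonneg_left (Ee_mul_le hx' hy' R s n) (by positivity)
      _ ≤ (s.factorial : ℝ) * Ee (∑ p ∈ PB D l, fm x x2 y y2 p) (R + s) n :=
          mul_le_mul_of_nonneg_left (Ee_mono (NN_add hx' hy') h4 (R + s) n) (by positivity)
  have hW := fm_bd hA hD hC hx hx2 hy hy2 (R + s) X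
  calc NC X (tA (te (qb D x x2 l) R) * tA (cvp (qb D y y2 l) s)) ≤
      (s.factorial : ℝ) ^ 2 * N2A X (Ee (∑ p ∈ PB D l, fm x x2 y y2 p) (R + s)) := by
        unfold NC N2A
        rw [Finset.mul_sum]
        refine Finset.sum_le_sum fun n hn => ?_
        have hn0 : n ≠ 0 := by have := (Finset.mem_Icc.1 hn).1; omega
        have h6 := pow_le_pow_left₀ (norm_nonneg _) (h5 n hn0) 2
        rw [mul_pow] at h6
        have hnp : (0 : ℝ) < n := by exact_mod_cast Nat.pos_of_ne_zero hn0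
        rw [← mul_div_assoc]
        gcongr
    _ ≤ _ := mul_le_mul_of_nonneg_left hW (by positivity)

/-! ### many blocks -/

theorem ebk_step (D κ : ℝ) (a a2 : ℕ → ℂ) (l n : ℕ) :
    tA (ebk D κ a a2 l (n + 1)) = tA (te (qb D a a2 (l + n)) (R9 κ (l + n))) * tA (ebk D κ a a2 l n) := by
  have h : ebk D κ a a2 l (n + 1) = cv (te (qb D a a2 (l + n)) (R9 κ (l + n))) (ebk D κ a a2 l n) := rfl
  rw [h, tA_cv]

theorem SC_ebk (D κ : ℝ) (a a2 : ℕ → ℂ) (l n : ℕ) : SC (fun p => ∃ j, l ≤ j ∧ j < l + n ∧ p ∈ PB D j) (tA (ebk D κ a a2 l n)) :=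
  SC_of_SP (SP_ebk' D κ a a2 l n)

theorem SC_teb (D : ℝ) (a a2 : ℕ → ℂ) (l R : ℕ) : SC (fun p => p ∈ PB D l) (tA (te (qb D a a2 l) R)) :=
  SC_of_SP (SP_te _ _ (SP_qb D a a2 l) R)

/-- plain blocks -/
theorem plain_NC {A : ℝ} {D : ℝ} (hD : 0 ≤ D) (κ : ℝ) {x x2 : ℕ → ℂ} (hx : ∀ n, ‖x n‖ ≤ A) (hx2 : ∀ n, ‖x2 n‖ ≤ A) (l n X : ℕ) :
    NC X (tA (ebk D κ x x2 l n)) ≤ Real.exp (∑ i ∈ Finset.Ico l (l + n), ∑ p ∈ PB D i, (‖x p‖ ^ 2 / p + 2 * Real.exp (3 * A) * (1 / (p : ℝ) ^ 2))) := by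
  induction n with
  | zero =>
    rw [add_zero, Finset.Ico_self, Finset.sum_empty, Real.exp_zero]
    have : tA (ebk D κ x x2 l 0) = 1 := tA_one
    rw [this]
    exact NC_one X
  | succ n ih =>
    rw [ebk_step, ← add_assoc, Finset.sum_Ico_succ_top (by omega), Real.exp_add, mul_comm (Real.exp _)]
    refine (NC_mul (P := fun p => p ∈ PB D (l + n)) (SC_teb D x x2 (l + n) _) ?_ X).trans
      (mul_le_mul (te_NC D hx hx2 (l + n) _ X) ih (NC_nonneg _ _) (Real.exp_pos _).le)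
    refine SC_mono (SC_ebk D κ x x2 l n) ?_
    rintro p ⟨j, _, hj, hp⟩ hp'
    exact (by omega : j ≠ l + n) (PB_disj D hD hp hp')

/-- double blocks -/
theorem double_NC {A C₀ : ℝ} (hA : 1 ≤ A) {D : ℝ} (hD : 0 ≤ D) {κ κ' : ℝ} {r : ℕ} (hκ : ∀ i, R9 κ' i ≤ R9 κ (r + i))
    (hC : ∀ i, ∑ p ∈ PB (D * Real.exp (-(r : ℝ))) i, (1 : ℝ) / p ≤ C₀) {x x2 y y2 : ℕ → ℂ}
    (hx : ∀ n, ‖x n‖ ≤ A) (hx2 : ∀ n, ‖x2 n‖ ≤ A) (hy : ∀ n, ‖y n‖ ≤ A) (hy2 : ∀ n, ‖y2 n‖ ≤ A) (j n X : ℕ) :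
    NC X (tA (ebk D κ x x2 (r + j) n) * tA (ebk (D * Real.exp (-(r : ℝ))) κ' y y2 j n)) ≤
      ∏ i ∈ Finset.Ico j (j + n), ((1 + 3 * Real.exp (36 * A ^ 2 * C₀ + 4 * Real.exp (18 * A)) * Real.exp (-(R9 κ' i : ℝ))) *
        Real.exp (∑ p ∈ PB (D * Real.exp (-(r : ℝ))) i, (‖x p + y p‖ ^ 2 / p + 2 * Real.exp (6 * A) * (1 / (p : ℝ) ^ 2)))) := by
  obtain ⟨E, hE⟩ : ∃ E : ℝ, E = D * Real.exp (-(r : ℝ)) := ⟨_, rfl⟩
  have hE0 : 0 ≤ E := by rw [hE]; positivity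
  have hPB : ∀ i, PB D (r + i) = PB E i := fun i => by rw [PB_shift, hE]
  have hqb : ∀ i, qb D x x2 (r + i) = qb E x x2 i := fun i => by
    funext n
    unfold qb
    rw [hPB]
  rw [← hE] at hC ⊢
  induction n with
  | zero =>
    rw [add_zero, Finset.Ico_self, Finset.prod_empty]
    have e1 : tA (ebk D κ x x2 (r + j) 0) = 1 := tA_one
    have e2 : tA (ebk E κ' y y2 j 0) = 1 := tA_one
    rw [e1, e2, one_mul]
    exact NC_one X
  | succ n ih =>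
    rw [ebk_step, ebk_step, ← add_assoc j n 1, Finset.prod_Ico_succ_top (by omega), mul_comm (∏ i ∈ Finset.Ico j (j + n), _)]
    have e1 : tA (te (qb D x x2 (r + j + n)) (R9 κ (r + j + n))) * tA (ebk D κ x x2 (r + j) n) *
        (tA (te (qb E y y2 (j + n)) (R9 κ' (j + n))) * tA (ebk E κ' y y2 j n)) =
        (tA (te (qb E x x2 (j + n)) (R9 κ (r + j + n))) * tA (te (qb E y y2 (j + n)) (R9 κ' (j + n)))) *
          (tA (ebk D κ x x2 (r + j) n) * tA (ebk E κ' y y2 j n)) := by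
      rw [add_assoc r j n, hqb]
      ring
    rw [e1]
    have hR : R9 κ' (j + n) ≤ R9 κ (r + j + n) := by rw [add_assoc]; exact hκ _
    refine (NC_mul (P := fun p => p ∈ PB E (j + n)) (SC_mul (SC_teb E x x2 (j + n) _) (SC_teb E y y2 (j + n) _)) ?_ X).trans
      (mul_le_mul (te_te_NC hA hE0 (hC (j + n)) hx hx2 hy hy2 hR X) ih (NC_nonneg _ _) (by positivity))
    apply SC_mul
    · refine SC_mono (SC_ebk D κ x x2 (r + j) n) ?_
      rintro p ⟨m, hm1, hm, hp⟩ hp'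
      obtain ⟨i, rfl⟩ : ∃ i, m = r + i := ⟨m - r, by omega⟩
      rw [hPB] at hp
      exact (by omega : i ≠ j + n) (PB_disj E hE0 hp hp')
    · refine SC_mono (SC_ebk E κ' y y2 j n) ?_
      rintro p ⟨m, _, hm, hp⟩ hp'
      exact (by omega : m ≠ j + n) (PB_disj E hE0 hp hp')

/-- the coefficients of the penalty -/
def pwc (E κ' : ℝ) (a a2 : ℕ → ℂ) : ℕ → (ℕ → ℂ)
  | 0 => fun n => if n = 1 then 1 else 0
  | (i + 1) => fun n => (20 / (R9 κ' i : ℂ)) ^ s7 i * cvp (qb E a a2 i) (s7 i) n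

/-- the size of the penalty -/
def pen (κ' : ℝ) : ℕ → ℝ
  | 0 => 1
  | (i + 1) => ((20 / (R9 κ' i : ℝ)) ^ s7 i * (s7 i).factorial) ^ 2

theorem pen_nonneg (κ' : ℝ) (q : ℕ) : 0 ≤ pen κ' q := by
  cases q with
  | zero => exact zero_le_one
  | succ i => exact sq_nonneg _

theorem half_R9 {κ' : ℝ} (hκ : 4 ≤ κ') (i : ℕ) : Real.exp (-(R9 κ' i : ℝ)) ≤ (1 / 2) ^ (i + 1) := by
  have h1 : κ' * Real.exp (9 / 10 * (i : ℝ)) ≤ R9 κ' i := Nat.le_ceil _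
  have h2 : 1 + 9 / 10 * (i : ℝ) ≤ Real.exp (9 / 10 * (i : ℝ)) := by
    have := Real.add_one_le_exp (9 / 10 * (i : ℝ))
    linarith
  have hi : (0 : ℝ) ≤ i := Nat.cast_nonneg i
  have h3 : ((i + 1 : ℕ) : ℝ) ≤ R9 κ' i := by
    push_cast
    nlinarith
  have h4 : Real.exp (-(R9 κ' i : ℝ)) ≤ Real.exp (-((i + 1 : ℕ) : ℝ)) := Real.exp_le_exp.2 (by linarith)
  refine h4.trans ?_
  have h5 : Real.exp (-((i + 1 : ℕ) : ℝ)) = Real.exp (-1) ^ (i + 1) := by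
    rw [← Real.exp_nat_mul]
    congr 1
    ring
  rw [h5]
  apply pow_le_pow_left₀ (Real.exp_pos _).le
  rw [Real.exp_neg, one_div]
  apply inv_anti₀ (by norm_num)
  have := Real.add_one_le_exp (1 : ℝ)
  linarith

theorem prod_one_add_half {K κ' : ℝ} (hK : 0 ≤ K) (hκ : 4 ≤ κ') (s : Finset ℕ) :
    ∏ i ∈ s, (1 + K * Real.exp (-(R9 κ' i : ℝ))) ≤ Real.exp K := by
  have h1 : ∏ i ∈ s, (1 + K * Real.exp (-(R9 κ' i : ℝ))) ≤ ∏ i ∈ s, Real.exp (K * (1 / 2) ^ (i + 1)) := by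
    refine Finset.prod_le_prod (fun i _ => by positivity) fun i _ => ?_
    have h2 := Real.add_one_le_exp (K * (1 / 2) ^ (i + 1))
    have h3 := mul_le_mul_of_nonneg_left (half_R9 hκ i) hK
    linarith
  refine h1.trans ?_
  rw [← Real.exp_sum, ← Finset.mul_sum]
  apply Real.exp_le_exp.2
  have h2 : ∑ i ∈ s, ((1 : ℝ) / 2) ^ (i + 1) ≤ 1 := by
    have hs : Summable fun i : ℕ => ((1 : ℝ) / 2) ^ (i + 1) := by
      simp_rw [pow_succ]
      exact (summable_geometric_of_lt_one (by norm_num) (by norm_num)).mul_right _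
    refine (hs.sum_le_tsum s fun i _ => by positivity).trans (le_of_eq ?_)
    simp_rw [pow_succ]
    rw [tsum_mul_right, tsum_geometric_of_lt_one (by norm_num) (by norm_num)]
    norm_num
  calc K * ∑ i ∈ s, ((1 : ℝ) / 2) ^ (i + 1) ≤ K * 1 := mul_le_mul_of_nonneg_left h2 hK
    _ = K := mul_one K

end

end Pool.Agent.H469.F4
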