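import Pool.Agent.H469.F4.M3
import Pool.Agent.H469.F4.ORD4

set_option autoImplicit false

/-!
# Weights on the small primes: mean values against products of shifted values of zeta
-/

namespace Pool.Agent.H469.F4

open Filter Topology MeasureTheory Complex Pool.Agent.Q97.UM
open Pool.Agent.Q14.UM (mem_PB PB_disj sum_inv_sq SP SP_te SP_qb SP_cvp)

noncomputable section

/-- the sum over the blocks `< r` -/
def SB (D : ℝ) (x : ℕ → ℂ) (r : ℕ) : ℝ := ∑ i ∈ Finset.range r, ∑ p ∈ PB D i, ‖x p‖ ^ 2 / (p : ℝ)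

theorem SB_nonneg (D : ℝ) (x : ℕ → ℂ) (r : ℕ) : 0 ≤ SB D x r := by
  unfold SB
  positivity

/-- the constant -/
def K4 (A C₀ : ℝ) : ℝ := Real.exp (4 * Real.exp (3 * A) + 4 * Real.exp (6 * A) + 3 * Real.exp (36 * A ^ 2 * C₀ + 4 * Real.exp (18 * A)) +
  (36 * A ^ 2 * C₀ + 4 * Real.exp (18 * A)))

theorem split_sum (s : Finset ℕ) (D : ℝ) (x : ℕ → ℂ) (K : ℝ) (hD : 0 ≤ D) (hK : 0 ≤ K) :
    ∑ i ∈ s, ∑ p ∈ PB D i, (‖x p‖ ^ 2 / (p : ℝ) + K * (1 / (p : ℝ) ^ 2)) ≤ (∑ i ∈ s, ∑ p ∈ PB D i, ‖x p‖ ^ 2 / (p : ℝ)) + 2 * K := by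
  have h1 : ∑ i ∈ s, ∑ p ∈ PB D i, (‖x p‖ ^ 2 / (p : ℝ) + K * (1 / (p : ℝ) ^ 2)) =
      (∑ i ∈ s, ∑ p ∈ PB D i, ‖x p‖ ^ 2 / (p : ℝ)) + K * ∑ i ∈ s, ∑ p ∈ PB D i, (1 / (p : ℝ) ^ 2) := by
    simp only [Finset.sum_add_distrib, Finset.mul_sum]
  rw [h1]
  have h2 := mul_le_mul_of_nonneg_left (sum_sq_blocks hD s) hK
  linarith

theorem double_exp {A C₀ : ℝ} (hA : 1 ≤ A) {D : ℝ} (hD : 0 ≤ D) {κ κ' : ℝ} (hκ' : 4 ≤ κ') {r : ℕ} (hκ : ∀ i, R9 κ' i ≤ R9 κ (r + i))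
    (hC : ∀ i, ∑ p ∈ PB (D * Real.exp (-(r : ℝ))) i, (1 : ℝ) / p ≤ C₀) {x x2 y y2 : ℕ → ℂ}
    (hx : ∀ n, ‖x n‖ ≤ A) (hx2 : ∀ n, ‖x2 n‖ ≤ A) (hy : ∀ n, ‖y n‖ ≤ A) (hy2 : ∀ n, ‖y2 n‖ ≤ A) (j n X : ℕ) :
    NC X (tA (ebk D κ x x2 (r + j) n) * tA (ebk (D * Real.exp (-(r : ℝ))) κ' y y2 j n)) ≤
      Real.exp (3 * Real.exp (36 * A ^ 2 * C₀ + 4 * Real.exp (18 * A)) + 4 * Real.exp (6 * A)) *
        Real.exp (SB (D * Real.exp (-(r : ℝ))) (fun p => x p + y p) (j + n)) := by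
  refine (double_NC hA hD hκ hC hx hx2 hy hy2 j n X).trans ?_
  rw [Finset.prod_mul_distrib, ← Real.exp_sum]
  have h1 := prod_one_add_half (K := 3 * Real.exp (36 * A ^ 2 * C₀ + 4 * Real.exp (18 * A))) (by positivity) hκ' (Finset.Ico j (j + n))
  have h2 := split_sum (Finset.Ico j (j + n)) (D * Real.exp (-(r : ℝ))) (fun p => x p + y p) (2 * Real.exp (6 * A)) (by positivity) (by positivity)
  have h3 : ∑ i ∈ Finset.Ico j (j + n), ∑ p ∈ PB (D * Real.exp (-(r : ℝ))) i, ‖x p + y p‖ ^ 2 / (p : ℝ) ≤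
      SB (D * Real.exp (-(r : ℝ))) (fun p => x p + y p) (j + n) := by
    unfold SB
    refine Finset.sum_le_sum_of_subset_of_nonneg ?_ fun i _ _ => by positivity
    intro i hi
    rw [Finset.mem_Ico] at hi
    exact Finset.mem_range.2 hi.2
  obtain ⟨V, hV⟩ : ∃ V : ℝ, V = 3 * Real.exp (36 * A ^ 2 * C₀ + 4 * Real.exp (18 * A)) := ⟨_, rfl⟩
  rw [← hV] at h1 ⊢
  refine (mul_le_mul h1 (Real.exp_le_exp.2 h2) (Real.exp_pos _).le (Real.exp_pos _).le).trans ?_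
  rw [← Real.exp_add, ← Real.exp_add]
  apply Real.exp_le_exp.2
  linarith

theorem plain_exp {A C₀ : ℝ} {D : ℝ} (hD : 0 ≤ D) (κ : ℝ) {r j : ℕ} (hC : ∀ i, ∑ p ∈ PB (D * Real.exp (-(r : ℝ))) i, (1 : ℝ) / p ≤ C₀)
    {x x2 : ℕ → ℂ} (hx : ∀ n, ‖x n‖ ≤ A) (hx2 : ∀ n, ‖x2 n‖ ≤ A) (X : ℕ) :
    NC X (tA (ebk D κ x x2 0 (r + j))) ≤ Real.exp (4 * Real.exp (3 * A)) * Real.exp (A ^ 2 * C₀ * j) * Real.exp (SB D x r) := by
  refine (plain_NC hD κ hx hx2 0 (r + j) X).trans ?_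
  rw [zero_add, ← Finset.range_eq_Ico, ← Real.exp_add, ← Real.exp_add]
  apply Real.exp_le_exp.2
  have h2 := split_sum (Finset.range (r + j)) D x (2 * Real.exp (3 * A)) hD (by positivity)
  have h3 : ∑ i ∈ Finset.range (r + j), ∑ p ∈ PB D i, ‖x p‖ ^ 2 / (p : ℝ) ≤ SB D x r + A ^ 2 * C₀ * j := by
    rw [Finset.sum_range_add]
    unfold SB
    refine add_le_add le_rfl ?_
    have h4 : ∀ i ∈ Finset.range j, ∑ p ∈ PB D (r + i), ‖x p‖ ^ 2 / (p : ℝ) ≤ A ^ 2 * C₀ := by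
      intro i _
      rw [PB_shift]
      calc ∑ p ∈ PB (D * Real.exp (-(r : ℝ))) i, ‖x p‖ ^ 2 / (p : ℝ) ≤ ∑ p ∈ PB (D * Real.exp (-(r : ℝ))) i, A ^ 2 * (1 / (p : ℝ)) := by
            refine Finset.sum_le_sum fun p _ => ?_
            rw [mul_one_div]
            have := hx p
            gcongr
        _ = A ^ 2 * ∑ p ∈ PB (D * Real.exp (-(r : ℝ))) i, 1 / (p : ℝ) := by rw [Finset.mul_sum]
        _ ≤ A ^ 2 * C₀ := mul_le_mul_of_nonneg_left (hC i) (by positivity)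
    refine (Finset.sum_le_sum h4).trans (le_of_eq ?_)
    rw [Finset.sum_const, Finset.card_range, nsmul_eq_mul]
    ring
  linarith

/-- all blocks together -/
theorem total_NC {A C₀ : ℝ} (hA : 1 ≤ A) (hC₀ : 0 ≤ C₀) {D : ℝ} (hD : 0 < D) {κ κ' : ℝ} (hκ' : 4 ≤ κ') {r : ℕ}
    (hE : 1 ≤ D * Real.exp (-(r : ℝ))) (hκ : ∀ i, R9 κ' i ≤ R9 κ (r + i))
    (hC : ∀ i, ∑ p ∈ PB (D * Real.exp (-(r : ℝ))) i, (1 : ℝ) / p ≤ C₀) {x x2 y y2 a a2 : ℕ → ℂ}
    (hx : ∀ n, ‖x n‖ ≤ A) (hx2 : ∀ n, ‖x2 n‖ ≤ A) (hy : ∀ n, ‖y n‖ ≤ A) (hy2 : ∀ n, ‖y2 n‖ ≤ A)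
    (ha : ∀ n, ‖a n‖ ≤ A) (ha2 : ∀ n, ‖a2 n‖ ≤ A) (q : ℕ) (hq : q ≤ JB (D * Real.exp (-(r : ℝ)))) (X : ℕ) :
    N2 X (cv (ebk D κ x x2 0 (JB D)) (cv (ebk (D * Real.exp (-(r : ℝ))) κ' y y2 q (JB (D * Real.exp (-(r : ℝ))) - q))
      (pwc (D * Real.exp (-(r : ℝ))) κ' a a2 q))) ≤
      K4 A C₀ * (Real.exp (A ^ 2 * C₀ * q) * pen κ' q) *
        Real.exp (SB D x r + SB (D * Real.exp (-(r : ℝ))) (fun p => x p + y p) (JB (D * Real.exp (-(r : ℝ))))) := by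
  have hJ := JB_shift hD r hE
  obtain ⟨E, hEd⟩ : ∃ E : ℝ, E = D * Real.exp (-(r : ℝ)) := ⟨_, rfl⟩
  have hE0 : 0 ≤ E := by rw [hEd]; positivity
  have hPB : ∀ i, PB D (r + i) = PB E i := fun i => by rw [PB_shift, hEd]
  have hdouble := fun j n => double_exp hA hD.le hκ' hκ hC hx hx2 hy hy2 j n X
  have hplain := fun j => plain_exp hD.le κ (r := r) (j := j) hC hx hx2 X
  have hqb : ∀ i, qb D x x2 (r + i) = qb E x x2 i := fun i => by
    funext n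
    unfold qb
    rw [hPB]
  rw [← hEd] at hC hdouble hq hJ ⊢
  obtain ⟨J, hJd⟩ : ∃ J : ℕ, J = JB E := ⟨_, rfl⟩
  rw [← hJd] at hq hJ ⊢
  obtain ⟨V, hV⟩ : ∃ V : ℝ, V = Real.exp (36 * A ^ 2 * C₀ + 4 * Real.exp (18 * A)) := ⟨_, rfl⟩
  obtain ⟨S, hS⟩ : ∃ S : ℝ, S = SB E (fun p => x p + y p) J := ⟨_, rfl⟩
  obtain ⟨S', hS'⟩ : ∃ S' : ℝ, S' = SB D x r := ⟨_, rfl⟩
  have hK : K4 A C₀ = Real.exp (4 * Real.exp (3 * A)) * Real.exp (3 * V + 4 * Real.exp (6 * A)) * V := by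
    unfold K4
    rw [hV, ← Real.exp_add, ← Real.exp_add]
    congr 1
    ring
  have hV1 : 1 ≤ V := by
    rw [hV]
    apply Real.one_le_exp
    positivity
  rw [← hV] at hdouble
  rw [← hS, ← hS', hK]
  rw [N2_NC, tA_cv, tA_cv]
  rcases q with _ | i
  · -- no penalty
    have e1 : tA (pwc E κ' a a2 0) = 1 := tA_one
    have e2 : ebk D κ x x2 0 (JB D) = cv (ebk D κ x x2 r J) (ebk D κ x x2 0 r) := by
      rw [hJ]
      exact ebk_split D κ x x2 r J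
    rw [e1, mul_one, e2, tA_cv, Nat.sub_zero]
    have e3 : tA (ebk D κ x x2 r J) * tA (ebk D κ x x2 0 r) * tA (ebk E κ' y y2 0 J) =
        tA (ebk D κ x x2 0 r) * (tA (ebk D κ x x2 (r + 0) J) * tA (ebk E κ' y y2 0 J)) := by
      rw [add_zero]
      ring
    rw [e3]
    have h1 := hplain 0
    have h2 := hdouble 0 J
    rw [add_zero] at h1
    rw [zero_add, ← hS] at h2
    rw [← hS'] at h1
    refine (NC_mul (P := fun p => ∃ j, j < r ∧ p ∈ PB D j) (SC_mono (SC_ebk D κ x x2 0 r) ?_) ?_ X).trans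
      ((mul_le_mul h1 h2 (NC_nonneg _ _) (by positivity)).trans ?_)
    · rintro p ⟨j, _, hj, hp⟩
      exact ⟨j, by omega, hp⟩
    · apply SC_mul
      · refine SC_mono (SC_ebk D κ x x2 (r + 0) J) ?_
        rintro p ⟨m, hm, _, hp⟩ ⟨m', hm', hp'⟩
        exact (by omega : m ≠ m') (PB_disj D hD.le hp hp')
      · refine SC_mono (SC_ebk E κ' y y2 0 J) ?_
        rintro p ⟨m, _, _, hp⟩ ⟨m', hm', hp'⟩
        rw [← hPB] at hp
        exact (by omega : r + m ≠ m') (PB_disj D hD.le hp hp')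
    · have e4 : pen κ' 0 = 1 := rfl
      rw [e4, mul_one, Real.exp_add S' S]
      push_cast
      have p0 : 0 < Real.exp (A ^ 2 * C₀ * 0) * Real.exp S' * (Real.exp (3 * V + 4 * Real.exp (6 * A)) * Real.exp S) *
        Real.exp (4 * Real.exp (3 * A)) := by positivity
      calc Real.exp (4 * Real.exp (3 * A)) * Real.exp (A ^ 2 * C₀ * 0) * Real.exp S' * (Real.exp (3 * V + 4 * Real.exp (6 * A)) * Real.exp S) =
          (Real.exp (A ^ 2 * C₀ * 0) * Real.exp S' * (Real.exp (3 * V + 4 * Real.exp (6 * A)) * Real.exp S) *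
            Real.exp (4 * Real.exp (3 * A))) * 1 := by ring
        _ ≤ (Real.exp (A ^ 2 * C₀ * 0) * Real.exp S' * (Real.exp (3 * V + 4 * Real.exp (6 * A)) * Real.exp S) *
            Real.exp (4 * Real.exp (3 * A))) * V := mul_le_mul_of_nonneg_left hV1 p0.le
        _ = _ := by ring
  · -- with penalty in block `i`
    obtain ⟨n, hn⟩ : ∃ n : ℕ, J = (i + 1) + n := ⟨J - (i + 1), by omega⟩
    have e0 : J - (i + 1) = n := by omega
    have e2 : tA (ebk D κ x x2 0 (JB D)) = tA (ebk D κ x x2 (r + (i + 1)) n) *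
        (tA (te (qb E x x2 i) (R9 κ (r + i))) * tA (ebk D κ x x2 0 (r + i))) := by
      rw [hJ, hn, ← add_assoc, ebk_split D κ x x2 (r + (i + 1)) n, tA_cv]
      congr 1
      have := ebk_step D κ x x2 0 (r + i)
      rw [zero_add, hqb] at this
      exact this
    rw [e2, e0]
    obtain ⟨c, hc⟩ : ∃ c : ℂ, c = (20 / (R9 κ' i : ℂ)) ^ s7 i := ⟨_, rfl⟩
    have e1 : tA (pwc E κ' a a2 (i + 1)) = c • tA (cvp (qb E a a2 i) (s7 i)) := by
      ext m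
      by_cases hm : m = 0
      · subst hm
        simp
      · rw [ArithmeticFunction.smul_map, tA_apply _ hm, tA_apply _ hm, smul_eq_mul, hc]
        rfl
    have e3 : tA (ebk D κ x x2 (r + (i + 1)) n) * (tA (te (qb E x x2 i) (R9 κ (r + i))) * tA (ebk D κ x x2 0 (r + i))) *
        (tA (ebk E κ' y y2 (i + 1) n) * (c • tA (cvp (qb E a a2 i) (s7 i)))) =
        tA (ebk D κ x x2 0 (r + i)) * ((c • (tA (te (qb E x x2 i) (R9 κ (r + i))) * tA (cvp (qb E a a2 i) (s7 i)))) *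
          (tA (ebk D κ x x2 (r + (i + 1)) n) * tA (ebk E κ' y y2 (i + 1) n))) := by
      simp only [mul_smul_comm, smul_mul_assoc]
      congr 1
      ring
    rw [e1, e3]
    have h1 := hplain i
    have h2 := hdouble (i + 1) n
    rw [← hS'] at h1
    rw [← hn, ← hS] at h2
    have h3 : NC X (c • (tA (te (qb E x x2 i) (R9 κ (r + i))) * tA (cvp (qb E a a2 i) (s7 i)))) ≤ pen κ' (i + 1) * V := by
      have e5 : NC X (c • (tA (te (qb E x x2 i) (R9 κ (r + i))) * tA (cvp (qb E a a2 i) (s7 i)))) =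
          ‖c‖ ^ 2 * NC X (tA (te (qb E x x2 i) (R9 κ (r + i))) * tA (cvp (qb E a a2 i) (s7 i))) := by
        unfold NC
        rw [Finset.mul_sum]
        refine Finset.sum_congr rfl fun m _ => ?_
        rw [ArithmeticFunction.smul_map, smul_eq_mul, norm_mul, mul_pow, mul_div_assoc]
      rw [e5]
      have h4 := pen_NC hA hE0 (hC i) hx hx2 ha ha2 (R9 κ (r + i)) (s7 i) X
      rw [← hV] at h4
      have h5 : ‖c‖ ^ 2 * ((s7 i).factorial : ℝ) ^ 2 = pen κ' (i + 1) := by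
        rw [hc, norm_pow, norm_div, Complex.norm_natCast]
        show _ = ((20 / (R9 κ' i : ℝ)) ^ s7 i * (s7 i).factorial) ^ 2
        rw [mul_pow]
        norm_num
      rw [← h5, mul_assoc]
      exact mul_le_mul_of_nonneg_left h4 (by positivity)
    have hSCpen : SC (fun p => p ∈ PB E i) (c • (tA (te (qb E x x2 i) (R9 κ (r + i))) * tA (cvp (qb E a a2 i) (s7 i)))) :=
      SC_smul (SC_mul (SC_teb E x x2 i _) (SC_of_SP (SP_cvp _ _ (SP_qb E a a2 i) _))) c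
    have hSCd : SC (fun p => ∃ m, i + 1 ≤ m ∧ p ∈ PB E m) (tA (ebk D κ x x2 (r + (i + 1)) n) * tA (ebk E κ' y y2 (i + 1) n)) := by
      apply SC_mul
      · refine SC_mono (SC_ebk D κ x x2 (r + (i + 1)) n) ?_
        rintro p ⟨m, hm, _, hp⟩
        obtain ⟨m', rfl⟩ : ∃ m', m = r + m' := ⟨m - r, by omega⟩
        rw [hPB] at hp
        exact ⟨m', by omega, hp⟩
      · refine SC_mono (SC_ebk E κ' y y2 (i + 1) n) ?_
        rintro p ⟨m, hm, _, hp⟩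
        exact ⟨m, hm, hp⟩
    have h6 : NC X ((c • (tA (te (qb E x x2 i) (R9 κ (r + i))) * tA (cvp (qb E a a2 i) (s7 i)))) *
          (tA (ebk D κ x x2 (r + (i + 1)) n) * tA (ebk E κ' y y2 (i + 1) n))) ≤
        (pen κ' (i + 1) * V) * (Real.exp (3 * V + 4 * Real.exp (6 * A)) * Real.exp S) := by
      refine (NC_mul (P := fun p => p ∈ PB E i) hSCpen (SC_mono hSCd ?_) X).trans (mul_le_mul h3 h2 (NC_nonneg _ _) ?_)
      · rintro p ⟨m, hm, hp⟩ hp'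
        exact (by omega : m ≠ i) (PB_disj E hE0 hp hp')
      · have := pen_nonneg κ' (i + 1)
        positivity
    refine (NC_mul (P := fun p => ∃ j, j < r + i ∧ p ∈ PB D j) (SC_mono (SC_ebk D κ x x2 0 (r + i)) ?_) ?_ X).trans
      ((mul_le_mul h1 h6 (NC_nonneg _ _) (by positivity)).trans ?_)
    · rintro p ⟨j, _, hj, hp⟩
      exact ⟨j, by omega, hp⟩
    · apply SC_mul
      · refine SC_mono hSCpen ?_
        rintro p hp ⟨m', hm', hp'⟩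
        rw [← hPB] at hp
        exact (by omega : r + i ≠ m') (PB_disj D hD.le hp hp')
      · refine SC_mono hSCd ?_
        rintro p ⟨m, hm, hp⟩ ⟨m', hm', hp'⟩
        rw [← hPB] at hp
        exact (by omega : r + m ≠ m') (PB_disj D hD.le hp hp')
    · have h7 : Real.exp (A ^ 2 * C₀ * (i : ℝ)) ≤ Real.exp (A ^ 2 * C₀ * ((i + 1 : ℕ) : ℝ)) := by
        apply Real.exp_le_exp.2
        push_cast
        have : 0 ≤ A ^ 2 * C₀ := by positivity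
        nlinarith
      rw [Real.exp_add S' S]
      have hp0 := pen_nonneg κ' (i + 1)
      calc Real.exp (4 * Real.exp (3 * A)) * Real.exp (A ^ 2 * C₀ * (i : ℝ)) * Real.exp S' *
            (pen κ' (i + 1) * V * (Real.exp (3 * V + 4 * Real.exp (6 * A)) * Real.exp S)) =
          Real.exp (A ^ 2 * C₀ * (i : ℝ)) * (Real.exp (4 * Real.exp (3 * A)) * Real.exp S' *
            (pen κ' (i + 1) * V * (Real.exp (3 * V + 4 * Real.exp (6 * A)) * Real.exp S))) := by ring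
        _ ≤ Real.exp (A ^ 2 * C₀ * ((i + 1 : ℕ) : ℝ)) * (Real.exp (4 * Real.exp (3 * A)) * Real.exp S' *
            (pen κ' (i + 1) * V * (Real.exp (3 * V + 4 * Real.exp (6 * A)) * Real.exp S))) :=
          mul_le_mul_of_nonneg_right h7 (by positivity)
        _ = _ := by ring

end

end Pool.Agent.H469.F4
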