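import Pool.Agent.H469.F4.M4

set_option autoImplicit false

/-!
# Weights on the small primes: the final form
-/

namespace Pool.Agent.H469.F4

open Filter Topology MeasureTheory Complex Pool.Agent.Q97.UM
open Pool.Agent.Q14.UM (mem_PB PB_disj sum_inv_sq SP SP_te SP_qb SP_cvp cv_len cvp_len te_len dp_ext dp_cvp dp_te KB' KB_one qb_len KB_le)
open Pool.Agent.Results.MP_fa2474_nt.OrderForEveryPolynomial (order order_eq sum_close norm_ap_le)

noncomputable section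

theorem pen_bound {B κ' : ℝ} (hB : 0 ≤ B) (hκ : 40 * Real.exp 4 ≤ κ') : ∃ C : ℝ, 0 ≤ C ∧ ∀ q : ℕ,
    Real.exp (B * q) * pen κ' q ≤ C * Real.exp (-(q : ℝ)) := by
  refine ⟨Real.exp ((B + 1) + (B + 1) ^ 2), (Real.exp_pos _).le, fun q => ?_⟩
  rcases q with _ | i
  · have e : pen κ' 0 = 1 := rfl
    rw [e]
    push_cast
    rw [mul_zero, Real.exp_zero, neg_zero, Real.exp_zero, mul_one, mul_one]
    exact Real.one_le_exp (by positivity)
  · have hκ0 : 0 < κ' := lt_of_lt_of_le (by positivity) hκ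
    have hi : (0 : ℝ) ≤ i := Nat.cast_nonneg i
    have hR : 40 * Real.exp 4 * Real.exp (9 / 10 * (i : ℝ)) ≤ R9 κ' i :=
      (mul_le_mul_of_nonneg_right hκ (Real.exp_pos _).le).trans (Nat.le_ceil _)
    have hR0 : 0 < (R9 κ' i : ℝ) := lt_of_lt_of_le (by positivity) hR
    obtain ⟨s, hs⟩ : ∃ s : ℕ, s = s7 i := ⟨_, rfl⟩
    have hs1 : Real.exp (7 / 10 * (i : ℝ)) ≤ s := by rw [hs]; exact Nat.le_ceil _
    have hs2 : (s : ℝ) ≤ 2 * Real.exp (7 / 10 * (i : ℝ)) := by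
      have h1 : (s : ℝ) ≤ Real.exp (7 / 10 * (i : ℝ)) + 1 := by rw [hs]; exact (Nat.ceil_lt_add_one (by positivity)).le
      have h2 : 1 ≤ Real.exp (7 / 10 * (i : ℝ)) := Real.one_le_exp (by positivity)
      linarith
    have h1 : 20 * (s : ℝ) / R9 κ' i ≤ Real.exp (-(4 + 2 / 10 * (i : ℝ))) := by
      rw [div_le_iff₀ hR0]
      have h2 : Real.exp (-(4 + 2 / 10 * (i : ℝ))) * (40 * Real.exp 4 * Real.exp (9 / 10 * (i : ℝ))) = 40 * Real.exp (7 / 10 * (i : ℝ)) := by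
        have : Real.exp (-(4 + 2 / 10 * (i : ℝ))) * (40 * Real.exp 4 * Real.exp (9 / 10 * (i : ℝ))) =
            40 * (Real.exp (-(4 + 2 / 10 * (i : ℝ))) * Real.exp 4 * Real.exp (9 / 10 * (i : ℝ))) := by ring
        rw [this, ← Real.exp_add, ← Real.exp_add]
        congr 2
        ring
      have h3 := mul_le_mul_of_nonneg_left hR (Real.exp_pos (-(4 + 2 / 10 * (i : ℝ)))).le
      rw [h2] at h3
      linarith
    have h2 : (20 / (R9 κ' i : ℝ)) ^ s * (s.factorial : ℝ) ≤ Real.exp (-(4 + 2 / 10 * (i : ℝ))) ^ s := by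
      have h3 : (s.factorial : ℝ) ≤ (s : ℝ) ^ s := by exact_mod_cast Nat.factorial_le_pow s
      calc (20 / (R9 κ' i : ℝ)) ^ s * (s.factorial : ℝ) ≤ (20 / (R9 κ' i : ℝ)) ^ s * (s : ℝ) ^ s :=
            mul_le_mul_of_nonneg_left h3 (by positivity)
        _ = (20 * (s : ℝ) / R9 κ' i) ^ s := by rw [← mul_pow]; congr 1; ring
        _ ≤ _ := pow_le_pow_left₀ (by positivity) h1 s
    have h3 : pen κ' (i + 1) ≤ Real.exp (-(2 * (s : ℝ) * (4 + 2 / 10 * (i : ℝ)))) := by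
      have e : pen κ' (i + 1) = ((20 / (R9 κ' i : ℝ)) ^ s * (s.factorial : ℝ)) ^ 2 := by rw [hs]; rfl
      rw [e]
      refine (pow_le_pow_left₀ (by positivity) h2 2).trans (le_of_eq ?_)
      rw [← pow_mul, ← Real.exp_nat_mul]
      congr 1
      push_cast
      ring
    have h4 : 1 + 7 / 10 * (i : ℝ) + (7 / 10 * (i : ℝ)) ^ 2 / 2 ≤ s := by
      have := Real.quadratic_le_exp_of_nonneg (by positivity : 0 ≤ 7 / 10 * (i : ℝ))
      linarith
    have h5 : (B + 1) * ((i : ℝ) + 1) - 2 * (s : ℝ) * (4 + 2 / 10 * (i : ℝ)) ≤ (B + 1) + (B + 1) ^ 2 := by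
      have h6 : 2 * (1 + 7 / 10 * (i : ℝ) + (7 / 10 * (i : ℝ)) ^ 2 / 2) * 4 ≤ 2 * (s : ℝ) * (4 + 2 / 10 * (i : ℝ)) := by
        have h7 : (0 : ℝ) ≤ 2 * s * (2 / 10 * (i : ℝ)) := by positivity
        nlinarith
      nlinarith [sq_nonneg ((B + 1) - (i : ℝ) / 2)]
    calc Real.exp (B * ((i + 1 : ℕ) : ℝ)) * pen κ' (i + 1) ≤
        Real.exp (B * ((i + 1 : ℕ) : ℝ)) * Real.exp (-(2 * (s : ℝ) * (4 + 2 / 10 * (i : ℝ)))) :=
          mul_le_mul_of_nonneg_left h3 (Real.exp_pos _).le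
      _ ≤ Real.exp ((B + 1) + (B + 1) ^ 2) * Real.exp (-((i + 1 : ℕ) : ℝ)) := by
          rw [← Real.exp_add, ← Real.exp_add]
          apply Real.exp_le_exp.2
          push_cast
          linarith

theorem pwc_spec {D : ℝ} (hD : 1 ≤ D) (κ : ℝ) (a a2 : ℕ → ℂ) (q : ℕ) : ∃ L : ℕ, 1 ≤ L ∧ Real.log L ≤ 4 * D ∧
    (∀ n, L < n → pwc D κ a a2 q n = 0) ∧ (pwc D κ a a2 q 0 = 0) ∧ ∀ t, dp L (pwc D κ a a2 q) t = pw D κ a a2 q t := by
  have hd := Pool.Agent.Q84.UM.t_DPM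
  have hD0 : 0 ≤ D := by linarith
  rcases q with _ | j
  · refine ⟨1, le_rfl, ?_, ?_, ?_, ?_⟩
    · simp
      linarith
    · intro n hn
      show (if n = 1 then (1 : ℂ) else 0) = 0
      rw [if_neg (by omega)]
    · show (if 0 = 1 then (1 : ℂ) else 0) = 0
      simp
    · intro t
      show dp 1 (fun n => if n = 1 then (1 : ℂ) else 0) t = 1
      unfold dp
      simp
  · refine ⟨KB' D j ^ s7 j, ?_, ?_, ?_, ?_, ?_⟩
    · exact Nat.one_le_pow _ _ (KB_one D j hD0)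
    · push_cast
      rw [Real.log_pow]
      have h1 : Real.log (KB' D j) ≤ 2 * D * Real.exp (-(j : ℝ)) := by
        rw [Real.log_le_iff_le_exp (by exact_mod_cast KB_one D j hD0)]
        exact KB_le D j
      have h0 : 0 ≤ Real.log (KB' D j) := Real.log_nonneg (by exact_mod_cast KB_one D j hD0)
      have h2 : (s7 j : ℝ) ≤ Real.exp (7 / 10 * (j : ℝ)) + 1 :=
        (Nat.ceil_lt_add_one (by positivity)).le
      have h3 : Real.exp (-(j : ℝ)) * Real.exp (7 / 10 * (j : ℝ)) = Real.exp (-((3 / 10) * j)) := by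
        rw [← Real.exp_add]; congr 1; ring
      have hj : (0 : ℝ) ≤ j := Nat.cast_nonneg j
      have h4 : Real.exp (-((3 / 10 : ℝ) * j)) ≤ 1 := by
        rw [Real.exp_le_one_iff]; linarith
      have h5 : Real.exp (-(j : ℝ)) ≤ 1 := by
        rw [Real.exp_le_one_iff]; linarith
      calc (s7 j : ℝ) * Real.log (KB' D j) ≤ (Real.exp (7 / 10 * (j : ℝ)) + 1) * (2 * D * Real.exp (-(j : ℝ))) :=
            mul_le_mul h2 h1 h0 (by positivity)
        _ = 2 * D * (Real.exp (-(j : ℝ)) * Real.exp (7 / 10 * (j : ℝ)) + Real.exp (-(j : ℝ))) := by ring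
        _ ≤ 2 * D * (1 + 1) := by
            rw [h3]
            apply mul_le_mul_of_nonneg_left _ (by positivity)
            linarith
        _ = 4 * D := by ring
    · intro n hn
      show (20 / (R9 κ j : ℂ)) ^ s7 j * cvp (qb D a a2 j) (s7 j) n = 0
      rw [cvp_len _ _ (qb_len D a a2 j hD0) _ n hn, mul_zero]
    · show (20 / (R9 κ j : ℂ)) ^ s7 j * cvp (qb D a a2 j) (s7 j) 0 = 0
      have h1 : ∀ r : ℕ, cvp (qb D a a2 j) r 0 = 0 := by
        intro r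
        cases r with
        | zero => show (if 0 = 1 then (1 : ℂ) else 0) = 0; simp
        | succ r => exact cv_zero _ _
      rw [h1, mul_zero]
    · intro t
      have h1 := dp_cvp hd _ _ (qb_len D a a2 j hD0) t (s7 j)
      have h2 : dp (KB' D j ^ s7 j) (pwc D κ a a2 (j + 1)) t =
          (20 / (R9 κ j : ℂ)) ^ s7 j * dp (KB' D j ^ s7 j) (cvp (qb D a a2 j) (s7 j)) t := by
        unfold dp
        rw [Finset.mul_sum]
        apply Finset.sum_congr rfl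
        intro n _
        show (20 / (R9 κ j : ℂ)) ^ s7 j * cvp (qb D a a2 j) (s7 j) n * _ = _
        ring
      rw [h2, h1, ← mul_pow]
      show _ = (20 * zf D a a2 j t / (R9 κ j : ℂ)) ^ s7 j
      congr 1
      unfold zf KB'
      ring

/-- **the mean value of a product of two shifted values of zeta against a weight on the small primes** -/
theorem weight4 : ∃ δ κ' C : ℝ, ∃ m₀ : ℕ, 0 < δ ∧ δ ≤ 1 ∧ 4 ≤ κ' ∧ 0 ≤ C ∧ ∀ᶠ T : ℝ in atTop, ∀ r : ℕ, m₀ ≤ r →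
    1 ≤ δ * Real.log T * Real.exp (-(r : ℝ)) → ∀ k α : Fin 2 → ℝ, (∀ j, 0 ≤ k j) → ∑ j, k j ≤ 2 → (∀ j, |α j| ≤ T / 2) →
    ∀ y a : ℕ → ℂ, (∀ n, ‖y n‖ ≤ 2) → (∀ n, ‖a n‖ ≤ 2) → ∀ q : ℕ, q ≤ JB (δ * Real.log T * Real.exp (-(r : ℝ))) →
      ∫ t in T..(2 * T), zpr k α t * ‖Ef (δ * Real.log T * Real.exp (-(r : ℝ))) κ' y (fun _ => 0) q t *
        pw (δ * Real.log T * Real.exp (-(r : ℝ))) κ' a (fun _ => 0) q t‖ ^ 2 ≤
        C * T * Real.exp (-(q : ℝ)) * Real.exp (SB (δ * Real.log T) (ap k α) r +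
          SB (δ * Real.log T * Real.exp (-(r : ℝ))) (fun p => ap k α p + y p) (JB (δ * Real.log T * Real.exp (-(r : ℝ))))) := by
  obtain ⟨C₀, hC₀1, hC₀⟩ := Pool.Agent.Q198.UM.t_BM
  obtain ⟨κ, δ₀, hκ4, hδ₀, h4⟩ := ord4 2
  obtain ⟨hδ1, -, θ, c, C, hθ, -, hc, hC, hT⟩ := h4 δ₀ hδ₀ le_rfl
  obtain ⟨κ', hκ'⟩ : ∃ κ' : ℝ, κ' = 40 * Real.exp 4 := ⟨_, rfl⟩
  have hκ'4 : 4 ≤ κ' := by
    rw [hκ']
    have := Real.one_le_exp (by norm_num : (0 : ℝ) ≤ 4)
    linarith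
  obtain ⟨C1, hC1, hpen⟩ := pen_bound (B := 2 ^ 2 * C₀) (κ' := κ') (by positivity) hκ'.ge
  have hm1 : ∀ᶠ m : ℕ in atTop, κ' ≤ κ * Real.exp (9 / 10 * (m : ℝ)) := by
    have h1 : Tendsto (fun m : ℕ => κ * Real.exp (9 / 10 * (m : ℝ))) atTop atTop :=
      (Real.tendsto_exp_atTop.comp (tendsto_natCast_atTop_atTop.const_mul_atTop (by norm_num))).const_mul_atTop (by linarith)
    exact h1.eventually_ge_atTop κ'
  have hm2 : ∀ᶠ m : ℕ in atTop, (26 * κ' + 4) * (δ₀ * Real.exp (-(m : ℝ))) ≤ θ := by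
    have h1 : Tendsto (fun m : ℕ => (26 * κ' + 4) * (δ₀ * Real.exp (-(m : ℝ)))) atTop (𝓝 ((26 * κ' + 4) * (δ₀ * 0))) :=
      ((Real.tendsto_exp_neg_atTop_nhds_zero.comp tendsto_natCast_atTop_atTop).const_mul δ₀).const_mul _
    rw [mul_zero, mul_zero] at h1
    exact (h1.eventually_lt_const hθ).mono fun m hm => hm.le
  obtain ⟨m₀, hm₀⟩ := (hm1.and hm2).exists_forall_of_atTop
  refine ⟨δ₀, κ', C * (K4 2 C₀ * C1), m₀, hδ₀, hδ1, hκ'4, by unfold K4; positivity, ?_⟩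
  filter_upwards [hT, eventually_ge_atTop (16 : ℝ)] with T hT hT16
  intro r hr hE k α hk0 hk1 hα y a hy ha q hq
  obtain ⟨E, hEd⟩ : ∃ E : ℝ, E = δ₀ * Real.log T * Real.exp (-(r : ℝ)) := ⟨_, rfl⟩
  obtain ⟨-, -, -, -, hN⟩ := hT k α hk0 hk1 hα
  have hT0 : 0 < T := by linarith
  have hL0 : 0 < Real.log T := Real.log_pos (by linarith)
  have hD0 : 0 < δ₀ * Real.log T := by positivity
  have hcof := b_COF κ' E (by linarith) (by rw [hEd]; exact hE) y (fun _ => 0) a (fun _ => 0) q q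
  obtain ⟨hc1, hc2, -⟩ := hcof
  obtain ⟨L, hL1, hLl, hLs, hL00, hLd⟩ := pwc_spec (by rw [hEd]; exact hE : 1 ≤ E) κ' a (fun _ => 0) q
  obtain ⟨b, hb⟩ : ∃ b : ℕ → ℂ, b = cv (ebk E κ' y (fun _ => 0) q (JB E - q)) (pwc E κ' a (fun _ => 0) q) := ⟨_, rfl⟩
  have hlen1 : ∀ n, M9 E κ' < n → ebk E κ' y (fun _ => 0) q (JB E - q) n = 0 := by
    intro n hn
    by_contra h
    have := (hc1 n h).2
    omega
  have hbs : ∀ m, b m ≠ 0 → 1 ≤ m ∧ m ≤ M9 E κ' * L := by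
    intro m hm
    constructor
    · rcases Nat.eq_zero_or_pos m with h | h
      · exfalso
        apply hm
        rw [h, hb]
        exact cv_zero _ _
      · exact h
    · by_contra h
      apply hm
      rw [hb]
      exact cv_len _ _ _ _ hlen1 hLs m (by omega)
  have hNlen : ((M9 E κ' * L : ℕ) : ℝ) ≤ T ^ θ := by
    have h1 : ((M9 E κ' : ℕ) : ℝ) ≤ Real.exp (26 * κ' * E) := by
      unfold M9
      exact Nat.floor_le (Real.exp_pos _).le
    have h2 : (L : ℝ) ≤ Real.exp (4 * E) := by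
      rwa [← Real.log_le_iff_le_exp (by exact_mod_cast hL1)]
    have h3 : (26 * κ' + 4) * E ≤ θ * Real.log T := by
      have h4 : Real.exp (-(r : ℝ)) ≤ Real.exp (-(m₀ : ℝ)) := by
        apply Real.exp_le_exp.2
        have : (m₀ : ℝ) ≤ r := by exact_mod_cast hr
        linarith
      have h5 := (hm₀ m₀ le_rfl).2
      calc (26 * κ' + 4) * E = (26 * κ' + 4) * (δ₀ * Real.exp (-(r : ℝ))) * Real.log T := by rw [hEd]; ring
        _ ≤ (26 * κ' + 4) * (δ₀ * Real.exp (-(m₀ : ℝ))) * Real.log T := by gcongr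
        _ ≤ θ * Real.log T := mul_le_mul_of_nonneg_right h5 hL0.le
    push_cast
    calc ((M9 E κ' : ℕ) : ℝ) * L ≤ Real.exp (26 * κ' * E) * Real.exp (4 * E) := by gcongr
      _ = Real.exp ((26 * κ' + 4) * E) := by rw [← Real.exp_add]; congr 1; ring
      _ ≤ Real.exp (θ * Real.log T) := Real.exp_le_exp.2 h3
      _ = T ^ θ := by rw [Real.rpow_def_of_pos hT0, mul_comm]
  have hdp : ∀ t, dp (M9 E κ' * L) b t = Ef E κ' y (fun _ => 0) q t * pw E κ' a (fun _ => 0) q t := by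
    intro t
    rw [hb, ← Pool.Agent.Q84.UM.t_DPM.1 _ _ _ _ t hlen1 hLs, hc2 t, hLd t]
  have h1 := (hN (M9 E κ' * L) hNlen b hbs).2
  simp only [hdp] at h1
  rw [← hEd]
  refine h1.trans ?_
  have hκ : ∀ i, R9 κ' i ≤ R9 κ (r + i) := by
    intro i
    unfold R9
    apply Nat.ceil_mono
    have h2 := (hm₀ r hr).1
    calc κ' * Real.exp (9 / 10 * (i : ℝ)) ≤ κ * Real.exp (9 / 10 * (r : ℝ)) * Real.exp (9 / 10 * (i : ℝ)) :=
          mul_le_mul_of_nonneg_right h2 (Real.exp_pos _).le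
      _ = κ * Real.exp (9 / 10 * ((r + i : ℕ) : ℝ)) := by
          rw [mul_assoc, ← Real.exp_add]
          congr 2
          push_cast
          ring
  have hkA : ∑ j, |k j| ≤ 2 := by
    rw [Finset.sum_congr rfl fun j _ => abs_of_nonneg (hk0 j)]
    exact hk1
  have hz : ∀ n : ℕ, ‖(fun _ : ℕ => (0 : ℂ)) n‖ ≤ 2 := fun n => by
    show ‖(0 : ℂ)‖ ≤ 2
    rw [norm_zero]
    norm_num
  have h2 := total_NC (A := 2) (C₀ := C₀) (by norm_num) (by linarith) hD0 hκ'4 hE hκ (fun i => hC₀ _ i hE)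
    (norm_ap_le hkA α) (norm_ap_le hkA (fun j => 2 * α j)) hy hz ha hz q hq
    (eM δ₀ κ T * (M9 E κ' * L))
  rw [← hEd, ← hb] at h2
  have h3 : N2 (eM δ₀ κ T * (M9 E κ' * L)) (cv (eo δ₀ κ T k α) b) ≤ K4 2 C₀ * (C1 * Real.exp (-(q : ℝ))) *
      Real.exp (SB (δ₀ * Real.log T) (ap k α) r + SB E (fun p => ap k α p + y p) (JB E)) := by
    refine h2.trans ?_
    have h4 := hpen q
    have h5 : 0 ≤ K4 2 C₀ := by unfold K4; positivity
    gcongr
  calc C * T * N2 (eM δ₀ κ T * (M9 E κ' * L)) (cv (eo δ₀ κ T k α) b) ≤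
      C * T * (K4 2 C₀ * (C1 * Real.exp (-(q : ℝ))) *
      Real.exp (SB (δ₀ * Real.log T) (ap k α) r + SB E (fun p => ap k α p + y p) (JB E))) :=
        mul_le_mul_of_nonneg_left h3 (by positivity)
    _ = _ := by ring

end

end Pool.Agent.H469.F4
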