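import Pool.Agent.H469.F4.M5

set_option autoImplicit false

/-!
# Sums over the primes in ranges of blocks
-/

namespace Pool.Agent.H469.F4

open Filter Topology MeasureTheory Complex Pool.Agent.Q97.UM
open Pool.Agent.Q14.UM (mem_PB PB_disj PB_union)

noncomputable section

/-- zeta near `1` on the closed half plane -/
theorem zeta_box : ∃ c C : ℝ, 0 < c ∧ 0 < C ∧ ∀ w : ℂ, 1 ≤ w.re → w.re ≤ 2 → |w.im| ≤ 1 → w ≠ 1 →
    c ≤ ‖w - 1‖ * ‖riemannZeta w‖ ∧ ‖w - 1‖ * ‖riemannZeta w‖ ≤ C := by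
  obtain ⟨G, hG⟩ : ∃ G : ℂ → ℂ, G = Function.update (fun w : ℂ => (w - 1) * riemannZeta w) 1 1 := ⟨_, rfl⟩
  have hGc : Continuous G := by
    rw [hG]
    exact Pool.Agent.H448R2.GC.zeta_one_entire.continuous
  obtain ⟨K, hK⟩ : ∃ K : Set ℂ, K = Set.Icc (1 : ℝ) 2 ×ℂ Set.Icc (-1 : ℝ) 1 := ⟨_, rfl⟩
  have hKc : IsCompact K := by
    rw [hK]
    exact (isCompact_Icc (a := (1 : ℝ)) (b := 2)).reProdIm isCompact_Icc
  have hKne : K.Nonempty := ⟨1, by rw [hK, Complex.mem_reProdIm]; norm_num⟩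
  have hG0 : ∀ w ∈ K, G w ≠ 0 := by
    intro w hw
    rw [hK, Complex.mem_reProdIm] at hw
    rw [hG]
    by_cases h : w = 1
    · subst h
      simp
    · rw [Function.update_of_ne h]
      exact mul_ne_zero (sub_ne_zero.2 h) (riemannZeta_ne_zero_of_one_le_re hw.1.1)
  obtain ⟨w₁, hw₁, hmin⟩ := hKc.exists_isMinOn hKne hGc.norm.continuousOn
  obtain ⟨w₂, hw₂, hmax⟩ := hKc.exists_isMaxOn hKne hGc.norm.continuousOn
  refine ⟨‖G w₁‖, ‖G w₂‖, norm_pos_iff.2 (hG0 w₁ hw₁), norm_pos_iff.2 (hG0 w₂ hw₂), fun w h1 h2 h3 h4 => ?_⟩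
  have hwK : w ∈ K := by
    rw [hK, Complex.mem_reProdIm]
    exact ⟨⟨h1, h2⟩, abs_le.1 h3⟩
  have e : ‖w - 1‖ * ‖riemannZeta w‖ = ‖G w‖ := by
    rw [hG, Function.update_of_ne h4, norm_mul]
  rw [e]
  exact ⟨hmin hwK, hmax hwK⟩

/-- the sum over the primes `≤ e^D` -/
def PS (D : ℝ) (f : ℕ → ℝ) : ℝ := ∑ p ∈ (Finset.Icc 1 ⌊Real.exp D⌋₊).filter Nat.Prime, f p

theorem PS_blocks {D : ℝ} (hD : 1 ≤ D) (f : ℕ → ℝ) : ∑ i ∈ Finset.range (JB D), ∑ p ∈ PB D i, f p = PS D f := by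
  unfold PS
  rw [PB_union D hD, Finset.sum_biUnion]
  intro i _ j _ hij
  rw [Function.onFun, Finset.disjoint_left]
  intro p hp hp'
  exact hij (PB_disj D (by linarith) hp hp')

theorem PS_diff {D : ℝ} (hD : 0 < D) {r : ℕ} (hE : 1 ≤ D * Real.exp (-(r : ℝ))) (f : ℕ → ℝ) :
    ∑ i ∈ Finset.range r, ∑ p ∈ PB D i, f p = PS D f - PS (D * Real.exp (-(r : ℝ))) f := by
  have h1 : 1 ≤ D := by
    have : Real.exp (-(r : ℝ)) ≤ 1 := Real.exp_le_one_iff.2 (by have : (0 : ℝ) ≤ r := Nat.cast_nonneg r; linarith)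
    nlinarith
  rw [← PS_blocks h1, ← PS_blocks hE, JB_shift hD r hE, Finset.sum_range_add]
  have : ∑ i ∈ Finset.range (JB (D * Real.exp (-(r : ℝ)))), ∑ p ∈ PB D (r + i), f p =
      ∑ i ∈ Finset.range (JB (D * Real.exp (-(r : ℝ)))), ∑ p ∈ PB (D * Real.exp (-(r : ℝ))) i, f p :=
    Finset.sum_congr rfl fun i _ => by rw [PB_shift]
  rw [this]
  ring

/-- the three estimates -/
theorem prime_sums : ∃ C E₀ : ℝ, 0 ≤ C ∧ 1 ≤ E₀ ∧
    (∀ E : ℝ, E₀ ≤ E → PS E (fun p => 1 / (p : ℝ)) ≤ Real.log E + C) ∧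
    (∀ (D : ℝ) (r : ℕ), E₀ ≤ D * Real.exp (-(r : ℝ)) →
      (∑ i ∈ Finset.range r, ∑ p ∈ PB D i, 1 / (p : ℝ) ≤ r + C) ∧
      ∀ w : ℝ, |w| ≤ 1 → Real.exp (-1) ≤ |w| * (D * Real.exp (-(r : ℝ))) →
        ∑ i ∈ Finset.range r, ∑ p ∈ PB D i, Real.cos (w * Real.log p) / (p : ℝ) ≤ C) := by
  obtain ⟨C₁, hC₁⟩ := Pool.Agent.Q149.UM.t_MZ 1 one_pos le_rfl
  obtain ⟨c, K, hc, hK, hbox⟩ := zeta_box
  obtain ⟨T₀, hT₀⟩ := eventually_atTop.1 hC₁
  obtain ⟨E₀, hE₀⟩ : ∃ E₀ : ℝ, E₀ = max 1 (Real.log (max T₀ 1)) := ⟨_, rfl⟩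
  have hE1 : 1 ≤ E₀ := by rw [hE₀]; exact le_max_left _ _
  obtain ⟨C₂, hC₂⟩ : ∃ C₂ : ℝ, C₂ = max C₁ 0 := ⟨_, rfl⟩
  have hC₂0 : 0 ≤ C₂ := by rw [hC₂]; exact le_max_right _ _
  -- the basic estimate
  have base : ∀ D : ℝ, E₀ ≤ D → ∀ u : ℝ, |PS D (fun p => Real.cos (u * Real.log p) / (p : ℝ)) -
      Real.log ‖riemannZeta (1 + 1 / (D : ℂ) + u * I)‖| ≤ C₂ := by
    intro D hD u
    have h1 : T₀ ≤ Real.exp D := by
      have h2 : Real.log (max T₀ 1) ≤ D := (le_max_right _ _).trans (hE₀ ▸ hD)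
      have h3 : 0 < max T₀ 1 := lt_of_lt_of_le one_pos (le_max_right _ _)
      exact (le_max_left T₀ 1).trans ((Real.log_le_iff_le_exp h3).1 h2)
    have h2 := hT₀ (Real.exp D) h1 u
    rw [Real.log_exp, Real.rpow_one] at h2
    unfold PS
    exact h2.trans (by rw [hC₂]; exact le_max_left _ _)
  have hz : ∀ D : ℝ, 1 ≤ D → ∀ u : ℝ, |u| ≤ 1 → (1 + 1 / (D : ℂ) + u * I : ℂ).re = 1 + 1 / D ∧ (1 + 1 / (D : ℂ) + u * I : ℂ).im = u ∧
      ‖(1 + 1 / (D : ℂ) + u * I : ℂ) - 1‖ ≤ 1 / D + |u| ∧ max (1 / D) |u| ≤ ‖(1 + 1 / (D : ℂ) + u * I : ℂ) - 1‖ ∧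
      c ≤ ‖(1 + 1 / (D : ℂ) + u * I : ℂ) - 1‖ * ‖riemannZeta (1 + 1 / (D : ℂ) + u * I)‖ ∧
      ‖(1 + 1 / (D : ℂ) + u * I : ℂ) - 1‖ * ‖riemannZeta (1 + 1 / (D : ℂ) + u * I)‖ ≤ K := by
    intro D hD u hu
    have hD0 : 0 < D := by linarith
    have e0 : (1 + 1 / (D : ℂ) + u * I : ℂ) = ((1 + 1 / D : ℝ) : ℂ) + ((u : ℝ) : ℂ) * I := by push_cast; ring
    have e1 : (1 + 1 / (D : ℂ) + u * I : ℂ).re = 1 + 1 / D := by
      rw [e0]
      simp
    have e2 : (1 + 1 / (D : ℂ) + u * I : ℂ).im = u := by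
      rw [e0]
      simp
    have e3 : (1 + 1 / (D : ℂ) + u * I : ℂ) - 1 = ((1 / D : ℝ) : ℂ) + ((u : ℝ) : ℂ) * I := by push_cast; ring
    have hD1 : 1 / D ≤ 1 := by
      rw [div_le_one hD0]
      exact hD
    have hD2 : 0 < 1 / D := by positivity
    have h4 := hbox (1 + 1 / (D : ℂ) + u * I) (by rw [e1]; linarith) (by rw [e1]; linarith) (by rw [e2]; exact hu) (by
      intro h
      rw [h] at e1
      simp at e1
      linarith)
    refine ⟨e1, e2, ?_, ?_, h4.1, h4.2⟩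
    · rw [e3]
      refine (norm_add_le _ _).trans ?_
      rw [norm_mul, Complex.norm_I, mul_one, Complex.norm_real, Complex.norm_real, Real.norm_eq_abs, Real.norm_eq_abs, abs_of_pos hD2]
    · rw [e3]
      have h5 := Complex.abs_re_le_norm (((1 / D : ℝ) : ℂ) + ((u : ℝ) : ℂ) * I)
      have h6 := Complex.abs_im_le_norm (((1 / D : ℝ) : ℂ) + ((u : ℝ) : ℂ) * I)
      simp only [Complex.add_re, Complex.ofReal_re, Complex.mul_re, Complex.I_re, mul_zero, Complex.ofReal_im, Complex.I_im, mul_one,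
        sub_self, add_zero, Complex.add_im, Complex.mul_im, zero_add] at h5 h6
      rw [abs_of_pos hD2] at h5
      exact max_le h5 h6
  obtain ⟨C, hC⟩ : ∃ C : ℝ, C = 2 * C₂ + |Real.log K| + |Real.log c| + 4 := ⟨_, rfl⟩
  have hl0 := abs_nonneg (Real.log K)
  have hl1 := abs_nonneg (Real.log c)
  have hlK := le_abs_self (Real.log K)
  have hlc := neg_abs_le (Real.log c)
  have hlog1 : ∀ D : ℝ, 1 ≤ D → Real.log ‖riemannZeta (1 + 1 / (D : ℂ) + (0 : ℝ) * I)‖ ≤ Real.log D + |Real.log K| ∧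
      Real.log D - |Real.log c| ≤ Real.log ‖riemannZeta (1 + 1 / (D : ℂ) + (0 : ℝ) * I)‖ := by
    intro D hD
    obtain ⟨-, -, h3, h4, h5, h6⟩ := hz D hD 0 (by norm_num)
    have hD0 : 0 < D := by linarith
    rw [abs_zero, add_zero] at h3
    have h7 := (le_max_left (1 / D) |(0 : ℝ)|).trans h4
    have h8 : ‖(1 + 1 / (D : ℂ) + (0 : ℝ) * I : ℂ) - 1‖ = 1 / D := le_antisymm h3 h7
    rw [h8] at h5 h6
    have h9 : 0 < ‖riemannZeta (1 + 1 / (D : ℂ) + (0 : ℝ) * I)‖ := by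
      by_contra h
      have h10 : ‖riemannZeta (1 + 1 / (D : ℂ) + (0 : ℝ) * I)‖ = 0 := le_antisymm (not_lt.1 h) (norm_nonneg _)
      rw [h10, mul_zero] at h5
      linarith
    have e1 : Real.log (1 / D * ‖riemannZeta (1 + 1 / (D : ℂ) + (0 : ℝ) * I)‖) =
        Real.log ‖riemannZeta (1 + 1 / (D : ℂ) + (0 : ℝ) * I)‖ - Real.log D := by
      rw [Real.log_mul (by positivity) h9.ne', one_div, Real.log_inv]
      ring
    have h10 := Real.log_le_log (by positivity) h6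
    have h11 := Real.log_le_log hc h5
    rw [e1] at h10 h11
    exact ⟨by linarith, by linarith⟩
  refine ⟨C, E₀, by rw [hC]; positivity, hE1, ?_, ?_⟩
  · intro E hE
    have h1 := base E hE 0
    have e : PS E (fun p => Real.cos (0 * Real.log p) / (p : ℝ)) = PS E (fun p => 1 / (p : ℝ)) := by
      simp
    rw [e, abs_le] at h1
    have h2 := (hlog1 E (hE1.trans hE)).1
    rw [hC]
    linarith [h1.2]
  · intro D r hE
    obtain ⟨E, hEd⟩ : ∃ E : ℝ, E = D * Real.exp (-(r : ℝ)) := ⟨_, rfl⟩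
    have hEr : 0 < Real.exp (-(r : ℝ)) := Real.exp_pos _
    have hE' := hE
    rw [← hEd] at hE'
    have hEp : 0 < E := by linarith
    have hD0 : 0 < D := by
      by_contra h
      have : D * Real.exp (-(r : ℝ)) ≤ 0 := mul_nonpos_of_nonpos_of_nonneg (not_lt.1 h) hEr.le
      rw [← hEd] at this
      linarith
    have hr0 : (0 : ℝ) ≤ r := Nat.cast_nonneg r
    have hED : E ≤ D := by
      rw [hEd]
      have : Real.exp (-(r : ℝ)) ≤ 1 := Real.exp_le_one_iff.2 (by linarith)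
      nlinarith
    have hlogE : Real.log E = Real.log D - r := by
      rw [hEd, Real.log_mul hD0.ne' hEr.ne', Real.log_exp]
      ring
    have hdiff := fun f => PS_diff hD0 (hE1.trans hE) f
    rw [← hEd] at hdiff ⊢
    constructor
    · rw [hdiff]
      have h1 := base D (hE'.trans hED) 0
      have h2 := base E hE' 0
      have e : ∀ x : ℝ, PS x (fun p => Real.cos (0 * Real.log p) / (p : ℝ)) = PS x (fun p => 1 / (p : ℝ)) := fun x => by
        simp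
      rw [e, abs_le] at h1 h2
      have h3 := (hlog1 D (hE1.trans (hE'.trans hED))).1
      have h4 := (hlog1 E (hE1.trans hE')).2
      rw [hC]
      linarith [h1.2, h2.1]
    · intro w hw hw2
      rw [hdiff]
      have h1 := base D (hE'.trans hED) w
      have h2 := base E hE' w
      rw [abs_le] at h1 h2
      obtain ⟨-, -, a3, a4, a5, a6⟩ := hz D (hE1.trans (hE'.trans hED)) w hw
      obtain ⟨-, -, b3, b4, b5, b6⟩ := hz E (hE1.trans hE') w hw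
      have hw0 : 0 < |w| := by
        by_contra h
        have h0 : |w| = 0 := le_antisymm (not_lt.1 h) (abs_nonneg _)
        rw [h0, zero_mul] at hw2
        have := Real.exp_pos (-1 : ℝ)
        linarith
      have a7 : |w| ≤ ‖(1 + 1 / (D : ℂ) + w * I : ℂ) - 1‖ := (le_max_right _ _).trans a4
      have b7 : ‖(1 + 1 / (E : ℂ) + w * I : ℂ) - 1‖ ≤ 4 * |w| := by
        have h5 : 1 / E ≤ 3 * |w| := by
          rw [div_le_iff₀ hEp]
          have h6 : Real.exp 1 * Real.exp (-1) = 1 := by rw [← Real.exp_add]; simp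
          have h7 := Real.exp_one_lt_d9
          have h8 : 1 ≤ Real.exp 1 * (|w| * E) :=
            h6.symm.le.trans (mul_le_mul_of_nonneg_left hw2 (Real.exp_pos 1).le)
          have h9 : 0 < |w| * E := by positivity
          nlinarith
        linarith
      obtain ⟨zD, hzD⟩ : ∃ z : ℝ, z = ‖riemannZeta (1 + 1 / (D : ℂ) + w * I)‖ := ⟨_, rfl⟩
      obtain ⟨zE, hzE⟩ : ∃ z : ℝ, z = ‖riemannZeta (1 + 1 / (E : ℂ) + w * I)‖ := ⟨_, rfl⟩
      rw [← hzD] at h1 a5 a6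
      rw [← hzE] at h2 b5 b6
      have hzD0 : 0 < zD := by
        by_contra h
        have h10 : zD ≤ 0 := not_lt.1 h
        have : ‖(1 + 1 / (D : ℂ) + w * I : ℂ) - 1‖ * zD ≤ 0 := mul_nonpos_of_nonneg_of_nonpos (norm_nonneg _) h10
        linarith
      have hzE0 : 0 < zE := by
        by_contra h
        have h10 : zE ≤ 0 := not_lt.1 h
        have : ‖(1 + 1 / (E : ℂ) + w * I : ℂ) - 1‖ * zE ≤ 0 := mul_nonpos_of_nonneg_of_nonpos (norm_nonneg _) h10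
        linarith
      have h5 : |w| * zD ≤ K := (mul_le_mul_of_nonneg_right a7 hzD0.le).trans a6
      have h6 : c ≤ 4 * |w| * zE := b5.trans (mul_le_mul_of_nonneg_right b7 hzE0.le)
      have h7 := Real.log_le_log (by positivity) h5
      have h8 := Real.log_le_log hc h6
      rw [Real.log_mul hw0.ne' hzD0.ne'] at h7
      rw [Real.log_mul (by positivity) hzE0.ne', Real.log_mul (by norm_num) hw0.ne'] at h8
      have h9 : Real.log 4 ≤ 3 := by
        have := Real.log_le_sub_one_of_pos (by norm_num : (0 : ℝ) < 4)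
        linarith
      rw [hC]
      linarith [h1.2, h2.1]

end

end Pool.Agent.H469.F4
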