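import Pool.Agent.H469.F4.M6

set_option autoImplicit false

/-!
# The two mean values with the weights
-/

namespace Pool.Agent.H469.F4

open Filter Topology MeasureTheory Complex Pool.Agent.Q97.UM
open Pool.Agent.Q184.UM (ua_norm)
open Pool.Agent.Q14.UM (mem_PB)

noncomputable section

/-- the coefficients of the exponent of the weight -/
def aw (γ u : ℝ) (n : ℕ) : ℂ := ((γ / 2 : ℝ) : ℂ) * ua u n

theorem aw_norm {γ : ℝ} (hγ : 0 ≤ γ) (u : ℝ) (n : ℕ) : ‖aw γ u n‖ ≤ γ / 2 := by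
  unfold aw
  rw [norm_mul, Complex.norm_real, Real.norm_eq_abs, abs_of_nonneg (by positivity)]
  have := ua_norm u n
  have h : 0 ≤ γ / 2 := by positivity
  nlinarith

theorem ap_one (γ u : ℝ) : ap ![γ / 2, 0] ![u, u] = aw γ u := by
  funext n
  unfold ap aw ua
  rw [Fin.sum_univ_two]
  simp

theorem ap_two (γ u v : ℝ) : ap ![γ / 2, γ / 2] ![u, v] = fun n => aw γ u n + aw γ v n := by
  funext n
  unfold ap aw ua
  rw [Fin.sum_univ_two]
  simp

theorem zpr_one (γ u t : ℝ) : zpr ![γ / 2, 0] ![u, u] t = ‖zt (t + u)‖ ^ γ := by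
  unfold zpr
  rw [Fin.prod_univ_two]
  simp
  congr 1
  ring

theorem zpr_two (γ u v t : ℝ) : zpr ![γ / 2, γ / 2] ![u, v] t = ‖zt (t + u)‖ ^ γ * ‖zt (t + v)‖ ^ γ := by
  unfold zpr
  rw [Fin.prod_univ_two]
  simp only [Matrix.cons_val_zero, Matrix.cons_val_one]
  rw [mul_div_cancel₀ γ (by norm_num : (2 : ℝ) ≠ 0)]

theorem SB_le {D A : ℝ} {x : ℕ → ℂ} (hA : 0 ≤ A) (hx : ∀ n, ‖x n‖ ≤ A) (r : ℕ) :
    SB D x r ≤ A ^ 2 * ∑ i ∈ Finset.range r, ∑ p ∈ PB D i, 1 / (p : ℝ) := by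
  unfold SB
  rw [Finset.mul_sum]
  refine Finset.sum_le_sum fun i _ => ?_
  rw [Finset.mul_sum]
  refine Finset.sum_le_sum fun p _ => ?_
  rw [mul_one_div]
  have := hx p
  gcongr

theorem ua_add_sq (u v : ℝ) {p : ℕ} (hp : 0 < p) : ‖ua u p + ua v p‖ ^ 2 = 2 + 2 * Real.cos ((u - v) * Real.log p) := by
  have hp0 : (p : ℂ) ≠ 0 := by exact_mod_cast hp.ne'
  have h1 : ∀ x : ℝ, ua x p = ((Real.cos (x * Real.log p) : ℝ) : ℂ) - ((Real.sin (x * Real.log p) : ℝ) : ℂ) * I := by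
    intro x
    unfold ua
    rw [Complex.cpow_def_of_ne_zero hp0, ← Complex.natCast_log]
    have e : ((Real.log p : ℝ) : ℂ) * (-((x : ℂ) * I)) = ((-(x * Real.log p) : ℝ) : ℂ) * I := by push_cast; ring
    rw [e, Complex.exp_mul_I, ← Complex.ofReal_cos, ← Complex.ofReal_sin, Real.cos_neg, Real.sin_neg]
    push_cast
    ring
  rw [h1 u, h1 v, ← Complex.normSq_eq_norm_sq]
  have e2 : (((Real.cos (u * Real.log p) : ℝ) : ℂ) - ((Real.sin (u * Real.log p) : ℝ) : ℂ) * I +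
      (((Real.cos (v * Real.log p) : ℝ) : ℂ) - ((Real.sin (v * Real.log p) : ℝ) : ℂ) * I)) =
      ((Real.cos (u * Real.log p) + Real.cos (v * Real.log p) : ℝ) : ℂ) +
        ((-(Real.sin (u * Real.log p) + Real.sin (v * Real.log p)) : ℝ) : ℂ) * I := by
    push_cast
    ring
  rw [e2, Complex.normSq_add_mul_I, sub_mul, Real.cos_sub]
  have h2 := Real.sin_sq_add_cos_sq (u * Real.log p)
  have h3 := Real.sin_sq_add_cos_sq (v * Real.log p)
  nlinarith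

theorem SB_two {γ u v : ℝ} (D : ℝ) (r : ℕ) : SB D (fun n => aw γ u n + aw γ v n) r =
    γ ^ 2 / 2 * ∑ i ∈ Finset.range r, ∑ p ∈ PB D i, 1 / (p : ℝ) +
      γ ^ 2 / 2 * ∑ i ∈ Finset.range r, ∑ p ∈ PB D i, Real.cos ((u - v) * Real.log p) / (p : ℝ) := by
  unfold SB
  rw [Finset.mul_sum, Finset.mul_sum, ← Finset.sum_add_distrib]
  refine Finset.sum_congr rfl fun i _ => ?_
  rw [Finset.mul_sum, Finset.mul_sum, ← Finset.sum_add_distrib]
  refine Finset.sum_congr rfl fun p hp => ?_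
  have hp0 : 0 < p := (mem_PB hp).1.pos
  have h1 : aw γ u p + aw γ v p = ((γ / 2 : ℝ) : ℂ) * (ua u p + ua v p) := by
    unfold aw
    ring
  show ‖aw γ u p + aw γ v p‖ ^ 2 / (p : ℝ) = _
  rw [h1, norm_mul, mul_pow, ua_add_sq u v hp0, Complex.norm_real, Real.norm_eq_abs, sq_abs]
  ring

/-- **the two mean values** -/
theorem two_means : ∃ δ κ' C E₀ : ℝ, ∃ m₀ : ℕ, 0 < δ ∧ δ ≤ 1 ∧ 4 ≤ κ' ∧ 0 ≤ C ∧ 1 ≤ E₀ ∧ ∀ᶠ T : ℝ in atTop, ∀ r : ℕ, m₀ ≤ r →
    E₀ ≤ δ * Real.log T * Real.exp (-(r : ℝ)) → ∀ γ q : ℝ, 0 ≤ γ → γ ≤ 2 → 1 ≤ q → q ≤ 2 → ∀ u : ℝ, |u| ≤ T / 2 →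
    ∀ l : ℕ, l ≤ JB (δ * Real.log T * Real.exp (-(r : ℝ))) →
      ∫ t in T..(2 * T), ‖zt (t + u)‖ ^ γ * ‖Ef (δ * Real.log T * Real.exp (-(r : ℝ))) κ' (fun n => ((q - 1 : ℝ) : ℂ) * aw γ u n) (fun _ => 0) l t *
        pw (δ * Real.log T * Real.exp (-(r : ℝ))) κ' (aw γ u) (fun _ => 0) l t‖ ^ 2 ≤
        C * T * Real.exp (-(l : ℝ)) * (Real.exp (r * (γ ^ 2 / 4)) * (δ * Real.log T * Real.exp (-(r : ℝ))) ^ (q ^ 2 * γ ^ 2 / 4)) ∧
      ∀ v : ℝ, |v| ≤ T / 2 → |u - v| ≤ 1 → (r = m₀ ∨ Real.exp (-1) ≤ |u - v| * (δ * Real.log T * Real.exp (-(r : ℝ)))) →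
      ∫ t in T..(2 * T), ‖zt (t + u)‖ ^ γ * ‖zt (t + v)‖ ^ γ *
        ‖Ef (δ * Real.log T * Real.exp (-(r : ℝ))) κ' (fun n => ((q - 2 : ℝ) : ℂ) * aw γ u n) (fun _ => 0) l t *
        pw (δ * Real.log T * Real.exp (-(r : ℝ))) κ' (aw γ u) (fun _ => 0) l t‖ ^ 2 ≤
        C * T * Real.exp (-(l : ℝ)) * (Real.exp (r * (γ ^ 2 / 2)) * (δ * Real.log T * Real.exp (-(r : ℝ))) ^ (q ^ 2 * γ ^ 2 / 4)) := by
  obtain ⟨δ, κ', C, m₀, hδ, hδ1, hκ', hC, hW⟩ := weight4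
  obtain ⟨C', E₀, hC', hE₀, hp1, hp2⟩ := prime_sums
  refine ⟨δ, κ', C * Real.exp (4 * (m₀ + C') + 8 * C'), E₀, m₀, hδ, hδ1, hκ', by positivity, hE₀, ?_⟩
  filter_upwards [hW, eventually_ge_atTop (16 : ℝ)] with T hW hT16
  intro r hr hE γ q hγ0 hγ2 hq1 hq2 u hu l hl
  obtain ⟨E, hEd⟩ : ∃ E : ℝ, E = δ * Real.log T * Real.exp (-(r : ℝ)) := ⟨_, rfl⟩
  have hW' := hW r hr (hE₀.trans hE)
  obtain ⟨hs1, hs2⟩ := hp2 (δ * Real.log T) r hE
  rw [← hEd] at hE hl hW' hs2 ⊢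
  have hEp : 0 < E := by linarith
  have hT0 : 0 < T := by linarith
  have hs3 := hp1 E hE
  have hlogE : 0 ≤ Real.log E := Real.log_nonneg (by linarith)
  have hm0 : (0 : ℝ) ≤ m₀ := Nat.cast_nonneg _
  have hrr : (0 : ℝ) ≤ r := Nat.cast_nonneg _
  have hγ4 : γ ^ 2 ≤ 4 := by nlinarith
  have hγs : 0 ≤ γ ^ 2 := sq_nonneg _
  have hqγ : q ^ 2 * γ ^ 2 / 4 ≤ 4 := by
    have h1 : q ^ 2 ≤ 4 := by nlinarith
    have h2 : 0 ≤ q ^ 2 := sq_nonneg _
    nlinarith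
  have hqγ0 : 0 ≤ q ^ 2 * γ ^ 2 / 4 := by positivity
  -- the sum over the small primes
  have hsmall : ∀ z : ℕ → ℂ, (∀ n, ‖z n‖ ≤ q * γ / 2) → SB E z (JB E) ≤ q ^ 2 * γ ^ 2 / 4 * Real.log E + 4 * C' := by
    intro z hz
    have h1 := SB_le (D := E) (by positivity : 0 ≤ q * γ / 2) hz (JB E)
    rw [PS_blocks (hE₀.trans hE) (fun p => 1 / (p : ℝ))] at h1
    have h2 : (q * γ / 2) ^ 2 = q ^ 2 * γ ^ 2 / 4 := by ring
    rw [h2] at h1
    have h3 := mul_le_mul_of_nonneg_left hs3 hqγ0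
    have h4 : q ^ 2 * γ ^ 2 / 4 * C' ≤ 4 * C' := mul_le_mul_of_nonneg_right hqγ hC'
    linarith
  have hrpow : E ^ (q ^ 2 * γ ^ 2 / 4) = Real.exp (q ^ 2 * γ ^ 2 / 4 * Real.log E) := by
    rw [Real.rpow_def_of_pos hEp, mul_comm]
  have haw := aw_norm hγ0 u
  refine ⟨?_, ?_⟩
  · have h1 := hW' ![γ / 2, 0] ![u, u] (by
      intro j
      fin_cases j
      · simp; linarith
      · simp) (by rw [Fin.sum_univ_two]; simp; linarith) (by
      intro j
      fin_cases j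
      · simpa using hu
      · simpa using hu) (fun n => ((q - 1 : ℝ) : ℂ) * aw γ u n) (aw γ u) (fun n => by
        rw [norm_mul, Complex.norm_real, Real.norm_eq_abs, abs_of_nonneg (by linarith)]
        have := haw n
        have := norm_nonneg (aw γ u n)
        nlinarith) (fun n => (haw n).trans (by linarith)) l hl
    simp only [zpr_one, ap_one] at h1
    refine h1.trans ?_
    have h2 : SB (δ * Real.log T) (aw γ u) r ≤ r * (γ ^ 2 / 4) + C' := by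
      have h3 := SB_le (D := δ * Real.log T) (by positivity : 0 ≤ γ / 2) haw r
      have h4 : (γ / 2) ^ 2 = γ ^ 2 / 4 := by ring
      rw [h4] at h3
      have h5 := mul_le_mul_of_nonneg_left hs1 (by positivity : 0 ≤ γ ^ 2 / 4)
      have h6 : γ ^ 2 / 4 * C' ≤ 1 * C' := mul_le_mul_of_nonneg_right (by linarith) hC'
      linarith
    have h7 := hsmall (fun p => aw γ u p + ((q - 1 : ℝ) : ℂ) * aw γ u p) (fun n => by
      have e : aw γ u n + ((q - 1 : ℝ) : ℂ) * aw γ u n = ((q : ℝ) : ℂ) * aw γ u n := by push_cast; ring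
      rw [e, norm_mul, Complex.norm_real, Real.norm_eq_abs, abs_of_nonneg (by linarith)]
      have := haw n
      nlinarith)
    have h8 : Real.exp (SB (δ * Real.log T) (aw γ u) r + SB E (fun p => aw γ u p + ((q - 1 : ℝ) : ℂ) * aw γ u p) (JB E)) ≤
        Real.exp (4 * (m₀ + C') + 8 * C') * (Real.exp (r * (γ ^ 2 / 4)) * E ^ (q ^ 2 * γ ^ 2 / 4)) := by
      rw [hrpow, ← Real.exp_add, ← Real.exp_add]
      apply Real.exp_le_exp.2
      linarith
    calc _ ≤ C * T * Real.exp (-(l : ℝ)) * (Real.exp (4 * (m₀ + C') + 8 * C') * (Real.exp (r * (γ ^ 2 / 4)) * E ^ (q ^ 2 * γ ^ 2 / 4))) :=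
          mul_le_mul_of_nonneg_left h8 (by positivity)
      _ = _ := by ring
  · intro v hv huv hrw
    have hav := aw_norm hγ0 v
    have h1 := hW' ![γ / 2, γ / 2] ![u, v] (by
      intro j
      fin_cases j
      · simp; linarith
      · simp; linarith) (by rw [Fin.sum_univ_two]; simp; linarith) (by
      intro j
      fin_cases j
      · simpa using hu
      · simpa using hv) (fun n => ((q - 2 : ℝ) : ℂ) * aw γ u n) (aw γ u) (fun n => by
        rw [norm_mul, Complex.norm_real, Real.norm_eq_abs, abs_of_nonpos (by linarith)]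
        have := haw n
        have := norm_nonneg (aw γ u n)
        nlinarith) (fun n => (haw n).trans (by linarith)) l hl
    simp only [zpr_two, ap_two] at h1
    refine h1.trans ?_
    have h2 : SB (δ * Real.log T) (fun n => aw γ u n + aw γ v n) r ≤ r * (γ ^ 2 / 2) + (4 * (m₀ + C') + 4 * C') := by
      rw [SB_two]
      have h5 := mul_le_mul_of_nonneg_left hs1 (by positivity : 0 ≤ γ ^ 2 / 2)
      have h6 : γ ^ 2 / 2 * C' ≤ 2 * C' := mul_le_mul_of_nonneg_right (by linarith) hC'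
      rcases hrw with hrm | hw
      · have h7 : ∑ i ∈ Finset.range r, ∑ p ∈ PB (δ * Real.log T) i, Real.cos ((u - v) * Real.log p) / (p : ℝ) ≤
            ∑ i ∈ Finset.range r, ∑ p ∈ PB (δ * Real.log T) i, 1 / (p : ℝ) := by
          refine Finset.sum_le_sum fun i _ => Finset.sum_le_sum fun p _ => ?_
          have := Real.cos_le_one ((u - v) * Real.log p)
          gcongr
        have h8 := mul_le_mul_of_nonneg_left (h7.trans hs1) (by positivity : 0 ≤ γ ^ 2 / 2)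
        have h9 : γ ^ 2 / 2 * (m₀ + C') ≤ 2 * (m₀ + C') := mul_le_mul_of_nonneg_right (by linarith) (by positivity)
        rw [hrm] at h8 h5 ⊢
        nlinarith
      · have h7 := mul_le_mul_of_nonneg_left (hs2 (u - v) huv hw) (by positivity : 0 ≤ γ ^ 2 / 2)
        nlinarith
    have h7 := hsmall (fun p => (aw γ u p + aw γ v p) + ((q - 2 : ℝ) : ℂ) * aw γ u p) (fun n => by
      have e : (aw γ u n + aw γ v n) + ((q - 2 : ℝ) : ℂ) * aw γ u n = ((q - 1 : ℝ) : ℂ) * aw γ u n + aw γ v n := by push_cast; ring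
      rw [e]
      refine (norm_add_le _ _).trans ?_
      rw [norm_mul, Complex.norm_real, Real.norm_eq_abs, abs_of_nonneg (by linarith)]
      have h8 := haw n
      have h9 := hav n
      have h10 := mul_le_mul_of_nonneg_left h8 (by linarith : 0 ≤ q - 1)
      nlinarith)
    have h8 : Real.exp (SB (δ * Real.log T) (fun n => aw γ u n + aw γ v n) r +
        SB E (fun p => (aw γ u p + aw γ v p) + ((q - 2 : ℝ) : ℂ) * aw γ u p) (JB E)) ≤
        Real.exp (4 * (m₀ + C') + 8 * C') * (Real.exp (r * (γ ^ 2 / 2)) * E ^ (q ^ 2 * γ ^ 2 / 4)) := by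
      rw [hrpow, ← Real.exp_add, ← Real.exp_add]
      apply Real.exp_le_exp.2
      linarith
    calc _ ≤ C * T * Real.exp (-(l : ℝ)) * (Real.exp (4 * (m₀ + C') + 8 * C') * (Real.exp (r * (γ ^ 2 / 2)) * E ^ (q ^ 2 * γ ^ 2 / 4))) :=
          mul_le_mul_of_nonneg_left h8 (by positivity)
      _ = _ := by ring

end

end Pool.Agent.H469.F4
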