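import Pool.Agent.H469.F4.M7

set_option autoImplicit false

/-!
# One ring
-/

namespace Pool.Agent.H469.F4

open Filter Topology MeasureTheory Complex Pool.Agent.Q97.UM
open Pool.Agent.Q184.UM (pt2_all Ef_cont pw_cont)

noncomputable section

theorem swap_cont {F : ℝ → ℝ → ℝ} (hF : Continuous (Function.uncurry F)) (a b c d : ℝ) :
    ∫ x in a..b, ∫ y in c..d, F x y = ∫ y in c..d, ∫ x in a..b, F x y := by
  apply intervalIntegral_intervalIntegral_swap
  exact (hF.continuousOn.integrableOn_compact (isCompact_uIcc.prod isCompact_uIcc)).mono_set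
    (Set.prod_mono Set.uIoc_subset_uIcc Set.uIoc_subset_uIcc)

/-- the power of the modulus -/
def fz (γ τ : ℝ) : ℝ := ‖zt τ‖ ^ γ

theorem fz_nonneg (γ τ : ℝ) : 0 ≤ fz γ τ := Real.rpow_nonneg (norm_nonneg _) _

theorem fz_cont {γ : ℝ} (hγ : 0 ≤ γ) : Continuous (fz γ) := ztc.norm.rpow_const fun _ => Or.inr hγ

/-- the two-sided integral -/
def Hz (γ a b τ : ℝ) : ℝ := ∫ w in a..b, (fz γ (τ + w) + fz γ (τ - w))

theorem Hz_cont {γ : ℝ} (hγ : 0 ≤ γ) (a b : ℝ) : Continuous (Hz γ a b) := by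
  unfold Hz
  have hf := fz_cont hγ
  apply intervalIntegral.continuous_parametric_intervalIntegral_of_continuous'
  exact (hf.comp (continuous_fst.add continuous_snd)).add (hf.comp (continuous_fst.sub continuous_snd))

theorem Hz_nonneg (γ : ℝ) {a b : ℝ} (hab : a ≤ b) (τ : ℝ) : 0 ≤ Hz γ a b τ :=
  intervalIntegral.integral_nonneg hab fun _ _ => add_nonneg (fz_nonneg _ _) (fz_nonneg _ _)

/-- the first weight -/
def W1 (E κ' γ u q : ℝ) (l : ℕ) (t : ℝ) : ℝ :=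
  ‖Ef E κ' (fun n => ((q - 1 : ℝ) : ℂ) * aw γ u n) (fun _ => 0) l t * pw E κ' (aw γ u) (fun _ => 0) l t‖ ^ 2

/-- the second weight -/
def W2 (E κ' γ u q : ℝ) (l : ℕ) (t : ℝ) : ℝ :=
  ‖Ef E κ' (fun n => ((q - 2 : ℝ) : ℂ) * aw γ u n) (fun _ => 0) l t * pw E κ' (aw γ u) (fun _ => 0) l t‖ ^ 2

theorem W1_cont (E κ' γ u q : ℝ) (l : ℕ) : Continuous (W1 E κ' γ u q l) :=
  ((Ef_cont E κ' _ _ l).mul (pw_cont E κ' _ _ l)).norm.pow 2

theorem W2_cont (E κ' γ u q : ℝ) (l : ℕ) : Continuous (W2 E κ' γ u q l) :=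
  ((Ef_cont E κ' _ _ l).mul (pw_cont E κ' _ _ l)).norm.pow 2

theorem W1_nonneg (E κ' γ u q : ℝ) (l : ℕ) (t : ℝ) : 0 ≤ W1 E κ' γ u q l t := sq_nonneg _

theorem W2_nonneg (E κ' γ u q : ℝ) (l : ℕ) (t : ℝ) : 0 ≤ W2 E κ' γ u q l t := sq_nonneg _

/-- the pointwise inequality -/
theorem pt_ring {κ' : ℝ} (hκ' : 4 ≤ κ') : ∃ CP : ℝ, 1 ≤ CP ∧ ∀ E γ u q t z : ℝ, 1 ≤ q → q ≤ 2 → 0 ≤ z →
    z ^ (q - 1) ≤ CP * ∑ l ∈ Finset.range (JB E + 1), (W1 E κ' γ u q l t + z * W2 E κ' γ u q l t) := by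
  obtain ⟨CP, hCP, h⟩ := pt2_all b_PT2 1 hκ'
  refine ⟨CP, hCP, fun E γ u q t z hq1 hq2 hz => ?_⟩
  have h1 := h E t (fun _ => q - 1) (fun _ => aw γ u) (fun _ _ => 0) (fun _ => Real.sqrt z) (fun _ => by linarith)
    (by simp; linarith) (fun _ => Real.sqrt_nonneg z) 1
  have e1 : lc (fun _ : Fin 1 => q - 1) (fun _ => aw γ u) = fun n => ((q - 1 : ℝ) : ℂ) * aw γ u n := by
    funext n
    unfold lc
    simp
  have e2 : lc (fun _ : Fin 1 => q - 1) (fun _ (_ : ℕ) => (0 : ℂ)) = fun _ => 0 := by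
    funext n
    unfold lc
    simp
  have e3 : (fun n => ((q - 1 : ℝ) : ℂ) * aw γ u n - aw γ u n) = fun n => ((q - 2 : ℝ) : ℂ) * aw γ u n := by
    funext n
    push_cast
    ring
  have e4 : Real.sqrt z ^ 2 = z := Real.sq_sqrt hz
  have e5 : Real.sqrt z ^ (2 * (q - 1)) = z ^ (q - 1) := by
    rw [Real.rpow_mul (Real.sqrt_nonneg z)]
    congr 1
    rw [Real.rpow_two]
    exact e4
  simp only [e1, e2, e3, e4, Finset.univ_unique, Finset.sum_singleton, Finset.prod_singleton, norm_one, one_pow, mul_one, sub_self,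
    Fin.default_eq_zero] at h1
  rw [e5] at h1
  refine h1.trans (mul_le_mul_of_nonneg_left (le_of_eq ?_) (by linarith))
  rw [Finset.sum_range_succ']
  have e6 : W1 E κ' γ u q 0 t = ‖Ef E κ' (fun n => ((q - 1 : ℝ) : ℂ) * aw γ u n) (fun _ => 0) 0 t‖ ^ 2 := by
    unfold W1
    show ‖_ * (1 : ℂ)‖ ^ 2 = _
    rw [mul_one]
  rw [e6]
  unfold W1 W2
  ring

theorem geo_exp (n : ℕ) : ∑ l ∈ Finset.range n, Real.exp (-(l : ℝ)) ≤ 2 := by
  have h1 : ∀ l ∈ Finset.range n, Real.exp (-(l : ℝ)) ≤ (1 / 2) ^ l := by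
    intro l _
    have h2 : Real.exp (-(l : ℝ)) = Real.exp (-1) ^ l := by
      rw [← Real.exp_nat_mul]
      congr 1
      ring
    rw [h2]
    apply pow_le_pow_left₀ (Real.exp_pos _).le
    rw [Real.exp_neg, one_div]
    apply inv_anti₀ (by norm_num)
    have := Real.add_one_le_exp (1 : ℝ)
    linarith
  refine (Finset.sum_le_sum h1).trans ?_
  exact sum_geometric_two_le n

/-- the two mean values, in the notation of this file -/
theorem two_means' : ∃ δ κ' C E₀ : ℝ, ∃ m₀ : ℕ, 0 < δ ∧ δ ≤ 1 ∧ 4 ≤ κ' ∧ 0 ≤ C ∧ 1 ≤ E₀ ∧ ∀ᶠ T : ℝ in atTop, ∀ r : ℕ, m₀ ≤ r →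
    E₀ ≤ δ * Real.log T * Real.exp (-(r : ℝ)) → ∀ γ q : ℝ, 0 ≤ γ → γ ≤ 2 → 1 ≤ q → q ≤ 2 → ∀ u : ℝ, |u| ≤ T / 2 →
    ∀ l : ℕ, l ≤ JB (δ * Real.log T * Real.exp (-(r : ℝ))) →
      ∫ t in T..(2 * T), fz γ (t + u) * W1 (δ * Real.log T * Real.exp (-(r : ℝ))) κ' γ u q l t ≤
        C * T * Real.exp (-(l : ℝ)) * (Real.exp (r * (γ ^ 2 / 4)) * (δ * Real.log T * Real.exp (-(r : ℝ))) ^ (q ^ 2 * γ ^ 2 / 4)) ∧
      ∀ v : ℝ, |v| ≤ T / 2 → |u - v| ≤ 1 → (r = m₀ ∨ Real.exp (-1) ≤ |u - v| * (δ * Real.log T * Real.exp (-(r : ℝ)))) →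
      ∫ t in T..(2 * T), fz γ (t + u) * fz γ (t + v) * W2 (δ * Real.log T * Real.exp (-(r : ℝ))) κ' γ u q l t ≤
        C * T * Real.exp (-(l : ℝ)) * (Real.exp (r * (γ ^ 2 / 2)) * (δ * Real.log T * Real.exp (-(r : ℝ))) ^ (q ^ 2 * γ ^ 2 / 4)) := by
  simp only [fz, W1, W2]
  exact two_means

/-- **one ring** -/
theorem one_ring : ∃ δ C E₀ : ℝ, ∃ m₀ : ℕ, 0 < δ ∧ δ ≤ 1 ∧ 0 ≤ C ∧ 1 ≤ E₀ ∧ ∀ᶠ T : ℝ in atTop, ∀ r : ℕ, m₀ ≤ r →
    E₀ ≤ δ * Real.log T * Real.exp (-(r : ℝ)) → ∀ γ q : ℝ, 0 ≤ γ → γ ≤ 2 → 1 ≤ q → q ≤ 2 → ∀ u : ℝ, |u| ≤ T / 4 →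
    ∀ a b K : ℝ, 0 ≤ a → a ≤ b → b ≤ 1 → 0 ≤ K → (b - a) * (δ * Real.log T * Real.exp (-(r : ℝ))) ≤ K →
    (r = m₀ ∨ Real.exp (-1) ≤ a * (δ * Real.log T * Real.exp (-(r : ℝ)))) →
    ∫ t in T..(2 * T), fz γ (t + u) * Hz γ a b (t + u) ^ (q - 1) ≤
      C * (1 + K) * T * (Real.exp (r * (γ ^ 2 / 4 * q)) * (δ * Real.log T * Real.exp (-(r : ℝ))) ^ (q ^ 2 * γ ^ 2 / 4 - q + 1)) := by
  obtain ⟨δ, κ', C, E₀, m₀, hδ, hδ1, hκ', hC, hE₀, hM⟩ := two_means'
  obtain ⟨CP, hCP, hP⟩ := pt_ring hκ'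
  refine ⟨δ, CP * (4 * C), E₀, m₀, hδ, hδ1, by positivity, hE₀, ?_⟩
  filter_upwards [hM, eventually_ge_atTop (16 : ℝ)] with T hM hT16
  intro r hr hE γ q hγ0 hγ2 hq1 hq2 u hu a b K ha hab hb hK0 hK hor
  have hM' := hM r hr hE γ q hγ0 hγ2 hq1 hq2 u (by linarith)
  obtain ⟨E, hEd⟩ : ∃ E : ℝ, E = δ * Real.log T * Real.exp (-(r : ℝ)) := ⟨_, rfl⟩
  rw [← hEd] at hE hM' hK hor ⊢
  have hEp : 0 < E := by linarith
  have hT0 : 0 < T := by linarith
  obtain ⟨Q, hQ⟩ : ∃ Q : ℝ, Q = E ^ (q ^ 2 * γ ^ 2 / 4) := ⟨_, rfl⟩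
  have hQ0 : 0 ≤ Q := by rw [hQ]; positivity
  rw [← hQ] at hM'
  obtain ⟨x, hx⟩ : ∃ x : ℝ, x = Real.exp (r * (γ ^ 2 / 4)) := ⟨_, rfl⟩
  have hx0 : 0 < x := by rw [hx]; exact Real.exp_pos _
  have hx2 : Real.exp (r * (γ ^ 2 / 2)) = x ^ 2 := by
    rw [hx, ← Real.exp_nat_mul]
    congr 1
    push_cast
    ring
  rw [← hx, hx2] at hM'
  obtain ⟨s, hs⟩ : ∃ s : ℝ, s = x / E := ⟨_, rfl⟩
  have hs0 : 0 < s := by rw [hs]; positivity
  have hfc := fz_cont hγ0
  have hHc := Hz_cont hγ0 a b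
  have huc : Continuous fun t : ℝ => t + u := by fun_prop
  -- the pointwise bound
  have hpt : ∀ t, fz γ (t + u) * Hz γ a b (t + u) ^ (q - 1) ≤
      ∑ l ∈ Finset.range (JB E + 1), (CP * s ^ (q - 1) * (fz γ (t + u) * W1 E κ' γ u q l t) +
        CP * s ^ (q - 2) * (fz γ (t + u) * Hz γ a b (t + u) * W2 E κ' γ u q l t)) := by
    intro t
    have hH := Hz_nonneg γ hab (t + u)
    have h1 := hP E γ u q t (Hz γ a b (t + u) / s) hq1 hq2 (by positivity)
    have h2 : Hz γ a b (t + u) ^ (q - 1) = s ^ (q - 1) * (Hz γ a b (t + u) / s) ^ (q - 1) := by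
      rw [← Real.mul_rpow hs0.le (by positivity), mul_div_cancel₀ _ hs0.ne']
    have h3 : s ^ (q - 1) = s ^ (q - 2) * s := by
      rw [← Real.rpow_add_one hs0.ne']
      congr 1
      ring
    rw [h2]
    have h4 := mul_le_mul_of_nonneg_left h1 (by positivity : 0 ≤ s ^ (q - 1))
    have h5 := mul_le_mul_of_nonneg_left h4 (fz_nonneg γ (t + u))
    refine h5.trans (le_of_eq ?_)
    rw [Finset.mul_sum, Finset.mul_sum, Finset.mul_sum]
    refine Finset.sum_congr rfl fun l _ => ?_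
    rw [h3]
    field_simp
  -- integrals of the terms
  have hI1 : ∀ l ∈ Finset.range (JB E + 1), ∫ t in T..(2 * T), fz γ (t + u) * W1 E κ' γ u q l t ≤ C * T * Real.exp (-(l : ℝ)) * (x * Q) := by
    intro l hl
    exact (hM' l (by have := Finset.mem_range.1 hl; omega)).1
  have hI2 : ∀ l ∈ Finset.range (JB E + 1), ∫ t in T..(2 * T), fz γ (t + u) * Hz γ a b (t + u) * W2 E κ' γ u q l t ≤
      (b - a) * (2 * (C * T * Real.exp (-(l : ℝ)) * (x ^ 2 * Q))) := by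
    intro l hl
    have hl' : l ≤ JB E := by have := Finset.mem_range.1 hl; omega
    have hWc := W2_cont E κ' γ u q l
    obtain ⟨G, hG⟩ : ∃ G : ℝ → ℝ → ℝ, G = fun t w => fz γ (t + u) * fz γ (t + (u + w)) * W2 E κ' γ u q l t +
      fz γ (t + u) * fz γ (t + (u - w)) * W2 E κ' γ u q l t := ⟨_, rfl⟩
    have e1 : ∀ t, fz γ (t + u) * Hz γ a b (t + u) * W2 E κ' γ u q l t = ∫ w in a..b, G t w := by
      intro t
      unfold Hz
      rw [← intervalIntegral.integral_const_mul, ← intervalIntegral.integral_mul_const]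
      refine intervalIntegral.integral_congr fun w _ => ?_
      have e2 : t + u + w = t + (u + w) := by ring
      have e3 : t + u - w = t + (u - w) := by ring
      simp only [hG]
      rw [e2, e3]
      ring
    have e1' : (fun t => fz γ (t + u) * Hz γ a b (t + u) * W2 E κ' γ u q l t) = fun t => ∫ w in a..b, G t w := funext e1
    rw [e1']
    have hc : Continuous fun z : ℝ × ℝ => G z.1 z.2 := by
      have c1 : Continuous fun z : ℝ × ℝ => fz γ (z.1 + u) := hfc.comp (by fun_prop)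
      have c2 : Continuous fun z : ℝ × ℝ => fz γ (z.1 + (u + z.2)) := hfc.comp (by fun_prop)
      have c3 : Continuous fun z : ℝ × ℝ => fz γ (z.1 + (u - z.2)) := hfc.comp (by fun_prop)
      have c4 : Continuous fun z : ℝ × ℝ => W2 E κ' γ u q l z.1 := hWc.comp continuous_fst
      simp only [hG]
      exact ((c1.mul c2).mul c4).add ((c1.mul c3).mul c4)
    have hc' : Continuous fun z : ℝ × ℝ => G z.2 z.1 := hc.comp continuous_swap
    rw [swap_cont hc]
    have hb' : ∀ w ∈ Set.Icc a b, ∫ t in T..(2 * T), G t w ≤ 2 * (C * T * Real.exp (-(l : ℝ)) * (x ^ 2 * Q)) := by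
      intro w hw
      have hw0 : 0 ≤ w := ha.trans hw.1
      have hw1 : w ≤ 1 := hw.2.trans hb
      have hu' := abs_le.1 hu
      have hor' : r = m₀ ∨ Real.exp (-1) ≤ w * E := by
        rcases hor with h | h
        · exact Or.inl h
        · exact Or.inr (h.trans (mul_le_mul_of_nonneg_right hw.1 hEp.le))
      have m1 := (hM' l hl').2 (u + w) (abs_le.2 ⟨by linarith [hu'.1], by linarith [hu'.2]⟩)
        (by rw [show u - (u + w) = -w by ring, abs_neg, abs_of_nonneg hw0]; exact hw1)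
        (by rw [show u - (u + w) = -w by ring, abs_neg, abs_of_nonneg hw0]; exact hor')
      have m2 := (hM' l hl').2 (u - w) (abs_le.2 ⟨by linarith [hu'.1], by linarith [hu'.2]⟩)
        (by rw [show u - (u - w) = w by ring, abs_of_nonneg hw0]; exact hw1)
        (by rw [show u - (u - w) = w by ring, abs_of_nonneg hw0]; exact hor')
      have c1 : Continuous fun t : ℝ => fz γ (t + u) := hfc.comp (by fun_prop)
      have c2 : Continuous fun t : ℝ => fz γ (t + (u + w)) := hfc.comp (by fun_prop)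
      have c3 : Continuous fun t : ℝ => fz γ (t + (u - w)) := hfc.comp (by fun_prop)
      have i1 : IntervalIntegrable (fun t => fz γ (t + u) * fz γ (t + (u + w)) * W2 E κ' γ u q l t) volume T (2 * T) :=
        ((c1.mul c2).mul hWc).intervalIntegrable _ _
      have i2 : IntervalIntegrable (fun t => fz γ (t + u) * fz γ (t + (u - w)) * W2 E κ' γ u q l t) volume T (2 * T) :=
        ((c1.mul c3).mul hWc).intervalIntegrable _ _
      simp only [hG]
      rw [intervalIntegral.integral_add i1 i2]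
      linarith
    have hcont : Continuous fun w : ℝ => ∫ t in T..(2 * T), G t w :=
      intervalIntegral.continuous_parametric_intervalIntegral_of_continuous' (f := fun w t => G t w) hc' T (2 * T)
    have h6 := intervalIntegral.integral_mono_on (μ := volume) hab (hcont.intervalIntegrable a b)
      ((continuous_const (y := 2 * (C * T * Real.exp (-(l : ℝ)) * (x ^ 2 * Q)))).intervalIntegrable a b) hb'
    rw [intervalIntegral.integral_const, smul_eq_mul] at h6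
    exact h6
  -- the sum
  have hLc : Continuous fun t : ℝ => fz γ (t + u) * Hz γ a b (t + u) ^ (q - 1) :=
    (hfc.comp huc).mul ((hHc.comp huc).rpow_const fun _ => Or.inr (by linarith))
  have c1 : Continuous fun t : ℝ => fz γ (t + u) := hfc.comp huc
  have c2 : Continuous fun t : ℝ => Hz γ a b (t + u) := hHc.comp huc
  have hRc : ∀ l, Continuous fun t : ℝ => CP * s ^ (q - 1) * (fz γ (t + u) * W1 E κ' γ u q l t) +
        CP * s ^ (q - 2) * (fz γ (t + u) * Hz γ a b (t + u) * W2 E κ' γ u q l t) := fun l =>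
    (continuous_const.mul (c1.mul (W1_cont E κ' γ u q l))).add (continuous_const.mul ((c1.mul c2).mul (W2_cont E κ' γ u q l)))
  have h7 : ∫ t in T..(2 * T), fz γ (t + u) * Hz γ a b (t + u) ^ (q - 1) ≤
      ∑ l ∈ Finset.range (JB E + 1), (CP * s ^ (q - 1) * (C * T * Real.exp (-(l : ℝ)) * (x * Q)) +
        CP * s ^ (q - 2) * ((b - a) * (2 * (C * T * Real.exp (-(l : ℝ)) * (x ^ 2 * Q))))) := by
    refine (intervalIntegral.integral_mono_on (by linarith) (hLc.intervalIntegrable _ _)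
      ((continuous_finsetSum _ fun l _ => hRc l).intervalIntegrable _ _) fun t _ => hpt t).trans ?_
    rw [intervalIntegral.integral_finsetSum fun l _ => (hRc l).intervalIntegrable _ _]
    refine Finset.sum_le_sum fun l hl => ?_
    have i1 : IntervalIntegrable (fun t => CP * s ^ (q - 1) * (fz γ (t + u) * W1 E κ' γ u q l t)) volume T (2 * T) :=
      (continuous_const.mul (c1.mul (W1_cont E κ' γ u q l))).intervalIntegrable _ _
    have i2 : IntervalIntegrable (fun t => CP * s ^ (q - 2) * (fz γ (t + u) * Hz γ a b (t + u) * W2 E κ' γ u q l t)) volume T (2 * T) :=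
      (continuous_const.mul ((c1.mul c2).mul (W2_cont E κ' γ u q l))).intervalIntegrable _ _
    rw [intervalIntegral.integral_add i1 i2, intervalIntegral.integral_const_mul, intervalIntegral.integral_const_mul]
    exact add_le_add (mul_le_mul_of_nonneg_left (hI1 l hl) (by positivity)) (mul_le_mul_of_nonneg_left (hI2 l hl) (by positivity))
  refine h7.trans ?_
  have h8 : ∑ l ∈ Finset.range (JB E + 1), (CP * s ^ (q - 1) * (C * T * Real.exp (-(l : ℝ)) * (x * Q)) +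
        CP * s ^ (q - 2) * ((b - a) * (2 * (C * T * Real.exp (-(l : ℝ)) * (x ^ 2 * Q))))) =
      CP * C * T * Q * (s ^ (q - 1) * x + 2 * (b - a) * s ^ (q - 2) * x ^ 2) * ∑ l ∈ Finset.range (JB E + 1), Real.exp (-(l : ℝ)) := by
    rw [Finset.mul_sum]
    exact Finset.sum_congr rfl fun l _ => by ring
  rw [h8]
  have h9 : s ^ (q - 1) * x = x ^ q * E ^ (1 - q) := by
    rw [hs, Real.div_rpow hx0.le hEp.le]
    have e1 : x ^ (q - 1) * x = x ^ q := by
      rw [← Real.rpow_add_one hx0.ne']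
      congr 1
      ring
    have e2 : E ^ (1 - q) = (E ^ (q - 1))⁻¹ := by
      rw [← Real.rpow_neg hEp.le]
      congr 1
      ring
    rw [e2, ← e1]
    field_simp
  have h10 : (b - a) * s ^ (q - 2) * x ^ 2 = ((b - a) * E) * (x ^ q * E ^ (1 - q)) := by
    rw [hs, Real.div_rpow hx0.le hEp.le]
    have e1 : x ^ (q - 2) * x ^ 2 = x ^ q := by
      have := Real.rpow_add hx0 (q - 2) 2
      rw [Real.rpow_two] at this
      rw [← this]
      congr 1
      ring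
    have e2 : E ^ (1 - q) * E = (E ^ (q - 2))⁻¹ := by
      rw [← Real.rpow_add_one hEp.ne', ← Real.rpow_neg hEp.le]
      congr 1
      ring
    calc (b - a) * (x ^ (q - 2) / E ^ (q - 2)) * x ^ 2 = (b - a) * (x ^ (q - 2) * x ^ 2) * (E ^ (q - 2))⁻¹ := by
          rw [div_eq_mul_inv]; ring
      _ = (b - a) * x ^ q * (E ^ (1 - q) * E) := by rw [e1, e2]
      _ = _ := by ring
  have h11 : s ^ (q - 1) * x + 2 * (b - a) * s ^ (q - 2) * x ^ 2 ≤ (1 + 2 * K) * (x ^ q * E ^ (1 - q)) := by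
    have e1 : s ^ (q - 1) * x + 2 * (b - a) * s ^ (q - 2) * x ^ 2 = (1 + 2 * ((b - a) * E)) * (x ^ q * E ^ (1 - q)) := by
      rw [h9]
      have : 2 * (b - a) * s ^ (q - 2) * x ^ 2 = 2 * ((b - a) * s ^ (q - 2) * x ^ 2) := by ring
      rw [this, h10]
      ring
    rw [e1]
    apply mul_le_mul_of_nonneg_right _ (by positivity)
    linarith
  have h12 : x ^ q = Real.exp (r * (γ ^ 2 / 4 * q)) := by
    rw [hx, ← Real.exp_mul]
    congr 1
    ring
  have h13 : E ^ (1 - q) * Q = E ^ (q ^ 2 * γ ^ 2 / 4 - q + 1) := by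
    rw [hQ, ← Real.rpow_add hEp]
    congr 1
    ring
  have hba : 0 ≤ b - a := by linarith
  calc CP * C * T * Q * (s ^ (q - 1) * x + 2 * (b - a) * s ^ (q - 2) * x ^ 2) * ∑ l ∈ Finset.range (JB E + 1), Real.exp (-(l : ℝ)) ≤
      CP * C * T * Q * ((1 + 2 * K) * (x ^ q * E ^ (1 - q))) * 2 := by
        have g := geo_exp (JB E + 1)
        have : 0 ≤ ∑ l ∈ Finset.range (JB E + 1), Real.exp (-(l : ℝ)) := Finset.sum_nonneg fun l _ => (Real.exp_pos _).le
        gcongr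
    _ = (CP * (2 * C) * (1 + 2 * K) * T) * (x ^ q * (E ^ (1 - q) * Q)) := by ring
    _ ≤ (CP * (4 * C) * (1 + K) * T) * (x ^ q * (E ^ (1 - q) * Q)) := by
        apply mul_le_mul_of_nonneg_right _ (by positivity)
        have : 0 ≤ CP * C * T := by positivity
        nlinarith
    _ = _ := by rw [h12, h13]

end

end Pool.Agent.H469.F4
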