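import Pool.Agent.H469.F4.M8

set_option autoImplicit false

/-!
# Upper bounds for the moments of the local moments
-/

namespace Pool.Agent.H469.F4

open Filter Topology MeasureTheory Complex Pool.Agent.Q97.UM

noncomputable section

theorem sum_rpow_le {p : ℝ} (hp0 : 0 < p) (hp1 : p ≤ 1) (s : Finset ℕ) (x : ℕ → ℝ) (hx : ∀ i ∈ s, 0 ≤ x i) :
    (∑ i ∈ s, x i) ^ p ≤ ∑ i ∈ s, x i ^ p := by
  classical
  induction s using Finset.induction_on with
  | empty => simp [Real.zero_rpow hp0.ne']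
  | insert i s hi ih =>
    rw [Finset.sum_insert hi, Finset.sum_insert hi]
    have hx' : ∀ j ∈ s, 0 ≤ x j := fun j hj => hx j (Finset.mem_insert_of_mem hj)
    exact (Real.rpow_add_le_add_rpow (hx i (Finset.mem_insert_self i s)) (Finset.sum_nonneg hx') hp0.le hp1).trans
      (add_le_add le_rfl (ih hx'))

/-- the boundaries of the rings -/
def bnd (D : ℝ) (m n i : ℕ) : ℝ := if i = 0 then 0 else if n ≤ i then 1 else Real.exp ((m : ℝ) + i - 1) / D

theorem Hz_split {γ : ℝ} (hγ : 0 ≤ γ) (D : ℝ) (m n : ℕ) (hn : n ≠ 0) (τ : ℝ) :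
    Hz γ 0 1 τ = ∑ i ∈ Finset.range n, Hz γ (bnd D m n i) (bnd D m n (i + 1)) τ := by
  have hc : Continuous fun w : ℝ => fz γ (τ + w) + fz γ (τ - w) :=
    ((fz_cont hγ).comp (by fun_prop)).add ((fz_cont hγ).comp (by fun_prop))
  unfold Hz
  rw [intervalIntegral.sum_integral_adjacent_intervals fun k _ => hc.intervalIntegrable _ _]
  have h0 : bnd D m n 0 = 0 := by unfold bnd; simp
  have h1 : bnd D m n n = 1 := by unfold bnd; rw [if_neg hn, if_pos le_rfl]
  rw [h0, h1]

/-- the whole neighbourhood -/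
theorem all_rings {γ q : ℝ} (hγ0 : 0 < γ) (hγ2 : γ ≤ 2) (hq1 : 1 < q) (hq2 : q ≤ 2) (hne : q * γ ^ 2 ≠ 4) : ∃ C : ℝ, 0 ≤ C ∧
    ∀ᶠ T : ℝ in atTop, ∀ u : ℝ, |u| ≤ T / 4 → ∫ t in T..(2 * T), fz γ (t + u) * Hz γ 0 1 (t + u) ^ (q - 1) ≤
      C * T * Real.log T ^ (max (q * γ ^ 2 / 4) (q ^ 2 * γ ^ 2 / 4 - q + 1)) := by
  obtain ⟨δ, C, E₀, m₀, hδ, hδ1, hC, hE₀, hR⟩ := one_ring
  obtain ⟨η, hη⟩ : ∃ η : ℝ, η = (q - 1) * (q * γ ^ 2 / 4 - 1) := ⟨_, rfl⟩
  have hη0 : η ≠ 0 := by
    rw [hη]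
    apply mul_ne_zero (by linarith)
    intro h
    apply hne
    linarith
  obtain ⟨Q, hQ⟩ : ∃ Q : ℝ, Q = q ^ 2 * γ ^ 2 / 4 - q + 1 := ⟨_, rfl⟩
  have hQη : q * γ ^ 2 / 4 = Q - η := by rw [hQ, hη]; ring
  rw [hQη, ← hQ]
  obtain ⟨g, hg⟩ : ∃ g : ℝ, g = 1 / (1 - Real.exp (-|η|)) := ⟨_, rfl⟩
  have hexp1 : Real.exp (-|η|) < 1 := by
    rw [Real.exp_lt_one_iff]
    have := abs_pos.2 hη0
    linarith
  have hg0 : 0 ≤ g := by
    rw [hg]
    have : 0 < 1 - Real.exp (-|η|) := by linarith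
    positivity
  have hgeo : ∀ n : ℕ, ∑ i ∈ Finset.range n, Real.exp (-|η|) ^ i ≤ g := by
    intro n
    rw [hg, one_div]
    have hs := summable_geometric_of_lt_one (Real.exp_pos (-|η|)).le hexp1
    rw [← tsum_geometric_of_lt_one (Real.exp_pos (-|η|)).le hexp1]
    exact hs.sum_le_tsum _ fun i _ => by positivity
  refine ⟨C * (1 + 3 * E₀) * g, by positivity, ?_⟩
  have hD1 : ∀ᶠ T : ℝ in atTop, E₀ * Real.exp m₀ ≤ δ * Real.log T :=
    (Real.tendsto_log_atTop.const_mul_atTop hδ).eventually_ge_atTop _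
  filter_upwards [hR, hD1, eventually_ge_atTop (16 : ℝ)] with T hR hD1 hT16 u hu
  obtain ⟨D, hDd⟩ : ∃ D : ℝ, D = δ * Real.log T := ⟨_, rfl⟩
  rw [← hDd] at hR hD1
  have hT0 : 0 < T := by linarith
  have hL0 : 0 < Real.log T := Real.log_pos (by linarith)
  have hD0 : 0 < D := lt_of_lt_of_le (by positivity) hD1
  have hE0p : 0 < E₀ := by linarith
  have hDL : D ≤ Real.log T := by
    rw [hDd]
    nlinarith
  -- the number of the last ring
  obtain ⟨R, hRd⟩ : ∃ R : ℕ, R = ⌊Real.log (D / E₀)⌋₊ := ⟨_, rfl⟩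
  have hlog0 : (m₀ : ℝ) ≤ Real.log (D / E₀) := by
    rw [Real.le_log_iff_exp_le (by positivity), le_div_iff₀ hE0p]
    linarith
  have hm0R : (0 : ℝ) ≤ m₀ := Nat.cast_nonneg _
  have hR1 : (R : ℝ) ≤ Real.log (D / E₀) := by
    rw [hRd]
    exact Nat.floor_le (hm0R.trans hlog0)
  have hR2 : Real.log (D / E₀) < R + 1 := by
    rw [hRd]
    exact Nat.lt_floor_add_one _
  have hmR : m₀ ≤ R := by
    rw [hRd]
    exact Nat.le_floor hlog0
  have hER : Real.exp R ≤ D / E₀ := by
    rw [← Real.le_log_iff_exp_le (by positivity)]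
    exact hR1
  have hER2 : D < 3 * E₀ * Real.exp R := by
    have h1 : D / E₀ < Real.exp (R + 1) := by
      rw [← Real.log_lt_iff_lt_exp (by positivity)]
      exact hR2
    rw [div_lt_iff₀ hE0p, Real.exp_add] at h1
    have h2 := Real.exp_one_lt_d9
    have h3 := Real.exp_pos (R : ℝ)
    have h4 : Real.exp R * Real.exp 1 * E₀ ≤ Real.exp R * 3 * E₀ := by gcongr; linarith
    linarith
  obtain ⟨n, hn⟩ : ∃ n : ℕ, n = R - m₀ + 1 := ⟨_, rfl⟩
  have hn0 : n ≠ 0 := by omega
  have hexpR : Real.exp R ≤ D := hER.trans (div_le_self hD0.le hE₀)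
  -- the rings
  have hbnd : ∀ i, i < n → 0 ≤ bnd D m₀ n i ∧ bnd D m₀ n i ≤ bnd D m₀ n (i + 1) ∧ bnd D m₀ n (i + 1) ≤ 1 ∧
      (bnd D m₀ n (i + 1) - bnd D m₀ n i) * (D * Real.exp (-((m₀ + i : ℕ) : ℝ))) ≤ 3 * E₀ ∧
      (m₀ + i = m₀ ∨ Real.exp (-1) ≤ bnd D m₀ n i * (D * Real.exp (-((m₀ + i : ℕ) : ℝ)))) := by
    intro i hi
    have hle1 : ∀ j : ℕ, j < n → Real.exp ((m₀ : ℝ) + j - 1) / D ≤ 1 := by
      intro j hj
      rw [div_le_one hD0]
      refine le_trans (Real.exp_le_exp.2 ?_) hexpR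
      have : ((m₀ + j : ℕ) : ℝ) ≤ ((R : ℕ) : ℝ) := by
        have : m₀ + j ≤ R := by omega
        exact_mod_cast this
      push_cast at this
      linarith
    have hnn : ∀ j : ℕ, 0 ≤ bnd D m₀ n j := by
      intro j
      unfold bnd
      split_ifs <;> positivity
    have hle : ∀ j : ℕ, bnd D m₀ n j ≤ 1 := by
      intro j
      unfold bnd
      split_ifs with h1 h2
      · norm_num
      · exact le_rfl
      · exact hle1 j (by omega)
    have hEi : 0 < D * Real.exp (-((m₀ + i : ℕ) : ℝ)) := by positivity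
    refine ⟨hnn i, ?_, hle (i + 1), ?_, ?_⟩
    · by_cases h0 : i = 0
      · subst h0
        have : bnd D m₀ n 0 = 0 := by unfold bnd; simp
        rw [this]
        exact hnn 1
      · by_cases h1 : n ≤ i + 1
        · have : bnd D m₀ n (i + 1) = 1 := by unfold bnd; rw [if_neg (by omega), if_pos h1]
          rw [this]
          exact hle i
        · unfold bnd
          rw [if_neg h0, if_neg (by omega), if_neg (by omega), if_neg h1]
          apply div_le_div_of_nonneg_right _ hD0.le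
          apply Real.exp_le_exp.2
          push_cast
          linarith
    · have h3 : bnd D m₀ n (i + 1) * (D * Real.exp (-((m₀ + i : ℕ) : ℝ))) ≤ 3 * E₀ := by
        by_cases h1 : n ≤ i + 1
        · have e1 : bnd D m₀ n (i + 1) = 1 := by unfold bnd; rw [if_neg (by omega), if_pos h1]
          rw [e1, one_mul]
          have e2 : m₀ + i = R := by omega
          rw [e2]
          have e3 : Real.exp R * Real.exp (-(R : ℝ)) = 1 := by rw [← Real.exp_add]; simp
          calc D * Real.exp (-(R : ℝ)) ≤ 3 * E₀ * Real.exp R * Real.exp (-(R : ℝ)) :=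
                mul_le_mul_of_nonneg_right hER2.le (Real.exp_pos _).le
            _ = 3 * E₀ := by rw [mul_assoc, e3, mul_one]
        · have e1 : bnd D m₀ n (i + 1) = Real.exp ((m₀ : ℝ) + i) / D := by
            unfold bnd
            rw [if_neg (by omega), if_neg h1]
            congr 2
            push_cast
            ring
          rw [e1]
          have e3 : Real.exp ((m₀ : ℝ) + i) / D * (D * Real.exp (-((m₀ + i : ℕ) : ℝ))) = 1 := by
            have e4 : Real.exp ((m₀ : ℝ) + i) * Real.exp (-((m₀ + i : ℕ) : ℝ)) = 1 := by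
              rw [← Real.exp_add]
              push_cast
              simp
            calc Real.exp ((m₀ : ℝ) + i) / D * (D * Real.exp (-((m₀ + i : ℕ) : ℝ))) =
                (Real.exp ((m₀ : ℝ) + i) * Real.exp (-((m₀ + i : ℕ) : ℝ))) * (D / D) := by ring
              _ = 1 := by rw [e4, div_self hD0.ne', mul_one]
          rw [e3]
          linarith
      have h4 : 0 ≤ bnd D m₀ n i * (D * Real.exp (-((m₀ + i : ℕ) : ℝ))) := mul_nonneg (hnn i) hEi.le
      linarith
    · by_cases h0 : i = 0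
      · left
        omega
      · right
        have e1 : bnd D m₀ n i = Real.exp ((m₀ : ℝ) + i - 1) / D := by
          unfold bnd
          rw [if_neg h0, if_neg (by omega)]
        rw [e1]
        have e4 : Real.exp ((m₀ : ℝ) + i - 1) * Real.exp (-((m₀ + i : ℕ) : ℝ)) = Real.exp (-1) := by
          rw [← Real.exp_add]
          congr 1
          push_cast
          ring
        refine le_of_eq ?_
        calc Real.exp (-1) = (Real.exp ((m₀ : ℝ) + i - 1) * Real.exp (-((m₀ + i : ℕ) : ℝ))) * (D / D) := by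
              rw [e4, div_self hD0.ne', mul_one]
          _ = _ := by ring
  -- one ring
  have hring : ∀ i ∈ Finset.range n, ∫ t in T..(2 * T), fz γ (t + u) * Hz γ (bnd D m₀ n i) (bnd D m₀ n (i + 1)) (t + u) ^ (q - 1) ≤
      C * (1 + 3 * E₀) * T * (D ^ Q * Real.exp (-η * ((m₀ + i : ℕ) : ℝ))) := by
    intro i hi
    rw [Finset.mem_range] at hi
    obtain ⟨h1, h2, h3, h4, h5⟩ := hbnd i hi
    have hEi : E₀ ≤ D * Real.exp (-((m₀ + i : ℕ) : ℝ)) := by
      have e1 : ((m₀ + i : ℕ) : ℝ) ≤ R := by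
        have : m₀ + i ≤ R := by omega
        exact_mod_cast this
      have e2 : E₀ * Real.exp R ≤ D := by
        rw [le_div_iff₀ hE0p] at hER
        linarith
      have e3 : Real.exp R * Real.exp (-(R : ℝ)) = 1 := by rw [← Real.exp_add]; simp
      calc E₀ = E₀ * Real.exp R * Real.exp (-(R : ℝ)) := by rw [mul_assoc, e3, mul_one]
        _ ≤ D * Real.exp (-(R : ℝ)) := mul_le_mul_of_nonneg_right e2 (Real.exp_pos _).le
        _ ≤ _ := by
            apply mul_le_mul_of_nonneg_left _ hD0.le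
            apply Real.exp_le_exp.2
            linarith
    have h6 := hR (m₀ + i) (by omega) hEi γ q hγ0.le hγ2 hq1.le hq2 u hu (bnd D m₀ n i) (bnd D m₀ n (i + 1)) (3 * E₀) h1 h2 h3
      (by positivity) h4 h5
    refine h6.trans (le_of_eq ?_)
    congr 1
    rw [← hQ, Real.mul_rpow hD0.le (Real.exp_pos _).le, ← Real.exp_mul]
    have e4 : Real.exp (((m₀ + i : ℕ) : ℝ) * (γ ^ 2 / 4 * q)) * (D ^ Q * Real.exp (-((m₀ + i : ℕ) : ℝ) * Q)) =
        D ^ Q * (Real.exp (((m₀ + i : ℕ) : ℝ) * (γ ^ 2 / 4 * q)) * Real.exp (-((m₀ + i : ℕ) : ℝ) * Q)) := by ring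
    rw [e4, ← Real.exp_add]
    congr 2
    have e5 : γ ^ 2 / 4 * q = Q - η := by linarith
    rw [e5]
    ring
  -- the sum over the rings
  have hfc := fz_cont hγ0.le
  have huc : Continuous fun t : ℝ => t + u := by fun_prop
  have hcH : ∀ a b : ℝ, Continuous fun t : ℝ => fz γ (t + u) * Hz γ a b (t + u) ^ (q - 1) := fun a b =>
    (hfc.comp huc).mul (((Hz_cont hγ0.le a b).comp huc).rpow_const fun _ => Or.inr (by linarith))
  have hsum : ∫ t in T..(2 * T), fz γ (t + u) * Hz γ 0 1 (t + u) ^ (q - 1) ≤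
      ∑ i ∈ Finset.range n, C * (1 + 3 * E₀) * T * (D ^ Q * Real.exp (-η * ((m₀ + i : ℕ) : ℝ))) := by
    have h1 : ∀ t ∈ Set.Icc T (2 * T), fz γ (t + u) * Hz γ 0 1 (t + u) ^ (q - 1) ≤
        ∑ i ∈ Finset.range n, fz γ (t + u) * Hz γ (bnd D m₀ n i) (bnd D m₀ n (i + 1)) (t + u) ^ (q - 1) := by
      intro t _
      rw [Hz_split hγ0.le D m₀ n hn0, ← Finset.mul_sum]
      apply mul_le_mul_of_nonneg_left _ (fz_nonneg _ _)
      exact sum_rpow_le (by linarith : 0 < q - 1) (by linarith) _ _ fun i hi => Hz_nonneg γ (hbnd i (Finset.mem_range.1 hi)).2.1 _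
    refine (intervalIntegral.integral_mono_on (by linarith) ((hcH 0 1).intervalIntegrable _ _)
      ((continuous_finsetSum _ fun i _ => hcH (bnd D m₀ n i) (bnd D m₀ n (i + 1))).intervalIntegrable _ _) h1).trans ?_
    rw [intervalIntegral.integral_finsetSum fun i _ => (hcH (bnd D m₀ n i) (bnd D m₀ n (i + 1))).intervalIntegrable _ _]
    exact Finset.sum_le_sum hring
  refine hsum.trans ?_
  rw [← Finset.mul_sum, ← Finset.mul_sum]
  have hL1 : 1 ≤ Real.log T := by
    have : 1 ≤ D := by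
      have h1 : 1 ≤ Real.exp (m₀ : ℝ) := Real.one_le_exp hm0R
      nlinarith
    linarith
  have hfin : D ^ Q * ∑ i ∈ Finset.range n, Real.exp (-η * ((m₀ + i : ℕ) : ℝ)) ≤ g * Real.log T ^ (max (Q - η) Q) := by
    rcases lt_or_gt_of_ne hη0 with hneg | hpos
    · -- the exponential grows
      have h1 : ∑ i ∈ Finset.range n, Real.exp (-η * ((m₀ + i : ℕ) : ℝ)) ≤ D ^ (-η) * g := by
        rw [← Finset.sum_range_reflect]
        calc ∑ j ∈ Finset.range n, Real.exp (-η * ((m₀ + (n - 1 - j) : ℕ) : ℝ)) ≤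
            ∑ j ∈ Finset.range n, D ^ (-η) * Real.exp (-|η|) ^ j := by
              refine Finset.sum_le_sum fun j hj => ?_
              have hj' := Finset.mem_range.1 hj
              have e1 : ((m₀ + (n - 1 - j) : ℕ) : ℝ) = (R : ℝ) - j := by
                have : m₀ + (n - 1 - j) + j = R := by omega
                have h2 : ((m₀ + (n - 1 - j) : ℕ) : ℝ) + j = R := by exact_mod_cast this
                linarith
              rw [e1, ← Real.exp_nat_mul, abs_of_neg hneg]
              have e2 : -η * ((R : ℝ) - j) = R * (-η) + (j : ℝ) * (- -η) := by ring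
              rw [e2, Real.exp_add, Real.exp_mul]
              apply mul_le_mul_of_nonneg_right _ (Real.exp_pos _).le
              exact Real.rpow_le_rpow (Real.exp_pos _).le hexpR (by linarith)
          _ = D ^ (-η) * ∑ j ∈ Finset.range n, Real.exp (-|η|) ^ j := by rw [Finset.mul_sum]
          _ ≤ D ^ (-η) * g := mul_le_mul_of_nonneg_left (hgeo n) (by positivity)
      have hQ0 : 0 ≤ Q - η := by rw [← hQη]; positivity
      calc D ^ Q * ∑ i ∈ Finset.range n, Real.exp (-η * ((m₀ + i : ℕ) : ℝ)) ≤ D ^ Q * (D ^ (-η) * g) :=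
            mul_le_mul_of_nonneg_left h1 (by positivity)
        _ = g * D ^ (Q - η) := by
            rw [← mul_assoc, ← Real.rpow_add hD0, mul_comm, sub_eq_add_neg]
        _ ≤ g * Real.log T ^ (Q - η) := mul_le_mul_of_nonneg_left (Real.rpow_le_rpow hD0.le hDL hQ0) hg0
        _ ≤ g * Real.log T ^ (max (Q - η) Q) := by
            apply mul_le_mul_of_nonneg_left _ hg0
            exact Real.rpow_le_rpow_of_exponent_le hL1 (le_max_left _ _)
    · have h1 : ∑ i ∈ Finset.range n, Real.exp (-η * ((m₀ + i : ℕ) : ℝ)) ≤ g := by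
        refine le_trans (Finset.sum_le_sum fun i _ => ?_) (hgeo n)
        rw [← Real.exp_nat_mul, abs_of_pos hpos]
        apply Real.exp_le_exp.2
        push_cast
        have : 0 ≤ η * m₀ := by positivity
        nlinarith
      have hQ0 : 0 ≤ Q := by
        have : 0 ≤ q * γ ^ 2 / 4 := by positivity
        linarith
      calc D ^ Q * ∑ i ∈ Finset.range n, Real.exp (-η * ((m₀ + i : ℕ) : ℝ)) ≤ D ^ Q * g :=
            mul_le_mul_of_nonneg_left h1 (by positivity)
        _ = g * D ^ Q := mul_comm _ _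
        _ ≤ g * Real.log T ^ Q := mul_le_mul_of_nonneg_left (Real.rpow_le_rpow hD0.le hDL hQ0) hg0
        _ ≤ g * Real.log T ^ (max (Q - η) Q) := by
            apply mul_le_mul_of_nonneg_left _ hg0
            exact Real.rpow_le_rpow_of_exponent_le hL1 (le_max_right _ _)
  calc C * (1 + 3 * E₀) * T * (D ^ Q * ∑ i ∈ Finset.range n, Real.exp (-η * ((m₀ + i : ℕ) : ℝ))) ≤
      C * (1 + 3 * E₀) * T * (g * Real.log T ^ (max (Q - η) Q)) := mul_le_mul_of_nonneg_left hfin (by positivity)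
    _ = _ := by ring

/-- the local moment -/
def Xm (γ x t : ℝ) : ℝ := ∫ v in x..(x + 1), fz γ (t + v)

theorem Xm_cont {γ : ℝ} (hγ : 0 ≤ γ) (x : ℝ) : Continuous (Xm γ x) := by
  unfold Xm
  apply intervalIntegral.continuous_parametric_intervalIntegral_of_continuous'
  exact (fz_cont hγ).comp (continuous_fst.add continuous_snd)

theorem Xm_nonneg (γ x t : ℝ) : 0 ≤ Xm γ x t := intervalIntegral.integral_nonneg (by linarith) fun _ _ => fz_nonneg _ _

theorem Xm_le_Hz {γ : ℝ} (hγ : 0 ≤ γ) {x u : ℝ} (hu : u ∈ Set.Icc x (x + 1)) (t : ℝ) : Xm γ x t ≤ Hz γ 0 1 (t + u) := by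
  have hc : Continuous fun v : ℝ => fz γ (t + v) := (fz_cont hγ).comp (by fun_prop)
  have c1 : Continuous fun w : ℝ => fz γ (t + u + w) := (fz_cont hγ).comp (by fun_prop)
  have c2 : Continuous fun w : ℝ => fz γ (t + u - w) := (fz_cont hγ).comp (by fun_prop)
  have h1 : Hz γ 0 1 (t + u) = ∫ v in (u - 1)..(u + 1), fz γ (t + v) := by
    unfold Hz
    rw [intervalIntegral.integral_add (c1.intervalIntegrable _ _) (c2.intervalIntegrable _ _)]
    have e1 : ∫ w in (0 : ℝ)..1, fz γ (t + u + w) = ∫ v in u..(u + 1), fz γ (t + v) := by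
      have := intervalIntegral.integral_comp_add_left (fun v => fz γ (t + v)) u (a := 0) (b := 1)
      rw [add_zero] at this
      rw [← this]
      exact intervalIntegral.integral_congr fun w _ => by simp only [add_assoc]
    have e2 : ∫ w in (0 : ℝ)..1, fz γ (t + u - w) = ∫ v in (u - 1)..u, fz γ (t + v) := by
      have := intervalIntegral.integral_comp_sub_left (fun v => fz γ (t + v)) u (a := 0) (b := 1)
      rw [sub_zero] at this
      rw [← this]
      exact intervalIntegral.integral_congr fun w _ => by simp only [add_sub_assoc]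
    rw [e1, e2, add_comm, intervalIntegral.integral_add_adjacent_intervals (hc.intervalIntegrable _ _) (hc.intervalIntegrable _ _)]
  rw [h1]
  unfold Xm
  refine intervalIntegral.integral_mono_interval (by linarith [hu.2]) (by linarith) (by linarith [hu.1])
    (Eventually.of_forall fun _ => fz_nonneg _ _) (hc.intervalIntegrable _ _)

/-- **the upper bound, `1 < q ≤ 2`, `γ ≤ 2`** -/
theorem core_upper {γ q : ℝ} (hγ0 : 0 < γ) (hγ2 : γ ≤ 2) (hq1 : 1 < q) (hq2 : q ≤ 2) (hne : q * γ ^ 2 ≠ 4) : ∃ C : ℝ, 0 ≤ C ∧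
    ∀ᶠ T : ℝ in atTop, ∀ x : ℝ, |x| ≤ T / 8 → ∫ t in T..(2 * T), Xm γ x t ^ q ≤
      C * T * Real.log T ^ (max (q * γ ^ 2 / 4) (q ^ 2 * γ ^ 2 / 4 - q + 1)) := by
  obtain ⟨C, hC, hA⟩ := all_rings hγ0 hγ2 hq1 hq2 hne
  refine ⟨C, hC, ?_⟩
  filter_upwards [hA, eventually_ge_atTop (16 : ℝ)] with T hA hT16 x hx
  have hfc := fz_cont hγ0.le
  obtain ⟨B, hB⟩ : ∃ B : ℝ, B = C * T * Real.log T ^ (max (q * γ ^ 2 / 4) (q ^ 2 * γ ^ 2 / 4 - q + 1)) := ⟨_, rfl⟩
  rw [← hB] at hA ⊢
  obtain ⟨g, hg⟩ : ∃ g : ℝ → ℝ, g = fun τ => fz γ τ * Hz γ 0 1 τ ^ (q - 1) := ⟨_, rfl⟩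
  have hgc : Continuous g := by
    rw [hg]
    exact hfc.mul ((Hz_cont hγ0.le 0 1).rpow_const fun _ => Or.inr (by linarith))
  have hpt : ∀ t, Xm γ x t ^ q ≤ ∫ u in x..(x + 1), g (t + u) := by
    intro t
    have hX0 := Xm_nonneg γ x t
    have e1 : Xm γ x t ^ q = Xm γ x t * Xm γ x t ^ (q - 1) := by
      rcases hX0.lt_or_eq with h | h
      · rw [← Real.rpow_one_add' hX0 (by linarith)]
        congr 1
        ring
      · rw [← h, Real.zero_rpow (by linarith), Real.zero_rpow (by linarith), zero_mul]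
    rw [e1]
    have e2 : Xm γ x t * Xm γ x t ^ (q - 1) = ∫ u in x..(x + 1), fz γ (t + u) * Xm γ x t ^ (q - 1) := by
      rw [intervalIntegral.integral_mul_const]
      rfl
    rw [e2]
    have c1 : Continuous fun u : ℝ => fz γ (t + u) * Xm γ x t ^ (q - 1) := (hfc.comp (by fun_prop)).mul continuous_const
    have c2 : Continuous fun u : ℝ => g (t + u) := hgc.comp (by fun_prop)
    refine intervalIntegral.integral_mono_on (by linarith) (c1.intervalIntegrable _ _) (c2.intervalIntegrable _ _) fun u hu => ?_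
    rw [hg]
    simp only
    apply mul_le_mul_of_nonneg_left _ (fz_nonneg _ _)
    exact Real.rpow_le_rpow hX0 (Xm_le_Hz hγ0.le hu t) (by linarith)
  have hXc : Continuous fun t => Xm γ x t ^ q := (Xm_cont hγ0.le x).rpow_const fun _ => Or.inr (by linarith)
  have hGc : Continuous fun z : ℝ × ℝ => g (z.1 + z.2) := hgc.comp (continuous_fst.add continuous_snd)
  have hGi : Continuous fun t : ℝ => ∫ u in x..(x + 1), g (t + u) :=
    intervalIntegral.continuous_parametric_intervalIntegral_of_continuous' (f := fun t u => g (t + u)) hGc x (x + 1)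
  refine (intervalIntegral.integral_mono_on (by linarith) (hXc.intervalIntegrable _ _) (hGi.intervalIntegrable _ _) fun t _ => hpt t).trans ?_
  rw [swap_cont (F := fun t u => g (t + u)) hGc]
  have hGi2 : Continuous fun u : ℝ => ∫ t in T..(2 * T), g (t + u) :=
    intervalIntegral.continuous_parametric_intervalIntegral_of_continuous' (f := fun u t => g (t + u)) (hGc.comp continuous_swap) T (2 * T)
  have hx' := abs_le.1 hx
  have h3 : ∀ u ∈ Set.Icc x (x + 1), ∫ t in T..(2 * T), g (t + u) ≤ B := by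
    intro u hu
    have h4 := hA u (abs_le.2 ⟨by linarith [hu.1, hx'.1], by linarith [hu.2, hx'.2]⟩)
    rw [hg]
    exact h4
  have h5 := intervalIntegral.integral_mono_on (μ := volume) (by linarith : x ≤ x + 1) (hGi2.intervalIntegrable x (x + 1))
    ((continuous_const (y := B)).intervalIntegrable x (x + 1)) h3
  rw [intervalIntegral.integral_const, smul_eq_mul] at h5
  calc _ ≤ (x + 1 - x) * B := h5
    _ = B := by ring

end

end Pool.Agent.H469.F4
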