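import Pool.Agent.H469.F4.HM5

set_option autoImplicit false

/-!
# A lower bound for the mean square of a product of two different polynomials of blocks
-/

namespace Pool.Agent.H469.F4

open Filter Topology MeasureTheory Complex Pool.Agent.Q97.UM
open Pool.Agent.Q14.UM (mem_PB PB_disj)

noncomputable section

theorem qb_add (D : ℝ) (x x2 y y2 : ℕ → ℂ) (j n : ℕ) :
    qb D (fun p => x p + y p) (fun p => x2 p + y2 p) j n = qb D x x2 j n + qb D y y2 j n := by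
  unfold qb
  split_ifs <;> ring

theorem zf_add (D : ℝ) (x x2 y y2 : ℕ → ℂ) (j : ℕ) (t : ℝ) :
    zf D (fun p => x p + y p) (fun p => x2 p + y2 p) j t = zf D x x2 j t + zf D y y2 j t := by
  unfold zf dp
  rw [← Finset.sum_add_distrib]
  refine Finset.sum_congr rfl fun n _ => ?_
  rw [qb_add]
  ring

/-- small blocks: the polynomial is the exponential -/
theorem cmp_small {E κ'' : ℝ} (hE : 1 ≤ E) (hκ : 16 ≤ κ'') {a a2 : ℕ → ℂ} {t : ℝ}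
    (hz : ∀ j : ℕ, j < JB E → ‖zf E a a2 j t‖ ≤ (R9 κ'' j : ℝ) / 10) :
    1 / 2 * Mm E a a2 t ≤ ‖dp (M9 E κ'') (ebk E κ'' a a2 0 (JB E)) t‖ ∧
      ‖dp (M9 E κ'') (ebk E κ'' a a2 0 (JB E)) t‖ ≤ 2 * Mm E a a2 t := by
  rw [dp_ebk hE (by linarith)]
  have h1 : ∀ j : ℕ, 1 ≤ R9 κ'' j := by
    intro j
    have h2 : (1 : ℝ) ≤ (R9 κ'' j : ℝ) := by
      have := R9_ge (κ := κ'') (by linarith) j
      linarith
    exact_mod_cast h2
  have h2 := prod_TEx_sum (r := JB E) (R := fun j => R9 κ'' j) (z := fun j => zf E a a2 j t) (fun j _ => h1 j) hz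
    (sum_R9 hκ _)
  have h3 : ‖cexp (∑ j ∈ Finset.range (JB E), zf E a a2 j t)‖ = Mm E a a2 t := by
    rw [sum_zf hE, Complex.norm_exp, Mm]
  rw [h3] at h2
  exact h2

theorem Mm_add {E : ℝ} (hE : 1 ≤ E) (x x2 y y2 : ℕ → ℂ) (t : ℝ) :
    Mm E (fun p => x p + y p) (fun p => x2 p + y2 p) t = Mm E x x2 t * Mm E y y2 t := by
  have h1 : PA ⌊Real.exp E⌋₊ (fun p => x p + y p) (fun p => x2 p + y2 p) t = PA ⌊Real.exp E⌋₊ x x2 t + PA ⌊Real.exp E⌋₊ y y2 t := by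
    rw [← sum_zf hE, ← sum_zf hE, ← sum_zf hE, ← Finset.sum_add_distrib]
    exact Finset.sum_congr rfl fun j _ => zf_add E x x2 y y2 j t
  unfold Mm
  rw [h1, Complex.add_re, Real.exp_add]

/-- comparison of mean squares from a pointwise inequality, general index -/
theorem mv_compareG {ι : Type*} (s : Finset ι) {L0 L1 : ℕ} {f0 f1 : ℕ → ℂ} {Lg : ι → ℕ} {g : ι → (ℕ → ℂ)} {K : ℝ} (hK : 0 ≤ K)
    (h : ∀ t, ‖dp L0 f0 t‖ ^ 2 ≤ K * ‖dp L1 f1 t‖ ^ 2 + ∑ j ∈ s, ‖dp (Lg j) (g j) t‖ ^ 2) :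
    N2 L0 f0 ≤ 4 * (K * N2 L1 f1 + ∑ j ∈ s, N2 (Lg j) (g j)) := by
  have hlen : ∀ n : ℕ, ∀ᶠ V : ℝ in atTop, (n : ℝ) ≤ V ^ (1 / 4 : ℝ) := fun n =>
    (tendsto_rpow_atTop (by norm_num : (0 : ℝ) < 1 / 4)).eventually_ge_atTop _
  have hlenJ : ∀ᶠ V : ℝ in atTop, ∀ j ∈ s, ((Lg j : ℕ) : ℝ) ≤ V ^ (1 / 4 : ℝ) :=
    (Finset.eventually_all _).2 fun j _ => hlen (Lg j)
  obtain ⟨V, hV⟩ := ((hlen L0).and ((hlen L1).and (hlenJ.and (eventually_ge_atTop (16 : ℝ))))).exists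
  obtain ⟨hV0, hV1, hVJ, hV16⟩ := hV
  have hVp : 0 < V := by linarith
  obtain ⟨m1, -⟩ := Pool.Agent.Q84.UM.t_MVL V hV16 L0 hV0 f0
  obtain ⟨-, m2⟩ := Pool.Agent.Q84.UM.t_MVL V hV16 L1 hV1 f1
  have mj : ∀ j ∈ s, ∫ t in V..(2 * V), ‖dp (Lg j) (g j) t‖ ^ 2 ≤ 2 * V * N2 (Lg j) (g j) := fun j hj =>
    (Pool.Agent.Q84.UM.t_MVL V hV16 (Lg j) (hVJ j hj) (g j)).2
  have hc : ∀ (L : ℕ) (f : ℕ → ℂ), Continuous fun t => ‖dp L f t‖ ^ 2 := fun L f => (dpc' L f).norm.pow 2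
  have c1 : Continuous fun t => K * ‖dp L1 f1 t‖ ^ 2 := continuous_const.mul (hc L1 f1)
  have c2 : Continuous fun t => ∑ j ∈ s, ‖dp (Lg j) (g j) t‖ ^ 2 := continuous_finsetSum _ fun j _ => hc (Lg j) (g j)
  have c3 : Continuous fun t => K * ‖dp L1 f1 t‖ ^ 2 + ∑ j ∈ s, ‖dp (Lg j) (g j) t‖ ^ 2 := c1.add c2
  have i1 := intervalIntegral.integral_mono_on (μ := volume) (by linarith : V ≤ 2 * V) ((hc L0 f0).intervalIntegrable V (2 * V))
    (c3.intervalIntegrable V (2 * V)) fun t _ => h t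
  rw [intervalIntegral.integral_add (c1.intervalIntegrable _ _) (c2.intervalIntegrable _ _), intervalIntegral.integral_const_mul,
    intervalIntegral.integral_finsetSum fun j _ => (hc (Lg j) (g j)).intervalIntegrable _ _] at i1
  have i2 := Finset.sum_le_sum mj
  rw [← Finset.mul_sum] at i2
  have i3 : V / 2 * N2 L0 f0 ≤ K * (2 * V * N2 L1 f1) + 2 * V * ∑ j ∈ s, N2 (Lg j) (g j) := by
    calc V / 2 * N2 L0 f0 ≤ _ := m1
      _ ≤ _ := i1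
      _ ≤ _ := add_le_add (mul_le_mul_of_nonneg_left m2 hK) i2
  have i4 : (V / 2) * N2 L0 f0 ≤ (V / 2) * (4 * (K * N2 L1 f1 + ∑ j ∈ s, N2 (Lg j) (g j))) := by
    calc _ ≤ _ := i3
      _ = _ := by ring
  exact le_of_mul_le_mul_left i4 (by linarith)

theorem R9_mono {κ' κ'' : ℝ} (h : κ' ≤ κ'') (j : ℕ) : (R9 κ' j : ℝ) ≤ R9 κ'' j := by
  have : R9 κ' j ≤ R9 κ'' j := Nat.ceil_mono (mul_le_mul_of_nonneg_right h (Real.exp_pos _).le)
  exact_mod_cast this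

/-- **a lower bound for the mean square of a product** -/
theorem low_prod2 {B : ℝ} (hB : 1 ≤ B) : ∃ K c : ℝ, 16 ≤ K ∧ 0 < c ∧ ∀ (E κ' κ'' : ℝ) (x x2 y y2 : ℕ → ℂ), 1 ≤ E → K ≤ κ' → κ' ≤ κ'' →
    (∀ n, ‖x n‖ ≤ B) → (∀ n, ‖x2 n‖ ≤ B) → (∀ n, ‖y n‖ ≤ B) → (∀ n, ‖y2 n‖ ≤ B) →
    c * Real.exp (∑ p ∈ (Finset.Icc 1 ⌊Real.exp E⌋₊).filter Nat.Prime, ‖x p + y p‖ ^ 2 / p) ≤
      N2 (M9 E κ'' * M9 E κ') (cv (ebk E κ'' x x2 0 (JB E)) (ebk E κ' y y2 0 (JB E))) := by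
  obtain ⟨C₀, hC₀1, hC₀⟩ := Pool.Agent.Q198.UM.t_BM
  obtain ⟨κ₀, hκ₀, cE, CE, hcE, hCE, hEN⟩ := b_EN2 (2 * B) (by linarith)
  have hKP := KP_one (A := 2 * B) (C₀ := C₀) (by linarith)
  obtain ⟨K₁, hK₁, hpen⟩ := pen_small (η := 1 / (16 * KP (2 * B) C₀)) (by positivity)
  refine ⟨max 16 (max κ₀ K₁), cE / 512, le_max_left _ _, by positivity, ?_⟩
  intro E κ' κ'' x x2 y y2 hE hκ' hκ'' hx hx2 hy hy2
  have h16 : 16 ≤ κ' := (le_max_left _ _).trans hκ'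
  have hκ0 : κ₀ ≤ κ' := ((le_max_left _ _).trans (le_max_right _ _)).trans hκ'
  have hK1 : K₁ ≤ κ' := ((le_max_right _ _).trans (le_max_right _ _)).trans hκ'
  have hnorm : ∀ u v : ℕ → ℂ, (∀ n, ‖u n‖ ≤ B) → (∀ n, ‖v n‖ ≤ B) → ∀ n, ‖u n + v n‖ ≤ 2 * B := fun u v hu hv n =>
    (norm_add_le _ _).trans (by linarith [hu n, hv n])
  obtain ⟨f0, hf0⟩ : ∃ f : ℕ → ℂ, f = ebk E κ' (fun p => x p + y p) (fun p => x2 p + y2 p) 0 (JB E) := ⟨_, rfl⟩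
  have hlen0 : ∀ n, M9 E κ' < n → f0 n = 0 := by rw [hf0]; exact ebk_len hE (by linarith) _ _
  obtain ⟨xx, hxx⟩ : ∃ xx : Bool → ℕ → ℂ, xx = fun b => cond b x y := ⟨_, rfl⟩
  obtain ⟨zz, hzz⟩ : ∃ zz : Bool → ℕ → ℂ, zz = fun b => cond b x2 y2 := ⟨_, rfl⟩
  have hxxB : ∀ b n, ‖xx b n‖ ≤ 2 * B := by
    intro b n
    rw [hxx]
    cases b
    · exact (hy n).trans (by linarith)
    · exact (hx n).trans (by linarith)
  have hzzB : ∀ b n, ‖zz b n‖ ≤ 2 * B := by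
    intro b n
    rw [hzz]
    cases b
    · exact (hy2 n).trans (by linarith)
    · exact (hx2 n).trans (by linarith)
  have hdp := fun b : Bool => dp_pwc (κ' := κ') hE hlen0 (xx b) (zz b)
  choose Lp hLp1 hLp2 hLp3 hLp4 hLp5 using hdp
  have hlenA := ebk_len hE (by linarith : 1 ≤ κ'') x x2
  have hlenB := ebk_len hE (by linarith : 1 ≤ κ') y y2
  obtain ⟨F, hF⟩ : ∃ F : ℕ → ℂ, F = cv (ebk E κ'' x x2 0 (JB E)) (ebk E κ' y y2 0 (JB E)) := ⟨_, rfl⟩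
  have hdF : ∀ t, dp (M9 E κ'' * M9 E κ') F t = dp (M9 E κ'') (ebk E κ'' x x2 0 (JB E)) t *
      dp (M9 E κ') (ebk E κ' y y2 0 (JB E)) t := by
    intro t
    rw [hF, Pool.Agent.Q84.UM.t_DPM.1 _ _ _ _ t hlenA hlenB]
  rw [← hF]
  have hpt : ∀ t, ‖dp (M9 E κ') f0 t‖ ^ 2 ≤ 64 * ‖dp (M9 E κ'' * M9 E κ') F t‖ ^ 2 +
      ∑ i ∈ (Finset.univ : Finset Bool) ×ˢ Finset.range (JB E),
        ‖dp (M9 E κ' * Lp i.1 i.2) (cv f0 (pwc E κ' (xx i.1) (zz i.1) (i.2 + 1))) t‖ ^ 2 := by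
    intro t
    have hnn : 0 ≤ ∑ i ∈ (Finset.univ : Finset Bool) ×ˢ Finset.range (JB E),
        ‖dp (M9 E κ' * Lp i.1 i.2) (cv f0 (pwc E κ' (xx i.1) (zz i.1) (i.2 + 1))) t‖ ^ 2 :=
      Finset.sum_nonneg fun _ _ => sq_nonneg _
    by_cases ht : ∀ b : Bool, t ∈ Gd 1 E κ' (xx b) (zz b)
    · have hx1 : ∀ j, j < JB E → 20 * ‖zf E x x2 j t‖ ≤ (R9 κ' j : ℝ) := by
        intro j hj
        have := ht true j hj
        rw [hxx, hzz, one_mul] at this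
        exact this
      have hy1 : ∀ j, j < JB E → 20 * ‖zf E y y2 j t‖ ≤ (R9 κ' j : ℝ) := by
        intro j hj
        have := ht false j hj
        rw [hxx, hzz, one_mul] at this
        exact this
      obtain ⟨-, u1⟩ := cmp_small (t := t) hE h16 (a := fun p => x p + y p) (a2 := fun p => x2 p + y2 p) fun j hj => by
        rw [zf_add]
        have h1 := norm_add_le (zf E x x2 j t) (zf E y y2 j t)
        have h2 := hx1 j hj
        have h3 := hy1 j hj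
        linarith
      obtain ⟨v1, -⟩ := cmp_small (t := t) hE (h16.trans hκ'') (a := x) (a2 := x2) fun j hj => by
        have h2 := hx1 j hj
        have h3 := R9_mono hκ'' j
        have h4 : (0 : ℝ) ≤ R9 κ'' j := Nat.cast_nonneg _
        linarith
      obtain ⟨w1, -⟩ := cmp_small (t := t) hE h16 (a := y) (a2 := y2) fun j hj => by
        have h2 := hy1 j hj
        have h4 : (0 : ℝ) ≤ R9 κ' j := Nat.cast_nonneg _
        linarith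
      rw [← hf0, Mm_add hE] at u1
      obtain ⟨m1, hm1⟩ : ∃ m : ℝ, m = Mm E x x2 t := ⟨_, rfl⟩
      obtain ⟨m2, hm2⟩ : ∃ m : ℝ, m = Mm E y y2 t := ⟨_, rfl⟩
      have hm10 : 0 < m1 := by rw [hm1]; exact Mm_pos _ _ _ _
      have hm20 : 0 < m2 := by rw [hm2]; exact Mm_pos _ _ _ _
      rw [← hm1] at v1 u1
      rw [← hm2] at w1 u1
      have h1 : 1 / 4 * (m1 * m2) ≤ ‖dp (M9 E κ'' * M9 E κ') F t‖ := by
        rw [hdF, norm_mul]
        calc 1 / 4 * (m1 * m2) = (1 / 2 * m1) * (1 / 2 * m2) := by ring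
          _ ≤ _ := mul_le_mul v1 w1 (by positivity) (norm_nonneg _)
      have h2 : ‖dp (M9 E κ') f0 t‖ ≤ 8 * ‖dp (M9 E κ'' * M9 E κ') F t‖ := by linarith
      have h3 := pow_le_pow_left₀ (norm_nonneg _) h2 2
      rw [mul_pow] at h3
      linarith
    · push Not at ht
      obtain ⟨b, hb⟩ := ht
      have h1 := bad_pw (by norm_num : (0 : ℝ) ≤ 1) (by linarith : 0 < κ') hb
      rw [sc_one, sc_one] at h1
      have h2 : ‖dp (M9 E κ') f0 t‖ ^ 2 ≤ ‖dp (M9 E κ') f0 t‖ ^ 2 * ∑ j ∈ Finset.range (JB E), ‖pw E κ' (xx b) (zz b) (j + 1) t‖ ^ 2 :=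
        le_mul_of_one_le_right (sq_nonneg _) h1
      have h3 : ‖dp (M9 E κ') f0 t‖ ^ 2 * ∑ j ∈ Finset.range (JB E), ‖pw E κ' (xx b) (zz b) (j + 1) t‖ ^ 2 =
          ∑ j ∈ Finset.range (JB E), ‖dp (M9 E κ' * Lp b j) (cv f0 (pwc E κ' (xx b) (zz b) (j + 1))) t‖ ^ 2 := by
        rw [Finset.mul_sum]
        refine Finset.sum_congr rfl fun j _ => ?_
        rw [hLp5 b j t, norm_mul, mul_pow]
      have h4 : 0 ≤ 64 * ‖dp (M9 E κ'' * M9 E κ') F t‖ ^ 2 := by positivity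
      have h5 : ∑ j ∈ Finset.range (JB E), ‖dp (M9 E κ' * Lp b j) (cv f0 (pwc E κ' (xx b) (zz b) (j + 1))) t‖ ^ 2 ≤
          ∑ i ∈ (Finset.univ : Finset Bool) ×ˢ Finset.range (JB E),
            ‖dp (M9 E κ' * Lp i.1 i.2) (cv f0 (pwc E κ' (xx i.1) (zz i.1) (i.2 + 1))) t‖ ^ 2 := by
        rw [Finset.sum_product]
        exact Finset.single_le_sum (f := fun b : Bool => ∑ j ∈ Finset.range (JB E),
          ‖dp (M9 E κ' * Lp b j) (cv f0 (pwc E κ' (xx b) (zz b) (j + 1))) t‖ ^ 2)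
          (fun _ _ => Finset.sum_nonneg fun _ _ => sq_nonneg _) (Finset.mem_univ b)
      linarith
  have h1 := mv_compareG _ (K := 64) (by norm_num) hpt
  have hN0 : 0 ≤ N2 (M9 E κ') f0 := Pool.Agent.Q86.UM.N2_nonneg _ _
  have h2 : ∑ i ∈ (Finset.univ : Finset Bool) ×ˢ Finset.range (JB E),
      N2 (M9 E κ' * Lp i.1 i.2) (cv f0 (pwc E κ' (xx i.1) (zz i.1) (i.2 + 1))) ≤ 1 / 8 * N2 (M9 E κ') f0 := by
    have h3 : ∀ i ∈ (Finset.univ : Finset Bool) ×ˢ Finset.range (JB E),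
        N2 (M9 E κ' * Lp i.1 i.2) (cv f0 (pwc E κ' (xx i.1) (zz i.1) (i.2 + 1))) ≤
        pen κ' (i.2 + 1) * (KP (2 * B) C₀ * N2 (M9 E κ') f0) := by
      intro i hi
      have hj : i.2 < JB E := Finset.mem_range.1 (Finset.mem_product.1 hi).2
      rw [hf0]
      refine (ratioB (A := 2 * B) (by linarith) (by linarith : (0 : ℝ) ≤ E) (fun i => hC₀ E i hE) (hnorm x y hx hy) (hnorm x2 y2 hx2 hy2)
        (hxxB i.1) (hzzB i.1) hj _).trans ?_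
      rw [mul_assoc]
      apply mul_le_mul_of_nonneg_left _ (pen_nonneg _ _)
      apply mul_le_mul_of_nonneg_left _ (by linarith)
      rw [← hf0]
      exact N2_ext_le hlen0
    refine (Finset.sum_le_sum h3).trans ?_
    rw [Finset.sum_product]
    simp only [Finset.sum_const, Finset.card_univ, Fintype.card_bool]
    rw [← Finset.sum_mul, nsmul_eq_mul]
    have h4 := mul_le_mul_of_nonneg_right (hpen κ' hK1 (JB E)) (show 0 ≤ KP (2 * B) C₀ * N2 (M9 E κ') f0 by positivity)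
    have h5 : 1 / (16 * KP (2 * B) C₀) * (KP (2 * B) C₀ * N2 (M9 E κ') f0) = 1 / 16 * N2 (M9 E κ') f0 := by field_simp
    rw [h5] at h4
    push_cast
    linarith
  have h3 := (hEN κ' E (fun p => x p + y p) (fun p => x2 p + y2 p) hκ0 hE (hnorm x y hx hy) (hnorm x2 y2 hx2 hy2)).1
  rw [← hf0] at h3
  linarith

end

end Pool.Agent.H469.F4
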