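import Pool.Agent.H469.F4.N9

set_option autoImplicit false

/-!
# Moments of the masses of intervals: all lower bounds
-/

namespace Pool.Agent.H469.F4

open Filter Topology MeasureTheory Complex

noncomputable section

/-- the dependence on the length of the interval -/
def PhH (γ q y : ℝ) : ℝ :=
  if q * γ ^ 2 < 4 then y ^ (q + q * γ ^ 2 / 4 - q ^ 2 * γ ^ 2 / 4) else if q * γ ^ 2 = 4 then y * (1 + Real.log (4 * y)) else y

theorem PhH_nonneg (γ q : ℝ) {y : ℝ} (hy : 1 ≤ 4 * y) : 0 ≤ PhH γ q y := by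
  unfold PhH
  have hy0 : 0 < y := by linarith
  have := Real.log_nonneg hy
  split_ifs <;> positivity

theorem xi_pos {γ q : ℝ} (hγ0 : 0 < γ) (hq : 1 < q) (hcr : q * γ ^ 2 < 4) : 0 < q + q * γ ^ 2 / 4 - q ^ 2 * γ ^ 2 / 4 := by
  have h1 : q + q * γ ^ 2 / 4 - q ^ 2 * γ ^ 2 / 4 = q * (1 - q * γ ^ 2 / 4) + q * γ ^ 2 / 4 := by ring
  rw [h1]
  have h2 : 0 < q * (1 - q * γ ^ 2 / 4) := by
    apply mul_pos (by linarith)
    linarith
  have h3 : 0 < q * γ ^ 2 / 4 := by positivity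
  linarith

/-- the lower bound for short intervals, all regimes -/
theorem low_base {γ q : ℝ} (hγ0 : 0 < γ) (hγ4 : γ ≤ 4) (hq : 1 < q) : ∃ c : ℝ, 0 < c ∧ ∀ᶠ T : ℝ in atTop,
    ∀ x : ℝ, |x| ≤ T / 8 → ∀ h : ℝ, h ≤ 1 → 1 ≤ 4 * (h * Real.log T) →
      c * (T * Real.log T ^ (q ^ 2 * γ ^ 2 / 4 - q)) ≤ ∫ t in T..(2 * T), Yg γ x (x + h) t ^ q := by
  obtain ⟨δ, c, hδ, hδ1, hc, hev⟩ := low_small hγ0 hγ4 hq.le
  refine ⟨c / 4, by positivity, ?_⟩
  filter_upwards [hev, eventually_ge_atTop (32 : ℝ)] with T hev hT16 x hx h hh1 hhL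
  obtain ⟨hE1, h1, -, h3⟩ := hev
  have hT0 : 0 < T := by linarith
  have hL0 : 0 < Real.log T := Real.log_pos (by linarith)
  have hP : 0 < T * Real.log T ^ (q ^ 2 * γ ^ 2 / 4 - q) := by positivity
  rcases le_or_gt (h * (δ * Real.log T)) 1 with hcase | hcase
  · refine le_trans ?_ (h1 x hx h hh1 hhL hcase)
    apply mul_le_mul_of_nonneg_right _ hP.le
    linarith
  · refine le_trans ?_ (h3 x hx h hh1 hcase.le)
    calc c / 4 * (T * Real.log T ^ (q ^ 2 * γ ^ 2 / 4 - q)) = c * (T * Real.log T ^ (q ^ 2 * γ ^ 2 / 4 - q) * (1 / 4)) := by ring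
      _ ≤ c * (T * Real.log T ^ (q ^ 2 * γ ^ 2 / 4 - q) * (h * Real.log T)) := by
          apply mul_le_mul_of_nonneg_left _ hc.le
          apply mul_le_mul_of_nonneg_left _ hP.le
          linarith

/-- **all lower bounds** -/
theorem low_allh {γ q : ℝ} (hγ0 : 0 < γ) (hγ4 : γ ≤ 4) (hq : 1 < q) : ∃ c : ℝ, 0 < c ∧ ∀ᶠ T : ℝ in atTop,
    ∀ x : ℝ, |x| ≤ T / 8 → ∀ h : ℝ, h ≤ 1 → 1 ≤ 4 * (h * Real.log T) →
      c * (T * Real.log T ^ (q ^ 2 * γ ^ 2 / 4 - q) * PhH γ q (h * Real.log T)) ≤ ∫ t in T..(2 * T), Yg γ x (x + h) t ^ q := by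
  obtain ⟨c₀, hc₀, h0⟩ := low_base hγ0 hγ4 hq
  obtain ⟨δ, c, hδ, hδ1, hc, hev⟩ := low_small hγ0 hγ4 hq.le
  rcases lt_trichotomy (q * γ ^ 2) 4 with hcr | hcr | hcr
  · -- subcritical
    have hξ0 := xi_pos hγ0 hq hcr
    obtain ⟨ξ, hξ⟩ : ∃ ξ : ℝ, ξ = q + q * γ ^ 2 / 4 - q ^ 2 * γ ^ 2 / 4 := ⟨_, rfl⟩
    refine ⟨min c (c₀ * δ ^ ξ), lt_min hc (by positivity), ?_⟩
    filter_upwards [h0, hev, eventually_ge_atTop (32 : ℝ)] with T h0 hev hT16 x hx h hh1 hhL
    obtain ⟨hE1, -, h2, -⟩ := hev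
    have hT0 : 0 < T := by linarith
    have hL0 : 0 < Real.log T := Real.log_pos (by linarith)
    have hP : 0 < T * Real.log T ^ (q ^ 2 * γ ^ 2 / 4 - q) := by positivity
    have hy0 : 0 < h * Real.log T := by linarith
    unfold PhH
    rw [if_pos hcr, ← hξ]
    rw [← hξ] at h2 hξ0
    rcases le_or_gt 1 (h * (δ * Real.log T)) with hcase | hcase
    · refine le_trans ?_ (h2 hξ0 x hx h hh1 hcase)
      exact mul_le_mul_of_nonneg_right (min_le_left _ _) (by positivity)
    · refine le_trans ?_ (h0 x hx h hh1 hhL)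
      have h4 : δ ^ ξ * (h * Real.log T) ^ ξ ≤ 1 := by
        rw [← Real.mul_rpow hδ.le hy0.le]
        apply Real.rpow_le_one (by positivity) _ hξ0.le
        linarith
      calc min c (c₀ * δ ^ ξ) * (T * Real.log T ^ (q ^ 2 * γ ^ 2 / 4 - q) * (h * Real.log T) ^ ξ) ≤
            c₀ * δ ^ ξ * (T * Real.log T ^ (q ^ 2 * γ ^ 2 / 4 - q) * (h * Real.log T) ^ ξ) :=
            mul_le_mul_of_nonneg_right (min_le_right _ _) (by positivity)
        _ = c₀ * (T * Real.log T ^ (q ^ 2 * γ ^ 2 / 4 - q)) * (δ ^ ξ * (h * Real.log T) ^ ξ) := by ring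
        _ ≤ c₀ * (T * Real.log T ^ (q ^ 2 * γ ^ 2 / 4 - q)) * 1 := mul_le_mul_of_nonneg_left h4 (by positivity)
        _ = _ := mul_one _
  · -- critical
    obtain ⟨δ', c', hδ', hδ'1, hc', hev'⟩ := low_crit hγ0 hq hcr
    have hl0 : 0 < Real.log (4 / δ') := Real.log_pos (by rw [lt_div_iff₀ hδ']; linarith)
    obtain ⟨k, hk⟩ : ∃ k : ℝ, k = 1 / δ' * (1 + Real.log (4 / δ')) := ⟨_, rfl⟩
    have hk0 : 0 < k := by rw [hk]; positivity
    refine ⟨min c' (c₀ / k), lt_min hc' (by positivity), ?_⟩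
    filter_upwards [h0, hev', eventually_ge_atTop (32 : ℝ)] with T h0 hev' hT16 x hx h hh1 hhL
    obtain ⟨hE1, h2⟩ := hev'
    have hT0 : 0 < T := by linarith
    have hL0 : 0 < Real.log T := Real.log_pos (by linarith)
    have hy0 : 0 < h * Real.log T := by linarith
    have hly : 0 ≤ Real.log (4 * (h * Real.log T)) := Real.log_nonneg hhL
    have e1 : q ^ 2 * γ ^ 2 / 4 - q = 0 := by
      have : q ^ 2 * γ ^ 2 = q * (q * γ ^ 2) := by ring
      rw [this, hcr]
      ring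
    unfold PhH
    rw [e1, Real.rpow_zero, mul_one] at h0
    rw [if_neg (by linarith), if_pos hcr, e1, Real.rpow_zero, mul_one]
    rcases le_or_gt 1 (h * (δ' * Real.log T)) with hcase | hcase
    · refine le_trans ?_ (h2 x hx h hh1 hcase)
      exact mul_le_mul_of_nonneg_right (min_le_left _ _) (by positivity)
    · refine le_trans ?_ (h0 x hx h hh1 hhL)
      have h3 : h * Real.log T ≤ 1 / δ' := by
        rw [le_div_iff₀ hδ']
        linarith
      have h4 : h * Real.log T * (1 + Real.log (4 * (h * Real.log T))) ≤ k := by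
        rw [hk]
        apply mul_le_mul h3 _ (by linarith) (by positivity)
        have : Real.log (4 * (h * Real.log T)) ≤ Real.log (4 / δ') := by
          apply Real.log_le_log (by linarith)
          rw [div_eq_mul_one_div]
          linarith
        linarith
      calc min c' (c₀ / k) * (T * (h * Real.log T * (1 + Real.log (4 * (h * Real.log T))))) ≤
            c₀ / k * (T * (h * Real.log T * (1 + Real.log (4 * (h * Real.log T))))) :=
            mul_le_mul_of_nonneg_right (min_le_right _ _) (by positivity)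
        _ ≤ c₀ / k * (T * k) := by
            apply mul_le_mul_of_nonneg_left _ (by positivity)
            exact mul_le_mul_of_nonneg_left h4 hT0.le
        _ = c₀ * T := by field_simp
  · -- supercritical
    refine ⟨min c (c₀ * δ), lt_min hc (by positivity), ?_⟩
    filter_upwards [h0, hev, eventually_ge_atTop (32 : ℝ)] with T h0 hev hT16 x hx h hh1 hhL
    obtain ⟨hE1, -, -, h3⟩ := hev
    have hT0 : 0 < T := by linarith
    have hL0 : 0 < Real.log T := Real.log_pos (by linarith)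
    have hP : 0 < T * Real.log T ^ (q ^ 2 * γ ^ 2 / 4 - q) := by positivity
    have hy0 : 0 < h * Real.log T := by linarith
    unfold PhH
    rw [if_neg (by linarith), if_neg (by linarith)]
    rcases le_or_gt 1 (h * (δ * Real.log T)) with hcase | hcase
    · refine le_trans ?_ (h3 x hx h hh1 hcase)
      exact mul_le_mul_of_nonneg_right (min_le_left _ _) (by positivity)
    · refine le_trans ?_ (h0 x hx h hh1 hhL)
      have h4 : δ * (h * Real.log T) ≤ 1 := by linarith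
      calc min c (c₀ * δ) * (T * Real.log T ^ (q ^ 2 * γ ^ 2 / 4 - q) * (h * Real.log T)) ≤
            c₀ * δ * (T * Real.log T ^ (q ^ 2 * γ ^ 2 / 4 - q) * (h * Real.log T)) :=
            mul_le_mul_of_nonneg_right (min_le_right _ _) (by positivity)
        _ = c₀ * (T * Real.log T ^ (q ^ 2 * γ ^ 2 / 4 - q)) * (δ * (h * Real.log T)) := by ring
        _ ≤ c₀ * (T * Real.log T ^ (q ^ 2 * γ ^ 2 / 4 - q)) * 1 := mul_le_mul_of_nonneg_left h4 (by positivity)
        _ = _ := mul_one _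

end

end Pool.Agent.H469.F4
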