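import Pool.Agent.H469.F4.N10

set_option autoImplicit false

/-!
# Moments of the masses of intervals: upper bounds on and beyond the critical line of parameters
-/

namespace Pool.Agent.H469.F4

open Filter Topology MeasureTheory Complex Pool.Agent.Q97.UM

noncomputable section

/-- from neighbourhoods to the interval -/
theorem nbh_to_int {γ q : ℝ} (hγ0 : 0 < γ) (hq1 : 1 < q) {T x h B : ℝ} (hT16 : 16 ≤ T) (hx : |x| ≤ T / 8) (hh : 0 < h) (hh1 : h ≤ 1)
    (hA : ∀ u : ℝ, |u| ≤ T / 4 → ∫ t in T..(2 * T), fz γ (t + u) * Hz γ 0 h (t + u) ^ (q - 1) ≤ B) :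
    ∫ t in T..(2 * T), Yg γ x (x + h) t ^ q ≤ h * B := by
  have hfc := fz_cont hγ0.le
  obtain ⟨g, hg⟩ : ∃ g : ℝ → ℝ, g = fun τ => fz γ τ * Hz γ 0 h τ ^ (q - 1) := ⟨_, rfl⟩
  have hgc : Continuous g := by
    rw [hg]
    exact hfc.mul ((Hz_cont hγ0.le 0 h).rpow_const fun _ => Or.inr (by linarith))
  have hpt : ∀ t, Yg γ x (x + h) t ^ q ≤ ∫ u in x..(x + h), g (t + u) := by
    intro t
    have hX0 := Yg_nonneg γ (by linarith : x ≤ x + h) t
    have e1 : Yg γ x (x + h) t ^ q = Yg γ x (x + h) t * Yg γ x (x + h) t ^ (q - 1) := by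
      rcases hX0.lt_or_eq with h' | h'
      · rw [← Real.rpow_one_add' hX0 (by linarith)]
        congr 1
        ring
      · rw [← h', Real.zero_rpow (by linarith), Real.zero_rpow (by linarith), zero_mul]
    rw [e1]
    have e2 : Yg γ x (x + h) t * Yg γ x (x + h) t ^ (q - 1) = ∫ u in x..(x + h), fz γ (t + u) * Yg γ x (x + h) t ^ (q - 1) := by
      rw [intervalIntegral.integral_mul_const]
      rfl
    rw [e2]
    have c1 : Continuous fun u : ℝ => fz γ (t + u) * Yg γ x (x + h) t ^ (q - 1) := (hfc.comp (by fun_prop)).mul continuous_const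
    have c2 : Continuous fun u : ℝ => g (t + u) := hgc.comp (by fun_prop)
    refine intervalIntegral.integral_mono_on (by linarith) (c1.intervalIntegrable _ _) (c2.intervalIntegrable _ _) fun u hu => ?_
    rw [hg]
    simp only
    apply mul_le_mul_of_nonneg_left _ (fz_nonneg _ _)
    exact Real.rpow_le_rpow hX0 (Yg_le_Hz hγ0.le hh.le hu t) (by linarith)
  have hXc : Continuous fun t => Yg γ x (x + h) t ^ q := Yg_pow_cont hγ0 (by linarith) _ _
  have hGc : Continuous fun z : ℝ × ℝ => g (z.1 + z.2) := hgc.comp (continuous_fst.add continuous_snd)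
  have hGi : Continuous fun t : ℝ => ∫ u in x..(x + h), g (t + u) :=
    intervalIntegral.continuous_parametric_intervalIntegral_of_continuous' (f := fun t u => g (t + u)) hGc x (x + h)
  refine (intervalIntegral.integral_mono_on (by linarith) (hXc.intervalIntegrable _ _) (hGi.intervalIntegrable _ _) fun t _ => hpt t).trans ?_
  rw [swap_cont (F := fun t u => g (t + u)) hGc]
  have hGi2 : Continuous fun u : ℝ => ∫ t in T..(2 * T), g (t + u) :=
    intervalIntegral.continuous_parametric_intervalIntegral_of_continuous' (f := fun u t => g (t + u)) (hGc.comp continuous_swap) T (2 * T)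
  have hx' := abs_le.1 hx
  have h3 : ∀ u ∈ Set.Icc x (x + h), ∫ t in T..(2 * T), g (t + u) ≤ B := by
    intro u hu
    have h4 := hA u (abs_le.2 ⟨by linarith [hu.1, hx'.1], by linarith [hu.2, hx'.2]⟩)
    rw [hg]
    exact h4
  have h5 := intervalIntegral.integral_mono_on (μ := volume) (by linarith : x ≤ x + h) (hGi2.intervalIntegrable x (x + h))
    ((continuous_const (y := B)).intervalIntegrable x (x + h)) h3
  rw [intervalIntegral.integral_const, smul_eq_mul] at h5
  calc _ ≤ (x + h - x) * B := h5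
    _ = h * B := by ring

/-- neighbourhoods on the critical line of parameters -/
theorem rings_crit {γ q : ℝ} (hγ0 : 0 < γ) (hq1 : 1 < q) (hq2 : q ≤ 2) (hcr : q * γ ^ 2 = 4) : ∃ C : ℝ, 0 < C ∧
    ∀ᶠ T : ℝ in atTop, ∀ u : ℝ, |u| ≤ T / 4 → ∀ h : ℝ, h ≤ 1 → 1 ≤ 4 * (h * Real.log T) →
      ∫ t in T..(2 * T), fz γ (t + u) * Hz γ 0 h (t + u) ^ (q - 1) ≤ C * T * (Real.log T * (1 + Real.log (4 * (h * Real.log T)))) := by
  have hγ2 : γ < 2 := by
    by_contra hneg
    push Not at hneg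
    have h4 : 4 ≤ γ ^ 2 := by nlinarith
    nlinarith
  obtain ⟨δ, C₁, m₀, hδ, hδ1, hC₁, hev⟩ := ring_data hγ0 hγ2.le hq1 hq2
  obtain ⟨C₂, hC₂, hsm⟩ := small_h hγ0 hq1 hq2 (by nlinarith)
  refine ⟨C₂ * (Real.exp m₀ / δ) ^ (q - 1) + 2 * C₁, by positivity, ?_⟩
  filter_upwards [hev, hsm, eventually_ge_atTop (16 : ℝ)] with T hev hsm hT16 u hu h hh1 hhL
  obtain ⟨n, hn0, hD1, hbnd, hring⟩ := hev
  have hT0 : 0 < T := by linarith
  have hL0 : 0 < Real.log T := Real.log_pos (by linarith)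
  have hh : 0 < h := by
    by_contra hneg
    push Not at hneg
    have : h * Real.log T ≤ 0 := mul_nonpos_of_nonpos_of_nonneg hneg hL0.le
    linarith
  obtain ⟨D, hDd⟩ : ∃ D : ℝ, D = δ * Real.log T := ⟨_, rfl⟩
  rw [← hDd] at hD1 hbnd hring
  have hD0 : 0 < D := lt_of_lt_of_le (by positivity) hD1
  have hDL : D ≤ Real.log T := by
    rw [hDd]
    nlinarith
  have hlog : 0 ≤ Real.log (4 * (h * Real.log T)) := Real.log_nonneg hhL
  have e1 : q ^ 2 * γ ^ 2 / 4 = q := by
    have : q ^ 2 * γ ^ 2 = q * (q * γ ^ 2) := by ring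
    rw [this, hcr]
    ring
  have e2 : q * γ ^ 2 / 4 - 1 = 0 := by rw [hcr]; norm_num
  obtain ⟨M, hM⟩ : ∃ M : ℝ, M = Real.log T * (1 + Real.log (4 * (h * Real.log T))) := ⟨_, rfl⟩
  have hM0 : 0 < M := by rw [hM]; positivity
  have hLM : Real.log T ≤ M := by
    rw [hM]
    nlinarith
  rw [← hM]
  have hc1 : 0 ≤ C₂ * (Real.exp m₀ / δ) ^ (q - 1) * T * M := by positivity
  have hc2 : 0 ≤ 2 * C₁ * T * M := by positivity
  have hsplit : (C₂ * (Real.exp m₀ / δ) ^ (q - 1) + 2 * C₁) * T * M =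
      C₂ * (Real.exp m₀ / δ) ^ (q - 1) * T * M + 2 * C₁ * T * M := by ring
  rw [hsplit]
  rcases le_or_gt (h * D) (Real.exp m₀) with hcase | hcase
  · refine le_trans ((hsm u hu h hh hh1).trans ?_) (le_add_of_nonneg_right hc2)
    rw [e1]
    have h1 : h ^ (q - 1) * Real.log T ^ q = (h * Real.log T) ^ (q - 1) * Real.log T := by
      rw [Real.mul_rpow hh.le hL0.le, mul_assoc, Real.rpow_sub_one hL0.ne', div_mul_cancel₀ _ hL0.ne']
    have h2 : (h * Real.log T) ^ (q - 1) ≤ (Real.exp m₀ / δ) ^ (q - 1) := by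
      apply Real.rpow_le_rpow (by positivity) _ (by linarith)
      rw [le_div_iff₀ hδ]
      calc h * Real.log T * δ = h * D := by rw [hDd]; ring
        _ ≤ _ := hcase
    rw [h1]
    calc C₂ * T * ((h * Real.log T) ^ (q - 1) * Real.log T) ≤ C₂ * T * ((Real.exp m₀ / δ) ^ (q - 1) * M) := by
          apply mul_le_mul_of_nonneg_left _ (by positivity)
          exact mul_le_mul h2 hLM hL0.le (by positivity)
      _ = _ := by ring
  · refine le_trans ?_ (le_add_of_nonneg_left hc1)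
    have hhD : 0 < h * D := by positivity
    obtain ⟨r, hr⟩ : ∃ r : ℕ, r = ⌊Real.log (h * D)⌋₊ := ⟨_, rfl⟩
    have hm0R : (0 : ℝ) ≤ m₀ := Nat.cast_nonneg _
    have hlog0 : (m₀ : ℝ) ≤ Real.log (h * D) := by
      rw [Real.le_log_iff_exp_le hhD]
      exact hcase.le
    have hr1 : (r : ℝ) ≤ Real.log (h * D) := by
      rw [hr]
      exact Nat.floor_le (hm0R.trans hlog0)
    have hr2 : Real.log (h * D) < r + 1 := by
      rw [hr]
      exact Nat.lt_floor_add_one _
    have hmr : m₀ ≤ r := by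
      rw [hr]
      exact Nat.le_floor hlog0
    obtain ⟨n', hn'⟩ : ∃ n' : ℕ, n' = min n (r + 2 - m₀) := ⟨_, rfl⟩
    have hn'n : n' ≤ n := by rw [hn']; exact min_le_left _ _
    have hn'0 : n' ≠ 0 := by omega
    have hn'r : n' ≤ r + 2 := by omega
    have hb' : h ≤ bnd D m₀ n n' := by
      unfold bnd
      rw [if_neg hn'0]
      split_ifs with h1
      · exact hh1
      · have h2 : n' = r + 2 - m₀ := by omega
        rw [le_div_iff₀ hD0]
        have h3 : h * D < Real.exp ((r : ℝ) + 1) := by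
          rw [← Real.log_lt_iff_lt_exp hhD]
          exact hr2
        have h4 : (m₀ : ℝ) + n' - 1 = r + 1 := by
          have : m₀ + n' = r + 2 := by omega
          have h5 : (m₀ : ℝ) + n' = r + 2 := by exact_mod_cast this
          linarith
        rw [h4]
        exact h3.le
    have hfc := fz_cont hγ0.le
    have hHz : ∀ τ, Hz γ 0 h τ ≤ ∑ i ∈ Finset.range n', Hz γ (bnd D m₀ n i) (bnd D m₀ n (i + 1)) τ := by
      intro τ
      have hc : Continuous fun w : ℝ => fz γ (τ + w) + fz γ (τ - w) :=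
        (hfc.comp (by fun_prop)).add (hfc.comp (by fun_prop))
      unfold Hz
      rw [intervalIntegral.sum_integral_adjacent_intervals fun k _ => hc.intervalIntegrable _ _]
      have h0 : bnd D m₀ n 0 = 0 := by unfold bnd; simp
      rw [h0]
      exact intervalIntegral.integral_mono_interval le_rfl hh.le hb'
        (Eventually.of_forall fun _ => add_nonneg (fz_nonneg _ _) (fz_nonneg _ _)) (hc.intervalIntegrable _ _)
    have huc : Continuous fun t : ℝ => t + u := by fun_prop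
    have hcH : ∀ a b : ℝ, Continuous fun t : ℝ => fz γ (t + u) * Hz γ a b (t + u) ^ (q - 1) := fun a b =>
      (hfc.comp huc).mul (((Hz_cont hγ0.le a b).comp huc).rpow_const fun _ => Or.inr (by linarith))
    rw [e2, e1] at hring
    have hsum : ∫ t in T..(2 * T), fz γ (t + u) * Hz γ 0 h (t + u) ^ (q - 1) ≤ ∑ i ∈ Finset.range n', C₁ * T * D := by
      have h1 : ∀ t ∈ Set.Icc T (2 * T), fz γ (t + u) * Hz γ 0 h (t + u) ^ (q - 1) ≤
          ∑ i ∈ Finset.range n', fz γ (t + u) * Hz γ (bnd D m₀ n i) (bnd D m₀ n (i + 1)) (t + u) ^ (q - 1) := by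
        intro t _
        rw [← Finset.mul_sum]
        apply mul_le_mul_of_nonneg_left _ (fz_nonneg _ _)
        refine (Real.rpow_le_rpow (Hz_nonneg γ hh.le _) (hHz _) (by linarith)).trans ?_
        exact sum_rpow_le (by linarith : 0 < q - 1) (by linarith) _ _ fun i hi =>
          Hz_nonneg γ (hbnd i (lt_of_lt_of_le (Finset.mem_range.1 hi) hn'n)).2.1 _
      refine (intervalIntegral.integral_mono_on (by linarith) ((hcH 0 h).intervalIntegrable _ _)
        ((continuous_finsetSum _ fun i _ => hcH (bnd D m₀ n i) (bnd D m₀ n (i + 1))).intervalIntegrable _ _) h1).trans ?_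
      rw [intervalIntegral.integral_finsetSum fun i _ => (hcH (bnd D m₀ n i) (bnd D m₀ n (i + 1))).intervalIntegrable _ _]
      refine Finset.sum_le_sum fun i hi => (hring u hu i (Finset.mem_range.2 (lt_of_lt_of_le (Finset.mem_range.1 hi) hn'n))).trans (le_of_eq ?_)
      have e3 : q - q + 1 = 1 := by ring
      rw [e3, Real.rpow_one, mul_zero, neg_zero, zero_mul, Real.exp_zero, mul_one]
    refine hsum.trans ?_
    rw [Finset.sum_const, Finset.card_range, nsmul_eq_mul]
    have h1 : (n' : ℝ) ≤ 2 * (1 + Real.log (4 * (h * Real.log T))) := by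
      have h2 : (n' : ℝ) ≤ r + 2 := by exact_mod_cast hn'r
      have h3 : Real.log (h * D) ≤ Real.log (4 * (h * Real.log T)) := by
        apply Real.log_le_log hhD
        have : h * D ≤ h * Real.log T := mul_le_mul_of_nonneg_left hDL hh.le
        have : 0 < h * Real.log T := by positivity
        linarith
      linarith
    calc (n' : ℝ) * (C₁ * T * D) ≤ 2 * (1 + Real.log (4 * (h * Real.log T))) * (C₁ * T * Real.log T) := by
          apply mul_le_mul h1 _ (by positivity) (by positivity)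
          exact mul_le_mul_of_nonneg_left hDL (by positivity)
      _ = 2 * C₁ * T * M := by rw [hM]; ring

/-- **the upper bound on the critical line of parameters** -/
theorem up_crit {γ q : ℝ} (hγ0 : 0 < γ) (hq1 : 1 < q) (hq2 : q ≤ 2) (hcr : q * γ ^ 2 = 4) : ∃ C : ℝ, 0 < C ∧
    ∀ᶠ T : ℝ in atTop, ∀ x : ℝ, |x| ≤ T / 8 → ∀ h : ℝ, h ≤ 1 → 1 ≤ 4 * (h * Real.log T) →
      ∫ t in T..(2 * T), Yg γ x (x + h) t ^ q ≤ C * (T * (h * Real.log T * (1 + Real.log (4 * (h * Real.log T))))) := by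
  obtain ⟨C, hC, hev⟩ := rings_crit hγ0 hq1 hq2 hcr
  refine ⟨C, hC, ?_⟩
  filter_upwards [hev, eventually_ge_atTop (16 : ℝ)] with T hev hT16 x hx h hh1 hhL
  have hL0 : 0 < Real.log T := Real.log_pos (by linarith)
  have hh : 0 < h := by
    by_contra hneg
    push Not at hneg
    have : h * Real.log T ≤ 0 := mul_nonpos_of_nonpos_of_nonneg hneg hL0.le
    linarith
  refine (nbh_to_int hγ0 hq1 hT16 hx hh hh1 fun u hu => hev u hu h hh1 hhL).trans (le_of_eq ?_)
  ring

/-- the local maximum over the interval -/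
theorem Yg_le_MH {γ : ℝ} (hγ : 2 ≤ γ) {h : ℝ} (hh : 0 ≤ h) (x t : ℝ) : Yg γ x (x + h) t ≤ MH h x t ^ (γ - 2) * Yg 2 x (x + h) t := by
  unfold Yg
  rw [← intervalIntegral.integral_const_mul]
  have hc1 : Continuous fun v : ℝ => fz γ (t + v) := (fz_cont (by linarith)).comp (by fun_prop)
  have hc2 : Continuous fun v : ℝ => MH h x t ^ (γ - 2) * fz 2 (t + v) := continuous_const.mul ((fz_cont (by norm_num)).comp (by fun_prop))
  refine intervalIntegral.integral_mono_on (by linarith) (hc1.intervalIntegrable _ _) (hc2.intervalIntegrable _ _) fun v hv => ?_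
  unfold fz
  have h4 : ‖zt (t + v)‖ ^ γ = ‖zt (t + v)‖ ^ (γ - 2) * ‖zt (t + v)‖ ^ (2 : ℝ) := by
    rw [← Real.rpow_add' (norm_nonneg _) (by linarith)]
    congr 1
    ring
  rw [h4]
  apply mul_le_mul_of_nonneg_right _ (Real.rpow_nonneg (norm_nonneg _) _)
  exact Real.rpow_le_rpow (norm_nonneg _) (le_MH hv) (by linarith)

/-- **the upper bound beyond the critical line of parameters** -/
theorem up_super {γ q : ℝ} (hγ : 0 < γ) (hq1 : 1 < q) (hq2 : q ≤ 2) (hβ4 : γ * q ≤ 4) (hcr : 4 < q * γ ^ 2) : ∃ C : ℝ, 0 < C ∧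
    ∀ᶠ T : ℝ in atTop, ∀ x : ℝ, |x| ≤ T / 16 → ∀ h : ℝ, h ≤ 1 → 1 ≤ 4 * (h * Real.log T) →
      ∫ t in T..(2 * T), Yg γ x (x + h) t ^ q ≤ C * (T * (h * Real.log T ^ ((γ * q) ^ 2 / 4 - q + 1))) := by
  have hq : 0 < q := by linarith
  rcases lt_or_ge γ 2 with hγ2 | hγ2
  · obtain ⟨C, hC, h⟩ := coreH hγ hγ2.le hq1 hq2 hcr.ne'
    refine ⟨C + 1, by positivity, ?_⟩
    have hexp : max (q * γ ^ 2 / 4) (q ^ 2 * γ ^ 2 / 4 - q + 1) = (γ * q) ^ 2 / 4 - q + 1 := by
      rw [max_eq_right]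
      · ring
      · nlinarith
    rw [hexp] at h
    filter_upwards [h, eventually_ge_atTop (16 : ℝ)] with T hT hT16 x hx h hh1 hhL
    have hL0 : 0 < Real.log T := Real.log_pos (by linarith)
    have hh : 0 < h := by
      by_contra hneg
      push Not at hneg
      have : h * Real.log T ≤ 0 := mul_nonpos_of_nonpos_of_nonneg hneg hL0.le
      linarith
    refine (hT x (hx.trans (by linarith)) h hh.le hh1).trans ?_
    have : 0 ≤ T * h * Real.log T ^ ((γ * q) ^ 2 / 4 - q + 1) := by positivity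
    nlinarith
  · have hβ2 : 2 < γ * q := by nlinarith
    obtain ⟨C, hC, h⟩ := coreH (γ := 2) (q := γ * q / 2) (by norm_num) le_rfl (by linarith) (by linarith) (by intro h; linarith)
    obtain ⟨C', hC', h'⟩ := maxH_upper (β := γ * q) (by positivity) hβ4
    obtain ⟨θ, hθ⟩ : ∃ θ : ℝ, θ = 2 / γ := ⟨_, rfl⟩
    have hθ0 : 0 < θ := by rw [hθ]; positivity
    have hθ1 : θ ≤ 1 := by rw [hθ, div_le_one hγ]; exact hγ2
    have hβ0 : 0 < γ * q := by positivity
    refine ⟨(5 * C') ^ (1 - θ) * (C + 1) ^ θ, by positivity, ?_⟩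
    have hexp : max (γ * q / 2 * 2 ^ 2 / 4) ((γ * q / 2) ^ 2 * 2 ^ 2 / 4 - γ * q / 2 + 1) = (γ * q) ^ 2 / 4 - γ * q / 2 + 1 := by
      rw [max_eq_right]
      · ring
      · nlinarith [sq_nonneg (γ * q - 2)]
    rw [hexp] at h
    filter_upwards [h, h', eventually_ge_atTop (16 : ℝ), Real.tendsto_log_atTop.eventually_ge_atTop 1] with T hT hT' hT16 hL1 x hx h hh1 hhL
    have hT0 : 0 < T := by linarith
    have hL0 : 0 < Real.log T := by linarith
    have hh : 0 < h := by
      by_contra hneg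
      push Not at hneg
      have : h * Real.log T ≤ 0 := mul_nonpos_of_nonpos_of_nonneg hneg hL0.le
      linarith
    have hMc : Continuous fun t => MH h x t ^ (γ * q) := (MH_cont h x).rpow_const fun _ => Or.inr hβ0.le
    have hXc : Continuous fun t => Yg 2 x (x + h) t ^ (γ * q / 2) := Yg_pow_cont (by norm_num) (by positivity) _ _
    have hxh : x ≤ x + h := by linarith
    have hM0 : ∀ t, 0 ≤ MH h x t ^ (γ * q) := fun t => Real.rpow_nonneg (MH_nonneg hh.le x t) _
    have hX0 : ∀ t, 0 ≤ Yg 2 x (x + h) t ^ (γ * q / 2) := fun t => Real.rpow_nonneg (Yg_nonneg 2 hxh t) _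
    have hpt : ∀ t, Yg γ x (x + h) t ^ q ≤ (MH h x t ^ (γ * q)) ^ (1 - θ) * (Yg 2 x (x + h) t ^ (γ * q / 2)) ^ θ := by
      intro t
      have h1 := Real.rpow_le_rpow (Yg_nonneg γ hxh t) (Yg_le_MH hγ2 hh.le x t) hq.le
      refine h1.trans (le_of_eq ?_)
      rw [Real.mul_rpow (Real.rpow_nonneg (MH_nonneg hh.le x t) _) (Yg_nonneg 2 hxh t), ← Real.rpow_mul (MH_nonneg hh.le x t),
        ← Real.rpow_mul (MH_nonneg hh.le x t), ← Real.rpow_mul (Yg_nonneg 2 hxh t)]
      congr 2
      · rw [hθ]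
        field_simp
      · rw [hθ]
        field_simp
    have hcP : Continuous fun t => (MH h x t ^ (γ * q)) ^ (1 - θ) * (Yg 2 x (x + h) t ^ (γ * q / 2)) ^ θ :=
      (hMc.rpow_const fun _ => Or.inr (by linarith)).mul (hXc.rpow_const fun _ => Or.inr hθ0.le)
    refine (intervalIntegral.integral_mono_on (by linarith) ((Yg_pow_cont hγ hq _ _).intervalIntegrable _ _) (hcP.intervalIntegrable _ _)
      fun t _ => hpt t).trans ?_
    have hx8 : |x| ≤ T / 8 := hx.trans (by linarith)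
    have hM1 : ∫ t in T..(2 * T), MH h x t ^ (γ * q) ≤ 5 * C' * T * (h * Real.log T ^ ((γ * q) ^ 2 / 4 + 1)) := by
      refine (hT' x hx h hh.le hh1).trans ?_
      have e1 : Real.log T ^ ((γ * q) ^ 2 / 4 + 1) = Real.log T ^ ((γ * q) ^ 2 / 4) * Real.log T := by
        rw [Real.rpow_add_one hL0.ne']
      rw [e1]
      have h2 : 1 + h * Real.log T ≤ 5 * (h * Real.log T) := by linarith
      calc C' * T * ((1 + h * Real.log T) * Real.log T ^ ((γ * q) ^ 2 / 4)) ≤
            C' * T * ((5 * (h * Real.log T)) * Real.log T ^ ((γ * q) ^ 2 / 4)) := by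
            apply mul_le_mul_of_nonneg_left _ (by positivity)
            exact mul_le_mul_of_nonneg_right h2 (by positivity)
        _ = _ := by ring
    have h6 := hold hMc hXc hM0 hX0 (by linarith : T ≤ 2 * T) hθ0.le hθ1 (A := 5 * C' * T * (h * Real.log T ^ ((γ * q) ^ 2 / 4 + 1)))
      (B := (C + 1) * T * (h * Real.log T ^ ((γ * q) ^ 2 / 4 - γ * q / 2 + 1))) (by positivity) (by positivity) hM1 ((hT x hx8 h hh.le hh1).trans (by
      have : 0 ≤ T * h * Real.log T ^ ((γ * q) ^ 2 / 4 - γ * q / 2 + 1) := by positivity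
      nlinarith))
    refine h6.trans (le_of_eq ?_)
    obtain ⟨K', hK'⟩ : ∃ K' : ℝ, K' = 5 * C' := ⟨_, rfl⟩
    have hK'0 : 0 ≤ K' := by rw [hK']; positivity
    rw [← hK']
    rw [Real.mul_rpow (by positivity) (by positivity), Real.mul_rpow (by positivity) hT0.le, Real.mul_rpow hh.le (by positivity),
      Real.mul_rpow (by positivity) (by positivity), Real.mul_rpow (by positivity) hT0.le, Real.mul_rpow hh.le (by positivity),
      ← Real.rpow_mul hL0.le, ← Real.rpow_mul hL0.le]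
    have e3 : T ^ (1 - θ) * T ^ θ = T := by
      rw [← Real.rpow_add hT0]
      simp
    have e5 : h ^ (1 - θ) * h ^ θ = h := by
      rw [← Real.rpow_add hh]
      simp
    have e4 : Real.log T ^ (((γ * q) ^ 2 / 4 + 1) * (1 - θ)) * Real.log T ^ (((γ * q) ^ 2 / 4 - γ * q / 2 + 1) * θ) =
        Real.log T ^ ((γ * q) ^ 2 / 4 - q + 1) := by
      rw [← Real.rpow_add hL0]
      congr 1
      rw [hθ]
      field_simp
      ring
    calc K' ^ (1 - θ) * T ^ (1 - θ) * (h ^ (1 - θ) * Real.log T ^ (((γ * q) ^ 2 / 4 + 1) * (1 - θ))) *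
          ((C + 1) ^ θ * T ^ θ * (h ^ θ * Real.log T ^ (((γ * q) ^ 2 / 4 - γ * q / 2 + 1) * θ))) =
        K' ^ (1 - θ) * (C + 1) ^ θ * ((T ^ (1 - θ) * T ^ θ) * ((h ^ (1 - θ) * h ^ θ) * (Real.log T ^ (((γ * q) ^ 2 / 4 + 1) * (1 - θ)) *
          Real.log T ^ (((γ * q) ^ 2 / 4 - γ * q / 2 + 1) * θ)))) := by ring
      _ = _ := by rw [e3, e4, e5]

end

end Pool.Agent.H469.F4
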