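import Pool.Agent.H469.F4.N11

set_option autoImplicit false

/-!
# Moments of the masses of intervals of every length: from dyadic intervals to `[0, T]`
-/

namespace Pool.Agent.H469.F4

open Filter Topology MeasureTheory Complex

noncomputable section

/-- **all upper bounds** -/
theorem up_allh {γ q : ℝ} (hγ : 0 < γ) (hq1 : 1 < q) (hq2 : q ≤ 2) (hβ4 : γ * q ≤ 4) : ∃ C : ℝ, 0 < C ∧ ∀ᶠ T : ℝ in atTop,
    ∀ x : ℝ, |x| ≤ T / 16 → ∀ h : ℝ, h ≤ 1 → 1 ≤ 4 * (h * Real.log T) →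
      ∫ t in T..(2 * T), Yg γ x (x + h) t ^ q ≤ C * (T * Real.log T ^ (q ^ 2 * γ ^ 2 / 4 - q) * PhH γ q (h * Real.log T)) := by
  rcases lt_trichotomy (q * γ ^ 2) 4 with hcr | hcr | hcr
  · have hγ2 : γ < 2 := by
      by_contra hneg
      push Not at hneg
      have h4 : 4 ≤ γ ^ 2 := by nlinarith
      nlinarith
    obtain ⟨C, hC, hev⟩ := meso_up hγ hγ2 hq1 hq2 hcr
    refine ⟨C, hC, ?_⟩
    filter_upwards [hev, eventually_ge_atTop (16 : ℝ)] with T hev hT16 x hx h hh1 hhL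
    have hL0 : 0 < Real.log T := Real.log_pos (by linarith)
    have hh : 0 < h := by
      by_contra hneg
      push Not at hneg
      have : h * Real.log T ≤ 0 := mul_nonpos_of_nonpos_of_nonneg hneg hL0.le
      linarith
    refine (hev x (hx.trans (by linarith)) h hh hh1).trans (le_of_eq ?_)
    unfold PhH
    rw [if_pos hcr, Real.mul_rpow hh.le hL0.le]
    have e1 : Real.log T ^ (q * γ ^ 2 / 4) = Real.log T ^ (q ^ 2 * γ ^ 2 / 4 - q) * Real.log T ^ (q + q * γ ^ 2 / 4 - q ^ 2 * γ ^ 2 / 4) := by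
      rw [← Real.rpow_add hL0]
      congr 1
      ring
    rw [e1]
    ring
  · obtain ⟨C, hC, hev⟩ := up_crit hγ hq1 hq2 hcr
    refine ⟨C, hC, ?_⟩
    filter_upwards [hev, eventually_ge_atTop (16 : ℝ)] with T hev hT16 x hx h hh1 hhL
    refine (hev x (hx.trans (by linarith)) h hh1 hhL).trans (le_of_eq ?_)
    have e1 : q ^ 2 * γ ^ 2 / 4 - q = 0 := by
      have : q ^ 2 * γ ^ 2 = q * (q * γ ^ 2) := by ring
      rw [this, hcr]
      ring
    unfold PhH
    rw [if_neg (by linarith), if_pos hcr, e1, Real.rpow_zero]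
    ring
  · obtain ⟨C, hC, hev⟩ := up_super hγ hq1 hq2 hβ4 hcr
    refine ⟨C, hC, ?_⟩
    filter_upwards [hev, eventually_ge_atTop (16 : ℝ)] with T hev hT16 x hx h hh1 hhL
    have hL0 : 0 < Real.log T := Real.log_pos (by linarith)
    refine (hev x hx h hh1 hhL).trans (le_of_eq ?_)
    unfold PhH
    rw [if_neg (by linarith), if_neg (by linarith), Real.rpow_add_one hL0.ne']
    have e1 : (γ * q) ^ 2 / 4 - q = q ^ 2 * γ ^ 2 / 4 - q := by ring
    rw [e1]
    ring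

/-- the dependence on the length of the interval -/
def Phl (γ q y : ℝ) : ℝ :=
  if q * γ ^ 2 < 4 then y ^ (q + q * γ ^ 2 / 4 - q ^ 2 * γ ^ 2 / 4) else if q * γ ^ 2 = 4 then y * (1 + Real.log y) else y

theorem Phl_ge_one {γ q : ℝ} (hγ0 : 0 < γ) (hq : 1 < q) {y : ℝ} (hy : 1 ≤ y) : 1 ≤ Phl γ q y := by
  unfold Phl
  have hl := Real.log_nonneg hy
  split_ifs with h1 h2
  · exact Real.one_le_rpow hy (xi_pos hγ0 hq h1).le
  · nlinarith
  · exact hy

theorem PhH_le {γ q : ℝ} (hγ0 : 0 < γ) (hq : 1 < q) {y y' : ℝ} (hy : 1 ≤ y) (hy' : 1 ≤ 4 * y') (hyy : y' ≤ y) : PhH γ q y' ≤ 3 * Phl γ q y := by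
  unfold PhH Phl
  have hl := Real.log_nonneg hy
  have hy0 : 0 < y' := by linarith
  split_ifs with h1 h2
  · have h3 : y' ^ (q + q * γ ^ 2 / 4 - q ^ 2 * γ ^ 2 / 4) ≤ y ^ (q + q * γ ^ 2 / 4 - q ^ 2 * γ ^ 2 / 4) :=
      Real.rpow_le_rpow hy0.le hyy (xi_pos hγ0 hq h1).le
    have h4 : 0 ≤ y ^ (q + q * γ ^ 2 / 4 - q ^ 2 * γ ^ 2 / 4) := by positivity
    linarith
  · have h3 : Real.log (4 * y') ≤ 2 + Real.log y := by
      rw [Real.log_mul (by norm_num) hy0.ne']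
      have h5 : Real.log y' ≤ Real.log y := Real.log_le_log hy0 hyy
      have h6 : Real.log 4 ≤ 2 := by
        rw [Real.log_le_iff_le_exp (by norm_num)]
        have h7 := Real.add_one_le_exp (1 : ℝ)
        have h8 : Real.exp 2 = Real.exp 1 * Real.exp 1 := by rw [← Real.exp_add]; norm_num
        rw [h8]
        nlinarith
      linarith
    have h4 : 0 ≤ Real.log (4 * y') := Real.log_nonneg hy'
    calc y' * (1 + Real.log (4 * y')) ≤ y * (1 + (2 + Real.log y)) := mul_le_mul hyy (by linarith) (by linarith) (by linarith)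
      _ ≤ 3 * (y * (1 + Real.log y)) := by nlinarith
  · linarith

theorem Phl_le {γ q : ℝ} (hγ0 : 0 < γ) (hq : 1 < q) {y y' : ℝ} (hy : 1 ≤ y) (hyy : y / 2 ≤ y') :
    Phl γ q y ≤ (2 ^ (q + q * γ ^ 2 / 4 - q ^ 2 * γ ^ 2 / 4) + 2) * PhH γ q y' := by
  unfold PhH Phl
  have hl := Real.log_nonneg hy
  have hy0 : 0 < y' := by linarith
  have hp : (0 : ℝ) < 2 ^ (q + q * γ ^ 2 / 4 - q ^ 2 * γ ^ 2 / 4) := by positivity
  split_ifs with h1 h2
  · have h3 : y ^ (q + q * γ ^ 2 / 4 - q ^ 2 * γ ^ 2 / 4) ≤ (2 * y') ^ (q + q * γ ^ 2 / 4 - q ^ 2 * γ ^ 2 / 4) :=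
      Real.rpow_le_rpow (by linarith) (by linarith) (xi_pos hγ0 hq h1).le
    rw [Real.mul_rpow (by norm_num) hy0.le] at h3
    have h4 : 0 ≤ y' ^ (q + q * γ ^ 2 / 4 - q ^ 2 * γ ^ 2 / 4) := by positivity
    nlinarith
  · have h3 : Real.log y ≤ Real.log (4 * y') := Real.log_le_log (by linarith) (by linarith)
    have h4 : 0 ≤ y' * (1 + Real.log (4 * y')) := by
      apply mul_nonneg hy0.le
      linarith
    have h5 : y * (1 + Real.log y) ≤ 2 * y' * (1 + Real.log (4 * y')) := mul_le_mul (by linarith) (by linarith) (by linarith) (by linarith)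
    nlinarith
  · nlinarith

theorem pow_cmp {a L L' : ℝ} (hL : 0 < L) (h1 : L ≤ L') (h2 : L' ≤ 4 * L) : L ^ a ≤ 4 ^ |a| * L' ^ a ∧ L' ^ a ≤ 4 ^ |a| * L ^ a := by
  have hL' : 0 < L' := by linarith
  have h4 : (1 : ℝ) ≤ 4 ^ |a| := Real.one_le_rpow (by norm_num) (abs_nonneg _)
  have p1 : 0 < L ^ a := by positivity
  have p2 : 0 < L' ^ a := by positivity
  rcases le_or_gt 0 a with ha | ha
  · have h3 : L ^ a ≤ L' ^ a := Real.rpow_le_rpow hL.le h1 ha
    have h5 : L' ^ a ≤ (4 * L) ^ a := Real.rpow_le_rpow hL'.le h2 ha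
    rw [Real.mul_rpow (by norm_num) hL.le] at h5
    rw [abs_of_nonneg ha] at h4 ⊢
    exact ⟨by nlinarith, h5⟩
  · have h3 : L' ^ a ≤ L ^ a := Real.rpow_le_rpow_of_nonpos hL h1 ha.le
    have h5 : (4 * L) ^ a ≤ L' ^ a := Real.rpow_le_rpow_of_nonpos hL' h2 ha.le
    rw [Real.mul_rpow (by norm_num) hL.le] at h5
    rw [abs_of_neg ha] at h4 ⊢
    have h6 : (4 : ℝ) ^ (-a) * 4 ^ a = 1 := by
      rw [← Real.rpow_add (by norm_num)]
      simp
    constructor
    · calc L ^ a = ((4 : ℝ) ^ (-a) * 4 ^ a) * L ^ a := by rw [h6, one_mul]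
        _ = 4 ^ (-a) * (4 ^ a * L ^ a) := by ring
        _ ≤ 4 ^ (-a) * L' ^ a := mul_le_mul_of_nonneg_left h5 (by positivity)
    · nlinarith

/-- dyadic summation up to a fixed point -/
theorem dy_sum {g : ℝ → ℝ} (hg : Continuous g) (g0 : ∀ t, 0 ≤ g t) {V T T₁ : ℝ} (hV : 0 ≤ V) (hT₁ : 0 < T₁)
    (h : ∀ τ, T₁ ≤ τ → τ ≤ T → ∫ t in τ..(2 * τ), g t ≤ V * τ) (hT : T₁ ≤ T) : ∫ t in T₁..T, g t ≤ 2 * V * T := by
  have hgi : ∀ a b : ℝ, IntervalIntegrable g volume a b := fun a b => hg.intervalIntegrable a b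
  have key : ∀ n : ℕ, ∀ S : ℝ, T₁ ≤ S → S ≤ T → S ≤ 2 ^ n * T₁ → ∫ t in T₁..S, g t ≤ 2 * V * S := by
    intro n
    induction n with
    | zero =>
      intro S h1 _ h2
      have h3 : S = T₁ := by
        rw [pow_zero, one_mul] at h2
        exact le_antisymm h2 h1
      rw [h3, intervalIntegral.integral_same]
      positivity
    | succ n ih =>
      intro S h1 hST h2
      have hS0 : 0 < S := by linarith
      rcases le_or_gt S (2 * T₁) with h3 | h3
      · calc ∫ t in T₁..S, g t ≤ ∫ t in T₁..(2 * T₁), g t :=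
              intervalIntegral.integral_mono_interval le_rfl h1 h3 (Eventually.of_forall g0) (hgi _ _)
          _ ≤ V * T₁ := h T₁ le_rfl (by linarith)
          _ ≤ 2 * V * S := by nlinarith
      · have h4 : ∫ t in T₁..(S / 2), g t ≤ 2 * V * (S / 2) := ih (S / 2) (by linarith) (by linarith) (by
          rw [pow_succ] at h2
          linarith)
        have h5 : ∫ t in (S / 2)..S, g t ≤ V * (S / 2) := by
          have := h (S / 2) (by linarith) (by linarith)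
          rwa [show 2 * (S / 2) = S by ring] at this
        rw [← intervalIntegral.integral_add_adjacent_intervals (hgi T₁ (S / 2)) (hgi (S / 2) S)]
        nlinarith
  obtain ⟨n, hn⟩ : ∃ n : ℕ, T ≤ 2 ^ n * T₁ := by
    obtain ⟨n, hn⟩ := pow_unbounded_of_one_lt (T / T₁) (by norm_num : (1 : ℝ) < 2)
    refine ⟨n, ?_⟩
    rw [div_lt_iff₀ hT₁] at hn
    exact hn.le
  exact key n T hT le_rfl hn

end

end Pool.Agent.H469.F4
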