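import Pool.Agent.H469.F4.N12

set_option autoImplicit false

/-!
# Moments of the masses of intervals of every length: averages over `[0, T]`
-/

namespace Pool.Agent.H469.F4

open Filter Topology MeasureTheory Complex

noncomputable section

theorem Phl_le_pow {γ q : ℝ} {L : ℝ} (hL : 1 ≤ L) : Phl γ q L ≤ L ^ (|q + q * γ ^ 2 / 4 - q ^ 2 * γ ^ 2 / 4| + 2) := by
  unfold Phl
  have h0 := abs_nonneg (q + q * γ ^ 2 / 4 - q ^ 2 * γ ^ 2 / 4)
  split_ifs with h1 h2
  · apply Real.rpow_le_rpow_of_exponent_le hL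
    have := le_abs_self (q + q * γ ^ 2 / 4 - q ^ 2 * γ ^ 2 / 4)
    linarith
  · have h3 := Real.log_le_sub_one_of_pos (by linarith : 0 < L)
    calc L * (1 + Real.log L) ≤ L * L := mul_le_mul_of_nonneg_left (by linarith) (by linarith)
      _ = L ^ (2 : ℝ) := by
          rw [Real.rpow_two]
          ring
      _ ≤ _ := Real.rpow_le_rpow_of_exponent_le hL (by linarith)
  · calc L = L ^ (1 : ℝ) := (Real.rpow_one L).symm
      _ ≤ _ := Real.rpow_le_rpow_of_exponent_le hL (by linarith)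

/-- **moments of the masses of intervals of every length** -/
theorem mass_scales {γ q : ℝ} (hγ : 0 < γ) (hq1 : 1 < q) (hq2 : q ≤ 2) (hβ4 : γ * q ≤ 4) (x : ℝ) : ∃ c C : ℝ, 0 < c ∧ 0 < C ∧
    ∀ᶠ T : ℝ in atTop, ∀ h : ℝ, 1 ≤ h * Real.log T → h ≤ 1 →
      c * (Real.log T ^ (q ^ 2 * γ ^ 2 / 4 - q) * Phl γ q (h * Real.log T)) ≤ (1 / T) * ∫ t in (0 : ℝ)..T, Yg γ x (x + h) t ^ q ∧
      (1 / T) * ∫ t in (0 : ℝ)..T, Yg γ x (x + h) t ^ q ≤ C * (Real.log T ^ (q ^ 2 * γ ^ 2 / 4 - q) * Phl γ q (h * Real.log T)) := by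
  have hq0 : 0 < q := by linarith
  have hγ4 : γ ≤ 4 := by nlinarith
  obtain ⟨c₁, hc₁, hlow⟩ := low_allh hγ hγ4 hq1
  obtain ⟨C₁, hC₁, hup⟩ := up_allh hγ hq1 hq2 hβ4
  obtain ⟨a, ha⟩ : ∃ a : ℝ, a = q ^ 2 * γ ^ 2 / 4 - q := ⟨_, rfl⟩
  obtain ⟨K, hK⟩ : ∃ K : ℝ, K = 2 ^ (q + q * γ ^ 2 / 4 - q ^ 2 * γ ^ 2 / 4) + 2 := ⟨_, rfl⟩
  have hK0 : 0 < K := by rw [hK]; positivity
  obtain ⟨M, hM⟩ : ∃ M : ℝ, M = (4 : ℝ) ^ |a| := ⟨_, rfl⟩
  have hM0 : 0 < M := by rw [hM]; positivity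
  obtain ⟨e, he⟩ : ∃ e : ℝ, e = |a| + (|q + q * γ ^ 2 / 4 - q ^ 2 * γ ^ 2 / 4| + 2) := ⟨_, rfl⟩
  have he0 : 0 ≤ e := by rw [he]; positivity
  rw [← ha] at hlow hup ⊢
  have hYc : ∀ h, Continuous fun t => Yg γ x (x + h) t ^ q := fun h => Yg_pow_cont hγ hq0 x (x + h)
  have hY0 : ∀ h, 0 ≤ h → ∀ t, 0 ≤ Yg γ x (x + h) t ^ q := fun h hh t => Real.rpow_nonneg (Yg_nonneg γ (by linarith) t) _
  -- the interval of length one
  obtain ⟨C₅, hC₅, hone⟩ := dy_up (hYc 1) (hY0 1 zero_le_one) he0 ⟨C₁ * 3, by positivity, by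
    filter_upwards [hup, eventually_ge_atTop (16 * |x|), Real.tendsto_log_atTop.eventually_ge_atTop 1, eventually_ge_atTop (1 : ℝ)] with T hup hTx hL1 hT1
    refine (hup x (by linarith) 1 le_rfl (by linarith)).trans ?_
    rw [one_mul]
    have h1 := PhH_le hγ hq1 hL1 (by linarith : 1 ≤ 4 * Real.log T) le_rfl
    have h2 := h1.trans (mul_le_mul_of_nonneg_left (Phl_le_pow (γ := γ) (q := q) hL1) (by norm_num))
    have h3 : Real.log T ^ a ≤ Real.log T ^ |a| := Real.rpow_le_rpow_of_exponent_le hL1 (le_abs_self a)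
    have hP0 : 0 ≤ PhH γ q (Real.log T) := PhH_nonneg γ q (by linarith)
    calc C₁ * (T * Real.log T ^ a * PhH γ q (Real.log T)) ≤
          C₁ * (T * Real.log T ^ |a| * (3 * Real.log T ^ (|q + q * γ ^ 2 / 4 - q ^ 2 * γ ^ 2 / 4| + 2))) := by
          apply mul_le_mul_of_nonneg_left _ hC₁.le
          apply mul_le_mul _ h2 hP0 (by positivity)
          exact mul_le_mul_of_nonneg_left h3 (by linarith)
      _ = C₁ * 3 * T * Real.log T ^ e := by
          rw [he, Real.rpow_add (by linarith : 0 < Real.log T) |a|]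
          ring⟩
  refine ⟨c₁ / (2 * M * K), 2 * (C₁ * (M * 3)) + 1, by positivity, by positivity, ?_⟩
  have hlow2 := (tendsto_id.atTop_div_const (by norm_num : (0 : ℝ) < 2)).eventually hlow
  rw [Filter.eventually_atTop] at hup
  obtain ⟨T₀, hup⟩ := hup
  have ht4 : Tendsto (fun T : ℝ => T ^ (1 / 4 : ℝ)) atTop atTop := tendsto_rpow_atTop (by norm_num)
  have hone' := ht4.eventually hone
  have hlo : ∀ᶠ T : ℝ in atTop, C₅ * Real.log T ^ (e + |a|) ≤ T ^ (3 / 4 : ℝ) := by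
    have h1 := (isLittleO_log_rpow_rpow_atTop (e + |a|) (by norm_num : (0 : ℝ) < 3 / 4)).def (by positivity : 0 < 1 / C₅)
    filter_upwards [h1, eventually_ge_atTop (1 : ℝ)] with T h1 hT1
    have hL0 : 0 ≤ Real.log T := Real.log_nonneg hT1
    rw [Real.norm_of_nonneg (by positivity), Real.norm_of_nonneg (by positivity)] at h1
    calc C₅ * Real.log T ^ (e + |a|) ≤ C₅ * (1 / C₅ * T ^ (3 / 4 : ℝ)) := mul_le_mul_of_nonneg_left h1 hC₅.le
      _ = _ := by field_simp
  filter_upwards [hlow2, hone', hlo, ht4.eventually_ge_atTop T₀, ht4.eventually_ge_atTop (16 * |x|), ht4.eventually_ge_atTop 1,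
    eventually_ge_atTop (16 * |x|), eventually_ge_atTop (16 : ℝ), Real.tendsto_log_atTop.eventually_ge_atTop 1] with
    T hlow hone hlo hT0' hTx hT41 hTx' hT16 hL1 h hhL hh1
  have hT0 : 0 < T := by linarith
  obtain ⟨L, hL⟩ : ∃ L : ℝ, L = Real.log T := ⟨_, rfl⟩
  have hL0 : 0 < L := by rw [hL]; linarith
  rw [← hL] at hhL hL1 hlo ⊢
  have hh : 0 < h := by
    by_contra hneg
    push Not at hneg
    have : h * L ≤ 0 := mul_nonpos_of_nonpos_of_nonneg hneg hL0.le
    linarith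
  have hgi : ∀ a b : ℝ, IntervalIntegrable (fun t => Yg γ x (x + h) t ^ q) volume a b := fun a b => (hYc h).intervalIntegrable a b
  have hPh1 := Phl_ge_one hγ hq1 hhL
  constructor
  · have hlow := hlow x (by
      show |x| ≤ T / 2 / 8
      linarith) h hh1
    have hL' : Real.log (T / 2) = L - Real.log 2 := by rw [Real.log_div hT0.ne' (by norm_num), hL]
    have hl2 : 0 ≤ Real.log 2 := Real.log_nonneg (by norm_num)
    have hl2' : 2 * Real.log 2 ≤ L := by
      rw [hL, show 2 * Real.log 2 = Real.log 4 by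
        rw [show (4 : ℝ) = 2 ^ 2 by norm_num, Real.log_pow]; norm_num]
      exact Real.log_le_log (by norm_num) (by linarith)
    obtain ⟨L', hLd⟩ : ∃ L' : ℝ, L' = Real.log (T / 2) := ⟨_, rfl⟩
    have e1 : Real.log (id T / 2) = L' := by rw [hLd]; rfl
    rw [e1, show id T / 2 = T / 2 from rfl, show 2 * (T / 2) = T by ring] at hlow
    rw [← hLd] at hL'
    have hL'1 : L / 2 ≤ L' := by linarith
    have hL'2 : L' ≤ L := by linarith
    have hL'0 : 0 < L' := by linarith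
    have h1 : h * L / 2 ≤ h * L' := by
      calc h * L / 2 = h * (L / 2) := by ring
        _ ≤ h * L' := mul_le_mul_of_nonneg_left hL'1 hh.le
    have hlow := hlow (by linarith)
    have h2 := Phl_le hγ hq1 hhL h1
    rw [← hK] at h2
    have h3 := (pow_cmp (a := a) hL'0 hL'2 (by linarith)).2
    rw [← hM] at h3
    have h4 : ∫ t in (T / 2)..T, Yg γ x (x + h) t ^ q ≤ ∫ t in (0 : ℝ)..T, Yg γ x (x + h) t ^ q :=
      intervalIntegral.integral_mono_interval (by linarith) (by linarith) le_rfl (Eventually.of_forall (hY0 h hh.le)) (hgi _ _)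
    have h5 : L ^ a * Phl γ q (h * L) ≤ (M * L' ^ a) * (K * PhH γ q (h * L')) := mul_le_mul h3 h2 (by linarith) (by positivity)
    rw [one_div, le_inv_mul_iff₀ hT0]
    calc T * (c₁ / (2 * M * K) * (L ^ a * Phl γ q (h * L))) ≤ T * (c₁ / (2 * M * K) * ((M * L' ^ a) * (K * PhH γ q (h * L')))) := by
          apply mul_le_mul_of_nonneg_left _ hT0.le
          exact mul_le_mul_of_nonneg_left h5 (by positivity)
      _ = c₁ * (T / 2 * L' ^ a * PhH γ q (h * L')) := by field_simp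
      _ ≤ _ := hlow.trans h4
  · obtain ⟨V, hV⟩ : ∃ V : ℝ, V = L ^ a * Phl γ q (h * L) := ⟨_, rfl⟩
    have hV0 : 0 < V := by rw [hV]; positivity
    rw [← hV]
    obtain ⟨T₁, hT₁⟩ : ∃ T₁ : ℝ, T₁ = T ^ (1 / 4 : ℝ) := ⟨_, rfl⟩
    rw [← hT₁] at hone hT0' hTx hT41
    have hT10 : 0 < T₁ := by linarith
    have hT1T : T₁ ≤ T := by
      rw [hT₁]
      calc T ^ (1 / 4 : ℝ) ≤ T ^ (1 : ℝ) := Real.rpow_le_rpow_of_exponent_le (by linarith) (by norm_num)
        _ = T := Real.rpow_one T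
    have hlT1 : Real.log T₁ = L / 4 := by
      rw [hT₁, Real.log_rpow hT0, hL]
      ring
    have hdy : ∫ t in T₁..T, Yg γ x (x + h) t ^ q ≤ 2 * (C₁ * (M * 3) * V) * T := by
      apply dy_sum (hYc h) (hY0 h hh.le) (by positivity) hT10 _ hT1T
      intro τ hτ1 hτ2
      have hτ0 : 0 < τ := by linarith
      have hl1 : L / 4 ≤ Real.log τ := by
        rw [← hlT1]
        exact Real.log_le_log hT10 hτ1
      have hl2 : Real.log τ ≤ L := by
        rw [hL]
        exact Real.log_le_log hτ0 hτ2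
      have hy4 : 1 ≤ 4 * (h * Real.log τ) := by
        have : h * (L / 4) ≤ h * Real.log τ := mul_le_mul_of_nonneg_left hl1 hh.le
        linarith
      have h1 := hup τ (hT0'.trans hτ1) x (by linarith) h hh1 hy4
      refine h1.trans ?_
      have h2 := PhH_le hγ hq1 hhL hy4 (mul_le_mul_of_nonneg_left hl2 hh.le)
      have h3 := (pow_cmp (a := a) (by linarith : 0 < Real.log τ) hl2 (by linarith)).1
      rw [← hM] at h3
      have hl0 : 0 < Real.log τ := by linarith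
      calc C₁ * (τ * Real.log τ ^ a * PhH γ q (h * Real.log τ)) ≤ C₁ * (τ * (M * L ^ a) * (3 * Phl γ q (h * L))) := by
            apply mul_le_mul_of_nonneg_left _ hC₁.le
            apply mul_le_mul _ h2 (PhH_nonneg γ q hy4) (by positivity)
            exact mul_le_mul_of_nonneg_left h3 hτ0.le
        _ = C₁ * (M * 3) * V * τ := by rw [hV]; ring
    have hrest : ∫ t in (0 : ℝ)..T₁, Yg γ x (x + h) t ^ q ≤ T * V := by
      have h1 : ∫ t in (0 : ℝ)..T₁, Yg γ x (x + h) t ^ q ≤ ∫ t in (0 : ℝ)..T₁, Yg γ x (x + 1) t ^ q := by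
        refine intervalIntegral.integral_mono_on hT10.le (hgi _ _) ((hYc 1).intervalIntegrable _ _) fun t _ => ?_
        exact Real.rpow_le_rpow (Yg_nonneg γ (by linarith) t) (Yg_mono hγ.le le_rfl (by linarith) (by linarith) t) hq0.le
      rw [one_div, inv_mul_le_iff₀ hT10] at hone
      have h2 : Real.log T₁ ^ e ≤ L ^ e := by
        rw [hlT1]
        exact Real.rpow_le_rpow (by positivity) (by linarith) he0
      have h3 : L ^ (-|a|) ≤ V := by
        rw [hV]
        have h4 : L ^ (-|a|) ≤ L ^ a := Real.rpow_le_rpow_of_exponent_le hL1 (neg_abs_le a)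
        have h5 : 0 < L ^ a := by positivity
        nlinarith
      have h6 : T₁ * T ^ (3 / 4 : ℝ) = T := by
        rw [hT₁, ← Real.rpow_add hT0]
        norm_num
      have h7 : L ^ e = L ^ (e + |a|) * L ^ (-|a|) := by
        rw [← Real.rpow_add hL0]
        congr 1
        ring
      calc ∫ t in (0 : ℝ)..T₁, Yg γ x (x + h) t ^ q ≤ T₁ * (C₅ * Real.log T₁ ^ e) := h1.trans hone
        _ ≤ T₁ * (C₅ * L ^ e) := by
            apply mul_le_mul_of_nonneg_left _ hT10.le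
            exact mul_le_mul_of_nonneg_left h2 hC₅.le
        _ = T₁ * ((C₅ * L ^ (e + |a|)) * L ^ (-|a|)) := by rw [h7]; ring
        _ ≤ T₁ * (T ^ (3 / 4 : ℝ) * V) := by
            apply mul_le_mul_of_nonneg_left _ hT10.le
            exact mul_le_mul hlo h3 (by positivity) (by positivity)
        _ = T * V := by rw [← mul_assoc, h6]
    rw [one_div, inv_mul_le_iff₀ hT0, ← intervalIntegral.integral_add_adjacent_intervals (hgi 0 T₁) (hgi T₁ T)]
    linarith

end

end Pool.Agent.H469.F4
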