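import Pool.Agent.H469.F4.NP1

set_option autoImplicit false

/-!
# Lower bounds for truncated sums of completely multiplicative functions, II
-/

namespace Pool.Agent.H469.F4

open Filter Topology MeasureTheory Complex Pool.Agent.Q97.UM Pool.Agent.Q14.UM

noncomputable section

theorem PR_mono {X Y : ℕ} (h : X ≤ Y) : PR X ≤ PR Y := by
  unfold PR
  exact Finset.sum_le_sum_of_subset_of_nonneg (Finset.filter_subset_filter _ (Finset.Icc_subset_Icc_right h)) fun _ _ _ => by positivity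

theorem PR_nonneg (X : ℕ) : 0 ≤ PR X := Finset.sum_nonneg fun _ _ => by positivity

theorem sum_sub_PR {g : ℕ → ℝ} {A : ℝ} (hg : ∀ p, g p ≤ A) {X Y : ℕ} (h : X ≤ Y) :
    ∑ p ∈ (Finset.Icc 1 Y).filter Nat.Prime, g p / p ≤ ∑ p ∈ (Finset.Icc 1 X).filter Nat.Prime, g p / p + A * (PR Y - PR X) := by
  have h1 : (Finset.Icc 1 X).filter Nat.Prime ⊆ (Finset.Icc 1 Y).filter Nat.Prime :=
    Finset.filter_subset_filter _ (Finset.Icc_subset_Icc_right h)
  have h2 := Finset.sum_sdiff h1 (f := fun p : ℕ => g p / (p : ℝ))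
  have h3 := Finset.sum_sdiff h1 (f := fun p : ℕ => (1 : ℝ) / (p : ℝ))
  have h4 : ∑ p ∈ (Finset.Icc 1 Y).filter Nat.Prime \ (Finset.Icc 1 X).filter Nat.Prime, g p / (p : ℝ) ≤
      ∑ p ∈ (Finset.Icc 1 Y).filter Nat.Prime \ (Finset.Icc 1 X).filter Nat.Prime, A * ((1 : ℝ) / (p : ℝ)) := by
    refine Finset.sum_le_sum fun p _ => ?_
    rw [mul_one_div]
    exact div_le_div_of_nonneg_right (hg p) (Nat.cast_nonneg p)
  rw [← Finset.mul_sum] at h4
  unfold PR
  rw [← h2, ← h3]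
  linarith

theorem log_p_le {y : ℕ} : ∃ C : ℝ, 0 ≤ C ∧ ∀ y : ℕ, 1 ≤ y →
    ∑ p ∈ (Finset.Icc 1 y).filter Nat.Prime, Real.log p / p ≤ Real.log y + C := by
  obtain ⟨C, hC⟩ := Pool.Agent.Helper256.KM.mertens_log
  refine ⟨C, (abs_nonneg _).trans (hC 1 le_rfl), fun y hy => ?_⟩
  have := hC y hy
  rw [abs_le] at this
  linarith [this.2]

/-- **lower bound for a truncated sum** -/
theorem cm_sum_ge {A : ℝ} (hA : 1 ≤ A) : ∃ c : ℝ, 0 < c ∧ ∀ g : ℕ → ℝ, (∀ p, 0 ≤ g p) → (∀ p, g p ≤ A) →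
    (∀ p : ℕ, (p : ℝ) ≤ 6 * A → g p = 0) → ∀ N : ℕ, 1 ≤ N →
      c * Real.exp (∑ p ∈ (Finset.Icc 1 N).filter Nat.Prime, g p / p) ≤ ∑ n ∈ Finset.Icc 1 N, cm g n / n := by
  obtain ⟨C1, hC1, hM⟩ := log_p_le (y := 0)
  obtain ⟨C2, hC2, hP⟩ := PR_log
  have hA0 : 0 < A := by linarith
  have hl2 : 1 / 2 ≤ Real.log 2 := by have := Real.log_two_gt_d9; linarith
  obtain ⟨C3, hC3⟩ : ∃ C3 : ℝ, C3 = 2 * A * (1 + 2 * C1) + 36 * A ^ 2 := ⟨_, rfl⟩
  have hC30 : 0 ≤ C3 := by rw [hC3]; positivity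
  obtain ⟨U, hU⟩ : ∃ U : ℕ, U = ⌈C3 + 1⌉₊ := ⟨_, rfl⟩
  have hU1 : C3 + 1 ≤ U := by rw [hU]; exact Nat.le_ceil _
  have hU2 : 1 ≤ U := by
    have : (1 : ℝ) ≤ U := by linarith
    exact_mod_cast this
  refine ⟨min (Real.exp (-(A * PR (2 ^ U)))) (Real.exp (-(A * (Real.log (2 * U) + 2 * C2))) / 2), by positivity, ?_⟩
  intro g hg0 hgA hgs N hN
  rcases Nat.lt_or_ge N (2 ^ U) with hNU | hNU
  · -- small `N`
    have h1 : (1 : ℝ) ≤ ∑ n ∈ Finset.Icc 1 N, cm g n / n := by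
      have h2 : cm g 1 / ((1 : ℕ) : ℝ) = 1 := by rw [cm_one]; norm_num
      calc (1 : ℝ) = cm g 1 / ((1 : ℕ) : ℝ) := h2.symm
        _ ≤ _ := Finset.single_le_sum (f := fun n : ℕ => cm g n / (n : ℝ))
          (fun n _ => div_nonneg (cm_nonneg hg0 n) (Nat.cast_nonneg n)) (Finset.mem_Icc.2 ⟨le_rfl, hN⟩)
    refine le_trans ?_ h1
    have h2 : ∑ p ∈ (Finset.Icc 1 N).filter Nat.Prime, g p / (p : ℝ) ≤ A * PR (2 ^ U) := by
      refine le_trans ?_ (mul_le_mul_of_nonneg_left (PR_mono hNU.le) hA0.le)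
      unfold PR
      rw [Finset.mul_sum]
      refine Finset.sum_le_sum fun p _ => ?_
      rw [mul_one_div]
      exact div_le_div_of_nonneg_right (hgA p) (Nat.cast_nonneg p)
    calc min (Real.exp (-(A * PR (2 ^ U)))) (Real.exp (-(A * (Real.log (2 * U) + 2 * C2))) / 2) *
          Real.exp (∑ p ∈ (Finset.Icc 1 N).filter Nat.Prime, g p / p) ≤
        Real.exp (-(A * PR (2 ^ U))) * Real.exp (A * PR (2 ^ U)) :=
          mul_le_mul (min_le_left _ _) (Real.exp_le_exp.2 h2) (Real.exp_pos _).le (Real.exp_pos _).le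
      _ = 1 := by rw [← Real.exp_add]; simp
  -- large `N`
  have hN0 : (0 : ℝ) < N := by exact_mod_cast hN
  have hU0 : (0 : ℝ) < U := by exact_mod_cast hU2
  obtain ⟨y, hy⟩ : ∃ y : ℕ, y = ⌊(N : ℝ) ^ (1 / (U : ℝ))⌋₊ := ⟨_, rfl⟩
  have hy2 : 2 ≤ y := by
    rw [hy]
    apply Nat.le_floor
    have h1 : ((2 : ℝ) ^ (U : ℝ)) ^ (1 / (U : ℝ)) ≤ (N : ℝ) ^ (1 / (U : ℝ)) := by
      apply Real.rpow_le_rpow (by positivity) _ (by positivity)
      rw [Real.rpow_natCast]
      exact_mod_cast hNU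
    rw [← Real.rpow_mul (by norm_num), mul_one_div_cancel hU0.ne', Real.rpow_one] at h1
    exact_mod_cast h1
  have hy0 : (0 : ℝ) < y := by exact_mod_cast (by omega : 0 < y)
  have hly : 1 / 2 ≤ Real.log y := hl2.trans (Real.log_le_log (by norm_num) (by exact_mod_cast hy2))
  have hly0 : 0 < Real.log y := by linarith
  have hlogle : (U : ℝ) * Real.log y ≤ Real.log N := by
    have h1 : (y : ℝ) ≤ (N : ℝ) ^ (1 / (U : ℝ)) := by rw [hy]; exact Nat.floor_le (by positivity)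
    have h2 := Real.log_le_log hy0 h1
    rw [Real.log_rpow hN0, one_div, inv_mul_eq_div, le_div_iff₀ hU0] at h2
    linarith
  have hlogge : Real.log N ≤ 2 * U * Real.log y := by
    have h1 : (N : ℝ) ^ (1 / (U : ℝ)) < y + 1 := by rw [hy]; exact Nat.lt_floor_add_one _
    have h2 : (N : ℝ) ^ (1 / (U : ℝ)) ≤ (y : ℝ) ^ 2 := by
      have : (2 : ℝ) ≤ y := by exact_mod_cast hy2
      nlinarith
    have h3 := Real.log_le_log (by positivity) h2
    rw [Real.log_rpow hN0, Real.log_pow, one_div, inv_mul_eq_div, div_le_iff₀ hU0] at h3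
    push_cast at h3
    linarith
  have hyN : y ≤ N := by
    have h1 : Real.log y ≤ Real.log N := by
      have : Real.log y ≤ U * Real.log y := le_mul_of_one_le_left hly0.le (by exact_mod_cast hU2)
      linarith
    have h2 := (Real.log_le_log_iff hy0 hN0).1 h1
    exact_mod_cast h2
  have hy1 : (1 : ℝ) < y := by exact_mod_cast (by omega : 1 < y)
  -- the truncated function
  obtain ⟨h, hh⟩ : ∃ h : ℕ → ℝ, h = fun p => if p ≤ y then g p / p else 0 := ⟨_, rfl⟩
  have hh0 : ∀ p, 0 ≤ h p := by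
    intro p
    rw [hh]
    show 0 ≤ if p ≤ y then g p / (p : ℝ) else 0
    split_ifs
    · exact div_nonneg (hg0 p) (Nat.cast_nonneg p)
    · exact le_rfl
  have hhy : ∀ p, y < p → h p = 0 := by
    intro p hp
    rw [hh]
    exact if_neg (by omega)
  obtain ⟨σ, hσ⟩ : ∃ σ : ℝ, σ = 1 / Real.log y := ⟨_, rfl⟩
  have hσ0 : 0 ≤ σ := by rw [hσ]; positivity
  have hpσ : ∀ p : ℕ, p.Prime → p ≤ y → (p : ℝ) ^ σ ≤ 1 + 2 * (σ * Real.log p) ∧ (p : ℝ) ^ σ ≤ 3 := by
    intro p hp hpy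
    have hp0 : (0 : ℝ) < p := by exact_mod_cast hp.pos
    have h1 : 0 ≤ σ * Real.log p := mul_nonneg hσ0 (Real.log_natCast_nonneg p)
    have h2 : σ * Real.log p ≤ 1 := by
      rw [hσ, one_div, inv_mul_le_iff₀ hly0, mul_one]
      exact Real.log_le_log hp0 (by exact_mod_cast hpy)
    have h3 : (p : ℝ) ^ σ = Real.exp (σ * Real.log p) := by
      rw [Real.rpow_def_of_pos hp0, mul_comm]
    rw [h3]
    have h4 : Real.exp (σ * Real.log p) ≤ 1 + 2 * (σ * Real.log p) := by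
      have h5 := Real.exp_bound' h1 h2 (n := 2) (by norm_num)
      simp [Finset.sum_range_succ] at h5
      nlinarith
    exact ⟨h4, by linarith⟩
  have hhs : ∀ p : ℕ, p.Prime → h p * (p : ℝ) ^ σ ≤ 3 * A / p := by
    intro p hp
    have hp0 : (0 : ℝ) < p := by exact_mod_cast hp.pos
    rw [hh]
    show (if p ≤ y then g p / (p : ℝ) else 0) * (p : ℝ) ^ σ ≤ 3 * A / p
    split_ifs with h1
    · have h2 := (hpσ p hp h1).2
      have h3 := hgA p
      rw [div_mul_eq_mul_div]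
      apply div_le_div_of_nonneg_right _ hp0.le
      calc g p * (p : ℝ) ^ σ ≤ A * 3 := mul_le_mul h3 h2 (by positivity) hA0.le
        _ = 3 * A := by ring
    · rw [zero_mul]
      positivity
  have hhh : ∀ p : ℕ, p.Prime → h p * (p : ℝ) ^ σ ≤ 1 / 2 := by
    intro p hp
    have hp0 : (0 : ℝ) < p := by exact_mod_cast hp.pos
    rcases le_or_gt (p : ℝ) (6 * A) with h1 | h1
    · have h2 : h p = 0 := by
        rw [hh]
        show (if p ≤ y then g p / (p : ℝ) else 0) = 0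
        rw [hgs p h1]
        simp
      rw [h2, zero_mul]
      norm_num
    · refine (hhs p hp).trans ?_
      rw [div_le_iff₀ hp0]
      linarith
  have hR := cm_rankin hh0 hσ0 hhy hhh hN
  -- comparison of the sums
  have hs1 : ∑ n ∈ Finset.Icc 1 N, cm h n ≤ ∑ n ∈ Finset.Icc 1 N, cm g n / n := by
    refine Finset.sum_le_sum fun n hn => ?_
    have hn0 : n ≠ 0 := by
      have := (Finset.mem_Icc.1 hn).1
      omega
    have h1 : cm (fun p => g p * (p : ℝ) ^ (-1 : ℝ)) n = cm g n * (n : ℝ) ^ (-1 : ℝ) := cm_rpow g (-1) hn0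
    rw [Real.rpow_neg_one] at h1
    rw [div_eq_mul_inv, ← h1]
    unfold cm
    rw [if_neg hn0, if_neg hn0]
    apply List.prod_map_le_prod_map₀
    · intro p _
      exact hh0 p
    · intro p _
      rw [hh]
      show (if p ≤ y then g p / (p : ℝ) else 0) ≤ g p * (p : ℝ) ^ (-1 : ℝ)
      rw [Real.rpow_neg_one, ← div_eq_mul_inv]
      split_ifs
      · exact le_rfl
      · exact div_nonneg (hg0 p) (Nat.cast_nonneg p)
  obtain ⟨S, hS⟩ : ∃ S : ℝ, S = ∑ p ∈ (Finset.Icc 1 y).filter Nat.Prime, g p / p := ⟨_, rfl⟩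
  have hs2 : ∑ p ∈ (Finset.Icc 1 y).filter Nat.Prime, h p = S := by
    rw [hS]
    refine Finset.sum_congr rfl fun p hp => ?_
    rw [hh]
    exact if_pos (Finset.mem_Icc.1 (Finset.mem_filter.1 hp).1).2
  have hs3 : ∑ p ∈ (Finset.Icc 1 y).filter Nat.Prime, (h p * (p : ℝ) ^ σ + 2 * (h p * (p : ℝ) ^ σ) ^ 2) ≤ S + C3 := by
    have h1 : ∀ p ∈ (Finset.Icc 1 y).filter Nat.Prime, h p * (p : ℝ) ^ σ + 2 * (h p * (p : ℝ) ^ σ) ^ 2 ≤
        g p / p + 2 * A * σ * (Real.log p / p) + 18 * A ^ 2 * (1 / (p : ℝ) ^ 2) := by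
      intro p hp
      rw [Finset.mem_filter, Finset.mem_Icc] at hp
      have hp0 : (0 : ℝ) < p := by exact_mod_cast hp.2.pos
      have h2 : h p = g p / p := by
        rw [hh]
        exact if_pos hp.1.2
      have h3 : h p * (p : ℝ) ^ σ ≤ g p / p + 2 * A * σ * (Real.log p / p) := by
        rw [h2]
        have h4 := (hpσ p hp.2 hp.1.2).1
        have h5 := hg0 p
        have h6 : 0 ≤ σ * Real.log p := mul_nonneg hσ0 (Real.log_natCast_nonneg p)
        calc g p / p * (p : ℝ) ^ σ ≤ g p / p * (1 + 2 * (σ * Real.log p)) := mul_le_mul_of_nonneg_left h4 (by positivity)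
          _ = g p / p + g p * (2 * (σ * Real.log p) / p) := by ring
          _ ≤ g p / p + A * (2 * (σ * Real.log p) / p) := by
              have h7 := mul_le_mul_of_nonneg_right (hgA p) (show 0 ≤ 2 * (σ * Real.log p) / p by positivity)
              linarith
          _ = _ := by ring
      have h4 : (h p * (p : ℝ) ^ σ) ^ 2 ≤ (3 * A / p) ^ 2 := by
        apply pow_le_pow_left₀ _ (hhs p hp.2)
        have := hh0 p
        positivity
      have h5 : 2 * (3 * A / (p : ℝ)) ^ 2 = 18 * A ^ 2 * (1 / (p : ℝ) ^ 2) := by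
        field_simp
        ring
      linarith
    refine (Finset.sum_le_sum h1).trans ?_
    rw [Finset.sum_add_distrib, Finset.sum_add_distrib, ← Finset.mul_sum, ← Finset.mul_sum, ← hS]
    have h2 := hM y (by omega)
    have h3 : ∑ p ∈ (Finset.Icc 1 y).filter Nat.Prime, (1 : ℝ) / (p : ℝ) ^ 2 ≤ 2 :=
      (Finset.sum_le_sum_of_subset_of_nonneg (Finset.filter_subset _ _) (fun p _ _ => by positivity)).trans (sum_inv_sq y)
    have h4 : σ * (Real.log y + C1) ≤ 1 + 2 * C1 := by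
      have h5 : σ * Real.log y = 1 := by rw [hσ, one_div, inv_mul_cancel₀ hly0.ne']
      have h6 : σ ≤ 2 := by
        rw [hσ, div_le_iff₀ hly0]
        linarith
      have h7 := mul_le_mul_of_nonneg_right h6 hC1
      linarith
    have h5 : 2 * A * σ * ∑ p ∈ (Finset.Icc 1 y).filter Nat.Prime, Real.log p / (p : ℝ) ≤ 2 * A * (1 + 2 * C1) := by
      calc 2 * A * σ * ∑ p ∈ (Finset.Icc 1 y).filter Nat.Prime, Real.log p / (p : ℝ) ≤ 2 * A * σ * (Real.log y + C1) :=
            mul_le_mul_of_nonneg_left h2 (by positivity)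
        _ = 2 * A * (σ * (Real.log y + C1)) := by ring
        _ ≤ _ := mul_le_mul_of_nonneg_left h4 (by positivity)
    have h6 : 18 * A ^ 2 * ∑ p ∈ (Finset.Icc 1 y).filter Nat.Prime, (1 : ℝ) / (p : ℝ) ^ 2 ≤ 18 * A ^ 2 * 2 :=
      mul_le_mul_of_nonneg_left h3 (by positivity)
    rw [hC3]
    linarith
  rw [hs2] at hR
  have hN' : (N : ℝ) ^ (-σ) ≤ Real.exp (-(U : ℝ)) := by
    rw [Real.rpow_def_of_pos hN0]
    apply Real.exp_le_exp.2
    have h1 : (U : ℝ) ≤ Real.log N * σ := by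
      rw [hσ, mul_one_div, le_div_iff₀ hly0]
      exact hlogle
    linarith
  have hs4 : (N : ℝ) ^ (-σ) * Real.exp (∑ p ∈ (Finset.Icc 1 y).filter Nat.Prime, (h p * (p : ℝ) ^ σ + 2 * (h p * (p : ℝ) ^ σ) ^ 2)) ≤
      Real.exp S / 2 := by
    calc (N : ℝ) ^ (-σ) * Real.exp (∑ p ∈ (Finset.Icc 1 y).filter Nat.Prime, (h p * (p : ℝ) ^ σ + 2 * (h p * (p : ℝ) ^ σ) ^ 2)) ≤
        Real.exp (-(U : ℝ)) * Real.exp (S + C3) := mul_le_mul hN' (Real.exp_le_exp.2 hs3) (Real.exp_pos _).le (Real.exp_pos _).le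
      _ = Real.exp S * Real.exp (C3 - U) := by rw [← Real.exp_add, ← Real.exp_add]; congr 1; ring
      _ ≤ Real.exp S * (1 / 2) := by
          apply mul_le_mul_of_nonneg_left _ (Real.exp_pos _).le
          have h1 : Real.exp (C3 - U) ≤ Real.exp (-1) := Real.exp_le_exp.2 (by linarith)
          have h2 := Real.exp_neg_one_lt_d9
          linarith
      _ = _ := by ring
  have hs5 : Real.exp S / 2 ≤ ∑ n ∈ Finset.Icc 1 N, cm g n / n := by linarith
  have hs6 : ∑ p ∈ (Finset.Icc 1 N).filter Nat.Prime, g p / (p : ℝ) ≤ S + A * (Real.log (2 * U) + 2 * C2) := by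
    refine (sum_sub_PR hgA hyN).trans ?_
    rw [← hS]
    have h1 := hP N (by omega)
    have h2 := hP y hy2
    rw [abs_le] at h1 h2
    have h3 : Real.log (Real.log N) ≤ Real.log (2 * U) + Real.log (Real.log y) := by
      rw [← Real.log_mul (by positivity) hly0.ne']
      apply Real.log_le_log _ hlogge
      have : (0 : ℝ) < U * Real.log y := by positivity
      linarith
    have h4 : PR N - PR y ≤ Real.log (2 * U) + 2 * C2 := by linarith [h1.2, h2.1]
    have h5 := mul_le_mul_of_nonneg_left h4 hA0.le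
    linarith
  refine le_trans ?_ hs5
  calc min (Real.exp (-(A * PR (2 ^ U)))) (Real.exp (-(A * (Real.log (2 * U) + 2 * C2))) / 2) *
        Real.exp (∑ p ∈ (Finset.Icc 1 N).filter Nat.Prime, g p / p) ≤
      Real.exp (-(A * (Real.log (2 * U) + 2 * C2))) / 2 * Real.exp (S + A * (Real.log (2 * U) + 2 * C2)) :=
        mul_le_mul (min_le_right _ _) (Real.exp_le_exp.2 hs6) (Real.exp_pos _).le (by positivity)
    _ = Real.exp (-(A * (Real.log (2 * U) + 2 * C2))) * Real.exp (S + A * (Real.log (2 * U) + 2 * C2)) / 2 := by ring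
    _ = Real.exp S / 2 := by
        rw [← Real.exp_add]
        congr 2
        ring

end

end Pool.Agent.H469.F4
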