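import Pool.Agent.H469.F4.N2
import Pool.Agent.H469.F4.M7
import Pool.Agent.H469.F4.NP2

set_option autoImplicit false

/-!
# Sequences which are constant on the blocks: the sums over primes
-/

namespace Pool.Agent.H469.F4

open Filter Topology MeasureTheory Complex Pool.Agent.Q97.UM
open Pool.Agent.Q14.UM (mem_PB PB_disj cv_len)

noncomputable section

open Classical in
/-- the indicator of the primes of the blocks from `j` on -/
def cut (E : ℝ) (j p : ℕ) : ℝ := if (p : ℝ) ≤ XB E j then 1 else 0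

theorem XB_anti {E : ℝ} (hE : 0 ≤ E) {i j : ℕ} (h : i ≤ j) : XB E j ≤ XB E i := by
  unfold XB
  apply Real.exp_le_exp.2
  apply mul_le_mul_of_nonneg_left _ hE
  apply Real.exp_le_exp.2
  have : (i : ℝ) ≤ j := by exact_mod_cast h
  linarith

theorem cut_block {E : ℝ} (hE : 0 ≤ E) {i p : ℕ} (hp : p ∈ PB E i) (j : ℕ) : cut E j p = if j ≤ i then 1 else 0 := by
  obtain ⟨-, h1, h2⟩ := mem_PB hp
  unfold cut
  by_cases h : j ≤ i
  · rw [if_pos (h2.trans (XB_anti hE h)), if_pos h]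
  · rw [if_neg, if_neg h]
    have h3 : XB E j ≤ XB E (i + 1) := XB_anti hE (by omega)
    linarith

theorem cut_nonneg (E : ℝ) (j p : ℕ) : 0 ≤ cut E j p := by
  unfold cut
  split_ifs <;> norm_num

theorem cut_le_one (E : ℝ) (j p : ℕ) : cut E j p ≤ 1 := by
  unfold cut
  split_ifs <;> norm_num

theorem cut_sq (E : ℝ) (j p : ℕ) : cut E j p ^ 2 = cut E j p := by
  unfold cut
  split_ifs <;> norm_num

theorem cut_mul {E : ℝ} (hE : 0 ≤ E) (i j p : ℕ) : cut E i p * cut E j p = cut E (max i j) p := by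
  unfold cut
  rcases le_total i j with h | h
  · rw [max_eq_right h]
    have := XB_anti hE h
    split_ifs with h1 h2 h2
    · norm_num
    · norm_num
    · exfalso; exact h1 (h2.trans this)
    · norm_num
  · rw [max_eq_left h]
    have := XB_anti hE h
    split_ifs with h1 h2 h2
    · norm_num
    · exfalso; exact h2 (h1.trans this)
    · norm_num
    · norm_num

/-- the sum over one block -/
def Zb (E : ℝ) (i : ℕ) (τ : ℝ) : ℂ := zf E (fun _ => 1) (fun _ => 0) i τ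

theorem Zb_cont (E : ℝ) (i : ℕ) : Continuous (Zb E i) := dpc' _ _

theorem zf_c {E : ℝ} {i : ℕ} {c : ℕ → ℝ} {ci : ℝ} (hc : ∀ p ∈ PB E i, c p = ci) (u t : ℝ) :
    zf E (fun p => ((c p : ℝ) : ℂ) * ua u p) (fun _ => 0) i t = (ci : ℂ) * Zb E i (t + u) := by
  unfold Zb zf dp
  rw [Finset.mul_sum]
  refine Finset.sum_congr rfl fun n hn => ?_
  have hn1 := (Finset.mem_Icc.1 hn).1
  have hn0 : (n : ℂ) ≠ 0 := by
    have : n ≠ 0 := by omega
    exact_mod_cast this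
  unfold qb
  simp only [zero_div, ite_self, add_zero]
  by_cases h : n ∈ PB E i
  · rw [if_pos h, if_pos h, hc n h]
    unfold ua
    rw [one_mul, mul_assoc, ← Complex.cpow_add _ _ hn0]
    congr 2
    push_cast
    ring
  · rw [if_neg h, if_neg h]
    ring

/-- the real part of the sum over the blocks from `j` on -/
def SJ (E : ℝ) (j : ℕ) (τ : ℝ) : ℝ := (∑ i ∈ Finset.Ico j (JB E), Zb E i τ).re

theorem SJ_cont (E : ℝ) (j : ℕ) : Continuous (SJ E j) :=
  Complex.continuous_re.comp (continuous_finsetSum _ fun i _ => Zb_cont E i)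

theorem ite_sum {E : ℝ} {j : ℕ} (c τ : ℝ) :
    (∑ i ∈ Finset.range (JB E), ((c * (if j ≤ i then 1 else 0) : ℝ) : ℂ) * Zb E i τ).re = c * SJ E j τ := by
  have h1 : ∑ i ∈ Finset.range (JB E), ((c * (if j ≤ i then 1 else 0) : ℝ) : ℂ) * Zb E i τ =
      (c : ℂ) * ∑ i ∈ Finset.Ico j (JB E), Zb E i τ := by
    have h2 : Finset.Ico j (JB E) = (Finset.range (JB E)).filter (fun i => j ≤ i) := by
      ext i
      rw [Finset.mem_Ico, Finset.mem_filter, Finset.mem_range]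
      tauto
    rw [h2, Finset.sum_filter, Finset.mul_sum]
    refine Finset.sum_congr rfl fun i _ => ?_
    split_ifs
    · simp
    · simp
  rw [h1]
  unfold SJ
  simp

/-! ### sums over primes -/

theorem one_sub_cos_le (x : ℝ) : 1 - Real.cos x ≤ |x| := by
  rcases le_or_gt |x| 2 with h | h
  · have h1 := Real.one_sub_sq_div_two_le_cos (x := x)
    have h2 : x ^ 2 = |x| ^ 2 := (sq_abs x).symm
    have h3 := abs_nonneg x
    nlinarith
  · have := Real.neg_one_le_cos x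
    linarith

theorem norm_two (A1 A2 u v : ℝ) {p : ℕ} (hp : 0 < p) :
    ‖((A1 : ℝ) : ℂ) * ua (u + v) p + ((A2 : ℝ) : ℂ) * ua u p‖ ^ 2 = (A1 + A2) ^ 2 - 2 * A1 * A2 * (1 - Real.cos (v * Real.log p)) := by
  have hp0 : (p : ℂ) ≠ 0 := by exact_mod_cast hp.ne'
  have h1 : ∀ x : ℝ, ua x p = ((Real.cos (x * Real.log p) : ℝ) : ℂ) - ((Real.sin (x * Real.log p) : ℝ) : ℂ) * I := by
    intro x
    unfold ua
    rw [Complex.cpow_def_of_ne_zero hp0, ← Complex.natCast_log]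
    have e : ((Real.log p : ℝ) : ℂ) * (-((x : ℂ) * I)) = ((-(x * Real.log p) : ℝ) : ℂ) * I := by push_cast; ring
    rw [e, Complex.exp_mul_I, ← Complex.ofReal_cos, ← Complex.ofReal_sin, Real.cos_neg, Real.sin_neg]
    push_cast
    ring
  rw [h1 (u + v), h1 u, ← Complex.normSq_eq_norm_sq]
  have e2 : ((A1 : ℝ) : ℂ) * (((Real.cos ((u + v) * Real.log p) : ℝ) : ℂ) - ((Real.sin ((u + v) * Real.log p) : ℝ) : ℂ) * I) +
      ((A2 : ℝ) : ℂ) * (((Real.cos (u * Real.log p) : ℝ) : ℂ) - ((Real.sin (u * Real.log p) : ℝ) : ℂ) * I) =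
      ((A1 * Real.cos ((u + v) * Real.log p) + A2 * Real.cos (u * Real.log p) : ℝ) : ℂ) +
        ((-(A1 * Real.sin ((u + v) * Real.log p) + A2 * Real.sin (u * Real.log p)) : ℝ) : ℂ) * I := by
    push_cast
    ring
  rw [e2, Complex.normSq_add_mul_I, add_mul, Real.cos_add, Real.sin_add]
  have h2 := Real.sin_sq_add_cos_sq (u * Real.log p)
  have h3 := Real.sin_sq_add_cos_sq (v * Real.log p)
  obtain ⟨a, ha⟩ : ∃ a : ℝ, a = Real.cos (u * Real.log p) := ⟨_, rfl⟩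
  obtain ⟨b, hb⟩ : ∃ b : ℝ, b = Real.sin (u * Real.log p) := ⟨_, rfl⟩
  obtain ⟨c, hc⟩ : ∃ c : ℝ, c = Real.cos (v * Real.log p) := ⟨_, rfl⟩
  obtain ⟨d, hd⟩ : ∃ d : ℝ, d = Real.sin (v * Real.log p) := ⟨_, rfl⟩
  rw [← ha, ← hb] at h2 ⊢
  rw [← hc, ← hd] at h3 ⊢
  have e3 : (A1 * (a * c - b * d) + A2 * a) ^ 2 + (-(A1 * (b * c + a * d) + A2 * b)) ^ 2 =
      A1 ^ 2 * ((b ^ 2 + a ^ 2) * (d ^ 2 + c ^ 2)) + A2 ^ 2 * (b ^ 2 + a ^ 2) + 2 * A1 * A2 * c * (b ^ 2 + a ^ 2) := by ring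
  rw [e3, h2, h3]
  ring

/-- the comparison of two centres -/
theorem PS_two {B : ℝ} (hB : 0 ≤ B) : ∃ C : ℝ, 0 ≤ C ∧ ∀ (E : ℝ) (j : ℕ) (A1 A2 : ℕ → ℝ) (u v : ℝ), 1 ≤ E * Real.exp (-(j : ℝ)) →
    (∀ p, |A1 p| ≤ B) → (∀ p, |A2 p| ≤ B) → (∀ p : ℕ, ¬ (p : ℝ) ≤ XB E j → A2 p = 0) → |v| * (E * Real.exp (-(j : ℝ))) ≤ 1 →
    |PS E (fun p => ‖((A1 p : ℝ) : ℂ) * ua (u + v) p + ((A2 p : ℝ) : ℂ) * ua u p‖ ^ 2 / p) - PS E (fun p => (A1 p + A2 p) ^ 2 / p)| ≤ C := by
  obtain ⟨C, hC, hM⟩ := log_p_le (y := 0)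
  refine ⟨2 * B ^ 2 * (1 + C), by positivity, fun E j A1 A2 u v hE hA1 hA2 hsup hv => ?_⟩
  have hE0 : 0 < E := by
    by_contra h
    have h1 : E * Real.exp (-(j : ℝ)) ≤ 0 := mul_nonpos_of_nonpos_of_nonneg (not_lt.1 h) (Real.exp_pos _).le
    linarith
  obtain ⟨s, hs⟩ : ∃ s : Finset ℕ, s = (Finset.Icc 1 ⌊Real.exp E⌋₊).filter Nat.Prime := ⟨_, rfl⟩
  unfold PS
  rw [← hs, ← Finset.sum_sub_distrib]
  have hpr : ∀ p ∈ s, p.Prime := fun p hp => by rw [hs] at hp; exact (Finset.mem_filter.1 hp).2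
  have h1 : ∀ p ∈ s, ‖((A1 p : ℝ) : ℂ) * ua (u + v) p + ((A2 p : ℝ) : ℂ) * ua u p‖ ^ 2 / (p : ℝ) - (A1 p + A2 p) ^ 2 / p =
      -(2 * A1 p * A2 p * (1 - Real.cos (v * Real.log p)) / p) := by
    intro p hp
    rw [norm_two _ _ _ _ (hpr p hp).pos]
    ring
  rw [Finset.sum_congr rfl h1]
  refine (Finset.abs_sum_le_sum_abs _ _).trans ?_
  have h2 : ∀ p ∈ s, |(-(2 * A1 p * A2 p * (1 - Real.cos (v * Real.log p)) / (p : ℝ)))| ≤
      if (p : ℝ) ≤ XB E j then 2 * B ^ 2 * |v| * (Real.log p / p) else 0 := by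
    intro p hp
    have hp1 : (1 : ℝ) ≤ p := by exact_mod_cast (hpr p hp).one_lt.le
    split_ifs with h
    · rw [abs_neg, abs_div, abs_mul, abs_mul, abs_mul, abs_two, Nat.abs_cast]
      have h3 : |1 - Real.cos (v * Real.log p)| ≤ |v| * Real.log p := by
        have h4 := Real.cos_le_one (v * Real.log p)
        rw [abs_of_nonneg (by linarith)]
        refine (one_sub_cos_le _).trans (le_of_eq ?_)
        rw [abs_mul, abs_of_nonneg (Real.log_nonneg hp1)]
      have h5 : |A1 p| * |A2 p| ≤ B * B := mul_le_mul (hA1 p) (hA2 p) (abs_nonneg _) hB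
      have h6 : 2 * |A1 p| * |A2 p| * |1 - Real.cos (v * Real.log p)| ≤ 2 * (B * B) * (|v| * Real.log p) := by
        calc 2 * |A1 p| * |A2 p| * |1 - Real.cos (v * Real.log p)| = 2 * (|A1 p| * |A2 p|) * |1 - Real.cos (v * Real.log p)| := by ring
          _ ≤ _ := mul_le_mul (by linarith) h3 (abs_nonneg _) (by positivity)
      calc 2 * |A1 p| * |A2 p| * |1 - Real.cos (v * Real.log p)| / (p : ℝ) ≤ 2 * (B * B) * (|v| * Real.log p) / p :=
            div_le_div_of_nonneg_right h6 (by linarith)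
        _ = _ := by ring
    · rw [hsup p h]
      simp
  refine (Finset.sum_le_sum h2).trans ?_
  rw [← Finset.sum_filter, ← Finset.mul_sum]
  obtain ⟨F, hF⟩ : ∃ F : ℝ, F = E * Real.exp (-(j : ℝ)) := ⟨_, rfl⟩
  rw [← hF] at hE hv
  have hX : XB E j = Real.exp F := by unfold XB; rw [hF]
  have hX1 : 1 ≤ ⌊Real.exp F⌋₊ := by
    rw [Nat.one_le_floor_iff]
    exact Real.one_le_exp (by linarith)
  have h3 : ∑ p ∈ s.filter (fun p : ℕ => (p : ℝ) ≤ XB E j), Real.log p / (p : ℝ) ≤ F + C := by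
    have h4 : ∑ p ∈ s.filter (fun p : ℕ => (p : ℝ) ≤ XB E j), Real.log p / (p : ℝ) ≤
        ∑ p ∈ (Finset.Icc 1 ⌊Real.exp F⌋₊).filter Nat.Prime, Real.log p / (p : ℝ) := by
      refine Finset.sum_le_sum_of_subset_of_nonneg (fun p hp => ?_) fun p hp _ => ?_
      · rw [Finset.mem_filter] at hp
        rw [Finset.mem_filter, Finset.mem_Icc]
        refine ⟨⟨(hpr p hp.1).one_lt.le, ?_⟩, hpr p hp.1⟩
        rw [hX] at hp
        exact (Nat.le_floor_iff (Real.exp_pos _).le).2 hp.2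
      · have hp1 : (1 : ℝ) ≤ p := by
          have := (Finset.mem_Icc.1 (Finset.mem_filter.1 hp).1).1
          exact_mod_cast this
        exact div_nonneg (Real.log_nonneg hp1) (by linarith)
    refine h4.trans ((hM _ hX1).trans ?_)
    have h5 : Real.log (⌊Real.exp F⌋₊ : ℝ) ≤ F := by
      rw [Real.log_le_iff_le_exp (by exact_mod_cast hX1)]
      exact Nat.floor_le (Real.exp_pos _).le
    linarith
  have hv0 := abs_nonneg v
  have hv1 : |v| ≤ 1 := by nlinarith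
  calc 2 * B ^ 2 * |v| * ∑ p ∈ s.filter (fun p : ℕ => (p : ℝ) ≤ XB E j), Real.log p / (p : ℝ) ≤ 2 * B ^ 2 * |v| * (F + C) :=
        mul_le_mul_of_nonneg_left h3 (by positivity)
    _ = 2 * B ^ 2 * (|v| * F + |v| * C) := by ring
    _ ≤ 2 * B ^ 2 * (1 + C) := by
        apply mul_le_mul_of_nonneg_left _ (by positivity)
        nlinarith

/-- Mertens for the blocks from `j` on -/
theorem PS_cut : ∃ C : ℝ, 0 ≤ C ∧ ∀ (E : ℝ) (j : ℕ), 1 ≤ E * Real.exp (-(j : ℝ)) →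
    |PS E (fun p => cut E j p / p) - (Real.log E - j)| ≤ C := by
  obtain ⟨C, hC, hP⟩ := PR_log
  refine ⟨C + Real.log 3, by have := Real.log_pos (by norm_num : (1 : ℝ) < 3); positivity, fun E j hE => ?_⟩
  have hE0 : 0 < E := by
    by_contra h
    have h1 : E * Real.exp (-(j : ℝ)) ≤ 0 := mul_nonpos_of_nonpos_of_nonneg (not_lt.1 h) (Real.exp_pos _).le
    linarith
  obtain ⟨F, hF⟩ : ∃ F : ℝ, F = E * Real.exp (-(j : ℝ)) := ⟨_, rfl⟩
  have hX : XB E j = Real.exp F := by unfold XB; rw [hF]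
  rw [← hF] at hE
  have hlF : Real.log E - j = Real.log F := by
    rw [hF, Real.log_mul hE0.ne' (Real.exp_pos _).ne', Real.log_exp]
    ring
  have hFE : F ≤ E := by
    rw [hF]
    apply mul_le_of_le_one_right hE0.le
    rw [Real.exp_le_one_iff]
    have : (0 : ℝ) ≤ j := Nat.cast_nonneg j
    linarith
  have h1 : PS E (fun p => cut E j p / p) = PR ⌊Real.exp F⌋₊ := by
    unfold PS PR
    have e1 : ∀ p ∈ (Finset.Icc 1 ⌊Real.exp E⌋₊).filter Nat.Prime, cut E j p / (p : ℝ) = if (p : ℝ) ≤ Real.exp F then 1 / (p : ℝ) else 0 := by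
      intro p _
      unfold cut
      rw [hX]
      split_ifs <;> simp
    rw [Finset.sum_congr rfl e1, ← Finset.sum_filter]
    refine Finset.sum_congr ?_ fun p _ => rfl
    ext p
    rw [Finset.mem_filter, Finset.mem_filter, Finset.mem_filter, Finset.mem_Icc, Finset.mem_Icc, Nat.le_floor_iff (Real.exp_pos _).le,
      Nat.le_floor_iff (Real.exp_pos _).le]
    constructor
    · rintro ⟨⟨⟨h1, h2⟩, h3⟩, h4⟩
      exact ⟨⟨h1, h4⟩, h3⟩
    · rintro ⟨⟨h1, h2⟩, h3⟩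
      exact ⟨⟨⟨h1, h2.trans (Real.exp_le_exp.2 hFE)⟩, h3⟩, h2⟩
  obtain ⟨X, hXd⟩ : ∃ X : ℕ, X = ⌊Real.exp F⌋₊ := ⟨_, rfl⟩
  have he1 : (2 : ℝ) ≤ Real.exp F := by
    have := Real.add_one_le_exp F
    linarith
  have hX2 : 2 ≤ X := by
    rw [hXd]
    exact Nat.le_floor (by exact_mod_cast he1)
  have hX2' : (2 : ℝ) ≤ X := by exact_mod_cast hX2
  rw [h1, hlF, ← hXd]
  have h2 := hP X hX2
  have hX0 : (0 : ℝ) < X := by linarith
  have hup : Real.log X ≤ F := by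
    rw [Real.log_le_iff_le_exp hX0, hXd]
    exact Nat.floor_le (Real.exp_pos _).le
  have hlow : F ≤ 3 * Real.log X := by
    have h3 : Real.exp F < X + 1 := by rw [hXd]; exact Nat.lt_floor_add_one _
    have h4 : (X : ℝ) + 1 ≤ X ^ 2 := by nlinarith
    have h5 : F ≤ Real.log (X ^ 2 : ℝ) := by
      rw [Real.le_log_iff_exp_le (by positivity)]
      linarith
    rw [Real.log_pow] at h5
    have h6 : 0 ≤ Real.log X := Real.log_nonneg (by linarith)
    push_cast at h5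
    linarith
  have hlX : 0 < Real.log X := Real.log_pos (by linarith)
  have h3 : |Real.log (Real.log X) - Real.log F| ≤ Real.log 3 := by
    have h4 : Real.log (Real.log X) ≤ Real.log F := Real.log_le_log hlX hup
    have h5 : Real.log F ≤ Real.log 3 + Real.log (Real.log X) := by
      rw [← Real.log_mul (by norm_num) hlX.ne']
      exact Real.log_le_log (by linarith) hlow
    rw [abs_le]
    constructor <;> linarith
  have h4 : PR X - Real.log F = (PR X - Real.log (Real.log X)) + (Real.log (Real.log X) - Real.log F) := by ring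
  rw [h4]
  exact (abs_add_le _ _).trans (add_le_add h2 h3)

end

end Pool.Agent.H469.F4
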