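import Pool.Agent.H469.F4.N3

set_option autoImplicit false

/-!
# The predicted orders for the weights of the cells
-/

namespace Pool.Agent.H469.F4

open Filter Topology MeasureTheory Complex Pool.Agent.Q97.UM
open Pool.Agent.Q14.UM (mem_PB PB_disj cv_len)

noncomputable section

theorem PS_quad {B : ℝ} (hB : 0 ≤ B) : ∃ C : ℝ, 0 ≤ C ∧ ∀ (E c0 c1 c2 : ℝ) (j j' : ℕ), 1 ≤ E * Real.exp (-(j : ℝ)) →
    1 ≤ E * Real.exp (-(j' : ℝ)) → |c0| ≤ B → |c1| ≤ B → |c2| ≤ B →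
    |PS E (fun p => (c0 + c1 * cut E j p + c2 * cut E j' p) ^ 2 / p) -
      (c0 ^ 2 * Real.log E + (2 * c0 * c1 + c1 ^ 2) * (Real.log E - j) + (2 * c0 * c2 + c2 ^ 2) * (Real.log E - j') +
        2 * c1 * c2 * (Real.log E - ((max j j' : ℕ) : ℝ)))| ≤ C := by
  obtain ⟨C, hC, hP⟩ := PS_cut
  refine ⟨9 * B ^ 2 * C, by positivity, fun E c0 c1 c2 j j' hj hj' h0 h1 h2 => ?_⟩
  have hE0 : 0 < E := by
    by_contra h
    have h1 : E * Real.exp (-(j : ℝ)) ≤ 0 := mul_nonpos_of_nonpos_of_nonneg (not_lt.1 h) (Real.exp_pos _).le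
    linarith
  have hm : 1 ≤ E * Real.exp (-((max j j' : ℕ) : ℝ)) := by
    rcases le_total j j' with h | h
    · rw [max_eq_right h]; exact hj'
    · rw [max_eq_left h]; exact hj
  have hz : 1 ≤ E * Real.exp (-((0 : ℕ) : ℝ)) := by
    refine hj.trans (mul_le_mul_of_nonneg_left ?_ hE0.le)
    apply Real.exp_le_exp.2
    have : (0 : ℝ) ≤ j := Nat.cast_nonneg j
    push_cast
    linarith
  have e1 : PS E (fun p => (c0 + c1 * cut E j p + c2 * cut E j' p) ^ 2 / p) =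
      c0 ^ 2 * PS E (fun p => cut E 0 p / p) + (2 * c0 * c1 + c1 ^ 2) * PS E (fun p => cut E j p / p) +
        (2 * c0 * c2 + c2 ^ 2) * PS E (fun p => cut E j' p / p) + 2 * c1 * c2 * PS E (fun p => cut E (max j j') p / p) := by
    unfold PS
    rw [Finset.mul_sum, Finset.mul_sum, Finset.mul_sum, Finset.mul_sum, ← Finset.sum_add_distrib, ← Finset.sum_add_distrib,
      ← Finset.sum_add_distrib]
    refine Finset.sum_congr rfl fun p hp => ?_
    have h0 : cut E 0 p = 1 := by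
      unfold cut
      rw [if_pos]
      unfold XB
      have h3 := (Finset.mem_Icc.1 (Finset.mem_filter.1 hp).1).2
      have h4 := (Nat.le_floor_iff (Real.exp_pos _).le).1 h3
      simpa using h4
    rw [h0, ← cut_mul hE0.le]
    have h3 := cut_sq E j p
    have h4 := cut_sq E j' p
    have h5 : (c0 + c1 * cut E j p + c2 * cut E j' p) ^ 2 = c0 ^ 2 * 1 + 2 * c0 * c1 * cut E j p + c1 ^ 2 * cut E j p ^ 2 +
        2 * c0 * c2 * cut E j' p + c2 ^ 2 * cut E j' p ^ 2 + 2 * c1 * c2 * (cut E j p * cut E j' p) := by ring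
    show (c0 + c1 * cut E j p + c2 * cut E j' p) ^ 2 / (p : ℝ) = _
    rw [h5, h3, h4]
    ring
  have h00 := hP E 0 hz
  have hjj := hP E j hj
  have hj2 := hP E j' hj'
  have hmm := hP E _ hm
  rw [e1]
  obtain ⟨P0, hP0⟩ : ∃ P, P = PS E (fun p => cut E 0 p / p) := ⟨_, rfl⟩
  obtain ⟨P1, hP1⟩ : ∃ P, P = PS E (fun p => cut E j p / p) := ⟨_, rfl⟩
  obtain ⟨P2, hP2⟩ : ∃ P, P = PS E (fun p => cut E j' p / p) := ⟨_, rfl⟩
  obtain ⟨P3, hP3⟩ : ∃ P, P = PS E (fun p => cut E (max j j') p / p) := ⟨_, rfl⟩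
  rw [← hP0] at h00 ⊢
  rw [← hP1] at hjj ⊢
  rw [← hP2] at hj2 ⊢
  rw [← hP3] at hmm ⊢
  have k0 : |c0 ^ 2| ≤ B ^ 2 := by rw [abs_pow]; exact pow_le_pow_left₀ (abs_nonneg _) h0 2
  have kk : ∀ a b : ℝ, |a| ≤ B → |b| ≤ B → |2 * a * b + b ^ 2| ≤ 3 * B ^ 2 := by
    intro a b ha hb
    have e2 : |2 * a * b| = 2 * (|a| * |b|) := by rw [abs_mul, abs_mul, abs_two]; ring
    have e3 : |b ^ 2| ≤ B ^ 2 := by rw [abs_pow]; exact pow_le_pow_left₀ (abs_nonneg _) hb 2
    have e4 : |a| * |b| ≤ B * B := mul_le_mul ha hb (abs_nonneg _) hB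
    have e5 := abs_add_le (2 * a * b) (b ^ 2)
    nlinarith
  have k1 := kk c0 c1 h0 h1
  have k2 := kk c0 c2 h0 h2
  have k3 : |2 * c1 * c2| ≤ 2 * B ^ 2 := by
    have e2 : |2 * c1 * c2| = 2 * (|c1| * |c2|) := by rw [abs_mul, abs_mul, abs_two]; ring
    have e4 : |c1| * |c2| ≤ B * B := mul_le_mul h1 h2 (abs_nonneg _) hB
    nlinarith
  have e6 : c0 ^ 2 * P0 + (2 * c0 * c1 + c1 ^ 2) * P1 + (2 * c0 * c2 + c2 ^ 2) * P2 + 2 * c1 * c2 * P3 -
      (c0 ^ 2 * Real.log E + (2 * c0 * c1 + c1 ^ 2) * (Real.log E - j) + (2 * c0 * c2 + c2 ^ 2) * (Real.log E - j') +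
        2 * c1 * c2 * (Real.log E - ((max j j' : ℕ) : ℝ))) =
      c0 ^ 2 * (P0 - (Real.log E - ((0 : ℕ) : ℝ))) + (2 * c0 * c1 + c1 ^ 2) * (P1 - (Real.log E - j)) +
        (2 * c0 * c2 + c2 ^ 2) * (P2 - (Real.log E - j')) + 2 * c1 * c2 * (P3 - (Real.log E - ((max j j' : ℕ) : ℝ))) := by
    push_cast
    ring
  rw [e6]
  have a1 := abs_add_le (c0 ^ 2 * (P0 - (Real.log E - ((0 : ℕ) : ℝ))) + (2 * c0 * c1 + c1 ^ 2) * (P1 - (Real.log E - j)) +
        (2 * c0 * c2 + c2 ^ 2) * (P2 - (Real.log E - j'))) (2 * c1 * c2 * (P3 - (Real.log E - ((max j j' : ℕ) : ℝ))))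
  have a2 := abs_add_le (c0 ^ 2 * (P0 - (Real.log E - ((0 : ℕ) : ℝ))) + (2 * c0 * c1 + c1 ^ 2) * (P1 - (Real.log E - j)))
        ((2 * c0 * c2 + c2 ^ 2) * (P2 - (Real.log E - j')))
  have a3 := abs_add_le (c0 ^ 2 * (P0 - (Real.log E - ((0 : ℕ) : ℝ)))) ((2 * c0 * c1 + c1 ^ 2) * (P1 - (Real.log E - j)))
  have b0 : |c0 ^ 2 * (P0 - (Real.log E - ((0 : ℕ) : ℝ)))| ≤ B ^ 2 * C := by
    rw [abs_mul]; exact mul_le_mul k0 h00 (abs_nonneg _) (by positivity)
  have b1 : |(2 * c0 * c1 + c1 ^ 2) * (P1 - (Real.log E - j))| ≤ 3 * B ^ 2 * C := by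
    rw [abs_mul]; exact mul_le_mul k1 hjj (abs_nonneg _) (by positivity)
  have b2 : |(2 * c0 * c2 + c2 ^ 2) * (P2 - (Real.log E - j'))| ≤ 3 * B ^ 2 * C := by
    rw [abs_mul]; exact mul_le_mul k2 hj2 (abs_nonneg _) (by positivity)
  have b3 : |2 * c1 * c2 * (P3 - (Real.log E - ((max j j' : ℕ) : ℝ)))| ≤ 2 * B ^ 2 * C := by
    rw [abs_mul]; exact mul_le_mul k3 hmm (abs_nonneg _) (by positivity)
  linarith

/-- the weights of the cells -/
def yA (E γ q : ℝ) (j : ℕ) (x : ℝ) : ℕ → ℂ := fun p => (((q - 1) * γ / 2 * cut E j p : ℝ) : ℂ) * ua x p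

def yB (E γ q : ℝ) (j : ℕ) (x : ℝ) : ℕ → ℂ := fun p => ((q * γ / 2 * cut E j p : ℝ) : ℂ) * ua x p

def yC (E γ q β : ℝ) (j j' : ℕ) (x v : ℝ) : ℕ → ℂ := fun p => yA E γ q j x p + ((β * (cut E j' p - cut E j p) : ℝ) : ℂ) * ua (x + v) p

/-- the exponent -/
def expo (E γ q : ℝ) (j : ℕ) : ℝ := γ ^ 2 / 4 * j + q ^ 2 * γ ^ 2 / 4 * (Real.log E - j)

theorem abs_mul_cut_le {B a : ℝ} (ha : |a| ≤ B) (E : ℝ) (j p : ℕ) : |a * cut E j p| ≤ B := by
  rw [abs_mul, abs_of_nonneg (cut_nonneg E j p)]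
  have h1 := cut_le_one E j p
  have h2 := cut_nonneg E j p
  have h3 := abs_nonneg a
  nlinarith

/-- **the predicted orders** -/
theorem VV_all {B : ℝ} (hB : 1 ≤ B) : ∃ C : ℝ, 0 ≤ C ∧ ∀ (E γ q x : ℝ) (j : ℕ), 1 ≤ E * Real.exp (-(j : ℝ)) → 0 ≤ γ → 1 ≤ q → γ ≤ B → q * γ ≤ B →
    (VV E (fun _ => 0) (yB E γ q j x) ≤ Real.exp C * Real.exp (q ^ 2 * γ ^ 2 / 4 * (Real.log E - j))) ∧
    ∀ v : ℝ, |v| * (E * Real.exp (-(j : ℝ))) ≤ 1 →
      Real.exp (-C) * Real.exp (expo E γ q j) ≤ VV E (aw γ (x + v)) (yA E γ q j x) ∧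
      VV E (aw γ (x + v)) (yA E γ q j x) ≤ Real.exp C * Real.exp (expo E γ q j) ∧
      ∀ (β : ℝ) (j' : ℕ), |β| ≤ B → 1 ≤ E * Real.exp (-(j' : ℝ)) →
        (j ≤ j' → VV E (aw γ (x + v)) (yC E γ q β j j' x v) ≤ Real.exp C * Real.exp (expo E γ q j) *
          Real.exp (-(((j' : ℝ) - j) * (q * γ * β - β ^ 2)))) ∧
        (j' ≤ j → VV E (aw γ (x + v)) (yC E γ q β j j' x v) ≤ Real.exp C * Real.exp (expo E γ q j) *
          Real.exp (((j : ℝ) - j') * (γ * β + β ^ 2))) := by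
  obtain ⟨C1, hC1, h1⟩ := PS_two (B := 3 * B) (by linarith)
  obtain ⟨C2, hC2, h2⟩ := PS_quad (B := 3 * B) (by linarith)
  refine ⟨C1 + C2, by positivity, fun E γ q x j hj hγ hq hγB hqB => ?_⟩
  have hγa : |γ / 2| ≤ 3 * B := by rw [abs_of_nonneg (by positivity)]; linarith
  have hqa0 : 0 ≤ (q - 1) * γ / 2 := by
    have : 0 ≤ (q - 1) * γ := mul_nonneg (by linarith) hγ
    linarith
  have hqa1 : (q - 1) * γ / 2 ≤ B := by nlinarith
  have hqa : |(q - 1) * γ / 2| ≤ 3 * B := by rw [abs_of_nonneg hqa0]; linarith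
  have hqb0 : 0 ≤ q * γ / 2 := by positivity
  have hqb : |q * γ / 2| ≤ 3 * B := by rw [abs_of_nonneg hqb0]; linarith
  have h0B : |(0 : ℝ)| ≤ 3 * B := by rw [abs_zero]; linarith
  refine ⟨?_, fun v hv => ⟨?_, ?_, fun β j' hβ hj' => ?_⟩⟩
  · have k1 := h1 E j (fun _ => 0) (fun p => q * γ / 2 * cut E j p) x 0 hj (fun _ => h0B) (fun p => abs_mul_cut_le hqb E j p)
      (fun p hp => by show q * γ / 2 * cut E j p = 0; unfold cut; rw [if_neg hp, mul_zero]) (by rw [abs_zero, zero_mul]; norm_num)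
    have k2 := h2 E 0 (q * γ / 2) 0 j j hj hj h0B hqb h0B
    have e1 : PS E (fun p => ‖(fun _ : ℕ => (0 : ℂ)) p + yB E γ q j x p‖ ^ 2 / p) =
        PS E (fun p => ‖(((fun _ : ℕ => (0 : ℝ)) p : ℝ) : ℂ) * ua (x + 0) p + (((fun p => q * γ / 2 * cut E j p) p : ℝ) : ℂ) * ua x p‖ ^ 2 / p) := by
      congr 1
      funext p
      unfold yB
      simp
    have e2 : PS E (fun p => ((fun _ : ℕ => (0 : ℝ)) p + (fun p => q * γ / 2 * cut E j p) p) ^ 2 / p) =
        PS E (fun p => (0 + q * γ / 2 * cut E j p + 0 * cut E j p) ^ 2 / p) := by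
      congr 1
      funext p
      simp
    rw [← e1, e2] at k1
    unfold VV
    rw [← Real.exp_add]
    apply Real.exp_le_exp.2
    rw [abs_le] at k1 k2
    have e3 : (2 * 0 * (q * γ / 2) + (q * γ / 2) ^ 2) * (Real.log E - j) = q ^ 2 * γ ^ 2 / 4 * (Real.log E - j) := by ring
    rw [e3] at k2
    have k3 := k1.2
    have k4 := k2.2
    simp only [mul_zero, zero_mul, ne_eq, OfNat.ofNat_ne_zero, not_false_eq_true, zero_pow, add_zero, zero_add] at k4
    simp only [mul_zero, zero_mul, ne_eq, OfNat.ofNat_ne_zero, not_false_eq_true, zero_pow, add_zero, zero_add] at k3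
    simp only [zero_add]
    linarith
  · have k1 := h1 E j (fun _ => γ / 2) (fun p => (q - 1) * γ / 2 * cut E j p) x v hj (fun _ => hγa) (fun p => abs_mul_cut_le hqa E j p)
      (fun p hp => by show (q - 1) * γ / 2 * cut E j p = 0; unfold cut; rw [if_neg hp, mul_zero]) hv
    have k2 := h2 E (γ / 2) ((q - 1) * γ / 2) 0 j j hj hj hγa hqa h0B
    have e2 : PS E (fun p => ((fun _ : ℕ => γ / 2) p + (fun p => (q - 1) * γ / 2 * cut E j p) p) ^ 2 / p) =
        PS E (fun p => (γ / 2 + (q - 1) * γ / 2 * cut E j p + 0 * cut E j p) ^ 2 / p) := by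
      congr 1
      funext p
      simp
    rw [e2] at k1
    unfold VV
    rw [← Real.exp_add]
    apply Real.exp_le_exp.2
    rw [abs_le] at k1 k2
    have k3 := k1.1
    have k4 := k2.1
    have e3 : (γ / 2) ^ 2 * Real.log E + (2 * (γ / 2) * ((q - 1) * γ / 2) + ((q - 1) * γ / 2) ^ 2) * (Real.log E - j) = expo E γ q j := by
      unfold expo; ring
    have e4 : PS E (fun p => ‖(((fun _ : ℕ => γ / 2) p : ℝ) : ℂ) * ua (x + v) p + (((fun p => (q - 1) * γ / 2 * cut E j p) p : ℝ) : ℂ) * ua x p‖ ^ 2 / p) =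
        PS E (fun p => ‖aw γ (x + v) p + yA E γ q j x p‖ ^ 2 / p) := rfl
    rw [e4] at k3
    simp only [mul_zero, zero_mul, ne_eq, OfNat.ofNat_ne_zero, not_false_eq_true, zero_pow, add_zero] at k3 k4
    rw [e3] at k4
    linarith
  · have k1 := h1 E j (fun _ => γ / 2) (fun p => (q - 1) * γ / 2 * cut E j p) x v hj (fun _ => hγa) (fun p => abs_mul_cut_le hqa E j p)
      (fun p hp => by show (q - 1) * γ / 2 * cut E j p = 0; unfold cut; rw [if_neg hp, mul_zero]) hv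
    have k2 := h2 E (γ / 2) ((q - 1) * γ / 2) 0 j j hj hj hγa hqa h0B
    have e2 : PS E (fun p => ((fun _ : ℕ => γ / 2) p + (fun p => (q - 1) * γ / 2 * cut E j p) p) ^ 2 / p) =
        PS E (fun p => (γ / 2 + (q - 1) * γ / 2 * cut E j p + 0 * cut E j p) ^ 2 / p) := by
      congr 1
      funext p
      simp
    rw [e2] at k1
    unfold VV
    rw [← Real.exp_add]
    apply Real.exp_le_exp.2
    rw [abs_le] at k1 k2
    have k3 := k1.2
    have k4 := k2.2
    have e3 : (γ / 2) ^ 2 * Real.log E + (2 * (γ / 2) * ((q - 1) * γ / 2) + ((q - 1) * γ / 2) ^ 2) * (Real.log E - j) = expo E γ q j := by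
      unfold expo; ring
    have e4 : PS E (fun p => ‖(((fun _ : ℕ => γ / 2) p : ℝ) : ℂ) * ua (x + v) p + (((fun p => (q - 1) * γ / 2 * cut E j p) p : ℝ) : ℂ) * ua x p‖ ^ 2 / p) =
        PS E (fun p => ‖aw γ (x + v) p + yA E γ q j x p‖ ^ 2 / p) := rfl
    rw [e4] at k3
    simp only [mul_zero, zero_mul, ne_eq, OfNat.ofNat_ne_zero, not_false_eq_true, zero_pow, add_zero] at k3 k4
    rw [e3] at k4
    linarith
  · -- the competitors
    have hA1 : ∀ p : ℕ, |γ / 2 + β * (cut E j' p - cut E j p)| ≤ 3 * B := by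
      intro p
      have a1 := cut_nonneg E j' p
      have a2 := cut_le_one E j' p
      have a3 := cut_nonneg E j p
      have a4 := cut_le_one E j p
      have a5 : |cut E j' p - cut E j p| ≤ 1 := by rw [abs_le]; constructor <;> linarith
      have a6 : |β * (cut E j' p - cut E j p)| ≤ B := by
        rw [abs_mul]
        have := abs_nonneg β
        have := abs_nonneg (cut E j' p - cut E j p)
        nlinarith
      have a7 : |γ / 2| ≤ B := by rw [abs_of_nonneg (by positivity)]; linarith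
      exact (abs_add_le _ _).trans (by linarith)
    have k1 := h1 E j (fun p => γ / 2 + β * (cut E j' p - cut E j p)) (fun p => (q - 1) * γ / 2 * cut E j p) x v hj hA1
      (fun p => abs_mul_cut_le hqa E j p)
      (fun p hp => by show (q - 1) * γ / 2 * cut E j p = 0; unfold cut; rw [if_neg hp, mul_zero]) hv
    have hc1 : |(q - 1) * γ / 2 - β| ≤ 3 * B := by
      have := abs_sub ((q - 1) * γ / 2) β
      rw [abs_of_nonneg hqa0] at this
      linarith
    have k2 := h2 E (γ / 2) ((q - 1) * γ / 2 - β) β j j' hj hj' hγa hc1 (by linarith)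
    have e2 : PS E (fun p => ((fun p => γ / 2 + β * (cut E j' p - cut E j p)) p + (fun p => (q - 1) * γ / 2 * cut E j p) p) ^ 2 / p) =
        PS E (fun p => (γ / 2 + ((q - 1) * γ / 2 - β) * cut E j p + β * cut E j' p) ^ 2 / p) := by
      congr 1
      funext p
      ring
    rw [e2] at k1
    have e4 : PS E (fun p => ‖(((fun p => γ / 2 + β * (cut E j' p - cut E j p)) p : ℝ) : ℂ) * ua (x + v) p +
        (((fun p => (q - 1) * γ / 2 * cut E j p) p : ℝ) : ℂ) * ua x p‖ ^ 2 / p) =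
        PS E (fun p => ‖aw γ (x + v) p + yC E γ q β j j' x v p‖ ^ 2 / p) := by
      congr 1
      funext p
      unfold yC yA aw
      push_cast
      congr 2
      ring_nf
    rw [e4] at k1
    rw [abs_le] at k1 k2
    have k3 := k1.2
    have k4 := k2.2
    constructor
    · intro hjj
      unfold VV
      rw [← Real.exp_add, ← Real.exp_add]
      apply Real.exp_le_exp.2
      rw [max_eq_right hjj] at k4
      have e3 : (γ / 2) ^ 2 * Real.log E + (2 * (γ / 2) * ((q - 1) * γ / 2 - β) + ((q - 1) * γ / 2 - β) ^ 2) * (Real.log E - j) +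
          (2 * (γ / 2) * β + β ^ 2) * (Real.log E - j') + 2 * ((q - 1) * γ / 2 - β) * β * (Real.log E - j') =
          expo E γ q j + -(((j' : ℝ) - j) * (q * γ * β - β ^ 2)) := by
        unfold expo; ring
      rw [e3] at k4
      linarith
    · intro hjj
      unfold VV
      rw [← Real.exp_add, ← Real.exp_add]
      apply Real.exp_le_exp.2
      rw [max_eq_left hjj] at k4
      have e3 : (γ / 2) ^ 2 * Real.log E + (2 * (γ / 2) * ((q - 1) * γ / 2 - β) + ((q - 1) * γ / 2 - β) ^ 2) * (Real.log E - j) +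
          (2 * (γ / 2) * β + β ^ 2) * (Real.log E - j') + 2 * ((q - 1) * γ / 2 - β) * β * (Real.log E - j) =
          expo E γ q j + ((j : ℝ) - j') * (γ * β + β ^ 2) := by
        unfold expo; ring
      rw [e3] at k4
      linarith

end

end Pool.Agent.H469.F4
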