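import Pool.Agent.H469.F4.N4

set_option autoImplicit false

/-!
# The weights of the cells: pointwise inequalities
-/

namespace Pool.Agent.H469.F4

open Filter Topology MeasureTheory Complex Pool.Agent.Q97.UM
open Pool.Agent.Q14.UM (mem_PB PB_disj cv_len)

noncomputable section

theorem zf_yA {E : ℝ} (hE : 0 ≤ E) (γ q : ℝ) (j : ℕ) (x : ℝ) (i : ℕ) (t : ℝ) :
    zf E (yA E γ q j x) (fun _ => 0) i t = (((q - 1) * γ / 2 * (if j ≤ i then 1 else 0) : ℝ) : ℂ) * Zb E i (t + x) :=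
  zf_c (c := fun p => (q - 1) * γ / 2 * cut E j p) (fun p hp => by rw [cut_block hE hp]) x t

theorem zf_yB {E : ℝ} (hE : 0 ≤ E) (γ q : ℝ) (j : ℕ) (x : ℝ) (i : ℕ) (t : ℝ) :
    zf E (yB E γ q j x) (fun _ => 0) i t = ((q * γ / 2 * (if j ≤ i then 1 else 0) : ℝ) : ℂ) * Zb E i (t + x) :=
  zf_c (c := fun p => q * γ / 2 * cut E j p) (fun p hp => by rw [cut_block hE hp]) x t

theorem zf_yC {E : ℝ} (hE : 0 ≤ E) (γ q β : ℝ) (j j' : ℕ) (x v : ℝ) (i : ℕ) (t : ℝ) :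
    zf E (yC E γ q β j j' x v) (fun _ => 0) i t = (((q - 1) * γ / 2 * (if j ≤ i then 1 else 0) : ℝ) : ℂ) * Zb E i (t + x) +
      ((β * ((if j' ≤ i then 1 else 0) - (if j ≤ i then 1 else 0)) : ℝ) : ℂ) * Zb E i (t + (x + v)) := by
  have h1 := zf_add E (yA E γ q j x) (fun _ => 0) (fun p => ((β * (cut E j' p - cut E j p) : ℝ) : ℂ) * ua (x + v) p) (fun _ => 0) i t
  have h2 : (fun p : ℕ => (fun _ : ℕ => (0 : ℂ)) p + (fun _ : ℕ => (0 : ℂ)) p) = fun _ => 0 := by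
    funext p
    simp
  rw [h2] at h1
  have h3 := zf_c (E := E) (i := i) (c := fun p => β * (cut E j' p - cut E j p))
    (ci := β * ((if j' ≤ i then 1 else 0) - (if j ≤ i then 1 else 0))) (fun p hp => by rw [cut_block hE hp, cut_block hE hp]) (x + v) t
  rw [zf_yA hE, h3] at h1
  exact h1

/-- the penalty sequence -/
def wS (S x : ℝ) : ℕ → ℂ := sc S (ua x)

theorem wS_norm {S : ℝ} (hS : 0 ≤ S) (x : ℝ) (n : ℕ) : ‖wS S x n‖ ≤ S := by
  have := sc_norm hS (a := ua x) (A := 1) (fun n => Pool.Agent.Q184.UM.ua_norm x n) n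
  rwa [mul_one] at this

theorem zf_wS (E S x : ℝ) (i : ℕ) (t : ℝ) : zf E (wS S x) (fun _ => 0) i t = (S : ℂ) * Zb E i (t + x) :=
  zf_c (c := fun _ => S) (fun _ _ => rfl) x t

/-- the good points -/
def GG (S E κ' : ℝ) (τ : ℝ) : Prop := ∀ i, i < JB E → 20 * (S * ‖Zb E i τ‖) ≤ (R9 κ' i : ℝ)

theorem bad_GG {S E κ' : ℝ} (hS : 0 ≤ S) (hκ : 0 < κ') {x t : ℝ} (h : ¬ GG S E κ' (t + x)) :
    1 ≤ ∑ i ∈ Finset.range (JB E), ‖pw E κ' (wS S x) (fun _ => 0) (i + 1) t‖ ^ 2 := by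
  have h1 : t ∉ Gd S E κ' (ua x) (fun _ => 0) := by
    intro ht
    apply h
    intro i hi
    have h2 := ht i hi
    have h3 : zf E (ua x) (fun _ => 0) i t = Zb E i (t + x) := by
      have h4 := zf_c (E := E) (i := i) (c := fun _ => (1 : ℝ)) (ci := 1) (fun _ _ => rfl) x t
      simpa using h4
    rwa [h3] at h2
  have h2 := bad_pw hS hκ h1
  have h3 : sc S (fun _ : ℕ => (0 : ℂ)) = fun _ => 0 := by
    funext n
    unfold sc
    simp
  rw [h3] at h2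
  exact h2

theorem sq_bounds {a M : ℝ} (ha : 0 ≤ a) (hM : 0 < M) (h : 1 / 2 * M ≤ a ∧ a ≤ 2 * M) : a ^ 2 ≤ 4 * M ^ 2 ∧ M ^ 2 ≤ 4 * a ^ 2 := by
  constructor
  · have := pow_le_pow_left₀ ha h.2 2
    nlinarith
  · have := pow_le_pow_left₀ (by positivity) h.1 2
    nlinarith

theorem Mm_sum {E : ℝ} (hE : 1 ≤ E) (y : ℕ → ℂ) (t : ℝ) :
    Mm E y (fun _ => 0) t = Real.exp ((∑ i ∈ Finset.range (JB E), zf E y (fun _ => 0) i t).re) := by
  unfold Mm
  rw [sum_zf hE]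

/-- the weight `yA` at good points -/
theorem Pf_yA {B S E κ' : ℝ} (hE : 1 ≤ E) (hκ : 16 ≤ κ') (hS : 1 ≤ S) (hBS : B ≤ S) {γ q : ℝ} (hγ : 0 ≤ γ) (hq : 1 ≤ q) (hqB : q * γ ≤ B)
    {x t : ℝ} (j : ℕ) (h : GG S E κ' (t + x)) :
    Pf E κ' (yA E γ q j x) t ≤ 4 * Real.exp ((q - 1) * γ * SJ E j (t + x)) ∧
      Real.exp (q * γ * SJ E j (t + x)) ≤ 4 * Pf E κ' (yB E γ q j x) t := by
  have hE0 : 0 ≤ E := by linarith
  have hblk : ∀ (c : ℝ) (i : ℕ), |c| ≤ S → i < JB E → ‖((c * (if j ≤ i then 1 else 0) : ℝ) : ℂ) * Zb E i (t + x)‖ ≤ (R9 κ' i : ℝ) / 10 := by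
    intro c i hc hi
    have h1 := h i hi
    rw [norm_mul, Complex.norm_real, Real.norm_eq_abs]
    have h2 : |c * (if j ≤ i then 1 else 0)| ≤ S := by
      split_ifs
      · rwa [mul_one]
      · rw [mul_zero, abs_zero]; linarith
    have h3 : |c * (if j ≤ i then 1 else 0)| * ‖Zb E i (t + x)‖ ≤ S * ‖Zb E i (t + x)‖ := mul_le_mul_of_nonneg_right h2 (norm_nonneg _)
    have h4 : (0 : ℝ) ≤ R9 κ' i := Nat.cast_nonneg _
    linarith
  have hq0 : 0 ≤ (q - 1) * γ := mul_nonneg (by linarith) hγ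
  have hqa : |(q - 1) * γ / 2| ≤ S := by
    rw [abs_of_nonneg (by linarith)]
    nlinarith
  have hqb : |q * γ / 2| ≤ S := by
    rw [abs_of_nonneg (by positivity)]
    have : 0 ≤ q * γ := by positivity
    linarith
  have hA := cmp_small (t := t) hE hκ (a := yA E γ q j x) (a2 := fun _ => 0) fun i hi => by
    rw [zf_yA hE0]
    exact hblk _ i hqa hi
  have hB := cmp_small (t := t) hE hκ (a := yB E γ q j x) (a2 := fun _ => 0) fun i hi => by
    rw [zf_yB hE0]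
    exact hblk _ i hqb hi
  have eA : Mm E (yA E γ q j x) (fun _ => 0) t = Real.exp ((q - 1) * γ / 2 * SJ E j (t + x)) := by
    rw [Mm_sum hE, ← ite_sum]
    congr 2
    exact Finset.sum_congr rfl fun i _ => zf_yA hE0 γ q j x i t
  have eB : Mm E (yB E γ q j x) (fun _ => 0) t = Real.exp (q * γ / 2 * SJ E j (t + x)) := by
    rw [Mm_sum hE, ← ite_sum]
    congr 2
    exact Finset.sum_congr rfl fun i _ => zf_yB hE0 γ q j x i t
  rw [eA] at hA
  rw [eB] at hB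
  obtain ⟨a1, -⟩ := sq_bounds (norm_nonneg _) (Real.exp_pos _) hA
  obtain ⟨-, b2⟩ := sq_bounds (norm_nonneg _) (Real.exp_pos _) hB
  rw [← Real.exp_nat_mul] at a1 b2
  constructor
  · refine a1.trans (le_of_eq ?_)
    congr 2
    push_cast
    ring
  · refine le_trans (le_of_eq ?_) b2
    congr 1
    push_cast
    ring

/-- the weight `yC` at good points -/
theorem Pf_yC {B S E κ' : ℝ} (hE : 1 ≤ E) (hκ : 16 ≤ κ') (hS : 1 ≤ S) (hBS : B ≤ S) {γ q β : ℝ} (hγ : 0 ≤ γ) (hq : 1 ≤ q) (hqB : q * γ ≤ B)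
    (hβ : |β| ≤ B) {x v t : ℝ} (j j' : ℕ) (h : GG S E κ' (t + x)) (h' : GG S E κ' (t + (x + v))) :
    Real.exp ((q - 1) * γ * SJ E j (t + x)) * Real.exp (2 * β * (SJ E j' (t + (x + v)) - SJ E j (t + (x + v)))) ≤
      4 * Pf E κ' (yC E γ q β j j' x v) t := by
  have hE0 : 0 ≤ E := by linarith
  have hq0 : 0 ≤ (q - 1) * γ := mul_nonneg (by linarith) hγ
  have hC := cmp_small (t := t) hE hκ (a := yC E γ q β j j' x v) (a2 := fun _ => 0) fun i hi => by
    rw [zf_yC hE0]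
    refine (norm_add_le _ _).trans ?_
    rw [norm_mul, norm_mul, Complex.norm_real, Real.norm_eq_abs, Complex.norm_real, Real.norm_eq_abs]
    have h1 := h i hi
    have h2 := h' i hi
    have h3 : |(q - 1) * γ / 2 * (if j ≤ i then 1 else 0)| ≤ S := by
      split_ifs
      · rw [mul_one, abs_of_nonneg (by linarith)]
        nlinarith
      · rw [mul_zero, abs_zero]; linarith
    have h4 : |β * ((if j' ≤ i then 1 else 0) - (if j ≤ i then 1 else 0))| ≤ S := by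
      rw [abs_mul]
      have h5 : |((if j' ≤ i then 1 else 0) - (if j ≤ i then 1 else 0) : ℝ)| ≤ 1 := by
        split_ifs <;> norm_num
      have h6 := abs_nonneg β
      calc |β| * |((if j' ≤ i then 1 else 0) - (if j ≤ i then 1 else 0) : ℝ)| ≤ |β| * 1 := mul_le_mul_of_nonneg_left h5 h6
        _ ≤ S := by linarith
    have h5 := mul_le_mul_of_nonneg_right h3 (norm_nonneg (Zb E i (t + x)))
    have h6 := mul_le_mul_of_nonneg_right h4 (norm_nonneg (Zb E i (t + (x + v))))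
    linarith
  have eC : Mm E (yC E γ q β j j' x v) (fun _ => 0) t =
      Real.exp ((q - 1) * γ / 2 * SJ E j (t + x) + (β * SJ E j' (t + (x + v)) - β * SJ E j (t + (x + v)))) := by
    rw [Mm_sum hE, ← ite_sum, ← ite_sum, ← ite_sum, ← Complex.sub_re, ← Complex.add_re, ← Finset.sum_sub_distrib, ← Finset.sum_add_distrib]
    congr 2
    refine Finset.sum_congr rfl fun i _ => ?_
    rw [zf_yC hE0]
    push_cast
    ring
  rw [eC] at hC
  obtain ⟨-, b2⟩ := sq_bounds (norm_nonneg _) (Real.exp_pos _) hC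
  rw [← Real.exp_nat_mul] at b2
  refine le_trans (le_of_eq ?_) b2
  rw [← Real.exp_add]
  congr 1
  push_cast
  ring

/-- Young's inequality -/
theorem young {z M μ q : ℝ} (hz : 0 ≤ z) (hM : 0 < M) (hμ : 0 < μ) (hq : 1 ≤ q) :
    z * M ^ (q - 1) ≤ μ ^ (-(q - 1)) * z ^ q + μ * M ^ q := by
  have hMq : M ^ q = M * M ^ (q - 1) := by
    rw [← Real.rpow_one_add' hM.le (by linarith)]
    congr 1
    ring
  have h1 : 0 ≤ M ^ (q - 1) := by positivity
  have h2 : 0 ≤ μ ^ (-(q - 1)) * z ^ q := by positivity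
  have h3 : 0 ≤ μ * M ^ q := by positivity
  rcases le_or_gt (μ * M) z with h | h
  · have hz0 : 0 < z := lt_of_lt_of_le (by positivity) h
    have h4 : M ≤ z / μ := by rw [le_div_iff₀ hμ]; linarith
    have h5 : z * M ^ (q - 1) ≤ μ ^ (-(q - 1)) * z ^ q := by
      calc z * M ^ (q - 1) ≤ z * (z / μ) ^ (q - 1) := mul_le_mul_of_nonneg_left (Real.rpow_le_rpow hM.le h4 (by linarith)) hz
        _ = μ ^ (-(q - 1)) * (z * z ^ (q - 1)) := by
            rw [Real.div_rpow hz hμ.le, Real.rpow_neg hμ.le]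
            field_simp
        _ = μ ^ (-(q - 1)) * z ^ q := by
            rw [← Real.rpow_one_add' hz (by linarith)]
            congr 2
            ring
    linarith
  · have h5 : z * M ^ (q - 1) ≤ μ * M ^ q := by
      rw [hMq]
      calc z * M ^ (q - 1) ≤ (μ * M) * M ^ (q - 1) := mul_le_mul_of_nonneg_right h.le h1
        _ = _ := by ring
    linarith

/-- joint continuity -/
theorem TEx_cont (R : ℕ) : Continuous (TEx R) := by
  unfold TEx
  fun_prop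

theorem Pf_prod {E κ' : ℝ} (hE : 1 ≤ E) (hκ : 1 ≤ κ') (y : ℕ → ℂ) (t : ℝ) :
    Pf E κ' y t = ‖∏ i ∈ Finset.range (JB E), TEx (R9 κ' i) (zf E y (fun _ => 0) i t)‖ ^ 2 := by
  unfold Pf
  rw [dp_ebk hE hκ]

theorem Pf_yC_cont {E κ' : ℝ} (hE : 1 ≤ E) (hκ : 1 ≤ κ') (γ q β : ℝ) (j j' : ℕ) (x : ℝ) :
    Continuous fun z : ℝ × ℝ => Pf E κ' (yC E γ q β j j' x z.2) z.1 := by
  have h : (fun z : ℝ × ℝ => Pf E κ' (yC E γ q β j j' x z.2) z.1) = fun z : ℝ × ℝ =>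
      ‖∏ i ∈ Finset.range (JB E), TEx (R9 κ' i) ((((q - 1) * γ / 2 * (if j ≤ i then 1 else 0) : ℝ) : ℂ) * Zb E i (z.1 + x) +
      ((β * ((if j' ≤ i then 1 else 0) - (if j ≤ i then 1 else 0)) : ℝ) : ℂ) * Zb E i (z.1 + (x + z.2)))‖ ^ 2 := by
    funext z
    rw [Pf_prod hE hκ]
    congr 2
    exact Finset.prod_congr rfl fun i _ => by rw [zf_yC (by linarith)]
  rw [h]
  refine (continuous_finsetProd _ fun i _ => ?_).norm.pow 2
  refine (TEx_cont _).comp ?_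
  have h1 : Continuous fun z : ℝ × ℝ => Zb E i (z.1 + x) := (Zb_cont E i).comp (by fun_prop)
  have h2 : Continuous fun z : ℝ × ℝ => Zb E i (z.1 + (x + z.2)) := (Zb_cont E i).comp (by fun_prop)
  exact (continuous_const.mul h1).add (continuous_const.mul h2)

theorem pw_wS_cont (E κ' S x : ℝ) (i : ℕ) :
    Continuous fun z : ℝ × ℝ => ‖pw E κ' (wS S (x + z.2)) (fun _ => 0) (i + 1) z.1‖ ^ 2 := by
  have h : (fun z : ℝ × ℝ => ‖pw E κ' (wS S (x + z.2)) (fun _ => 0) (i + 1) z.1‖ ^ 2) = fun z : ℝ × ℝ =>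
      ‖(20 * ((S : ℂ) * Zb E i (z.1 + (x + z.2))) / (R9 κ' i : ℂ)) ^ s7 i‖ ^ 2 := by
    funext z
    show ‖(20 * zf E (wS S (x + z.2)) (fun _ => 0) i z.1 / (R9 κ' i : ℂ)) ^ s7 i‖ ^ 2 = _
    rw [zf_wS]
  rw [h]
  have h2 : Continuous fun z : ℝ × ℝ => Zb E i (z.1 + (x + z.2)) := (Zb_cont E i).comp (by fun_prop)
  exact (((continuous_const.mul (continuous_const.mul h2)).div_const _).pow _).norm.pow 2

end

end Pool.Agent.H469.F4
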