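import Pool.Agent.H469.F4.N5
import Pool.Agent.H469.F4.M8

set_option autoImplicit false

/-!
# A lower bound for the moments of the weighted mass of a cell
-/

namespace Pool.Agent.H469.F4

open Filter Topology MeasureTheory Complex Pool.Agent.Q97.UM
open Pool.Agent.Q14.UM (mem_PB PB_disj cv_len)
open Pool.Agent.Q184.UM (pw_cont)

noncomputable section

/-- the factor of a competitor -/
def dl (γ q β : ℝ) (j j' : ℕ) : ℝ :=
  if j ≤ j' then Real.exp (-(((j' : ℝ) - j) * (q * γ * β - β ^ 2))) else Real.exp (((j : ℝ) - j') * (γ * β + β ^ 2))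

theorem dl_pos (γ q β : ℝ) (j j' : ℕ) : 0 < dl γ q β j j' := by
  unfold dl
  split_ifs <;> exact Real.exp_pos _

theorem aw_zero (u : ℝ) : aw 0 u = fun _ => 0 := by
  funext n
  unfold aw
  simp

theorem norm_yA {B : ℝ} {γ q : ℝ} (hγ : 0 ≤ γ) (hq : 1 ≤ q) (hqB : q * γ ≤ B) (E : ℝ) (j : ℕ) (x : ℝ) (n : ℕ) : ‖yA E γ q j x n‖ ≤ B := by
  unfold yA
  rw [norm_mul, Complex.norm_real, Real.norm_eq_abs]
  have h1 : |(q - 1) * γ / 2| ≤ B := by
    have : 0 ≤ (q - 1) * γ := mul_nonneg (by linarith) hγ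
    rw [abs_of_nonneg (by linarith)]
    nlinarith
  have h2 := abs_mul_cut_le h1 E j n
  have h3 := Pool.Agent.Q184.UM.ua_norm x n
  calc |(q - 1) * γ / 2 * cut E j n| * ‖ua x n‖ ≤ B * 1 := mul_le_mul h2 h3 (norm_nonneg _) ((abs_nonneg _).trans h1)
    _ = B := mul_one B

theorem norm_yB {B : ℝ} {γ q : ℝ} (hγ : 0 ≤ γ) (hq : 1 ≤ q) (hqB : q * γ ≤ B) (E : ℝ) (j : ℕ) (x : ℝ) (n : ℕ) : ‖yB E γ q j x n‖ ≤ B := by
  unfold yB
  rw [norm_mul, Complex.norm_real, Real.norm_eq_abs]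
  have h1 : |q * γ / 2| ≤ B := by
    have : 0 ≤ q * γ := by positivity
    rw [abs_of_nonneg (by linarith)]
    linarith
  have h2 := abs_mul_cut_le h1 E j n
  have h3 := Pool.Agent.Q184.UM.ua_norm x n
  calc |q * γ / 2 * cut E j n| * ‖ua x n‖ ≤ B * 1 := mul_le_mul h2 h3 (norm_nonneg _) ((abs_nonneg _).trans h1)
    _ = B := mul_one B

theorem norm_yC {B : ℝ} {γ q β : ℝ} (hγ : 0 ≤ γ) (hq : 1 ≤ q) (hqB : q * γ ≤ B) (hβ : |β| ≤ B) (E : ℝ) (j j' : ℕ) (x v : ℝ) (n : ℕ) :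
    ‖yC E γ q β j j' x v n‖ ≤ 2 * B := by
  unfold yC
  refine (norm_add_le _ _).trans ?_
  have h1 := norm_yA hγ hq hqB E j x n
  have h2 : ‖((β * (cut E j' n - cut E j n) : ℝ) : ℂ) * ua (x + v) n‖ ≤ B := by
    rw [norm_mul, Complex.norm_real, Real.norm_eq_abs, abs_mul]
    have a1 := cut_nonneg E j' n
    have a2 := cut_le_one E j' n
    have a3 := cut_nonneg E j n
    have a4 := cut_le_one E j n
    have a5 : |cut E j' n - cut E j n| ≤ 1 := by rw [abs_le]; constructor <;> linarith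
    have h3 := Pool.Agent.Q184.UM.ua_norm (x + v) n
    have a6 : |β| * |cut E j' n - cut E j n| ≤ B * 1 := mul_le_mul hβ a5 (abs_nonneg _) ((abs_nonneg _).trans hβ)
    calc |β| * |cut E j' n - cut E j n| * ‖ua (x + v) n‖ ≤ (B * 1) * 1 := mul_le_mul a6 h3 (norm_nonneg _) (by
          have := (abs_nonneg _).trans hβ
          linarith)
      _ = B := by ring
  linarith

/-- the weighted mass of a cell -/
def Zc (γ w x : ℝ) (ψ : ℝ → ℝ) (t : ℝ) : ℝ := ∫ v in (0 : ℝ)..w, fz γ (t + (x + v)) * ψ (t + (x + v))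

theorem Zc_cont {γ : ℝ} (hγ : 0 ≤ γ) (w x : ℝ) {ψ : ℝ → ℝ} (hψ : Continuous ψ) : Continuous (Zc γ w x ψ) := by
  unfold Zc
  apply intervalIntegral.continuous_parametric_intervalIntegral_of_continuous'
  exact ((fz_cont hγ).comp (by fun_prop)).mul (hψ.comp (by fun_prop))

theorem Zc_nonneg (γ : ℝ) {w : ℝ} (hw : 0 ≤ w) (x : ℝ) {ψ : ℝ → ℝ} (hψ : ∀ τ, 0 ≤ ψ τ) (t : ℝ) : 0 ≤ Zc γ w x ψ t :=
  intervalIntegral.integral_nonneg hw fun _ _ => mul_nonneg (fz_nonneg _ _) (hψ _)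

/-- **the lower bound for one cell** -/
theorem cell_low {B : ℝ} (hB : 2 ≤ B) : ∃ δ η : ℝ, 0 < δ ∧ δ ≤ 1 ∧ 0 < η ∧ ∀ γ q : ℝ, 0 ≤ γ → γ ≤ 4 → γ ≤ B → 1 ≤ q → q * γ ≤ B →
    ∃ c₁ : ℝ, 0 < c₁ ∧ ∀ᶠ T : ℝ in atTop, 1 ≤ δ * Real.log T ∧ ∀ x : ℝ, |x| ≤ T / 4 → ∀ j : ℕ, 1 ≤ δ * Real.log T * Real.exp (-(j : ℝ)) →
      ∀ w : ℝ, 0 < w → w ≤ 1 → w * (δ * Real.log T * Real.exp (-(j : ℝ))) ≤ 1 → ∀ ψ : ℝ → ℝ, Continuous ψ → (∀ τ, 0 ≤ ψ τ) → (∀ τ, ψ τ ≤ 1) →
      ∀ (J : Finset ℕ) (A : ℕ → ℝ) (β : ℝ), (∀ j', 0 ≤ A j') → |β| ≤ B → (∀ j' ∈ J, 1 ≤ δ * Real.log T * Real.exp (-(j' : ℝ))) →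
      (∀ τ, 1 - ψ τ ≤ ∑ j' ∈ J, A j' * Real.exp (2 * β * (SJ (δ * Real.log T) j' τ - SJ (δ * Real.log T) j τ))) →
      (∑ j' ∈ J, A j' * dl γ q β j j' ≤ η) →
      c₁ * T * (w ^ q * Real.exp ((q - 1) * (γ ^ 2 / 4) * j + expo (δ * Real.log T) γ q j)) ≤ ∫ t in T..(2 * T), Zc γ w x ψ t ^ q := by
  obtain ⟨δ, κ', c, C, hδ, hδ1, hκ', hc, hC, hT⟩ := toolkit (B := 2 * B) (by linarith)
  obtain ⟨Cv, hCv, hVV⟩ := VV_all (B := B) (by linarith)
  refine ⟨δ, c * Real.exp (-(2 * Cv)) / (64 * C ^ 2), hδ, hδ1, by positivity, ?_⟩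
  intro γ q hγ hγ4 hγB hq hqB
  obtain ⟨lam, hlam⟩ : ∃ lam : ℝ, lam = c * Real.exp (-(2 * Cv)) / (64 * C ^ 2) := ⟨_, rfl⟩
  have hlam0 : 0 < lam := by rw [hlam]; positivity
  refine ⟨lam ^ (q - 1) * (c * Real.exp (-Cv) / 16), by positivity, ?_⟩
  filter_upwards [hT, eventually_ge_atTop (16 : ℝ)] with T hT hT16
  obtain ⟨hE1, hT⟩ := hT
  refine ⟨hE1, ?_⟩
  intro x hx j hj w hw0 hw1 hwj ψ hψc hψ0 hψ1 J A β hA hβ hJ hψJ hη
  obtain ⟨E, hE⟩ : ∃ E : ℝ, E = δ * Real.log T := ⟨_, rfl⟩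
  rw [← hE] at hE1 hT hj hwj hJ hψJ ⊢
  have hT0 : 0 < T := by linarith
  have hx' := abs_le.1 hx
  obtain ⟨hVB, hVV⟩ := hVV E γ q x j hj hγ hq hγB hqB
  obtain ⟨Φ, hΦ⟩ : ∃ Φ : ℝ, Φ = Real.exp (expo E γ q j) := ⟨_, rfl⟩
  have hΦ0 : 0 < Φ := by rw [hΦ]; exact Real.exp_pos _
  -- functions
  obtain ⟨Fa, hFa⟩ : ∃ F : ℝ × ℝ → ℝ, F = fun z => fz γ (z.1 + (x + z.2)) * Pf E κ' (yA E γ q j x) z.1 := ⟨_, rfl⟩
  obtain ⟨Fc, hFc⟩ : ∃ F : ℕ → ℝ × ℝ → ℝ, F = fun j' z => fz γ (z.1 + (x + z.2)) * Pf E κ' (yC E γ q β j j' x z.2) z.1 := ⟨_, rfl⟩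
  obtain ⟨Fp, hFp⟩ : ∃ F : ℕ → ℝ × ℝ → ℝ, F = fun i z => fz γ (z.1 + (x + z.2)) * Pf E κ' (yA E γ q j x) z.1 *
    ‖pw E κ' (wS B x) (fun _ => 0) (i + 1) z.1‖ ^ 2 := ⟨_, rfl⟩
  obtain ⟨Fq, hFq⟩ : ∃ F : ℕ → ℝ × ℝ → ℝ, F = fun i z => fz γ (z.1 + (x + z.2)) * Pf E κ' (yA E γ q j x) z.1 *
    ‖pw E κ' (wS B (x + z.2)) (fun _ => 0) (i + 1) z.1‖ ^ 2 := ⟨_, rfl⟩
  have hfzc : Continuous fun z : ℝ × ℝ => fz γ (z.1 + (x + z.2)) := (fz_cont hγ).comp (by fun_prop)
  have hPfc : ∀ y : ℕ → ℂ, Continuous fun z : ℝ × ℝ => Pf E κ' y z.1 := fun y => (Pf_cont E κ' y).comp continuous_fst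
  have cFa : Continuous Fa := by rw [hFa]; exact hfzc.mul (hPfc _)
  have cFc : ∀ j', Continuous (Fc j') := fun j' => by rw [hFc]; exact hfzc.mul (Pf_yC_cont hE1 (by linarith) γ q β j j' x)
  have cFp : ∀ i, Continuous (Fp i) := fun i => by
    rw [hFp]
    exact (hfzc.mul (hPfc _)).mul (((pw_cont E κ' _ _ _).comp continuous_fst).norm.pow 2)
  have cFq : ∀ i, Continuous (Fq i) := fun i => by
    rw [hFq]
    exact (hfzc.mul (hPfc _)).mul (pw_wS_cont E κ' B x i)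
  obtain ⟨G, hG⟩ : ∃ G : ℝ → ℝ → ℝ, G = fun t v => Fa (t, v) - ((∑ j' ∈ J, 16 * A j' * Fc j' (t, v)) +
    ((∑ i ∈ Finset.range (JB E), Fp i (t, v)) + ∑ i ∈ Finset.range (JB E), Fq i (t, v))) := ⟨_, rfl⟩
  have cG : Continuous (Function.uncurry G) := by
    have : Function.uncurry G = fun z : ℝ × ℝ => Fa z - ((∑ j' ∈ J, 16 * A j' * Fc j' z) +
        ((∑ i ∈ Finset.range (JB E), Fp i z) + ∑ i ∈ Finset.range (JB E), Fq i z)) := by
      rw [hG]
      rfl
    rw [this]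
    exact cFa.sub ((continuous_finsetSum _ fun j' _ => continuous_const.mul (cFc j')).add
      ((continuous_finsetSum _ fun i _ => cFp i).add (continuous_finsetSum _ fun i _ => cFq i)))
  have cv1 : ∀ t : ℝ, Continuous fun v : ℝ => ((t, v) : ℝ × ℝ) := fun t => by fun_prop
  have cv2 : ∀ v : ℝ, Continuous fun t : ℝ => ((t, v) : ℝ × ℝ) := fun v => by fun_prop
  -- the pointwise inequality
  classical
  obtain ⟨g0, hg0⟩ : ∃ g : ℝ → ℝ, g = fun t => if GG B E κ' (t + x) then Pf E κ' (yA E γ q j x) t else 0 := ⟨_, rfl⟩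
  have hg0n : ∀ t, 0 ≤ g0 t := fun t => by
    rw [hg0]
    show (0 : ℝ) ≤ (if GG B E κ' (t + x) then Pf E κ' (yA E γ q j x) t else 0)
    split_ifs
    · exact Pf_nonneg _ _ _ _
    · exact le_rfl
  have hpt : ∀ t v, G t v ≤ fz γ (t + (x + v)) * ψ (t + (x + v)) * g0 t := by
    intro t v
    have hf := fz_nonneg γ (t + (x + v))
    have hPA := Pf_nonneg E κ' (yA E γ q j x) t
    have n1 : 0 ≤ ∑ j' ∈ J, 16 * A j' * Fc j' (t, v) := Finset.sum_nonneg fun j' _ => by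
      rw [hFc]
      have := hA j'
      have := Pf_nonneg E κ' (yC E γ q β j j' x v) t
      show 0 ≤ 16 * A j' * (fz γ (t + (x + v)) * Pf E κ' (yC E γ q β j j' x v) t)
      positivity
    have e2 : ∑ i ∈ Finset.range (JB E), Fp i (t, v) = fz γ (t + (x + v)) * Pf E κ' (yA E γ q j x) t *
        ∑ i ∈ Finset.range (JB E), ‖pw E κ' (wS B x) (fun _ => 0) (i + 1) t‖ ^ 2 := by rw [hFp, Finset.mul_sum]
    have e3 : ∑ i ∈ Finset.range (JB E), Fq i (t, v) = fz γ (t + (x + v)) * Pf E κ' (yA E γ q j x) t *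
        ∑ i ∈ Finset.range (JB E), ‖pw E κ' (wS B (x + v)) (fun _ => 0) (i + 1) t‖ ^ 2 := by rw [hFq, Finset.mul_sum]
    have e1 : Fa (t, v) = fz γ (t + (x + v)) * Pf E κ' (yA E γ q j x) t := by rw [hFa]
    have n2 : 0 ≤ ∑ i ∈ Finset.range (JB E), Fp i (t, v) := by rw [e2]; positivity
    have n3 : 0 ≤ ∑ i ∈ Finset.range (JB E), Fq i (t, v) := by rw [e3]; positivity
    have hR : 0 ≤ fz γ (t + (x + v)) * ψ (t + (x + v)) * g0 t := mul_nonneg (mul_nonneg hf (hψ0 _)) (hg0n t)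
    have hfP : 0 ≤ fz γ (t + (x + v)) * Pf E κ' (yA E γ q j x) t := mul_nonneg hf hPA
    rw [hG]
    show Fa (t, v) - _ ≤ _
    by_cases h : GG B E κ' (t + x)
    · by_cases h' : GG B E κ' (t + (x + v))
      · have e4 : g0 t = Pf E κ' (yA E γ q j x) t := by rw [hg0]; exact if_pos h
        obtain ⟨p1, -⟩ := Pf_yA (B := B) hE1 hκ' (by linarith : 1 ≤ B) le_rfl hγ hq hqB j h
        have p2 : ∀ j' ∈ J, Real.exp ((q - 1) * γ * SJ E j (t + x)) * Real.exp (2 * β * (SJ E j' (t + (x + v)) - SJ E j (t + (x + v)))) ≤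
            4 * Pf E κ' (yC E γ q β j j' x v) t := fun j' _ =>
          Pf_yC (B := B) hE1 hκ' (by linarith : 1 ≤ B) le_rfl hγ hq hqB hβ j j' h h'
        have p3 : Pf E κ' (yA E γ q j x) t * (1 - ψ (t + (x + v))) ≤ ∑ j' ∈ J, 16 * A j' * Pf E κ' (yC E γ q β j j' x v) t := by
          have a1 := hψJ (t + (x + v))
          have a2 : 0 ≤ 1 - ψ (t + (x + v)) := by linarith [hψ1 (t + (x + v))]
          calc Pf E κ' (yA E γ q j x) t * (1 - ψ (t + (x + v))) ≤ 4 * Real.exp ((q - 1) * γ * SJ E j (t + x)) * (1 - ψ (t + (x + v))) :=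
                mul_le_mul_of_nonneg_right p1 a2
            _ ≤ 4 * Real.exp ((q - 1) * γ * SJ E j (t + x)) * ∑ j' ∈ J, A j' * Real.exp (2 * β * (SJ E j' (t + (x + v)) - SJ E j (t + (x + v)))) :=
                mul_le_mul_of_nonneg_left a1 (by positivity)
            _ = ∑ j' ∈ J, 4 * A j' * (Real.exp ((q - 1) * γ * SJ E j (t + x)) * Real.exp (2 * β * (SJ E j' (t + (x + v)) - SJ E j (t + (x + v))))) := by
                rw [Finset.mul_sum]
                exact Finset.sum_congr rfl fun j' _ => by ring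
            _ ≤ ∑ j' ∈ J, 16 * A j' * Pf E κ' (yC E γ q β j j' x v) t := by
                refine Finset.sum_le_sum fun j' hj' => ?_
                have a3 := p2 j' hj'
                have a4 := hA j'
                calc 4 * A j' * (Real.exp ((q - 1) * γ * SJ E j (t + x)) * Real.exp (2 * β * (SJ E j' (t + (x + v)) - SJ E j (t + (x + v))))) ≤
                    4 * A j' * (4 * Pf E κ' (yC E γ q β j j' x v) t) := mul_le_mul_of_nonneg_left a3 (by positivity)
                  _ = _ := by ring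
        have p4 : fz γ (t + (x + v)) * (Pf E κ' (yA E γ q j x) t * (1 - ψ (t + (x + v)))) ≤ ∑ j' ∈ J, 16 * A j' * Fc j' (t, v) := by
          refine (mul_le_mul_of_nonneg_left p3 hf).trans (le_of_eq ?_)
          rw [Finset.mul_sum, hFc]
          exact Finset.sum_congr rfl fun j' _ => by ring
        rw [e1, e4]
        nlinarith
      · have p1 := bad_GG (S := B) (by linarith) (by linarith : 0 < κ') h'
        have p2 : fz γ (t + (x + v)) * Pf E κ' (yA E γ q j x) t ≤ ∑ i ∈ Finset.range (JB E), Fq i (t, v) := by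
          rw [e3]
          exact le_mul_of_one_le_right hfP p1
        rw [e1]
        linarith
    · have p1 := bad_GG (S := B) (by linarith) (by linarith : 0 < κ') h
      have p2 : fz γ (t + (x + v)) * Pf E κ' (yA E γ q j x) t ≤ ∑ i ∈ Finset.range (JB E), Fp i (t, v) := by
        rw [e2]
        exact le_mul_of_one_le_right hfP p1
      rw [e1]
      linarith
  -- integration over `v`
  obtain ⟨μ, hμ⟩ : ∃ μ : ℝ, μ = lam * (w * Real.exp (γ ^ 2 / 4 * j)) := ⟨_, rfl⟩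
  have hμ0 : 0 < μ := by rw [hμ]; positivity
  have hZc := Zc_cont hγ w x hψc
  have hZ0 := fun t => Zc_nonneg γ hw0.le x hψ0 t
  have hR : ∀ t, ∫ v in (0 : ℝ)..w, G t v ≤ 4 * μ ^ (-(q - 1)) * Zc γ w x ψ t ^ q + 16 * μ * Pf E κ' (yB E γ q j x) t := by
    intro t
    have c1 : Continuous fun v => G t v := cG.comp (cv1 t)
    have c2 : Continuous fun v => fz γ (t + (x + v)) * ψ (t + (x + v)) * g0 t :=
      (((fz_cont hγ).comp (by fun_prop)).mul (hψc.comp (by fun_prop))).mul continuous_const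
    have h1 := intervalIntegral.integral_mono_on (μ := volume) hw0.le (c1.intervalIntegrable 0 w) (c2.intervalIntegrable 0 w) fun v _ => hpt t v
    rw [intervalIntegral.integral_mul_const] at h1
    have h2 : ∫ v in (0 : ℝ)..w, fz γ (t + (x + v)) * ψ (t + (x + v)) = Zc γ w x ψ t := rfl
    rw [h2] at h1
    refine h1.trans ?_
    have hPB := Pf_nonneg E κ' (yB E γ q j x) t
    have hZt := hZ0 t
    have hnn : 0 ≤ 4 * μ ^ (-(q - 1)) * Zc γ w x ψ t ^ q + 16 * μ * Pf E κ' (yB E γ q j x) t := by positivity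
    by_cases h : GG B E κ' (t + x)
    · have e4 : g0 t = Pf E κ' (yA E γ q j x) t := by rw [hg0]; exact if_pos h
      obtain ⟨p1, p2⟩ := Pf_yA (B := B) hE1 hκ' (by linarith : 1 ≤ B) le_rfl hγ hq hqB j h
      obtain ⟨M, hM⟩ : ∃ M : ℝ, M = Real.exp (γ * SJ E j (t + x)) := ⟨_, rfl⟩
      have hM0 : 0 < M := by rw [hM]; exact Real.exp_pos _
      have m1 : Real.exp ((q - 1) * γ * SJ E j (t + x)) = M ^ (q - 1) := by
        rw [hM, ← Real.exp_mul]; congr 1; ring
      have m2 : Real.exp (q * γ * SJ E j (t + x)) = M ^ q := by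
        rw [hM, ← Real.exp_mul]; congr 1; ring
      rw [m1] at p1
      rw [m2] at p2
      have h3 := young hZt hM0 hμ0 hq
      rw [e4]
      calc Zc γ w x ψ t * Pf E κ' (yA E γ q j x) t ≤ Zc γ w x ψ t * (4 * M ^ (q - 1)) := mul_le_mul_of_nonneg_left p1 hZt
        _ = 4 * (Zc γ w x ψ t * M ^ (q - 1)) := by ring
        _ ≤ 4 * (μ ^ (-(q - 1)) * Zc γ w x ψ t ^ q + μ * M ^ q) := mul_le_mul_of_nonneg_left h3 (by norm_num)
        _ ≤ 4 * (μ ^ (-(q - 1)) * Zc γ w x ψ t ^ q + μ * (4 * Pf E κ' (yB E γ q j x) t)) := by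
            apply mul_le_mul_of_nonneg_left _ (by norm_num)
            have := mul_le_mul_of_nonneg_left p2 hμ0.le
            linarith
        _ = _ := by ring
    · have e4 : g0 t = 0 := by rw [hg0]; exact if_neg h
      rw [e4, mul_zero]
      exact hnn
  -- integration over `t`
  have hGt : ∀ v ∈ Set.Icc (0 : ℝ) w, c / 2 * Real.exp (-Cv) * T * Φ ≤ ∫ t in T..(2 * T), G t v := by
    intro v hv
    have hv1 : |v| * (E * Real.exp (-(j : ℝ))) ≤ 1 := by
      rw [abs_of_nonneg hv.1]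
      refine le_trans (mul_le_mul_of_nonneg_right hv.2 (by positivity)) hwj
    obtain ⟨v1, -, v3⟩ := hVV v hv1
    have hk0 : ∀ i, 0 ≤ (![γ / 2, 0] : Fin 2 → ℝ) i := by
      intro i
      fin_cases i
      · show 0 ≤ γ / 2
        positivity
      · exact le_rfl
    have hks : ∑ i, (![γ / 2, 0] : Fin 2 → ℝ) i ≤ 2 := by
      rw [Fin.sum_univ_two]
      show γ / 2 + 0 ≤ 2
      linarith
    have hα : ∀ i, |(![x + v, x + v] : Fin 2 → ℝ) i| ≤ T / 2 := by
      have h1 : |x + v| ≤ T / 2 := by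
        rw [abs_le]
        constructor <;> linarith [hv.1, hv.2, hx'.1, hx'.2]
      intro i
      fin_cases i <;> exact h1
    obtain ⟨Q, q1, -, q3, -, q5⟩ := hT _ _ hk0 hks hα (yA E γ q j x) (fun n => (norm_yA hγ hq hqB E j x n).trans (by linarith))
    have hz : ∀ t, zpr ![γ / 2, 0] ![x + v, x + v] t = fz γ (t + (x + v)) := fun t => zpr_one γ (x + v) t
    simp only [hz] at q3 q5
    rw [ap_one] at q1
    have q5x := q5 (wS B x) (fun n => (wS_norm (by linarith) x n).trans (by linarith))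
    have q5v := q5 (wS B (x + v)) (fun n => (wS_norm (by linarith) (x + v) n).trans (by linarith))
    have hQ1 : c * (Real.exp (-Cv) * Φ) ≤ Q := le_trans (mul_le_mul_of_nonneg_left (by rw [hΦ]; exact v1) hc.le) q1
    -- competitors
    have hcomp : ∑ j' ∈ J, ∫ t in T..(2 * T), 16 * A j' * Fc j' (t, v) ≤ 1 / 4 * (T * Q) := by
      have h1 : ∀ j' ∈ J, ∫ t in T..(2 * T), 16 * A j' * Fc j' (t, v) ≤ 16 * (C ^ 2 * Real.exp Cv) * (T * Φ) * (A j' * dl γ q β j j') := by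
        intro j' hj'
        obtain ⟨Q', -, r2, -, r4, -⟩ := hT _ _ hk0 hks hα (yC E γ q β j j' x v) (norm_yC hγ hq hqB hβ E j j' x v)
        simp only [hz] at r4
        rw [ap_one] at r2
        have h2 : VV E (aw γ (x + v)) (yC E γ q β j j' x v) ≤ Real.exp Cv * Φ * dl γ q β j j' := by
          obtain ⟨s1, s2⟩ := v3 β j' hβ (hJ j' hj')
          unfold dl
          rw [hΦ]
          split_ifs with h
          · exact s1 h
          · exact s2 (by omega)
        have h3 : ∫ t in T..(2 * T), 16 * A j' * Fc j' (t, v) = 16 * A j' * ∫ t in T..(2 * T), fz γ (t + (x + v)) * Pf E κ' (yC E γ q β j j' x v) t := by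
          rw [intervalIntegral.integral_const_mul, hFc]
        rw [h3]
        have h4 := hA j'
        calc 16 * A j' * ∫ t in T..(2 * T), fz γ (t + (x + v)) * Pf E κ' (yC E γ q β j j' x v) t ≤ 16 * A j' * (C * (T * (C * (Real.exp Cv * Φ * dl γ q β j j')))) := by
              apply mul_le_mul_of_nonneg_left _ (by positivity)
              refine r4.trans ?_
              apply mul_le_mul_of_nonneg_left _ hC.le
              apply mul_le_mul_of_nonneg_left _ hT0.le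
              exact r2.trans (mul_le_mul_of_nonneg_left h2 hC.le)
          _ = _ := by ring
      refine (Finset.sum_le_sum h1).trans ?_
      rw [← Finset.mul_sum]
      calc 16 * (C ^ 2 * Real.exp Cv) * (T * Φ) * ∑ j' ∈ J, A j' * dl γ q β j j' ≤
          16 * (C ^ 2 * Real.exp Cv) * (T * Φ) * (c * Real.exp (-(2 * Cv)) / (64 * C ^ 2)) := mul_le_mul_of_nonneg_left hη (by positivity)
        _ = 1 / 4 * (T * (c * ((Real.exp Cv * Real.exp (-(2 * Cv))) * Φ))) := by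
            field_simp
            ring
        _ = 1 / 4 * (T * (c * (Real.exp (-Cv) * Φ))) := by
            rw [← Real.exp_add]
            congr 5
            ring_nf
        _ ≤ _ := by
            apply mul_le_mul_of_nonneg_left _ (by norm_num)
            exact mul_le_mul_of_nonneg_left hQ1 hT0.le
    have iFa : IntervalIntegrable (fun t => Fa (t, v)) volume T (2 * T) := (cFa.comp (cv2 v)).intervalIntegrable T (2 * T)
    have iFc : ∀ j' ∈ J, IntervalIntegrable (fun t => 16 * A j' * Fc j' (t, v)) volume T (2 * T) := fun j' _ =>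
      ((continuous_const.mul ((cFc j').comp (cv2 v))).intervalIntegrable _ _)
    have iFp : ∀ i ∈ Finset.range (JB E), IntervalIntegrable (fun t => Fp i (t, v)) volume T (2 * T) := fun i _ =>
      (((cFp i).comp (cv2 v)).intervalIntegrable _ _)
    have iFq : ∀ i ∈ Finset.range (JB E), IntervalIntegrable (fun t => Fq i (t, v)) volume T (2 * T) := fun i _ =>
      (((cFq i).comp (cv2 v)).intervalIntegrable _ _)
    have cSc : Continuous fun t => ∑ j' ∈ J, 16 * A j' * Fc j' (t, v) :=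
      continuous_finsetSum _ fun j' _ => continuous_const.mul ((cFc j').comp (cv2 v))
    have cSp : Continuous fun t => ∑ i ∈ Finset.range (JB E), Fp i (t, v) := continuous_finsetSum _ fun i _ => (cFp i).comp (cv2 v)
    have cSq : Continuous fun t => ∑ i ∈ Finset.range (JB E), Fq i (t, v) := continuous_finsetSum _ fun i _ => (cFq i).comp (cv2 v)
    have e1 : ∫ t in T..(2 * T), G t v = (∫ t in T..(2 * T), Fa (t, v)) - ((∑ j' ∈ J, ∫ t in T..(2 * T), 16 * A j' * Fc j' (t, v)) +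
        ((∑ i ∈ Finset.range (JB E), ∫ t in T..(2 * T), Fp i (t, v)) + ∑ i ∈ Finset.range (JB E), ∫ t in T..(2 * T), Fq i (t, v))) := by
      rw [hG]
      show ∫ t in T..(2 * T), (Fa (t, v) - ((∑ j' ∈ J, 16 * A j' * Fc j' (t, v)) +
        ((∑ i ∈ Finset.range (JB E), Fp i (t, v)) + ∑ i ∈ Finset.range (JB E), Fq i (t, v)))) = _
      have k1 : IntervalIntegrable (fun t => (∑ j' ∈ J, 16 * A j' * Fc j' (t, v)) +
          ((∑ i ∈ Finset.range (JB E), Fp i (t, v)) + ∑ i ∈ Finset.range (JB E), Fq i (t, v))) volume T (2 * T) :=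
        (cSc.add (cSp.add cSq)).intervalIntegrable _ _
      have k2 : IntervalIntegrable (fun t => (∑ i ∈ Finset.range (JB E), Fp i (t, v)) + ∑ i ∈ Finset.range (JB E), Fq i (t, v))
          volume T (2 * T) := (cSp.add cSq).intervalIntegrable _ _
      rw [intervalIntegral.integral_sub iFa k1,
        intervalIntegral.integral_add (cSc.intervalIntegrable _ _) k2,
        intervalIntegral.integral_add (cSp.intervalIntegrable _ _) (cSq.intervalIntegrable _ _),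
        intervalIntegral.integral_finsetSum iFc, intervalIntegral.integral_finsetSum iFp, intervalIntegral.integral_finsetSum iFq]
    have e2 : ∫ t in T..(2 * T), Fa (t, v) = ∫ t in T..(2 * T), fz γ (t + (x + v)) * Pf E κ' (yA E γ q j x) t := by rw [hFa]
    have e3 : ∑ i ∈ Finset.range (JB E), ∫ t in T..(2 * T), Fp i (t, v) = ∑ i ∈ Finset.range (JB E), ∫ t in T..(2 * T),
        fz γ (t + (x + v)) * Pf E κ' (yA E γ q j x) t * ‖pw E κ' (wS B x) (fun _ => 0) (i + 1) t‖ ^ 2 := by rw [hFp]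
    have e4 : ∑ i ∈ Finset.range (JB E), ∫ t in T..(2 * T), Fq i (t, v) = ∑ i ∈ Finset.range (JB E), ∫ t in T..(2 * T),
        fz γ (t + (x + v)) * Pf E κ' (yA E γ q j x) t * ‖pw E κ' (wS B (x + v)) (fun _ => 0) (i + 1) t‖ ^ 2 := by rw [hFq]
    rw [e1, e2, e3, e4]
    have h5 : c / 2 * Real.exp (-Cv) * T * Φ ≤ 1 / 2 * (T * Q) := by
      have := mul_le_mul_of_nonneg_left hQ1 hT0.le
      nlinarith
    linarith
  have cGi : Continuous fun v => ∫ t in T..(2 * T), G t v :=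
    intervalIntegral.continuous_parametric_intervalIntegral_of_continuous' (f := fun v t => G t v) (cG.comp continuous_swap) T (2 * T)
  have cGj : Continuous fun t => ∫ v in (0 : ℝ)..w, G t v :=
    intervalIntegral.continuous_parametric_intervalIntegral_of_continuous' (f := fun t v => G t v) cG 0 w
  have hlow : w * (c / 2 * Real.exp (-Cv) * T * Φ) ≤ ∫ v in (0 : ℝ)..w, ∫ t in T..(2 * T), G t v := by
    have h1 := intervalIntegral.integral_mono_on (μ := volume) hw0.le (continuous_const.intervalIntegrable 0 w) (cGi.intervalIntegrable 0 w)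
      hGt
    rw [intervalIntegral.integral_const, smul_eq_mul, sub_zero] at h1
    exact h1
  rw [← swap_cont cG] at hlow
  have cR : Continuous fun t => 4 * μ ^ (-(q - 1)) * Zc γ w x ψ t ^ q + 16 * μ * Pf E κ' (yB E γ q j x) t :=
    (continuous_const.mul (hZc.rpow_const fun _ => Or.inr (by linarith))).add (continuous_const.mul (Pf_cont _ _ _))
  have hup := intervalIntegral.integral_mono_on (μ := volume) (by linarith : T ≤ 2 * T) (cGj.intervalIntegrable _ _) (cR.intervalIntegrable _ _)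
    fun t _ => hR t
  have cZq : Continuous fun t => Zc γ w x ψ t ^ q := hZc.rpow_const fun _ => Or.inr (by linarith)
  have k3 : IntervalIntegrable (fun t => 4 * μ ^ (-(q - 1)) * Zc γ w x ψ t ^ q) volume T (2 * T) :=
    (continuous_const.mul cZq).intervalIntegrable _ _
  have k4 : IntervalIntegrable (fun t => 16 * μ * Pf E κ' (yB E γ q j x) t) volume T (2 * T) :=
    (continuous_const.mul (Pf_cont _ _ _)).intervalIntegrable _ _
  rw [intervalIntegral.integral_add k3 k4, intervalIntegral.integral_const_mul, intervalIntegral.integral_const_mul] at hup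
  -- the last mean value
  have hPB : ∫ t in T..(2 * T), Pf E κ' (yB E γ q j x) t ≤ C * (T * (C * (Real.exp Cv * Real.exp (q ^ 2 * γ ^ 2 / 4 * (Real.log E - j))))) := by
    have hk0 : ∀ i, 0 ≤ (![(0 : ℝ) / 2, 0] : Fin 2 → ℝ) i := by
      intro i
      fin_cases i
      · show (0 : ℝ) ≤ 0 / 2
        norm_num
      · exact le_rfl
    have hks : ∑ i, (![(0 : ℝ) / 2, 0] : Fin 2 → ℝ) i ≤ 2 := by
      rw [Fin.sum_univ_two]
      show (0 : ℝ) / 2 + 0 ≤ 2
      norm_num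
    have hα : ∀ i, |(![(0 : ℝ), 0] : Fin 2 → ℝ) i| ≤ T / 2 := by
      intro i
      fin_cases i
      · show |(0 : ℝ)| ≤ T / 2
        rw [abs_zero]; positivity
      · show |(0 : ℝ)| ≤ T / 2
        rw [abs_zero]; positivity
    obtain ⟨Q', -, r2, -, r4, -⟩ := hT _ _ hk0 hks hα (yB E γ q j x) (fun n => (norm_yB hγ hq hqB E j x n).trans (by linarith))
    have hz : ∀ t, zpr ![(0 : ℝ) / 2, 0] ![(0 : ℝ), 0] t = 1 := fun t => by
      rw [zpr_one, Real.rpow_zero]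
    simp only [hz, one_mul] at r4
    rw [ap_one, aw_zero] at r2
    refine r4.trans ?_
    apply mul_le_mul_of_nonneg_left _ hC.le
    apply mul_le_mul_of_nonneg_left _ hT0.le
    exact r2.trans (mul_le_mul_of_nonneg_left hVB hC.le)
  obtain ⟨I, hI⟩ : ∃ I : ℝ, I = ∫ t in T..(2 * T), Zc γ w x ψ t ^ q := ⟨_, rfl⟩
  rw [← hI] at hup ⊢
  obtain ⟨Θ, hΘ⟩ : ∃ Θ : ℝ, Θ = Real.exp (q ^ 2 * γ ^ 2 / 4 * (Real.log E - j)) := ⟨_, rfl⟩
  rw [← hΘ] at hPB
  have hΘΦ : Real.exp (γ ^ 2 / 4 * j) * Θ = Φ := by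
    rw [hΘ, hΦ, ← Real.exp_add]
    rfl
  have h7 : 16 * μ * ∫ t in T..(2 * T), Pf E κ' (yB E γ q j x) t ≤ w * (c / 4 * Real.exp (-Cv) * T * Φ) := by
    calc 16 * μ * ∫ t in T..(2 * T), Pf E κ' (yB E γ q j x) t ≤ 16 * μ * (C * (T * (C * (Real.exp Cv * Θ)))) :=
          mul_le_mul_of_nonneg_left hPB (by positivity)
      _ = w * (16 * lam * C ^ 2 * Real.exp Cv * T * (Real.exp (γ ^ 2 / 4 * j) * Θ)) := by rw [hμ]; ring
      _ = w * (c / 4 * (Real.exp (-(2 * Cv)) * Real.exp Cv) * T * Φ) := by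
          rw [hΘΦ, hlam]
          field_simp
          ring
      _ = _ := by
          rw [← Real.exp_add]
          congr 5
          ring_nf
  have h8 : w * (c / 4 * Real.exp (-Cv) * T * Φ) ≤ 4 * μ ^ (-(q - 1)) * I := by
    have h9 := hlow.trans hup
    have h10 : w * (c / 2 * Real.exp (-Cv) * T * Φ) = w * (c / 4 * Real.exp (-Cv) * T * Φ) + w * (c / 4 * Real.exp (-Cv) * T * Φ) := by ring
    linarith
  have h9 : μ ^ (q - 1) * (w * (c / 16 * Real.exp (-Cv) * T * Φ)) ≤ I := by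
    have h10 : μ ^ (q - 1) * μ ^ (-(q - 1)) = 1 := by
      rw [← Real.rpow_add hμ0]
      simp
    have h11 : 0 < μ ^ (q - 1) := by positivity
    calc μ ^ (q - 1) * (w * (c / 16 * Real.exp (-Cv) * T * Φ)) = μ ^ (q - 1) * (1 / 4 * (w * (c / 4 * Real.exp (-Cv) * T * Φ))) := by ring
      _ ≤ μ ^ (q - 1) * (1 / 4 * (4 * μ ^ (-(q - 1)) * I)) := by
          apply mul_le_mul_of_nonneg_left _ h11.le
          linarith
      _ = (μ ^ (q - 1) * μ ^ (-(q - 1))) * I := by ring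
      _ = I := by rw [h10, one_mul]
  refine le_trans (le_of_eq ?_) h9
  have e5 : μ ^ (q - 1) = lam ^ (q - 1) * (w ^ (q - 1) * Real.exp ((q - 1) * (γ ^ 2 / 4) * j)) := by
    rw [hμ, Real.mul_rpow hlam0.le (by positivity), Real.mul_rpow hw0.le (Real.exp_pos _).le, ← Real.exp_mul]
    congr 3
    ring
  have e6 : w ^ q = w ^ (q - 1) * w := by
    rw [← Real.rpow_add_one' hw0.le (by linarith)]
    congr 1
    ring
  rw [e5, e6, Real.exp_add, ← hΦ]
  ring

end

end Pool.Agent.H469.F4
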