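import Pool.Agent.H469.F4.N6
import Pool.Agent.H469.F4.M18

set_option autoImplicit false

/-!
# Moments of the masses of intervals: adding the contributions of disjoint cells at several scales
-/

namespace Pool.Agent.H469.F4

open Filter Topology MeasureTheory Complex

noncomputable section

theorem superadd {ι : Type*} (s : Finset ι) (z : ι → ℝ) (hz : ∀ i ∈ s, 0 ≤ z i) {q : ℝ} (hq : 1 ≤ q) :
    ∑ i ∈ s, z i ^ q ≤ (∑ i ∈ s, z i) ^ q := by
  classical
  induction s using Finset.induction_on with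
  | empty =>
    simp only [Finset.sum_empty]
    rw [Real.zero_rpow (by linarith)]
  | insert a s ha ih =>
    rw [Finset.sum_insert ha, Finset.sum_insert ha]
    have h1 := ih fun i hi => hz i (Finset.mem_insert_of_mem hi)
    have h2 := hz a (Finset.mem_insert_self _ _)
    have h3 : 0 ≤ ∑ i ∈ s, z i := Finset.sum_nonneg fun i hi => hz i (Finset.mem_insert_of_mem hi)
    have h4 := Real.add_rpow_le_rpow_add h2 h3 hq
    linarith

/-- adjacent cells -/
theorem Zc_chain (γ : ℝ) (hγ : 0 ≤ γ) {w : ℝ} (x : ℝ) {ψ : ℝ → ℝ} (hψ : Continuous ψ) (t : ℝ) (n : ℕ) :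
    ∑ i ∈ Finset.range n, Zc γ w (x + i * w) ψ t = Zc γ (n * w) x ψ t := by
  have hc : Continuous fun v : ℝ => fz γ (t + (x + v)) * ψ (t + (x + v)) :=
    ((fz_cont hγ).comp (by fun_prop)).mul (hψ.comp (by fun_prop))
  induction n with
  | zero => simp [Zc]
  | succ n ih =>
    rw [Finset.sum_range_succ, ih]
    unfold Zc
    have e1 : ∫ v in (0 : ℝ)..w, fz γ (t + (x + n * w + v)) * ψ (t + (x + n * w + v)) =
        ∫ v in ((n : ℝ) * w)..((n + 1 : ℕ) * w), fz γ (t + (x + v)) * ψ (t + (x + v)) := by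
      have := intervalIntegral.integral_comp_add_left (fun v => fz γ (t + (x + v)) * ψ (t + (x + v))) ((n : ℝ) * w) (a := 0) (b := w)
      have e2 : (n : ℝ) * w + w = ((n + 1 : ℕ) : ℝ) * w := by push_cast; ring
      rw [add_zero, e2] at this
      rw [← this]
      exact intervalIntegral.integral_congr fun v _ => by simp only [add_assoc]
    rw [e1, intervalIntegral.integral_add_adjacent_intervals (hc.intervalIntegrable _ _) (hc.intervalIntegrable _ _)]

/-- the cells of several scales inside one interval -/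
theorem multi_le {γ : ℝ} (hγ : 0 ≤ γ) {h x : ℝ} (hh : 0 ≤ h) (S : Finset ℕ) (w : ℕ → ℝ) (n : ℕ → ℕ) (ψ : ℕ → ℝ → ℝ) (hψc : ∀ j, Continuous (ψ j))
    (hψ0 : ∀ j τ, 0 ≤ ψ j τ) (hψ1 : ∀ τ, ∑ j ∈ S, ψ j τ ≤ 1) (hw : ∀ j ∈ S, 0 ≤ w j) (hn : ∀ j ∈ S, n j * w j ≤ h) (t : ℝ) :
    ∑ j ∈ S, ∑ i ∈ Finset.range (n j), Zc γ (w j) (x + i * w j) (ψ j) t ≤ Yg γ x (x + h) t := by
  have hfc := fz_cont hγ
  have h1 : ∀ j ∈ S, ∑ i ∈ Finset.range (n j), Zc γ (w j) (x + i * w j) (ψ j) t ≤ ∫ v in (0 : ℝ)..h, fz γ (t + (x + v)) * ψ j (t + (x + v)) := by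
    intro j hj
    rw [Zc_chain γ hγ x (hψc j) t (n j)]
    unfold Zc
    have hc : Continuous fun v : ℝ => fz γ (t + (x + v)) * ψ j (t + (x + v)) :=
      (hfc.comp (by fun_prop)).mul ((hψc j).comp (by fun_prop))
    exact intervalIntegral.integral_mono_interval le_rfl (mul_nonneg (Nat.cast_nonneg _) (hw j hj)) (hn j hj)
      (Eventually.of_forall fun _ => mul_nonneg (fz_nonneg _ _) (hψ0 _ _)) (hc.intervalIntegrable _ _)
  refine (Finset.sum_le_sum h1).trans ?_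
  rw [← intervalIntegral.integral_finsetSum fun j _ =>
    (Continuous.intervalIntegrable (by
      exact (hfc.comp (by fun_prop)).mul ((hψc j).comp (by fun_prop))) _ _)]
  have e1 : Yg γ x (x + h) t = ∫ v in (0 : ℝ)..h, fz γ (t + (x + v)) := by
    unfold Yg
    have := intervalIntegral.integral_comp_add_left (fun v => fz γ (t + v)) x (a := 0) (b := h)
    rw [add_zero] at this
    rw [← this]
  rw [e1]
  have c1 : Continuous fun v : ℝ => fz γ (t + (x + v)) := hfc.comp (by fun_prop)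
  have c2 : Continuous fun v : ℝ => ∑ j ∈ S, fz γ (t + (x + v)) * ψ j (t + (x + v)) :=
    continuous_finsetSum _ fun j _ => c1.mul ((hψc j).comp (by fun_prop))
  refine intervalIntegral.integral_mono_on hh (c2.intervalIntegrable _ _) (c1.intervalIntegrable _ _) fun v _ => ?_
  rw [← Finset.mul_sum]
  calc fz γ (t + (x + v)) * ∑ j ∈ S, ψ j (t + (x + v)) ≤ fz γ (t + (x + v)) * 1 :=
        mul_le_mul_of_nonneg_left (hψ1 _) (fz_nonneg _ _)
    _ = _ := mul_one _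

/-- **adding the contributions of disjoint cells at several scales** -/
theorem multi_low {γ q : ℝ} (hγ : 0 < γ) (hq : 1 ≤ q) {h x T : ℝ} (hT : 0 ≤ T) (hh : 0 ≤ h) (S : Finset ℕ) (w : ℕ → ℝ) (n : ℕ → ℕ) (ψ : ℕ → ℝ → ℝ)
    (B : ℕ → ℝ) (hψc : ∀ j, Continuous (ψ j)) (hψ0 : ∀ j τ, 0 ≤ ψ j τ) (hψ1 : ∀ τ, ∑ j ∈ S, ψ j τ ≤ 1) (hw : ∀ j ∈ S, 0 ≤ w j)
    (hn : ∀ j ∈ S, n j * w j ≤ h)
    (hB : ∀ j ∈ S, ∀ i ∈ Finset.range (n j), B j ≤ ∫ t in T..(2 * T), Zc γ (w j) (x + i * w j) (ψ j) t ^ q) :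
    ∑ j ∈ S, n j * B j ≤ ∫ t in T..(2 * T), Yg γ x (x + h) t ^ q := by
  have hq0 : 0 < q := by linarith
  have hcZ : ∀ j i, Continuous fun t => Zc γ (w j) (x + (i : ℕ) * w j) (ψ j) t ^ q := fun j i =>
    (Zc_cont hγ.le _ _ (hψc j)).rpow_const fun _ => Or.inr hq0.le
  have h1 : ∑ j ∈ S, n j * B j ≤ ∑ j ∈ S, ∑ i ∈ Finset.range (n j), ∫ t in T..(2 * T), Zc γ (w j) (x + i * w j) (ψ j) t ^ q := by
    apply Finset.sum_le_sum
    intro j hj
    have := Finset.sum_le_sum (hB j hj)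
    rw [Finset.sum_const, Finset.card_range, nsmul_eq_mul] at this
    exact this
  refine h1.trans ?_
  have e1 : ∑ j ∈ S, ∑ i ∈ Finset.range (n j), ∫ t in T..(2 * T), Zc γ (w j) (x + i * w j) (ψ j) t ^ q =
      ∫ t in T..(2 * T), ∑ j ∈ S, ∑ i ∈ Finset.range (n j), Zc γ (w j) (x + i * w j) (ψ j) t ^ q := by
    rw [intervalIntegral.integral_finsetSum fun j _ => (continuous_finsetSum _ fun i _ => hcZ j i).intervalIntegrable _ _]
    refine Finset.sum_congr rfl fun j _ => ?_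
    rw [intervalIntegral.integral_finsetSum fun i _ => (hcZ j i).intervalIntegrable _ _]
  rw [e1]
  refine intervalIntegral.integral_mono_on (by linarith)
    ((continuous_finsetSum _ fun j _ => continuous_finsetSum _ fun i _ => hcZ j i).intervalIntegrable _ _)
    ((Yg_pow_cont hγ hq0 _ _).intervalIntegrable _ _) fun t _ => ?_
  have hZ0 : ∀ j ∈ S, ∀ i, 0 ≤ Zc γ (w j) (x + (i : ℕ) * w j) (ψ j) t := fun j hj i => Zc_nonneg γ (hw j hj) _ (hψ0 j) t
  calc ∑ j ∈ S, ∑ i ∈ Finset.range (n j), Zc γ (w j) (x + i * w j) (ψ j) t ^ q ≤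
        ∑ j ∈ S, (∑ i ∈ Finset.range (n j), Zc γ (w j) (x + i * w j) (ψ j) t) ^ q :=
        Finset.sum_le_sum fun j hj => superadd _ _ (fun i _ => hZ0 j hj i) hq
    _ ≤ (∑ j ∈ S, ∑ i ∈ Finset.range (n j), Zc γ (w j) (x + i * w j) (ψ j) t) ^ q :=
        superadd _ _ (fun j hj => Finset.sum_nonneg fun i _ => hZ0 j hj i) hq
    _ ≤ _ := by
        apply Real.rpow_le_rpow (Finset.sum_nonneg fun j hj => Finset.sum_nonneg fun i _ => hZ0 j hj i) _ hq0.le
        exact multi_le hγ.le hh S w n ψ hψc hψ0 hψ1 hw hn t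

end

end Pool.Agent.H469.F4
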