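import Pool.Agent.H469.F4.N7

set_option autoImplicit false

/-!
# Moments of the masses of intervals: lower bounds away from the critical line of parameters
-/

namespace Pool.Agent.H469.F4

open Filter Topology MeasureTheory Complex

noncomputable section

/-- the lower bound of `cell_low` -/
def vl (E γ q w : ℝ) (j : ℕ) : ℝ := w ^ q * Real.exp ((q - 1) * (γ ^ 2 / 4) * j + expo E γ q j)

theorem vl_nonneg (E γ q : ℝ) {w : ℝ} (hw : 0 ≤ w) (j : ℕ) : 0 ≤ vl E γ q w j := by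
  unfold vl
  positivity

theorem vl_eq {E : ℝ} (hE : 0 < E) (γ q : ℝ) (j : ℕ) :
    vl E γ q (Real.exp j / E) j = E ^ (q ^ 2 * γ ^ 2 / 4 - q) * Real.exp (j * (q + q * γ ^ 2 / 4 - q ^ 2 * γ ^ 2 / 4)) := by
  unfold vl expo
  have h1 : Real.exp j / E = Real.exp (j - Real.log E) := by
    rw [Real.exp_sub, Real.exp_log hE]
  rw [h1, ← Real.exp_mul, ← Real.exp_add, Real.rpow_def_of_pos hE, ← Real.exp_add]
  congr 1
  ring

theorem vl_zero {E : ℝ} (hE : 0 < E) (γ q w : ℝ) : vl E γ q w 0 = w ^ q * E ^ (q ^ 2 * γ ^ 2 / 4) := by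
  unfold vl expo
  rw [Real.rpow_def_of_pos hE]
  congr 2
  push_cast
  ring

/-- several cells of one scale -/
theorem low_cells {γ q : ℝ} (hγ0 : 0 < γ) (hγ4 : γ ≤ 4) (hq : 1 ≤ q) : ∃ δ c₁ : ℝ, 0 < δ ∧ δ ≤ 1 ∧ 0 < c₁ ∧ ∀ᶠ T : ℝ in atTop,
    1 ≤ δ * Real.log T ∧ ∀ x : ℝ, |x| ≤ T / 8 → ∀ h : ℝ, 0 ≤ h → h ≤ 1 → ∀ j n : ℕ, ∀ w : ℝ, 1 ≤ δ * Real.log T * Real.exp (-(j : ℝ)) → 0 < w → w ≤ 1 →
      w * (δ * Real.log T * Real.exp (-(j : ℝ))) ≤ 1 → n * w ≤ h →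
      n * (c₁ * T * vl (δ * Real.log T) γ q w j) ≤ ∫ t in T..(2 * T), Yg γ x (x + h) t ^ q := by
  have hqγ : 0 < q * γ := by positivity
  obtain ⟨δ, η, hδ, hδ1, hη, hcell⟩ := cell_low (B := 4 + q * γ) (by linarith)
  obtain ⟨c₁, hc₁, hev⟩ := hcell γ q hγ0.le hγ4 (by linarith) hq (by linarith)
  refine ⟨δ, c₁, hδ, hδ1, hc₁, ?_⟩
  filter_upwards [hev, eventually_ge_atTop (32 : ℝ)] with T hev hT16
  obtain ⟨hE1, hev⟩ := hev
  refine ⟨hE1, ?_⟩
  intro x hx h hh0 hh1 j n w hj hw0 hw1 hwj hnw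
  have hx' := abs_le.1 hx
  have key := multi_low (γ := γ) (q := q) hγ0 hq (T := T) (h := h) (x := x) (by linarith) hh0 {j} (fun _ => w) (fun _ => n) (fun _ _ => 1)
    (fun _ => c₁ * T * vl (δ * Real.log T) γ q w j) (fun _ => continuous_const) (fun _ _ => by norm_num) (fun _ => by simp) (fun _ _ => hw0.le)
    (fun _ _ => hnw) (by
      intro j' _ i hi
      have hi' := Finset.mem_range.1 hi
      have h1 : (i : ℝ) * w ≤ n * w := by
        apply mul_le_mul_of_nonneg_right _ hw0.le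
        exact_mod_cast hi'.le
      have h0 : 0 ≤ (i : ℝ) * w := by positivity
      have h2 := hev (x + i * w) (abs_le.2 ⟨by linarith [hx'.1], by linarith [hx'.2]⟩) j hj w hw0 hw1 hwj (fun _ => 1) continuous_const
        (fun _ => by norm_num) (fun _ => le_rfl) ∅ (fun _ => 0) 0 (fun _ => le_rfl) (by simp; positivity) (by simp) (by simp) (by simpa using hη.le)
      exact h2)
  simpa using key

theorem floor_half {y : ℝ} (hy : 1 ≤ y) : y / 2 ≤ (⌊y⌋₊ : ℝ) := by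
  have h1 : 1 ≤ ⌊y⌋₊ := Nat.one_le_floor_iff _ |>.2 hy
  have h2 : (1 : ℝ) ≤ ⌊y⌋₊ := by exact_mod_cast h1
  have h3 := Nat.lt_floor_add_one y
  linarith

/-- the smallest scales -/
theorem low_small {γ q : ℝ} (hγ0 : 0 < γ) (hγ4 : γ ≤ 4) (hq : 1 ≤ q) : ∃ δ c : ℝ, 0 < δ ∧ δ ≤ 1 ∧ 0 < c ∧ ∀ᶠ T : ℝ in atTop,
    1 ≤ δ * Real.log T ∧ (∀ x : ℝ, |x| ≤ T / 8 → ∀ h : ℝ, h ≤ 1 → 1 ≤ 4 * (h * Real.log T) → h * (δ * Real.log T) ≤ 1 →
      c * (T * Real.log T ^ (q ^ 2 * γ ^ 2 / 4 - q)) ≤ ∫ t in T..(2 * T), Yg γ x (x + h) t ^ q) ∧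
    (0 < q + q * γ ^ 2 / 4 - q ^ 2 * γ ^ 2 / 4 → ∀ x : ℝ, |x| ≤ T / 8 → ∀ h : ℝ, h ≤ 1 → 1 ≤ h * (δ * Real.log T) →
      c * (T * Real.log T ^ (q ^ 2 * γ ^ 2 / 4 - q) * (h * Real.log T) ^ (q + q * γ ^ 2 / 4 - q ^ 2 * γ ^ 2 / 4)) ≤
        ∫ t in T..(2 * T), Yg γ x (x + h) t ^ q) ∧
    (∀ x : ℝ, |x| ≤ T / 8 → ∀ h : ℝ, h ≤ 1 → 1 ≤ h * (δ * Real.log T) →
      c * (T * Real.log T ^ (q ^ 2 * γ ^ 2 / 4 - q) * (h * Real.log T)) ≤ ∫ t in T..(2 * T), Yg γ x (x + h) t ^ q) := by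
  obtain ⟨δ, c₁, hδ, hδ1, hc₁, hev⟩ := low_cells hγ0 hγ4 hq
  obtain ⟨a, ha⟩ : ∃ a : ℝ, a = q ^ 2 * γ ^ 2 / 4 - q := ⟨_, rfl⟩
  obtain ⟨ξ, hξ⟩ : ∃ ξ : ℝ, ξ = q + q * γ ^ 2 / 4 - q ^ 2 * γ ^ 2 / 4 := ⟨_, rfl⟩
  rw [← ha, ← hξ]
  obtain ⟨k1, hk1⟩ : ∃ k : ℝ, k = c₁ * (4 ^ (-q) * δ ^ (q ^ 2 * γ ^ 2 / 4)) := ⟨_, rfl⟩
  obtain ⟨k2, hk2⟩ : ∃ k : ℝ, k = c₁ * (δ ^ (a + ξ) * Real.exp (-ξ)) := ⟨_, rfl⟩
  obtain ⟨k3, hk3⟩ : ∃ k : ℝ, k = c₁ * (δ ^ (a + 1) / 2) := ⟨_, rfl⟩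
  have hk1p : 0 < k1 := by rw [hk1]; positivity
  have hk2p : 0 < k2 := by rw [hk2]; positivity
  have hk3p : 0 < k3 := by rw [hk3]; positivity
  refine ⟨δ, min k1 (min k2 k3), hδ, hδ1, lt_min hk1p (lt_min hk2p hk3p), ?_⟩
  filter_upwards [hev, eventually_ge_atTop (32 : ℝ)] with T hev hT16
  obtain ⟨hE1, hev⟩ := hev
  have hT0 : 0 < T := by linarith
  have hL0 : 0 < Real.log T := Real.log_pos (by linarith)
  obtain ⟨L, hL⟩ : ∃ L : ℝ, L = Real.log T := ⟨_, rfl⟩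
  rw [← hL] at hE1 hev hL0 ⊢
  obtain ⟨E, hE⟩ : ∃ E : ℝ, E = δ * L := ⟨_, rfl⟩
  rw [← hE] at hE1 hev ⊢
  have hE0 : 0 < E := by linarith
  refine ⟨hE1, ?_, ?_, ?_⟩
  · intro x hx h hh1 hhL hhE
    have hh0 : 0 < h := by
      by_contra hneg
      push Not at hneg
      have : h * L ≤ 0 := mul_nonpos_of_nonpos_of_nonneg hneg hL0.le
      linarith
    have h1 := hev x hx h hh0.le hh1 0 1 h (by simpa using hE1) hh0 hh1 (by simpa using hhE) (by simp)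
    rw [vl_zero hE0] at h1
    refine le_trans ?_ h1
    have h2 : (4 : ℝ) ^ (-q) * L ^ (-q) ≤ h ^ q := by
      rw [← Real.mul_rpow (by norm_num) hL0.le, Real.rpow_neg (by positivity), ← Real.inv_rpow (by positivity)]
      apply Real.rpow_le_rpow (by positivity) _ (by linarith)
      rw [inv_le_iff_one_le_mul₀ (by positivity)]
      linarith
    have h3 : E ^ (q ^ 2 * γ ^ 2 / 4) = δ ^ (q ^ 2 * γ ^ 2 / 4) * L ^ (q ^ 2 * γ ^ 2 / 4) := by
      rw [hE, Real.mul_rpow hδ.le hL0.le]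
    have h4 : L ^ (-q) * L ^ (q ^ 2 * γ ^ 2 / 4) = L ^ a := by
      rw [← Real.rpow_add hL0]
      congr 1
      rw [ha]
      ring
    calc min k1 (min k2 k3) * (T * L ^ a) ≤ k1 * (T * L ^ a) := mul_le_mul_of_nonneg_right (min_le_left _ _) (by positivity)
      _ = c₁ * T * ((4 ^ (-q) * L ^ (-q)) * (δ ^ (q ^ 2 * γ ^ 2 / 4) * L ^ (q ^ 2 * γ ^ 2 / 4))) := by
          rw [hk1, ← h4]
          ring
      _ ≤ c₁ * T * (h ^ q * (δ ^ (q ^ 2 * γ ^ 2 / 4) * L ^ (q ^ 2 * γ ^ 2 / 4))) := by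
          apply mul_le_mul_of_nonneg_left _ (by positivity)
          exact mul_le_mul_of_nonneg_right h2 (by positivity)
      _ = ((1 : ℕ) : ℝ) * (c₁ * T * (h ^ q * E ^ (q ^ 2 * γ ^ 2 / 4))) := by
          rw [h3]
          push_cast
          ring
  · intro hξ0 x hx h hh1 hhE
    have hh0 : 0 < h := by
      by_contra hneg
      push Not at hneg
      have : h * E ≤ 0 := mul_nonpos_of_nonpos_of_nonneg hneg hE0.le
      linarith
    have hhE0 : 0 < h * E := by positivity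
    obtain ⟨j, hj⟩ : ∃ j : ℕ, j = ⌊Real.log (h * E)⌋₊ := ⟨_, rfl⟩
    have hlog0 : 0 ≤ Real.log (h * E) := Real.log_nonneg hhE
    have hj1 : Real.exp j ≤ h * E := by
      rw [← Real.le_log_iff_exp_le hhE0, hj]
      exact Nat.floor_le hlog0
    have hj2 : h * E < Real.exp (j + 1) := by
      rw [← Real.log_lt_iff_lt_exp hhE0, hj]
      exact Nat.lt_floor_add_one _
    have hjE : Real.exp j ≤ E := hj1.trans (by nlinarith)
    have hej : 0 < Real.exp (j : ℝ) := Real.exp_pos _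
    have hw1 : Real.exp j / E ≤ h := by rwa [div_le_iff₀ hE0]
    have h1 := hev x hx h hh0.le hh1 j 1 (Real.exp j / E) (by
        rw [Real.exp_neg, ← div_eq_mul_inv, le_div_iff₀ hej]
        linarith) (by positivity) (hw1.trans hh1) (by
        rw [Real.exp_neg]
        field_simp
        exact le_rfl) (by simpa using hw1)
    rw [vl_eq hE0, ← ha, ← hξ] at h1
    refine le_trans ?_ h1
    have h2 : (h * E) ^ ξ * Real.exp (-ξ) ≤ Real.exp (j * ξ) := by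
      have h3 : (h * E) ^ ξ ≤ Real.exp (j + 1) ^ ξ := Real.rpow_le_rpow hhE0.le hj2.le hξ0.le
      calc (h * E) ^ ξ * Real.exp (-ξ) ≤ Real.exp (j + 1) ^ ξ * Real.exp (-ξ) := mul_le_mul_of_nonneg_right h3 (Real.exp_pos _).le
        _ = Real.exp (j * ξ) := by
            rw [← Real.exp_mul, ← Real.exp_add]
            congr 1
            ring
    calc min k1 (min k2 k3) * (T * L ^ a * (h * L) ^ ξ) ≤ k2 * (T * L ^ a * (h * L) ^ ξ) :=
          mul_le_mul_of_nonneg_right ((min_le_right _ _).trans (min_le_left _ _)) (by positivity)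
      _ = c₁ * T * (E ^ a * ((h * E) ^ ξ * Real.exp (-ξ))) := by
          have e1 : h * E = δ * (h * L) := by rw [hE]; ring
          rw [hk2, e1, Real.mul_rpow hδ.le (by positivity), hE, Real.mul_rpow hδ.le hL0.le, Real.rpow_add hδ]
          ring
      _ ≤ c₁ * T * (E ^ a * Real.exp (j * ξ)) := by
          apply mul_le_mul_of_nonneg_left _ (by positivity)
          exact mul_le_mul_of_nonneg_left h2 (by positivity)
      _ = ((1 : ℕ) : ℝ) * (c₁ * T * (E ^ a * Real.exp (j * ξ))) := by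
          push_cast
          ring
  · intro x hx h hh1 hhE
    have hh0 : 0 < h := by
      by_contra hneg
      push Not at hneg
      have : h * E ≤ 0 := mul_nonpos_of_nonpos_of_nonneg hneg hE0.le
      linarith
    have hhE0 : 0 < h * E := by positivity
    have hfl := floor_half hhE
    have hfl2 : (⌊h * E⌋₊ : ℝ) ≤ h * E := Nat.floor_le hhE0.le
    have h1 := hev x hx h hh0.le hh1 0 ⌊h * E⌋₊ (Real.exp ((0 : ℕ) : ℝ) / E) (by simpa using hE1) (by positivity) (by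
        simp only [Nat.cast_zero, Real.exp_zero]
        rw [div_le_one hE0]
        exact hE1) (by
        simp only [Nat.cast_zero, Real.exp_zero, neg_zero, mul_one]
        rw [one_div, inv_mul_cancel₀ hE0.ne']) (by
        simp only [Nat.cast_zero, Real.exp_zero]
        rw [mul_one_div, div_le_iff₀ hE0]
        exact hfl2)
    rw [vl_eq hE0, ← ha, ← hξ] at h1
    refine le_trans ?_ h1
    simp only [Nat.cast_zero, zero_mul, Real.exp_zero, mul_one]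
    calc min k1 (min k2 k3) * (T * L ^ a * (h * L)) ≤ k3 * (T * L ^ a * (h * L)) :=
          mul_le_mul_of_nonneg_right ((min_le_right _ _).trans (min_le_right _ _)) (by positivity)
      _ = (h * E) / 2 * (c₁ * T * E ^ a) := by
          rw [hk3, hE, Real.mul_rpow hδ.le hL0.le, Real.rpow_add hδ, Real.rpow_one]
          ring
      _ ≤ ⌊h * E⌋₊ * (c₁ * T * E ^ a) := mul_le_mul_of_nonneg_right hfl (by positivity)

end

end Pool.Agent.H469.F4
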