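import Pool.Agent.H469.F4.N8

set_option autoImplicit false

/-!
# Moments of the masses of intervals: the lower bound on the critical line of parameters
-/

namespace Pool.Agent.H469.F4

open Filter Topology MeasureTheory Complex

noncomputable section

theorem geo_one {r : ℝ} (hr0 : 0 ≤ r) (hr : r ≤ 1 / 2) (M : ℕ) : ∑ m ∈ Finset.range M, r ^ (m + 1) ≤ 2 * r := by
  have hs := summable_geometric_of_lt_one hr0 (by linarith : r < 1)
  have h1 : ∑ m ∈ Finset.range M, r ^ m ≤ (1 - r)⁻¹ := by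
    rw [← tsum_geometric_of_lt_one hr0 (by linarith : r < 1)]
    exact hs.sum_le_tsum _ fun i _ => by positivity
  have h2 : (1 - r)⁻¹ ≤ 2 := by
    rw [inv_le_comm₀ (by linarith) (by norm_num)]
    linarith
  calc ∑ m ∈ Finset.range M, r ^ (m + 1) = r * ∑ m ∈ Finset.range M, r ^ m := by
        rw [Finset.mul_sum]
        exact Finset.sum_congr rfl fun m _ => by ring
    _ ≤ r * 2 := mul_le_mul_of_nonneg_left (h1.trans h2) hr0
    _ = _ := by ring

theorem geo_two {r : ℝ} (hr0 : 0 ≤ r) (hr : r ≤ 1 / 2) (N i : ℕ) :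
    ∑ i' ∈ (Finset.range (N + 1)).erase i, (if i ≤ i' then r ^ (i' - i) else r ^ (i - i')) ≤ 4 * r := by
  classical
  have hsub : (Finset.range (N + 1)).erase i ⊆ Finset.range i ∪ Finset.Ico (i + 1) (N + 1) := by
    intro k hk
    rw [Finset.mem_erase, Finset.mem_range] at hk
    rw [Finset.mem_union, Finset.mem_range, Finset.mem_Ico]
    omega
  have hnn : ∀ i', 0 ≤ (if i ≤ i' then r ^ (i' - i) else r ^ (i - i')) := fun i' => by split_ifs <;> positivity
  refine (Finset.sum_le_sum_of_subset_of_nonneg hsub fun k _ _ => hnn k).trans ?_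
  rw [Finset.sum_union (by
    rw [Finset.disjoint_left]
    intro k hk hk'
    rw [Finset.mem_range] at hk
    rw [Finset.mem_Ico] at hk'
    omega)]
  have h1 : ∑ i' ∈ Finset.range i, (if i ≤ i' then r ^ (i' - i) else r ^ (i - i')) = ∑ m ∈ Finset.range i, r ^ (m + 1) := by
    rw [← Finset.sum_range_reflect]
    refine Finset.sum_congr rfl fun m hm => ?_
    have hm' := Finset.mem_range.1 hm
    rw [if_neg (by omega)]
    congr 1
    omega
  have h2 : ∑ i' ∈ Finset.Ico (i + 1) (N + 1), (if i ≤ i' then r ^ (i' - i) else r ^ (i - i')) = ∑ m ∈ Finset.range (N + 1 - (i + 1)), r ^ (m + 1) := by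
    rw [Finset.sum_Ico_eq_sum_range]
    refine Finset.sum_congr rfl fun m _ => ?_
    rw [if_pos (by omega)]
    congr 1
    omega
  rw [h1, h2]
  have h3 := geo_one hr0 hr i
  have h4 := geo_one hr0 hr (N + 1 - (i + 1))
  linarith

/-- **the lower bound on the critical line of parameters** -/
theorem low_crit {γ q : ℝ} (hγ0 : 0 < γ) (hq : 1 < q) (hcr : q * γ ^ 2 = 4) : ∃ δ c : ℝ, 0 < δ ∧ δ ≤ 1 ∧ 0 < c ∧ ∀ᶠ T : ℝ in atTop,
    1 ≤ δ * Real.log T ∧ ∀ x : ℝ, |x| ≤ T / 8 → ∀ h : ℝ, h ≤ 1 → 1 ≤ h * (δ * Real.log T) →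
      c * (T * (h * Real.log T * (1 + Real.log (4 * (h * Real.log T))))) ≤ ∫ t in T..(2 * T), Yg γ x (x + h) t ^ q := by
  classical
  have hγ2 : γ < 2 := by
    by_contra hneg
    push Not at hneg
    have h4 : 4 ≤ γ ^ 2 := by nlinarith
    nlinarith
  have hqγ : 0 < q * γ := by positivity
  obtain ⟨δ, η, hδ, hδ1, hη, hcell⟩ := cell_low (B := 4 + q * γ) (by linarith)
  obtain ⟨c₁, hc₁, hev⟩ := hcell γ q hγ0.le (by linarith) (by linarith) hq.le (by linarith)
  obtain ⟨b, hb⟩ : ∃ b : ℝ, b = (q - 1) / 2 := ⟨_, rfl⟩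
  obtain ⟨β, hβ⟩ : ∃ β : ℝ, β = b * γ / 2 := ⟨_, rfl⟩
  have hb0 : 0 < b := by rw [hb]; linarith
  have hβ0 : 0 < β := by rw [hβ]; positivity
  have hβB : |β| ≤ 4 + q * γ := by
    rw [abs_of_pos hβ0, hβ, hb]
    have : (q - 1) / 2 * γ / 2 = (q * γ - γ) / 4 := by ring
    rw [this]
    linarith
  obtain ⟨ρ, hρ⟩ : ∃ ρ : ℝ, ρ = (q - 1) ^ 2 / (4 * q) := ⟨_, rfl⟩
  have hq0 : 0 < q := by linarith
  have hρ0 : 0 < ρ := by
    rw [hρ]
    have : 0 < (q - 1) ^ 2 := by
      have : 0 < q - 1 := by linarith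
      positivity
    positivity
  have hγsq : γ ^ 2 = 4 / q := by
    rw [eq_div_iff hq0.ne']
    linarith
  obtain ⟨m, hm⟩ : ∃ m : ℝ, m = min (1 / 2) (η / 4) := ⟨_, rfl⟩
  have hm0 : 0 < m := by rw [hm]; exact lt_min (by norm_num) (by linarith)
  obtain ⟨K, hK⟩ := exists_nat_gt (max 1 (-Real.log m / ρ))
  have hK1 : (1 : ℝ) < K := lt_of_le_of_lt (le_max_left _ _) hK
  have hK0 : 0 < K := by
    have : (0 : ℝ) < K := by linarith
    exact_mod_cast this
  obtain ⟨r, hr⟩ : ∃ r : ℝ, r = Real.exp (-(ρ * K)) := ⟨_, rfl⟩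
  have hrm : r ≤ m := by
    have h1 : -Real.log m / ρ < K := lt_of_le_of_lt (le_max_right _ _) hK
    rw [div_lt_iff₀ hρ0] at h1
    rw [hr, ← Real.le_log_iff_exp_le hm0]
    linarith
  have hr0 : 0 ≤ r := by rw [hr]; exact (Real.exp_pos _).le
  have hr12 : r ≤ 1 / 2 := hrm.trans (by rw [hm]; exact min_le_left _ _)
  have hr4 : 4 * r ≤ η := by
    have : r ≤ η / 4 := hrm.trans (by rw [hm]; exact min_le_right _ _)
    linarith
  refine ⟨δ, c₁ * δ / (2 * (K + 1) * (1 + Real.log (4 / δ))), hδ, hδ1, ?_, ?_⟩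
  · have h1 : 0 < Real.log (4 / δ) := Real.log_pos (by rw [lt_div_iff₀ hδ]; linarith)
    positivity
  filter_upwards [hev, eventually_ge_atTop (32 : ℝ)] with T hev hT16
  obtain ⟨hE1, hev⟩ := hev
  refine ⟨hE1, ?_⟩
  intro x hx h hh1 hhE
  have hx' := abs_le.1 hx
  have hT0 : 0 < T := by linarith
  have hL0 : 0 < Real.log T := Real.log_pos (by linarith)
  obtain ⟨L, hL⟩ : ∃ L : ℝ, L = Real.log T := ⟨_, rfl⟩
  rw [← hL] at hE1 hev hL0 hhE ⊢
  obtain ⟨E, hE⟩ : ∃ E : ℝ, E = δ * L := ⟨_, rfl⟩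
  rw [← hE] at hE1 hev hhE
  have hE0 : 0 < E := by linarith
  have hh0 : 0 < h := by
    by_contra hneg
    push Not at hneg
    have : h * E ≤ 0 := mul_nonpos_of_nonpos_of_nonneg hneg hE0.le
    linarith
  have hhE0 : 0 < h * E := by positivity
  have hlog0 : 0 ≤ Real.log (h * E) := Real.log_nonneg hhE
  obtain ⟨N, hN⟩ : ∃ N : ℕ, N = ⌊Real.log (h * E) / K⌋₊ := ⟨_, rfl⟩
  have hK0' : (0 : ℝ) < K := by linarith
  have hN1 : (N : ℝ) * K ≤ Real.log (h * E) := by
    rw [← le_div_iff₀ hK0', hN]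
    exact Nat.floor_le (by positivity)
  have hN2 : Real.log (h * E) < ((N : ℝ) + 1) * K := by
    rw [← div_lt_iff₀ hK0', hN]
    exact Nat.lt_floor_add_one _
  have hinj : Function.Injective fun i : ℕ => K * i := fun a b hab => Nat.eq_of_mul_eq_mul_left hK0 hab
  obtain ⟨S, hS⟩ : ∃ S : Finset ℕ, S = (Finset.range (N + 1)).image fun i : ℕ => K * i := ⟨_, rfl⟩
  have hScard : S.card = N + 1 := by
    rw [hS, Finset.card_image_of_injective _ hinj, Finset.card_range]
  have hSj : ∀ j ∈ S, Real.exp (j : ℝ) ≤ h * E := by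
    intro j hj
    rw [hS, Finset.mem_image] at hj
    obtain ⟨i, hi, rfl⟩ := hj
    have hi' := Finset.mem_range.1 hi
    rw [← Real.le_log_iff_exp_le hhE0]
    have h1 : (i : ℝ) ≤ N := by exact_mod_cast Nat.lt_succ_iff.1 hi'
    push_cast
    nlinarith
  have hhEE : h * E ≤ E := by nlinarith
  have hSE : ∀ j ∈ S, 1 ≤ E * Real.exp (-(j : ℝ)) := by
    intro j hj
    rw [Real.exp_neg, ← div_eq_mul_inv, le_div_iff₀ (Real.exp_pos _)]
    linarith [hSj j hj]
  have hSne : S.Nonempty := by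
    rw [← Finset.card_pos, hScard]
    exact Nat.succ_pos _
  -- the weights
  obtain ⟨W, hW⟩ : ∃ W : ℕ → ℝ → ℝ, W = fun j τ => Real.exp (2 * β * SJ E j τ + b * (1 + 1 / q) * j) := ⟨_, rfl⟩
  have hW0 : ∀ j τ, 0 < W j τ := fun j τ => by rw [hW]; exact Real.exp_pos _
  have hWc : ∀ j, Continuous (W j) := fun j => by
    rw [hW]
    have := SJ_cont E j
    fun_prop
  obtain ⟨D, hD⟩ : ∃ D : ℝ → ℝ, D = fun τ => ∑ j ∈ S, W j τ := ⟨_, rfl⟩
  have hD0 : ∀ τ, 0 < D τ := fun τ => by
    rw [hD]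
    exact Finset.sum_pos (fun j _ => hW0 j τ) hSne
  have hDc : Continuous D := by
    rw [hD]
    exact continuous_finsetSum _ fun j _ => hWc j
  obtain ⟨ψ, hψ⟩ : ∃ ψ : ℕ → ℝ → ℝ, ψ = fun j τ => W j τ / D τ := ⟨_, rfl⟩
  have hψc : ∀ j, Continuous (ψ j) := fun j => by
    rw [hψ]
    exact (hWc j).div hDc fun τ => (hD0 τ).ne'
  have hψ0 : ∀ j τ, 0 ≤ ψ j τ := fun j τ => by
    rw [hψ]
    exact div_nonneg (hW0 j τ).le (hD0 τ).le
  have hψs : ∀ τ, ∑ j ∈ S, ψ j τ = 1 := fun τ => by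
    have : ∑ j ∈ S, ψ j τ = (∑ j ∈ S, W j τ) / D τ := by rw [hψ, Finset.sum_div]
    rw [this, hD]
    exact div_self (by
      have := (hD0 τ).ne'
      rwa [hD] at this)
  have hψ1 : ∀ j ∈ S, ∀ τ, ψ j τ ≤ 1 := fun j hj τ => by
    rw [← hψs τ]
    exact Finset.single_le_sum (f := fun j => ψ j τ) (fun i _ => hψ0 i τ) hj
  have hcell : ∀ j ∈ S, ∀ i ∈ Finset.range ⌊h * E * Real.exp (-(j : ℝ))⌋₊,
      c₁ * T * vl E γ q (Real.exp j / E) j ≤ ∫ t in T..(2 * T), Zc γ (Real.exp j / E) (x + i * (Real.exp j / E)) (ψ j) t ^ q := by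
    intro j hj i hi
    have hi' := Finset.mem_range.1 hi
    have hej : 0 < Real.exp (j : ℝ) := Real.exp_pos _
    have hw0 : 0 < Real.exp j / E := by positivity
    have h0 : 0 ≤ (i : ℝ) * (Real.exp j / E) := by positivity
    have h1 : (i : ℝ) * (Real.exp j / E) ≤ h := by
      have h2 : (i : ℝ) ≤ h * E * Real.exp (-(j : ℝ)) := by
        have h3 : (i : ℝ) ≤ ⌊h * E * Real.exp (-(j : ℝ))⌋₊ := by exact_mod_cast hi'.le
        exact h3.trans (Nat.floor_le (by positivity))
      calc (i : ℝ) * (Real.exp j / E) ≤ (h * E * Real.exp (-(j : ℝ))) * (Real.exp j / E) := mul_le_mul_of_nonneg_right h2 hw0.le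
        _ = h := by
            rw [Real.exp_neg]
            field_simp
    have h2 := hev (x + i * (Real.exp j / E)) (abs_le.2 ⟨by linarith [hx'.1], by linarith [hx'.2]⟩) j (hSE j hj) (Real.exp j / E) hw0
      (by
        rw [div_le_one hE0]
        exact (hSj j hj).trans hhEE) (by
        rw [Real.exp_neg]
        field_simp
        exact le_rfl) (ψ j) (hψc j) (hψ0 j) (hψ1 j hj) (S.erase j) (fun j' => Real.exp (b * (1 + 1 / q) * ((j' : ℝ) - j))) β
      (fun j' => (Real.exp_pos _).le) hβB (fun j' hj' => hSE j' (Finset.mem_of_mem_erase hj')) (by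
        intro τ
        have e1 : ∑ j' ∈ S.erase j, W j' τ = D τ - W j τ := by
          rw [hD]
          simp only
          rw [← Finset.add_sum_erase S (fun j => W j τ) hj]
          ring
        have e2 : 1 - ψ j τ = (∑ j' ∈ S.erase j, W j' τ) / D τ := by
          rw [e1, hψ]
          simp only
          rw [sub_div, div_self (hD0 τ).ne']
        have h3 : W j τ ≤ D τ := by
          rw [hD]
          exact Finset.single_le_sum (f := fun j => W j τ) (fun i _ => (hW0 i τ).le) hj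
        rw [e2]
        refine (div_le_div_of_nonneg_left (Finset.sum_nonneg fun i _ => (hW0 i τ).le) (hW0 j τ) h3).trans (le_of_eq ?_)
        rw [Finset.sum_div]
        refine Finset.sum_congr rfl fun j' _ => ?_
        rw [hW]
        simp only
        rw [← Real.exp_sub, ← Real.exp_add]
        congr 1
        ring) (by
        have hSi := hj
        rw [hS, Finset.mem_image] at hSi
        obtain ⟨i₀, hi₀, hji⟩ := hSi
        have e1 : S.erase j = ((Finset.range (N + 1)).erase i₀).image fun i : ℕ => K * i := by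
          rw [hS, ← hji, Finset.image_erase hinj]
        rw [e1, Finset.sum_image fun a _ c _ hac => hinj hac]
        refine le_trans (le_of_eq ?_) ((geo_two hr0 hr12 N i₀).trans hr4)
        refine Finset.sum_congr rfl fun i' hi' => ?_
        unfold dl
        rw [← hji]
        have hβ2 : β ^ 2 = b ^ 2 / q := by
          rw [hβ]
          have : (b * γ / 2) ^ 2 = b ^ 2 * γ ^ 2 / 4 := by ring
          rw [this, hγsq]
          field_simp
        have hβγ : γ * β = 2 * b / q := by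
          rw [hβ]
          have : γ * (b * γ / 2) = b * γ ^ 2 / 2 := by ring
          rw [this, hγsq]
          field_simp
          ring
        have hqb : q * γ * β = 2 * b := by
          rw [mul_assoc, hβγ]
          field_simp
        have hρb : ρ = b * (1 - 1 / q - b / q) := by
          rw [hρ, hb]
          field_simp
          ring
        rcases le_or_gt i₀ i' with hle | hgt
        · rw [if_pos (Nat.mul_le_mul_left K hle), if_pos hle, ← Real.exp_add, hr, ← Real.exp_nat_mul]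
          congr 1
          rw [hqb, hβ2, hρb, Nat.cast_sub hle]
          push_cast
          field_simp
          ring
        · rw [if_neg (by
            rw [not_le]
            exact (Nat.mul_lt_mul_left hK0).2 hgt), if_neg (by omega), ← Real.exp_add, hr, ← Real.exp_nat_mul]
          congr 1
          rw [hβγ, hβ2, hρb, Nat.cast_sub hgt.le]
          push_cast
          field_simp
          ring)
    exact h2
  have key := multi_low (γ := γ) (q := q) hγ0 hq.le (T := T) (h := h) (x := x) hT0.le hh0.le S (fun j => Real.exp j / E)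
    (fun j => ⌊h * E * Real.exp (-(j : ℝ))⌋₊) ψ (fun j => c₁ * T * vl E γ q (Real.exp j / E) j) hψc hψ0 (fun τ => (hψs τ).le)
    (fun j _ => by positivity) (fun j _ => by
      have h2 : (⌊h * E * Real.exp (-(j : ℝ))⌋₊ : ℝ) ≤ h * E * Real.exp (-(j : ℝ)) := Nat.floor_le (by positivity)
      calc (⌊h * E * Real.exp (-(j : ℝ))⌋₊ : ℝ) * (Real.exp j / E) ≤ (h * E * Real.exp (-(j : ℝ))) * (Real.exp j / E) :=
            mul_le_mul_of_nonneg_right h2 (by positivity)
        _ = h := by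
            rw [Real.exp_neg]
            field_simp) hcell
  refine le_trans ?_ key
  have hterm : ∀ j ∈ S, h * E / 2 * (c₁ * T) ≤ (⌊h * E * Real.exp (-(j : ℝ))⌋₊ : ℝ) * (c₁ * T * vl E γ q (Real.exp j / E) j) := by
    intro j hj
    have hej : 0 < Real.exp (j : ℝ) := Real.exp_pos _
    have h1 : 1 ≤ h * E * Real.exp (-(j : ℝ)) := by
      rw [Real.exp_neg, ← div_eq_mul_inv, le_div_iff₀ hej]
      linarith [hSj j hj]
    have h2 := floor_half h1
    have e1 : q ^ 2 * γ ^ 2 / 4 - q = 0 := by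
      rw [hγsq]
      field_simp
      ring
    have e2 : q + q * γ ^ 2 / 4 - q ^ 2 * γ ^ 2 / 4 = 1 := by
      rw [hγsq]
      field_simp
      ring
    rw [vl_eq hE0, e1, e2, Real.rpow_zero, one_mul, mul_one]
    calc h * E / 2 * (c₁ * T) = h * E * Real.exp (-(j : ℝ)) / 2 * (c₁ * T * Real.exp j) := by
          rw [Real.exp_neg]
          field_simp
      _ ≤ _ := mul_le_mul_of_nonneg_right h2 (by positivity)
  refine le_trans ?_ (Finset.sum_le_sum hterm)
  rw [Finset.sum_const, hScard, nsmul_eq_mul]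
  push_cast
  have hNK : 1 + Real.log (h * E) ≤ (K + 1) * ((N : ℝ) + 1) := by
    have : (0 : ℝ) ≤ N := Nat.cast_nonneg _
    linarith
  have hlog4 : 1 + Real.log (4 * (h * L)) ≤ (1 + Real.log (4 / δ)) * (1 + Real.log (h * E)) := by
    have e1 : 4 * (h * L) = 4 / δ * (h * E) := by
      rw [hE]
      field_simp
    rw [e1, Real.log_mul (by positivity) hhE0.ne']
    have h1 : 0 < Real.log (4 / δ) := Real.log_pos (by rw [lt_div_iff₀ hδ]; linarith)
    nlinarith
  have hl0 : 0 < Real.log (4 / δ) := Real.log_pos (by rw [lt_div_iff₀ hδ]; linarith)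
  calc c₁ * δ / (2 * (K + 1) * (1 + Real.log (4 / δ))) * (T * (h * L * (1 + Real.log (4 * (h * L))))) ≤
        c₁ * δ / (2 * (K + 1) * (1 + Real.log (4 / δ))) * (T * (h * L * ((1 + Real.log (4 / δ)) * ((K + 1) * ((N : ℝ) + 1))))) := by
        apply mul_le_mul_of_nonneg_left _ (by positivity)
        apply mul_le_mul_of_nonneg_left _ hT0.le
        apply mul_le_mul_of_nonneg_left _ (by positivity)
        refine hlog4.trans ?_
        exact mul_le_mul_of_nonneg_left hNK (by linarith)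
    _ = ((N : ℝ) + 1) * (h * E / 2 * (c₁ * T)) := by
        rw [hE]
        field_simp

end

end Pool.Agent.H469.F4
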