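import Pool.Agent.H469.F4.SP7

set_option autoImplicit false

/-!
# Truncated sums of completely multiplicative functions
-/

namespace Pool.Agent.H469.F4

open Filter Topology MeasureTheory Complex Pool.Agent.Q97.UM Pool.Agent.Q14.UM

noncomputable section

/-- the completely multiplicative function with the values `g p` at the primes -/
def cm (g : ℕ → ℝ) (n : ℕ) : ℝ := if n = 0 then 0 else (n.primeFactorsList.map g).prod

theorem cm_one (g : ℕ → ℝ) : cm g 1 = 1 := by simp [cm]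

theorem cm_mul (g : ℕ → ℝ) (m n : ℕ) : cm g (m * n) = cm g m * cm g n := by
  unfold cm
  by_cases hm : m = 0
  · simp [hm]
  by_cases hn : n = 0
  · simp [hn]
  rw [if_neg hm, if_neg hn, if_neg (mul_ne_zero hm hn), ((Nat.perm_primeFactorsList_mul hm hn).map g).prod_eq,
    List.map_append, List.prod_append]

theorem cm_prime (g : ℕ → ℝ) {p : ℕ} (hp : p.Prime) : cm g p = g p := by
  unfold cm
  rw [if_neg hp.ne_zero, Nat.primeFactorsList_prime hp]
  simp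

/-- as a homomorphism -/
def cmH (g : ℕ → ℝ) : ℕ →* ℝ where
  toFun := cm g
  map_one' := cm_one g
  map_mul' := cm_mul g

theorem cm_nonneg {g : ℕ → ℝ} (hg : ∀ p, 0 ≤ g p) (n : ℕ) : 0 ≤ cm g n := by
  unfold cm
  split_ifs
  · exact le_rfl
  · apply List.prod_nonneg
    intro x hx
    obtain ⟨p, _, rfl⟩ := List.mem_map.1 hx
    exact hg p

theorem cm_smooth {g : ℕ → ℝ} {k n : ℕ} (hk : ∀ p, k ≤ p → g p = 0) (hn : cm g n ≠ 0) : n ∈ Nat.smoothNumbers k := by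
  have h0 : n ≠ 0 := by
    intro h
    apply hn
    simp [cm, h]
  refine ⟨h0, fun p hp => ?_⟩
  by_contra h
  push Not at h
  apply hn
  unfold cm
  rw [if_neg h0]
  apply List.prod_eq_zero
  exact List.mem_map.2 ⟨p, hp, hk p h⟩

/-- twisting -/
theorem cm_twist (g w : ℕ → ℝ) (hw1 : w 1 = 1) (hw : ∀ m n, m ≠ 0 → n ≠ 0 → w (m * n) = w m * w n) :
    ∀ n, n ≠ 0 → cm (fun p => g p * w p) n = cm g n * w n := by
  intro n
  induction n using Nat.recOnMul with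
  | zero => intro h; exact absurd rfl h
  | one => intro _; rw [cm_one, cm_one, hw1, mul_one]
  | prime p hp => intro _; rw [cm_prime _ hp, cm_prime _ hp]
  | mul a b ha hb =>
    intro h
    have ha0 : a ≠ 0 := fun h' => h (by rw [h', zero_mul])
    have hb0 : b ≠ 0 := fun h' => h (by rw [h', mul_zero])
    rw [cm_mul, cm_mul, ha ha0, hb hb0, hw a b ha0 hb0]
    ring

theorem cm_rpow (g : ℕ → ℝ) (x : ℝ) {n : ℕ} (hn : n ≠ 0) : cm (fun p => g p * (p : ℝ) ^ x) n = cm g n * (n : ℝ) ^ x := by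
  refine cm_twist g (fun n => (n : ℝ) ^ x) ?_ ?_ n hn
  · simp
  · intro m n _ _
    show ((m * n : ℕ) : ℝ) ^ x = _
    push_cast
    exact Real.mul_rpow (Nat.cast_nonneg _) (Nat.cast_nonneg _)

theorem inv_one_sub_le {x : ℝ} (h0 : 0 ≤ x) (h1 : x ≤ 1 / 2) : (1 - x)⁻¹ ≤ Real.exp (x + 2 * x ^ 2) := by
  have h2 : 0 < 1 - x := by linarith
  have h3 : (1 - x)⁻¹ = x / (1 - x) + 1 := by field_simp; ring
  rw [h3]
  refine (Real.add_one_le_exp _).trans (Real.exp_le_exp.2 ?_)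
  rw [div_le_iff₀ h2]
  nlinarith [sq_nonneg x, mul_nonneg (sq_nonneg x) h0]

theorem le_inv_one_sub {x : ℝ} (h1 : x ≤ 1 / 2) : Real.exp x ≤ (1 - x)⁻¹ := by
  have h2 : 0 < 1 - x := by linarith
  have h3 := Real.add_one_le_exp (-x)
  rw [Real.exp_neg] at h3
  have h4 := Real.exp_pos x
  rw [le_inv_comm₀ h4 h2]
  linarith

theorem primesBelow_eq (y : ℕ) : Nat.primesBelow (y + 1) = (Finset.Icc 1 y).filter Nat.Prime := by
  ext p
  rw [Nat.primesBelow, Finset.mem_filter, Finset.mem_filter, Finset.mem_range, Finset.mem_Icc]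
  constructor
  · rintro ⟨h1, h2⟩
    exact ⟨⟨h2.one_lt.le, by omega⟩, h2⟩
  · rintro ⟨h1, h2⟩
    exact ⟨by omega, h2⟩

theorem cm_hasSum {g : ℕ → ℝ} (hg0 : ∀ p, 0 ≤ g p) (hg : ∀ p, p.Prime → g p ≤ 1 / 2) (y : ℕ) :
    HasSum (fun m : Nat.smoothNumbers (y + 1) => cm g m) (∏ p ∈ (Finset.Icc 1 y).filter Nat.Prime, (1 - g p)⁻¹) := by
  have h := (EulerProduct.summable_and_hasSum_smoothNumbers_prod_primesBelow_geometric (f := cmH g) (fun {p} hp => by
    show ‖cm g p‖ < 1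
    rw [cm_prime g hp, Real.norm_eq_abs, abs_of_nonneg (hg0 p)]
    linarith [hg p hp]) (y + 1)).2
  rw [primesBelow_eq] at h
  have h2 : ∏ p ∈ (Finset.Icc 1 y).filter Nat.Prime, (1 - cmH g p)⁻¹ = ∏ p ∈ (Finset.Icc 1 y).filter Nat.Prime, (1 - g p)⁻¹ := by
    refine Finset.prod_congr rfl fun p hp => ?_
    have h3 : cmH g p = g p := cm_prime g (Finset.mem_filter.1 hp).2
    rw [h3]
  rw [h2] at h
  exact h

theorem cm_le_exp {g : ℕ → ℝ} (hg0 : ∀ p, 0 ≤ g p) (hg : ∀ p, p.Prime → g p ≤ 1 / 2) {y : ℕ} (hy : ∀ p, y < p → g p = 0) (Y : ℕ) :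
    ∑ n ∈ Finset.Icc 1 Y, cm g n ≤ Real.exp (∑ p ∈ (Finset.Icc 1 y).filter Nat.Prime, (g p + 2 * g p ^ 2)) := by
  classical
  have h1 := cm_hasSum hg0 hg y
  have h2 : ∑ n ∈ Finset.Icc 1 Y, cm g n = ∑ m ∈ (Finset.Icc 1 Y).subtype (fun n => n ∈ Nat.smoothNumbers (y + 1)), cm g m := by
    rw [Finset.sum_subtype_eq_sum_filter, Finset.sum_filter]
    refine Finset.sum_congr rfl fun n _ => ?_
    split_ifs with h
    · rfl
    · by_contra h3
      exact h (cm_smooth (fun p hp => hy p (by omega)) h3)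
  rw [h2]
  refine (sum_le_hasSum _ (fun m _ => cm_nonneg hg0 _) h1).trans ?_
  rw [Real.exp_sum]
  refine Finset.prod_le_prod (fun p hp => ?_) fun p hp => ?_
  · have := hg p (Finset.mem_filter.1 hp).2
    exact inv_nonneg.2 (by linarith)
  · exact inv_one_sub_le (hg0 p) (hg p (Finset.mem_filter.1 hp).2)

/-- Rankin's trick -/
theorem cm_rankin {g : ℕ → ℝ} (hg0 : ∀ p, 0 ≤ g p) {σ : ℝ} (hσ : 0 ≤ σ) {y : ℕ} (hgy : ∀ p, y < p → g p = 0)
    (hg : ∀ p, p.Prime → g p * (p : ℝ) ^ σ ≤ 1 / 2) {N : ℕ} (hN : 1 ≤ N) :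
    Real.exp (∑ p ∈ (Finset.Icc 1 y).filter Nat.Prime, g p) ≤ ∑ n ∈ Finset.Icc 1 N, cm g n +
      (N : ℝ) ^ (-σ) * Real.exp (∑ p ∈ (Finset.Icc 1 y).filter Nat.Prime, (g p * (p : ℝ) ^ σ + 2 * (g p * (p : ℝ) ^ σ) ^ 2)) := by
  classical
  have hN0 : (0 : ℝ) < N := by exact_mod_cast hN
  have hg2 : ∀ p, p.Prime → g p ≤ 1 / 2 := by
    intro p hp
    have h1 : (1 : ℝ) ≤ (p : ℝ) ^ σ := Real.one_le_rpow (by exact_mod_cast hp.one_lt.le) hσ
    have h2 := hg0 p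
    have h3 := hg p hp
    nlinarith
  have h1 := cm_hasSum hg0 hg2 y
  obtain ⟨h, hh⟩ : ∃ h : ℕ → ℝ, h = fun p => g p * (p : ℝ) ^ σ := ⟨_, rfl⟩
  have hh0 : ∀ p, 0 ≤ h p := fun p => by
    rw [hh]
    have := hg0 p
    positivity
  have hhp : ∀ p, p.Prime → h p ≤ 1 / 2 := fun p hp => by rw [hh]; exact hg p hp
  have hhy : ∀ p, y < p → h p = 0 := fun p hp => by
    rw [hh]
    show g p * _ = 0
    rw [hgy p hp, zero_mul]
  have h2 := cm_hasSum hh0 hhp y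
  obtain ⟨P2, hP2⟩ : ∃ P2 : ℝ, P2 = ∏ p ∈ (Finset.Icc 1 y).filter Nat.Prime, (1 - h p)⁻¹ := ⟨_, rfl⟩
  rw [← hP2] at h2
  have h3 : ∏ p ∈ (Finset.Icc 1 y).filter Nat.Prime, (1 - g p)⁻¹ ≤ ∑ n ∈ Finset.Icc 1 N, cm g n + (N : ℝ) ^ (-σ) * P2 := by
    refine hasSum_le_of_sum_le h1 fun s => ?_
    have h4 : ∀ m ∈ s, cm g (m : ℕ) ≤ (if (m : ℕ) ≤ N then cm g m else 0) + (N : ℝ) ^ (-σ) * cm h m := by
      intro m _
      have hm0 : (m : ℕ) ≠ 0 := m.2.1
      have h5 : cm h m = cm g m * (m : ℝ) ^ σ := by rw [hh]; exact cm_rpow g σ hm0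
      have h6 := cm_nonneg hg0 (m : ℕ)
      split_ifs with h7
      · have h8 := cm_nonneg hh0 (m : ℕ)
        have : 0 ≤ (N : ℝ) ^ (-σ) * cm h m := by positivity
        linarith
      · push Not at h7
        rw [h5, zero_add]
        have h8 : (1 : ℝ) ≤ (N : ℝ) ^ (-σ) * (m : ℝ) ^ σ := by
          rw [Real.rpow_neg hN0.le, ← div_eq_inv_mul, ← Real.div_rpow (Nat.cast_nonneg _) hN0.le]
          apply Real.one_le_rpow _ hσ
          rw [one_le_div hN0]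
          exact_mod_cast h7.le
        calc cm g (m : ℕ) = cm g m * 1 := (mul_one _).symm
          _ ≤ cm g m * ((N : ℝ) ^ (-σ) * (m : ℝ) ^ σ) := mul_le_mul_of_nonneg_left h8 h6
          _ = _ := by ring
    refine (Finset.sum_le_sum h4).trans ?_
    rw [Finset.sum_add_distrib, ← Finset.mul_sum]
    apply add_le_add
    · have h5 : ∑ m ∈ s, (if (m : ℕ) ≤ N then cm g (m : ℕ) else 0) =
          ∑ n ∈ Finset.image Subtype.val s, (if n ≤ N then cm g n else 0) := by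
        rw [Finset.sum_image]
        intro a _ b _ hab
        exact Subtype.ext hab
      rw [h5, ← Finset.sum_filter]
      apply Finset.sum_le_sum_of_subset_of_nonneg
      · intro n hn
        rw [Finset.mem_filter, Finset.mem_image] at hn
        obtain ⟨⟨m, _, rfl⟩, hn⟩ := hn
        rw [Finset.mem_Icc]
        exact ⟨Nat.pos_of_ne_zero m.2.1, hn⟩
      · intro n _ _
        exact cm_nonneg hg0 n
    · apply mul_le_mul_of_nonneg_left _ (by positivity)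
      exact sum_le_hasSum s (fun m _ => cm_nonneg hh0 _) h2
  have h4 : Real.exp (∑ p ∈ (Finset.Icc 1 y).filter Nat.Prime, g p) ≤ ∏ p ∈ (Finset.Icc 1 y).filter Nat.Prime, (1 - g p)⁻¹ := by
    rw [Real.exp_sum]
    exact Finset.prod_le_prod (fun p _ => (Real.exp_pos _).le) fun p hp => le_inv_one_sub (hg2 p (Finset.mem_filter.1 hp).2)
  have h5 : P2 ≤ Real.exp (∑ p ∈ (Finset.Icc 1 y).filter Nat.Prime, (g p * (p : ℝ) ^ σ + 2 * (g p * (p : ℝ) ^ σ) ^ 2)) := by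
    rw [hP2, Real.exp_sum]
    refine Finset.prod_le_prod (fun p hp => ?_) fun p hp => ?_
    · have := hhp p (Finset.mem_filter.1 hp).2
      exact inv_nonneg.2 (by linarith)
    · have := inv_one_sub_le (hh0 p) (hhp p (Finset.mem_filter.1 hp).2)
      rw [hh] at this ⊢
      exact this
  refine h4.trans (h3.trans ?_)
  have h6 : (N : ℝ) ^ (-σ) * P2 ≤ (N : ℝ) ^ (-σ) * Real.exp (∑ p ∈ (Finset.Icc 1 y).filter Nat.Prime, (g p * (p : ℝ) ^ σ + 2 * (g p * (p : ℝ) ^ σ) ^ 2)) :=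
    mul_le_mul_of_nonneg_left h5 (by positivity)
  linarith

end

end Pool.Agent.H469.F4
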