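import Pool.Agent.H469.F4.NP2

set_option autoImplicit false

/-!
# Majorants for products of partial sums: the factor at one prime
-/

namespace Pool.Agent.H469.F4

open Filter Topology MeasureTheory Complex Pool.Agent.Q97.UM Pool.Agent.Q14.UM
open Pool.Agent.Q299.UM (Fp Fp_apply NN_Fp qb_le te_le cvp_le Ee Ee_apply NN NN_mul NN_one NN_pow NN_Ee NN_sum NN_prod Le Le_mul
  Ee_sum Ee_zero SPA SPA_mul SPA_one SPA_pow SPA_Ee SPA_prod SPA_mono N2A N2A_nonneg N2A_mul N2A_prod N2A_local Fp_one Fp_self SPA_Fp Fp_l1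
  sum_ap Le_trans Le_refl)

noncomputable section

/-- the indicator of the powers of `p` -/
def geo (p : ℕ) : ArithmeticFunction ℝ := ⟨fun n => if n ≠ 0 ∧ n.primeFactors ⊆ {p} then 1 else 0, by simp⟩

theorem geo_apply (p n : ℕ) : geo p n = if n ≠ 0 ∧ n.primeFactors ⊆ {p} then 1 else 0 := rfl

theorem NN_geo (p : ℕ) : NN (geo p) := by
  intro n
  rw [geo_apply]
  split_ifs <;> norm_num

theorem geo_one (p : ℕ) : geo p 1 = 1 := by
  rw [geo_apply, if_pos]
  simp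

theorem geo_prime {p : ℕ} (hp : p.Prime) : geo p p = 1 := by
  rw [geo_apply, if_pos]
  exact ⟨hp.ne_zero, by rw [hp.primeFactors]⟩

theorem geo_pow {p : ℕ} (hp : p.Prime) (k : ℕ) : geo p (p ^ k) = 1 := by
  rw [geo_apply, if_pos]
  refine ⟨pow_ne_zero _ hp.ne_zero, fun q hq => ?_⟩
  have h1 := Nat.mem_primeFactors.1 hq
  exact Finset.mem_singleton.2 ((Nat.prime_dvd_prime_iff_eq h1.1 hp).1 (h1.1.dvd_of_dvd_pow h1.2.1))

theorem SPA_geo (p : ℕ) : SPA (fun q => q = p) (geo p) := by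
  intro n hn q hq hqn
  rw [geo_apply] at hn
  by_cases h : n ≠ 0 ∧ n.primeFactors ⊆ {p}
  · exact Finset.mem_singleton.1 (h.2 (Nat.mem_primeFactors.2 ⟨hq, hqn, h.1⟩))
  · exact absurd (if_neg h) hn

theorem mul_at_one (F G : ArithmeticFunction ℝ) : (F * G) 1 = F 1 * G 1 := by
  rw [ArithmeticFunction.mul_apply, Nat.divisorsAntidiagonal_one, Finset.sum_singleton]

theorem mul_at_prime (F G : ArithmeticFunction ℝ) {p : ℕ} (hp : p.Prime) : (F * G) p = F 1 * G p + F p * G 1 := by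
  rw [ArithmeticFunction.mul_apply, Nat.sum_divisorsAntidiagonal (fun i j => F i * G j), hp.sum_divisors, Nat.div_one,
    Nat.div_self hp.pos]
  ring

theorem pow_at_one (F : ArithmeticFunction ℝ) (r : ℕ) : (F ^ r) 1 = F 1 ^ r := by
  induction r with
  | zero => simp
  | succ r ih => rw [pow_succ, mul_at_one, ih, pow_succ]

theorem geo_pow_one (p m : ℕ) : (geo p ^ m) 1 = 1 := by rw [pow_at_one, geo_one, one_pow]

theorem geo_pow_prime {p : ℕ} (hp : p.Prime) (m : ℕ) : (geo p ^ m) p = m := by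
  induction m with
  | zero =>
    rw [pow_zero, ArithmeticFunction.one_apply_ne hp.one_lt.ne']
    simp
  | succ m ih =>
    rw [pow_succ, mul_at_prime _ _ hp, ih, geo_pow_one, geo_one, geo_prime hp]
    push_cast
    ring

theorem Ee_one {F : ArithmeticFunction ℝ} (h : F 1 = 0) (R : ℕ) : Ee F R 1 = 1 := by
  rw [Ee_apply, Finset.sum_range_succ']
  rw [Finset.sum_eq_zero]
  · simp
  · intro r _
    rw [pow_at_one, h, zero_pow (by omega), zero_div]

theorem Ee_prime {F : ArithmeticFunction ℝ} (hF : NN F) (h : F 1 = 0) {p : ℕ} (hp : p.Prime) (R : ℕ) : Ee F R p ≤ F p := by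
  have h0 : ∀ r : ℕ, 2 ≤ r → (F ^ r) p = 0 := by
    intro r hr
    obtain ⟨s, rfl⟩ : ∃ s, r = s + 1 + 1 := ⟨r - 2, by omega⟩
    rw [pow_succ, mul_at_prime _ _ hp, pow_at_one, h, zero_pow (by omega)]
    ring
  have hFp := hF p
  rw [Ee_apply]
  have h1 : ∀ r ∈ Finset.range (R + 1), (F ^ r) p / (r.factorial : ℝ) = if r = 1 then F p else 0 := by
    intro r _
    split_ifs with h2
    · rw [h2]
      simp
    · rcases Nat.lt_or_ge r 2 with h3 | h3
      · have h4 : r = 0 := by omega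
        rw [h4, pow_zero, ArithmeticFunction.one_apply_ne hp.one_lt.ne', zero_div]
      · rw [h0 r h3, zero_div]
  rw [Finset.sum_congr rfl h1, Finset.sum_ite_eq']
  split_ifs
  · exact le_rfl
  · exact hFp

/-! ### weighted sums -/

/-- the weight -/
def wt (n : ℕ) : ℝ := (3 / 4 : ℝ) ^ n.primeFactorsList.length

theorem wt_pos (n : ℕ) : 0 < wt n := by unfold wt; positivity

theorem wt_le (n : ℕ) : wt n ≤ 1 := pow_le_one₀ (by norm_num) (by norm_num)

theorem wt_mul {m n : ℕ} (hm : m ≠ 0) (hn : n ≠ 0) : wt (m * n) = wt m * wt n := by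
  unfold wt
  rw [(Nat.perm_primeFactorsList_mul hm hn).length_eq, List.length_append, pow_add]

/-- the weighted sum -/
def Wt (X : ℕ) (F : ArithmeticFunction ℝ) : ℝ := ∑ n ∈ Finset.Icc 1 X, F n * wt n

theorem Wt_nonneg (X : ℕ) {F : ArithmeticFunction ℝ} (hF : NN F) : 0 ≤ Wt X F :=
  Finset.sum_nonneg fun n _ => mul_nonneg (hF n) (wt_pos n).le

theorem Wt_mul (X : ℕ) {F G : ArithmeticFunction ℝ} (hF : NN F) (hG : NN G) : Wt X (F * G) ≤ Wt X F * Wt X G := by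
  have h1 : ∀ n ∈ Finset.Icc 1 X, (F * G) n * wt n = ∑ x ∈ n.divisorsAntidiagonal, (F x.1 * wt x.1) * (G x.2 * wt x.2) := by
    intro n _
    rw [ArithmeticFunction.mul_apply, Finset.sum_mul]
    refine Finset.sum_congr rfl fun x hx => ?_
    rw [Nat.mem_divisorsAntidiagonal] at hx
    have h2 : x.1 ≠ 0 := fun h => hx.2 (by rw [← hx.1, h, zero_mul])
    have h3 : x.2 ≠ 0 := fun h => hx.2 (by rw [← hx.1, h, mul_zero])
    rw [← hx.1, wt_mul h2 h3]
    ring
  unfold Wt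
  rw [Finset.sum_congr rfl h1, ← Finset.sum_biUnion, Finset.sum_mul_sum, ← Finset.sum_product']
  · refine Finset.sum_le_sum_of_subset_of_nonneg ?_ fun x _ _ =>
      mul_nonneg (mul_nonneg (hF _) (wt_pos _).le) (mul_nonneg (hG _) (wt_pos _).le)
    intro x hx
    rw [Finset.mem_biUnion] at hx
    obtain ⟨n, hn, hx⟩ := hx
    rw [Nat.mem_divisorsAntidiagonal] at hx
    rw [Finset.mem_Icc] at hn
    have h2 : x.1 ≠ 0 := fun h => hx.2 (by rw [← hx.1, h, zero_mul])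
    have h3 : x.2 ≠ 0 := fun h => hx.2 (by rw [← hx.1, h, mul_zero])
    rw [Finset.mem_product, Finset.mem_Icc, Finset.mem_Icc]
    refine ⟨⟨Nat.pos_of_ne_zero h2, ?_⟩, Nat.pos_of_ne_zero h3, ?_⟩
    · exact (Nat.le_mul_of_pos_right _ (Nat.pos_of_ne_zero h3)).trans (hx.1.le.trans hn.2)
    · exact (Nat.le_mul_of_pos_left _ (Nat.pos_of_ne_zero h2)).trans (hx.1.le.trans hn.2)
  · intro n _ m _ hnm
    rw [Function.onFun, Finset.disjoint_left]
    intro x hx hx'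
    rw [Nat.mem_divisorsAntidiagonal] at hx hx'
    exact hnm (hx.1.symm.trans hx'.1)

theorem Wt_one (X : ℕ) : Wt X 1 ≤ 1 := by
  unfold Wt
  have h1 : ∀ n ∈ Finset.Icc 1 X, (1 : ArithmeticFunction ℝ) n * wt n = if n = 1 then 1 else 0 := by
    intro n _
    rw [ArithmeticFunction.one_apply]
    split_ifs with h
    · rw [h]; simp [wt]
    · simp
  rw [Finset.sum_congr rfl h1, Finset.sum_ite_eq']
  split_ifs <;> norm_num

theorem Wt_pow (X : ℕ) {F : ArithmeticFunction ℝ} (hF : NN F) (r : ℕ) : Wt X (F ^ r) ≤ Wt X F ^ r := by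
  induction r with
  | zero => rw [pow_zero, pow_zero]; exact Wt_one X
  | succ r ih =>
    rw [pow_succ, pow_succ]
    exact (Wt_mul X (NN_pow hF r) hF).trans (mul_le_mul_of_nonneg_right ih (Wt_nonneg X hF))

theorem Wt_Ee (X : ℕ) {F : ArithmeticFunction ℝ} (hF : NN F) (R : ℕ) : Wt X (Ee F R) ≤ Real.exp (Wt X F) := by
  have h1 : Wt X (Ee F R) = ∑ r ∈ Finset.range (R + 1), Wt X (F ^ r) / (r.factorial : ℝ) := by
    unfold Wt
    have h2 : ∀ n ∈ Finset.Icc 1 X, Ee F R n * wt n = ∑ r ∈ Finset.range (R + 1), (F ^ r) n * wt n / (r.factorial : ℝ) := by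
      intro n _
      rw [Ee_apply, Finset.sum_mul]
      refine Finset.sum_congr rfl fun r _ => ?_
      ring
    rw [Finset.sum_congr rfl h2, Finset.sum_comm]
    refine Finset.sum_congr rfl fun r _ => ?_
    rw [Finset.sum_div]
  rw [h1]
  have h2 : ∑ r ∈ Finset.range (R + 1), Wt X (F ^ r) / (r.factorial : ℝ) ≤ ∑ r ∈ Finset.range (R + 1), Wt X F ^ r / (r.factorial : ℝ) := by
    refine Finset.sum_le_sum fun r _ => ?_
    exact div_le_div_of_nonneg_right (Wt_pow X hF r) (by positivity)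
  exact h2.trans (Real.sum_le_exp_of_nonneg (Wt_nonneg X hF) _)

theorem Wt_geo {p : ℕ} (hp : p.Prime) (X : ℕ) : Wt X (geo p) ≤ 4 := by
  classical
  unfold Wt
  have h1 : ∑ n ∈ Finset.Icc 1 X, geo p n * wt n =
      ∑ n ∈ (Finset.Icc 1 X).filter (fun n => n ≠ 0 ∧ n.primeFactors ⊆ {p}), (3 / 4 : ℝ) ^ n.primeFactorsList.length := by
    rw [Finset.sum_filter]
    refine Finset.sum_congr rfl fun n _ => ?_
    rw [geo_apply]
    unfold wt
    split_ifs
    · rw [one_mul]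
    · rw [zero_mul]
  have hpw : ∀ n : ℕ, n ≠ 0 → n.primeFactors ⊆ {p} → n = p ^ n.primeFactorsList.length := by
    intro n hn h
    apply Nat.eq_prime_pow_of_unique_prime_dvd hn
    intro q hq hqn
    exact Finset.mem_singleton.1 (h (Nat.mem_primeFactors.2 ⟨hq, hqn, hn⟩))
  have h2 : ∑ n ∈ (Finset.Icc 1 X).filter (fun n => n ≠ 0 ∧ n.primeFactors ⊆ {p}), (3 / 4 : ℝ) ^ n.primeFactorsList.length =
      ∑ k ∈ Finset.image (fun n : ℕ => n.primeFactorsList.length) ((Finset.Icc 1 X).filter (fun n => n ≠ 0 ∧ n.primeFactors ⊆ {p})),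
        (3 / 4 : ℝ) ^ k := by
    rw [Finset.sum_image]
    intro a ha b hb hab
    have ha' := (Finset.mem_filter.1 ha).2
    have hb' := (Finset.mem_filter.1 hb).2
    have e1 := hpw a ha'.1 ha'.2
    have e2 := hpw b hb'.1 hb'.2
    have hab' : a.primeFactorsList.length = b.primeFactorsList.length := hab
    rw [e1, e2, hab']
  rw [h1, h2]
  have h3 : Summable fun k : ℕ => (3 / 4 : ℝ) ^ k := summable_geometric_of_lt_one (by norm_num) (by norm_num)
  refine (h3.sum_le_tsum _ fun k _ => by positivity).trans ?_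
  rw [tsum_geometric_of_lt_one (by norm_num) (by norm_num)]
  norm_num

theorem Wt_Fp (a a2 : ℕ → ℂ) (p X : ℕ) : Wt X (Fp a a2 p) ≤ ‖a p‖ + ‖a2 p‖ / 2 := by
  classical
  unfold Wt
  calc ∑ n ∈ Finset.Icc 1 X, Fp a a2 p n * wt n ≤
      ∑ n ∈ Finset.Icc 1 X, ((if n = p then ‖a p‖ else 0) + (if n = p ^ 2 then ‖a2 p‖ / 2 else 0)) := by
        refine Finset.sum_le_sum fun n hn => ?_
        refine (mul_le_of_le_one_right (NN_Fp a a2 p n) (wt_le n)).trans ?_
        have h0 : n ≠ 0 := by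
          have := (Finset.mem_Icc.1 hn).1
          omega
        rw [Fp_apply, if_neg h0]
    _ = ∑ n ∈ Finset.Icc 1 X, (if n = p then ‖a p‖ else 0) + ∑ n ∈ Finset.Icc 1 X, (if n = p ^ 2 then ‖a2 p‖ / 2 else 0) :=
        Finset.sum_add_distrib
    _ ≤ ‖a p‖ + ‖a2 p‖ / 2 := by
        refine add_le_add ?_ ?_
        · rw [Finset.sum_ite_eq']
          split_ifs
          · exact le_rfl
          · positivity
        · rw [Finset.sum_ite_eq']
          split_ifs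
          · exact le_rfl
          · positivity

/-- mean square and weighted sum -/
theorem N2A_Wt {F : ArithmeticFunction ℝ} (hF : NN F) {p : ℕ} (hp : p.Prime) (hs : SPA (fun q => q = p) F) (X : ℕ) :
    N2A X F ≤ F 1 ^ 2 + F p ^ 2 / p + 4 * Wt X F ^ 2 / (p : ℝ) ^ 2 := by
  classical
  have hp0 : (0 : ℝ) < p := by exact_mod_cast hp.pos
  have hp2 : (2 : ℝ) ≤ p := by exact_mod_cast hp.two_le
  have h1 : ∀ n ∈ Finset.Icc 1 X, F n ^ 2 / (n : ℝ) ≤
      ((if n = 1 then F 1 ^ 2 else 0) + (if n = p then F p ^ 2 / p else 0)) + 4 / (p : ℝ) ^ 2 * (F n * wt n) ^ 2 := by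
    intro n hn
    have hn0 : n ≠ 0 := by
      have := (Finset.mem_Icc.1 hn).1
      omega
    have e1 : 0 ≤ (if n = 1 then F 1 ^ 2 else 0) := by split_ifs <;> positivity
    have e2 : 0 ≤ (if n = p then F p ^ 2 / (p : ℝ) else 0) := by split_ifs <;> positivity
    have e3 : 0 ≤ 4 / (p : ℝ) ^ 2 * (F n * wt n) ^ 2 := by positivity
    by_cases hF0 : F n = 0
    · have e4 : F n ^ 2 / (n : ℝ) = 0 := by rw [hF0]; simp
      rw [e4]
      exact add_nonneg (add_nonneg e1 e2) e3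
    obtain ⟨k, hk⟩ : ∃ k, n = p ^ k := ⟨_, Nat.eq_prime_pow_of_unique_prime_dvd hn0 fun {q} hq hqn => hs n hF0 q hq hqn⟩
    rcases Nat.lt_or_ge k 2 with h2 | h2
    · rcases Nat.lt_or_ge k 1 with h3 | h3
      · have h4 : n = 1 := by rw [hk, show k = 0 by omega, pow_zero]
        have h5 : F n ^ 2 / (n : ℝ) = (if n = 1 then F 1 ^ 2 else 0) := by rw [if_pos h4, h4]; simp
        rw [h5]
        linarith
      · have h4 : n = p := by rw [hk, show k = 1 by omega, pow_one]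
        have h5 : F n ^ 2 / (n : ℝ) = (if n = p then F p ^ 2 / (p : ℝ) else 0) := by rw [if_pos h4, h4]
        rw [h5]
        linarith
    · have h3 : wt n = (3 / 4 : ℝ) ^ k := by
        unfold wt
        rw [hk, hp.primeFactorsList_pow, List.length_replicate]
      have h4 : F n ^ 2 / (n : ℝ) ≤ 4 / (p : ℝ) ^ 2 * (F n * wt n) ^ 2 := by
        obtain ⟨l, rfl⟩ : ∃ l, k = l + 2 := ⟨k - 2, by omega⟩
        have h5 : (n : ℝ) = (p : ℝ) ^ l * (p : ℝ) ^ 2 := by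
          rw [hk]
          push_cast
          ring
        have h6 : (1 : ℝ) / (p : ℝ) ^ l ≤ 4 * ((3 / 4 : ℝ) ^ (l + 2)) ^ 2 := by
          have h7 : (1 : ℝ) / (p : ℝ) ^ l ≤ (1 / 2) ^ l := by
            rw [← one_div_pow]
            apply pow_le_pow_left₀ (by positivity)
            exact one_div_le_one_div_of_le (by norm_num) hp2
          have h8 : ((3 / 4 : ℝ) ^ (l + 2)) ^ 2 = (81 / 256) * (9 / 16) ^ l := by
            rw [← pow_mul, show (9 / 16 : ℝ) = (3 / 4) ^ 2 by norm_num, ← pow_mul, show (l + 2) * 2 = 4 + 2 * l by ring, pow_add]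
            norm_num
          have h9 : (1 / 2 : ℝ) ^ l ≤ (9 / 16) ^ l := pow_le_pow_left₀ (by norm_num) (by norm_num) l
          rw [h8]
          have h10 : (0 : ℝ) ≤ (9 / 16) ^ l := by positivity
          linarith
        rw [h5, h3]
        calc F n ^ 2 / ((p : ℝ) ^ l * (p : ℝ) ^ 2) = (1 / (p : ℝ) ^ l) * (F n ^ 2 / (p : ℝ) ^ 2) := by
              field_simp
          _ ≤ (4 * ((3 / 4 : ℝ) ^ (l + 2)) ^ 2) * (F n ^ 2 / (p : ℝ) ^ 2) := mul_le_mul_of_nonneg_right h6 (by positivity)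
          _ = _ := by
              rw [mul_pow]
              ring
      linarith
  unfold N2A
  refine (Finset.sum_le_sum h1).trans ?_
  rw [Finset.sum_add_distrib, Finset.sum_add_distrib, ← Finset.mul_sum, Finset.sum_ite_eq', Finset.sum_ite_eq']
  have h2 : ∑ n ∈ Finset.Icc 1 X, (F n * wt n) ^ 2 ≤ Wt X F ^ 2 := by
    have h3 : ∀ n ∈ Finset.Icc 1 X, (F n * wt n) ^ 2 ≤ (F n * wt n) * Wt X F := by
      intro n hn
      rw [sq]
      apply mul_le_mul_of_nonneg_left _ (mul_nonneg (hF n) (wt_pos n).le)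
      exact Finset.single_le_sum (f := fun n => F n * wt n) (fun m _ => mul_nonneg (hF m) (wt_pos m).le) hn
    refine (Finset.sum_le_sum h3).trans ?_
    rw [← Finset.sum_mul, sq]
    exact le_rfl
  have h3 : 4 / (p : ℝ) ^ 2 * ∑ n ∈ Finset.Icc 1 X, (F n * wt n) ^ 2 ≤ 4 / (p : ℝ) ^ 2 * Wt X F ^ 2 :=
    mul_le_mul_of_nonneg_left h2 (by positivity)
  have h4 : 4 / (p : ℝ) ^ 2 * Wt X F ^ 2 = 4 * Wt X F ^ 2 / (p : ℝ) ^ 2 := by ring
  have h5 : (if 1 ∈ Finset.Icc 1 X then F 1 ^ 2 else 0) ≤ F 1 ^ 2 := by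
    split_ifs
    · exact le_rfl
    · positivity
  have h6 : (if p ∈ Finset.Icc 1 X then F p ^ 2 / (p : ℝ) else 0) ≤ F p ^ 2 / p := by
    split_ifs
    · exact le_rfl
    · positivity
  linarith

/-- the bound for the factor at `p` -/
theorem local_bd {A : ℝ} {a a2 : ℕ → ℂ} (ha : ∀ n, ‖a n‖ ≤ A) (ha2 : ∀ n, ‖a2 n‖ ≤ A) {m μ : ℕ} (hμ : m ≤ μ) {p : ℕ} (hp : p.Prime)
    (R X : ℕ) : N2A X (Ee (Fp a a2 p) R * geo p ^ m) ≤
      Real.exp ((‖a p‖ + m) ^ 2 / p + 4 * (Real.exp (2 * A) * 4 ^ μ) ^ 2 * (1 / (p : ℝ) ^ 2)) := by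
  have hp0 : (0 : ℝ) < p := by exact_mod_cast hp.pos
  have hA : 0 ≤ A := (norm_nonneg _).trans (ha 0)
  have hN1 : NN (Ee (Fp a a2 p) R) := NN_Ee (NN_Fp a a2 p) R
  have hN2 : NN (geo p ^ m) := NN_pow (NN_geo p) m
  refine (N2A_Wt (NN_mul hN1 hN2) hp (SPA_mul (SPA_Ee (SPA_Fp a a2 hp) R) (SPA_pow (SPA_geo p) m)) X).trans ?_
  have h1 : (Ee (Fp a a2 p) R * geo p ^ m) 1 = 1 := by
    rw [mul_at_one, Ee_one (Fp_one a a2 hp), geo_pow_one, one_mul]
  have h2 : (Ee (Fp a a2 p) R * geo p ^ m) p ≤ ‖a p‖ + m := by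
    rw [mul_at_prime _ _ hp, Ee_one (Fp_one a a2 hp), geo_pow_one, geo_pow_prime hp, one_mul, mul_one]
    have := Ee_prime (NN_Fp a a2 p) (Fp_one a a2 hp) hp R
    rw [Fp_self a a2 hp] at this
    linarith
  have h2' : 0 ≤ (Ee (Fp a a2 p) R * geo p ^ m) p := NN_mul hN1 hN2 p
  have h3 : Wt X (Ee (Fp a a2 p) R * geo p ^ m) ≤ Real.exp (2 * A) * 4 ^ μ := by
    refine (Wt_mul X hN1 hN2).trans ?_
    apply mul_le_mul _ _ (Wt_nonneg X hN2) (Real.exp_pos _).le
    · refine (Wt_Ee X (NN_Fp a a2 p) R).trans (Real.exp_le_exp.2 ?_)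
      refine (Wt_Fp a a2 p X).trans ?_
      have := ha p
      have := ha2 p
      linarith
    · refine (Wt_pow X (NN_geo p) m).trans ?_
      calc Wt X (geo p) ^ m ≤ 4 ^ m := pow_le_pow_left₀ (Wt_nonneg X (NN_geo p)) (Wt_geo hp X) m
        _ ≤ 4 ^ μ := pow_le_pow_right₀ (by norm_num) hμ
  have h3' : 0 ≤ Wt X (Ee (Fp a a2 p) R * geo p ^ m) := Wt_nonneg X (NN_mul hN1 hN2)
  rw [h1]
  have h4 : (Ee (Fp a a2 p) R * geo p ^ m) p ^ 2 / (p : ℝ) ≤ (‖a p‖ + m) ^ 2 / p :=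
    div_le_div_of_nonneg_right (pow_le_pow_left₀ h2' h2 2) hp0.le
  have h5 : 4 * Wt X (Ee (Fp a a2 p) R * geo p ^ m) ^ 2 / (p : ℝ) ^ 2 ≤ 4 * (Real.exp (2 * A) * 4 ^ μ) ^ 2 * (1 / (p : ℝ) ^ 2) := by
    rw [mul_one_div]
    apply div_le_div_of_nonneg_right _ (by positivity)
    exact mul_le_mul_of_nonneg_left (pow_le_pow_left₀ h3' h3 2) (by norm_num)
  have h6 := Real.add_one_le_exp ((‖a p‖ + m) ^ 2 / (p : ℝ) + 4 * (Real.exp (2 * A) * 4 ^ μ) ^ 2 * (1 / (p : ℝ) ^ 2))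
  linarith

end

end Pool.Agent.H469.F4
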