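import Pool.Agent.H469.F4.NP3

set_option autoImplicit false

/-!
# Upper bound for the mean square of the product with partial sums
-/

namespace Pool.Agent.H469.F4

open Filter Topology MeasureTheory Complex Pool.Agent.Q97.UM Pool.Agent.Q14.UM
open Pool.Agent.Q299.UM (Fp Fp_apply NN_Fp qb_le te_le cvp_le Ee Ee_apply NN NN_mul NN_one NN_pow NN_Ee NN_sum NN_prod Le Le_mul
  Ee_sum Ee_zero SPA SPA_mul SPA_one SPA_pow SPA_Ee SPA_prod SPA_mono N2A N2A_nonneg N2A_mul N2A_prod N2A_local Fp_one Fp_self SPA_Fp Fp_l1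
  sum_ap Le_trans Le_refl ebk_le)

noncomputable section

/-- the convolution product of sequences -/
def bA {m : ℕ} (c : Fin m → ℕ → ℂ) : ArithmeticFunction ℂ := ∏ i, tA (c i)

theorem dp_tA (N : ℕ) (c : ℕ → ℂ) (t : ℝ) : dp N (fun n => tA c n) t = dp N c t := by
  unfold dp
  refine Finset.sum_congr rfl fun n hn => ?_
  show tA c n * _ = c n * _
  rw [tA_apply c (by have := (Finset.mem_Icc.1 hn).1; omega)]

theorem bA_aux {m : ℕ} {N : Fin m → ℕ} {c : Fin m → ℕ → ℂ} (hc : ∀ i n, c i n ≠ 0 → 1 ≤ n ∧ n ≤ N i) (s : Finset (Fin m)) :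
    (∀ n, (∏ i ∈ s, tA (c i)) n ≠ 0 → 1 ≤ n ∧ n ≤ ∏ i ∈ s, N i) ∧
    ∀ t, dp (∏ i ∈ s, N i) (fun n => (∏ i ∈ s, tA (c i)) n) t = ∏ i ∈ s, dp (N i) (c i) t := by
  classical
  induction s using Finset.induction_on with
  | empty =>
    refine ⟨fun n hn => ?_, fun t => ?_⟩
    · rw [Finset.prod_empty] at hn ⊢
      have : n = 1 := by
        by_contra h
        exact hn (ArithmeticFunction.one_apply_ne h)
      omega
    · rw [Finset.prod_empty, Finset.prod_empty, Finset.prod_empty]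
      unfold dp
      rw [Finset.Icc_self, Finset.sum_singleton]
      simp
  | insert i s hi ih =>
    obtain ⟨ih1, ih2⟩ := ih
    have hsupp : ∀ n, tA (c i) n ≠ 0 → 1 ≤ n ∧ n ≤ N i := by
      intro n hn
      by_cases h0 : n = 0
      · subst h0
        simp at hn
      · rw [tA_apply _ h0] at hn
        exact hc i n hn
    refine ⟨fun n hn => ?_, fun t => ?_⟩
    · rw [Finset.prod_insert hi] at hn ⊢
      rw [ArithmeticFunction.mul_apply] at hn
      obtain ⟨x, hx, h⟩ := Finset.exists_ne_zero_of_sum_ne_zero hn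
      rw [Nat.mem_divisorsAntidiagonal] at hx
      have h1 := hsupp _ (left_ne_zero_of_mul h)
      have h2 := ih1 _ (right_ne_zero_of_mul h)
      rw [← hx.1]
      exact ⟨Nat.mul_pos h1.1 h2.1, Nat.mul_le_mul h1.2 h2.2⟩
    · have h1 := Pool.Agent.Q84.UM.t_DPM.1 (N i) (∏ j ∈ s, N j) (fun n => tA (c i) n) (fun n => (∏ j ∈ s, tA (c j)) n) t
        (fun n hn => by
          by_contra h
          have := (hsupp n h).2
          omega)
        (fun n hn => by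
          by_contra h
          have := (ih1 n h).2
          omega)
      rw [Finset.prod_insert hi, Finset.prod_insert hi, Finset.prod_insert hi, ← ih2 t, ← dp_tA (N i), h1]
      rfl

theorem bA_supp {m : ℕ} {N : Fin m → ℕ} {c : Fin m → ℕ → ℂ} (hc : ∀ i n, c i n ≠ 0 → 1 ≤ n ∧ n ≤ N i) :
    ∀ n, bA c n ≠ 0 → 1 ≤ n ∧ n ≤ ∏ i, N i := (bA_aux hc Finset.univ).1

theorem dp_bA {m : ℕ} {N : Fin m → ℕ} {c : Fin m → ℕ → ℂ} (hc : ∀ i n, c i n ≠ 0 → 1 ≤ n ∧ n ≤ N i) (t : ℝ) :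
    dp (∏ i, N i) (fun n => bA c n) t = ∏ i, dp (N i) (c i) t := (bA_aux hc Finset.univ).2 t

theorem Bd_prod {ι : Type*} (s : Finset ι) (F : ι → ArithmeticFunction ℂ) (G : ι → ArithmeticFunction ℝ) (h : ∀ i ∈ s, Bd (F i) (G i)) :
    Bd (∏ i ∈ s, F i) (∏ i ∈ s, G i) := by
  classical
  induction s using Finset.induction_on with
  | empty => rw [Finset.prod_empty, Finset.prod_empty]; exact Bd_one
  | insert i s hi ih =>
    rw [Finset.prod_insert hi, Finset.prod_insert hi]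
    exact Bd_mul (h i (Finset.mem_insert_self i s)) (ih fun j hj => h j (Finset.mem_insert_of_mem hj))

/-- one term of a convolution -/
theorem mul_ge_term {F G : ArithmeticFunction ℝ} (hF : NN F) (hG : NN G) {a b : ℕ} (ha : a ≠ 0) (hb : b ≠ 0) :
    F a * G b ≤ (F * G) (a * b) := by
  rw [ArithmeticFunction.mul_apply]
  exact Finset.single_le_sum (f := fun x : ℕ × ℕ => F x.1 * G x.2) (fun x _ => mul_nonneg (hF _) (hG _))
    (Nat.mem_divisorsAntidiagonal.2 ⟨rfl, mul_ne_zero ha hb⟩ : (a, b) ∈ (a * b).divisorsAntidiagonal)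

theorem geo_prod_ge (s : Finset ℕ) (hs : ∀ p ∈ s, p.Prime) : ∀ n : ℕ, n ≠ 0 → n.primeFactors ⊆ s → 1 ≤ (∏ p ∈ s, geo p) n := by
  classical
  induction s using Finset.induction_on with
  | empty =>
    intro n hn h
    have h1 : n.primeFactors = ∅ := Finset.subset_empty.1 h
    have h2 : n = 1 := by
      rcases Nat.primeFactors_eq_empty.1 h1 with h3 | h3
      · exact absurd h3 hn
      · exact h3
    rw [h2, Finset.prod_empty, ArithmeticFunction.one_one]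
  | insert p s hp ih =>
    intro n hn h
    have hpp := hs p (Finset.mem_insert_self p s)
    rw [Finset.prod_insert hp]
    obtain ⟨k, m, hm, hkm⟩ : ∃ k m : ℕ, ¬ p ∣ m ∧ n = p ^ k * m :=
      Nat.exists_eq_pow_mul_and_not_dvd hn p hpp.ne_one
    have hm0 : m ≠ 0 := by
      rintro rfl
      exact hn (by rw [hkm, mul_zero])
    have h1 : 1 ≤ (∏ p ∈ s, geo p) m := by
      refine ih (fun q hq => hs q (Finset.mem_insert_of_mem hq)) m hm0 fun q hq => ?_
      have h2 := Nat.mem_primeFactors.1 hq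
      have h3 : q ∈ insert p s := h (Nat.mem_primeFactors.2 ⟨h2.1, by rw [hkm]; exact h2.2.1.mul_left _, hn⟩)
      rcases Finset.mem_insert.1 h3 with h4 | h4
      · rw [h4] at h2
        exact absurd h2.2.1 hm
      · exact h4
    have h2 := mul_ge_term (NN_geo p) (NN_prod s (fun p => geo p) fun p _ => NN_geo p) (pow_ne_zero k hpp.ne_zero) hm0
    rw [geo_pow hpp, one_mul, ← hkm] at h2
    exact h1.trans h2

/-- the majorant of the indicator of `[1, N]` -/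
def Gp (N : ℕ) : ArithmeticFunction ℝ := ∏ p ∈ (Finset.Icc 1 N).filter Nat.Prime, geo p

theorem NN_Gp (N : ℕ) : NN (Gp N) := NN_prod _ _ fun p _ => NN_geo p

theorem Gp_ge {N n : ℕ} (h1 : 1 ≤ n) (h2 : n ≤ N) : 1 ≤ Gp N n := by
  refine geo_prod_ge _ (fun p hp => (Finset.mem_filter.1 hp).2) n (by omega) fun q hq => ?_
  have h3 := Nat.mem_primeFactors.1 hq
  exact Finset.mem_filter.2 ⟨Finset.mem_Icc.2 ⟨h3.1.one_lt.le, (Nat.le_of_dvd (by omega) h3.2.1).trans h2⟩, h3.1⟩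

/-- the number of the lengths `≥ p` -/
def mc {m : ℕ} (N : Fin m → ℕ) (p : ℕ) : ℕ := (Finset.univ.filter fun i => p ≤ N i).card

theorem mc_le {m : ℕ} (N : Fin m → ℕ) (p : ℕ) : mc N p ≤ m := by
  unfold mc
  refine (Finset.card_filter_le _ _).trans ?_
  rw [Finset.card_univ, Fintype.card_fin]

theorem prod_Gp {m : ℕ} {N : Fin m → ℕ} {Y : ℕ} (hN : ∀ i, N i ≤ Y) :
    ∏ i, Gp (N i) = ∏ p ∈ (Finset.Icc 1 Y).filter Nat.Prime, geo p ^ mc N p := by
  classical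
  have h1 : ∀ i, Gp (N i) = ∏ p ∈ (Finset.Icc 1 Y).filter Nat.Prime, (if p ≤ N i then geo p else 1) := by
    intro i
    unfold Gp
    rw [← Finset.prod_filter]
    refine Finset.prod_congr ?_ fun _ _ => rfl
    ext p
    simp only [Finset.mem_filter, Finset.mem_Icc]
    constructor
    · rintro ⟨⟨h1, h2⟩, h3⟩
      exact ⟨⟨⟨h1, h2.trans (hN i)⟩, h3⟩, h2⟩
    · rintro ⟨⟨⟨h1, _⟩, h3⟩, h2⟩
      exact ⟨⟨h1, h2⟩, h3⟩
  rw [Finset.prod_congr rfl fun i _ => h1 i, Finset.prod_comm]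
  refine Finset.prod_congr rfl fun p _ => ?_
  rw [← Finset.prod_filter, Finset.prod_const]
  rfl

theorem prod_smulA {ι : Type*} (s : Finset ι) (B : ℝ) (G : ι → ArithmeticFunction ℝ) :
    ∏ i ∈ s, (B • G i) = B ^ s.card • ∏ i ∈ s, G i := by
  classical
  induction s using Finset.induction_on with
  | empty => simp
  | insert i s hi ih =>
    rw [Finset.prod_insert hi, Finset.prod_insert hi, ih, smul_mul_smul_comm, Finset.card_insert_of_notMem hi, pow_succ']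

theorem N2A_smul (X : ℕ) (B : ℝ) (F : ArithmeticFunction ℝ) : N2A X (B • F) = B ^ 2 * N2A X F := by
  unfold N2A
  rw [Finset.mul_sum]
  refine Finset.sum_congr rfl fun n _ => ?_
  rw [ArithmeticFunction.smul_map, smul_eq_mul]
  ring

/-- **upper bound** -/
theorem upper_N2 {A B : ℝ} (hB : 0 ≤ B) {m : ℕ} {D κ : ℝ} (hD : 1 ≤ D) {a a2 : ℕ → ℂ} (ha : ∀ n, ‖a n‖ ≤ A) (ha2 : ∀ n, ‖a2 n‖ ≤ A)
    {N : Fin m → ℕ} (hN : ∀ i, N i ≤ ⌊Real.exp D⌋₊) {c : Fin m → ℕ → ℂ} (hc : ∀ i n, c i n ≠ 0 → 1 ≤ n ∧ n ≤ N i)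
    (hcB : ∀ i n, ‖c i n‖ ≤ B) (Y : ℕ) :
    N2 Y (cv (ebk D κ a a2 0 (JB D)) (fun n => bA c n)) ≤ (B ^ m) ^ 2 * Real.exp (8 * (Real.exp (2 * A) * 4 ^ m) ^ 2) *
      Real.exp (∑ p ∈ (Finset.Icc 1 ⌊Real.exp D⌋₊).filter Nat.Prime, (‖a p‖ + mc N p) ^ 2 / p) := by
  classical
  obtain ⟨E, hE⟩ : ∃ E : ArithmeticFunction ℝ, E = ∏ j ∈ Finset.range (JB D), ∏ p ∈ PB D j, Ee (Fp a a2 p) (R9 κ j) := ⟨_, rfl⟩
  obtain ⟨P, hP⟩ : ∃ P : ArithmeticFunction ℝ, P = ∏ p ∈ (Finset.Icc 1 ⌊Real.exp D⌋₊).filter Nat.Prime, geo p ^ mc N p := ⟨_, rfl⟩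
  have hNE : NN E := by
    rw [hE]
    exact NN_prod _ _ fun j _ => NN_prod _ _ fun p _ => NN_Ee (NN_Fp a a2 p) _
  have hNP : NN P := by
    rw [hP]
    exact NN_prod _ _ fun p _ => NN_pow (NN_geo p) _
  have hb : Bd (bA c) (B ^ m • P) := by
    have h1 : B ^ m • P = ∏ i, (B • Gp (N i)) := by
      rw [prod_smulA, prod_Gp hN, Finset.card_univ, Fintype.card_fin, hP]
    rw [h1]
    refine Bd_prod _ _ _ fun i _ n => ?_
    rw [ArithmeticFunction.smul_map, smul_eq_mul]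
    by_cases h0 : n = 0
    · subst h0
      simp
    rw [tA_apply _ h0]
    by_cases h2 : c i n = 0
    · rw [h2, norm_zero]
      exact mul_nonneg hB (NN_Gp _ n)
    · obtain ⟨h3, h4⟩ := hc i n h2
      have h5 := Gp_ge h3 h4
      calc ‖c i n‖ ≤ B * 1 := by rw [mul_one]; exact hcB i n
        _ ≤ B * Gp (N i) n := mul_le_mul_of_nonneg_left h5 hB
  have hcv : ∀ n, ‖cv (ebk D κ a a2 0 (JB D)) (fun n => bA c n) n‖ ≤ (B ^ m • (E * P)) n := by
    intro n
    have h1 : B ^ m • (E * P) = E * (B ^ m • P) := by rw [mul_smul_comm]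
    rw [h1, ArithmeticFunction.mul_apply]
    unfold cv
    refine (norm_sum_le _ _).trans (Finset.sum_le_sum fun x _ => ?_)
    rw [norm_mul]
    refine mul_le_mul ?_ (hb _) (norm_nonneg _) (hNE _)
    rw [hE]
    exact ebk_le D κ a a2 (JB D) x.1
  have h1 : N2 Y (cv (ebk D κ a a2 0 (JB D)) (fun n => bA c n)) ≤ N2A Y (B ^ m • (E * P)) := by
    unfold N2 N2A
    refine Finset.sum_le_sum fun n _ => ?_
    have := hcv n
    gcongr
  refine h1.trans ?_
  rw [N2A_smul, mul_assoc]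
  apply mul_le_mul_of_nonneg_left _ (by positivity)
  have h2 : E * P = ∏ x ∈ (Finset.range (JB D)).sigma (fun j => PB D j), (Ee (Fp a a2 x.2) (R9 κ x.1) * geo x.2 ^ mc N x.2) := by
    have h3 : P = ∏ x ∈ (Finset.range (JB D)).sigma (fun j => PB D j), geo x.2 ^ mc N x.2 := by
      rw [hP, PB_union D hD, Finset.prod_biUnion, Finset.prod_sigma]
      intro i _ j _ hij
      rw [Function.onFun, Finset.disjoint_left]
      intro p hp hp'
      exact hij (PB_disj D (by linarith) hp hp')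
    rw [Finset.prod_mul_distrib, ← h3, hE, Finset.prod_sigma']
  rw [h2]
  refine (N2A_prod Y _ _ (fun x : (_ : ℕ) × ℕ => x.2) ?_ ?_).trans ?_
  · rintro ⟨i, p⟩ hx ⟨j, q⟩ hy h
    rw [Finset.mem_sigma] at hx hy
    simp only at h hx hy
    subst h
    have := PB_disj D (by linarith) hx.2 hy.2
    subst this
    rfl
  · rintro ⟨i, p⟩ hx
    rw [Finset.mem_sigma] at hx
    exact SPA_mul (SPA_Ee (SPA_Fp a a2 (mem_PB hx.2).1) _) (SPA_pow (SPA_geo p) _)
  · obtain ⟨K, hK⟩ : ∃ K : ℝ, K = 4 * (Real.exp (2 * A) * 4 ^ m) ^ 2 := ⟨_, rfl⟩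
    have hK0 : 0 ≤ K := by rw [hK]; positivity
    have h3 : ∀ x ∈ (Finset.range (JB D)).sigma (fun j => PB D j), N2A Y (Ee (Fp a a2 x.2) (R9 κ x.1) * geo x.2 ^ mc N x.2) ≤
        Real.exp ((‖a x.2‖ + mc N x.2) ^ 2 / x.2 + K * (1 / (x.2 : ℝ) ^ 2)) := by
      rintro ⟨j, p⟩ hx
      rw [Finset.mem_sigma] at hx
      rw [hK]
      exact local_bd ha ha2 (mc_le N p) (mem_PB hx.2).1 (R9 κ j) Y
    refine (Finset.prod_le_prod (fun x _ => N2A_nonneg _ _) h3).trans ?_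
    rw [← Real.exp_sum, ← Real.exp_add, Real.exp_le_exp,
      Finset.sum_sigma' (Finset.range (JB D)) (fun j => PB D j)
        (fun _ p => (‖a p‖ + mc N p) ^ 2 / (p : ℝ) + K * (1 / (p : ℝ) ^ 2)) |>.symm]
    have h5 : ∑ j ∈ Finset.range (JB D), ∑ p ∈ PB D j, ((‖a p‖ + mc N p) ^ 2 / (p : ℝ) + K * (1 / (p : ℝ) ^ 2)) =
        ∑ p ∈ (Finset.Icc 1 ⌊Real.exp D⌋₊).filter Nat.Prime, ((‖a p‖ + mc N p) ^ 2 / (p : ℝ) + K * (1 / (p : ℝ) ^ 2)) := by
      rw [PB_union D hD, Finset.sum_biUnion]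
      intro i _ j _ hij
      rw [Function.onFun, Finset.disjoint_left]
      intro p hp hp'
      exact hij (PB_disj D (by linarith) hp hp')
    rw [h5, Finset.sum_add_distrib, ← Finset.mul_sum]
    have h6 : ∑ p ∈ (Finset.Icc 1 ⌊Real.exp D⌋₊).filter Nat.Prime, (1 / (p : ℝ) ^ 2) ≤ 2 :=
      (Finset.sum_le_sum_of_subset_of_nonneg (Finset.filter_subset _ _) (fun p _ _ => by positivity)).trans (sum_inv_sq _)
    have h7 : K * ∑ p ∈ (Finset.Icc 1 ⌊Real.exp D⌋₊).filter Nat.Prime, (1 / (p : ℝ) ^ 2) ≤ K * 2 :=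
      mul_le_mul_of_nonneg_left h6 hK0
    rw [hK] at h7 ⊢
    linarith

end

end Pool.Agent.H469.F4
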