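import Pool.Agent.H469.F4.NP4
import Pool.Graph.R_pool_sql_team_seeded_3997aac3.Q198.UM.BM

set_option autoImplicit false

/-!
# Multiplicative weights
-/

namespace Pool.Agent.H469.F4

open Filter Topology MeasureTheory Complex Pool.Agent.Q97.UM Pool.Agent.Q14.UM

noncomputable section

/-- a multiplicative weight -/
structure Mw (w : ℕ → ℂ) : Prop where
  one : w 1 = 1
  mul : ∀ m n, m ≠ 0 → n ≠ 0 → w (m * n) = w m * w n

variable {w : ℕ → ℂ}

theorem cv_w (hw : Mw w) (a b : ℕ → ℂ) (n : ℕ) : cv (fun k => w k * a k) (fun k => w k * b k) n = w n * cv a b n := by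
  unfold cv
  rw [Finset.mul_sum]
  refine Finset.sum_congr rfl fun x hx => ?_
  obtain ⟨h1, h2⟩ := Nat.mem_divisorsAntidiagonal.1 hx
  have h3 : x.1 ≠ 0 := fun h => h2 (by rw [← h1, h, zero_mul])
  have h4 : x.2 ≠ 0 := fun h => h2 (by rw [← h1, h, mul_zero])
  rw [← h1, hw.mul _ _ h3 h4]
  ring

theorem cvp_w (hw : Mw w) (q : ℕ → ℂ) (r : ℕ) : cvp (fun k => w k * q k) r = fun n => w n * cvp q r n := by
  induction r with
  | zero =>
    funext n
    show (if n = 1 then (1 : ℂ) else 0) = w n * (if n = 1 then (1 : ℂ) else 0)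
    split_ifs with h
    · rw [h, hw.one, mul_one]
    · rw [mul_zero]
  | succ r ih =>
    funext n
    show cv (fun k => w k * q k) (cvp (fun k => w k * q k) r) n = w n * cv q (cvp q r) n
    rw [ih, cv_w hw]

theorem te_w (hw : Mw w) (q : ℕ → ℂ) (R : ℕ) : te (fun k => w k * q k) R = fun n => w n * te q R n := by
  funext n
  unfold te
  rw [Finset.mul_sum, cvp_wsum hw q R n]
where
  cvp_wsum (hw : Mw w) (q : ℕ → ℂ) (R n : ℕ) : ∑ r ∈ Finset.range (R + 1), cvp (fun k => w k * q k) r n / (r.factorial : ℂ) =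
      ∑ r ∈ Finset.range (R + 1), w n * (cvp q r n / (r.factorial : ℂ)) := by
    refine Finset.sum_congr rfl fun r _ => ?_
    rw [cvp_w hw]
    ring

theorem qb_w (hw : Mw w) (D : ℝ) (a a2 : ℕ → ℂ) (j : ℕ) :
    qb D (fun k => w k * a k) (fun k => w k ^ 2 * a2 k) j = fun n => w n * qb D a a2 j n := by
  classical
  funext n
  unfold qb
  rw [mul_add]
  congr 1
  · split_ifs
    · rfl
    · rw [mul_zero]
  · split_ifs with h
    · have h1 := (mem_PB h.1).1.ne_zero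
      have h2 : w n = w (Nat.sqrt n) ^ 2 := by
        conv_lhs => rw [h.2]
        rw [sq, hw.mul _ _ h1 h1, sq]
      rw [h2]
      ring
    · rw [mul_zero]

theorem ebk_w (hw : Mw w) (D κ : ℝ) (a a2 : ℕ → ℂ) (J : ℕ) :
    ebk D κ (fun k => w k * a k) (fun k => w k ^ 2 * a2 k) 0 J = fun n => w n * ebk D κ a a2 0 J n := by
  induction J with
  | zero =>
    funext n
    show (if n = 1 then (1 : ℂ) else 0) = w n * (if n = 1 then (1 : ℂ) else 0)
    split_ifs with h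
    · rw [h, hw.one, mul_one]
    · rw [mul_zero]
  | succ J ih =>
    funext n
    show cv (te (qb D (fun k => w k * a k) (fun k => w k ^ 2 * a2 k) (0 + J)) (R9 κ (0 + J)))
      (ebk D κ (fun k => w k * a k) (fun k => w k ^ 2 * a2 k) 0 J) n = w n * cv (te (qb D a a2 (0 + J)) (R9 κ (0 + J))) (ebk D κ a a2 0 J) n
    rw [ih, qb_w hw, te_w hw, cv_w hw]

/-- the weight of a completely multiplicative function -/
def wG (g : ℕ → ℝ) (n : ℕ) : ℂ := ((cm g n * (n : ℝ) ^ (-(1 / 2) : ℝ) : ℝ) : ℂ)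

theorem wG_Mw (g : ℕ → ℝ) : Mw (wG g) := by
  constructor
  · unfold wG
    rw [cm_one]
    simp
  · intro m n _ _
    unfold wG
    rw [cm_mul, ← Complex.ofReal_mul]
    congr 1
    push_cast
    rw [Real.mul_rpow (Nat.cast_nonneg _) (Nat.cast_nonneg _)]
    ring

theorem cpow_half (n : ℕ) : (n : ℂ) ^ (-(1 / 2 + ((0 : ℝ) : ℂ) * I)) = (((n : ℝ) ^ (-(1 / 2) : ℝ) : ℝ) : ℂ) := by
  rw [Complex.ofReal_cpow (Nat.cast_nonneg n)]
  push_cast
  congr 1
  simp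

theorem rpow_half_sq {n : ℕ} (hn : n ≠ 0) : (n : ℝ) ^ (-(1 / 2) : ℝ) * (n : ℝ) ^ (-(1 / 2) : ℝ) = 1 / n := by
  rw [← Real.rpow_add (by exact_mod_cast Nat.pos_of_ne_zero hn)]
  norm_num
  rw [Real.rpow_neg_one]

theorem dp_wG (g : ℕ → ℝ) (N : ℕ) (c : ℕ → ℂ) : dp N (fun n => wG g n * c n) 0 = ∑ n ∈ Finset.Icc 1 N, ((cm g n / n : ℝ) : ℂ) * c n := by
  unfold dp
  refine Finset.sum_congr rfl fun n hn => ?_
  have hn0 : n ≠ 0 := by have := (Finset.mem_Icc.1 hn).1; omega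
  rw [cpow_half]
  unfold wG
  have h1 := rpow_half_sq hn0
  have h2 : (cm g n / n : ℝ) = cm g n * (n : ℝ) ^ (-(1 / 2) : ℝ) * (n : ℝ) ^ (-(1 / 2) : ℝ) := by
    rw [mul_assoc, h1]
    ring
  rw [h2]
  push_cast
  ring

theorem cm_congr {g h : ℕ → ℝ} (hgh : ∀ p, p.Prime → g p = h p) (n : ℕ) : cm g n = cm h n := by
  unfold cm
  split_ifs
  · rfl
  · congr 1
    apply List.map_congr_left
    intro p hp
    exact hgh p (Nat.prime_of_mem_primeFactorsList hp)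

theorem cm_sq_div (g : ℕ → ℝ) {n : ℕ} (hn : n ≠ 0) : cm g n ^ 2 / n = cm (fun p => g p ^ 2 / p) n := by
  have h1 := cm_twist g (fun n => cm g n * (n : ℝ)⁻¹) (by simp [cm_one]) (fun m n _ _ => by
    show cm g (m * n) * ((m * n : ℕ) : ℝ)⁻¹ = _
    rw [cm_mul]
    push_cast
    rw [mul_inv]
    ring) n hn
  have h2 : cm (fun p => g p ^ 2 / (p : ℝ)) n = cm (fun p => g p * (cm g p * (p : ℝ)⁻¹)) n := by
    refine cm_congr (fun p hp => ?_) n
    rw [cm_prime g hp]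
    ring
  rw [h2, h1]
  ring

/-- Cauchy's inequality -/
theorem cs_wG {g : ℕ → ℝ} (hg : ∀ p, 0 ≤ g p) (Y : ℕ) (f : ℕ → ℂ) :
    ‖dp Y (fun n => wG g n * f n) 0‖ ^ 2 ≤ N2 Y f * ∑ n ∈ Finset.Icc 1 Y, cm g n ^ 2 / n := by
  rw [dp_wG]
  have h1 : ‖∑ n ∈ Finset.Icc 1 Y, ((cm g n / n : ℝ) : ℂ) * f n‖ ≤
      ∑ n ∈ Finset.Icc 1 Y, (‖f n‖ / Real.sqrt n) * (cm g n / Real.sqrt n) := by
    refine (norm_sum_le _ _).trans (Finset.sum_le_sum fun n hn => le_of_eq ?_)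
    rw [norm_mul, Complex.norm_real, Real.norm_eq_abs, abs_of_nonneg (div_nonneg (cm_nonneg hg n) (Nat.cast_nonneg n))]
    have h2 : Real.sqrt n * Real.sqrt n = n := Real.mul_self_sqrt (Nat.cast_nonneg n)
    rw [div_mul_div_comm, h2]
    ring
  have h2 := Finset.sum_mul_sq_le_sq_mul_sq (Finset.Icc 1 Y) (fun n : ℕ => ‖f n‖ / Real.sqrt n) (fun n : ℕ => cm g n / Real.sqrt n)
  have h3 : ∑ n ∈ Finset.Icc 1 Y, (‖f n‖ / Real.sqrt n) ^ 2 = N2 Y f := by
    unfold N2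
    refine Finset.sum_congr rfl fun n _ => ?_
    rw [div_pow, Real.sq_sqrt (Nat.cast_nonneg n)]
  have h4 : ∑ n ∈ Finset.Icc 1 Y, (cm g n / Real.sqrt n) ^ 2 = ∑ n ∈ Finset.Icc 1 Y, cm g n ^ 2 / (n : ℝ) := by
    refine Finset.sum_congr rfl fun n _ => ?_
    rw [div_pow, Real.sq_sqrt (Nat.cast_nonneg n)]
  rw [h3, h4] at h2
  exact (pow_le_pow_left₀ (norm_nonneg _) h1 2).trans h2

theorem TEx_low {R : ℕ} {x : ℝ} (hR : 1 ≤ R) (hx0 : 0 ≤ x) (hx : x ≤ R / 10) :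
    (1 - Real.exp (-(R : ℝ) / 2)) * Real.exp x ≤ ‖TEx R (x : ℂ)‖ := by
  have h1 := (b_TEX R (x : ℂ) hR).2 (by rw [Complex.norm_real, Real.norm_eq_abs, abs_of_nonneg hx0]; exact hx)
  have h2 : ‖cexp (x : ℂ)‖ = Real.exp x := by
    rw [Complex.norm_exp, Complex.ofReal_re]
  rw [h2] at h1
  have h3 := norm_sub_norm_le (cexp (x : ℂ)) (cexp (x : ℂ) - TEx R (x : ℂ))
  rw [sub_sub_cancel, norm_sub_rev (cexp (x : ℂ)), h2] at h3
  linarith

theorem prod_R9 {κ : ℝ} (hκ : 4 ≤ κ) (J : ℕ) : 1 / 2 ≤ ∏ j ∈ Finset.range J, (1 - Real.exp (-(R9 κ j : ℝ) / 2)) := by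
  have h0 : ∀ j : ℕ, 2 + 9 / 5 * (j : ℝ) ≤ (R9 κ j : ℝ) / 2 := by
    intro j
    have h1 : κ * Real.exp (9 / 10 * (j : ℝ)) ≤ R9 κ j := Nat.le_ceil _
    have h2 : 1 + 9 / 10 * (j : ℝ) ≤ Real.exp (9 / 10 * (j : ℝ)) := by
      have := Real.add_one_le_exp (9 / 10 * (j : ℝ))
      linarith
    have hj : (0 : ℝ) ≤ j := Nat.cast_nonneg j
    have h3 : 4 * (1 + 9 / 10 * (j : ℝ)) ≤ κ * Real.exp (9 / 10 * (j : ℝ)) :=
      mul_le_mul hκ h2 (by positivity) (by linarith)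
    linarith
  have h1 : ∀ j : ℕ, Real.exp (-(R9 κ j : ℝ) / 2) ≤ 1 / 4 * (1 / 2) ^ j := by
    intro j
    have h5 : Real.exp (-(R9 κ j : ℝ) / 2) ≤ Real.exp (-2 - (9 / 5) * (j : ℝ)) := by
      apply Real.exp_le_exp.2
      have := h0 j
      linarith
    have h6 : Real.exp (-2 - (9 / 5) * (j : ℝ)) = Real.exp (-2) * (Real.exp (-(9 / 5))) ^ j := by
      rw [← Real.exp_nat_mul, ← Real.exp_add]; congr 1; ring
    have h7 : Real.exp (-2) ≤ 1 / 4 := by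
      have e1 : Real.exp (-2) * Real.exp 2 = 1 := by rw [← Real.exp_add]; simp
      have e2 : (4 : ℝ) ≤ Real.exp 2 := by
        have e3 : Real.exp 2 = Real.exp 1 * Real.exp 1 := by rw [← Real.exp_add]; norm_num
        have e4 := Real.add_one_le_exp (1 : ℝ)
        nlinarith
      have e5 := Real.exp_pos (-2 : ℝ)
      nlinarith
    have h8 : Real.exp (-(9 / 5)) ≤ 1 / 2 := by
      have e1 : Real.exp (-(9 / 5)) * Real.exp (9 / 5) = 1 := by rw [← Real.exp_add]; simp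
      have e2 : (2 : ℝ) ≤ Real.exp (9 / 5) := by
        have e4 := Real.add_one_le_exp (9 / 5 : ℝ)
        linarith
      have e5 := Real.exp_pos (-(9 / 5) : ℝ)
      nlinarith
    rw [h6] at h5
    refine h5.trans ?_
    apply mul_le_mul h7
    · exact pow_le_pow_left₀ (Real.exp_pos _).le h8 j
    · positivity
    · norm_num
  have h2 : ∀ j : ℕ, Real.exp (-(R9 κ j : ℝ) / 2) ≤ 1 := by
    intro j
    refine (h1 j).trans ?_
    have : ((1 : ℝ) / 2) ^ j ≤ 1 := pow_le_one₀ (by norm_num) (by norm_num)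
    linarith
  have h3 := Pool.Agent.Q14.UM.prod_one_sub_ge J (fun j => Real.exp (-(R9 κ j : ℝ) / 2)) (fun j => (Real.exp_pos _).le) h2
  have h4 : ∑ j ∈ Finset.range J, Real.exp (-(R9 κ j : ℝ) / 2) ≤ 1 / 2 := by
    calc ∑ j ∈ Finset.range J, Real.exp (-(R9 κ j : ℝ) / 2) ≤ ∑ j ∈ Finset.range J, 1 / 4 * ((1 : ℝ) / 2) ^ j :=
          Finset.sum_le_sum (fun j _ => h1 j)
      _ = 1 / 4 * ∑ j ∈ Finset.range J, ((1 : ℝ) / 2) ^ j := by rw [Finset.mul_sum]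
      _ ≤ 1 / 4 * 2 := by
          apply mul_le_mul_of_nonneg_left _ (by norm_num)
          have := sum_geometric_two_le J
          simpa using this
      _ = 1 / 2 := by norm_num
  linarith

end

end Pool.Agent.H469.F4
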