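import Pool.Agent.H469.F4.NP5

set_option autoImplicit false

/-!
# Lower bound for the mean square of the product with partial sums
-/

namespace Pool.Agent.H469.F4

open Filter Topology MeasureTheory Complex Pool.Agent.Q97.UM Pool.Agent.Q14.UM

noncomputable section

/-- twisting as a map of arithmetic functions -/
def twA (w : ℕ → ℂ) (F : ArithmeticFunction ℂ) : ArithmeticFunction ℂ := ⟨fun n => w n * F n, by simp⟩

theorem twA_apply (w : ℕ → ℂ) (F : ArithmeticFunction ℂ) (n : ℕ) : twA w F n = w n * F n := rfl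

theorem twA_mul {w : ℕ → ℂ} (hw : Mw w) (F G : ArithmeticFunction ℂ) : twA w (F * G) = twA w F * twA w G := by
  ext n
  rw [twA_apply, ArithmeticFunction.mul_apply, ArithmeticFunction.mul_apply]
  exact (cv_w hw (fun n => F n) (fun n => G n) n).symm

theorem twA_one {w : ℕ → ℂ} (hw : Mw w) : twA w 1 = 1 := by
  ext n
  rw [twA_apply, ArithmeticFunction.one_apply]
  split_ifs with h
  · rw [h, hw.one, mul_one]
  · rw [mul_zero]

theorem twA_prod {w : ℕ → ℂ} (hw : Mw w) {ι : Type*} (s : Finset ι) (F : ι → ArithmeticFunction ℂ) :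
    twA w (∏ i ∈ s, F i) = ∏ i ∈ s, twA w (F i) := by
  classical
  induction s using Finset.induction_on with
  | empty => rw [Finset.prod_empty, Finset.prod_empty]; exact twA_one hw
  | insert i s hi ih => rw [Finset.prod_insert hi, Finset.prod_insert hi, twA_mul hw, ih]

theorem twA_tA (w c : ℕ → ℂ) : twA w (tA c) = tA (fun n => w n * c n) := by
  ext n
  rw [twA_apply]
  by_cases h : n = 0
  · subst h; simp
  · rw [tA_apply _ h, tA_apply _ h]

theorem bA_w {w : ℕ → ℂ} (hw : Mw w) {m : ℕ} (c : Fin m → ℕ → ℂ) (n : ℕ) : w n * bA c n = bA (fun i n => w n * c i n) n := by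
  rw [← twA_apply]
  unfold bA
  rw [twA_prod hw]
  congr 2
  funext i
  exact twA_tA w (c i)

theorem sum_mc {m : ℕ} {N : Fin m → ℕ} {Y : ℕ} (hN : ∀ i, N i ≤ Y) (f : ℕ → ℝ) :
    ∑ p ∈ (Finset.Icc 1 Y).filter Nat.Prime, (mc N p : ℝ) * f p = ∑ i, ∑ p ∈ (Finset.Icc 1 (N i)).filter Nat.Prime, f p := by
  classical
  have h1 : ∀ i, ∑ p ∈ (Finset.Icc 1 (N i)).filter Nat.Prime, f p =
      ∑ p ∈ (Finset.Icc 1 Y).filter Nat.Prime, (if p ≤ N i then f p else 0) := by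
    intro i
    rw [← Finset.sum_filter]
    refine Finset.sum_congr ?_ fun _ _ => rfl
    ext p
    simp only [Finset.mem_filter, Finset.mem_Icc]
    constructor
    · rintro ⟨⟨h1, h2⟩, h3⟩
      exact ⟨⟨⟨h1, h2.trans (hN i)⟩, h3⟩, h2⟩
    · rintro ⟨⟨⟨h1, _⟩, h3⟩, h2⟩
      exact ⟨⟨h1, h2⟩, h3⟩
  rw [Finset.sum_congr rfl fun i _ => h1 i, Finset.sum_comm]
  refine Finset.sum_congr rfl fun p _ => ?_
  rw [← Finset.sum_filter, Finset.sum_const, nsmul_eq_mul]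
  rfl

/-- the values of the blocks -/
theorem zf_w {g : ℕ → ℝ} {D : ℝ} (hD : 0 ≤ D) (s : ℝ) (j : ℕ) :
    zf D (fun k => wG g k * aS s k) (fun k => wG g k ^ 2 * aS s k) j 0 =
      ((∑ p ∈ PB D j, (s * (g p / p) + s * (g p ^ 2 / (2 * p ^ 2))) : ℝ) : ℂ) := by
  have h0 := dp_qb D (fun k => wG g k * aS s k) (fun k => wG g k ^ 2 * aS s k) hD j 0
  have h1 : zf D (fun k => wG g k * aS s k) (fun k => wG g k ^ 2 * aS s k) j 0 =
      ∑ p ∈ PB D j, ((wG g p * aS s p) * (p : ℂ) ^ (-(1 / 2 + ((0 : ℝ) : ℂ) * I)) +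
        (wG g p ^ 2 * aS s p) / 2 * (p : ℂ) ^ (-(1 + 2 * ((0 : ℝ) : ℂ) * I))) := h0
  rw [h1, Complex.ofReal_sum]
  refine Finset.sum_congr rfl fun p hp => ?_
  have hpp := (mem_PB hp).1
  have hp0 : p ≠ 0 := hpp.ne_zero
  have hpc : (p : ℂ) ≠ 0 := by exact_mod_cast hp0
  rw [cpow_half]
  have h2 : (p : ℂ) ^ (-(1 + 2 * ((0 : ℝ) : ℂ) * I)) = ((1 / (p : ℝ) : ℝ) : ℂ) := by
    have e1 : -(1 + 2 * ((0 : ℝ) : ℂ) * I) = -1 := by push_cast; ring
    rw [e1, Complex.cpow_neg_one]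
    push_cast
    rw [one_div]
  rw [h2]
  unfold wG aS
  rw [cm_prime g hpp]
  have h3 := rpow_half_sq hp0
  obtain ⟨q, hq⟩ : ∃ q : ℝ, q = (p : ℝ) ^ (-(1 / 2) : ℝ) := ⟨_, rfl⟩
  rw [← hq] at h3 ⊢
  rw [← Complex.ofReal_mul, ← Complex.ofReal_mul, ← Complex.ofReal_pow, ← Complex.ofReal_mul]
  have h4 : ((((g p * q) ^ 2 * s : ℝ) : ℂ) / 2) * ((1 / (p : ℝ) : ℝ) : ℂ) = ((((g p * q) ^ 2 * s) / 2 * (1 / (p : ℝ)) : ℝ) : ℂ) := by
    push_cast
    ring
  rw [h4, ← Complex.ofReal_add]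
  congr 1
  have h5 : g p * q * s * q = s * (g p / p) := by
    calc g p * q * s * q = s * (g p * (q * q)) := by ring
      _ = _ := by rw [h3]; ring
  have h6 : (g p * q) ^ 2 * s / 2 * (1 / (p : ℝ)) = s * (g p ^ 2 / (2 * p ^ 2)) := by
    calc (g p * q) ^ 2 * s / 2 * (1 / (p : ℝ)) = s * (g p ^ 2 * (q * q)) / 2 * (1 / (p : ℝ)) := by ring
      _ = _ := by rw [h3]; field_simp
  rw [h5, h6]

/-- the value at the weight -/
theorem dp_e_w {g : ℕ → ℝ} {D κ s : ℝ} (hD : 1 ≤ D) (hκ : 4 ≤ κ) (hs0 : 0 ≤ s) (hg0 : ∀ p, 0 ≤ g p)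
    (hx : ∀ j, ∑ p ∈ PB D j, (s * (g p / p) + s * (g p ^ 2 / (2 * p ^ 2))) ≤ (R9 κ j : ℝ) / 10) :
    1 / 2 * Real.exp (s * ∑ p ∈ (Finset.Icc 1 ⌊Real.exp D⌋₊).filter Nat.Prime, g p / p) ≤
      ‖dp (M9 D κ) (fun n => wG g n * ebk D κ (aS s) (aS s) 0 (JB D) n) 0‖ := by
  rw [← ebk_w (wG_Mw g) D κ (aS s) (aS s) (JB D), dp_ebk hD (by linarith), norm_prod]
  have h1 : ∀ j ∈ Finset.range (JB D), (1 - Real.exp (-(R9 κ j : ℝ) / 2)) *
      Real.exp (∑ p ∈ PB D j, (s * (g p / p) + s * (g p ^ 2 / (2 * p ^ 2)))) ≤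
        ‖TEx (R9 κ j) (zf D (fun k => wG g k * aS s k) (fun k => wG g k ^ 2 * aS s k) j 0)‖ := by
    intro j _
    rw [zf_w (by linarith)]
    apply TEx_low _ _ (hx j)
    · have h2 : (4 : ℝ) ≤ R9 κ j := hκ.trans (R9_ge (by linarith) j)
      have h3 : (4 : ℕ) ≤ R9 κ j := by exact_mod_cast h2
      omega
    · refine Finset.sum_nonneg fun p _ => ?_
      have := hg0 p
      positivity
  have h2 : ∀ j ∈ Finset.range (JB D), 0 ≤ (1 - Real.exp (-(R9 κ j : ℝ) / 2)) *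
      Real.exp (∑ p ∈ PB D j, (s * (g p / p) + s * (g p ^ 2 / (2 * p ^ 2)))) := by
    intro j _
    apply mul_nonneg _ (Real.exp_pos _).le
    have : Real.exp (-(R9 κ j : ℝ) / 2) ≤ 1 := Real.exp_le_one_iff.2 (by
      have : (0 : ℝ) ≤ R9 κ j := Nat.cast_nonneg _
      linarith)
    linarith
  refine le_trans ?_ (Finset.prod_le_prod h2 h1)
  rw [Finset.prod_mul_distrib, ← Real.exp_sum]
  apply mul_le_mul (prod_R9 hκ _) _ (Real.exp_pos _).le
  · exact (by norm_num : (0 : ℝ) ≤ 1 / 2).trans (prod_R9 hκ _)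
  · apply Real.exp_le_exp.2
    rw [PB_union D hD, Finset.sum_biUnion, Finset.mul_sum]
    · refine Finset.sum_le_sum fun j _ => ?_
      rw [Finset.mul_sum]
      refine Finset.sum_le_sum fun p _ => ?_
      have : 0 ≤ s * (g p ^ 2 / (2 * (p : ℝ) ^ 2)) := by positivity
      linarith
    · intro i _ j _ hij
      rw [Function.onFun, Finset.disjoint_left]
      intro p hp hp'
      exact hij (PB_disj D (by linarith) hp hp')

end

end Pool.Agent.H469.F4
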