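import Pool.Agent.H469.F4.NP6

set_option autoImplicit false

/-!
# Lower bound for the mean square of the product with partial sums, II
-/

namespace Pool.Agent.H469.F4

open Filter Topology MeasureTheory Complex Pool.Agent.Q97.UM Pool.Agent.Q14.UM

noncomputable section

theorem Z_log {D : ℝ} {j₀ : ℕ} (hD : Real.exp (j₀ : ℝ) ≤ D) {Z : ℕ} (hZ : Z = ⌊XB D j₀⌋₊) :
    2 ≤ Z ∧ Z ≤ ⌊Real.exp D⌋₊ ∧ 2 ≤ ⌊Real.exp D⌋₊ ∧
      Real.log (Real.log (⌊Real.exp D⌋₊ : ℕ)) ≤ Real.log (Real.log Z) + (j₀ + 4) := by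
  have hj : (0 : ℝ) ≤ j₀ := Nat.cast_nonneg j₀
  have hD1 : 1 ≤ D := (Real.one_le_exp hj).trans hD
  obtain ⟨u, hu⟩ : ∃ u : ℝ, u = D * Real.exp (-(j₀ : ℝ)) := ⟨_, rfl⟩
  have hu1 : 1 ≤ u := by
    rw [hu, Real.exp_neg, ← div_eq_mul_inv, le_div_iff₀ (Real.exp_pos _), one_mul]
    exact hD
  have hXB : XB D j₀ = Real.exp u := by rw [hu]; rfl
  rw [hXB] at hZ
  have he2 : (2 : ℝ) ≤ Real.exp u := by
    have := Real.add_one_le_exp u
    linarith
  have hZ2 : 2 ≤ Z := by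
    rw [hZ]
    apply Nat.le_floor
    exact_mod_cast he2
  have huD : u ≤ D := by
    rw [hu]
    apply mul_le_of_le_one_right (by linarith)
    exact Real.exp_le_one_iff.2 (by linarith)
  have hZY : Z ≤ ⌊Real.exp D⌋₊ := by
    rw [hZ]
    exact Nat.floor_le_floor (Real.exp_le_exp.2 huD)
  refine ⟨hZ2, hZY, hZ2.trans hZY, ?_⟩
  have hl2 : Real.log 2 ≤ 7 / 10 := by
    have := Real.log_two_lt_d9
    linarith
  have hlZ : 3 / 10 * u ≤ Real.log Z := by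
    have h1 : Real.exp u < Z + 1 := by rw [hZ]; exact Nat.lt_floor_add_one _
    have h2 : Real.exp u / 2 ≤ Z := by
      have : (2 : ℝ) ≤ Z := by exact_mod_cast hZ2
      linarith
    have h3 : Real.log (Real.exp u / 2) ≤ Real.log Z := Real.log_le_log (by positivity) h2
    rw [Real.log_div (Real.exp_pos _).ne' (by norm_num), Real.log_exp] at h3
    linarith
  have hlZ0 : 0 < Real.log Z := by linarith
  have hlY : Real.log (⌊Real.exp D⌋₊ : ℕ) ≤ D := by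
    have h0 : (0 : ℝ) < (⌊Real.exp D⌋₊ : ℕ) := by exact_mod_cast (by omega : 0 < ⌊Real.exp D⌋₊)
    have h1 : ((⌊Real.exp D⌋₊ : ℕ) : ℝ) ≤ Real.exp D := Nat.floor_le (Real.exp_pos _).le
    calc Real.log (⌊Real.exp D⌋₊ : ℕ) ≤ Real.log (Real.exp D) := Real.log_le_log h0 h1
      _ = D := Real.log_exp D
  have hlY0 : 0 < Real.log (⌊Real.exp D⌋₊ : ℕ) :=
    Real.log_pos (by exact_mod_cast (by omega : 1 < ⌊Real.exp D⌋₊))
  have h5 : D ≤ Real.log Z * Real.exp ((j₀ : ℝ) + 4) := by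
    have h6 : D = u * Real.exp (j₀ : ℝ) := by
      rw [hu, mul_assoc, ← Real.exp_add]
      simp
    have h7 : (10 / 3 : ℝ) ≤ Real.exp 4 := by
      have := Real.add_one_le_exp (4 : ℝ)
      linarith
    rw [Real.exp_add]
    calc D = u * Real.exp (j₀ : ℝ) := h6
      _ ≤ (10 / 3 * Real.log Z) * Real.exp (j₀ : ℝ) := mul_le_mul_of_nonneg_right (by linarith) (Real.exp_pos _).le
      _ = Real.log Z * (Real.exp (j₀ : ℝ) * (10 / 3)) := by ring
      _ ≤ _ := by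
          apply mul_le_mul_of_nonneg_left _ hlZ0.le
          exact mul_le_mul_of_nonneg_left h7 (Real.exp_pos _).le
  calc Real.log (Real.log (⌊Real.exp D⌋₊ : ℕ)) ≤ Real.log (Real.log Z * Real.exp ((j₀ : ℝ) + 4)) :=
        Real.log_le_log hlY0 (hlY.trans h5)
    _ = _ := by rw [Real.log_mul hlZ0.ne' (Real.exp_pos _).ne', Real.log_exp]

/-- **lower bound** -/
theorem lower_N2 {A : ℝ} (hA : 1 ≤ A) {β : ℝ} (hβ : 0 < β) {C' : ℝ} (hC' : 0 ≤ C') (m : ℕ) : ∃ c D₀ : ℝ, 0 < c ∧ 1 ≤ D₀ ∧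
    ∀ D κ : ℝ, D₀ ≤ D → 4 ≤ κ → ∀ s : ℝ, 0 ≤ s → s ≤ A → ∀ N N' : Fin m → ℕ,
      (∀ i, 1 ≤ N' i ∧ N' i ≤ N i ∧ N i ≤ ⌊Real.exp D⌋₊ ∧ PR (N i) ≤ PR (N' i) + C') →
      ∀ r : Fin m → ℕ → ℝ, (∀ i n, 0 ≤ r i n) → (∀ i n, r i n ≠ 0 → 1 ≤ n ∧ n ≤ N i) → (∀ i n, 1 ≤ n → n ≤ N' i → β ≤ r i n) →
        c * Real.exp (∑ p ∈ (Finset.Icc 1 ⌊Real.exp D⌋₊).filter Nat.Prime, (s + mc N p) ^ 2 / p) ≤
          N2 (M9 D κ * ∏ i, N i) (cv (ebk D κ (aS s) (aS s) 0 (JB D)) (fun n => bA (fun i n => (r i n : ℂ)) n)) := by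
  obtain ⟨Cb, hCb1, hCb⟩ := Pool.Agent.Q198.UM.t_BM
  obtain ⟨C2, hC2, hP⟩ := PR_log
  obtain ⟨A', hA'⟩ : ∃ A' : ℝ, A' = A + m := ⟨_, rfl⟩
  have hm0 : (0 : ℝ) ≤ m := Nat.cast_nonneg m
  have hA'1 : 1 ≤ A' := by rw [hA']; linarith
  have hAA' : A ≤ A' := by rw [hA']; linarith
  obtain ⟨c₁, hc₁, hG⟩ := cm_sum_ge (A := A') hA'1
  obtain ⟨B₀, hB₀⟩ : ∃ B₀ : ℝ, B₀ = A' * A' * Cb + A' ^ 3 := ⟨_, rfl⟩
  have hB₀0 : 0 ≤ B₀ := by rw [hB₀]; positivity
  obtain ⟨j₀, hj₀⟩ : ∃ j₀ : ℕ, j₀ = ⌈10 * B₀⌉₊ := ⟨_, rfl⟩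
  have hj₀' : 10 * B₀ ≤ j₀ := by rw [hj₀]; exact Nat.le_ceil _
  obtain ⟨P₀, hP₀⟩ : ∃ P₀ : ℕ, P₀ = ⌊6 * A' ^ 2⌋₊ := ⟨_, rfl⟩
  obtain ⟨C3, hC3⟩ : ∃ C3 : ℝ, C3 = A' ^ 2 * (PR P₀ + (j₀ + 4 + 2 * C2)) + 2 * (m * (A' * C')) + 4 * A' ^ 4 := ⟨_, rfl⟩
  refine ⟨1 / 4 * ((β * c₁) ^ m) ^ 2 * Real.exp (-C3), Real.exp (j₀ : ℝ), by positivity, Real.one_le_exp (Nat.cast_nonneg _), ?_⟩
  intro D κ hD hκ s hs0 hsA N N' hN r hr0 hrs hrβ
  have hD1 : 1 ≤ D := (Real.one_le_exp (Nat.cast_nonneg _)).trans hD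
  obtain ⟨Z, hZ⟩ : ∃ Z : ℕ, Z = ⌊XB D j₀⌋₊ := ⟨_, rfl⟩
  obtain ⟨hZ2, hZY, hY2, hZl⟩ := Z_log hD hZ
  obtain ⟨Y, hY⟩ : ∃ Y : ℕ, Y = ⌊Real.exp D⌋₊ := ⟨_, rfl⟩
  rw [← hY] at hZY hY2 hZl hN ⊢
  obtain ⟨h, hh⟩ : ∃ h : ℕ → ℝ, h = fun p => s + mc N p := ⟨_, rfl⟩
  have hh0 : ∀ p, 0 ≤ h p := fun p => by rw [hh]; positivity
  have hhA : ∀ p, h p ≤ A' := fun p => by
    rw [hh, hA']
    have : (mc N p : ℝ) ≤ m := by exact_mod_cast mc_le N p
    show s + (mc N p : ℝ) ≤ A + m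
    linarith
  obtain ⟨g, hg⟩ : ∃ g : ℕ → ℝ, g = fun p : ℕ => if 6 * A' ^ 2 < (p : ℝ) ∧ p ≤ Z then h p else 0 := ⟨_, rfl⟩
  have hgp : ∀ p : ℕ, g p = if 6 * A' ^ 2 < (p : ℝ) ∧ p ≤ Z then h p else 0 := fun p => by rw [hg]
  have hg0 : ∀ p, 0 ≤ g p := fun p => by
    rw [hgp]
    split_ifs
    · exact hh0 p
    · exact le_rfl
  have hgh : ∀ p, g p ≤ h p := fun p => by
    rw [hgp]
    split_ifs
    · exact le_rfl
    · exact hh0 p
  have hgA : ∀ p, g p ≤ A' := fun p => (hgh p).trans (hhA p)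
  have hgsm : ∀ p : ℕ, (p : ℝ) ≤ 6 * A' → g p = 0 := by
    intro p hp
    rw [hgp, if_neg]
    rintro ⟨h1, _⟩
    nlinarith
  have hgZ : ∀ p, Z < p → g p = 0 := by
    intro p hp
    rw [hgp, if_neg]
    rintro ⟨_, h1⟩
    omega
  -- the blocks
  have hx : ∀ j, ∑ p ∈ PB D j, (s * (g p / p) + s * (g p ^ 2 / (2 * p ^ 2))) ≤ (R9 κ j : ℝ) / 10 := by
    intro j
    rcases Nat.lt_or_ge j j₀ with hj | hj
    · have h1 : ∑ p ∈ PB D j, (s * (g p / (p : ℝ)) + s * (g p ^ 2 / (2 * (p : ℝ) ^ 2))) = 0 := by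
        refine Finset.sum_eq_zero fun p hp => ?_
        have h2 := (mem_PB hp).2.1
        have h3 : XB D j₀ ≤ XB D (j + 1) := by
          unfold XB
          apply Real.exp_le_exp.2
          apply mul_le_mul_of_nonneg_left _ (by linarith)
          apply Real.exp_le_exp.2
          have : ((j + 1 : ℕ) : ℝ) ≤ j₀ := by exact_mod_cast hj
          linarith
        have h4 : Z < p := by
          have h5 : (Z : ℝ) ≤ XB D j₀ := by rw [hZ]; exact Nat.floor_le (Real.exp_pos _).le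
          have : (Z : ℝ) < p := by linarith
          exact_mod_cast this
        rw [hgZ p h4]
        simp
      rw [h1]
      positivity
    · have h1 : ∑ p ∈ PB D j, (s * (g p / (p : ℝ)) + s * (g p ^ 2 / (2 * (p : ℝ) ^ 2))) ≤ B₀ := by
        have h2 : ∀ p ∈ PB D j, s * (g p / (p : ℝ)) + s * (g p ^ 2 / (2 * (p : ℝ) ^ 2)) ≤
            A' * A' * (1 / (p : ℝ)) + A' ^ 3 / 2 * (1 / (p : ℝ) ^ 2) := by
          intro p hp
          have hp0 : (0 : ℝ) < p := by exact_mod_cast (mem_PB hp).1.pos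
          have e0 := hg0 p
          have e1 : s * g p ≤ A' * A' := mul_le_mul (hsA.trans hAA') (hgA p) e0 (by linarith)
          have e2 : s * g p ^ 2 ≤ A' ^ 3 := by
            calc s * g p ^ 2 ≤ A' * A' ^ 2 := mul_le_mul (hsA.trans hAA') (pow_le_pow_left₀ e0 (hgA p) 2) (by positivity) (by linarith)
              _ = _ := by ring
          have e3 : s * (g p / (p : ℝ)) = s * g p * (1 / (p : ℝ)) := by ring
          have e4 : s * (g p ^ 2 / (2 * (p : ℝ) ^ 2)) = s * g p ^ 2 / 2 * (1 / (p : ℝ) ^ 2) := by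
            field_simp
          rw [e3, e4]
          apply add_le_add
          · exact mul_le_mul_of_nonneg_right e1 (by positivity)
          · apply mul_le_mul_of_nonneg_right _ (by positivity)
            linarith
        refine (Finset.sum_le_sum h2).trans ?_
        rw [Finset.sum_add_distrib, ← Finset.mul_sum, ← Finset.mul_sum]
        have h3 := hCb D j hD1
        have h4 : ∑ p ∈ PB D j, (1 : ℝ) / (p : ℝ) ^ 2 ≤ 2 := by
          refine (Finset.sum_le_sum_of_subset_of_nonneg (Finset.filter_subset _ _) (fun p _ _ => by positivity)).trans (sum_inv_sq _)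
        have h5 : A' * A' * ∑ p ∈ PB D j, (1 : ℝ) / (p : ℝ) ≤ A' * A' * Cb := mul_le_mul_of_nonneg_left h3 (by positivity)
        have h6 : A' ^ 3 / 2 * ∑ p ∈ PB D j, (1 : ℝ) / (p : ℝ) ^ 2 ≤ A' ^ 3 / 2 * 2 := mul_le_mul_of_nonneg_left h4 (by positivity)
        rw [hB₀]
        linarith
      refine h1.trans ?_
      have h2 : κ * Real.exp (9 / 10 * (j : ℝ)) ≤ R9 κ j := Nat.le_ceil _
      have h3 := Real.add_one_le_exp (9 / 10 * (j : ℝ))
      have h4 : (j₀ : ℝ) ≤ j := by exact_mod_cast hj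
      have h5 : 4 * (9 / 10 * (j : ℝ) + 1) ≤ κ * Real.exp (9 / 10 * (j : ℝ)) :=
        mul_le_mul hκ h3 (by positivity) (by linarith)
      have hj0 : (0 : ℝ) ≤ j := Nat.cast_nonneg j
      linarith
  have hE := dp_e_w (g := g) hD1 hκ hs0 hg0 hx
  rw [← hY] at hE
  obtain ⟨S1, hS1⟩ : ∃ S1 : ℝ, S1 = ∑ p ∈ (Finset.Icc 1 Y).filter Nat.Prime, g p / p := ⟨_, rfl⟩
  rw [← hS1] at hE
  -- the polynomials
  obtain ⟨c, hcd⟩ : ∃ c : Fin m → ℕ → ℂ, c = fun i n => (r i n : ℂ) := ⟨_, rfl⟩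
  rw [← hcd]
  have hcs : ∀ i n, c i n ≠ 0 → 1 ≤ n ∧ n ≤ N i := by
    intro i n hn
    apply hrs i n
    intro h0
    apply hn
    rw [hcd]
    show (r i n : ℂ) = 0
    rw [h0]
    simp
  have hwcs : ∀ i n, (fun i n => wG g n * c i n) i n ≠ 0 → 1 ≤ n ∧ n ≤ N i := fun i n hn => hcs i n (right_ne_zero_of_mul hn)
  have hB1 : dp (∏ i, N i) (fun n => wG g n * bA c n) 0 = ∏ i, dp (N i) (fun n => wG g n * c i n) 0 := by
    have h1 : (fun n => wG g n * bA c n) = fun n => bA (fun i n => wG g n * c i n) n := by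
      funext n
      exact bA_w (wG_Mw g) c n
    rw [h1]
    exact dp_bA hwcs 0
  obtain ⟨T', hT'⟩ : ∃ T' : ℝ, T' = ∑ i, ∑ p ∈ (Finset.Icc 1 (N' i)).filter Nat.Prime, g p / p := ⟨_, rfl⟩
  have hB2 : (β * c₁) ^ m * Real.exp T' ≤ ‖dp (∏ i, N i) (fun n => wG g n * bA c n) 0‖ := by
    rw [hB1, norm_prod, hT', Real.exp_sum]
    have h1 : (β * c₁) ^ m = ∏ _i : Fin m, (β * c₁) := by rw [Finset.prod_const, Finset.card_univ, Fintype.card_fin]
    rw [h1, ← Finset.prod_mul_distrib]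
    refine Finset.prod_le_prod (fun i _ => by positivity) fun i _ => ?_
    rw [dp_wG]
    have h2 : ∑ n ∈ Finset.Icc 1 (N i), ((cm g n / n : ℝ) : ℂ) * c i n = ((∑ n ∈ Finset.Icc 1 (N i), cm g n / n * r i n : ℝ) : ℂ) := by
      rw [Complex.ofReal_sum]
      refine Finset.sum_congr rfl fun n _ => ?_
      rw [hcd, Complex.ofReal_mul]
    have hnn : ∀ n : ℕ, 0 ≤ cm g n / (n : ℝ) := fun n => div_nonneg (cm_nonneg hg0 n) (Nat.cast_nonneg n)
    rw [h2, Complex.norm_real, Real.norm_eq_abs, abs_of_nonneg (Finset.sum_nonneg fun n _ => mul_nonneg (hnn n) (hr0 i n))]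
    have h3 := hG g hg0 hgA hgsm (N' i) (hN i).1
    calc β * c₁ * Real.exp (∑ p ∈ (Finset.Icc 1 (N' i)).filter Nat.Prime, g p / p) =
          β * (c₁ * Real.exp (∑ p ∈ (Finset.Icc 1 (N' i)).filter Nat.Prime, g p / p)) := by ring
      _ ≤ β * ∑ n ∈ Finset.Icc 1 (N' i), cm g n / n := mul_le_mul_of_nonneg_left h3 hβ.le
      _ = ∑ n ∈ Finset.Icc 1 (N' i), cm g n / n * β := by rw [Finset.mul_sum]; exact Finset.sum_congr rfl fun n _ => by ring
      _ ≤ ∑ n ∈ Finset.Icc 1 (N' i), cm g n / n * r i n := by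
          refine Finset.sum_le_sum fun n hn => ?_
          rw [Finset.mem_Icc] at hn
          exact mul_le_mul_of_nonneg_left (hrβ i n hn.1 hn.2) (hnn n)
      _ ≤ _ := by
          refine Finset.sum_le_sum_of_subset_of_nonneg (Finset.Icc_subset_Icc_right (hN i).2.1) fun n _ _ => ?_
          exact mul_nonneg (hnn n) (hr0 i n)
  -- Cauchy
  obtain ⟨e, he⟩ : ∃ e : ℕ → ℂ, e = ebk D κ (aS s) (aS s) 0 (JB D) := ⟨_, rfl⟩
  have hes := ebk_supp (D := D) (κ := κ) hD1 (by linarith) (aS s) (aS s)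
  rw [← he] at hes hE ⊢
  obtain ⟨M, hM⟩ : ∃ M : ℕ, M = M9 D κ := ⟨_, rfl⟩
  rw [← hM] at hes hE ⊢
  obtain ⟨f, hf⟩ : ∃ f : ℕ → ℂ, f = cv e (fun n => bA c n) := ⟨_, rfl⟩
  rw [← hf]
  have hbs := bA_supp hcs
  have hmul : dp (M * ∏ i, N i) (fun n => wG g n * f n) 0 =
      dp M (fun n => wG g n * e n) 0 * dp (∏ i, N i) (fun n => wG g n * bA c n) 0 := by
    have h1 := Pool.Agent.Q84.UM.t_DPM.1 M (∏ i, N i) (fun n => wG g n * e n) (fun n => wG g n * bA c n) 0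
      (fun n hn => by
        by_contra h0
        have := (hes n (right_ne_zero_of_mul h0)).2
        omega)
      (fun n hn => by
        by_contra h0
        have := (hbs n (right_ne_zero_of_mul h0)).2
        omega)
    rw [h1]
    congr 1
    funext n
    rw [hf, cv_w (wG_Mw g)]
  have hCS := cs_wG hg0 (M * ∏ i, N i) f
  rw [hmul, norm_mul] at hCS
  have hden : ∑ n ∈ Finset.Icc 1 (M * ∏ i, N i), cm g n ^ 2 / (n : ℝ) ≤
      Real.exp (∑ p ∈ (Finset.Icc 1 Y).filter Nat.Prime, g p ^ 2 / p + 4 * A' ^ 4) := by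
    have h1 : ∑ n ∈ Finset.Icc 1 (M * ∏ i, N i), cm g n ^ 2 / (n : ℝ) =
        ∑ n ∈ Finset.Icc 1 (M * ∏ i, N i), cm (fun p => g p ^ 2 / p) n := by
      refine Finset.sum_congr rfl fun n hn => ?_
      have hn0 : n ≠ 0 := by have := (Finset.mem_Icc.1 hn).1; omega
      exact cm_sq_div g hn0
    rw [h1]
    refine (cm_le_exp (g := fun p => g p ^ 2 / (p : ℝ)) (fun p => div_nonneg (sq_nonneg _) (Nat.cast_nonneg p)) (fun p hp => ?_)
      (y := Y) (fun p hp => ?_) _).trans ?_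
    · have hp0 : (0 : ℝ) < p := by exact_mod_cast hp.pos
      show g p ^ 2 / (p : ℝ) ≤ 1 / 2
      rw [hgp]
      split_ifs with h2
      · rw [div_le_iff₀ hp0]
        have h3 : h p ^ 2 ≤ A' ^ 2 := pow_le_pow_left₀ (hh0 p) (hhA p) 2
        nlinarith [h2.1]
      · rw [zero_pow two_ne_zero, zero_div]
        norm_num
    · show g p ^ 2 / (p : ℝ) = 0
      rw [hgZ p (by omega)]
      simp
    · apply Real.exp_le_exp.2
      rw [Finset.sum_add_distrib]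
      have h2 : ∑ p ∈ (Finset.Icc 1 Y).filter Nat.Prime, 2 * (g p ^ 2 / (p : ℝ)) ^ 2 ≤ 4 * A' ^ 4 := by
        calc ∑ p ∈ (Finset.Icc 1 Y).filter Nat.Prime, 2 * (g p ^ 2 / (p : ℝ)) ^ 2 ≤
            ∑ p ∈ (Finset.Icc 1 Y).filter Nat.Prime, 2 * A' ^ 4 * (1 / (p : ℝ) ^ 2) := by
              refine Finset.sum_le_sum fun p _ => ?_
              have h3 : g p ^ 4 ≤ A' ^ 4 := pow_le_pow_left₀ (hg0 p) (hgA p) 4
              have h4 : 2 * (g p ^ 2 / (p : ℝ)) ^ 2 = 2 * g p ^ 4 * (1 / (p : ℝ) ^ 2) := by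
                rw [div_pow]
                ring
              rw [h4]
              apply mul_le_mul_of_nonneg_right _ (by positivity)
              linarith
          _ = 2 * A' ^ 4 * ∑ p ∈ (Finset.Icc 1 Y).filter Nat.Prime, (1 / (p : ℝ) ^ 2) := by rw [Finset.mul_sum]
          _ ≤ 2 * A' ^ 4 * 2 := by
              apply mul_le_mul_of_nonneg_left _ (by positivity)
              exact (Finset.sum_le_sum_of_subset_of_nonneg (Finset.filter_subset _ _) (fun p _ _ => by positivity)).trans (sum_inv_sq _)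
          _ = _ := by ring
      linarith
  -- the exponents
  obtain ⟨G2, hG2⟩ : ∃ G2 : ℝ, G2 = ∑ p ∈ (Finset.Icc 1 Y).filter Nat.Prime, g p ^ 2 / (p : ℝ) := ⟨_, rfl⟩
  rw [← hG2] at hden
  have hexp1 : G2 ≤ s * S1 + T' + m * (A' * C') := by
    have h1 : G2 = s * S1 + ∑ p ∈ (Finset.Icc 1 Y).filter Nat.Prime, (mc N p : ℝ) * (g p / p) := by
      rw [hG2, hS1, Finset.mul_sum, ← Finset.sum_add_distrib]
      refine Finset.sum_congr rfl fun p _ => ?_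
      have h2 : g p ^ 2 = g p * h p := by
        rw [hgp]
        split_ifs
        · ring
        · ring
      rw [h2, hh]
      ring
    rw [h1, sum_mc (fun i => (hN i).2.2.1) (fun p => g p / (p : ℝ)), hT']
    have h2 : ∑ i, ∑ p ∈ (Finset.Icc 1 (N i)).filter Nat.Prime, g p / (p : ℝ) ≤
        ∑ i, (∑ p ∈ (Finset.Icc 1 (N' i)).filter Nat.Prime, g p / (p : ℝ) + A' * C') := by
      refine Finset.sum_le_sum fun i _ => ?_
      refine (sum_sub_PR hgA (hN i).2.1).trans ?_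
      have h3 := (hN i).2.2.2
      have h4 : A' * (PR (N i) - PR (N' i)) ≤ A' * C' := mul_le_mul_of_nonneg_left (by linarith) (by linarith)
      linarith
    rw [Finset.sum_add_distrib, Finset.sum_const, Finset.card_univ, Fintype.card_fin, nsmul_eq_mul] at h2
    linarith
  have hexp2 : ∑ p ∈ (Finset.Icc 1 Y).filter Nat.Prime, (s + mc N p) ^ 2 / (p : ℝ) ≤ G2 + A' ^ 2 * (PR P₀ + (j₀ + 4 + 2 * C2)) := by
    have h1 : ∀ p ∈ (Finset.Icc 1 Y).filter Nat.Prime, (s + mc N p) ^ 2 / (p : ℝ) ≤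
        g p ^ 2 / p + A' ^ 2 * ((if p ≤ P₀ then 1 / (p : ℝ) else 0) + (if Z < p then 1 / (p : ℝ) else 0)) := by
      intro p hp
      have hp0 : (0 : ℝ) < p := by exact_mod_cast (Finset.mem_filter.1 hp).2.pos
      have h2 : (s + mc N p) ^ 2 ≤ A' ^ 2 := by
        have := hhA p
        rw [hh] at this
        exact pow_le_pow_left₀ (by positivity) this 2
      have h3 : 0 ≤ g p ^ 2 / (p : ℝ) := by positivity
      have h4 : 0 ≤ (if p ≤ P₀ then 1 / (p : ℝ) else 0) := by split_ifs <;> positivity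
      have h5 : 0 ≤ (if Z < p then 1 / (p : ℝ) else 0) := by split_ifs <;> positivity
      by_cases h6 : 6 * A' ^ 2 < (p : ℝ) ∧ p ≤ Z
      · have h7 : g p = s + mc N p := by rw [hgp, if_pos h6, hh]
        rw [h7]
        have : 0 ≤ A' ^ 2 * ((if p ≤ P₀ then 1 / (p : ℝ) else 0) + (if Z < p then 1 / (p : ℝ) else 0)) := by positivity
        linarith
      · have h7 : 1 / (p : ℝ) ≤ (if p ≤ P₀ then 1 / (p : ℝ) else 0) + (if Z < p then 1 / (p : ℝ) else 0) := by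
          by_cases h8 : 6 * A' ^ 2 < (p : ℝ)
          · have h9 : Z < p := by
              by_contra h10
              exact h6 ⟨h8, by omega⟩
            have h10 : (if Z < p then 1 / (p : ℝ) else 0) = 1 / (p : ℝ) := if_pos h9
            rw [h10]
            linarith
          · have h9 : p ≤ P₀ := by
              rw [hP₀]
              apply Nat.le_floor
              linarith
            have h10 : (if p ≤ P₀ then 1 / (p : ℝ) else 0) = 1 / (p : ℝ) := if_pos h9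
            rw [h10]
            linarith
        calc (s + mc N p) ^ 2 / (p : ℝ) ≤ A' ^ 2 * (1 / (p : ℝ)) := by
              rw [mul_one_div]
              exact div_le_div_of_nonneg_right h2 hp0.le
          _ ≤ A' ^ 2 * ((if p ≤ P₀ then 1 / (p : ℝ) else 0) + (if Z < p then 1 / (p : ℝ) else 0)) :=
              mul_le_mul_of_nonneg_left h7 (by positivity)
          _ ≤ _ := by linarith
    refine (Finset.sum_le_sum h1).trans ?_
    rw [Finset.sum_add_distrib, ← Finset.mul_sum, ← hG2, Finset.sum_add_distrib]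
    have h2 : ∑ p ∈ (Finset.Icc 1 Y).filter Nat.Prime, (if p ≤ P₀ then 1 / (p : ℝ) else 0) ≤ PR P₀ := by
      rw [← Finset.sum_filter]
      unfold PR
      refine Finset.sum_le_sum_of_subset_of_nonneg (fun p hp => ?_) fun _ _ _ => by positivity
      simp only [Finset.mem_filter, Finset.mem_Icc] at hp ⊢
      exact ⟨⟨hp.1.1.1, hp.2⟩, hp.1.2⟩
    have h3 : ∑ p ∈ (Finset.Icc 1 Y).filter Nat.Prime, (if Z < p then 1 / (p : ℝ) else 0) = PR Y - PR Z := by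
      have h4 : PR Z = ∑ p ∈ (Finset.Icc 1 Y).filter Nat.Prime, (if p ≤ Z then 1 / (p : ℝ) else 0) := by
        rw [← Finset.sum_filter]
        unfold PR
        refine Finset.sum_congr ?_ fun _ _ => rfl
        ext p
        simp only [Finset.mem_filter, Finset.mem_Icc]
        constructor
        · rintro ⟨⟨h1, h2⟩, h3⟩
          exact ⟨⟨⟨h1, h2.trans hZY⟩, h3⟩, h2⟩
        · rintro ⟨⟨⟨h1, _⟩, h3⟩, h2⟩
          exact ⟨⟨h1, h2⟩, h3⟩
      rw [h4]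
      unfold PR
      rw [← Finset.sum_sub_distrib]
      refine Finset.sum_congr rfl fun p _ => ?_
      by_cases h5 : p ≤ Z
      · rw [if_pos h5, if_neg (by omega), sub_self]
      · rw [if_neg h5, if_pos (by omega), sub_zero]
    rw [h3]
    have h4 := hP Y hY2
    have h5 := hP Z hZ2
    rw [abs_le] at h4 h5
    have h6 : PR Y - PR Z ≤ j₀ + 4 + 2 * C2 := by linarith [h4.2, h5.1]
    have h7 := mul_le_mul_of_nonneg_left (add_le_add h2 h6) (sq_nonneg A')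
    linarith
  -- conclusion
  obtain ⟨X1, hX1⟩ : ∃ X1 : ℝ, X1 = ‖dp M (fun n => wG g n * e n) 0‖ := ⟨_, rfl⟩
  obtain ⟨X2, hX2⟩ : ∃ X2 : ℝ, X2 = ‖dp (∏ i, N i) (fun n => wG g n * bA c n) 0‖ := ⟨_, rfl⟩
  rw [← hX1] at hE hCS
  rw [← hX2] at hB2 hCS
  obtain ⟨Nf, hNf⟩ : ∃ Nf : ℝ, Nf = N2 (M * ∏ i, N i) f := ⟨_, rfl⟩
  have hNf0 : 0 ≤ Nf := by rw [hNf]; exact Pool.Agent.Q86.UM.N2_nonneg _ _
  rw [← hNf] at hCS ⊢
  have q1 : (1 / 2 * Real.exp (s * S1)) * ((β * c₁) ^ m * Real.exp T') ≤ X1 * X2 :=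
    mul_le_mul hE hB2 (by positivity) (by rw [hX1]; positivity)
  have q2 : ((1 / 2 * Real.exp (s * S1)) * ((β * c₁) ^ m * Real.exp T')) ^ 2 ≤ Nf * Real.exp (G2 + 4 * A' ^ 4) :=
    (pow_le_pow_left₀ (by positivity) q1 2).trans (hCS.trans (mul_le_mul_of_nonneg_left hden hNf0))
  have q3 : ((1 / 2 * Real.exp (s * S1)) * ((β * c₁) ^ m * Real.exp T')) ^ 2 =
      1 / 4 * ((β * c₁) ^ m) ^ 2 * Real.exp (2 * (s * S1 + T')) := by
    have : Real.exp (2 * (s * S1 + T')) = (Real.exp (s * S1) * Real.exp T') ^ 2 := by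
      rw [← Real.exp_add, ← Real.exp_nat_mul]
      congr 1
    rw [this]
    ring
  rw [q3] at q2
  have q4 : 1 / 4 * ((β * c₁) ^ m) ^ 2 * Real.exp (2 * (s * S1 + T')) * Real.exp (-(G2 + 4 * A' ^ 4)) ≤ Nf := by
    rw [Real.exp_neg, ← div_eq_mul_inv, div_le_iff₀ (Real.exp_pos _)]
    exact q2
  refine le_trans ?_ q4
  obtain ⟨K0, hK0⟩ : ∃ K0 : ℝ, K0 = 1 / 4 * ((β * c₁) ^ m) ^ 2 := ⟨_, rfl⟩
  have hK00 : 0 ≤ K0 := by rw [hK0]; positivity
  rw [← hK0, mul_assoc K0, mul_assoc K0, ← Real.exp_add, ← Real.exp_add]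
  apply mul_le_mul_of_nonneg_left _ hK00
  apply Real.exp_le_exp.2
  rw [hC3]
  linarith

end

end Pool.Agent.H469.F4
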