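import Pool.Agent.H469.F4.NP7

set_option autoImplicit false

/-!
# The order of the mean squares
-/

namespace Pool.Agent.H469.F4

open Filter Topology MeasureTheory Complex Pool.Agent.Q97.UM Pool.Agent.Q14.UM

noncomputable section

/-- the order of magnitude -/
def ordN {m : ℕ} (s : ℝ) (N : Fin m → ℕ) (T : ℝ) : ℝ :=
  Real.log T ^ (s ^ 2) * ∏ i, (Real.log (N i) ^ (2 * s) * ∏ j, Real.log (min (N i) (N j) : ℕ))

theorem sum_mc2 {m : ℕ} {N : Fin m → ℕ} {Y : ℕ} (hN : ∀ i, N i ≤ Y) (f : ℕ → ℝ) :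
    ∑ p ∈ (Finset.Icc 1 Y).filter Nat.Prime, (mc N p : ℝ) * ((mc N p : ℝ) * f p) =
      ∑ i, ∑ j, ∑ p ∈ (Finset.Icc 1 (min (N i) (N j))).filter Nat.Prime, f p := by
  classical
  rw [sum_mc hN]
  refine Finset.sum_congr rfl fun i _ => ?_
  have h1 : ∀ j, ∑ p ∈ (Finset.Icc 1 (min (N i) (N j))).filter Nat.Prime, f p =
      ∑ p ∈ (Finset.Icc 1 (N i)).filter Nat.Prime, (if p ≤ N j then f p else 0) := by
    intro j
    rw [← Finset.sum_filter]
    refine Finset.sum_congr ?_ fun _ _ => rfl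
    ext p
    simp only [Finset.mem_filter, Finset.mem_Icc, le_min_iff]
    constructor
    · rintro ⟨⟨h1, h2, h4⟩, h3⟩
      exact ⟨⟨⟨h1, h2⟩, h3⟩, h4⟩
    · rintro ⟨⟨⟨h1, h2⟩, h3⟩, h4⟩
      exact ⟨⟨h1, h2, h4⟩, h3⟩
  rw [Finset.sum_congr rfl fun j _ => h1 j, Finset.sum_comm]
  refine Finset.sum_congr rfl fun p _ => ?_
  rw [← Finset.sum_filter, Finset.sum_const, nsmul_eq_mul]
  rfl

theorem sum_sq_eq {m : ℕ} {N : Fin m → ℕ} {Y : ℕ} (hN : ∀ i, N i ≤ Y) (s : ℝ) :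
    ∑ p ∈ (Finset.Icc 1 Y).filter Nat.Prime, (s + mc N p) ^ 2 / (p : ℝ) =
      s ^ 2 * PR Y + ∑ i, (2 * s * PR (N i) + ∑ j, PR (min (N i) (N j))) := by
  have h1 : ∀ p ∈ (Finset.Icc 1 Y).filter Nat.Prime, (s + mc N p) ^ 2 / (p : ℝ) =
      s ^ 2 * (1 / (p : ℝ)) + (2 * s * ((mc N p : ℝ) * (1 / (p : ℝ))) + (mc N p : ℝ) * ((mc N p : ℝ) * (1 / (p : ℝ)))) := by
    intro p _
    ring
  rw [Finset.sum_congr rfl h1, Finset.sum_add_distrib, Finset.sum_add_distrib, ← Finset.mul_sum, ← Finset.mul_sum,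
    sum_mc hN (fun p => 1 / (p : ℝ)), sum_mc2 hN (fun p => 1 / (p : ℝ)), Finset.sum_add_distrib, ← Finset.mul_sum]
  rfl

theorem order_exp {A δ : ℝ} (hA : 1 ≤ A) (hδ : 0 < δ) (m : ℕ) : ∃ K : ℝ, 1 ≤ K ∧ ∀ᶠ T : ℝ in atTop, ∀ s : ℝ, 0 ≤ s → s ≤ A →
    ∀ N : Fin m → ℕ, (∀ i, 2 ≤ N i ∧ N i ≤ ⌊Real.exp (δ * Real.log T)⌋₊) →
      Real.exp (∑ p ∈ (Finset.Icc 1 ⌊Real.exp (δ * Real.log T)⌋₊).filter Nat.Prime, (s + mc N p) ^ 2 / p) ≤ K * ordN s N T ∧
      ordN s N T ≤ K * Real.exp (∑ p ∈ (Finset.Icc 1 ⌊Real.exp (δ * Real.log T)⌋₊).filter Nat.Prime, (s + mc N p) ^ 2 / p) := by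
  obtain ⟨K, hK1, hK⟩ := exp_PR (B := 2 * A ^ 2) (by positivity)
  have hK0 : 0 < K := by linarith
  obtain ⟨b, hb⟩ : ∃ b : ℝ, b = max (max δ 1) (2 / δ) := ⟨_, rfl⟩
  have hb1 : 1 ≤ b := by rw [hb]; exact (le_max_right _ _).trans (le_max_left _ _)
  have hbδ : δ ≤ b := by rw [hb]; exact (le_max_left _ _).trans (le_max_left _ _)
  have hbδ2 : 2 / δ ≤ b := by rw [hb]; exact le_max_right _ _
  have hb0 : 0 < b := by linarith
  have hbA : 1 ≤ b ^ (A ^ 2) := Real.one_le_rpow hb1 (by positivity)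
  have hAA : A ≤ A ^ 2 := by nlinarith
  refine ⟨b ^ (A ^ 2) * K * (K * K ^ m) ^ m, ?_, ?_⟩
  · have h1 : 1 ≤ b ^ (A ^ 2) * K := one_le_mul_of_one_le_of_one_le hbA hK1
    have h2 : 1 ≤ (K * K ^ m) ^ m := one_le_pow₀ (one_le_mul_of_one_le_of_one_le hK1 (one_le_pow₀ hK1))
    exact one_le_mul_of_one_le_of_one_le h1 h2
  have hlogev : ∀ᶠ T : ℝ in atTop, 2 ≤ δ * Real.log T := by
    filter_upwards [Real.tendsto_log_atTop.eventually_ge_atTop (2 / δ)] with T hT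
    rw [div_le_iff₀ hδ] at hT
    linarith
  filter_upwards [hlogev, Real.tendsto_log_atTop.eventually_gt_atTop 0] with T glog hL
  intro s hs0 hsA N hN
  obtain ⟨Y, hY⟩ : ∃ Y : ℕ, Y = ⌊Real.exp (δ * Real.log T)⌋₊ := ⟨_, rfl⟩
  rw [← hY] at hN ⊢
  have hexp2 : (4 : ℝ) ≤ Real.exp (δ * Real.log T) := by
    have h1 : Real.exp 2 = Real.exp 1 ^ 2 := by
      rw [← Real.exp_nat_mul]
      norm_num
    have h2 := Real.exp_one_gt_d9
    have h3 : (4 : ℝ) ≤ Real.exp 2 := by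
      rw [h1]
      nlinarith
    exact h3.trans (Real.exp_le_exp.2 glog)
  have hY2 : 2 ≤ Y := by
    rw [hY]
    apply Nat.le_floor
    push_cast
    linarith
  have hY0 : (0 : ℝ) < Y := by exact_mod_cast (by omega : 0 < Y)
  have hlogY : δ / 2 * Real.log T ≤ Real.log Y := by
    have h1 : Real.exp (δ * Real.log T) < Y + 1 := by rw [hY]; exact Nat.lt_floor_add_one _
    have h2 : Real.exp (δ * Real.log T) / 2 ≤ Y := by linarith
    have h3 : Real.log (Real.exp (δ * Real.log T) / 2) ≤ Real.log Y := Real.log_le_log (by positivity) h2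
    rw [Real.log_div (Real.exp_pos _).ne' (by norm_num), Real.log_exp] at h3
    have h4 : Real.log 2 ≤ 1 := by
      have := Real.log_two_lt_d9
      linarith
    linarith
  have hlogY2 : Real.log Y ≤ δ * Real.log T := by
    have h1 : (Y : ℝ) ≤ Real.exp (δ * Real.log T) := by rw [hY]; exact Nat.floor_le (Real.exp_pos _).le
    have h2 := Real.log_le_log hY0 h1
    rwa [Real.log_exp] at h2
  have hlogY0 : 0 ≤ Real.log Y := Real.log_natCast_nonneg Y
  have hs2 : s ^ 2 ≤ A ^ 2 := pow_le_pow_left₀ hs0 hsA 2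
  have hs20 : 0 ≤ s ^ 2 := sq_nonneg s
  have hbs : b ^ (s ^ 2) ≤ b ^ (A ^ 2) := Real.rpow_le_rpow_of_exponent_le hb1 hs2
  -- the first factor
  obtain ⟨u1, u2⟩ := hK Y hY2 (s ^ 2) (by rw [abs_of_nonneg hs20]; linarith)
  have v1 : Real.log Y ^ (s ^ 2) ≤ b ^ (A ^ 2) * Real.log T ^ (s ^ 2) := by
    calc Real.log Y ^ (s ^ 2) ≤ (b * Real.log T) ^ (s ^ 2) :=
          Real.rpow_le_rpow hlogY0 (hlogY2.trans (mul_le_mul_of_nonneg_right hbδ hL.le)) hs20
      _ = b ^ (s ^ 2) * Real.log T ^ (s ^ 2) := Real.mul_rpow hb0.le hL.le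
      _ ≤ _ := mul_le_mul_of_nonneg_right hbs (by positivity)
  have v2 : Real.log T ^ (s ^ 2) ≤ b ^ (A ^ 2) * Real.log Y ^ (s ^ 2) := by
    have h1 : Real.log T ≤ b * Real.log Y := by
      have h2 : Real.log T = 2 / δ * (δ / 2 * Real.log T) := by field_simp
      calc Real.log T = 2 / δ * (δ / 2 * Real.log T) := h2
        _ ≤ 2 / δ * Real.log Y := mul_le_mul_of_nonneg_left hlogY (by positivity)
        _ ≤ b * Real.log Y := mul_le_mul_of_nonneg_right hbδ2 hlogY0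
    calc Real.log T ^ (s ^ 2) ≤ (b * Real.log Y) ^ (s ^ 2) := Real.rpow_le_rpow hL.le h1 hs20
      _ = b ^ (s ^ 2) * Real.log Y ^ (s ^ 2) := Real.mul_rpow hb0.le hlogY0
      _ ≤ _ := mul_le_mul_of_nonneg_right hbs (by positivity)
  -- the other factors
  have hsA2 : |2 * s| ≤ 2 * A ^ 2 := by
    rw [abs_of_nonneg (by linarith)]
    linarith
  have hA2 : |(1 : ℝ)| ≤ 2 * A ^ 2 := by
    rw [abs_one]
    nlinarith
  have hmin : ∀ i j, 2 ≤ min (N i) (N j) := fun i j => le_min (hN i).1 (hN j).1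
  have hlN : ∀ i, 0 < Real.log (N i) := fun i => Real.log_pos (by exact_mod_cast (by have := (hN i).1; omega : 1 < N i))
  have hlm : ∀ i j, 0 < Real.log (min (N i) (N j) : ℕ) := fun i j =>
    Real.log_pos (by exact_mod_cast (by have := hmin i j; omega : 1 < min (N i) (N j)))
  rw [sum_sq_eq (fun i => (hN i).2) s, Real.exp_add, Real.exp_sum]
  have hprod : ∀ i, Real.exp (2 * s * PR (N i) + ∑ j, PR (min (N i) (N j))) ≤
      (K * K ^ m) * (Real.log (N i) ^ (2 * s) * ∏ j, Real.log (min (N i) (N j) : ℕ)) ∧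
      (Real.log (N i) ^ (2 * s) * ∏ j, Real.log (min (N i) (N j) : ℕ)) ≤
        (K * K ^ m) * Real.exp (2 * s * PR (N i) + ∑ j, PR (min (N i) (N j))) := by
    intro i
    obtain ⟨w1, w2⟩ := hK (N i) (hN i).1 (2 * s) hsA2
    have hKm : K ^ m = ∏ _j : Fin m, K := by rw [Finset.prod_const, Finset.card_univ, Fintype.card_fin]
    have w3 : ∏ j, Real.exp (PR (min (N i) (N j))) ≤ K ^ m * ∏ j, Real.log (min (N i) (N j) : ℕ) := by
      rw [hKm, ← Finset.prod_mul_distrib]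
      refine Finset.prod_le_prod (fun j _ => (Real.exp_pos _).le) fun j _ => ?_
      have h1 := (hK (min (N i) (N j)) (hmin i j) 1 hA2).1
      rwa [one_mul, Real.rpow_one] at h1
    have w4 : ∏ j, Real.log (min (N i) (N j) : ℕ) ≤ K ^ m * ∏ j, Real.exp (PR (min (N i) (N j))) := by
      rw [hKm, ← Finset.prod_mul_distrib]
      refine Finset.prod_le_prod (fun j _ => (hlm i j).le) fun j _ => ?_
      have h1 := (hK (min (N i) (N j)) (hmin i j) 1 hA2).2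
      rwa [one_mul, Real.rpow_one] at h1
    have w5 : 0 ≤ ∏ j, Real.log (min (N i) (N j) : ℕ) := Finset.prod_nonneg fun j _ => (hlm i j).le
    have w6 : 0 ≤ ∏ j, Real.exp (PR (min (N i) (N j))) := Finset.prod_nonneg fun j _ => (Real.exp_pos _).le
    have hl := hlN i
    rw [Real.exp_add, Real.exp_sum]
    constructor
    · calc Real.exp (2 * s * PR (N i)) * ∏ j, Real.exp (PR (min (N i) (N j))) ≤
          (K * Real.log (N i) ^ (2 * s)) * (K ^ m * ∏ j, Real.log (min (N i) (N j) : ℕ)) :=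
            mul_le_mul w1 w3 w6 (by positivity)
        _ = _ := by ring
    · calc Real.log (N i) ^ (2 * s) * ∏ j, Real.log (min (N i) (N j) : ℕ) ≤
          (K * Real.exp (2 * s * PR (N i))) * (K ^ m * ∏ j, Real.exp (PR (min (N i) (N j)))) :=
            mul_le_mul w2 w4 w5 (by positivity)
        _ = _ := by ring
  have hKK : (K * K ^ m) ^ m = ∏ _i : Fin m, (K * K ^ m) := by rw [Finset.prod_const, Finset.card_univ, Fintype.card_fin]
  have hO0 : ∀ i, 0 ≤ Real.log (N i) ^ (2 * s) * ∏ j, Real.log (min (N i) (N j) : ℕ) := fun i =>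
    mul_nonneg (Real.rpow_nonneg (hlN i).le _) (Finset.prod_nonneg fun j _ => (hlm i j).le)
  have x1 : ∏ i, Real.exp (2 * s * PR (N i) + ∑ j, PR (min (N i) (N j))) ≤
      (K * K ^ m) ^ m * ∏ i, (Real.log (N i) ^ (2 * s) * ∏ j, Real.log (min (N i) (N j) : ℕ)) := by
    rw [hKK, ← Finset.prod_mul_distrib]
    exact Finset.prod_le_prod (fun i _ => (Real.exp_pos _).le) fun i _ => (hprod i).1
  have x2 : ∏ i, (Real.log (N i) ^ (2 * s) * ∏ j, Real.log (min (N i) (N j) : ℕ)) ≤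
      (K * K ^ m) ^ m * ∏ i, Real.exp (2 * s * PR (N i) + ∑ j, PR (min (N i) (N j))) := by
    rw [hKK, ← Finset.prod_mul_distrib]
    exact Finset.prod_le_prod (fun i _ => hO0 i) fun i _ => (hprod i).2
  have x3 : 0 ≤ ∏ i, (Real.log (N i) ^ (2 * s) * ∏ j, Real.log (min (N i) (N j) : ℕ)) := Finset.prod_nonneg fun i _ => hO0 i
  have x4 : 0 ≤ ∏ i, Real.exp (2 * s * PR (N i) + ∑ j, PR (min (N i) (N j))) := Finset.prod_nonneg fun i _ => (Real.exp_pos _).le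
  unfold ordN
  constructor
  · calc Real.exp (s ^ 2 * PR Y) * ∏ i, Real.exp (2 * s * PR (N i) + ∑ j, PR (min (N i) (N j))) ≤
        (K * (b ^ (A ^ 2) * Real.log T ^ (s ^ 2))) *
          ((K * K ^ m) ^ m * ∏ i, (Real.log (N i) ^ (2 * s) * ∏ j, Real.log (min (N i) (N j) : ℕ))) := by
          apply mul_le_mul _ x1 x4 (by positivity)
          exact u1.trans (mul_le_mul_of_nonneg_left v1 hK0.le)
      _ = _ := by ring
  · calc Real.log T ^ (s ^ 2) * ∏ i, (Real.log (N i) ^ (2 * s) * ∏ j, Real.log (min (N i) (N j) : ℕ)) ≤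
        (b ^ (A ^ 2) * (K * Real.exp (s ^ 2 * PR Y))) *
          ((K * K ^ m) ^ m * ∏ i, Real.exp (2 * s * PR (N i) + ∑ j, PR (min (N i) (N j)))) := by
          apply mul_le_mul _ x2 x3 (by positivity)
          exact v2.trans (mul_le_mul_of_nonneg_left u2 (by positivity))
      _ = _ := by ring

end

end Pool.Agent.H469.F4
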