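import Pool.Agent.H469.F4.NP8

set_option autoImplicit false

/-!
# Mixed moments of zeta and of products of partial sums
-/

namespace Pool.Agent.H469.F4

open Filter Topology MeasureTheory Complex Pool.Agent.Q97.UM Pool.Agent.Q14.UM

noncomputable section

theorem PR_root {q : ℕ} (hq : 1 ≤ q) : ∃ C' : ℝ, 0 ≤ C' ∧ ∀ N : ℕ, 2 ≤ N → ∃ N' : ℕ, 1 ≤ N' ∧ N' ≤ N ∧ PR N ≤ PR N' + C' ∧
    ∀ n, n ≤ N' → n ^ q ≤ N := by
  obtain ⟨C2, hC2, hP⟩ := PR_log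
  have hq0 : (0 : ℝ) < q := by exact_mod_cast hq
  have hlq : 0 ≤ Real.log (2 * q) := Real.log_nonneg (by
    have : (1 : ℝ) ≤ q := by exact_mod_cast hq
    linarith)
  refine ⟨max (PR (2 ^ q)) (Real.log (2 * q) + 2 * C2), le_max_of_le_right (by linarith), fun N hN => ?_⟩
  have hN0 : (0 : ℝ) < N := by exact_mod_cast (by omega : 0 < N)
  have hN1 : (1 : ℝ) ≤ N := by exact_mod_cast (by omega : 1 ≤ N)
  obtain ⟨N', hN'⟩ : ∃ N' : ℕ, N' = ⌊(N : ℝ) ^ (1 / (q : ℝ))⌋₊ := ⟨_, rfl⟩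
  have h1 : 1 ≤ N' := by
    rw [hN']
    apply Nat.le_floor
    push_cast
    exact Real.one_le_rpow hN1 (by positivity)
  have hpow : ((N : ℝ) ^ (1 / (q : ℝ))) ^ q = N := by
    rw [← Real.rpow_natCast, ← Real.rpow_mul hN0.le, one_div_mul_cancel hq0.ne', Real.rpow_one]
  have h2 : ∀ n, n ≤ N' → n ^ q ≤ N := by
    intro n hn
    have h3 : (n : ℝ) ≤ (N : ℝ) ^ (1 / (q : ℝ)) := by
      have h4 : (N' : ℝ) ≤ (N : ℝ) ^ (1 / (q : ℝ)) := by rw [hN']; exact Nat.floor_le (by positivity)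
      have h5 : (n : ℝ) ≤ N' := by exact_mod_cast hn
      linarith
    have h4 := pow_le_pow_left₀ (Nat.cast_nonneg n) h3 q
    rw [hpow] at h4
    exact_mod_cast h4
  have h3 : N' ≤ N := (Nat.le_self_pow (by omega) N').trans (h2 N' le_rfl)
  refine ⟨N', h1, h3, ?_, h2⟩
  have hlt : (N : ℝ) ^ (1 / (q : ℝ)) < N' + 1 := by rw [hN']; exact Nat.lt_floor_add_one _
  rcases Nat.lt_or_ge N' 2 with h4 | h4
  · have h5 : N' = 1 := by omega
    have h6 : (N : ℝ) ≤ 2 ^ q := by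
      rw [← hpow]
      apply pow_le_pow_left₀ (by positivity)
      rw [h5] at hlt
      push_cast at hlt
      linarith
    have h7 : N ≤ 2 ^ q := by exact_mod_cast h6
    have h8 := PR_mono h7
    have h9 := PR_nonneg N'
    have h10 := le_max_left (PR (2 ^ q)) (Real.log (2 * q) + 2 * C2)
    linarith
  · have hN'1 : (1 : ℝ) < N' := by exact_mod_cast (by omega : 1 < N')
    have hlN' : 0 < Real.log N' := Real.log_pos hN'1
    have hlN : 0 < Real.log N := Real.log_pos (by exact_mod_cast (by omega : 1 < N))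
    have h5 : (N : ℝ) ^ (1 / (q : ℝ)) ≤ (N' : ℝ) ^ 2 := by
      have : (2 : ℝ) ≤ N' := by exact_mod_cast h4
      nlinarith
    have h6 := Real.log_le_log (by positivity) h5
    rw [Real.log_rpow hN0, Real.log_pow, one_div, inv_mul_eq_div, div_le_iff₀ hq0] at h6
    push_cast at h6
    have h7 : Real.log (Real.log N) ≤ Real.log (2 * q) + Real.log (Real.log N') := by
      rw [← Real.log_mul (by positivity) hlN'.ne']
      apply Real.log_le_log hlN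
      linarith
    have h8 := hP N hN
    have h9 := hP N' h4
    rw [abs_le] at h8 h9
    have h10 := le_max_right (PR (2 ^ q)) (Real.log (2 * q) + 2 * C2)
    linarith [h8.2, h9.1]

/-- the sequence cut off at `N` -/
def cutS (N : ℕ) (r : ℕ → ℝ) (n : ℕ) : ℝ := if 1 ≤ n ∧ n ≤ N then r n else 0

/-- the polynomial -/
def secP (N : ℕ) (r : ℕ → ℝ) (t : ℝ) : ℂ := ∑ n ∈ Finset.Icc 1 N, (r n : ℂ) * (n : ℂ) ^ (-(1 / 2 + t * I))

theorem dp_cutS (N : ℕ) (r : ℕ → ℝ) (t : ℝ) : dp N (fun n => (cutS N r n : ℂ)) t = secP N r t := by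
  unfold dp secP
  refine Finset.sum_congr rfl fun n hn => ?_
  show (cutS N r n : ℂ) * _ = _
  unfold cutS
  rw [if_pos (Finset.mem_Icc.1 hn)]

/-- the mean value of `|ζ|^(2s) ∏ |D_i|²` over `[T, 2T]` -/
def mixM {m : ℕ} (s : ℝ) (N : Fin m → ℕ) (r : Fin m → ℕ → ℝ) (T : ℝ) : ℝ :=
  (1 / T) * ∫ t in T..(2 * T), ‖riemannZeta (1 / 2 + t * I)‖ ^ (2 * s) * ∏ i, ‖secP (N i) (r i) t‖ ^ 2

/-- coefficients of the product -/
def bR {m : ℕ} (N : Fin m → ℕ) (r : Fin m → ℕ → ℝ) (n : ℕ) : ℂ := bA (fun i n => (cutS (N i) (r i) n : ℂ)) n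

theorem cutS_supp {m : ℕ} (N : Fin m → ℕ) (r : Fin m → ℕ → ℝ) : ∀ i n, (fun i n => (cutS (N i) (r i) n : ℂ)) i n ≠ 0 → 1 ≤ n ∧ n ≤ N i := by
  intro i n hn
  by_contra h
  apply hn
  show (cutS (N i) (r i) n : ℂ) = 0
  unfold cutS
  rw [if_neg h]
  simp

theorem dp_bR {m : ℕ} (N : Fin m → ℕ) (r : Fin m → ℕ → ℝ) (t : ℝ) :
    ‖dp (∏ i, N i) (bR N r) t‖ ^ 2 = ∏ i, ‖secP (N i) (r i) t‖ ^ 2 := by
  have h1 : dp (∏ i, N i) (bR N r) t = ∏ i, dp (N i) (fun n => (cutS (N i) (r i) n : ℂ)) t := dp_bA (cutS_supp N r) t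
  rw [h1, norm_prod, ← Finset.prod_pow]
  refine Finset.prod_congr rfl fun i _ => ?_
  rw [dp_cutS]

theorem mixM_eq {m : ℕ} (s : ℝ) (N : Fin m → ℕ) (r : Fin m → ℕ → ℝ) (T : ℝ) :
    mixM s N r T = (1 / T) * ∫ t in T..(2 * T), ‖zt t‖ ^ (2 * s) * ‖dp (∏ i, N i) (bR N r) t‖ ^ 2 := by
  unfold mixM
  congr 1
  apply intervalIntegral.integral_congr
  intro t _
  show ‖riemannZeta (1 / 2 + t * I)‖ ^ (2 * s) * ∏ i, ‖secP (N i) (r i) t‖ ^ 2 = ‖zt t‖ ^ (2 * s) * ‖dp (∏ i, N i) (bR N r) t‖ ^ 2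
  rw [dp_bR]
  rfl

theorem prod_len {m : ℕ} {N : Fin m → ℕ} {T θ : ℝ} (hT : 1 ≤ T) (hθ : 0 ≤ θ) (hN : ∀ i, (N i : ℝ) ≤ T ^ (θ / (m + 1))) :
    ((∏ i, N i : ℕ) : ℝ) ≤ T ^ θ := by
  have hT0 : 0 < T := by linarith
  push_cast
  have h1 : ∏ i, (N i : ℝ) ≤ ∏ _i : Fin m, T ^ (θ / (m + 1)) := Finset.prod_le_prod (fun i _ => Nat.cast_nonneg _) fun i _ => hN i
  refine h1.trans ?_
  rw [Finset.prod_const, Finset.card_univ, Fintype.card_fin, ← Real.rpow_natCast, ← Real.rpow_mul hT0.le]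
  apply Real.rpow_le_rpow_of_exponent_le hT
  have hm : (0 : ℝ) ≤ m := Nat.cast_nonneg m
  rw [div_mul_eq_mul_div, div_le_iff₀ (by positivity)]
  nlinarith

/-- **upper bound** -/
theorem mix_upper (m : ℕ) {B : ℝ} (hB : 1 ≤ B) : ∃ θ C : ℝ, 0 < θ ∧ 0 < C ∧ ∀ᶠ T : ℝ in atTop, ∀ N : Fin m → ℕ,
    (∀ i, 2 ≤ N i ∧ (N i : ℝ) ≤ T ^ θ) → ∀ r : Fin m → ℕ → ℝ, (∀ i n, 0 ≤ r i n ∧ r i n ≤ B) → ∀ s : ℝ, 0 ≤ s → s ≤ 2 →
      mixM s N r T ≤ C * ordN s N T := by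
  obtain ⟨κ, δ₀, hκ, hδ₀, h⟩ := ord4 1
  obtain ⟨hδ1, h26, θ, c₁, C₁, hθ, hθ8, hc, hC, hev⟩ := h δ₀ hδ₀ le_rfl
  obtain ⟨K, hK1, hO⟩ := order_exp (A := 2) (by norm_num) hδ₀ m
  obtain ⟨W, hW⟩ : ∃ W : ℝ, W = (B ^ m) ^ 2 * Real.exp (8 * (Real.exp (2 * 2) * 4 ^ m) ^ 2) := ⟨_, rfl⟩
  have hW0 : 0 ≤ W := by rw [hW]; positivity
  have hm1 : (0 : ℝ) < (m : ℝ) + 1 := by positivity
  refine ⟨min δ₀ (θ / (m + 1)), C₁ * W * K + 1, by positivity, by positivity, ?_⟩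
  have hlogev : ∀ᶠ T : ℝ in atTop, 1 ≤ δ₀ * Real.log T := by
    filter_upwards [Real.tendsto_log_atTop.eventually_ge_atTop (1 / δ₀)] with T hT
    rw [div_le_iff₀ hδ₀] at hT
    linarith
  filter_upwards [hev, hO, hlogev, eventually_ge_atTop (16 : ℝ), Real.tendsto_log_atTop.eventually_gt_atTop 0] with T g1 g2 g3 hT16 hL
  intro N hN r hr s hs0 hs2
  have hT0 : 0 < T := by linarith
  have hT1 : 1 ≤ T := by linarith
  have hexp : Real.exp (δ₀ * Real.log T) = T ^ δ₀ := by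
    rw [Real.rpow_def_of_pos hT0, mul_comm]
  have hNY : ∀ i, N i ≤ ⌊Real.exp (δ₀ * Real.log T)⌋₊ := by
    intro i
    apply Nat.le_floor
    rw [hexp]
    exact (hN i).2.trans (Real.rpow_le_rpow_of_exponent_le hT1 (min_le_left _ _))
  have hlen : ((∏ i, N i : ℕ) : ℝ) ≤ T ^ θ :=
    prod_len hT1 hθ.le fun i => (hN i).2.trans (Real.rpow_le_rpow_of_exponent_le hT1 (min_le_right _ _))
  obtain ⟨i1, i2, -, -, i3⟩ := g1 (fun _ : Fin 1 => s) (fun _ => 0) (fun _ => hs0) (by rw [Fin.sum_univ_one]; exact hs2)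
    (fun _ => by rw [abs_zero]; linarith)
  have hbs : ∀ n, bR N r n ≠ 0 → 1 ≤ n ∧ n ≤ ∏ i, N i := bA_supp (cutS_supp N r)
  obtain ⟨-, j2⟩ := i3 (∏ i, N i) hlen (bR N r) hbs
  have hap : ap (fun _ : Fin 1 => s) (fun _ => 0) = aS s := by
    funext p
    unfold ap aS
    simp
  have hap2 : ap (fun _ : Fin 1 => s) (fun _ => 2 * 0) = aS s := by
    rw [← hap]
    simp
  have heo : eo δ₀ κ T (fun _ : Fin 1 => s) (fun _ => 0) =
      ebk (δ₀ * Real.log T) κ (aS s) (aS s) 0 (JB (δ₀ * Real.log T)) := by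
    unfold eo
    rw [hap2, hap]
  have hzpr : ∀ t, zpr (fun _ : Fin 1 => s) (fun _ => 0) t = ‖zt t‖ ^ (2 * s) := fun t => by
    unfold zpr
    rw [Fin.prod_univ_one, add_zero]
  rw [heo] at j2
  simp only [hzpr] at j2
  have hsabs : |s| ≤ 2 := by rw [abs_of_nonneg hs0]; exact hs2
  have hU := upper_N2 (A := 2) (B := B) (by linarith) (m := m) (D := δ₀ * Real.log T) (κ := κ) g3 (a := aS s) (a2 := aS s)
    (fun n => aS_norm hsabs n) (fun n => aS_norm hsabs n) hNY (cutS_supp N r) (fun i n => by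
      show ‖(cutS (N i) (r i) n : ℂ)‖ ≤ B
      unfold cutS
      rw [Complex.norm_real, Real.norm_eq_abs]
      split_ifs
      · rw [abs_of_nonneg (hr i n).1]
        exact (hr i n).2
      · rw [abs_zero]
        linarith) (eM δ₀ κ T * ∏ i, N i)
  rw [← hW] at hU
  have hsum : ∑ p ∈ (Finset.Icc 1 ⌊Real.exp (δ₀ * Real.log T)⌋₊).filter Nat.Prime, (‖aS s p‖ + mc N p) ^ 2 / (p : ℝ) =
      ∑ p ∈ (Finset.Icc 1 ⌊Real.exp (δ₀ * Real.log T)⌋₊).filter Nat.Prime, (s + mc N p) ^ 2 / (p : ℝ) := by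
    refine Finset.sum_congr rfl fun p _ => ?_
    unfold aS
    rw [Complex.norm_real, Real.norm_eq_abs, abs_of_nonneg hs0]
  rw [hsum] at hU
  obtain ⟨o1, -⟩ := g2 s hs0 hs2 N (fun i => ⟨(hN i).1, hNY i⟩)
  rw [mixM_eq]
  have hOnn : 0 ≤ K * ordN s N T := (Real.exp_pos _).le.trans o1
  have hK0 : 0 < K := by linarith
  have hO0 : 0 ≤ ordN s N T := by
    by_contra hcon
    push Not at hcon
    nlinarith
  rw [one_div_mul_eq_div, div_le_iff₀ hT0]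
  refine j2.trans ?_
  have hU' : N2 (eM δ₀ κ T * ∏ i, N i) (cv (ebk (δ₀ * Real.log T) κ (aS s) (aS s) 0 (JB (δ₀ * Real.log T))) (bR N r)) ≤
      W * (K * ordN s N T) := hU.trans (mul_le_mul_of_nonneg_left o1 hW0)
  calc C₁ * T * N2 (eM δ₀ κ T * ∏ i, N i) (cv (ebk (δ₀ * Real.log T) κ (aS s) (aS s) 0 (JB (δ₀ * Real.log T))) (bR N r)) ≤
      C₁ * T * (W * (K * ordN s N T)) := mul_le_mul_of_nonneg_left hU' (by positivity)
    _ = (C₁ * W * K) * ordN s N T * T := by ring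
    _ ≤ (C₁ * W * K + 1) * ordN s N T * T := by
        apply mul_le_mul_of_nonneg_right _ hT0.le
        exact mul_le_mul_of_nonneg_right (by linarith) hO0

/-- **lower bound** -/
theorem mix_lower (m q : ℕ) {A B : ℝ} (hA : 1 ≤ A) (hB : 1 ≤ B) (hq : 1 ≤ q) : ∃ θ c : ℝ, 0 < θ ∧ 0 < c ∧ ∀ᶠ T : ℝ in atTop,
    ∀ N : Fin m → ℕ, (∀ i, 2 ≤ N i ∧ (N i : ℝ) ≤ T ^ θ) → ∀ r : Fin m → ℕ → ℝ, (∀ i n, 0 ≤ r i n) →
      (∀ i n, 1 ≤ n → n ^ q ≤ N i → 1 / B ≤ r i n) → ∀ s : ℝ, 0 ≤ s → s ≤ A → c * ordN s N T ≤ mixM s N r T := by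
  obtain ⟨κ, δ, θ, c₁, hκ, hδ, hθ, hc₁, hev⟩ := low_all hA
  obtain ⟨C', hC', hroot⟩ := PR_root hq
  obtain ⟨c₂, D₀, hc₂, hD₀, hlow⟩ := lower_N2 hA (β := 1 / B) (by positivity) hC' m
  obtain ⟨K, hK1, hO⟩ := order_exp hA hδ m
  have hK0 : 0 < K := by linarith
  have hm1 : (0 : ℝ) < (m : ℝ) + 1 := by positivity
  refine ⟨min δ (θ / (m + 1)), c₁ * (c₂ / K), by positivity, by positivity, ?_⟩
  have hlogev : ∀ᶠ T : ℝ in atTop, D₀ ≤ δ * Real.log T := by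
    filter_upwards [Real.tendsto_log_atTop.eventually_ge_atTop (D₀ / δ)] with T hT
    rw [div_le_iff₀ hδ] at hT
    linarith
  filter_upwards [hev, hO, hlogev, eventually_ge_atTop (16 : ℝ), Real.tendsto_log_atTop.eventually_gt_atTop 0] with T g1 g2 g3 hT16 hL
  intro N hN r hr hrB s hs0 hsA
  have hT0 : 0 < T := by linarith
  have hT1 : 1 ≤ T := by linarith
  have hexp : Real.exp (δ * Real.log T) = T ^ δ := by
    rw [Real.rpow_def_of_pos hT0, mul_comm]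
  have hNY : ∀ i, N i ≤ ⌊Real.exp (δ * Real.log T)⌋₊ := by
    intro i
    apply Nat.le_floor
    rw [hexp]
    exact (hN i).2.trans (Real.rpow_le_rpow_of_exponent_le hT1 (min_le_left _ _))
  have hlen : ((∏ i, N i : ℕ) : ℝ) ≤ T ^ θ :=
    prod_len hT1 hθ.le fun i => (hN i).2.trans (Real.rpow_le_rpow_of_exponent_le hT1 (min_le_right _ _))
  choose N' hN'1 hN'2 hN'3 hN'4 using fun i => hroot (N i) (hN i).1
  have h1 := hlow (δ * Real.log T) κ g3 hκ s hs0 hsA N N' (fun i => ⟨hN'1 i, hN'2 i, hNY i, hN'3 i⟩)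
    (fun i n => cutS (N i) (r i) n) (fun i n => by
      show 0 ≤ cutS (N i) (r i) n
      unfold cutS
      split_ifs
      · exact hr i n
      · exact le_rfl)
    (fun i n hn => by
      by_contra h
      apply hn
      show cutS (N i) (r i) n = 0
      unfold cutS
      rw [if_neg h])
    (fun i n hn1 hn2 => by
      show 1 / B ≤ cutS (N i) (r i) n
      unfold cutS
      rw [if_pos ⟨hn1, hn2.trans (hN'2 i)⟩]
      exact hrB i n hn1 (hN'4 i n hn2))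
  have hbs : ∀ n, bR N r n ≠ 0 → 1 ≤ n ∧ n ≤ ∏ i, N i := bA_supp (cutS_supp N r)
  have h2 := (g1 s hs0 hsA).2 (∏ i, N i) hlen (bR N r) hbs
  obtain ⟨-, o2⟩ := g2 s hs0 hsA N (fun i => ⟨(hN i).1, hNY i⟩)
  rw [mixM_eq, one_div_mul_eq_div, le_div_iff₀ hT0]
  refine le_trans ?_ h2
  obtain ⟨E, hE⟩ : ∃ E : ℝ, E = Real.exp (∑ p ∈ (Finset.Icc 1 ⌊Real.exp (δ * Real.log T)⌋₊).filter Nat.Prime, (s + mc N p) ^ 2 / p) := ⟨_, rfl⟩
  rw [← hE] at h1 o2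
  have h1' : c₂ * E ≤ N2 (M9 (δ * Real.log T) κ * ∏ i, N i)
      (cv (ebk (δ * Real.log T) κ (aS s) (aS s) 0 (JB (δ * Real.log T))) (bR N r)) := h1
  calc c₁ * (c₂ / K) * ordN s N T * T = c₁ * T * (c₂ * (ordN s N T / K)) := by ring
    _ ≤ c₁ * T * (c₂ * E) := by
        apply mul_le_mul_of_nonneg_left _ (by positivity)
        apply mul_le_mul_of_nonneg_left _ hc₂.le
        rw [div_le_iff₀ hK0]
        linarith
    _ ≤ _ := mul_le_mul_of_nonneg_left h1' (by positivity)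

end

end Pool.Agent.H469.F4
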