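import Pool.Agent.H469.F4.M14

set_option autoImplicit false

/-!
# MP_f9aece_nt. The total mass of `|μ_T(x)|^γ` on an interval: moments of real order

Let `μ_T(x) = ζ(1/2 + ix + iωT)`, `ω` uniform on `[0, 1]`, and let `X = ∫_a^b |μ_T(x)|^γ dx` be the total mass of
the measure `|μ_T(x)|^γ dx` on a fixed interval. For all real `γ > 0` and `0 < q ≤ 2`, unconditionally:

* before the transition, `γ < 2` and `q γ² < 4`, the moment `E X^q` has the exact order `(log T)^(q γ² / 4)`, that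
  of `(E X)^q`; so for every `γ < 2` the normalised masses `X / E X` are bounded in `L^q` for some `q > 1`, and
  bounded away from zero in `L^q` for every `q < 1`;
* beyond it, `γ q > 2`, `q γ² > 4` and `γ q ≤ 4`, the moment has the exact order `(log T)^((γ q)² / 4 - q + 1)`.

The case `q = 2` of the upper bounds, `γ ≤ 2`, is known (Curran), as is the case `q = 1` up to constants.

Proof. For `1 < q ≤ 2` and `γ ≤ 2` one has to bound the mean of `|ζ(1/2 + iτ)|^γ Y^(q-1)`, where `Y` is the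
`γ`-th moment over a ring `e^(r-1)/log T ≤ |w| ≤ e^r/log T` about `τ`. The square of a Dirichlet polynomial
approximating `|ζ|^(γ(q-1))` with the primes up to `exp(e^(-r) log T)` is inserted on one side and its inverse
on the other, Hölder's inequality is applied, and the two resulting mean values of total order at most four are
computed by the theorem on the products of shifted values of total order at most four times Dirichlet
polynomials (MP_fa2474_nt). The other cases follow from moments of local maxima and convexity.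
-/

open Filter Topology MeasureTheory

namespace Pool.Agent.Results.MP_f9aece_nt.MassMomentsOfRealOrder

/-- The total mass `∫_a^b |ζ(1/2 + ix + it)|^γ dx`. -/
noncomputable def mass (γ a b t : ℝ) : ℝ :=
  ∫ x in a..b, ‖riemannZeta (1 / 2 + Complex.I * x + Complex.I * t)‖ ^ γ

/-- `(1/T) ∫_0^T (∫_a^b |ζ(1/2 + ix + it)|^γ dx)^q dt = E (∫_a^b |μ_T(x)|^γ dx)^q`. -/
noncomputable def massMoment (γ q a b T : ℝ) : ℝ := (1 / T) * ∫ t in (0 : ℝ)..T, mass γ a b t ^ q

lemma mass_eq (γ a b t : ℝ) : mass γ a b t = Pool.Agent.H469.F4.Yg γ a b t := by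
  unfold mass Pool.Agent.H469.F4.Yg
  refine intervalIntegral.integral_congr fun x _ => ?_
  show ‖riemannZeta (1 / 2 + Complex.I * x + Complex.I * t)‖ ^ γ = ‖riemannZeta (1 / 2 + ((t + x : ℝ) : ℂ) * Complex.I)‖ ^ γ
  congr 3
  push_cast
  ring

lemma massMoment_eq (γ q a b T : ℝ) :
    massMoment γ q a b T = (1 / T) * ∫ t in (0 : ℝ)..T, Pool.Agent.H469.F4.Yg γ a b t ^ q := by
  unfold massMoment
  congr 1
  exact intervalIntegral.integral_congr fun t _ => by simp only [mass_eq]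

theorem result (γ q a b : ℝ) (hγ : 0 < γ) (hq : 0 < q) (hq2 : q ≤ 2) (hab : a < b) :
    (γ < 2 → q * γ ^ 2 < 4 → ∃ c C : ℝ, 0 < c ∧ 0 < C ∧ ∀ᶠ T : ℝ in atTop,
      c * Real.log T ^ (q * γ ^ 2 / 4) ≤ massMoment γ q a b T ∧
      massMoment γ q a b T ≤ C * Real.log T ^ (q * γ ^ 2 / 4)) ∧
    (2 < γ * q → γ * q ≤ 4 → 4 < q * γ ^ 2 → ∃ c C : ℝ, 0 < c ∧ 0 < C ∧ ∀ᶠ T : ℝ in atTop,
      c * Real.log T ^ ((γ * q) ^ 2 / 4 - q + 1) ≤ massMoment γ q a b T ∧
      massMoment γ q a b T ≤ C * Real.log T ^ ((γ * q) ^ 2 / 4 - q + 1)) := by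
  have hc := Pool.Agent.H469.F4.Yg_pow_cont hγ hq a b
  have h0 : ∀ t, 0 ≤ Pool.Agent.H469.F4.Yg γ a b t ^ q := fun t =>
    Real.rpow_nonneg (Pool.Agent.H469.F4.Yg_nonneg γ hab.le t) _
  simp only [massMoment_eq]
  constructor
  · intro hγ2 hcr
    have he : 0 ≤ q * γ ^ 2 / 4 := by positivity
    have hβ : γ * q ≤ 4 := by nlinarith
    obtain ⟨c, hc0, h1⟩ := Pool.Agent.H469.F4.dy_low hc h0 he
      (Pool.Agent.H469.F4.gen_low hγ hq hβ he (Pool.Agent.H469.F4.lowA hγ hγ2 hq) hab)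
    obtain ⟨C, hC0, h2⟩ := Pool.Agent.H469.F4.dy_up hc h0 he
      (Pool.Agent.H469.F4.gen_up hγ hq (Pool.Agent.H469.F4.upA hγ hγ2 hq hq2 hcr) hab)
    exact ⟨c, C, hc0, hC0, h1.and h2⟩
  · intro hβ2 hβ4 hcr
    have he : 0 ≤ (γ * q) ^ 2 / 4 - q + 1 := by nlinarith
    obtain ⟨c, hc0, h1⟩ := Pool.Agent.H469.F4.dy_low hc h0 he
      (Pool.Agent.H469.F4.gen_low hγ hq hβ4 he (Pool.Agent.H469.F4.lowB hγ hq hβ2 hβ4) hab)
    obtain ⟨C, hC0, h2⟩ := Pool.Agent.H469.F4.dy_up hc h0 he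
      (Pool.Agent.H469.F4.gen_up hγ hq (Pool.Agent.H469.F4.upB hγ hq hq2 hβ2 hβ4 hcr) hab)
    exact ⟨c, C, hc0, hC0, h1.and h2⟩

end Pool.Agent.Results.MP_f9aece_nt.MassMomentsOfRealOrder
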