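import Pool.Agent.H469.F4.N5
import Pool.Graph.R_seed8.H307R2.LU

set_option autoImplicit false

/-!
# Sums over primes for distant points
-/

namespace Pool.Agent.H469.F4

open Filter Topology MeasureTheory Complex Pool.Agent.Q97.UM
open Pool.Agent.Q14.UM (mem_PB PB_disj cv_len)

noncomputable section

/-- zeta on and to the right of the line `1` -/
theorem zeta_one_le {σ v : ℝ} (hσ0 : 0 ≤ σ) (hσ1 : σ ≤ 1) (hv : 1 ≤ |v|) :
    ‖riemannZeta (1 + σ + v * I)‖ ≤ 5 + Real.log (|v| + 1) := by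
  obtain ⟨s, hs⟩ : ∃ s : ℂ, s = 1 + σ + v * I := ⟨_, rfl⟩
  have hre : s.re = 1 + σ := by rw [hs]; simp
  have him : s.im = v := by rw [hs]; simp
  rw [← hs]
  have hs1 : s ≠ 1 := by
    intro h
    rw [h] at him
    simp at him
    rw [← him, abs_zero] at hv
    linarith
  obtain ⟨N, hN⟩ : ∃ N : ℕ, N = ⌊|v|⌋₊ := ⟨_, rfl⟩
  have hN1 : 1 ≤ N := by rw [hN]; exact Nat.one_le_floor_iff _ |>.2 hv
  have hN1' : (1 : ℝ) ≤ N := by exact_mod_cast hN1
  have hNv : (N : ℝ) ≤ |v| := by rw [hN]; exact Nat.floor_le (abs_nonneg _)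
  have hNv2 : |v| < N + 1 := by rw [hN]; exact Nat.lt_floor_add_one _
  rw [Pool.Agent.H307R2.zeta_eq hN1 (by rw [hre]; linarith) hs1]
  have h1 : ‖∑ n ∈ Finset.Icc 1 N, (n : ℂ) ^ (-s)‖ ≤ 1 + Real.log N := by
    refine (norm_sum_le _ _).trans ?_
    have h2 : ∀ n ∈ Finset.Icc 1 N, ‖(n : ℂ) ^ (-s)‖ ≤ ((n : ℝ))⁻¹ := by
      intro n hn
      have hn1 : 1 ≤ n := (Finset.mem_Icc.1 hn).1
      have hn1' : (1 : ℝ) ≤ n := by exact_mod_cast hn1
      rw [Complex.norm_natCast_cpow_of_pos hn1, Complex.neg_re, hre, Real.rpow_neg (by linarith)]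
      apply inv_anti₀ (by linarith)
      calc (n : ℝ) = (n : ℝ) ^ (1 : ℝ) := (Real.rpow_one _).symm
        _ ≤ (n : ℝ) ^ (1 + σ) := Real.rpow_le_rpow_of_exponent_le hn1' (by linarith)
    refine (Finset.sum_le_sum h2).trans ?_
    have h3 := harmonic_le_one_add_log N
    rw [harmonic_eq_sum_Icc] at h3
    push_cast at h3
    exact h3
  have h2 : ‖(N : ℂ) ^ (1 - s) / (s - 1)‖ ≤ 1 := by
    rw [norm_div, Complex.norm_natCast_cpow_of_pos hN1, Complex.sub_re, Complex.one_re, hre]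
    have h3 : (N : ℝ) ^ (1 - (1 + σ)) ≤ 1 := Real.rpow_le_one_of_one_le_of_nonpos hN1' (by linarith)
    have h4 : 1 ≤ ‖s - 1‖ := by
      have h5 := Complex.abs_im_le_norm (s - 1)
      rw [Complex.sub_im, Complex.one_im, sub_zero, him] at h5
      linarith
    rw [div_le_one (by linarith)]
    linarith
  have h3 : ‖s * Pool.Agent.H307R2.TM N Pool.Agent.H307R2.Ez s‖ ≤ 3 := by
    rw [norm_mul]
    have h4 := Pool.Agent.H307R2.TM_norm_le hN1 Pool.Agent.H307R2.Ez_norm_le (s := s) (by rw [hre]; linarith)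
    rw [hre, one_mul] at h4
    have h5 : (N : ℝ) ^ (-(1 + σ)) / (1 + σ) ≤ 1 / N / (1 + σ) := by
      apply div_le_div_of_nonneg_right _ (by linarith)
      rw [Real.rpow_neg (by linarith), one_div]
      apply inv_anti₀ (by linarith)
      calc (N : ℝ) = (N : ℝ) ^ (1 : ℝ) := (Real.rpow_one _).symm
        _ ≤ (N : ℝ) ^ (1 + σ) := Real.rpow_le_rpow_of_exponent_le hN1' (by linarith)
    have h6 : ‖s‖ ≤ (1 + σ) + |v| := by
      have := Complex.norm_le_abs_re_add_abs_im s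
      rw [hre, him, abs_of_nonneg (by linarith : (0 : ℝ) ≤ 1 + σ)] at this
      exact this
    calc ‖s‖ * ‖Pool.Agent.H307R2.TM N Pool.Agent.H307R2.Ez s‖ ≤ ((1 + σ) + |v|) * (1 / N / (1 + σ)) :=
          mul_le_mul h6 (h4.trans h5) (norm_nonneg _) (by positivity)
      _ ≤ 3 := by
          rw [div_div, mul_one_div, div_le_iff₀ (by positivity)]
          nlinarith
  have h4 : Real.log N ≤ Real.log (|v| + 1) := Real.log_le_log (by linarith) (by linarith)
  calc _ ≤ ‖∑ n ∈ Finset.Icc 1 N, (n : ℂ) ^ (-s)‖ + ‖(N : ℂ) ^ (1 - s) / (s - 1)‖ + ‖s * Pool.Agent.H307R2.TM N Pool.Agent.H307R2.Ez s‖ := norm_add₃_le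
    _ ≤ _ := by linarith

/-- the sums over the blocks before `j` -/
def CS (E : ℝ) (j : ℕ) (v : ℝ) : ℝ := ∑ i ∈ Finset.range j, ∑ p ∈ PB E i, Real.cos (v * Real.log p) / (p : ℝ)

/-- near and distant points -/
theorem CS_le : ∃ C E₀ : ℝ, 0 ≤ C ∧ 1 ≤ E₀ ∧ ∀ (E : ℝ) (j : ℕ), E₀ ≤ E * Real.exp (-(j : ℝ)) →
    (∀ v : ℝ, |v| ≤ 1 → 1 ≤ |v| * (E * Real.exp (-(j : ℝ))) → CS E j v ≤ C) ∧
    (E * Real.exp (-(j : ℝ)) ≤ Real.exp 1 * E₀ → ∀ v : ℝ, 1 ≤ |v| → CS E j v ≤ C + Real.log (5 + Real.log (|v| + 1))) := by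
  obtain ⟨C, E₀, hC, hE₀, h1, h2⟩ := prime_sums
  obtain ⟨C₁, hC₁⟩ := Pool.Agent.Q149.UM.t_MZ 1 one_pos le_rfl
  obtain ⟨T₀, hT₀⟩ := eventually_atTop.1 hC₁
  obtain ⟨E₁, hE₁⟩ : ∃ E₁ : ℝ, E₁ = max E₀ (Real.log (max T₀ 1)) := ⟨_, rfl⟩
  have hE01 : E₀ ≤ E₁ := by rw [hE₁]; exact le_max_left _ _
  have hE11 : 1 ≤ E₁ := hE₀.trans hE01
  obtain ⟨C₂, hC₂⟩ : ∃ C₂ : ℝ, C₂ = max C₁ 0 := ⟨_, rfl⟩
  have hC₂0 : 0 ≤ C₂ := by rw [hC₂]; exact le_max_right _ _
  have base : ∀ D : ℝ, E₁ ≤ D → ∀ u : ℝ, |PS D (fun p => Real.cos (u * Real.log p) / (p : ℝ)) -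
      Real.log ‖riemannZeta (1 + 1 / (D : ℂ) + u * I)‖| ≤ C₂ := by
    intro D hD u
    have h1 : T₀ ≤ Real.exp D := by
      have h2 : Real.log (max T₀ 1) ≤ D := (le_max_right _ _).trans (hE₁ ▸ hD)
      have h3 : 0 < max T₀ 1 := lt_of_lt_of_le one_pos (le_max_right _ _)
      exact (le_max_left T₀ 1).trans ((Real.log_le_iff_le_exp h3).1 h2)
    have h2 := hT₀ (Real.exp D) h1 u
    rw [Real.log_exp, Real.rpow_one] at h2
    unfold PS
    exact h2.trans (by rw [hC₂]; exact le_max_left _ _)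
  obtain ⟨C₃, hC₃⟩ : ∃ C₃ : ℝ, C₃ = max 0 (Real.log (Real.exp 1 * E₁) + C) := ⟨_, rfl⟩
  have hC₃0 : 0 ≤ C₃ := by rw [hC₃]; exact le_max_left _ _
  refine ⟨C + (C₂ + C₃), E₁, by positivity, hE11, fun E j hE => ?_⟩
  obtain ⟨F, hF⟩ : ∃ F : ℝ, F = E * Real.exp (-(j : ℝ)) := ⟨_, rfl⟩
  have hEj : 0 < Real.exp (-(j : ℝ)) := Real.exp_pos _
  have hE0 : 0 < E := by
    by_contra h
    have h1 : E * Real.exp (-(j : ℝ)) ≤ 0 := mul_nonpos_of_nonpos_of_nonneg (not_lt.1 h) hEj.le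
    linarith
  have hj0 : (0 : ℝ) ≤ j := Nat.cast_nonneg j
  have hFE : F ≤ E := by
    rw [hF]
    apply mul_le_of_le_one_right hE0.le
    rw [Real.exp_le_one_iff]
    linarith
  constructor
  · intro v hv hv2
    have h3 := (h2 E j (hE01.trans hE)).2 v hv (by
      refine le_trans ?_ hv2
      rw [Real.exp_le_one_iff]
      norm_num)
    unfold CS
    linarith
  · intro hE' v hv
    rw [← hF] at hE hE'
    unfold CS
    rw [PS_diff hE0 (by rw [← hF]; linarith), ← hF]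
    have h3 := base E (hE.trans hFE) v
    rw [abs_le] at h3
    have h4 : -PS F (fun p => Real.cos (v * Real.log p) / (p : ℝ)) ≤ C₃ := by
      have h5 : -PS F (fun p => Real.cos (v * Real.log p) / (p : ℝ)) ≤ PS F (fun p => 1 / (p : ℝ)) := by
        unfold PS
        rw [← Finset.sum_neg_distrib]
        refine Finset.sum_le_sum fun p _ => ?_
        rw [← neg_div]
        apply div_le_div_of_nonneg_right _ (Nat.cast_nonneg p)
        have := Real.neg_one_le_cos (v * Real.log p)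
        linarith
      have h6 := h1 F (hE01.trans hE)
      have h7 : Real.log F ≤ Real.log (Real.exp 1 * E₁) := Real.log_le_log (by linarith) hE'
      have h8 : Real.log (Real.exp 1 * E₁) + C ≤ C₃ := by rw [hC₃]; exact le_max_right _ _
      linarith
    have h5 : Real.log ‖riemannZeta (1 + 1 / (E : ℂ) + v * I)‖ ≤ Real.log (5 + Real.log (|v| + 1)) := by
      have h6 := zeta_one_le (σ := 1 / E) (v := v) (by positivity) (by rw [div_le_one hE0]; linarith) hv
      have e1 : (((1 / E : ℝ) : ℂ)) = 1 / (E : ℂ) := by push_cast; rfl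
      rw [e1] at h6
      apply Real.log_le_log _ h6
      apply norm_pos_iff.2
      apply riemannZeta_ne_zero_of_one_lt_re
      have h7 : (1 + 1 / (E : ℂ) + v * I : ℂ).re = 1 + 1 / E := by
        rw [← e1]
        simp
      rw [h7]
      have : 0 < 1 / E := by positivity
      linarith
    linarith [h3.2]

/-- the weights of one point -/
def yF (E a : ℝ) (j : ℕ) (x : ℝ) : ℕ → ℂ := fun p => ((a * (1 - cut E j p) : ℝ) : ℂ) * ua x p

theorem one_sub_cut (E : ℝ) (j p : ℕ) : 0 ≤ 1 - cut E j p ∧ 1 - cut E j p ≤ 1 := by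
  have h1 := cut_le_one E j p
  have h2 := cut_nonneg E j p
  exact ⟨by linarith, by linarith⟩

theorem norm_yF {a B : ℝ} (ha : |a| ≤ B) (E : ℝ) (j : ℕ) (x : ℝ) (n : ℕ) : ‖yF E a j x n‖ ≤ B := by
  unfold yF
  rw [norm_mul, Complex.norm_real, Real.norm_eq_abs, abs_mul]
  obtain ⟨h1, h2⟩ := one_sub_cut E j n
  rw [abs_of_nonneg h1]
  have h3 := Pool.Agent.Q184.UM.ua_norm x n
  have h4 := abs_nonneg a
  calc |a| * (1 - cut E j n) * ‖ua x n‖ ≤ (|a| * 1) * 1 := by
        apply mul_le_mul _ h3 (norm_nonneg _) (by positivity)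
        exact mul_le_mul_of_nonneg_left h2 h4
    _ ≤ B := by linarith

theorem norm_two' (A1 A2 x x' : ℝ) {p : ℕ} (hp : 0 < p) :
    ‖((A1 : ℝ) : ℂ) * ua x p + ((A2 : ℝ) : ℂ) * ua x' p‖ ^ 2 = A1 ^ 2 + A2 ^ 2 + 2 * A1 * A2 * Real.cos ((x - x') * Real.log p) := by
  have h := norm_two A1 A2 x' (x - x') hp
  have e : x' + (x - x') = x := by ring
  rw [e] at h
  rw [h]
  ring

/-- **the predicted orders, one point against another** -/
theorem VV_F : ∃ C E₀ : ℝ, 0 ≤ C ∧ 1 ≤ E₀ ∧ ∀ (E β a x : ℝ) (j : ℕ), E₀ ≤ E * Real.exp (-(j : ℝ)) → 0 ≤ β → β ≤ 4 → |a| ≤ 2 →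
    (Real.exp (-C) * Real.exp (β ^ 2 / 4 * Real.log E) ≤ VV E (aw β x) (fun _ => 0)) ∧
    (VV E (aw β x) (yF E a j x) ≤ Real.exp C * Real.exp (β ^ 2 / 4 * Real.log E + (a * β + a ^ 2) * j)) ∧
    (0 ≤ a → ∀ x' : ℝ,
      (|x - x'| ≤ 1 → 1 ≤ |x - x'| * (E * Real.exp (-(j : ℝ))) →
        VV E (aw β x) (yF E a j x') ≤ Real.exp C * Real.exp (β ^ 2 / 4 * Real.log E + a ^ 2 * j)) ∧
      (E * Real.exp (-(j : ℝ)) ≤ Real.exp 1 * E₀ → 1 ≤ |x - x'| →
        VV E (aw β x) (yF E a j x') ≤ Real.exp C * Real.exp (β ^ 2 / 4 * Real.log E + a ^ 2 * j +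
          β * a * Real.log (5 + Real.log (|x - x'| + 1))))) := by
  obtain ⟨C1, E₀, hC1, hE₀, h1⟩ := CS_le
  obtain ⟨C2, hC2, h2⟩ := PS_quad (B := 4) (by norm_num)
  refine ⟨2 * C2 + 8 * C1, E₀, by positivity, hE₀, fun E β a x j hj hβ0 hβ4 ha => ?_⟩
  have hj1 : 1 ≤ E * Real.exp (-(j : ℝ)) := hE₀.trans hj
  have hE0 : 0 < E := by
    by_contra h
    have h1 : E * Real.exp (-(j : ℝ)) ≤ 0 := mul_nonpos_of_nonpos_of_nonneg (not_lt.1 h) (Real.exp_pos _).le
    linarith
  have hE1 : 1 ≤ E := by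
    refine hj1.trans (mul_le_of_le_one_right hE0.le ?_)
    rw [Real.exp_le_one_iff]
    have : (0 : ℝ) ≤ j := Nat.cast_nonneg j
    linarith
  have ha' := abs_le.1 ha
  have hpr : ∀ p ∈ (Finset.Icc 1 ⌊Real.exp E⌋₊).filter Nat.Prime, 0 < p := fun p hp => (Finset.mem_filter.1 hp).2.pos
  refine ⟨?_, ?_, ?_⟩
  · unfold VV
    rw [← Real.exp_add]
    apply Real.exp_le_exp.2
    have e1 : PS E (fun p => ‖aw β x p + 0‖ ^ 2 / (p : ℝ)) = PS E (fun p => (β / 2 + 0 * cut E j p + 0 * cut E j p) ^ 2 / p) := by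
      unfold PS
      refine Finset.sum_congr rfl fun p hp => ?_
      have h3 := norm_two' (β / 2) 0 x x (hpr p hp)
      unfold aw
      beta_reduce
      rw [Complex.ofReal_zero, zero_mul] at h3
      rw [h3]
      ring
    have h3 := h2 E (β / 2) 0 0 j j hj1 hj1 (by rw [abs_of_nonneg (by linarith)]; linarith) (by simp) (by simp)
    rw [e1]
    rw [abs_le] at h3
    have e2 : (β / 2) ^ 2 = β ^ 2 / 4 := by ring
    rw [e2] at h3
    have h4 : 0 ≤ 8 * C1 := by positivity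
    linarith [h3.1]
  · unfold VV
    rw [← Real.exp_add]
    apply Real.exp_le_exp.2
    have e1 : PS E (fun p => ‖aw β x p + yF E a j x p‖ ^ 2 / (p : ℝ)) = PS E (fun p => ((β / 2 + a) + (-a) * cut E j p + 0 * cut E j p) ^ 2 / p) := by
      unfold PS
      refine Finset.sum_congr rfl fun p hp => ?_
      have h3 := norm_two' (β / 2) (a * (1 - cut E j p)) x x (hpr p hp)
      unfold aw yF
      beta_reduce
      rw [h3, sub_self, zero_mul, Real.cos_zero]
      ring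
    have h3 := h2 E (β / 2 + a) (-a) 0 j j hj1 hj1 (by rw [abs_le]; constructor <;> linarith) (by rw [abs_neg]; linarith) (by simp)
    rw [e1]
    rw [abs_le] at h3
    have e2 : (β / 2 + a) ^ 2 * Real.log E + (2 * (β / 2 + a) * (-a) + (-a) ^ 2) * (Real.log E - j) =
        β ^ 2 / 4 * Real.log E + (a * β + a ^ 2) * j := by ring
    have h4 : 0 ≤ 8 * C1 := by positivity
    have h5 := h3.2
    have e3 : (2 * (β / 2 + a) * 0 + 0 ^ 2 : ℝ) * (Real.log E - j) + 2 * -a * 0 * (Real.log E - ((max j j : ℕ) : ℝ)) = 0 := by ring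
    linarith
  · intro ha0 x'
    have hβa : 0 ≤ β * a := by positivity
    have hβa8 : β * a ≤ 8 := by nlinarith [ha'.2]
    -- the main formula
    have key : PS E (fun p => ‖aw β x p + yF E a j x' p‖ ^ 2 / (p : ℝ)) ≤ β ^ 2 / 4 * Real.log E + a ^ 2 * j + 2 * C2 + β * a * CS E j (x - x') := by
      obtain ⟨r, hr⟩ : ∃ r : ℝ, r = Real.sqrt (β ^ 2 / 4 + a ^ 2) := ⟨_, rfl⟩
      have e1 : PS E (fun p => ‖aw β x p + yF E a j x' p‖ ^ 2 / (p : ℝ)) =
          PS E (fun p => (β / 2 + 0 * cut E j p + 0 * cut E j p) ^ 2 / p) + PS E (fun p => (a + (-a) * cut E j p + 0 * cut E j p) ^ 2 / p) +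
            β * a * PS E (fun p => (1 - cut E j p) * (Real.cos ((x - x') * Real.log p) / p)) := by
        unfold PS
        rw [Finset.mul_sum, ← Finset.sum_add_distrib, ← Finset.sum_add_distrib]
        refine Finset.sum_congr rfl fun p hp => ?_
        have h3 := norm_two' (β / 2) (a * (1 - cut E j p)) x x' (hpr p hp)
        unfold aw yF
        beta_reduce
        rw [h3]
        ring
      have e2 : PS E (fun p => (1 - cut E j p) * (Real.cos ((x - x') * Real.log p) / p)) = CS E j (x - x') := by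
        rw [← PS_blocks hE1]
        unfold CS
        have hJ : j ≤ JB E := by
          by_contra hcon
          push Not at hcon
          -- the block `j` is not reached, so `E e^{-j}` would be small
          have h5 := JB_shift hE0 j hj1
          omega
        have h6 : ∀ i ∈ Finset.range (JB E), ∑ p ∈ PB E i, (1 - cut E j p) * (Real.cos ((x - x') * Real.log p) / (p : ℝ)) =
            if i < j then ∑ p ∈ PB E i, Real.cos ((x - x') * Real.log p) / (p : ℝ) else 0 := by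
          intro i _
          split_ifs with h
          · refine Finset.sum_congr rfl fun p hp => ?_
            rw [cut_block hE0.le hp, if_neg (by omega)]
            ring
          · refine Finset.sum_eq_zero fun p hp => ?_
            rw [cut_block hE0.le hp, if_pos (by omega)]
            ring
        rw [Finset.sum_congr rfl h6, ← Finset.sum_filter]
        refine Finset.sum_congr ?_ fun _ _ => rfl
        ext i
        rw [Finset.mem_filter, Finset.mem_range, Finset.mem_range]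
        omega
      rw [e1, e2]
      have h3 := h2 E (β / 2) 0 0 j j hj1 hj1 (by rw [abs_of_nonneg (by linarith)]; linarith) (by simp) (by simp)
      have h4 := h2 E a (-a) 0 j j hj1 hj1 (by linarith) (by rw [abs_neg]; linarith) (by simp)
      rw [abs_le] at h3 h4
      have h5 := h3.2
      have h6 := h4.2
      have e3 : (β / 2) ^ 2 = β ^ 2 / 4 := by ring
      rw [e3] at h5
      have e4 : (2 * (β / 2) * 0 + 0 ^ 2 : ℝ) * (Real.log E - j) + (2 * (β / 2) * 0 + 0 ^ 2) * (Real.log E - j) +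
        2 * 0 * 0 * (Real.log E - ((max j j : ℕ) : ℝ)) = 0 := by ring
      have e5 : a ^ 2 * Real.log E + (2 * a * (-a) + (-a) ^ 2) * (Real.log E - j) + (2 * a * 0 + 0 ^ 2) * (Real.log E - j) +
        2 * (-a) * 0 * (Real.log E - ((max j j : ℕ) : ℝ)) = a ^ 2 * j := by ring
      linarith
    have hC1' : β * a * C1 ≤ 8 * C1 := mul_le_mul_of_nonneg_right hβa8 hC1
    constructor
    · intro hn1 hn2
      unfold VV
      rw [← Real.exp_add]
      apply Real.exp_le_exp.2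
      have h3 := (h1 E j hj).1 (x - x') hn1 hn2
      have h4 : β * a * CS E j (x - x') ≤ β * a * C1 := mul_le_mul_of_nonneg_left h3 hβa
      linarith
    · intro hn1 hn2
      unfold VV
      rw [← Real.exp_add]
      apply Real.exp_le_exp.2
      have h3 := (h1 E j hj).2 hn1 (x - x') hn2
      have h4 : β * a * CS E j (x - x') ≤ β * a * (C1 + Real.log (5 + Real.log (|x - x'| + 1))) := mul_le_mul_of_nonneg_left h3 hβa
      have e3 : β * a * (C1 + Real.log (5 + Real.log (|x - x'| + 1))) = β * a * C1 + β * a * Real.log (5 + Real.log (|x - x'| + 1)) := by ring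
      linarith

end

end Pool.Agent.H469.F4
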