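import Pool.Agent.H469.F4.P1

set_option autoImplicit false

/-!
# The weights of distant points: pointwise inequalities
-/

namespace Pool.Agent.H469.F4

open Filter Topology MeasureTheory Complex Pool.Agent.Q97.UM
open Pool.Agent.Q14.UM (mem_PB PB_disj cv_len)

noncomputable section

theorem zf_yF {E : ℝ} (hE : 0 ≤ E) (a : ℝ) (j : ℕ) (x : ℝ) (i : ℕ) (t : ℝ) :
    zf E (yF E a j x) (fun _ => 0) i t = ((a * (1 - if j ≤ i then 1 else 0) : ℝ) : ℂ) * Zb E i (t + x) :=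
  zf_c (c := fun p => a * (1 - cut E j p)) (fun p hp => by rw [cut_block hE hp]) x t

/-- the real part of the sum over the blocks before `j` -/
def FJ (E : ℝ) (j : ℕ) (τ : ℝ) : ℝ := (∑ i ∈ Finset.range j, Zb E i τ).re

theorem sum_F {E : ℝ} {j : ℕ} (hj : j ≤ JB E) (c τ : ℝ) :
    (∑ i ∈ Finset.range (JB E), ((c * (1 - if j ≤ i then 1 else 0) : ℝ) : ℂ) * Zb E i τ).re = c * FJ E j τ := by
  have h1 : ∑ i ∈ Finset.range (JB E), ((c * (1 - if j ≤ i then 1 else 0) : ℝ) : ℂ) * Zb E i τ =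
      (c : ℂ) * ∑ i ∈ Finset.range j, Zb E i τ := by
    have h2 : Finset.range j = (Finset.range (JB E)).filter (fun i => ¬ j ≤ i) := by
      ext i
      rw [Finset.mem_range, Finset.mem_filter, Finset.mem_range]
      omega
    rw [h2, Finset.sum_filter, Finset.mul_sum]
    refine Finset.sum_congr rfl fun i _ => ?_
    by_cases h : j ≤ i
    · simp [h]
    · simp [h]
  rw [h1]
  unfold FJ
  simp

/-- the weight `yF` at good points -/
theorem Pf_yF {S E κ' : ℝ} (hE : 1 ≤ E) (hκ : 16 ≤ κ') {a : ℝ} (ha : |a| ≤ S) {x t : ℝ} {j : ℕ} (hj : j ≤ JB E) (h : GG S E κ' (t + x)) :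
    Pf E κ' (yF E a j x) t ≤ 4 * Real.exp (2 * a * FJ E j (t + x)) ∧
      Real.exp (2 * a * FJ E j (t + x)) ≤ 4 * Pf E κ' (yF E a j x) t := by
  have hE0 : 0 ≤ E := by linarith
  have hA := cmp_small (t := t) hE hκ (a := yF E a j x) (a2 := fun _ => 0) fun i hi => by
    rw [zf_yF hE0]
    have h1 := h i hi
    rw [norm_mul, Complex.norm_real, Real.norm_eq_abs]
    have h2 : |a * (1 - if j ≤ i then 1 else 0)| ≤ S := by
      split_ifs
      · rw [sub_self, mul_zero, abs_zero]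
        exact (abs_nonneg a).trans ha
      · rwa [sub_zero, mul_one]
    have h3 : |a * (1 - if j ≤ i then 1 else 0)| * ‖Zb E i (t + x)‖ ≤ S * ‖Zb E i (t + x)‖ := mul_le_mul_of_nonneg_right h2 (norm_nonneg _)
    have h4 : (0 : ℝ) ≤ R9 κ' i := Nat.cast_nonneg _
    linarith
  have eA : Mm E (yF E a j x) (fun _ => 0) t = Real.exp (a * FJ E j (t + x)) := by
    rw [Mm_sum hE, ← sum_F hj]
    congr 2
    exact Finset.sum_congr rfl fun i _ => zf_yF hE0 a j x i t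
  rw [eA] at hA
  obtain ⟨a1, b2⟩ := sq_bounds (norm_nonneg _) (Real.exp_pos _) hA
  rw [← Real.exp_nat_mul] at a1 b2
  have e : ((2 : ℕ) : ℝ) * (a * FJ E j (t + x)) = 2 * a * FJ E j (t + x) := by push_cast; ring
  rw [e] at a1 b2
  exact ⟨a1, b2⟩

theorem Pf_zero {E κ' : ℝ} (hE : 1 ≤ E) (hκ : 16 ≤ κ') (t : ℝ) : Pf E κ' (fun _ => 0) t = 1 := by
  rw [Pf_prod hE (by linarith)]
  have h1 : ∀ i ∈ Finset.range (JB E), TEx (R9 κ' i) (zf E (fun _ => (0 : ℂ)) (fun _ => 0) i t) = 1 := by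
    intro i _
    have h2 : zf E (fun _ => (0 : ℂ)) (fun _ => 0) i t = 0 := by
      have h3 := zf_c (E := E) (i := i) (c := fun _ => (0 : ℝ)) (ci := 0) (fun _ _ => rfl) 0 t
      simpa using h3
    rw [h2]
    unfold TEx
    rw [Finset.sum_eq_single 0]
    · simp
    · intro b _ hb
      simp [hb]
    · intro h
      exact absurd (Finset.mem_range.2 (Nat.succ_pos _)) h
  rw [Finset.prod_congr rfl h1]
  simp

/-- one distinguished point at most -/
theorem one_only {ι : Type*} (s : Finset ι) (f ψ : ι → ℝ) {M : ℝ} (hM : 0 ≤ M) (hf0 : ∀ i ∈ s, 0 ≤ f i) (hf : ∀ i ∈ s, f i ≤ M) (hψ : ∀ i ∈ s, ψ i ≤ 1)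
    (hu : ∀ i ∈ s, ∀ k ∈ s, 0 < ψ i → 0 < ψ k → i = k) : ∑ i ∈ s, f i * ψ i ≤ M := by
  classical
  by_cases h : ∃ i ∈ s, 0 < ψ i
  · obtain ⟨i, hi, hi0⟩ := h
    rw [← Finset.add_sum_erase s _ hi]
    have h1 : ∑ k ∈ s.erase i, f k * ψ k ≤ 0 := by
      apply Finset.sum_nonpos
      intro k hk
      have hks := Finset.mem_of_mem_erase hk
      have hk0 : ψ k ≤ 0 := by
        by_contra hneg
        exact Finset.ne_of_mem_erase hk (hu k hks i hi (not_le.1 hneg) hi0)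
      exact mul_nonpos_of_nonneg_of_nonpos (hf0 k hks) hk0
    have h2 : f i * ψ i ≤ M * 1 := mul_le_mul (hf i hi) (hψ i hi) hi0.le hM
    linarith
  · push Not at h
    refine le_trans (Finset.sum_nonpos fun i hi => mul_nonpos_of_nonneg_of_nonpos (hf0 i hi) (h i hi)) hM

/-- the own part of the weight -/
def oW (E κ' b V : ℝ) (j₀ J : ℕ) (x t : ℝ) : ℝ :=
  ∑ j ∈ Finset.Icc j₀ J, Real.exp (b * V * j) * Pf E κ' (yF E (-(b / 2)) j x) t

/-- the penalties -/
def pW (E κ' S x t : ℝ) : ℝ := ∑ l ∈ Finset.range (JB E), ‖pw E κ' (wS S x) (fun _ => 0) (l + 1) t‖ ^ 2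

/-- the competitor -/
def kW (E κ' b V : ℝ) (j : ℕ) (x t : ℝ) : ℝ :=
  4 * Real.exp (2 * V * (Real.log 4 / b)) * Real.exp (-(2 * V ^ 2 * j)) * Pf E κ' (yF E V j x) t

theorem oW_nonneg (E κ' b V : ℝ) (j₀ J : ℕ) (x t : ℝ) : 0 ≤ oW E κ' b V j₀ J x t :=
  Finset.sum_nonneg fun _ _ => mul_nonneg (Real.exp_pos _).le (Pf_nonneg _ _ _ _)

theorem pW_nonneg (E κ' S x t : ℝ) : 0 ≤ pW E κ' S x t := Finset.sum_nonneg fun _ _ => sq_nonneg _

theorem kW_nonneg (E κ' b V : ℝ) (j : ℕ) (x t : ℝ) : 0 ≤ kW E κ' b V j x t :=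
  mul_nonneg (by positivity) (Pf_nonneg _ _ _ _)

/-- **two points cannot both be distinguished** -/
theorem excl {E κ' S b V : ℝ} (hE : 1 ≤ E) (hκ : 16 ≤ κ') (hS : 0 ≤ S) (hb : 0 < b) (hbS : b / 2 ≤ S) (hV : 0 < V) (hVS : V ≤ S) {j₀ J j : ℕ}
    (hj0 : j₀ ≤ j) (hjJ : j ≤ J) (hjB : j ≤ JB E) {x t : ℝ} (h1 : oW E κ' b V j₀ J x t < 1) (h2 : pW E κ' S x t < 1) (h3 : kW E κ' b V j x t < 1) : False := by
  have hG : GG S E κ' (t + x) := by
    by_contra hcon
    have := bad_GG hS (by linarith : 0 < κ') hcon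
    unfold pW at h2
    linarith
  have h4 : Real.exp (b * V * j) * Pf E κ' (yF E (-(b / 2)) j x) t < 1 := by
    refine lt_of_le_of_lt ?_ h1
    unfold oW
    exact Finset.single_le_sum (f := fun j : ℕ => Real.exp (b * V * j) * Pf E κ' (yF E (-(b / 2)) j x) t)
      (fun i _ => mul_nonneg (Real.exp_pos _).le (Pf_nonneg _ _ _ _)) (Finset.mem_Icc.2 ⟨hj0, hjJ⟩)
  obtain ⟨-, h5⟩ := Pf_yF (S := S) hE hκ (a := -(b / 2)) (by rw [abs_neg, abs_of_pos (by linarith)]; exact hbS) hjB hG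
  obtain ⟨-, h6⟩ := Pf_yF (S := S) hE hκ (a := V) (by rw [abs_of_pos hV]; exact hVS) hjB hG
  obtain ⟨F, hF⟩ : ∃ F : ℝ, F = FJ E j (t + x) := ⟨_, rfl⟩
  rw [← hF] at h5 h6
  have h7 : Real.exp (b * (V * j - F)) < 4 := by
    calc Real.exp (b * (V * j - F)) = Real.exp (b * V * j) * Real.exp (2 * -(b / 2) * F) := by
          rw [← Real.exp_add]
          congr 1
          ring
      _ ≤ Real.exp (b * V * j) * (4 * Pf E κ' (yF E (-(b / 2)) j x) t) := mul_le_mul_of_nonneg_left h5 (Real.exp_pos _).le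
      _ = 4 * (Real.exp (b * V * j) * Pf E κ' (yF E (-(b / 2)) j x) t) := by ring
      _ < 4 * 1 := by linarith
      _ = 4 := by norm_num
  have h8 : b * (V * j - F) < Real.log 4 := by
    rwa [Real.lt_log_iff_exp_lt (by norm_num)]
  have h9 : V * j - F < Real.log 4 / b := by
    rw [lt_div_iff₀ hb]
    linarith
  have h10 : 1 ≤ Real.exp (2 * V * (Real.log 4 / b)) * Real.exp (-(2 * V ^ 2 * j)) * Real.exp (2 * V * F) := by
    rw [← Real.exp_add, ← Real.exp_add]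
    apply Real.one_le_exp
    have h11 : 2 * V * (Real.log 4 / b) + -(2 * V ^ 2 * j) + 2 * V * F = 2 * V * (Real.log 4 / b - (V * j - F)) := by ring
    rw [h11]
    apply mul_nonneg (by linarith)
    linarith
  have h12 : 1 ≤ kW E κ' b V j x t := by
    unfold kW
    calc (1 : ℝ) ≤ Real.exp (2 * V * (Real.log 4 / b)) * Real.exp (-(2 * V ^ 2 * j)) * Real.exp (2 * V * F) := h10
      _ ≤ Real.exp (2 * V * (Real.log 4 / b)) * Real.exp (-(2 * V ^ 2 * j)) * (4 * Pf E κ' (yF E V j x) t) :=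
          mul_le_mul_of_nonneg_left h6 (by positivity)
      _ = _ := by ring
  linarith

end

end Pool.Agent.H469.F4
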