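import Pool.Agent.H469.F4.P2
import Pool.Agent.H469.F4.M15

set_option autoImplicit false

/-!
# Moments of maxima over long intervals: the lower bound
-/

namespace Pool.Agent.H469.F4

open Filter Topology MeasureTheory Complex Pool.Agent.Q97.UM
open Pool.Agent.Q14.UM (mem_PB PB_disj cv_len)

noncomputable section

/-- the level of a distance -/
def lev (J : ℕ) (K : ℝ) (i k : ℕ) : ℕ := min J ⌊Real.log (|(i : ℝ) - k| * K)⌋₊

theorem abs_sub_ge {i k : ℕ} (h : i ≠ k) : (1 : ℝ) ≤ |(i : ℝ) - k| := by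
  have h1 : (i : ℤ) - k ≠ 0 := by omega
  have h2 : (1 : ℤ) ≤ |(i : ℤ) - k| := Int.one_le_abs h1
  exact_mod_cast h2

/-- the sum over the other points -/
theorem sum_dist {s : ℝ} (hs : 1 < s) : ∃ Z : ℝ, 0 < Z ∧ ∀ (n i : ℕ), ∑ k ∈ (Finset.range n).erase i, |(i : ℝ) - k| ^ (-s) ≤ Z := by
  have hsum : Summable fun m : ℕ => ((m : ℝ) ^ s)⁻¹ := Real.summable_nat_rpow_inv.2 hs
  obtain ⟨Z, hZ⟩ : ∃ Z : ℝ, Z = ∑' m : ℕ, ((m : ℝ) ^ s)⁻¹ := ⟨_, rfl⟩
  have hZ0 : 0 ≤ Z := by rw [hZ]; exact tsum_nonneg fun m => by positivity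
  have hle : ∀ F : Finset ℕ, ∑ m ∈ F, ((m : ℝ) ^ s)⁻¹ ≤ Z := fun F => by
    rw [hZ]
    exact hsum.sum_le_tsum _ fun m _ => by positivity
  refine ⟨2 * Z + 1, by positivity, fun n i => ?_⟩
  have hsub : (Finset.range n).erase i ⊆ (Finset.range i) ∪ (Finset.Ico (i + 1) n) := by
    intro k hk
    rw [Finset.mem_erase, Finset.mem_range] at hk
    rw [Finset.mem_union, Finset.mem_range, Finset.mem_Ico]
    omega
  refine (Finset.sum_le_sum_of_subset_of_nonneg hsub fun k _ _ => Real.rpow_nonneg (abs_nonneg _) _).trans ?_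
  rw [Finset.sum_union (by
    rw [Finset.disjoint_left]
    intro k hk hk'
    rw [Finset.mem_range] at hk
    rw [Finset.mem_Ico] at hk'
    omega)]
  · have h1 : ∑ k ∈ Finset.range i, |(i : ℝ) - k| ^ (-s) ≤ Z := by
      rw [← Finset.sum_range_reflect]
      have h2 : ∀ k ∈ Finset.range i, |(i : ℝ) - ((i - 1 - k : ℕ) : ℝ)| ^ (-s) = (((k + 1 : ℕ) : ℝ) ^ s)⁻¹ := by
        intro k hk
        have hk' := Finset.mem_range.1 hk
        have e : (i : ℝ) - ((i - 1 - k : ℕ) : ℝ) = ((k + 1 : ℕ) : ℝ) := by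
          have h3 : (i - 1 - k) + (k + 1) = i := by omega
          have h4 : ((i - 1 - k : ℕ) : ℝ) + ((k + 1 : ℕ) : ℝ) = i := by exact_mod_cast h3
          linarith
        rw [e, abs_of_nonneg (Nat.cast_nonneg _), Real.rpow_neg (Nat.cast_nonneg _)]
      rw [Finset.sum_congr rfl h2]
      have h3 := hle ((Finset.range i).image fun k => k + 1)
      rwa [Finset.sum_image fun a _ b _ h => by omega] at h3
    have h2 : ∑ k ∈ Finset.Ico (i + 1) n, |(i : ℝ) - k| ^ (-s) ≤ Z := by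
      rw [Finset.sum_Ico_eq_sum_range]
      have h3 : ∀ k ∈ Finset.range (n - (i + 1)), |(i : ℝ) - ((i + 1 + k : ℕ) : ℝ)| ^ (-s) = (((k + 1 : ℕ) : ℝ) ^ s)⁻¹ := by
        intro k _
        have e : |(i : ℝ) - ((i + 1 + k : ℕ) : ℝ)| = ((k + 1 : ℕ) : ℝ) := by
          have : (i : ℝ) - ((i + 1 + k : ℕ) : ℝ) = -((k + 1 : ℕ) : ℝ) := by push_cast; ring
          rw [this, abs_neg, abs_of_nonneg (Nat.cast_nonneg _)]
        rw [e, Real.rpow_neg (Nat.cast_nonneg _)]
      rw [Finset.sum_congr rfl h3]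
      have h4 := hle ((Finset.range (n - (i + 1))).image fun k => k + 1)
      rwa [Finset.sum_image fun a _ b _ h => by omega] at h4
    linarith

end

end Pool.Agent.H469.F4
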