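import Pool.Agent.H469.F4.P3

set_option autoImplicit false

/-!
# Moments of maxima over long intervals: mean values of the weights
-/

namespace Pool.Agent.H469.F4

open Filter Topology MeasureTheory Complex Pool.Agent.Q97.UM
open Pool.Agent.Q14.UM (mem_PB PB_disj cv_len)
open Pool.Agent.Q184.UM (pw_cont)

noncomputable section

theorem oW_cont (E κ' b V : ℝ) (j₀ J : ℕ) (x : ℝ) : Continuous (oW E κ' b V j₀ J x) :=
  continuous_finsetSum _ fun _ _ => continuous_const.mul (Pf_cont _ _ _)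

theorem pW_cont (E κ' S x : ℝ) : Continuous (pW E κ' S x) :=
  continuous_finsetSum _ fun _ _ => (pw_cont _ _ _ _ _).norm.pow 2

theorem kW_cont (E κ' b V : ℝ) (j : ℕ) (x : ℝ) : Continuous (kW E κ' b V j x) :=
  continuous_const.mul (Pf_cont _ _ _)

/-- the upper bounds used below -/
def Upb (E κ' β C T : ℝ) : Prop := ∀ X : ℝ, |X| ≤ T / 2 → ∀ y : ℕ → ℂ, (∀ n, ‖y n‖ ≤ 4) →
  ∫ t in T..(2 * T), fz β (t + X) * Pf E κ' y t ≤ C * (T * (C * VV E (aw β X) y))

/-- the own part -/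
theorem own_le {E κ' β b V C Cv E₀ T X : ℝ} (hU : Upb E κ' β C T) (hC : 0 < C) (hT : 0 ≤ T) (hX : |X| ≤ T / 2) (hβ0 : 0 ≤ β)
    (hb : 0 < b) (hb2 : b ≤ 2) (hV : V = β / 2 - b) {j₀ J : ℕ}
    (hVV : ∀ j : ℕ, j ≤ J → VV E (aw β X) (yF E (-(b / 2)) j X) ≤ Real.exp Cv * Real.exp (β ^ 2 / 4 * Real.log E + (-(b / 2) * β + (-(b / 2)) ^ 2) * j)) :
    ∫ t in T..(2 * T), fz β (t + X) * oW E κ' b V j₀ J X t ≤
      C ^ 2 * Real.exp Cv * (T * Real.exp (β ^ 2 / 4 * Real.log E)) * (Real.exp (-(3 / 4 * b ^ 2) * j₀) * (1 - Real.exp (-(3 / 4 * b ^ 2)))⁻¹) := by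
  have hfc : Continuous fun t => fz β (t + X) := (fz_cont hβ0).comp (by fun_prop)
  have e1 : ∀ t, fz β (t + X) * oW E κ' b V j₀ J X t = ∑ j ∈ Finset.Icc j₀ J, Real.exp (b * V * j) * (fz β (t + X) * Pf E κ' (yF E (-(b / 2)) j X) t) := by
    intro t
    unfold oW
    rw [Finset.mul_sum]
    exact Finset.sum_congr rfl fun j _ => by ring
  simp only [e1]
  have e0 : ∫ t in T..(2 * T), ∑ j ∈ Finset.Icc j₀ J, Real.exp (b * V * j) * (fz β (t + X) * Pf E κ' (yF E (-(b / 2)) j X) t) =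
      ∑ j ∈ Finset.Icc j₀ J, ∫ t in T..(2 * T), Real.exp (b * V * j) * (fz β (t + X) * Pf E κ' (yF E (-(b / 2)) j X) t) :=
    intervalIntegral.integral_finsetSum fun j _ => (continuous_const.mul (hfc.mul (Pf_cont _ _ _))).intervalIntegrable _ _
  rw [e0]
  have h1 : ∀ j ∈ Finset.Icc j₀ J, ∫ t in T..(2 * T), Real.exp (b * V * j) * (fz β (t + X) * Pf E κ' (yF E (-(b / 2)) j X) t) ≤
      C ^ 2 * Real.exp Cv * (T * Real.exp (β ^ 2 / 4 * Real.log E)) * Real.exp (-(3 / 4 * b ^ 2) * j) := by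
    intro j hj
    rw [intervalIntegral.integral_const_mul]
    have h2 := hU X hX (yF E (-(b / 2)) j X) fun n => norm_yF (B := 4) (by rw [abs_neg, abs_of_pos (by linarith)]; linarith) E j X n
    have h3 := hVV j (Finset.mem_Icc.1 hj).2
    calc Real.exp (b * V * j) * ∫ t in T..(2 * T), fz β (t + X) * Pf E κ' (yF E (-(b / 2)) j X) t ≤
        Real.exp (b * V * j) * (C * (T * (C * (Real.exp Cv * Real.exp (β ^ 2 / 4 * Real.log E + (-(b / 2) * β + (-(b / 2)) ^ 2) * j))))) := by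
          apply mul_le_mul_of_nonneg_left _ (Real.exp_pos _).le
          refine h2.trans ?_
          apply mul_le_mul_of_nonneg_left _ hC.le
          apply mul_le_mul_of_nonneg_left _ hT
          exact mul_le_mul_of_nonneg_left h3 hC.le
      _ = C ^ 2 * Real.exp Cv * (T * (Real.exp (b * V * j) * Real.exp (β ^ 2 / 4 * Real.log E + (-(b / 2) * β + (-(b / 2)) ^ 2) * j))) := by ring
      _ = _ := by
          have e2 : Real.exp (b * V * j) * Real.exp (β ^ 2 / 4 * Real.log E + (-(b / 2) * β + (-(b / 2)) ^ 2) * j) =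
              Real.exp (β ^ 2 / 4 * Real.log E) * Real.exp (-(3 / 4 * b ^ 2) * j) := by
            rw [← Real.exp_add, ← Real.exp_add]
            congr 1
            rw [hV]
            ring
          rw [e2]
          ring
  refine (Finset.sum_le_sum h1).trans ?_
  rw [← Finset.mul_sum]
  apply mul_le_mul_of_nonneg_left _ (by positivity)
  obtain ⟨r, hr⟩ : ∃ r : ℝ, r = Real.exp (-(3 / 4 * b ^ 2)) := ⟨_, rfl⟩
  have hr0 : 0 ≤ r := by rw [hr]; exact (Real.exp_pos _).le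
  have hr1 : r < 1 := by
    rw [hr, Real.exp_lt_one_iff]
    have : 0 < b ^ 2 := by positivity
    linarith
  have hp : ∀ j : ℕ, Real.exp (-(3 / 4 * b ^ 2) * j) = r ^ j := fun j => by
    rw [hr, ← Real.exp_nat_mul]
    congr 1
    ring
  simp only [hp]
  rw [← hr]
  have hs := summable_geometric_of_lt_one hr0 hr1
  have h2 : ∑ j ∈ Finset.Icc j₀ J, r ^ j ≤ ∑ j ∈ (Finset.range (J + 1)).image (fun m => j₀ + m), r ^ j := by
    apply Finset.sum_le_sum_of_subset_of_nonneg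
    · intro j hj
      rw [Finset.mem_Icc] at hj
      rw [Finset.mem_image]
      exact ⟨j - j₀, Finset.mem_range.2 (by omega), by omega⟩
    · intro j _ _
      positivity
  refine h2.trans ?_
  rw [Finset.sum_image fun a _ c _ h => by omega]
  simp only [pow_add]
  rw [← Finset.mul_sum]
  apply mul_le_mul_of_nonneg_left _ (by positivity)
  rw [← tsum_geometric_of_lt_one hr0 hr1]
  exact hs.sum_le_tsum _ fun i _ => by positivity

/-- one competitor -/
theorem comp_le {E κ' β b V C Cv T X Y F : ℝ} (hU : Upb E κ' β C T) (hC : 0 < C) (hT : 0 ≤ T) (hX : |X| ≤ T / 2) (hV0 : 0 < V) (hV2 : V ≤ 2) {j : ℕ}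
    (hVV : VV E (aw β X) (yF E V j Y) ≤ Real.exp Cv * Real.exp (β ^ 2 / 4 * Real.log E + V ^ 2 * j + F)) :
    ∫ t in T..(2 * T), fz β (t + X) * kW E κ' b V j Y t ≤
      4 * Real.exp (2 * V * (Real.log 4 / b)) * (C ^ 2 * Real.exp Cv) * (T * Real.exp (β ^ 2 / 4 * Real.log E)) * (Real.exp (-(V ^ 2 * j)) * Real.exp F) := by
  have e1 : ∀ t, fz β (t + X) * kW E κ' b V j Y t = 4 * Real.exp (2 * V * (Real.log 4 / b)) * Real.exp (-(2 * V ^ 2 * j)) *
      (fz β (t + X) * Pf E κ' (yF E V j Y) t) := by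
    intro t
    unfold kW
    ring
  simp only [e1]
  rw [intervalIntegral.integral_const_mul]
  have h2 := hU X hX (yF E V j Y) fun n => norm_yF (B := 4) (by rw [abs_of_pos hV0]; linarith) E j Y n
  calc 4 * Real.exp (2 * V * (Real.log 4 / b)) * Real.exp (-(2 * V ^ 2 * j)) * ∫ t in T..(2 * T), fz β (t + X) * Pf E κ' (yF E V j Y) t ≤
      4 * Real.exp (2 * V * (Real.log 4 / b)) * Real.exp (-(2 * V ^ 2 * j)) *
        (C * (T * (C * (Real.exp Cv * Real.exp (β ^ 2 / 4 * Real.log E + V ^ 2 * j + F))))) := by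
        apply mul_le_mul_of_nonneg_left _ (by positivity)
        refine h2.trans ?_
        apply mul_le_mul_of_nonneg_left _ hC.le
        apply mul_le_mul_of_nonneg_left _ hT
        exact mul_le_mul_of_nonneg_left hVV hC.le
    _ = 4 * Real.exp (2 * V * (Real.log 4 / b)) * (C ^ 2 * Real.exp Cv) * (T * (Real.exp (-(2 * V ^ 2 * j)) *
        Real.exp (β ^ 2 / 4 * Real.log E + V ^ 2 * j + F))) := by ring
    _ = _ := by
        have e2 : Real.exp (-(2 * V ^ 2 * j)) * Real.exp (β ^ 2 / 4 * Real.log E + V ^ 2 * j + F) =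
            Real.exp (β ^ 2 / 4 * Real.log E) * (Real.exp (-(V ^ 2 * j)) * Real.exp F) := by
          rw [← Real.exp_add, ← Real.exp_add, ← Real.exp_add]
          congr 1
          ring
        rw [e2]
        ring

/-- two levels -/
theorem exp_lev {V E E₀ m : ℝ} (hE₀ : 0 < E₀) (hEE : E₀ ≤ E) (hm : 1 ≤ m) {J : ℕ} (hJ : J = ⌊Real.log (E / E₀)⌋₊) :
    Real.exp (-(V ^ 2 * ((min J ⌊Real.log m⌋₊ : ℕ) : ℝ))) ≤ Real.exp (V ^ 2) * m ^ (-(V ^ 2)) + (Real.exp 1 * E₀ / E) ^ (V ^ 2) := by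
  have hE0 : 0 < E := by linarith
  have hm0 : 0 < m := by linarith
  have n1 : 0 ≤ Real.exp (V ^ 2) * m ^ (-(V ^ 2)) := by positivity
  have n2 : 0 ≤ (Real.exp 1 * E₀ / E) ^ (V ^ 2) := by positivity
  have hV := sq_nonneg V
  rcases le_total J ⌊Real.log m⌋₊ with h | h
  · rw [min_eq_left h]
    have h1 : Real.log (E / E₀) < J + 1 := by rw [hJ]; exact Nat.lt_floor_add_one _
    have h2 : Real.exp (-(V ^ 2 * (J : ℝ))) ≤ (Real.exp 1 * E₀ / E) ^ (V ^ 2) := by
      rw [Real.rpow_def_of_pos (by positivity)]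
      apply Real.exp_le_exp.2
      have h3 : Real.log (Real.exp 1 * E₀ / E) = 1 - Real.log (E / E₀) := by
        rw [Real.log_div (by positivity) hE0.ne', Real.log_mul (Real.exp_pos 1).ne' hE₀.ne', Real.log_exp, Real.log_div hE0.ne' hE₀.ne']
        ring
      rw [h3]
      nlinarith
    linarith
  · rw [min_eq_right h]
    have h1 : Real.log m < (⌊Real.log m⌋₊ : ℝ) + 1 := Nat.lt_floor_add_one _
    have h2 : Real.exp (-(V ^ 2 * (⌊Real.log m⌋₊ : ℝ))) ≤ Real.exp (V ^ 2) * m ^ (-(V ^ 2)) := by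
      rw [Real.rpow_def_of_pos hm0, ← Real.exp_add]
      apply Real.exp_le_exp.2
      nlinarith
    linarith

end

end Pool.Agent.H469.F4
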