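import Pool.Agent.H469.F4.P4

set_option autoImplicit false

/-!
# Moments of maxima over long intervals: two points
-/

namespace Pool.Agent.H469.F4

open Filter Topology MeasureTheory Complex Pool.Agent.Q97.UM
open Pool.Agent.Q14.UM (mem_PB PB_disj cv_len)

noncomputable section

/-- the predicted orders, as a property of the two constants -/
def VF (Cv E₀ : ℝ) : Prop := ∀ (E β a x : ℝ) (j : ℕ), E₀ ≤ E * Real.exp (-(j : ℝ)) → 0 ≤ β → β ≤ 4 → |a| ≤ 2 →
    (Real.exp (-Cv) * Real.exp (β ^ 2 / 4 * Real.log E) ≤ VV E (aw β x) (fun _ => 0)) ∧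
    (VV E (aw β x) (yF E a j x) ≤ Real.exp Cv * Real.exp (β ^ 2 / 4 * Real.log E + (a * β + a ^ 2) * j)) ∧
    (0 ≤ a → ∀ x' : ℝ,
      (|x - x'| ≤ 1 → 1 ≤ |x - x'| * (E * Real.exp (-(j : ℝ))) →
        VV E (aw β x) (yF E a j x') ≤ Real.exp Cv * Real.exp (β ^ 2 / 4 * Real.log E + a ^ 2 * j)) ∧
      (E * Real.exp (-(j : ℝ)) ≤ Real.exp 1 * E₀ → 1 ≤ |x - x'| →
        VV E (aw β x) (yF E a j x') ≤ Real.exp Cv * Real.exp (β ^ 2 / 4 * Real.log E + a ^ 2 * j +
          β * a * Real.log (5 + Real.log (|x - x'| + 1)))))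

/-- the last level -/
theorem last_lev {E E₀ : ℝ} (hE₀ : 1 ≤ E₀) (hEE : E₀ ≤ E) {J : ℕ} (hJ : J = ⌊Real.log (E / E₀)⌋₊) :
    E₀ ≤ E * Real.exp (-(J : ℝ)) ∧ E * Real.exp (-(J : ℝ)) ≤ Real.exp 1 * E₀ := by
  have hE₀0 : 0 < E₀ := by linarith
  have hE0 : 0 < E := by linarith
  have h1 : 1 ≤ E / E₀ := (one_le_div hE₀0).2 hEE
  have h2 : (J : ℝ) ≤ Real.log (E / E₀) := by rw [hJ]; exact Nat.floor_le (Real.log_nonneg h1)
  have h3 : Real.log (E / E₀) < J + 1 := by rw [hJ]; exact Nat.lt_floor_add_one _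
  have h4 : Real.exp J ≤ E / E₀ := by
    rw [← Real.le_log_iff_exp_le (by positivity)]
    exact h2
  have h5 : E / E₀ < Real.exp (J + 1) := by
    rw [← Real.log_lt_iff_lt_exp (by positivity)]
    exact h3
  rw [le_div_iff₀ hE₀0] at h4
  rw [div_lt_iff₀ hE₀0, Real.exp_add] at h5
  have e : Real.exp J * Real.exp (-(J : ℝ)) = 1 := by rw [← Real.exp_add]; simp
  have hp := Real.exp_pos (-(J : ℝ))
  constructor
  · calc E₀ = (Real.exp J * Real.exp (-(J : ℝ))) * E₀ := by rw [e, one_mul]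
      _ = Real.exp J * E₀ * Real.exp (-(J : ℝ)) := by ring
      _ ≤ E * Real.exp (-(J : ℝ)) := mul_le_mul_of_nonneg_right h4 hp.le
  · calc E * Real.exp (-(J : ℝ)) ≤ Real.exp J * Real.exp 1 * E₀ * Real.exp (-(J : ℝ)) := mul_le_mul_of_nonneg_right h5.le hp.le
      _ = (Real.exp J * Real.exp (-(J : ℝ))) * (Real.exp 1 * E₀) := by ring
      _ = _ := by rw [e, one_mul]

theorem exp_last {V E E₀ : ℝ} (hE₀ : 0 < E₀) (hEE : E₀ ≤ E) {J : ℕ} (hJ : J = ⌊Real.log (E / E₀)⌋₊) :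
    Real.exp (-(V ^ 2 * (J : ℝ))) ≤ (Real.exp 1 * E₀ / E) ^ (V ^ 2) := by
  have hE0 : 0 < E := by linarith
  have hV := sq_nonneg V
  have h1 : Real.log (E / E₀) < J + 1 := by rw [hJ]; exact Nat.lt_floor_add_one _
  rw [Real.rpow_def_of_pos (by positivity)]
  apply Real.exp_le_exp.2
  have h3 : Real.log (Real.exp 1 * E₀ / E) = 1 - Real.log (E / E₀) := by
    rw [Real.log_div (by positivity) hE0.ne', Real.log_mul (Real.exp_pos 1).ne' hE₀.ne', Real.log_exp, Real.log_div hE0.ne' hE₀.ne']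
    ring
  rw [h3]
  nlinarith

/-- **the competitors** -/
theorem pair_le {E κ' β b V C Cv E₀ T K H x : ℝ} {J i k : ℕ} (hF : VF Cv E₀) (hU : Upb E κ' β C T) (hC : 0 < C) (hT : 0 ≤ T)
    (hβ0 : 0 ≤ β) (hβ4 : β ≤ 4) (hV0 : 0 < V) (hV2 : V ≤ 2) (hE₀ : 1 ≤ E₀) (hEE : E₀ ≤ E) (hK : 1 ≤ K) (hJ : J = ⌊Real.log (E / E₀)⌋₊)
    (hik : i ≠ k) (hX : |x + i * (K / E)| ≤ T / 2) (hH : |(i : ℝ) - k| * (K / E) ≤ H) :
    ∫ t in T..(2 * T), fz β (t + (x + i * (K / E))) * kW E κ' b V (lev J K i k) (x + k * (K / E)) t ≤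
      4 * Real.exp (2 * V * (Real.log 4 / b)) * (C ^ 2 * Real.exp Cv) * (T * Real.exp (β ^ 2 / 4 * Real.log E)) *
        (Real.exp (V ^ 2) * K ^ (-(V ^ 2)) * |(i : ℝ) - k| ^ (-(V ^ 2)) + (5 + Real.log (H + 1)) ^ 8 * (Real.exp 1 * E₀ / E) ^ (V ^ 2)) := by
  have hE₀0 : 0 < E₀ := by linarith
  have hE0 : 0 < E := by linarith
  have hK0 : 0 < K := by linarith
  have hd := abs_sub_ge hik
  obtain ⟨m, hm⟩ : ∃ m : ℝ, m = |(i : ℝ) - k| * K := ⟨_, rfl⟩
  have hm1 : 1 ≤ m := by rw [hm]; nlinarith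
  have hm0 : 0 < m := by linarith
  have hlm : 0 ≤ Real.log m := Real.log_nonneg hm1
  obtain ⟨j, hj⟩ : ∃ j : ℕ, j = lev J K i k := ⟨_, rfl⟩
  have hj' : j = min J ⌊Real.log m⌋₊ := by rw [hj, hm]; rfl
  have hjJ : j ≤ J := by rw [hj']; exact min_le_left _ _
  have hjm : j ≤ ⌊Real.log m⌋₊ := by rw [hj']; exact min_le_right _ _
  have hdist : |x + i * (K / E) - (x + k * (K / E))| = m / E := by
    have : x + i * (K / E) - (x + k * (K / E)) = ((i : ℝ) - k) * (K / E) := by ring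
    rw [this, abs_mul, abs_of_pos (by positivity : 0 < K / E), hm]
    ring
  have hmH : m / E ≤ H := by
    have : m / E = |(i : ℝ) - k| * (K / E) := by rw [hm]; ring
    rw [this]
    exact hH
  obtain ⟨g1, g2⟩ := last_lev hE₀ hEE hJ
  have hjE : E₀ ≤ E * Real.exp (-(j : ℝ)) := by
    refine g1.trans ?_
    apply mul_le_mul_of_nonneg_left _ hE0.le
    apply Real.exp_le_exp.2
    have : (j : ℝ) ≤ J := by exact_mod_cast hjJ
    linarith
  obtain ⟨-, -, h3⟩ := hF E β V (x + i * (K / E)) j hjE hβ0 hβ4 (by rw [abs_of_pos hV0]; exact hV2)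
  obtain ⟨h4, h5⟩ := h3 hV0.le (x + k * (K / E))
  rw [hdist] at h4 h5
  rw [← hj]
  have hH0 : 0 ≤ H := le_trans (by positivity) hmH
  have hlH : 0 ≤ Real.log (H + 1) := Real.log_nonneg (by linarith)
  have hD1 : 1 ≤ (5 + Real.log (H + 1)) ^ 8 := one_le_pow₀ (by linarith)
  have hV := sq_nonneg V
  have n2 : 0 ≤ (Real.exp 1 * E₀ / E) ^ (V ^ 2) := by positivity
  have emK : Real.exp (V ^ 2) * K ^ (-(V ^ 2)) * |(i : ℝ) - k| ^ (-(V ^ 2)) = Real.exp (V ^ 2) * m ^ (-(V ^ 2)) := by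
    rw [hm, Real.mul_rpow (abs_nonneg _) hK0.le]
    ring
  rw [emK]
  have n1 : 0 ≤ Real.exp (V ^ 2) * m ^ (-(V ^ 2)) := by positivity
  rcases le_total (m / E) 1 with hc | hc
  · have h6 : 1 ≤ m / E * (E * Real.exp (-(j : ℝ))) := by
      have h7 : (j : ℝ) ≤ Real.log m := by
        have : (j : ℝ) ≤ (⌊Real.log m⌋₊ : ℝ) := by exact_mod_cast hjm
        exact this.trans (Nat.floor_le hlm)
      have h8 : Real.exp j ≤ m := by
        rw [← Real.le_log_iff_exp_le hm0]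
        exact h7
      have e : Real.exp j * Real.exp (-(j : ℝ)) = 1 := by rw [← Real.exp_add]; simp
      calc (1 : ℝ) = Real.exp j * Real.exp (-(j : ℝ)) := e.symm
        _ ≤ m * Real.exp (-(j : ℝ)) := mul_le_mul_of_nonneg_right h8 (Real.exp_pos _).le
        _ = _ := by field_simp
    have h7 := h4 hc h6
    have h8 := comp_le (κ' := κ') (b := b) (F := 0) hU hC hT hX hV0 hV2 (j := j) (Y := x + k * (K / E)) (by rw [add_zero]; exact h7)
    refine h8.trans ?_
    apply mul_le_mul_of_nonneg_left _ (by positivity)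
    rw [Real.exp_zero, mul_one]
    have h9 := exp_lev (V := V) hE₀0 hEE hm1 hJ
    rw [← hj'] at h9
    nlinarith
  · have hjJ' : j = J := by
      rw [hj', min_eq_left]
      rw [hJ]
      apply Nat.floor_mono
      apply Real.log_le_log (by positivity)
      rw [one_le_div hE0] at hc
      exact (div_le_self hE0.le hE₀).trans hc
    have h7 := h5 (by rw [hjJ']; exact g2) hc
    have h8 := comp_le (κ' := κ') (b := b) (F := β * V * Real.log (5 + Real.log (m / E + 1))) hU hC hT hX hV0 hV2 (j := j) (Y := x + k * (K / E)) h7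
    refine h8.trans ?_
    apply mul_le_mul_of_nonneg_left _ (by positivity)
    have h9 := exp_last (V := V) hE₀0 hEE hJ
    rw [← hjJ'] at h9
    have hlm2 : 0 ≤ Real.log (m / E + 1) := Real.log_nonneg (by linarith [div_nonneg hm0.le hE0.le])
    have h10 : Real.exp (β * V * Real.log (5 + Real.log (m / E + 1))) ≤ (5 + Real.log (H + 1)) ^ 8 := by
      have h11 : Real.log (5 + Real.log (m / E + 1)) ≤ Real.log (5 + Real.log (H + 1)) := by
        apply Real.log_le_log (by linarith)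
        have : Real.log (m / E + 1) ≤ Real.log (H + 1) := Real.log_le_log (by positivity) (by linarith)
        linarith
      have h12 : 0 ≤ Real.log (5 + Real.log (H + 1)) := Real.log_nonneg (by linarith)
      have h13 : β * V ≤ 8 := by nlinarith
      have h14 : 0 ≤ β * V := by positivity
      calc Real.exp (β * V * Real.log (5 + Real.log (m / E + 1))) ≤ Real.exp (((8 : ℕ) : ℝ) * Real.log (5 + Real.log (H + 1))) := by
            apply Real.exp_le_exp.2
            push_cast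
            exact mul_le_mul h13 h11 (Real.log_nonneg (by linarith)) (by norm_num)
        _ = _ := by
            rw [Real.exp_nat_mul, Real.exp_log (by linarith)]
    calc Real.exp (-(V ^ 2 * (j : ℝ))) * Real.exp (β * V * Real.log (5 + Real.log (m / E + 1))) ≤
        (Real.exp 1 * E₀ / E) ^ (V ^ 2) * (5 + Real.log (H + 1)) ^ 8 := mul_le_mul h9 h10 (Real.exp_pos _).le n2
      _ ≤ _ := by linarith

end

end Pool.Agent.H469.F4
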