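import Pool.Agent.H469.F4.P5

set_option autoImplicit false

/-!
# Moments of maxima over long intervals: the sum over the points
-/

namespace Pool.Agent.H469.F4

open Filter Topology MeasureTheory Complex Pool.Agent.Q97.UM
open Pool.Agent.Q14.UM (mem_PB PB_disj cv_len)

noncomputable section

/-- the weight of one of the points -/
def psi (E κ' b V K x : ℝ) (j₀ J n i : ℕ) (t : ℝ) : ℝ :=
  1 - (oW E κ' b V j₀ J (x + i * (K / E)) t + (∑ k ∈ (Finset.range n).erase i, kW E κ' b V (lev J K i k) (x + k * (K / E)) t +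
    pW E κ' 4 (x + i * (K / E)) t))

theorem psi_sum_le {E κ' β b V K H x t : ℝ} {j₀ J n : ℕ} (hE : 1 ≤ E) (hκ : 16 ≤ κ') (hβ0 : 0 ≤ β) (hb : 0 < b) (hb1 : b ≤ 1)
    (hV0 : 0 < V) (hV2 : V ≤ 2) (hH : 0 ≤ H) (hK : Real.exp j₀ ≤ K) (hJ : j₀ ≤ J) (hJB : J ≤ JB E)
    (hn : ∀ i, i < n → (i : ℝ) * (K / E) ≤ H) :
    ∑ i ∈ Finset.range n, fz β (t + (x + i * (K / E))) * psi E κ' b V K x j₀ J n i t ≤ MH H x t ^ β := by
  have hK1 : 1 ≤ K := le_trans (Real.one_le_exp (Nat.cast_nonneg _)) hK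
  have hK0 : 0 < K := by linarith
  have hE0 : 0 < E := by linarith
  have hlevj : ∀ i k : ℕ, i ≠ k → j₀ ≤ lev J K i k := by
    intro i k hik
    unfold lev
    apply le_min hJ
    apply Nat.le_floor
    rw [Real.le_log_iff_exp_le (mul_pos (lt_of_lt_of_le one_pos (abs_sub_ge hik)) hK0)]
    calc Real.exp j₀ ≤ K := hK
      _ ≤ |(i : ℝ) - k| * K := le_mul_of_one_le_left hK0.le (abs_sub_ge hik)
  have hkn : ∀ i, 0 ≤ ∑ k ∈ (Finset.range n).erase i, kW E κ' b V (lev J K i k) (x + k * (K / E)) t := fun i =>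
    Finset.sum_nonneg fun k _ => kW_nonneg _ _ _ _ _ _ _
  apply one_only (Finset.range n) (fun i : ℕ => fz β (t + (x + i * (K / E)))) (fun i => psi E κ' b V K x j₀ J n i t)
    (Real.rpow_nonneg (MH_nonneg hH x t) _) (fun i _ => fz_nonneg _ _)
  · intro i hi
    have hi' := Finset.mem_range.1 hi
    exact Real.rpow_le_rpow (norm_nonneg _) (le_MH ⟨by have : 0 ≤ (i : ℝ) * (K / E) := by positivity
                                                       linarith, by linarith [hn i hi']⟩) hβ0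
  · intro i _
    show psi E κ' b V K x j₀ J n i t ≤ 1
    unfold psi
    have h1 := oW_nonneg E κ' b V j₀ J (x + i * (K / E)) t
    have h2 := hkn i
    have h3 := pW_nonneg E κ' 4 (x + i * (K / E)) t
    linarith
  · intro i hi k hk h1 h2
    by_contra hik
    have h1' : 0 < psi E κ' b V K x j₀ J n i t := h1
    have h2' : 0 < psi E κ' b V K x j₀ J n k t := h2
    unfold psi at h1' h2'
    have o1 := oW_nonneg E κ' b V j₀ J (x + i * (K / E)) t
    have p1 := pW_nonneg E κ' 4 (x + i * (K / E)) t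
    have o2 := oW_nonneg E κ' b V j₀ J (x + k * (K / E)) t
    have p2 := pW_nonneg E κ' 4 (x + k * (K / E)) t
    have s2 := hkn k
    have s1 : kW E κ' b V (lev J K i k) (x + k * (K / E)) t ≤ ∑ k ∈ (Finset.range n).erase i, kW E κ' b V (lev J K i k) (x + k * (K / E)) t :=
      Finset.single_le_sum (f := fun k : ℕ => kW E κ' b V (lev J K i k) (x + k * (K / E)) t) (fun k _ => kW_nonneg _ _ _ _ _ _ _)
        (Finset.mem_erase.2 ⟨fun h => hik h.symm, hk⟩)
    have hl : lev J K i k ≤ J := min_le_left _ _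
    exact excl (S := 4) hE hκ (by norm_num) hb (by linarith) hV0 (by linarith) (hlevj i k hik) hl (hl.trans hJB)
      (x := x + k * (K / E)) (t := t) (by linarith) (by linarith) (by linarith)

/-- **the sum over the points** -/
theorem long_core {E κ' β b V C Cv E₀ T K H x η c₀ Z D : ℝ} {J j₀ n : ℕ} (hF : VF Cv E₀) (hU : Upb E κ' β C T) (hC : 0 < C) (hT : 0 < T)
    (hβ0 : 0 < β) (hβ4 : β ≤ 4) (hb : 0 < b) (hb1 : b ≤ 1) (hV : V = β / 2 - b) (hV0 : 0 < V) (hE₀ : 1 ≤ E₀) (hκ : 16 ≤ κ')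
    (hj₀ : Real.exp j₀ ≤ E / E₀) (hK : K = Real.exp j₀) (hJ : J = ⌊Real.log (E / E₀)⌋₊) (hH : 0 ≤ H) (hHT : |x| + H ≤ T / 2)
    (hn : n = ⌊H * E / K⌋₊ + 1) (hc₀ : 0 < c₀)
    (hQ : ∀ X, |X| ≤ T / 2 → ∃ Q : ℝ, c₀ * VV E (aw β X) (fun _ => 0) ≤ Q ∧ T * Q ≤ ∫ t in T..(2 * T), fz β (t + X) ∧
      ∫ t in T..(2 * T), fz β (t + X) * pW E κ' 4 X t ≤ 1 / 8 * (T * Q))
    (hZ : ∀ (n i : ℕ), ∑ k ∈ (Finset.range n).erase i, |(i : ℝ) - k| ^ (-(V ^ 2)) ≤ Z)
    (hη : η = c₀ * Real.exp (-Cv) / 8) (hD : D = 4 * Real.exp (2 * V * (Real.log 4 / b)) * (C ^ 2 * Real.exp Cv))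
    (h1 : C ^ 2 * Real.exp Cv * (Real.exp (-(3 / 4 * b ^ 2) * j₀) * (1 - Real.exp (-(3 / 4 * b ^ 2)))⁻¹) ≤ η)
    (h2 : D * (Real.exp (V ^ 2) * K ^ (-(V ^ 2)) * Z) ≤ η)
    (h3 : D * (n * ((5 + Real.log (H + 1)) ^ 8 * (Real.exp 1 * E₀ / E) ^ (V ^ 2))) ≤ η) :
    n * (4 * η * (T * Real.exp (β ^ 2 / 4 * Real.log E))) ≤ ∫ t in T..(2 * T), MH H x t ^ β := by
  have hE₀0 : 0 < E₀ := by linarith
  have hK1 : 1 ≤ K := by rw [hK]; exact Real.one_le_exp (Nat.cast_nonneg _)
  have hK0 : 0 < K := by linarith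
  have hEE1 : 1 ≤ E / E₀ := by
    refine le_trans ?_ hj₀
    rw [← hK]
    exact hK1
  have hE0 : 0 < E := by
    by_contra h
    have : E / E₀ ≤ 0 := div_nonpos_of_nonpos_of_nonneg (not_lt.1 h) hE₀0.le
    linarith
  have hEE : E₀ ≤ E := by rwa [one_le_div hE₀0] at hEE1
  have hE1 : 1 ≤ E := hE₀.trans hEE
  have hV2 : V ≤ 2 := by rw [hV]; linarith
  have hη0 : 0 < η := by rw [hη]; positivity
  have hJ0 : j₀ ≤ J := by
    rw [hJ]
    apply Nat.le_floor
    rw [Real.le_log_iff_exp_le (by positivity)]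
    exact hj₀
  obtain ⟨g1, g2⟩ := last_lev hE₀ hEE hJ
  have hJB : J ≤ JB E := by
    have := JB_shift hE0 J (hE₀.trans g1)
    omega
  have hni : ∀ i, i < n → (i : ℝ) * (K / E) ≤ H := by
    intro i hi
    have h4 : (i : ℝ) ≤ H * E / K := by
      have h5 : i ≤ ⌊H * E / K⌋₊ := by omega
      have h6 : (i : ℝ) ≤ (⌊H * E / K⌋₊ : ℝ) := by exact_mod_cast h5
      exact h6.trans (Nat.floor_le (by positivity))
    rw [le_div_iff₀ hK0] at h4
    rw [← mul_div_assoc, div_le_iff₀ hE0]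
    exact h4
  have hXT : ∀ i, i < n → |x + i * (K / E)| ≤ T / 2 := by
    intro i hi
    have h4 := hni i hi
    have h5 : 0 ≤ (i : ℝ) * (K / E) := by positivity
    calc |x + i * (K / E)| ≤ |x| + |(i : ℝ) * (K / E)| := abs_add_le _ _
      _ ≤ |x| + H := by rw [abs_of_nonneg h5]; linarith
      _ ≤ _ := hHT
  obtain ⟨A, hA⟩ : ∃ A : ℝ, A = Real.exp (β ^ 2 / 4 * Real.log E) := ⟨_, rfl⟩
  have hA0 : 0 < A := by rw [hA]; exact Real.exp_pos _
  rw [← hA]
  obtain ⟨P, hP⟩ : ∃ P : ℝ, P = (5 + Real.log (H + 1)) ^ 8 * (Real.exp 1 * E₀ / E) ^ (V ^ 2) := ⟨_, rfl⟩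
  have hlH : 0 ≤ Real.log (H + 1) := Real.log_nonneg (by linarith)
  have hP0 : 0 ≤ P := by rw [hP]; positivity
  rw [← hP] at h3
  have hD0 : 0 < D := by rw [hD]; positivity
  -- the mean value of one weight
  have hfc : ∀ X, Continuous fun t => fz β (t + X) := fun X => (fz_cont hβ0.le).comp (by fun_prop)
  have hone : ∀ i, i < n → 4 * η * (T * A) ≤ ∫ t in T..(2 * T), fz β (t + (x + i * (K / E))) * psi E κ' b V K x j₀ J n i t := by
    intro i hi
    obtain ⟨X, hX⟩ : ∃ X : ℝ, X = x + i * (K / E) := ⟨_, rfl⟩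
    have hXT' : |X| ≤ T / 2 := by rw [hX]; exact hXT i hi
    obtain ⟨Q, q1, q2, q3⟩ := hQ X hXT'
    have c1 : Continuous fun t => fz β (t + X) := hfc X
    have c2 : Continuous fun t => fz β (t + X) * oW E κ' b V j₀ J X t := c1.mul (oW_cont _ _ _ _ _ _ _)
    have c3 : ∀ k : ℕ, Continuous fun t => fz β (t + X) * kW E κ' b V (lev J K i k) (x + k * (K / E)) t := fun k => c1.mul (kW_cont _ _ _ _ _ _)
    have c4 : Continuous fun t => fz β (t + X) * pW E κ' 4 X t := c1.mul (pW_cont _ _ _ _)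
    have c5 : Continuous fun t => ∑ k ∈ (Finset.range n).erase i, fz β (t + X) * kW E κ' b V (lev J K i k) (x + k * (K / E)) t :=
      continuous_finsetSum _ fun k _ => c3 k
    have e1 : ∀ t, fz β (t + (x + i * (K / E))) * psi E κ' b V K x j₀ J n i t = fz β (t + X) -
        (fz β (t + X) * oW E κ' b V j₀ J X t + (∑ k ∈ (Finset.range n).erase i, fz β (t + X) * kW E κ' b V (lev J K i k) (x + k * (K / E)) t +
          fz β (t + X) * pW E κ' 4 X t)) := by
      intro t
      unfold psi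
      rw [← hX, ← Finset.mul_sum]
      ring
    simp only [e1]
    have i1 : IntervalIntegrable (fun t => fz β (t + X)) volume T (2 * T) := c1.intervalIntegrable _ _
    have i2 : IntervalIntegrable (fun t => fz β (t + X) * oW E κ' b V j₀ J X t) volume T (2 * T) := c2.intervalIntegrable _ _
    have i4 : IntervalIntegrable (fun t => fz β (t + X) * pW E κ' 4 X t) volume T (2 * T) := c4.intervalIntegrable _ _
    have i5 : IntervalIntegrable (fun t => ∑ k ∈ (Finset.range n).erase i, fz β (t + X) * kW E κ' b V (lev J K i k) (x + k * (K / E)) t) volume T (2 * T) :=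
      c5.intervalIntegrable _ _
    have i54 : IntervalIntegrable (fun t => ∑ k ∈ (Finset.range n).erase i, fz β (t + X) * kW E κ' b V (lev J K i k) (x + k * (K / E)) t +
      fz β (t + X) * pW E κ' 4 X t) volume T (2 * T) := i5.add i4
    have i254 : IntervalIntegrable (fun t => fz β (t + X) * oW E κ' b V j₀ J X t + (∑ k ∈ (Finset.range n).erase i,
      fz β (t + X) * kW E κ' b V (lev J K i k) (x + k * (K / E)) t + fz β (t + X) * pW E κ' 4 X t)) volume T (2 * T) := i2.add i54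
    rw [intervalIntegral.integral_sub i1 i254, intervalIntegral.integral_add i2 i54, intervalIntegral.integral_add i5 i4,
      intervalIntegral.integral_finsetSum fun k _ => (c3 k).intervalIntegrable _ _]
    -- the own part
    have b1 : ∫ t in T..(2 * T), fz β (t + X) * oW E κ' b V j₀ J X t ≤ η * (T * A) := by
      have h4 := own_le (κ' := κ') (Cv := Cv) (E₀ := E₀) hU hC hT.le hXT' hβ0.le hb (by linarith) hV (j₀ := j₀) (J := J) fun j hj => by
        have h5 := (hF E β (-(b / 2)) X j (by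
          refine g1.trans ?_
          apply mul_le_mul_of_nonneg_left _ hE0.le
          apply Real.exp_le_exp.2
          have : (j : ℝ) ≤ J := by exact_mod_cast hj
          linarith) hβ0.le hβ4 (by rw [abs_neg, abs_of_pos (by linarith)]; linarith)).2.1
        exact h5
      rw [← hA] at h4
      calc _ ≤ C ^ 2 * Real.exp Cv * (T * A) * (Real.exp (-(3 / 4 * b ^ 2) * j₀) * (1 - Real.exp (-(3 / 4 * b ^ 2)))⁻¹) := h4
        _ = C ^ 2 * Real.exp Cv * (Real.exp (-(3 / 4 * b ^ 2) * j₀) * (1 - Real.exp (-(3 / 4 * b ^ 2)))⁻¹) * (T * A) := by ring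
        _ ≤ η * (T * A) := mul_le_mul_of_nonneg_right h1 (by positivity)
    -- the competitors
    have b2 : ∑ k ∈ (Finset.range n).erase i, ∫ t in T..(2 * T), fz β (t + X) * kW E κ' b V (lev J K i k) (x + k * (K / E)) t ≤ 2 * (η * (T * A)) := by
      have h4 : ∀ k ∈ (Finset.range n).erase i, ∫ t in T..(2 * T), fz β (t + X) * kW E κ' b V (lev J K i k) (x + k * (K / E)) t ≤
          D * (T * A) * (Real.exp (V ^ 2) * K ^ (-(V ^ 2)) * |(i : ℝ) - k| ^ (-(V ^ 2)) + P) := by
        intro k hk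
        rw [Finset.mem_erase, Finset.mem_range] at hk
        have h5 : |(i : ℝ) - k| * (K / E) ≤ H := by
          have h6 := hni i hi
          have h7 := hni k hk.2
          have h8 : 0 ≤ (i : ℝ) * (K / E) := by positivity
          have h9 : 0 ≤ (k : ℝ) * (K / E) := by positivity
          rw [← abs_of_pos (by positivity : 0 < K / E), ← abs_mul, abs_le]
          constructor
          · linarith
          · linarith
        have h6 := pair_le (κ' := κ') (b := b) (H := H) (x := x) (i := i) (k := k) hF hU hC hT.le hβ0.le hβ4 hV0 hV2 hE₀ hEE hK1 hJ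
          (fun h => hk.1 h.symm) (hXT i hi) h5
        rw [← hX, ← hD, ← hA, ← hP] at h6
        exact h6
      refine (Finset.sum_le_sum h4).trans ?_
      rw [← Finset.mul_sum, Finset.sum_add_distrib, ← Finset.mul_sum, Finset.sum_const, nsmul_eq_mul]
      have h5 : ((((Finset.range n).erase i).card : ℕ) : ℝ) ≤ n := by
        have := Finset.card_erase_le (s := Finset.range n) (a := i)
        rw [Finset.card_range] at this
        exact_mod_cast this
      have h6 : 0 ≤ Real.exp (V ^ 2) * K ^ (-(V ^ 2)) := by positivity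
      calc D * (T * A) * (Real.exp (V ^ 2) * K ^ (-(V ^ 2)) * ∑ k ∈ (Finset.range n).erase i, |(i : ℝ) - k| ^ (-(V ^ 2)) +
            (((Finset.range n).erase i).card : ℕ) * P) ≤ D * (T * A) * (Real.exp (V ^ 2) * K ^ (-(V ^ 2)) * Z + n * P) := by
            apply mul_le_mul_of_nonneg_left _ (by positivity)
            exact add_le_add (mul_le_mul_of_nonneg_left (hZ n i) h6) (mul_le_mul_of_nonneg_right h5 hP0)
        _ = (D * (Real.exp (V ^ 2) * K ^ (-(V ^ 2)) * Z) + D * (n * P)) * (T * A) := by ring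
        _ ≤ (η + η) * (T * A) := mul_le_mul_of_nonneg_right (add_le_add h2 h3) (by positivity)
        _ = _ := by ring
    -- the main term
    have b3 : 8 * (η * A) ≤ Q := by
      have h4 := (hF E β 0 X 0 (by simpa using hEE) hβ0.le hβ4 (by simp)).1
      rw [← hA] at h4
      calc 8 * (η * A) = c₀ * (Real.exp (-Cv) * A) := by rw [hη]; ring
        _ ≤ c₀ * VV E (aw β X) (fun _ => 0) := mul_le_mul_of_nonneg_left h4 hc₀.le
        _ ≤ Q := q1
    have b4 : 8 * (η * (T * A)) ≤ T * Q := by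
      calc 8 * (η * (T * A)) = T * (8 * (η * A)) := by ring
        _ ≤ _ := mul_le_mul_of_nonneg_left b3 hT.le
    linarith
  -- the sum
  have cM : Continuous fun t => MH H x t ^ β := (MH_cont H x).rpow_const fun _ => Or.inr hβ0.le
  have cpsi : ∀ i : ℕ, Continuous fun t => fz β (t + (x + i * (K / E))) * psi E κ' b V K x j₀ J n i t := by
    intro i
    unfold psi
    exact (hfc _).mul (continuous_const.sub ((oW_cont _ _ _ _ _ _ _).add ((continuous_finsetSum _ fun k _ => kW_cont _ _ _ _ _ _).add (pW_cont _ _ _ _))))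
  calc n * (4 * η * (T * A)) = ∑ i ∈ Finset.range n, 4 * η * (T * A) := by rw [Finset.sum_const, Finset.card_range, nsmul_eq_mul]
    _ ≤ ∑ i ∈ Finset.range n, ∫ t in T..(2 * T), fz β (t + (x + i * (K / E))) * psi E κ' b V K x j₀ J n i t :=
        Finset.sum_le_sum fun i hi => hone i (Finset.mem_range.1 hi)
    _ = ∫ t in T..(2 * T), ∑ i ∈ Finset.range n, fz β (t + (x + i * (K / E))) * psi E κ' b V K x j₀ J n i t :=
        (intervalIntegral.integral_finsetSum fun i _ => (cpsi i).intervalIntegrable _ _).symm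
    _ ≤ _ := by
        refine intervalIntegral.integral_mono_on (by linarith) ((continuous_finsetSum _ fun i _ => cpsi i).intervalIntegrable _ _)
          (cM.intervalIntegrable _ _) fun t _ => ?_
        exact psi_sum_le hE1 hκ hβ0.le hb hb1 hV0 hV2 hH (le_of_eq hK.symm) hJ0 hJB hni

end

end Pool.Agent.H469.F4
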