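import Pool.Agent.H469.F4.P7

set_option autoImplicit false

/-!
# Moments of maxima over long intervals: upper bounds and exponents
-/

namespace Pool.Agent.H469.F4

open Filter Topology MeasureTheory Complex Pool.Agent.Q97.UM

noncomputable section

/-- **upper bound over long intervals** -/
theorem long_upper {β : ℝ} (hβ0 : 0 < β) (hβ4 : β ≤ 4) : ∃ C : ℝ, 0 < C ∧ ∀ᶠ T : ℝ in atTop, ∀ x : ℝ, |x| ≤ T / 16 → ∀ H : ℝ, 0 ≤ H →
    H ≤ T / 16 → ∫ t in T..(2 * T), MH H x t ^ β ≤ C * T * ((1 + H * Real.log T) * Real.log T ^ (β ^ 2 / 4)) := by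
  obtain ⟨C, hC, h⟩ := micro_upper hβ0 hβ4
  refine ⟨C, hC, ?_⟩
  filter_upwards [h, eventually_ge_atTop (32 : ℝ), Real.tendsto_log_atTop.eventually_ge_atTop 1] with T hT hT32 hL1 x hx H hH0 hH1
  have hT0 : 0 < T := by linarith
  have hL0 : 0 < Real.log T := by linarith
  obtain ⟨L, hL⟩ : ∃ L : ℝ, L = Real.log T := ⟨_, rfl⟩
  rw [← hL] at hT hL1 hL0 ⊢
  have hd0 : 0 < 1 / L := by positivity
  have hcM : ∀ H x, Continuous fun t => MH H x t ^ β := fun H x => (MH_cont H x).rpow_const fun _ => Or.inr hβ0.le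
  refine (intervalIntegral.integral_mono_on (by linarith) ((hcM H x).intervalIntegrable _ _)
    ((continuous_finsetSum _ fun i _ => hcM _ _).intervalIntegrable _ _) fun t _ => MH_chain hβ0 hH0 hd0 x t).trans ?_
  rw [intervalIntegral.integral_finsetSum fun i _ => (hcM _ _).intervalIntegrable _ _]
  have hn : ((⌊H / (1 / L)⌋₊ : ℕ) : ℝ) ≤ H * L := by
    refine (Nat.floor_le (div_nonneg hH0 hd0.le)).trans (le_of_eq ?_)
    field_simp
  have h1 : ∀ i ∈ Finset.range (⌊H / (1 / L)⌋₊ + 1), ∫ t in T..(2 * T), MH (1 / L) (x + i * (1 / L)) t ^ β ≤ C * T * L ^ (β ^ 2 / 4) := by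
    intro i hi
    apply hT
    have hi' : (i : ℝ) ≤ H * L := by
      have h2 : i ≤ ⌊H / (1 / L)⌋₊ := by
        have := Finset.mem_range.1 hi
        omega
      exact (Nat.cast_le.2 h2).trans hn
    have h3 : (i : ℝ) * (1 / L) ≤ T / 16 := by
      calc (i : ℝ) * (1 / L) ≤ H * L * (1 / L) := mul_le_mul_of_nonneg_right hi' hd0.le
        _ = H := by field_simp
        _ ≤ T / 16 := hH1
    have h4 : 0 ≤ (i : ℝ) * (1 / L) := by positivity
    calc |x + (i : ℝ) * (1 / L)| ≤ |x| + |(i : ℝ) * (1 / L)| := abs_add_le _ _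
      _ ≤ T / 16 + T / 16 := by rw [abs_of_nonneg h4]; linarith
      _ ≤ T / 8 := by linarith
  refine (Finset.sum_le_sum h1).trans ?_
  rw [Finset.sum_const, Finset.card_range, nsmul_eq_mul]
  push_cast
  calc ((⌊H / (1 / L)⌋₊ : ℝ) + 1) * (C * T * L ^ (β ^ 2 / 4)) ≤ (H * L + 1) * (C * T * L ^ (β ^ 2 / 4)) :=
        mul_le_mul_of_nonneg_right (by linarith) (by positivity)
    _ = _ := by ring

/-- upper bound through a moment of higher order -/
theorem high_upper {β β' : ℝ} (hβ0 : 0 < β) (hββ : β ≤ β') (hβ4 : β' ≤ 4) : ∃ C : ℝ, 0 < C ∧ ∀ᶠ T : ℝ in atTop, ∀ x : ℝ, |x| ≤ T / 16 →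
    ∀ H : ℝ, 0 ≤ H → H ≤ T / 16 →
      ∫ t in T..(2 * T), MH H x t ^ β ≤ C * T * ((1 + H * Real.log T) * Real.log T ^ (β' ^ 2 / 4)) ^ (β / β') := by
  have hβ'0 : 0 < β' := by linarith
  obtain ⟨C, hC, h⟩ := long_upper hβ'0 hβ4
  refine ⟨C ^ (β / β'), by positivity, ?_⟩
  filter_upwards [h, eventually_ge_atTop (32 : ℝ), Real.tendsto_log_atTop.eventually_ge_atTop 1] with T hT hT32 hL1 x hx H hH0 hH1
  have hT0 : 0 < T := by linarith
  have hL0 : 0 < Real.log T := by linarith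
  have h1 := hT x hx H hH0 hH1
  have hp1 : β / β' ≤ 1 := (div_le_one hβ'0).2 hββ
  have hp0 : 0 < β / β' := by positivity
  have hcM : Continuous fun t => MH H x t ^ β' := (MH_cont H x).rpow_const fun _ => Or.inr hβ'0.le
  obtain ⟨A, hA⟩ : ∃ A : ℝ, A = (1 + H * Real.log T) * Real.log T ^ (β' ^ 2 / 4) := ⟨_, rfl⟩
  have hA0 : 0 < A := by rw [hA]; positivity
  rw [← hA] at h1 ⊢
  have h2 := hold hcM (continuous_const (y := (1 : ℝ))) (fun t => Real.rpow_nonneg (MH_nonneg hH0 x t) _) (fun _ => zero_le_one)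
    (by linarith : T ≤ 2 * T) (θ := 1 - β / β') (by linarith) (by linarith) (A := C * T * A) (B := T) (by positivity) hT0 h1
    (by rw [int_one])
  have e1 : ∀ t, (MH H x t ^ β') ^ (1 - (1 - β / β')) * (1 : ℝ) ^ (1 - β / β') = MH H x t ^ β := by
    intro t
    rw [Real.one_rpow, mul_one, ← Real.rpow_mul (MH_nonneg hH0 x t)]
    congr 1
    field_simp
    ring
  simp only [e1] at h2
  refine h2.trans (le_of_eq ?_)
  have e2 : 1 - (1 - β / β') = β / β' := by ring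
  rw [e2, Real.mul_rpow (by positivity) hA0.le, Real.mul_rpow hC.le hT0.le]
  have e3 : T ^ (β / β') * T ^ (1 - β / β') = T := by
    rw [← Real.rpow_add hT0]
    simp
  calc C ^ (β / β') * T ^ (β / β') * A ^ (β / β') * T ^ (1 - β / β') =
      C ^ (β / β') * (T ^ (β / β') * T ^ (1 - β / β')) * A ^ (β / β') := by ring
    _ = _ := by rw [e3]

/-- powers of the logarithm are admissible lengths -/
theorem pow_len (θ : ℝ) : ∀ᶠ T : ℝ in atTop, Real.log T ^ θ ≤ T / 16 := by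
  have h1 : Tendsto (fun T : ℝ => Real.log T ^ θ / T) atTop (𝓝 0) := by
    have := (isLittleO_log_rpow_rpow_atTop (s := 1) θ one_pos).tendsto_div_nhds_zero
    refine this.congr fun T => ?_
    rw [Real.rpow_one]
  filter_upwards [h1.eventually_lt_const (by norm_num : (0 : ℝ) < 1 / 16), eventually_gt_atTop (0 : ℝ)] with T hT hT0
  rw [div_lt_iff₀ hT0] at hT
  linarith

/-- upper bound for the exponent -/
theorem expo_up {β β' θ : ℝ} (hβ0 : 0 < β) (hββ : β ≤ β') (hβ4 : β' ≤ 4) (hθ : -1 ≤ θ) : ∃ C : ℝ, 0 < C ∧ ∀ᶠ T : ℝ in atTop,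
    ∫ t in T..(2 * T), MH (Real.log T ^ θ) 0 t ^ β ≤ C * T * Real.log T ^ ((1 + θ + β' ^ 2 / 4) * (β / β')) := by
  have hβ'0 : 0 < β' := by linarith
  obtain ⟨C, hC, h⟩ := high_upper hβ0 hββ hβ4
  refine ⟨C * 2 ^ (β / β'), by positivity, ?_⟩
  filter_upwards [h, pow_len θ, eventually_ge_atTop (32 : ℝ), Real.tendsto_log_atTop.eventually_ge_atTop 1] with T hT hlen hT32 hL1
  have hT0 : 0 < T := by linarith
  have hL0 : 0 < Real.log T := by linarith
  have h1 := hT 0 (by rw [abs_zero]; positivity) (Real.log T ^ θ) (by positivity) hlen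
  refine h1.trans ?_
  have e1 : Real.log T ^ θ * Real.log T = Real.log T ^ (1 + θ) := by
    rw [add_comm, Real.rpow_add hL0, Real.rpow_one]
  rw [e1]
  have h2 : (1 : ℝ) ≤ Real.log T ^ (1 + θ) := Real.one_le_rpow hL1 (by linarith)
  have h3 : ((1 + Real.log T ^ (1 + θ)) * Real.log T ^ (β' ^ 2 / 4)) ^ (β / β') ≤ (2 * Real.log T ^ (1 + θ + β' ^ 2 / 4)) ^ (β / β') := by
    apply Real.rpow_le_rpow (by positivity) _ (by positivity)
    rw [Real.rpow_add hL0 (1 + θ) (β' ^ 2 / 4), ← mul_assoc]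
    apply mul_le_mul_of_nonneg_right _ (by positivity)
    linarith
  have h4 : (2 * Real.log T ^ (1 + θ + β' ^ 2 / 4)) ^ (β / β') = 2 ^ (β / β') * Real.log T ^ ((1 + θ + β' ^ 2 / 4) * (β / β')) := by
    rw [Real.mul_rpow (by norm_num) (by positivity), ← Real.rpow_mul hL0.le]
  rw [h4] at h3
  calc _ ≤ C * T * (2 ^ (β / β') * Real.log T ^ ((1 + θ + β' ^ 2 / 4) * (β / β'))) := mul_le_mul_of_nonneg_left h3 (by positivity)
    _ = _ := by ring

/-- lower bound for the exponent above the transition -/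
theorem expo_low {β θ : ℝ} (hβ2 : 2 < β) (hβ4 : β ≤ 4) (hθ : θ < β ^ 2 / 4 - 1) : ∃ c : ℝ, 0 < c ∧ ∀ᶠ T : ℝ in atTop,
    c * T * Real.log T ^ (1 + θ + β ^ 2 / 4) ≤ ∫ t in T..(2 * T), MH (Real.log T ^ θ) 0 t ^ β := by
  obtain ⟨c, hc, h⟩ := long_lower hβ2 hβ4 (ε := β ^ 2 / 4 - 1 - θ) (by linarith)
  refine ⟨c, hc, ?_⟩
  filter_upwards [h, eventually_ge_atTop (32 : ℝ), Real.tendsto_log_atTop.eventually_ge_atTop 1] with T hT hT32 hL1
  have hT0 : 0 < T := by linarith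
  have hL0 : 0 < Real.log T := by linarith
  have h1 := hT 0 (by rw [abs_zero]; positivity) (Real.log T ^ θ) (by positivity) (le_of_eq (by congr 1; ring))
  refine le_trans ?_ h1
  apply mul_le_mul_of_nonneg_left _ (by positivity)
  have e1 : Real.log T ^ θ * Real.log T = Real.log T ^ (1 + θ) := by
    rw [add_comm, Real.rpow_add hL0, Real.rpow_one]
  rw [e1, Real.rpow_add hL0 (1 + θ) (β ^ 2 / 4)]
  apply mul_le_mul_of_nonneg_right _ (by positivity)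
  linarith

/-- lower bound for the exponent below the transition -/
theorem expo_frozen {β θ η : ℝ} (hβ0 : 0 < β) (hθ0 : 0 ≤ θ) (hθ3 : θ < 3) (hβ : β ≤ 2 * Real.sqrt (1 + θ)) (hη : 0 < η) :
    ∃ c : ℝ, 0 < c ∧ ∀ᶠ T : ℝ in atTop, c * T * Real.log T ^ (β * Real.sqrt (1 + θ) - η) ≤ ∫ t in T..(2 * T), MH (Real.log T ^ θ) 0 t ^ β := by
  obtain ⟨s, hs⟩ : ∃ s : ℝ, s = Real.sqrt (1 + θ) := ⟨_, rfl⟩
  have hs2 : s ^ 2 = 1 + θ := by rw [hs]; exact Real.sq_sqrt (by linarith)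
  have hs1 : 1 ≤ s := by
    rw [hs]
    apply Real.le_sqrt_of_sq_le
    linarith
  have hs2' : s < 2 := by nlinarith
  rw [← hs] at hβ ⊢
  obtain ⟨ρ, hρ⟩ : ∃ ρ : ℝ, ρ = min ((4 - 2 * s) / 2) (min (η / 4) 1) := ⟨_, rfl⟩
  have hρ0 : 0 < ρ := by
    rw [hρ]
    exact lt_min (by linarith) (lt_min (by linarith) one_pos)
  have hρ1 : ρ ≤ (4 - 2 * s) / 2 := by rw [hρ]; exact min_le_left _ _
  have hρ2 : ρ ≤ η / 4 := by rw [hρ]; exact (min_le_right _ _).trans (min_le_left _ _)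
  have hρ3 : ρ ≤ 1 := by rw [hρ]; exact (min_le_right _ _).trans (min_le_right _ _)
  obtain ⟨b, hb⟩ : ∃ b : ℝ, b = 2 * s + ρ := ⟨_, rfl⟩
  obtain ⟨b', hb'⟩ : ∃ b' : ℝ, b' = 2 * s + 2 * ρ := ⟨_, rfl⟩
  have hbb : b < b' := by rw [hb, hb']; linarith
  have hβb : β < b := by rw [hb]; linarith
  have hb4 : b' ≤ 4 := by rw [hb']; linarith
  obtain ⟨c, hc, h1⟩ := expo_low (β := b) (θ := θ) (by rw [hb]; linarith) (by linarith) (by rw [hb]; nlinarith)
  obtain ⟨C, hC, h2⟩ := expo_up (β := b') (β' := b') (θ := θ) (by linarith) le_rfl hb4 (by linarith)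
  obtain ⟨ϑ, hϑ⟩ : ∃ ϑ : ℝ, ϑ = (b - β) / (b' - β) := ⟨_, rfl⟩
  have hd : 0 < b' - β := by linarith
  have hϑ0 : 0 < ϑ := by rw [hϑ]; exact div_pos (by linarith) hd
  have hϑ1 : ϑ < 1 := by rw [hϑ, div_lt_one hd]; linarith
  have hϑb : b = β * (1 - ϑ) + b' * ϑ := by
    rw [hϑ]
    field_simp
    ring
  have hcC : 0 < c / C ^ ϑ := by positivity
  have hcC2 : 0 < (c / C ^ ϑ) ^ (1 / (1 - ϑ)) := Real.rpow_pos_of_pos hcC _
  refine ⟨(c / C ^ ϑ) ^ (1 / (1 - ϑ)), hcC2, ?_⟩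
  filter_upwards [h1, h2, eventually_ge_atTop (32 : ℝ), Real.tendsto_log_atTop.eventually_ge_atTop 1] with T h1 h2 hT32 hL1
  have hT0 : 0 < T := by linarith
  have hL0 : 0 < Real.log T := by linarith
  obtain ⟨H, hH⟩ : ∃ H : ℝ, H = Real.log T ^ θ := ⟨_, rfl⟩
  have hH0 : 0 ≤ H := by rw [hH]; positivity
  rw [← hH] at h1 h2 ⊢
  have hM0 : ∀ (p : ℝ) (t : ℝ), 0 ≤ MH H 0 t ^ p := fun p t => Real.rpow_nonneg (MH_nonneg hH0 0 t) _
  have cM : ∀ p : ℝ, 0 < p → Continuous fun t => MH H 0 t ^ p := fun p hp => (MH_cont H 0).rpow_const fun _ => Or.inr hp.le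
  have e1 : (1 + θ + b' ^ 2 / 4) * (b' / b') = 1 + θ + b' ^ 2 / 4 := by
    rw [div_self (by linarith), mul_one]
  rw [e1] at h2
  obtain ⟨A, hA⟩ : ∃ A : ℝ, A = ∫ t in T..(2 * T), MH H 0 t ^ β := ⟨_, rfl⟩
  have hA0 : 0 ≤ A := by rw [hA]; exact intervalIntegral.integral_nonneg (by linarith) fun t _ => hM0 β t
  rw [← hA]
  -- Hölder
  have e2 : ∀ t, (MH H 0 t ^ β) ^ (1 - ϑ) * (MH H 0 t ^ b') ^ ϑ = MH H 0 t ^ b := by
    intro t
    have h0 := MH_nonneg hH0 0 t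
    rw [← Real.rpow_mul h0, ← Real.rpow_mul h0, ← Real.rpow_add' h0]
    · congr 1
      rw [hϑb]
    · rw [← hϑb]
      linarith
  have h3 : ∀ A' : ℝ, A < A' → ∫ t in T..(2 * T), MH H 0 t ^ b ≤ A' ^ (1 - ϑ) * (C * T * Real.log T ^ (1 + θ + b' ^ 2 / 4)) ^ ϑ := by
    intro A' hA'
    have h4 := hold (cM β hβ0) (cM b' (by linarith)) (hM0 β) (hM0 b') (by linarith : T ≤ 2 * T) (θ := ϑ) hϑ0.le hϑ1.le (A := A')
      (B := C * T * Real.log T ^ (1 + θ + b' ^ 2 / 4)) (by linarith) (by positivity) (by rw [← hA]; exact hA'.le) h2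
    simp only [e2] at h4
    exact h4
  have hexp : (c / C ^ ϑ) ^ (1 / (1 - ϑ)) * T * Real.log T ^ (β * s - η) ≤ (c / C ^ ϑ) ^ (1 / (1 - ϑ)) * T *
      Real.log T ^ (1 + θ + β ^ 2 / 4 - (b - β) * (b' - β) / 4) := by
    apply mul_le_mul_of_nonneg_left _ (by positivity)
    apply Real.rpow_le_rpow_of_exponent_le hL1
    rw [← hs2, hb, hb']
    nlinarith
  refine hexp.trans ?_
  apply le_of_forall_gt_imp_ge_of_dense
  intro A' hA'
  refine solve (e0 := 1 + θ + b ^ 2 / 4) (e1 := 1 + θ + b' ^ 2 / 4) hϑ1 hc hC hT0 hL0 (by linarith) ?_ (h1.trans (h3 A' hA'))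
  have hkey : ϑ * (b' - β) = b - β := by
    rw [hϑ]
    field_simp
  have e3 : (b - β) * (b' - β) = ϑ * (b' - β) ^ 2 := by rw [← hkey]; ring
  rw [e3, hϑb]
  ring

/-- from bounds to limits -/
theorem lim_of_bounds {A : ℝ → ℝ} {f : ℝ} (hup : ∃ C : ℝ, 0 < C ∧ ∀ᶠ T : ℝ in atTop, A T ≤ C * Real.log T ^ f)
    (hlow : ∀ η : ℝ, 0 < η → ∃ c : ℝ, 0 < c ∧ ∀ᶠ T : ℝ in atTop, c * Real.log T ^ (f - η) ≤ A T) :
    Tendsto (fun T => Real.log (A T) / Real.log (Real.log T)) atTop (𝓝 f) := by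
  rw [Metric.tendsto_atTop']
  intro ε hε
  obtain ⟨C, hC, h1⟩ := hup
  obtain ⟨c, hc, h2⟩ := hlow (ε / 2) (by linarith)
  have hℓ : Tendsto (fun T : ℝ => Real.log (Real.log T)) atTop atTop := Real.tendsto_log_atTop.comp Real.tendsto_log_atTop
  have hev := h1.and (h2.and ((Real.tendsto_log_atTop.eventually_ge_atTop 1).and ((hℓ.eventually_gt_atTop 0).and
    ((hℓ.eventually_gt_atTop (Real.log C / ε)).and (hℓ.eventually_gt_atTop (-Real.log c / (ε / 2)))))))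
  obtain ⟨N, hN⟩ := eventually_atTop.1 hev
  refine ⟨N, fun T hT => ?_⟩
  obtain ⟨g1, g2, hL1, hℓ0, g3, g4⟩ := hN T hT.le
  have hL0 : 0 < Real.log T := by linarith
  obtain ⟨ℓ, hℓd⟩ : ∃ ℓ : ℝ, ℓ = Real.log (Real.log T) := ⟨_, rfl⟩
  rw [← hℓd] at hℓ0 g3 g4 ⊢
  have hA0 : 0 < A T := lt_of_lt_of_le (by positivity) g2
  have u1 : Real.log (A T) ≤ Real.log C + f * ℓ := by
    have := Real.log_le_log hA0 g1
    rwa [Real.log_mul hC.ne' (by positivity), Real.log_rpow hL0, ← hℓd] at this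
  have u2 : Real.log c + (f - ε / 2) * ℓ ≤ Real.log (A T) := by
    have := Real.log_le_log (by positivity) g2
    rwa [Real.log_mul hc.ne' (by positivity), Real.log_rpow hL0, ← hℓd] at this
  rw [div_lt_iff₀ hε] at g3
  rw [div_lt_iff₀ (by linarith)] at g4
  rw [Real.dist_eq, abs_lt]
  constructor
  · rw [lt_sub_iff_add_lt, lt_div_iff₀ hℓ0]
    linarith
  · rw [sub_lt_iff_lt_add, div_lt_iff₀ hℓ0]
    linarith

end

end Pool.Agent.H469.F4
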