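import Pool.Agent.H469.F4.TORU

set_option autoImplicit false

/-!
# The Euler factors at the small primes
-/

namespace Pool.Agent.H469.F4

open Filter Topology MeasureTheory Complex UnitAddTorus Pool.Agent.Q97.UM Pool.Agent.V1167.PP

noncomputable section

theorem two_factor (z : ℂ) (hz : ‖z‖ ≤ 3 / 4) : |Real.log ‖1 - z‖ + (z + z ^ 2 / 2).re| ≤ 2 * ‖z‖ ^ 3 := by
  have hz1 : ‖-z‖ < 1 := by
    rw [norm_neg]
    linarith
  have h1 := Complex.norm_log_sub_logTaylor_le 2 hz1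
  have h2 : Complex.logTaylor 3 (-z) = -z - z ^ 2 / 2 := by
    rw [Complex.logTaylor_succ, Complex.logTaylor_succ, Complex.logTaylor_succ, Complex.logTaylor_zero]
    simp
    ring
  rw [h2] at h1
  have h4 : ‖-z‖ ^ (2 + 1) * (1 - ‖-z‖)⁻¹ / ((2 : ℕ) + 1) ≤ 2 * ‖z‖ ^ 3 := by
    rw [norm_neg]
    have h5 : (1 - ‖z‖)⁻¹ ≤ 4 := by
      rw [inv_le_comm₀ (by linarith) (by norm_num)]
      linarith
    have h6 : 0 ≤ ‖z‖ ^ 3 := by positivity
    push_cast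
    have h7 : ‖z‖ ^ (2 + 1) * (1 - ‖z‖)⁻¹ ≤ ‖z‖ ^ 3 * 4 := mul_le_mul_of_nonneg_left h5 h6
    linarith
  have h9 := (Complex.abs_re_le_norm _).trans (h1.trans h4)
  have h8 : Real.log ‖1 - z‖ = (Complex.log (1 + -z)).re := by
    rw [Complex.log_re, sub_eq_add_neg]
  rw [h8]
  have h10 : (Complex.log (1 + -z)).re + (z + z ^ 2 / 2).re = (Complex.log (1 + -z) - (-z - z ^ 2 / 2)).re := by
    simp only [Complex.sub_re, Complex.neg_re, Complex.add_re]
    ring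
  rw [h10]
  exact h9

/-- the primes up to `X` -/
def SX (X : ℕ) : Finset Nat.Primes := (Finset.Icc 1 X).subtype Nat.Prime

/-- the primes of a finite set -/
def pS (S : Finset Nat.Primes) : S → ℕ := fun j => ((j : Nat.Primes) : ℕ)

theorem pS_prime (S : Finset Nat.Primes) : ∀ j, (pS S j).Prime := fun j => (j : Nat.Primes).2

theorem pS_inj (S : Finset Nat.Primes) : Function.Injective (pS S) := fun _ _ h => Subtype.ext (Subtype.ext h)

theorem sum_SX (X : ℕ) (f : ℕ → ℝ) : ∑ j, f (pS (SX X) j) = ∑ p ∈ (Finset.Icc 1 X).filter Nat.Prime, f p := by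
  rw [← Finset.sum_subtype_eq_sum_filter]
  exact Finset.sum_coe_sort (SX X) (fun q => f (q : ℕ))

theorem mem_SX {X : ℕ} {q : Nat.Primes} : q ∈ SX X ↔ (q : ℕ) ≤ X := by
  have h0 : q ∈ SX X ↔ (q : ℕ) ∈ Finset.Icc 1 X := Finset.mem_subtype
  rw [h0, Finset.mem_Icc]
  have := q.2.pos
  constructor
  · intro h
    exact h.2
  · intro h
    exact ⟨this, h⟩

/-- the constant of the comparison -/
def K1 : ℝ := Real.exp (8 * ∑' n : ℕ, (n : ℝ) ^ (-(3 / 2) : ℝ))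

theorem K1_one : 1 ≤ K1 := Real.one_le_exp (mul_nonneg (by norm_num) (tsum_nonneg fun n => by positivity))

theorem fph (p : ℕ) (hp : 0 < p) (t : ℝ) : fourier 1 ((t * Real.log p / (2 * Real.pi) : ℝ) : UnitAddCircle) = (p : ℂ) ^ ((t : ℂ) * I) := by
  rw [fourier_ex, Complex.cpow_def_of_ne_zero (by exact_mod_cast hp.ne')]
  unfold ex
  congr 1
  rw [← Complex.natCast_log]
  push_cast
  have : (Real.pi : ℂ) ≠ 0 := by exact_mod_cast Real.pi_ne_zero
  field_simp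

theorem norm_euler {p : ℕ} (hp : 0 < p) (t : ℝ) :
    ‖1 - (p : ℂ) ^ ((t : ℂ) * I) / (Real.sqrt p : ℂ)‖ = ‖1 - (p : ℂ) ^ (-(1 / 2 + t * I))‖ := by
  have hpc : (p : ℂ) ≠ 0 := by exact_mod_cast hp.ne'
  have h1 : (starRingEnd ℂ) (1 - (p : ℂ) ^ ((t : ℂ) * I) / (Real.sqrt p : ℂ)) = 1 - (p : ℂ) ^ (-(1 / 2 + t * I)) := by
    rw [map_sub, map_one, map_div₀, Complex.conj_ofReal]
    congr 1
    have h2 : (starRingEnd ℂ) ((p : ℂ) ^ ((t : ℂ) * I)) = (p : ℂ) ^ (-((t : ℂ) * I)) := by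
      have h3 := Complex.cpow_conj (p : ℂ) ((t : ℂ) * I) (by
        rw [Complex.natCast_arg]
        exact Real.pi_ne_zero.symm)
      rw [Complex.conj_natCast, map_mul, Complex.conj_ofReal, Complex.conj_I] at h3
      rw [← h3]
      congr 1
      ring
    have h4 : (Real.sqrt p : ℂ) = (p : ℂ) ^ (1 / 2 : ℂ) := by
      rw [Real.sqrt_eq_rpow, Complex.ofReal_cpow (Nat.cast_nonneg p)]
      push_cast
      rfl
    rw [h2, h4, ← Complex.cpow_sub _ _ hpc]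
    congr 1
    ring
  rw [← h1, Complex.norm_conj]

/-- **the Euler factors against the exponential of the prime sum** -/
theorem efT_PA {s : ℝ} (hs0 : 0 ≤ s) (hs2 : s ≤ 2) (X : ℕ) (t : ℝ) :
    efT s (pS (SX X)) (ph (pS (SX X)) t) ≤ K1 * ‖cexp (PA X (fun _ => (s : ℂ)) (fun _ => (s : ℂ)) t)‖ ^ 2 ∧
      ‖cexp (PA X (fun _ => (s : ℂ)) (fun _ => (s : ℂ)) t)‖ ^ 2 ≤ K1 * efT s (pS (SX X)) (ph (pS (SX X)) t) := by
  obtain ⟨z, hz⟩ : ∃ z : ℕ → ℂ, ∀ p, z p = (p : ℂ) ^ (-(1 / 2 + t * I)) := ⟨_, fun _ => rfl⟩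
  have h1 : efT s (pS (SX X)) (ph (pS (SX X)) t) =
      Real.exp (∑ p ∈ (Finset.Icc 1 X).filter Nat.Prime, -(2 * s) * Real.log ‖1 - z p‖) := by
    unfold efT
    rw [← sum_SX X (fun p => -(2 * s) * Real.log ‖1 - z p‖), Real.exp_sum]
    refine Finset.prod_congr rfl fun j _ => ?_
    have h2 : fourier 1 (ph (pS (SX X)) t j) = ((pS (SX X) j : ℕ) : ℂ) ^ ((t : ℂ) * I) := fph _ (pS_prime _ j).pos t
    rw [h2, norm_euler (pS_prime _ j).pos, ← hz]
    have h3 : ‖z (pS (SX X) j)‖ < 1 := by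
      rw [hz]
      exact (Pool.Agent.Q150.UM.nw_le t (pS_prime _ j).two_le).trans_lt (by norm_num)
    have h4 : 0 < ‖1 - z (pS (SX X) j)‖ := by
      rw [norm_pos_iff, sub_ne_zero]
      intro h
      rw [← h] at h3
      simp at h3
    rw [Real.rpow_def_of_pos h4, mul_comm]
  have h2 : ‖cexp (PA X (fun _ => (s : ℂ)) (fun _ => (s : ℂ)) t)‖ ^ 2 =
      Real.exp (∑ p ∈ (Finset.Icc 1 X).filter Nat.Prime, 2 * s * (z p + z p ^ 2 / 2).re) := by
    rw [Complex.norm_exp, ← Real.exp_nat_mul]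
    congr 1
    unfold PA
    rw [Complex.re_sum, Finset.mul_sum]
    refine Finset.sum_congr rfl fun p hp => ?_
    rw [Finset.mem_filter] at hp
    have h3 : (z p) ^ 2 = (p : ℂ) ^ (-(1 + 2 * t * I)) := by
      rw [hz, ← Complex.cpow_nat_mul]
      congr 1
      push_cast
      ring
    have h4 : (s : ℂ) * (p : ℂ) ^ (-(1 / 2 + t * I)) + (s : ℂ) / 2 * (p : ℂ) ^ (-(1 + 2 * t * I)) = (s : ℂ) * (z p + z p ^ 2 / 2) := by
      rw [h3, hz]
      ring
    rw [h4, Complex.re_ofReal_mul]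
    push_cast
    ring
  have h3 : ∑ p ∈ (Finset.Icc 1 X).filter Nat.Prime, 4 * s * ‖z p‖ ^ 3 ≤ 8 * ∑' n : ℕ, (n : ℝ) ^ (-(3 / 2) : ℝ) := by
    have h4 : ∀ p ∈ (Finset.Icc 1 X).filter Nat.Prime, 4 * s * ‖z p‖ ^ 3 ≤ 8 * (p : ℝ) ^ (-(3 / 2) : ℝ) := by
      intro p hp
      rw [Finset.mem_filter] at hp
      have h5 : ‖z p‖ ^ 3 = (p : ℝ) ^ (-(3 / 2) : ℝ) := by
        rw [hz, Pool.Agent.Q150.UM.nw t hp.2.pos, ← Real.rpow_natCast, ← Real.rpow_mul (Nat.cast_nonneg p)]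
        norm_num
      rw [h5]
      apply mul_le_mul_of_nonneg_right _ (by positivity)
      linarith
    refine (Finset.sum_le_sum h4).trans ?_
    rw [← Finset.mul_sum]
    exact mul_le_mul_of_nonneg_left (Pool.Agent.Q150.UM.sum_32.sum_le_tsum _ fun n _ => by positivity) (by norm_num)
  have h4 : ∀ p ∈ (Finset.Icc 1 X).filter Nat.Prime,
      |2 * s * (Real.log ‖1 - z p‖ + (z p + z p ^ 2 / 2).re)| ≤ 4 * s * ‖z p‖ ^ 3 := by
    intro p hp
    rw [Finset.mem_filter] at hp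
    have h5 := two_factor (z p) (by rw [hz]; exact Pool.Agent.Q150.UM.nw_le t hp.2.two_le)
    rw [abs_mul, abs_of_nonneg (by positivity : 0 ≤ 2 * s)]
    calc 2 * s * |Real.log ‖1 - z p‖ + (z p + z p ^ 2 / 2).re| ≤ 2 * s * (2 * ‖z p‖ ^ 3) :=
          mul_le_mul_of_nonneg_left h5 (by positivity)
      _ = _ := by ring
  have h5 := (Finset.abs_sum_le_sum_abs _ _).trans ((Finset.sum_le_sum h4).trans h3)
  rw [abs_le] at h5
  have h6 : ∑ p ∈ (Finset.Icc 1 X).filter Nat.Prime, 2 * s * (Real.log ‖1 - z p‖ + (z p + z p ^ 2 / 2).re) =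
      (∑ p ∈ (Finset.Icc 1 X).filter Nat.Prime, 2 * s * (z p + z p ^ 2 / 2).re) -
        ∑ p ∈ (Finset.Icc 1 X).filter Nat.Prime, -(2 * s) * Real.log ‖1 - z p‖ := by
    rw [← Finset.sum_sub_distrib]
    exact Finset.sum_congr rfl fun p _ => by ring
  rw [h6] at h5
  rw [h1, h2]
  unfold K1
  rw [← Real.exp_add, ← Real.exp_add]
  constructor
  · apply Real.exp_le_exp.2
    linarith [h5.1]
  · apply Real.exp_le_exp.2
    linarith [h5.2]

/-- the mean value over the law of the phases in `S` -/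
def ES (s : ℝ) (S : Finset Nat.Primes) (G : UnitAddTorus S → ℝ) : ℝ :=
  ∫ x, G (fun j => ((x j : ℝ) : UnitAddCircle)) ∂(Measure.pi fun j : S => law s (pS S j))

theorem ES_infinite (s : ℝ) (S : Finset Nat.Primes) (G : C(UnitAddTorus S, ℝ)) :
    ES s S G = ∫ x, G (fun j : S => ((x (j : Nat.Primes) : ℝ) : UnitAddCircle)) ∂(Measure.infinitePi fun p : Nat.Primes => law s p) := by
  have := fun p : Nat.Primes => law_prob (s := s) p.2
  have hmeas : AEStronglyMeasurable (fun y : S → ℝ => G (fun j => ((y j : ℝ) : UnitAddCircle)))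
      (Measure.pi fun i : S => law s (i : Nat.Primes)) := (G.continuous.comp mk_cont).aestronglyMeasurable
  exact (integral_restrict_infinitePi (μ := fun p : Nat.Primes => law s p) hmeas).symm

/-- restriction of the phases -/
def rs {S S' : Finset Nat.Primes} (h : S ⊆ S') (θ : UnitAddTorus S') : UnitAddTorus S := fun j => θ ⟨j, h j.2⟩

theorem rs_cont {S S' : Finset Nat.Primes} (h : S ⊆ S') : Continuous (rs h) :=
  continuous_pi fun _ => continuous_apply _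

theorem rs_ph {S S' : Finset Nat.Primes} (h : S ⊆ S') (t : ℝ) : rs h (ph (pS S') t) = ph (pS S) t := rfl

theorem ES_rs (s : ℝ) {S S' : Finset Nat.Primes} (h : S ⊆ S') (G : C(UnitAddTorus S, ℝ)) :
    ES s S' (fun θ => G (rs h θ)) = ES s S G := by
  rw [ES_infinite s S G]
  exact ES_infinite s S' (G.comp ⟨rs h, rs_cont h⟩)

theorem ES_const (s : ℝ) (S : Finset Nat.Primes) (c : ℝ) : ES s S (fun _ => c) = c := by
  have := fun j => law_prob (s := s) (pS_prime S j)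
  unfold ES
  simp

theorem ES_int (s : ℝ) (S : Finset Nat.Primes) (G : C(UnitAddTorus S, ℝ)) :
    Integrable (fun x : S → ℝ => G (fun j => ((x j : ℝ) : UnitAddCircle))) (Measure.pi fun j : S => law s (pS S j)) := by
  have := fun j => law_prob (s := s) (pS_prime S j)
  refine (integrable_const (‖G‖ : ℝ)).mono (G.continuous.comp mk_cont).aestronglyMeasurable
    (Eventually.of_forall fun x => ?_)
  rw [norm_norm]
  exact G.norm_coe_le_norm _

theorem ES_mono (s : ℝ) (S : Finset Nat.Primes) (G H : C(UnitAddTorus S, ℝ)) {c : ℝ} (h : ∀ θ, G θ ≤ H θ + c) :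
    ES s S G ≤ ES s S H + c := by
  have := fun j => law_prob (s := s) (pS_prime S j)
  unfold ES
  have h1 : ∫ x, (H (fun j => ((x j : ℝ) : UnitAddCircle)) + c) ∂(Measure.pi fun j : S => law s (pS S j)) =
      ∫ x, H (fun j => ((x j : ℝ) : UnitAddCircle)) ∂(Measure.pi fun j : S => law s (pS S j)) + c := by
    rw [integral_add (ES_int s S H) (integrable_const c)]
    simp
  rw [← h1]
  exact integral_mono (ES_int s S G) ((ES_int s S H).add (integrable_const c)) fun x => h _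

theorem dpc' (N : ℕ) (b : ℕ → ℂ) : Continuous (dp N b) := (Pool.Agent.Q84.UM.t_DPM.2.2 N b 0).2

/-- **the mean square of the small part** -/
theorem N2_euler {s : ℝ} (hs0 : 0 ≤ s) (hs2 : s ≤ 2) {X M : ℕ} {g : ℕ → ℂ} (hg : ∀ n, g n ≠ 0 → 1 ≤ n ∧ n ≤ M)
    (hgX : ∀ t : ℝ, ‖cexp (PA X (fun _ => (s : ℂ)) (fun _ => (s : ℂ)) t)‖ / 2 ≤ ‖dp M g t‖ ∧
      ‖dp M g t‖ ≤ 2 * ‖cexp (PA X (fun _ => (s : ℂ)) (fun _ => (s : ℂ)) t)‖)
    {S : Finset Nat.Primes} (hS : S ⊆ SX X) (Q : C(UnitAddTorus S, ℂ)) {N : ℕ} {b : ℕ → ℂ} (hb : ∀ n, b n ≠ 0 → 1 ≤ n ∧ n ≤ N)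
    (hbQ : ∀ t, ‖dp N b t‖ = ‖Q (ph (pS S) t)‖) :
    mass s (pS (SX X)) * ES s S (fun θ => ‖Q θ‖ ^ 2) ≤ 8 * K1 * N2 (M * N) (cv g b) ∧
      N2 (M * N) (cv g b) ≤ 8 * K1 * (mass s (pS (SX X)) * ES s S (fun θ => ‖Q θ‖ ^ 2)) := by
  have hp := pS_prime (SX X)
  obtain ⟨m, hm⟩ : ∃ m : ℝ, m = mass s (pS (SX X)) := ⟨_, rfl⟩
  obtain ⟨E, hE⟩ : ∃ E : ℝ, E = ES s S (fun θ => ‖Q θ‖ ^ 2) := ⟨_, rfl⟩
  obtain ⟨F, hF⟩ : ∃ F : ℝ → ℝ, ∀ t, F t = efT s (pS (SX X)) (ph (pS (SX X)) t) * ‖Q (ph (pS S) t)‖ ^ 2 := ⟨_, fun _ => rfl⟩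
  have hFc : Continuous F := by
    have h1 : F = fun t => efT s (pS (SX X)) (ph (pS (SX X)) t) * ‖Q (ph (pS S) t)‖ ^ 2 := funext hF
    rw [h1]
    exact ((efT_cont hp s).comp (ph_cont _)).mul ((Q.continuous.comp (ph_cont _)).norm.pow 2)
  have hFn : ∀ t, 0 ≤ F t := fun t => by
    rw [hF]
    exact mul_nonneg (efT_nonneg _ _ _) (by positivity)
  -- the limit
  have hlim : Tendsto (fun V : ℝ => (1 / V) * ∫ t in V..(2 * V), F t) atTop (𝓝 (m * E)) := by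
    obtain ⟨H, hH⟩ : ∃ H : C(UnitAddTorus (SX X), ℂ), ∀ θ, H θ = ((‖Q (rs hS θ)‖ ^ 2 : ℝ) : ℂ) :=
      ⟨⟨fun θ => ((‖Q (rs hS θ)‖ ^ 2 : ℝ) : ℂ), Complex.continuous_ofReal.comp ((Q.continuous.comp (rs_cont hS)).norm.pow 2)⟩,
        fun _ => rfl⟩
    have h1 := weyl hp (pS_inj (SX X)) (efC hp s H)
    rw [tilt_fin hp s H] at h1
    have h2 : Lam s (pS (SX X)) H = (E : ℂ) := by
      unfold Lam
      have e1 : ∀ x : SX X → ℝ, H (fun j => ((x j : ℝ) : UnitAddCircle)) =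
          ((‖Q (rs hS (fun j => ((x j : ℝ) : UnitAddCircle)))‖ ^ 2 : ℝ) : ℂ) := fun x => hH _
      simp_rw [e1]
      rw [integral_complex_ofReal]
      congr 1
      rw [hE]
      exact ES_rs s hS ⟨fun θ => ‖Q θ‖ ^ 2, Q.continuous.norm.pow 2⟩
    rw [h2, ← hm, ← Complex.ofReal_mul] at h1
    have h3 := (Complex.continuous_re.tendsto _).comp h1
    rw [Complex.ofReal_re] at h3
    refine h3.congr' ?_
    filter_upwards [eventually_gt_atTop (0 : ℝ)] with V hV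
    show (∫ t in Set.Icc V (2 * V), ((1 / V : ℝ) : ℂ) * efC hp s H (ph (pS (SX X)) t)).re = _
    have e2 : ∀ t, ((1 / V : ℝ) : ℂ) * efC hp s H (ph (pS (SX X)) t) = ((1 / V * F t : ℝ) : ℂ) := by
      intro t
      have e3 : efC hp s H (ph (pS (SX X)) t) = (efT s (pS (SX X)) (ph (pS (SX X)) t) : ℂ) * H (ph (pS (SX X)) t) := rfl
      rw [e3, hH, rs_ph, hF]
      push_cast
      ring
    simp_rw [e2]
    rw [integral_complex_ofReal, Complex.ofReal_re, integral_const_mul, intervalIntegral.integral_of_le (by linarith),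
      integral_Icc_eq_integral_Ioc]
  -- the polynomial
  have hdpm : ∀ t, dp M g t * dp N b t = dp (M * N) (cv g b) t := fun t =>
    Pool.Agent.Q84.UM.t_DPM.1 M N g b t (fun n hn => by
      by_contra hc
      have := (hg n hc).2
      omega) (fun n hn => by
      by_contra hc
      have := (hb n hc).2
      omega)
  have hK := K1_one
  have hK0 : 0 < K1 := by linarith
  have hsq : ∀ t, F t ≤ 4 * K1 * ‖dp (M * N) (cv g b) t‖ ^ 2 ∧ ‖dp (M * N) (cv g b) t‖ ^ 2 ≤ 4 * K1 * F t := by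
    intro t
    obtain ⟨h1, h2⟩ := efT_PA hs0 hs2 X t
    obtain ⟨h3, h4⟩ := hgX t
    obtain ⟨P, hP⟩ : ∃ P : ℝ, P = ‖cexp (PA X (fun _ => (s : ℂ)) (fun _ => (s : ℂ)) t)‖ := ⟨_, rfl⟩
    rw [← hP] at h1 h2 h3 h4
    have hP0 : 0 ≤ P := by rw [hP]; positivity
    rw [← hdpm t, norm_mul, mul_pow, hF t, hbQ t]
    have h5 : ‖dp M g t‖ ^ 2 ≤ 4 * P ^ 2 := by
      calc ‖dp M g t‖ ^ 2 ≤ (2 * P) ^ 2 := pow_le_pow_left₀ (norm_nonneg _) h4 2
        _ = _ := by ring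
    have h6 : P ^ 2 ≤ 4 * ‖dp M g t‖ ^ 2 := by
      calc P ^ 2 = 4 * (P / 2) ^ 2 := by ring
        _ ≤ _ := mul_le_mul_of_nonneg_left (pow_le_pow_left₀ (by positivity) h3 2) (by norm_num)
    have hq : 0 ≤ ‖Q (ph (pS S) t)‖ ^ 2 := by positivity
    constructor
    · calc efT s (pS (SX X)) (ph (pS (SX X)) t) * ‖Q (ph (pS S) t)‖ ^ 2 ≤ (K1 * P ^ 2) * ‖Q (ph (pS S) t)‖ ^ 2 :=
            mul_le_mul_of_nonneg_right h1 hq
        _ ≤ (K1 * (4 * ‖dp M g t‖ ^ 2)) * ‖Q (ph (pS S) t)‖ ^ 2 :=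
            mul_le_mul_of_nonneg_right (mul_le_mul_of_nonneg_left h6 hK0.le) hq
        _ = _ := by ring
    · calc ‖dp M g t‖ ^ 2 * ‖Q (ph (pS S) t)‖ ^ 2 ≤ (4 * P ^ 2) * ‖Q (ph (pS S) t)‖ ^ 2 := mul_le_mul_of_nonneg_right h5 hq
        _ ≤ (4 * (K1 * efT s (pS (SX X)) (ph (pS (SX X)) t))) * ‖Q (ph (pS S) t)‖ ^ 2 :=
            mul_le_mul_of_nonneg_right (mul_le_mul_of_nonneg_left h2 (by norm_num)) hq
        _ = _ := by ring
  obtain ⟨L, hL⟩ : ∃ L : ℕ, L = M * N := ⟨_, rfl⟩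
  obtain ⟨c, hc⟩ : ∃ c : ℕ → ℂ, c = cv g b := ⟨_, rfl⟩
  rw [← hL, ← hc] at hsq
  rw [← hm, ← hE, ← hL, ← hc]
  have hlen : ∀ᶠ V : ℝ in atTop, (L : ℝ) ≤ V ^ (1 / 4 : ℝ) :=
    (tendsto_rpow_atTop (by norm_num : (0 : ℝ) < 1 / 4)).eventually_ge_atTop _
  have hdc : Continuous fun t => ‖dp L c t‖ ^ 2 := (dpc' L c).norm.pow 2
  constructor
  · refine le_of_tendsto hlim ?_
    filter_upwards [hlen, eventually_ge_atTop (16 : ℝ)] with V hV hV16
    have h1 := (Pool.Agent.Q84.UM.t_MVL V hV16 L hV c).2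
    have h2 : ∫ t in V..(2 * V), F t ≤ ∫ t in V..(2 * V), 4 * K1 * ‖dp L c t‖ ^ 2 :=
      intervalIntegral.integral_mono_on (by linarith) (hFc.intervalIntegrable _ _) ((hdc.const_smul (4 * K1)).intervalIntegrable _ _)
        fun t _ => (hsq t).1
    rw [intervalIntegral.integral_const_mul] at h2
    have hV0 : 0 < V := by linarith
    calc 1 / V * ∫ t in V..(2 * V), F t ≤ 1 / V * (4 * K1 * (2 * V * N2 L c)) := by
          apply mul_le_mul_of_nonneg_left _ (by positivity)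
          exact h2.trans (mul_le_mul_of_nonneg_left h1 (by positivity))
      _ = _ := by field_simp; ring
  · have h8 := hlim.const_mul (8 * K1)
    refine ge_of_tendsto h8 ?_
    filter_upwards [hlen, eventually_ge_atTop (16 : ℝ)] with V hV hV16
    have h1 := (Pool.Agent.Q84.UM.t_MVL V hV16 L hV c).1
    have h2 : ∫ t in V..(2 * V), ‖dp L c t‖ ^ 2 ≤ ∫ t in V..(2 * V), 4 * K1 * F t :=
      intervalIntegral.integral_mono_on (by linarith) (hdc.intervalIntegrable _ _) ((hFc.const_smul (4 * K1)).intervalIntegrable _ _)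
        fun t _ => (hsq t).2
    rw [intervalIntegral.integral_const_mul] at h2
    have hV0 : 0 < V := by linarith
    have h3 : V / 2 * N2 L c ≤ 4 * K1 * ∫ t in V..(2 * V), F t := h1.trans h2
    calc N2 L c = 1 / V * (2 * (V / 2 * N2 L c)) := by field_simp
      _ ≤ 1 / V * (2 * (4 * K1 * ∫ t in V..(2 * V), F t)) := by
          apply mul_le_mul_of_nonneg_left _ (by positivity)
          linarith
      _ = _ := by ring

end

end Pool.Agent.H469.F4
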