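import Pool.Agent.H469.F4.PHB

set_option autoImplicit false

/-!
# From dyadic intervals to `[x, x + T]`, and limit laws
-/

namespace Pool.Agent.H469.F4

open Filter Topology MeasureTheory Complex UnitAddTorus Pool.Agent.Q97.UM Pool.Agent.V1167.PP

noncomputable section

theorem log_quarter : ∀ᶠ T : ℝ in atTop, 1 ≤ Real.log T ∧ Real.log T ≤ 2 * Real.log (T / 3) ∧ Real.log (2 * T) ≤ 2 * Real.log T := by
  filter_upwards [eventually_ge_atTop (9 : ℝ)] with T hT
  refine ⟨?_, ?_, ?_⟩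
  · rw [Real.le_log_iff_exp_le (by linarith)]
    have := Real.exp_one_lt_d9
    linarith
  · have h1 : (2 : ℝ) * Real.log (T / 3) = Real.log ((T / 3) ^ 2) := by rw [Real.log_pow]; norm_num
    rw [h1]
    apply Real.log_le_log (by linarith)
    nlinarith
  · have h1 : (2 : ℝ) * Real.log T = Real.log (T ^ 2) := by rw [Real.log_pow]; norm_num
    rw [h1]
    apply Real.log_le_log (by linarith)
    nlinarith

theorem dyad_up {f : ℝ → ℝ} (hf : Continuous f) (hf0 : ∀ t, 0 ≤ f t) {p b T₀ : ℝ} (hp : 0 ≤ p) (hb : 0 ≤ b) (hT₀ : 3 ≤ T₀)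
    (hup : ∀ T : ℝ, T₀ ≤ T → ∫ t in T..(2 * T), f t ≤ b * (T * Real.log T ^ p)) (n : ℕ) :
    ∀ T : ℝ, T₀ ≤ T → T ≤ 2 ^ n * T₀ → ∫ t in T₀..T, f t ≤ 2 * b * (T * Real.log T ^ p) := by
  have hi : ∀ a b : ℝ, IntervalIntegrable f volume a b := fun a b => hf.intervalIntegrable a b
  have hlog : ∀ T : ℝ, T₀ ≤ T → 0 ≤ Real.log T := fun T hT => Real.log_nonneg (by linarith)
  induction n with
  | zero =>
    intro T hT1 hT2
    rw [pow_zero, one_mul] at hT2
    have h1 : T = T₀ := le_antisymm hT2 hT1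
    rw [h1, intervalIntegral.integral_same]
    have := hlog T₀ le_rfl
    positivity
  | succ n ih =>
    intro T hT1 hT2
    have hT0 : 0 < T := by linarith
    have hLT := hlog T hT1
    rcases le_or_gt T (2 * T₀) with h | h
    · have h1 : ∫ t in T₀..T, f t ≤ ∫ t in T₀..(2 * T₀), f t := by
        apply intervalIntegral.integral_mono_interval le_rfl hT1 h
        · exact Eventually.of_forall fun t => hf0 t
        · exact hi _ _
      refine (h1.trans (hup T₀ le_rfl)).trans ?_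
      have h2 : T₀ * Real.log T₀ ^ p ≤ T * Real.log T ^ p := by
        apply mul_le_mul hT1 _ (Real.rpow_nonneg (hlog T₀ le_rfl) _) hT0.le
        exact Real.rpow_le_rpow (hlog T₀ le_rfl) (Real.log_le_log (by linarith) hT1) hp
      have h3 : 0 ≤ T * Real.log T ^ p := by positivity
      calc b * (T₀ * Real.log T₀ ^ p) ≤ b * (T * Real.log T ^ p) := mul_le_mul_of_nonneg_left h2 hb
        _ ≤ 2 * b * (T * Real.log T ^ p) := by nlinarith [mul_nonneg hb h3]
    · have h1 : ∫ t in T₀..T, f t = (∫ t in T₀..(T / 2), f t) + ∫ t in (T / 2)..T, f t :=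
        (intervalIntegral.integral_add_adjacent_intervals (hi _ _) (hi _ _)).symm
      have h2 := ih (T / 2) (by linarith) (by rw [pow_succ] at hT2; linarith)
      have h3 := hup (T / 2) (by linarith)
      have h4 : 2 * (T / 2) = T := by ring
      rw [h4] at h3
      have h5 : Real.log (T / 2) ^ p ≤ Real.log T ^ p :=
        Real.rpow_le_rpow (hlog _ (by linarith)) (Real.log_le_log (by linarith) (by linarith)) hp
      have h6 : T / 2 * Real.log (T / 2) ^ p ≤ T / 2 * Real.log T ^ p := mul_le_mul_of_nonneg_left h5 (by linarith)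
      rw [h1]
      have h7 : 0 ≤ T * Real.log T ^ p := by positivity
      have h8 : 2 * b * (T / 2 * Real.log (T / 2) ^ p) ≤ 2 * b * (T / 2 * Real.log T ^ p) :=
        mul_le_mul_of_nonneg_left h6 (by positivity)
      have h9 : b * (T / 2 * Real.log (T / 2) ^ p) ≤ b * (T / 2 * Real.log T ^ p) := mul_le_mul_of_nonneg_left h6 hb
      nlinarith [mul_nonneg hb h7]

/-- from dyadic intervals to `[x, x + T]` -/
theorem full_interval {f : ℝ → ℝ} (hf : Continuous f) (hf0 : ∀ t, 0 ≤ f t) {p a b : ℝ} (hp : 0 ≤ p) (hp4 : p ≤ 4) (hb : 0 ≤ b)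
    (hlow : ∀ᶠ T : ℝ in atTop, a * (T * Real.log T ^ p) ≤ ∫ t in T..(2 * T), f t)
    (hup : ∀ᶠ T : ℝ in atTop, ∫ t in T..(2 * T), f t ≤ b * (T * Real.log T ^ p)) (x : ℝ) {ε : ℝ} (hε : 0 < ε) :
    ∀ᶠ T : ℝ in atTop, a / 48 * (T * Real.log T ^ p) ≤ ∫ t in x..(x + T), f t ∧
      ∫ t in x..(x + T), f t ≤ (64 * b + ε) * (T * Real.log T ^ p) := by
  have hi : ∀ a b : ℝ, IntervalIntegrable f volume a b := fun a b => hf.intervalIntegrable a b
  obtain ⟨T₁, hT₁⟩ := eventually_atTop.1 hup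
  obtain ⟨T₀, hT₀⟩ : ∃ T₀ : ℝ, T₀ = max T₁ 3 := ⟨_, rfl⟩
  have hT03 : 3 ≤ T₀ := by rw [hT₀]; exact le_max_right _ _
  have hup' : ∀ T : ℝ, T₀ ≤ T → ∫ t in T..(2 * T), f t ≤ b * (T * Real.log T ^ p) := fun T hT =>
    hT₁ T ((le_max_left _ _).trans (by rw [hT₀] at hT; exact hT))
  obtain ⟨K, hK⟩ : ∃ K : ℝ, K = ∫ t in (-|x|)..T₀, f t := ⟨_, rfl⟩
  have hthird : Tendsto (fun T : ℝ => T / 3) atTop atTop := tendsto_id.atTop_div_const (by norm_num)
  have hεT : ∀ᶠ T : ℝ in atTop, K ≤ ε * T := (tendsto_id.const_mul_atTop hε).eventually_ge_atTop K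
  filter_upwards [hthird.eventually hlow, log_quarter, eventually_ge_atTop (3 * |x| + 3), eventually_ge_atTop T₀, hεT] with
    T g1 g2 g3 g4 g5
  obtain ⟨hL1, hL2, hL3⟩ := g2
  have hx1 := neg_abs_le x
  have hx2 := le_abs_self x
  have hx3 := abs_nonneg x
  have hT0 : 0 < T := by linarith
  have h16 : (2 : ℝ) ^ p ≤ 16 := by
    calc (2 : ℝ) ^ p ≤ 2 ^ (4 : ℝ) := Real.rpow_le_rpow_of_exponent_le (by norm_num) hp4
      _ = 16 := by norm_num
  have hLp : 0 ≤ Real.log T ^ p := by positivity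
  constructor
  · rcases le_or_gt a 0 with ha | ha
    · refine le_trans (mul_nonpos_of_nonpos_of_nonneg (by linarith) (by positivity)) ?_
      exact intervalIntegral.integral_nonneg (by linarith) fun t _ => hf0 t
    · have h1 : ∫ t in (T / 3)..(2 * (T / 3)), f t ≤ ∫ t in x..(x + T), f t := by
        apply intervalIntegral.integral_mono_interval (by linarith) (by linarith) (by linarith)
        · exact Eventually.of_forall fun t => hf0 t
        · exact hi _ _
      refine le_trans ?_ (g1.trans h1)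
      have h2 : Real.log T ^ p ≤ 16 * Real.log (T / 3) ^ p := by
        calc Real.log T ^ p ≤ (2 * Real.log (T / 3)) ^ p := Real.rpow_le_rpow (by linarith) hL2 hp
          _ = 2 ^ p * Real.log (T / 3) ^ p := Real.mul_rpow (by norm_num) (by linarith)
          _ ≤ _ := mul_le_mul_of_nonneg_right h16 (Real.rpow_nonneg (by linarith) _)
      have h3 : T * Real.log T ^ p ≤ T * (16 * Real.log (T / 3) ^ p) := mul_le_mul_of_nonneg_left h2 hT0.le
      have h4 : a / 48 * (T * Real.log T ^ p) ≤ a / 48 * (T * (16 * Real.log (T / 3) ^ p)) :=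
        mul_le_mul_of_nonneg_left h3 (by linarith)
      refine h4.trans (le_of_eq ?_)
      ring
  · have h1 : ∫ t in x..(x + T), f t ≤ ∫ t in (-|x|)..(2 * T), f t := by
      apply intervalIntegral.integral_mono_interval (by linarith) (by linarith) (by linarith)
      · exact Eventually.of_forall fun t => hf0 t
      · exact hi _ _
    have h2 : ∫ t in (-|x|)..(2 * T), f t = K + ∫ t in T₀..(2 * T), f t := by
      rw [hK]
      exact (intervalIntegral.integral_add_adjacent_intervals (hi _ _) (hi _ _)).symm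
    obtain ⟨n, hn⟩ : ∃ n : ℕ, 2 * T ≤ 2 ^ n * T₀ := by
      obtain ⟨n, hn⟩ := pow_unbounded_of_one_lt (2 * T) (show (1 : ℝ) < 2 by norm_num)
      refine ⟨n, hn.le.trans ?_⟩
      have : (0 : ℝ) < 2 ^ n := by positivity
      nlinarith
    have h3 := dyad_up hf hf0 hp hb hT03 hup' n (2 * T) (by linarith) hn
    have h4 : Real.log (2 * T) ^ p ≤ 16 * Real.log T ^ p := by
      calc Real.log (2 * T) ^ p ≤ (2 * Real.log T) ^ p := Real.rpow_le_rpow (Real.log_nonneg (by linarith)) hL3 hp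
        _ = 2 ^ p * Real.log T ^ p := Real.mul_rpow (by norm_num) (by linarith)
        _ ≤ _ := mul_le_mul_of_nonneg_right h16 hLp
    have h5 : 2 * b * (2 * T * Real.log (2 * T) ^ p) ≤ 2 * b * (2 * T * (16 * Real.log T ^ p)) := by
      apply mul_le_mul_of_nonneg_left _ (by positivity)
      exact mul_le_mul_of_nonneg_left h4 (by positivity)
    have h6 : K ≤ ε * (T * Real.log T ^ p) := by
      refine g5.trans ?_
      apply mul_le_mul_of_nonneg_left _ hε.le
      have h7 : 1 ≤ Real.log T ^ p := Real.one_le_rpow hL1 hp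
      nlinarith
    calc ∫ t in x..(x + T), f t ≤ K + ∫ t in T₀..(2 * T), f t := h1.trans (le_of_eq h2)
      _ ≤ ε * (T * Real.log T ^ p) + 2 * b * (2 * T * (16 * Real.log T ^ p)) := add_le_add h6 (h3.trans h5)
      _ = _ := by ring

/-- **phases of all the primes, in the normalisation of a random shift** -/
theorem phase_shift : ∃ c C : ℝ, 0 < c ∧ 0 < C ∧ ∀ s : ℝ, 0 ≤ s → s ≤ 2 → ∀ (x : ℝ) (G : (Nat.Primes → ℂ) → ℝ), Continuous G →
    (∀ z, 0 ≤ G z) → ∀ ε : ℝ, 0 < ε → ∀ᶠ T : ℝ in atTop,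
    c * EI s G - ε ≤ Real.exp (-(s ^ 2 * Real.log (Real.log T))) * ∫ u in (0 : ℝ)..1, ‖zt (x + u * T)‖ ^ (2 * s) * G (zp (x + u * T)) ∧
    Real.exp (-(s ^ 2 * Real.log (Real.log T))) * ∫ u in (0 : ℝ)..1, ‖zt (x + u * T)‖ ^ (2 * s) * G (zp (x + u * T)) ≤
      C * EI s G + ε := by
  obtain ⟨c, C, hc, hC, h⟩ := phase_all
  refine ⟨c / 48, 64 * C + 1, by positivity, by positivity, fun s hs0 hs2 x G hG hG0 ε hε => ?_⟩
  have hEI : 0 ≤ EI s G := integral_nonneg fun _ => hG0 _
  have h1 := h s hs0 hs2 G hG hG0 (ε / 128) (by positivity)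
  have hfc : Continuous fun t => ‖zt t‖ ^ (2 * s) * G (zp t) := (ztw_cont hs0).mul (hG.comp zp_cont)
  have hs4 : s ^ 2 ≤ 4 := by nlinarith
  have h2 := full_interval hfc (fun t => mul_nonneg (by positivity) (hG0 _)) (p := s ^ 2) (a := c * EI s G - ε / 128)
    (b := C * EI s G + ε / 128) (sq_nonneg s) hs4 (by positivity) (h1.mono fun T hT => hT.1) (h1.mono fun T hT => hT.2) x
    (ε := ε / 2) (by positivity)
  filter_upwards [h2, eventually_gt_atTop (0 : ℝ), Real.tendsto_log_atTop.eventually_gt_atTop 0] with T g1 hT0 hL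
  have h3 : ∫ u in (0 : ℝ)..1, ‖zt (x + u * T)‖ ^ (2 * s) * G (zp (x + u * T)) =
      (1 / T) * ∫ t in x..(x + T), ‖zt t‖ ^ (2 * s) * G (zp t) := by
    have h4 := intervalIntegral.integral_comp_add_mul (a := 0) (b := 1) (fun t => ‖zt t‖ ^ (2 * s) * G (zp t)) hT0.ne' x
    rw [mul_zero, mul_one, add_zero, smul_eq_mul] at h4
    rw [one_div, ← h4]
    congr 1
    funext u
    rw [mul_comm T u]
  rw [h3]
  have h5 : Real.exp (-(s ^ 2 * Real.log (Real.log T))) = (Real.log T ^ (s ^ 2))⁻¹ := by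
    rw [Real.rpow_def_of_pos hL, ← Real.exp_neg]
    congr 1
    ring
  rw [h5]
  obtain ⟨L, hLd⟩ : ∃ L : ℝ, L = Real.log T ^ (s ^ 2) := ⟨_, rfl⟩
  have hL0 : 0 < L := by rw [hLd]; positivity
  rw [← hLd] at g1 ⊢
  obtain ⟨J, hJ⟩ : ∃ J : ℝ, J = ∫ t in x..(x + T), ‖zt t‖ ^ (2 * s) * G (zp t) := ⟨_, rfl⟩
  rw [← hJ] at g1 ⊢
  have h6 : L⁻¹ * (1 / T * J) = J / (T * L) := by
    field_simp
  rw [h6]
  have hTL : 0 < T * L := by positivity
  constructor
  · rw [le_div_iff₀ hTL]
    refine le_trans ?_ g1.1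
    apply mul_le_mul_of_nonneg_right _ hTL.le
    linarith
  · rw [div_le_iff₀ hTL]
    refine g1.2.trans ?_
    apply mul_le_mul_of_nonneg_right _ hTL.le
    linarith

/-! ### limit laws -/

theorem measure_le_of_bcf {X : Type*} [TopologicalSpace X] [MeasurableSpace X] [BorelSpace X] [HasOuterApproxClosed X]
    {μ ν : Measure X} [IsFiniteMeasure μ] [IsFiniteMeasure ν] [μ.WeaklyRegular] {K : ℝ} (hK : 0 ≤ K)
    (h : ∀ f : BoundedContinuousFunction X NNReal, ∫ x, ((f x : NNReal) : ℝ) ∂μ ≤ K * ∫ x, ((f x : NNReal) : ℝ) ∂ν)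
    {A : Set X} (hA : MeasurableSet A) : μ A ≤ ENNReal.ofReal K * ν A := by
  have h1 : ∀ f : BoundedContinuousFunction X NNReal, ∫⁻ x, (f x : ENNReal) ∂μ ≤ ENNReal.ofReal K * ∫⁻ x, (f x : ENNReal) ∂ν := by
    intro f
    have e : ∀ (m : Measure X) [IsFiniteMeasure m], ∫⁻ x, (f x : ENNReal) ∂m = ENNReal.ofReal (∫ x, ((f x : NNReal) : ℝ) ∂m) := by
      intro m _
      rw [← BoundedContinuousFunction.toReal_lintegral_coe_eq_integral, ENNReal.ofReal_toReal]
      exact (f.lintegral_lt_top_of_nnreal m).ne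
    rw [e μ, e ν, ← ENNReal.ofReal_mul hK]
    exact ENNReal.ofReal_le_ofReal (h f)
  have h2 : ∀ F : Set X, IsClosed F → μ F ≤ ENNReal.ofReal K * ν F := by
    intro F hF
    have t1 := HasOuterApproxClosed.tendsto_lintegral_apprSeq hF μ
    have t2 := ENNReal.Tendsto.const_mul (HasOuterApproxClosed.tendsto_lintegral_apprSeq hF ν)
      (Or.inr (ENNReal.ofReal_ne_top : ENNReal.ofReal K ≠ ⊤))
    exact le_of_tendsto_of_tendsto' t1 t2 fun n => h1 _
  rw [hA.measure_eq_iSup_isClosed_of_ne_top (measure_ne_top μ A)]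
  refine iSup_le fun F => iSup_le fun hFA => iSup_le fun hF => (h2 F hF).trans ?_
  gcongr

/-- the law of the family of the phases -/
def nu (s : ℝ) : Measure (Nat.Primes → ℂ) :=
  (Measure.infinitePi fun p : Nat.Primes => law s p).map fun x p => ex (x p)

theorem ex_meas : Measurable fun (x : Nat.Primes → ℝ) (p : Nat.Primes) => ex (x p) :=
  measurable_pi_lambda _ fun p => ex_cont.measurable.comp (measurable_pi_apply p)

theorem nu_prob (s : ℝ) : IsProbabilityMeasure (nu s) := by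
  have := fun p : Nat.Primes => law_prob (s := s) p.2
  exact Measure.isProbabilityMeasure_map ex_meas.aemeasurable

theorem nu_int (s : ℝ) {G : (Nat.Primes → ℂ) → ℝ} (hG : Continuous G) : ∫ z, G z ∂(nu s) = EI s G := by
  unfold nu EI
  rw [integral_map ex_meas.aemeasurable hG.aestronglyMeasurable]

/-- the mean value of `G` of the phases, relative to the `2s`-th power -/
def Mv (s x T : ℝ) (G : (Nat.Primes → ℂ) → ℝ) : ℝ := ∫ u in (0 : ℝ)..1, ‖zt (x + u * T)‖ ^ (2 * s) * G (zp (x + u * T))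

/-- **all limit laws of the phases** -/
theorem limit_laws : ∃ K : ℝ, 0 < K ∧ ∀ s : ℝ, 0 ≤ s → s ≤ 2 → ∀ (x : ℝ) (T : ℕ → ℝ), Tendsto T atTop atTop →
    ∀ μ : Measure (Nat.Primes → ℂ), IsProbabilityMeasure μ →
    (∀ G : BoundedContinuousFunction (Nat.Primes → ℂ) ℝ, Tendsto (fun j => Mv s x (T j) G / Mv s x (T j) (fun _ => 1)) atTop
      (𝓝 (∫ z, G z ∂μ))) →
    ∀ A : Set (Nat.Primes → ℂ), MeasurableSet A → μ A ≤ ENNReal.ofReal K * nu s A ∧ nu s A ≤ ENNReal.ofReal K * μ A := by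
  obtain ⟨c, C, hc, hC, h⟩ := phase_shift
  refine ⟨C / c, by positivity, fun s hs0 hs2 x T hT μ hμ hlim A hA => ?_⟩
  have hnu := nu_prob s
  have hone : EI s (fun _ => 1) = 1 := by
    rw [← nu_int s continuous_const]
    simp
  have key : ∀ G : BoundedContinuousFunction (Nat.Primes → ℂ) ℝ, (∀ z, 0 ≤ G z) →
      c * EI s G ≤ C * ∫ z, G z ∂μ ∧ c * ∫ z, G z ∂μ ≤ C * EI s G := by
    intro G hG
    have hE0 : 0 ≤ EI s G := integral_nonneg fun _ => hG _
    have h1 : ∀ ε : ℝ, 0 < ε → ε < c → c * EI s G - ε ≤ (C + ε) * ∫ z, G z ∂μ ∧ (c - ε) * ∫ z, G z ∂μ ≤ C * EI s G + ε := by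
      intro ε hε hεc
      have e1 := hT.eventually (h s hs0 hs2 x G G.continuous hG ε hε)
      have e2 := hT.eventually (h s hs0 hs2 x (fun _ => 1) continuous_const (fun _ => zero_le_one) ε hε)
      rw [hone] at e2
      constructor
      · have h3 := (hlim G).const_mul (C + ε)
        refine ge_of_tendsto h3 ?_
        filter_upwards [e1, e2] with j j1 j2
        obtain ⟨a, ha⟩ : ∃ a : ℝ, a = Real.exp (-(s ^ 2 * Real.log (Real.log (T j)))) := ⟨_, rfl⟩
        have ha0 : 0 < a := by rw [ha]; exact Real.exp_pos _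
        have d1 : Mv s x (T j) G = ∫ u in (0 : ℝ)..1, ‖zt (x + u * T j)‖ ^ (2 * s) * G (zp (x + u * T j)) := rfl
        have d2 : Mv s x (T j) (fun _ => 1) = ∫ u in (0 : ℝ)..1, ‖zt (x + u * T j)‖ ^ (2 * s) * (fun _ => (1 : ℝ)) (zp (x + u * T j)) := rfl
        rw [← d1, ← ha] at j1
        rw [← d2, ← ha] at j2
        have hpos : 0 < Mv s x (T j) (fun _ => 1) := by
          by_contra hcon
          have : a * Mv s x (T j) (fun _ => 1) ≤ 0 := mul_nonpos_of_nonneg_of_nonpos ha0.le (not_lt.1 hcon)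
          linarith [j2.1]
        rw [← mul_div_assoc, le_div_iff₀ hpos]
        have h4 : (c * EI s G - ε) * (a * Mv s x (T j) (fun _ => 1)) ≤ (C + ε) * (a * Mv s x (T j) G) := by
          rcases le_or_gt (c * EI s G - ε) 0 with h5 | h5
          · refine le_trans (mul_nonpos_of_nonpos_of_nonneg h5 (by positivity)) ?_
            have h6 : 0 ≤ Mv s x (T j) G := intervalIntegral.integral_nonneg (by norm_num) fun u _ => mul_nonneg (by positivity) (hG _)
            positivity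
          · calc (c * EI s G - ε) * (a * Mv s x (T j) (fun _ => 1)) ≤ (a * Mv s x (T j) G) * (C + ε) := by
                  apply mul_le_mul j1.1 _ (by positivity) (by linarith [j1.1])
                  linarith [j2.2]
              _ = _ := by ring
        have h7 : a * ((c * EI s G - ε) * Mv s x (T j) (fun _ => 1)) ≤ a * ((C + ε) * Mv s x (T j) G) := by
          calc _ = (c * EI s G - ε) * (a * Mv s x (T j) (fun _ => 1)) := by ring
            _ ≤ (C + ε) * (a * Mv s x (T j) G) := h4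
            _ = _ := by ring
        exact le_of_mul_le_mul_left h7 ha0
      · have h3 := (hlim G).const_mul (c - ε)
        refine le_of_tendsto h3 ?_
        filter_upwards [e1, e2] with j j1 j2
        obtain ⟨a, ha⟩ : ∃ a : ℝ, a = Real.exp (-(s ^ 2 * Real.log (Real.log (T j)))) := ⟨_, rfl⟩
        have ha0 : 0 < a := by rw [ha]; exact Real.exp_pos _
        have d1 : Mv s x (T j) G = ∫ u in (0 : ℝ)..1, ‖zt (x + u * T j)‖ ^ (2 * s) * G (zp (x + u * T j)) := rfl
        have d2 : Mv s x (T j) (fun _ => 1) = ∫ u in (0 : ℝ)..1, ‖zt (x + u * T j)‖ ^ (2 * s) * (fun _ => (1 : ℝ)) (zp (x + u * T j)) := rfl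
        rw [← d1, ← ha] at j1
        rw [← d2, ← ha] at j2
        have hpos : 0 < Mv s x (T j) (fun _ => 1) := by
          by_contra hcon
          have : a * Mv s x (T j) (fun _ => 1) ≤ 0 := mul_nonpos_of_nonneg_of_nonpos ha0.le (not_lt.1 hcon)
          linarith [j2.1]
        rw [← mul_div_assoc, div_le_iff₀ hpos]
        have h6 : 0 ≤ Mv s x (T j) G := intervalIntegral.integral_nonneg (by norm_num) fun u _ => mul_nonneg (by positivity) (hG _)
        have h4 : (c - ε) * (a * Mv s x (T j) G) ≤ (C * EI s G + ε) * (a * Mv s x (T j) (fun _ => 1)) := by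
          calc (c - ε) * (a * Mv s x (T j) G) ≤ (a * Mv s x (T j) (fun _ => 1)) * (C * EI s G + ε) := by
                apply mul_le_mul _ j1.2 (by positivity) (by positivity)
                linarith [j2.1]
            _ = _ := by ring
        have h7 : a * ((c - ε) * Mv s x (T j) G) ≤ a * ((C * EI s G + ε) * Mv s x (T j) (fun _ => 1)) := by
          calc _ = (c - ε) * (a * Mv s x (T j) G) := by ring
            _ ≤ (C * EI s G + ε) * (a * Mv s x (T j) (fun _ => 1)) := h4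
            _ = _ := by ring
        exact le_of_mul_le_mul_left h7 ha0
    have t1 : Tendsto (fun ε : ℝ => c * EI s G - ε) (𝓝[>] 0) (𝓝 (c * EI s G - 0)) :=
      (tendsto_const_nhds.sub tendsto_id).mono_left nhdsWithin_le_nhds
    have t2 : Tendsto (fun ε : ℝ => (C + ε) * ∫ z, G z ∂μ) (𝓝[>] 0) (𝓝 ((C + 0) * ∫ z, G z ∂μ)) :=
      ((tendsto_const_nhds.add tendsto_id).mul_const _).mono_left nhdsWithin_le_nhds
    have t3 : Tendsto (fun ε : ℝ => (c - ε) * ∫ z, G z ∂μ) (𝓝[>] 0) (𝓝 ((c - 0) * ∫ z, G z ∂μ)) :=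
      ((tendsto_const_nhds.sub tendsto_id).mul_const _).mono_left nhdsWithin_le_nhds
    have t4 : Tendsto (fun ε : ℝ => C * EI s G + ε) (𝓝[>] 0) (𝓝 (C * EI s G + 0)) :=
      (tendsto_const_nhds.add tendsto_id).mono_left nhdsWithin_le_nhds
    have hev : ∀ᶠ ε : ℝ in 𝓝[>] 0, 0 < ε ∧ ε < c := Ioo_mem_nhdsGT hc
    have r1 := le_of_tendsto_of_tendsto t1 t2 (hev.mono fun ε hε => (h1 ε hε.1 hε.2).1)
    have r2 := le_of_tendsto_of_tendsto t3 t4 (hev.mono fun ε hε => (h1 ε hε.1 hε.2).2)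
    rw [sub_zero, add_zero] at r1
    rw [sub_zero, add_zero] at r2
    exact ⟨r1, r2⟩
  have key2 : ∀ f : BoundedContinuousFunction (Nat.Primes → ℂ) NNReal,
      ∫ z, ((f z : NNReal) : ℝ) ∂μ ≤ C / c * ∫ z, ((f z : NNReal) : ℝ) ∂(nu s) ∧
      ∫ z, ((f z : NNReal) : ℝ) ∂(nu s) ≤ C / c * ∫ z, ((f z : NNReal) : ℝ) ∂μ := by
    intro f
    have hfc : Continuous fun z => ((f z : NNReal) : ℝ) := NNReal.continuous_coe.comp f.continuous
    obtain ⟨G, hG⟩ : ∃ G : BoundedContinuousFunction (Nat.Primes → ℂ) ℝ, ∀ z, G z = ((f z : NNReal) : ℝ) := by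
      obtain ⟨M, hM⟩ := f.bounded
      refine ⟨BoundedContinuousFunction.mkOfBound ⟨fun z => ((f z : NNReal) : ℝ), hfc⟩ M fun y z => ?_, fun _ => rfl⟩
      exact hM y z
    have h1 := key G fun z => by rw [hG]; exact (f z).2
    have h2 : EI s G = ∫ z, ((f z : NNReal) : ℝ) ∂(nu s) := by
      rw [nu_int s hfc]
      unfold EI
      simp_rw [hG]
    have h3 : ∫ z, G z ∂μ = ∫ z, ((f z : NNReal) : ℝ) ∂μ := by simp_rw [hG]
    rw [h2, h3] at h1
    constructor
    · rw [div_mul_eq_mul_div, le_div_iff₀ hc]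
      linarith [h1.2]
    · rw [div_mul_eq_mul_div, le_div_iff₀ hc]
      linarith [h1.1]
  exact ⟨measure_le_of_bcf (by positivity) (fun f => (key2 f).1) hA, measure_le_of_bcf (by positivity) (fun f => (key2 f).2) hA⟩

end

end Pool.Agent.H469.F4
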