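import Pool.Graph.R_pool_sql_team_seeded_3997aac3.Q178.UM.PH

set_option autoImplicit false

/-! The phase of zeta on the critical line, with a power saving. -/

namespace Pool.Agent.H469.F4

open Complex Filter Topology Set
open Pool.Agent.Q178.UM.PH (ph ph_norm ph_cont ph_real ph_deriv L)
open H370.DG (er logDeriv_Gamma' log_step summable_er)

theorem er_le (n : ℕ) {s : ℂ} (hs : 0 < s.re) {v : ℝ} (hv : 0 < v) (hsv : v ≤ |s.im|) :
    ‖er n s‖ ≤ 2 * (1 / (n + 1 + v) - 1 / (n + 2 + v)) := by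
  have hn : (0 : ℝ) ≤ n := Nat.cast_nonneg n
  have hre : (n : ℝ) + 2 ≤ (s + ((n : ℂ) + 2)).re := by
    simp only [add_re, natCast_re, re_ofNat]
    linarith
  have h1 := log_step (z := s + ((n : ℂ) + 2)) (by linarith)
  have h2 : s + ((n : ℂ) + 2) + 1 = s + (n + 3) := by ring
  rw [h2] at h1
  refine h1.trans ?_
  have h3 : ‖s + ((n : ℂ) + 2)‖ ^ 2 = (s + ((n : ℂ) + 2)).re ^ 2 + s.im ^ 2 := by
    rw [← Complex.normSq_eq_norm_sq, Complex.normSq_apply]
    simp
    ring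
  have h4 : v ^ 2 ≤ s.im ^ 2 := by
    rw [← sq_abs s.im]
    exact pow_le_pow_left₀ hv.le hsv 2
  have h5 : ((n : ℝ) + 2 + v) ^ 2 ≤ 2 * ‖s + ((n : ℂ) + 2)‖ ^ 2 := by
    rw [h3]
    have : ((n : ℝ) + 2) ^ 2 ≤ (s + ((n : ℂ) + 2)).re ^ 2 := pow_le_pow_left₀ (by linarith) hre 2
    nlinarith [sq_nonneg ((n : ℝ) + 2 - v)]
  have h6 : 1 / ((n : ℝ) + 1 + v) - 1 / (n + 2 + v) = 1 / ((n + 1 + v) * (n + 2 + v)) := by
    field_simp
    ring
  rw [h6]
  have h7 : ((n : ℝ) + 1 + v) * (n + 2 + v) ≤ (n + 2 + v) ^ 2 := by nlinarith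
  have h8 : 0 < ‖s + ((n : ℂ) + 2)‖ ^ 2 := by nlinarith [sq_nonneg ((n : ℝ) + 2 + v)]
  rw [div_le_iff₀ h8]
  have h9 : 0 < ((n : ℝ) + 1 + v) * (n + 2 + v) := by positivity
  rw [mul_one_div, div_mul_eq_mul_div, le_div_iff₀ h9]
  linarith

theorem er_sum {s : ℂ} (hs : 0 < s.re) {v : ℝ} (hv : 0 < v) (hsv : v ≤ |s.im|) :
    ‖∑' n, er n s‖ ≤ 2 / v := by
  have h1 : ∀ m : ℕ, ∑ n ∈ Finset.range m, ‖er n s‖ ≤ 2 / v := by
    intro m
    have h3 : ∀ m : ℕ, ∑ n ∈ Finset.range m, 2 * (1 / ((n : ℝ) + 1 + v) - 1 / (n + 2 + v)) =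
        2 * (1 / (1 + v) - 1 / (m + 1 + v)) := by
      intro m
      induction m with
      | zero => simp
      | succ m ih =>
        rw [Finset.sum_range_succ, ih]
        push_cast
        rw [show (m : ℝ) + 1 + 1 + v = m + 2 + v by ring]
        ring
    have h2 : ∑ n ∈ Finset.range m, ‖er n s‖ ≤
        ∑ n ∈ Finset.range m, 2 * (1 / ((n : ℝ) + 1 + v) - 1 / (n + 2 + v)) :=
      Finset.sum_le_sum fun n _ => er_le n hs hv hsv
    refine h2.trans ?_
    rw [h3]
    have h4 : 0 ≤ 1 / ((m : ℝ) + 1 + v) := by positivity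
    have h5 : 1 / (1 + v) ≤ 1 / v := one_div_le_one_div_of_le hv (by linarith)
    have h6 : 2 / v = 2 * (1 / v) := by ring
    rw [h6]
    linarith
  have hs1 : Summable fun n => ‖er n s‖ :=
    summable_of_sum_range_le (fun n => norm_nonneg _) h1
  refine (norm_tsum_le_tsum_norm hs1).trans ?_
  exact hs1.tsum_le_of_sum_range_le h1

theorem dig {s : ℂ} (hs : 0 < s.re) (hs1 : s.re ≤ 1) (hv : 1 ≤ |s.im|) :
    abs ((logDeriv Gamma s).re - Real.log (abs s.im)) ≤ 9 / abs s.im := by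
  obtain ⟨v, hvd⟩ : ∃ v : ℝ, v = |s.im| := ⟨_, rfl⟩
  rw [← hvd] at hv ⊢
  have hv0 : 0 < v := by linarith
  rw [logDeriv_Gamma' hs]
  have e1 := er_sum hs hv0 hvd.le
  have b1 : ‖1 / s‖ ≤ 1 / v := by
    rw [norm_div, norm_one]
    exact one_div_le_one_div_of_le hv0 (hvd.le.trans (abs_im_le_norm s))
  have b2 : ‖1 / (s + 1)‖ ≤ 1 / v := by
    rw [norm_div, norm_one]
    refine one_div_le_one_div_of_le hv0 (hvd.le.trans ?_)
    have := abs_im_le_norm (s + 1)
    simpa using this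
  have b3 : |(log (s + 2)).re - Real.log v| ≤ 5 / v := by
    rw [Complex.log_re]
    have hn : ‖s + 2‖ ^ 2 = (s.re + 2) ^ 2 + v ^ 2 := by
      rw [← Complex.normSq_eq_norm_sq, Complex.normSq_apply, hvd, sq_abs]
      simp
      ring
    have h1 : v ≤ ‖s + 2‖ := by
      refine abs_le_of_sq_le_sq' ?_ (norm_nonneg _) |>.2
      rw [hn]
      nlinarith [sq_nonneg (s.re + 2)]
    have h2 : 0 < ‖s + 2‖ := by linarith
    have h3 : 0 ≤ Real.log ‖s + 2‖ - Real.log v := by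
      have := Real.log_le_log hv0 h1
      linarith
    rw [abs_of_nonneg h3]
    have h4 : Real.log (‖s + 2‖ ^ 2) - Real.log (v ^ 2) = 2 * (Real.log ‖s + 2‖ - Real.log v) := by
      rw [Real.log_pow, Real.log_pow]
      push_cast
      ring
    have h5 : Real.log (‖s + 2‖ ^ 2) - Real.log (v ^ 2) ≤ 9 / v ^ 2 := by
      rw [← Real.log_div (by positivity) (by positivity)]
      refine (Real.log_le_sub_one_of_pos (by positivity)).trans ?_
      rw [hn, div_sub_one (by positivity)]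
      apply div_le_div_of_nonneg_right _ (by positivity)
      nlinarith
    have h6 : 9 / v ^ 2 ≤ 9 / v := by
      apply div_le_div_of_nonneg_left (by norm_num) hv0
      nlinarith
    have h7 : 9 / v = 9 * (1 / v) := by ring
    have h8 : 5 / v = 5 * (1 / v) := by ring
    have h9 : 0 < 1 / v := by positivity
    rw [h8]
    linarith
  have e2 : (log (s + 2) - 1 / s - 1 / (s + 1) + ∑' n, er n s).re - Real.log v =
      ((log (s + 2)).re - Real.log v) - (1 / s).re - (1 / (s + 1)).re + (∑' n, er n s).re := by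
    simp only [Complex.add_re, Complex.sub_re]
    ring
  rw [e2]
  have c1 := (Complex.abs_re_le_norm (1 / s)).trans b1
  have c2 := (Complex.abs_re_le_norm (1 / (s + 1))).trans b2
  have c3 := (Complex.abs_re_le_norm (∑' n, er n s)).trans e1
  have h8 : 5 / v = 5 * (1 / v) := by ring
  have h9 : 2 / v = 2 * (1 / v) := by ring
  have h10 : 9 / v = 9 * (1 / v) := by ring
  rw [h8] at b3
  rw [h9] at c3
  rw [h10]
  rw [abs_le] at *
  constructor <;> linarith [c1.1, c1.2, c2.1, c2.2, c3.1, c3.2, b3.1, b3.2]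

/-- the logarithmic derivative of the phase -/
theorem L_re {u : ℝ} (hu : 2 ≤ u) : |(L u).re - Real.log (u / (2 * Real.pi)) / 2| ≤ 9 / u := by
  have him : (1 / 2 + (u : ℂ) * I).im = u := by simp
  have h1 : L u = -(Real.log Real.pi : ℂ) / 2 + 1 / 2 * logDeriv Gamma ((1 / 2 + (u : ℂ) * I) / 2) :=
    H370.DL.logDeriv_Gammaℝ (by rw [him]; linarith)
  obtain ⟨s, hs⟩ : ∃ s : ℂ, s = (1 / 2 + (u : ℂ) * I) / 2 := ⟨_, rfl⟩
  have hsre : s.re = 1 / 4 := by rw [hs]; simp; norm_num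
  have hsim : s.im = u / 2 := by rw [hs]; simp
  have h2 := dig (s := s) (by rw [hsre]; norm_num) (by rw [hsre]; norm_num) (by
    rw [hsim, abs_of_pos (by linarith)]; linarith)
  rw [hsim, abs_of_pos (show (0 : ℝ) < u / 2 by linarith)] at h2
  have h3 : (L u).re = -(Real.log Real.pi) / 2 + 1 / 2 * (logDeriv Gamma s).re := by
    rw [h1, ← hs]
    have e1 : (-(Real.log Real.pi : ℂ) / 2) = ((-(Real.log Real.pi) / 2 : ℝ) : ℂ) := by push_cast; ring
    have e2 : (1 / 2 * logDeriv Gamma s).re = 1 / 2 * (logDeriv Gamma s).re := by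
      rw [show (1 / 2 : ℂ) = ((1 / 2 : ℝ) : ℂ) by push_cast; ring, Complex.re_ofReal_mul]
    rw [e1, Complex.add_re, Complex.ofReal_re, e2]
  have h4 : Real.log (u / (2 * Real.pi)) = Real.log (u / 2) - Real.log Real.pi := by
    rw [← div_div, Real.log_div (by positivity) (by positivity)]
  rw [h3, h4]
  have e3 : -(Real.log Real.pi) / 2 + 1 / 2 * (logDeriv Gamma s).re - (Real.log (u / 2) - Real.log Real.pi) / 2 =
      1 / 2 * ((logDeriv Gamma s).re - Real.log (u / 2)) := by ring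
  rw [e3, abs_mul, abs_of_pos (by norm_num : (0 : ℝ) < 1 / 2)]
  have e4 : 9 / (u / 2) = 2 * (9 / u) := by
    field_simp
  rw [e4] at h2
  linarith

/-- the phase is a pure oscillation up to a power saving -/
theorem ph_rot {t h : ℝ} (ht : 4 ≤ t) (hh : |h| ≤ t / 2) :
    ‖ph (t + h) - ph t * cexp (I * (h * (Real.log (t / (2 * Real.pi)) / 2) : ℝ))‖ ≤
      20 * |h| * (1 + |h|) / t := by
  have ht0 : 0 < t := by linarith
  obtain ⟨ℓ, hℓ⟩ : ∃ ℓ : ℝ, ℓ = Real.log (t / (2 * Real.pi)) / 2 := ⟨_, rfl⟩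
  rw [← hℓ]
  obtain ⟨F, hF⟩ : ∃ F : ℝ → ℂ, F = fun u => ph u * cexp (-(I * (u * ℓ : ℝ))) := ⟨_, rfl⟩
  have hF' : ∀ u : ℝ, HasDerivAt F (I * (((L u).re - ℓ : ℝ) : ℂ) * F u) u := by
    intro u
    have g1 : HasDerivAt (fun v : ℝ => cexp (-(I * (v * ℓ : ℝ)))) (cexp (-(I * (u * ℓ : ℝ))) * (-(I * ℓ))) u := by
      have g2 : HasDerivAt (fun v : ℝ => -(I * ((v * ℓ : ℝ) : ℂ))) (-(I * ℓ)) u := by
        have g3 : HasDerivAt (fun v : ℝ => ((v * ℓ : ℝ) : ℂ)) ((ℓ : ℝ) : ℂ) u := by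
          have := ((hasDerivAt_id u).mul_const ℓ).ofReal_comp
          simpa using this
        exact (g3.const_mul I).neg
      exact g2.cexp
    have g4 := (ph_deriv u).mul g1
    have e : I * ((L u).re : ℂ) * ph u * cexp (-(I * (u * ℓ : ℝ))) +
        ph u * (cexp (-(I * (u * ℓ : ℝ))) * (-(I * ℓ))) = I * (((L u).re - ℓ : ℝ) : ℂ) * F u := by
      rw [hF]
      push_cast
      ring
    rw [e] at g4
    rw [hF] at g4 ⊢
    exact g4
  have hFn : ∀ u, ‖F u‖ = 1 := by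
    intro u
    rw [hF]
    simp only
    rw [norm_mul, ph_norm, one_mul, Complex.norm_exp]
    simp
  have hb : ∀ u ∈ Icc (t - |h|) (t + |h|), ‖I * (((L u).re - ℓ : ℝ) : ℂ) * F u‖ ≤ 20 * (1 + |h|) / t := by
    intro u hu
    have hu0 : t / 2 ≤ u := by linarith [hu.1]
    have hu1 : u ≤ 3 * t / 2 := by linarith [hu.2]
    have hup : 0 < u := by linarith
    rw [norm_mul, hFn, mul_one, norm_mul, Complex.norm_I, one_mul, Complex.norm_real, Real.norm_eq_abs]
    have g1 := L_re (u := u) (by linarith)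
    have g2 : |Real.log (u / (2 * Real.pi)) / 2 - ℓ| ≤ |h| / t := by
      have e1 : Real.log (u / (2 * Real.pi)) / 2 - ℓ = Real.log (u / t) / 2 := by
        rw [hℓ, Real.log_div hup.ne' (by positivity), Real.log_div ht0.ne' (by positivity),
          Real.log_div hup.ne' ht0.ne']
        ring
      rw [e1]
      have e2 : Real.log (u / t) ≤ |h| / t := by
        refine (Real.log_le_sub_one_of_pos (by positivity)).trans ?_
        rw [div_sub_one ht0.ne']
        apply div_le_div_of_nonneg_right _ ht0.le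
        linarith [hu.2]
      have e3 : -(2 * (|h| / t)) ≤ Real.log (u / t) := by
        have e4 := Real.one_sub_inv_le_log_of_pos (show 0 < u / t by positivity)
        refine le_trans ?_ e4
        rw [inv_div]
        have e5 : 1 - t / u = (u - t) / u := by field_simp
        rw [e5, neg_le, ← neg_div, neg_sub]
        have e6 : (t - u) / u ≤ |h| / u := by
          apply div_le_div_of_nonneg_right _ hup.le
          linarith [hu.1]
        have e7 : |h| / u ≤ |h| / (t / 2) := div_le_div_of_nonneg_left (abs_nonneg h) (by positivity) hu0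
        have e8 : |h| / (t / 2) = 2 * (|h| / t) := by field_simp
        linarith
      have e9 : 0 ≤ |h| / t := by positivity
      rw [abs_le]
      constructor <;> linarith
    have g3 : 9 / u ≤ 18 / t := by
      rw [div_le_div_iff₀ hup ht0]
      linarith
    have e4 : (L u).re - ℓ = ((L u).re - Real.log (u / (2 * Real.pi)) / 2) + (Real.log (u / (2 * Real.pi)) / 2 - ℓ) := by ring
    rw [e4]
    refine (abs_add_le _ _).trans ((add_le_add (g1.trans g3) g2).trans ?_)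
    rw [← add_div]
    apply div_le_div_of_nonneg_right _ ht0.le
    linarith [abs_nonneg h]
  have hmem1 : t ∈ Icc (t - |h|) (t + |h|) := ⟨by linarith [abs_nonneg h], by linarith [abs_nonneg h]⟩
  have hmem2 : t + h ∈ Icc (t - |h|) (t + |h|) := ⟨by linarith [neg_abs_le h], by linarith [le_abs_self h]⟩
  have hmv := (convex_Icc (t - |h|) (t + |h|)).norm_image_sub_le_of_norm_hasDerivWithin_le
    (fun u _ => (hF' u).hasDerivWithinAt) hb hmem1 hmem2
  have e5 : ph (t + h) - ph t * cexp (I * (h * ℓ : ℝ)) = cexp (I * ((t + h) * ℓ : ℝ)) * (F (t + h) - F t) := by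
    rw [hF]
    simp only
    have e6 : cexp (I * ((t + h) * ℓ : ℝ)) * (ph (t + h) * cexp (-(I * ((t + h) * ℓ : ℝ)))) = ph (t + h) := by
      have : cexp (I * ((t + h) * ℓ : ℝ)) * cexp (-(I * ((t + h) * ℓ : ℝ))) = 1 := by
        rw [← Complex.exp_add, add_neg_cancel, Complex.exp_zero]
      calc _ = ph (t + h) * (cexp (I * ((t + h) * ℓ : ℝ)) * cexp (-(I * ((t + h) * ℓ : ℝ)))) := by ring
        _ = _ := by rw [this, mul_one]
    have e7 : cexp (I * ((t + h) * ℓ : ℝ)) * (ph t * cexp (-(I * (t * ℓ : ℝ)))) = ph t * cexp (I * (h * ℓ : ℝ)) := by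
      have : cexp (I * ((t + h) * ℓ : ℝ)) * cexp (-(I * (t * ℓ : ℝ))) = cexp (I * (h * ℓ : ℝ)) := by
        rw [← Complex.exp_add]
        congr 1
        push_cast
        ring
      calc _ = ph t * (cexp (I * ((t + h) * ℓ : ℝ)) * cexp (-(I * (t * ℓ : ℝ)))) := by ring
        _ = _ := by rw [this]
    rw [mul_sub, e6, e7]
  rw [e5, norm_mul, Complex.norm_exp]
  have e8 : (I * (((t + h) * ℓ : ℝ) : ℂ)).re = 0 := by simp
  rw [e8, Real.exp_zero, one_mul]
  refine hmv.trans (le_of_eq ?_)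
  rw [add_sub_cancel_left, Real.norm_eq_abs]
  ring

/-- the functional equation on the critical line, locally -/
theorem zeta_rot {t h : ℝ} (ht : 4 ≤ t) (hh : |h| ≤ t / 2) :
    ‖riemannZeta (1 / 2 + ((t + h : ℝ) : ℂ) * I) - (starRingEnd ℂ) (ph t) ^ 2 *
      cexp (-(I * (h * Real.log (t / (2 * Real.pi)) : ℝ))) *
        (starRingEnd ℂ) (riemannZeta (1 / 2 + ((t + h : ℝ) : ℂ) * I))‖ ≤
      40 * |h| * (1 + |h|) / t * ‖riemannZeta (1 / 2 + ((t + h : ℝ) : ℂ) * I)‖ := by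
  obtain ⟨z, hz⟩ : ∃ z : ℂ, z = riemannZeta (1 / 2 + ((t + h : ℝ) : ℂ) * I) := ⟨_, rfl⟩
  obtain ⟨w, hw⟩ : ∃ w : ℂ, w = ph t * cexp (I * (h * (Real.log (t / (2 * Real.pi)) / 2) : ℝ)) := ⟨_, rfl⟩
  have h1 := ph_rot ht hh
  rw [← hw] at h1
  rw [← hz]
  have h2 := ph_real (t + h)
  have h3 : (starRingEnd ℂ) (ph (t + h) * z) = ph (t + h) * z := by
    rw [Complex.conj_eq_iff_im, hz]
    exact h2
  have hpn : (starRingEnd ℂ) (ph (t + h)) * ph (t + h) = 1 := by
    rw [mul_comm, Complex.mul_conj, Complex.normSq_eq_norm_sq, ph_norm]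
    simp
  have h4 : z = (starRingEnd ℂ) (ph (t + h)) ^ 2 * (starRingEnd ℂ) z := by
    rw [map_mul] at h3
    calc z = ((starRingEnd ℂ) (ph (t + h)) * ph (t + h)) * z := by rw [hpn, one_mul]
      _ = (starRingEnd ℂ) (ph (t + h)) * (ph (t + h) * z) := by ring
      _ = (starRingEnd ℂ) (ph (t + h)) * ((starRingEnd ℂ) (ph (t + h)) * (starRingEnd ℂ) z) := by rw [h3]
      _ = _ := by ring
  have h5 : (starRingEnd ℂ) (ph t) ^ 2 * cexp (-(I * (h * Real.log (t / (2 * Real.pi)) : ℝ))) = (starRingEnd ℂ) w ^ 2 := by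
    rw [hw, map_mul, mul_pow, ← Complex.exp_conj, ← Complex.exp_nat_mul]
    congr 2
    rw [map_mul, Complex.conj_I, Complex.conj_ofReal]
    push_cast
    ring
  rw [h5]
  have h6 : z - (starRingEnd ℂ) w ^ 2 * (starRingEnd ℂ) z =
      ((starRingEnd ℂ) (ph (t + h)) ^ 2 - (starRingEnd ℂ) w ^ 2) * (starRingEnd ℂ) z := by
    rw [sub_mul, ← h4]
  rw [h6, norm_mul, Complex.norm_conj]
  refine mul_le_mul_of_nonneg_right ?_ (norm_nonneg _)
  have h7 : (starRingEnd ℂ) (ph (t + h)) ^ 2 - (starRingEnd ℂ) w ^ 2 =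
      (starRingEnd ℂ) (ph (t + h) - w) * (starRingEnd ℂ) (ph (t + h) + w) := by
    rw [map_sub, map_add]
    ring
  have hwn : ‖w‖ = 1 := by
    rw [hw, norm_mul, ph_norm, one_mul, Complex.norm_exp]
    simp
  rw [h7, norm_mul, Complex.norm_conj, Complex.norm_conj]
  have h8 : ‖ph (t + h) + w‖ ≤ 2 := by
    refine (norm_add_le _ _).trans ?_
    rw [ph_norm, hwn]
    norm_num
  calc ‖ph (t + h) - w‖ * ‖ph (t + h) + w‖ ≤ (20 * |h| * (1 + |h|) / t) * 2 :=
        mul_le_mul h1 h8 (norm_nonneg _) ((norm_nonneg _).trans h1)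
    _ = _ := by ring

end Pool.Agent.H469.F4
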