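import Pool.Graph.R_pool_sql_team_seeded_3997aac3.Q97.UM.Base10

set_option autoImplicit false

/-!
# The pointwise inequality on the side of the mean values, with a perturbation
-/

namespace Pool.Agent.H469.F4

open Finset Complex Pool.Agent.Q97.UM
open Pool.Agent.Q195.UM (R9_lo x_le geo good_block any_block)

/-- blocks which are good, with a perturbation -/
lemma prod_goodA (a b ε : ℕ → ℝ) (E : ℝ) (ha : ∀ l, 0 ≤ a l) (hb : ∀ l, 0 ≤ b l) (s : Finset ℕ) (J : ℕ)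
    (hs : s ⊆ range J) (hE : ∑ l ∈ s, ε l ≤ E)
    (h : ∀ l ∈ s, a l ≤ Real.exp (3 * (1 / 4 * (1 / 2) ^ l) + ε l) * b l) :
    (∏ l ∈ s, a l) ^ 2 ≤ Real.exp 3 * Real.exp (2 * E) * (∏ l ∈ s, b l) ^ 2 := by
  have h1 : ∏ l ∈ s, a l ≤ Real.exp (3 / 2 + E) * ∏ l ∈ s, b l := by
    calc ∏ l ∈ s, a l ≤ ∏ l ∈ s, (Real.exp (3 * (1 / 4 * (1 / 2) ^ l) + ε l) * b l) :=
          Finset.prod_le_prod (fun l _ => ha l) h
      _ = Real.exp (∑ l ∈ s, (3 * (1 / 4 * (1 / 2) ^ l) + ε l)) * ∏ l ∈ s, b l := by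
          rw [Finset.prod_mul_distrib, Real.exp_sum]
      _ ≤ _ := by
          apply mul_le_mul_of_nonneg_right _ (Finset.prod_nonneg fun l _ => hb l)
          apply Real.exp_le_exp.2
          rw [Finset.sum_add_distrib]
          have h2 : ∑ l ∈ s, (3 * (1 / 4 * (1 / 2 : ℝ) ^ l)) = 3 / 4 * ∑ l ∈ s, (1 / 2 : ℝ) ^ l := by
            rw [Finset.mul_sum]
            exact Finset.sum_congr rfl fun l _ => by ring
          have h3 : ∑ l ∈ s, (1 / 2 : ℝ) ^ l ≤ ∑ l ∈ range J, (1 / 2 : ℝ) ^ l :=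
            Finset.sum_le_sum_of_subset_of_nonneg hs fun l _ _ => by positivity
          have h4 := geo J
          rw [h2]
          linarith
  have h2 : 0 ≤ ∏ l ∈ s, a l := Finset.prod_nonneg fun l _ => ha l
  have h3 := pow_le_pow_left₀ h2 h1 2
  rw [mul_pow, ← Real.exp_nat_mul] at h3
  have h4 : ((2 : ℕ) : ℝ) * (3 / 2 + E) = 3 + 2 * E := by push_cast; ring
  rw [h4, Real.exp_add] at h3
  exact h3

/-- the pointwise inequality -/
theorem pt1A (hT : S_TEX) (m : ℕ) (κ : ℝ) (hκ : 4 ≤ κ) (J : ℕ) (k : Fin m → ℝ) (z : Fin m → ℕ → ℂ)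
    (δ : ℕ → ℂ) (y : ℕ → ℝ) (E : ℝ) (hk : ∀ i, 0 ≤ k i) (hk1 : ∑ i, k i ≤ 1) (i₀ : Fin m) (j' j₁ : ℕ)
    (hj' : j' ≤ j₁) (hj₁ : j₁ ≤ J) (hy : ∀ l, 0 ≤ y l)
    (hE : ∀ s : Finset ℕ, s ⊆ Ico j₁ J → (∀ l ∈ s, y l ≤ κ * Real.exp (6 / 10 * (l : ℝ)) / 20) →
      ∑ l ∈ s, ‖δ l‖ ≤ E) :
    ‖cexp (∑ l ∈ range J, (z i₀ l + δ l))‖ ^ 2 *
      ‖∏ l ∈ Ico j' J, TEx (R9 κ l) ((∑ i, (k i : ℂ) * z i l) - z i₀ l)‖ ^ 2 ≤
      Real.exp 3 * Real.exp (2 * E) * (‖∏ l ∈ Ico j₁ J, TEx (R9 κ l) (∑ i, (k i : ℂ) * z i l)‖ ^ 2 *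
          Real.exp (6 * ∑ l ∈ range j₁, ((∑ i, ‖z i l‖) + ‖δ l‖)) +
        ∑ j ∈ Ico j₁ J, ‖∏ l ∈ Ico (j + 1) J, TEx (R9 κ l) (∑ i, (k i : ℂ) * z i l)‖ ^ 2 *
          Real.exp (6 * ∑ l ∈ range (j + 1), ((∑ i, ‖z i l‖) + ‖δ l‖)) *
            ((∑ i, (20 * ‖z i j‖ / R9 κ j) ^ (2 * s7 j)) +
              (20 * y j / (κ * Real.exp (6 / 10 * (j : ℝ)))) ^ (2 * s7 j))) := by
  classical
  set Q : ℕ → ℂ := fun l => ∑ i, (k i : ℂ) * z i l with hQ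
  set Z : ℕ → ℝ := fun l => (∑ i, ‖z i l‖) + ‖δ l‖ with hZ
  have hZ1 : ∀ i l, ‖z i l‖ ≤ ∑ i, ‖z i l‖ := fun i l =>
    Finset.single_le_sum (f := fun i => ‖z i l‖) (fun i _ => norm_nonneg _) (Finset.mem_univ i)
  have hki : ∀ i, k i ≤ 1 := fun i =>
    (Finset.single_le_sum (f := k) (fun i _ => hk i) (Finset.mem_univ i)).trans hk1
  have hQZ : ∀ l, ‖Q l‖ ≤ ∑ i, ‖z i l‖ := by
    intro l
    refine (norm_sum_le _ _).trans (Finset.sum_le_sum fun i _ => ?_)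
    rw [norm_mul, Complex.norm_real, Real.norm_of_nonneg (hk i)]
    have := mul_le_mul_of_nonneg_right (hki i) (norm_nonneg (z i l))
    linarith
  have hQg : ∀ l (c : ℝ), 0 ≤ c → (∀ i, ‖z i l‖ ≤ c) → ‖Q l‖ ≤ c := by
    intro l c hc h
    refine (norm_sum_le _ _).trans ?_
    have h1 : ∀ i ∈ (Finset.univ : Finset (Fin m)), ‖(k i : ℂ) * z i l‖ ≤ k i * c := by
      intro i _
      rw [norm_mul, Complex.norm_real, Real.norm_of_nonneg (hk i)]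
      exact mul_le_mul_of_nonneg_left (h i) (hk i)
    refine (Finset.sum_le_sum h1).trans ?_
    rw [← Finset.sum_mul]
    have := mul_le_mul_of_nonneg_right hk1 hc
    linarith
  set a : ℕ → ℝ := fun l => ‖cexp (z i₀ l + δ l)‖ * ‖TEx (R9 κ l) (Q l - z i₀ l)‖ with ha
  set b : ℕ → ℝ := fun l => ‖TEx (R9 κ l) (Q l)‖ with hb
  have ha0 : ∀ l, 0 ≤ a l := fun l => mul_nonneg (norm_nonneg _) (norm_nonneg _)
  have hb0 : ∀ l, 0 ≤ b l := fun l => norm_nonneg _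
  have hZ0 : ∀ l, 0 ≤ Z l := fun l => add_nonneg (Finset.sum_nonneg fun i _ => norm_nonneg _) (norm_nonneg _)
  have hed : ∀ l, ‖cexp (z i₀ l + δ l)‖ ≤ ‖cexp (z i₀ l)‖ * Real.exp ‖δ l‖ := by
    intro l
    rw [Complex.exp_add, norm_mul]
    exact mul_le_mul_of_nonneg_left (Complex.norm_exp_le_exp_norm _) (norm_nonneg _)
  have ha1 : ∀ l, a l ≤ Real.exp (3 * Z l) := fun l => by
    have h1 := any_block hT hκ l (Q l) (z i₀ l) (∑ i, ‖z i l‖) (hQZ l) (hZ1 i₀ l)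
    calc a l ≤ ‖cexp (z i₀ l)‖ * Real.exp ‖δ l‖ * ‖TEx (R9 κ l) (Q l - z i₀ l)‖ :=
          mul_le_mul_of_nonneg_right (hed l) (norm_nonneg _)
      _ = (‖cexp (z i₀ l)‖ * ‖TEx (R9 κ l) (Q l - z i₀ l)‖) * Real.exp ‖δ l‖ := by ring
      _ ≤ Real.exp (3 * ∑ i, ‖z i l‖) * Real.exp ‖δ l‖ :=
          mul_le_mul_of_nonneg_right h1 (Real.exp_pos _).le
      _ = Real.exp (3 * (∑ i, ‖z i l‖) + ‖δ l‖) := (Real.exp_add _ _).symm
      _ ≤ Real.exp (3 * Z l) := by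
          apply Real.exp_le_exp.2
          simp only [hZ]
          have := norm_nonneg (δ l)
          linarith
  -- the left-hand side
  have hL : ‖cexp (∑ l ∈ range J, (z i₀ l + δ l))‖ ^ 2 *
      ‖∏ l ∈ Ico j' J, TEx (R9 κ l) (Q l - z i₀ l)‖ ^ 2 =
      ((∏ l ∈ range j', ‖cexp (z i₀ l + δ l)‖) * ∏ l ∈ Ico j' J, a l) ^ 2 := by
    rw [Complex.exp_sum, norm_prod, norm_prod, ← Finset.prod_range_mul_prod_Ico _ (hj'.trans hj₁), ha,
      Finset.prod_mul_distrib]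
    ring
  rw [hL]
  have hE1 : ∀ n, ∏ l ∈ range n, ‖cexp (z i₀ l + δ l)‖ ≤ Real.exp (3 * ∑ l ∈ range n, Z l) := by
    intro n
    rw [Finset.mul_sum, Real.exp_sum]
    apply Finset.prod_le_prod (fun l _ => norm_nonneg _)
    intro l _
    refine (Complex.norm_exp_le_exp_norm _).trans (Real.exp_le_exp.2 ?_)
    have h1 := norm_add_le (z i₀ l) (δ l)
    have h2 := hZ1 i₀ l
    have h3 := hZ0 l
    simp only [hZ] at h3 ⊢
    linarith
  have hE0 : 0 ≤ ∏ l ∈ range j', ‖cexp (z i₀ l + δ l)‖ := Finset.prod_nonneg fun l _ => norm_nonneg _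
  have hR : ∀ l, (0 : ℝ) < R9 κ l := by
    intro l
    have h0 := R9_lo hκ l
    have hl : (0 : ℝ) ≤ l := Nat.cast_nonneg _
    linarith
  have hκe : ∀ l : ℕ, 0 < κ * Real.exp (6 / 10 * (l : ℝ)) := fun l => by positivity
  have hterm : ∀ j, 0 ≤ ‖∏ l ∈ Ico (j + 1) J, TEx (R9 κ l) (Q l)‖ ^ 2 *
      Real.exp (6 * ∑ l ∈ range (j + 1), Z l) * ((∑ i, (20 * ‖z i j‖ / R9 κ j) ^ (2 * s7 j)) +
        (20 * y j / (κ * Real.exp (6 / 10 * (j : ℝ)))) ^ (2 * s7 j)) := by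
    intro j
    apply mul_nonneg (by positivity)
    have h1 := hy j
    have h2 := hκe j
    exact add_nonneg (Finset.sum_nonneg fun i _ => by positivity) (by positivity)
  have hgood : ∀ l, (∀ i, ‖z i l‖ ≤ (R9 κ l : ℝ) / 20) →
      a l ≤ Real.exp (3 * (1 / 4 * (1 / 2) ^ l) + ‖δ l‖) * b l := fun l hl => by
    have h1 := good_block hT hκ l (Q l) (z i₀ l) (hQg l _ (by have := hR l; positivity) hl) (hl i₀)
    calc a l ≤ ‖cexp (z i₀ l)‖ * Real.exp ‖δ l‖ * ‖TEx (R9 κ l) (Q l - z i₀ l)‖ :=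
          mul_le_mul_of_nonneg_right (hed l) (norm_nonneg _)
      _ = (‖cexp (z i₀ l)‖ * ‖TEx (R9 κ l) (Q l - z i₀ l)‖) * Real.exp ‖δ l‖ := by ring
      _ ≤ (Real.exp (3 * (1 / 4 * (1 / 2) ^ l)) * ‖TEx (R9 κ l) (Q l)‖) * Real.exp ‖δ l‖ :=
          mul_le_mul_of_nonneg_right h1 (Real.exp_pos _).le
      _ = _ := by rw [Real.exp_add]; ring
  have hsplit : ∀ s : Finset ℕ, ‖∏ l ∈ s, TEx (R9 κ l) (Q l)‖ = ∏ l ∈ s, b l := fun s =>
    norm_prod _ _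
  -- the blocks below `n` (for `n ≥ j'`)
  have hlow : ∀ n, j' ≤ n → n ≤ J → (∏ l ∈ range j', ‖cexp (z i₀ l + δ l)‖) * ∏ l ∈ Ico j' n, a l ≤
      Real.exp (3 * ∑ l ∈ range n, Z l) := by
    intro n hn _
    have e1 : ∏ l ∈ Ico j' n, a l ≤ Real.exp (3 * ∑ l ∈ Ico j' n, Z l) := by
      rw [Finset.mul_sum, Real.exp_sum]
      exact Finset.prod_le_prod (fun l _ => ha0 l) fun l _ => ha1 l
    refine (mul_le_mul (hE1 j') e1 (Finset.prod_nonneg fun l _ => ha0 l) (Real.exp_pos _).le).trans ?_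
    rw [← Real.exp_add, ← mul_add, Finset.sum_range_add_sum_Ico _ hn]
  -- the general step: all blocks `l ≥ n` are good
  have hstep : ∀ n, j₁ ≤ n → n ≤ J → (∀ l ∈ Ico n J, (∀ i, ‖z i l‖ ≤ (R9 κ l : ℝ) / 20) ∧
      y l ≤ κ * Real.exp (6 / 10 * (l : ℝ)) / 20) →
      ((∏ l ∈ range j', ‖cexp (z i₀ l + δ l)‖) * ∏ l ∈ Ico j' J, a l) ^ 2 ≤
        Real.exp 3 * Real.exp (2 * E) * ((∏ l ∈ Ico n J, b l) ^ 2 * Real.exp (6 * ∑ l ∈ range n, Z l)) := by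
    intro n hn hnJ hg
    have hI : ∏ l ∈ Ico j' J, a l = (∏ l ∈ Ico j' n, a l) * ∏ l ∈ Ico n J, a l :=
      (Finset.prod_Ico_consecutive a (hj'.trans hn) hnJ).symm
    have h1 := prod_goodA a b (fun l => ‖δ l‖) E ha0 hb0 (Ico n J) J (by
      intro l hl
      rw [Finset.mem_Ico] at hl
      exact Finset.mem_range.2 hl.2) (hE _ (by
        intro l hl
        rw [Finset.mem_Ico] at hl ⊢
        omega) fun l hl => (hg l hl).2) (fun l hl => hgood l (hg l hl).1)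
    rw [hI, ← mul_assoc, mul_pow]
    have e1 := pow_le_pow_left₀ (mul_nonneg hE0 (Finset.prod_nonneg fun l _ => ha0 l))
      (hlow n (hj'.trans hn) hnJ) 2
    rw [← Real.exp_nat_mul] at e1
    refine (mul_le_mul e1 h1 (by positivity) (Real.exp_pos _).le).trans (le_of_eq ?_)
    have e2 : ((2 : ℕ) : ℝ) * (3 * ∑ l ∈ range n, Z l) = 6 * ∑ l ∈ range n, Z l := by
      push_cast
      ring
    rw [e2]
    ring
  by_cases hall : ∀ l ∈ Ico j₁ J, (∀ i, ‖z i l‖ ≤ (R9 κ l : ℝ) / 20) ∧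
      y l ≤ κ * Real.exp (6 / 10 * (l : ℝ)) / 20
  · refine (hstep j₁ le_rfl hj₁ hall).trans (mul_le_mul_of_nonneg_left ?_ (by positivity))
    rw [hsplit (Ico j₁ J)]
    exact le_add_of_nonneg_right (Finset.sum_nonneg fun j _ => hterm j)
  · push Not at hall
    obtain ⟨l₀, hl₀, hbad₀⟩ := hall
    have hne : ((Ico j₁ J).filter fun l => ¬ ((∀ i, ‖z i l‖ ≤ (R9 κ l : ℝ) / 20) ∧
        y l ≤ κ * Real.exp (6 / 10 * (l : ℝ)) / 20)).Nonempty :=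
      ⟨l₀, by rw [Finset.mem_filter]; exact ⟨hl₀, fun h => not_le.2 (hbad₀ h.1) h.2⟩⟩
    obtain ⟨j, hj, hmax⟩ := Finset.exists_max_image _ id hne
    rw [Finset.mem_filter] at hj
    obtain ⟨hjm, hbad⟩ := hj
    have hjm' := hjm
    rw [Finset.mem_Ico] at hjm
    have hg : ∀ l ∈ Ico (j + 1) J, (∀ i, ‖z i l‖ ≤ (R9 κ l : ℝ) / 20) ∧
        y l ≤ κ * Real.exp (6 / 10 * (l : ℝ)) / 20 := by
      intro l hl
      rw [Finset.mem_Ico] at hl
      by_contra hcon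
      have := hmax l (by
        rw [Finset.mem_filter, Finset.mem_Ico]
        exact ⟨⟨by omega, hl.2⟩, hcon⟩)
      simp only [id] at this
      omega
    have h3 := hstep (j + 1) (by omega) (by omega) hg
    have h4 : (1 : ℝ) ≤ (∑ i, (20 * ‖z i j‖ / R9 κ j) ^ (2 * s7 j)) +
        (20 * y j / (κ * Real.exp (6 / 10 * (j : ℝ)))) ^ (2 * s7 j) := by
      have hyj := hy j
      have hκj := hκe j
      rw [not_and_or] at hbad
      rcases hbad with hbad | hbad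
      · push Not at hbad
        obtain ⟨i, hi⟩ := hbad
        have e1 : (1 : ℝ) ≤ (20 * ‖z i j‖ / R9 κ j) ^ (2 * s7 j) := by
          apply one_le_pow₀
          rw [le_div_iff₀ (hR j)]
          linarith
        have e2 := e1.trans (Finset.single_le_sum (f := fun i => (20 * ‖z i j‖ / R9 κ j) ^ (2 * s7 j))
          (fun i _ => by positivity) (Finset.mem_univ i))
        have e3 : 0 ≤ (20 * y j / (κ * Real.exp (6 / 10 * (j : ℝ)))) ^ (2 * s7 j) := by positivity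
        linarith
      · push Not at hbad
        have e1 : (1 : ℝ) ≤ (20 * y j / (κ * Real.exp (6 / 10 * (j : ℝ)))) ^ (2 * s7 j) := by
          apply one_le_pow₀
          rw [le_div_iff₀ hκj]
          linarith
        have e3 : 0 ≤ ∑ i, (20 * ‖z i j‖ / R9 κ j) ^ (2 * s7 j) :=
          Finset.sum_nonneg fun i _ => by positivity
        linarith
    have h5 := Finset.single_le_sum (f := fun j => ‖∏ l ∈ Ico (j + 1) J, TEx (R9 κ l) (Q l)‖ ^ 2 *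
      Real.exp (6 * ∑ l ∈ range (j + 1), Z l) * ((∑ i, (20 * ‖z i j‖ / R9 κ j) ^ (2 * s7 j)) +
        (20 * y j / (κ * Real.exp (6 / 10 * (j : ℝ)))) ^ (2 * s7 j)))
        (fun j _ => hterm j) hjm'
    refine h3.trans (mul_le_mul_of_nonneg_left ?_ (by positivity))
    have h6 : 0 ≤ ‖∏ l ∈ Ico j₁ J, TEx (R9 κ l) (Q l)‖ ^ 2 *
        Real.exp (6 * ∑ l ∈ range j₁, Z l) := by positivity
    refine le_trans ?_ (le_add_of_nonneg_left h6)
    refine le_trans ?_ h5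
    rw [hsplit]
    have h7 : 0 ≤ (∏ l ∈ Ico (j + 1) J, b l) ^ 2 * Real.exp (6 * ∑ l ∈ range (j + 1), Z l) := by
      positivity
    calc _ = (∏ l ∈ Ico (j + 1) J, b l) ^ 2 * Real.exp (6 * ∑ l ∈ range (j + 1), Z l) * 1 :=
          (mul_one _).symm
      _ ≤ _ := mul_le_mul_of_nonneg_left h4 h7

end Pool.Agent.H469.F4
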