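import Pool.Agent.H469.F4.P8

set_option autoImplicit false

/-!
# Maxima over short intervals: the predicted orders for tilted points
-/

namespace Pool.Agent.H469.F4

open Filter Topology MeasureTheory Complex Pool.Agent.Q97.UM
open Pool.Agent.Q14.UM (mem_PB PB_disj cv_len)

noncomputable section

/-- **the predicted orders for a tilted point** -/
theorem VV_G : ∃ C E₀ : ℝ, 0 ≤ C ∧ 1 ≤ E₀ ∧ ∀ (E β a x : ℝ) (J : ℕ), E₀ ≤ E * Real.exp (-(J : ℝ)) → 0 ≤ β → β ≤ 4 → |a| ≤ 2 →
    (Real.exp (-C) * Real.exp (β ^ 2 / 4 * (Real.log E - J) + (β / 2 + a) ^ 2 * J) ≤ VV E (aw β x) (yF E a J x)) ∧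
    ∀ j : ℕ, j ≤ J →
    (∀ c : ℝ, |c| ≤ 2 → VV E (aw β x) (fun p => yF E a J x p + yF E c j x p) ≤
      Real.exp C * Real.exp (β ^ 2 / 4 * (Real.log E - J) + (β / 2 + a) ^ 2 * (J - j) + (β / 2 + a + c) ^ 2 * j)) ∧
    (0 ≤ β / 2 + a → ∀ V x' : ℝ, 0 ≤ V → V ≤ 2 → |x - x'| ≤ 1 → 1 ≤ |x - x'| * (E * Real.exp (-(j : ℝ))) →
      VV E (aw β x) (fun p => yF E a J x p + yF E V j x' p) ≤
        Real.exp C * Real.exp (β ^ 2 / 4 * (Real.log E - J) + (β / 2 + a) ^ 2 * J + V ^ 2 * j)) := by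
  obtain ⟨C1, E₀, hC1, hE₀, h1⟩ := CS_le
  obtain ⟨C2, hC2, h2⟩ := PS_quad (B := 6) (by norm_num)
  refine ⟨2 * C2 + 16 * C1, E₀, by positivity, hE₀, fun E β a x J hJ hβ0 hβ4 ha => ?_⟩
  have hJ1 : 1 ≤ E * Real.exp (-(J : ℝ)) := hE₀.trans hJ
  have hE0 : 0 < E := by
    by_contra h
    have h1 : E * Real.exp (-(J : ℝ)) ≤ 0 := mul_nonpos_of_nonpos_of_nonneg (not_lt.1 h) (Real.exp_pos _).le
    linarith
  have hE1 : 1 ≤ E := by
    refine hJ1.trans (mul_le_of_le_one_right hE0.le ?_)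
    rw [Real.exp_le_one_iff]
    have : (0 : ℝ) ≤ J := Nat.cast_nonneg J
    linarith
  have ha' := abs_le.1 ha
  have hpr : ∀ p ∈ (Finset.Icc 1 ⌊Real.exp E⌋₊).filter Nat.Prime, 0 < p := fun p hp => (Finset.mem_filter.1 hp).2.pos
  have hC16 : 0 ≤ 16 * C1 := by positivity
  refine ⟨?_, fun j hjJ => ⟨fun c hc => ?_, ?_⟩⟩
  · unfold VV
    rw [← Real.exp_add]
    apply Real.exp_le_exp.2
    have e1 : PS E (fun p => ‖aw β x p + yF E a J x p‖ ^ 2 / (p : ℝ)) = PS E (fun p => ((β / 2 + a) + (-a) * cut E J p + 0 * cut E J p) ^ 2 / p) := by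
      unfold PS
      refine Finset.sum_congr rfl fun p hp => ?_
      have h3 := norm_two' (β / 2) (a * (1 - cut E J p)) x x (hpr p hp)
      unfold aw yF
      beta_reduce
      rw [h3, sub_self, zero_mul, Real.cos_zero]
      ring
    have h3 := h2 E (β / 2 + a) (-a) 0 J J hJ1 hJ1 (by rw [abs_le]; constructor <;> linarith) (by rw [abs_neg]; linarith) (by simp)
    rw [e1]
    rw [abs_le] at h3
    have e2 : (β / 2 + a) ^ 2 * Real.log E + (2 * (β / 2 + a) * (-a) + (-a) ^ 2) * (Real.log E - J) =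
        β ^ 2 / 4 * (Real.log E - J) + (β / 2 + a) ^ 2 * J := by ring
    have h5 := h3.1
    have e3 : (2 * (β / 2 + a) * 0 + 0 ^ 2 : ℝ) * (Real.log E - J) + 2 * -a * 0 * (Real.log E - ((max J J : ℕ) : ℝ)) = 0 := by ring
    linarith
  · have hj1 : 1 ≤ E * Real.exp (-(j : ℝ)) := by
      refine hJ1.trans (mul_le_mul_of_nonneg_left ?_ hE0.le)
      apply Real.exp_le_exp.2
      have : (j : ℝ) ≤ J := by exact_mod_cast hjJ
      linarith
    have hc' := abs_le.1 hc
    unfold VV
    rw [← Real.exp_add]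
    apply Real.exp_le_exp.2
    have e1 : PS E (fun p => ‖aw β x p + (yF E a J x p + yF E c j x p)‖ ^ 2 / (p : ℝ)) =
        PS E (fun p => ((β / 2 + a + c) + (-a) * cut E J p + (-c) * cut E j p) ^ 2 / p) := by
      unfold PS
      refine Finset.sum_congr rfl fun p hp => ?_
      have h3 := norm_two' (β / 2) (a * (1 - cut E J p) + c * (1 - cut E j p)) x x (hpr p hp)
      have e : aw β x p + (yF E a J x p + yF E c j x p) = ((β / 2 : ℝ) : ℂ) * ua x p + ((a * (1 - cut E J p) + c * (1 - cut E j p) : ℝ) : ℂ) * ua x p := by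
        unfold aw yF
        push_cast
        ring
      beta_reduce
      rw [e, h3, sub_self, zero_mul, Real.cos_zero]
      ring
    have h3 := h2 E (β / 2 + a + c) (-a) (-c) J j hJ1 hj1 (by rw [abs_le]; constructor <;> linarith) (by rw [abs_neg]; linarith)
      (by rw [abs_neg]; linarith)
    rw [max_eq_left hjJ] at h3
    rw [e1]
    rw [abs_le] at h3
    have e2 : (β / 2 + a + c) ^ 2 * Real.log E + (2 * (β / 2 + a + c) * (-a) + (-a) ^ 2) * (Real.log E - J) +
        (2 * (β / 2 + a + c) * (-c) + (-c) ^ 2) * (Real.log E - j) + 2 * (-a) * (-c) * (Real.log E - J) =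
        β ^ 2 / 4 * (Real.log E - J) + (β / 2 + a) ^ 2 * (J - j) + (β / 2 + a + c) ^ 2 * j := by ring
    rw [e2] at h3
    linarith [h3.2]
  · intro hβa V x' hV0 hV2 hn1 hn2
    have hj1 : E₀ ≤ E * Real.exp (-(j : ℝ)) := by
      refine hJ.trans (mul_le_mul_of_nonneg_left ?_ hE0.le)
      apply Real.exp_le_exp.2
      have : (j : ℝ) ≤ J := by exact_mod_cast hjJ
      linarith
    unfold VV
    rw [← Real.exp_add]
    apply Real.exp_le_exp.2
    have e1 : PS E (fun p => ‖aw β x p + (yF E a J x p + yF E V j x' p)‖ ^ 2 / (p : ℝ)) =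
        PS E (fun p => ((β / 2 + a) + (-a) * cut E J p + 0 * cut E J p) ^ 2 / p) + PS E (fun p => (V + (-V) * cut E j p + 0 * cut E j p) ^ 2 / p) +
          2 * (β / 2 + a) * V * PS E (fun p => (1 - cut E j p) * (Real.cos ((x - x') * Real.log p) / p)) := by
      unfold PS
      rw [Finset.mul_sum, ← Finset.sum_add_distrib, ← Finset.sum_add_distrib]
      refine Finset.sum_congr rfl fun p hp => ?_
      have h3 := norm_two' (β / 2 + a * (1 - cut E J p)) (V * (1 - cut E j p)) x x' (hpr p hp)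
      have e : aw β x p + (yF E a J x p + yF E V j x' p) = ((β / 2 + a * (1 - cut E J p) : ℝ) : ℂ) * ua x p + ((V * (1 - cut E j p) : ℝ) : ℂ) * ua x' p := by
        unfold aw yF
        push_cast
        ring
      have hcm := cut_mul hE0.le J j p
      rw [max_eq_left hjJ] at hcm
      have e5 : (β / 2 + a * (1 - cut E J p)) * (V * (1 - cut E j p)) = (β / 2 + a) * V * (1 - cut E j p) := by
        have : (β / 2 + a * (1 - cut E J p)) * (V * (1 - cut E j p)) = (β / 2 + a) * V * (1 - cut E j p) - a * V * (cut E J p - cut E J p * cut E j p) := by ring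
        rw [this, hcm]
        ring
      beta_reduce
      rw [e, h3]
      have e6 : 2 * (β / 2 + a * (1 - cut E J p)) * (V * (1 - cut E j p)) * Real.cos ((x - x') * Real.log p) =
          2 * ((β / 2 + a) * V * (1 - cut E j p)) * Real.cos ((x - x') * Real.log p) := by
        rw [← e5]
        ring
      rw [e6]
      ring
    have e2 : PS E (fun p => (1 - cut E j p) * (Real.cos ((x - x') * Real.log p) / p)) = CS E j (x - x') := by
      rw [← PS_blocks hE1]
      unfold CS
      have hJB : j ≤ JB E := by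
        have h5 := JB_shift hE0 j (hE₀.trans hj1)
        omega
      have h6 : ∀ i ∈ Finset.range (JB E), ∑ p ∈ PB E i, (1 - cut E j p) * (Real.cos ((x - x') * Real.log p) / (p : ℝ)) =
          if i < j then ∑ p ∈ PB E i, Real.cos ((x - x') * Real.log p) / (p : ℝ) else 0 := by
        intro i _
        split_ifs with h
        · refine Finset.sum_congr rfl fun p hp => ?_
          rw [cut_block hE0.le hp, if_neg (by omega)]
          ring
        · refine Finset.sum_eq_zero fun p hp => ?_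
          rw [cut_block hE0.le hp, if_pos (by omega)]
          ring
      rw [Finset.sum_congr rfl h6, ← Finset.sum_filter]
      refine Finset.sum_congr ?_ fun _ _ => rfl
      ext i
      rw [Finset.mem_filter, Finset.mem_range, Finset.mem_range]
      omega
    rw [e1, e2]
    have h3 := h2 E (β / 2 + a) (-a) 0 J J hJ1 hJ1 (by rw [abs_le]; constructor <;> linarith) (by rw [abs_neg]; linarith) (by simp)
    have h4 := h2 E V (-V) 0 j j (hE₀.trans hj1) (hE₀.trans hj1) (by rw [abs_of_nonneg hV0]; linarith) (by rw [abs_neg, abs_of_nonneg hV0]; linarith) (by simp)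
    rw [abs_le] at h3 h4
    have h5 := h3.2
    have h6 := h4.2
    have e3 : (β / 2 + a) ^ 2 * Real.log E + (2 * (β / 2 + a) * (-a) + (-a) ^ 2) * (Real.log E - J) =
        β ^ 2 / 4 * (Real.log E - J) + (β / 2 + a) ^ 2 * J := by ring
    have e4 : (2 * (β / 2 + a) * 0 + 0 ^ 2 : ℝ) * (Real.log E - J) + 2 * -a * 0 * (Real.log E - ((max J J : ℕ) : ℝ)) = 0 := by ring
    have e5 : V ^ 2 * Real.log E + (2 * V * (-V) + (-V) ^ 2) * (Real.log E - j) + (2 * V * 0 + 0 ^ 2) * (Real.log E - j) +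
      2 * (-V) * 0 * (Real.log E - ((max j j : ℕ) : ℝ)) = V ^ 2 * j := by ring
    have h7 := (h1 E j hj1).1 (x - x') hn1 hn2
    have hβaV : 0 ≤ 2 * (β / 2 + a) * V := by positivity
    have hβaV8 : 2 * (β / 2 + a) * V ≤ 16 := by nlinarith [ha'.2]
    have h8 : 2 * (β / 2 + a) * V * CS E j (x - x') ≤ 2 * (β / 2 + a) * V * C1 := mul_le_mul_of_nonneg_left h7 hβaV
    have h9 : 2 * (β / 2 + a) * V * C1 ≤ 16 * C1 := mul_le_mul_of_nonneg_right hβaV8 hC1
    linarith

end

end Pool.Agent.H469.F4
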