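import Pool.Agent.H469.F4.Q1

set_option autoImplicit false

/-!
# Maxima over short intervals: the weights of tilted points
-/

namespace Pool.Agent.H469.F4

open Filter Topology MeasureTheory Complex Pool.Agent.Q97.UM
open Pool.Agent.Q14.UM (mem_PB PB_disj cv_len)

noncomputable section

/-- two weights -/
def y2 (E a : ℝ) (j : ℕ) (x c : ℝ) (j' : ℕ) (x' : ℝ) : ℕ → ℂ := fun p => yF E a j x p + yF E c j' x' p

theorem norm_y2 {a c : ℝ} (ha : |a| ≤ 4) (hc : |c| ≤ 4) (E : ℝ) (j j' : ℕ) (x x' : ℝ) (n : ℕ) : ‖y2 E a j x c j' x' n‖ ≤ 8 := by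
  unfold y2
  refine (norm_add_le _ _).trans ?_
  have h1 := norm_yF ha E j x n
  have h2 := norm_yF hc E j' x' n
  linarith

/-- two weights at good points -/
theorem Pf_two {S E κ' : ℝ} (hE : 1 ≤ E) (hκ : 16 ≤ κ') {a c : ℝ} (ha : |a| ≤ S) (hc : |c| ≤ S) {x x' t : ℝ} {j j' : ℕ} (hj : j ≤ JB E)
    (hj' : j' ≤ JB E) (h : GG S E κ' (t + x)) (h' : GG S E κ' (t + x')) :
    Real.exp (2 * a * FJ E j (t + x) + 2 * c * FJ E j' (t + x')) ≤ 4 * Pf E κ' (y2 E a j x c j' x') t := by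
  have hE0 : 0 ≤ E := by linarith
  have hz : (fun _ : ℕ => (0 : ℂ)) = fun p => (fun _ : ℕ => (0 : ℂ)) p + (fun _ : ℕ => (0 : ℂ)) p := by
    funext p
    simp
  have hzf : ∀ i, zf E (y2 E a j x c j' x') (fun _ => 0) i t = zf E (yF E a j x) (fun _ => 0) i t + zf E (yF E c j' x') (fun _ => 0) i t := by
    intro i
    conv_lhs => rw [hz]
    exact zf_add E (yF E a j x) (fun _ => 0) (yF E c j' x') (fun _ => 0) i t
  have hblk : ∀ (c : ℝ) (j i : ℕ) (τ : ℝ), |c| ≤ S → GG S E κ' τ → i < JB E →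
      ‖((c * (1 - if j ≤ i then 1 else 0) : ℝ) : ℂ) * Zb E i τ‖ ≤ (R9 κ' i : ℝ) / 20 := by
    intro c j i τ hc hG hi
    have h1 := hG i hi
    rw [norm_mul, Complex.norm_real, Real.norm_eq_abs]
    have h2 : |c * (1 - if j ≤ i then 1 else 0)| ≤ S := by
      split_ifs
      · rw [sub_self, mul_zero, abs_zero]
        exact (abs_nonneg c).trans hc
      · rwa [sub_zero, mul_one]
    have h3 : |c * (1 - if j ≤ i then 1 else 0)| * ‖Zb E i τ‖ ≤ S * ‖Zb E i τ‖ := mul_le_mul_of_nonneg_right h2 (norm_nonneg _)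
    linarith
  have hC := cmp_small (t := t) hE hκ (a := y2 E a j x c j' x') (a2 := fun _ => 0) fun i hi => by
    rw [hzf]
    refine (norm_add_le _ _).trans ?_
    rw [zf_yF hE0, zf_yF hE0]
    have h1 := hblk a j i (t + x) ha h hi
    have h2 := hblk c j' i (t + x') hc h' hi
    linarith
  have eC : Mm E (y2 E a j x c j' x') (fun _ => 0) t = Real.exp (a * FJ E j (t + x) + c * FJ E j' (t + x')) := by
    rw [Mm_sum hE, ← sum_F hj, ← sum_F hj', ← Complex.add_re, ← Finset.sum_add_distrib]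
    congr 2
    refine Finset.sum_congr rfl fun i _ => ?_
    rw [hzf, zf_yF hE0, zf_yF hE0]
  rw [eC] at hC
  obtain ⟨-, b2⟩ := sq_bounds (norm_nonneg _) (Real.exp_pos _) hC
  rw [← Real.exp_nat_mul] at b2
  refine le_trans (le_of_eq ?_) b2
  congr 1
  push_cast
  ring

/-- the own part -/
def oG (E κ' b V a : ℝ) (j₀ J : ℕ) (x t : ℝ) : ℝ :=
  ∑ j ∈ Finset.Icc j₀ J, Real.exp (b * V * j) * Pf E κ' (y2 E a J x (-(b / 2)) j x) t

/-- the competitor -/
def kG (E κ' b V a : ℝ) (J j : ℕ) (x x' t : ℝ) : ℝ :=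
  16 * Real.exp (2 * V * (Real.log 16 / b)) * Real.exp (-(2 * V ^ 2 * j)) * Pf E κ' (y2 E a J x V j x') t

/-- the top part -/
def tG (E κ' b V₂ a : ℝ) (J : ℕ) (x t : ℝ) : ℝ := Real.exp (-(b * V₂ * J)) * Pf E κ' (y2 E a J x (b / 2) J x) t

theorem oG_nonneg (E κ' b V a : ℝ) (j₀ J : ℕ) (x t : ℝ) : 0 ≤ oG E κ' b V a j₀ J x t :=
  Finset.sum_nonneg fun _ _ => mul_nonneg (Real.exp_pos _).le (Pf_nonneg _ _ _ _)

theorem kG_nonneg (E κ' b V a : ℝ) (J j : ℕ) (x x' t : ℝ) : 0 ≤ kG E κ' b V a J j x x' t :=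
  mul_nonneg (by positivity) (Pf_nonneg _ _ _ _)

theorem tG_nonneg (E κ' b V₂ a : ℝ) (J : ℕ) (x t : ℝ) : 0 ≤ tG E κ' b V₂ a J x t := mul_nonneg (Real.exp_pos _).le (Pf_nonneg _ _ _ _)

theorem oG_cont (E κ' b V a : ℝ) (j₀ J : ℕ) (x : ℝ) : Continuous (oG E κ' b V a j₀ J x) :=
  continuous_finsetSum _ fun _ _ => continuous_const.mul (Pf_cont _ _ _)

theorem kG_cont (E κ' b V a : ℝ) (J j : ℕ) (x x' : ℝ) : Continuous (kG E κ' b V a J j x x') :=
  continuous_const.mul (Pf_cont _ _ _)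

theorem tG_cont (E κ' b V₂ a : ℝ) (J : ℕ) (x : ℝ) : Continuous (tG E κ' b V₂ a J x) :=
  continuous_const.mul (Pf_cont _ _ _)

/-- the weight of one of the points -/
def psG (E κ' b V V₂ a K x : ℝ) (j₀ J n i : ℕ) (t : ℝ) : ℝ :=
  Pf E κ' (yF E a J (x + i * (K / E))) t - (oG E κ' b V a j₀ J (x + i * (K / E)) t +
    (∑ k ∈ (Finset.range n).erase i, kG E κ' b V a J (lev J K i k) (x + i * (K / E)) (x + k * (K / E)) t +
    (Pf E κ' (yF E a J (x + i * (K / E))) t * pW E κ' 4 (x + i * (K / E)) t + tG E κ' b V₂ a J (x + i * (K / E)) t)))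

theorem psG_le {E κ' b V V₂ a K x : ℝ} {j₀ J n i : ℕ} {t : ℝ} : psG E κ' b V V₂ a K x j₀ J n i t ≤ Pf E κ' (yF E a J (x + i * (K / E))) t := by
  unfold psG
  have h1 := oG_nonneg E κ' b V a j₀ J (x + i * (K / E)) t
  have h2 : 0 ≤ ∑ k ∈ (Finset.range n).erase i, kG E κ' b V a J (lev J K i k) (x + i * (K / E)) (x + k * (K / E)) t :=
    Finset.sum_nonneg fun k _ => kG_nonneg _ _ _ _ _ _ _ _ _ _
  have h3 : 0 ≤ Pf E κ' (yF E a J (x + i * (K / E))) t * pW E κ' 4 (x + i * (K / E)) t :=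
    mul_nonneg (Pf_nonneg _ _ _ _) (pW_nonneg _ _ _ _ _)
  have h4 := tG_nonneg E κ' b V₂ a J (x + i * (K / E)) t
  linarith

/-- where the weight is positive -/
theorem psG_pos {E κ' b V V₂ a K x : ℝ} {j₀ J n i : ℕ} {t : ℝ} (hE : 1 ≤ E) (hκ : 16 ≤ κ') (hb : 0 < b) (hb1 : b ≤ 1) (ha0 : 0 ≤ a) (ha : a ≤ 4)
    (hV0 : 0 < V) (hV2 : V ≤ 4) (hJB : J ≤ JB E) (h : 0 < psG E κ' b V V₂ a K x j₀ J n i t) :
    GG 4 E κ' (t + (x + i * (K / E))) ∧
    Pf E κ' (yF E a J (x + i * (K / E))) t ≤ 4 * Real.exp (2 * a * FJ E J (t + (x + i * (K / E)))) ∧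
    (∀ j : ℕ, j₀ ≤ j → j ≤ J → V * j - Real.log 16 / b < FJ E j (t + (x + i * (K / E)))) ∧
    FJ E J (t + (x + i * (K / E))) < V₂ * J + Real.log 16 / b ∧
    ∀ k ∈ (Finset.range n).erase i, kG E κ' b V a J (lev J K i k) (x + i * (K / E)) (x + k * (K / E)) t <
      Pf E κ' (yF E a J (x + i * (K / E))) t := by
  obtain ⟨X, hX⟩ : ∃ X : ℝ, X = x + i * (K / E) := ⟨_, rfl⟩
  unfold psG at h
  rw [← hX] at h ⊢
  obtain ⟨P, hP⟩ : ∃ P : ℝ, P = Pf E κ' (yF E a J X) t := ⟨_, rfl⟩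
  rw [← hP] at h ⊢
  have h1 := oG_nonneg E κ' b V a j₀ J X t
  have h2 : 0 ≤ ∑ k ∈ (Finset.range n).erase i, kG E κ' b V a J (lev J K i k) X (x + k * (K / E)) t :=
    Finset.sum_nonneg fun k _ => kG_nonneg _ _ _ _ _ _ _ _ _ _
  have hP0 : 0 ≤ P := by rw [hP]; exact Pf_nonneg _ _ _ _
  have h3 : 0 ≤ P * pW E κ' 4 X t := mul_nonneg hP0 (pW_nonneg _ _ _ _ _)
  have h4 := tG_nonneg E κ' b V₂ a J X t
  have hPp : 0 < P := by linarith
  have hG : GG 4 E κ' (t + X) := by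
    by_contra hcon
    have h5 := bad_GG (by norm_num) (by linarith : 0 < κ') hcon
    have h6 : P * 1 ≤ P * pW E κ' 4 X t := mul_le_mul_of_nonneg_left h5 hPp.le
    linarith
  obtain ⟨p1, -⟩ := Pf_yF (S := 4) hE hκ (a := a) (by rw [abs_of_nonneg ha0]; exact ha) hJB hG
  rw [← hP] at p1
  obtain ⟨F, hF⟩ : ∃ F : ℝ, F = FJ E J (t + X) := ⟨_, rfl⟩
  rw [← hF] at p1 ⊢
  refine ⟨hG, p1, ?_, ?_, ?_⟩
  · intro j hj0 hjJ
    have h5 : Real.exp (b * V * j) * Pf E κ' (y2 E a J X (-(b / 2)) j X) t ≤ oG E κ' b V a j₀ J X t := by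
      unfold oG
      exact Finset.single_le_sum (f := fun j : ℕ => Real.exp (b * V * j) * Pf E κ' (y2 E a J X (-(b / 2)) j X) t)
        (fun i _ => mul_nonneg (Real.exp_pos _).le (Pf_nonneg _ _ _ _)) (Finset.mem_Icc.2 ⟨hj0, hjJ⟩)
    have h6 := Pf_two (S := 4) hE hκ (a := a) (c := -(b / 2)) (by rw [abs_of_nonneg ha0]; exact ha) (by rw [abs_neg, abs_of_pos (by linarith)]; linarith)
      hJB (hjJ.trans hJB) hG hG
    rw [← hF] at h6
    obtain ⟨G, hGd⟩ : ∃ G : ℝ, G = FJ E j (t + X) := ⟨_, rfl⟩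
    rw [← hGd] at h6 ⊢
    have h7 : Real.exp (b * (V * j - G)) * Real.exp (2 * a * F) < 16 * Real.exp (2 * a * F) := by
      calc Real.exp (b * (V * j - G)) * Real.exp (2 * a * F) = Real.exp (b * V * j) * Real.exp (2 * a * F + 2 * -(b / 2) * G) := by
            rw [← Real.exp_add, ← Real.exp_add]
            congr 1
            ring
        _ ≤ Real.exp (b * V * j) * (4 * Pf E κ' (y2 E a J X (-(b / 2)) j X) t) := mul_le_mul_of_nonneg_left h6 (Real.exp_pos _).le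
        _ = 4 * (Real.exp (b * V * j) * Pf E κ' (y2 E a J X (-(b / 2)) j X) t) := by ring
        _ < 4 * P := by linarith
        _ ≤ 16 * Real.exp (2 * a * F) := by linarith
    have h8 := lt_of_mul_lt_mul_right h7 (Real.exp_pos _).le
    rw [← Real.lt_log_iff_exp_lt (by norm_num)] at h8
    have h9 : V * j - G < Real.log 16 / b := by
      rw [lt_div_iff₀ hb]
      linarith
    linarith
  · have h6 := Pf_two (S := 4) hE hκ (a := a) (c := b / 2) (by rw [abs_of_nonneg ha0]; exact ha) (by rw [abs_of_pos (by linarith)]; linarith)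
      hJB hJB hG hG
    rw [← hF] at h6
    have h7 : Real.exp (b * (F - V₂ * J)) * Real.exp (2 * a * F) < 16 * Real.exp (2 * a * F) := by
      calc Real.exp (b * (F - V₂ * J)) * Real.exp (2 * a * F) = Real.exp (-(b * V₂ * J)) * Real.exp (2 * a * F + 2 * (b / 2) * F) := by
            rw [← Real.exp_add, ← Real.exp_add]
            congr 1
            ring
        _ ≤ Real.exp (-(b * V₂ * J)) * (4 * Pf E κ' (y2 E a J X (b / 2) J X) t) := mul_le_mul_of_nonneg_left h6 (Real.exp_pos _).le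
        _ = 4 * tG E κ' b V₂ a J X t := by unfold tG; ring
        _ < 4 * P := by linarith
        _ ≤ 16 * Real.exp (2 * a * F) := by linarith
    have h8 := lt_of_mul_lt_mul_right h7 (Real.exp_pos _).le
    rw [← Real.lt_log_iff_exp_lt (by norm_num)] at h8
    have h9 : F - V₂ * J < Real.log 16 / b := by
      rw [lt_div_iff₀ hb]
      linarith
    linarith
  · intro k hk
    have h5 : kG E κ' b V a J (lev J K i k) X (x + k * (K / E)) t ≤
        ∑ k ∈ (Finset.range n).erase i, kG E κ' b V a J (lev J K i k) X (x + k * (K / E)) t :=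
      Finset.single_le_sum (f := fun k : ℕ => kG E κ' b V a J (lev J K i k) X (x + k * (K / E)) t) (fun k _ => kG_nonneg _ _ _ _ _ _ _ _ _ _) hk
    linarith

/-- **the pointwise inequality** -/
theorem psG_sum_le {E κ' β b V V₂ a K H x t : ℝ} {j₀ J n : ℕ} (hE : 1 ≤ E) (hκ : 16 ≤ κ') (hβ0 : 0 ≤ β) (hb : 0 < b) (hb1 : b ≤ 1)
    (ha0 : 0 ≤ a) (ha : a ≤ 4) (hV0 : 0 < V) (hV2 : V ≤ 4) (hH : 0 ≤ H) (hK : Real.exp j₀ ≤ K) (hJ : j₀ ≤ J) (hJB : J ≤ JB E)
    (hn : ∀ i, i < n → (i : ℝ) * (K / E) ≤ H) :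
    ∑ i ∈ Finset.range n, fz β (t + (x + i * (K / E))) *
      (1 / 4 * Real.exp (-(2 * a * (V₂ * J + Real.log 16 / b))) * psG E κ' b V V₂ a K x j₀ J n i t) ≤ MH H x t ^ β := by
  have hK1 : 1 ≤ K := le_trans (Real.one_le_exp (Nat.cast_nonneg _)) hK
  have hK0 : 0 < K := by linarith
  have hE0 : 0 < E := by linarith
  have hlevj : ∀ i k : ℕ, i ≠ k → j₀ ≤ lev J K i k := by
    intro i k hik
    unfold lev
    apply le_min hJ
    apply Nat.le_floor
    rw [Real.le_log_iff_exp_le (mul_pos (lt_of_lt_of_le one_pos (abs_sub_ge hik)) hK0)]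
    calc Real.exp j₀ ≤ K := hK
      _ ≤ |(i : ℝ) - k| * K := le_mul_of_one_le_left hK0.le (abs_sub_ge hik)
  obtain ⟨Λ, hΛ⟩ : ∃ Λ : ℝ, Λ = 1 / 4 * Real.exp (-(2 * a * (V₂ * J + Real.log 16 / b))) := ⟨_, rfl⟩
  have hΛ0 : 0 < Λ := by rw [hΛ]; positivity
  rw [← hΛ]
  apply one_only (Finset.range n) (fun i : ℕ => fz β (t + (x + i * (K / E)))) (fun i => Λ * psG E κ' b V V₂ a K x j₀ J n i t)
    (Real.rpow_nonneg (MH_nonneg hH x t) _) (fun i _ => fz_nonneg _ _)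
  · intro i hi
    have hi' := Finset.mem_range.1 hi
    have h0 : 0 ≤ (i : ℝ) * (K / E) := by positivity
    exact Real.rpow_le_rpow (norm_nonneg _) (le_MH ⟨by linarith, by linarith [hn i hi']⟩) hβ0
  · intro i _
    show Λ * psG E κ' b V V₂ a K x j₀ J n i t ≤ 1
    rcases le_or_gt (psG E κ' b V V₂ a K x j₀ J n i t) 0 with h | h
    · have := mul_nonpos_of_nonneg_of_nonpos hΛ0.le h
      linarith
    · obtain ⟨-, g2, -, g4, -⟩ := psG_pos hE hκ hb hb1 ha0 ha hV0 hV2 hJB h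
      have h1 : psG E κ' b V V₂ a K x j₀ J n i t ≤ 4 * Real.exp (2 * a * (V₂ * J + Real.log 16 / b)) := by
        refine psG_le.trans (g2.trans ?_)
        apply mul_le_mul_of_nonneg_left _ (by norm_num)
        apply Real.exp_le_exp.2
        exact mul_le_mul_of_nonneg_left g4.le (by linarith)
      calc Λ * psG E κ' b V V₂ a K x j₀ J n i t ≤ Λ * (4 * Real.exp (2 * a * (V₂ * J + Real.log 16 / b))) := mul_le_mul_of_nonneg_left h1 hΛ0.le
        _ = Real.exp (-(2 * a * (V₂ * J + Real.log 16 / b))) * Real.exp (2 * a * (V₂ * J + Real.log 16 / b)) := by rw [hΛ]; ring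
        _ = 1 := by rw [← Real.exp_add]; simp
  · intro i hi k hk h1 h2
    by_contra hik
    have h1' : 0 < psG E κ' b V V₂ a K x j₀ J n i t := (mul_pos_iff_of_pos_left hΛ0).1 h1
    have h2' : 0 < psG E κ' b V V₂ a K x j₀ J n k t := (mul_pos_iff_of_pos_left hΛ0).1 h2
    obtain ⟨a1, a2, -, -, a5⟩ := psG_pos hE hκ hb hb1 ha0 ha hV0 hV2 hJB h1'
    obtain ⟨b1, -, b3, -, -⟩ := psG_pos hE hκ hb hb1 ha0 ha hV0 hV2 hJB h2'
    obtain ⟨j, hj⟩ : ∃ j : ℕ, j = lev J K i k := ⟨_, rfl⟩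
    have hjJ : j ≤ J := by rw [hj]; exact min_le_left _ _
    have hj0 : j₀ ≤ j := by rw [hj]; exact hlevj i k hik
    have c1 := b3 j hj0 hjJ
    have c2 := a5 k (Finset.mem_erase.2 ⟨fun h => hik h.symm, hk⟩)
    rw [← hj] at c2
    have c3 := Pf_two (S := 4) hE hκ (a := a) (c := V) (by rw [abs_of_nonneg ha0]; exact ha) (by rw [abs_of_pos hV0]; exact hV2)
      hJB (hjJ.trans hJB) a1 b1
    obtain ⟨F, hF⟩ : ∃ F : ℝ, F = FJ E J (t + (x + i * (K / E))) := ⟨_, rfl⟩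
    obtain ⟨G, hG⟩ : ∃ G : ℝ, G = FJ E j (t + (x + k * (K / E))) := ⟨_, rfl⟩
    rw [← hF] at a2 c3
    rw [← hG] at c1 c3
    have c4 : Real.exp (2 * V * (Real.log 16 / b) - 2 * V ^ 2 * j + 2 * V * G) * Real.exp (2 * a * F) < 1 * Real.exp (2 * a * F) := by
      calc Real.exp (2 * V * (Real.log 16 / b) - 2 * V ^ 2 * j + 2 * V * G) * Real.exp (2 * a * F) =
            Real.exp (2 * V * (Real.log 16 / b)) * Real.exp (-(2 * V ^ 2 * j)) * Real.exp (2 * a * F + 2 * V * G) := by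
            rw [← Real.exp_add, ← Real.exp_add, ← Real.exp_add]
            congr 1
            ring
        _ ≤ Real.exp (2 * V * (Real.log 16 / b)) * Real.exp (-(2 * V ^ 2 * j)) * (4 * Pf E κ' (y2 E a J (x + i * (K / E)) V j (x + k * (K / E))) t) :=
            mul_le_mul_of_nonneg_left c3 (by positivity)
        _ = 1 / 4 * kG E κ' b V a J j (x + i * (K / E)) (x + k * (K / E)) t := by unfold kG; ring
        _ < 1 / 4 * (4 * Real.exp (2 * a * F)) := by linarith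
        _ = 1 * Real.exp (2 * a * F) := by ring
    have c5 := lt_of_mul_lt_mul_right c4 (Real.exp_pos _).le
    rw [Real.exp_lt_one_iff] at c5
    have c6 : 2 * V * (Real.log 16 / b) - 2 * V ^ 2 * j + 2 * V * G = 2 * V * (G - (V * j - Real.log 16 / b)) := by ring
    rw [c6] at c5
    have c7 : 0 < 2 * V * (G - (V * j - Real.log 16 / b)) := mul_pos (by linarith) (by linarith)
    linarith

end

end Pool.Agent.H469.F4
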