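import Pool.Agent.H469.F4.Q2

set_option autoImplicit false

/-!
# Maxima over short intervals: the sum over the tilted points
-/

namespace Pool.Agent.H469.F4

open Filter Topology MeasureTheory Complex Pool.Agent.Q97.UM
open Pool.Agent.Q14.UM (mem_PB PB_disj cv_len)

noncomputable section

/-- the predicted orders, as a property of the two constants -/
def VG (Cv E₀ : ℝ) : Prop := ∀ (E β a x : ℝ) (J : ℕ), E₀ ≤ E * Real.exp (-(J : ℝ)) → 0 ≤ β → β ≤ 4 → |a| ≤ 2 →
    (Real.exp (-Cv) * Real.exp (β ^ 2 / 4 * (Real.log E - J) + (β / 2 + a) ^ 2 * J) ≤ VV E (aw β x) (yF E a J x)) ∧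
    ∀ j : ℕ, j ≤ J →
    (∀ c : ℝ, |c| ≤ 2 → VV E (aw β x) (fun p => yF E a J x p + yF E c j x p) ≤
      Real.exp Cv * Real.exp (β ^ 2 / 4 * (Real.log E - J) + (β / 2 + a) ^ 2 * (J - j) + (β / 2 + a + c) ^ 2 * j)) ∧
    (0 ≤ β / 2 + a → ∀ V x' : ℝ, 0 ≤ V → V ≤ 2 → |x - x'| ≤ 1 → 1 ≤ |x - x'| * (E * Real.exp (-(j : ℝ))) →
      VV E (aw β x) (fun p => yF E a J x p + yF E V j x' p) ≤
        Real.exp Cv * Real.exp (β ^ 2 / 4 * (Real.log E - J) + (β / 2 + a) ^ 2 * J + V ^ 2 * j))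

/-- the upper bounds used below -/
def UpE (E κ' β C T : ℝ) : Prop := ∀ X : ℝ, |X| ≤ T / 2 → ∀ y : ℕ → ℂ, (∀ n, ‖y n‖ ≤ 8) →
  ∫ t in T..(2 * T), fz β (t + X) * Pf E κ' y t ≤ C * (T * (C * VV E (aw β X) y))

theorem geo_tail {r : ℝ} (hr0 : 0 ≤ r) (hr1 : r < 1) (j₀ J : ℕ) : ∑ j ∈ Finset.Icc j₀ J, r ^ j ≤ r ^ j₀ * (1 - r)⁻¹ := by
  have hs := summable_geometric_of_lt_one hr0 hr1
  have h2 : ∑ j ∈ Finset.Icc j₀ J, r ^ j ≤ ∑ j ∈ (Finset.range (J + 1)).image (fun m => j₀ + m), r ^ j := by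
    apply Finset.sum_le_sum_of_subset_of_nonneg
    · intro j hj
      rw [Finset.mem_Icc] at hj
      rw [Finset.mem_image]
      exact ⟨j - j₀, Finset.mem_range.2 (by omega), by omega⟩
    · intro j _ _
      positivity
  refine h2.trans ?_
  rw [Finset.sum_image fun a _ c _ h => by omega]
  simp only [pow_add]
  rw [← Finset.mul_sum]
  apply mul_le_mul_of_nonneg_left _ (by positivity)
  rw [← tsum_geometric_of_lt_one hr0 hr1]
  exact hs.sum_le_tsum _ fun i _ => by positivity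

/-- **the sum over the tilted points** -/
theorem tilt_core {E κ' β b V V₁ V₂ a C Cv E₀ T K H x η c₀ Z D M : ℝ} {J j₀ n : ℕ} (hF : VG Cv E₀) (hU : UpE E κ' β C T) (hC : 0 < C) (hT : 0 < T)
    (hβ0 : 0 < β) (hβ4 : β ≤ 4) (hb : 0 < b) (hb1 : b ≤ 1 / 4) (hV0 : 0 < V) (hV₁ : V₁ = V + b) (hV₂ : V₂ = V₁ + b) (hV₁2 : V₁ ≤ 2) (ha : a = V₁ - β / 2)
    (ha0 : 0 ≤ a) (hE₀ : 1 ≤ E₀) (hκ : 16 ≤ κ') (hE0 : 0 < E)
    (hj₀ : Real.exp j₀ ≤ H * E / E₀) (hK : K = Real.exp j₀) (hJ : J = ⌊Real.log (H * E / E₀)⌋₊) (hH0 : 0 ≤ H) (hH1 : H ≤ 1) (hHT : |x| + 1 ≤ T / 2)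
    (hn : n = ⌊H * E / (E₀ * K)⌋₊ + 1) (hc₀ : 0 < c₀)
    (hQ : ∀ X, |X| ≤ T / 2 → ∃ Q : ℝ, c₀ * VV E (aw β X) (yF E a J X) ≤ Q ∧ T * Q ≤ ∫ t in T..(2 * T), fz β (t + X) * Pf E κ' (yF E a J X) t ∧
      ∫ t in T..(2 * T), fz β (t + X) * (Pf E κ' (yF E a J X) t * pW E κ' 4 X t) ≤ 1 / 8 * (T * Q))
    (hZ : ∀ (n i : ℕ), ∑ k ∈ (Finset.range n).erase i, |(i : ℝ) - k| ^ (-(V ^ 2)) ≤ Z)
    (hη : η = c₀ * Real.exp (-Cv) / 8) (hD : D = 16 * Real.exp (2 * V * (Real.log 16 / b)) * (C ^ 2 * Real.exp Cv))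
    (h1 : C ^ 2 * Real.exp Cv * (Real.exp (-(3 / 4 * b ^ 2)) ^ j₀ * (1 - Real.exp (-(3 / 4 * b ^ 2)))⁻¹) ≤ η)
    (h2 : D * (Real.exp (V ^ 2) * K ^ (-(V ^ 2)) * Z) ≤ η)
    (hM : M = Real.exp (β ^ 2 / 4 * (Real.log E - J) + V₁ ^ 2 * J)) :
    n * (1 / 4 * Real.exp (-(2 * a * (V₂ * J + Real.log 16 / b))) * (4 * η * (T * M))) ≤ ∫ t in T..(2 * T), MH H x t ^ β := by
  have hE₀0 : 0 < E₀ := by linarith
  have hK1 : 1 ≤ K := by rw [hK]; exact Real.one_le_exp (Nat.cast_nonneg _)
  have hK0 : 0 < K := by linarith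
  have hHE1 : 1 ≤ H * E / E₀ := by
    refine le_trans ?_ hj₀
    rw [← hK]
    exact hK1
  have hHE : H * E ≤ E := by nlinarith
  have hEE : E₀ ≤ E := by
    rw [one_le_div hE₀0] at hHE1
    linarith
  have hE1 : 1 ≤ E := hE₀.trans hEE
  have hM0 : 0 < M := by rw [hM]; exact Real.exp_pos _
  have hη0 : 0 < η := by rw [hη]; positivity
  have hV2 : V ≤ 2 := by linarith
  have ha2 : a ≤ 2 := by rw [ha]; linarith
  have haa : |a| ≤ 2 := by rw [abs_of_nonneg ha0]; exact ha2
  have hβa : β / 2 + a = V₁ := by rw [ha]; ring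
  have hlog0 : 0 ≤ Real.log (H * E / E₀) := Real.log_nonneg hHE1
  have hJ1 : (J : ℝ) ≤ Real.log (H * E / E₀) := by rw [hJ]; exact Nat.floor_le hlog0
  have hJ0 : j₀ ≤ J := by
    rw [hJ]
    apply Nat.le_floor
    rw [Real.le_log_iff_exp_le (by positivity)]
    exact hj₀
  have g1 : E₀ ≤ E * Real.exp (-(J : ℝ)) := by
    have h4 : Real.exp J ≤ H * E / E₀ := by
      rw [← Real.le_log_iff_exp_le (by positivity)]
      exact hJ1
    rw [le_div_iff₀ hE₀0] at h4
    have e : Real.exp J * Real.exp (-(J : ℝ)) = 1 := by rw [← Real.exp_add]; simp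
    calc E₀ = (Real.exp J * Real.exp (-(J : ℝ))) * E₀ := by rw [e, one_mul]
      _ = Real.exp J * E₀ * Real.exp (-(J : ℝ)) := by ring
      _ ≤ E * Real.exp (-(J : ℝ)) := mul_le_mul_of_nonneg_right (h4.trans hHE) (Real.exp_pos _).le
  have hJB : J ≤ JB E := by
    have := JB_shift hE0 J (hE₀.trans g1)
    omega
  have hni' : ∀ i, i < n → (i : ℝ) * K ≤ H * E / E₀ := by
    intro i hi
    have h4 : (i : ℝ) ≤ H * E / (E₀ * K) := by
      have h5 : i ≤ ⌊H * E / (E₀ * K)⌋₊ := by omega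
      have h6 : (i : ℝ) ≤ (⌊H * E / (E₀ * K)⌋₊ : ℝ) := by exact_mod_cast h5
      exact h6.trans (Nat.floor_le (by positivity))
    rw [← div_div, le_div_iff₀ hK0] at h4
    exact h4
  have hni : ∀ i, i < n → (i : ℝ) * (K / E) ≤ H := by
    intro i hi
    rw [← mul_div_assoc, div_le_iff₀ hE0]
    refine (hni' i hi).trans ?_
    exact div_le_self (by positivity) hE₀
  have hXT : ∀ i, i < n → |x + i * (K / E)| ≤ T / 2 := by
    intro i hi
    have h4 := hni i hi
    have h5 : 0 ≤ (i : ℝ) * (K / E) := by positivity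
    calc |x + i * (K / E)| ≤ |x| + |(i : ℝ) * (K / E)| := abs_add_le _ _
      _ ≤ |x| + 1 := by rw [abs_of_nonneg h5]; linarith
      _ ≤ _ := hHT
  have hD0 : 0 < D := by rw [hD]; positivity
  obtain ⟨r, hr⟩ : ∃ r : ℝ, r = Real.exp (-(3 / 4 * b ^ 2)) := ⟨_, rfl⟩
  have hr0 : 0 < r := by rw [hr]; exact Real.exp_pos _
  have hr1 : r < 1 := by
    rw [hr, Real.exp_lt_one_iff]
    have : 0 < b ^ 2 := by positivity
    linarith
  rw [← hr] at h1
  have hrp : ∀ j : ℕ, r ^ j = Real.exp (-(3 / 4 * b ^ 2) * j) := fun j => by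
    rw [hr, ← Real.exp_nat_mul]
    congr 1
    ring
  have hfc : ∀ X, Continuous fun t => fz β (t + X) := fun X => (fz_cont hβ0.le).comp (by fun_prop)
  -- the mean value of one weight
  have hone : ∀ i, i < n → 4 * η * (T * M) ≤ ∫ t in T..(2 * T), fz β (t + (x + i * (K / E))) * psG E κ' b V V₂ a K x j₀ J n i t := by
    intro i hi
    obtain ⟨X, hX⟩ : ∃ X : ℝ, X = x + i * (K / E) := ⟨_, rfl⟩
    have hXT' : |X| ≤ T / 2 := by rw [hX]; exact hXT i hi
    obtain ⟨Q, q1, q2, q3⟩ := hQ X hXT'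
    obtain ⟨w1, w2⟩ := hF E β a X J g1 hβ0.le hβ4 haa
    have c0 : Continuous fun t => fz β (t + X) * Pf E κ' (yF E a J X) t := (hfc X).mul (Pf_cont _ _ _)
    have c2 : Continuous fun t => fz β (t + X) * oG E κ' b V a j₀ J X t := (hfc X).mul (oG_cont _ _ _ _ _ _ _ _)
    have c3 : ∀ k : ℕ, Continuous fun t => fz β (t + X) * kG E κ' b V a J (lev J K i k) X (x + k * (K / E)) t :=
      fun k => (hfc X).mul (kG_cont _ _ _ _ _ _ _ _ _)
    have c4 : Continuous fun t => fz β (t + X) * (Pf E κ' (yF E a J X) t * pW E κ' 4 X t) := (hfc X).mul ((Pf_cont _ _ _).mul (pW_cont _ _ _ _))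
    have c6 : Continuous fun t => fz β (t + X) * tG E κ' b V₂ a J X t := (hfc X).mul (tG_cont _ _ _ _ _ _ _)
    have c5 : Continuous fun t => ∑ k ∈ (Finset.range n).erase i, fz β (t + X) * kG E κ' b V a J (lev J K i k) X (x + k * (K / E)) t :=
      continuous_finsetSum _ fun k _ => c3 k
    have e1 : ∀ t, fz β (t + (x + i * (K / E))) * psG E κ' b V V₂ a K x j₀ J n i t = fz β (t + X) * Pf E κ' (yF E a J X) t -
        (fz β (t + X) * oG E κ' b V a j₀ J X t + (∑ k ∈ (Finset.range n).erase i, fz β (t + X) * kG E κ' b V a J (lev J K i k) X (x + k * (K / E)) t +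
          (fz β (t + X) * (Pf E κ' (yF E a J X) t * pW E κ' 4 X t) + fz β (t + X) * tG E κ' b V₂ a J X t))) := by
      intro t
      unfold psG
      rw [← hX, ← Finset.mul_sum]
      ring
    simp only [e1]
    have i0 : IntervalIntegrable (fun t => fz β (t + X) * Pf E κ' (yF E a J X) t) volume T (2 * T) := c0.intervalIntegrable _ _
    have i2 : IntervalIntegrable (fun t => fz β (t + X) * oG E κ' b V a j₀ J X t) volume T (2 * T) := c2.intervalIntegrable _ _
    have i4 : IntervalIntegrable (fun t => fz β (t + X) * (Pf E κ' (yF E a J X) t * pW E κ' 4 X t)) volume T (2 * T) := c4.intervalIntegrable _ _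
    have i6 : IntervalIntegrable (fun t => fz β (t + X) * tG E κ' b V₂ a J X t) volume T (2 * T) := c6.intervalIntegrable _ _
    have i5 : IntervalIntegrable (fun t => ∑ k ∈ (Finset.range n).erase i, fz β (t + X) * kG E κ' b V a J (lev J K i k) X (x + k * (K / E)) t)
      volume T (2 * T) := c5.intervalIntegrable _ _
    have i46 : IntervalIntegrable (fun t => fz β (t + X) * (Pf E κ' (yF E a J X) t * pW E κ' 4 X t) + fz β (t + X) * tG E κ' b V₂ a J X t)
      volume T (2 * T) := i4.add i6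
    have i546 : IntervalIntegrable (fun t => ∑ k ∈ (Finset.range n).erase i, fz β (t + X) * kG E κ' b V a J (lev J K i k) X (x + k * (K / E)) t +
      (fz β (t + X) * (Pf E κ' (yF E a J X) t * pW E κ' 4 X t) + fz β (t + X) * tG E κ' b V₂ a J X t)) volume T (2 * T) := i5.add i46
    have i2546 : IntervalIntegrable (fun t => fz β (t + X) * oG E κ' b V a j₀ J X t + (∑ k ∈ (Finset.range n).erase i,
      fz β (t + X) * kG E κ' b V a J (lev J K i k) X (x + k * (K / E)) t +
      (fz β (t + X) * (Pf E κ' (yF E a J X) t * pW E κ' 4 X t) + fz β (t + X) * tG E κ' b V₂ a J X t))) volume T (2 * T) := i2.add i546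
    rw [intervalIntegral.integral_sub i0 i2546, intervalIntegral.integral_add i2 i546, intervalIntegral.integral_add i5 i46,
      intervalIntegral.integral_add i4 i6, intervalIntegral.integral_finsetSum fun k _ => (c3 k).intervalIntegrable _ _]
    -- one weight
    have hone' : ∀ (A c : ℝ) (j : ℕ) (X' R : ℝ), 0 ≤ A → |c| ≤ 4 → VV E (aw β X) (fun p => yF E a J X p + yF E c j X' p) ≤ Real.exp Cv * R →
        ∫ t in T..(2 * T), fz β (t + X) * (A * Pf E κ' (y2 E a J X c j X') t) ≤ A * (C ^ 2 * Real.exp Cv * T * R) := by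
      intro A c j X' R hA0 hc hR
      have e3 : ∀ t, fz β (t + X) * (A * Pf E κ' (y2 E a J X c j X') t) = A * (fz β (t + X) * Pf E κ' (y2 E a J X c j X') t) := fun t => by ring
      simp only [e3]
      rw [intervalIntegral.integral_const_mul]
      apply mul_le_mul_of_nonneg_left _ hA0
      refine (hU X hXT' _ fun m => norm_y2 (haa.trans (by norm_num)) hc E J j X X' m).trans ?_
      calc C * (T * (C * VV E (aw β X) (y2 E a J X c j X'))) = C ^ 2 * T * VV E (aw β X) (y2 E a J X c j X') := by ring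
        _ ≤ C ^ 2 * T * (Real.exp Cv * R) := mul_le_mul_of_nonneg_left hR (by positivity)
        _ = _ := by ring
    -- the own part
    have b1 : ∫ t in T..(2 * T), fz β (t + X) * oG E κ' b V a j₀ J X t ≤ η * (T * M) := by
      have e2 : ∀ t, fz β (t + X) * oG E κ' b V a j₀ J X t = ∑ j ∈ Finset.Icc j₀ J, fz β (t + X) * (Real.exp (b * V * j) * Pf E κ' (y2 E a J X (-(b / 2)) j X) t) := by
        intro t
        unfold oG
        rw [Finset.mul_sum]
      simp only [e2]
      have e0 : ∫ t in T..(2 * T), ∑ j ∈ Finset.Icc j₀ J, fz β (t + X) * (Real.exp (b * V * j) * Pf E κ' (y2 E a J X (-(b / 2)) j X) t) =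
          ∑ j ∈ Finset.Icc j₀ J, ∫ t in T..(2 * T), fz β (t + X) * (Real.exp (b * V * j) * Pf E κ' (y2 E a J X (-(b / 2)) j X) t) :=
        intervalIntegral.integral_finsetSum fun j _ => ((hfc X).mul (continuous_const.mul (Pf_cont _ _ _))).intervalIntegrable _ _
      rw [e0]
      have h4 : ∀ j ∈ Finset.Icc j₀ J, ∫ t in T..(2 * T), fz β (t + X) * (Real.exp (b * V * j) * Pf E κ' (y2 E a J X (-(b / 2)) j X) t) ≤
          C ^ 2 * Real.exp Cv * (T * M) * r ^ j := by
        intro j hj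
        have hjJ := (Finset.mem_Icc.1 hj).2
        have h5 := (w2 j hjJ).1 (-(b / 2)) (by rw [abs_neg, abs_of_pos (by linarith)]; linarith)
        have h6 := hone' (Real.exp (b * V * j)) (-(b / 2)) j X _ (Real.exp_pos _).le (by rw [abs_neg, abs_of_pos (by linarith)]; linarith) h5
        refine h6.trans (le_of_eq ?_)
        rw [hβa, hM, hrp]
        have e5 : Real.exp (b * V * j) * Real.exp (β ^ 2 / 4 * (Real.log E - J) + V₁ ^ 2 * (J - j) + (V₁ + -(b / 2)) ^ 2 * j) =
            Real.exp (β ^ 2 / 4 * (Real.log E - J) + V₁ ^ 2 * J) * Real.exp (-(3 / 4 * b ^ 2) * j) := by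
          rw [← Real.exp_add, ← Real.exp_add]
          congr 1
          rw [hV₁]
          ring
        calc Real.exp (b * V * j) * (C ^ 2 * Real.exp Cv * T * Real.exp (β ^ 2 / 4 * (Real.log E - J) + V₁ ^ 2 * (J - j) + (V₁ + -(b / 2)) ^ 2 * j)) =
            C ^ 2 * Real.exp Cv * T * (Real.exp (b * V * j) * Real.exp (β ^ 2 / 4 * (Real.log E - J) + V₁ ^ 2 * (J - j) + (V₁ + -(b / 2)) ^ 2 * j)) := by ring
          _ = _ := by rw [e5]; ring
      refine (Finset.sum_le_sum h4).trans ?_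
      rw [← Finset.mul_sum]
      calc C ^ 2 * Real.exp Cv * (T * M) * ∑ j ∈ Finset.Icc j₀ J, r ^ j ≤ C ^ 2 * Real.exp Cv * (T * M) * (r ^ j₀ * (1 - r)⁻¹) :=
            mul_le_mul_of_nonneg_left (geo_tail hr0.le hr1 _ _) (by positivity)
        _ = C ^ 2 * Real.exp Cv * (r ^ j₀ * (1 - r)⁻¹) * (T * M) := by ring
        _ ≤ η * (T * M) := mul_le_mul_of_nonneg_right h1 (by positivity)
    -- the top part
    have b6 : ∫ t in T..(2 * T), fz β (t + X) * tG E κ' b V₂ a J X t ≤ η * (T * M) := by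
      have h5 := (w2 J le_rfl).1 (b / 2) (by rw [abs_of_pos (by linarith)]; linarith)
      have h6 := hone' (Real.exp (-(b * V₂ * J))) (b / 2) J X _ (Real.exp_pos _).le (by rw [abs_of_pos (by linarith)]; linarith) h5
      unfold tG
      refine h6.trans ?_
      rw [hβa]
      have e5 : Real.exp (-(b * V₂ * J)) * Real.exp (β ^ 2 / 4 * (Real.log E - J) + V₁ ^ 2 * (J - J) + (V₁ + b / 2) ^ 2 * J) = M * r ^ J := by
        rw [hM, hrp, ← Real.exp_add, ← Real.exp_add]
        congr 1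
        rw [hV₂]
        ring
      have h7 : r ^ J ≤ r ^ j₀ * (1 - r)⁻¹ := by
        calc r ^ J ≤ r ^ j₀ * 1 := by rw [mul_one]; exact pow_le_pow_of_le_one hr0.le hr1.le hJ0
          _ ≤ r ^ j₀ * (1 - r)⁻¹ := by
              apply mul_le_mul_of_nonneg_left _ (by positivity)
              rw [one_le_inv₀ (by linarith)]
              linarith
      calc Real.exp (-(b * V₂ * J)) * (C ^ 2 * Real.exp Cv * T * Real.exp (β ^ 2 / 4 * (Real.log E - J) + V₁ ^ 2 * (J - J) + (V₁ + b / 2) ^ 2 * J)) =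
          C ^ 2 * Real.exp Cv * T * (Real.exp (-(b * V₂ * J)) * Real.exp (β ^ 2 / 4 * (Real.log E - J) + V₁ ^ 2 * (J - J) + (V₁ + b / 2) ^ 2 * J)) := by ring
        _ = C ^ 2 * Real.exp Cv * r ^ J * (T * M) := by rw [e5]; ring
        _ ≤ C ^ 2 * Real.exp Cv * (r ^ j₀ * (1 - r)⁻¹) * (T * M) := by
            apply mul_le_mul_of_nonneg_right _ (by positivity)
            exact mul_le_mul_of_nonneg_left h7 (by positivity)
        _ ≤ η * (T * M) := mul_le_mul_of_nonneg_right h1 (by positivity)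
    -- the competitors
    have b2 : ∑ k ∈ (Finset.range n).erase i, ∫ t in T..(2 * T), fz β (t + X) * kG E κ' b V a J (lev J K i k) X (x + k * (K / E)) t ≤ η * (T * M) := by
      have h4 : ∀ k ∈ (Finset.range n).erase i, ∫ t in T..(2 * T), fz β (t + X) * kG E κ' b V a J (lev J K i k) X (x + k * (K / E)) t ≤
          D * (T * M) * (Real.exp (V ^ 2) * K ^ (-(V ^ 2)) * |(i : ℝ) - k| ^ (-(V ^ 2))) := by
        intro k hk
        rw [Finset.mem_erase, Finset.mem_range] at hk
        have hd := abs_sub_ge (fun h => hk.1 h.symm : i ≠ k)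
        obtain ⟨m, hm⟩ : ∃ m : ℝ, m = |(i : ℝ) - k| * K := ⟨_, rfl⟩
        have hm1 : 1 ≤ m := by rw [hm]; nlinarith
        have hm0 : 0 < m := by linarith
        have hlm : 0 ≤ Real.log m := Real.log_nonneg hm1
        have hmle : m ≤ H * E / E₀ := by
          have h6 := hni' i hi
          have h7 := hni' k hk.2
          have h8 : 0 ≤ (i : ℝ) * K := by positivity
          have h9 : 0 ≤ (k : ℝ) * K := by positivity
          rw [hm, ← abs_of_pos hK0, ← abs_mul, abs_le]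
          constructor
          · linarith
          · linarith
        obtain ⟨j, hj⟩ : ∃ j : ℕ, j = lev J K i k := ⟨_, rfl⟩
        have hj' : j = ⌊Real.log m⌋₊ := by
          have h6 : ⌊Real.log m⌋₊ ≤ J := by
            rw [hJ]
            exact Nat.floor_mono (Real.log_le_log hm0 hmle)
          have h7 : j = min J ⌊Real.log m⌋₊ := by rw [hj, hm]; rfl
          rw [h7, min_eq_right h6]
        have hjJ : j ≤ J := by rw [hj]; exact min_le_left _ _
        have hdist : |X - (x + k * (K / E))| = m / E := by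
          have : X - (x + k * (K / E)) = ((i : ℝ) - k) * (K / E) := by rw [hX]; ring
          rw [this, abs_mul, abs_of_pos (by positivity : 0 < K / E), hm]
          ring
        have hmE : m / E ≤ 1 := by
          rw [div_le_one hE0]
          refine hmle.trans ?_
          exact (div_le_self (by positivity) hE₀).trans hHE
        have hjm : (j : ℝ) ≤ Real.log m := by rw [hj']; exact Nat.floor_le hlm
        have h6 : 1 ≤ m / E * (E * Real.exp (-(j : ℝ))) := by
          have h8 : Real.exp j ≤ m := by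
            rw [← Real.le_log_iff_exp_le hm0]
            exact hjm
          have e : Real.exp j * Real.exp (-(j : ℝ)) = 1 := by rw [← Real.exp_add]; simp
          calc (1 : ℝ) = Real.exp j * Real.exp (-(j : ℝ)) := e.symm
            _ ≤ m * Real.exp (-(j : ℝ)) := mul_le_mul_of_nonneg_right h8 (Real.exp_pos _).le
            _ = _ := by field_simp
        rw [← hj]
        have h7 := (w2 j hjJ).2 (by rw [hβa]; linarith) V (x + k * (K / E)) hV0.le hV2 (by rw [hdist]; exact hmE) (by rw [hdist]; exact h6)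
        unfold kG
        have h8 := hone' (16 * Real.exp (2 * V * (Real.log 16 / b)) * Real.exp (-(2 * V ^ 2 * j))) V j (x + k * (K / E)) _ (by positivity)
          (by rw [abs_of_pos hV0]; linarith) h7
        refine h8.trans ?_
        rw [hβa]
        have e5 : Real.exp (-(2 * V ^ 2 * j)) * Real.exp (β ^ 2 / 4 * (Real.log E - J) + V₁ ^ 2 * J + V ^ 2 * j) = M * Real.exp (-(V ^ 2 * j)) := by
          rw [hM, ← Real.exp_add, ← Real.exp_add]
          congr 1
          ring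
        have h9 : Real.exp (-(V ^ 2 * (j : ℝ))) ≤ Real.exp (V ^ 2) * K ^ (-(V ^ 2)) * |(i : ℝ) - k| ^ (-(V ^ 2)) := by
          have emK : Real.exp (V ^ 2) * K ^ (-(V ^ 2)) * |(i : ℝ) - k| ^ (-(V ^ 2)) = Real.exp (V ^ 2) * m ^ (-(V ^ 2)) := by
            rw [hm, Real.mul_rpow (abs_nonneg _) hK0.le]
            ring
          rw [emK, Real.rpow_def_of_pos hm0, ← Real.exp_add]
          apply Real.exp_le_exp.2
          have h10 : Real.log m < (j : ℝ) + 1 := by rw [hj']; exact Nat.lt_floor_add_one _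
          have h11 := sq_nonneg V
          nlinarith
        calc 16 * Real.exp (2 * V * (Real.log 16 / b)) * Real.exp (-(2 * V ^ 2 * j)) *
              (C ^ 2 * Real.exp Cv * T * Real.exp (β ^ 2 / 4 * (Real.log E - J) + V₁ ^ 2 * J + V ^ 2 * j)) =
              16 * Real.exp (2 * V * (Real.log 16 / b)) * (C ^ 2 * Real.exp Cv) * T *
                (Real.exp (-(2 * V ^ 2 * j)) * Real.exp (β ^ 2 / 4 * (Real.log E - J) + V₁ ^ 2 * J + V ^ 2 * j)) := by ring
          _ = D * (T * M) * Real.exp (-(V ^ 2 * (j : ℝ))) := by rw [e5, ← hD]; ring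
          _ ≤ _ := mul_le_mul_of_nonneg_left h9 (by positivity)
      refine (Finset.sum_le_sum h4).trans ?_
      rw [← Finset.mul_sum, ← Finset.mul_sum]
      calc D * (T * M) * (Real.exp (V ^ 2) * K ^ (-(V ^ 2)) * ∑ k ∈ (Finset.range n).erase i, |(i : ℝ) - k| ^ (-(V ^ 2))) ≤
            D * (T * M) * (Real.exp (V ^ 2) * K ^ (-(V ^ 2)) * Z) := by
            apply mul_le_mul_of_nonneg_left _ (by positivity)
            exact mul_le_mul_of_nonneg_left (hZ n i) (by positivity)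
        _ = D * (Real.exp (V ^ 2) * K ^ (-(V ^ 2)) * Z) * (T * M) := by ring
        _ ≤ η * (T * M) := mul_le_mul_of_nonneg_right h2 (by positivity)
    -- the main term
    have b3 : 8 * (η * M) ≤ Q := by
      rw [hβa, ← hM] at w1
      calc 8 * (η * M) = c₀ * (Real.exp (-Cv) * M) := by rw [hη]; ring
        _ ≤ c₀ * VV E (aw β X) (yF E a J X) := mul_le_mul_of_nonneg_left w1 hc₀.le
        _ ≤ Q := q1
    have b4 : 8 * (η * (T * M)) ≤ T * Q := by
      calc 8 * (η * (T * M)) = T * (8 * (η * M)) := by ring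
        _ ≤ _ := mul_le_mul_of_nonneg_left b3 hT.le
    linarith
  -- the sum
  obtain ⟨Λ, hΛ⟩ : ∃ Λ : ℝ, Λ = 1 / 4 * Real.exp (-(2 * a * (V₂ * J + Real.log 16 / b))) := ⟨_, rfl⟩
  have hΛ0 : 0 < Λ := by rw [hΛ]; positivity
  have cM : Continuous fun t => MH H x t ^ β := (MH_cont H x).rpow_const fun _ => Or.inr hβ0.le
  have cpsi : ∀ i : ℕ, Continuous fun t => fz β (t + (x + i * (K / E))) * (Λ * psG E κ' b V V₂ a K x j₀ J n i t) := by
    intro i
    unfold psG
    exact (hfc _).mul (continuous_const.mul ((Pf_cont _ _ _).sub ((oG_cont _ _ _ _ _ _ _ _).add ((continuous_finsetSum _ fun k _ => kG_cont _ _ _ _ _ _ _ _ _).add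
      (((Pf_cont _ _ _).mul (pW_cont _ _ _ _)).add (tG_cont _ _ _ _ _ _ _))))))
  rw [← hΛ]
  calc n * (Λ * (4 * η * (T * M))) = ∑ i ∈ Finset.range n, Λ * (4 * η * (T * M)) := by rw [Finset.sum_const, Finset.card_range, nsmul_eq_mul]
    _ ≤ ∑ i ∈ Finset.range n, ∫ t in T..(2 * T), fz β (t + (x + i * (K / E))) * (Λ * psG E κ' b V V₂ a K x j₀ J n i t) := by
        refine Finset.sum_le_sum fun i hi => ?_
        have e3 : ∀ t, fz β (t + (x + i * (K / E))) * (Λ * psG E κ' b V V₂ a K x j₀ J n i t) =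
            Λ * (fz β (t + (x + i * (K / E))) * psG E κ' b V V₂ a K x j₀ J n i t) := fun t => by ring
        simp only [e3]
        rw [intervalIntegral.integral_const_mul]
        exact mul_le_mul_of_nonneg_left (hone i (Finset.mem_range.1 hi)) hΛ0.le
    _ = ∫ t in T..(2 * T), ∑ i ∈ Finset.range n, fz β (t + (x + i * (K / E))) * (Λ * psG E κ' b V V₂ a K x j₀ J n i t) :=
        (intervalIntegral.integral_finsetSum fun i _ => (cpsi i).intervalIntegrable _ _).symm
    _ ≤ _ := by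
        refine intervalIntegral.integral_mono_on (by linarith) ((continuous_finsetSum _ fun i _ => cpsi i).intervalIntegrable _ _)
          (cM.intervalIntegrable _ _) fun t _ => ?_
        rw [hΛ]
        exact psG_sum_le hE1 hκ hβ0.le hb (by linarith) ha0 (by linarith) hV0 (by linarith) hH0 (le_of_eq hK.symm) hJ0 hJB hni

end

end Pool.Agent.H469.F4
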