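import Pool.Agent.H469.F4.Q3

set_option autoImplicit false

/-!
# Maxima over short intervals: the lower bound in the frozen phase
-/

namespace Pool.Agent.H469.F4

open Filter Topology MeasureTheory Complex Pool.Agent.Q97.UM
open Pool.Agent.Q14.UM (mem_PB PB_disj cv_len)

noncomputable section

/-- **lower bound in the frozen phase, short intervals** -/
theorem meso_low {β θ η : ℝ} (hβ0 : 0 < β) (hβ2 : β ≤ 2) (hθ1 : -1 < θ) (hθ0 : θ ≤ 0) (hη : 0 < η) : ∃ c : ℝ, 0 < c ∧ ∀ᶠ T : ℝ in atTop,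
    c * T * Real.log T ^ ((1 + θ) * β - θ * (β ^ 2 / 4) - η) ≤ ∫ t in T..(2 * T), MH (Real.log T ^ θ) 0 t ^ β := by
  obtain ⟨δ, κ', c₀, C, hδ, hδ1, hκ, hc₀, hC, hev⟩ := toolkit (B := 8) (by norm_num)
  obtain ⟨Cv, E₀, hCv, hE₀, hF⟩ := VV_G
  have hF : VG Cv E₀ := hF
  have hE₀0 : 0 < E₀ := by linarith
  obtain ⟨b, hb⟩ : ∃ b : ℝ, b = min (1 / 4) (min (β / 28) (η / 14)) := ⟨_, rfl⟩
  have hb0 : 0 < b := by rw [hb]; exact lt_min (by norm_num) (lt_min (by linarith) (by linarith))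
  have hb4 : b ≤ 1 / 4 := by rw [hb]; exact min_le_left _ _
  have hbβ : b ≤ β / 28 := by rw [hb]; exact (min_le_right _ _).trans (min_le_left _ _)
  have hbη : b ≤ η / 14 := by rw [hb]; exact (min_le_right _ _).trans (min_le_right _ _)
  obtain ⟨V, hV⟩ : ∃ V : ℝ, V = 1 + b := ⟨_, rfl⟩
  obtain ⟨V₁, hV₁⟩ : ∃ V₁ : ℝ, V₁ = V + b := ⟨_, rfl⟩
  obtain ⟨V₂, hV₂⟩ : ∃ V₂ : ℝ, V₂ = V₁ + b := ⟨_, rfl⟩
  obtain ⟨a, ha⟩ : ∃ a : ℝ, a = V₁ - β / 2 := ⟨_, rfl⟩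
  have hV1 : 1 < V := by rw [hV]; linarith
  have hs : 1 < V ^ 2 := by nlinarith
  have hV₁2 : V₁ ≤ 2 := by rw [hV₁, hV]; linarith
  have ha0 : 0 ≤ a := by rw [ha, hV₁, hV]; linarith
  obtain ⟨k₁, hk₁⟩ : ∃ k₁ : ℝ, k₁ = 1 + V₁ ^ 2 - 2 * a * V₂ - β ^ 2 / 4 := ⟨_, rfl⟩
  have hk₁' : k₁ = β - β ^ 2 / 4 - 6 * b - 8 * b ^ 2 + 3 * b * β := by rw [hk₁, ha, hV₂, hV₁, hV]; ring
  have hk₁η : β - β ^ 2 / 4 - 14 * b ≤ k₁ := by
    rw [hk₁']
    have : 0 ≤ b * β := by positivity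
    nlinarith
  have hk₁0 : 0 ≤ k₁ := by nlinarith
  obtain ⟨Z, hZ0, hZ⟩ := sum_dist hs
  obtain ⟨h, hh⟩ : ∃ h : ℝ, h = c₀ * Real.exp (-Cv) / 8 := ⟨_, rfl⟩
  have hh0 : 0 < h := by rw [hh]; positivity
  obtain ⟨D, hD⟩ : ∃ D : ℝ, D = 16 * Real.exp (2 * V * (Real.log 16 / b)) * (C ^ 2 * Real.exp Cv) := ⟨_, rfl⟩
  have hD0 : 0 < D := by rw [hD]; positivity
  obtain ⟨r, hr⟩ : ∃ r : ℝ, r = Real.exp (-(3 / 4 * b ^ 2)) := ⟨_, rfl⟩
  have hr0 : 0 < r := by rw [hr]; exact Real.exp_pos _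
  have hr1 : r < 1 := by
    rw [hr, Real.exp_lt_one_iff]
    have : 0 < b ^ 2 := by positivity
    linarith
  -- the first level
  have t1 : ∀ᶠ j : ℕ in atTop, C ^ 2 * Real.exp Cv * (r ^ j * (1 - r)⁻¹) ≤ h := by
    have h1 : Tendsto (fun j : ℕ => C ^ 2 * Real.exp Cv * (r ^ j * (1 - r)⁻¹)) atTop (𝓝 (C ^ 2 * Real.exp Cv * (0 * (1 - r)⁻¹))) :=
      ((tendsto_pow_atTop_nhds_zero_of_lt_one hr0.le hr1).mul_const _).const_mul _
    rw [zero_mul, mul_zero] at h1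
    filter_upwards [h1.eventually_lt_const hh0] with j hj
    exact hj.le
  have t2 : ∀ᶠ j : ℕ in atTop, D * (Real.exp (V ^ 2) * Real.exp j ^ (-(V ^ 2)) * Z) ≤ h := by
    have h1 : Tendsto (fun j : ℕ => D * (Real.exp (V ^ 2) * Real.exp (-(V ^ 2 * (j : ℝ))) * Z)) atTop (𝓝 (D * (Real.exp (V ^ 2) * 0 * Z))) :=
      (((Real.tendsto_exp_neg_atTop_nhds_zero.comp (tendsto_natCast_atTop_atTop.const_mul_atTop (by positivity))).const_mul _).mul_const _).const_mul _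
    rw [mul_zero, zero_mul, mul_zero] at h1
    filter_upwards [h1.eventually_lt_const hh0] with j hj
    have e1 : Real.exp j ^ (-(V ^ 2)) = Real.exp (-(V ^ 2 * (j : ℝ))) := by
      rw [← Real.exp_mul]
      congr 1
      ring
    rw [e1]
    exact hj.le
  obtain ⟨j₀, f1, f2⟩ := (t1.and t2).exists
  obtain ⟨K, hK⟩ : ∃ K : ℝ, K = Real.exp j₀ := ⟨_, rfl⟩
  have hK1 : 1 ≤ K := by rw [hK]; exact Real.one_le_exp (Nat.cast_nonneg _)
  have hK0 : 0 < K := by linarith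
  rw [← hK] at f2
  rw [hr] at f1
  have t4 : ∀ᶠ T : ℝ in atTop, K * E₀ ≤ δ * Real.log T ^ (1 + θ) :=
    (((tendsto_rpow_atTop (by linarith : 0 < 1 + θ)).comp Real.tendsto_log_atTop).const_mul_atTop hδ).eventually_ge_atTop _
  obtain ⟨G, hG⟩ : ∃ G : ℝ, G = h / K * Real.exp (-(2 * a * (Real.log 16 / b))) := ⟨_, rfl⟩
  have hG0 : 0 < G := by rw [hG]; positivity
  refine ⟨G * (Real.exp (-k₁) * (δ / E₀) ^ k₁ * δ ^ (β ^ 2 / 4)), by positivity, ?_⟩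
  filter_upwards [hev, t4, eventually_ge_atTop (16 : ℝ), Real.tendsto_log_atTop.eventually_ge_atTop 1] with T hev t4 hT16 hL1
  obtain ⟨hE1, htk⟩ := hev
  obtain ⟨L, hL⟩ : ∃ L : ℝ, L = Real.log T := ⟨_, rfl⟩
  rw [← hL] at hE1 htk t4 hL1 ⊢
  obtain ⟨E, hE⟩ : ∃ E : ℝ, E = δ * L := ⟨_, rfl⟩
  rw [← hE] at hE1 htk
  have hT0 : 0 < T := by linarith
  have hL0 : 0 < L := by linarith
  have hE0 : 0 < E := by linarith
  obtain ⟨H, hH⟩ : ∃ H : ℝ, H = L ^ θ := ⟨_, rfl⟩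
  have hH0 : 0 < H := by rw [hH]; positivity
  have hH1 : H ≤ 1 := by rw [hH]; exact Real.rpow_le_one_of_one_le_of_nonpos hL1 hθ0
  have hHE : H * E = δ * L ^ (1 + θ) := by
    rw [hH, hE, add_comm, Real.rpow_add hL0, Real.rpow_one]
    ring
  obtain ⟨n, hn⟩ : ∃ n : ℕ, n = ⌊H * E / (E₀ * K)⌋₊ + 1 := ⟨_, rfl⟩
  obtain ⟨J, hJ⟩ : ∃ J : ℕ, J = ⌊Real.log (H * E / E₀)⌋₊ := ⟨_, rfl⟩
  obtain ⟨M, hM⟩ : ∃ M : ℝ, M = Real.exp (β ^ 2 / 4 * (Real.log E - J) + V₁ ^ 2 * J) := ⟨_, rfl⟩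
  have hHEK : K ≤ H * E / E₀ := by
    rw [le_div_iff₀ hE₀0, hHE]
    exact t4
  have hHE0 : 0 < H * E / E₀ := by linarith
  have haa : |a| ≤ 4 := by
    rw [abs_of_nonneg ha0, ha]
    linarith
  have hU : UpE E κ' β C T := by
    intro X hX y hy
    obtain ⟨Q, q1, q2, q3, q4, q5⟩ := htk ![β / 2, 0] ![X, X] (by intro j; fin_cases j <;> simp; linarith) (by simp; linarith)
      (by intro j; fin_cases j <;> simpa using hX) y hy
    rw [ap_one] at q2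
    simp only [zpr_one] at q4
    refine q4.trans ?_
    apply mul_le_mul_of_nonneg_left _ hC.le
    exact mul_le_mul_of_nonneg_left q2 hT0.le
  have hQ : ∀ X, |X| ≤ T / 2 → ∃ Q : ℝ, c₀ * VV E (aw β X) (yF E a J X) ≤ Q ∧ T * Q ≤ ∫ t in T..(2 * T), fz β (t + X) * Pf E κ' (yF E a J X) t ∧
      ∫ t in T..(2 * T), fz β (t + X) * (Pf E κ' (yF E a J X) t * pW E κ' 4 X t) ≤ 1 / 8 * (T * Q) := by
    intro X hX
    obtain ⟨Q, q1, q2, q3, q4, q5⟩ := htk ![β / 2, 0] ![X, X] (by intro j; fin_cases j <;> simp; linarith) (by simp; linarith)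
      (by intro j; fin_cases j <;> simpa using hX) (yF E a J X) (fun m => (norm_yF haa E J X m).trans (by norm_num))
    rw [ap_one] at q1
    simp only [zpr_one] at q3 q5
    refine ⟨Q, q1, q3, ?_⟩
    have h1 := q5 (wS 4 X) (fun m => (wS_norm (by norm_num) X m).trans (by norm_num))
    have hfc : Continuous fun t => fz β (t + X) := (fz_cont hβ0.le).comp (by fun_prop)
    have h2 : ∫ t in T..(2 * T), fz β (t + X) * (Pf E κ' (yF E a J X) t * pW E κ' 4 X t) =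
        ∑ j ∈ Finset.range (JB E), ∫ t in T..(2 * T), fz β (t + X) * Pf E κ' (yF E a J X) t * ‖pw E κ' (wS 4 X) (fun _ => 0) (j + 1) t‖ ^ 2 := by
      unfold pW
      simp only [Finset.mul_sum, ← mul_assoc]
      exact intervalIntegral.integral_finsetSum fun j _ =>
        ((hfc.mul (Pf_cont _ _ _)).mul ((Pool.Agent.Q184.UM.pw_cont _ _ _ _ _).norm.pow 2)).intervalIntegrable _ _
    rw [h2]
    exact h1
  have hcore := tilt_core (H := H) (x := 0) (n := n) (J := J) hF hU hC hT0 hβ0 (by linarith) hb0 hb4 (by linarith) hV₁ hV₂ hV₁2 ha ha0 hE₀ hκ hE0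
    (j₀ := j₀) (by rw [← hK]; exact hHEK) hK hJ hH0.le hH1 (by rw [abs_zero]; linarith) hn hc₀ hQ hZ hh hD f1 f2 hM
  rw [← hH]
  refine le_trans ?_ hcore
  -- the numbers
  have hJ1 : (J : ℝ) ≤ Real.log (H * E / E₀) := by rw [hJ]; exact Nat.floor_le (Real.log_nonneg (hK1.trans hHEK))
  have hJ2 : Real.log (H * E / E₀) < J + 1 := by rw [hJ]; exact Nat.lt_floor_add_one _
  have hn1 : Real.exp J / K ≤ n := by
    have h4 : Real.exp J ≤ H * E / E₀ := by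
      rw [← Real.le_log_iff_exp_le hHE0]
      exact hJ1
    have h5 : H * E / (E₀ * K) < n := by
      rw [hn]
      push_cast
      exact Nat.lt_floor_add_one _
    have h6 : Real.exp J / K ≤ H * E / (E₀ * K) := by
      rw [← div_div]
      exact div_le_div_of_nonneg_right h4 hK0.le
    linarith
  have hkey : G * T * (Real.exp (k₁ * J) * Real.exp (β ^ 2 / 4 * Real.log E)) ≤
      n * (1 / 4 * Real.exp (-(2 * a * (V₂ * J + Real.log 16 / b))) * (4 * h * (T * M))) := by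
    have e1 : G * T * (Real.exp (k₁ * J) * Real.exp (β ^ 2 / 4 * Real.log E)) =
        Real.exp J / K * (1 / 4 * Real.exp (-(2 * a * (V₂ * J + Real.log 16 / b))) * (4 * h * (T * M))) := by
      rw [hG, hM]
      have e2 : Real.exp J * Real.exp (-(2 * a * (V₂ * J + Real.log 16 / b))) * Real.exp (β ^ 2 / 4 * (Real.log E - J) + V₁ ^ 2 * J) =
          Real.exp (-(2 * a * (Real.log 16 / b))) * (Real.exp (k₁ * J) * Real.exp (β ^ 2 / 4 * Real.log E)) := by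
        rw [← Real.exp_add, ← Real.exp_add, ← Real.exp_add, ← Real.exp_add]
        congr 1
        rw [hk₁]
        ring
      calc h / K * Real.exp (-(2 * a * (Real.log 16 / b))) * T * (Real.exp (k₁ * J) * Real.exp (β ^ 2 / 4 * Real.log E)) =
          h / K * T * (Real.exp (-(2 * a * (Real.log 16 / b))) * (Real.exp (k₁ * J) * Real.exp (β ^ 2 / 4 * Real.log E))) := by ring
        _ = _ := by rw [← e2]; ring
    rw [e1]
    apply mul_le_mul_of_nonneg_right hn1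
    have : 0 < M := by rw [hM]; exact Real.exp_pos _
    positivity
  refine le_trans ?_ hkey
  have hA : Real.exp (β ^ 2 / 4 * Real.log E) = δ ^ (β ^ 2 / 4) * L ^ (β ^ 2 / 4) := by
    rw [mul_comm (β ^ 2 / 4), ← Real.rpow_def_of_pos hE0, hE, Real.mul_rpow hδ.le hL0.le]
  have hB : Real.exp (-k₁) * (δ / E₀) ^ k₁ * L ^ ((1 + θ) * k₁) ≤ Real.exp (k₁ * J) := by
    have e2 : (δ / E₀) ^ k₁ * L ^ ((1 + θ) * k₁) = Real.exp (k₁ * Real.log (H * E / E₀)) := by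
      rw [mul_comm k₁, ← Real.rpow_def_of_pos hHE0, hHE, Real.rpow_mul hL0.le, ← Real.mul_rpow (by positivity) (by positivity)]
      congr 1
      ring
    rw [mul_assoc, e2, ← Real.exp_add]
    apply Real.exp_le_exp.2
    nlinarith
  have hLexp : L ^ ((1 + θ) * β - θ * (β ^ 2 / 4) - η) ≤ L ^ ((1 + θ) * k₁) * L ^ (β ^ 2 / 4) := by
    rw [← Real.rpow_add hL0]
    apply Real.rpow_le_rpow_of_exponent_le hL1
    have h1 : (1 + θ) * (β - β ^ 2 / 4 - 14 * b) ≤ (1 + θ) * k₁ := mul_le_mul_of_nonneg_left hk₁η (by linarith)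
    have h2 : (1 + θ) * (14 * b) ≤ 1 * (14 * b) := mul_le_mul_of_nonneg_right (by linarith) (by linarith)
    nlinarith
  calc G * (Real.exp (-k₁) * (δ / E₀) ^ k₁ * δ ^ (β ^ 2 / 4)) * T * L ^ ((1 + θ) * β - θ * (β ^ 2 / 4) - η) ≤
      G * (Real.exp (-k₁) * (δ / E₀) ^ k₁ * δ ^ (β ^ 2 / 4)) * T * (L ^ ((1 + θ) * k₁) * L ^ (β ^ 2 / 4)) :=
        mul_le_mul_of_nonneg_left hLexp (by positivity)
    _ = G * T * ((Real.exp (-k₁) * (δ / E₀) ^ k₁ * L ^ ((1 + θ) * k₁)) * (δ ^ (β ^ 2 / 4) * L ^ (β ^ 2 / 4))) := by ring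
    _ ≤ G * T * (Real.exp (k₁ * J) * (δ ^ (β ^ 2 / 4) * L ^ (β ^ 2 / 4))) := by
        apply mul_le_mul_of_nonneg_left _ (by positivity)
        exact mul_le_mul_of_nonneg_right hB (by positivity)
    _ = _ := by rw [hA]

end

end Pool.Agent.H469.F4
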