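import Pool.Agent.H469.F4.P8

set_option autoImplicit false

/-!
# Small moments of the masses of short intervals
-/

namespace Pool.Agent.H469.F4

open Filter Topology MeasureTheory Complex Pool.Agent.Q97.UM
open Pool.Agent.Q14.UM (mem_PB PB_disj cv_len)

noncomputable section

theorem cut_zero {E : ℝ} {p : ℕ} (hp : p ∈ (Finset.Icc 1 ⌊Real.exp E⌋₊).filter Nat.Prime) : cut E 0 p = 1 := by
  unfold cut
  rw [if_pos]
  unfold XB
  have h3 := (Finset.mem_Icc.1 (Finset.mem_filter.1 hp).1).2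
  have h4 := (Nat.le_floor_iff (Real.exp_pos _).le).1 h3
  simpa using h4

/-- **the two mean values** -/
theorem means_s : ∃ δ κ' C : ℝ, ∃ m₀ : ℕ, 0 < δ ∧ δ ≤ 1 ∧ 4 ≤ κ' ∧ 0 ≤ C ∧ ∀ᶠ T : ℝ in atTop, ∀ r : ℕ, m₀ ≤ r →
    1 ≤ δ * Real.log T * Real.exp (-(r : ℝ)) → ∀ s : ℝ, 0 ≤ s → s ≤ 1 → ∀ u : ℝ, |u| ≤ T / 2 →
    ∀ l : ℕ, l ≤ JB (δ * Real.log T * Real.exp (-(r : ℝ))) →
      ∫ t in T..(2 * T), W1 (δ * Real.log T * Real.exp (-(r : ℝ))) κ' 2 u (1 + s) l t ≤
        C * T * Real.exp (-(l : ℝ)) * (δ * Real.log T * Real.exp (-(r : ℝ))) ^ (s ^ 2) ∧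
      ∀ v : ℝ, |v| ≤ T / 2 → |v - u| * (δ * Real.log T * Real.exp (-(r : ℝ))) ≤ 1 →
      ∫ t in T..(2 * T), fz 2 (t + v) * W2 (δ * Real.log T * Real.exp (-(r : ℝ))) κ' 2 u (1 + s) l t ≤
        C * T * Real.exp (-(l : ℝ)) * (Real.exp r * (δ * Real.log T * Real.exp (-(r : ℝ))) ^ (s ^ 2)) := by
  obtain ⟨δ, κ', C, m₀, hδ, hδ1, hκ', hC, hW⟩ := weight4
  obtain ⟨C2, hC2, hquad⟩ := PS_quad (B := 2) (by norm_num)
  obtain ⟨C3, hC3, htwo⟩ := PS_two (B := 2) (by norm_num)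
  obtain ⟨C4, hC4, hcut⟩ := PS_cut
  refine ⟨δ, κ', C * Real.exp (C2 + C3 + 2 * C4), m₀, hδ, hδ1, hκ', by positivity, ?_⟩
  filter_upwards [hW, eventually_ge_atTop (16 : ℝ)] with T hW hT16
  intro r hr hE1 s hs0 hs1 u hu l hl
  have hL0 : 0 < Real.log T := Real.log_pos (by linarith)
  obtain ⟨DD, hDD⟩ : ∃ DD : ℝ, DD = δ * Real.log T := ⟨_, rfl⟩
  have hDD0 : 0 < DD := by rw [hDD]; positivity
  have hW' := hW r hr hE1
  rw [← hDD] at hE1 hl hW' ⊢
  obtain ⟨E, hEd⟩ : ∃ E : ℝ, E = DD * Real.exp (-(r : ℝ)) := ⟨_, rfl⟩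
  rw [← hEd] at hE1 hl hW' ⊢
  have hEp : 0 < E := by linarith
  have hT0 : 0 < T := by linarith
  have hrpow : E ^ (s ^ 2) = Real.exp (s ^ 2 * Real.log E) := by
    rw [Real.rpow_def_of_pos hEp, mul_comm]
  have haw := aw_norm (by norm_num : (0 : ℝ) ≤ 2) u
  have hE10 : 1 ≤ E * Real.exp (-((0 : ℕ) : ℝ)) := by simpa using hE1
  refine ⟨?_, ?_⟩
  · have h1 := hW' ![0, 0] ![0, 0] (by
      intro j
      fin_cases j <;> simp) (by simp) (by
      intro j
      fin_cases j <;> (simp; positivity)) (fun n => ((1 + s - 1 : ℝ) : ℂ) * aw 2 u n) (aw 2 u) (fun n => by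
        rw [norm_mul, Complex.norm_real, Real.norm_eq_abs, abs_of_nonneg (by linarith)]
        have := haw n
        have := norm_nonneg (aw 2 u n)
        nlinarith) (fun n => (haw n).trans (by norm_num)) l hl
    have ez : ∀ t, zpr ![0, 0] ![0, 0] t = 1 := fun t => by
      unfold zpr
      simp
    have ea : ap ![0, 0] ![0, 0] = fun _ => 0 := by
      funext n
      unfold ap
      simp
    simp only [ez, ea, one_mul] at h1
    have h2 : SB DD (fun _ => (0 : ℂ)) r = 0 := by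
      unfold SB
      simp
    have h3 : SB E (fun p => 0 + ((1 + s - 1 : ℝ) : ℂ) * aw 2 u p) (JB E) ≤ s ^ 2 * Real.log E + C2 := by
      unfold SB
      rw [PS_blocks hE1 (fun p => ‖(0 : ℂ) + ((1 + s - 1 : ℝ) : ℂ) * aw 2 u p‖ ^ 2 / (p : ℝ))]
      have h4 : PS E (fun p => ‖(0 : ℂ) + ((1 + s - 1 : ℝ) : ℂ) * aw 2 u p‖ ^ 2 / (p : ℝ)) ≤ PS E (fun p => (s + 0 * cut E 0 p + 0 * cut E 0 p) ^ 2 / p) := by
        unfold PS
        refine Finset.sum_le_sum fun p _ => ?_
        apply div_le_div_of_nonneg_right _ (Nat.cast_nonneg p)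
        apply pow_le_pow_left₀ (norm_nonneg _)
        rw [zero_add, norm_mul, Complex.norm_real, Real.norm_eq_abs, abs_of_nonneg (by linarith)]
        have := haw p
        have := norm_nonneg (aw 2 u p)
        nlinarith
      have h5 := hquad E s 0 0 0 0 hE10 hE10 (by rw [abs_of_nonneg hs0]; linarith) (by simp) (by simp)
      rw [abs_le] at h5
      have h6 := h5.2
      have e1 : (2 * s * 0 + 0 ^ 2 : ℝ) * (Real.log E - ((0 : ℕ) : ℝ)) + (2 * s * 0 + 0 ^ 2) * (Real.log E - ((0 : ℕ) : ℝ)) +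
        2 * 0 * 0 * (Real.log E - ((max 0 0 : ℕ) : ℝ)) = 0 := by ring
      linarith
    rw [h2, zero_add] at h1
    refine h1.trans ?_
    have h8 : Real.exp (SB E (fun p => 0 + ((1 + s - 1 : ℝ) : ℂ) * aw 2 u p) (JB E)) ≤ Real.exp (C2 + C3 + 2 * C4) * E ^ (s ^ 2) := by
      rw [hrpow, ← Real.exp_add]
      apply Real.exp_le_exp.2
      linarith
    calc _ ≤ C * T * Real.exp (-(l : ℝ)) * (Real.exp (C2 + C3 + 2 * C4) * E ^ (s ^ 2)) := mul_le_mul_of_nonneg_left h8 (by positivity)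
      _ = _ := by ring
  · intro v hv huv
    have hav := aw_norm (by norm_num : (0 : ℝ) ≤ 2) v
    have h1 := hW' ![2 / 2, 0] ![v, v] (by
      intro j
      fin_cases j <;> simp) (by simp) (by
      intro j
      fin_cases j <;> simpa using hv) (fun n => ((1 + s - 2 : ℝ) : ℂ) * aw 2 u n) (aw 2 u) (fun n => by
        rw [norm_mul, Complex.norm_real, Real.norm_eq_abs, abs_of_nonpos (by linarith)]
        have := haw n
        have := norm_nonneg (aw 2 u n)
        nlinarith) (fun n => (haw n).trans (by norm_num)) l hl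
    simp only [zpr_one, ap_one] at h1
    refine h1.trans ?_
    have h2 : SB DD (aw 2 v) r ≤ r + 2 * C4 := by
      have h3 : SB DD (aw 2 v) r ≤ ∑ i ∈ Finset.range r, ∑ p ∈ PB DD i, 1 / (p : ℝ) := by
        have h4 := SB_le (D := DD) (by norm_num : (0 : ℝ) ≤ 2 / 2) hav r
        have e1 : (2 / 2 : ℝ) ^ 2 = 1 := by norm_num
        rw [e1, one_mul] at h4
        exact h4
      have h5 : ∑ i ∈ Finset.range r, ∑ p ∈ PB DD i, 1 / (p : ℝ) = PS DD (fun p => 1 / (p : ℝ)) - PS E (fun p => 1 / (p : ℝ)) := by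
        rw [PS_diff hDD0 (by rw [← hEd]; exact hE1), ← hEd]
      have hone : ∀ F : ℝ, PS F (fun p => 1 / (p : ℝ)) = PS F (fun p => cut F 0 p / p) := by
        intro F
        unfold PS
        refine Finset.sum_congr rfl fun p hp => ?_
        show 1 / (p : ℝ) = cut F 0 p / p
        rw [cut_zero hp]
      have hDD1 : 1 ≤ DD := by
        rw [hEd] at hE1
        refine hE1.trans (mul_le_of_le_one_right hDD0.le ?_)
        rw [Real.exp_le_one_iff]
        have : (0 : ℝ) ≤ r := Nat.cast_nonneg r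
        linarith
      have h6 := hcut DD 0 (by simpa using hDD1)
      have h7 := hcut E 0 hE10
      rw [abs_le] at h6 h7
      have h8 : Real.log E = Real.log DD - r := by
        rw [hEd, Real.log_mul hDD0.ne' (Real.exp_pos _).ne', Real.log_exp]
        ring
      rw [h5, hone, hone] at h3
      push_cast at h6 h7
      linarith [h6.2, h7.1]
    have h3 : SB E (fun p => aw 2 v p + ((1 + s - 2 : ℝ) : ℂ) * aw 2 u p) (JB E) ≤ s ^ 2 * Real.log E + C2 + C3 := by
      unfold SB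
      rw [PS_blocks hE1 (fun p => ‖aw 2 v p + ((1 + s - 2 : ℝ) : ℂ) * aw 2 u p‖ ^ 2 / (p : ℝ))]
      have h4 := htwo E 0 (fun _ => 1) (fun p => (s - 1) * cut E 0 p) u (v - u) hE10 (fun _ => by simp) (fun p => by
        have h5 := cut_le_one E 0 p
        have h6 := cut_nonneg E 0 p
        rw [abs_mul, abs_of_nonneg h6, abs_of_nonpos (by linarith)]
        nlinarith) (fun p hp => by
          show (s - 1) * cut E 0 p = 0
          unfold cut
          rw [if_neg hp, mul_zero]) (by simpa using huv)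
      have e1 : PS E (fun p => ‖(((fun _ : ℕ => (1 : ℝ)) p : ℝ) : ℂ) * ua (u + (v - u)) p + (((fun p => (s - 1) * cut E 0 p) p : ℝ) : ℂ) * ua u p‖ ^ 2 / (p : ℝ)) =
          PS E (fun p => ‖aw 2 v p + ((1 + s - 2 : ℝ) : ℂ) * aw 2 u p‖ ^ 2 / (p : ℝ)) := by
        unfold PS
        refine Finset.sum_congr rfl fun p hp => ?_
        have e2 : ((1 : ℝ) : ℂ) * ua (u + (v - u)) p + (((s - 1) * cut E 0 p : ℝ) : ℂ) * ua u p =
            aw 2 v p + ((1 + s - 2 : ℝ) : ℂ) * aw 2 u p := by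
          rw [cut_zero hp, add_sub_cancel]
          unfold aw
          push_cast
          ring
        beta_reduce
        rw [e2]
      have e3 : PS E (fun p => ((fun _ : ℕ => (1 : ℝ)) p + (fun p => (s - 1) * cut E 0 p) p) ^ 2 / (p : ℝ)) =
          PS E (fun p => (s + 0 * cut E 0 p + 0 * cut E 0 p) ^ 2 / p) := by
        unfold PS
        refine Finset.sum_congr rfl fun p hp => ?_
        show (1 + (s - 1) * cut E 0 p) ^ 2 / (p : ℝ) = _
        rw [cut_zero hp]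
        ring
      rw [e1, e3] at h4
      have h5 := hquad E s 0 0 0 0 hE10 hE10 (by rw [abs_of_nonneg hs0]; linarith) (by simp) (by simp)
      rw [abs_le] at h4 h5
      have h6 := h5.2
      have h7 := h4.2
      have e4 : (2 * s * 0 + 0 ^ 2 : ℝ) * (Real.log E - ((0 : ℕ) : ℝ)) + (2 * s * 0 + 0 ^ 2) * (Real.log E - ((0 : ℕ) : ℝ)) +
        2 * 0 * 0 * (Real.log E - ((max 0 0 : ℕ) : ℝ)) = 0 := by ring
      linarith
    have h8 : Real.exp (SB DD (aw 2 v) r + SB E (fun p => aw 2 v p + ((1 + s - 2 : ℝ) : ℂ) * aw 2 u p) (JB E)) ≤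
        Real.exp (C2 + C3 + 2 * C4) * (Real.exp r * E ^ (s ^ 2)) := by
      rw [hrpow, ← Real.exp_add, ← Real.exp_add]
      apply Real.exp_le_exp.2
      linarith
    calc _ ≤ C * T * Real.exp (-(l : ℝ)) * (Real.exp (C2 + C3 + 2 * C4) * (Real.exp r * E ^ (s ^ 2))) :=
          mul_le_mul_of_nonneg_left h8 (by positivity)
      _ = _ := by ring

end

end Pool.Agent.H469.F4
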