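import Pool.Agent.H469.F4.Q5

set_option autoImplicit false

/-!
# Small moments of the masses of short intervals: the bound
-/

namespace Pool.Agent.H469.F4

open Filter Topology MeasureTheory Complex Pool.Agent.Q97.UM
open Pool.Agent.Q14.UM (mem_PB PB_disj cv_len)

noncomputable section

theorem swap_w {w : ℝ → ℝ} (hw : Continuous w) {T a b B : ℝ} (hab : a ≤ b) (h : ∀ v ∈ Set.Icc a b, ∫ t in T..(2 * T), fz 2 (t + v) * w t ≤ B) :
    ∫ t in T..(2 * T), Yg 2 a b t * w t ≤ (b - a) * B := by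
  have hf := fz_cont (by norm_num : (0 : ℝ) ≤ 2)
  have hGc : Continuous fun z : ℝ × ℝ => fz 2 (z.1 + z.2) * w z.1 := (hf.comp (continuous_fst.add continuous_snd)).mul (hw.comp continuous_fst)
  have e1 : ∀ t, Yg 2 a b t * w t = ∫ v in a..b, fz 2 (t + v) * w t := fun t => by
    unfold Yg
    rw [intervalIntegral.integral_mul_const]
  simp only [e1]
  rw [swap_cont (F := fun t u => fz 2 (t + u) * w t) hGc]
  have hGc2 : Continuous fun z : ℝ × ℝ => fz 2 (z.2 + z.1) * w z.2 := (hf.comp (continuous_snd.add continuous_fst)).mul (hw.comp continuous_snd)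
  have hGi2 : Continuous fun u : ℝ => ∫ t in T..(2 * T), fz 2 (t + u) * w t :=
    intervalIntegral.continuous_parametric_intervalIntegral_of_continuous' (f := fun u t => fz 2 (t + u) * w t) hGc2 T (2 * T)
  have h5 := intervalIntegral.integral_mono_on (μ := volume) hab (hGi2.intervalIntegrable a b)
    ((continuous_const (y := B)).intervalIntegrable a b) h
  rwa [intervalIntegral.integral_const, smul_eq_mul] at h5

/-- **small moments of the masses of short intervals** -/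
theorem mass_s {s Wm : ℝ} (hs0 : 0 < s) (hs1 : s ≤ 1) (hWm : 1 ≤ Wm) : ∃ C : ℝ, 0 < C ∧ ∀ᶠ T : ℝ in atTop, ∀ x : ℝ, |x| ≤ T / 8 →
    ∀ V : ℝ, 1 ≤ V * Real.log T → V ≤ Wm →
      ∫ t in T..(2 * T), Yg 2 (x - V) (x + V) t ^ s ≤ C * T * (V ^ (2 * s - s ^ 2) * Real.log T ^ s) := by
  obtain ⟨δ, κ', C, m₀, hδ, hδ1, hκ', hC, hM⟩ := means_s
  obtain ⟨CP, hCP, hP⟩ := pt_ring hκ'
  obtain ⟨c₁, C₁, hc₁, hC₁, h1⟩ := one_pt (β := 2) (by norm_num) (by norm_num)
  obtain ⟨V₀, hV₀⟩ : ∃ V₀ : ℝ, V₀ = Real.exp (-((m₀ : ℝ) + 1)) := ⟨_, rfl⟩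
  have hV₀0 : 0 < V₀ := by rw [hV₀]; exact Real.exp_pos _
  have hss : 0 ≤ s - s ^ 2 := by nlinarith
  refine ⟨(2 * C₁) ^ s * V₀ ^ (-(s - s ^ 2)) + 6 * CP * (C + 1) * Real.exp ((m₀ : ℝ) + 1) ^ s, by positivity, ?_⟩
  have t1 : ∀ᶠ T : ℝ in atTop, Real.exp ((m₀ : ℝ) + 1) ≤ δ * Real.log T := (Real.tendsto_log_atTop.const_mul_atTop hδ).eventually_ge_atTop _
  filter_upwards [hM, h1, t1, eventually_ge_atTop (16 : ℝ), eventually_ge_atTop (16 * Wm), Real.tendsto_log_atTop.eventually_ge_atTop 1]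
    with T hM h1 t1 hT16 hTW hL1 x hx V hV1 hVW
  obtain ⟨L, hL⟩ : ∃ L : ℝ, L = Real.log T := ⟨_, rfl⟩
  rw [← hL] at hM h1 t1 hL1 hV1 ⊢
  have hT0 : 0 < T := by linarith
  have hL0 : 0 < L := by linarith
  have hV0 : 0 < V := by
    by_contra h
    have : V * L ≤ 0 := mul_nonpos_of_nonpos_of_nonneg (not_lt.1 h) hL0.le
    linarith
  have hx' := abs_le.1 hx
  have hab : x - V ≤ x + V := by linarith
  have hY0 : ∀ t, 0 ≤ Yg 2 (x - V) (x + V) t := Yg_nonneg 2 hab
  have hYc := Yg_cont (by norm_num : (0 : ℝ) ≤ 2) (x - V) (x + V)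
  obtain ⟨R, hR⟩ : ∃ R : ℝ, R = V ^ (2 * s - s ^ 2) * L ^ s := ⟨_, rfl⟩
  have hR0 : 0 < R := by rw [hR]; positivity
  rw [← hR]
  have hcase : ∀ A : ℝ, 0 ≤ A → ∀ B : ℝ, 0 ≤ B → A * T * R ≤ (A + B) * T * R ∧ B * T * R ≤ (A + B) * T * R := by
    intro A hA B hB
    have : 0 ≤ A * T * R := by positivity
    have : 0 ≤ B * T * R := by positivity
    constructor <;> nlinarith
  have hc := hcase ((2 * C₁) ^ s * V₀ ^ (-(s - s ^ 2))) (by positivity) (6 * CP * (C + 1) * Real.exp ((m₀ : ℝ) + 1) ^ s) (by positivity)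
  rcases le_or_gt V₀ V with hcaseV | hcaseV
  · refine le_trans ?_ hc.1
    have h2 : ∫ t in T..(2 * T), Yg 2 (x - V) (x + V) t ≤ 2 * V * (C₁ * T * L) := by
      have h3 := swap_bd (p := 2) (T := T) (a := x - V) (b := x + V) (B := C₁ * T * L) (by norm_num) hab fun v hv => by
        have h4 := (h1 v (abs_le.2 ⟨by linarith [hv.1], by linarith [hv.2]⟩)).2
        have e1 : L ^ ((2 : ℝ) ^ 2 / 4) = L := by
          have : (2 : ℝ) ^ 2 / 4 = 1 := by norm_num
          rw [this, Real.rpow_one]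
        rwa [e1] at h4
      have e2 : x + V - (x - V) = 2 * V := by ring
      rw [e2] at h3
      exact h3
    have h3 := hold hYc (continuous_const (y := (1 : ℝ))) hY0 (fun _ => zero_le_one)
      (by linarith : T ≤ 2 * T) (θ := 1 - s) (by linarith) (by linarith) (A := 2 * V * (C₁ * T * L)) (B := T) (by positivity) hT0 h2
      (by rw [int_one])
    have e1 : ∀ t, Yg 2 (x - V) (x + V) t ^ (1 - (1 - s)) * (1 : ℝ) ^ (1 - s) = Yg 2 (x - V) (x + V) t ^ s := by
      intro t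
      rw [Real.one_rpow, mul_one]
      congr 1
      ring
    simp only [e1] at h3
    refine h3.trans ?_
    have e2 : 1 - (1 - s) = s := by ring
    rw [e2]
    have e3 : (2 * V * (C₁ * T * L)) ^ s * T ^ (1 - s) = (2 * C₁) ^ s * T * (V ^ s * L ^ s) := by
      have e4 : 2 * V * (C₁ * T * L) = (2 * C₁) * (V * L) * T := by ring
      rw [e4, Real.mul_rpow (by positivity) hT0.le, Real.mul_rpow (by positivity) (by positivity), Real.mul_rpow hV0.le hL0.le]
      have e5 : T ^ s * T ^ (1 - s) = T := by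
        rw [← Real.rpow_add hT0]
        simp
      calc (2 * C₁) ^ s * (V ^ s * L ^ s) * T ^ s * T ^ (1 - s) = (2 * C₁) ^ s * (V ^ s * L ^ s) * (T ^ s * T ^ (1 - s)) := by ring
        _ = _ := by rw [e5]; ring
    rw [e3]
    have h4 : V ^ s ≤ V₀ ^ (-(s - s ^ 2)) * V ^ (2 * s - s ^ 2) := by
      have h5 : V ^ s = V ^ (-(s - s ^ 2)) * V ^ (2 * s - s ^ 2) := by
        rw [← Real.rpow_add hV0]
        congr 1
        ring
      rw [h5]
      apply mul_le_mul_of_nonneg_right _ (by positivity)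
      exact Real.rpow_le_rpow_of_nonpos hV₀0 hcaseV (by linarith)
    calc (2 * C₁) ^ s * T * (V ^ s * L ^ s) ≤ (2 * C₁) ^ s * T * ((V₀ ^ (-(s - s ^ 2)) * V ^ (2 * s - s ^ 2)) * L ^ s) := by
          apply mul_le_mul_of_nonneg_left _ (by positivity)
          exact mul_le_mul_of_nonneg_right h4 (by positivity)
      _ = _ := by rw [hR]; ring
  · refine le_trans ?_ hc.2
    -- the level
    obtain ⟨y, hy⟩ : ∃ y : ℝ, y = max 1 (δ * L * V) := ⟨_, rfl⟩
    have hy1 : 1 ≤ y := by rw [hy]; exact le_max_left _ _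
    have hy2 : δ * L * V ≤ y := by rw [hy]; exact le_max_right _ _
    have hy3 : y ≤ L * V := by
      rw [hy]
      apply max_le
      · linarith
      · have : 0 ≤ L * V := by positivity
        nlinarith
    have hly : 0 ≤ Real.log y := Real.log_nonneg hy1
    obtain ⟨r, hr⟩ : ∃ r : ℕ, r = m₀ + ⌈Real.log y⌉₊ := ⟨_, rfl⟩
    have hr1 : (m₀ : ℝ) + Real.log y ≤ r := by
      rw [hr]
      push_cast
      linarith [Nat.le_ceil (Real.log y)]
    have hr2 : (r : ℝ) ≤ m₀ + 1 + Real.log y := by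
      rw [hr]
      push_cast
      linarith [Nat.ceil_lt_add_one hly]
    have her1 : y ≤ Real.exp r := by
      rw [← Real.log_le_iff_le_exp (by linarith)]
      have : (0 : ℝ) ≤ m₀ := Nat.cast_nonneg _
      linarith
    have her2 : Real.exp r ≤ Real.exp ((m₀ : ℝ) + 1) * y := by
      calc Real.exp r ≤ Real.exp ((m₀ : ℝ) + 1 + Real.log y) := Real.exp_le_exp.2 hr2
        _ = _ := by rw [Real.exp_add, Real.exp_log (by linarith)]
    have hVe : V * Real.exp ((m₀ : ℝ) + 1) ≤ 1 := by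
      calc V * Real.exp ((m₀ : ℝ) + 1) ≤ V₀ * Real.exp ((m₀ : ℝ) + 1) := mul_le_mul_of_nonneg_right hcaseV.le (Real.exp_pos _).le
        _ = 1 := by rw [hV₀, ← Real.exp_add]; simp
    have her3 : Real.exp r ≤ δ * L := by
      refine her2.trans ?_
      rw [hy, mul_max_of_nonneg _ _ (Real.exp_pos _).le]
      apply max_le
      · rw [mul_one]
        exact t1
      · calc Real.exp ((m₀ : ℝ) + 1) * (δ * L * V) = (V * Real.exp ((m₀ : ℝ) + 1)) * (δ * L) := by ring
          _ ≤ 1 * (δ * L) := mul_le_mul_of_nonneg_right hVe (by positivity)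
          _ = δ * L := one_mul _
    have hee : Real.exp r * Real.exp (-(r : ℝ)) = 1 := by rw [← Real.exp_add]; simp
    have hpe := Real.exp_pos (-(r : ℝ))
    have hE1 : 1 ≤ δ * L * Real.exp (-(r : ℝ)) := by
      rw [← hee]
      exact mul_le_mul_of_nonneg_right her3 hpe.le
    have hEV : V * (δ * L * Real.exp (-(r : ℝ))) ≤ 1 := by
      calc V * (δ * L * Real.exp (-(r : ℝ))) = (δ * L * V) * Real.exp (-(r : ℝ)) := by ring
        _ ≤ Real.exp r * Real.exp (-(r : ℝ)) := mul_le_mul_of_nonneg_right (hy2.trans her1) hpe.le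
        _ = 1 := hee
    have hM' := hM r (by omega) hE1 s hs0.le hs1 x (by linarith)
    obtain ⟨E, hEd⟩ : ∃ E : ℝ, E = δ * L * Real.exp (-(r : ℝ)) := ⟨_, rfl⟩
    rw [← hEd] at hE1 hEV hM'
    have hEp : 0 < E := by linarith
    obtain ⟨μ, hμ⟩ : ∃ μ : ℝ, μ = V * Real.exp r := ⟨_, rfl⟩
    have hμ0 : 0 < μ := by rw [hμ]; positivity
    -- pointwise
    have hpt : ∀ t, Yg 2 (x - V) (x + V) t ^ s ≤ ∑ l ∈ Finset.range (JB E + 1), (CP * μ ^ s * W1 E κ' 2 x (1 + s) l t +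
        CP * μ ^ s * μ⁻¹ * (Yg 2 (x - V) (x + V) t * W2 E κ' 2 x (1 + s) l t)) := by
      intro t
      have h2 := hP E 2 x (1 + s) t (Yg 2 (x - V) (x + V) t / μ) (by linarith) (by linarith) (div_nonneg (hY0 t) hμ0.le)
      have e1 : 1 + s - 1 = s := by ring
      rw [e1] at h2
      have h3 : Yg 2 (x - V) (x + V) t ^ s = μ ^ s * (Yg 2 (x - V) (x + V) t / μ) ^ s := by
        rw [← Real.mul_rpow hμ0.le (div_nonneg (hY0 t) hμ0.le), mul_div_cancel₀ _ hμ0.ne']
      rw [h3]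
      refine (mul_le_mul_of_nonneg_left h2 (by positivity)).trans (le_of_eq ?_)
      rw [Finset.mul_sum, Finset.mul_sum]
      refine Finset.sum_congr rfl fun l _ => ?_
      field_simp
    obtain ⟨Q, hQ⟩ : ∃ Q : ℝ, Q = E ^ (s ^ 2) := ⟨_, rfl⟩
    have hQ0 : 0 < Q := by rw [hQ]; positivity
    rw [← hQ] at hM'
    have hI1 : ∀ l ∈ Finset.range (JB E + 1), ∫ t in T..(2 * T), W1 E κ' 2 x (1 + s) l t ≤ C * T * Real.exp (-(l : ℝ)) * Q := by
      intro l hl
      exact (hM' l (by have := Finset.mem_range.1 hl; omega)).1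
    have hI2 : ∀ l ∈ Finset.range (JB E + 1), ∫ t in T..(2 * T), Yg 2 (x - V) (x + V) t * W2 E κ' 2 x (1 + s) l t ≤
        2 * V * (C * T * Real.exp (-(l : ℝ)) * (Real.exp r * Q)) := by
      intro l hl
      have h3 := swap_w (w := W2 E κ' 2 x (1 + s) l) (W2_cont _ _ _ _ _ _) (T := T) hab (B := C * T * Real.exp (-(l : ℝ)) * (Real.exp r * Q))
        fun v hv => (hM' l (by have := Finset.mem_range.1 hl; omega)).2 v (abs_le.2 ⟨by linarith [hv.1], by linarith [hv.2]⟩) (by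
          refine le_trans (mul_le_mul_of_nonneg_right ?_ hEp.le) hEV
          rw [abs_le]
          constructor <;> linarith [hv.1, hv.2])
      have e2 : x + V - (x - V) = 2 * V := by ring
      rwa [e2] at h3
    have hRc : ∀ l, Continuous fun t : ℝ => CP * μ ^ s * W1 E κ' 2 x (1 + s) l t +
        CP * μ ^ s * μ⁻¹ * (Yg 2 (x - V) (x + V) t * W2 E κ' 2 x (1 + s) l t) := fun l =>
      (continuous_const.mul (W1_cont _ _ _ _ _ _)).add (continuous_const.mul (hYc.mul (W2_cont _ _ _ _ _ _)))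
    have hYsc : Continuous fun t => Yg 2 (x - V) (x + V) t ^ s := hYc.rpow_const fun _ => Or.inr hs0.le
    refine (intervalIntegral.integral_mono_on (by linarith) (hYsc.intervalIntegrable _ _)
      ((continuous_finsetSum _ fun l _ => hRc l).intervalIntegrable _ _) fun t _ => hpt t).trans ?_
    rw [intervalIntegral.integral_finsetSum fun l _ => (hRc l).intervalIntegrable _ _]
    have hl1 : ∀ l ∈ Finset.range (JB E + 1), ∫ t in T..(2 * T), (CP * μ ^ s * W1 E κ' 2 x (1 + s) l t +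
        CP * μ ^ s * μ⁻¹ * (Yg 2 (x - V) (x + V) t * W2 E κ' 2 x (1 + s) l t)) ≤ 3 * CP * μ ^ s * C * T * Q * Real.exp (-(l : ℝ)) := by
      intro l hl
      have i1 : IntervalIntegrable (fun t => CP * μ ^ s * W1 E κ' 2 x (1 + s) l t) volume T (2 * T) :=
        (continuous_const.mul (W1_cont _ _ _ _ _ _)).intervalIntegrable _ _
      have i2 : IntervalIntegrable (fun t => CP * μ ^ s * μ⁻¹ * (Yg 2 (x - V) (x + V) t * W2 E κ' 2 x (1 + s) l t)) volume T (2 * T) :=
        (continuous_const.mul (hYc.mul (W2_cont _ _ _ _ _ _))).intervalIntegrable _ _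
      rw [intervalIntegral.integral_add i1 i2, intervalIntegral.integral_const_mul, intervalIntegral.integral_const_mul]
      have u1 := mul_le_mul_of_nonneg_left (hI1 l hl) (by positivity : 0 ≤ CP * μ ^ s)
      have u2 := mul_le_mul_of_nonneg_left (hI2 l hl) (by positivity : 0 ≤ CP * μ ^ s * μ⁻¹)
      have e3 : CP * μ ^ s * μ⁻¹ * (2 * V * (C * T * Real.exp (-(l : ℝ)) * (Real.exp r * Q))) =
          2 * (CP * μ ^ s * (C * T * Real.exp (-(l : ℝ)) * Q)) * (μ⁻¹ * (V * Real.exp r)) := by ring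
      rw [e3, ← hμ, inv_mul_cancel₀ hμ0.ne', mul_one] at u2
      linarith
    refine (Finset.sum_le_sum hl1).trans ?_
    rw [← Finset.mul_sum]
    have hμs : μ ^ s ≤ Real.exp ((m₀ : ℝ) + 1) ^ s * (V ^ (2 * s) * L ^ s) := by
      have h2 : μ ≤ Real.exp ((m₀ : ℝ) + 1) * (V ^ 2 * L) := by
        rw [hμ]
        calc V * Real.exp r ≤ V * (Real.exp ((m₀ : ℝ) + 1) * (L * V)) := by
              apply mul_le_mul_of_nonneg_left _ hV0.le
              exact her2.trans (mul_le_mul_of_nonneg_left hy3 (Real.exp_pos _).le)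
          _ = _ := by ring
      refine (Real.rpow_le_rpow hμ0.le h2 hs0.le).trans (le_of_eq ?_)
      rw [Real.mul_rpow (Real.exp_pos _).le (by positivity), Real.mul_rpow (by positivity) hL0.le, ← Real.rpow_natCast V 2, ← Real.rpow_mul hV0.le]
      push_cast
      ring
    have hQV : Q ≤ V ^ (-(s ^ 2)) := by
      rw [hQ, Real.rpow_neg hV0.le, ← Real.inv_rpow hV0.le]
      apply Real.rpow_le_rpow hEp.le _ (sq_nonneg s)
      rw [le_inv_comm₀ hEp hV0, ← one_div, le_div_iff₀ hEp]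
      exact hEV
    have hprod : μ ^ s * Q ≤ Real.exp ((m₀ : ℝ) + 1) ^ s * R := by
      calc μ ^ s * Q ≤ (Real.exp ((m₀ : ℝ) + 1) ^ s * (V ^ (2 * s) * L ^ s)) * V ^ (-(s ^ 2)) := mul_le_mul hμs hQV hQ0.le (by positivity)
        _ = Real.exp ((m₀ : ℝ) + 1) ^ s * ((V ^ (2 * s) * V ^ (-(s ^ 2))) * L ^ s) := by ring
        _ = _ := by
            rw [← Real.rpow_add hV0, hR]
            congr 3
    have hg := geo_exp (JB E + 1)
    have hg0 : 0 ≤ ∑ l ∈ Finset.range (JB E + 1), Real.exp (-(l : ℝ)) := Finset.sum_nonneg fun l _ => (Real.exp_pos _).le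
    calc 3 * CP * μ ^ s * C * T * Q * ∑ l ∈ Finset.range (JB E + 1), Real.exp (-(l : ℝ)) =
        3 * CP * C * T * (μ ^ s * Q) * ∑ l ∈ Finset.range (JB E + 1), Real.exp (-(l : ℝ)) := by ring
      _ ≤ 3 * CP * C * T * (Real.exp ((m₀ : ℝ) + 1) ^ s * R) * 2 := by gcongr
      _ ≤ 3 * CP * (C + 1) * T * (Real.exp ((m₀ : ℝ) + 1) ^ s * R) * 2 := by gcongr; linarith
      _ = _ := by ring

end

end Pool.Agent.H469.F4
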