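import Pool.Agent.H469.F4.Q6

set_option autoImplicit false

/-!
# Maxima over short intervals: the upper bound in the frozen phase
-/

namespace Pool.Agent.H469.F4

open Filter Topology MeasureTheory Complex Pool.Agent.Q97.UM
open Pool.Agent.Q14.UM (mem_PB PB_disj cv_len)

noncomputable section

/-- the kernel, ring by ring -/
theorem ww_rings {g : ℝ → ℝ} (hg : Continuous g) (g0 : ∀ y, 0 ≤ g y) {L H : ℝ} (hL : 0 < L) (hHL : 1 ≤ H * L) (N : ℕ) :
    ∫ y in (-(2 ^ N * H))..(2 ^ N * H), ww L y * g y ≤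
      ∑ k ∈ Finset.range (N + 1), 16 * (1 / 4) ^ k * ∫ y in (-(2 ^ k * H))..(2 ^ k * H), g y := by
  have hH : 0 < H := by
    by_contra h
    have : H * L ≤ 0 := mul_nonpos_of_nonpos_of_nonneg (not_lt.1 h) hL.le
    linarith
  have hwc := ww_cont hL.le
  have hwg : Continuous fun y => ww L y * g y := hwc.mul hg
  induction N with
  | zero =>
    rw [Finset.sum_range_one]
    simp only [pow_zero, one_mul, mul_one]
    have h1 : ∫ y in (-H)..H, ww L y * g y ≤ ∫ y in (-H)..H, g y := by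
      refine intervalIntegral.integral_mono_on (by linarith) (hwg.intervalIntegrable _ _) (hg.intervalIntegrable _ _) fun y _ => ?_
      have h2 : ww L y ≤ 1 := by
        unfold ww
        apply inv_le_one_of_one_le₀
        apply one_le_pow₀
        have : 0 ≤ 1 / 2 * L * |y| := by positivity
        linarith
      have := g0 y
      nlinarith
    have h2 : 0 ≤ ∫ y in (-H)..H, g y := intervalIntegral.integral_nonneg (by linarith) fun y _ => g0 y
    linarith
  | succ N ih =>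
    rw [Finset.sum_range_succ]
    obtain ⟨R, hR⟩ : ∃ R : ℝ, R = 2 ^ N * H := ⟨_, rfl⟩
    have hR0 : 0 < R := by rw [hR]; positivity
    have hR2 : (2 : ℝ) ^ (N + 1) * H = 2 * R := by rw [hR]; ring
    rw [hR2]
    rw [← hR] at ih
    have e1 : ∫ y in (-(2 * R))..(2 * R), ww L y * g y = (∫ y in (-(2 * R))..(-R), ww L y * g y) + (∫ y in (-R)..R, ww L y * g y) +
        ∫ y in R..(2 * R), ww L y * g y := by
      rw [intervalIntegral.integral_add_adjacent_intervals (hwg.intervalIntegrable _ _) (hwg.intervalIntegrable _ _),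
        intervalIntegral.integral_add_adjacent_intervals (hwg.intervalIntegrable _ _) (hwg.intervalIntegrable _ _)]
    have e2 : ∫ y in (-(2 * R))..(2 * R), g y = (∫ y in (-(2 * R))..(-R), g y) + (∫ y in (-R)..R, g y) + ∫ y in R..(2 * R), g y := by
      rw [intervalIntegral.integral_add_adjacent_intervals (hg.intervalIntegrable _ _) (hg.intervalIntegrable _ _),
        intervalIntegral.integral_add_adjacent_intervals (hg.intervalIntegrable _ _) (hg.intervalIntegrable _ _)]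
    have hww : ∀ y : ℝ, R ≤ |y| → ww L y ≤ 16 * (1 / 4) ^ (N + 1) := by
      intro y hy
      unfold ww
      have h1 : (2 : ℝ) ^ N ≤ L * |y| := by
        calc (2 : ℝ) ^ N ≤ 2 ^ N * (H * L) := le_mul_of_one_le_right (by positivity) hHL
          _ = L * R := by rw [hR]; ring
          _ ≤ L * |y| := mul_le_mul_of_nonneg_left hy hL.le
      have h2 : (2 : ℝ) ^ N / 2 ≤ 1 + 1 / 2 * L * |y| := by linarith
      have h3 : ((2 : ℝ) ^ N / 2) ^ 2 ≤ (1 + 1 / 2 * L * |y|) ^ 2 := pow_le_pow_left₀ (by positivity) h2 2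
      have h4 : (((2 : ℝ) ^ N / 2) ^ 2)⁻¹ = 16 * (1 / 4) ^ (N + 1) := by
        have e4 : (4 : ℝ) ^ (N + 1) = 4 * (2 ^ N) ^ 2 := by
          have e5 : (4 : ℝ) ^ N = (2 ^ N) ^ 2 := by
            rw [← pow_mul, mul_comm N 2, pow_mul]
            norm_num
          rw [pow_succ, e5]
          ring
        have e6 : (0 : ℝ) < 2 ^ N := by positivity
        obtain ⟨z, hz⟩ : ∃ z : ℝ, z = 2 ^ N := ⟨_, rfl⟩
        rw [← hz] at e4 e6 ⊢
        rw [one_div, inv_pow, e4]
        field_simp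
        norm_num
      rw [← h4]
      exact inv_anti₀ (by positivity) h3
    have h1 : ∫ y in R..(2 * R), ww L y * g y ≤ 16 * (1 / 4) ^ (N + 1) * ∫ y in R..(2 * R), g y := by
      rw [← intervalIntegral.integral_const_mul]
      refine intervalIntegral.integral_mono_on (by linarith) (hwg.intervalIntegrable _ _) ((continuous_const.mul hg).intervalIntegrable _ _) fun y hy => ?_
      exact mul_le_mul_of_nonneg_right (hww y (le_trans hy.1 (le_abs_self y))) (g0 y)
    have h2 : ∫ y in (-(2 * R))..(-R), ww L y * g y ≤ 16 * (1 / 4) ^ (N + 1) * ∫ y in (-(2 * R))..(-R), g y := by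
      rw [← intervalIntegral.integral_const_mul]
      refine intervalIntegral.integral_mono_on (by linarith) (hwg.intervalIntegrable _ _) ((continuous_const.mul hg).intervalIntegrable _ _) fun y hy => ?_
      exact mul_le_mul_of_nonneg_right (hww y (le_trans (by linarith [hy.2]) (neg_le_abs y))) (g0 y)
    have h3 : 0 ≤ 16 * (1 / 4 : ℝ) ^ (N + 1) * ∫ y in (-R)..R, g y :=
      mul_nonneg (by positivity) (intervalIntegral.integral_nonneg (by linarith) fun y _ => g0 y)
    rw [e1, e2]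
    linarith

/-- **upper bound in the frozen phase, short intervals** -/
theorem meso_max_up {β : ℝ} (hβ0 : 0 < β) (hβ2 : β ≤ 2) : ∃ C : ℝ, 0 < C ∧ ∀ᶠ T : ℝ in atTop, ∀ x : ℝ, |x| ≤ T / 16 → ∀ H : ℝ,
    1 ≤ H * Real.log T → H ≤ 1 → ∫ t in T..(2 * T), MH H x t ^ β ≤ C * T * ((H * Real.log T) ^ β * H ^ (-(β ^ 2 / 4))) := by
  obtain ⟨s, hs⟩ : ∃ s : ℝ, s = β / 2 := ⟨_, rfl⟩
  have hs0 : 0 < s := by rw [hs]; positivity
  have hs1 : s ≤ 1 := by rw [hs]; linarith
  have hβs : β = 2 * s := by rw [hs]; ring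
  obtain ⟨W, δ, C, hδ, hC, hloc⟩ := loc_supw (p := 2) (by norm_num)
  have hW0 : (0 : ℝ) ≤ W := Nat.cast_nonneg _
  obtain ⟨C₂, hC₂, hms⟩ := mass_s hs0 hs1 (Wm := 4 * ((W : ℝ) + 1)) (by linarith)
  obtain ⟨ρ, hρ⟩ : ∃ ρ : ℝ, ρ = 2 ^ (-(s ^ 2)) := ⟨_, rfl⟩
  have hρ0 : 0 < ρ := by rw [hρ]; positivity
  have hρ1 : ρ < 1 := by
    rw [hρ]
    apply Real.rpow_lt_one_of_one_lt_of_neg (by norm_num)
    have : 0 < s ^ 2 := by positivity
    linarith
  have hρi : 0 < (1 - ρ)⁻¹ := by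
    have : 0 < 1 - ρ := by linarith
    positivity
  refine ⟨C ^ s + (16 * C) ^ s * C₂ * 2 ^ (2 * s - s ^ 2) * (1 - ρ)⁻¹, by positivity, ?_⟩
  filter_upwards [hloc, hms, eventually_ge_atTop (32 : ℝ), Real.tendsto_log_atTop.eventually_ge_atTop 1] with T hloc hms hT32 hL1 x hx H hHL hH1
  obtain ⟨L, hL⟩ : ∃ L : ℝ, L = Real.log T := ⟨_, rfl⟩
  rw [← hL] at hloc hms hL1 hHL ⊢
  have hT0 : 0 < T := by linarith
  have hL0 : 0 < L := by linarith
  have hH0 : 0 < H := by
    by_contra h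
    have : H * L ≤ 0 := mul_nonpos_of_nonpos_of_nonneg (not_lt.1 h) hL0.le
    linarith
  have hx' := abs_le.1 hx
  obtain ⟨n, hn1, hn2⟩ := exists_nat_pow_near (x := ((W : ℝ) + 1) / H) (y := 2) (by rw [one_le_div hH0]; linarith) (by norm_num)
  obtain ⟨N, hN⟩ : ∃ N : ℕ, N = n + 1 := ⟨_, rfl⟩
  have hN1 : (W : ℝ) ≤ 2 ^ N * H := by
    rw [div_lt_iff₀ hH0, ← hN] at hn2
    linarith
  have hN2 : (2 : ℝ) ^ N * H ≤ 2 * ((W : ℝ) + 1) := by
    rw [le_div_iff₀ hH0] at hn1
    rw [hN, pow_succ]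
    linarith
  have hf := fz_cont (by norm_num : (0 : ℝ) ≤ 2)
  -- pointwise
  obtain ⟨V, hV⟩ : ∃ V : ℕ → ℝ, V = fun k => 2 * (2 ^ k * H) := ⟨_, rfl⟩
  have hVk : ∀ k, V k = 2 * (2 ^ k * H) := fun k => by rw [hV]
  have hV0 : ∀ k, 0 < V k := fun k => by rw [hVk]; positivity
  have hkH : ∀ k : ℕ, H ≤ 2 ^ k * H := fun k => le_mul_of_one_le_left hH0.le (one_le_pow₀ (by norm_num))
  have hY0 : ∀ k t, 0 ≤ Yg 2 (x - V k) (x + V k) t := fun k t => Yg_nonneg 2 (by linarith [hV0 k]) t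
  have hpt : ∀ t ∈ Set.Icc T (2 * T), MH H x t ^ β ≤ (C * T ^ (-δ)) ^ s +
      ∑ k ∈ Finset.range (N + 1), (16 * C * L * (1 / 4) ^ k) ^ s * Yg 2 (x - V k) (x + V k) t ^ s := by
    intro t ht
    obtain ⟨h, hh, he⟩ := ex_MH hH0.le x t
    have h2 := hloc (t + h) (by linarith [ht.1, hh.1, hx'.1]) (by linarith [ht.2, hh.2, hx'.2])
    have hgc : Continuous fun y : ℝ => fz 2 (t + h + y) := hf.comp (by fun_prop)
    have h3 : ∫ y in (-(W : ℝ))..W, ww L y * fz 2 (t + h + y) ≤ ∑ k ∈ Finset.range (N + 1), 16 * (1 / 4) ^ k * Yg 2 (x - V k) (x + V k) t := by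
      have h4 : ∫ y in (-(W : ℝ))..W, ww L y * fz 2 (t + h + y) ≤ ∫ y in (-(2 ^ N * H))..(2 ^ N * H), ww L y * fz 2 (t + h + y) :=
        intervalIntegral.integral_mono_interval (by linarith) (by linarith) hN1
          (Eventually.of_forall fun y => mul_nonneg (ww_nonneg _ _) (fz_nonneg _ _)) (((ww_cont hL0.le).mul hgc).intervalIntegrable _ _)
      refine h4.trans ((ww_rings hgc (fun y => fz_nonneg _ _) hL0 hHL N).trans ?_)
      refine Finset.sum_le_sum fun k _ => mul_le_mul_of_nonneg_left ?_ (by positivity)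
      have hgv : Continuous fun v : ℝ => fz 2 (t + v) := hf.comp (by fun_prop)
      have e1 : ∫ y in (-(2 ^ k * H))..(2 ^ k * H), fz 2 (t + h + y) = ∫ v in (h - 2 ^ k * H)..(h + 2 ^ k * H), fz 2 (t + v) := by
        have := intervalIntegral.integral_comp_add_left (fun v => fz 2 (t + v)) h (a := -(2 ^ k * H)) (b := 2 ^ k * H)
        rw [show h - (2 : ℝ) ^ k * H = h + -(2 ^ k * H) by ring, ← this]
        exact intervalIntegral.integral_congr fun y _ => by simp only [add_assoc]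
      rw [e1]
      unfold Yg
      have hk := hkH k
      have hk2 := hVk k
      exact intervalIntegral.integral_mono_interval (by linarith [hh.1]) (by linarith) (by linarith [hh.2])
        (Eventually.of_forall fun _ => fz_nonneg _ _) (hgv.intervalIntegrable _ _)
    have h5 : MH H x t ^ β = (fz 2 (t + h)) ^ s := by
      rw [he]
      unfold fz
      rw [← Real.rpow_mul (norm_nonneg _), hβs]
    have h6 : fz 2 (t + h) ≤ C * T ^ (-δ) + ∑ k ∈ Finset.range (N + 1), 16 * C * L * (1 / 4) ^ k * Yg 2 (x - V k) (x + V k) t := by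
      refine h2.trans (add_le_add le_rfl ?_)
      calc C * L * ∫ y in (-(W : ℝ))..W, ww L y * fz 2 (t + h + y) ≤ C * L * ∑ k ∈ Finset.range (N + 1), 16 * (1 / 4) ^ k * Yg 2 (x - V k) (x + V k) t :=
            mul_le_mul_of_nonneg_left h3 (by positivity)
        _ = _ := by
            rw [Finset.mul_sum]
            exact Finset.sum_congr rfl fun k _ => by ring
    have hS0 : 0 ≤ ∑ k ∈ Finset.range (N + 1), 16 * C * L * (1 / 4) ^ k * Yg 2 (x - V k) (x + V k) t :=
      Finset.sum_nonneg fun k _ => mul_nonneg (by positivity) (hY0 k t)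
    rw [h5]
    refine (Real.rpow_le_rpow (fz_nonneg _ _) h6 hs0.le).trans ((Real.rpow_add_le_add_rpow (by positivity) hS0 hs0.le hs1).trans (add_le_add le_rfl ?_))
    refine (sum_rpow_le hs0 hs1 _ _ fun k _ => mul_nonneg (by positivity) (hY0 k t)).trans (le_of_eq ?_)
    exact Finset.sum_congr rfl fun k _ => Real.mul_rpow (by positivity) (hY0 k t)
  -- integrate
  have hMc : Continuous fun t => MH H x t ^ β := (MH_cont _ x).rpow_const fun _ => Or.inr hβ0.le
  have hYc : ∀ k, Continuous fun t => (16 * C * L * (1 / 4) ^ k) ^ s * Yg 2 (x - V k) (x + V k) t ^ s := fun k =>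
    continuous_const.mul ((Yg_cont (by norm_num) _ _).rpow_const fun _ => Or.inr hs0.le)
  have i1 : IntervalIntegrable (fun _ : ℝ => (C * T ^ (-δ)) ^ s) volume T (2 * T) := continuous_const.intervalIntegrable _ _
  have i2 : IntervalIntegrable (fun t : ℝ => ∑ k ∈ Finset.range (N + 1), (16 * C * L * (1 / 4) ^ k) ^ s * Yg 2 (x - V k) (x + V k) t ^ s) volume T (2 * T) :=
    (continuous_finsetSum _ fun k _ => hYc k).intervalIntegrable _ _
  refine (intervalIntegral.integral_mono_on (by linarith) (hMc.intervalIntegrable _ _) (i1.add i2) hpt).trans ?_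
  rw [intervalIntegral.integral_add i1 i2, intervalIntegral.integral_const, smul_eq_mul,
    intervalIntegral.integral_finsetSum fun k _ => (hYc k).intervalIntegrable _ _]
  obtain ⟨R, hR⟩ : ∃ R : ℝ, R = (H * L) ^ β * H ^ (-(β ^ 2 / 4)) := ⟨_, rfl⟩
  have hR0 : 0 < R := by rw [hR]; positivity
  have hR1 : 1 ≤ R := by
    rw [hR]
    have h2 : (1 : ℝ) ≤ (H * L) ^ β := Real.one_le_rpow hHL hβ0.le
    have h3 : (1 : ℝ) ≤ H ^ (-(β ^ 2 / 4)) := Real.one_le_rpow_of_pos_of_le_one_of_nonpos hH0 hH1 (by have := sq_nonneg β; linarith)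
    nlinarith
  rw [← hR]
  have hterm : ∀ k ∈ Finset.range (N + 1), ∫ t in T..(2 * T), (16 * C * L * (1 / 4) ^ k) ^ s * Yg 2 (x - V k) (x + V k) t ^ s ≤
      (16 * C) ^ s * C₂ * 2 ^ (2 * s - s ^ 2) * T * R * ρ ^ k := by
    intro k hk
    rw [intervalIntegral.integral_const_mul]
    have hkN : k ≤ N := by have := Finset.mem_range.1 hk; omega
    have hVW : V k ≤ 4 * ((W : ℝ) + 1) := by
      rw [hVk]
      have : (2 : ℝ) ^ k * H ≤ 2 ^ N * H := mul_le_mul_of_nonneg_right (pow_le_pow_right₀ (by norm_num) hkN) hH0.le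
      linarith
    have hVL : 1 ≤ V k * L := by
      have h2 : H * L ≤ V k * L := by
        apply mul_le_mul_of_nonneg_right _ hL0.le
        have := hkH k
        have := hVk k
        linarith
      linarith
    have h3 := hms x (by linarith) (V k) hVL hVW
    refine (mul_le_mul_of_nonneg_left h3 (by positivity)).trans (le_of_eq ?_)
    have e1 : (16 * C * L * (1 / 4) ^ k) ^ s = (16 * C) ^ s * L ^ s * ((1 / 4) ^ k) ^ s := by
      rw [Real.mul_rpow (by positivity) (by positivity), Real.mul_rpow (by positivity) hL0.le]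
    have e2 : V k ^ (2 * s - s ^ 2) = 2 ^ (2 * s - s ^ 2) * ((2 ^ k) ^ (2 * s - s ^ 2) * H ^ (2 * s - s ^ 2)) := by
      rw [hVk, Real.mul_rpow (by norm_num) (by positivity), Real.mul_rpow (by positivity) hH0.le]
    have e3 : ((1 / 4 : ℝ) ^ k) ^ s * (2 ^ k) ^ (2 * s - s ^ 2) = ρ ^ k := by
      rw [hρ, ← Real.rpow_natCast (1 / 4 : ℝ), ← Real.rpow_mul (by norm_num), ← Real.rpow_natCast (2 : ℝ), ← Real.rpow_mul (by norm_num),
        ← Real.rpow_natCast ((2 : ℝ) ^ (-(s ^ 2))), ← Real.rpow_mul (by norm_num)]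
      have : (1 / 4 : ℝ) = 2 ^ (-2 : ℝ) := by
        rw [Real.rpow_neg (by norm_num)]
        norm_num
      rw [this, ← Real.rpow_mul (by norm_num), ← Real.rpow_add (by norm_num)]
      congr 1
      ring
    have e4 : H ^ (2 * s - s ^ 2) * (L ^ s * L ^ s) = R := by
      rw [hR, Real.mul_rpow hH0.le hL0.le, ← Real.rpow_add hL0, hβs]
      have e5 : H ^ (2 * s - s ^ 2) = H ^ (2 * s) * H ^ (-((2 * s) ^ 2 / 4)) := by
        rw [← Real.rpow_add hH0]
        congr 1
        ring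
      rw [e5, show s + s = 2 * s by ring]
      ring
    rw [e1, e2]
    calc (16 * C) ^ s * L ^ s * ((1 / 4) ^ k) ^ s * (C₂ * T * (2 ^ (2 * s - s ^ 2) * ((2 ^ k) ^ (2 * s - s ^ 2) * H ^ (2 * s - s ^ 2)) * L ^ s)) =
        (16 * C) ^ s * C₂ * 2 ^ (2 * s - s ^ 2) * T * (H ^ (2 * s - s ^ 2) * (L ^ s * L ^ s)) * (((1 / 4) ^ k) ^ s * (2 ^ k) ^ (2 * s - s ^ 2)) := by ring
      _ = _ := by rw [e3, e4]
  have hsum := Finset.sum_le_sum hterm
  rw [← Finset.mul_sum] at hsum
  have hgeo : ∑ k ∈ Finset.range (N + 1), ρ ^ k ≤ (1 - ρ)⁻¹ := by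
    rw [← tsum_geometric_of_lt_one hρ0.le hρ1]
    exact (summable_geometric_of_lt_one hρ0.le hρ1).sum_le_tsum _ fun i _ => by positivity
  have h7 : (16 * C) ^ s * C₂ * 2 ^ (2 * s - s ^ 2) * T * R * ∑ k ∈ Finset.range (N + 1), ρ ^ k ≤
      (16 * C) ^ s * C₂ * 2 ^ (2 * s - s ^ 2) * T * R * (1 - ρ)⁻¹ := mul_le_mul_of_nonneg_left hgeo (by positivity)
  have h8 : (2 * T - T) * (C * T ^ (-δ)) ^ s ≤ C ^ s * T * R := by
    have h9 : T ^ (-δ) ≤ 1 := Real.rpow_le_one_of_one_le_of_nonpos (by linarith) (by linarith)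
    have h10 : (C * T ^ (-δ)) ^ s ≤ C ^ s := Real.rpow_le_rpow (by positivity) (by nlinarith) hs0.le
    have h11 : 0 < C ^ s := by positivity
    calc (2 * T - T) * (C * T ^ (-δ)) ^ s ≤ (2 * T - T) * C ^ s := mul_le_mul_of_nonneg_left h10 (by linarith)
      _ = C ^ s * T * 1 := by ring
      _ ≤ C ^ s * T * R := mul_le_mul_of_nonneg_left hR1 (by positivity)
  calc _ ≤ C ^ s * T * R + (16 * C) ^ s * C₂ * 2 ^ (2 * s - s ^ 2) * T * R * (1 - ρ)⁻¹ := add_le_add h8 (hsum.trans h7)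
    _ = _ := by ring

end

end Pool.Agent.H469.F4
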