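import Pool.Agent.H469.F4.SMI
import Pool.Agent.H469.F4.AFE4

set_option autoImplicit false

/-!
# The gcd form of the product of the smooth polynomial with a smooth sequence
-/

namespace Pool.Agent.H469.F4

open Filter Topology MeasureTheory Complex Pool.Agent.Q97.UM

noncomputable section

variable {φ κ : ℝ → ℝ} {c₀ C₀ : ℝ}

theorem cv_congr' {a a' b b' : ℕ → ℂ} (ha : ∀ k, k ≠ 0 → a k = a' k) (hb : ∀ k, k ≠ 0 → b k = b' k) (n : ℕ) :
    cv a b n = cv a' b' n := by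
  unfold cv
  refine Finset.sum_congr rfl fun p hp => ?_
  obtain ⟨h1, h2⟩ := Nat.mem_divisorsAntidiagonal.1 hp
  have h3 : p.1 ≠ 0 := fun h => h2 (by rw [← h1, h, zero_mul])
  have h4 : p.2 ≠ 0 := fun h => h2 (by rw [← h1, h, mul_zero])
  rw [ha _ h3, hb _ h4]

theorem cv_twist (α : ℝ) (a b : ℕ → ℂ) (n : ℕ) :
    cv (fun k => (k : ℂ) ^ (α * I) * a k) (fun k => (k : ℂ) ^ (α * I) * b k) n = (n : ℂ) ^ (α * I) * cv a b n := by
  unfold cv
  rw [Finset.mul_sum]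
  refine Finset.sum_congr rfl fun p hp => ?_
  obtain ⟨h1, h2⟩ := Nat.mem_divisorsAntidiagonal.1 hp
  rw [← h1, Nat.cast_mul, Complex.natCast_mul_natCast_cpow]
  ring

theorem norm_cpow_I (α : ℝ) {k : ℕ} (hk : k ≠ 0) : ‖(k : ℂ) ^ (α * I)‖ = 1 := by
  rw [Complex.norm_natCast_cpow_of_pos (Nat.pos_of_ne_zero hk)]
  simp

/-- the twisted divisor sums -/
def Dz (L α : ℝ) (c : ℕ → ℂ) (n : ℕ) (z : ℝ) : ℂ :=
  cv (fun k => (k : ℂ) ^ (((z / L : ℝ) : ℂ) * I)) (cv (fun _ => 1) (fun h => c h * (h : ℂ) ^ (α * I))) n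

theorem Dz_norm (L α : ℝ) (c : ℕ → ℂ) {n : ℕ} (hn : n ≠ 0) (z : ℝ) :
    ‖Dz L α c n z‖ = ‖cv (ua α) (cv (ua (α - z / L)) c) n‖ := by
  have h1 : Dz L α c n z = (n : ℂ) ^ (α * I) * cv (ua (α - z / L)) (cv (ua α) c) n := by
    unfold Dz
    rw [← cv_twist]
    refine cv_congr' (fun k hk => ?_) (fun k hk => ?_) n
    · unfold ua
      rw [← Complex.cpow_add _ _ (by exact_mod_cast hk)]
      congr 1
      push_cast
      ring
    · rw [← cv_twist]
      refine cv_congr' (fun r hr => ?_) (fun h hh => ?_) k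
      · unfold ua
        rw [← Complex.cpow_add _ _ (by exact_mod_cast hr), add_neg_cancel, Complex.cpow_zero]
      · ring
  rw [h1, norm_mul, norm_cpow_I α hn, one_mul, cv_left_comm]

theorem Dz_cont (L α : ℝ) (c : ℕ → ℂ) (n : ℕ) : Continuous (Dz L α c n) := by
  unfold Dz
  unfold cv
  refine continuous_finsetSum _ fun p hp => ?_
  obtain ⟨h1, h2⟩ := Nat.mem_divisorsAntidiagonal.1 hp
  have h3 : p.1 ≠ 0 := fun h => h2 (by rw [← h1, h, zero_mul])
  have h4 : (p.1 : ℂ) ≠ 0 := by exact_mod_cast h3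
  exact (Continuous.const_cpow (by fun_prop) (Or.inl h4)).mul continuous_const

theorem Dz_bdd (L α : ℝ) (c : ℕ → ℂ) (n : ℕ) : ∃ B : ℝ, 0 ≤ B ∧ ∀ z, ‖Dz L α c n z‖ ≤ B := by
  refine ⟨∑ p ∈ n.divisorsAntidiagonal, ‖cv (fun _ => 1) (fun h => c h * (h : ℂ) ^ (α * I)) p.2‖,
    Finset.sum_nonneg fun _ _ => norm_nonneg _, fun z => ?_⟩
  unfold Dz
  rw [cv]
  refine (norm_sum_le _ _).trans (Finset.sum_le_sum fun p hp => ?_)
  obtain ⟨h1, h2⟩ := Nat.mem_divisorsAntidiagonal.1 hp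
  have h3 : p.1 ≠ 0 := fun h => h2 (by rw [← h1, h, zero_mul])
  rw [norm_mul, norm_cpow_I _ h3, one_mul]

/-- the coefficients as an average -/
theorem divs_eq (h : Cut φ κ c₀ C₀) (T α y : ℝ) (c : ℕ → ℂ) (n : ℕ) :
    ∑ r ∈ n.divisors, cv (fun k => af φ T k * (k : ℂ) ^ (((y / Real.log T : ℝ) : ℂ) * I)) (fun h => c h * (h : ℂ) ^ (α * I)) r =
      ∫ v : ℝ, (κ v : ℂ) * Dz (Real.log T) α c n (v + y) := by
  rw [sum_divisors_cv, cv_left_comm]
  unfold Dz
  obtain ⟨c1, hc1⟩ : ∃ c1 : ℕ → ℂ, c1 = cv (fun _ => 1) (fun h => c h * (h : ℂ) ^ (α * I)) := ⟨_, rfl⟩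
  rw [← hc1]
  obtain ⟨L, hL⟩ : ∃ L : ℝ, L = Real.log T := ⟨_, rfl⟩
  rw [← hL]
  unfold cv
  simp only [Finset.mul_sum]
  have hint : ∀ u : ℝ, Integrable fun v : ℝ => (κ v : ℂ) * cexp (I * (u * v : ℝ)) := by
    intro u
    refine h.int_abs.mono' ?_ (Eventually.of_forall fun v => ?_)
    · have := h.cont
      exact (by fun_prop : Continuous _).aestronglyMeasurable
    · rw [norm_mul, Pool.Agent.Q210.UM.norm_exp, mul_one, Complex.norm_real, Real.norm_eq_abs]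
  have hterm : ∀ p ∈ n.divisorsAntidiagonal, ∀ v : ℝ, (κ v : ℂ) * (((p.1 : ℕ) : ℂ) ^ ((((v + y) / L : ℝ) : ℂ) * I) * c1 p.2) =
      (((p.1 : ℕ) : ℂ) ^ (((y / L : ℝ) : ℂ) * I) * c1 p.2) * ((κ v : ℂ) * cexp (I * (Real.log p.1 / L * v : ℝ))) := by
    intro p hp v
    obtain ⟨h1, h2⟩ := Nat.mem_divisorsAntidiagonal.1 hp
    have h3 : p.1 ≠ 0 := fun h => h2 (by rw [← h1, h, zero_mul])
    have h4 : (p.1 : ℂ) ≠ 0 := by exact_mod_cast h3
    have h5 : ((p.1 : ℕ) : ℂ) ^ ((((v + y) / L : ℝ) : ℂ) * I) =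
        ((p.1 : ℕ) : ℂ) ^ (((y / L : ℝ) : ℂ) * I) * cexp (I * (Real.log p.1 / L * v : ℝ)) := by
      rw [Complex.cpow_def_of_ne_zero h4, Complex.cpow_def_of_ne_zero h4, ← Complex.exp_add]
      congr 1
      rw [← Complex.natCast_log]
      push_cast
      ring
    rw [h5]
    ring
  rw [integral_finset_sum _ fun p hp => by
    have e : (fun v : ℝ => (κ v : ℂ) * (((p.1 : ℕ) : ℂ) ^ ((((v + y) / L : ℝ) : ℂ) * I) * c1 p.2)) = fun v : ℝ =>
      (((p.1 : ℕ) : ℂ) ^ (((y / L : ℝ) : ℂ) * I) * c1 p.2) * ((κ v : ℂ) * cexp (I * (Real.log p.1 / L * v : ℝ))) :=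
      funext fun v => hterm p hp v
    rw [e]
    exact (hint _).const_mul _]
  refine Finset.sum_congr rfl fun p hp => ?_
  rw [integral_congr_ae (Eventually.of_forall fun v => hterm p hp v), integral_const_mul, ← h.rep]
  unfold af
  rw [← hL]
  ring

theorem rpow_sub_add (a : ℝ) (ha : 0 ≤ a) (v y : ℝ) :
    Real.exp (a * (1 + |v + y|) ^ (3 / 5 : ℝ)) ≤ Real.exp (a * |y| ^ (3 / 5 : ℝ)) * Real.exp (a * (1 + |v|) ^ (3 / 5 : ℝ)) := by
  rw [← Real.exp_add, ← mul_add]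
  apply Real.exp_le_exp.2
  apply mul_le_mul_of_nonneg_left _ ha
  have h1 : (1 + |v + y|) ^ (3 / 5 : ℝ) ≤ (|y| + (1 + |v|)) ^ (3 / 5 : ℝ) := by
    apply Real.rpow_le_rpow (by positivity) _ (by norm_num)
    have := abs_add_le v y
    linarith
  exact h1.trans (Real.rpow_add_le_add_rpow (abs_nonneg _) (by positivity) (by norm_num) (by norm_num))

/-- the integral which appears in the bounds -/
def Iy (κ : ℝ → ℝ) (a y : ℝ) : ℝ := ∫ v : ℝ, |κ v| * Real.exp (a * (1 + |v + y|) ^ (3 / 5 : ℝ))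

theorem Iy_int (h : Cut φ κ c₀ C₀) (a : ℝ) (ha : 0 ≤ a) (y : ℝ) :
    Integrable fun v : ℝ => |κ v| * Real.exp (a * (1 + |v + y|) ^ (3 / 5 : ℝ)) := by
  have h0 := h.int_w a ha 0 (by norm_num)
  refine (h0.const_mul (Real.exp (a * |y| ^ (3 / 5 : ℝ)))).mono' ?_ (Eventually.of_forall fun v => ?_)
  · have h2 : Continuous fun v : ℝ => (1 + |v + y|) ^ (3 / 5 : ℝ) :=
      (continuous_const.add ((continuous_id.add continuous_const).abs)).rpow_const fun _ => Or.inr (by norm_num)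
    have h3 := h.cont
    exact (by fun_prop : Continuous _).aestronglyMeasurable
  · rw [Real.norm_of_nonneg (by positivity)]
    have h1 := mul_le_mul_of_nonneg_left (rpow_sub_add a ha v y) (abs_nonneg (κ v))
    refine h1.trans (le_of_eq ?_)
    ring

theorem Iy_nonneg (κ : ℝ → ℝ) (a y : ℝ) : 0 ≤ Iy κ a y := integral_nonneg fun v => by positivity

theorem Iy_le (h : Cut φ κ c₀ C₀) (a : ℝ) (ha : 0 ≤ a) (y : ℝ) :
    Iy κ a y ≤ Real.exp (a * |y| ^ (3 / 5 : ℝ)) * Iy κ a 0 := by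
  unfold Iy
  rw [← integral_const_mul]
  refine integral_mono (Iy_int h a ha y) ((Iy_int h a ha 0).const_mul _) fun v => ?_
  simp only [add_zero]
  have h1 := mul_le_mul_of_nonneg_left (rpow_sub_add a ha v y) (abs_nonneg (κ v))
  refine h1.trans (le_of_eq ?_)
  ring

/-- Mertens between `T^δ` and `T^(101/200)` -/
theorem rough_sum (δ : ℝ) (hδ : 0 < δ) (hδ1 : δ ≤ 1 / 2) : ∃ C : ℝ, 0 ≤ C ∧ ∀ᶠ T : ℝ in atTop,
    ∑ p ∈ (Finset.Ico (⌊T ^ δ⌋₊ + 1) (⌊T ^ (101 / 200 : ℝ)⌋₊ + 1)).filter Nat.Prime, 1 / (p : ℝ) ≤ C := by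
  obtain ⟨C, hC⟩ := Pool.Agent.Erdos456.Mert.mertens_inv
  have hC0 : 0 ≤ C := (abs_nonneg _).trans (hC 3 le_rfl)
  refine ⟨2 * C + Real.log (2 / δ), add_nonneg (by positivity) (Real.log_nonneg (by
    rw [le_div_iff₀ hδ]; linarith)), ?_⟩
  have e1 : ∀ᶠ T : ℝ in atTop, 4 ≤ T ^ (δ / 2) := (tendsto_rpow_atTop (by positivity)).eventually_ge_atTop 4
  filter_upwards [e1, eventually_ge_atTop (1 : ℝ), Real.tendsto_log_atTop.eventually_ge_atTop 1] with T h1 hT1 hL1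
  have hT0 : 0 < T := by linarith
  have hPlow : T ^ (δ / 2) ≤ ⌊T ^ δ⌋₊ := by
    have h2 : T ^ δ = T ^ (δ / 2) * T ^ (δ / 2) := by
      rw [← Real.rpow_add hT0]
      congr 1
      ring
    have h3 : T ^ δ < ⌊T ^ δ⌋₊ + 1 := Nat.lt_floor_add_one _
    nlinarith
  have hPle : ⌊T ^ δ⌋₊ ≤ ⌊T ^ (101 / 200 : ℝ)⌋₊ :=
    Nat.floor_le_floor (Real.rpow_le_rpow_of_exponent_le hT1 (by linarith))
  obtain ⟨P, hP⟩ : ∃ P : ℕ, P = ⌊T ^ δ⌋₊ := ⟨_, rfl⟩
  obtain ⟨K, hK⟩ : ∃ K : ℕ, K = ⌊T ^ (101 / 200 : ℝ)⌋₊ := ⟨_, rfl⟩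
  rw [← hP] at hPlow hPle ⊢
  rw [← hK] at hPle ⊢
  have hP4 : (4 : ℝ) ≤ P := h1.trans hPlow
  have hP3 : 3 ≤ P := by
    have : (3 : ℝ) ≤ P := by linarith
    exact_mod_cast this
  have m1 := hC P hP3
  have m2 := hC K (hP3.trans hPle)
  have hsplit : ∑ p ∈ (Finset.Ico (P + 1) (K + 1)).filter Nat.Prime, 1 / (p : ℝ) =
      (∑ p ∈ (Finset.Icc 1 K).filter Nat.Prime, (1 : ℝ) / p) - ∑ p ∈ (Finset.Icc 1 P).filter Nat.Prime, (1 : ℝ) / p := by
    have e : (Finset.Icc 1 K).filter Nat.Prime = (Finset.Icc 1 P).filter Nat.Prime ∪ (Finset.Ico (P + 1) (K + 1)).filter Nat.Prime := by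
      ext q
      simp only [Finset.mem_filter, Finset.mem_Icc, Finset.mem_union, Finset.mem_Ico]
      constructor
      · rintro ⟨⟨a1, a2⟩, a3⟩
        rcases Nat.lt_or_ge P q with a4 | a4
        · exact Or.inr ⟨⟨by omega, by omega⟩, a3⟩
        · exact Or.inl ⟨⟨a1, a4⟩, a3⟩
      · rintro (⟨⟨a1, a2⟩, a3⟩ | ⟨⟨a1, a2⟩, a3⟩)
        · exact ⟨⟨a1, by omega⟩, a3⟩
        · exact ⟨⟨by omega, by omega⟩, a3⟩
    have hdis : Disjoint ((Finset.Icc 1 P).filter Nat.Prime) ((Finset.Ico (P + 1) (K + 1)).filter Nat.Prime) := by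
      rw [Finset.disjoint_left]
      intro q h2 h3
      simp only [Finset.mem_filter, Finset.mem_Icc, Finset.mem_Ico] at h2 h3
      omega
    rw [e, Finset.sum_union hdis]
    ring
  rw [hsplit]
  have l1 : Real.log (Real.log K) ≤ Real.log (Real.log T) := by
    apply Real.log_le_log
    · apply Real.log_pos
      have : (P : ℝ) ≤ K := by exact_mod_cast hPle
      linarith
    · apply Real.log_le_log
      · have : (P : ℝ) ≤ K := by exact_mod_cast hPle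
        linarith
      · rw [hK]
        refine (Nat.floor_le (by positivity)).trans ?_
        calc T ^ (101 / 200 : ℝ) ≤ T ^ (1 : ℝ) := Real.rpow_le_rpow_of_exponent_le hT1 (by norm_num)
          _ = T := Real.rpow_one T
  have l2 : Real.log (Real.log T) - Real.log (2 / δ) ≤ Real.log (Real.log P) := by
    rw [← Real.log_div (by linarith) (by positivity)]
    apply Real.log_le_log (by positivity)
    have h2 : Real.log (T ^ (δ / 2)) ≤ Real.log P := Real.log_le_log (by positivity) hPlow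
    rw [Real.log_rpow hT0] at h2
    refine le_trans (le_of_eq ?_) h2
    field_simp
  have m1' := (abs_le.1 m1).1
  have m2' := (abs_le.1 m2).2
  linarith

/-- the bound for the gcd form -/
theorem qf_bound (h : Cut φ κ c₀ C₀) (δ : ℝ) (hδ : 0 < δ) (hδ1 : δ ≤ 1 / 2) : ∃ K : ℝ, 0 ≤ K ∧ ∀ᶠ T : ℝ in atTop,
    ∀ (α : ℝ) (M : ℕ) (c : ℕ → ℂ), (∀ n, c n ≠ 0 → 1 ≤ n ∧ n ≤ M ∧ n ∈ Nat.smoothNumbers (⌊T ^ δ⌋₊ + 1)) →
    ∀ a S : ℝ, 0 ≤ a → (∀ w : ℝ, MB (fun t => ‖cexp (PA ⌊T ^ δ⌋₊ (ua α) (ua (2 * α)) t)‖ ^ 2 *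
      ‖cexp (PA ⌊T ^ δ⌋₊ (ua (α + w / Real.log T)) (ua (2 * (α + w / Real.log T))) t)‖ ^ 2 * ‖dp M c t‖ ^ 2)
      (Real.exp (a * (1 + |w|) ^ (3 / 5 : ℝ)) * S)) → ∀ y : ℝ,
    Real.log T * (QF (⌊T ^ (101 / 200 : ℝ)⌋₊ * M) (cv (fun k => af φ T k * (k : ℂ) ^ (((y / Real.log T : ℝ) : ℂ) * I))
      (fun h => c h * (h : ℂ) ^ (α * I)))).re ≤ K * Iy κ a y * S := by
  obtain ⟨K₁, hK₁, hcore⟩ := core_fin2 Pool.Agent.Q84.UM.t_DPM Pool.Agent.Q84.UM.t_MVL
  obtain ⟨D, hD1, hD⟩ := Pool.Agent.Q178.UM.PR.mert_prod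
  obtain ⟨CR, hCR, hrough⟩ := rough_sum δ hδ hδ1
  obtain ⟨J, hJ⟩ : ∃ J : ℝ, J = ∫ v : ℝ, |κ v| := ⟨_, rfl⟩
  have hJ0 : 0 ≤ J := by
    rw [hJ]
    exact integral_nonneg fun v => abs_nonneg _
  refine ⟨2 * D * (J * (Real.exp (22 * CR) * K₁)), by positivity, ?_⟩
  filter_upwards [hrough, eventually_ge_atTop (16 : ℝ), Real.tendsto_log_atTop.eventually_ge_atTop 1] with T hR hT16 hL1
  intro α M c hc a S ha hS y
  have hT0 : 0 < T := by linarith
  have hT1 : 1 ≤ T := by linarith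
  have hL0 : 0 < Real.log T := by linarith
  obtain ⟨P, hP⟩ : ∃ P : ℕ, P = ⌊T ^ δ⌋₊ := ⟨_, rfl⟩
  obtain ⟨K, hK⟩ : ∃ K : ℕ, K = ⌊T ^ (101 / 200 : ℝ)⌋₊ := ⟨_, rfl⟩
  have hPle : P ≤ K := by
    rw [hP, hK]
    exact Nat.floor_le_floor (Real.rpow_le_rpow_of_exponent_le hT1 (by linarith))
  rw [← hP] at hc hR hS
  rw [← hK] at hR ⊢
  have hS0 : 0 ≤ S := by
    have h1 := Pool.Agent.Q176.UM.MB.nonneg (fun t => by positivity) (hS 0)
    exact nonneg_of_mul_nonneg_right h1 (Real.exp_pos _)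
  obtain ⟨g, hg⟩ : ∃ g : ℕ → ℂ, g = cv (fun k => af φ T k * (k : ℂ) ^ (((y / Real.log T : ℝ) : ℂ) * I))
      (fun h => c h * (h : ℂ) ^ (α * I)) := ⟨_, rfl⟩
  rw [← hg]
  -- the support
  have hgs : ∀ n, g n ≠ 0 → 1 ≤ n ∧ n ≤ K * M ∧ n ∈ Nat.smoothNumbers (K + 1) := by
    intro n hn
    rw [hg] at hn
    obtain ⟨k, l, hkl, hn0, hk, hl⟩ := cv_supp hn
    have hk0 : k ≠ 0 := fun h0 => hn0 (by rw [← hkl, h0, zero_mul])
    have hφk : φ (Real.log k / Real.log T) ≠ 0 := by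
      intro h0
      apply hk
      unfold af
      rw [h0]
      simp
    have hklt : k ≤ K := by
      by_contra hcon
      apply hφk
      apply h.zero
      have h1 : T ^ (101 / 200 : ℝ) < k := by
        rw [hK] at hcon
        exact (Nat.floor_lt (by positivity)).1 (not_le.1 hcon)
      have h2 : 101 / 200 * Real.log T ≤ Real.log k := by
        rw [← Real.log_rpow hT0]
        exact Real.log_le_log (by positivity) h1.le
      have h3 : 101 / 200 ≤ Real.log k / Real.log T := by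
        rw [le_div_iff₀ hL0]
        exact h2
      exact h3.trans (le_abs_self _)
    have hcl : c l ≠ 0 := left_ne_zero_of_mul hl
    obtain ⟨l1, l2, l3⟩ := hc l hcl
    refine ⟨Nat.pos_of_ne_zero hn0, ?_, ?_⟩
    · rw [← hkl]
      exact Nat.mul_le_mul hklt l2
    · rw [← hkl]
      exact Nat.mul_mem_smoothNumbers (Nat.mem_smoothNumbers_of_lt (Nat.pos_of_ne_zero hk0) (by omega))
        (Nat.smoothNumbers_mono (by omega) l3)
  have hE := (Pool.Agent.Q153.UM.t_EXP (K + 1) (K * M) g hgs).1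
  have hPr0 : 0 ≤ ∏ p ∈ (K + 1).primesBelow, (1 - 1 / (p : ℝ)) := by
    refine Finset.prod_nonneg fun p hp => ?_
    have hp1 : (1 : ℝ) ≤ p := by exact_mod_cast (Nat.prime_of_mem_primesBelow hp).one_le
    rw [sub_nonneg, div_le_one (by linarith)]
    exact hp1
  -- the bound for the finite sums, for each frequency
  have hz : ∀ z : ℝ, ∀ F : Finset ℕ, (∀ n ∈ F, n ∈ (K + 1).smoothNumbers) →
      ∑ n ∈ F, ‖Dz (Real.log T) α c n z‖ ^ 2 / n ≤
        Real.exp (22 * CR) * (K₁ * (Real.exp (a * (1 + |z|) ^ (3 / 5 : ℝ)) * S)) := by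
    intro z F hF
    have h1 : ∀ n ∈ F, ‖Dz (Real.log T) α c n z‖ ^ 2 / (n : ℝ) =
        ‖cv (ua α) (cv (ua (α - z / Real.log T)) c) n‖ ^ 2 / n := fun n hn => by
      rw [Dz_norm _ _ _ (Nat.ne_zero_of_mem_smoothNumbers (hF n hn))]
    rw [Finset.sum_congr rfl h1]
    have h2 := hS (-z)
    have e1 : α + -z / Real.log T = α - z / Real.log T := by ring
    rw [e1, abs_neg] at h2
    have h3 := smooth_ind (fun n => cv (ua α) (cv (ua (α - z / Real.log T)) c) n) P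
      (K₁ * (Real.exp (a * (1 + |z|) ^ (3 / 5 : ℝ)) * S))
      (fun F hF => hcore P α (α - z / Real.log T) M c (fun n hn => ⟨(hc n hn).1, (hc n hn).2.1⟩) _ h2 F hF)
      (fun p k m hp hPp hm hpm => E_step P α (α - z / Real.log T) c (fun n hn => (hc n hn).2.2) p k m hp hPp hm hpm)
      (K + 1) (by omega) F hF
    refine h3.trans ?_
    apply mul_le_mul_of_nonneg_right _ (by positivity)
    exact Real.exp_le_exp.2 (by linarith)
  -- the sums with the average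
  have hfin : ∀ F : Finset ℕ, (∀ n ∈ F, n ∈ (K + 1).smoothNumbers) →
      ∑ n ∈ F, ‖∑ r ∈ n.divisors, g r‖ ^ 2 / (n : ℝ) ≤ J * (Real.exp (22 * CR) * K₁) * Iy κ a y * S := by
    intro F hF
    have hDi : ∀ n, Integrable fun v : ℝ => ‖(κ v : ℂ)‖ * ‖Dz (Real.log T) α c n (v + y)‖ := by
      intro n
      obtain ⟨B, hB0, hB⟩ := Dz_bdd (Real.log T) α c n
      refine (h.int_abs.mul_const B).mono' ?_ (Eventually.of_forall fun v => ?_)
      · have h1 := h.cont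
        have h2 := (Dz_cont (Real.log T) α c n).comp (continuous_id.add continuous_const : Continuous fun v : ℝ => v + y)
        exact ((Complex.continuous_ofReal.comp h1).norm.mul h2.norm).aestronglyMeasurable
      · rw [Real.norm_of_nonneg (by positivity), Complex.norm_real, Real.norm_eq_abs]
        exact mul_le_mul_of_nonneg_left (hB _) (abs_nonneg _)
    have hDi2 : ∀ n, Integrable fun v : ℝ => ‖(κ v : ℂ)‖ * ‖Dz (Real.log T) α c n (v + y)‖ ^ 2 := by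
      intro n
      obtain ⟨B, hB0, hB⟩ := Dz_bdd (Real.log T) α c n
      refine (h.int_abs.mul_const (B ^ 2)).mono' ?_ (Eventually.of_forall fun v => ?_)
      · have h1 := h.cont
        have h2 := (Dz_cont (Real.log T) α c n).comp (continuous_id.add continuous_const : Continuous fun v : ℝ => v + y)
        exact ((Complex.continuous_ofReal.comp h1).norm.mul (h2.norm.pow 2)).aestronglyMeasurable
      · rw [Real.norm_of_nonneg (by positivity), Complex.norm_real, Real.norm_eq_abs]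
        exact mul_le_mul_of_nonneg_left (pow_le_pow_left₀ (norm_nonneg _) (hB _) 2) (abs_nonneg _)
    have hκi : Integrable fun v : ℝ => (κ v : ℂ) := by
      refine h.int_abs.mono' (Complex.continuous_ofReal.comp h.cont).aestronglyMeasurable (Eventually.of_forall fun v => ?_)
      rw [Complex.norm_real, Real.norm_eq_abs]
    have h1 : ∀ n ∈ F, ‖∑ r ∈ n.divisors, g r‖ ^ 2 / (n : ℝ) ≤
        J * ∫ v : ℝ, ‖(κ v : ℂ)‖ * (‖Dz (Real.log T) α c n (v + y)‖ ^ 2 / n) := by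
      intro n hn
      rw [hg, divs_eq h T α y c n]
      have h2 := cs_w hκi (hDi n) (hDi2 n)
      have h3 : ∫ v : ℝ, ‖(κ v : ℂ)‖ = J := by
        rw [hJ]
        simp only [Complex.norm_real, Real.norm_eq_abs]
      rw [h3] at h2
      have h4 : ∫ v : ℝ, ‖(κ v : ℂ)‖ * (‖Dz (Real.log T) α c n (v + y)‖ ^ 2 / n) =
          (∫ v : ℝ, ‖(κ v : ℂ)‖ * ‖Dz (Real.log T) α c n (v + y)‖ ^ 2) / n := by
        rw [← integral_div]
        refine integral_congr_ae (Eventually.of_forall fun v => ?_)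
        simp only
        ring
      rw [h4, ← mul_div_assoc]
      exact div_le_div_of_nonneg_right h2 (Nat.cast_nonneg _)
    refine (Finset.sum_le_sum h1).trans ?_
    rw [← Finset.mul_sum, ← integral_finset_sum _ fun n _ => by
      have h5 := (hDi2 n).div_const (n : ℝ)
      refine h5.congr (Eventually.of_forall fun v => ?_)
      simp only
      ring]
    have h6 : ∫ v : ℝ, ∑ n ∈ F, ‖(κ v : ℂ)‖ * (‖Dz (Real.log T) α c n (v + y)‖ ^ 2 / (n : ℝ)) ≤
        ∫ v : ℝ, Real.exp (22 * CR) * K₁ * S * (|κ v| * Real.exp (a * (1 + |v + y|) ^ (3 / 5 : ℝ))) := by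
      refine integral_mono ?_ ((Iy_int h a ha y).const_mul _) fun v => ?_
      · refine integrable_finset_sum _ fun n _ => ?_
        have h5 := (hDi2 n).div_const (n : ℝ)
        refine h5.congr (Eventually.of_forall fun v => ?_)
        simp only
        ring
      · simp only
        rw [← Finset.mul_sum, Complex.norm_real, Real.norm_eq_abs]
        have h7 := mul_le_mul_of_nonneg_left (hz (v + y) F hF) (abs_nonneg (κ v))
        refine h7.trans (le_of_eq ?_)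
        ring
    rw [integral_const_mul] at h6
    have h8 := mul_le_mul_of_nonneg_left h6 hJ0
    refine h8.trans (le_of_eq ?_)
    unfold Iy
    ring
  have hQ1 : (QF (K * M) g).re ≤ (∏ p ∈ (K + 1).primesBelow, (1 - 1 / (p : ℝ))) *
      (J * (Real.exp (22 * CR) * K₁) * Iy κ a y * S) := by
    refine hasSum_le_of_sum_le hE fun s => ?_
    rw [← Finset.mul_sum]
    refine mul_le_mul_of_nonneg_left ?_ hPr0
    have h1 := hfin (s.map (Function.Embedding.subtype _)) (by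
      intro n hn
      rw [Finset.mem_map] at hn
      obtain ⟨m, _, rfl⟩ := hn
      exact m.2)
    rw [Finset.sum_map] at h1
    exact h1
  have hK2 : 2 ≤ K + 1 := by
    have h1 : (1 : ℝ) ≤ T ^ (101 / 200 : ℝ) := Real.one_le_rpow hT1 (by norm_num)
    have h2 : 1 ≤ K := by
      rw [hK, Nat.one_le_floor_iff]
      exact h1
    omega
  have hlogK : 101 / 200 * Real.log T ≤ Real.log ((K + 1 : ℕ) : ℝ) := by
    rw [← Real.log_rpow hT0]
    apply Real.log_le_log (by positivity)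
    push_cast
    rw [hK]
    exact (Nat.lt_floor_add_one _).le
  have hprod : Real.log T * ∏ p ∈ (K + 1).primesBelow, (1 - 1 / (p : ℝ)) ≤ 2 * D := by
    have h1 := hD (K + 1) hK2
    calc Real.log T * ∏ p ∈ (K + 1).primesBelow, (1 - 1 / (p : ℝ)) ≤ Real.log T * (D / Real.log ((K + 1 : ℕ) : ℝ)) :=
          mul_le_mul_of_nonneg_left h1 hL0.le
      _ ≤ Real.log T * (D / (101 / 200 * Real.log T)) := by
          apply mul_le_mul_of_nonneg_left _ hL0.le
          exact div_le_div_of_nonneg_left (by linarith) (by positivity) hlogK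
      _ = 200 / 101 * D := by field_simp
      _ ≤ 2 * D := by linarith
  have hI0 := Iy_nonneg κ a y
  have hB0 : 0 ≤ J * (Real.exp (22 * CR) * K₁) * Iy κ a y * S := by positivity
  calc Real.log T * (QF (K * M) g).re ≤ Real.log T * ((∏ p ∈ (K + 1).primesBelow, (1 - 1 / (p : ℝ))) *
      (J * (Real.exp (22 * CR) * K₁) * Iy κ a y * S)) := mul_le_mul_of_nonneg_left hQ1 hL0.le
    _ = (Real.log T * ∏ p ∈ (K + 1).primesBelow, (1 - 1 / (p : ℝ))) * (J * (Real.exp (22 * CR) * K₁) * Iy κ a y * S) := by ring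
    _ ≤ 2 * D * (J * (Real.exp (22 * CR) * K₁) * Iy κ a y * S) := mul_le_mul_of_nonneg_right hprod hB0
    _ = _ := by ring

end

end Pool.Agent.H469.F4
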