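import Pool.Agent.H469.F4.Q4
import Pool.Agent.H469.F4.Q7

set_option autoImplicit false

/-!
# Maxima over intervals of all lengths: the exponents
-/

namespace Pool.Agent.H469.F4

open Filter Topology MeasureTheory Complex Pool.Agent.Q97.UM

noncomputable section

/-- the exponent of the moment of order `β` over intervals of length `(log T)^θ` -/
def expF (β θ : ℝ) : ℝ :=
  if θ < 0 then (if β ≤ 2 then (1 + θ) * β - θ * (β ^ 2 / 4) else 1 + θ + β ^ 2 / 4)
  else (if β ≤ 2 * Real.sqrt (1 + θ) then β * Real.sqrt (1 + θ) else 1 + θ + β ^ 2 / 4)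

/-- the moment -/
def AM (β θ T : ℝ) : ℝ := T⁻¹ * ∫ t in T..(2 * T), MH (Real.log T ^ θ) 0 t ^ β

theorem AM_nonneg {β θ T : ℝ} (hT : 1 ≤ T) : 0 ≤ AM β θ T := by
  unfold AM
  have hL : 0 ≤ Real.log T := Real.log_nonneg hT
  exact mul_nonneg (by positivity) (intervalIntegral.integral_nonneg (by linarith) fun t _ => Real.rpow_nonneg (MH_nonneg (Real.rpow_nonneg hL _) _ _) _)

/-- **the exponents** -/
theorem expo_all {β θ : ℝ} (hβ0 : 0 < β) (hβ4 : β ≤ 4) (hθ1 : -1 ≤ θ) (hθ3 : θ < 3) :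
    Tendsto (fun T => Real.log (AM β θ T) / Real.log (Real.log T)) atTop (𝓝 (expF β θ)) := by
  have hup' : ∀ f : ℝ, (∃ C : ℝ, 0 < C ∧ ∀ᶠ T : ℝ in atTop, ∫ t in T..(2 * T), MH (Real.log T ^ θ) 0 t ^ β ≤ C * T * Real.log T ^ f) →
      ∃ C : ℝ, 0 < C ∧ ∀ᶠ T : ℝ in atTop, AM β θ T ≤ C * Real.log T ^ f := by
    rintro f ⟨C, hC, h⟩
    refine ⟨C, hC, ?_⟩
    filter_upwards [h, eventually_gt_atTop (0 : ℝ)] with T h hT
    unfold AM
    rw [inv_mul_le_iff₀ hT]
    calc _ ≤ _ := h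
      _ = _ := by ring
  have hlow' : ∀ f : ℝ, (∃ c : ℝ, 0 < c ∧ ∀ᶠ T : ℝ in atTop, c * T * Real.log T ^ f ≤ ∫ t in T..(2 * T), MH (Real.log T ^ θ) 0 t ^ β) →
      ∃ c : ℝ, 0 < c ∧ ∀ᶠ T : ℝ in atTop, c * Real.log T ^ f ≤ AM β θ T := by
    rintro f ⟨c, hc, h⟩
    refine ⟨c, hc, ?_⟩
    filter_upwards [h, eventually_gt_atTop (0 : ℝ)] with T h hT
    unfold AM
    rw [le_inv_mul_iff₀ hT]
    calc _ = _ := by ring
      _ ≤ _ := h
  -- a sharper bound suffices
  have hlow'' : ∀ f : ℝ, (∃ c : ℝ, 0 < c ∧ ∀ᶠ T : ℝ in atTop, c * T * Real.log T ^ f ≤ ∫ t in T..(2 * T), MH (Real.log T ^ θ) 0 t ^ β) →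
      ∀ η : ℝ, 0 < η → ∃ c : ℝ, 0 < c ∧ ∀ᶠ T : ℝ in atTop, c * Real.log T ^ (f - η) ≤ AM β θ T := by
    intro f h η hη
    obtain ⟨c, hc, h⟩ := hlow' f h
    refine ⟨c, hc, ?_⟩
    filter_upwards [h, Real.tendsto_log_atTop.eventually_ge_atTop 1] with T h hL
    refine le_trans ?_ h
    apply mul_le_mul_of_nonneg_left _ hc.le
    exact Real.rpow_le_rpow_of_exponent_le hL (by linarith)
  unfold expF
  split_ifs with h1 h2 h2
  · -- short intervals, frozen
    refine lim_of_bounds (hup' _ ?_) ?_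
    · obtain ⟨C, hC, h⟩ := meso_max_up hβ0 h2
      refine ⟨C, hC, ?_⟩
      filter_upwards [h, eventually_ge_atTop (16 : ℝ), Real.tendsto_log_atTop.eventually_ge_atTop 1] with T h hT16 hL1
      have hL0 : 0 < Real.log T := by linarith
      have e1 : Real.log T ^ θ * Real.log T = Real.log T ^ (1 + θ) := by
        rw [add_comm, Real.rpow_add hL0, Real.rpow_one]
      have h3 := h 0 (by rw [abs_zero]; positivity) (Real.log T ^ θ) (by rw [e1]; exact Real.one_le_rpow hL1 (by linarith))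
        (Real.rpow_le_one_of_one_le_of_nonpos hL1 h1.le)
      refine h3.trans (le_of_eq ?_)
      congr 1
      rw [e1, ← Real.rpow_mul hL0.le, ← Real.rpow_mul hL0.le, ← Real.rpow_add hL0]
      congr 1
      ring
    · intro η hη
      rcases hθ1.lt_or_eq with hθ | hθ
      · exact hlow' _ (meso_low hβ0 h2 hθ h1.le hη)
      · refine hlow'' _ ?_ η hη
        obtain ⟨c₁, C₁, hc₁, hC₁, h⟩ := one_pt hβ0.le hβ4
        refine ⟨c₁, hc₁, ?_⟩
        filter_upwards [h, eventually_ge_atTop (16 : ℝ), Real.tendsto_log_atTop.eventually_ge_atTop 1] with T h hT16 hL1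
        have hL0 : 0 < Real.log T := by linarith
        have e2 : (1 + θ) * β - θ * (β ^ 2 / 4) = β ^ 2 / 4 := by rw [← hθ]; ring
        rw [e2]
        refine (h 0 (by rw [abs_zero]; positivity)).1.trans ?_
        have hH0 : 0 ≤ Real.log T ^ θ := by positivity
        have hc1 : Continuous fun t => fz β (t + 0) := (fz_cont hβ0.le).comp (by fun_prop)
        have hMc : Continuous fun t => MH (Real.log T ^ θ) 0 t ^ β := (MH_cont _ 0).rpow_const fun _ => Or.inr hβ0.le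
        refine intervalIntegral.integral_mono_on (by linarith) (hc1.intervalIntegrable _ _) (hMc.intervalIntegrable _ _) fun t _ => ?_
        exact Real.rpow_le_rpow (norm_nonneg _) (le_MH ⟨le_rfl, by linarith⟩) hβ0.le
  · -- short intervals, high moments
    push Not at h2
    refine lim_of_bounds (hup' _ ?_) (hlow'' _ ?_)
    · obtain ⟨C, hC, h⟩ := expo_up (β := β) (β' := β) (θ := θ) hβ0 le_rfl hβ4 hθ1
      rw [div_self hβ0.ne', mul_one] at h
      exact ⟨C, hC, h⟩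
    · exact expo_low h2 hβ4 (by nlinarith)
  · -- long intervals, frozen
    push Not at h1
    obtain ⟨s, hs⟩ : ∃ s : ℝ, s = Real.sqrt (1 + θ) := ⟨_, rfl⟩
    have hs2 : s ^ 2 = 1 + θ := by rw [hs]; exact Real.sq_sqrt (by linarith)
    have hs1 : 1 ≤ s := by
      rw [hs]
      apply Real.le_sqrt_of_sq_le
      linarith
    refine lim_of_bounds (hup' _ ?_) ?_
    · rw [← hs] at h2 ⊢
      obtain ⟨C, hC, h⟩ := expo_up (β := β) (β' := 2 * s) (θ := θ) hβ0 h2 (by nlinarith) hθ1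
      have e1 : (1 + θ + (2 * s) ^ 2 / 4) * (β / (2 * s)) = β * s := by
        rw [← hs2]
        field_simp
        ring
      rw [e1] at h
      exact ⟨C, hC, h⟩
    · intro η hη
      exact hlow' _ (expo_frozen hβ0 h1 hθ3 h2 hη)
  · -- long intervals, high moments
    push Not at h1 h2
    obtain ⟨s, hs⟩ : ∃ s : ℝ, s = Real.sqrt (1 + θ) := ⟨_, rfl⟩
    have hs2 : s ^ 2 = 1 + θ := by rw [hs]; exact Real.sq_sqrt (by linarith)
    have hs1 : 1 ≤ s := by
      rw [hs]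
      apply Real.le_sqrt_of_sq_le
      linarith
    rw [← hs] at h2
    refine lim_of_bounds (hup' _ ?_) (hlow'' _ ?_)
    · obtain ⟨C, hC, h⟩ := expo_up (β := β) (β' := β) (θ := θ) hβ0 le_rfl hβ4 hθ1
      rw [div_self hβ0.ne', mul_one] at h
      exact ⟨C, hC, h⟩
    · exact expo_low (by linarith) hβ4 (by nlinarith)

/-- from limits to bounds -/
theorem bounds_of_lim {A : ℝ → ℝ} {f : ℝ} (h0 : ∀ᶠ T : ℝ in atTop, 0 < A T)
    (h : Tendsto (fun T => Real.log (A T) / Real.log (Real.log T)) atTop (𝓝 f)) {ε : ℝ} (hε : 0 < ε) :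
    ∀ᶠ T : ℝ in atTop, Real.log T ^ (f - ε) ≤ A T ∧ A T ≤ Real.log T ^ (f + ε) := by
  have hℓ : Tendsto (fun T : ℝ => Real.log (Real.log T)) atTop atTop := Real.tendsto_log_atTop.comp Real.tendsto_log_atTop
  filter_upwards [h0, h.eventually_const_lt (show f - ε < f by linarith), h.eventually_lt_const (show f < f + ε by linarith),
    hℓ.eventually_gt_atTop 0, Real.tendsto_log_atTop.eventually_gt_atTop 0] with T g0 g1 g2 g3 g4
  rw [lt_div_iff₀ g3] at g1
  rw [div_lt_iff₀ g3] at g2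
  constructor
  · rw [← Real.log_le_log_iff (by positivity) g0, Real.log_rpow g4]
    exact g1.le
  · rw [← Real.log_le_log_iff g0 (by positivity), Real.log_rpow g4]
    exact g2.le

theorem AM_pos {β θ : ℝ} (hβ0 : 0 < β) (hβ4 : β ≤ 4) : ∀ᶠ T : ℝ in atTop, 0 < AM β θ T := by
  obtain ⟨c₁, C₁, hc₁, hC₁, h⟩ := one_pt hβ0.le hβ4
  filter_upwards [h, eventually_ge_atTop (16 : ℝ), Real.tendsto_log_atTop.eventually_ge_atTop 1] with T h hT16 hL1
  have hL0 : 0 < Real.log T := by linarith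
  have hT0 : 0 < T := by linarith
  have h1 := (h 0 (by rw [abs_zero]; positivity)).1
  have hH0 : 0 ≤ Real.log T ^ θ := by positivity
  have hc1 : Continuous fun t => fz β (t + 0) := (fz_cont hβ0.le).comp (by fun_prop)
  have hMc : Continuous fun t => MH (Real.log T ^ θ) 0 t ^ β := (MH_cont _ 0).rpow_const fun _ => Or.inr hβ0.le
  have h2 : ∫ t in T..(2 * T), fz β (t + 0) ≤ ∫ t in T..(2 * T), MH (Real.log T ^ θ) 0 t ^ β := by
    refine intervalIntegral.integral_mono_on (by linarith) (hc1.intervalIntegrable _ _) (hMc.intervalIntegrable _ _) fun t _ => ?_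
    exact Real.rpow_le_rpow (norm_nonneg _) (le_MH ⟨le_rfl, by linarith⟩) hβ0.le
  have h3 : 0 < c₁ * T * Real.log T ^ (β ^ 2 / 4) := by positivity
  unfold AM
  have h4 : 0 < ∫ t in T..(2 * T), MH (Real.log T ^ θ) 0 t ^ β := by linarith
  positivity

end

end Pool.Agent.H469.F4
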