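import Pool.Agent.H469.F4.R1

set_option autoImplicit false

/-!
# Maxima over intervals of all lengths: large deviations
-/

namespace Pool.Agent.H469.F4

open Filter Topology MeasureTheory Complex Pool.Agent.Q97.UM

noncomputable section

/-- the measure of the set where the maximum is large -/
def PM (v θ T : ℝ) : ℝ := T⁻¹ * (volume {t : ℝ | t ∈ Set.Icc T (2 * T) ∧ Real.log T ^ v < MH (Real.log T ^ θ) 0 t}).toReal

/-- the indicator of the values above `a` -/
def above (X : ℝ → ℝ) (a t : ℝ) : ℝ := Set.indicator {t : ℝ | a < X t} (fun _ => (1 : ℝ)) t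

theorem above_of_lt {X : ℝ → ℝ} {a t : ℝ} (h : a < X t) : above X a t = 1 := by
  unfold above
  rw [Set.indicator_of_mem]
  exact h

theorem above_of_le {X : ℝ → ℝ} {a t : ℝ} (h : X t ≤ a) : above X a t = 0 := by
  unfold above
  rw [Set.indicator_of_notMem]
  exact not_lt.2 h

theorem above_nonneg (X : ℝ → ℝ) (a t : ℝ) : 0 ≤ above X a t := by
  rcases lt_or_ge a (X t) with h | h
  · rw [above_of_lt h]; exact zero_le_one
  · rw [above_of_le h]

theorem above_le_one (X : ℝ → ℝ) (a t : ℝ) : above X a t ≤ 1 := by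
  rcases lt_or_ge a (X t) with h | h
  · rw [above_of_lt h]
  · rw [above_of_le h]; exact zero_le_one

theorem above_meas {X : ℝ → ℝ} (hX : Continuous X) (a : ℝ) : MeasurableSet {t : ℝ | a < X t} :=
  (isOpen_lt continuous_const hX).measurableSet

theorem above_int {X : ℝ → ℝ} (hX : Continuous X) (a S T : ℝ) : IntervalIntegrable (above X a) volume S T := by
  have h1 : IntervalIntegrable (fun _ : ℝ => (1 : ℝ)) volume S T := continuous_const.intervalIntegrable _ _
  refine ⟨h1.1.indicator (above_meas hX a), h1.2.indicator (above_meas hX a)⟩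

theorem above_eq {X : ℝ → ℝ} (hX : Continuous X) (a : ℝ) {T : ℝ} (hT : 0 ≤ T) :
    ∫ t in T..(2 * T), above X a t = (volume {t : ℝ | t ∈ Set.Icc T (2 * T) ∧ a < X t}).toReal := by
  rw [intervalIntegral.integral_of_le (by linarith), ← integral_Icc_eq_integral_Ioc]
  unfold above
  rw [integral_indicator (above_meas hX a), setIntegral_const, smul_eq_mul, mul_one]
  unfold Measure.real
  rw [Measure.restrict_apply (above_meas hX a)]
  congr 2
  ext t
  constructor
  · rintro ⟨h1, h2⟩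
    exact ⟨h2, h1⟩
  · rintro ⟨h1, h2⟩
    exact ⟨h2, h1⟩

/-- the decomposition of a moment -/
theorem split_mom {X a b β η : ℝ} (hX : 0 ≤ X) (ha : 0 < a) (hab : a ≤ b) (hη : 0 < η) (hβη : η < β) (w : ℝ) (hw : a < X → w = 1) (hw0 : 0 ≤ w) :
    X ^ β ≤ a ^ η * X ^ (β - η) + b ^ (-η) * X ^ (β + η) + b ^ β * w := by
  have hb : 0 < b := by linarith
  have n1 : 0 ≤ a ^ η * X ^ (β - η) := by positivity
  have n2 : 0 ≤ b ^ (-η) * X ^ (β + η) := by positivity
  have n3 : 0 ≤ b ^ β * w := by positivity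
  rcases le_or_gt X a with h | h
  · have h1 : X ^ β = X ^ η * X ^ (β - η) := by
      rw [← Real.rpow_add' hX (by linarith)]
      congr 1
      ring
    have h2 : X ^ η * X ^ (β - η) ≤ a ^ η * X ^ (β - η) := mul_le_mul_of_nonneg_right (Real.rpow_le_rpow hX h hη.le) (Real.rpow_nonneg hX _)
    linarith
  · rcases le_or_gt X b with h' | h'
    · have h1 : X ^ β ≤ b ^ β := Real.rpow_le_rpow hX h' (by linarith)
      rw [hw h, mul_one] at *
      linarith
    · have hX0 : 0 < X := by linarith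
      have h1 : X ^ β = X ^ (-η) * X ^ (β + η) := by
        rw [← Real.rpow_add hX0]
        congr 1
        ring
      have h2 : X ^ (-η) * X ^ (β + η) ≤ b ^ (-η) * X ^ (β + η) :=
        mul_le_mul_of_nonneg_right (Real.rpow_le_rpow_of_nonpos hb h'.le (by linarith)) (Real.rpow_nonneg hX _)
      linarith

/-- Markov's inequality -/
theorem ld_up {θ β v ε : ℝ} (hβ0 : 0 < β) (hβ4 : β ≤ 4) (hθ1 : -1 ≤ θ) (hθ3 : θ < 3) (hε : 0 < ε) :
    ∀ᶠ T : ℝ in atTop, PM v θ T ≤ Real.log T ^ (expF β θ - β * v + ε) := by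
  filter_upwards [bounds_of_lim (AM_pos hβ0 hβ4) (expo_all hβ0 hβ4 hθ1 hθ3) hε, eventually_ge_atTop (16 : ℝ),
    Real.tendsto_log_atTop.eventually_ge_atTop 1] with T hb hT16 hL1
  have hT0 : 0 < T := by linarith
  have hL0 : 0 < Real.log T := by linarith
  have hH0 : 0 ≤ Real.log T ^ θ := by positivity
  have hXc : Continuous (MH (Real.log T ^ θ) 0) := MH_cont _ _
  have hMc : Continuous fun t => MH (Real.log T ^ θ) 0 t ^ β := hXc.rpow_const fun _ => Or.inr hβ0.le
  have h1 : PM v θ T = T⁻¹ * ∫ t in T..(2 * T), above (MH (Real.log T ^ θ) 0) (Real.log T ^ v) t := by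
    unfold PM
    rw [above_eq hXc _ hT0.le]
  have h2 : Real.log T ^ (β * v) * ∫ t in T..(2 * T), above (MH (Real.log T ^ θ) 0) (Real.log T ^ v) t ≤ ∫ t in T..(2 * T), MH (Real.log T ^ θ) 0 t ^ β := by
    rw [← intervalIntegral.integral_const_mul]
    refine intervalIntegral.integral_mono_on (by linarith) ((above_int hXc _ _ _).const_mul _) (hMc.intervalIntegrable _ _) fun t _ => ?_
    have hX0 := MH_nonneg hH0 0 t
    rcases lt_or_ge (Real.log T ^ v) (MH (Real.log T ^ θ) 0 t) with h | h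
    · rw [above_of_lt h, mul_one, mul_comm β v, Real.rpow_mul hL0.le]
      exact Real.rpow_le_rpow (by positivity) h.le hβ0.le
    · rw [above_of_le h, mul_zero]
      exact Real.rpow_nonneg hX0 _
  have h3 : Real.log T ^ (β * v) * PM v θ T ≤ AM β θ T := by
    rw [h1]
    unfold AM
    have := mul_le_mul_of_nonneg_left h2 (by positivity : 0 ≤ T⁻¹)
    linarith
  have h4 : Real.log T ^ (expF β θ - β * v + ε) = (Real.log T ^ (β * v))⁻¹ * Real.log T ^ (expF β θ + ε) := by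
    rw [← Real.rpow_neg hL0.le, ← Real.rpow_add hL0]
    congr 1
    ring
  rw [h4, le_inv_mul_iff₀ (by positivity)]
  exact h3.trans hb.2

/-- monotonicity -/
theorem PM_anti {θ v w T : ℝ} (hvw : v ≤ w) (hL : 1 ≤ Real.log T) (hT : 0 < T) : PM w θ T ≤ PM v θ T := by
  unfold PM
  apply mul_le_mul_of_nonneg_left _ (by positivity)
  apply ENNReal.toReal_mono
  · refine ((measure_mono (fun t ht => ht.1 : {t : ℝ | t ∈ Set.Icc T (2 * T) ∧ Real.log T ^ v < MH (Real.log T ^ θ) 0 t} ⊆ Set.Icc T (2 * T))).trans_lt ?_).ne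
    exact measure_Icc_lt_top
  · apply measure_mono
    rintro t ⟨h1, h2⟩
    exact ⟨h1, lt_of_le_of_lt (Real.rpow_le_rpow_of_exponent_le hL hvw) h2⟩

/-- **lower bound** -/
theorem ld_low {θ β v ρ ε : ℝ} (hθ1 : -1 ≤ θ) (hθ3 : θ < 3) (hρ : 0 < ρ) (hρβ : ρ < β) (hβρ : β + ρ ≤ 4)
    (hf : ∀ b, |b - β| ≤ ρ → expF b θ ≤ expF β θ + v * (b - β) + (b - β) ^ 2) (hε : 0 < ε) :
    ∀ᶠ T : ℝ in atTop, Real.log T ^ (expF β θ - β * v - ε) ≤ PM (v - ε) θ T := by
  have hβ0 : 0 < β := by linarith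
  obtain ⟨e, he⟩ : ∃ e : ℝ, e = min 1 (ε / (β + 2)) := ⟨_, rfl⟩
  have he0 : 0 < e := by rw [he]; exact lt_min one_pos (by positivity)
  have he1 : e ≤ 1 := by rw [he]; exact min_le_left _ _
  have heε : e * (β + 2) ≤ ε := by
    have h1 : e ≤ ε / (β + 2) := by rw [he]; exact min_le_right _ _
    rwa [le_div_iff₀ (by linarith)] at h1
  obtain ⟨η, hη⟩ : ∃ η : ℝ, η = min ρ (e / 2) := ⟨_, rfl⟩
  have hη0 : 0 < η := by rw [hη]; exact lt_min hρ (by linarith)
  have hηρ : η ≤ ρ := by rw [hη]; exact min_le_left _ _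
  have hηe : η ≤ e / 2 := by rw [hη]; exact min_le_right _ _
  obtain ⟨δ, hδ⟩ : ∃ δ : ℝ, δ = η * e / 8 := ⟨_, rfl⟩
  have hδ0 : 0 < δ := by rw [hδ]; positivity
  have b0 := bounds_of_lim (AM_pos hβ0 (by linarith)) (expo_all hβ0 (by linarith) hθ1 hθ3) hδ0
  have b1 := bounds_of_lim (AM_pos (θ := θ) (by linarith : 0 < β - η) (by linarith)) (expo_all (by linarith) (by linarith) hθ1 hθ3) hδ0
  have b2 := bounds_of_lim (AM_pos (θ := θ) (by linarith : 0 < β + η) (by linarith)) (expo_all (by linarith) (by linarith) hθ1 hθ3) hδ0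
  have f1 := hf (β - η) (by rw [show β - η - β = -η by ring, abs_neg, abs_of_pos hη0]; exact hηρ)
  have f2 := hf (β + η) (by rw [show β + η - β = η by ring, abs_of_pos hη0]; exact hηρ)
  have l1 : ∀ᶠ T : ℝ in atTop, (4 : ℝ) ≤ Real.log T ^ (2 * δ) :=
    ((tendsto_rpow_atTop (by linarith : 0 < 2 * δ)).comp Real.tendsto_log_atTop).eventually_ge_atTop _
  have hgap : 0 < ε - δ - β * e := by
    have : δ ≤ e := by rw [hδ]; nlinarith
    nlinarith
  have l2 : ∀ᶠ T : ℝ in atTop, (2 : ℝ) ≤ Real.log T ^ (ε - δ - β * e) :=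
    ((tendsto_rpow_atTop hgap).comp Real.tendsto_log_atTop).eventually_ge_atTop _
  filter_upwards [b0, b1, b2, l1, l2, eventually_ge_atTop (16 : ℝ), Real.tendsto_log_atTop.eventually_ge_atTop 1] with T b0 b1 b2 l1 l2 hT16 hL1
  have hT0 : 0 < T := by linarith
  obtain ⟨L, hL⟩ : ∃ L : ℝ, L = Real.log T := ⟨_, rfl⟩
  have hanti : PM (v - e) θ T ≤ PM (v - ε) θ T := PM_anti (by nlinarith) hL1 hT0
  refine le_trans ?_ hanti
  rw [← hL] at b0 b1 b2 l1 l2 hL1 ⊢
  have hL0 : 0 < L := by linarith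
  obtain ⟨X, hX⟩ : ∃ X : ℝ → ℝ, X = MH (L ^ θ) 0 := ⟨_, rfl⟩
  have hH0 : 0 ≤ L ^ θ := by positivity
  have hX0 : ∀ t, 0 ≤ X t := fun t => by rw [hX]; exact MH_nonneg hH0 0 t
  have hXc : Continuous X := by rw [hX]; exact MH_cont _ _
  have hAM : ∀ b, AM b θ T = T⁻¹ * ∫ t in T..(2 * T), X t ^ b := fun b => by
    unfold AM
    rw [hX, hL]
  have hXb : ∀ b : ℝ, 0 < b → Continuous fun t => X t ^ b := fun b hb => hXc.rpow_const fun _ => Or.inr hb.le
  obtain ⟨a, ha⟩ : ∃ a : ℝ, a = L ^ (v - e) := ⟨_, rfl⟩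
  obtain ⟨b, hb⟩ : ∃ b : ℝ, b = L ^ (v + e) := ⟨_, rfl⟩
  have ha0 : 0 < a := by rw [ha]; positivity
  have hb0 : 0 < b := by rw [hb]; positivity
  have hab : a ≤ b := by rw [ha, hb]; exact Real.rpow_le_rpow_of_exponent_le hL1 (by linarith)
  have hP : PM (v - e) θ T = T⁻¹ * ∫ t in T..(2 * T), above X a t := by
    unfold PM
    rw [above_eq hXc _ hT0.le, ← hL, ha, hX]
  -- the integral inequality
  have c1 : Continuous fun t => a ^ η * X t ^ (β - η) := continuous_const.mul (hXb _ (by linarith))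
  have c2 : Continuous fun t => b ^ (-η) * X t ^ (β + η) := continuous_const.mul (hXb _ (by linarith))
  have i1 : IntervalIntegrable (fun t => a ^ η * X t ^ (β - η)) volume T (2 * T) := c1.intervalIntegrable _ _
  have i2 : IntervalIntegrable (fun t => b ^ (-η) * X t ^ (β + η)) volume T (2 * T) := c2.intervalIntegrable _ _
  have i3 : IntervalIntegrable (fun t => b ^ β * above X a t) volume T (2 * T) := (above_int hXc a _ _).const_mul _
  have i12 : IntervalIntegrable (fun t => a ^ η * X t ^ (β - η) + b ^ (-η) * X t ^ (β + η)) volume T (2 * T) := i1.add i2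
  obtain ⟨I0, hI0⟩ : ∃ I : ℝ, I = ∫ t in T..(2 * T), X t ^ β := ⟨_, rfl⟩
  obtain ⟨I1, hI1⟩ : ∃ I : ℝ, I = ∫ t in T..(2 * T), X t ^ (β - η) := ⟨_, rfl⟩
  obtain ⟨I2, hI2⟩ : ∃ I : ℝ, I = ∫ t in T..(2 * T), X t ^ (β + η) := ⟨_, rfl⟩
  obtain ⟨I3, hI3⟩ : ∃ I : ℝ, I = ∫ t in T..(2 * T), above X a t := ⟨_, rfl⟩
  have hint : I0 ≤ a ^ η * I1 + b ^ (-η) * I2 + b ^ β * I3 := by
    have h1 := intervalIntegral.integral_mono_on (μ := volume) (by linarith : T ≤ 2 * T) ((hXb β hβ0).intervalIntegrable T (2 * T)) (i12.add i3) fun t _ =>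
      split_mom (hX0 t) ha0 hab hη0 (by linarith) (above X a t) (fun h => above_of_lt h) (above_nonneg X a t)
    rw [intervalIntegral.integral_add i12 i3, intervalIntegral.integral_add i1 i2, intervalIntegral.integral_const_mul,
      intervalIntegral.integral_const_mul, intervalIntegral.integral_const_mul, ← hI0, ← hI1, ← hI2, ← hI3] at h1
    exact h1
  rw [hAM, ← hI0] at b0
  rw [hAM, ← hI1] at b1
  rw [hAM, ← hI2] at b2
  rw [hP, ← hI3]
  -- the exponents
  have hint2 : T⁻¹ * I0 ≤ a ^ η * (T⁻¹ * I1) + b ^ (-η) * (T⁻¹ * I2) + b ^ β * (T⁻¹ * I3) := by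
    have := mul_le_mul_of_nonneg_left hint (by positivity : 0 ≤ T⁻¹)
    linarith
  obtain ⟨F, hF⟩ : ∃ F : ℝ, F = expF β θ := ⟨_, rfl⟩
  rw [← hF] at b0 f1 f2 ⊢
  have u1 : a ^ η * (T⁻¹ * I1) ≤ L ^ (F - 3 * δ) := by
    calc a ^ η * (T⁻¹ * I1) ≤ a ^ η * L ^ (expF (β - η) θ + δ) := mul_le_mul_of_nonneg_left b1.2 (by positivity)
      _ = L ^ ((v - e) * η + (expF (β - η) θ + δ)) := by rw [ha, ← Real.rpow_mul hL0.le, ← Real.rpow_add hL0]
      _ ≤ _ := by
          apply Real.rpow_le_rpow_of_exponent_le hL1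
          have h1 : η ^ 2 ≤ η * (e / 2) := by
            rw [sq]
            exact mul_le_mul_of_nonneg_left hηe hη0.le
          have h2 : (β - η - β) = -η := by ring
          rw [h2] at f1
          nlinarith
  have u2 : b ^ (-η) * (T⁻¹ * I2) ≤ L ^ (F - 3 * δ) := by
    calc b ^ (-η) * (T⁻¹ * I2) ≤ b ^ (-η) * L ^ (expF (β + η) θ + δ) := mul_le_mul_of_nonneg_left b2.2 (by positivity)
      _ = L ^ ((v + e) * (-η) + (expF (β + η) θ + δ)) := by rw [hb, ← Real.rpow_mul hL0.le, ← Real.rpow_add hL0]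
      _ ≤ _ := by
          apply Real.rpow_le_rpow_of_exponent_le hL1
          have h1 : η ^ 2 ≤ η * (e / 2) := by
            rw [sq]
            exact mul_le_mul_of_nonneg_left hηe hη0.le
          have h2 : (β + η - β) = η := by ring
          rw [h2] at f2
          nlinarith
  have u3 : 4 * L ^ (F - 3 * δ) ≤ L ^ (F - δ) := by
    calc 4 * L ^ (F - 3 * δ) ≤ L ^ (2 * δ) * L ^ (F - 3 * δ) := mul_le_mul_of_nonneg_right l1 (by positivity)
      _ = L ^ (F - δ) := by
          rw [← Real.rpow_add hL0]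
          congr 1
          ring
  have u4 : L ^ (F - δ) / 2 ≤ b ^ β * (T⁻¹ * I3) := by linarith [b0.1]
  have u5 : L ^ (F - β * v - ε) * b ^ β ≤ L ^ (F - δ) / 2 := by
    have h1 : L ^ (F - β * v - ε) * b ^ β * L ^ (ε - δ - β * e) = L ^ (F - δ) := by
      rw [hb, ← Real.rpow_mul hL0.le, ← Real.rpow_add hL0, ← Real.rpow_add hL0]
      congr 1
      ring
    have h2 : 0 < L ^ (F - β * v - ε) * b ^ β := by positivity
    have h3 : L ^ (F - β * v - ε) * b ^ β * 2 ≤ L ^ (F - δ) := by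
      rw [← h1]
      exact mul_le_mul_of_nonneg_left l2 h2.le
    linarith
  have u6 : L ^ (F - β * v - ε) * b ^ β ≤ (T⁻¹ * I3) * b ^ β := by linarith
  exact le_of_mul_le_mul_right u6 (by positivity)

end

end Pool.Agent.H469.F4
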