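import Pool.Agent.H469.F4.R2

set_option autoImplicit false

/-!
# Maxima over intervals of all lengths: the rate function
-/

namespace Pool.Agent.H469.F4

open Filter Topology MeasureTheory Complex Pool.Agent.Q97.UM

noncomputable section

/-- the rate -/
def rateF (v θ : ℝ) : ℝ :=
  if θ < 0 then (if v ≤ 1 + θ then 0 else if v ≤ 1 then (v - 1 - θ) ^ 2 / (-θ) else v ^ 2 - 1 - θ)
  else (if v ≤ Real.sqrt (1 + θ) then 0 else v ^ 2 - 1 - θ)

theorem lim_of_bounds' {A : ℝ → ℝ} {f : ℝ} (hup : ∀ η : ℝ, 0 < η → ∀ᶠ T : ℝ in atTop, A T ≤ Real.log T ^ (f + η))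
    (hlow : ∀ η : ℝ, 0 < η → ∀ᶠ T : ℝ in atTop, Real.log T ^ (f - η) ≤ A T) :
    Tendsto (fun T => Real.log (A T) / Real.log (Real.log T)) atTop (𝓝 f) := by
  rw [Metric.tendsto_atTop']
  intro ε hε
  have hℓ : Tendsto (fun T : ℝ => Real.log (Real.log T)) atTop atTop := Real.tendsto_log_atTop.comp Real.tendsto_log_atTop
  have hev := (hup (ε / 2) (by linarith)).and ((hlow (ε / 2) (by linarith)).and ((Real.tendsto_log_atTop.eventually_ge_atTop 1).and (hℓ.eventually_gt_atTop 0)))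
  obtain ⟨N, hN⟩ := eventually_atTop.1 hev
  refine ⟨N, fun T hT => ?_⟩
  obtain ⟨g1, g2, hL1, hℓ0⟩ := hN T hT.le
  have hL0 : 0 < Real.log T := by linarith
  obtain ⟨ℓ, hℓd⟩ : ∃ ℓ : ℝ, ℓ = Real.log (Real.log T) := ⟨_, rfl⟩
  rw [← hℓd] at hℓ0 ⊢
  have hA0 : 0 < A T := lt_of_lt_of_le (by positivity) g2
  have u1 : Real.log (A T) ≤ (f + ε / 2) * ℓ := by
    have := Real.log_le_log hA0 g1
    rwa [Real.log_rpow hL0, ← hℓd] at this
  have u2 : (f - ε / 2) * ℓ ≤ Real.log (A T) := by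
    have := Real.log_le_log (by positivity) g2
    rwa [Real.log_rpow hL0, ← hℓd] at this
  rw [Real.dist_eq, abs_lt]
  constructor
  · rw [lt_sub_iff_add_lt, lt_div_iff₀ hℓ0]
    nlinarith
  · rw [sub_lt_iff_lt_add, div_lt_iff₀ hℓ0]
    nlinarith

theorem PM_le_one {v θ T : ℝ} (hT : 0 < T) : PM v θ T ≤ 1 := by
  unfold PM
  have h1 : (volume {t : ℝ | t ∈ Set.Icc T (2 * T) ∧ Real.log T ^ v < MH (Real.log T ^ θ) 0 t}).toReal ≤ T := by
    have h2 : (volume {t : ℝ | t ∈ Set.Icc T (2 * T) ∧ Real.log T ^ v < MH (Real.log T ^ θ) 0 t}).toReal ≤ (volume (Set.Icc T (2 * T))).toReal :=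
      ENNReal.toReal_mono measure_Icc_lt_top.ne (measure_mono fun t ht => ht.1)
    rw [Real.volume_Icc, ENNReal.toReal_ofReal (by linarith)] at h2
    linarith
  rw [inv_mul_le_iff₀ hT, mul_one]
  exact h1

/-- above the last critical value -/
theorem low_high {θ u η : ℝ} (hθ1 : -1 ≤ θ) (hθ3 : θ < 3) (hu1 : 1 ≤ u) (hu2 : u < 2) (hu : θ < 0 ∨ Real.sqrt (1 + θ) ≤ u) (hη : 0 < η) :
    ∀ᶠ T : ℝ in atTop, Real.log T ^ (-(u ^ 2 - 1 - θ) - η) ≤ PM u θ T := by
  obtain ⟨ε, hε⟩ : ∃ ε : ℝ, ε = min (η / 6) ((2 - u) / 4) := ⟨_, rfl⟩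
  have hε0 : 0 < ε := by rw [hε]; exact lt_min (by linarith) (by linarith)
  have hε1 : ε ≤ η / 6 := by rw [hε]; exact min_le_left _ _
  have hε2 : ε ≤ (2 - u) / 4 := by rw [hε]; exact min_le_right _ _
  have hform : ∀ b : ℝ, 2 * u < b → expF b θ = 1 + θ + b ^ 2 / 4 := by
    intro b hb
    unfold expF
    split_ifs with h1 h2 h2
    · linarith
    · rfl
    · rcases hu with h | h
      · exact absurd h h1
      · linarith
    · rfl
  have h1 := ld_low (θ := θ) (β := 2 * (u + ε)) (v := u + ε) (ρ := ε) (ε := ε) hθ1 hθ3 hε0 (by linarith) (by linarith) (by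
    intro b hb
    have hb' := abs_le.1 hb
    rw [hform b (by linarith [hb'.1]), hform (2 * (u + ε)) (by linarith)]
    have := sq_nonneg (b - 2 * (u + ε))
    nlinarith) hε0
  filter_upwards [h1, Real.tendsto_log_atTop.eventually_ge_atTop 1] with T h1 hL1
  rw [hform (2 * (u + ε)) (by linarith), add_sub_cancel_right] at h1
  refine le_trans ?_ h1
  apply Real.rpow_le_rpow_of_exponent_le hL1
  nlinarith

/-- between the two critical values, short intervals -/
theorem low_mid {θ u η : ℝ} (hθ1 : -1 ≤ θ) (hθ0 : θ < 0) (hu1 : 1 + θ ≤ u) (hu2 : u < 1) (hη : 0 < η) :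
    ∀ᶠ T : ℝ in atTop, Real.log T ^ (-((u - 1 - θ) ^ 2 / (-θ)) - η) ≤ PM u θ T := by
  obtain ⟨k, hk⟩ : ∃ k : ℝ, k = -θ := ⟨_, rfl⟩
  have hk0 : 0 < k := by rw [hk]; linarith
  have hk1 : k ≤ 1 := by rw [hk]; linarith
  have hθk : θ = -k := by rw [hk]; ring
  obtain ⟨ε, hε⟩ : ∃ ε : ℝ, ε = min (min (η / 4) k) ((1 - u) / 2) := ⟨_, rfl⟩
  have hε0 : 0 < ε := by rw [hε]; exact lt_min (lt_min (by linarith) hk0) (by linarith)
  have hε1 : ε ≤ η / 4 := by rw [hε]; exact (min_le_left _ _).trans (min_le_left _ _)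
  have hεk : ε ≤ k := by rw [hε]; exact (min_le_left _ _).trans (min_le_right _ _)
  have hε2 : ε ≤ (1 - u) / 2 := by rw [hε]; exact min_le_right _ _
  obtain ⟨w, hw⟩ : ∃ w : ℝ, w = u - 1 - θ := ⟨_, rfl⟩
  have hw0 : 0 ≤ w := by rw [hw]; linarith
  have hwk : w ≤ k := by rw [hw, hk]; linarith
  obtain ⟨β, hβ⟩ : ∃ β : ℝ, β = 2 * (w + ε) / k := ⟨_, rfl⟩
  have hβk : β * k = 2 * (w + ε) := by rw [hβ]; field_simp
  have hβε : 2 * ε ≤ β := by
    rw [hβ, le_div_iff₀ hk0]
    nlinarith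
  have hβ2 : β + 2 * ε ≤ 2 := by
    have h1 : (2 - β) * k = 2 * (1 - u - ε) := by
      rw [sub_mul, hβk, hw, hθk]
      ring
    have h2 : 2 * ε ≤ 2 * (1 - u - ε) := by linarith
    have h3 : 0 ≤ 2 - β := by
      by_contra h
      have : (2 - β) * k < 0 := mul_neg_of_neg_of_pos (not_le.1 h) hk0
      linarith
    have h4 : (2 - β) * k ≤ 2 - β := mul_le_of_le_one_right h3 hk1
    linarith
  have hform : ∀ b : ℝ, b ≤ 2 → expF b θ = (1 - k) * b + k * (b ^ 2 / 4) := by
    intro b hb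
    unfold expF
    rw [if_pos hθ0, if_pos hb, hθk]
    ring
  have h1 := ld_low (θ := θ) (β := β) (v := u + ε) (ρ := ε) (ε := ε) hθ1 (by linarith) hε0 (by linarith) (by linarith) (by
    intro b hb
    have hb' := abs_le.1 hb
    rw [hform b (by linarith [hb'.2]), hform β (by linarith)]
    have h2 : u + ε = 1 - k + β * k / 2 := by
      rw [hβk, hw, hθk]
      ring
    rw [h2]
    have h3 := sq_nonneg (b - β)
    nlinarith) hε0
  filter_upwards [h1, Real.tendsto_log_atTop.eventually_ge_atTop 1] with T h1 hL1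
  rw [hform β (by linarith), add_sub_cancel_right] at h1
  refine le_trans ?_ h1
  apply Real.rpow_le_rpow_of_exponent_le hL1
  rw [← hw, ← hk]
  have h2 : (1 - k) * β + k * (β ^ 2 / 4) - β * (u + ε) = -((w + ε) ^ 2 / k) := by
    have h3 : u + ε = 1 - k + (w + ε) := by rw [hw, hθk]; ring
    rw [h3, hβ]
    field_simp
    ring
  rw [h2]
  have h4 : (w + ε) ^ 2 / k ≤ w ^ 2 / k + 3 * ε := by
    rw [div_add' _ _ _ hk0.ne', div_le_div_iff_of_pos_right hk0]
    nlinarith
  linarith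

/-- **large deviations** -/
theorem ld_all {v θ : ℝ} (hv2 : v < 2) (hθ1 : -1 ≤ θ) (hθ3 : θ < 3) :
    Tendsto (fun T => Real.log (PM v θ T) / Real.log (Real.log T)) atTop (𝓝 (-rateF v θ)) := by
  have hs0 : 0 ≤ 1 + θ := by linarith
  have htriv : ∀ η : ℝ, 0 < η → ∀ᶠ T : ℝ in atTop, PM v θ T ≤ Real.log T ^ (-(0 : ℝ) + η) := by
    intro η hη
    filter_upwards [eventually_gt_atTop (0 : ℝ), Real.tendsto_log_atTop.eventually_ge_atTop 1] with T hT hL1
    exact (PM_le_one hT).trans (Real.one_le_rpow hL1 (by linarith))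
  have hmono : ∀ (u R : ℝ), v ≤ u → (∀ η : ℝ, 0 < η → ∀ᶠ T : ℝ in atTop, Real.log T ^ (R - η) ≤ PM u θ T) →
      ∀ η : ℝ, 0 < η → ∀ᶠ T : ℝ in atTop, Real.log T ^ (R - η) ≤ PM v θ T := by
    intro u R hvu h η hη
    filter_upwards [h η hη, eventually_gt_atTop (0 : ℝ), Real.tendsto_log_atTop.eventually_ge_atTop 1] with T h hT hL1
    exact h.trans (PM_anti hvu hL1 hT)
  unfold rateF
  split_ifs with h1 h2 h3 h2
  · -- short intervals, below the typical value
    apply lim_of_bounds' htriv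
    apply hmono (1 + θ) _ h2
    intro η hη
    have h4 := low_mid (u := 1 + θ) hθ1 h1 le_rfl (by linarith) hη
    have e1 : -((1 + θ - 1 - θ) ^ 2 / (-θ)) - η = -(0 : ℝ) - η := by
      have : 1 + θ - 1 - θ = 0 := by ring
      rw [this]
      simp
    rw [e1] at h4
    exact h4
  · -- short intervals, between the two critical values
    push Not at h2
    apply lim_of_bounds'
    · intro η hη
      have hk0 : 0 < -θ := by linarith
      have hβ0 : 0 < 2 * (v - 1 - θ) / (-θ) := div_pos (by linarith) hk0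
      have hβ2 : 2 * (v - 1 - θ) / (-θ) ≤ 2 := by
        rw [div_le_iff₀ hk0]
        linarith
      have h4 := ld_up (v := v) hβ0 (by linarith) hθ1 hθ3 hη
      have e1 : expF (2 * (v - 1 - θ) / (-θ)) θ - 2 * (v - 1 - θ) / (-θ) * v + η = -((v - 1 - θ) ^ 2 / (-θ)) + η := by
        unfold expF
        rw [if_pos h1, if_pos hβ2]
        have hθ : θ ≠ 0 := by linarith
        field_simp
        ring
      rw [e1] at h4
      exact h4
    · intro η hη
      rcases h3.lt_or_eq with h | h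
      · exact low_mid hθ1 h1 h2.le h hη
      · have h4 := low_high (u := v) hθ1 hθ3 h.ge hv2 (Or.inl h1) hη
        have e1 : -(v ^ 2 - 1 - θ) - η = -((v - 1 - θ) ^ 2 / (-θ)) - η := by
          rw [h]
          have hθ : θ ≠ 0 := by linarith
          field_simp
          ring
        rw [e1] at h4
        exact h4
  · -- short intervals, above the last critical value
    push Not at h2 h3
    apply lim_of_bounds'
    · intro η hη
      have h4 := ld_up (θ := θ) (v := v) (β := 2 * v) (by linarith) (by linarith) hθ1 hθ3 hη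
      have e1 : expF (2 * v) θ - 2 * v * v + η = -(v ^ 2 - 1 - θ) + η := by
        unfold expF
        rw [if_pos h1, if_neg (by linarith)]
        ring
      rw [e1] at h4
      exact h4
    · intro η hη
      exact low_high hθ1 hθ3 h3.le hv2 (Or.inl h1) hη
  · -- long intervals, below the typical value
    push Not at h1
    have hs2 : Real.sqrt (1 + θ) ^ 2 = 1 + θ := Real.sq_sqrt hs0
    have hs1 : 1 ≤ Real.sqrt (1 + θ) := by
      apply Real.le_sqrt_of_sq_le
      linarith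
    have hs3 : Real.sqrt (1 + θ) < 2 := by
      have h5 : 0 ≤ Real.sqrt (1 + θ) := Real.sqrt_nonneg _
      nlinarith
    apply lim_of_bounds' htriv
    apply hmono (Real.sqrt (1 + θ)) _ h2
    intro η hη
    have h4 := low_high (u := Real.sqrt (1 + θ)) hθ1 hθ3 hs1 hs3 (Or.inr le_rfl) hη
    have e1 : -(Real.sqrt (1 + θ) ^ 2 - 1 - θ) - η = -(0 : ℝ) - η := by
      rw [hs2]
      ring
    rw [e1] at h4
    exact h4
  · -- long intervals, above the typical value
    push Not at h1 h2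
    have hs1 : 1 ≤ Real.sqrt (1 + θ) := by
      apply Real.le_sqrt_of_sq_le
      linarith
    apply lim_of_bounds'
    · intro η hη
      have h4 := ld_up (θ := θ) (v := v) (β := 2 * v) (by linarith) (by linarith) hθ1 hθ3 hη
      have e1 : expF (2 * v) θ - 2 * v * v + η = -(v ^ 2 - 1 - θ) + η := by
        unfold expF
        rw [if_neg (by linarith), if_neg (by linarith)]
        ring
      rw [e1] at h4
      exact h4
    · intro η hη
      exact low_high hθ1 hθ3 (hs1.trans h2.le) hv2 (Or.inr h2.le) hη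

end

end Pool.Agent.H469.F4
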