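import Pool.Agent.H469.F4.R3

set_option autoImplicit false

/-!
# Maxima, moments of all orders: the predicted orders
-/

namespace Pool.Agent.H469.F4

open Filter Topology MeasureTheory Complex Pool.Agent.Q97.UM
open Pool.Agent.Q14.UM (mem_PB PB_disj cv_len)

noncomputable section

/-- **the predicted orders, one point against another, general orders** -/
theorem VV_H {B : ℝ} (hB : 1 ≤ B) : ∃ C E₀ : ℝ, 0 ≤ C ∧ 1 ≤ E₀ ∧ ∀ (E β a x : ℝ) (j : ℕ), E₀ ≤ E * Real.exp (-(j : ℝ)) → 0 ≤ β → β ≤ B → |a| ≤ B →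
    (Real.exp (-C) * Real.exp (β ^ 2 / 4 * Real.log E) ≤ VV E (aw β x) (fun _ => 0)) ∧
    (VV E (aw β x) (yF E a j x) ≤ Real.exp C * Real.exp (β ^ 2 / 4 * Real.log E + (a * β + a ^ 2) * j)) ∧
    (0 ≤ a → ∀ x' : ℝ,
      (|x - x'| ≤ 1 → 1 ≤ |x - x'| * (E * Real.exp (-(j : ℝ))) →
        VV E (aw β x) (yF E a j x') ≤ Real.exp C * Real.exp (β ^ 2 / 4 * Real.log E + a ^ 2 * j)) ∧
      (E * Real.exp (-(j : ℝ)) ≤ Real.exp 1 * E₀ → 1 ≤ |x - x'| →
        VV E (aw β x) (yF E a j x') ≤ Real.exp C * Real.exp (β ^ 2 / 4 * Real.log E + a ^ 2 * j +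
          β * a * Real.log (5 + Real.log (|x - x'| + 1))))) := by
  obtain ⟨C1, E₀, hC1, hE₀, h1⟩ := CS_le
  obtain ⟨C2, hC2, h2⟩ := PS_quad (B := 2 * B) (by linarith)
  refine ⟨2 * C2 + B ^ 2 * C1, E₀, by positivity, hE₀, fun E β a x j hj hβ0 hβ4 ha => ?_⟩
  have hj1 : 1 ≤ E * Real.exp (-(j : ℝ)) := hE₀.trans hj
  have hE0 : 0 < E := by
    by_contra h
    have h1 : E * Real.exp (-(j : ℝ)) ≤ 0 := mul_nonpos_of_nonpos_of_nonneg (not_lt.1 h) (Real.exp_pos _).le
    linarith
  have hE1 : 1 ≤ E := by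
    refine hj1.trans (mul_le_of_le_one_right hE0.le ?_)
    rw [Real.exp_le_one_iff]
    have : (0 : ℝ) ≤ j := Nat.cast_nonneg j
    linarith
  have ha' := abs_le.1 ha
  have hpr : ∀ p ∈ (Finset.Icc 1 ⌊Real.exp E⌋₊).filter Nat.Prime, 0 < p := fun p hp => (Finset.mem_filter.1 hp).2.pos
  refine ⟨?_, ?_, ?_⟩
  · unfold VV
    rw [← Real.exp_add]
    apply Real.exp_le_exp.2
    have e1 : PS E (fun p => ‖aw β x p + 0‖ ^ 2 / (p : ℝ)) = PS E (fun p => (β / 2 + 0 * cut E j p + 0 * cut E j p) ^ 2 / p) := by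
      unfold PS
      refine Finset.sum_congr rfl fun p hp => ?_
      have h3 := norm_two' (β / 2) 0 x x (hpr p hp)
      unfold aw
      beta_reduce
      rw [Complex.ofReal_zero, zero_mul] at h3
      rw [h3]
      ring
    have h3 := h2 E (β / 2) 0 0 j j hj1 hj1 (by rw [abs_of_nonneg (by linarith)]; linarith) (by rw [abs_zero]; linarith) (by rw [abs_zero]; linarith)
    rw [e1]
    rw [abs_le] at h3
    have e2 : (β / 2) ^ 2 = β ^ 2 / 4 := by ring
    rw [e2] at h3
    have h4 : 0 ≤ B ^ 2 * C1 := by positivity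
    linarith [h3.1]
  · unfold VV
    rw [← Real.exp_add]
    apply Real.exp_le_exp.2
    have e1 : PS E (fun p => ‖aw β x p + yF E a j x p‖ ^ 2 / (p : ℝ)) = PS E (fun p => ((β / 2 + a) + (-a) * cut E j p + 0 * cut E j p) ^ 2 / p) := by
      unfold PS
      refine Finset.sum_congr rfl fun p hp => ?_
      have h3 := norm_two' (β / 2) (a * (1 - cut E j p)) x x (hpr p hp)
      unfold aw yF
      beta_reduce
      rw [h3, sub_self, zero_mul, Real.cos_zero]
      ring
    have h3 := h2 E (β / 2 + a) (-a) 0 j j hj1 hj1 (by rw [abs_le]; constructor <;> linarith) (by rw [abs_neg]; linarith) (by rw [abs_zero]; linarith)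
    rw [e1]
    rw [abs_le] at h3
    have e2 : (β / 2 + a) ^ 2 * Real.log E + (2 * (β / 2 + a) * (-a) + (-a) ^ 2) * (Real.log E - j) =
        β ^ 2 / 4 * Real.log E + (a * β + a ^ 2) * j := by ring
    have h4 : 0 ≤ B ^ 2 * C1 := by positivity
    have h5 := h3.2
    have e3 : (2 * (β / 2 + a) * 0 + 0 ^ 2 : ℝ) * (Real.log E - j) + 2 * -a * 0 * (Real.log E - ((max j j : ℕ) : ℝ)) = 0 := by ring
    linarith
  · intro ha0 x'
    have hβa : 0 ≤ β * a := by positivity
    have hβa8 : β * a ≤ B ^ 2 := by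
      rw [sq]
      exact mul_le_mul hβ4 ha'.2 ha0 (by linarith)
    -- the main formula
    have key : PS E (fun p => ‖aw β x p + yF E a j x' p‖ ^ 2 / (p : ℝ)) ≤ β ^ 2 / 4 * Real.log E + a ^ 2 * j + 2 * C2 + β * a * CS E j (x - x') := by
      have e1 : PS E (fun p => ‖aw β x p + yF E a j x' p‖ ^ 2 / (p : ℝ)) =
          PS E (fun p => (β / 2 + 0 * cut E j p + 0 * cut E j p) ^ 2 / p) + PS E (fun p => (a + (-a) * cut E j p + 0 * cut E j p) ^ 2 / p) +
            β * a * PS E (fun p => (1 - cut E j p) * (Real.cos ((x - x') * Real.log p) / p)) := by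
        unfold PS
        rw [Finset.mul_sum, ← Finset.sum_add_distrib, ← Finset.sum_add_distrib]
        refine Finset.sum_congr rfl fun p hp => ?_
        have h3 := norm_two' (β / 2) (a * (1 - cut E j p)) x x' (hpr p hp)
        unfold aw yF
        beta_reduce
        rw [h3]
        ring
      have e2 : PS E (fun p => (1 - cut E j p) * (Real.cos ((x - x') * Real.log p) / p)) = CS E j (x - x') := by
        rw [← PS_blocks hE1]
        unfold CS
        have hJ : j ≤ JB E := by
          by_contra hcon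
          push Not at hcon
          -- the block `j` is not reached, so `E e^{-j}` would be small
          have h5 := JB_shift hE0 j hj1
          omega
        have h6 : ∀ i ∈ Finset.range (JB E), ∑ p ∈ PB E i, (1 - cut E j p) * (Real.cos ((x - x') * Real.log p) / (p : ℝ)) =
            if i < j then ∑ p ∈ PB E i, Real.cos ((x - x') * Real.log p) / (p : ℝ) else 0 := by
          intro i _
          split_ifs with h
          · refine Finset.sum_congr rfl fun p hp => ?_
            rw [cut_block hE0.le hp, if_neg (by omega)]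
            ring
          · refine Finset.sum_eq_zero fun p hp => ?_
            rw [cut_block hE0.le hp, if_pos (by omega)]
            ring
        rw [Finset.sum_congr rfl h6, ← Finset.sum_filter]
        refine Finset.sum_congr ?_ fun _ _ => rfl
        ext i
        rw [Finset.mem_filter, Finset.mem_range, Finset.mem_range]
        omega
      rw [e1, e2]
      have h3 := h2 E (β / 2) 0 0 j j hj1 hj1 (by rw [abs_of_nonneg (by linarith)]; linarith) (by rw [abs_zero]; linarith) (by rw [abs_zero]; linarith)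
      have h4 := h2 E a (-a) 0 j j hj1 hj1 (by linarith) (by rw [abs_neg]; linarith) (by rw [abs_zero]; linarith)
      rw [abs_le] at h3 h4
      have h5 := h3.2
      have h6 := h4.2
      have e3 : (β / 2) ^ 2 = β ^ 2 / 4 := by ring
      rw [e3] at h5
      have e4 : (2 * (β / 2) * 0 + 0 ^ 2 : ℝ) * (Real.log E - j) + (2 * (β / 2) * 0 + 0 ^ 2) * (Real.log E - j) +
        2 * 0 * 0 * (Real.log E - ((max j j : ℕ) : ℝ)) = 0 := by ring
      have e5 : a ^ 2 * Real.log E + (2 * a * (-a) + (-a) ^ 2) * (Real.log E - j) + (2 * a * 0 + 0 ^ 2) * (Real.log E - j) +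
        2 * (-a) * 0 * (Real.log E - ((max j j : ℕ) : ℝ)) = a ^ 2 * j := by ring
      linarith
    have hC1' : β * a * C1 ≤ B ^ 2 * C1 := mul_le_mul_of_nonneg_right hβa8 hC1
    constructor
    · intro hn1 hn2
      unfold VV
      rw [← Real.exp_add]
      apply Real.exp_le_exp.2
      have h3 := (h1 E j hj).1 (x - x') hn1 hn2
      have h4 : β * a * CS E j (x - x') ≤ β * a * C1 := mul_le_mul_of_nonneg_left h3 hβa
      linarith
    · intro hn1 hn2
      unfold VV
      rw [← Real.exp_add]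
      apply Real.exp_le_exp.2
      have h3 := (h1 E j hj).2 hn1 (x - x') hn2
      have h4 : β * a * CS E j (x - x') ≤ β * a * (C1 + Real.log (5 + Real.log (|x - x'| + 1))) := mul_le_mul_of_nonneg_left h3 hβa
      have e3 : β * a * (C1 + Real.log (5 + Real.log (|x - x'| + 1))) = β * a * C1 + β * a * Real.log (5 + Real.log (|x - x'| + 1)) := by ring
      linarith

/-- the last cut -/
theorem cut_last {E : ℝ} (hE : 1 ≤ E) {p : ℕ} (hp : p ∈ (Finset.Icc 1 ⌊Real.exp E⌋₊).filter Nat.Prime) : cut E (JB E) p = 0 := by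
  unfold cut
  rw [if_neg]
  have hp2 : (2 : ℝ) ≤ p := by exact_mod_cast (Finset.mem_filter.1 hp).2.two_le
  intro h
  have h1 : Real.log (2 * E) ≤ (JB E : ℝ) := by
    unfold JB
    exact Nat.le_ceil _
  have h2 : E * Real.exp (-(JB E : ℝ)) ≤ 1 / 2 := by
    have h3 : Real.exp (-(JB E : ℝ)) ≤ Real.exp (-Real.log (2 * E)) := Real.exp_le_exp.2 (by linarith)
    rw [Real.exp_neg (Real.log (2 * E)), Real.exp_log (by linarith)] at h3
    calc E * Real.exp (-(JB E : ℝ)) ≤ E * (2 * E)⁻¹ := mul_le_mul_of_nonneg_left h3 (by linarith)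
      _ = 1 / 2 := by
          have : E ≠ 0 := by linarith
          field_simp
  have h3 : XB E (JB E) ≤ Real.exp (1 / 2) := by
    unfold XB
    exact Real.exp_le_exp.2 h2
  have h4 : Real.exp (1 / 2) < 2 := by
    have h5 : Real.exp (1 / 2) ^ 2 = Real.exp 1 := by
      rw [← Real.exp_nat_mul]
      norm_num
    have h6 := Real.exp_one_lt_d9
    have h7 := Real.exp_pos (1 / 2 : ℝ)
    nlinarith
  linarith

/-- the tilt by a Dirichlet polynomial replaces a power of zeta -/
theorem VV_shift {E : ℝ} (hE : 1 ≤ E) (β x c : ℝ) (j : ℕ) (x' : ℝ) :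
    VV E (aw 2 x) (fun p => yF E (β / 2 - 1) (JB E) x p + yF E c j x' p) = VV E (aw β x) (yF E c j x') := by
  unfold VV PS
  congr 1
  refine Finset.sum_congr rfl fun p hp => ?_
  beta_reduce
  have e : aw 2 x p + (yF E (β / 2 - 1) (JB E) x p + yF E c j x' p) = aw β x p + yF E c j x' p := by
    have : yF E (β / 2 - 1) (JB E) x p = ((β / 2 - 1 : ℝ) : ℂ) * ua x p := by
      unfold yF
      rw [cut_last hE hp, sub_zero, mul_one]
    rw [this]
    unfold aw
    push_cast
    ring
  rw [e]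

theorem VV_shift0 {E : ℝ} (hE : 1 ≤ E) (β x : ℝ) :
    VV E (aw 2 x) (yF E (β / 2 - 1) (JB E) x) = VV E (aw β x) (fun _ => 0) := by
  unfold VV PS
  congr 1
  refine Finset.sum_congr rfl fun p hp => ?_
  beta_reduce
  have e : aw 2 x p + yF E (β / 2 - 1) (JB E) x p = aw β x p + 0 := by
    have : yF E (β / 2 - 1) (JB E) x p = ((β / 2 - 1 : ℝ) : ℂ) * ua x p := by
      unfold yF
      rw [cut_last hE hp, sub_zero, mul_one]
    rw [this]
    unfold aw
    push_cast
    ring
  rw [e]

theorem VV_shift1 {E : ℝ} (hE : 1 ≤ E) (β x : ℝ) :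
    VV E (fun _ => 0) (yF E (β / 2) (JB E) x) = VV E (aw β x) (yF E 0 0 x) := by
  unfold VV PS
  congr 1
  refine Finset.sum_congr rfl fun p hp => ?_
  beta_reduce
  have e : (0 : ℂ) + yF E (β / 2) (JB E) x p = aw β x p + yF E 0 0 x p := by
    have : yF E (β / 2) (JB E) x p = ((β / 2 : ℝ) : ℂ) * ua x p := by
      unfold yF
      rw [cut_last hE hp, sub_zero, mul_one]
    rw [this]
    unfold aw yF
    push_cast
    ring
  rw [e]

end

end Pool.Agent.H469.F4
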