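import Pool.Agent.H469.F4.S9

set_option autoImplicit false

/-!
# Maxima: upper bounds by the moments at points
-/

namespace Pool.Agent.H469.F4

open Filter Topology MeasureTheory Complex Pool.Agent.Q97.UM

noncomputable section

/-- intervals of length `1/log T` -/
theorem micro_gen {β : ℝ} (hβ0 : 0 < β) : ∃ C : ℝ, 0 < C ∧ ∀ᶠ T : ℝ in atTop, ∀ x : ℝ, |x| ≤ T / 8 →
    ∫ t in T..(2 * T), MH (1 / Real.log T) x t ^ β ≤ C * (T + ∫ t in (T / 2)..(3 * T), fz β t) := by
  obtain ⟨W, δ, C, hδ, hC, h⟩ := loc_supw hβ0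
  refine ⟨C * 9, by positivity, ?_⟩
  filter_upwards [h, eventually_ge_atTop (16 : ℝ), eventually_ge_atTop (16 * ((W : ℝ) + 2)),
    Real.tendsto_log_atTop.eventually_ge_atTop 1] with T hT hT16 hTW hL1 x hx
  have hT0 : 0 < T := by linarith
  have hL0 : 0 < Real.log T := by linarith
  obtain ⟨L, hL⟩ : ∃ L : ℝ, L = Real.log T := ⟨_, rfl⟩
  rw [← hL] at hT hL1 hL0 ⊢
  have hH0 : 0 ≤ 1 / L := by positivity
  have hH1 : 1 / L ≤ 1 := (div_le_one hL0).2 hL1
  have hW : (0 : ℝ) ≤ W := Nat.cast_nonneg _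
  have hx' := abs_le.1 hx
  have hwc := ww_cont hL0.le
  -- pointwise
  have hpt : ∀ t ∈ Set.Icc T (2 * T), MH (1 / L) x t ^ β ≤ C * T ^ (-δ) +
      C * L * ∫ v in (-((W : ℝ) + 1))..(W + 1), 9 / 4 * ww L v * fz β (t + (x + v)) := by
    intro t ht
    obtain ⟨h, hh, he⟩ := ex_MH hH0 x t
    have h2 := hT (t + h) (by linarith [ht.1, hh.1, hx'.1]) (by linarith [ht.2, hh.2, hx'.2])
    rw [he]
    refine h2.trans (add_le_add le_rfl ?_)
    apply mul_le_mul_of_nonneg_left _ (by positivity)
    have hfc : Continuous fun v : ℝ => fz β (t + (x + v)) := (fz_cont hβ0.le).comp (by fun_prop)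
    have hfc2 : Continuous fun v : ℝ => ww L (v - (h - x)) * fz β (t + (x + v)) := (hwc.comp (by fun_prop)).mul hfc
    have hfc3 : Continuous fun v : ℝ => 9 / 4 * ww L v * fz β (t + (x + v)) := (continuous_const.mul hwc).mul hfc
    calc ∫ y in (-(W : ℝ))..W, ww L y * fz β (t + h + y) = ∫ v in (h - x - W)..(h - x + W), ww L (v - (h - x)) * fz β (t + (x + v)) := by
          have := intervalIntegral.integral_comp_add_left (fun v => ww L (v - (h - x)) * fz β (t + (x + v))) (h - x) (a := -(W : ℝ)) (b := W)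
          rw [show h - x - (W : ℝ) = h - x + -(W : ℝ) by ring, ← this]
          refine intervalIntegral.integral_congr fun y _ => ?_
          show ww L y * fz β (t + h + y) = ww L (h - x + y - (h - x)) * fz β (t + (x + (h - x + y)))
          congr 2
          · ring
          · ring
      _ ≤ ∫ v in (-((W : ℝ) + 1))..(W + 1), ww L (v - (h - x)) * fz β (t + (x + v)) :=
          intervalIntegral.integral_mono_interval (by linarith [hh.1]) (by linarith) (by linarith [hh.2])
            (Eventually.of_forall fun v => mul_nonneg (ww_nonneg _ _) (fz_nonneg _ _)) (hfc2.intervalIntegrable _ _)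
      _ ≤ _ := by
          refine intervalIntegral.integral_mono_on (by linarith) (hfc2.intervalIntegrable _ _) (hfc3.intervalIntegrable _ _) fun v _ => ?_
          apply mul_le_mul_of_nonneg_right _ (fz_nonneg _ _)
          unfold ww
          have h3 : |v| ≤ |v - (h - x)| + 1 / L := by
            have h4 : |v| ≤ |v - (h - x)| + |h - x| := by
              have := abs_add_le (v - (h - x)) (h - x)
              rwa [sub_add_cancel] at this
            have h5 : |h - x| ≤ 1 / L := by
              rw [abs_of_nonneg (by linarith [hh.1])]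
              linarith [hh.2]
            linarith
          have h6 : 1 + 1 / 2 * L * |v| ≤ 3 / 2 * (1 + 1 / 2 * L * |v - (h - x)|) := by
            have h7 : 1 / 2 * L * |v| ≤ 1 / 2 * L * (|v - (h - x)| + 1 / L) := mul_le_mul_of_nonneg_left h3 (by positivity)
            have h8 : 1 / 2 * L * (1 / L) = 1 / 2 := by field_simp
            have h9 : 0 ≤ 1 / 2 * L * |v - (h - x)| := by positivity
            nlinarith
          have h10 : (1 + 1 / 2 * L * |v|) ^ 2 ≤ 9 / 4 * (1 + 1 / 2 * L * |v - (h - x)|) ^ 2 := by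
            calc (1 + 1 / 2 * L * |v|) ^ 2 ≤ (3 / 2 * (1 + 1 / 2 * L * |v - (h - x)|)) ^ 2 := pow_le_pow_left₀ (by positivity) h6 2
              _ = _ := by ring
          have h11 : 0 < (1 + 1 / 2 * L * |v|) ^ 2 := by positivity
          have h12 : 0 < (1 + 1 / 2 * L * |v - (h - x)|) ^ 2 := by positivity
          rw [inv_le_iff_one_le_mul₀ h12]
          rw [show 9 / 4 * ((1 + 1 / 2 * L * |v|) ^ 2)⁻¹ * (1 + 1 / 2 * L * |v - (h - x)|) ^ 2 =
            (9 / 4 * (1 + 1 / 2 * L * |v - (h - x)|) ^ 2) / (1 + 1 / 2 * L * |v|) ^ 2 by field_simp]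
          rw [one_le_div h11]
          exact h10
  -- integrate
  have hMc : Continuous fun t => MH (1 / L) x t ^ β := (MH_cont _ x).rpow_const fun _ => Or.inr hβ0.le
  have hGc : Continuous fun z : ℝ × ℝ => 9 / 4 * ww L z.2 * fz β (z.1 + (x + z.2)) :=
    (continuous_const.mul (hwc.comp continuous_snd)).mul ((fz_cont hβ0.le).comp (by fun_prop))
  have hGi : Continuous fun t : ℝ => ∫ v in (-((W : ℝ) + 1))..(W + 1), 9 / 4 * ww L v * fz β (t + (x + v)) :=
    intervalIntegral.continuous_parametric_intervalIntegral_of_continuous' (f := fun t v => 9 / 4 * ww L v * fz β (t + (x + v))) hGc _ _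
  have i1 : IntervalIntegrable (fun _ : ℝ => C * T ^ (-δ)) volume T (2 * T) := continuous_const.intervalIntegrable _ _
  have i2 : IntervalIntegrable (fun t : ℝ => C * L * ∫ v in (-((W : ℝ) + 1))..(W + 1), 9 / 4 * ww L v * fz β (t + (x + v))) volume T (2 * T) :=
    (continuous_const.mul hGi).intervalIntegrable _ _
  refine (intervalIntegral.integral_mono_on (by linarith) (hMc.intervalIntegrable _ _) (i1.add i2) hpt).trans ?_
  rw [intervalIntegral.integral_add i1 i2, intervalIntegral.integral_const, intervalIntegral.integral_const_mul, smul_eq_mul]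
  obtain ⟨B, hB⟩ : ∃ B : ℝ, B = ∫ t in (T / 2)..(3 * T), fz β t := ⟨_, rfl⟩
  have hB0 : 0 ≤ B := by rw [hB]; exact intervalIntegral.integral_nonneg (by linarith) fun t _ => fz_nonneg _ _
  have h1 : ∀ u : ℝ, |u| ≤ T / 2 → ∫ t in T..(2 * T), fz β (t + u) ≤ B := by
    intro u hu
    have hu' := abs_le.1 hu
    rw [intervalIntegral.integral_comp_add_right (fun t => fz β t) u, hB]
    exact intervalIntegral.integral_mono_interval (by linarith) (by linarith) (by linarith) (Eventually.of_forall fun t => fz_nonneg _ _)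
      ((fz_cont hβ0.le).intervalIntegrable _ _)
  have h2 : ∫ t in T..(2 * T), ∫ v in (-((W : ℝ) + 1))..(W + 1), 9 / 4 * ww L v * fz β (t + (x + v)) ≤ 9 / L * B := by
    rw [swap_cont (F := fun t v => 9 / 4 * ww L v * fz β (t + (x + v))) hGc]
    have hGc2 : Continuous fun z : ℝ × ℝ => 9 / 4 * ww L z.1 * fz β (z.2 + (x + z.1)) :=
      (continuous_const.mul (hwc.comp continuous_fst)).mul ((fz_cont hβ0.le).comp (by fun_prop))
    have hGi2 : Continuous fun v : ℝ => ∫ t in T..(2 * T), 9 / 4 * ww L v * fz β (t + (x + v)) :=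
      intervalIntegral.continuous_parametric_intervalIntegral_of_continuous' (f := fun v t => 9 / 4 * ww L v * fz β (t + (x + v))) hGc2 T (2 * T)
    have hc4 : Continuous fun v : ℝ => 9 / 4 * B * ww L v := continuous_const.mul hwc
    refine (intervalIntegral.integral_mono_on (by linarith) (hGi2.intervalIntegrable _ _) (hc4.intervalIntegrable _ _) fun v hv => ?_).trans ?_
    · rw [intervalIntegral.integral_const_mul]
      have h3 := h1 (x + v) (abs_le.2 ⟨by linarith [hv.1], by linarith [hv.2]⟩)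
      calc 9 / 4 * ww L v * ∫ t in T..(2 * T), fz β (t + (x + v)) ≤ 9 / 4 * ww L v * B :=
            mul_le_mul_of_nonneg_left h3 (by have := ww_nonneg L v; positivity)
        _ = _ := by ring
    · rw [intervalIntegral.integral_const_mul]
      have h4 := ww_int hL0 (by positivity : (0 : ℝ) ≤ W + 1)
      calc 9 / 4 * B * ∫ y in (-((W : ℝ) + 1))..(W + 1), ww L y ≤ 9 / 4 * B * (4 / L) := mul_le_mul_of_nonneg_left h4 (by positivity)
        _ = _ := by ring
  have h3 : T ^ (-δ) ≤ 1 := Real.rpow_le_one_of_one_le_of_nonpos (by linarith) (by linarith)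
  rw [← hB]
  calc (2 * T - T) * (C * T ^ (-δ)) + C * L * ∫ t in T..(2 * T), ∫ v in (-((W : ℝ) + 1))..(W + 1), 9 / 4 * ww L v * fz β (t + (x + v)) ≤
      (2 * T - T) * (C * 1) + C * L * (9 / L * B) := by
        refine add_le_add ?_ (mul_le_mul_of_nonneg_left h2 (by positivity))
        apply mul_le_mul_of_nonneg_left _ (by linarith)
        exact mul_le_mul_of_nonneg_left h3 hC.le
    _ = C * T + 9 * C * B := by field_simp; ring
    _ ≤ C * 9 * (T + B) := by nlinarith [mul_pos hC hT0]

/-- **upper bound by the moment at points** -/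
theorem gen_upper {β : ℝ} (hβ0 : 0 < β) : ∃ C : ℝ, 0 < C ∧ ∀ᶠ T : ℝ in atTop, ∀ x : ℝ, |x| ≤ T / 16 → ∀ H : ℝ, 0 ≤ H →
    H ≤ T / 16 → ∫ t in T..(2 * T), MH H x t ^ β ≤ C * ((1 + H * Real.log T) * (T + ∫ t in (T / 2)..(3 * T), fz β t)) := by
  obtain ⟨C, hC, h⟩ := micro_gen hβ0
  refine ⟨C, hC, ?_⟩
  filter_upwards [h, eventually_ge_atTop (32 : ℝ), Real.tendsto_log_atTop.eventually_ge_atTop 1] with T hT hT32 hL1 x hx H hH0 hH1
  have hT0 : 0 < T := by linarith
  have hL0 : 0 < Real.log T := by linarith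
  obtain ⟨L, hL⟩ : ∃ L : ℝ, L = Real.log T := ⟨_, rfl⟩
  rw [← hL] at hT hL1 hL0 ⊢
  obtain ⟨B, hB⟩ : ∃ B : ℝ, B = ∫ t in (T / 2)..(3 * T), fz β t := ⟨_, rfl⟩
  have hB0 : 0 ≤ B := by rw [hB]; exact intervalIntegral.integral_nonneg (by linarith) fun t _ => fz_nonneg _ _
  rw [← hB] at hT ⊢
  have hd0 : 0 < 1 / L := by positivity
  have hcM : ∀ H x, Continuous fun t => MH H x t ^ β := fun H x => (MH_cont H x).rpow_const fun _ => Or.inr hβ0.le
  refine (intervalIntegral.integral_mono_on (by linarith) ((hcM H x).intervalIntegrable _ _)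
    ((continuous_finsetSum _ fun i _ => hcM _ _).intervalIntegrable _ _) fun t _ => MH_chain hβ0 hH0 hd0 x t).trans ?_
  rw [intervalIntegral.integral_finsetSum fun i _ => (hcM _ _).intervalIntegrable _ _]
  have hn : ((⌊H / (1 / L)⌋₊ : ℕ) : ℝ) ≤ H * L := by
    refine (Nat.floor_le (div_nonneg hH0 hd0.le)).trans (le_of_eq ?_)
    field_simp
  have h1 : ∀ i ∈ Finset.range (⌊H / (1 / L)⌋₊ + 1), ∫ t in T..(2 * T), MH (1 / L) (x + i * (1 / L)) t ^ β ≤ C * (T + B) := by
    intro i hi
    apply hT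
    have hi' : (i : ℝ) ≤ H * L := by
      have h2 : i ≤ ⌊H / (1 / L)⌋₊ := by
        have := Finset.mem_range.1 hi
        omega
      exact (Nat.cast_le.2 h2).trans hn
    have h3 : (i : ℝ) * (1 / L) ≤ T / 16 := by
      calc (i : ℝ) * (1 / L) ≤ H * L * (1 / L) := mul_le_mul_of_nonneg_right hi' hd0.le
        _ = H := by field_simp
        _ ≤ T / 16 := hH1
    have h4 : 0 ≤ (i : ℝ) * (1 / L) := by positivity
    calc |x + (i : ℝ) * (1 / L)| ≤ |x| + |(i : ℝ) * (1 / L)| := abs_add_le _ _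
      _ ≤ T / 16 + T / 16 := by rw [abs_of_nonneg h4]; linarith
      _ ≤ T / 8 := by linarith
  refine (Finset.sum_le_sum h1).trans ?_
  rw [Finset.sum_const, Finset.card_range, nsmul_eq_mul]
  push_cast
  calc ((⌊H / (1 / L)⌋₊ : ℝ) + 1) * (C * (T + B)) ≤ (H * L + 1) * (C * (T + B)) :=
        mul_le_mul_of_nonneg_right (by linarith) (by positivity)
    _ = _ := by ring

end

end Pool.Agent.H469.F4
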