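import Pool.Agent.H469.F4.S10

set_option autoImplicit false

/-!
# The order of the moments and the order of the local maxima
-/

namespace Pool.Agent.H469.F4

open Filter Topology MeasureTheory Complex Pool.Agent.Q97.UM

noncomputable section

/-- **the moments and the local maxima** -/
theorem order_equiv {β a : ℝ} (hβ : 0 < β) (ha : 0 ≤ a) :
    (∃ C : ℝ, ∀ᶠ T : ℝ in atTop, (1 / T) * ∫ t in (0 : ℝ)..T, fz β t ≤ C * Real.log T ^ a) ↔
    (∃ C : ℝ, ∀ᶠ T : ℝ in atTop, ∀ H : ℝ, 0 ≤ H → H ≤ T / 16 →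
      (1 / T) * ∫ t in T..(2 * T), MH H 0 t ^ β ≤ C * ((1 + H * Real.log T) * Real.log T ^ a)) := by
  have fc : Continuous (fz β) := fz_cont hβ.le
  have fi : ∀ S T : ℝ, IntervalIntegrable (fz β) volume S T := fun S T => fc.intervalIntegrable _ _
  constructor
  · rintro ⟨C, hC⟩
    obtain ⟨C₂, hC₂, h2⟩ := gen_upper hβ
    obtain ⟨D, hD⟩ : ∃ D : ℝ, D = max C 0 := ⟨_, rfl⟩
    have hD0 : 0 ≤ D := by rw [hD]; exact le_max_right _ _
    have hCD : C ≤ D := by rw [hD]; exact le_max_left _ _
    have h3 : ∀ᶠ T : ℝ in atTop, (1 / (3 * T)) * ∫ t in (0 : ℝ)..(3 * T), fz β t ≤ C * Real.log (3 * T) ^ a :=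
      (tendsto_id.const_mul_atTop (by norm_num : (0 : ℝ) < 3)).eventually hC
    refine ⟨C₂ * (1 + 3 * D * 2 ^ a), ?_⟩
    filter_upwards [h2, h3, eventually_ge_atTop (32 : ℝ), Real.tendsto_log_atTop.eventually_ge_atTop 1] with T h2 h3 hT32 hL1 H hH0 hH1
    have hT0 : 0 < T := by linarith
    have hL0 : 0 < Real.log T := by linarith
    have h4 := h2 0 (by rw [abs_zero]; positivity) H hH0 hH1
    have h5 : ∫ t in (T / 2)..(3 * T), fz β t ≤ ∫ t in (0 : ℝ)..(3 * T), fz β t := by
      apply intervalIntegral.integral_mono_interval (by linarith) (by linarith) le_rfl _ (fi _ _)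
      exact Filter.Eventually.of_forall fun t => fz_nonneg β t
    have h6 : Real.log (3 * T) ≤ 2 * Real.log T := by
      have h7 : Real.log (3 * T) ≤ Real.log (T ^ 2) := Real.log_le_log (by linarith) (by nlinarith)
      rw [Real.log_pow] at h7
      exact_mod_cast h7
    have h7 : Real.log (3 * T) ^ a ≤ 2 ^ a * Real.log T ^ a := by
      rw [← Real.mul_rpow (by norm_num) hL0.le]
      exact Real.rpow_le_rpow (Real.log_nonneg (by linarith)) h6 ha
    have h8 : ∫ t in (0 : ℝ)..(3 * T), fz β t ≤ 3 * T * (D * (2 ^ a * Real.log T ^ a)) := by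
      rw [one_div, inv_mul_le_iff₀ (by positivity)] at h3
      refine h3.trans (mul_le_mul_of_nonneg_left ?_ (by positivity))
      have h9 : 0 ≤ Real.log (3 * T) ^ a := Real.rpow_nonneg (Real.log_nonneg (by linarith)) _
      exact (mul_le_mul_of_nonneg_right hCD h9).trans (mul_le_mul_of_nonneg_left h7 hD0)
    have h9 : (1 : ℝ) ≤ Real.log T ^ a := Real.one_le_rpow hL1 ha
    rw [one_div, inv_mul_le_iff₀ hT0]
    refine h4.trans ?_
    have h10 : T + ∫ t in (T / 2)..(3 * T), fz β t ≤ T * ((1 + 3 * D * 2 ^ a) * Real.log T ^ a) := by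
      have h11 : T * 1 ≤ T * Real.log T ^ a := mul_le_mul_of_nonneg_left h9 hT0.le
      linarith
    have h12 : 0 ≤ 1 + H * Real.log T := by positivity
    calc C₂ * ((1 + H * Real.log T) * (T + ∫ t in (T / 2)..(3 * T), fz β t)) ≤
        C₂ * ((1 + H * Real.log T) * (T * ((1 + 3 * D * 2 ^ a) * Real.log T ^ a))) :=
          mul_le_mul_of_nonneg_left (mul_le_mul_of_nonneg_left h10 h12) hC₂.le
      _ = _ := by ring
  · rintro ⟨C, hC⟩
    obtain ⟨D, hD⟩ : ∃ D : ℝ, D = max C 0 := ⟨_, rfl⟩
    have hD0 : 0 ≤ D := by rw [hD]; exact le_max_right _ _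
    have hCD : C ≤ D := by rw [hD]; exact le_max_left _ _
    obtain ⟨T₁, hT₁⟩ := eventually_atTop.1 hC
    obtain ⟨T₀, hT₀⟩ : ∃ T₀ : ℝ, T₀ = max T₁ 16 := ⟨_, rfl⟩
    have hT16 : 16 ≤ T₀ := by rw [hT₀]; exact le_max_right _ _
    have hT1 : T₁ ≤ T₀ := by rw [hT₀]; exact le_max_left _ _
    have hdy : ∀ T : ℝ, T₀ ≤ T → ∫ t in T..(2 * T), fz β t ≤ T * (D * Real.log T ^ a) := by
      intro T hT
      have hT0 : 0 < T := by linarith
      have h1 := hT₁ T (hT1.trans hT) 0 le_rfl (by positivity)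
      rw [one_div, inv_mul_le_iff₀ hT0, zero_mul, add_zero, one_mul] at h1
      have hL0 : 0 ≤ Real.log T := Real.log_nonneg (by linarith)
      have h2 : ∫ t in T..(2 * T), fz β t ≤ ∫ t in T..(2 * T), MH 0 0 t ^ β := by
        refine intervalIntegral.integral_mono_on (by linarith) (fi _ _) (((MH_cont 0 0).rpow_const fun _ => Or.inr hβ.le).intervalIntegrable _ _) fun t _ => ?_
        unfold fz
        have h3 := le_MH (H := 0) (x := 0) (t := t) (h := 0) ⟨le_rfl, by simp⟩
        rw [add_zero] at h3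
        exact Real.rpow_le_rpow (norm_nonneg _) h3 hβ.le
      refine h2.trans (h1.trans (mul_le_mul_of_nonneg_left ?_ hT0.le))
      exact mul_le_mul_of_nonneg_right hCD (Real.rpow_nonneg hL0 _)
    obtain ⟨G, hG⟩ : ∃ G : ℝ → ℝ, G = fun T => ∫ t in (0 : ℝ)..T, fz β t := ⟨_, rfl⟩
    have hGm : ∀ S T : ℝ, 0 ≤ S → S ≤ T → G S ≤ G T := by
      intro S T h0 hST
      rw [hG]
      apply intervalIntegral.integral_mono_interval le_rfl h0 hST _ (fi _ _)
      exact Filter.Eventually.of_forall fun t => fz_nonneg β t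
    have hind : ∀ (m : ℕ) (T : ℝ), T₀ ≤ T → T ≤ 2 ^ m * (2 * T₀) → G T ≤ G (2 * T₀) + D * (T * Real.log T ^ a) := by
      intro m
      induction m with
      | zero =>
        intro T hT hT2
        rw [pow_zero, one_mul] at hT2
        have h1 := hGm T (2 * T₀) (by linarith) hT2
        have h2 : 0 ≤ D * (T * Real.log T ^ a) :=
          mul_nonneg hD0 (mul_nonneg (by linarith) (Real.rpow_nonneg (Real.log_nonneg (by linarith)) _))
        linarith
      | succ m ih =>
        intro T hT hT2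
        have h2 : 0 ≤ D * (T * Real.log T ^ a) :=
          mul_nonneg hD0 (mul_nonneg (by linarith) (Real.rpow_nonneg (Real.log_nonneg (by linarith)) _))
        rcases le_or_gt T (2 * T₀) with h | h
        · have h1 := hGm T (2 * T₀) (by linarith) h
          linarith
        · have h3 : T₀ ≤ T / 2 := by linarith
          have h4 := ih (T / 2) h3 (by rw [pow_succ] at hT2; linarith)
          have h5 := hdy (T / 2) h3
          have e1 : 2 * (T / 2) = T := by ring
          rw [e1] at h5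
          have h6 : G T = G (T / 2) + ∫ t in (T / 2)..T, fz β t := by
            rw [hG]
            exact (intervalIntegral.integral_add_adjacent_intervals (fi _ _) (fi _ _)).symm
          have h7 : Real.log (T / 2) ^ a ≤ Real.log T ^ a :=
            Real.rpow_le_rpow (Real.log_nonneg (by linarith)) (Real.log_le_log (by linarith) (by linarith)) ha
          have h8 : D * (T / 2 * Real.log (T / 2) ^ a) ≤ D * (T / 2 * Real.log T ^ a) :=
            mul_le_mul_of_nonneg_left (mul_le_mul_of_nonneg_left h7 (by linarith)) hD0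
          rw [h6]
          linarith
    refine ⟨G (2 * T₀) + D, ?_⟩
    filter_upwards [eventually_ge_atTop T₀, Real.tendsto_log_atTop.eventually_ge_atTop 1] with T hT hL1
    have hT0 : 0 < T := by linarith
    obtain ⟨m, hm⟩ := pow_unbounded_of_one_lt (T / (2 * T₀)) (by norm_num : (1 : ℝ) < 2)
    rw [div_lt_iff₀ (by linarith)] at hm
    have h1 := hind m T hT hm.le
    have h2 : (1 : ℝ) ≤ Real.log T ^ a := Real.one_le_rpow hL1 ha
    have hG0 : 0 ≤ G (2 * T₀) := by
      rw [hG]
      exact intervalIntegral.integral_nonneg (by linarith) fun t _ => fz_nonneg β t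
    have hGT : G T = ∫ t in (0 : ℝ)..T, fz β t := by rw [hG]
    rw [← hGT, one_div, inv_mul_le_iff₀ hT0]
    have h3 : G (2 * T₀) * 1 ≤ G (2 * T₀) * (T * Real.log T ^ a) := by
      apply mul_le_mul_of_nonneg_left _ hG0
      calc (1 : ℝ) ≤ T := by linarith
        _ ≤ T * Real.log T ^ a := le_mul_of_one_le_right hT0.le h2
    linarith

end

end Pool.Agent.H469.F4
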