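import Pool.Agent.H469.F4.S1

set_option autoImplicit false

/-!
# Maxima, moments of all orders: the pointwise inequality
-/

namespace Pool.Agent.H469.F4

open Filter Topology MeasureTheory Complex Pool.Agent.Q97.UM
open Pool.Agent.Q14.UM (mem_PB PB_disj cv_len)

noncomputable section

/-- one distinguished index at most -/
theorem one_only' {ι : Type*} (s : Finset ι) (g : ι → ℝ) (P : ι → Prop) {M : ℝ} (hM : 0 ≤ M) (h0 : ∀ i ∈ s, ¬ P i → g i ≤ 0)
    (h1 : ∀ i ∈ s, P i → g i ≤ M) (hu : ∀ i ∈ s, ∀ k ∈ s, P i → P k → i = k) : ∑ i ∈ s, g i ≤ M := by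
  classical
  by_cases h : ∃ i ∈ s, P i
  · obtain ⟨i, hi, hP⟩ := h
    rw [← Finset.add_sum_erase s _ hi]
    have h2 : ∑ k ∈ s.erase i, g k ≤ 0 := by
      apply Finset.sum_nonpos
      intro k hk
      have hks := Finset.mem_of_mem_erase hk
      exact h0 k hks fun hPk => Finset.ne_of_mem_erase hk (hu k hks i hi hPk hP)
    have := h1 i hi hP
    linarith
  · push Not at h
    exact le_trans (Finset.sum_nonpos fun i hi => h0 i hi (h i hi)) hM

/-- the own part -/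
def oH (E κ' b V a : ℝ) (j₀ J Jt : ℕ) (x t : ℝ) : ℝ :=
  ∑ j ∈ Finset.Icc j₀ J, Real.exp (b * V * j) * Pf E κ' (y2 E a Jt x (-(b / 2)) j x) t

theorem oH_nonneg (E κ' b V a : ℝ) (j₀ J Jt : ℕ) (x t : ℝ) : 0 ≤ oH E κ' b V a j₀ J Jt x t :=
  Finset.sum_nonneg fun _ _ => mul_nonneg (Real.exp_pos _).le (Pf_nonneg _ _ _ _)

theorem oH_cont (E κ' b V a : ℝ) (j₀ J Jt : ℕ) (x : ℝ) : Continuous (oH E κ' b V a j₀ J Jt x) :=
  continuous_finsetSum _ fun _ _ => continuous_const.mul (Pf_cont _ _ _)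

/-- the weight of one of the points -/
def psH (E κ' S b V a K x : ℝ) (j₀ J Jt n i : ℕ) (t : ℝ) : ℝ :=
  Pf E κ' (yF E a Jt (x + i * (K / E))) t - (oH E κ' b V a j₀ J Jt (x + i * (K / E)) t +
    (∑ k ∈ (Finset.range n).erase i, kG E κ' b V a Jt (lev J K i k) (x + i * (K / E)) (x + k * (K / E)) t +
    Pf E κ' (yF E a Jt (x + i * (K / E))) t * pW E κ' S (x + i * (K / E)) t))

theorem psH_le {E κ' S b V a K x : ℝ} {j₀ J Jt n i : ℕ} {t : ℝ} : psH E κ' S b V a K x j₀ J Jt n i t ≤ Pf E κ' (yF E a Jt (x + i * (K / E))) t := by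
  unfold psH
  have h1 := oH_nonneg E κ' b V a j₀ J Jt (x + i * (K / E)) t
  have h2 : 0 ≤ ∑ k ∈ (Finset.range n).erase i, kG E κ' b V a Jt (lev J K i k) (x + i * (K / E)) (x + k * (K / E)) t :=
    Finset.sum_nonneg fun k _ => kG_nonneg _ _ _ _ _ _ _ _ _ _
  have h3 : 0 ≤ Pf E κ' (yF E a Jt (x + i * (K / E))) t * pW E κ' S (x + i * (K / E)) t :=
    mul_nonneg (Pf_nonneg _ _ _ _) (pW_nonneg _ _ _ _ _)
  linarith

/-- where the weight is positive -/
theorem psH_pos {E κ' S b V a K x : ℝ} {j₀ J Jt n i : ℕ} {t : ℝ} (hE : 1 ≤ E) (hκ : 16 ≤ κ') (hS : 1 ≤ S) (hb : 0 < b) (hb1 : b ≤ 1) (ha0 : 0 ≤ a)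
    (ha : a ≤ S) (hJB : J ≤ JB E) (hJt : Jt ≤ JB E) (h : 0 < psH E κ' S b V a K x j₀ J Jt n i t) :
    GG S E κ' (t + (x + i * (K / E))) ∧
    Pf E κ' (yF E a Jt (x + i * (K / E))) t ≤ 4 * Real.exp (2 * a * FJ E Jt (t + (x + i * (K / E)))) ∧
    (∀ j : ℕ, j₀ ≤ j → j ≤ J → V * j - Real.log 16 / b < FJ E j (t + (x + i * (K / E)))) ∧
    ∀ k ∈ (Finset.range n).erase i, kG E κ' b V a Jt (lev J K i k) (x + i * (K / E)) (x + k * (K / E)) t <
      Pf E κ' (yF E a Jt (x + i * (K / E))) t := by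
  obtain ⟨X, hX⟩ : ∃ X : ℝ, X = x + i * (K / E) := ⟨_, rfl⟩
  unfold psH at h
  rw [← hX] at h ⊢
  obtain ⟨P, hP⟩ : ∃ P : ℝ, P = Pf E κ' (yF E a Jt X) t := ⟨_, rfl⟩
  rw [← hP] at h ⊢
  have h1 := oH_nonneg E κ' b V a j₀ J Jt X t
  have h2 : 0 ≤ ∑ k ∈ (Finset.range n).erase i, kG E κ' b V a Jt (lev J K i k) X (x + k * (K / E)) t :=
    Finset.sum_nonneg fun k _ => kG_nonneg _ _ _ _ _ _ _ _ _ _
  have hP0 : 0 ≤ P := by rw [hP]; exact Pf_nonneg _ _ _ _
  have h3 : 0 ≤ P * pW E κ' S X t := mul_nonneg hP0 (pW_nonneg _ _ _ _ _)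
  have hPp : 0 < P := by linarith
  have hG : GG S E κ' (t + X) := by
    by_contra hcon
    have h5 := bad_GG (by linarith) (by linarith : 0 < κ') hcon
    have h6 : P * 1 ≤ P * pW E κ' S X t := mul_le_mul_of_nonneg_left h5 hPp.le
    linarith
  obtain ⟨p1, -⟩ := Pf_yF (S := S) hE hκ (a := a) (by rw [abs_of_nonneg ha0]; exact ha) hJt hG
  rw [← hP] at p1
  obtain ⟨F, hF⟩ : ∃ F : ℝ, F = FJ E Jt (t + X) := ⟨_, rfl⟩
  rw [← hF] at p1 ⊢
  refine ⟨hG, p1, ?_, ?_⟩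
  · intro j hj0 hjJ
    have h5 : Real.exp (b * V * j) * Pf E κ' (y2 E a Jt X (-(b / 2)) j X) t ≤ oH E κ' b V a j₀ J Jt X t := by
      unfold oH
      exact Finset.single_le_sum (f := fun j : ℕ => Real.exp (b * V * j) * Pf E κ' (y2 E a Jt X (-(b / 2)) j X) t)
        (fun i _ => mul_nonneg (Real.exp_pos _).le (Pf_nonneg _ _ _ _)) (Finset.mem_Icc.2 ⟨hj0, hjJ⟩)
    have h6 := Pf_two (S := S) hE hκ (a := a) (c := -(b / 2)) (by rw [abs_of_nonneg ha0]; exact ha) (by rw [abs_neg, abs_of_pos (by linarith)]; linarith)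
      hJt (hjJ.trans hJB) hG hG
    rw [← hF] at h6
    obtain ⟨G, hGd⟩ : ∃ G : ℝ, G = FJ E j (t + X) := ⟨_, rfl⟩
    rw [← hGd] at h6 ⊢
    have h7 : Real.exp (b * (V * j - G)) * Real.exp (2 * a * F) < 16 * Real.exp (2 * a * F) := by
      calc Real.exp (b * (V * j - G)) * Real.exp (2 * a * F) = Real.exp (b * V * j) * Real.exp (2 * a * F + 2 * -(b / 2) * G) := by
            rw [← Real.exp_add, ← Real.exp_add]
            congr 1
            ring
        _ ≤ Real.exp (b * V * j) * (4 * Pf E κ' (y2 E a Jt X (-(b / 2)) j X) t) := mul_le_mul_of_nonneg_left h6 (Real.exp_pos _).le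
        _ = 4 * (Real.exp (b * V * j) * Pf E κ' (y2 E a Jt X (-(b / 2)) j X) t) := by ring
        _ < 4 * P := by linarith
        _ ≤ 16 * Real.exp (2 * a * F) := by linarith
    have h8 := lt_of_mul_lt_mul_right h7 (Real.exp_pos _).le
    rw [← Real.lt_log_iff_exp_lt (by norm_num)] at h8
    have h9 : V * j - G < Real.log 16 / b := by
      rw [lt_div_iff₀ hb]
      linarith
    linarith
  · intro k hk
    have h5 : kG E κ' b V a Jt (lev J K i k) X (x + k * (K / E)) t ≤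
        ∑ k ∈ (Finset.range n).erase i, kG E κ' b V a Jt (lev J K i k) X (x + k * (K / E)) t :=
      Finset.single_le_sum (f := fun k : ℕ => kG E κ' b V a Jt (lev J K i k) X (x + k * (K / E)) t) (fun k _ => kG_nonneg _ _ _ _ _ _ _ _ _ _) hk
    linarith

/-- two points cannot both be distinguished -/
theorem psH_unique {E κ' S b V a K x t : ℝ} {j₀ J Jt n : ℕ} (hE : 1 ≤ E) (hκ : 16 ≤ κ') (hS : 1 ≤ S) (hb : 0 < b) (hb1 : b ≤ 1)
    (ha0 : 0 ≤ a) (ha : a ≤ S) (hV0 : 0 < V) (hVS : V ≤ S) (hK : Real.exp j₀ ≤ K) (hJ : j₀ ≤ J) (hJB : J ≤ JB E) (hJt : Jt ≤ JB E)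
    {i k : ℕ} (hk : k ∈ Finset.range n) (h1 : 0 < psH E κ' S b V a K x j₀ J Jt n i t) (h2 : 0 < psH E κ' S b V a K x j₀ J Jt n k t) : i = k := by
  by_contra hik
  have hK1 : 1 ≤ K := le_trans (Real.one_le_exp (Nat.cast_nonneg _)) hK
  have hK0 : 0 < K := by linarith
  obtain ⟨a1, a2, -, a5⟩ := psH_pos hE hκ hS hb hb1 ha0 ha hJB hJt h1
  obtain ⟨b1, -, b3, -⟩ := psH_pos hE hκ hS hb hb1 ha0 ha hJB hJt h2
  obtain ⟨j, hj⟩ : ∃ j : ℕ, j = lev J K i k := ⟨_, rfl⟩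
  have hjJ : j ≤ J := by rw [hj]; exact min_le_left _ _
  have hj0 : j₀ ≤ j := by
    rw [hj]
    unfold lev
    apply le_min hJ
    apply Nat.le_floor
    rw [Real.le_log_iff_exp_le (mul_pos (lt_of_lt_of_le one_pos (abs_sub_ge hik)) hK0)]
    calc Real.exp j₀ ≤ K := hK
      _ ≤ |(i : ℝ) - k| * K := le_mul_of_one_le_left hK0.le (abs_sub_ge hik)
  have c1 := b3 j hj0 hjJ
  have c2 := a5 k (Finset.mem_erase.2 ⟨fun h => hik h.symm, hk⟩)
  rw [← hj] at c2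
  have c3 := Pf_two (S := S) hE hκ (a := a) (c := V) (by rw [abs_of_nonneg ha0]; exact ha) (by rw [abs_of_pos hV0]; exact hVS)
    hJt (hjJ.trans hJB) a1 b1
  obtain ⟨F, hF⟩ : ∃ F : ℝ, F = FJ E Jt (t + (x + i * (K / E))) := ⟨_, rfl⟩
  obtain ⟨G, hG⟩ : ∃ G : ℝ, G = FJ E j (t + (x + k * (K / E))) := ⟨_, rfl⟩
  rw [← hF] at a2 c3
  rw [← hG] at c1 c3
  have c4 : Real.exp (2 * V * (Real.log 16 / b) - 2 * V ^ 2 * j + 2 * V * G) * Real.exp (2 * a * F) < 1 * Real.exp (2 * a * F) := by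
    calc Real.exp (2 * V * (Real.log 16 / b) - 2 * V ^ 2 * j + 2 * V * G) * Real.exp (2 * a * F) =
          Real.exp (2 * V * (Real.log 16 / b)) * Real.exp (-(2 * V ^ 2 * j)) * Real.exp (2 * a * F + 2 * V * G) := by
          rw [← Real.exp_add, ← Real.exp_add, ← Real.exp_add]
          congr 1
          ring
      _ ≤ Real.exp (2 * V * (Real.log 16 / b)) * Real.exp (-(2 * V ^ 2 * j)) * (4 * Pf E κ' (y2 E a Jt (x + i * (K / E)) V j (x + k * (K / E))) t) :=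
          mul_le_mul_of_nonneg_left c3 (by positivity)
      _ = 1 / 4 * kG E κ' b V a Jt j (x + i * (K / E)) (x + k * (K / E)) t := by unfold kG; ring
      _ < 1 / 4 * (4 * Real.exp (2 * a * F)) := by linarith
      _ = 1 * Real.exp (2 * a * F) := by ring
  have c5 := lt_of_mul_lt_mul_right c4 (Real.exp_pos _).le
  rw [Real.exp_lt_one_iff] at c5
  have c6 : 2 * V * (Real.log 16 / b) - 2 * V ^ 2 * j + 2 * V * G = 2 * V * (G - (V * j - Real.log 16 / b)) := by ring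
  rw [c6] at c5
  have c7 : 0 < 2 * V * (G - (V * j - Real.log 16 / b)) := mul_pos (by linarith) (by linarith)
  linarith

/-- Young's inequality, from below -/
theorem young_low {β u v : ℝ} (hβ : 2 < β) (hu : 0 ≤ u) (hv : 0 < v) : β / 2 * v ^ (β - 2) * u ^ (2 : ℝ) - (β / 2 - 1) * v ^ β ≤ u ^ β := by
  have hβ0 : 0 < β := by linarith
  have h1 := Real.geom_mean_le_arith_mean2_weighted (w₁ := 2 / β) (w₂ := 1 - 2 / β) (p₁ := u ^ β) (p₂ := v ^ β) (by positivity)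
    (by rw [sub_nonneg, div_le_one hβ0]; linarith) (Real.rpow_nonneg hu _) (Real.rpow_nonneg hv.le _) (by ring)
  rw [← Real.rpow_mul hu, ← Real.rpow_mul hv.le] at h1
  have e1 : β * (2 / β) = 2 := by field_simp
  have e2 : β * (1 - 2 / β) = β - 2 := by field_simp
  rw [e1, e2] at h1
  have h2 := mul_le_mul_of_nonneg_left h1 (by positivity : 0 ≤ β / 2)
  have e3 : β / 2 * (2 / β * u ^ β + (1 - 2 / β) * v ^ β) = u ^ β + (β / 2 - 1) * v ^ β := by field_simp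
  rw [e3] at h2
  linarith

/-- **the pointwise inequality, all orders** -/
theorem psH_sum_le {E κ' S β b V c K H x t : ℝ} {j₀ J n : ℕ} (hE : 1 ≤ E) (hκ : 16 ≤ κ') (hβ2 : 2 < β) (hS : β ≤ S) (hb : 0 < b) (hb1 : b ≤ 1)
    (hV0 : 0 < V) (hVS : V ≤ S) (hc : 0 < c) (hH : 0 ≤ H) (hK : Real.exp j₀ ≤ K) (hJ : j₀ ≤ J) (hJB : J ≤ JB E)
    (hn : ∀ i, i < n → (i : ℝ) * (K / E) ≤ H) :
    ∑ i ∈ Finset.range n, (β / 2 * c ^ (β - 2) * (fz 2 (t + (x + i * (K / E))) * (1 / 4 * psH E κ' S b V (β / 2 - 1) K x j₀ J (JB E) n i t)) -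
      (β / 2 - 1) * c ^ β * (4 * Pf E κ' (yF E (β / 2) (JB E) (x + i * (K / E))) t)) ≤ MH H x t ^ β := by
  have hK1 : 1 ≤ K := le_trans (Real.one_le_exp (Nat.cast_nonneg _)) hK
  have hK0 : 0 < K := by linarith
  have hE0 : 0 < E := by linarith
  have hca : 0 < β / 2 * c ^ (β - 2) := by positivity
  have hcb : 0 < (β / 2 - 1) * c ^ β := mul_pos (by linarith) (by positivity)
  apply one_only' (Finset.range n) _ (fun i => 0 < psH E κ' S b V (β / 2 - 1) K x j₀ J (JB E) n i t)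
    (Real.rpow_nonneg (MH_nonneg hH x t) _)
  · intro i _ h
    have h1 : psH E κ' S b V (β / 2 - 1) K x j₀ J (JB E) n i t ≤ 0 := not_lt.1 h
    have h2 : fz 2 (t + (x + i * (K / E))) * (1 / 4 * psH E κ' S b V (β / 2 - 1) K x j₀ J (JB E) n i t) ≤ 0 :=
      mul_nonpos_of_nonneg_of_nonpos (fz_nonneg _ _) (by linarith)
    have h3 := Pf_nonneg E κ' (yF E (β / 2) (JB E) (x + i * (K / E))) t
    have h4 := mul_nonpos_of_nonneg_of_nonpos hca.le h2
    have h5 : 0 ≤ (β / 2 - 1) * c ^ β * (4 * Pf E κ' (yF E (β / 2) (JB E) (x + i * (K / E))) t) := mul_nonneg hcb.le (by linarith)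
    linarith
  · intro i hi h
    have hi' := Finset.mem_range.1 hi
    obtain ⟨g1, g2, -, -⟩ := psH_pos hE hκ (by linarith) hb hb1 (by linarith) (by linarith) hJB le_rfl h
    obtain ⟨-, g3⟩ := Pf_yF (S := S) hE hκ (a := β / 2) (by rw [abs_of_pos (by linarith)]; linarith) le_rfl g1
    obtain ⟨F, hF⟩ : ∃ F : ℝ, F = FJ E (JB E) (t + (x + i * (K / E))) := ⟨_, rfl⟩
    rw [← hF] at g2 g3
    have h1 : 1 / 4 * psH E κ' S b V (β / 2 - 1) K x j₀ J (JB E) n i t ≤ Real.exp ((β - 2) * F) := by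
      have h2 := psH_le (E := E) (κ' := κ') (S := S) (b := b) (V := V) (a := β / 2 - 1) (K := K) (x := x) (j₀ := j₀) (J := J) (Jt := JB E) (n := n) (i := i) (t := t)
      have e : 2 * (β / 2 - 1) * F = (β - 2) * F := by ring
      rw [e] at g2
      linarith
    have h2 := young_low hβ2 (norm_nonneg (zt (t + (x + i * (K / E))))) (v := c * Real.exp F) (by positivity)
    rw [Real.mul_rpow hc.le (Real.exp_pos _).le, Real.mul_rpow hc.le (Real.exp_pos _).le, ← Real.exp_mul, ← Real.exp_mul] at h2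
    have h0 : 0 ≤ (i : ℝ) * (K / E) := by positivity
    have h3 : ‖zt (t + (x + i * (K / E)))‖ ^ β ≤ MH H x t ^ β :=
      Real.rpow_le_rpow (norm_nonneg _) (le_MH ⟨by linarith, by linarith [hn i hi']⟩) (by linarith)
    have h4 : β / 2 * c ^ (β - 2) * (fz 2 (t + (x + i * (K / E))) * (1 / 4 * psH E κ' S b V (β / 2 - 1) K x j₀ J (JB E) n i t)) ≤
        β / 2 * c ^ (β - 2) * (fz 2 (t + (x + i * (K / E))) * Real.exp ((β - 2) * F)) :=
      mul_le_mul_of_nonneg_left (mul_le_mul_of_nonneg_left h1 (fz_nonneg _ _)) hca.le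
    have h5 : (β / 2 - 1) * c ^ β * Real.exp (F * β) ≤ (β / 2 - 1) * c ^ β * (4 * Pf E κ' (yF E (β / 2) (JB E) (x + i * (K / E))) t) := by
      apply mul_le_mul_of_nonneg_left _ hcb.le
      have e : 2 * (β / 2) * F = F * β := by ring
      rw [e] at g3
      exact g3
    have e1 : β / 2 * (c ^ (β - 2) * Real.exp (F * (β - 2))) * ‖zt (t + (x + i * (K / E)))‖ ^ (2 : ℝ) =
        β / 2 * c ^ (β - 2) * (fz 2 (t + (x + i * (K / E))) * Real.exp ((β - 2) * F)) := by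
      unfold fz
      rw [mul_comm F (β - 2)]
      ring
    have e2 : (β / 2 - 1) * (c ^ β * Real.exp (F * β)) = (β / 2 - 1) * c ^ β * Real.exp (F * β) := by ring
    rw [e1, e2] at h2
    linarith
  · intro i _ k hk h1 h2
    exact psH_unique hE hκ (by linarith) hb hb1 (by linarith) (by linarith) hV0 hVS hK hJ hJB le_rfl hk h1 h2

end

end Pool.Agent.H469.F4
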