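import Pool.Agent.H469.F4.S2

set_option autoImplicit false

/-!
# Maxima, moments of all orders: mean values of the weights
-/

namespace Pool.Agent.H469.F4

open Filter Topology MeasureTheory Complex Pool.Agent.Q97.UM
open Pool.Agent.Q14.UM (mem_PB PB_disj cv_len)
open Pool.Agent.Q184.UM (pw_cont)

noncomputable section

/-- the upper bounds used below -/
def UpbS (E κ' B C T : ℝ) : Prop := ∀ X : ℝ, |X| ≤ T / 2 → ∀ y : ℕ → ℂ, (∀ n, ‖y n‖ ≤ B) →
  ∫ t in T..(2 * T), fz 2 (t + X) * Pf E κ' y t ≤ C * (T * (C * VV E (aw 2 X) y))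

/-- the predicted orders, as a property of the constants -/
def VH (Cv E₀ B : ℝ) : Prop := ∀ (E β a x : ℝ) (j : ℕ), E₀ ≤ E * Real.exp (-(j : ℝ)) → 0 ≤ β → β ≤ B → |a| ≤ B →
    (Real.exp (-Cv) * Real.exp (β ^ 2 / 4 * Real.log E) ≤ VV E (aw β x) (fun _ => 0)) ∧
    (VV E (aw β x) (yF E a j x) ≤ Real.exp Cv * Real.exp (β ^ 2 / 4 * Real.log E + (a * β + a ^ 2) * j)) ∧
    (0 ≤ a → ∀ x' : ℝ,
      (|x - x'| ≤ 1 → 1 ≤ |x - x'| * (E * Real.exp (-(j : ℝ))) →
        VV E (aw β x) (yF E a j x') ≤ Real.exp Cv * Real.exp (β ^ 2 / 4 * Real.log E + a ^ 2 * j)) ∧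
      (E * Real.exp (-(j : ℝ)) ≤ Real.exp 1 * E₀ → 1 ≤ |x - x'| →
        VV E (aw β x) (yF E a j x') ≤ Real.exp Cv * Real.exp (β ^ 2 / 4 * Real.log E + a ^ 2 * j +
          β * a * Real.log (5 + Real.log (|x - x'| + 1)))))

theorem norm_y2B {a c B : ℝ} (E : ℝ) (j j' : ℕ) (x x' : ℝ) (h : |a| + |c| ≤ B) (n : ℕ) : ‖y2 E a j x c j' x' n‖ ≤ B := by
  unfold y2
  refine (norm_add_le _ _).trans ?_
  have h1 := norm_yF (le_refl |a|) E j x n
  have h2 := norm_yF (le_refl |c|) E j' x' n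
  linarith

/-- the own part -/
theorem ownH_le {E κ' β b V B C Cv T X : ℝ} (hE : 1 ≤ E) (hU : UpbS E κ' B C T) (hC : 0 < C) (hT : 0 ≤ T) (hX : |X| ≤ T / 2) (hβ2 : 2 < β)
    (hb : 0 < b) (hbB : β / 2 - 1 + b / 2 ≤ B) (hV : V = β / 2 - b) {j₀ J : ℕ}
    (hVV : ∀ j : ℕ, j ≤ J → VV E (aw β X) (yF E (-(b / 2)) j X) ≤ Real.exp Cv * Real.exp (β ^ 2 / 4 * Real.log E + (-(b / 2) * β + (-(b / 2)) ^ 2) * j)) :
    ∫ t in T..(2 * T), fz 2 (t + X) * oH E κ' b V (β / 2 - 1) j₀ J (JB E) X t ≤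
      C ^ 2 * Real.exp Cv * (T * Real.exp (β ^ 2 / 4 * Real.log E)) * (Real.exp (-(3 / 4 * b ^ 2) * j₀) * (1 - Real.exp (-(3 / 4 * b ^ 2)))⁻¹) := by
  have hfc : Continuous fun t => fz 2 (t + X) := (fz_cont (by norm_num)).comp (by fun_prop)
  have e1 : ∀ t, fz 2 (t + X) * oH E κ' b V (β / 2 - 1) j₀ J (JB E) X t =
      ∑ j ∈ Finset.Icc j₀ J, Real.exp (b * V * j) * (fz 2 (t + X) * Pf E κ' (y2 E (β / 2 - 1) (JB E) X (-(b / 2)) j X) t) := by
    intro t
    unfold oH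
    rw [Finset.mul_sum]
    exact Finset.sum_congr rfl fun j _ => by ring
  simp only [e1]
  have e0 : ∫ t in T..(2 * T), ∑ j ∈ Finset.Icc j₀ J, Real.exp (b * V * j) * (fz 2 (t + X) * Pf E κ' (y2 E (β / 2 - 1) (JB E) X (-(b / 2)) j X) t) =
      ∑ j ∈ Finset.Icc j₀ J, ∫ t in T..(2 * T), Real.exp (b * V * j) * (fz 2 (t + X) * Pf E κ' (y2 E (β / 2 - 1) (JB E) X (-(b / 2)) j X) t) :=
    intervalIntegral.integral_finsetSum fun j _ => (continuous_const.mul (hfc.mul (Pf_cont _ _ _))).intervalIntegrable _ _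
  rw [e0]
  have h1 : ∀ j ∈ Finset.Icc j₀ J, ∫ t in T..(2 * T), Real.exp (b * V * j) * (fz 2 (t + X) * Pf E κ' (y2 E (β / 2 - 1) (JB E) X (-(b / 2)) j X) t) ≤
      C ^ 2 * Real.exp Cv * (T * Real.exp (β ^ 2 / 4 * Real.log E)) * Real.exp (-(3 / 4 * b ^ 2) * j) := by
    intro j hj
    rw [intervalIntegral.integral_const_mul]
    have h2 := hU X hX (y2 E (β / 2 - 1) (JB E) X (-(b / 2)) j X) fun n => norm_y2B E _ _ _ _
      (by rw [abs_neg, abs_of_pos (by linarith : 0 < b / 2), abs_of_pos (by linarith : 0 < β / 2 - 1)]; exact hbB) n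
    have hsh : VV E (aw 2 X) (y2 E (β / 2 - 1) (JB E) X (-(b / 2)) j X) = VV E (aw β X) (yF E (-(b / 2)) j X) := VV_shift hE β X (-(b / 2)) j X
    rw [hsh] at h2
    have h3 := hVV j (Finset.mem_Icc.1 hj).2
    calc Real.exp (b * V * j) * ∫ t in T..(2 * T), fz 2 (t + X) * Pf E κ' (y2 E (β / 2 - 1) (JB E) X (-(b / 2)) j X) t ≤
        Real.exp (b * V * j) * (C * (T * (C * (Real.exp Cv * Real.exp (β ^ 2 / 4 * Real.log E + (-(b / 2) * β + (-(b / 2)) ^ 2) * j))))) := by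
          apply mul_le_mul_of_nonneg_left _ (Real.exp_pos _).le
          refine h2.trans ?_
          apply mul_le_mul_of_nonneg_left _ hC.le
          apply mul_le_mul_of_nonneg_left _ hT
          exact mul_le_mul_of_nonneg_left h3 hC.le
      _ = C ^ 2 * Real.exp Cv * (T * (Real.exp (b * V * j) * Real.exp (β ^ 2 / 4 * Real.log E + (-(b / 2) * β + (-(b / 2)) ^ 2) * j))) := by ring
      _ = _ := by
          have e2 : Real.exp (b * V * j) * Real.exp (β ^ 2 / 4 * Real.log E + (-(b / 2) * β + (-(b / 2)) ^ 2) * j) =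
              Real.exp (β ^ 2 / 4 * Real.log E) * Real.exp (-(3 / 4 * b ^ 2) * j) := by
            rw [← Real.exp_add, ← Real.exp_add]
            congr 1
            rw [hV]
            ring
          rw [e2]
          ring
  refine (Finset.sum_le_sum h1).trans ?_
  rw [← Finset.mul_sum]
  apply mul_le_mul_of_nonneg_left _ (by positivity)
  obtain ⟨r, hr⟩ : ∃ r : ℝ, r = Real.exp (-(3 / 4 * b ^ 2)) := ⟨_, rfl⟩
  have hr0 : 0 ≤ r := by rw [hr]; exact (Real.exp_pos _).le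
  have hr1 : r < 1 := by
    rw [hr, Real.exp_lt_one_iff]
    have : 0 < b ^ 2 := by positivity
    linarith
  have hp : ∀ j : ℕ, Real.exp (-(3 / 4 * b ^ 2) * j) = r ^ j := fun j => by
    rw [hr, ← Real.exp_nat_mul]
    congr 1
    ring
  simp only [hp]
  rw [← hr]
  have hs := summable_geometric_of_lt_one hr0 hr1
  have h2 : ∑ j ∈ Finset.Icc j₀ J, r ^ j ≤ ∑ j ∈ (Finset.range (J + 1)).image (fun m => j₀ + m), r ^ j := by
    apply Finset.sum_le_sum_of_subset_of_nonneg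
    · intro j hj
      rw [Finset.mem_Icc] at hj
      rw [Finset.mem_image]
      exact ⟨j - j₀, Finset.mem_range.2 (by omega), by omega⟩
    · intro j _ _
      positivity
  refine h2.trans ?_
  rw [Finset.sum_image fun a _ c _ h => by omega]
  simp only [pow_add]
  rw [← Finset.mul_sum]
  apply mul_le_mul_of_nonneg_left _ (by positivity)
  rw [← tsum_geometric_of_lt_one hr0 hr1]
  exact hs.sum_le_tsum _ fun i _ => by positivity

/-- one competitor -/
theorem compH_le {E κ' β b V B C Cv T X Y F : ℝ} (hE : 1 ≤ E) (hU : UpbS E κ' B C T) (hC : 0 < C) (hT : 0 ≤ T) (hX : |X| ≤ T / 2) (hβ2 : 2 < β)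
    (hV0 : 0 < V) (hVB : β / 2 - 1 + V ≤ B) {j : ℕ}
    (hVV : VV E (aw β X) (yF E V j Y) ≤ Real.exp Cv * Real.exp (β ^ 2 / 4 * Real.log E + V ^ 2 * j + F)) :
    ∫ t in T..(2 * T), fz 2 (t + X) * kG E κ' b V (β / 2 - 1) (JB E) j X Y t ≤
      16 * Real.exp (2 * V * (Real.log 16 / b)) * (C ^ 2 * Real.exp Cv) * (T * Real.exp (β ^ 2 / 4 * Real.log E)) * (Real.exp (-(V ^ 2 * j)) * Real.exp F) := by
  have e1 : ∀ t, fz 2 (t + X) * kG E κ' b V (β / 2 - 1) (JB E) j X Y t = 16 * Real.exp (2 * V * (Real.log 16 / b)) * Real.exp (-(2 * V ^ 2 * j)) *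
      (fz 2 (t + X) * Pf E κ' (y2 E (β / 2 - 1) (JB E) X V j Y) t) := by
    intro t
    unfold kG
    ring
  simp only [e1]
  rw [intervalIntegral.integral_const_mul]
  have h2 := hU X hX (y2 E (β / 2 - 1) (JB E) X V j Y) fun n => norm_y2B E _ _ _ _
    (by rw [abs_of_pos hV0, abs_of_pos (by linarith : 0 < β / 2 - 1)]; exact hVB) n
  have hsh : VV E (aw 2 X) (y2 E (β / 2 - 1) (JB E) X V j Y) = VV E (aw β X) (yF E V j Y) := VV_shift hE β X V j Y
  rw [hsh] at h2
  calc 16 * Real.exp (2 * V * (Real.log 16 / b)) * Real.exp (-(2 * V ^ 2 * j)) * ∫ t in T..(2 * T), fz 2 (t + X) * Pf E κ' (y2 E (β / 2 - 1) (JB E) X V j Y) t ≤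
      16 * Real.exp (2 * V * (Real.log 16 / b)) * Real.exp (-(2 * V ^ 2 * j)) *
        (C * (T * (C * (Real.exp Cv * Real.exp (β ^ 2 / 4 * Real.log E + V ^ 2 * j + F))))) := by
        apply mul_le_mul_of_nonneg_left _ (by positivity)
        refine h2.trans ?_
        apply mul_le_mul_of_nonneg_left _ hC.le
        apply mul_le_mul_of_nonneg_left _ hT
        exact mul_le_mul_of_nonneg_left hVV hC.le
    _ = 16 * Real.exp (2 * V * (Real.log 16 / b)) * (C ^ 2 * Real.exp Cv) * (T * (Real.exp (-(2 * V ^ 2 * j)) *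
        Real.exp (β ^ 2 / 4 * Real.log E + V ^ 2 * j + F))) := by ring
    _ = _ := by
        have e2 : Real.exp (-(2 * V ^ 2 * j)) * Real.exp (β ^ 2 / 4 * Real.log E + V ^ 2 * j + F) =
            Real.exp (β ^ 2 / 4 * Real.log E) * (Real.exp (-(V ^ 2 * j)) * Real.exp F) := by
          rw [← Real.exp_add, ← Real.exp_add, ← Real.exp_add]
          congr 1
          ring
        rw [e2]
        ring

/-- **the competitors** -/
theorem pairH_le {E κ' β b V B C Cv E₀ T K H x : ℝ} {J N i k : ℕ} (hF : VH Cv E₀ B) (hU : UpbS E κ' B C T) (hC : 0 < C) (hT : 0 ≤ T)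
    (hβ2 : 2 < β) (hβB : β ≤ B) (hV0 : 0 < V) (hVB : β / 2 - 1 + V ≤ B) (hN : β * V ≤ N) (hE₀ : 1 ≤ E₀) (hEE : E₀ ≤ E) (hK : 1 ≤ K)
    (hJ : J = ⌊Real.log (E / E₀)⌋₊) (hik : i ≠ k) (hX : |x + i * (K / E)| ≤ T / 2) (hH : |(i : ℝ) - k| * (K / E) ≤ H) :
    ∫ t in T..(2 * T), fz 2 (t + (x + i * (K / E))) * kG E κ' b V (β / 2 - 1) (JB E) (lev J K i k) (x + i * (K / E)) (x + k * (K / E)) t ≤
      16 * Real.exp (2 * V * (Real.log 16 / b)) * (C ^ 2 * Real.exp Cv) * (T * Real.exp (β ^ 2 / 4 * Real.log E)) *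
        (Real.exp (V ^ 2) * K ^ (-(V ^ 2)) * |(i : ℝ) - k| ^ (-(V ^ 2)) + (5 + Real.log (H + 1)) ^ N * (Real.exp 1 * E₀ / E) ^ (V ^ 2)) := by
  have hE₀0 : 0 < E₀ := by linarith
  have hE0 : 0 < E := by linarith
  have hE1 : 1 ≤ E := by linarith
  have hK0 : 0 < K := by linarith
  have hβ0 : 0 ≤ β := by linarith
  have hd := abs_sub_ge hik
  obtain ⟨m, hm⟩ : ∃ m : ℝ, m = |(i : ℝ) - k| * K := ⟨_, rfl⟩
  have hm1 : 1 ≤ m := by rw [hm]; nlinarith
  have hm0 : 0 < m := by linarith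
  have hlm : 0 ≤ Real.log m := Real.log_nonneg hm1
  obtain ⟨j, hj⟩ : ∃ j : ℕ, j = lev J K i k := ⟨_, rfl⟩
  have hj' : j = min J ⌊Real.log m⌋₊ := by rw [hj, hm]; rfl
  have hjJ : j ≤ J := by rw [hj']; exact min_le_left _ _
  have hjm : j ≤ ⌊Real.log m⌋₊ := by rw [hj']; exact min_le_right _ _
  have hdist : |x + i * (K / E) - (x + k * (K / E))| = m / E := by
    have : x + i * (K / E) - (x + k * (K / E)) = ((i : ℝ) - k) * (K / E) := by ring
    rw [this, abs_mul, abs_of_pos (by positivity : 0 < K / E), hm]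
    ring
  have hmH : m / E ≤ H := by
    have : m / E = |(i : ℝ) - k| * (K / E) := by rw [hm]; ring
    rw [this]
    exact hH
  obtain ⟨g1, g2⟩ := last_lev hE₀ hEE hJ
  have hjE : E₀ ≤ E * Real.exp (-(j : ℝ)) := by
    refine g1.trans ?_
    apply mul_le_mul_of_nonneg_left _ hE0.le
    apply Real.exp_le_exp.2
    have : (j : ℝ) ≤ J := by exact_mod_cast hjJ
    linarith
  obtain ⟨-, -, h3⟩ := hF E β V (x + i * (K / E)) j hjE hβ0 hβB (by rw [abs_of_pos hV0]; linarith)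
  obtain ⟨h4, h5⟩ := h3 hV0.le (x + k * (K / E))
  rw [hdist] at h4 h5
  rw [← hj]
  have hH0 : 0 ≤ H := le_trans (by positivity) hmH
  have hlH : 0 ≤ Real.log (H + 1) := Real.log_nonneg (by linarith)
  have hD1 : 1 ≤ (5 + Real.log (H + 1)) ^ N := one_le_pow₀ (by linarith)
  have hV := sq_nonneg V
  have n2 : 0 ≤ (Real.exp 1 * E₀ / E) ^ (V ^ 2) := by positivity
  have emK : Real.exp (V ^ 2) * K ^ (-(V ^ 2)) * |(i : ℝ) - k| ^ (-(V ^ 2)) = Real.exp (V ^ 2) * m ^ (-(V ^ 2)) := by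
    rw [hm, Real.mul_rpow (abs_nonneg _) hK0.le]
    ring
  rw [emK]
  have n1 : 0 ≤ Real.exp (V ^ 2) * m ^ (-(V ^ 2)) := by positivity
  rcases le_total (m / E) 1 with hc | hc
  · have h6 : 1 ≤ m / E * (E * Real.exp (-(j : ℝ))) := by
      have h7 : (j : ℝ) ≤ Real.log m := by
        have : (j : ℝ) ≤ (⌊Real.log m⌋₊ : ℝ) := by exact_mod_cast hjm
        exact this.trans (Nat.floor_le hlm)
      have h8 : Real.exp j ≤ m := by
        rw [← Real.le_log_iff_exp_le hm0]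
        exact h7
      have e : Real.exp j * Real.exp (-(j : ℝ)) = 1 := by rw [← Real.exp_add]; simp
      calc (1 : ℝ) = Real.exp j * Real.exp (-(j : ℝ)) := e.symm
        _ ≤ m * Real.exp (-(j : ℝ)) := mul_le_mul_of_nonneg_right h8 (Real.exp_pos _).le
        _ = _ := by field_simp
    have h7 := h4 hc h6
    have h8 := compH_le (κ' := κ') (b := b) (F := 0) hE1 hU hC hT hX hβ2 hV0 hVB (j := j) (Y := x + k * (K / E)) (by rw [add_zero]; exact h7)
    refine h8.trans ?_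
    apply mul_le_mul_of_nonneg_left _ (by positivity)
    rw [Real.exp_zero, mul_one]
    have h9 := exp_lev (V := V) hE₀0 hEE hm1 hJ
    rw [← hj'] at h9
    nlinarith
  · have hjJ' : j = J := by
      rw [hj', min_eq_left]
      rw [hJ]
      apply Nat.floor_mono
      apply Real.log_le_log (by positivity)
      rw [one_le_div hE0] at hc
      exact (div_le_self hE0.le hE₀).trans hc
    have h7 := h5 (by rw [hjJ']; exact g2) hc
    have h8 := compH_le (κ' := κ') (b := b) (F := β * V * Real.log (5 + Real.log (m / E + 1))) hE1 hU hC hT hX hβ2 hV0 hVB (j := j)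
      (Y := x + k * (K / E)) h7
    refine h8.trans ?_
    apply mul_le_mul_of_nonneg_left _ (by positivity)
    have h9 := exp_last (V := V) hE₀0 hEE hJ
    rw [← hjJ'] at h9
    have hlm2 : 0 ≤ Real.log (m / E + 1) := Real.log_nonneg (by linarith [div_nonneg hm0.le hE0.le])
    have h10 : Real.exp (β * V * Real.log (5 + Real.log (m / E + 1))) ≤ (5 + Real.log (H + 1)) ^ N := by
      have h11 : Real.log (5 + Real.log (m / E + 1)) ≤ Real.log (5 + Real.log (H + 1)) := by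
        apply Real.log_le_log (by linarith)
        have : Real.log (m / E + 1) ≤ Real.log (H + 1) := Real.log_le_log (by positivity) (by linarith)
        linarith
      have h12 : 0 ≤ Real.log (5 + Real.log (H + 1)) := Real.log_nonneg (by linarith)
      have h14 : 0 ≤ β * V := by positivity
      calc Real.exp (β * V * Real.log (5 + Real.log (m / E + 1))) ≤ Real.exp ((N : ℝ) * Real.log (5 + Real.log (H + 1))) := by
            apply Real.exp_le_exp.2
            exact mul_le_mul hN h11 (Real.log_nonneg (by linarith)) (Nat.cast_nonneg _)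
        _ = _ := by
            rw [Real.exp_nat_mul, Real.exp_log (by linarith)]
    calc Real.exp (-(V ^ 2 * (j : ℝ))) * Real.exp (β * V * Real.log (5 + Real.log (m / E + 1))) ≤
        (Real.exp 1 * E₀ / E) ^ (V ^ 2) * (5 + Real.log (H + 1)) ^ N := mul_le_mul h9 h10 (Real.exp_pos _).le n2
      _ ≤ _ := by linarith

end

end Pool.Agent.H469.F4
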