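import Pool.Agent.H469.F4.S3

set_option autoImplicit false

/-!
# Maxima, moments of all orders: the sum over the points
-/

namespace Pool.Agent.H469.F4

open Filter Topology MeasureTheory Complex Pool.Agent.Q97.UM
open Pool.Agent.Q14.UM (mem_PB PB_disj cv_len)

noncomputable section

theorem psH_cont {E κ' S b V a K x : ℝ} {j₀ J Jt n i : ℕ} : Continuous (psH E κ' S b V a K x j₀ J Jt n i) := by
  unfold psH
  exact (Pf_cont _ _ _).sub ((oH_cont _ _ _ _ _ _ _ _ _).add ((continuous_finsetSum _ fun k _ => kG_cont _ _ _ _ _ _ _ _ _).add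
    ((Pf_cont _ _ _).mul (pW_cont _ _ _ _))))

/-- **the mean value of one weight** -/
theorem oneH {E κ' S β b V B C Cv E₀ T K H x η c₀ Z D : ℝ} {J j₀ n N : ℕ} (hF : VH Cv E₀ B) (hU : UpbS E κ' B C T)
    (hC : 0 < C) (hT : 0 < T) (hβ2 : 2 < β) (hβS : β ≤ S) (hβB : β ≤ B) (hb : 0 < b) (hb1 : b ≤ 1) (hV : V = β / 2 - b) (hV0 : 0 < V)
    (hVB : β / 2 - 1 + V ≤ B) (hN : β * V ≤ N) (hE₀ : 1 ≤ E₀) (hκ : 16 ≤ κ')
    (hj₀ : Real.exp j₀ ≤ E / E₀) (hK : K = Real.exp j₀) (hJ : J = ⌊Real.log (E / E₀)⌋₊) (hH : 0 ≤ H) (hHT : |x| + H ≤ T / 2)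
    (hn : n = ⌊H * E / K⌋₊ + 1) (hc₀ : 0 < c₀)
    (hQ : ∀ X, |X| ≤ T / 2 → ∃ Q : ℝ, c₀ * VV E (aw 2 X) (yF E (β / 2 - 1) (JB E) X) ≤ Q ∧
      T * Q ≤ ∫ t in T..(2 * T), fz 2 (t + X) * Pf E κ' (yF E (β / 2 - 1) (JB E) X) t ∧
      ∫ t in T..(2 * T), fz 2 (t + X) * (Pf E κ' (yF E (β / 2 - 1) (JB E) X) t * pW E κ' S X t) ≤ 1 / 8 * (T * Q))
    (hZ : ∀ (n i : ℕ), ∑ k ∈ (Finset.range n).erase i, |(i : ℝ) - k| ^ (-(V ^ 2)) ≤ Z)
    (hη : η = c₀ * Real.exp (-Cv) / 8) (hD : D = 16 * Real.exp (2 * V * (Real.log 16 / b)) * (C ^ 2 * Real.exp Cv))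
    (h1 : C ^ 2 * Real.exp Cv * (Real.exp (-(3 / 4 * b ^ 2) * j₀) * (1 - Real.exp (-(3 / 4 * b ^ 2)))⁻¹) ≤ η)
    (h2 : D * (Real.exp (V ^ 2) * K ^ (-(V ^ 2)) * Z) ≤ η)
    (h3 : D * (n * ((5 + Real.log (H + 1)) ^ N * (Real.exp 1 * E₀ / E) ^ (V ^ 2))) ≤ η) :
    ∀ i, i < n → 4 * η * (T * Real.exp (β ^ 2 / 4 * Real.log E)) ≤
      ∫ t in T..(2 * T), fz 2 (t + (x + i * (K / E))) * psH E κ' S b V (β / 2 - 1) K x j₀ J (JB E) n i t := by
  have hβ0 : 0 < β := by linarith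
  have hE₀0 : 0 < E₀ := by linarith
  have hK1 : 1 ≤ K := by rw [hK]; exact Real.one_le_exp (Nat.cast_nonneg _)
  have hK0 : 0 < K := by linarith
  have hEE1 : 1 ≤ E / E₀ := by
    refine le_trans ?_ hj₀
    rw [← hK]
    exact hK1
  have hE0 : 0 < E := by
    by_contra h
    have : E / E₀ ≤ 0 := div_nonpos_of_nonpos_of_nonneg (not_lt.1 h) hE₀0.le
    linarith
  have hEE : E₀ ≤ E := by rwa [one_le_div hE₀0] at hEE1
  have hE1 : 1 ≤ E := hE₀.trans hEE
  have hη0 : 0 < η := by rw [hη]; positivity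
  have hJ0 : j₀ ≤ J := by
    rw [hJ]
    apply Nat.le_floor
    rw [Real.le_log_iff_exp_le (by positivity)]
    exact hj₀
  obtain ⟨g1, g2⟩ := last_lev hE₀ hEE hJ
  have hJB : J ≤ JB E := by
    have := JB_shift hE0 J (hE₀.trans g1)
    omega
  have hni : ∀ i, i < n → (i : ℝ) * (K / E) ≤ H := by
    intro i hi
    have h4 : (i : ℝ) ≤ H * E / K := by
      have h5 : i ≤ ⌊H * E / K⌋₊ := by omega
      have h6 : (i : ℝ) ≤ (⌊H * E / K⌋₊ : ℝ) := by exact_mod_cast h5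
      exact h6.trans (Nat.floor_le (by positivity))
    rw [le_div_iff₀ hK0] at h4
    rw [← mul_div_assoc, div_le_iff₀ hE0]
    exact h4
  have hXT : ∀ i, i < n → |x + i * (K / E)| ≤ T / 2 := by
    intro i hi
    have h4 := hni i hi
    have h5 : 0 ≤ (i : ℝ) * (K / E) := by positivity
    calc |x + i * (K / E)| ≤ |x| + |(i : ℝ) * (K / E)| := abs_add_le _ _
      _ ≤ |x| + H := by rw [abs_of_nonneg h5]; linarith
      _ ≤ _ := hHT
  obtain ⟨A, hA⟩ : ∃ A : ℝ, A = Real.exp (β ^ 2 / 4 * Real.log E) := ⟨_, rfl⟩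
  have hA0 : 0 < A := by rw [hA]; exact Real.exp_pos _
  rw [← hA]
  obtain ⟨P, hP⟩ : ∃ P : ℝ, P = (5 + Real.log (H + 1)) ^ N * (Real.exp 1 * E₀ / E) ^ (V ^ 2) := ⟨_, rfl⟩
  have hlH : 0 ≤ Real.log (H + 1) := Real.log_nonneg (by linarith)
  have hP0 : 0 ≤ P := by rw [hP]; positivity
  rw [← hP] at h3
  have hD0 : 0 < D := by rw [hD]; positivity
  -- the mean value of one weight
  have hfc : ∀ X, Continuous fun t => fz 2 (t + X) := fun X => (fz_cont (by norm_num)).comp (by fun_prop)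
  intro i hi
  obtain ⟨X, hX⟩ : ∃ X : ℝ, X = x + i * (K / E) := ⟨_, rfl⟩
  have hXT' : |X| ≤ T / 2 := by rw [hX]; exact hXT i hi
  obtain ⟨Q, q1, q2, q3⟩ := hQ X hXT'
  have c0 : Continuous fun t => fz 2 (t + X) := hfc X
  have c1 : Continuous fun t => fz 2 (t + X) * Pf E κ' (yF E (β / 2 - 1) (JB E) X) t := c0.mul (Pf_cont _ _ _)
  have c2 : Continuous fun t => fz 2 (t + X) * oH E κ' b V (β / 2 - 1) j₀ J (JB E) X t := c0.mul (oH_cont _ _ _ _ _ _ _ _ _)
  have c3 : ∀ k : ℕ, Continuous fun t => fz 2 (t + X) * kG E κ' b V (β / 2 - 1) (JB E) (lev J K i k) X (x + k * (K / E)) t :=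
    fun k => c0.mul (kG_cont _ _ _ _ _ _ _ _ _)
  have c4 : Continuous fun t => fz 2 (t + X) * (Pf E κ' (yF E (β / 2 - 1) (JB E) X) t * pW E κ' S X t) := c0.mul ((Pf_cont _ _ _).mul (pW_cont _ _ _ _))
  have c5 : Continuous fun t => ∑ k ∈ (Finset.range n).erase i, fz 2 (t + X) * kG E κ' b V (β / 2 - 1) (JB E) (lev J K i k) X (x + k * (K / E)) t :=
    continuous_finsetSum _ fun k _ => c3 k
  have e1 : ∀ t, fz 2 (t + (x + i * (K / E))) * psH E κ' S b V (β / 2 - 1) K x j₀ J (JB E) n i t =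
      fz 2 (t + X) * Pf E κ' (yF E (β / 2 - 1) (JB E) X) t -
      (fz 2 (t + X) * oH E κ' b V (β / 2 - 1) j₀ J (JB E) X t +
        (∑ k ∈ (Finset.range n).erase i, fz 2 (t + X) * kG E κ' b V (β / 2 - 1) (JB E) (lev J K i k) X (x + k * (K / E)) t +
        fz 2 (t + X) * (Pf E κ' (yF E (β / 2 - 1) (JB E) X) t * pW E κ' S X t))) := by
    intro t
    unfold psH
    rw [← hX, ← Finset.mul_sum]
    ring
  simp only [e1]
  have i1 : IntervalIntegrable (fun t => fz 2 (t + X) * Pf E κ' (yF E (β / 2 - 1) (JB E) X) t) volume T (2 * T) := c1.intervalIntegrable _ _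
  have i2 : IntervalIntegrable (fun t => fz 2 (t + X) * oH E κ' b V (β / 2 - 1) j₀ J (JB E) X t) volume T (2 * T) := c2.intervalIntegrable _ _
  have i4 : IntervalIntegrable (fun t => fz 2 (t + X) * (Pf E κ' (yF E (β / 2 - 1) (JB E) X) t * pW E κ' S X t)) volume T (2 * T) := c4.intervalIntegrable _ _
  have i5 : IntervalIntegrable (fun t => ∑ k ∈ (Finset.range n).erase i, fz 2 (t + X) * kG E κ' b V (β / 2 - 1) (JB E) (lev J K i k) X (x + k * (K / E)) t)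
    volume T (2 * T) := c5.intervalIntegrable _ _
  have i54 : IntervalIntegrable (fun t => ∑ k ∈ (Finset.range n).erase i, fz 2 (t + X) * kG E κ' b V (β / 2 - 1) (JB E) (lev J K i k) X (x + k * (K / E)) t +
    fz 2 (t + X) * (Pf E κ' (yF E (β / 2 - 1) (JB E) X) t * pW E κ' S X t)) volume T (2 * T) := i5.add i4
  have i254 : IntervalIntegrable (fun t => fz 2 (t + X) * oH E κ' b V (β / 2 - 1) j₀ J (JB E) X t + (∑ k ∈ (Finset.range n).erase i,
    fz 2 (t + X) * kG E κ' b V (β / 2 - 1) (JB E) (lev J K i k) X (x + k * (K / E)) t +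
    fz 2 (t + X) * (Pf E κ' (yF E (β / 2 - 1) (JB E) X) t * pW E κ' S X t))) volume T (2 * T) := i2.add i54
  rw [intervalIntegral.integral_sub i1 i254, intervalIntegral.integral_add i2 i54, intervalIntegral.integral_add i5 i4,
    intervalIntegral.integral_finsetSum fun k _ => (c3 k).intervalIntegrable _ _]
  -- the own part
  have b1 : ∫ t in T..(2 * T), fz 2 (t + X) * oH E κ' b V (β / 2 - 1) j₀ J (JB E) X t ≤ η * (T * A) := by
    have h4 := ownH_le (κ' := κ') (Cv := Cv) hE1 hU hC hT.le hXT' hβ2 hb (by linarith) hV (j₀ := j₀) (J := J) fun j hj => by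
      have h5 := (hF E β (-(b / 2)) X j (by
        refine g1.trans ?_
        apply mul_le_mul_of_nonneg_left _ hE0.le
        apply Real.exp_le_exp.2
        have : (j : ℝ) ≤ J := by exact_mod_cast hj
        linarith) hβ0.le hβB (by rw [abs_neg, abs_of_pos (by linarith)]; linarith)).2.1
      exact h5
    rw [← hA] at h4
    calc _ ≤ C ^ 2 * Real.exp Cv * (T * A) * (Real.exp (-(3 / 4 * b ^ 2) * j₀) * (1 - Real.exp (-(3 / 4 * b ^ 2)))⁻¹) := h4
      _ = C ^ 2 * Real.exp Cv * (Real.exp (-(3 / 4 * b ^ 2) * j₀) * (1 - Real.exp (-(3 / 4 * b ^ 2)))⁻¹) * (T * A) := by ring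
      _ ≤ η * (T * A) := mul_le_mul_of_nonneg_right h1 (by positivity)
  -- the competitors
  have b2 : ∑ k ∈ (Finset.range n).erase i, ∫ t in T..(2 * T), fz 2 (t + X) * kG E κ' b V (β / 2 - 1) (JB E) (lev J K i k) X (x + k * (K / E)) t ≤
      2 * (η * (T * A)) := by
    have h4 : ∀ k ∈ (Finset.range n).erase i, ∫ t in T..(2 * T), fz 2 (t + X) * kG E κ' b V (β / 2 - 1) (JB E) (lev J K i k) X (x + k * (K / E)) t ≤
        D * (T * A) * (Real.exp (V ^ 2) * K ^ (-(V ^ 2)) * |(i : ℝ) - k| ^ (-(V ^ 2)) + P) := by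
      intro k hk
      rw [Finset.mem_erase, Finset.mem_range] at hk
      have h5 : |(i : ℝ) - k| * (K / E) ≤ H := by
        have h6 := hni i hi
        have h7 := hni k hk.2
        have h8 : 0 ≤ (i : ℝ) * (K / E) := by positivity
        have h9 : 0 ≤ (k : ℝ) * (K / E) := by positivity
        rw [← abs_of_pos (by positivity : 0 < K / E), ← abs_mul, abs_le]
        constructor
        · linarith
        · linarith
      have h6 := pairH_le (κ' := κ') (b := b) (H := H) (x := x) (i := i) (k := k) (N := N) hF hU hC hT.le hβ2 hβB hV0 hVB hN hE₀ hEE hK1 hJ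
        (fun h => hk.1 h.symm) (hXT i hi) h5
      rw [← hX, ← hD, ← hA, ← hP] at h6
      exact h6
    refine (Finset.sum_le_sum h4).trans ?_
    rw [← Finset.mul_sum, Finset.sum_add_distrib, ← Finset.mul_sum, Finset.sum_const, nsmul_eq_mul]
    have h5 : ((((Finset.range n).erase i).card : ℕ) : ℝ) ≤ n := by
      have := Finset.card_erase_le (s := Finset.range n) (a := i)
      rw [Finset.card_range] at this
      exact_mod_cast this
    have h6 : 0 ≤ Real.exp (V ^ 2) * K ^ (-(V ^ 2)) := by positivity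
    calc D * (T * A) * (Real.exp (V ^ 2) * K ^ (-(V ^ 2)) * ∑ k ∈ (Finset.range n).erase i, |(i : ℝ) - k| ^ (-(V ^ 2)) +
          (((Finset.range n).erase i).card : ℕ) * P) ≤ D * (T * A) * (Real.exp (V ^ 2) * K ^ (-(V ^ 2)) * Z + n * P) := by
          apply mul_le_mul_of_nonneg_left _ (by positivity)
          exact add_le_add (mul_le_mul_of_nonneg_left (hZ n i) h6) (mul_le_mul_of_nonneg_right h5 hP0)
      _ = (D * (Real.exp (V ^ 2) * K ^ (-(V ^ 2)) * Z) + D * (n * P)) * (T * A) := by ring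
      _ ≤ (η + η) * (T * A) := mul_le_mul_of_nonneg_right (add_le_add h2 h3) (by positivity)
      _ = _ := by ring
  -- the main term
  have b3 : 8 * (η * A) ≤ Q := by
    have h4 := (hF E β 0 X 0 (by simpa using hEE) hβ0.le hβB (by simp; linarith)).1
    rw [← hA] at h4
    rw [VV_shift0 hE1] at q1
    calc 8 * (η * A) = c₀ * (Real.exp (-Cv) * A) := by rw [hη]; ring
      _ ≤ c₀ * VV E (aw β X) (fun _ => 0) := mul_le_mul_of_nonneg_left h4 hc₀.le
      _ ≤ Q := q1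
  have b4 : 8 * (η * (T * A)) ≤ T * Q := by
    calc 8 * (η * (T * A)) = T * (8 * (η * A)) := by ring
      _ ≤ _ := mul_le_mul_of_nonneg_left b3 hT.le
  linarith

/-- **the sum over the points** -/
theorem long_coreH {E κ' S β b V B C Cv E₀ T K H x η c₀ Z D c : ℝ} {J j₀ n N : ℕ} (hF : VH Cv E₀ B) (hU : UpbS E κ' B C T)
    (hU0 : ∀ X : ℝ, |X| ≤ T / 2 → ∫ t in T..(2 * T), Pf E κ' (yF E (β / 2) (JB E) X) t ≤ C * (T * (C * VV E (fun _ => 0) (yF E (β / 2) (JB E) X))))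
    (hC : 0 < C) (hT : 0 < T) (hβ2 : 2 < β) (hβS : β ≤ S) (hβB : β ≤ B) (hb : 0 < b) (hb1 : b ≤ 1) (hV : V = β / 2 - b) (hV0 : 0 < V)
    (hVB : β / 2 - 1 + V ≤ B) (hN : β * V ≤ N) (hE₀ : 1 ≤ E₀) (hκ : 16 ≤ κ')
    (hj₀ : Real.exp j₀ ≤ E / E₀) (hK : K = Real.exp j₀) (hJ : J = ⌊Real.log (E / E₀)⌋₊) (hH : 0 ≤ H) (hHT : |x| + H ≤ T / 2)
    (hn : n = ⌊H * E / K⌋₊ + 1) (hc₀ : 0 < c₀) (hc : 0 < c)
    (hQ : ∀ X, |X| ≤ T / 2 → ∃ Q : ℝ, c₀ * VV E (aw 2 X) (yF E (β / 2 - 1) (JB E) X) ≤ Q ∧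
      T * Q ≤ ∫ t in T..(2 * T), fz 2 (t + X) * Pf E κ' (yF E (β / 2 - 1) (JB E) X) t ∧
      ∫ t in T..(2 * T), fz 2 (t + X) * (Pf E κ' (yF E (β / 2 - 1) (JB E) X) t * pW E κ' S X t) ≤ 1 / 8 * (T * Q))
    (hZ : ∀ (n i : ℕ), ∑ k ∈ (Finset.range n).erase i, |(i : ℝ) - k| ^ (-(V ^ 2)) ≤ Z)
    (hη : η = c₀ * Real.exp (-Cv) / 8) (hD : D = 16 * Real.exp (2 * V * (Real.log 16 / b)) * (C ^ 2 * Real.exp Cv))
    (h1 : C ^ 2 * Real.exp Cv * (Real.exp (-(3 / 4 * b ^ 2) * j₀) * (1 - Real.exp (-(3 / 4 * b ^ 2)))⁻¹) ≤ η)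
    (h2 : D * (Real.exp (V ^ 2) * K ^ (-(V ^ 2)) * Z) ≤ η)
    (h3 : D * (n * ((5 + Real.log (H + 1)) ^ N * (Real.exp 1 * E₀ / E) ^ (V ^ 2))) ≤ η)
    (h4c : (β / 2 - 1) * c ^ β * (4 * (C ^ 2 * Real.exp Cv)) ≤ β / 4 * c ^ (β - 2) * η) :
    n * (β / 4 * c ^ (β - 2) * η * (T * Real.exp (β ^ 2 / 4 * Real.log E))) ≤ ∫ t in T..(2 * T), MH H x t ^ β := by
  have hβ0 : 0 < β := by linarith
  have hE₀0 : 0 < E₀ := by linarith
  have hK1 : 1 ≤ K := by rw [hK]; exact Real.one_le_exp (Nat.cast_nonneg _)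
  have hK0 : 0 < K := by linarith
  have hEE1 : 1 ≤ E / E₀ := by
    refine le_trans ?_ hj₀
    rw [← hK]
    exact hK1
  have hE0 : 0 < E := by
    by_contra h
    have : E / E₀ ≤ 0 := div_nonpos_of_nonpos_of_nonneg (not_lt.1 h) hE₀0.le
    linarith
  have hEE : E₀ ≤ E := by rwa [one_le_div hE₀0] at hEE1
  have hE1 : 1 ≤ E := hE₀.trans hEE
  have hη0 : 0 < η := by rw [hη]; positivity
  have hJ0 : j₀ ≤ J := by
    rw [hJ]
    apply Nat.le_floor
    rw [Real.le_log_iff_exp_le (by positivity)]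
    exact hj₀
  obtain ⟨g1, g2⟩ := last_lev hE₀ hEE hJ
  have hJB : J ≤ JB E := by
    have := JB_shift hE0 J (hE₀.trans g1)
    omega
  have hni : ∀ i, i < n → (i : ℝ) * (K / E) ≤ H := by
    intro i hi
    have h4 : (i : ℝ) ≤ H * E / K := by
      have h5 : i ≤ ⌊H * E / K⌋₊ := by omega
      have h6 : (i : ℝ) ≤ (⌊H * E / K⌋₊ : ℝ) := by exact_mod_cast h5
      exact h6.trans (Nat.floor_le (by positivity))
    rw [le_div_iff₀ hK0] at h4
    rw [← mul_div_assoc, div_le_iff₀ hE0]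
    exact h4
  have hXT : ∀ i, i < n → |x + i * (K / E)| ≤ T / 2 := by
    intro i hi
    have h4 := hni i hi
    have h5 : 0 ≤ (i : ℝ) * (K / E) := by positivity
    calc |x + i * (K / E)| ≤ |x| + |(i : ℝ) * (K / E)| := abs_add_le _ _
      _ ≤ |x| + H := by rw [abs_of_nonneg h5]; linarith
      _ ≤ _ := hHT
  have hone0 := oneH (S := S) (κ' := κ') (H := H) (x := x) (n := n) (N := N) hF hU hC hT hβ2 hβS hβB hb hb1 hV hV0 hVB hN hE₀ hκ hj₀ hK hJ hH hHT hn hc₀ hQ hZ hη hD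
    h1 h2 h3
  obtain ⟨A, hA⟩ : ∃ A : ℝ, A = Real.exp (β ^ 2 / 4 * Real.log E) := ⟨_, rfl⟩
  have hA0 : 0 < A := by rw [hA]; exact Real.exp_pos _
  rw [← hA] at hone0 ⊢
  have hfc : ∀ X, Continuous fun t => fz 2 (t + X) := fun X => (fz_cont (by norm_num)).comp (by fun_prop)
  have hone : ∀ i, i < n → 4 * η * (T * A) ≤ ∫ t in T..(2 * T), fz 2 (t + (x + i * (K / E))) * psH E κ' S b V (β / 2 - 1) K x j₀ J (JB E) n i t := hone0
  -- the correction
  have hcor : ∀ i, i < n → ∫ t in T..(2 * T), Pf E κ' (yF E (β / 2) (JB E) (x + i * (K / E))) t ≤ C ^ 2 * Real.exp Cv * (T * A) := by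
    intro i hi
    have h4 := hU0 _ (hXT i hi)
    rw [VV_shift1 hE1] at h4
    have h5 := (hF E β 0 (x + i * (K / E)) 0 (by simpa using hEE) hβ0.le hβB (by simp; linarith)).2.1
    have e2 : β ^ 2 / 4 * Real.log E + (0 * β + (0 : ℝ) ^ 2) * ((0 : ℕ) : ℝ) = β ^ 2 / 4 * Real.log E := by simp
    rw [e2, ← hA] at h5
    calc _ ≤ _ := h4
      _ ≤ C * (T * (C * (Real.exp Cv * A))) := by
          apply mul_le_mul_of_nonneg_left _ hC.le
          apply mul_le_mul_of_nonneg_left _ hT.le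
          exact mul_le_mul_of_nonneg_left h5 hC.le
      _ = _ := by ring
  -- the sum
  have hca : 0 < β / 2 * c ^ (β - 2) := by positivity
  have hcb : 0 < (β / 2 - 1) * c ^ β := mul_pos (by linarith) (by positivity)
  have cM : Continuous fun t => MH H x t ^ β := (MH_cont H x).rpow_const fun _ => Or.inr hβ0.le
  have cpsi : ∀ i : ℕ, Continuous fun t => fz 2 (t + (x + i * (K / E))) * psH E κ' S b V (β / 2 - 1) K x j₀ J (JB E) n i t := fun i => (hfc _).mul psH_cont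
  have cP : ∀ i : ℕ, Continuous fun t => Pf E κ' (yF E (β / 2) (JB E) (x + i * (K / E))) t := fun i => Pf_cont _ _ _
  have cpt : ∀ i : ℕ, Continuous fun t => β / 2 * c ^ (β - 2) * (fz 2 (t + (x + i * (K / E))) * (1 / 4 * psH E κ' S b V (β / 2 - 1) K x j₀ J (JB E) n i t)) -
      (β / 2 - 1) * c ^ β * (4 * Pf E κ' (yF E (β / 2) (JB E) (x + i * (K / E))) t) := fun i =>
    (continuous_const.mul ((hfc _).mul (continuous_const.mul psH_cont))).sub (continuous_const.mul (continuous_const.mul (cP i)))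
  have hpt : ∀ i, i < n → β / 4 * c ^ (β - 2) * η * (T * A) ≤ ∫ t in T..(2 * T), (β / 2 * c ^ (β - 2) * (fz 2 (t + (x + i * (K / E))) *
      (1 / 4 * psH E κ' S b V (β / 2 - 1) K x j₀ J (JB E) n i t)) - (β / 2 - 1) * c ^ β * (4 * Pf E κ' (yF E (β / 2) (JB E) (x + i * (K / E))) t)) := by
    intro i hi
    have e1 : ∀ t, β / 2 * c ^ (β - 2) * (fz 2 (t + (x + i * (K / E))) *
      (1 / 4 * psH E κ' S b V (β / 2 - 1) K x j₀ J (JB E) n i t)) - (β / 2 - 1) * c ^ β * (4 * Pf E κ' (yF E (β / 2) (JB E) (x + i * (K / E))) t) =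
      β / 2 * c ^ (β - 2) / 4 * (fz 2 (t + (x + i * (K / E))) * psH E κ' S b V (β / 2 - 1) K x j₀ J (JB E) n i t) -
        (β / 2 - 1) * c ^ β * 4 * Pf E κ' (yF E (β / 2) (JB E) (x + i * (K / E))) t := fun t => by ring
    simp only [e1]
    have i1 : IntervalIntegrable (fun t => β / 2 * c ^ (β - 2) / 4 * (fz 2 (t + (x + i * (K / E))) * psH E κ' S b V (β / 2 - 1) K x j₀ J (JB E) n i t))
      volume T (2 * T) := (continuous_const.mul (cpsi i)).intervalIntegrable _ _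
    have i2 : IntervalIntegrable (fun t => (β / 2 - 1) * c ^ β * 4 * Pf E κ' (yF E (β / 2) (JB E) (x + i * (K / E))) t)
      volume T (2 * T) := (continuous_const.mul (cP i)).intervalIntegrable _ _
    rw [intervalIntegral.integral_sub i1 i2, intervalIntegral.integral_const_mul, intervalIntegral.integral_const_mul]
    have h4 := mul_le_mul_of_nonneg_left (hone i hi) (by positivity : 0 ≤ β / 2 * c ^ (β - 2) / 4)
    have h5 := mul_le_mul_of_nonneg_left (hcor i hi) (by linarith : 0 ≤ (β / 2 - 1) * c ^ β * 4)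
    have h6 := mul_le_mul_of_nonneg_right h4c (by positivity : 0 ≤ T * A)
    have e2 : β / 2 * c ^ (β - 2) / 4 * (4 * η * (T * A)) = 2 * (β / 4 * c ^ (β - 2) * η * (T * A)) := by ring
    have e3 : (β / 2 - 1) * c ^ β * 4 * (C ^ 2 * Real.exp Cv * (T * A)) = (β / 2 - 1) * c ^ β * (4 * (C ^ 2 * Real.exp Cv)) * (T * A) := by ring
    rw [e2] at h4
    rw [e3] at h5
    linarith
  calc n * (β / 4 * c ^ (β - 2) * η * (T * A)) = ∑ i ∈ Finset.range n, β / 4 * c ^ (β - 2) * η * (T * A) := by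
        rw [Finset.sum_const, Finset.card_range, nsmul_eq_mul]
    _ ≤ ∑ i ∈ Finset.range n, ∫ t in T..(2 * T), (β / 2 * c ^ (β - 2) * (fz 2 (t + (x + i * (K / E))) *
      (1 / 4 * psH E κ' S b V (β / 2 - 1) K x j₀ J (JB E) n i t)) - (β / 2 - 1) * c ^ β * (4 * Pf E κ' (yF E (β / 2) (JB E) (x + i * (K / E))) t)) :=
        Finset.sum_le_sum fun i hi => hpt i (Finset.mem_range.1 hi)
    _ = ∫ t in T..(2 * T), ∑ i ∈ Finset.range n, (β / 2 * c ^ (β - 2) * (fz 2 (t + (x + i * (K / E))) *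
      (1 / 4 * psH E κ' S b V (β / 2 - 1) K x j₀ J (JB E) n i t)) - (β / 2 - 1) * c ^ β * (4 * Pf E κ' (yF E (β / 2) (JB E) (x + i * (K / E))) t)) :=
        (intervalIntegral.integral_finsetSum fun i _ => (cpt i).intervalIntegrable _ _).symm
    _ ≤ _ := by
        refine intervalIntegral.integral_mono_on (by linarith) ((continuous_finsetSum _ fun i _ => cpt i).intervalIntegrable _ _)
          (cM.intervalIntegrable _ _) fun t _ => ?_
        exact psH_sum_le hE1 hκ hβ2 hβS hb hb1 hV0 (by linarith) hc hH (le_of_eq hK.symm) hJ0 hJB hni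

end

end Pool.Agent.H469.F4
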