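import Pool.Agent.H469.F4.S5

set_option autoImplicit false

/-!
# Large deviations of maxima, all orders: the pointwise inequality
-/

namespace Pool.Agent.H469.F4

open Filter Topology MeasureTheory Complex Pool.Agent.Q97.UM
open Pool.Agent.Q14.UM (mem_PB PB_disj cv_len)

noncomputable section

theorem setupH {E E₀ T K H x : ℝ} {J j₀ n : ℕ} (hE₀ : 1 ≤ E₀) (hj₀ : Real.exp j₀ ≤ E / E₀) (hK : K = Real.exp j₀)
    (hJ : J = ⌊Real.log (E / E₀)⌋₊) (hH : 0 ≤ H) (hHT : |x| + H ≤ T / 2) (hn : n = ⌊H * E / K⌋₊ + 1) :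
    1 ≤ E ∧ E₀ ≤ E ∧ 1 ≤ K ∧ j₀ ≤ J ∧ J ≤ JB E ∧ (∀ i, i < n → (i : ℝ) * (K / E) ≤ H) ∧ (∀ i, i < n → |x + i * (K / E)| ≤ T / 2) := by
  have hE₀0 : 0 < E₀ := by linarith
  have hK1 : 1 ≤ K := by rw [hK]; exact Real.one_le_exp (Nat.cast_nonneg _)
  have hK0 : 0 < K := by linarith
  have hEE1 : 1 ≤ E / E₀ := by
    refine le_trans ?_ hj₀
    rw [← hK]
    exact hK1
  have hE0 : 0 < E := by
    by_contra h
    have : E / E₀ ≤ 0 := div_nonpos_of_nonpos_of_nonneg (not_lt.1 h) hE₀0.le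
    linarith
  have hEE : E₀ ≤ E := by rwa [one_le_div hE₀0] at hEE1
  have hE1 : 1 ≤ E := hE₀.trans hEE
  have hJ0 : j₀ ≤ J := by
    rw [hJ]
    apply Nat.le_floor
    rw [Real.le_log_iff_exp_le (by positivity)]
    exact hj₀
  obtain ⟨g1, g2⟩ := last_lev hE₀ hEE hJ
  have hJB : J ≤ JB E := by
    have := JB_shift hE0 J (hE₀.trans g1)
    omega
  have hni : ∀ i, i < n → (i : ℝ) * (K / E) ≤ H := by
    intro i hi
    have h4 : (i : ℝ) ≤ H * E / K := by
      have h5 : i ≤ ⌊H * E / K⌋₊ := by omega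
      have h6 : (i : ℝ) ≤ (⌊H * E / K⌋₊ : ℝ) := by exact_mod_cast h5
      exact h6.trans (Nat.floor_le (by positivity))
    rw [le_div_iff₀ hK0] at h4
    rw [← mul_div_assoc, div_le_iff₀ hE0]
    exact h4
  refine ⟨hE1, hEE, hK1, hJ0, hJB, hni, ?_⟩
  intro i hi
  have h4 := hni i hi
  have h5 : 0 ≤ (i : ℝ) * (K / E) := by positivity
  calc |x + i * (K / E)| ≤ |x| + |(i : ℝ) * (K / E)| := abs_add_le _ _
    _ ≤ |x| + H := by rw [abs_of_nonneg h5]; linarith
    _ ≤ _ := hHT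

/-- the tilt by a Dirichlet polynomial replaces a power of zeta -/
theorem VV_shiftG {E : ℝ} (hE : 1 ≤ E) (γ β x : ℝ) :
    VV E (aw γ x) (yF E ((β - γ) / 2) (JB E) x) = VV E (aw β x) (fun _ => 0) := by
  unfold VV PS
  congr 1
  refine Finset.sum_congr rfl fun p hp => ?_
  beta_reduce
  have e : aw γ x p + yF E ((β - γ) / 2) (JB E) x p = aw β x p + 0 := by
    have : yF E ((β - γ) / 2) (JB E) x p = (((β - γ) / 2 : ℝ) : ℂ) * ua x p := by
      unfold yF
      rw [cut_last hE hp, sub_zero, mul_one]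
    rw [this]
    unfold aw
    push_cast
    ring
  rw [e]

theorem yF_zero0 (E x : ℝ) : yF E 0 0 x = fun _ => 0 := by
  funext p
  unfold yF
  simp

/-- the top part -/
def topH (E κ' b V₂ a x t : ℝ) : ℝ := Real.exp (-(b * V₂ * Real.log E)) * Pf E κ' (yF E (a + b / 2) (JB E) x) t

/-- the bottom part -/
def botH (E κ' b V a x t : ℝ) : ℝ := Real.exp (b * V * Real.log E) * Pf E κ' (yF E (a - b / 2) (JB E) x) t

theorem topH_nonneg (E κ' b V₂ a x t : ℝ) : 0 ≤ topH E κ' b V₂ a x t := mul_nonneg (Real.exp_pos _).le (Pf_nonneg _ _ _ _)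

theorem botH_nonneg (E κ' b V a x t : ℝ) : 0 ≤ botH E κ' b V a x t := mul_nonneg (Real.exp_pos _).le (Pf_nonneg _ _ _ _)

theorem topH_cont (E κ' b V₂ a x : ℝ) : Continuous (topH E κ' b V₂ a x) := continuous_const.mul (Pf_cont _ _ _)

theorem botH_cont (E κ' b V a x : ℝ) : Continuous (botH E κ' b V a x) := continuous_const.mul (Pf_cont _ _ _)

/-- the weight of one of the points -/
def psT (E κ' S b V V₂ a K x : ℝ) (j₀ J n i : ℕ) (t : ℝ) : ℝ :=
  psH E κ' S b V a K x j₀ J (JB E) n i t - (topH E κ' b V₂ a (x + i * (K / E)) t + botH E κ' b V a (x + i * (K / E)) t)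

theorem psT_cont {E κ' S b V V₂ a K x : ℝ} {j₀ J n i : ℕ} : Continuous (psT E κ' S b V V₂ a K x j₀ J n i) := by
  unfold psT
  exact psH_cont.sub ((topH_cont _ _ _ _ _ _).add (botH_cont _ _ _ _ _ _))

/-- where the weight is positive -/
theorem psT_pos {E κ' S b V V₂ a K x : ℝ} {j₀ J n i : ℕ} {t : ℝ} (hE : 1 ≤ E) (hκ : 16 ≤ κ') (hS : 1 ≤ S) (hb : 0 < b) (hb1 : b ≤ 1) (ha0 : 0 ≤ a)
    (ha : a + 1 ≤ S) (hJB : J ≤ JB E) (h : 0 < psT E κ' S b V V₂ a K x j₀ J n i t) :
    0 < psH E κ' S b V a K x j₀ J (JB E) n i t ∧ GG S E κ' (t + (x + i * (K / E))) ∧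
    psT E κ' S b V V₂ a K x j₀ J n i t ≤ 4 * Real.exp (2 * a * FJ E (JB E) (t + (x + i * (K / E)))) ∧
    FJ E (JB E) (t + (x + i * (K / E))) < V₂ * Real.log E + Real.log 16 / b ∧
    V * Real.log E - Real.log 16 / b < FJ E (JB E) (t + (x + i * (K / E))) := by
  have ht := topH_nonneg E κ' b V₂ a (x + i * (K / E)) t
  have hb' := botH_nonneg E κ' b V a (x + i * (K / E)) t
  have h0 : 0 < psH E κ' S b V a K x j₀ J (JB E) n i t := by
    unfold psT at h
    linarith
  obtain ⟨g1, g2, -, -⟩ := psH_pos hE hκ hS hb hb1 ha0 (by linarith) hJB le_rfl h0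
  have g3 := psH_le (E := E) (κ' := κ') (S := S) (b := b) (V := V) (a := a) (K := K) (x := x) (j₀ := j₀) (J := J) (Jt := JB E) (n := n) (i := i) (t := t)
  obtain ⟨-, u1⟩ := Pf_yF (S := S) hE hκ (a := a + b / 2) (by rw [abs_of_nonneg (by linarith)]; linarith) (le_refl (JB E)) g1
  obtain ⟨-, u2⟩ := Pf_yF (S := S) hE hκ (a := a - b / 2) (by rw [abs_le]; constructor <;> linarith) (le_refl (JB E)) g1
  obtain ⟨F, hF⟩ : ∃ F : ℝ, F = FJ E (JB E) (t + (x + i * (K / E))) := ⟨_, rfl⟩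
  rw [← hF] at g2 u1 u2 ⊢
  refine ⟨h0, g1, ?_, ?_, ?_⟩
  · unfold psT
    linarith
  · have h1 : topH E κ' b V₂ a (x + i * (K / E)) t < 4 * Real.exp (2 * a * F) := by
      unfold psT at h
      linarith
    have h2 : Real.exp (b * F - b * V₂ * Real.log E) * Real.exp (2 * a * F) < 16 * Real.exp (2 * a * F) := by
      calc Real.exp (b * F - b * V₂ * Real.log E) * Real.exp (2 * a * F) = Real.exp (-(b * V₂ * Real.log E)) * Real.exp (2 * (a + b / 2) * F) := by
            rw [← Real.exp_add, ← Real.exp_add]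
            congr 1
            ring
        _ ≤ Real.exp (-(b * V₂ * Real.log E)) * (4 * Pf E κ' (yF E (a + b / 2) (JB E) (x + i * (K / E))) t) :=
            mul_le_mul_of_nonneg_left u1 (Real.exp_pos _).le
        _ = 4 * topH E κ' b V₂ a (x + i * (K / E)) t := by unfold topH; ring
        _ < 4 * (4 * Real.exp (2 * a * F)) := by linarith
        _ = _ := by ring
    have h3 := lt_of_mul_lt_mul_right h2 (Real.exp_pos _).le
    rw [← Real.lt_log_iff_exp_lt (by norm_num)] at h3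
    have h4 : b * (F - V₂ * Real.log E) < Real.log 16 := by linarith
    have h5 : F - V₂ * Real.log E < Real.log 16 / b := by
      rw [lt_div_iff₀ hb]
      linarith
    linarith
  · have h1 : botH E κ' b V a (x + i * (K / E)) t < 4 * Real.exp (2 * a * F) := by
      unfold psT at h
      linarith
    have h2 : Real.exp (b * V * Real.log E - b * F) * Real.exp (2 * a * F) < 16 * Real.exp (2 * a * F) := by
      calc Real.exp (b * V * Real.log E - b * F) * Real.exp (2 * a * F) = Real.exp (b * V * Real.log E) * Real.exp (2 * (a - b / 2) * F) := by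
            rw [← Real.exp_add, ← Real.exp_add]
            congr 1
            ring
        _ ≤ Real.exp (b * V * Real.log E) * (4 * Pf E κ' (yF E (a - b / 2) (JB E) (x + i * (K / E))) t) :=
            mul_le_mul_of_nonneg_left u2 (Real.exp_pos _).le
        _ = 4 * botH E κ' b V a (x + i * (K / E)) t := by unfold botH; ring
        _ < 4 * (4 * Real.exp (2 * a * F)) := by linarith
        _ = _ := by ring
    have h3 := lt_of_mul_lt_mul_right h2 (Real.exp_pos _).le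
    rw [← Real.lt_log_iff_exp_lt (by norm_num)] at h3
    have h4 : b * (V * Real.log E - F) < Real.log 16 := by linarith
    have h5 : V * Real.log E - F < Real.log 16 / b := by
      rw [lt_div_iff₀ hb]
      linarith
    linarith

theorem fz_two (τ : ℝ) : fz 2 τ = ‖zt τ‖ ^ 2 := by
  unfold fz
  exact_mod_cast Real.rpow_natCast ‖zt τ‖ 2

theorem fz_four (τ : ℝ) : fz 4 τ = ‖zt τ‖ ^ 4 := by
  unfold fz
  exact_mod_cast Real.rpow_natCast ‖zt τ‖ 4

/-- the weight of a point below the level -/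
def wD1 (E b V lam : ℝ) : ℝ := 16 * lam ^ 2 * Real.exp (2 * (Real.log 16 / b - V * Real.log E))

/-- the weight of the fourth moment -/
def wD2 (E β b V₂ : ℝ) : ℝ := 64 * Real.exp (β * (V₂ * Real.log E + Real.log 16 / b))

/-- **the pointwise inequality** -/
theorem ld_point {E κ' S β b V V₂ μ lam K H x t : ℝ} {j₀ J n : ℕ} (hE : 1 ≤ E) (hκ : 16 ≤ κ') (hβ2 : 2 < β) (hS : β ≤ S) (hb : 0 < b) (hb1 : b ≤ 1)
    (hV0 : 0 < V) (hVS : V ≤ S) (hμ : 0 < μ) (hH : 0 ≤ H) (hK : Real.exp j₀ ≤ K) (hJ : j₀ ≤ J) (hJB : J ≤ JB E)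
    (hn : ∀ i, i < n → (i : ℝ) * (K / E) ≤ H) :
    ∑ i ∈ Finset.range n, (fz 2 (t + (x + i * (K / E))) * psT E κ' S b V V₂ (β / 2 - 1) K x j₀ J n i t -
      (wD1 E b V lam * Pf E κ' (yF E (β / 2) (JB E) (x + i * (K / E))) t +
        μ / 2 * wD2 E β b V₂ * (fz 4 (t + (x + i * (K / E))) * Pf E κ' (yF E (β / 2 - 2) (JB E) (x + i * (K / E))) t))) ≤
      1 / (2 * μ) * above (MH H x) lam t := by
  have hK1 : 1 ≤ K := le_trans (Real.one_le_exp (Nat.cast_nonneg _)) hK
  have hK0 : 0 < K := by linarith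
  have hE0 : 0 < E := by linarith
  have hD1 : 0 ≤ wD1 E b V lam := by unfold wD1; positivity
  have hD2 : 0 ≤ μ / 2 * wD2 E β b V₂ := by unfold wD2; positivity
  have hR : 0 ≤ 1 / (2 * μ) * above (MH H x) lam t := mul_nonneg (by positivity) (above_nonneg _ _ _)
  apply one_only' (Finset.range n) _ (fun i => 0 < psT E κ' S b V V₂ (β / 2 - 1) K x j₀ J n i t) hR
  · intro i _ h
    have h1 : psT E κ' S b V V₂ (β / 2 - 1) K x j₀ J n i t ≤ 0 := not_lt.1 h
    have h2 : fz 2 (t + (x + i * (K / E))) * psT E κ' S b V V₂ (β / 2 - 1) K x j₀ J n i t ≤ 0 := mul_nonpos_of_nonneg_of_nonpos (fz_nonneg _ _) h1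
    have h3 := mul_nonneg hD1 (Pf_nonneg E κ' (yF E (β / 2) (JB E) (x + i * (K / E))) t)
    have h4 := mul_nonneg hD2 (mul_nonneg (fz_nonneg 4 (t + (x + i * (K / E)))) (Pf_nonneg E κ' (yF E (β / 2 - 2) (JB E) (x + i * (K / E))) t))
    linarith
  · intro i hi h
    have hi' := Finset.mem_range.1 hi
    obtain ⟨-, g1, g2, g3, g4⟩ := psT_pos hE hκ (by linarith) hb hb1 (by linarith) (by linarith) hJB h
    obtain ⟨-, u1⟩ := Pf_yF (S := S) hE hκ (a := β / 2) (by rw [abs_of_pos (by linarith)]; linarith) (le_refl (JB E)) g1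
    obtain ⟨-, u2⟩ := Pf_yF (S := S) hE hκ (a := β / 2 - 2) (by rw [abs_le]; constructor <;> linarith) (le_refl (JB E)) g1
    obtain ⟨F, hF⟩ : ∃ F : ℝ, F = FJ E (JB E) (t + (x + i * (K / E))) := ⟨_, rfl⟩
    rw [← hF] at g2 g3 g4 u1 u2
    obtain ⟨q, hq⟩ : ∃ q : ℝ, q = psT E κ' S b V V₂ (β / 2 - 1) K x j₀ J n i t := ⟨_, rfl⟩
    rw [← hq] at g2 h ⊢
    obtain ⟨P1, hP1⟩ : ∃ P1 : ℝ, P1 = Pf E κ' (yF E (β / 2) (JB E) (x + i * (K / E))) t := ⟨_, rfl⟩
    obtain ⟨P2, hP2⟩ : ∃ P2 : ℝ, P2 = Pf E κ' (yF E (β / 2 - 2) (JB E) (x + i * (K / E))) t := ⟨_, rfl⟩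
    have hP10 : 0 ≤ P1 := by rw [hP1]; exact Pf_nonneg _ _ _ _
    have hP20 : 0 ≤ P2 := by rw [hP2]; exact Pf_nonneg _ _ _ _
    rw [← hP1] at u1 ⊢
    rw [← hP2] at u2 ⊢
    rw [fz_two, fz_four]
    obtain ⟨s, hs⟩ : ∃ s : ℝ, s = ‖zt (t + (x + i * (K / E)))‖ := ⟨_, rfl⟩
    have hs0 : 0 ≤ s := by rw [hs]; exact norm_nonneg _
    have h0 : 0 ≤ (i : ℝ) * (K / E) := by positivity
    have hsM : s ≤ MH H x t := by
      rw [hs]
      exact le_MH ⟨by linarith, by linarith [hn i hi']⟩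
    rw [← hs]
    obtain ⟨ℓ, hℓ⟩ : ∃ ℓ : ℝ, ℓ = Real.log 16 / b := ⟨_, rfl⟩
    rw [← hℓ] at g3 g4
    have e1 : 2 * (β / 2 - 1) * F = (β - 2) * F := by ring
    rw [e1] at g2
    rcases le_or_gt s lam with hsl | hsl
    · have h1 : s ^ 2 * q ≤ wD1 E b V lam * P1 := by
        have h2 : s ^ 2 ≤ lam ^ 2 := pow_le_pow_left₀ hs0 hsl 2
        have h3 : q ≤ 4 * (Real.exp (2 * (ℓ - V * Real.log E)) * Real.exp (2 * (β / 2) * F)) := by
          refine g2.trans ?_
          rw [← Real.exp_add]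
          apply mul_le_mul_of_nonneg_left _ (by norm_num)
          apply Real.exp_le_exp.2
          have e2 : 2 * (ℓ - V * Real.log E) + 2 * (β / 2) * F = (β - 2) * F + 2 * (F - (V * Real.log E - ℓ)) := by ring
          rw [e2]
          linarith
        calc s ^ 2 * q ≤ lam ^ 2 * (4 * (Real.exp (2 * (ℓ - V * Real.log E)) * Real.exp (2 * (β / 2) * F))) :=
              mul_le_mul h2 h3 h.le (by positivity)
          _ ≤ lam ^ 2 * (4 * (Real.exp (2 * (ℓ - V * Real.log E)) * (4 * P1))) := by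
              apply mul_le_mul_of_nonneg_left _ (by positivity)
              apply mul_le_mul_of_nonneg_left _ (by norm_num)
              exact mul_le_mul_of_nonneg_left u1 (Real.exp_pos _).le
          _ = wD1 E b V lam * P1 := by unfold wD1; rw [← hℓ]; ring
      have h4 : 0 ≤ μ / 2 * wD2 E β b V₂ * (s ^ 4 * P2) := mul_nonneg hD2 (by positivity)
      linarith
    · have hab : above (MH H x) lam t = 1 := above_of_lt (lt_of_lt_of_le hsl hsM)
      rw [hab, mul_one]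
      have h1 : s ^ 2 * q ≤ μ / 2 * (s ^ 2 * q) ^ 2 + 1 / (2 * μ) := by
        obtain ⟨z, hz⟩ : ∃ z : ℝ, z = s ^ 2 * q := ⟨_, rfl⟩
        rw [← hz]
        have h2 : 0 ≤ (μ * z - 1) ^ 2 / (2 * μ) := by positivity
        have h3 : (μ * z - 1) ^ 2 / (2 * μ) = μ / 2 * z ^ 2 + 1 / (2 * μ) - z := by
          field_simp
          ring
        linarith
      have h2 : (s ^ 2 * q) ^ 2 ≤ wD2 E β b V₂ * (s ^ 4 * P2) := by
        have h3 : q ^ 2 ≤ (4 * Real.exp ((β - 2) * F)) ^ 2 := pow_le_pow_left₀ h.le g2 2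
        have h4 : (4 * Real.exp ((β - 2) * F)) ^ 2 = 16 * Real.exp ((β - 4) * F + β * F) := by
          rw [mul_pow, ← Real.exp_nat_mul]
          have : ((2 : ℕ) : ℝ) * ((β - 2) * F) = (β - 4) * F + β * F := by push_cast; ring
          rw [this]
          norm_num
        have h5 : Real.exp ((β - 4) * F + β * F) ≤ 4 * P2 * Real.exp (β * (V₂ * Real.log E + ℓ)) := by
          rw [Real.exp_add]
          have e2 : 2 * (β / 2 - 2) * F = (β - 4) * F := by ring
          rw [e2] at u2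
          apply mul_le_mul u2 _ (Real.exp_pos _).le (by linarith)
          apply Real.exp_le_exp.2
          exact mul_le_mul_of_nonneg_left g3.le (by linarith)
        calc (s ^ 2 * q) ^ 2 = s ^ 4 * q ^ 2 := by ring
          _ ≤ s ^ 4 * (16 * (4 * P2 * Real.exp (β * (V₂ * Real.log E + ℓ)))) := by
              apply mul_le_mul_of_nonneg_left _ (by positivity)
              rw [h4] at h3
              linarith
          _ = _ := by unfold wD2; rw [← hℓ]; ring
      have h6 := mul_le_mul_of_nonneg_left h2 (by linarith : 0 ≤ μ / 2)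
      have h7 : 0 ≤ wD1 E b V lam * P1 := mul_nonneg hD1 hP10
      linarith
  · intro i _ k hk h1 h2
    obtain ⟨q1, -⟩ := psT_pos hE hκ (by linarith) hb hb1 (by linarith) (by linarith) hJB h1
    obtain ⟨q2, -⟩ := psT_pos hE hκ (by linarith) hb hb1 (by linarith) (by linarith) hJB h2
    exact psH_unique hE hκ (by linarith) hb hb1 (by linarith) (by linarith) hV0 hVS hK hJ hJB le_rfl hk q1 q2

end

end Pool.Agent.H469.F4
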