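import Pool.Agent.H469.F4.S6

set_option autoImplicit false

/-!
# Large deviations of maxima, all orders: mean values
-/

namespace Pool.Agent.H469.F4

open Filter Topology MeasureTheory Complex Pool.Agent.Q97.UM
open Pool.Agent.Q14.UM (mem_PB PB_disj cv_len)

noncomputable section

theorem VVup {Cv E₀ B E β X : ℝ} (hF : VH Cv E₀ B) (hEE : E₀ ≤ E) (hβ0 : 0 ≤ β) (hβB : β ≤ B) :
    VV E (aw β X) (fun _ => 0) ≤ Real.exp Cv * Real.exp (β ^ 2 / 4 * Real.log E) := by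
  have h5 := (hF E β 0 X 0 (by simpa using hEE) hβ0 hβB (by simp; linarith)).2.1
  rw [yF_zero0] at h5
  have e2 : β ^ 2 / 4 * Real.log E + (0 * β + (0 : ℝ) ^ 2) * ((0 : ℕ) : ℝ) = β ^ 2 / 4 * Real.log E := by simp
  rwa [e2] at h5

theorem top_le {E κ' β b V₂ B C Cv E₀ T X : ℝ} (hF : VH Cv E₀ B) (hE : 1 ≤ E) (hEE : E₀ ≤ E) (hU : UpbS E κ' B C T) (hC : 0 < C) (hT : 0 ≤ T)
    (hX : |X| ≤ T / 2) (hβ2 : 2 < β) (hb : 0 < b) (hbB : β + b ≤ B) (hV : V₂ = β / 2 + b) :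
    ∫ t in T..(2 * T), fz 2 (t + X) * topH E κ' b V₂ (β / 2 - 1) X t ≤
      C ^ 2 * Real.exp Cv * (T * Real.exp (β ^ 2 / 4 * Real.log E)) * Real.exp (-(3 / 4 * b ^ 2) * Real.log E) := by
  have e1 : ∀ t, fz 2 (t + X) * topH E κ' b V₂ (β / 2 - 1) X t = Real.exp (-(b * V₂ * Real.log E)) *
      (fz 2 (t + X) * Pf E κ' (yF E (β / 2 - 1 + b / 2) (JB E) X) t) := by
    intro t
    unfold topH
    ring
  simp only [e1]
  rw [intervalIntegral.integral_const_mul]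
  have h2 := hU X hX (yF E (β / 2 - 1 + b / 2) (JB E) X) fun n => norm_yF (by rw [abs_of_pos (by linarith)]; linarith) E (JB E) X n
  have e2 : β / 2 - 1 + b / 2 = ((β + b) - 2) / 2 := by ring
  rw [e2, VV_shiftG hE 2 (β + b) X] at h2
  rw [e2]
  have h3 := VVup (X := X) hF hEE (by linarith : 0 ≤ β + b) hbB
  calc Real.exp (-(b * V₂ * Real.log E)) * ∫ t in T..(2 * T), fz 2 (t + X) * Pf E κ' (yF E ((β + b - 2) / 2) (JB E) X) t ≤
      Real.exp (-(b * V₂ * Real.log E)) * (C * (T * (C * (Real.exp Cv * Real.exp ((β + b) ^ 2 / 4 * Real.log E))))) := by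
        apply mul_le_mul_of_nonneg_left _ (Real.exp_pos _).le
        refine h2.trans ?_
        apply mul_le_mul_of_nonneg_left _ hC.le
        apply mul_le_mul_of_nonneg_left _ hT
        exact mul_le_mul_of_nonneg_left h3 hC.le
    _ = C ^ 2 * Real.exp Cv * (T * (Real.exp (-(b * V₂ * Real.log E)) * Real.exp ((β + b) ^ 2 / 4 * Real.log E))) := by ring
    _ = _ := by
        have e3 : Real.exp (-(b * V₂ * Real.log E)) * Real.exp ((β + b) ^ 2 / 4 * Real.log E) =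
            Real.exp (β ^ 2 / 4 * Real.log E) * Real.exp (-(3 / 4 * b ^ 2) * Real.log E) := by
          rw [← Real.exp_add, ← Real.exp_add]
          congr 1
          rw [hV]
          ring
        rw [e3]
        ring

theorem bot_le {E κ' β b V B C Cv E₀ T X : ℝ} (hF : VH Cv E₀ B) (hE : 1 ≤ E) (hEE : E₀ ≤ E) (hU : UpbS E κ' B C T) (hC : 0 < C) (hT : 0 ≤ T)
    (hX : |X| ≤ T / 2) (hβ2 : 2 < β) (hb : 0 < b) (hb1 : b ≤ 1) (hbB : β + b ≤ B) (hV : V = β / 2 - b) :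
    ∫ t in T..(2 * T), fz 2 (t + X) * botH E κ' b V (β / 2 - 1) X t ≤
      C ^ 2 * Real.exp Cv * (T * Real.exp (β ^ 2 / 4 * Real.log E)) * Real.exp (-(3 / 4 * b ^ 2) * Real.log E) := by
  have e1 : ∀ t, fz 2 (t + X) * botH E κ' b V (β / 2 - 1) X t = Real.exp (b * V * Real.log E) *
      (fz 2 (t + X) * Pf E κ' (yF E (β / 2 - 1 - b / 2) (JB E) X) t) := by
    intro t
    unfold botH
    ring
  simp only [e1]
  rw [intervalIntegral.integral_const_mul]
  have h2 := hU X hX (yF E (β / 2 - 1 - b / 2) (JB E) X) fun n => norm_yF (by rw [abs_le]; constructor <;> linarith) E (JB E) X n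
  have e2 : β / 2 - 1 - b / 2 = ((β - b) - 2) / 2 := by ring
  rw [e2, VV_shiftG hE 2 (β - b) X] at h2
  rw [e2]
  have h3 := VVup (X := X) hF hEE (by linarith : 0 ≤ β - b) (by linarith)
  calc Real.exp (b * V * Real.log E) * ∫ t in T..(2 * T), fz 2 (t + X) * Pf E κ' (yF E ((β - b - 2) / 2) (JB E) X) t ≤
      Real.exp (b * V * Real.log E) * (C * (T * (C * (Real.exp Cv * Real.exp ((β - b) ^ 2 / 4 * Real.log E))))) := by
        apply mul_le_mul_of_nonneg_left _ (Real.exp_pos _).le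
        refine h2.trans ?_
        apply mul_le_mul_of_nonneg_left _ hC.le
        apply mul_le_mul_of_nonneg_left _ hT
        exact mul_le_mul_of_nonneg_left h3 hC.le
    _ = C ^ 2 * Real.exp Cv * (T * (Real.exp (b * V * Real.log E) * Real.exp ((β - b) ^ 2 / 4 * Real.log E))) := by ring
    _ = _ := by
        have e3 : Real.exp (b * V * Real.log E) * Real.exp ((β - b) ^ 2 / 4 * Real.log E) =
            Real.exp (β ^ 2 / 4 * Real.log E) * Real.exp (-(3 / 4 * b ^ 2) * Real.log E) := by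
          rw [← Real.exp_add, ← Real.exp_add]
          congr 1
          rw [hV]
          ring
        rw [e3]
        ring

/-- **large deviations: the sum over the points** -/
theorem ld_coreH {E κ' S β b V V₂ B C Cv E₀ T K H x η c₀ Z D lam : ℝ} {J j₀ n N : ℕ} (hF : VH Cv E₀ B) (hU : UpbS E κ' B C T)
    (hU0 : ∀ X : ℝ, |X| ≤ T / 2 → ∫ t in T..(2 * T), Pf E κ' (yF E (β / 2) (JB E) X) t ≤ C * (T * (C * VV E (fun _ => 0) (yF E (β / 2) (JB E) X))))
    (hU4 : ∀ X : ℝ, |X| ≤ T / 2 → ∫ t in T..(2 * T), fz 4 (t + X) * Pf E κ' (yF E (β / 2 - 2) (JB E) X) t ≤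
      C * (T * (C * VV E (aw 4 X) (yF E (β / 2 - 2) (JB E) X))))
    (hC : 0 < C) (hT : 0 < T) (hβ2 : 2 < β) (hβS : β ≤ S) (hβB : β + b ≤ B) (hb : 0 < b) (hb1 : b ≤ 1) (hV : V = β / 2 - b) (hV0 : 0 < V)
    (hV₂ : V₂ = β / 2 + b)
    (hVB : β / 2 - 1 + V ≤ B) (hN : β * V ≤ N) (hE₀ : 1 ≤ E₀) (hκ : 16 ≤ κ')
    (hj₀ : Real.exp j₀ ≤ E / E₀) (hK : K = Real.exp j₀) (hJ : J = ⌊Real.log (E / E₀)⌋₊) (hH : 0 ≤ H) (hHT : |x| + H ≤ T / 2)
    (hn : n = ⌊H * E / K⌋₊ + 1) (hc₀ : 0 < c₀)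
    (hQ : ∀ X, |X| ≤ T / 2 → ∃ Q : ℝ, c₀ * VV E (aw 2 X) (yF E (β / 2 - 1) (JB E) X) ≤ Q ∧
      T * Q ≤ ∫ t in T..(2 * T), fz 2 (t + X) * Pf E κ' (yF E (β / 2 - 1) (JB E) X) t ∧
      ∫ t in T..(2 * T), fz 2 (t + X) * (Pf E κ' (yF E (β / 2 - 1) (JB E) X) t * pW E κ' S X t) ≤ 1 / 8 * (T * Q))
    (hZ : ∀ (n i : ℕ), ∑ k ∈ (Finset.range n).erase i, |(i : ℝ) - k| ^ (-(V ^ 2)) ≤ Z)
    (hη : η = c₀ * Real.exp (-Cv) / 8) (hD : D = 16 * Real.exp (2 * V * (Real.log 16 / b)) * (C ^ 2 * Real.exp Cv))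
    (h1 : C ^ 2 * Real.exp Cv * (Real.exp (-(3 / 4 * b ^ 2) * j₀) * (1 - Real.exp (-(3 / 4 * b ^ 2)))⁻¹) ≤ η)
    (h2 : D * (Real.exp (V ^ 2) * K ^ (-(V ^ 2)) * Z) ≤ η)
    (h3 : D * (n * ((5 + Real.log (H + 1)) ^ N * (Real.exp 1 * E₀ / E) ^ (V ^ 2))) ≤ η)
    (h5 : C ^ 2 * Real.exp Cv * Real.exp (-(3 / 4 * b ^ 2) * Real.log E) ≤ η / 2)
    (h6 : wD1 E b V lam * (C ^ 2 * Real.exp Cv) ≤ η) :
    n * (4 * η ^ 2 * (T * Real.exp (β ^ 2 / 4 * Real.log E)) / (wD2 E β b V₂ * (C ^ 2 * Real.exp Cv))) ≤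
      ∫ t in T..(2 * T), above (MH H x) lam t := by
  obtain ⟨hE1, hEE, hK1, hJ0, hJB, hni, hXT⟩ := setupH (T := T) hE₀ hj₀ hK hJ hH hHT hn
  have hone0 := oneH (S := S) (κ' := κ') (H := H) (x := x) (n := n) (N := N) hF hU hC hT hβ2 hβS (by linarith) hb hb1 hV hV0 hVB hN hE₀ hκ hj₀ hK hJ hH hHT
    hn hc₀ hQ hZ hη hD h1 h2 h3
  have hβ0 : 0 < β := by linarith
  have hη0 : 0 < η := by rw [hη]; positivity
  obtain ⟨A, hA⟩ : ∃ A : ℝ, A = Real.exp (β ^ 2 / 4 * Real.log E) := ⟨_, rfl⟩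
  have hA0 : 0 < A := by rw [hA]; exact Real.exp_pos _
  rw [← hA] at hone0 ⊢
  obtain ⟨C2, hC2⟩ : ∃ C2 : ℝ, C2 = C ^ 2 * Real.exp Cv := ⟨_, rfl⟩
  have hC20 : 0 < C2 := by rw [hC2]; positivity
  rw [← hC2] at h5 h6 ⊢
  have hD10 : 0 ≤ wD1 E b V lam := by unfold wD1; positivity
  have hD20 : 0 < wD2 E β b V₂ := by unfold wD2; positivity
  have hfc : ∀ X, Continuous fun t => fz 2 (t + X) := fun X => (fz_cont (by norm_num)).comp (by fun_prop)
  have hfc4 : ∀ X, Continuous fun t => fz 4 (t + X) := fun X => (fz_cont (by norm_num)).comp (by fun_prop)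
  obtain ⟨μ, hμ⟩ : ∃ μ : ℝ, μ = 2 * η / (wD2 E β b V₂ * C2) := ⟨_, rfl⟩
  have hμ0 : 0 < μ := by rw [hμ]; positivity
  have hμe : μ / 2 * wD2 E β b V₂ * C2 = η := by
    rw [hμ]
    field_simp
  -- one point
  have hone : ∀ i, i < n → η * (T * A) ≤ ∫ t in T..(2 * T), (fz 2 (t + (x + i * (K / E))) * psT E κ' S b V V₂ (β / 2 - 1) K x j₀ J n i t -
      (wD1 E b V lam * Pf E κ' (yF E (β / 2) (JB E) (x + i * (K / E))) t +
        μ / 2 * wD2 E β b V₂ * (fz 4 (t + (x + i * (K / E))) * Pf E κ' (yF E (β / 2 - 2) (JB E) (x + i * (K / E))) t))) := by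
    intro i hi
    have g0 := hone0 i hi
    have hX := hXT i hi
    have g1 := top_le (κ' := κ') hF hE1 hEE hU hC hT.le hX hβ2 hb hβB hV₂
    have g2 := bot_le (κ' := κ') hF hE1 hEE hU hC hT.le hX hβ2 hb hb1 hβB hV
    rw [← hA, ← hC2] at g1 g2
    have g3 := hU0 _ hX
    have e3 : VV E (fun _ => 0) (yF E (β / 2) (JB E) (x + i * (K / E))) = VV E (aw β (x + i * (K / E))) (fun _ => 0) := by
      rw [VV_shift1 hE1, yF_zero0]
    have g4 := hU4 _ hX
    have e4 : VV E (aw 4 (x + i * (K / E))) (yF E (β / 2 - 2) (JB E) (x + i * (K / E))) = VV E (aw β (x + i * (K / E))) (fun _ => 0) := by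
      have e5 : β / 2 - 2 = (β - 4) / 2 := by ring
      rw [e5, VV_shiftG hE1]
    rw [e3] at g3
    rw [e4] at g4
    have g5 := VVup (X := x + i * (K / E)) hF hEE hβ0.le (by linarith)
    rw [← hA] at g5
    have g6 : C * (T * (C * VV E (aw β (x + i * (K / E))) (fun _ => 0))) ≤ C2 * (T * A) := by
      calc _ ≤ C * (T * (C * (Real.exp Cv * A))) := by
            apply mul_le_mul_of_nonneg_left _ hC.le
            apply mul_le_mul_of_nonneg_left _ hT.le
            exact mul_le_mul_of_nonneg_left g5 hC.le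
        _ = _ := by rw [hC2]; ring
    obtain ⟨X, hXd⟩ : ∃ X : ℝ, X = x + i * (K / E) := ⟨_, rfl⟩
    rw [← hXd] at g0 g1 g2 g3 g4 g6 ⊢
    have c1 : Continuous fun t => fz 2 (t + X) * psH E κ' S b V (β / 2 - 1) K x j₀ J (JB E) n i t := (hfc X).mul psH_cont
    have c2 : Continuous fun t => fz 2 (t + X) * topH E κ' b V₂ (β / 2 - 1) X t := (hfc X).mul (topH_cont _ _ _ _ _ _)
    have c3 : Continuous fun t => fz 2 (t + X) * botH E κ' b V (β / 2 - 1) X t := (hfc X).mul (botH_cont _ _ _ _ _ _)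
    have c4 : Continuous fun t => wD1 E b V lam * Pf E κ' (yF E (β / 2) (JB E) X) t := continuous_const.mul (Pf_cont _ _ _)
    have c5 : Continuous fun t => μ / 2 * wD2 E β b V₂ * (fz 4 (t + X) * Pf E κ' (yF E (β / 2 - 2) (JB E) X) t) :=
      continuous_const.mul ((hfc4 X).mul (Pf_cont _ _ _))
    have e1 : ∀ t, fz 2 (t + X) * psT E κ' S b V V₂ (β / 2 - 1) K x j₀ J n i t -
      (wD1 E b V lam * Pf E κ' (yF E (β / 2) (JB E) X) t + μ / 2 * wD2 E β b V₂ * (fz 4 (t + X) * Pf E κ' (yF E (β / 2 - 2) (JB E) X) t)) =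
      fz 2 (t + X) * psH E κ' S b V (β / 2 - 1) K x j₀ J (JB E) n i t - ((fz 2 (t + X) * topH E κ' b V₂ (β / 2 - 1) X t +
        fz 2 (t + X) * botH E κ' b V (β / 2 - 1) X t) + (wD1 E b V lam * Pf E κ' (yF E (β / 2) (JB E) X) t +
        μ / 2 * wD2 E β b V₂ * (fz 4 (t + X) * Pf E κ' (yF E (β / 2 - 2) (JB E) X) t))) := by
      intro t
      unfold psT
      rw [← hXd]
      ring
    simp only [e1]
    have i1 : IntervalIntegrable (fun t => fz 2 (t + X) * psH E κ' S b V (β / 2 - 1) K x j₀ J (JB E) n i t) volume T (2 * T) := c1.intervalIntegrable _ _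
    have i2 : IntervalIntegrable (fun t => fz 2 (t + X) * topH E κ' b V₂ (β / 2 - 1) X t) volume T (2 * T) := c2.intervalIntegrable _ _
    have i3 : IntervalIntegrable (fun t => fz 2 (t + X) * botH E κ' b V (β / 2 - 1) X t) volume T (2 * T) := c3.intervalIntegrable _ _
    have i4 : IntervalIntegrable (fun t => wD1 E b V lam * Pf E κ' (yF E (β / 2) (JB E) X) t) volume T (2 * T) := c4.intervalIntegrable _ _
    have i5 : IntervalIntegrable (fun t => μ / 2 * wD2 E β b V₂ * (fz 4 (t + X) * Pf E κ' (yF E (β / 2 - 2) (JB E) X) t)) volume T (2 * T) :=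
      c5.intervalIntegrable _ _
    have i23 : IntervalIntegrable (fun t => fz 2 (t + X) * topH E κ' b V₂ (β / 2 - 1) X t + fz 2 (t + X) * botH E κ' b V (β / 2 - 1) X t)
      volume T (2 * T) := i2.add i3
    have i45 : IntervalIntegrable (fun t => wD1 E b V lam * Pf E κ' (yF E (β / 2) (JB E) X) t +
      μ / 2 * wD2 E β b V₂ * (fz 4 (t + X) * Pf E κ' (yF E (β / 2 - 2) (JB E) X) t)) volume T (2 * T) := i4.add i5
    have iall : IntervalIntegrable (fun t => (fz 2 (t + X) * topH E κ' b V₂ (β / 2 - 1) X t + fz 2 (t + X) * botH E κ' b V (β / 2 - 1) X t) +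
      (wD1 E b V lam * Pf E κ' (yF E (β / 2) (JB E) X) t + μ / 2 * wD2 E β b V₂ * (fz 4 (t + X) * Pf E κ' (yF E (β / 2 - 2) (JB E) X) t)))
      volume T (2 * T) := i23.add i45
    rw [intervalIntegral.integral_sub i1 iall, intervalIntegral.integral_add i23 i45, intervalIntegral.integral_add i2 i3,
      intervalIntegral.integral_add i4 i5, intervalIntegral.integral_const_mul (wD1 E b V lam), intervalIntegral.integral_const_mul (μ / 2 * wD2 E β b V₂)]
    have f1 : C2 * (T * A) * Real.exp (-(3 / 4 * b ^ 2) * Real.log E) ≤ η / 2 * (T * A) := by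
      calc _ = C2 * Real.exp (-(3 / 4 * b ^ 2) * Real.log E) * (T * A) := by ring
        _ ≤ _ := mul_le_mul_of_nonneg_right h5 (by positivity)
    have f2 : wD1 E b V lam * ∫ t in T..(2 * T), Pf E κ' (yF E (β / 2) (JB E) X) t ≤ η * (T * A) := by
      calc _ ≤ wD1 E b V lam * (C2 * (T * A)) := mul_le_mul_of_nonneg_left (g3.trans g6) hD10
        _ = wD1 E b V lam * C2 * (T * A) := by ring
        _ ≤ _ := mul_le_mul_of_nonneg_right h6 (by positivity)
    have f3 : μ / 2 * wD2 E β b V₂ * ∫ t in T..(2 * T), fz 4 (t + X) * Pf E κ' (yF E (β / 2 - 2) (JB E) X) t ≤ η * (T * A) := by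
      calc _ ≤ μ / 2 * wD2 E β b V₂ * (C2 * (T * A)) := mul_le_mul_of_nonneg_left (g4.trans g6) (by positivity)
        _ = μ / 2 * wD2 E β b V₂ * C2 * (T * A) := by ring
        _ = _ := by rw [hμe]
    linarith
  -- the sum
  have cP : ∀ i : ℕ, Continuous fun t => fz 2 (t + (x + i * (K / E))) * psT E κ' S b V V₂ (β / 2 - 1) K x j₀ J n i t -
      (wD1 E b V lam * Pf E κ' (yF E (β / 2) (JB E) (x + i * (K / E))) t +
        μ / 2 * wD2 E β b V₂ * (fz 4 (t + (x + i * (K / E))) * Pf E κ' (yF E (β / 2 - 2) (JB E) (x + i * (K / E))) t)) := fun i =>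
    ((hfc _).mul psT_cont).sub ((continuous_const.mul (Pf_cont _ _ _)).add (continuous_const.mul ((hfc4 _).mul (Pf_cont _ _ _))))
  have hsum : n * (η * (T * A)) ≤ 1 / (2 * μ) * ∫ t in T..(2 * T), above (MH H x) lam t := by
    calc n * (η * (T * A)) = ∑ i ∈ Finset.range n, η * (T * A) := by rw [Finset.sum_const, Finset.card_range, nsmul_eq_mul]
      _ ≤ ∑ i ∈ Finset.range n, ∫ t in T..(2 * T), (fz 2 (t + (x + i * (K / E))) * psT E κ' S b V V₂ (β / 2 - 1) K x j₀ J n i t -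
        (wD1 E b V lam * Pf E κ' (yF E (β / 2) (JB E) (x + i * (K / E))) t +
        μ / 2 * wD2 E β b V₂ * (fz 4 (t + (x + i * (K / E))) * Pf E κ' (yF E (β / 2 - 2) (JB E) (x + i * (K / E))) t))) :=
          Finset.sum_le_sum fun i hi => hone i (Finset.mem_range.1 hi)
      _ = ∫ t in T..(2 * T), ∑ i ∈ Finset.range n, (fz 2 (t + (x + i * (K / E))) * psT E κ' S b V V₂ (β / 2 - 1) K x j₀ J n i t -
        (wD1 E b V lam * Pf E κ' (yF E (β / 2) (JB E) (x + i * (K / E))) t +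
        μ / 2 * wD2 E β b V₂ * (fz 4 (t + (x + i * (K / E))) * Pf E κ' (yF E (β / 2 - 2) (JB E) (x + i * (K / E))) t))) :=
          (intervalIntegral.integral_finsetSum fun i _ => (cP i).intervalIntegrable _ _).symm
      _ ≤ ∫ t in T..(2 * T), 1 / (2 * μ) * above (MH H x) lam t := by
          refine intervalIntegral.integral_mono_on (by linarith) ((continuous_finsetSum _ fun i _ => cP i).intervalIntegrable _ _)
            ((above_int (MH_cont H x) lam _ _).const_mul _) fun t _ => ?_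
          exact ld_point hE1 hκ hβ2 hβS hb hb1 hV0 (by linarith) hμ0 hH (le_of_eq hK.symm) hJ0 hJB hni
      _ = _ := intervalIntegral.integral_const_mul _ _
  have e6 : n * (4 * η ^ 2 * (T * A) / (wD2 E β b V₂ * C2)) = 2 * μ * (n * (η * (T * A))) := by
    rw [hμ]
    ring
  rw [e6]
  calc 2 * μ * (n * (η * (T * A))) ≤ 2 * μ * (1 / (2 * μ) * ∫ t in T..(2 * T), above (MH H x) lam t) := mul_le_mul_of_nonneg_left hsum (by positivity)
    _ = _ := by field_simp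

end

end Pool.Agent.H469.F4
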