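import Pool.Agent.H469.F4.S7

set_option autoImplicit false

/-!
# Large deviations of maxima, all levels
-/

namespace Pool.Agent.H469.F4

open Filter Topology MeasureTheory Complex Pool.Agent.Q97.UM
open Pool.Agent.Q14.UM (mem_PB PB_disj cv_len)

noncomputable section

/-- **large deviations over long intervals, all levels** -/
theorem ld_longH {β ε ρ : ℝ} (hβ2 : 2 < β) (hε : 0 < ε) (hρ : 0 < ρ) : ∃ c : ℝ, 0 < c ∧ ∀ᶠ T : ℝ in atTop, ∀ x : ℝ, |x| ≤ T / 8 →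
    ∀ H : ℝ, 0 ≤ H → H ≤ Real.log T ^ (β ^ 2 / 4 - 1 - ε) →
      c * T * ((1 + H * Real.log T) * Real.log T ^ (-(β ^ 2 / 4) - ρ)) ≤ ∫ t in T..(2 * T), above (MH H x) (Real.log T ^ (β / 2 - ρ)) t := by
  have hβ0 : 0 < β := by linarith
  obtain ⟨B, hB⟩ : ∃ B : ℝ, B = 2 * β := ⟨_, rfl⟩
  obtain ⟨δ, κ', c₀, C, hδ, hδ1, hκ, hc₀, hC, hev⟩ := toolkit (B := B) (by linarith)
  obtain ⟨Cv, E₀, hCv, hE₀, hF⟩ := VV_H (B := B) (by linarith)
  have hF : VH Cv E₀ B := hF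
  have hE₀0 : 0 < E₀ := by linarith
  obtain ⟨e, he⟩ : ∃ e : ℝ, e = min ε 1 := ⟨_, rfl⟩
  have he0 : 0 < e := by rw [he]; exact lt_min hε one_pos
  have heε : e ≤ ε := by rw [he]; exact min_le_left _ _
  have he1 : e ≤ 1 := by rw [he]; exact min_le_right _ _
  obtain ⟨b, hb⟩ : ∃ b : ℝ, b = min (min (e / (4 * β)) (ρ / (4 * β))) ((β / 2 - 1) / 2) := ⟨_, rfl⟩
  have hb0 : 0 < b := by rw [hb]; exact lt_min (lt_min (by positivity) (by positivity)) (by linarith)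
  have hb16 : b ≤ e / (4 * β) := by rw [hb]; exact (min_le_left _ _).trans (min_le_left _ _)
  have hbρ : b ≤ ρ / (4 * β) := by rw [hb]; exact (min_le_left _ _).trans (min_le_right _ _)
  have hβρ : β * b ≤ ρ / 4 := by
    calc β * b ≤ β * (ρ / (4 * β)) := mul_le_mul_of_nonneg_left hbρ hβ0.le
      _ = ρ / 4 := by field_simp
  have hbρ2 : b < ρ := by nlinarith
  have hbβ : b ≤ (β / 2 - 1) / 2 := by rw [hb]; exact min_le_right _ _
  have hβb : β * b ≤ e / 4 := by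
    calc β * b ≤ β * (e / (4 * β)) := mul_le_mul_of_nonneg_left hb16 hβ0.le
      _ = e / 4 := by field_simp
  have hb1 : b ≤ 1 := by nlinarith
  obtain ⟨V, hV⟩ : ∃ V : ℝ, V = β / 2 - b := ⟨_, rfl⟩
  have hV1 : 1 < V := by rw [hV]; linarith
  have hV0 : 0 < V := by linarith
  have hs : 1 < V ^ 2 := by nlinarith
  have hps : β ^ 2 / 4 - e < V ^ 2 := by
    have h1 : V ^ 2 = β ^ 2 / 4 - β * b + b ^ 2 := by rw [hV]; ring
    have h2 : 0 ≤ b ^ 2 := sq_nonneg b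
    rw [h1]
    linarith
  obtain ⟨Z, hZ0, hZ⟩ := sum_dist hs
  obtain ⟨η, hη⟩ : ∃ η : ℝ, η = c₀ * Real.exp (-Cv) / 8 := ⟨_, rfl⟩
  have hη0 : 0 < η := by rw [hη]; positivity
  obtain ⟨D, hD⟩ : ∃ D : ℝ, D = 16 * Real.exp (2 * V * (Real.log 16 / b)) * (C ^ 2 * Real.exp Cv) := ⟨_, rfl⟩
  have hD0 : 0 < D := by rw [hD]; positivity
  -- the exponent of the iterated logarithm
  obtain ⟨N, hN1, hN⟩ : ∃ N : ℕ, 1 ≤ N ∧ β * V ≤ N := ⟨⌈β * V⌉₊ + 1, by omega, by push_cast; linarith [Nat.le_ceil (β * V)]⟩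
  -- the first level
  have t1 : ∀ᶠ j : ℕ in atTop, C ^ 2 * Real.exp Cv * (Real.exp (-(3 / 4 * b ^ 2) * j) * (1 - Real.exp (-(3 / 4 * b ^ 2)))⁻¹) ≤ η := by
    have h1 : Tendsto (fun j : ℕ => C ^ 2 * Real.exp Cv * (Real.exp (-(3 / 4 * b ^ 2 * (j : ℝ))) * (1 - Real.exp (-(3 / 4 * b ^ 2)))⁻¹)) atTop
        (𝓝 (C ^ 2 * Real.exp Cv * (0 * (1 - Real.exp (-(3 / 4 * b ^ 2)))⁻¹))) :=
      ((Real.tendsto_exp_neg_atTop_nhds_zero.comp (tendsto_natCast_atTop_atTop.const_mul_atTop (by positivity))).mul_const _).const_mul _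
    rw [zero_mul, mul_zero] at h1
    filter_upwards [h1.eventually_lt_const hη0] with j hj
    rw [neg_mul]
    exact hj.le
  have t2 : ∀ᶠ j : ℕ in atTop, D * (Real.exp (V ^ 2) * Real.exp j ^ (-(V ^ 2)) * Z) ≤ η := by
    have h1 : Tendsto (fun j : ℕ => D * (Real.exp (V ^ 2) * Real.exp (-(V ^ 2 * (j : ℝ))) * Z)) atTop (𝓝 (D * (Real.exp (V ^ 2) * 0 * Z))) :=
      (((Real.tendsto_exp_neg_atTop_nhds_zero.comp (tendsto_natCast_atTop_atTop.const_mul_atTop (by positivity))).const_mul _).mul_const _).const_mul _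
    rw [mul_zero, zero_mul, mul_zero] at h1
    filter_upwards [h1.eventually_lt_const hη0] with j hj
    have e1 : Real.exp j ^ (-(V ^ 2)) = Real.exp (-(V ^ 2 * (j : ℝ))) := by
      rw [← Real.exp_mul]
      congr 1
      ring
    rw [e1]
    exact hj.le
  obtain ⟨j₀, f1, f2⟩ := (t1.and t2).exists
  obtain ⟨K, hK⟩ : ∃ K : ℝ, K = Real.exp j₀ := ⟨_, rfl⟩
  have hK1 : 1 ≤ K := by rw [hK]; exact Real.one_le_exp (Nat.cast_nonneg _)
  have hK0 : 0 < K := by linarith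
  rw [← hK] at f2
  have t3 := Real.tendsto_log_atTop.eventually (small_bigN (E₀ := E₀) (δ := δ) (D := D) (s := V ^ 2) (p := β ^ 2 / 4 - e) (η := η) (q := β ^ 2 / 4) hN1
    (by positivity) hE₀0 hδ hD0.le hps hη0)
  have t4 : ∀ᶠ T : ℝ in atTop, E₀ * K ≤ δ * Real.log T := (Real.tendsto_log_atTop.const_mul_atTop hδ).eventually_ge_atTop _
  have t5 : ∀ᶠ T : ℝ in atTop, Real.log T ^ (β ^ 2 / 4) ≤ T / 4 := by
    have h1 : Tendsto (fun T : ℝ => Real.log T ^ (β ^ 2 / 4) / T) atTop (𝓝 0) := by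
      have := (isLittleO_log_rpow_rpow_atTop (s := 1) (β ^ 2 / 4) one_pos).tendsto_div_nhds_zero
      refine this.congr fun T => ?_
      rw [Real.rpow_one]
    filter_upwards [h1.eventually_lt_const (by norm_num : (0 : ℝ) < 1 / 4), eventually_gt_atTop (0 : ℝ)] with T hT hT0
    rw [div_lt_iff₀ hT0] at hT
    linarith
  obtain ⟨C2, hC2⟩ : ∃ C2 : ℝ, C2 = C ^ 2 * Real.exp Cv := ⟨_, rfl⟩
  have hC20 : 0 < C2 := by rw [hC2]; positivity
  obtain ⟨ℓ, hℓ⟩ : ∃ ℓ : ℝ, ℓ = Real.log 16 / b := ⟨_, rfl⟩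
  have t6 : ∀ᶠ L : ℝ in atTop, C2 * Real.exp (-(3 / 4 * b ^ 2) * Real.log (δ * L)) ≤ η / 2 := by
    have h1 : Tendsto (fun L : ℝ => C2 * Real.exp (-(3 / 4 * b ^ 2 * Real.log (δ * L)))) atTop (𝓝 (C2 * 0)) :=
      (Real.tendsto_exp_neg_atTop_nhds_zero.comp ((Real.tendsto_log_atTop.comp (tendsto_id.const_mul_atTop hδ)).const_mul_atTop (by positivity))).const_mul _
    rw [mul_zero] at h1
    filter_upwards [h1.eventually_lt_const (by positivity : (0 : ℝ) < η / 2)] with L hL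
    rw [neg_mul]
    exact hL.le
  have t7 : ∀ᶠ L : ℝ in atTop, wD1 (δ * L) b V (L ^ (β / 2 - ρ)) * C2 ≤ η := by
    have h1 : Tendsto (fun L : ℝ => 16 * C2 * Real.exp (2 * ℓ - 2 * V * Real.log δ) * Real.exp (-((2 * ρ - 2 * b) * Real.log L))) atTop
        (𝓝 (16 * C2 * Real.exp (2 * ℓ - 2 * V * Real.log δ) * 0)) :=
      (Real.tendsto_exp_neg_atTop_nhds_zero.comp (Real.tendsto_log_atTop.const_mul_atTop (by linarith))).const_mul _
    rw [mul_zero] at h1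
    filter_upwards [h1.eventually_lt_const hη0, eventually_gt_atTop (0 : ℝ)] with L hL hL0
    refine le_trans (le_of_eq ?_) hL.le
    unfold wD1
    rw [← hℓ, Real.log_mul hδ.ne' hL0.ne', Real.rpow_def_of_pos hL0, ← Real.exp_nat_mul]
    have e1 : 16 * Real.exp (((2 : ℕ) : ℝ) * (Real.log L * (β / 2 - ρ))) * Real.exp (2 * (ℓ - V * (Real.log δ + Real.log L))) * C2 =
        16 * C2 * (Real.exp (((2 : ℕ) : ℝ) * (Real.log L * (β / 2 - ρ))) * Real.exp (2 * (ℓ - V * (Real.log δ + Real.log L)))) := by ring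
    have e2 : 16 * C2 * Real.exp (2 * ℓ - 2 * V * Real.log δ) * Real.exp (-((2 * ρ - 2 * b) * Real.log L)) =
        16 * C2 * (Real.exp (2 * ℓ - 2 * V * Real.log δ) * Real.exp (-((2 * ρ - 2 * b) * Real.log L))) := by ring
    rw [e1, e2, ← Real.exp_add, ← Real.exp_add]
    congr 2
    rw [hV]
    push_cast
    ring
  obtain ⟨c₁, hc₁⟩ : ∃ c₁ : ℝ, c₁ = 4 * η ^ 2 / (64 * Real.exp (β * ℓ) * C2) := ⟨_, rfl⟩
  have hc₁0 : 0 < c₁ := by rw [hc₁]; positivity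
  refine ⟨c₁ * (δ / (2 * K)), by positivity, ?_⟩
  filter_upwards [hev, t3, t4, t5, eventually_ge_atTop (16 : ℝ), Real.tendsto_log_atTop.eventually_ge_atTop 1, Real.tendsto_log_atTop.eventually t6,
    Real.tendsto_log_atTop.eventually t7] with T hev t3 t4 t5 hT16 hL1 t6 t7 x hx H hH0 hH
  obtain ⟨hE1, htk⟩ := hev
  obtain ⟨L, hL⟩ : ∃ L : ℝ, L = Real.log T := ⟨_, rfl⟩
  rw [← hL] at hE1 htk t3 t4 t5 hL1 hH t6 t7 ⊢
  obtain ⟨E, hE⟩ : ∃ E : ℝ, E = δ * L := ⟨_, rfl⟩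
  rw [← hE] at hE1 htk t4 t6 t7
  have hT0 : 0 < T := by linarith
  have hL0 : 0 < L := by linarith
  have hE0 : 0 < E := by linarith
  have hEL : E ≤ L := by rw [hE]; nlinarith
  obtain ⟨n, hn⟩ : ∃ n : ℕ, n = ⌊H * E / K⌋₊ + 1 := ⟨_, rfl⟩
  obtain ⟨J, hJ⟩ : ∃ J : ℕ, J = ⌊Real.log (E / E₀)⌋₊ := ⟨_, rfl⟩
  have hH' : H ≤ L ^ (β ^ 2 / 4 - 1 - e) := hH.trans (Real.rpow_le_rpow_of_exponent_le hL1 (by linarith))
  have hH3 : H ≤ L ^ (β ^ 2 / 4) := hH'.trans (Real.rpow_le_rpow_of_exponent_le hL1 (by linarith))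
  have hHT : |x| + H ≤ T / 2 := by linarith
  have htk1 : ∀ X : ℝ, |X| ≤ T / 2 → ∀ y : ℕ → ℂ, (∀ n, ‖y n‖ ≤ B) → ∃ Q : ℝ, c₀ * VV E (aw 2 X) y ≤ Q ∧ Q ≤ C * VV E (aw 2 X) y ∧
      T * Q ≤ ∫ t in T..(2 * T), fz 2 (t + X) * Pf E κ' y t ∧
      ∫ t in T..(2 * T), fz 2 (t + X) * Pf E κ' y t ≤ C * (T * Q) ∧
      ∀ w : ℕ → ℂ, (∀ n, ‖w n‖ ≤ B) → ∑ j ∈ Finset.range (JB E), ∫ t in T..(2 * T), fz 2 (t + X) * Pf E κ' y t * ‖pw E κ' w (fun _ => 0) (j + 1) t‖ ^ 2 ≤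
        1 / 8 * (T * Q) := by
    intro X hX y hy
    have h1 := htk ![2 / 2, 0] ![X, X] (by intro j; fin_cases j <;> simp) (by simp) (by intro j; fin_cases j <;> simpa using hX) y hy
    rw [ap_one] at h1
    simp only [zpr_one] at h1
    exact h1
  have hU : UpbS E κ' B C T := by
    intro X hX y hy
    obtain ⟨Q, q1, q2, q3, q4, q5⟩ := htk1 X hX y hy
    refine q4.trans ?_
    apply mul_le_mul_of_nonneg_left _ hC.le
    exact mul_le_mul_of_nonneg_left q2 hT0.le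
  have hU0 : ∀ X : ℝ, |X| ≤ T / 2 → ∫ t in T..(2 * T), Pf E κ' (yF E (β / 2) (JB E) X) t ≤ C * (T * (C * VV E (fun _ => 0) (yF E (β / 2) (JB E) X))) := by
    intro X hX
    have h1 := htk ![0 / 2, 0] ![X, X] (by intro j; fin_cases j <;> simp) (by simp) (by intro j; fin_cases j <;> simpa using hX) (yF E (β / 2) (JB E) X)
      (fun n => norm_yF (by rw [abs_of_pos (by linarith)]; linarith) E (JB E) X n)
    rw [ap_one] at h1
    simp only [zpr_one, Real.rpow_zero, one_mul] at h1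
    have e0 : aw 0 X = fun _ => 0 := by
      funext n
      unfold aw
      simp
    rw [e0] at h1
    obtain ⟨Q, q1, q2, q3, q4, q5⟩ := h1
    refine q4.trans ?_
    apply mul_le_mul_of_nonneg_left _ hC.le
    exact mul_le_mul_of_nonneg_left q2 hT0.le
  have hU4 : ∀ X : ℝ, |X| ≤ T / 2 → ∫ t in T..(2 * T), fz 4 (t + X) * Pf E κ' (yF E (β / 2 - 2) (JB E) X) t ≤
      C * (T * (C * VV E (aw 4 X) (yF E (β / 2 - 2) (JB E) X))) := by
    intro X hX
    have h1 := htk ![4 / 2, 0] ![X, X] (by intro j; fin_cases j <;> simp; norm_num) (by simp; norm_num) (by intro j; fin_cases j <;> simpa using hX)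
      (yF E (β / 2 - 2) (JB E) X) (fun n => norm_yF (by rw [abs_le]; constructor <;> linarith) E (JB E) X n)
    rw [ap_one] at h1
    simp only [zpr_one] at h1
    obtain ⟨Q, q1, q2, q3, q4, q5⟩ := h1
    refine q4.trans ?_
    apply mul_le_mul_of_nonneg_left _ hC.le
    exact mul_le_mul_of_nonneg_left q2 hT0.le
  have hQ : ∀ X, |X| ≤ T / 2 → ∃ Q : ℝ, c₀ * VV E (aw 2 X) (yF E (β / 2 - 1) (JB E) X) ≤ Q ∧
      T * Q ≤ ∫ t in T..(2 * T), fz 2 (t + X) * Pf E κ' (yF E (β / 2 - 1) (JB E) X) t ∧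
      ∫ t in T..(2 * T), fz 2 (t + X) * (Pf E κ' (yF E (β / 2 - 1) (JB E) X) t * pW E κ' β X t) ≤ 1 / 8 * (T * Q) := by
    intro X hX
    obtain ⟨Q, q1, q2, q3, q4, q5⟩ := htk1 X hX (yF E (β / 2 - 1) (JB E) X) (fun n => norm_yF (by rw [abs_of_pos (by linarith)]; linarith) E (JB E) X n)
    refine ⟨Q, q1, q3, ?_⟩
    have h1 := q5 (wS β X) (fun n => (wS_norm hβ0.le X n).trans (by linarith))
    have hfc : Continuous fun t => fz 2 (t + X) * Pf E κ' (yF E (β / 2 - 1) (JB E) X) t := ((fz_cont (by norm_num)).comp (by fun_prop)).mul (Pf_cont _ _ _)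
    have h2 : ∫ t in T..(2 * T), fz 2 (t + X) * (Pf E κ' (yF E (β / 2 - 1) (JB E) X) t * pW E κ' β X t) =
        ∑ j ∈ Finset.range (JB E), ∫ t in T..(2 * T), fz 2 (t + X) * Pf E κ' (yF E (β / 2 - 1) (JB E) X) t * ‖pw E κ' (wS β X) (fun _ => 0) (j + 1) t‖ ^ 2 := by
      unfold pW
      simp only [← mul_assoc]
      simp only [Finset.mul_sum]
      exact intervalIntegral.integral_finsetSum fun j _ => (hfc.mul ((Pool.Agent.Q184.UM.pw_cont _ _ _ _ _).norm.pow 2)).intervalIntegrable _ _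
    rw [h2]
    exact h1
  have hnle : (n : ℝ) ≤ 2 * L ^ (β ^ 2 / 4 - e) := by
    have h1 : ((⌊H * E / K⌋₊ : ℕ) : ℝ) ≤ H * L := by
      refine (Nat.floor_le (by positivity)).trans ?_
      rw [div_le_iff₀ hK0]
      calc H * E ≤ H * L := mul_le_mul_of_nonneg_left hEL hH0
        _ ≤ H * L * K := le_mul_of_one_le_right (by positivity) hK1
    have h2 : H * L ≤ L ^ (β ^ 2 / 4 - e) := by
      calc H * L ≤ L ^ (β ^ 2 / 4 - 1 - e) * L := mul_le_mul_of_nonneg_right hH' hL0.le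
        _ = L ^ (β ^ 2 / 4 - e) := by
            have e1 : β ^ 2 / 4 - e = β ^ 2 / 4 - 1 - e + 1 := by ring
            rw [e1, Real.rpow_add hL0, Real.rpow_one]
    have h3 : (1 : ℝ) ≤ L ^ (β ^ 2 / 4 - e) := Real.one_le_rpow hL1 (by nlinarith)
    rw [hn]
    push_cast
    linarith
  have hDH : (5 + Real.log (H + 1)) ^ N ≤ (6 + β ^ 2 / 4 * Real.log L) ^ N := by
    apply pow_le_pow_left₀ (by have := Real.log_nonneg (by linarith : 1 ≤ H + 1); linarith)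
    have h1 : H + 1 ≤ 2 * L ^ (β ^ 2 / 4) := by
      have : (1 : ℝ) ≤ L ^ (β ^ 2 / 4) := Real.one_le_rpow hL1 (by positivity)
      linarith
    have h2 : Real.log (H + 1) ≤ Real.log (2 * L ^ (β ^ 2 / 4)) := Real.log_le_log (by linarith) h1
    rw [Real.log_mul (by norm_num) (by positivity), Real.log_rpow hL0] at h2
    have h3 := Real.log_two_lt_d9
    linarith
  have hcore := ld_coreH (S := β) (H := H) (x := x) (n := n) (J := J) (N := N) (lam := L ^ (β / 2 - ρ)) (V₂ := β / 2 + b) hF hU hU0 hU4 hC hT0 hβ2 le_rfl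
    (by linarith) hb0 hb1 hV hV0 rfl
    (by linarith) hN hE₀ hκ (j₀ := j₀) (by rw [← hK, le_div_iff₀ hE₀0]; linarith) hK hJ hH0 hHT hn hc₀ hQ hZ hη hD f1 f2 (by
      refine le_trans ?_ t3
      apply mul_le_mul_of_nonneg_left _ hD0.le
      rw [← hE]
      apply mul_le_mul hnle _ (by have := Real.log_nonneg (by linarith : 1 ≤ H + 1); positivity) (by positivity)
      exact mul_le_mul_of_nonneg_right hDH (by positivity)) (by rw [← hC2]; exact t6) (by rw [← hC2]; exact t7)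
  refine le_trans ?_ hcore
  rw [← hC2]
  have hA : 4 * η ^ 2 * (T * Real.exp (β ^ 2 / 4 * Real.log E)) / (wD2 E β b (β / 2 + b) * C2) =
      c₁ * T * Real.exp (-(β ^ 2 / 4 + β * b) * Real.log E) := by
    have h1 : Real.exp (β ^ 2 / 4 * Real.log E) = Real.exp (-(β ^ 2 / 4 + β * b) * Real.log E) * Real.exp (β * ((β / 2 + b) * Real.log E)) := by
      rw [← Real.exp_add]
      congr 1
      ring
    have h2 : wD2 E β b (β / 2 + b) = 64 * (Real.exp (β * ((β / 2 + b) * Real.log E)) * Real.exp (β * ℓ)) := by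
      unfold wD2
      rw [← hℓ, mul_add, Real.exp_add]
    rw [h1, h2, hc₁]
    field_simp
  rw [hA]
  have hexp : L ^ (-(β ^ 2 / 4) - ρ) ≤ Real.exp (-(β ^ 2 / 4 + β * b) * Real.log E) := by
    rw [Real.rpow_def_of_pos hL0]
    apply Real.exp_le_exp.2
    have h1 : Real.log E ≤ Real.log L := Real.log_le_log hE0 hEL
    have h2 : 0 ≤ Real.log L := Real.log_nonneg hL1
    have h3 : 0 ≤ β ^ 2 / 4 + β * b := by positivity
    have h4 : (β ^ 2 / 4 + β * b) * Real.log E ≤ (β ^ 2 / 4 + β * b) * Real.log L := mul_le_mul_of_nonneg_left h1 h3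
    have h5 : (β ^ 2 / 4 + β * b) * Real.log L ≤ (β ^ 2 / 4 + ρ) * Real.log L := mul_le_mul_of_nonneg_right (by linarith) h2
    linarith
  have hnge : δ / (2 * K) * (1 + H * L) ≤ n := by
    have h1 : H * E / K < n := by
      rw [hn]
      push_cast
      exact Nat.lt_floor_add_one _
    have h2 : (1 : ℝ) ≤ n := by
      rw [hn]
      push_cast
      linarith [Nat.cast_nonneg (α := ℝ) ⌊H * E / K⌋₊]
    have h3 : δ / (2 * K) * (1 + H * L) = (δ / K + H * E / K) / 2 := by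
      rw [hE]
      field_simp
    have h4 : δ / K ≤ 1 := by
      rw [div_le_one hK0]
      linarith
    rw [h3]
    linarith
  calc c₁ * (δ / (2 * K)) * T * ((1 + H * L) * L ^ (-(β ^ 2 / 4) - ρ)) = (δ / (2 * K) * (1 + H * L)) * (c₁ * T * L ^ (-(β ^ 2 / 4) - ρ)) := by ring
    _ ≤ n * (c₁ * T * Real.exp (-(β ^ 2 / 4 + β * b) * Real.log E)) := by
        apply mul_le_mul hnge _ (by positivity) (Nat.cast_nonneg _)
        exact mul_le_mul_of_nonneg_left hexp (by positivity)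

end

end Pool.Agent.H469.F4
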