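import Pool.Agent.H469.F4.S8

set_option autoImplicit false

/-!
# Maxima, all orders and all lengths: consequences
-/

namespace Pool.Agent.H469.F4

open Filter Topology MeasureTheory Complex Pool.Agent.Q97.UM

noncomputable section

/-- **large deviations, uniformly in the length** -/
theorem ldH {v η : ℝ} (hv : 1 ≤ v) (hη : 0 < η) : ∀ᶠ T : ℝ in atTop, ∀ x : ℝ, |x| ≤ T / 8 → ∀ H : ℝ, 0 ≤ H → H ≤ Real.log T ^ (v ^ 2 - 1) →
    T * ((1 + H * Real.log T) * Real.log T ^ (-(v ^ 2) - η)) ≤ ∫ t in T..(2 * T), above (MH H x) (Real.log T ^ v) t := by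
  obtain ⟨ρ, hρ⟩ : ∃ ρ : ℝ, ρ = min 1 (η / (4 * (v + 1))) := ⟨_, rfl⟩
  have hρ0 : 0 < ρ := by rw [hρ]; exact lt_min one_pos (by positivity)
  have hρ1 : ρ ≤ 1 := by rw [hρ]; exact min_le_left _ _
  have hρ2 : ρ ≤ η / (4 * (v + 1)) := by rw [hρ]; exact min_le_right _ _
  have hρ3 : ρ * (2 * v + 2) ≤ η / 2 := by
    calc ρ * (2 * v + 2) ≤ η / (4 * (v + 1)) * (2 * v + 2) := mul_le_mul_of_nonneg_right hρ2 (by linarith)
      _ = η / 2 := by
          have : v + 1 ≠ 0 := by linarith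
          field_simp
          ring
  have hsq : (v + ρ) ^ 2 + ρ ≤ v ^ 2 + η / 2 := by nlinarith
  obtain ⟨c, hc, h⟩ := ld_longH (β := 2 * (v + ρ)) (ε := (v + ρ) ^ 2 - v ^ 2) (ρ := ρ) (by linarith) (by nlinarith) hρ0
  have hbig : ∀ᶠ T : ℝ in atTop, 1 ≤ c * Real.log T ^ (η / 2) :=
    (((tendsto_rpow_atTop (by linarith : 0 < η / 2)).comp Real.tendsto_log_atTop).const_mul_atTop hc).eventually_ge_atTop 1
  filter_upwards [h, hbig, eventually_gt_atTop (0 : ℝ), Real.tendsto_log_atTop.eventually_ge_atTop 1] with T h hbig hT hL1 x hx H hH0 hH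
  have hL0 : 0 < Real.log T := by linarith
  have e1 : (2 * (v + ρ)) ^ 2 / 4 = (v + ρ) ^ 2 := by ring
  have e2 : (v + ρ) ^ 2 - 1 - ((v + ρ) ^ 2 - v ^ 2) = v ^ 2 - 1 := by ring
  have e3 : 2 * (v + ρ) / 2 - ρ = v := by ring
  rw [e1, e2, e3] at h
  refine le_trans ?_ (h x hx H hH0 hH)
  have h1 : Real.log T ^ (-(v ^ 2) - η) ≤ c * Real.log T ^ (-(v + ρ) ^ 2 - ρ) := by
    calc Real.log T ^ (-(v ^ 2) - η) = 1 * Real.log T ^ (-(v ^ 2) - η) := (one_mul _).symm
      _ ≤ c * Real.log T ^ (η / 2) * Real.log T ^ (-(v ^ 2) - η) := mul_le_mul_of_nonneg_right hbig (by positivity)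
      _ = c * Real.log T ^ (-(v ^ 2) - η / 2) := by
          rw [mul_assoc, ← Real.rpow_add hL0]
          congr 2
          ring
      _ ≤ c * Real.log T ^ (-(v + ρ) ^ 2 - ρ) := by
          apply mul_le_mul_of_nonneg_left _ hc.le
          exact Real.rpow_le_rpow_of_exponent_le hL1 (by linarith)
  have h2 : 0 ≤ 1 + H * Real.log T := by positivity
  calc T * ((1 + H * Real.log T) * Real.log T ^ (-(v ^ 2) - η)) ≤ T * ((1 + H * Real.log T) * (c * Real.log T ^ (-(v + ρ) ^ 2 - ρ))) :=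
        mul_le_mul_of_nonneg_left (mul_le_mul_of_nonneg_left h1 h2) hT.le
    _ = _ := by ring

/-- the frozen phase, all lengths -/
theorem frozen_low {β θ η : ℝ} (hβ0 : 0 < β) (hθ0 : 0 ≤ θ) (hη : 0 < η) :
    ∀ᶠ T : ℝ in atTop, Real.log T ^ (β * Real.sqrt (1 + θ) - η) ≤ AM β θ T := by
  obtain ⟨v, hv⟩ : ∃ v : ℝ, v = Real.sqrt (1 + θ) := ⟨_, rfl⟩
  have hv2 : v ^ 2 = 1 + θ := by rw [hv]; exact Real.sq_sqrt (by linarith)
  have hv0 : 0 ≤ v := by rw [hv]; exact Real.sqrt_nonneg _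
  have hv1 : 1 ≤ v := by nlinarith
  rw [← hv]
  filter_upwards [ldH hv1 hη, eventually_gt_atTop (0 : ℝ), Real.tendsto_log_atTop.eventually_ge_atTop 1] with T h hT hL1
  have hL0 : 0 < Real.log T := by linarith
  have h1 := h 0 (by rw [abs_zero]; positivity) (Real.log T ^ θ) (by positivity) (Real.rpow_le_rpow_of_exponent_le hL1 (by linarith))
  unfold AM
  rw [le_inv_mul_iff₀ hT]
  have hH0 : 0 ≤ Real.log T ^ θ := by positivity
  have cM : Continuous fun t => MH (Real.log T ^ θ) 0 t ^ β := (MH_cont _ 0).rpow_const fun _ => Or.inr hβ0.le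
  have h2 : Real.log T ^ (β * v) * ∫ t in T..(2 * T), above (MH (Real.log T ^ θ) 0) (Real.log T ^ v) t ≤ ∫ t in T..(2 * T), MH (Real.log T ^ θ) 0 t ^ β := by
    rw [← intervalIntegral.integral_const_mul]
    refine intervalIntegral.integral_mono_on (by linarith) ((above_int (MH_cont _ 0) _ _ _).const_mul _) (cM.intervalIntegrable _ _) fun t _ => ?_
    rcases lt_or_ge (Real.log T ^ v) (MH (Real.log T ^ θ) 0 t) with h3 | h3
    · rw [above_of_lt h3, mul_one, mul_comm β v, Real.rpow_mul hL0.le]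
      exact Real.rpow_le_rpow (by positivity) h3.le hβ0.le
    · rw [above_of_le h3, mul_zero]
      exact Real.rpow_nonneg (MH_nonneg hH0 _ _) _
  refine le_trans ?_ h2
  have h3 : Real.log T ^ (v ^ 2) ≤ 1 + Real.log T ^ θ * Real.log T := by
    have e : Real.log T ^ θ * Real.log T = Real.log T ^ (v ^ 2) := by
      rw [hv2, add_comm 1 θ, Real.rpow_add hL0, Real.rpow_one]
    rw [e]
    linarith
  calc T * Real.log T ^ (β * v - η) = Real.log T ^ (β * v) * (T * (Real.log T ^ (v ^ 2) * Real.log T ^ (-(v ^ 2) - η))) := by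
        have e1 : Real.log T ^ (v ^ 2) * Real.log T ^ (-(v ^ 2) - η) = Real.log T ^ (-η) := by
          rw [← Real.rpow_add hL0]
          congr 1
          ring
        have e2 : Real.log T ^ (β * v - η) = Real.log T ^ (β * v) * Real.log T ^ (-η) := by
          rw [← Real.rpow_add hL0]
          congr 1
        rw [e1, e2]
        ring
    _ ≤ Real.log T ^ (β * v) * (T * ((1 + Real.log T ^ θ * Real.log T) * Real.log T ^ (-(v ^ 2) - η))) := by
        apply mul_le_mul_of_nonneg_left _ (by positivity)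
        apply mul_le_mul_of_nonneg_left _ hT.le
        exact mul_le_mul_of_nonneg_right h3 (by positivity)
    _ ≤ _ := mul_le_mul_of_nonneg_left h1 (by positivity)

/-- **lower bounds for all moments, all lengths** -/
theorem expo_low_all {β θ η : ℝ} (hβ0 : 0 < β) (hθ1 : -1 ≤ θ) (hη : 0 < η) :
    ∀ᶠ T : ℝ in atTop, Real.log T ^ (expF β θ - η) ≤ AM β θ T := by
  have hbigcase : 2 < β → θ < β ^ 2 / 4 - 1 → ∀ᶠ T : ℝ in atTop, Real.log T ^ (1 + θ + β ^ 2 / 4 - η) ≤ AM β θ T := by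
    intro hβ2 hθ
    obtain ⟨c, hc, h⟩ := long_lowerH (β := β) (ε := β ^ 2 / 4 - 1 - θ) hβ2 (by linarith)
    have hbig : ∀ᶠ T : ℝ in atTop, 1 ≤ c * Real.log T ^ η :=
      (((tendsto_rpow_atTop hη).comp Real.tendsto_log_atTop).const_mul_atTop hc).eventually_ge_atTop 1
    filter_upwards [h, hbig, eventually_gt_atTop (0 : ℝ), Real.tendsto_log_atTop.eventually_ge_atTop 1] with T h hbig hT hL1
    have hL0 : 0 < Real.log T := by linarith
    have e0 : β ^ 2 / 4 - 1 - (β ^ 2 / 4 - 1 - θ) = θ := by ring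
    rw [e0] at h
    have h1 := h 0 (by rw [abs_zero]; positivity) (Real.log T ^ θ) (by positivity) le_rfl
    unfold AM
    rw [le_inv_mul_iff₀ hT]
    refine le_trans ?_ h1
    have e1 : Real.log T ^ (1 + θ + β ^ 2 / 4) = Real.log T ^ θ * Real.log T * Real.log T ^ (β ^ 2 / 4) := by
      rw [Real.rpow_add hL0, Real.rpow_add hL0, Real.rpow_one]
      ring
    have e2 : Real.log T ^ (1 + θ + β ^ 2 / 4 - η) = Real.log T ^ (1 + θ + β ^ 2 / 4) * Real.log T ^ (-η) := by
      rw [← Real.rpow_add hL0]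
      congr 1
    have e3 : Real.log T ^ (-η) * Real.log T ^ η = 1 := by
      rw [← Real.rpow_add hL0]
      simp
    calc T * Real.log T ^ (1 + θ + β ^ 2 / 4 - η) = T * (Real.log T ^ (1 + θ + β ^ 2 / 4) * Real.log T ^ (-η)) * 1 := by rw [e2]; ring
      _ ≤ T * (Real.log T ^ (1 + θ + β ^ 2 / 4) * Real.log T ^ (-η)) * (c * Real.log T ^ η) := mul_le_mul_of_nonneg_left hbig (by positivity)
      _ = c * T * (Real.log T ^ (1 + θ + β ^ 2 / 4) * (Real.log T ^ (-η) * Real.log T ^ η)) := by ring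
      _ = c * T * (Real.log T ^ θ * Real.log T * Real.log T ^ (β ^ 2 / 4)) := by rw [e3, e1, mul_one]
      _ ≤ c * T * ((1 + Real.log T ^ θ * Real.log T) * Real.log T ^ (β ^ 2 / 4)) := by
          apply mul_le_mul_of_nonneg_left _ (by positivity)
          exact mul_le_mul_of_nonneg_right (by linarith) (by positivity)
  rcases lt_or_ge θ 0 with hθ0 | hθ0
  · rcases le_or_gt β 2 with hβ2 | hβ2
    · have h1 := expo_all hβ0 (by linarith) hθ1 (by linarith : θ < 3)
      have h2 := h1.eventually (lt_mem_nhds (by linarith : expF β θ - η < expF β θ))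
      have hℓ : Tendsto (fun T : ℝ => Real.log (Real.log T)) atTop atTop := Real.tendsto_log_atTop.comp Real.tendsto_log_atTop
      filter_upwards [h2, AM_pos hβ0 (by linarith : β ≤ 4) (θ := θ), Real.tendsto_log_atTop.eventually_ge_atTop 1, hℓ.eventually_gt_atTop 0] with T h2 hp hL1 hl
      have hL0 : 0 < Real.log T := by linarith
      rw [lt_div_iff₀ hl] at h2
      rw [← Real.log_le_log_iff (by positivity) hp, Real.log_rpow hL0]
      exact h2.le
    · have e : expF β θ = 1 + θ + β ^ 2 / 4 := by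
        unfold expF
        rw [if_pos hθ0, if_neg (not_le.2 hβ2)]
      rw [e]
      exact hbigcase hβ2 (by nlinarith)
  · have hs : 0 ≤ Real.sqrt (1 + θ) := Real.sqrt_nonneg _
    have hs2 : Real.sqrt (1 + θ) ^ 2 = 1 + θ := Real.sq_sqrt (by linarith)
    rcases le_or_gt β (2 * Real.sqrt (1 + θ)) with hβ2 | hβ2
    · have e : expF β θ = β * Real.sqrt (1 + θ) := by
        unfold expF
        rw [if_neg (not_lt.2 hθ0), if_pos hβ2]
      rw [e]
      exact frozen_low hβ0 hθ0 hη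
    · have e : expF β θ = 1 + θ + β ^ 2 / 4 := by
        unfold expF
        rw [if_neg (not_lt.2 hθ0), if_neg (not_le.2 hβ2)]
      rw [e]
      have h1 : 1 ≤ Real.sqrt (1 + θ) := by nlinarith
      exact hbigcase (by linarith) (by nlinarith)

end

end Pool.Agent.H469.F4
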