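import Pool.Graph.R_pool_sql_team_seeded_3997aac3.Q97.UM.Base10

set_option autoImplicit false

/-!
# Sums over smooth numbers of the convolution of two characters with a smooth sequence
-/

namespace Pool.Agent.H469.F4

open Filter Topology MeasureTheory Complex Pool.Agent.Q97.UM
open Pool.Agent.Q150.UM (ep_bound approx uY dp_uY cv_uY PA_eq ua_mul)

noncomputable section

theorem sum_two (K : ℕ) : ∑ k ∈ Finset.range K, ((k : ℝ) + 2) ^ 2 * (1 / 2) ^ k = 22 - 2 * ((K : ℝ) ^ 2 + 6 * K + 11) * (1 / 2) ^ K := by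
  induction K with
  | zero => norm_num
  | succ K ih =>
    rw [Finset.sum_range_succ, ih, pow_succ]
    push_cast
    ring

theorem geoK (x : ℝ) (hx0 : 0 ≤ x) (hx : x ≤ 1 / 2) (K : ℕ) :
    ∑ k ∈ Finset.range K, ((k : ℝ) + 1) ^ 2 * x ^ k ≤ Real.exp (22 * x) := by
  rcases Nat.eq_zero_or_pos K with h | h
  · subst h
    simp only [Finset.range_zero, Finset.sum_empty]
    positivity
  · obtain ⟨K, rfl⟩ : ∃ K', K = K' + 1 := ⟨K - 1, by omega⟩
    rw [Finset.sum_range_succ']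
    have h1 : ∑ k ∈ Finset.range K, (((k + 1 : ℕ) : ℝ) + 1) ^ 2 * x ^ (k + 1) ≤
        x * ∑ k ∈ Finset.range K, ((k : ℝ) + 2) ^ 2 * (1 / 2) ^ k := by
      rw [Finset.mul_sum]
      refine Finset.sum_le_sum fun k _ => ?_
      have h2 : x ^ k ≤ (1 / 2) ^ k := pow_le_pow_left₀ hx0 hx k
      have h3 : (((k + 1 : ℕ) : ℝ) + 1) ^ 2 * x ^ (k + 1) = x * (((k : ℝ) + 2) ^ 2 * x ^ k) := by
        push_cast
        ring
      rw [h3]
      gcongr
    have h2 : ∑ k ∈ Finset.range K, ((k : ℝ) + 2) ^ 2 * (1 / 2) ^ k ≤ 22 := by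
      rw [sum_two]
      have : 0 ≤ 2 * ((K : ℝ) ^ 2 + 6 * K + 11) * (1 / 2) ^ K := by positivity
      linarith
    have h3 := mul_le_mul_of_nonneg_left h2 hx0
    have h4 := Real.add_one_le_exp (22 * x)
    simp only [Nat.cast_zero, zero_add, one_pow, pow_zero, mul_one]
    linarith

/-- adding the primes one by one -/
theorem smooth_ind (E : ℕ → ℂ) (P : ℕ) (B : ℝ)
    (hB : ∀ F : Finset ℕ, (∀ n ∈ F, n ∈ (P + 1).smoothNumbers) → ∑ n ∈ F, ‖E n‖ ^ 2 / n ≤ B)
    (hE : ∀ p k m : ℕ, p.Prime → P < p → m ≠ 0 → ¬ p ∣ m → ‖E (p ^ k * m)‖ ≤ (k + 1) * ‖E m‖) (X : ℕ) (hX : P + 1 ≤ X) :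
    ∀ F : Finset ℕ, (∀ n ∈ F, n ∈ X.smoothNumbers) →
      ∑ n ∈ F, ‖E n‖ ^ 2 / n ≤ Real.exp (22 * ∑ p ∈ (Finset.Ico (P + 1) X).filter Nat.Prime, 1 / (p : ℝ)) * B := by
  classical
  have hB0 : 0 ≤ B := by simpa using hB ∅ (by simp)
  induction X, hX using Nat.le_induction with
  | base =>
    intro F hF
    simpa using hB F hF
  | succ X hX ih =>
    intro F hF
    by_cases hp : X.Prime
    · obtain ⟨Bx, hBx⟩ : ∃ Bx : ℝ, Bx = Real.exp (22 * ∑ p ∈ (Finset.Ico (P + 1) X).filter Nat.Prime, 1 / (p : ℝ)) * B := ⟨_, rfl⟩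
      rw [← hBx] at ih
      have hBx0 : 0 ≤ Bx := by rw [hBx]; positivity
      have hsum : ∑ p ∈ (Finset.Ico (P + 1) (X + 1)).filter Nat.Prime, 1 / (p : ℝ) =
          (∑ p ∈ (Finset.Ico (P + 1) X).filter Nat.Prime, 1 / (p : ℝ)) + 1 / (X : ℝ) := by
        have e : (Finset.Ico (P + 1) (X + 1)).filter Nat.Prime = insert X ((Finset.Ico (P + 1) X).filter Nat.Prime) := by
          ext q
          simp only [Finset.mem_filter, Finset.mem_Ico, Finset.mem_insert]
          constructor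
          · rintro ⟨⟨h1, h2⟩, h3⟩
            rcases Nat.lt_or_ge q X with h4 | h4
            · exact Or.inr ⟨⟨h1, h4⟩, h3⟩
            · exact Or.inl (by omega)
          · rintro (h | ⟨⟨h1, h2⟩, h3⟩)
            · subst h
              exact ⟨⟨hX, by omega⟩, hp⟩
            · exact ⟨⟨h1, by omega⟩, h3⟩
        rw [e, Finset.sum_insert (by simp), add_comm]
      have hgoal : Real.exp (22 * ∑ p ∈ (Finset.Ico (P + 1) (X + 1)).filter Nat.Prime, 1 / (p : ℝ)) * B =
          Real.exp (22 * (1 / (X : ℝ))) * Bx := by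
        rw [hsum, hBx, mul_add, Real.exp_add]
        ring
      rw [hgoal]
      -- the decomposition
      set v : ℕ → ℕ := fun n => n.factorization X with hv
      set r : ℕ → ℕ := fun n => n / X ^ n.factorization X with hr
      have hdec : ∀ n, X ^ v n * r n = n := fun n => Nat.ordProj_mul_ordCompl_eq_self n X
      set K := F.sup v with hK
      set F' := F.image r with hF'
      have hr0 : ∀ m ∈ F', m ≠ 0 ∧ ¬ X ∣ m ∧ m ∈ X.smoothNumbers := by
        intro m hm
        rw [hF', Finset.mem_image] at hm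
        obtain ⟨n, hn, rfl⟩ := hm
        have hns := hF n hn
        have hn0 := Nat.ne_zero_of_mem_smoothNumbers hns
        have h1 : r n ≠ 0 := by
          intro h0
          have := hdec n
          rw [h0, mul_zero] at this
          exact hn0 this.symm
        have h2 : ¬ X ∣ r n := Nat.not_dvd_ordCompl hp hn0
        refine ⟨h1, h2, ?_⟩
        rw [Nat.mem_smoothNumbers']
        intro q hq hqd
        rcases eq_or_ne q X with h | h
        · subst h
          exact absurd hqd h2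
        · have h3 : q ∣ n := hqd.trans (Nat.ordCompl_dvd n X)
          rw [Nat.mem_smoothNumbers'] at hns
          have := hns q hq h3
          omega
      have hinj : Set.InjOn (fun n => (v n, r n)) (F : Set ℕ) := by
        intro a _ b _ hab
        simp only [Prod.mk.injEq] at hab
        rw [← hdec a, ← hdec b, hab.1, hab.2]
      have h1 : ∑ n ∈ F, ‖E n‖ ^ 2 / (n : ℝ) =
          ∑ x ∈ F.image (fun n => (v n, r n)), ‖E (X ^ x.1 * x.2)‖ ^ 2 / ((X ^ x.1 * x.2 : ℕ) : ℝ) := by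
        rw [Finset.sum_image hinj]
        refine Finset.sum_congr rfl fun n _ => ?_
        simp only
        rw [hdec n]
      have h2 : F.image (fun n => (v n, r n)) ⊆ Finset.range (K + 1) ×ˢ F' := by
        intro x hx
        rw [Finset.mem_image] at hx
        obtain ⟨n, hn, rfl⟩ := hx
        rw [Finset.mem_product, Finset.mem_range]
        exact ⟨Nat.lt_succ_of_le (Finset.le_sup (f := v) hn), Finset.mem_image_of_mem r hn⟩
      have hXpos : (0 : ℝ) < X := by exact_mod_cast hp.pos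
      have hx2 : 1 / (X : ℝ) ≤ 1 / 2 := by
        have : (2 : ℝ) ≤ X := by exact_mod_cast hp.two_le
        exact one_div_le_one_div_of_le (by norm_num) this
      have h4 := geoK (1 / (X : ℝ)) (by positivity) hx2 (K + 1)
      have h5 := ih F' fun m hm => (hr0 m hm).2.2
      calc ∑ n ∈ F, ‖E n‖ ^ 2 / (n : ℝ) ≤
          ∑ x ∈ Finset.range (K + 1) ×ˢ F', ‖E (X ^ x.1 * x.2)‖ ^ 2 / ((X ^ x.1 * x.2 : ℕ) : ℝ) := by
            rw [h1]
            exact Finset.sum_le_sum_of_subset_of_nonneg h2 fun _ _ _ => by positivity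
        _ ≤ ∑ x ∈ Finset.range (K + 1) ×ˢ F', (((x.1 : ℝ) + 1) ^ 2 * (1 / (X : ℝ)) ^ x.1) * (‖E x.2‖ ^ 2 / (x.2 : ℝ)) := by
            refine Finset.sum_le_sum fun x hx => ?_
            rw [Finset.mem_product] at hx
            obtain ⟨g1, g2, g3⟩ := hr0 x.2 hx.2
            have h6 := hE X x.1 x.2 hp (by omega) g1 g2
            have h7 := pow_le_pow_left₀ (norm_nonneg _) h6 2
            push_cast
            have h8 : (0 : ℝ) < x.2 := by exact_mod_cast Nat.pos_of_ne_zero g1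
            rw [one_div, inv_pow]
            calc ‖E (X ^ x.1 * x.2)‖ ^ 2 / ((X : ℝ) ^ x.1 * x.2) ≤
                (((x.1 : ℝ) + 1) * ‖E x.2‖) ^ 2 / ((X : ℝ) ^ x.1 * x.2) := by gcongr
              _ = _ := by
                  field_simp
        _ = (∑ k ∈ Finset.range (K + 1), ((k : ℝ) + 1) ^ 2 * (1 / (X : ℝ)) ^ k) * ∑ m ∈ F', ‖E m‖ ^ 2 / (m : ℝ) := by
            rw [Finset.sum_product, Finset.sum_mul]
            refine Finset.sum_congr rfl fun k _ => ?_
            rw [Finset.mul_sum]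
        _ ≤ Real.exp (22 * (1 / (X : ℝ))) * Bx :=
            mul_le_mul h4 h5 (Finset.sum_nonneg fun _ _ => by positivity) (Real.exp_pos _).le
    · rw [Nat.smoothNumbers_succ hp] at hF
      have e : (Finset.Ico (P + 1) (X + 1)).filter Nat.Prime = (Finset.Ico (P + 1) X).filter Nat.Prime := by
        ext q
        simp only [Finset.mem_filter, Finset.mem_Ico]
        constructor
        · rintro ⟨⟨h1, h2⟩, h3⟩
          refine ⟨⟨h1, ?_⟩, h3⟩
          rcases Nat.lt_or_ge q X with h4 | h4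
          · exact h4
          · exact absurd h3 (by rwa [show q = X by omega])
        · rintro ⟨⟨h1, h2⟩, h3⟩
          exact ⟨⟨h1, by omega⟩, h3⟩
      rw [e]
      exact ih F hF

/-! ### the convolution of two characters -/

theorem ua_cm (α : ℝ) {m n : ℕ} : ua α (m * n) = ua α m * ua α n := by
  unfold ua
  rw [Nat.cast_mul, Complex.natCast_mul_natCast_cpow]

theorem ua_one (α : ℝ) : ua α 1 = 1 := by
  unfold ua
  simp

theorem tA_ua_mult (α : ℝ) : (tA (ua α)).IsMultiplicative := by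
  refine ⟨?_, fun {m n} _ => ?_⟩
  · rw [tA_apply _ one_ne_zero, ua_one]
  · rcases eq_or_ne m 0 with h | h
    · subst h
      simp
    · rcases eq_or_ne n 0 with h' | h'
      · subst h'
        simp
      · rw [tA_apply _ (mul_ne_zero h h'), tA_apply _ h, tA_apply _ h', ua_cm]

theorem u2_mul (α β : ℝ) {m n : ℕ} (h : Nat.Coprime m n) :
    cv (ua α) (ua β) (m * n) = cv (ua α) (ua β) m * cv (ua α) (ua β) n := by
  rw [cv_eq, cv_eq, cv_eq]
  exact ((tA_ua_mult α).mul (tA_ua_mult β)).map_mul_of_coprime h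

theorem u2_pow (α β : ℝ) {p : ℕ} (hp : p.Prime) (k : ℕ) : ‖cv (ua α) (ua β) (p ^ k)‖ ≤ (k : ℝ) + 1 := by
  unfold cv
  rw [Nat.sum_divisorsAntidiagonal (fun a b => ua α a * ua β b)]
  refine (norm_sum_le _ _).trans ?_
  have h1 : ∀ i ∈ (p ^ k).divisors, ‖ua α i * ua β (p ^ k / i)‖ ≤ 1 := by
    intro i hi
    have hd := Nat.dvd_of_mem_divisors hi
    have hpk : p ^ k ≠ 0 := pow_ne_zero _ hp.ne_zero
    have hi0 : i ≠ 0 := by
      rintro rfl
      exact hpk (Nat.eq_zero_of_zero_dvd hd)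
    have hq0 : p ^ k / i ≠ 0 := by
      intro h0
      have := Nat.div_mul_cancel hd
      rw [h0, zero_mul] at this
      exact hpk this.symm
    rw [norm_mul, Pool.Agent.Q150.UM.ua_norm α hi0, Pool.Agent.Q150.UM.ua_norm β hq0, one_mul]
  refine (Finset.sum_le_card_nsmul _ _ 1 h1).trans (le_of_eq ?_)
  rw [Nat.divisors_prime_pow hp, Finset.card_map, Finset.card_range]
  simp

/-- the step at one prime -/
theorem E_step (P : ℕ) (α β : ℝ) (c : ℕ → ℂ) (hc : ∀ n, c n ≠ 0 → n ∈ (P + 1).smoothNumbers) (p k m : ℕ) (hp : p.Prime)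
    (hPp : P < p) (hm : m ≠ 0) (hpm : ¬ p ∣ m) :
    ‖cv (ua α) (cv (ua β) c) (p ^ k * m)‖ ≤ (k + 1) * ‖cv (ua α) (cv (ua β) c) m‖ := by
  rw [← cv_assoc]
  obtain ⟨u, hu⟩ : ∃ u : ℕ → ℂ, u = cv (ua α) (ua β) := ⟨_, rfl⟩
  have h1 : cv u c (p ^ k * m) = u (p ^ k) * cv u c m := by
    unfold cv
    rw [Nat.sum_divisorsAntidiagonal' (fun a b => u a * c b), Nat.sum_divisorsAntidiagonal' (fun a b => u a * c b),
      Finset.mul_sum]
    have hpk : p ^ k ≠ 0 := pow_ne_zero _ hp.ne_zero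
    have hsub : m.divisors ⊆ (p ^ k * m).divisors :=
      Nat.divisors_subset_of_dvd (mul_ne_zero hpk hm) (Dvd.intro_left _ rfl)
    rw [← Finset.sum_subset hsub]
    · refine Finset.sum_congr rfl fun h hh => ?_
      have hd := Nat.dvd_of_mem_divisors hh
      rw [Nat.mul_div_assoc _ hd, hu, u2_mul α β, mul_assoc]
      apply Nat.Coprime.pow_left
      rw [hp.coprime_iff_not_dvd]
      intro h2
      exact hpm (h2.trans (Nat.div_dvd_of_dvd hd))
    · intro h hh hh'
      have hd := Nat.dvd_of_mem_divisors hh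
      by_contra hne
      have hcn : c h ≠ 0 := right_ne_zero_of_mul hne
      have hsm := hc h hcn
      rw [Nat.mem_smoothNumbers'] at hsm
      have hnp : ¬ p ∣ h := fun h3 => by
        have := hsm p hp h3
        omega
      have hcop : Nat.Coprime h (p ^ k) := by
        apply Nat.Coprime.pow_right
        rw [Nat.coprime_comm, hp.coprime_iff_not_dvd]
        exact hnp
      have hdm := hcop.dvd_of_dvd_mul_left hd
      exact hh' (Nat.mem_divisors.2 ⟨hdm, hm⟩)
  rw [← hu, h1, norm_mul, hu]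
  exact mul_le_mul_of_nonneg_right (u2_pow α β hp k) (norm_nonneg _)

/-- the sums over smooth numbers against the mean value, two characters -/
theorem core_fin2 (hd : S_DPM) (hm : S_MVL) : ∃ K : ℝ, 0 ≤ K ∧ ∀ (P : ℕ) (α β : ℝ) (M : ℕ) (c : ℕ → ℂ),
    (∀ n, c n ≠ 0 → 1 ≤ n ∧ n ≤ M) → ∀ S : ℝ,
    MB (fun t => ‖cexp (PA P (ua α) (ua (2 * α)) t)‖ ^ 2 * ‖cexp (PA P (ua β) (ua (2 * β)) t)‖ ^ 2 * ‖dp M c t‖ ^ 2) S →
    ∀ F : Finset ℕ, (∀ n ∈ F, n ∈ (P + 1).smoothNumbers) →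
      ∑ n ∈ F, ‖cv (ua α) (cv (ua β) c) n‖ ^ 2 / n ≤ K * S := by
  obtain ⟨K, hK1, hK⟩ := ep_bound
  refine ⟨4 * K ^ 4, by positivity, fun P α β M c hc S hS F hF => ?_⟩
  have hN2 : 0 ≤ N2 M c := Pool.Agent.Q86.UM.N2_nonneg M c
  rcases Nat.eq_zero_or_pos M with hM0 | hM0
  · -- trivial case
    have hc0 : ∀ n, c n = 0 := by
      intro n
      by_contra h
      have := hc n h
      omega
    have h1 : ∀ n, cv (ua α) (cv (ua β) c) n = 0 := by
      intro n
      rw [← cv_assoc]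
      unfold cv
      exact Finset.sum_eq_zero fun b _ => by rw [hc0, mul_zero]
    have h2 : 0 ≤ S := Pool.Agent.Q176.UM.MB.nonneg (fun t => by positivity) hS
    simp only [h1]
    simp
    positivity
  -- a bound for the exponentials
  have hPAc : ∀ γ : ℝ, Continuous (PA P (ua γ) (ua (2 * γ))) := by
    intro γ
    unfold PA
    refine continuous_finsetSum _ fun p hp => ?_
    have hp0 : (p : ℂ) ≠ 0 := by exact_mod_cast (Finset.mem_filter.1 hp).2.ne_zero
    refine Continuous.add (continuous_const.mul ?_) (continuous_const.mul ?_)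
    · exact Continuous.const_cpow (by fun_prop) (Or.inl hp0)
    · exact Continuous.const_cpow (by fun_prop) (Or.inl hp0)
  have hBd : ∃ B : ℝ, 0 ≤ B ∧ ∀ γ t : ℝ, ‖cexp (PA P (ua γ) (ua (2 * γ)) t)‖ ≤ B := by
    refine ⟨Real.exp (∑ p ∈ (P + 1).primesBelow, (1 + 1)), by positivity, fun γ t => ?_⟩
    refine (Complex.norm_exp_le_exp_norm _).trans (Real.exp_le_exp.2 ?_)
    rw [PA_eq]
    refine (norm_sum_le _ _).trans (Finset.sum_le_sum fun p hp => ?_)
    have hpp := Nat.prime_of_mem_primesBelow hp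
    have hp1 : (1 : ℝ) ≤ p := by exact_mod_cast hpp.one_le
    refine (norm_add_le _ _).trans (add_le_add ?_ ?_)
    · rw [Complex.norm_natCast_cpow_of_pos hpp.pos]
      exact Real.rpow_le_one_of_one_le_of_nonpos hp1 (by simp)
    · rw [norm_div, Complex.norm_natCast_cpow_of_pos hpp.pos]
      have h1 : (p : ℝ) ^ (-(1 + 2 * ((t + γ : ℝ) : ℂ) * I)).re ≤ 1 :=
        Real.rpow_le_one_of_one_le_of_nonpos hp1 (by simp)
      have h2 : ‖(2 : ℂ)‖ = 2 := by simp
      rw [h2]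
      linarith
  obtain ⟨B, hB0, hB⟩ := hBd
  -- with an error
  have key : ∀ ε : ℝ, 0 < ε → ∑ n ∈ F, ‖cv (ua α) (cv (ua β) c) n‖ ^ 2 / n ≤
      4 * K ^ 4 * S + 8 * (ε * (2 * K * B + ε)) ^ 2 * N2 M c := by
    intro ε hε
    obtain ⟨Y₀, hY₀⟩ := approx (P + 1) ε hε
    set Y : ℕ := max (max Y₀ (F.sup id)) 1 with hY
    have hYY : Y₀ ≤ Y := (le_max_left _ _).trans (le_max_left _ _)
    have hY1 : 1 ≤ Y := le_max_right _ _
    have hFY : ∀ n ∈ F, n ≤ Y := fun n hn =>
      ((Finset.le_sup (f := id) hn).trans (le_max_right _ _)).trans (le_max_left _ _)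
    set uc := cv (uY (P + 1) Y α) (cv (uY (P + 1) Y β) c) with huc
    have huceq : ∀ n ∈ F, uc n = cv (ua α) (cv (ua β) c) n := by
      intro n hn
      have hns := hF n hn
      have hnY := hFY n hn
      rw [huc, cv_uY (P + 1) Y α _ hns hnY, cv_left_comm, cv_uY (P + 1) Y β _ hns hnY, cv_left_comm]
    have h1 : ∑ n ∈ F, ‖cv (ua α) (cv (ua β) c) n‖ ^ 2 / n ≤ N2 (Y * (Y * M)) uc := by
      unfold N2
      rw [Finset.sum_congr rfl fun n hn => by rw [← huceq n hn]]
      refine Finset.sum_le_sum_of_subset_of_nonneg (fun n hn => ?_) fun n _ _ => by positivity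
      rw [Finset.mem_Icc]
      refine ⟨Nat.pos_of_ne_zero (Nat.ne_zero_of_mem_smoothNumbers (hF n hn)), ?_⟩
      exact (hFY n hn).trans (Nat.le_mul_of_pos_right _ (Nat.mul_pos (by omega) hM0))
    have huY : ∀ γ n, Y < n → uY (P + 1) Y γ n = 0 := by
      intro γ n hn
      unfold uY
      rw [if_neg (fun h => by omega)]
    have hcM : ∀ n, M < n → c n = 0 := by
      intro n hn
      by_contra h
      have := hc n h
      omega
    have hprod1 : ∀ t, dp (Y * M) (cv (uY (P + 1) Y β) c) t = dp Y (uY (P + 1) Y β) t * dp M c t :=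
      fun t => (hd.1 Y M _ c t (huY β) hcM).symm
    have hinner : ∀ n, Y * M < n → cv (uY (P + 1) Y β) c n = 0 := by
      intro n hn
      by_contra h
      obtain ⟨k, l, hkl, _, hk, hl⟩ := cv_supp h
      have h2 : k ≤ Y := by
        by_contra h3
        exact hk (huY β k (not_le.1 h3))
      have h3 := (hc l hl).2
      have := Nat.mul_le_mul h2 h3
      omega
    have hprod : ∀ t, dp (Y * (Y * M)) uc t = dp Y (uY (P + 1) Y α) t * (dp Y (uY (P + 1) Y β) t * dp M c t) := by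
      intro t
      rw [huc, ← hprod1]
      exact (hd.1 Y (Y * M) _ _ t (huY α) hinner).symm
    have hone : ∀ γ t, ‖dp Y (uY (P + 1) Y γ) t‖ ≤ K * ‖cexp (PA P (ua γ) (ua (2 * γ)) t)‖ + ε := by
      intro γ t
      have h2 := hY₀ Y hYY (t + γ)
      have h3 := hK (P + 1) (t + γ)
      rw [← dp_uY] at h2
      rw [← PA_eq] at h3
      have h5 := norm_sub_norm_le (dp Y (uY (P + 1) Y γ) t)
        (∏ p ∈ (P + 1).primesBelow, (1 - (p : ℂ) ^ (-(1 / 2 + ((t + γ : ℝ) : ℂ) * I)))⁻¹)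
      linarith
    -- pointwise
    have hpt : ∀ t, ‖dp (Y * (Y * M)) uc t‖ ^ 2 ≤
        2 * K ^ 4 * (‖cexp (PA P (ua α) (ua (2 * α)) t)‖ ^ 2 * ‖cexp (PA P (ua β) (ua (2 * β)) t)‖ ^ 2 * ‖dp M c t‖ ^ 2) +
          2 * (ε * (2 * K * B + ε)) ^ 2 * ‖dp M c t‖ ^ 2 := by
      intro t
      rw [hprod, norm_mul, norm_mul]
      obtain ⟨x, hx⟩ : ∃ x : ℝ, x = ‖cexp (PA P (ua α) (ua (2 * α)) t)‖ := ⟨_, rfl⟩
      obtain ⟨y, hy⟩ : ∃ y : ℝ, y = ‖cexp (PA P (ua β) (ua (2 * β)) t)‖ := ⟨_, rfl⟩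
      have hx0 : 0 ≤ x := by rw [hx]; exact norm_nonneg _
      have hy0 : 0 ≤ y := by rw [hy]; exact norm_nonneg _
      have hxB : x ≤ B := by rw [hx]; exact hB _ _
      have hyB : y ≤ B := by rw [hy]; exact hB _ _
      have ha := hone α t
      have hb := hone β t
      rw [← hx] at ha ⊢
      rw [← hy] at hb ⊢
      have hab : ‖dp Y (uY (P + 1) Y α) t‖ * ‖dp Y (uY (P + 1) Y β) t‖ ≤ K ^ 2 * (x * y) + ε * (2 * K * B + ε) := by
        calc _ ≤ (K * x + ε) * (K * y + ε) := mul_le_mul ha hb (norm_nonneg _) (by positivity)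
          _ = K ^ 2 * (x * y) + ε * (K * x + K * y + ε) := by ring
          _ ≤ _ := by
              gcongr
              have h1 : K * x ≤ K * B := mul_le_mul_of_nonneg_left hxB (by linarith)
              have h2 : K * y ≤ K * B := mul_le_mul_of_nonneg_left hyB (by linarith)
              linarith
      have h6 : (‖dp Y (uY (P + 1) Y α) t‖ * ‖dp Y (uY (P + 1) Y β) t‖) ^ 2 ≤
          2 * (K ^ 2 * (x * y)) ^ 2 + 2 * (ε * (2 * K * B + ε)) ^ 2 := by
        have h7 := pow_le_pow_left₀ (by positivity) hab 2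
        nlinarith [sq_nonneg (K ^ 2 * (x * y) - ε * (2 * K * B + ε))]
      calc (‖dp Y (uY (P + 1) Y α) t‖ * (‖dp Y (uY (P + 1) Y β) t‖ * ‖dp M c t‖)) ^ 2 =
          (‖dp Y (uY (P + 1) Y α) t‖ * ‖dp Y (uY (P + 1) Y β) t‖) ^ 2 * ‖dp M c t‖ ^ 2 := by ring
        _ ≤ (2 * (K ^ 2 * (x * y)) ^ 2 + 2 * (ε * (2 * K * B + ε)) ^ 2) * ‖dp M c t‖ ^ 2 :=
            mul_le_mul_of_nonneg_right h6 (by positivity)
        _ = _ := by ring
    -- at a large point
    have hdc : ∀ (N : ℕ) (b : ℕ → ℂ), Continuous (dp N b) := fun N b => (hd.2.2 N b 0).2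
    have c1 : Continuous fun t => ‖dp (Y * (Y * M)) uc t‖ ^ 2 := ((hdc _ _).norm.pow 2)
    have c2 : Continuous fun t => ‖cexp (PA P (ua α) (ua (2 * α)) t)‖ ^ 2 *
        ‖cexp (PA P (ua β) (ua (2 * β)) t)‖ ^ 2 * ‖dp M c t‖ ^ 2 :=
      (((Complex.continuous_exp.comp (hPAc α)).norm.pow 2).mul
        ((Complex.continuous_exp.comp (hPAc β)).norm.pow 2)).mul ((hdc _ _).norm.pow 2)
    have c3 : Continuous fun t => ‖dp M c t‖ ^ 2 := ((hdc _ _).norm.pow 2)
    have hMB : MB (fun t => ‖dp (Y * (Y * M)) uc t‖ ^ 2) (2 * K ^ 4 * S + 2 * (ε * (2 * K * B + ε)) ^ 2 * (2 * N2 M c)) :=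
      Pool.Agent.Q176.UM.MB.mono c1 ((continuous_const.mul c2).add (continuous_const.mul c3)) hpt
        (Pool.Agent.Q176.UM.MB.add (continuous_const.mul c2) (continuous_const.mul c3)
          (Pool.Agent.Q176.UM.MB.cmul (by positivity) hS)
          (Pool.Agent.Q176.UM.MB.cmul (by positivity) (Pool.Agent.Q176.UM.MB_dp hm M c)))
    have h9 := Pool.Agent.Q176.UM.N2_le hm hMB
    refine h1.trans (h9.trans (le_of_eq ?_))
    ring
  -- let the error tend to zero
  have hlim : Tendsto (fun ε : ℝ => 4 * K ^ 4 * S + 8 * (ε * (2 * K * B + ε)) ^ 2 * N2 M c) (𝓝[>] 0)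
      (𝓝 (4 * K ^ 4 * S + 8 * ((0 : ℝ) * (2 * K * B + 0)) ^ 2 * N2 M c)) := by
    refine Tendsto.mono_left ?_ nhdsWithin_le_nhds
    exact Continuous.tendsto (by fun_prop) 0
  have := ge_of_tendsto hlim (by
    filter_upwards [self_mem_nhdsWithin] with ε hε
    exact key ε hε)
  simpa using this

end

end Pool.Agent.H469.F4
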