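import Pool.Agent.H469.F4.M15
import Pool.Graph.R_seed8.Helper256.KM.Mertens

set_option autoImplicit false

/-!
# Short Euler products as Dirichlet polynomials
-/

namespace Pool.Agent.H469.F4

open Filter Topology MeasureTheory Complex Pool.Agent.Q97.UM Pool.Agent.Q14.UM

noncomputable section

theorem qb_shift (D : ℝ) (a a2 : ℕ → ℂ) (l j : ℕ) : qb D a a2 (l + j) = qb (D * Real.exp (-(l : ℝ))) a a2 j := by
  funext n
  unfold qb
  rw [PB_shift]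

theorem R9_shift (κ : ℝ) (l j : ℕ) : R9 κ (l + j) = R9 (κ * Real.exp (9 / 10 * (l : ℝ))) j := by
  unfold R9
  congr 1
  rw [mul_assoc, ← Real.exp_add]
  congr 2
  push_cast
  ring

/-- the blocks from `l` on -/
theorem ebk_shift (D κ : ℝ) (a a2 : ℕ → ℂ) (l r : ℕ) :
    ebk D κ a a2 l r = ebk (D * Real.exp (-(l : ℝ))) (κ * Real.exp (9 / 10 * (l : ℝ))) a a2 0 r := by
  induction r with
  | zero => rfl
  | succ r ih =>
    have h1 : ebk D κ a a2 l (r + 1) = cv (te (qb D a a2 (l + r)) (R9 κ (l + r))) (ebk D κ a a2 l r) := rfl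
    have h2 : ebk (D * Real.exp (-(l : ℝ))) (κ * Real.exp (9 / 10 * (l : ℝ))) a a2 0 (r + 1) =
        cv (te (qb (D * Real.exp (-(l : ℝ))) a a2 (0 + r)) (R9 (κ * Real.exp (9 / 10 * (l : ℝ))) (0 + r)))
          (ebk (D * Real.exp (-(l : ℝ))) (κ * Real.exp (9 / 10 * (l : ℝ))) a a2 0 r) := rfl
    rw [h1, h2, ih, qb_shift, R9_shift, zero_add]

theorem R9_ge {κ : ℝ} (hκ : 0 ≤ κ) (j : ℕ) : κ ≤ (R9 κ j : ℝ) := by
  unfold R9
  refine le_trans ?_ (Nat.le_ceil _)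
  calc κ = κ * 1 := (mul_one _).symm
    _ ≤ _ := mul_le_mul_of_nonneg_left (Real.one_le_exp (by positivity)) hκ

/-- `dp` of `ebk` -/
theorem dp_ebk {D κ : ℝ} (hD : 1 ≤ D) (hκ : 1 ≤ κ) (a a2 : ℕ → ℂ) (t : ℝ) :
    dp (M9 D κ) (ebk D κ a a2 0 (JB D)) t = ∏ j ∈ Finset.range (JB D), TEx (R9 κ j) (zf D a a2 j t) := by
  have h := (b_COF κ D hκ hD a a2 (fun _ => 1) (fun _ => 1) 0 0).2.1 t
  rw [Nat.sub_zero] at h
  rw [h]
  unfold Ef
  rw [← Finset.range_eq_Ico]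

theorem ebk_supp {D κ : ℝ} (hD : 1 ≤ D) (hκ : 1 ≤ κ) (a a2 : ℕ → ℂ) :
    ∀ n, ebk D κ a a2 0 (JB D) n ≠ 0 → 1 ≤ n ∧ n ≤ M9 D κ := by
  have h := (b_COF κ D hκ hD a a2 (fun _ => 1) (fun _ => 1) 0 0).1
  rwa [Nat.sub_zero] at h

theorem sum_zf {D : ℝ} (hD : 1 ≤ D) (a a2 : ℕ → ℂ) (t : ℝ) :
    ∑ j ∈ Finset.range (JB D), zf D a a2 j t = PA ⌊Real.exp D⌋₊ a a2 t := sum_zj D a a2 hD t

/-- pointwise accuracy -/
theorem acc {D κ B : ℝ} (hD : 1 ≤ D) (hκ : 1 ≤ κ) (hB : 10 * B ≤ κ) (hJ : (JB D : ℝ) * Real.exp (-κ / 2) ≤ 1 / 4)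
    {a a2 : ℕ → ℂ} (hz : ∀ j t, ‖zf D a a2 j t‖ ≤ B) (t : ℝ) :
    1 / 2 * ‖cexp (PA ⌊Real.exp D⌋₊ a a2 t)‖ ≤ ‖dp (M9 D κ) (ebk D κ a a2 0 (JB D)) t‖ ∧
    ‖dp (M9 D κ) (ebk D κ a a2 0 (JB D)) t‖ ≤ 2 * ‖cexp (PA ⌊Real.exp D⌋₊ a a2 t)‖ := by
  rw [dp_ebk hD hκ, ← sum_zf hD]
  have hR : ∀ j : ℕ, κ ≤ (R9 κ j : ℝ) := R9_ge (by linarith)
  refine prod_TEx (R := fun j => R9 κ j) (z := fun j => zf D a a2 j t) (fun j _ => ?_) (fun j _ => ?_) (fun j _ => ?_)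
  · have h1 : (1 : ℝ) ≤ (R9 κ j : ℝ) := hκ.trans (hR j)
    exact_mod_cast h1
  · have := hz j t
    have := hR j
    show ‖zf D a a2 j t‖ ≤ (R9 κ j : ℝ) / 10
    linarith
  · refine le_trans ?_ hJ
    apply mul_le_mul_of_nonneg_left _ (Nat.cast_nonneg _)
    apply Real.exp_le_exp.2
    have := hR j
    show -(R9 κ j : ℝ) / 2 ≤ -κ / 2
    linarith

theorem inv_sqrt_sum (X : ℕ) : ∑ n ∈ Finset.Icc 1 X, (n : ℝ) ^ (-(1 / 2) : ℝ) ≤ 2 * Real.sqrt X := by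
  induction X with
  | zero => simp
  | succ X ih =>
    rw [Finset.sum_Icc_succ_top (by omega)]
    have h0 : (0 : ℝ) ≤ X := Nat.cast_nonneg X
    have h1 : ((X + 1 : ℕ) : ℝ) ^ (-(1 / 2) : ℝ) = 1 / Real.sqrt ((X + 1 : ℕ) : ℝ) := by
      rw [Real.rpow_neg (by positivity), Real.sqrt_eq_rpow, one_div ((((X + 1 : ℕ) : ℝ)) ^ (1 / 2 : ℝ))]
    rw [h1]
    push_cast
    obtain ⟨u, hu⟩ : ∃ u : ℝ, u = Real.sqrt X := ⟨_, rfl⟩
    obtain ⟨v, hv⟩ : ∃ v : ℝ, v = Real.sqrt ((X : ℝ) + 1) := ⟨_, rfl⟩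
    have hu0 : 0 ≤ u := by rw [hu]; positivity
    have hv0 : 0 < v := by rw [hv]; positivity
    have hu2 : u ^ 2 = X := by rw [hu]; exact Real.sq_sqrt h0
    have hv2 : v ^ 2 = X + 1 := by rw [hv]; exact Real.sq_sqrt (by positivity)
    rw [← hu] at ih
    rw [← hv]
    have h2 : 1 / v ≤ 2 * v - 2 * u := by
      rw [div_le_iff₀ hv0]
      nlinarith [sq_nonneg (u - v)]
    linarith

/-- the size of a block supported on the primes up to `X` -/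
theorem zf_le {D A : ℝ} (hD : 0 ≤ D) (hA : 0 ≤ A) {a a2 : ℕ → ℂ} (ha : ∀ n, ‖a n‖ ≤ A) (ha2 : ∀ n, ‖a2 n‖ ≤ A) {X : ℕ}
    (hX : ∀ n, X < n → a n = 0 ∧ a2 n = 0) (j : ℕ) (t : ℝ) : ‖zf D a a2 j t‖ ≤ 3 * A * Real.sqrt X := by
  have h0 : zf D a a2 j t = ∑ p ∈ PB D j, (a p * (p : ℂ) ^ (-(1 / 2 + t * I)) + a2 p / 2 * (p : ℂ) ^ (-(1 + 2 * t * I))) :=
    dp_qb D a a2 hD j t
  rw [h0]
  have h1 : ∀ p ∈ PB D j, ‖a p * (p : ℂ) ^ (-(1 / 2 + t * I)) + a2 p / 2 * (p : ℂ) ^ (-(1 + 2 * t * I))‖ ≤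
      if p ≤ X then 3 / 2 * A * (p : ℝ) ^ (-(1 / 2) : ℝ) else 0 := by
    intro p hp
    have hp1 := (mem_PB hp).1
    have hp0 : (0 : ℝ) < p := by exact_mod_cast hp1.pos
    split_ifs with h
    · have e1 : ‖(p : ℂ) ^ (-(1 / 2 + t * I))‖ = (p : ℝ) ^ (-(1 / 2) : ℝ) := by
        rw [Complex.norm_natCast_cpow_of_pos hp1.pos]
        congr 1
        simp
      have e2 : ‖(p : ℂ) ^ (-(1 + 2 * t * I))‖ = (p : ℝ) ^ (-(1 : ℝ)) := by
        rw [Complex.norm_natCast_cpow_of_pos hp1.pos]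
        congr 1
        simp
      have e3 : (p : ℝ) ^ (-(1 : ℝ)) ≤ (p : ℝ) ^ (-(1 / 2) : ℝ) :=
        Real.rpow_le_rpow_of_exponent_le (by exact_mod_cast hp1.one_lt.le) (by norm_num)
      have h3 : 0 ≤ (p : ℝ) ^ (-(1 / 2) : ℝ) := by positivity
      have h4 : ‖a2 p / 2‖ ≤ A / 2 := by
        rw [norm_div, Complex.norm_ofNat]
        have := ha2 p
        linarith
      calc _ ≤ ‖a p * (p : ℂ) ^ (-(1 / 2 + t * I))‖ + ‖a2 p / 2 * (p : ℂ) ^ (-(1 + 2 * t * I))‖ := norm_add_le _ _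
        _ ≤ A * (p : ℝ) ^ (-(1 / 2) : ℝ) + A / 2 * (p : ℝ) ^ (-(1 / 2) : ℝ) := by
            rw [norm_mul, norm_mul, e1, e2]
            refine add_le_add (mul_le_mul_of_nonneg_right (ha p) h3) ?_
            exact mul_le_mul h4 e3 (by positivity) (by positivity)
        _ = _ := by ring
    · rw [(hX p (by omega)).1, (hX p (by omega)).2]
      simp
  refine (norm_sum_le _ _).trans ((Finset.sum_le_sum h1).trans ?_)
  rw [← Finset.sum_filter]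
  have h2 : (PB D j).filter (fun p => p ≤ X) ⊆ Finset.Icc 1 X := by
    intro p hp
    rw [Finset.mem_filter] at hp
    exact Finset.mem_Icc.2 ⟨(mem_PB hp.1).1.pos, hp.2⟩
  refine (Finset.sum_le_sum_of_subset_of_nonneg h2 fun _ _ _ => by positivity).trans ?_
  rw [← Finset.mul_sum]
  calc 3 / 2 * A * ∑ n ∈ Finset.Icc 1 X, (n : ℝ) ^ (-(1 / 2) : ℝ) ≤ 3 / 2 * A * (2 * Real.sqrt X) :=
        mul_le_mul_of_nonneg_left (inv_sqrt_sum X) (by positivity)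
    _ = _ := by ring

/-- the difference of two products -/
theorem prod_diff {r : ℕ} {x y : ℕ → ℂ} {M δ : ℕ → ℝ} (hx : ∀ j, j < r → ‖x j‖ ≤ M j) (hy : ∀ j, j < r → ‖y j‖ ≤ M j)
    (hM : ∀ j, j < r → 1 ≤ M j) (hd : ∀ j, j < r → ‖x j - y j‖ ≤ δ j) :
    ‖∏ j ∈ Finset.range r, x j - ∏ j ∈ Finset.range r, y j‖ ≤ (∑ j ∈ Finset.range r, δ j) * ∏ j ∈ Finset.range r, M j := by
  induction r with
  | zero => simp
  | succ r ih =>
    have ih' := ih (fun j hj => hx j (by omega)) (fun j hj => hy j (by omega)) (fun j hj => hM j (by omega)) (fun j hj => hd j (by omega))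
    rw [Finset.prod_range_succ, Finset.prod_range_succ, Finset.prod_range_succ, Finset.sum_range_succ]
    have hP1 : 1 ≤ ∏ j ∈ Finset.range r, M j := Finset.one_le_prod fun j hj => hM j (by have := Finset.mem_range.1 hj; omega)
    have hPy : ‖∏ j ∈ Finset.range r, y j‖ ≤ ∏ j ∈ Finset.range r, M j := by
      rw [norm_prod]
      exact Finset.prod_le_prod (fun _ _ => norm_nonneg _) fun j hj => hy j (by have := Finset.mem_range.1 hj; omega)
    have hMr := hM r (by omega)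
    have hδ : 0 ≤ δ r := (norm_nonneg _).trans (hd r (by omega))
    have e : (∏ j ∈ Finset.range r, x j) * x r - (∏ j ∈ Finset.range r, y j) * y r =
        (∏ j ∈ Finset.range r, x j - ∏ j ∈ Finset.range r, y j) * x r + (∏ j ∈ Finset.range r, y j) * (x r - y r) := by ring
    rw [e]
    refine (norm_add_le _ _).trans ?_
    rw [norm_mul, norm_mul]
    have h1 : ‖∏ j ∈ Finset.range r, x j - ∏ j ∈ Finset.range r, y j‖ * ‖x r‖ ≤
        (∑ j ∈ Finset.range r, δ j) * (∏ j ∈ Finset.range r, M j) * M r :=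
      mul_le_mul ih' (hx r (by omega)) (norm_nonneg _) ((norm_nonneg _).trans ih')
    have h2 : ‖∏ j ∈ Finset.range r, y j‖ * ‖x r - y r‖ ≤ (∏ j ∈ Finset.range r, M j) * δ r :=
      mul_le_mul hPy (hd r (by omega)) (norm_nonneg _) (by linarith)
    have h3 : (∏ j ∈ Finset.range r, M j) * δ r ≤ δ r * ((∏ j ∈ Finset.range r, M j) * M r) := by
      calc (∏ j ∈ Finset.range r, M j) * δ r = δ r * ((∏ j ∈ Finset.range r, M j) * 1) := by ring
        _ ≤ _ := mul_le_mul_of_nonneg_left (mul_le_mul_of_nonneg_left hMr (by linarith)) hδ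
    linarith

/-- the truncated exponential against the exponential, without any restriction -/
theorem TEx_all (R : ℕ) (hR : 1 ≤ R) (z : ℂ) : ‖TEx R z - cexp z‖ ≤ 2 * Real.exp (-(R : ℝ) / 2) * Real.exp (11 * ‖z‖) := by
  obtain ⟨h1, h2⟩ := b_TEX R z hR
  have h3 : ‖cexp z‖ ≤ Real.exp ‖z‖ := by
    rw [Complex.norm_exp]
    exact Real.exp_le_exp.2 (Complex.re_le_norm z)
  have hz := norm_nonneg z
  rcases le_or_gt ‖z‖ ((R : ℝ) / 10) with h | h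
  · refine (h2 h).trans ?_
    calc Real.exp (-(R : ℝ) / 2) * ‖cexp z‖ ≤ Real.exp (-(R : ℝ) / 2) * Real.exp (11 * ‖z‖) := by
          apply mul_le_mul_of_nonneg_left _ (Real.exp_pos _).le
          exact h3.trans (Real.exp_le_exp.2 (by linarith))
      _ ≤ _ := by
          have : 0 ≤ Real.exp (-(R : ℝ) / 2) * Real.exp (11 * ‖z‖) := by positivity
          linarith
  · calc ‖TEx R z - cexp z‖ ≤ ‖TEx R z‖ + ‖cexp z‖ := norm_sub_le _ _
      _ ≤ 2 * Real.exp ‖z‖ := by linarith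
      _ ≤ 2 * (Real.exp (-(R : ℝ) / 2) * Real.exp (11 * ‖z‖)) := by
          apply mul_le_mul_of_nonneg_left _ (by norm_num)
          rw [← Real.exp_add]
          apply Real.exp_le_exp.2
          linarith
      _ = _ := by ring

/-- the product of the truncated exponentials against the exponential of the sum, without any restriction -/
theorem prod_TEx_all {r : ℕ} {R : ℕ → ℕ} {z : ℕ → ℂ} {κ : ℝ} (h1 : ∀ j, j < r → 1 ≤ R j) (hκ : ∀ j, j < r → κ ≤ (R j : ℝ)) :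
    ‖∏ j ∈ Finset.range r, TEx (R j) (z j) - cexp (∑ j ∈ Finset.range r, z j)‖ ≤
      2 * r * Real.exp (-κ / 2) * Real.exp (12 * ∑ j ∈ Finset.range r, ‖z j‖) := by
  rw [Complex.exp_sum]
  have h2 := prod_diff (r := r) (x := fun j => TEx (R j) (z j)) (y := fun j => cexp (z j)) (M := fun j => Real.exp ‖z j‖)
    (δ := fun j => 2 * Real.exp (-κ / 2) * Real.exp (11 * ∑ i ∈ Finset.range r, ‖z i‖))
    (fun j hj => (b_TEX (R j) (z j) (h1 j hj)).1)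
    (fun j _ => by
      show ‖cexp (z j)‖ ≤ Real.exp ‖z j‖
      rw [Complex.norm_exp]
      exact Real.exp_le_exp.2 (Complex.re_le_norm _))
    (fun j _ => Real.one_le_exp (norm_nonneg _))
    (fun j hj => by
      refine (TEx_all (R j) (h1 j hj) (z j)).trans ?_
      have h3 : ‖z j‖ ≤ ∑ i ∈ Finset.range r, ‖z i‖ :=
        Finset.single_le_sum (f := fun i => ‖z i‖) (fun i _ => norm_nonneg _) (Finset.mem_range.2 hj)
      have h4 := hκ j hj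
      have h5 : Real.exp (-(R j : ℝ) / 2) ≤ Real.exp (-κ / 2) := Real.exp_le_exp.2 (by linarith)
      have h6 : Real.exp (11 * ‖z j‖) ≤ Real.exp (11 * ∑ i ∈ Finset.range r, ‖z i‖) := Real.exp_le_exp.2 (by linarith)
      show 2 * Real.exp (-(R j : ℝ) / 2) * Real.exp (11 * ‖z j‖) ≤ 2 * Real.exp (-κ / 2) * Real.exp (11 * ∑ i ∈ Finset.range r, ‖z i‖)
      gcongr)
  refine h2.trans (le_of_eq ?_)
  rw [Finset.sum_const, Finset.card_range, nsmul_eq_mul, ← Real.exp_sum]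
  have : 12 * ∑ j ∈ Finset.range r, ‖z j‖ = 11 * ∑ j ∈ Finset.range r, ‖z j‖ + ∑ j ∈ Finset.range r, ‖z j‖ := by ring
  rw [this, Real.exp_add]
  ring

end

end Pool.Agent.H469.F4
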