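import Pool.Agent.H469.F4.SP1

set_option autoImplicit false

/-!
# The mean square of a product of a truncated exponential and a short Euler product
-/

namespace Pool.Agent.H469.F4

open Filter Topology MeasureTheory Complex Pool.Agent.Q97.UM Pool.Agent.Q14.UM

noncomputable section

/-- constant coefficients -/
def aS (s : ℝ) : ℕ → ℂ := fun _ => (s : ℂ)

/-- constant coefficients on the integers up to `X` -/
def aZ (z : ℝ) (X : ℕ) : ℕ → ℂ := fun n => if n ≤ X then (z : ℂ) else 0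

/-- their sum -/
def aT (s z : ℝ) (X : ℕ) : ℕ → ℂ := fun n => aS s n + aZ z X n

theorem aS_norm {s A : ℝ} (h : |s| ≤ A) (n : ℕ) : ‖aS s n‖ ≤ A := by
  unfold aS
  rwa [Complex.norm_real]

theorem aZ_norm {z A : ℝ} (h : |z| ≤ A) (X n : ℕ) : ‖aZ z X n‖ ≤ A := by
  unfold aZ
  split_ifs
  · rwa [Complex.norm_real]
  · rw [norm_zero]
    exact (abs_nonneg _).trans h

theorem aT_norm {s z A : ℝ} (hs : |s| ≤ A) (hz : |z| ≤ A) (X n : ℕ) : ‖aT s z X n‖ ≤ 2 * A := by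
  unfold aT
  have := norm_add_le (aS s n) (aZ z X n)
  linarith [aS_norm hs n, aZ_norm hz X n]

theorem PA_add (Y : ℕ) (a b : ℕ → ℂ) (t : ℝ) : PA Y (fun n => a n + b n) (fun n => a n + b n) t = PA Y a a t + PA Y b b t := by
  unfold PA
  rw [← Finset.sum_add_distrib]
  exact Finset.sum_congr rfl fun p _ => by ring

theorem N2_d1 : N2 1 d1 = 1 := by
  unfold N2 d1
  simp

theorem d1_supp : ∀ n, d1 n ≠ 0 → 1 ≤ n ∧ n ≤ 1 := by
  intro n hn
  unfold d1 at hn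
  by_cases h : n = 1
  · omega
  · simp [h] at hn

/-- **the mean square of the product** -/
theorem core_ratio {A : ℝ} (hA : 1 ≤ A) : ∃ c C C₁ : ℝ, 0 < c ∧ 0 < C ∧ 0 < C₁ ∧ ∀ (D κ : ℝ) (X : ℕ), 1 ≤ D → 1 ≤ κ →
    (2 * (JB D : ℝ) * Real.exp (-κ / 2)) ^ 2 * Real.exp (C₁ * Real.sqrt D) ≤ c →
    ∀ s z : ℝ, |s| ≤ A → |z| ≤ A → ∀ (K : ℝ) (N : ℕ) (b : ℕ → ℂ), 1 ≤ K → (∀ n, b n ≠ 0 → 1 ≤ n ∧ n ≤ N) →
      (∀ t, ‖cexp (PA ⌊Real.exp D⌋₊ (aZ z X) (aZ z X) t)‖ ≤ K * ‖dp N b t‖ ∧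
        ‖dp N b t‖ ≤ K * ‖cexp (PA ⌊Real.exp D⌋₊ (aZ z X) (aZ z X) t)‖) →
      c * Real.exp (∑ p ∈ (Finset.Icc 1 ⌊Real.exp D⌋₊).filter Nat.Prime, ‖aT s z X p‖ ^ 2 / p) ≤
        K ^ 2 * N2 (M9 D κ * N) (cv (ebk D κ (aS s) (aS s) 0 (JB D)) b) ∧
      N2 (M9 D κ * N) (cv (ebk D κ (aS s) (aS s) 0 (JB D)) b) ≤
        C * K ^ 2 * Real.exp (∑ p ∈ (Finset.Icc 1 ⌊Real.exp D⌋₊).filter Nat.Prime, ‖aT s z X p‖ ^ 2 / p) := by
  obtain ⟨κ₀, hκ₀, cE, CE, hcE, hCE, hE⟩ := b_EN2 (2 * A) (by linarith)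
  obtain ⟨C₂, hC₂, hXM⟩ := b_XM 1 24 A 2 le_rfl (by norm_num) hA
  refine ⟨cE / 64, 32 * CE + cE, 2 * C₂, by positivity, by positivity, by positivity, ?_⟩
  intro D κ X hD hκ hsm s z hs hz K N b hK hb hbK
  obtain ⟨Y, hY⟩ : ∃ Y : ℕ, Y = ⌊Real.exp D⌋₊ := ⟨_, rfl⟩
  rw [← hY] at hbK ⊢
  obtain ⟨P, hP⟩ : ∃ P : ℝ, P = Real.exp (∑ p ∈ (Finset.Icc 1 Y).filter Nat.Prime, ‖aT s z X p‖ ^ 2 / p) := ⟨_, rfl⟩
  rw [← hP]
  have hP1 : 1 ≤ P := by
    rw [hP]
    exact Real.one_le_exp (Finset.sum_nonneg fun _ _ => by positivity)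
  obtain ⟨r, hr⟩ : ∃ r : ℕ, r = JB D := ⟨_, rfl⟩
  have hr1 : 1 ≤ r := by
    rw [hr]
    unfold JB
    rw [Nat.one_le_ceil_iff]
    exact Real.log_pos (by linarith)
  have hr2 : Real.exp (((r - 1 : ℕ) : ℝ) / 2) ≤ 2 * Real.sqrt D := by
    have h1 : ((r - 1 : ℕ) : ℝ) ≤ Real.log (2 * D) := by
      rw [Nat.cast_sub hr1, hr]
      unfold JB
      have := Nat.ceil_lt_add_one (Real.log_nonneg (show (1 : ℝ) ≤ 2 * D by linarith))
      push_cast
      linarith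
    calc Real.exp (((r - 1 : ℕ) : ℝ) / 2) ≤ Real.exp (Real.log (2 * D) / 2) := Real.exp_le_exp.2 (by linarith)
      _ = Real.sqrt (2 * D) := by
          rw [Real.sqrt_eq_rpow, Real.rpow_def_of_pos (by linarith)]
          congr 1
          ring
      _ ≤ Real.sqrt (4 * D) := Real.sqrt_le_sqrt (by linarith)
      _ = 2 * Real.sqrt D := by
          rw [Real.sqrt_mul (by norm_num), show (4 : ℝ) = 2 ^ 2 by norm_num, Real.sqrt_sq (by norm_num)]
  rw [← hr] at hsm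
  -- the comparison polynomial
  have haT := aT_norm (A := A) hs hz X
  have hD0 : (0 : ℝ) ≤ D := by linarith
  have haTX : ∀ n, Y < n → (fun n => if n ≤ Y then aT s z X n else 0) n = 0 ∧ (fun n => if n ≤ Y then aT s z X n else 0) n = 0 := by
    intro n hn
    simp only [if_neg (show ¬ n ≤ Y by omega), and_self]
  have hqb : ∀ j, qb D (aT s z X) (aT s z X) j = qb D (fun n => if n ≤ Y then aT s z X n else 0) (fun n => if n ≤ Y then aT s z X n else 0) j := by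
    intro j
    have hin : ∀ n, n ∈ PB D j → n ≤ Y := by
      intro n hn
      have h2 := (mem_PB hn).2.2
      rw [hY]
      apply Nat.le_floor
      refine h2.trans ?_
      have := XB_anti D hD0 (Nat.zero_le j)
      refine this.trans (le_of_eq ?_)
      unfold XB
      simp
    funext n
    unfold qb
    congr 1
    · by_cases h1 : n ∈ PB D j
      · rw [if_pos h1, if_pos h1]
        show aT s z X n = if n ≤ Y then aT s z X n else 0
        rw [if_pos (hin n h1)]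
      · rw [if_neg h1, if_neg h1]
    · by_cases h1 : Nat.sqrt n ∈ PB D j ∧ n = Nat.sqrt n ^ 2
      · rw [if_pos h1, if_pos h1]
        show aT s z X (Nat.sqrt n) / 2 = (if Nat.sqrt n ≤ Y then aT s z X (Nat.sqrt n) else 0) / 2
        rw [if_pos (hin _ h1.1)]
      · rw [if_neg h1, if_neg h1]
  have hzf : ∀ j t, ‖zf D (aT s z X) (aT s z X) j t‖ ≤ 3 * (2 * A) * Real.sqrt Y := by
    intro j t
    have h1 : zf D (aT s z X) (aT s z X) j t = zf D (fun n => if n ≤ Y then aT s z X n else 0) (fun n => if n ≤ Y then aT s z X n else 0) j t := by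
      unfold zf
      rw [hqb]
    rw [h1]
    have h2 : ∀ n, ‖(fun n => if n ≤ Y then aT s z X n else 0) n‖ ≤ 2 * A := by
      intro n
      simp only
      split_ifs
      · exact haT n
      · rw [norm_zero]; linarith
    exact zf_le hD0 (by linarith) h2 h2 haTX j t
  obtain ⟨B, hB⟩ : ∃ B : ℝ, B = 3 * (2 * A) * Real.sqrt Y := ⟨_, rfl⟩
  rw [← hB] at hzf
  have hB0 : 0 ≤ B := by rw [hB]; positivity
  obtain ⟨κ₂, hκ₂, hκ₂0, hκ₂1, hκ₂J⟩ : ∃ κ₂ : ℝ, κ₀ ≤ κ₂ ∧ 10 * B ≤ κ₂ ∧ 1 ≤ κ₂ ∧ (JB D : ℝ) * Real.exp (-κ₂ / 2) ≤ 1 / 4 := by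
    have h1 : Tendsto (fun x : ℝ => (JB D : ℝ) * Real.exp (-x / 2)) atTop (𝓝 0) := by
      have h2 : Tendsto (fun x : ℝ => -x / 2) atTop atBot :=
        tendsto_neg_atTop_atBot.atBot_div_const (by norm_num)
      have h3 := (Real.tendsto_exp_atBot.comp h2).const_mul (JB D : ℝ)
      rwa [mul_zero] at h3
    have h4 := h1.eventually (gt_mem_nhds (show (0 : ℝ) < 1 / 4 by norm_num))
    obtain ⟨x, hx⟩ := (h4.and ((eventually_ge_atTop κ₀).and ((eventually_ge_atTop (10 * B)).and (eventually_ge_atTop 1)))).exists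
    exact ⟨x, hx.2.1, hx.2.2.1, hx.2.2.2, hx.1.le⟩
  have hacc := acc hD hκ₂1 hκ₂0 hκ₂J hzf
  rw [← hY] at hacc
  obtain ⟨hE1, hE2⟩ := hE κ₂ D (aT s z X) (aT s z X) hκ₂ hD haT haT
  rw [← hY, ← hP] at hE1 hE2
  obtain ⟨e', he'⟩ : ∃ e' : ℕ → ℂ, e' = ebk D κ₂ (aT s z X) (aT s z X) 0 (JB D) := ⟨_, rfl⟩
  obtain ⟨M', hM'⟩ : ∃ M' : ℕ, M' = M9 D κ₂ := ⟨_, rfl⟩
  have hes : ∀ n, e' n ≠ 0 → 1 ≤ n ∧ n ≤ M' := by
    rw [he', hM']
    exact ebk_supp hD hκ₂1 _ _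
  rw [← he', ← hM'] at hE1 hE2 hacc
  obtain ⟨g, hg⟩ : ∃ g : ℕ → ℂ, g = ebk D κ (aS s) (aS s) 0 (JB D) := ⟨_, rfl⟩
  obtain ⟨M, hM⟩ : ∃ M : ℕ, M = M9 D κ := ⟨_, rfl⟩
  have hgs : ∀ n, g n ≠ 0 → 1 ≤ n ∧ n ≤ M := by
    rw [hg, hM]
    exact ebk_supp hD hκ _ _
  rw [← hg, ← hM]
  -- the exponentials
  obtain ⟨E1, hE1d⟩ : ∃ E1 : ℝ → ℝ, ∀ t, E1 t = ‖cexp (PA Y (aS s) (aS s) t)‖ := ⟨_, fun _ => rfl⟩
  obtain ⟨G2, hG2d⟩ : ∃ G2 : ℝ → ℝ, ∀ t, G2 t = ‖cexp (PA Y (aZ z X) (aZ z X) t)‖ := ⟨_, fun _ => rfl⟩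
  have hE0 : ∀ t, ‖cexp (PA Y (aT s z X) (aT s z X) t)‖ = E1 t * G2 t := by
    intro t
    have : PA Y (aT s z X) (aT s z X) t = PA Y (aS s) (aS s) t + PA Y (aZ z X) (aZ z X) t := PA_add Y (aS s) (aZ z X) t
    rw [this, Complex.exp_add, norm_mul, hE1d, hG2d]
  obtain ⟨h1, hh1⟩ : ∃ h1 : ℝ → ℝ, ∀ t, h1 t = ∑ j ∈ Finset.range r, ‖zf D (aS s) (aS s) j t‖ := ⟨_, fun _ => rfl⟩
  obtain ⟨h2, hh2⟩ : ∃ h2 : ℝ → ℝ, ∀ t, h2 t = ∑ j ∈ Finset.range r, ‖zf D (aZ z X) (aZ z X) j t‖ := ⟨_, fun _ => rfl⟩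
  have hh10 : ∀ t, 0 ≤ h1 t := fun t => by rw [hh1]; positivity
  have hh20 : ∀ t, 0 ≤ h2 t := fun t => by rw [hh2]; positivity
  obtain ⟨Δ, hΔ⟩ : ∃ Δ : ℝ, Δ = 2 * r * Real.exp (-κ / 2) := ⟨_, rfl⟩
  have hΔ0 : 0 ≤ Δ := by rw [hΔ]; positivity
  have hdiff : ∀ t, |‖dp M g t‖ - E1 t| ≤ Δ * Real.exp (12 * h1 t) := by
    intro t
    have h3 := prod_TEx_all (r := r) (R := fun j => R9 κ j) (z := fun j => zf D (aS s) (aS s) j t) (κ := κ)
      (fun j _ => by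
        have := R9_ge (by linarith : 0 ≤ κ) j
        have h4 : (1 : ℝ) ≤ (R9 κ j : ℝ) := by linarith
        exact_mod_cast h4) (fun j _ => R9_ge (by linarith) j)
    have h4 : dp M g t = ∏ j ∈ Finset.range r, TEx (R9 κ j) (zf D (aS s) (aS s) j t) := by
      rw [hM, hg, hr]
      exact dp_ebk hD hκ _ _ t
    have h5 : ∑ j ∈ Finset.range r, zf D (aS s) (aS s) j t = PA Y (aS s) (aS s) t := by
      rw [hr, hY]
      exact sum_zf hD _ _ t
    rw [h4, hE1d, ← h5, hΔ, hh1]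
    exact (abs_norm_sub_norm_le _ _).trans h3
  have hG2e : ∀ t, G2 t ≤ Real.exp (h2 t) := by
    intro t
    have h5 : ∑ j ∈ Finset.range r, zf D (aZ z X) (aZ z X) j t = PA Y (aZ z X) (aZ z X) t := by
      rw [hr, hY]
      exact sum_zf hD _ _ t
    rw [hG2d, ← h5, Complex.norm_exp, hh2]
    apply Real.exp_le_exp.2
    exact (Complex.re_le_norm _).trans (norm_sum_le _ _)
  obtain ⟨W, hW⟩ : ∃ W : ℝ → ℝ, ∀ t, W t = Real.exp (24 * (h1 t + h2 t)) := ⟨_, fun _ => rfl⟩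
  have hcz : ∀ (a : ℕ → ℂ) (j : ℕ), Continuous fun t => ‖zf D a a j t‖ := fun a j => (Pool.Agent.Q86.UM.zf_cont _ _ _ _).norm
  have hWc : Continuous W := by
    have e1 : W = fun t => Real.exp (24 * ((∑ j ∈ Finset.range r, ‖zf D (aS s) (aS s) j t‖) + ∑ j ∈ Finset.range r, ‖zf D (aZ z X) (aZ z X) j t‖)) := by
      funext t
      rw [hW, hh1, hh2]
    rw [e1]
    exact Real.continuous_exp.comp (continuous_const.mul ((continuous_finsetSum _ fun j _ => hcz _ j).add (continuous_finsetSum _ fun j _ => hcz _ j)))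
  have hMB : MB W (Real.exp (2 * C₂ * Real.sqrt D)) := by
    have h3 := hXM D hD ![aS s, aZ z X] ![aS s, aZ z X] (by
        intro i n
        fin_cases i
        · exact aS_norm hs n
        · exact aZ_norm hz X n) (by
        intro i n
        fin_cases i
        · exact aS_norm hs n
        · exact aZ_norm hz X n) 1 d1 le_rfl (by simp; linarith) d1_supp (r - 1)
    rw [N2_d1, mul_one, Nat.sub_add_cancel hr1] at h3
    have h4 := Pool.Agent.Q176.UM.MB.congr (fun t => by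
      show ‖dp 1 d1 t‖ ^ 2 * Real.exp (24 * ∑ i : Fin 2, ∑ l ∈ Finset.range r, ‖zf D (![aS s, aZ z X] i) (![aS s, aZ z X] i) l t‖) = W t
      rw [dp_d1, one_pow, one_mul, Fin.sum_univ_two, hW, hh1, hh2]
      rfl) h3
    refine Pool.Agent.Q176.UM.MB.le (Real.exp_le_exp.2 ?_) h4
    calc C₂ * Real.exp (((r - 1 : ℕ) : ℝ) / 2) ≤ C₂ * (2 * Real.sqrt D) := mul_le_mul_of_nonneg_left hr2 (by linarith)
      _ = _ := by ring
  -- the product
  have hdpm : ∀ t, dp M g t * dp N b t = dp (M * N) (cv g b) t := fun t =>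
    Pool.Agent.Q84.UM.t_DPM.1 M N g b t (fun n hn => by
      by_contra hc
      have := (hgs n hc).2
      omega) (fun n hn => by
      by_contra hc
      have := (hb n hc).2
      omega)
  obtain ⟨c', hc'⟩ : ∃ c' : ℕ → ℂ, c' = cv g b := ⟨_, rfl⟩
  obtain ⟨L, hL⟩ : ∃ L : ℕ, L = M * N := ⟨_, rfl⟩
  rw [← hc', ← hL]
  rw [← hc', ← hL] at hdpm
  have hsq1 : ∀ t, ‖dp L c' t‖ ^ 2 ≤ 2 * K ^ 2 * (4 * ‖dp M' e' t‖ ^ 2 + Δ ^ 2 * W t) := by
    intro t
    obtain ⟨g1, g2⟩ := hbK t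
    rw [← hG2d] at g1 g2
    have a1 := hacc t
    rw [hE0] at a1
    have a2 := abs_le.1 (hdiff t)
    have a3 := hG2e t
    have hE10 : 0 ≤ E1 t := by rw [hE1d]; positivity
    have hG20 : 0 ≤ G2 t := by rw [hG2d]; positivity
    rw [← hdpm t, norm_mul]
    have b1 : ‖dp M g t‖ * ‖dp N b t‖ ≤ K * (E1 t * G2 t + Δ * Real.exp (12 * (h1 t + h2 t))) := by
      calc ‖dp M g t‖ * ‖dp N b t‖ ≤ (E1 t + Δ * Real.exp (12 * h1 t)) * (K * G2 t) :=
            mul_le_mul (by linarith) g2 (norm_nonneg _) (by positivity)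
        _ = K * (E1 t * G2 t + Δ * (Real.exp (12 * h1 t) * G2 t)) := by ring
        _ ≤ _ := by
            apply mul_le_mul_of_nonneg_left _ (by linarith)
            apply add_le_add le_rfl
            apply mul_le_mul_of_nonneg_left _ hΔ0
            calc Real.exp (12 * h1 t) * G2 t ≤ Real.exp (12 * h1 t) * Real.exp (12 * h2 t) := by
                  apply mul_le_mul_of_nonneg_left _ (Real.exp_pos _).le
                  exact a3.trans (Real.exp_le_exp.2 (by linarith [hh20 t]))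
              _ = _ := by rw [← Real.exp_add]; congr 1; ring
    have b2 : Real.exp (12 * (h1 t + h2 t)) ^ 2 = W t := by
      rw [hW, ← Real.exp_nat_mul]
      congr 1
      push_cast
      ring
    have b3 : E1 t * G2 t ≤ 2 * ‖dp M' e' t‖ := by linarith [a1.1]
    have b4 : 0 ≤ E1 t * G2 t := by positivity
    calc (‖dp M g t‖ * ‖dp N b t‖) ^ 2 ≤ (K * (E1 t * G2 t + Δ * Real.exp (12 * (h1 t + h2 t)))) ^ 2 :=
          pow_le_pow_left₀ (by positivity) b1 2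
      _ ≤ 2 * K ^ 2 * ((E1 t * G2 t) ^ 2 + Δ ^ 2 * Real.exp (12 * (h1 t + h2 t)) ^ 2) := by
          have := sq_nonneg (E1 t * G2 t - Δ * Real.exp (12 * (h1 t + h2 t)))
          have hK2 : 0 ≤ K ^ 2 := by positivity
          nlinarith
      _ ≤ 2 * K ^ 2 * ((2 * ‖dp M' e' t‖) ^ 2 + Δ ^ 2 * W t) := by
          rw [b2]
          gcongr
      _ = _ := by ring
  have hsq2 : ∀ t, ‖dp M' e' t‖ ^ 2 ≤ 8 * (K ^ 2 * ‖dp L c' t‖ ^ 2 + Δ ^ 2 * W t) := by
    intro t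
    obtain ⟨g1, g2⟩ := hbK t
    rw [← hG2d] at g1 g2
    have a1 := hacc t
    rw [hE0] at a1
    have a2 := abs_le.1 (hdiff t)
    have a3 := hG2e t
    have hE10 : 0 ≤ E1 t := by rw [hE1d]; positivity
    have hG20 : 0 ≤ G2 t := by rw [hG2d]; positivity
    have hn := hdpm t
    have hn' : ‖dp L c' t‖ = ‖dp M g t‖ * ‖dp N b t‖ := by rw [← hn, norm_mul]
    have b1 : E1 t * G2 t ≤ K * ‖dp L c' t‖ + Δ * Real.exp (12 * (h1 t + h2 t)) := by
      calc E1 t * G2 t ≤ (‖dp M g t‖ + Δ * Real.exp (12 * h1 t)) * G2 t := mul_le_mul_of_nonneg_right (by linarith) hG20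
        _ = ‖dp M g t‖ * G2 t + Δ * (Real.exp (12 * h1 t) * G2 t) := by ring
        _ ≤ ‖dp M g t‖ * (K * ‖dp N b t‖) + Δ * (Real.exp (12 * h1 t) * Real.exp (12 * h2 t)) := by
            refine add_le_add (mul_le_mul_of_nonneg_left g1 (norm_nonneg _)) ?_
            apply mul_le_mul_of_nonneg_left _ hΔ0
            apply mul_le_mul_of_nonneg_left _ (Real.exp_pos _).le
            exact a3.trans (Real.exp_le_exp.2 (by linarith [hh20 t]))
        _ = _ := by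
            rw [hn', ← Real.exp_add]
            have : 12 * h1 t + 12 * h2 t = 12 * (h1 t + h2 t) := by ring
            rw [this]
            ring
    have b2 : Real.exp (12 * (h1 t + h2 t)) ^ 2 = W t := by
      rw [hW, ← Real.exp_nat_mul]
      congr 1
      push_cast
      ring
    calc ‖dp M' e' t‖ ^ 2 ≤ (2 * (E1 t * G2 t)) ^ 2 := pow_le_pow_left₀ (norm_nonneg _) a1.2 2
      _ = 4 * (E1 t * G2 t) ^ 2 := by ring
      _ ≤ 4 * (K * ‖dp L c' t‖ + Δ * Real.exp (12 * (h1 t + h2 t))) ^ 2 := by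
          apply mul_le_mul_of_nonneg_left _ (by norm_num)
          exact pow_le_pow_left₀ (by positivity) b1 2
      _ ≤ 4 * (2 * (K ^ 2 * ‖dp L c' t‖ ^ 2 + Δ ^ 2 * Real.exp (12 * (h1 t + h2 t)) ^ 2)) := by
          apply mul_le_mul_of_nonneg_left _ (by norm_num)
          have := sq_nonneg (K * ‖dp L c' t‖ - Δ * Real.exp (12 * (h1 t + h2 t)))
          nlinarith
      _ = _ := by rw [b2]; ring
  -- mean values
  have hlen : ∀ n : ℕ, ∀ᶠ V : ℝ in atTop, (n : ℝ) ≤ V ^ (1 / 4 : ℝ) := fun n =>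
    (tendsto_rpow_atTop (by norm_num : (0 : ℝ) < 1 / 4)).eventually_ge_atTop _
  obtain ⟨V, hV⟩ := ((hlen L).and ((hlen M').and ((eventually_ge_atTop (16 : ℝ)).and hMB))).exists
  obtain ⟨hV1, hV2, hV16, hV3⟩ := hV
  have hV0 : 0 < V := by linarith
  obtain ⟨m1, m2⟩ := Pool.Agent.Q84.UM.t_MVL V hV16 L hV1 c'
  obtain ⟨m3, m4⟩ := Pool.Agent.Q84.UM.t_MVL V hV16 M' hV2 e'
  have hcL : Continuous fun t => ‖dp L c' t‖ ^ 2 := (dpc' L c').norm.pow 2
  have hcM : Continuous fun t => ‖dp M' e' t‖ ^ 2 := (dpc' M' e').norm.pow 2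
  have i1 : ∫ t in V..(2 * V), ‖dp L c' t‖ ^ 2 ≤ 2 * K ^ 2 * (4 * (∫ t in V..(2 * V), ‖dp M' e' t‖ ^ 2) + Δ ^ 2 * ∫ t in V..(2 * V), W t) := by
    have c1 : Continuous fun t => 4 * ‖dp M' e' t‖ ^ 2 := continuous_const.mul hcM
    have c2 : Continuous fun t => Δ ^ 2 * W t := continuous_const.mul hWc
    have c3 : Continuous fun t => 2 * K ^ 2 * (4 * ‖dp M' e' t‖ ^ 2 + Δ ^ 2 * W t) := continuous_const.mul (c1.add c2)
    have j1 := intervalIntegral.integral_mono_on (μ := volume) (by linarith : V ≤ 2 * V) (hcL.intervalIntegrable _ _)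
      (c3.intervalIntegrable V (2 * V)) fun t _ => hsq1 t
    rw [intervalIntegral.integral_const_mul, intervalIntegral.integral_add (c1.intervalIntegrable _ _)
      (c2.intervalIntegrable _ _), intervalIntegral.integral_const_mul, intervalIntegral.integral_const_mul] at j1
    exact j1
  have i2 : ∫ t in V..(2 * V), ‖dp M' e' t‖ ^ 2 ≤ 8 * (K ^ 2 * (∫ t in V..(2 * V), ‖dp L c' t‖ ^ 2) + Δ ^ 2 * ∫ t in V..(2 * V), W t) := by
    have c1 : Continuous fun t => K ^ 2 * ‖dp L c' t‖ ^ 2 := continuous_const.mul hcL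
    have c2 : Continuous fun t => Δ ^ 2 * W t := continuous_const.mul hWc
    have c3 : Continuous fun t => 8 * (K ^ 2 * ‖dp L c' t‖ ^ 2 + Δ ^ 2 * W t) := continuous_const.mul (c1.add c2)
    have j1 := intervalIntegral.integral_mono_on (μ := volume) (by linarith : V ≤ 2 * V) (hcM.intervalIntegrable _ _)
      (c3.intervalIntegrable V (2 * V)) fun t _ => hsq2 t
    rw [intervalIntegral.integral_const_mul, intervalIntegral.integral_add (c1.intervalIntegrable _ _)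
      (c2.intervalIntegrable _ _), intervalIntegral.integral_const_mul, intervalIntegral.integral_const_mul] at j1
    exact j1
  obtain ⟨Q, hQ⟩ : ∃ Q : ℝ, Q = Real.exp (2 * C₂ * Real.sqrt D) := ⟨_, rfl⟩
  rw [← hQ] at hV3 hsm
  rw [← hΔ] at hsm
  have hΔW : Δ ^ 2 * ∫ t in V..(2 * V), W t ≤ cE / 64 * V := by
    calc Δ ^ 2 * ∫ t in V..(2 * V), W t ≤ Δ ^ 2 * (Q * V) := mul_le_mul_of_nonneg_left hV3 (by positivity)
      _ = (Δ ^ 2 * Q) * V := by ring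
      _ ≤ _ := mul_le_mul_of_nonneg_right hsm hV0.le
  have hK2 : 1 ≤ K ^ 2 := one_le_pow₀ hK
  constructor
  · -- the lower bound
    have k1 : V / 2 * (cE * P) ≤ 8 * (K ^ 2 * (2 * V * N2 L c') + cE / 64 * V) := by
      calc V / 2 * (cE * P) ≤ V / 2 * N2 M' e' := mul_le_mul_of_nonneg_left hE1 (by positivity)
        _ ≤ _ := m3
        _ ≤ _ := i2
        _ ≤ _ := by gcongr
    have k2 : V * (cE * P) ≤ V * (32 * (K ^ 2 * N2 L c') + cE / 4) := by linarith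
    have k3 := le_of_mul_le_mul_left k2 hV0
    have k4 : cE ≤ cE * P := le_mul_of_one_le_right hcE.le hP1
    linarith
  · have k1 : V / 2 * N2 L c' ≤ 2 * K ^ 2 * (4 * (2 * V * (CE * P)) + cE / 64 * V) := by
      calc V / 2 * N2 L c' ≤ _ := m1
        _ ≤ _ := i1
        _ ≤ 2 * K ^ 2 * (4 * (2 * V * N2 M' e') + cE / 64 * V) := by gcongr
        _ ≤ _ := by gcongr
    have k2 : V * N2 L c' ≤ V * (K ^ 2 * (32 * CE * P + cE / 16)) := by linarith
    have k3 := le_of_mul_le_mul_left k2 hV0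
    refine k3.trans ?_
    have k4 : cE ≤ cE * P := le_mul_of_one_le_right hcE.le hP1
    calc K ^ 2 * (32 * CE * P + cE / 16) ≤ K ^ 2 * (32 * CE * P + cE * P) := by
          apply mul_le_mul_of_nonneg_left _ (by positivity)
          linarith
      _ = _ := by ring

end

end Pool.Agent.H469.F4
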