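import Pool.Agent.H469.F4.SP3

set_option autoImplicit false

/-!
# Joint moments of the zeta function and of short Euler products on the critical line
-/

namespace Pool.Agent.H469.F4

open Filter Topology MeasureTheory Complex Pool.Agent.Q97.UM Pool.Agent.Q14.UM
open Pool.Agent.Results.MP_fa2474_nt.OrderForEveryPolynomial (order)

noncomputable section

theorem JB_le {D : ℝ} (hD : 1 ≤ D) : (JB D : ℝ) ≤ 2 * D := by
  unfold JB
  have h1 := Nat.ceil_lt_add_one (Real.log_nonneg (show (1 : ℝ) ≤ 2 * D by linarith))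
  have h2 := Real.log_le_sub_one_of_pos (show (0 : ℝ) < 2 * D by linarith)
  linarith

/-- the power of a short Euler product is a short Dirichlet polynomial -/
theorem short_poly {A z : ℝ} (hA : 1 ≤ A) (hz : |z| ≤ A) {X : ℕ} (hX : 1 ≤ X) {Λ : ℝ} (hΛ : 1 ≤ Λ) (hXΛ : Real.log X ≤ Λ) :
    ∃ (N : ℕ) (b : ℕ → ℂ), (N : ℝ) ≤ Real.exp (26 * (30 * A * Real.sqrt X + 2 * JB Λ + 4) * Λ) ∧
      (∀ n, b n ≠ 0 → 1 ≤ n ∧ n ≤ N) ∧ SP (fun p => p ≤ ⌊Real.exp Λ⌋₊) b ∧ X ≤ ⌊Real.exp Λ⌋₊ ∧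
      ∀ t, 1 / 2 * ‖cexp (PA X (aS z) (aS z) t)‖ ≤ ‖dp N b t‖ ∧ ‖dp N b t‖ ≤ 2 * ‖cexp (PA X (aS z) (aS z) t)‖ := by
  have hX0 : (0 : ℝ) < X := by exact_mod_cast hX
  obtain ⟨κ, hκ⟩ : ∃ κ : ℝ, κ = 30 * A * Real.sqrt X + 2 * JB Λ + 4 := ⟨_, rfl⟩
  have hs0 : 0 ≤ A * Real.sqrt X := mul_nonneg (by linarith) (Real.sqrt_nonneg _)
  have hJ0 : (0 : ℝ) ≤ JB Λ := Nat.cast_nonneg _
  have hκ1 : 1 ≤ κ := by rw [hκ]; linarith
  have hXe : X ≤ ⌊Real.exp Λ⌋₊ := by
    apply Nat.le_floor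
    calc (X : ℝ) = Real.exp (Real.log X) := (Real.exp_log hX0).symm
      _ ≤ _ := Real.exp_le_exp.2 hXΛ
  refine ⟨M9 Λ κ, ebk Λ κ (aZ z X) (aZ z X) 0 (JB Λ), ?_, ebk_supp hΛ hκ1 _ _, ?_, hXe, fun t => ?_⟩
  · rw [← hκ]
    unfold M9
    exact Nat.floor_le (Real.exp_pos _).le
  · intro n hn
    have h1 := SP_ebk' Λ κ (aZ z X) (aZ z X) 0 (JB Λ) n hn
    refine ⟨h1.1, fun p hp hpn => ?_⟩
    obtain ⟨j, -, -, h⟩ := h1.2 p hp hpn
    have h2 := (mem_PB h).2.2
    apply Nat.le_floor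
    refine h2.trans ?_
    have := XB_anti Λ (by linarith) (Nat.zero_le j)
    refine this.trans (le_of_eq ?_)
    unfold XB
    simp
  · have h1 := acc (D := Λ) (κ := κ) (B := 3 * A * Real.sqrt X) hΛ hκ1 (by rw [hκ]; linarith) (by
      have h2 : -κ / 2 ≤ -((JB Λ : ℝ) + 2) := by rw [hκ]; linarith
      have h3 : (JB Λ : ℝ) ≤ Real.exp (JB Λ : ℝ) := by
        have := Real.add_one_le_exp (JB Λ : ℝ)
        linarith
      calc (JB Λ : ℝ) * Real.exp (-κ / 2) ≤ Real.exp (JB Λ : ℝ) * Real.exp (-((JB Λ : ℝ) + 2)) :=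
            mul_le_mul h3 (Real.exp_le_exp.2 h2) (Real.exp_pos _).le (Real.exp_pos _).le
        _ = Real.exp (-2) := by
            rw [← Real.exp_add]
            congr 1
            ring
        _ ≤ 1 / 4 := by
            rw [Real.exp_neg, inv_eq_one_div]
            apply one_div_le_one_div_of_le (by norm_num)
            have h4 : Real.exp 2 = Real.exp 1 ^ 2 := by
              rw [← Real.exp_nat_mul]
              norm_num
            have h5 := Real.exp_one_gt_d9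
            rw [h4]
            nlinarith) (a := aZ z X) (a2 := aZ z X) (fun j t => by
      refine zf_le (by linarith) (by linarith) (aZ_norm hz X) (aZ_norm hz X) (fun n hn => ?_) j t
      unfold aZ
      rw [if_neg (by omega)]
      exact ⟨rfl, rfl⟩) t
    rw [PA_aZ hXe] at h1
    exact h1

/-- the length is small -/
theorem ev_len {A θ : ℝ} (hA : 1 ≤ A) (hθ : 0 < θ) : ∃ c₀ : ℝ, 0 < c₀ ∧ c₀ ≤ 1 ∧ ∀ᶠ T : ℝ in atTop,
    ∀ X : ℕ, 1 ≤ X → (X : ℝ) ≤ c₀ * (Real.log T / Real.log (Real.log T)) ^ 2 →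
      Real.exp (26 * (30 * A * Real.sqrt X + 2 * JB (max 1 (Real.log X)) + 4) * max 1 (Real.log X)) ≤ T ^ θ ∧
      max 1 (Real.log X) ≤ Real.log T ^ (1 / 10 : ℝ) := by
  obtain ⟨w, hw⟩ : ∃ w : ℝ, w = min 1 (θ / (3120 * A)) := ⟨_, rfl⟩
  have hw0 : 0 < w := by rw [hw]; positivity
  have hw1 : w ≤ 1 := by rw [hw]; exact min_le_left _ _
  have hw2 : 1560 * A * w ≤ θ / 2 := by
    have : w ≤ θ / (3120 * A) := by rw [hw]; exact min_le_right _ _
    rw [le_div_iff₀ (by positivity)] at this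
    linarith
  refine ⟨w ^ 2, by positivity, by nlinarith, ?_⟩
  have e1 : Tendsto (fun T : ℝ => Real.log (Real.log T)) atTop atTop := Real.tendsto_log_atTop.comp Real.tendsto_log_atTop
  have e2 : ∀ᶠ T : ℝ in atTop, 624 * Real.log (Real.log T) ^ 2 ≤ θ / 2 * Real.log T := by
    have h1 : (fun x : ℝ => Real.log x) =o[atTop] fun x : ℝ => x ^ (1 / 2 : ℝ) := isLittleO_log_rpow_atTop (by norm_num)
    have h2 := (h1.bound (show (0 : ℝ) < Real.sqrt (θ / 1248) by positivity))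
    have h3 := Real.tendsto_log_atTop.eventually h2
    filter_upwards [h3, Real.tendsto_log_atTop.eventually_gt_atTop 0] with T hT hL
    rw [Real.norm_eq_abs, Real.norm_of_nonneg (by positivity)] at hT
    have h4 : |Real.log (Real.log T)| ^ 2 ≤ (Real.sqrt (θ / 1248) * Real.log T ^ (1 / 2 : ℝ)) ^ 2 := pow_le_pow_left₀ (abs_nonneg _) hT 2
    rw [sq_abs, mul_pow, Real.sq_sqrt (by positivity), ← Real.rpow_natCast (Real.log T ^ (1 / 2 : ℝ)), ← Real.rpow_mul hL.le] at h4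
    norm_num at h4
    linarith
  have e3 : ∀ᶠ T : ℝ in atTop, 2 * Real.log (Real.log T) ≤ Real.log T ^ (1 / 10 : ℝ) := by
    have h1 : (fun x : ℝ => Real.log x) =o[atTop] fun x : ℝ => x ^ (1 / 10 : ℝ) := isLittleO_log_rpow_atTop (by norm_num)
    have h2 := (h1.bound (show (0 : ℝ) < 1 / 2 by positivity))
    have h3 := Real.tendsto_log_atTop.eventually h2
    filter_upwards [h3, Real.tendsto_log_atTop.eventually_gt_atTop 0] with T hT hL
    rw [Real.norm_eq_abs, Real.norm_of_nonneg (by positivity)] at hT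
    have := le_abs_self (Real.log (Real.log T))
    linarith
  filter_upwards [e1.eventually_ge_atTop 1, e2, e3, eventually_ge_atTop (3 : ℝ)] with T h1 h2 h3 hT3
  intro X hX hXT
  obtain ⟨L, hL⟩ : ∃ L : ℝ, L = Real.log T := ⟨_, rfl⟩
  obtain ⟨ℓ, hℓ⟩ : ∃ ℓ : ℝ, ℓ = Real.log (Real.log T) := ⟨_, rfl⟩
  rw [← hℓ] at h1 h2 h3 hXT
  rw [← hL] at h2 h3 hXT
  have hℓL : ℓ = Real.log L := by rw [hℓ, hL]
  have hL0 : 0 < L := by
    rw [hL]
    exact Real.log_pos (by linarith)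
  have hX0 : (0 : ℝ) < X := by exact_mod_cast hX
  have hLℓ : 0 < L / ℓ := by positivity
  have hlogX : Real.log X ≤ 2 * ℓ := by
    have h4 : (X : ℝ) ≤ L ^ 2 := by
      refine hXT.trans ?_
      have h5 : L / ℓ ≤ L := div_le_self hL0.le h1
      have h6 : (L / ℓ) ^ 2 ≤ L ^ 2 := pow_le_pow_left₀ hLℓ.le h5 2
      have h7 : w ^ 2 ≤ 1 := by nlinarith
      calc w ^ 2 * (L / ℓ) ^ 2 ≤ 1 * L ^ 2 := mul_le_mul h7 h6 (by positivity) (by norm_num)
        _ = _ := one_mul _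
    calc Real.log X ≤ Real.log (L ^ 2) := Real.log_le_log hX0 h4
      _ = 2 * ℓ := by rw [Real.log_pow, hℓL]; norm_num
  have hsq : Real.sqrt X ≤ w * (L / ℓ) := by
    rw [← mul_pow] at hXT
    exact Real.sqrt_le_iff.2 ⟨by positivity, hXT⟩
  obtain ⟨Λ, hΛ⟩ : ∃ Λ : ℝ, Λ = max 1 (Real.log X) := ⟨_, rfl⟩
  have hΛ1 : 1 ≤ Λ := by rw [hΛ]; exact le_max_left _ _
  have hΛ2 : Λ ≤ 2 * ℓ := by rw [hΛ]; exact max_le (by linarith) hlogX
  rw [← hΛ]
  have hJ := JB_le hΛ1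
  refine ⟨?_, by rw [← hL]; linarith⟩
  rw [Real.rpow_def_of_pos (by linarith), ← hL]
  apply Real.exp_le_exp.2
  have hℓ0 : 0 < ℓ := by linarith
  calc 26 * (30 * A * Real.sqrt X + 2 * JB Λ + 4) * Λ ≤ 26 * (30 * A * (w * (L / ℓ)) + 2 * (4 * ℓ) + 4 * ℓ) * (2 * ℓ) := by
        apply mul_le_mul _ hΛ2 (by linarith) (by positivity)
        apply mul_le_mul_of_nonneg_left _ (by norm_num)
        have h4 : 30 * A * Real.sqrt X ≤ 30 * A * (w * (L / ℓ)) := mul_le_mul_of_nonneg_left hsq (by linarith)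
        linarith
    _ = 1560 * A * w * L + 624 * ℓ ^ 2 := by
        field_simp
        ring
    _ ≤ θ / 2 * L + θ / 2 * L := by
        apply add_le_add _ h2
        exact mul_le_mul_of_nonneg_right hw2 hL0.le
    _ = L * θ := by ring

/-- the truncation is accurate -/
theorem ev_small {δ c C₁ κ₀ : ℝ} (hδ : 0 < δ) (hc : 0 < c) (hC₁ : 0 < C₁) : ∀ᶠ T : ℝ in atTop, 1 ≤ Real.log T ^ (1 / 10 : ℝ) ∧
    Real.log T ^ (1 / 10 : ℝ) ≤ δ * Real.log T ∧ ∀ κ D' κ' : ℝ, 1 ≤ κ → 1 ≤ D' → D' ≤ Real.exp 1 * Real.log T ^ (1 / 10 : ℝ) →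
      κ * (δ * Real.log T / (Real.exp 1 * Real.log T ^ (1 / 10 : ℝ))) ^ (9 / 10 : ℝ) ≤ κ' →
      κ₀ ≤ κ' ∧ (2 * (JB D' : ℝ) * Real.exp (-κ' / 2)) ^ 2 * Real.exp (C₁ * Real.sqrt D') ≤ c := by
  obtain ⟨η, hη⟩ : ∃ η : ℝ, η = (δ / Real.exp 1) ^ (9 / 10 : ℝ) := ⟨_, rfl⟩
  have hη0 : 0 < η := by rw [hη]; positivity
  have t1 : ∀ y : ℝ, 0 < y → Tendsto (fun T : ℝ => Real.log T ^ y) atTop atTop := fun y hy => (tendsto_rpow_atTop hy).comp Real.tendsto_log_atTop
  filter_upwards [(t1 (1 / 10) (by norm_num)).eventually_ge_atTop 1, (t1 (9 / 10) (by norm_num)).eventually_ge_atTop (1 / δ),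
    (t1 (71 / 100) (by norm_num)).eventually_ge_atTop (((1 + C₁) * Real.exp 1 + 1) / η),
    (t1 (1 / 10) (by norm_num)).eventually_ge_atTop (-Real.log (c / 32)),
    (t1 (81 / 100) (by norm_num)).eventually_ge_atTop (κ₀ / η), Real.tendsto_log_atTop.eventually_ge_atTop 1] with T h1 h2 h3 h4 h5 h6
  obtain ⟨L, hL⟩ : ∃ L : ℝ, L = Real.log T := ⟨_, rfl⟩
  rw [← hL] at h1 h2 h3 h4 h5 h6 ⊢
  have hL0 : 0 < L := by linarith
  obtain ⟨u, hu⟩ : ∃ u : ℝ, u = L ^ (1 / 10 : ℝ) := ⟨_, rfl⟩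
  rw [← hu] at h1 h4 ⊢
  have hLu : L = u * L ^ (9 / 10 : ℝ) := by
    rw [hu, ← Real.rpow_add hL0]
    norm_num
  have h81 : L ^ (81 / 100 : ℝ) = u * L ^ (71 / 100 : ℝ) := by
    rw [hu, ← Real.rpow_add hL0]
    norm_num
  refine ⟨h1, ?_, ?_⟩
  · rw [div_le_iff₀ hδ] at h2
    calc u = u * 1 := (mul_one u).symm
      _ ≤ u * (L ^ (9 / 10 : ℝ) * δ) := mul_le_mul_of_nonneg_left h2 (by linarith)
      _ = δ * (u * L ^ (9 / 10 : ℝ)) := by ring
      _ = _ := by rw [← hLu]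
  · intro κ D' κ' hκ hD1 hD2 hκ'
    have hpow : (δ * L / (Real.exp 1 * u)) ^ (9 / 10 : ℝ) = η * L ^ (81 / 100 : ℝ) := by
      have e1 : δ * L / (Real.exp 1 * u) = δ / Real.exp 1 * L ^ (9 / 10 : ℝ) := by
        have hu0 : u ≠ 0 := by linarith
        have := Real.exp_pos 1
        rw [div_eq_iff (by positivity)]
        calc δ * L = δ * (u * L ^ (9 / 10 : ℝ)) := by rw [← hLu]
          _ = _ := by field_simp
      rw [e1, Real.mul_rpow (by positivity) (by positivity), ← Real.rpow_mul hL0.le, ← hη]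
      norm_num
    rw [hpow] at hκ'
    have hκ'' : η * L ^ (81 / 100 : ℝ) ≤ κ' := by
      refine le_trans ?_ hκ'
      apply le_mul_of_one_le_left (by positivity) hκ
    constructor
    · rw [div_le_iff₀ hη0] at h5
      linarith
    · have hJ := JB_le hD1
      have hJ0 : (0 : ℝ) ≤ JB D' := Nat.cast_nonneg _
      have hq := Real.quadratic_le_exp_of_nonneg (show 0 ≤ D' by linarith)
      have hsq : Real.sqrt D' ≤ D' := by
        rw [Real.sqrt_le_left (by linarith)]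
        nlinarith
      have k1 : (2 * (JB D' : ℝ)) ^ 2 ≤ 32 * Real.exp D' := by
        calc (2 * (JB D' : ℝ)) ^ 2 ≤ (4 * D') ^ 2 := pow_le_pow_left₀ (by positivity) (by linarith) 2
          _ = 32 * (D' ^ 2 / 2) := by ring
          _ ≤ _ := by linarith
      calc (2 * (JB D' : ℝ) * Real.exp (-κ' / 2)) ^ 2 * Real.exp (C₁ * Real.sqrt D') =
            (2 * (JB D' : ℝ)) ^ 2 * (Real.exp (-κ' / 2) ^ 2 * Real.exp (C₁ * Real.sqrt D')) := by ring
        _ = (2 * (JB D' : ℝ)) ^ 2 * Real.exp (C₁ * Real.sqrt D' - κ') := by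
            rw [← Real.exp_nat_mul, ← Real.exp_add]
            congr 2
            push_cast
            ring
        _ ≤ 32 * Real.exp D' * Real.exp (C₁ * D' - κ') := by
            apply mul_le_mul k1 _ (Real.exp_pos _).le (by positivity)
            apply Real.exp_le_exp.2
            have := mul_le_mul_of_nonneg_left hsq hC₁.le
            linarith
        _ = 32 * Real.exp ((1 + C₁) * D' - κ') := by
            rw [mul_assoc, ← Real.exp_add]
            congr 2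
            ring
        _ ≤ 32 * Real.exp (Real.log (c / 32)) := by
            apply mul_le_mul_of_nonneg_left _ (by norm_num)
            apply Real.exp_le_exp.2
            rw [div_le_iff₀ hη0] at h3
            have k2 : (1 + C₁) * D' ≤ (1 + C₁) * (Real.exp 1 * u) := mul_le_mul_of_nonneg_left hD2 (by linarith)
            have k3 : u * ((1 + C₁) * Real.exp 1 + 1) ≤ η * L ^ (81 / 100 : ℝ) := by
              rw [h81]
              calc u * ((1 + C₁) * Real.exp 1 + 1) ≤ u * (L ^ (71 / 100 : ℝ) * η) := mul_le_mul_of_nonneg_left h3 (by linarith)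
                _ = _ := by ring
            linarith
        _ = c := by
            rw [Real.exp_log (by positivity)]
            ring

end

end Pool.Agent.H469.F4
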