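import Pool.Agent.H469.F4.SP4

set_option autoImplicit false

/-!
# Joint moments of the zeta function and of short Euler products on the critical line, II
-/

namespace Pool.Agent.H469.F4

open Filter Topology MeasureTheory Complex Pool.Agent.Q97.UM Pool.Agent.Q14.UM
open Pool.Agent.Results.MP_fa2474_nt.OrderForEveryPolynomial (order)

noncomputable section

theorem order_one_u : ∀ᶠ T : ℝ in atTop, ∀ s : ℝ, 0 ≤ s → s ≤ 2 →
    Real.log T ^ (s ^ 2) ≤ 16 * order T (fun _ : Fin 1 => s) (fun _ => 0) ∧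
    order T (fun _ : Fin 1 => s) (fun _ => 0) ≤ 16 * Real.log T ^ (s ^ 2) := by
  filter_upwards [zeta_one_ev, Real.tendsto_log_atTop.eventually_gt_atTop 0] with T hT hL
  intro s hs0 hs2
  have h1 : order T (fun _ : Fin 1 => s) (fun _ => 0) = ‖riemannZeta (1 + 1 / Real.log T)‖ ^ (s ^ 2) := by
    unfold order
    rw [Fin.prod_univ_one, Fin.prod_univ_one, sq]
    simp
  rw [h1]
  have hs4 : s ^ 2 ≤ 4 := by nlinarith
  have h16 : (2 : ℝ) ^ (s ^ 2) ≤ 16 := by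
    calc (2 : ℝ) ^ (s ^ 2) ≤ 2 ^ (4 : ℝ) := Real.rpow_le_rpow_of_exponent_le (by norm_num) hs4
      _ = 16 := by norm_num
  constructor
  · calc Real.log T ^ (s ^ 2) = (2 * (Real.log T / 2)) ^ (s ^ 2) := by congr 1; ring
      _ = 2 ^ (s ^ 2) * (Real.log T / 2) ^ (s ^ 2) := Real.mul_rpow (by norm_num) (by positivity)
      _ ≤ 16 * ‖riemannZeta (1 + 1 / Real.log T)‖ ^ (s ^ 2) := by
          apply mul_le_mul h16 _ (by positivity) (by norm_num)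
          exact Real.rpow_le_rpow (by positivity) hT.1 (sq_nonneg s)
  · calc ‖riemannZeta (1 + 1 / Real.log T)‖ ^ (s ^ 2) ≤ (2 * Real.log T) ^ (s ^ 2) :=
          Real.rpow_le_rpow (norm_nonneg _) hT.2 (sq_nonneg s)
      _ = 2 ^ (s ^ 2) * Real.log T ^ (s ^ 2) := Real.mul_rpow (by norm_num) hL.le
      _ ≤ 16 * Real.log T ^ (s ^ 2) := mul_le_mul_of_nonneg_right h16 (by positivity)

theorem PA_cont (Y : ℕ) (a a2 : ℕ → ℂ) : Continuous fun t : ℝ => ‖cexp (PA Y a a2 t)‖ := by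
  have h : Continuous fun t : ℝ => PA Y a a2 t := by
    unfold PA
    refine continuous_finsetSum _ fun p hp => ?_
    have hp0 : (p : ℂ) ≠ 0 := by
      have := (Finset.mem_filter.1 hp).2.pos
      exact_mod_cast this.ne'
    have h1 : Continuous fun t : ℝ => (p : ℂ) ^ (-(1 / 2 + t * I)) :=
      Continuous.const_cpow (by fun_prop) (Or.inl hp0)
    have h2 : Continuous fun t : ℝ => (p : ℂ) ^ (-(1 + 2 * t * I)) :=
      Continuous.const_cpow (by fun_prop) (Or.inl hp0)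
    exact (continuous_const.mul h1).add (continuous_const.mul h2)
  exact (Complex.continuous_exp.comp h).norm

/-- **joint moments** -/
theorem joint {A : ℝ} (hA : 2 ≤ A) : ∃ c₀ c C : ℝ, 0 < c₀ ∧ 0 < c ∧ 0 < C ∧ ∀ᶠ T : ℝ in atTop, ∀ X : ℕ, 2 ≤ X →
    (X : ℝ) ≤ c₀ * (Real.log T / Real.log (Real.log T)) ^ 2 → ∀ s : ℝ, 0 ≤ s → s ≤ 2 → ∀ z : ℝ, |z| ≤ A →
      c * (T * (Real.log T ^ (s ^ 2) * Real.exp (((s + z) ^ 2 - s ^ 2) * PR X))) ≤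
        ∫ t in T..(2 * T), ‖zt t‖ ^ (2 * s) * ‖cexp (PA X (aS z) (aS z) t)‖ ^ 2 ∧
      ∫ t in T..(2 * T), ‖zt t‖ ^ (2 * s) * ‖cexp (PA X (aS z) (aS z) t)‖ ^ 2 ≤
        C * (T * (Real.log T ^ (s ^ 2) * Real.exp (((s + z) ^ 2 - s ^ 2) * PR X))) := by
  obtain ⟨κ, δ₀, hκ, hδ₀, h⟩ := ord4 1
  obtain ⟨hδ1, h26, θ, c₁, C₁, hθ, hθ8, hc, hC, hev⟩ := h δ₀ hδ₀ le_rfl
  obtain ⟨c₂, C₂, K₁, κ₀, hc2, hC2, hK1, hr⟩ := ratio_core (A := A) (by linarith)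
  obtain ⟨c₀, hc0, -, hlen⟩ := ev_len (A := A) (by linarith) hθ
  refine ⟨c₀, c₁ * c₁ * c₂ / 64, (C₁ + 1) * (C₁ + 1) * C₂ * 64, hc0, by positivity, by positivity, ?_⟩
  filter_upwards [hev, hlen, ev_small (κ₀ := κ₀) hδ₀ hc2 hK1, order_one_u, eventually_ge_atTop (16 : ℝ),
    Real.tendsto_log_atTop.eventually_gt_atTop 0] with T g1 g2 g3 g4 hT16 hL
  intro X hX hXT s hs0 hs2 z hz
  have hT0 : 0 < T := by linarith
  obtain ⟨l1, l2⟩ := g2 X (by omega) hXT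
  obtain ⟨m1, m2, m3⟩ := g3
  obtain ⟨Λ₀, hΛ₀⟩ : ∃ Λ₀ : ℝ, Λ₀ = Real.log T ^ (1 / 10 : ℝ) := ⟨_, rfl⟩
  obtain ⟨Λ, hΛ⟩ : ∃ Λ : ℝ, Λ = max 1 (Real.log X) := ⟨_, rfl⟩
  rw [← hΛ₀] at m1 m2 m3 l2
  rw [← hΛ] at l1 l2
  have hΛ1 : 1 ≤ Λ := by rw [hΛ]; exact le_max_left _ _
  have hs1 : |s| ≤ A := by rw [abs_of_nonneg hs0]; linarith
  obtain ⟨D', κ', hD1, hD2, hk1, hk2, hid⟩ := shift_id (D := δ₀ * Real.log T) (κ := κ) (Λ := Λ₀) (by linarith) m1 m2 (aS s) (aS s)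
  obtain ⟨n1, n2⟩ := m3 κ D' κ' (by linarith) (by linarith) hD2 hk1
  obtain ⟨N, b, hN, hb, hSb, hXe, hbX⟩ := short_poly (A := A) (z := z) (by linarith) hz (X := X) (by omega) hΛ1 (by rw [hΛ]; exact le_max_right _ _)
  have hle : ⌊Real.exp Λ⌋₊ ≤ ⌊Real.exp D'⌋₊ := Nat.floor_le_floor (Real.exp_le_exp.2 (l2.trans hD1))
  have hSb' : SP (fun p => ¬ ⌊Real.exp D'⌋₊ < p) b := fun n hn =>
    ⟨(hSb n hn).1, fun p hp hpn => by
      have h1 : p ≤ ⌊Real.exp Λ⌋₊ := (hSb n hn).2 p hp hpn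
      have h2 : p ≤ ⌊Real.exp D'⌋₊ := h1.trans hle
      show ¬ ⌊Real.exp D'⌋₊ < p
      omega⟩
  obtain ⟨r1, r2, r3⟩ := hr D' κ' X (by linarith) hk2 n1 (hXe.trans hle) n2 s z hs1 hz N b hb hbX
  have hi := hid N b hb hSb'
  have hNT : (N : ℝ) ≤ T ^ θ := hN.trans l1
  obtain ⟨i1, i2, -, -, i3⟩ := g1 (fun _ : Fin 1 => s) (fun _ => 0) (fun _ => hs0) (by rw [Fin.sum_univ_one]; exact hs2)
    (fun _ => by rw [abs_zero]; linarith)
  obtain ⟨j1, j2⟩ := i3 N hNT b hb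
  have hap : ap (fun _ : Fin 1 => s) (fun _ => 0) = aS s := by
    funext p
    unfold ap aS
    simp
  have hap2 : ap (fun _ : Fin 1 => s) (fun _ => 2 * 0) = aS s := by
    rw [← hap]
    simp
  have heo : eo δ₀ κ T (fun _ : Fin 1 => s) (fun _ => 0) =
      ebk (δ₀ * Real.log T) κ (aS s) (aS s) 0 (JB (δ₀ * Real.log T)) := by
    unfold eo
    rw [hap2, hap]
  have hzpr : ∀ t, zpr (fun _ : Fin 1 => s) (fun _ => 0) t = ‖zt t‖ ^ (2 * s) := fun t => by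
    unfold zpr
    rw [Fin.prod_univ_one, add_zero]
  obtain ⟨e, he⟩ : ∃ e : ℕ → ℂ, e = eo δ₀ κ T (fun _ : Fin 1 => s) (fun _ => 0) := ⟨_, rfl⟩
  obtain ⟨M, hM⟩ : ∃ M : ℕ, M = eM δ₀ κ T := ⟨_, rfl⟩
  have hM' : M9 (δ₀ * Real.log T) κ = M := by rw [hM]; rfl
  rw [← heo, ← he, hM'] at hi
  rw [← he, ← hM] at i1 i2 j1 j2
  obtain ⟨G, hG⟩ : ∃ G : ℝ, G = N2 (M9 D' κ') (ebk D' κ' (aS s) (aS s) 0 (JB D')) := ⟨_, rfl⟩
  obtain ⟨Gb, hGb⟩ : ∃ Gb : ℝ, Gb = N2 (M9 D' κ' * N) (cv (ebk D' κ' (aS s) (aS s) 0 (JB D')) b) := ⟨_, rfl⟩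
  obtain ⟨E, hE⟩ : ∃ E : ℝ, E = Real.exp (((s + z) ^ 2 - s ^ 2) * PR X) := ⟨_, rfl⟩
  rw [← hG, ← hGb, ← hE] at r1 r2
  rw [← hG] at r3
  rw [← hG, ← hGb] at hi
  rw [← hE]
  have hE0 : 0 < E := by rw [hE]; positivity
  obtain ⟨Ne, hNe⟩ : ∃ Ne : ℝ, Ne = N2 M e := ⟨_, rfl⟩
  obtain ⟨Neb, hNeb⟩ : ∃ Neb : ℝ, Neb = N2 (M * N) (cv e b) := ⟨_, rfl⟩
  rw [← hNe] at hi i1 i2
  rw [← hNeb] at hi j1 j2
  have hNe0 : 0 ≤ Ne := by rw [hNe]; exact Pool.Agent.Q86.UM.N2_nonneg _ _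
  obtain ⟨O, hO⟩ : ∃ O : ℝ, O = order T (fun _ : Fin 1 => s) (fun _ => 0) := ⟨_, rfl⟩
  obtain ⟨o1, o2⟩ := g4 s hs0 hs2
  rw [← hO] at o1 o2 i1 i2
  obtain ⟨L, hLd⟩ : ∃ L : ℝ, L = Real.log T ^ (s ^ 2) := ⟨_, rfl⟩
  rw [← hLd] at o1 o2 ⊢
  have hL0 : 0 ≤ L := by rw [hLd]; positivity
  have hO0 : 0 ≤ O := by linarith
  -- the ratio
  have q1 : c₂ * E * Ne ≤ Neb := by
    have : (c₂ * E * Ne) * G ≤ Neb * G := by
      rw [hi]
      calc (c₂ * E * Ne) * G = (c₂ * E * G) * Ne := by ring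
        _ ≤ Gb * Ne := mul_le_mul_of_nonneg_right r1 hNe0
    exact le_of_mul_le_mul_right this r3
  have q2 : Neb ≤ C₂ * E * Ne := by
    have : Neb * G ≤ (C₂ * E * Ne) * G := by
      rw [hi]
      calc Gb * Ne ≤ (C₂ * E * G) * Ne := mul_le_mul_of_nonneg_right r2 hNe0
        _ = _ := by ring
    exact le_of_mul_le_mul_right this r3
  -- the integrals
  have hc1 : Continuous fun t : ℝ => ‖zt t‖ ^ (2 * s) := ztw_cont hs0
  have hcF : Continuous fun t => zpr (fun _ : Fin 1 => s) (fun _ => 0) t * ‖dp N b t‖ ^ 2 := by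
    have e1 : (fun t => zpr (fun _ : Fin 1 => s) (fun _ => 0) t * ‖dp N b t‖ ^ 2) = fun t => ‖zt t‖ ^ (2 * s) * ‖dp N b t‖ ^ 2 := by
      funext t
      rw [hzpr]
    rw [e1]
    exact hc1.mul ((dpc' N b).norm.pow 2)
  have hcG : Continuous fun t => ‖zt t‖ ^ (2 * s) * ‖cexp (PA X (aS z) (aS z) t)‖ ^ 2 := hc1.mul ((PA_cont X _ _).pow 2)
  have hcG4 : Continuous fun t => 4 * (‖zt t‖ ^ (2 * s) * ‖cexp (PA X (aS z) (aS z) t)‖ ^ 2) := continuous_const.mul hcG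
  have hcF4 : Continuous fun t => 4 * (zpr (fun _ : Fin 1 => s) (fun _ => 0) t * ‖dp N b t‖ ^ 2) := continuous_const.mul hcF
  have w1 : ∫ t in T..(2 * T), zpr (fun _ : Fin 1 => s) (fun _ => 0) t * ‖dp N b t‖ ^ 2 ≤
      4 * ∫ t in T..(2 * T), ‖zt t‖ ^ (2 * s) * ‖cexp (PA X (aS z) (aS z) t)‖ ^ 2 := by
    rw [← intervalIntegral.integral_const_mul]
    apply intervalIntegral.integral_mono_on (by linarith) (hcF.intervalIntegrable _ _) (hcG4.intervalIntegrable _ _)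
    intro t _
    rw [hzpr]
    have h1 := (hbX t).2
    have h2 : 0 ≤ ‖zt t‖ ^ (2 * s) := by positivity
    have h3 : ‖dp N b t‖ ^ 2 ≤ (2 * ‖cexp (PA X (aS z) (aS z) t)‖) ^ 2 := pow_le_pow_left₀ (norm_nonneg _) h1 2
    calc ‖zt t‖ ^ (2 * s) * ‖dp N b t‖ ^ 2 ≤ ‖zt t‖ ^ (2 * s) * (2 * ‖cexp (PA X (aS z) (aS z) t)‖) ^ 2 := mul_le_mul_of_nonneg_left h3 h2
      _ = _ := by ring
  have w2 : ∫ t in T..(2 * T), ‖zt t‖ ^ (2 * s) * ‖cexp (PA X (aS z) (aS z) t)‖ ^ 2 ≤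
      4 * ∫ t in T..(2 * T), zpr (fun _ : Fin 1 => s) (fun _ => 0) t * ‖dp N b t‖ ^ 2 := by
    rw [← intervalIntegral.integral_const_mul]
    apply intervalIntegral.integral_mono_on (by linarith) (hcG.intervalIntegrable _ _) (hcF4.intervalIntegrable _ _)
    intro t _
    rw [hzpr]
    have h1 := (hbX t).1
    have h2 : 0 ≤ ‖zt t‖ ^ (2 * s) := by positivity
    have h3 : ‖cexp (PA X (aS z) (aS z) t)‖ ^ 2 ≤ (2 * ‖dp N b t‖) ^ 2 := pow_le_pow_left₀ (norm_nonneg _) (by linarith) 2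
    calc ‖zt t‖ ^ (2 * s) * ‖cexp (PA X (aS z) (aS z) t)‖ ^ 2 ≤ ‖zt t‖ ^ (2 * s) * (2 * ‖dp N b t‖) ^ 2 := mul_le_mul_of_nonneg_left h3 h2
      _ = _ := by ring
  constructor
  · have k1 : c₁ * T * Neb ≤ 4 * ∫ t in T..(2 * T), ‖zt t‖ ^ (2 * s) * ‖cexp (PA X (aS z) (aS z) t)‖ ^ 2 := j1.trans w1
    have k2 : c₁ * T * (c₂ * E * (c₁ * (L / 16))) ≤ c₁ * T * Neb := by
      apply mul_le_mul_of_nonneg_left _ (by positivity)
      refine le_trans ?_ q1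
      apply mul_le_mul_of_nonneg_left _ (by positivity)
      refine le_trans ?_ i1
      apply mul_le_mul_of_nonneg_left _ hc.le
      linarith
    calc c₁ * c₁ * c₂ / 64 * (T * (L * E)) = (c₁ * T * (c₂ * E * (c₁ * (L / 16)))) / 4 := by ring
      _ ≤ _ := by linarith
  · have k1 := w2.trans (mul_le_mul_of_nonneg_left j2 (by norm_num : (0 : ℝ) ≤ 4))
    refine k1.trans ?_
    have k2 : Neb ≤ C₂ * E * ((C₁ + 1) * (16 * L)) := by
      refine q2.trans ?_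
      apply mul_le_mul_of_nonneg_left _ (by positivity)
      refine i2.trans ?_
      exact mul_le_mul (by linarith) o2 hO0 (by positivity)
    calc 4 * (C₁ * T * Neb) ≤ 4 * ((C₁ + 1) * T * (C₂ * E * ((C₁ + 1) * (16 * L)))) := by
          apply mul_le_mul_of_nonneg_left _ (by norm_num)
          apply mul_le_mul _ k2 (by rw [hNeb]; exact Pool.Agent.Q86.UM.N2_nonneg _ _) (by positivity)
          apply mul_le_mul_of_nonneg_right _ hT0.le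
          linarith
      _ = _ := by ring

/-- Mertens for all `X ≥ 2` -/
theorem PR_log : ∃ C : ℝ, 0 ≤ C ∧ ∀ X : ℕ, 2 ≤ X → |PR X - Real.log (Real.log X)| ≤ C := by
  obtain ⟨C, hC⟩ := Pool.Agent.Helper256.KM.mertens_inv
  refine ⟨max C |PR 2 - Real.log (Real.log (2 : ℕ))|, (abs_nonneg _).trans (le_max_right _ _), fun X hX => ?_⟩
  rcases Nat.lt_or_ge X 3 with h | h
  · have : X = 2 := by omega
    subst this
    exact le_max_right _ _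
  · exact (hC X h).trans (le_max_left _ _)

theorem exp_PR {B : ℝ} (hB : 0 ≤ B) : ∃ K : ℝ, 1 ≤ K ∧ ∀ X : ℕ, 2 ≤ X → ∀ y : ℝ, |y| ≤ B →
    Real.exp (y * PR X) ≤ K * Real.log X ^ y ∧ Real.log X ^ y ≤ K * Real.exp (y * PR X) := by
  obtain ⟨C, hC0, hC⟩ := PR_log
  refine ⟨Real.exp (B * C), Real.one_le_exp (by positivity), fun X hX y hy => ?_⟩
  have hX1 : (1 : ℝ) < X := by exact_mod_cast (by omega : 1 < X)
  have hl : 0 < Real.log X := Real.log_pos hX1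
  rw [Real.rpow_def_of_pos hl, ← Real.exp_add, ← Real.exp_add]
  have h1 : |y * (PR X - Real.log (Real.log X))| ≤ B * C := by
    rw [abs_mul]
    exact mul_le_mul hy (hC X hX) (abs_nonneg _) hB
  rw [abs_le] at h1
  constructor
  · apply Real.exp_le_exp.2
    linarith [h1.2]
  · apply Real.exp_le_exp.2
    linarith [h1.1]

end

end Pool.Agent.H469.F4
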