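import Pool.Agent.H469.F4.SP5

set_option autoImplicit false

/-!
# Joint moments of the zeta function and of short Euler products on the critical line, III
-/

namespace Pool.Agent.H469.F4

open Filter Topology MeasureTheory Complex Pool.Agent.Q97.UM Pool.Agent.Q14.UM

noncomputable section

/-- the Euler product over the primes up to `X` -/
def euX (X : ℕ) (s : ℂ) : ℂ := ∏ p ∈ (Finset.Icc 1 X).filter Nat.Prime, (1 - (p : ℂ) ^ (-s))⁻¹

theorem fac_pos (t : ℝ) {p : ℕ} (hp : 2 ≤ p) : 0 < ‖1 - (p : ℂ) ^ (-(1 / 2 + t * I))‖ := by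
  have h3 : ‖(p : ℂ) ^ (-(1 / 2 + t * I))‖ < 1 := (Pool.Agent.Q150.UM.nw_le t hp).trans_lt (by norm_num)
  rw [norm_pos_iff, sub_ne_zero]
  intro h
  rw [← h] at h3
  simp at h3

theorem euX_ne (X : ℕ) (t : ℝ) : euX X (1 / 2 + t * I) ≠ 0 := by
  unfold euX
  rw [Finset.prod_ne_zero_iff]
  intro p hp
  apply inv_ne_zero
  exact norm_pos_iff.1 (fac_pos t (Finset.mem_filter.1 hp).2.two_le)

theorem euX_cont (X : ℕ) : Continuous fun t : ℝ => euX X (1 / 2 + t * I) := by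
  unfold euX
  refine continuous_finsetProd _ fun p hp => ?_
  have hp2 := (Finset.mem_filter.1 hp).2.two_le
  have hp0 : (p : ℂ) ≠ 0 := by exact_mod_cast (by omega : p ≠ 0)
  have h2 : Continuous fun t : ℝ => (1 - (p : ℂ) ^ (-(1 / 2 + t * I))) :=
    continuous_const.sub (Continuous.const_cpow (by fun_prop) (Or.inl hp0))
  exact h2.inv₀ fun t => norm_pos_iff.1 (fac_pos t hp2)

/-- **the Euler product against the exponential of the prime sum** -/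
theorem euX_PA {A : ℝ} (hA : 0 ≤ A) : ∃ K : ℝ, 1 ≤ K ∧ ∀ (X : ℕ) (z : ℝ), |z| ≤ A → ∀ t : ℝ,
    ‖euX X (1 / 2 + t * I)‖ ^ (2 * z) ≤ K * ‖cexp (PA X (aS z) (aS z) t)‖ ^ 2 ∧
    ‖cexp (PA X (aS z) (aS z) t)‖ ^ 2 ≤ K * ‖euX X (1 / 2 + t * I)‖ ^ (2 * z) := by
  refine ⟨Real.exp (4 * A * ∑' n : ℕ, (n : ℝ) ^ (-(3 / 2) : ℝ)),
    Real.one_le_exp (mul_nonneg (by linarith) (tsum_nonneg fun n => by positivity)), fun X s hs t => ?_⟩
  obtain ⟨z, hz⟩ : ∃ z : ℕ → ℂ, ∀ p, z p = (p : ℂ) ^ (-(1 / 2 + t * I)) := ⟨_, fun _ => rfl⟩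
  have h1 : ‖euX X (1 / 2 + t * I)‖ ^ (2 * s) =
      Real.exp (∑ p ∈ (Finset.Icc 1 X).filter Nat.Prime, -(2 * s) * Real.log ‖1 - z p‖) := by
    unfold euX
    rw [norm_prod, Real.exp_sum, ← Real.finsetProd_rpow _ _ (fun _ _ => norm_nonneg _)]
    refine Finset.prod_congr rfl fun p hp => ?_
    have h4 := fac_pos t (Finset.mem_filter.1 hp).2.two_le
    rw [hz, norm_inv, Real.inv_rpow (norm_nonneg _), ← Real.rpow_neg (norm_nonneg _), Real.rpow_def_of_pos h4]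
    congr 1
    ring
  have h2 : ‖cexp (PA X (aS s) (aS s) t)‖ ^ 2 =
      Real.exp (∑ p ∈ (Finset.Icc 1 X).filter Nat.Prime, 2 * s * (z p + z p ^ 2 / 2).re) := by
    rw [Complex.norm_exp, ← Real.exp_nat_mul]
    congr 1
    unfold PA aS
    rw [Complex.re_sum, Finset.mul_sum]
    refine Finset.sum_congr rfl fun p hp => ?_
    rw [Finset.mem_filter] at hp
    have h3 : (z p) ^ 2 = (p : ℂ) ^ (-(1 + 2 * t * I)) := by
      rw [hz, ← Complex.cpow_nat_mul]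
      congr 1
      push_cast
      ring
    have h4 : (s : ℂ) * (p : ℂ) ^ (-(1 / 2 + t * I)) + (s : ℂ) / 2 * (p : ℂ) ^ (-(1 + 2 * t * I)) = (s : ℂ) * (z p + z p ^ 2 / 2) := by
      rw [h3, hz]
      ring
    rw [h4, Complex.re_ofReal_mul]
    push_cast
    ring
  have h3 : ∑ p ∈ (Finset.Icc 1 X).filter Nat.Prime, 4 * |s| * ‖z p‖ ^ 3 ≤ 4 * A * ∑' n : ℕ, (n : ℝ) ^ (-(3 / 2) : ℝ) := by
    have h4 : ∀ p ∈ (Finset.Icc 1 X).filter Nat.Prime, 4 * |s| * ‖z p‖ ^ 3 ≤ 4 * A * (p : ℝ) ^ (-(3 / 2) : ℝ) := by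
      intro p hp
      rw [Finset.mem_filter] at hp
      have h5 : ‖z p‖ ^ 3 = (p : ℝ) ^ (-(3 / 2) : ℝ) := by
        rw [hz, Pool.Agent.Q150.UM.nw t hp.2.pos, ← Real.rpow_natCast, ← Real.rpow_mul (Nat.cast_nonneg p)]
        norm_num
      rw [h5]
      apply mul_le_mul_of_nonneg_right _ (by positivity)
      linarith
    refine (Finset.sum_le_sum h4).trans ?_
    rw [← Finset.mul_sum]
    exact mul_le_mul_of_nonneg_left (Pool.Agent.Q150.UM.sum_32.sum_le_tsum _ fun n _ => by positivity) (by linarith)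
  have h4 : ∀ p ∈ (Finset.Icc 1 X).filter Nat.Prime,
      |2 * s * (Real.log ‖1 - z p‖ + (z p + z p ^ 2 / 2).re)| ≤ 4 * |s| * ‖z p‖ ^ 3 := by
    intro p hp
    rw [Finset.mem_filter] at hp
    have h5 := two_factor (z p) (by rw [hz]; exact Pool.Agent.Q150.UM.nw_le t hp.2.two_le)
    have h6 : |2 * s| = 2 * |s| := by rw [abs_mul, abs_of_pos (by norm_num : (0 : ℝ) < 2)]
    rw [abs_mul, h6]
    calc 2 * |s| * |Real.log ‖1 - z p‖ + (z p + z p ^ 2 / 2).re| ≤ 2 * |s| * (2 * ‖z p‖ ^ 3) :=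
          mul_le_mul_of_nonneg_left h5 (by positivity)
      _ = _ := by ring
  have h5 := (Finset.abs_sum_le_sum_abs _ _).trans ((Finset.sum_le_sum h4).trans h3)
  rw [abs_le] at h5
  have h6 : ∑ p ∈ (Finset.Icc 1 X).filter Nat.Prime, 2 * s * (Real.log ‖1 - z p‖ + (z p + z p ^ 2 / 2).re) =
      (∑ p ∈ (Finset.Icc 1 X).filter Nat.Prime, 2 * s * (z p + z p ^ 2 / 2).re) -
        ∑ p ∈ (Finset.Icc 1 X).filter Nat.Prime, -(2 * s) * Real.log ‖1 - z p‖ := by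
    rw [← Finset.sum_sub_distrib]
    exact Finset.sum_congr rfl fun p _ => by ring
  rw [h6] at h5
  rw [h1, h2]
  rw [← Real.exp_add, ← Real.exp_add]
  constructor
  · apply Real.exp_le_exp.2
    linarith [h5.1]
  · apply Real.exp_le_exp.2
    linarith [h5.2]

/-- the mean value of `|ζ|^(2k) |P_X|^(2z)` over `[T, 2T]` -/
def jm (k z : ℝ) (X : ℕ) (T : ℝ) : ℝ :=
  (1 / T) * ∫ t in T..(2 * T), ‖riemannZeta (1 / 2 + t * I)‖ ^ (2 * k) * ‖euX X (1 / 2 + t * I)‖ ^ (2 * z)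

/-- **joint moments, final form** -/
theorem joint_eu {A : ℝ} (hA : 2 ≤ A) : ∃ c₀ c C : ℝ, 0 < c₀ ∧ 0 < c ∧ 0 < C ∧ ∀ᶠ T : ℝ in atTop, ∀ X : ℕ, 2 ≤ X →
    (X : ℝ) ≤ c₀ * (Real.log T / Real.log (Real.log T)) ^ 2 → ∀ k : ℝ, 0 ≤ k → k ≤ 2 → ∀ z : ℝ, |z| ≤ A →
      c * (Real.log T ^ (k ^ 2) * Real.log X ^ (2 * k * z + z ^ 2)) ≤ jm k z X T ∧
      jm k z X T ≤ C * (Real.log T ^ (k ^ 2) * Real.log X ^ (2 * k * z + z ^ 2)) := by
  obtain ⟨c₀, c, C, hc0, hc, hC, h⟩ := joint hA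
  obtain ⟨K, hK, hE⟩ := euX_PA (A := A) (by linarith)
  obtain ⟨B, hB⟩ : ∃ B : ℝ, B = 4 * A + A ^ 2 := ⟨_, rfl⟩
  obtain ⟨K2, hK2, hP⟩ := exp_PR (B := B) (by rw [hB]; positivity)
  have hK0 : 0 < K := by linarith
  have hK20 : 0 < K2 := by linarith
  refine ⟨c₀, c / K / K2, K * C * K2, hc0, by positivity, by positivity, ?_⟩
  filter_upwards [h, eventually_ge_atTop (16 : ℝ), Real.tendsto_log_atTop.eventually_gt_atTop 0] with T g hT16 hL
  intro X hX hXT k hk0 hk2 z hz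
  have hT0 : 0 < T := by linarith
  obtain ⟨h1, h2⟩ := g X hX hXT k hk0 hk2 z hz
  obtain ⟨y, hy⟩ : ∃ y : ℝ, y = 2 * k * z + z ^ 2 := ⟨_, rfl⟩
  have hyy : (k + z) ^ 2 - k ^ 2 = y := by rw [hy]; ring
  have hyB : |y| ≤ B := by
    rw [hy, hB]
    refine (abs_add_le _ _).trans ?_
    rw [abs_mul, abs_mul, abs_of_nonneg hk0, abs_of_pos (by norm_num : (0 : ℝ) < 2), abs_of_nonneg (sq_nonneg z), ← sq_abs z]
    have h3 := abs_nonneg z
    have h4 : |z| ^ 2 ≤ A ^ 2 := pow_le_pow_left₀ h3 hz 2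
    have h5 : 2 * k * |z| ≤ 4 * A := by nlinarith
    linarith
  obtain ⟨p1, p2⟩ := hP X hX y hyB
  rw [hyy] at h1 h2
  rw [← hy]
  obtain ⟨I0, hI0⟩ : ∃ I0 : ℝ, I0 = ∫ t in T..(2 * T), ‖zt t‖ ^ (2 * k) * ‖cexp (PA X (aS z) (aS z) t)‖ ^ 2 := ⟨_, rfl⟩
  obtain ⟨I1, hI1⟩ : ∃ I1 : ℝ, I1 = ∫ t in T..(2 * T), ‖riemannZeta (1 / 2 + t * I)‖ ^ (2 * k) * ‖euX X (1 / 2 + t * I)‖ ^ (2 * z) := ⟨_, rfl⟩
  rw [← hI0] at h1 h2
  have hjm : jm k z X T = 1 / T * I1 := by rw [hI1]; rfl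
  rw [hjm]
  have hc1 : Continuous fun t : ℝ => ‖zt t‖ ^ (2 * k) := ztw_cont hk0
  have hcG : Continuous fun t => ‖zt t‖ ^ (2 * k) * ‖cexp (PA X (aS z) (aS z) t)‖ ^ 2 := hc1.mul ((PA_cont X _ _).pow 2)
  have hcE : Continuous fun t : ℝ => ‖euX X (1 / 2 + t * I)‖ ^ (2 * z) :=
    (euX_cont X).norm.rpow_const fun t => Or.inl (norm_ne_zero_iff.2 (euX_ne X t))
  have hcH : Continuous fun t : ℝ => ‖riemannZeta (1 / 2 + t * I)‖ ^ (2 * k) * ‖euX X (1 / 2 + t * I)‖ ^ (2 * z) := hc1.mul hcE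
  have hcGK : Continuous fun t : ℝ => K * (‖zt t‖ ^ (2 * k) * ‖cexp (PA X (aS z) (aS z) t)‖ ^ 2) := continuous_const.mul hcG
  have hcHK : Continuous fun t : ℝ => K * (‖riemannZeta (1 / 2 + t * I)‖ ^ (2 * k) * ‖euX X (1 / 2 + t * I)‖ ^ (2 * z)) :=
    continuous_const.mul hcH
  have w1 : I1 ≤ K * I0 := by
    rw [hI1, hI0, ← intervalIntegral.integral_const_mul]
    apply intervalIntegral.integral_mono_on (by linarith) (hcH.intervalIntegrable _ _) (hcGK.intervalIntegrable _ _)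
    intro t _
    have h3 : 0 ≤ ‖zt t‖ ^ (2 * k) := by positivity
    calc ‖riemannZeta (1 / 2 + t * I)‖ ^ (2 * k) * ‖euX X (1 / 2 + t * I)‖ ^ (2 * z)
        ≤ ‖zt t‖ ^ (2 * k) * (K * ‖cexp (PA X (aS z) (aS z) t)‖ ^ 2) := mul_le_mul_of_nonneg_left (hE X z hz t).1 h3
      _ = _ := by ring
  have w2 : I0 ≤ K * I1 := by
    rw [hI1, hI0, ← intervalIntegral.integral_const_mul]
    apply intervalIntegral.integral_mono_on (by linarith) (hcG.intervalIntegrable _ _) (hcHK.intervalIntegrable _ _)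
    intro t _
    have h3 : 0 ≤ ‖zt t‖ ^ (2 * k) := by positivity
    calc ‖zt t‖ ^ (2 * k) * ‖cexp (PA X (aS z) (aS z) t)‖ ^ 2
        ≤ ‖zt t‖ ^ (2 * k) * (K * ‖euX X (1 / 2 + t * I)‖ ^ (2 * z)) := mul_le_mul_of_nonneg_left (hE X z hz t).2 h3
      _ = _ := by
          show ‖riemannZeta (1 / 2 + t * I)‖ ^ (2 * k) * _ = _
          ring
  obtain ⟨L, hLd⟩ : ∃ L : ℝ, L = Real.log T ^ (k ^ 2) := ⟨_, rfl⟩
  rw [← hLd] at h1 h2 ⊢
  have hL0 : 0 ≤ L := by rw [hLd]; positivity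
  constructor
  · rw [one_div_mul_eq_div, le_div_iff₀ hT0]
    have h3 : c * (T * (L * Real.exp (y * PR X))) ≤ K * I1 := h1.trans w2
    have h4 : c * (T * (L * (Real.log X ^ y / K2))) ≤ c * (T * (L * Real.exp (y * PR X))) := by
      apply mul_le_mul_of_nonneg_left _ hc.le
      apply mul_le_mul_of_nonneg_left _ hT0.le
      apply mul_le_mul_of_nonneg_left _ hL0
      rw [div_le_iff₀ hK20]
      linarith
    calc c / K / K2 * (L * Real.log X ^ y) * T = c * (T * (L * (Real.log X ^ y / K2))) / K := by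
          field_simp
      _ ≤ (K * I1) / K := by
          apply div_le_div_of_nonneg_right _ hK0.le
          exact h4.trans h3
      _ = I1 := by field_simp
  · rw [one_div_mul_eq_div, div_le_iff₀ hT0]
    calc I1 ≤ K * I0 := w1
      _ ≤ K * (C * (T * (L * (K2 * Real.log X ^ y)))) := by
          apply mul_le_mul_of_nonneg_left _ hK0.le
          refine h2.trans ?_
          apply mul_le_mul_of_nonneg_left _ hC.le
          apply mul_le_mul_of_nonneg_left _ hT0.le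
          exact mul_le_mul_of_nonneg_left p1 hL0
      _ = _ := by ring

end

end Pool.Agent.H469.F4
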