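import Pool.Agent.H469.F4.SP6

set_option autoImplicit false

/-!
# Lower bounds for the joint moments, all orders
-/

namespace Pool.Agent.H469.F4

open Filter Topology MeasureTheory Complex Pool.Agent.Q97.UM Pool.Agent.Q14.UM
open Pool.Agent.Results.MP_fa2474_nt.OrderForEveryPolynomial (norm_ap_le)

noncomputable section

/-- the ratio for the full polynomial -/
theorem ratio_e {A κ δ θ : ℝ} (hA : 1 ≤ A) (hκ : 1 ≤ κ) (hδ : 0 < δ) (hθ : 0 < θ) : ∃ c₀ c C : ℝ, 0 < c₀ ∧ 0 < c ∧ 0 < C ∧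
    ∀ᶠ T : ℝ in atTop, ∀ X : ℕ, 2 ≤ X → (X : ℝ) ≤ c₀ * (Real.log T / Real.log (Real.log T)) ^ 2 → ∀ s z : ℝ, |s| ≤ A → |z| ≤ A →
      ∃ (N : ℕ) (b : ℕ → ℂ), (N : ℝ) ≤ T ^ θ ∧ (∀ n, b n ≠ 0 → 1 ≤ n ∧ n ≤ N) ∧
        (∀ t, 1 / 2 * ‖cexp (PA X (aS z) (aS z) t)‖ ≤ ‖dp N b t‖ ∧ ‖dp N b t‖ ≤ 2 * ‖cexp (PA X (aS z) (aS z) t)‖) ∧
        c * Real.exp (((s + z) ^ 2 - s ^ 2) * PR X) *
            N2 (M9 (δ * Real.log T) κ) (ebk (δ * Real.log T) κ (aS s) (aS s) 0 (JB (δ * Real.log T))) ≤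
          N2 (M9 (δ * Real.log T) κ * N) (cv (ebk (δ * Real.log T) κ (aS s) (aS s) 0 (JB (δ * Real.log T))) b) ∧
        N2 (M9 (δ * Real.log T) κ * N) (cv (ebk (δ * Real.log T) κ (aS s) (aS s) 0 (JB (δ * Real.log T))) b) ≤
          C * Real.exp (((s + z) ^ 2 - s ^ 2) * PR X) *
            N2 (M9 (δ * Real.log T) κ) (ebk (δ * Real.log T) κ (aS s) (aS s) 0 (JB (δ * Real.log T))) := by
  obtain ⟨c₂, C₂, K₁, κ₀, hc2, hC2, hK1, hr⟩ := ratio_core (A := A) hA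
  obtain ⟨c₀, hc0, -, hlen⟩ := ev_len (A := A) hA hθ
  refine ⟨c₀, c₂, C₂, hc0, hc2, hC2, ?_⟩
  filter_upwards [hlen, ev_small (κ₀ := κ₀) hδ hc2 hK1] with T g2 g3
  intro X hX hXT s z hs hz
  obtain ⟨l1, l2⟩ := g2 X (by omega) hXT
  obtain ⟨m1, m2, m3⟩ := g3
  obtain ⟨Λ₀, hΛ₀⟩ : ∃ Λ₀ : ℝ, Λ₀ = Real.log T ^ (1 / 10 : ℝ) := ⟨_, rfl⟩
  obtain ⟨Λ, hΛ⟩ : ∃ Λ : ℝ, Λ = max 1 (Real.log X) := ⟨_, rfl⟩
  rw [← hΛ₀] at m1 m2 m3 l2
  rw [← hΛ] at l1 l2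
  have hΛ1 : 1 ≤ Λ := by rw [hΛ]; exact le_max_left _ _
  obtain ⟨D', κ', hD1, hD2, hk1, hk2, hid⟩ := shift_id (D := δ * Real.log T) (κ := κ) (Λ := Λ₀) hκ m1 m2 (aS s) (aS s)
  obtain ⟨n1, n2⟩ := m3 κ D' κ' hκ (by linarith) hD2 hk1
  obtain ⟨N, b, hN, hb, hSb, hXe, hbX⟩ := short_poly (A := A) (z := z) hA hz (X := X) (by omega) hΛ1 (by rw [hΛ]; exact le_max_right _ _)
  have hle : ⌊Real.exp Λ⌋₊ ≤ ⌊Real.exp D'⌋₊ := Nat.floor_le_floor (Real.exp_le_exp.2 (l2.trans hD1))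
  have hSb' : SP (fun p => ¬ ⌊Real.exp D'⌋₊ < p) b := fun n hn =>
    ⟨(hSb n hn).1, fun p hp hpn => by
      have h1 : p ≤ ⌊Real.exp Λ⌋₊ := (hSb n hn).2 p hp hpn
      have h2 : p ≤ ⌊Real.exp D'⌋₊ := h1.trans hle
      show ¬ ⌊Real.exp D'⌋₊ < p
      omega⟩
  obtain ⟨r1, r2, r3⟩ := hr D' κ' X (by linarith) hk2 n1 (hXe.trans hle) n2 s z hs hz N b hb hbX
  have hi := hid N b hb hSb'
  refine ⟨N, b, hN.trans l1, hb, hbX, ?_⟩
  obtain ⟨e, he⟩ : ∃ e : ℕ → ℂ, e = ebk (δ * Real.log T) κ (aS s) (aS s) 0 (JB (δ * Real.log T)) := ⟨_, rfl⟩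
  obtain ⟨M, hM⟩ : ∃ M : ℕ, M = M9 (δ * Real.log T) κ := ⟨_, rfl⟩
  rw [← he, ← hM] at hi ⊢
  obtain ⟨G, hG⟩ : ∃ G : ℝ, G = N2 (M9 D' κ') (ebk D' κ' (aS s) (aS s) 0 (JB D')) := ⟨_, rfl⟩
  obtain ⟨Gb, hGb⟩ : ∃ Gb : ℝ, Gb = N2 (M9 D' κ' * N) (cv (ebk D' κ' (aS s) (aS s) 0 (JB D')) b) := ⟨_, rfl⟩
  obtain ⟨E, hE⟩ : ∃ E : ℝ, E = Real.exp (((s + z) ^ 2 - s ^ 2) * PR X) := ⟨_, rfl⟩
  rw [← hG, ← hGb, ← hE] at r1 r2
  rw [← hG] at r3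
  rw [← hG, ← hGb] at hi
  rw [← hE]
  obtain ⟨Ne, hNe⟩ : ∃ Ne : ℝ, Ne = N2 M e := ⟨_, rfl⟩
  obtain ⟨Neb, hNeb⟩ : ∃ Neb : ℝ, Neb = N2 (M * N) (cv e b) := ⟨_, rfl⟩
  rw [← hNe, ← hNeb] at hi ⊢
  have hNe0 : 0 ≤ Ne := by rw [hNe]; exact Pool.Agent.Q86.UM.N2_nonneg _ _
  constructor
  · have : (c₂ * E * Ne) * G ≤ Neb * G := by
      rw [hi]
      calc (c₂ * E * Ne) * G = (c₂ * E * G) * Ne := by ring
        _ ≤ Gb * Ne := mul_le_mul_of_nonneg_right r1 hNe0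
    exact le_of_mul_le_mul_right this r3
  · have : Neb * G ≤ (C₂ * E * Ne) * G := by
      rw [hi]
      calc Gb * Ne ≤ (C₂ * E * G) * Ne := mul_le_mul_of_nonneg_right r2 hNe0
        _ = _ := by ring
    exact le_of_mul_le_mul_right this r3

/-- the lower bound relative to every short polynomial, all orders -/
theorem low_all {A : ℝ} (hA : 1 ≤ A) : ∃ κ δ θ c : ℝ, 4 ≤ κ ∧ 0 < δ ∧ 0 < θ ∧ 0 < c ∧ ∀ᶠ T : ℝ in atTop, ∀ s : ℝ, 0 ≤ s → s ≤ A →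
    c * Real.log T ^ (s ^ 2) ≤ N2 (M9 (δ * Real.log T) κ) (ebk (δ * Real.log T) κ (aS s) (aS s) 0 (JB (δ * Real.log T))) ∧
    ∀ N : ℕ, (N : ℝ) ≤ T ^ θ → ∀ b : ℕ → ℂ, (∀ m, b m ≠ 0 → 1 ≤ m ∧ m ≤ N) →
      c * T * N2 (M9 (δ * Real.log T) κ * N) (cv (ebk (δ * Real.log T) κ (aS s) (aS s) 0 (JB (δ * Real.log T))) b) ≤
        ∫ t in T..(2 * T), ‖zt t‖ ^ (2 * s) * ‖dp N b t‖ ^ 2 := by
  obtain ⟨κ₁, hκ₁, h9⟩ := b_EK9 A (by linarith)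
  obtain ⟨κ₃, hκ₃, cE, CE, hcE, hCE, hE⟩ := b_EN2 A (by linarith)
  obtain ⟨κ, hκd⟩ : ∃ κ : ℝ, κ = max κ₁ κ₃ := ⟨_, rfl⟩
  have hk1 : κ₁ ≤ κ := by rw [hκd]; exact le_max_left _ _
  have hk3 : κ₃ ≤ κ := by rw [hκd]; exact le_max_right _ _
  have hκ4 : 4 ≤ κ := hκ₁.trans hk1
  obtain ⟨δ₂, hδ₂, hL1⟩ := b_LBK A (13 / 10 * κ) (by linarith) (by linarith)
  obtain ⟨δ, hδd⟩ : ∃ δ : ℝ, δ = min δ₂ 1 := ⟨_, rfl⟩
  have hδ0 : 0 < δ := by rw [hδd]; positivity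
  have hδb : δ ≤ δ₂ := by rw [hδd]; exact min_le_left _ _
  obtain ⟨C9, c9, hC9, hc9, h9'⟩ := h9 κ δ hk1 hδ0
  obtain ⟨θL, cL, hθL, hcL, hL2⟩ := hL1 δ hδ0 hδb C9 c9 hC9 hc9
  obtain ⟨K, hK1, hK⟩ := exp_PR (B := A ^ 2) (by positivity)
  have hK0 : 0 < K := by linarith
  have hdd : 0 < (δ / 2) ^ (A ^ 2) := by positivity
  refine ⟨κ, δ, θL, min cL (cE * ((δ / 2) ^ (A ^ 2) / K)), hκ4, hδ0, hθL, by positivity, ?_⟩
  have hlogev : ∀ᶠ T : ℝ in atTop, 2 ≤ δ * Real.log T := by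
    filter_upwards [Real.tendsto_log_atTop.eventually_ge_atTop (2 / δ)] with T hT
    rw [div_le_iff₀ hδ0] at hT
    linarith
  filter_upwards [h9', hL2, hlogev, eventually_ge_atTop (16 : ℝ), Real.tendsto_log_atTop.eventually_gt_atTop 0] with T g9 gL glog hT16 hL
  intro s hs0 hsA
  have hT0 : 0 < T := by linarith
  have hT1 : 1 ≤ T := by linarith
  have hkA : ∑ j : Fin 1, |(fun _ : Fin 1 => s) j| ≤ A := by
    rw [Fin.sum_univ_one, abs_of_nonneg hs0]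
    exact hsA
  have hap : ap (fun _ : Fin 1 => s) (fun _ => 0) = aS s := by
    funext p
    unfold ap aS
    simp
  have hap2 : ap (fun _ : Fin 1 => s) (fun j => 2 * (fun _ : Fin 1 => (0 : ℝ)) j) = aS s := by
    rw [← hap]
    simp
  obtain ⟨J, M₀, q, w, hEK⟩ := g9 (ap (fun _ : Fin 1 => s) (fun _ => 0)) (ap (fun _ : Fin 1 => s) (fun j => 2 * (fun _ : Fin 1 => (0 : ℝ)) j))
    (norm_ap_le hkA _) (norm_ap_le hkA _)
  obtain ⟨hE1, -⟩ := hE κ (δ * Real.log T) (aS s) (aS s) hk3 (by linarith)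
    (fun n => aS_norm (by rw [abs_of_nonneg hs0]; exact hsA) n) (fun n => aS_norm (by rw [abs_of_nonneg hs0]; exact hsA) n)
  rw [hap, hap2] at hEK
  obtain ⟨M, hM⟩ : ∃ M : ℕ, M = M9 (δ * Real.log T) κ := ⟨_, rfl⟩
  obtain ⟨e, he⟩ : ∃ e : ℕ → ℂ, e = ebk (δ * Real.log T) κ (aS s) (aS s) 0 (JB (δ * Real.log T)) := ⟨_, rfl⟩
  rw [← hM, ← he] at hEK hE1 ⊢
  constructor
  · obtain ⟨Y, hY⟩ : ∃ Y : ℕ, Y = ⌊Real.exp (δ * Real.log T)⌋₊ := ⟨_, rfl⟩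
    rw [← hY] at hE1
    have hexp2 : (4 : ℝ) ≤ Real.exp (δ * Real.log T) := by
      have h1 : Real.exp 2 = Real.exp 1 ^ 2 := by
        rw [← Real.exp_nat_mul]
        norm_num
      have h2 := Real.exp_one_gt_d9
      have h3 : (4 : ℝ) ≤ Real.exp 2 := by
        rw [h1]
        nlinarith
      exact h3.trans (Real.exp_le_exp.2 glog)
    have hY2 : 2 ≤ Y := by
      rw [hY]
      apply Nat.le_floor
      push_cast
      linarith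
    have hlogY : δ / 2 * Real.log T ≤ Real.log Y := by
      have h1 : Real.exp (δ * Real.log T) < Y + 1 := by rw [hY]; exact Nat.lt_floor_add_one _
      have h2 : Real.exp (δ * Real.log T) / 2 ≤ Y := by linarith
      have h3 : Real.log (Real.exp (δ * Real.log T) / 2) ≤ Real.log Y := Real.log_le_log (by positivity) h2
      rw [Real.log_div (Real.exp_pos _).ne' (by norm_num), Real.log_exp] at h3
      have h4 : Real.log 2 ≤ 1 := by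
        have := Real.log_two_lt_d9
        linarith
      linarith
    have hsum : ∑ p ∈ (Finset.Icc 1 Y).filter Nat.Prime, ‖aS s p‖ ^ 2 / (p : ℝ) = s ^ 2 * PR Y := by
      unfold PR
      rw [Finset.mul_sum]
      refine Finset.sum_congr rfl fun p _ => ?_
      unfold aS
      rw [Complex.norm_real, Real.norm_eq_abs, sq_abs]
      ring
    rw [hsum] at hE1
    have hs2 : s ^ 2 ≤ A ^ 2 := pow_le_pow_left₀ hs0 hsA 2
    have h5 := (hK Y hY2 (s ^ 2) (by rw [abs_of_nonneg (sq_nonneg s)]; exact hs2)).2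
    have h6 : (δ / 2 * Real.log T) ^ (s ^ 2) ≤ Real.log Y ^ (s ^ 2) := Real.rpow_le_rpow (by positivity) hlogY (sq_nonneg s)
    rw [Real.mul_rpow (by positivity) hL.le] at h6
    have h7 : (δ / 2) ^ (A ^ 2) ≤ (δ / 2) ^ (s ^ 2) := by
      apply Real.rpow_le_rpow_of_exponent_ge (by positivity) _ hs2
      have : δ ≤ 1 := by rw [hδd]; exact min_le_right _ _
      linarith
    have hLs : 0 ≤ Real.log T ^ (s ^ 2) := by positivity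
    calc min cL (cE * ((δ / 2) ^ (A ^ 2) / K)) * Real.log T ^ (s ^ 2) ≤ (cE * ((δ / 2) ^ (A ^ 2) / K)) * Real.log T ^ (s ^ 2) :=
          mul_le_mul_of_nonneg_right (min_le_right _ _) hLs
      _ = cE * (((δ / 2) ^ (A ^ 2) * Real.log T ^ (s ^ 2)) / K) := by ring
      _ ≤ cE * Real.exp (s ^ 2 * PR Y) := by
          apply mul_le_mul_of_nonneg_left _ hcE.le
          rw [div_le_iff₀ hK0]
          have h8 := mul_le_mul_of_nonneg_right h7 hLs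
          linarith
      _ ≤ _ := hE1
  · intro N hN b hb
    have h1 := gL 1 (fun _ : Fin 1 => s) (fun _ => 0) hkA (fun _ => by rw [abs_zero]; linarith) M e J M₀ q w
      (by rw [hap, hap2]; exact hEK) N hN b hb
    have hc0 : Continuous fun t => ‖zt t‖ ^ (2 * s) * ‖dp N b t‖ ^ 2 := (ztw_cont hs0).mul ((dpc' N b).norm.pow 2)
    have hnn : ∀ t, 0 ≤ ‖zt t‖ ^ (2 * s) * ‖dp N b t‖ ^ 2 := fun t => by positivity
    have h2 : ∫⁻ t in Set.Icc T (2 * T), ENNReal.ofReal ((∏ j : Fin 1, ‖zt (t + (fun _ : Fin 1 => (0 : ℝ)) j)‖ ^ (2 * (fun _ : Fin 1 => s) j)) * ‖dp N b t‖ ^ 2) =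
        ENNReal.ofReal (∫ t in T..(2 * T), ‖zt t‖ ^ (2 * s) * ‖dp N b t‖ ^ 2) := by
      rw [intervalIntegral.integral_of_le (by linarith), ← integral_Icc_eq_integral_Ioc,
        ofReal_integral_eq_lintegral_ofReal]
      · congr 1
        funext t
        rw [Fin.prod_univ_one, add_zero]
      · exact hc0.continuousOn.integrableOn_Icc
      · exact Eventually.of_forall hnn
    rw [h2] at h1
    have h3 : 0 ≤ ∫ t in T..(2 * T), ‖zt t‖ ^ (2 * s) * ‖dp N b t‖ ^ 2 :=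
      intervalIntegral.integral_nonneg (by linarith) fun t _ => hnn t
    have h4 := (ENNReal.ofReal_le_ofReal_iff h3).1 h1
    refine le_trans ?_ h4
    have := Pool.Agent.Q86.UM.N2_nonneg (M * N) (cv e b)
    apply mul_le_mul_of_nonneg_right _ this
    exact mul_le_mul_of_nonneg_right (min_le_left _ _) hT0.le

/-- **lower bounds for the joint moments, all orders** -/
theorem joint_low {A : ℝ} (hA : 1 ≤ A) : ∃ c₀ c : ℝ, 0 < c₀ ∧ 0 < c ∧ ∀ᶠ T : ℝ in atTop, ∀ X : ℕ, 2 ≤ X →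
    (X : ℝ) ≤ c₀ * (Real.log T / Real.log (Real.log T)) ^ 2 → ∀ k : ℝ, 0 ≤ k → k ≤ A → ∀ z : ℝ, |z| ≤ A →
      c * (Real.log T ^ (k ^ 2) * Real.log X ^ (2 * k * z + z ^ 2)) ≤ jm k z X T := by
  obtain ⟨κ, δ, θ, c₁, hκ, hδ, hθ, hc₁, h1⟩ := low_all hA
  obtain ⟨c₀, c₂, C₂, hc0, hc2, -, h2⟩ := ratio_e (A := A) (κ := κ) hA (by linarith) hδ hθ
  obtain ⟨K, hK, hE⟩ := euX_PA (A := A) (by linarith)
  obtain ⟨B, hB⟩ : ∃ B : ℝ, B = 2 * A * A + A ^ 2 := ⟨_, rfl⟩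
  obtain ⟨K2, hK2, hP⟩ := exp_PR (B := B) (by rw [hB]; positivity)
  have hK0 : 0 < K := by linarith
  have hK20 : 0 < K2 := by linarith
  refine ⟨c₀, c₁ * c₂ * c₁ / (4 * K * K2), hc0, by positivity, ?_⟩
  filter_upwards [h1, h2, eventually_ge_atTop (16 : ℝ), Real.tendsto_log_atTop.eventually_gt_atTop 0] with T g1 g2 hT16 hL
  intro X hX hXT k hk0 hkA z hz
  have hT0 : 0 < T := by linarith
  obtain ⟨N, b, hN, hb, hbX, r1, -⟩ := g2 X hX hXT k z (by rw [abs_of_nonneg hk0]; exact hkA) hz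
  obtain ⟨f1, f2⟩ := g1 k hk0 hkA
  have f3 := f2 N hN b hb
  obtain ⟨y, hy⟩ : ∃ y : ℝ, y = 2 * k * z + z ^ 2 := ⟨_, rfl⟩
  have hyy : (k + z) ^ 2 - k ^ 2 = y := by rw [hy]; ring
  have hyB : |y| ≤ B := by
    rw [hy, hB]
    refine (abs_add_le _ _).trans ?_
    rw [abs_mul, abs_mul, abs_of_nonneg hk0, abs_of_pos (by norm_num : (0 : ℝ) < 2), abs_of_nonneg (sq_nonneg z), ← sq_abs z]
    have h3 := abs_nonneg z
    have h4 : |z| ^ 2 ≤ A ^ 2 := pow_le_pow_left₀ h3 hz 2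
    have h5 : 2 * k * |z| ≤ 2 * A * A := mul_le_mul (by linarith) hz h3 (by linarith)
    linarith
  obtain ⟨-, p2⟩ := hP X hX y hyB
  rw [hyy] at r1
  rw [← hy]
  obtain ⟨I1, hI1⟩ : ∃ I1 : ℝ, I1 = ∫ t in T..(2 * T), ‖riemannZeta (1 / 2 + t * I)‖ ^ (2 * k) * ‖euX X (1 / 2 + t * I)‖ ^ (2 * z) := ⟨_, rfl⟩
  have hjm : jm k z X T = 1 / T * I1 := by rw [hI1]; rfl
  rw [hjm]
  have hc1 : Continuous fun t : ℝ => ‖zt t‖ ^ (2 * k) := ztw_cont hk0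
  have hcF : Continuous fun t => ‖zt t‖ ^ (2 * k) * ‖dp N b t‖ ^ 2 := hc1.mul ((dpc' N b).norm.pow 2)
  have hcE : Continuous fun t : ℝ => ‖euX X (1 / 2 + t * I)‖ ^ (2 * z) :=
    (euX_cont X).norm.rpow_const fun t => Or.inl (norm_ne_zero_iff.2 (euX_ne X t))
  have hcH : Continuous fun t : ℝ => 4 * K * (‖riemannZeta (1 / 2 + t * I)‖ ^ (2 * k) * ‖euX X (1 / 2 + t * I)‖ ^ (2 * z)) :=
    continuous_const.mul (hc1.mul hcE)
  have w1 : ∫ t in T..(2 * T), ‖zt t‖ ^ (2 * k) * ‖dp N b t‖ ^ 2 ≤ 4 * K * I1 := by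
    rw [hI1, ← intervalIntegral.integral_const_mul]
    apply intervalIntegral.integral_mono_on (by linarith) (hcF.intervalIntegrable _ _) (hcH.intervalIntegrable _ _)
    intro t _
    have h3 : 0 ≤ ‖zt t‖ ^ (2 * k) := by positivity
    have h4 : ‖dp N b t‖ ^ 2 ≤ (2 * ‖cexp (PA X (aS z) (aS z) t)‖) ^ 2 := pow_le_pow_left₀ (norm_nonneg _) (hbX t).2 2
    have h5 := (hE X z hz t).2
    calc ‖zt t‖ ^ (2 * k) * ‖dp N b t‖ ^ 2 ≤ ‖zt t‖ ^ (2 * k) * (4 * (K * ‖euX X (1 / 2 + t * I)‖ ^ (2 * z))) := by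
          apply mul_le_mul_of_nonneg_left _ h3
          refine h4.trans ?_
          rw [mul_pow]
          linarith
      _ = _ := by
          show _ = 4 * K * (‖zt t‖ ^ (2 * k) * ‖euX X (1 / 2 + t * I)‖ ^ (2 * z))
          ring
  obtain ⟨L, hLd⟩ : ∃ L : ℝ, L = Real.log T ^ (k ^ 2) := ⟨_, rfl⟩
  rw [← hLd] at f1 ⊢
  have hL0 : 0 ≤ L := by rw [hLd]; positivity
  have hXY : 0 ≤ Real.log X ^ y := by
    have : (0 : ℝ) ≤ Real.log X := Real.log_natCast_nonneg X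
    positivity
  rw [one_div_mul_eq_div, le_div_iff₀ hT0]
  have q1 : c₁ * T * (c₂ * (Real.log X ^ y / K2) * (c₁ * L)) ≤ 4 * K * I1 := by
    refine le_trans ?_ w1
    refine le_trans ?_ f3
    apply mul_le_mul_of_nonneg_left _ (by positivity)
    refine le_trans ?_ r1
    apply mul_le_mul _ f1 (by positivity) (by positivity)
    apply mul_le_mul_of_nonneg_left _ hc2.le
    rw [div_le_iff₀ hK20]
    linarith
  calc c₁ * c₂ * c₁ / (4 * K * K2) * (L * Real.log X ^ y) * T = (c₁ * T * (c₂ * (Real.log X ^ y / K2) * (c₁ * L))) / (4 * K) := by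
        field_simp
    _ ≤ (4 * K * I1) / (4 * K) := div_le_div_of_nonneg_right q1 (by positivity)
    _ = I1 := by field_simp

end

end Pool.Agent.H469.F4
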