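import Pool.Agent.H469.F4.JLA

set_option autoImplicit false

/-!
# The blocks which are not good, with a perturbation; coefficients of modulus at most `A`
-/

namespace Pool.Agent.H469.F4

open Filter Topology MeasureTheory Complex Pool.Agent.Q97.UM
open Pool.Agent.Q176.UM (amgm3 s7_ge s7_le N2_nn)

noncomputable section

theorem R9_ge6 {κ : ℝ} (hκ : 4 ≤ κ) (j : ℕ) : κ * Real.exp (6 / 10 * (j : ℝ)) ≤ R9 κ j := by
  refine le_trans ?_ (Pool.Agent.Q176.UM.R9_ge κ j)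
  apply mul_le_mul_of_nonneg_left _ (by linarith)
  apply Real.exp_le_exp.2
  have : (0 : ℝ) ≤ j := Nat.cast_nonneg j
  linarith

/-- relative moments of the normalised block -/
theorem blkA {C₂ : ℝ} (hC₂ : 1 ≤ C₂)
    (hPMT : ∀ (A D : ℝ), 1 ≤ A → 1 ≤ D → ∀ a a2 : ℕ → ℂ, (∀ n, ‖a n‖ ≤ A) → (∀ n, ‖a2 n‖ ≤ A) →
      ∀ (M : ℕ) (c : ℕ → ℂ), 1 ≤ M → (∀ n, c n ≠ 0 → 1 ≤ n ∧ n ≤ M) → ∀ j r : ℕ,
        MB (fun t => ‖dp M c t‖ ^ 2 * ‖zf D a a2 j t‖ ^ (2 * r))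
          ((C₂ * A ^ 2 * (Real.exp j * Real.log M / D + r + 1)) ^ r * (2 * N2 M c)))
    {A κ : ℝ} (hA : 1 ≤ A) (hκ : 11600 * (C₂ * A ^ 2) * Real.exp 1 ≤ κ) (hκ4 : 4 ≤ κ) {D : ℝ} (hD : 1 ≤ D)
    {a a2 : ℕ → ℂ} (ha : ∀ n, ‖a n‖ ≤ A) (ha2 : ∀ n, ‖a2 n‖ ≤ A) {M : ℕ} {c : ℕ → ℂ} (hM : 1 ≤ M)
    (hMD : Real.log M ≤ (26 * κ + 5) * D) (hc : ∀ n, c n ≠ 0 → 1 ≤ n ∧ n ≤ M) {j r : ℕ}
    (hr : r ≤ 3 * s7 j) {R : ℝ} (hR : κ * Real.exp (6 / 10 * (j : ℝ)) ≤ R) :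
    MB (fun t => ‖dp M c t‖ ^ 2 * (20 * ‖zf D a a2 j t‖ / R) ^ (2 * r))
      (Real.exp (-1) ^ r * (2 * N2 M c)) := by
  have h := hPMT A D hA hD a a2 ha ha2 M c hM hc j r
  have hN := N2_nn M c
  have hx0 : 0 ≤ Real.log M / D := div_nonneg (Real.log_nonneg (by exact_mod_cast hM)) (by linarith)
  have hx : Real.log M / D ≤ 26 * κ + 5 := by
    rw [div_le_iff₀ (by linarith)]
    exact hMD
  have he : 1 ≤ Real.exp (j : ℝ) := Real.one_le_exp (Nat.cast_nonneg j)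
  have hr' : (r : ℝ) ≤ 6 * Real.exp (j : ℝ) := by
    have h1 : (r : ℝ) ≤ 3 * s7 j := by exact_mod_cast hr
    have h2 := s7_le j
    linarith
  have h1 : Real.exp j * (Real.log M / D) + r + 1 ≤ 29 * κ * Real.exp (j : ℝ) := by
    have h2 : Real.exp j * (Real.log M / D) ≤ Real.exp j * (26 * κ + 5) := by gcongr
    nlinarith
  have hκ0 : 0 < κ := by linarith
  have hR0 : 0 < κ * Real.exp (6 / 10 * (j : ℝ)) := by positivity
  have hRpos : 0 < R := hR0.trans_le hR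
  have hR2 : κ ^ 2 * Real.exp (j : ℝ) ≤ R ^ 2 := by
    have h2 := pow_le_pow_left₀ hR0.le hR 2
    rw [mul_pow, ← Real.exp_nat_mul] at h2
    refine le_trans ?_ h2
    apply mul_le_mul_of_nonneg_left _ (by positivity)
    apply Real.exp_le_exp.2
    have : (0 : ℝ) ≤ j := Nat.cast_nonneg j
    push_cast
    linarith
  have hCA : 0 < C₂ * A ^ 2 := by positivity
  have hratio : 400 * (C₂ * A ^ 2 * (Real.exp j * (Real.log M / D) + r + 1)) / R ^ 2 ≤ Real.exp (-1) := by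
    rw [div_le_iff₀ (by positivity)]
    have h4 : 11600 * (C₂ * A ^ 2) ≤ κ * Real.exp (-1) := by
      have h5 : 11600 * (C₂ * A ^ 2) * Real.exp 1 * Real.exp (-1) ≤ κ * Real.exp (-1) := by gcongr
      have h6 : 11600 * (C₂ * A ^ 2) * Real.exp 1 * Real.exp (-1) = 11600 * (C₂ * A ^ 2) := by
        rw [mul_assoc, ← Real.exp_add]
        simp
      rwa [h6] at h5
    calc 400 * (C₂ * A ^ 2 * (Real.exp j * (Real.log M / D) + r + 1)) ≤
        400 * (C₂ * A ^ 2 * (29 * κ * Real.exp (j : ℝ))) := by gcongr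
      _ = κ * (11600 * (C₂ * A ^ 2)) * Real.exp (j : ℝ) := by ring
      _ ≤ κ * (κ * Real.exp (-1)) * Real.exp (j : ℝ) := by gcongr
      _ = Real.exp (-1) * (κ ^ 2 * Real.exp (j : ℝ)) := by ring
      _ ≤ Real.exp (-1) * R ^ 2 := by gcongr
  have h3 := Pool.Agent.Q176.UM.MB.cmul (c := (400 / R ^ 2) ^ r) (by positivity) h
  have h4 := Pool.Agent.Q176.UM.MB.congr (G := fun t => ‖dp M c t‖ ^ 2 * (20 * ‖zf D a a2 j t‖ / R) ^ (2 * r))
    (fun t => by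
      have e1 : (20 * ‖zf D a a2 j t‖ / R) ^ 2 =
          400 / R ^ 2 * ‖zf D a a2 j t‖ ^ 2 := by ring
      rw [pow_mul, pow_mul, e1, mul_pow]
      ring) h3
  refine Pool.Agent.Q176.UM.MB.le ?_ h4
  have e : (400 / R ^ 2) ^ r * ((C₂ * A ^ 2 * (Real.exp j * Real.log M / D + r + 1)) ^ r *
      (2 * N2 M c)) = (400 * (C₂ * A ^ 2 * (Real.exp j * (Real.log M / D) + r + 1)) /
        R ^ 2) ^ r * (2 * N2 M c) := by
    rw [← mul_assoc, ← mul_pow]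
    congr 2
    ring
  rw [e]
  have h0 : 0 ≤ 400 * (C₂ * A ^ 2 * (Real.exp j * (Real.log M / D) + r + 1)) / R ^ 2 := by positivity
  gcongr

/-- the last inequality -/
theorem fin_leA {K : ℝ} (hK : 0 ≤ K) (j : ℕ) :
    Real.exp (K * Real.exp ((j : ℝ) / 2)) * Real.exp (-(s7 j : ℝ)) ≤
      Real.exp ((K + 4) ^ 4) * Real.exp (-(2 * (j : ℝ))) := by
  have hj : (0 : ℝ) ≤ j := Nat.cast_nonneg j
  rw [← Real.exp_add, ← Real.exp_add, Real.exp_le_exp]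
  obtain ⟨u, hu⟩ : ∃ u : ℝ, u = Real.exp ((j : ℝ) / 10) := ⟨_, rfl⟩
  have hu1 : 1 ≤ u := by rw [hu]; exact Real.one_le_exp (by positivity)
  have e5 : Real.exp ((j : ℝ) / 2) = u ^ 5 := by
    rw [hu, ← Real.exp_nat_mul]
    congr 1
    push_cast
    ring
  have e7 : Real.exp (7 / 10 * (j : ℝ)) = u ^ 7 := by
    rw [hu, ← Real.exp_nat_mul]
    congr 1
    push_cast
    ring
  have hs := s7_ge j
  rw [e7] at hs
  have h2 : 2 * (j : ℝ) ≤ 4 * u ^ 5 := by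
    have := Real.add_one_le_exp ((j : ℝ) / 2)
    rw [e5] at this
    linarith
  rw [e5]
  have h3 : (K + 4) * u ^ 5 - u ^ 7 ≤ (K + 4) ^ 4 := by
    have h5 : 0 < u ^ 5 := by positivity
    rcases le_total (K + 4) (u ^ 2) with h | h
    · have h4 : (K + 4) * u ^ 5 ≤ u ^ 2 * u ^ 5 := by gcongr
      have h6 : u ^ 2 * u ^ 5 = u ^ 7 := by ring
      have h7 : 0 ≤ (K + 4) ^ 4 := by positivity
      linarith
    · have h4 : u ^ 5 ≤ u ^ 6 := pow_le_pow_right₀ hu1 (by norm_num)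
      have h6 : u ^ 6 ≤ (K + 4) ^ 3 := by
        calc u ^ 6 = (u ^ 2) ^ 3 := by ring
          _ ≤ (K + 4) ^ 3 := by gcongr
      have h7 : (K + 4) * u ^ 5 ≤ (K + 4) * (K + 4) ^ 3 := by
        gcongr
        exact h4.trans h6
      have h8 : 0 ≤ u ^ 7 := by positivity
      have h9 : (K + 4) * (K + 4) ^ 3 = (K + 4) ^ 4 := by ring
      linarith
  linarith

/-- Hölder's inequality with three factors for mean values -/
theorem MB_holder3 {H X Y Z : ℝ → ℝ} (hH : Continuous H) (hX : Continuous X) (hY : Continuous Y)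
    (hZ : Continuous Z) (H0 : ∀ t, 0 ≤ H t) (X0 : ∀ t, 0 ≤ X t) (Y0 : ∀ t, 0 ≤ Y t) (Z0 : ∀ t, 0 ≤ Z t)
    {p₁ p₂ p₃ K : ℝ} (h₁ : 0 < p₁) (h₂ : 0 < p₂) (h₃ : 0 < p₃)
    (m₁ : MB (fun t => H t * X t ^ 3) (p₁ ^ 3 * K)) (m₂ : MB (fun t => H t * Y t ^ 3) (p₂ ^ 3 * K))
    (m₃ : MB (fun t => H t * Z t ^ 3) (p₃ ^ 3 * K)) :
    MB (fun t => H t * X t * Y t * Z t) (3 * (p₁ * p₂ * p₃) * K) := by
  have c1 : Continuous fun t => (p₁ ^ 3)⁻¹ * (H t * X t ^ 3) := continuous_const.mul (hH.mul (hX.pow 3))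
  have c2 : Continuous fun t => (p₂ ^ 3)⁻¹ * (H t * Y t ^ 3) := continuous_const.mul (hH.mul (hY.pow 3))
  have c3 : Continuous fun t => (p₃ ^ 3)⁻¹ * (H t * Z t ^ 3) := continuous_const.mul (hH.mul (hZ.pow 3))
  have y1 := Pool.Agent.Q176.UM.MB.cmul (c := (p₁ ^ 3)⁻¹) (by positivity) m₁
  have y2 := Pool.Agent.Q176.UM.MB.cmul (c := (p₂ ^ 3)⁻¹) (by positivity) m₂
  have y3 := Pool.Agent.Q176.UM.MB.cmul (c := (p₃ ^ 3)⁻¹) (by positivity) m₃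
  have y4 := Pool.Agent.Q176.UM.MB.add (c1.add c2) c3 (Pool.Agent.Q176.UM.MB.add c1 c2 y1 y2) y3
  have y5 := Pool.Agent.Q176.UM.MB.cmul (c := p₁ * p₂ * p₃) (by positivity) y4
  refine Pool.Agent.Q176.UM.MB.le (le_of_eq ?_) (Pool.Agent.Q176.UM.MB.mono
    (((hH.mul hX).mul hY).mul hZ) (continuous_const.mul ((c1.add c2).add c3)) (fun t => ?_) y5)
  · field_simp
    ring
  · have h := amgm3 (x := p₁⁻¹ * X t) (y := p₂⁻¹ * Y t) (z := p₃⁻¹ * Z t)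
      (mul_nonneg (by positivity) (X0 t)) (mul_nonneg (by positivity) (Y0 t))
      (mul_nonneg (by positivity) (Z0 t))
    have h' := mul_le_mul_of_nonneg_left h (show 0 ≤ (p₁ * p₂ * p₃) * H t from
      mul_nonneg (by positivity) (H0 t))
    refine le_trans (le_of_eq ?_) (h'.trans (le_of_eq ?_))
    · field_simp
    · simp only [Pi.mul_apply, Pi.add_apply]
      rw [mul_pow, mul_pow, mul_pow, inv_pow, inv_pow, inv_pow]
      ring

/-- the perturbation coefficients, normalised in block `l` -/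
def dh (D ω : ℝ) (d : ℕ → ℂ) (l : ℕ) (n : ℕ) : ℂ :=
  if n ∈ PB D l then ((Real.exp l / ω : ℝ) : ℂ) * d n else 0

theorem zf_dh (D ω : ℝ) (d d2 : ℕ → ℂ) (l : ℕ) (t : ℝ) :
    zf D (dh D ω d l) (dh D ω d2 l) l t = ((Real.exp l / ω : ℝ) : ℂ) * zf D d d2 l t := by
  unfold zf dp
  rw [Finset.mul_sum]
  refine Finset.sum_congr rfl fun n _ => ?_
  rw [← mul_assoc]
  congr 1
  unfold qb dh
  by_cases h1 : n ∈ PB D l <;> by_cases h2 : Nat.sqrt n ∈ PB D l ∧ n = Nat.sqrt n ^ 2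
  · rw [if_pos h1, if_pos h1, if_pos h2, if_pos h2, if_pos h2.1, if_pos h1]
    ring
  · rw [if_pos h1, if_pos h1, if_neg h2, if_neg h2, if_pos h1]
    ring
  · rw [if_neg h1, if_pos h2, if_pos h2, if_neg h1, if_pos h2.1]
    ring
  · rw [if_neg h1, if_neg h2, if_neg h1, if_neg h2]
    ring

/-- a perturbation of size `ω e^{-l}` in block `l` -/
structure Pert (A D ω : ℝ) (d : ℕ → ℂ) : Prop where
  b : ∀ n, ‖d n‖ ≤ A
  s : ∀ l, ∀ p ∈ PB D l, ‖d p‖ ≤ A * ω * Real.exp (-(l : ℝ))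

theorem dh_bd {A D ω : ℝ} (hA : 0 ≤ A) (hω : 1 ≤ ω) {d : ℕ → ℂ} (hd : Pert A D ω d) (l n : ℕ) :
    ‖dh D ω d l n‖ ≤ A := by
  unfold dh
  split_ifs with h
  · rw [norm_mul, Complex.norm_real, Real.norm_of_nonneg (by positivity)]
    calc Real.exp l / ω * ‖d n‖ ≤ Real.exp l / ω * (A * ω * Real.exp (-(l : ℝ))) :=
          mul_le_mul_of_nonneg_left (hd.s l n h) (by positivity)
      _ = A * (Real.exp l * Real.exp (-(l : ℝ))) := by field_simp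
      _ = A := by rw [← Real.exp_add, add_neg_cancel, Real.exp_zero, mul_one]
  · simpa using hA

/-- the sum of the sizes of the blocks `< n` -/
def SZ (D : ℝ) {m : ℕ} (a a2 : Fin m → ℕ → ℂ) (d d2 : ℕ → ℂ) (n : ℕ) (t : ℝ) : ℝ :=
  ∑ l ∈ Finset.range n, ((∑ i, ‖zf D (a i) (a2 i) l t‖) + ‖zf D d d2 l t‖)

theorem SZ_cont (D : ℝ) {m : ℕ} (a a2 : Fin m → ℕ → ℂ) (d d2 : ℕ → ℂ) (n : ℕ) : Continuous (SZ D a a2 d d2 n) := by
  unfold SZ
  exact continuous_finsetSum _ fun l _ => (continuous_finsetSum _ fun i _ =>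
    (Pool.Agent.Q86.UM.zf_cont _ _ _ _).norm).add (Pool.Agent.Q86.UM.zf_cont _ _ _ _).norm

theorem SZ_nonneg (D : ℝ) {m : ℕ} (a a2 : Fin m → ℕ → ℂ) (d d2 : ℕ → ℂ) (n : ℕ) (t : ℝ) : 0 ≤ SZ D a a2 d d2 n t := by
  unfold SZ
  positivity

/-- exponential moments of the blocks `≤ j` including the perturbation -/
theorem xmA (hXM : S_XM) (K₀ c₀ A : ℝ) (m : ℕ) (hK : 1 ≤ K₀) (hc₀ : 0 ≤ c₀) (hA : 1 ≤ A) : ∃ C : ℝ, 1 ≤ C ∧ ∀ D : ℝ, 1 ≤ D →
    ∀ (a a2 : Fin m → ℕ → ℂ) (d d2 : ℕ → ℂ), (∀ i n, ‖a i n‖ ≤ A) → (∀ i n, ‖a2 i n‖ ≤ A) → (∀ n, ‖d n‖ ≤ A) →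
    (∀ n, ‖d2 n‖ ≤ A) → ∀ (M : ℕ) (c : ℕ → ℂ), 1 ≤ M → Real.log M ≤ K₀ * D → (∀ n, c n ≠ 0 → 1 ≤ n ∧ n ≤ M) →
    ∀ j : ℕ, MB (fun t => ‖dp M c t‖ ^ 2 * Real.exp (c₀ * SZ D a a2 d d2 (j + 1) t))
      (Real.exp (C * Real.exp ((j : ℝ) / 2)) * N2 M c) := by
  obtain ⟨C, hC, h⟩ := hXM K₀ c₀ A (m + 1) hK hc₀ hA
  refine ⟨C, hC, fun D hD a a2 d d2 ha ha2 hd hd2 M c hM hMD hc j => ?_⟩
  have h1 := h D hD (Fin.cons d a) (Fin.cons d2 a2) (fun i n => by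
    refine Fin.cases ?_ (fun i => ?_) i
    · simpa using hd n
    · simpa using ha i n) (fun i n => by
    refine Fin.cases ?_ (fun i => ?_) i
    · simpa using hd2 n
    · simpa using ha2 i n) M c hM hMD hc j
  refine Pool.Agent.Q176.UM.MB.congr (fun t => ?_) h1
  congr 3
  rw [Fin.sum_univ_succ]
  simp only [Fin.cons_zero, Fin.cons_succ]
  unfold SZ
  rw [Finset.sum_add_distrib, Finset.sum_comm, add_comm]

/-- the penalty of block `j` for the perturbation -/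
def yh (D ω κ : ℝ) (d d2 : ℕ → ℂ) (j : ℕ) (t : ℝ) : ℝ :=
  20 * (Real.exp j / ω * ‖zf D d d2 j t‖) / (κ * Real.exp (6 / 10 * (j : ℝ)))

theorem yh_cont (D ω κ : ℝ) (d d2 : ℕ → ℂ) (j : ℕ) : Continuous (yh D ω κ d d2 j) := by
  unfold yh
  have := Pool.Agent.Q86.UM.zf_cont D d d2 j
  fun_prop

/-- the blocks which are not good -/
def S_STRA : Prop := ∀ A : ℝ, 1 ≤ A → ∀ m : ℕ, ∃ κ₀ : ℝ, 4 ≤ κ₀ ∧ ∀ κ : ℝ, κ₀ ≤ κ → ∃ C : ℝ, 1 ≤ C ∧ ∀ D : ℝ, 1 ≤ D →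
  ∀ (k : Fin m → ℝ) (a a2 : Fin m → ℕ → ℂ), FamA A k a a2 → ∀ ω : ℝ, 1 ≤ ω → ∀ d d2 : ℕ → ℂ, Pert A D ω d → Pert A D ω d2 →
  ∀ (N : ℕ) (b : ℕ → ℂ), 1 ≤ N → Real.log N ≤ D → (∀ n, b n ≠ 0 → 1 ≤ n ∧ n ≤ N) → ∀ W : ℝ,
    MB (fun t => ‖Ef D κ (lc k a) (lc k a2) 0 t * dp N b t‖ ^ 2) W → ∀ j : ℕ,
      MB (fun t => ‖Ef D κ (lc k a) (lc k a2) (j + 1) t * dp N b t‖ ^ 2 * Real.exp (6 * SZ D a a2 d d2 (j + 1) t))
        (C * Real.exp (C * Real.exp ((j : ℝ) / 2)) * W) ∧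
      (∀ (i' : Fin m) (q' : ℕ),
        MB (fun t => ‖Ef D κ (lc k a) (lc k a2) (j + 1) t * dp N b t‖ ^ 2 * Real.exp (6 * SZ D a a2 d d2 (j + 1) t) *
          (20 * ‖zf D (a i') (a2 i') q' t‖ / R9 κ q') ^ (2 * s7 q'))
          (C * Real.exp (C * Real.exp ((j : ℝ) / 2)) * Real.exp (-(s7 q' : ℝ)) * W) ∧
        MB (fun t => ‖Ef D κ (lc k a) (lc k a2) (j + 1) t * dp N b t‖ ^ 2 * Real.exp (6 * SZ D a a2 d d2 (j + 1) t) *
          (1 + (20 * ‖zf D (a i') (a2 i') q' t‖ / R9 κ q') ^ (2 * s7 q')) *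
          ((∑ i, (20 * ‖zf D (a i) (a2 i) j t‖ / R9 κ j) ^ (2 * s7 j)) + yh D ω κ d d2 j t ^ (2 * s7 j)))
          (C * Real.exp (-(2 * (j : ℝ))) * W))

theorem t_STRA (hCOF : S_COF) (hPMT : S_PMT) (hXM : S_XM) (hJL : S_JLA) (hMVL : S_MVL) : S_STRA := by
  intro A hA m
  obtain ⟨C₂, hC₂, hPMT⟩ := hPMT
  obtain ⟨κJ, hκJ4, hJL⟩ := hJL A hA m
  refine ⟨max κJ (11600 * (C₂ * A ^ 2) * Real.exp 1), hκJ4.trans (le_max_left _ _), fun κ hκ => ?_⟩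
  have hκJ : κJ ≤ κ := (le_max_left _ _).trans hκ
  have hκ4 : 4 ≤ κ := hκJ4.trans hκJ
  have hκe : 11600 * (C₂ * A ^ 2) * Real.exp 1 ≤ κ := (le_max_right _ _).trans hκ
  obtain ⟨CJ, hCJ, hJL⟩ := hJL κ hκJ
  obtain ⟨C₁, hC₁, hXM⟩ := xmA hXM (26 * κ + 5) 18 A m (by linarith) (by norm_num) hA
  obtain ⟨K, hK⟩ : ∃ K : ℝ, K = C₁ / 3 + CJ := ⟨_, rfl⟩
  have hK0 : 0 ≤ K := by rw [hK]; positivity
  have hm0 : (0 : ℝ) ≤ m := Nat.cast_nonneg m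
  refine ⟨12 * (1 + 2 * (m + 1) * Real.exp ((K + 4) ^ 4)) + K, by
    have : 0 ≤ 2 * ((m : ℝ) + 1) * Real.exp ((K + 4) ^ 4) := by positivity
    linarith, ?_⟩
  obtain ⟨CC, hCC⟩ : ∃ CC : ℝ, CC = 12 * (1 + 2 * (m + 1) * Real.exp ((K + 4) ^ 4)) + K := ⟨_, rfl⟩
  rw [← hCC]
  have hCC12 : 12 ≤ CC := by
    have : 0 ≤ 2 * ((m : ℝ) + 1) * Real.exp ((K + 4) ^ 4) := by positivity
    rw [hCC]; linarith
  have hCCK : K ≤ CC := by
    have : 0 ≤ 2 * ((m : ℝ) + 1) * Real.exp ((K + 4) ^ 4) := by positivity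
    rw [hCC]; linarith
  have hCC24 : 12 * (2 * (m + 1) * Real.exp ((K + 4) ^ 4)) ≤ CC := by
    rw [hCC]; linarith
  intro D hD k a a2 hF ω hω d d2 hd hd2 N b hN1 hND hb W hW j
  have hω0 : 0 < ω := by linarith
  have hκ0 : 0 < κ := by linarith
  -- the polynomial `h`
  obtain ⟨M, c, hM1, hMD, hc, hdp⟩ := (hCOF κ D (by linarith) hD (lc k a) (lc k a2) (lc k a) (lc k a2)
    (j + 1) 0).2.2 N b hN1 hND hb
  have hdp' : ∀ t, dp M c t = Ef D κ (lc k a) (lc k a2) (j + 1) t * dp N b t := by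
    intro t
    rw [hdp t]
    simp [pw]
  have hc' : ∀ n, c n ≠ 0 → 1 ≤ n ∧ n ≤ M := fun n hn => ⟨(hc n hn).1, (hc n hn).2.1⟩
  have hMD' : Real.log M ≤ (26 * κ + 5) * D := by linarith
  have hJ := hJL D hD k a a2 hF N b hN1 hND hb W hW j
  have hJ' := Pool.Agent.Q176.UM.MB.congr (G := fun t => ‖dp M c t‖ ^ 2) (fun t => by rw [hdp' t]) hJ
  have hN2 := Pool.Agent.Q176.UM.N2_le hMVL hJ'
  have hW0 : 0 ≤ W := Pool.Agent.Q176.UM.MB.nonneg (fun t => by positivity) hW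
  have hNn := N2_nn M c
  obtain ⟨p₁, hp₁⟩ : ∃ p : ℝ, p = Real.exp (C₁ * Real.exp ((j : ℝ) / 2) / 3) := ⟨_, rfl⟩
  have hp₁0 : 0 < p₁ := by rw [hp₁]; positivity
  have hp₁3 : p₁ ^ 3 = Real.exp (C₁ * Real.exp ((j : ℝ) / 2)) := by
    rw [hp₁, ← Real.exp_nat_mul]
    congr 1
    push_cast
    ring
  have hpJ : p₁ * Real.exp (CJ * Real.exp ((j : ℝ) / 2)) = Real.exp (K * Real.exp ((j : ℝ) / 2)) := by
    rw [hp₁, ← Real.exp_add, hK]
    congr 1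
    ring
  have hzc : ∀ (x x2 : ℕ → ℂ) (l : ℕ), Continuous (zf D x x2 l) := fun x x2 l => Pool.Agent.Q86.UM.zf_cont _ _ _ _
  have hdc : Continuous (dp M c) := Pool.Agent.Q86.UM.dp_cont M c
  have hSc := SZ_cont D a a2 d d2 (j + 1)
  -- the exponential factor
  have x1 : MB (fun t => ‖dp M c t‖ ^ 2 * (Real.exp (6 * SZ D a a2 d d2 (j + 1) t)) ^ 3) (p₁ ^ 3 * (2 * N2 M c)) := by
    refine Pool.Agent.Q176.UM.MB.le (C := Real.exp (C₁ * Real.exp ((j : ℝ) / 2)) * N2 M c) ?_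
      (Pool.Agent.Q176.UM.MB.congr (fun t => ?_) (hXM D hD a a2 d d2 hF.b1 hF.b2 hd.b hd2.b M c hM1 hMD' hc' j))
    · rw [hp₁3]
      have : 0 ≤ Real.exp (C₁ * Real.exp ((j : ℝ) / 2)) * N2 M c := by positivity
      linarith
    · congr 1
      rw [← Real.exp_nat_mul]
      congr 1
      push_cast
      ring
  -- the admissible factors
  have adm1 : MB (fun t => ‖dp M c t‖ ^ 2 * ((fun _ : ℝ => (1 : ℝ)) t) ^ 3) ((1 : ℝ) ^ 3 * (2 * N2 M c)) := by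
    refine Pool.Agent.Q176.UM.MB.le (le_of_eq (by ring)) (Pool.Agent.Q176.UM.MB.congr (fun t => ?_)
      (Pool.Agent.Q176.UM.MB_dp hMVL M c))
    simp
  have adm2 : ∀ (x x2 : ℕ → ℂ) (l : ℕ) (R : ℝ), (∀ n, ‖x n‖ ≤ A) → (∀ n, ‖x2 n‖ ≤ A) → κ * Real.exp (6 / 10 * (l : ℝ)) ≤ R →
      MB (fun t => ‖dp M c t‖ ^ 2 * ((20 * ‖zf D x x2 l t‖ / R) ^ (2 * s7 l)) ^ 3)
        ((Real.exp (-(s7 l : ℝ))) ^ 3 * (2 * N2 M c)) := by
    intro x x2 l R hx hx2 hR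
    have h := blkA hC₂ hPMT hA hκe hκ4 hD hx hx2 hM1 hMD' hc' (j := l) (r := 3 * s7 l) le_rfl hR
    refine Pool.Agent.Q176.UM.MB.le (le_of_eq ?_) (Pool.Agent.Q176.UM.MB.congr (fun t => ?_) h)
    · congr 1
      rw [← Real.exp_nat_mul, ← Real.exp_nat_mul]
      congr 1
      push_cast
      ring
    · congr 1
      rw [← pow_mul]
      congr 1
      ring
  -- the triple product
  have tri : ∀ (Y Z : ℝ → ℝ) (p₂ p₃ : ℝ), Continuous Y → Continuous Z → (∀ t, 0 ≤ Y t) → (∀ t, 0 ≤ Z t) → 0 < p₂ → 0 < p₃ →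
      MB (fun t => ‖dp M c t‖ ^ 2 * Y t ^ 3) (p₂ ^ 3 * (2 * N2 M c)) →
      MB (fun t => ‖dp M c t‖ ^ 2 * Z t ^ 3) (p₃ ^ 3 * (2 * N2 M c)) →
      MB (fun t => ‖Ef D κ (lc k a) (lc k a2) (j + 1) t * dp N b t‖ ^ 2 * Real.exp (6 * SZ D a a2 d d2 (j + 1) t) * Y t * Z t)
        (12 * (Real.exp (K * Real.exp ((j : ℝ) / 2)) * p₂ * p₃) * W) := by
    intro Y Z p₂ p₃ cY cZ Y0 Z0 hp₂ hp₃ mY mZ
    have h := MB_holder3 (H := fun t => ‖dp M c t‖ ^ 2) (X := fun t => Real.exp (6 * SZ D a a2 d d2 (j + 1) t))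
      (hdc.norm.pow 2) (Real.continuous_exp.comp (continuous_const.mul hSc)) cY cZ (fun t => by positivity)
      (fun t => (Real.exp_pos _).le) Y0 Z0 hp₁0 hp₂ hp₃ x1 mY mZ
    refine Pool.Agent.Q176.UM.MB.le ?_ (Pool.Agent.Q176.UM.MB.congr (fun t => by rw [hdp' t]) h)
    calc 3 * (p₁ * p₂ * p₃) * (2 * N2 M c) ≤
        3 * (p₁ * p₂ * p₃) * (2 * (2 * (Real.exp (CJ * Real.exp ((j : ℝ) / 2)) * W))) := by gcongr
      _ = 12 * ((p₁ * Real.exp (CJ * Real.exp ((j : ℝ) / 2))) * p₂ * p₃) * W := by ring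
      _ = _ := by rw [hpJ]
  have hKC : Real.exp (K * Real.exp ((j : ℝ) / 2)) ≤ Real.exp (CC * Real.exp ((j : ℝ) / 2)) := by
    apply Real.exp_le_exp.2
    exact mul_le_mul_of_nonneg_right hCCK (Real.exp_pos _).le
  have hcEB : Continuous fun t => ‖Ef D κ (lc k a) (lc k a2) (j + 1) t * dp N b t‖ ^ 2 := by
    have h1 := Pool.Agent.Q86.UM.Ef_cont D κ (lc k a) (lc k a2) (j + 1)
    have h2 := Pool.Agent.Q86.UM.dp_cont N b
    fun_prop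
  have hcX : Continuous fun t => Real.exp (6 * SZ D a a2 d d2 (j + 1) t) :=
    Real.continuous_exp.comp (continuous_const.mul hSc)
  refine ⟨?_, fun i' q' => ⟨?_, ?_⟩⟩
  · have h := tri (fun _ => 1) (fun _ => 1) 1 1 continuous_const continuous_const (fun _ => zero_le_one)
      (fun _ => zero_le_one) one_pos one_pos adm1 adm1
    refine Pool.Agent.Q176.UM.MB.le ?_ (Pool.Agent.Q176.UM.MB.congr (fun t => by ring) h)
    calc 12 * (Real.exp (K * Real.exp ((j : ℝ) / 2)) * 1 * 1) * W ≤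
        CC * (Real.exp (CC * Real.exp ((j : ℝ) / 2)) * 1 * 1) * W := by gcongr
      _ = _ := by ring
  · have hcY : Continuous fun t => (20 * ‖zf D (a i') (a2 i') q' t‖ / R9 κ q') ^ (2 * s7 q') :=
      ((continuous_const.mul (hzc _ _ _).norm).div_const _).pow _
    have h := tri (fun t => (20 * ‖zf D (a i') (a2 i') q' t‖ / R9 κ q') ^ (2 * s7 q')) (fun _ => 1)
      (Real.exp (-(s7 q' : ℝ))) 1 hcY continuous_const (fun _ => by positivity)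
      (fun _ => zero_le_one) (Real.exp_pos _) one_pos (adm2 _ _ _ _ (hF.b1 i') (hF.b2 i') (R9_ge6 hκ4 q')) adm1
    refine Pool.Agent.Q176.UM.MB.le ?_ (Pool.Agent.Q176.UM.MB.congr (fun t => by ring) h)
    calc 12 * (Real.exp (K * Real.exp ((j : ℝ) / 2)) * Real.exp (-(s7 q' : ℝ)) * 1) * W ≤
        CC * (Real.exp (CC * Real.exp ((j : ℝ) / 2)) * Real.exp (-(s7 q' : ℝ)) * 1) * W := by gcongr
      _ = _ := by ring
  · -- the factors of the last block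
    obtain ⟨Z, hZd⟩ : ∃ Z : Fin (m + 1) → ℝ → ℝ, Z = Fin.cons (fun t => yh D ω κ d d2 j t ^ (2 * s7 j))
      (fun i t => (20 * ‖zf D (a i) (a2 i) j t‖ / R9 κ j) ^ (2 * s7 j)) := ⟨_, rfl⟩
    have hZc : ∀ i, Continuous (Z i) := by
      intro i
      rw [hZd]
      refine Fin.cases ?_ (fun i => ?_) i
      · simp only [Fin.cons_zero]
        exact (yh_cont D ω κ d d2 j).pow _
      · simp only [Fin.cons_succ]
        exact ((continuous_const.mul (hzc _ _ _).norm).div_const _).pow _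
    have hZ0 : ∀ i t, 0 ≤ Z i t := by
      intro i t
      rw [hZd]
      refine Fin.cases ?_ (fun i => ?_) i
      · simp only [Fin.cons_zero]
        unfold yh
        positivity
      · simp only [Fin.cons_succ]
        positivity
    have hZm : ∀ i, MB (fun t => ‖dp M c t‖ ^ 2 * Z i t ^ 3) ((Real.exp (-(s7 j : ℝ))) ^ 3 * (2 * N2 M c)) := by
      intro i
      rw [hZd]
      refine Fin.cases ?_ (fun i => ?_) i
      · simp only [Fin.cons_zero]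
        refine Pool.Agent.Q176.UM.MB.congr (fun t => ?_) (adm2 (dh D ω d j) (dh D ω d2 j) j
          (κ * Real.exp (6 / 10 * (j : ℝ))) (dh_bd (by linarith) hω hd j) (dh_bd (by linarith) hω hd2 j) le_rfl)
        congr 3
        unfold yh
        rw [zf_dh, norm_mul, Complex.norm_real, Real.norm_of_nonneg (by positivity)]
      · simp only [Fin.cons_succ]
        exact adm2 _ _ _ _ (hF.b1 i) (hF.b2 i) (R9_ge6 hκ4 j)
    have hcY : Continuous fun t => (20 * ‖zf D (a i') (a2 i') q' t‖ / R9 κ q') ^ (2 * s7 q') :=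
      ((continuous_const.mul (hzc _ _ _).norm).div_const _).pow _
    have hfin := fin_leA hK0 j
    have h1 : ∀ i, MB (fun t => ‖Ef D κ (lc k a) (lc k a2) (j + 1) t * dp N b t‖ ^ 2 *
        Real.exp (6 * SZ D a a2 d d2 (j + 1) t) * 1 * Z i t) (12 * (Real.exp ((K + 4) ^ 4) * Real.exp (-(2 * (j : ℝ)))) * W) := by
      intro i
      refine Pool.Agent.Q176.UM.MB.le ?_ (tri (fun _ => 1) (Z i) 1 (Real.exp (-(s7 j : ℝ))) continuous_const (hZc i)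
        (fun _ => zero_le_one) (hZ0 i) one_pos (Real.exp_pos _) adm1 (hZm i))
      rw [mul_one]
      gcongr
    have h2 : ∀ i, MB (fun t => ‖Ef D κ (lc k a) (lc k a2) (j + 1) t * dp N b t‖ ^ 2 *
        Real.exp (6 * SZ D a a2 d d2 (j + 1) t) * (20 * ‖zf D (a i') (a2 i') q' t‖ / R9 κ q') ^ (2 * s7 q') * Z i t)
        (12 * (Real.exp ((K + 4) ^ 4) * Real.exp (-(2 * (j : ℝ)))) * W) := by
      intro i
      refine Pool.Agent.Q176.UM.MB.le ?_ (tri _ (Z i) (Real.exp (-(s7 q' : ℝ))) (Real.exp (-(s7 j : ℝ))) hcY (hZc i)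
        (fun _ => by positivity) (hZ0 i) (Real.exp_pos _) (Real.exp_pos _)
        (adm2 _ _ _ _ (hF.b1 i') (hF.b2 i') (R9_ge6 hκ4 q')) (hZm i))
      have h3 : Real.exp (-(s7 q' : ℝ)) ≤ 1 := by
        rw [Real.exp_le_one_iff]
        have : (0 : ℝ) ≤ s7 q' := Nat.cast_nonneg _
        linarith
      calc 12 * (Real.exp (K * Real.exp ((j : ℝ) / 2)) * Real.exp (-(s7 q' : ℝ)) * Real.exp (-(s7 j : ℝ))) * W ≤
          12 * (Real.exp (K * Real.exp ((j : ℝ) / 2)) * 1 * Real.exp (-(s7 j : ℝ))) * W := by gcongr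
        _ = 12 * (Real.exp (K * Real.exp ((j : ℝ) / 2)) * Real.exp (-(s7 j : ℝ))) * W := by ring
        _ ≤ _ := by gcongr
    have hs := Pool.Agent.Q176.UM.MB.add
      (continuous_finsetSum _ fun i _ => ((hcEB.mul hcX).mul continuous_const).mul (hZc i))
      (continuous_finsetSum _ fun i _ => ((hcEB.mul hcX).mul hcY).mul (hZc i))
      (Pool.Agent.Q176.UM.MB.sum (Finset.univ : Finset (Fin (m + 1)))
        (C := fun _ => 12 * (Real.exp ((K + 4) ^ 4) * Real.exp (-(2 * (j : ℝ)))) * W)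
        (fun i _ => ((hcEB.mul hcX).mul continuous_const).mul (hZc i)) (fun i _ => h1 i))
      (Pool.Agent.Q176.UM.MB.sum (Finset.univ : Finset (Fin (m + 1)))
        (C := fun _ => 12 * (Real.exp ((K + 4) ^ 4) * Real.exp (-(2 * (j : ℝ)))) * W)
        (fun i _ => ((hcEB.mul hcX).mul hcY).mul (hZc i)) (fun i _ => h2 i))
    refine Pool.Agent.Q176.UM.MB.le ?_ (Pool.Agent.Q176.UM.MB.congr (fun t => ?_) hs)
    · rw [Finset.sum_const, Finset.card_univ, Fintype.card_fin, nsmul_eq_mul]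
      push_cast
      calc ((m : ℝ) + 1) * (12 * (Real.exp ((K + 4) ^ 4) * Real.exp (-(2 * (j : ℝ)))) * W) +
          ((m : ℝ) + 1) * (12 * (Real.exp ((K + 4) ^ 4) * Real.exp (-(2 * (j : ℝ)))) * W) =
          (12 * (2 * (m + 1) * Real.exp ((K + 4) ^ 4))) * Real.exp (-(2 * (j : ℝ))) * W := by ring
        _ ≤ _ := by gcongr
    · have e1 : (∑ i, (20 * ‖zf D (a i) (a2 i) j t‖ / R9 κ j) ^ (2 * s7 j)) + yh D ω κ d d2 j t ^ (2 * s7 j) =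
          ∑ i, Z i t := by
        rw [Fin.sum_univ_succ, hZd]
        simp only [Fin.cons_zero, Fin.cons_succ]
        ring
      rw [e1, Finset.mul_sum, ← Finset.sum_add_distrib]
      refine Finset.sum_congr rfl fun i _ => ?_
      simp only [Pi.mul_apply]
      ring

theorem b_STRA : S_STRA := t_STRA b_COF b_PMT b_XM b_JLA Pool.Agent.Q84.UM.t_MVL

end

end Pool.Agent.H469.F4
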