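import Pool.Agent.H469.F4.S6

set_option autoImplicit false

/-!
# Several points: both bounds and the penalties
-/

namespace Pool.Agent.H469.F4

open Filter Topology MeasureTheory Complex Pool.Agent.Q97.UM
open Pool.Agent.Q14.UM (mem_PB PB_disj cv_len)

noncomputable section

/-- **both bounds and the penalties** -/
theorem toolkitN (n : ℕ) {M B : ℝ} (hM : 0 < M) (hB : 2 ≤ B) : ∃ δ κ' c C : ℝ, 0 < δ ∧ δ ≤ 1 ∧ 16 ≤ κ' ∧ 0 < c ∧ 0 < C ∧ ∀ᶠ T : ℝ in atTop,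
    1 ≤ δ * Real.log T ∧ ∀ k α : Fin n → ℝ, (∀ j, 0 ≤ k j) → ∑ j, k j ≤ 2 → (∀ j, |α j| ≤ T / 2) → ∀ y : ℕ → ℂ, (∀ p, ‖y p‖ ≤ B) →
      ∃ Q : ℝ, c * VV (δ * Real.log T) (ap k α) y ≤ Q ∧ Q ≤ C * VV (δ * Real.log T) (ap k α) y ∧
        T * Q ≤ ∫ t in T..(2 * T), zpr k α t * Pf (δ * Real.log T) κ' y t ∧
        ∫ t in T..(2 * T), zpr k α t * Pf (δ * Real.log T) κ' y t ≤ C * (T * Q) ∧
        ∀ w : ℕ → ℂ, (∀ p, ‖w p‖ ≤ B) → ∑ j ∈ Finset.range (JB (δ * Real.log T)), ∫ t in T..(2 * T), zpr k α t *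
          Pf (δ * Real.log T) κ' y t * ‖pw (δ * Real.log T) κ' w (fun _ => 0) (j + 1) t‖ ^ 2 ≤ 1 / M * (T * Q) := by
  obtain ⟨κ, δ₀, hκ4, hδ₀, h4⟩ := ord4 n
  obtain ⟨hδ1, -, θ, c, C, hθ, hθ8, hc, hC, hT⟩ := h4 δ₀ hδ₀ le_rfl
  obtain ⟨C₀, hC₀1, hC₀⟩ := Pool.Agent.Q198.UM.t_BM
  obtain ⟨K₁, c₂, hK₁, hc₂, hlow⟩ := low_prod2 (B := B) (by linarith)
  have hKP := KP_one (A := B) (C₀ := C₀) (by linarith)
  have hKP0 : 0 < KP B C₀ := by linarith
  obtain ⟨K₂, hK₂, hpen⟩ := pen_small (η := c / (M * (C + 1) * KP B C₀)) (by positivity)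
  obtain ⟨κ', hκ'⟩ : ∃ κ' : ℝ, κ' = max K₁ K₂ := ⟨_, rfl⟩
  have hκ1 : K₁ ≤ κ' := by rw [hκ']; exact le_max_left _ _
  have hκ2 : K₂ ≤ κ' := by rw [hκ']; exact le_max_right _ _
  have hκ16 : 16 ≤ κ' := hK₁.trans hκ1
  have hm1 : ∀ᶠ m : ℕ in atTop, κ' ≤ κ * Real.exp (9 / 10 * (m : ℝ)) := by
    have h1 : Tendsto (fun m : ℕ => κ * Real.exp (9 / 10 * (m : ℝ))) atTop atTop :=
      (Real.tendsto_exp_atTop.comp (tendsto_natCast_atTop_atTop.const_mul_atTop (by norm_num))).const_mul_atTop (by linarith)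
    exact h1.eventually_ge_atTop κ'
  have hm2 : ∀ᶠ m : ℕ in atTop, (26 * κ' + 4) * (δ₀ * Real.exp (-(m : ℝ))) ≤ θ := by
    have h1 : Tendsto (fun m : ℕ => (26 * κ' + 4) * (δ₀ * Real.exp (-(m : ℝ)))) atTop (𝓝 ((26 * κ' + 4) * (δ₀ * 0))) :=
      ((Real.tendsto_exp_neg_atTop_nhds_zero.comp tendsto_natCast_atTop_atTop).const_mul δ₀).const_mul _
    rw [mul_zero, mul_zero] at h1
    exact (h1.eventually_lt_const hθ).mono fun m hm => hm.le
  obtain ⟨m, hm1, hm2⟩ := (hm1.and hm2).exists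
  obtain ⟨δ', hδ'⟩ : ∃ δ' : ℝ, δ' = δ₀ * Real.exp (-(m : ℝ)) := ⟨_, rfl⟩
  have hem : Real.exp (-(m : ℝ)) ≤ 1 := by
    rw [Real.exp_le_one_iff]
    have : (0 : ℝ) ≤ m := Nat.cast_nonneg m
    linarith
  have hδ'0 : 0 < δ' := by rw [hδ']; positivity
  have hδ'1 : δ' ≤ 1 := by
    rw [hδ']
    calc δ₀ * Real.exp (-(m : ℝ)) ≤ 1 * 1 := mul_le_mul hδ1 hem (Real.exp_pos _).le (by norm_num)
      _ = 1 := one_mul 1
  have hlogev : ∀ᶠ T : ℝ in atTop, 1 ≤ δ' * Real.log T := by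
    filter_upwards [Real.tendsto_log_atTop.eventually_ge_atTop (1 / δ')] with T hT
    rw [div_le_iff₀ hδ'0] at hT
    linarith
  obtain ⟨K5, hK5⟩ : ∃ K : ℝ, K = K4 B C₀ * Real.exp (B ^ 2 * C₀ * m) := ⟨_, rfl⟩
  have hK50 : 0 < K5 := by rw [hK5]; unfold K4; positivity
  refine ⟨δ', κ', c * c₂, c * K5 + C / c + 1, hδ'0, hδ'1, hκ16, by positivity, by positivity, ?_⟩
  filter_upwards [hT, hlogev, eventually_ge_atTop (16 : ℝ)] with T hT glog hT16
  refine ⟨glog, fun k α hk hs hα y hy => ?_⟩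
  have hT0 : 0 < T := by linarith
  have hT1 : 1 ≤ T := by linarith
  have hL0 : 0 < Real.log T := Real.log_pos (by linarith)
  obtain ⟨D, hD⟩ : ∃ D : ℝ, D = δ₀ * Real.log T := ⟨_, rfl⟩
  obtain ⟨E, hEd⟩ : ∃ E : ℝ, E = δ' * Real.log T := ⟨_, rfl⟩
  have hE : E = D * Real.exp (-(m : ℝ)) := by rw [hEd, hD, hδ']; ring
  have hE1 : 1 ≤ E := by rw [hEd]; exact glog
  rw [← hEd]
  have hD0 : 0 < D := by rw [hD]; positivity
  have hD1 : 1 ≤ D := by
    have h1 : E ≤ D := by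
      rw [hE]
      exact mul_le_of_le_one_right hD0.le hem
    linarith
  obtain ⟨x, hx⟩ : ∃ x : ℕ → ℂ, x = ap k α := ⟨_, rfl⟩
  obtain ⟨x2, hx2⟩ : ∃ x2 : ℕ → ℂ, x2 = ap k (fun j => 2 * α j) := ⟨_, rfl⟩
  have hxB : ∀ p, ‖x p‖ ≤ B := fun p => by rw [hx]; exact (norm_ap_s hk α p).trans (hs.trans hB)
  have hx2B : ∀ p, ‖x2 p‖ ≤ B := fun p => by rw [hx2]; exact (norm_ap_s hk _ p).trans (hs.trans hB)
  have h0B : ∀ n : ℕ, ‖(fun _ : ℕ => (0 : ℂ)) n‖ ≤ B := fun n => by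
    show ‖(0 : ℂ)‖ ≤ B
    rw [norm_zero]
    linarith
  obtain ⟨b, hb⟩ : ∃ b : ℕ → ℂ, b = ebk E κ' y (fun _ => 0) 0 (JB E) := ⟨_, rfl⟩
  obtain ⟨N, hN⟩ : ∃ N : ℕ, N = M9 E κ' := ⟨_, rfl⟩
  obtain ⟨M₁, hM₁⟩ : ∃ M : ℕ, M = eM δ₀ κ T := ⟨_, rfl⟩
  obtain ⟨e1, he1⟩ : ∃ e : ℕ → ℂ, e = eo δ₀ κ T k α := ⟨_, rfl⟩
  have hJ : JB D = m + JB E := by
    rw [hE]
    exact JB_shift hD0 m (by rw [← hE]; exact hE1)
  have heo : e1 = ebk D κ x x2 0 (m + JB E) := by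
    rw [he1]
    unfold eo
    rw [← hD, ← hx, ← hx2, hJ]
  have hlenb : ∀ q, N < q → b q = 0 := by rw [hb, hN]; exact ebk_len hE1 (by linarith) _ _
  have hsupb : ∀ q, b q ≠ 0 → 1 ≤ q ∧ q ≤ N := by rw [hb, hN]; exact ebk_supp hE1 (by linarith) _ _
  obtain ⟨-, -, hsu1, -, hN1⟩ := hT k α hk hs hα
  rw [← hM₁, ← he1] at hN1 hsu1
  have hlenE1 : ∀ q, M₁ < q → e1 q = 0 := by
    intro q hq
    by_contra h
    have := (hsu1 q h).2
    omega
  have hNle : (N : ℝ) ≤ Real.exp (26 * κ' * E) := by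
    rw [hN]
    unfold M9
    exact Nat.floor_le (Real.exp_pos _).le
  have h3θ : (26 * κ' + 4) * E ≤ θ * Real.log T := by
    calc (26 * κ' + 4) * E = (26 * κ' + 4) * (δ₀ * Real.exp (-(m : ℝ))) * Real.log T := by rw [hE, hD]; ring
      _ ≤ θ * Real.log T := mul_le_mul_of_nonneg_right hm2 hL0.le
  have hNT' : (N : ℝ) ≤ T ^ θ := by
    refine hNle.trans ?_
    rw [Real.rpow_def_of_pos hT0, mul_comm (Real.log T)]
    apply Real.exp_le_exp.2
    have : 0 ≤ 4 * E := by linarith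
    linarith
  obtain ⟨Q, hQ⟩ : ∃ Q : ℝ, Q = N2 (M₁ * N) (cv e1 b) := ⟨_, rfl⟩
  have hQ0 : 0 ≤ Q := by rw [hQ]; exact Pool.Agent.Q86.UM.N2_nonneg _ _
  obtain ⟨g1, g2⟩ := hN1 N hNT' b hsupb
  rw [← hQ] at g1 g2
  obtain ⟨V, hV⟩ : ∃ V : ℝ, V = VV E x y := ⟨_, rfl⟩
  have hV0 : 0 < V := by rw [hV]; exact VV_pos _ _ _
  have hPf : ∀ t, Pf E κ' y t = ‖dp N b t‖ ^ 2 := fun t => by rw [hN, hb]; rfl
  -- the upper bound of `Q`
  have hQup : Q ≤ K5 * V := by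
    have hR : ∀ i, R9 κ' i ≤ R9 κ (m + i) := by
      intro i
      unfold R9
      apply Nat.ceil_mono
      calc κ' * Real.exp (9 / 10 * (i : ℝ)) ≤ κ * Real.exp (9 / 10 * (m : ℝ)) * Real.exp (9 / 10 * (i : ℝ)) :=
            mul_le_mul_of_nonneg_right hm1 (Real.exp_pos _).le
        _ = κ * Real.exp (9 / 10 * ((m + i : ℕ) : ℝ)) := by
            rw [mul_assoc, ← Real.exp_add]
            congr 2
            push_cast
            ring
    have h1 := total_NC (A := B) (C₀ := C₀) (by linarith) (by linarith) hD0 (by linarith : 4 ≤ κ') (r := m)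
      (by rw [← hE]; exact hE1) hR (fun i => hC₀ _ i (by rw [← hE]; exact hE1)) (x := x) (x2 := x2)
      (y := y) (y2 := fun _ => 0) (a := x) (a2 := x2) hxB hx2B hy h0B hxB hx2B 0 (Nat.zero_le _) (M₁ * N)
    rw [← hE] at h1
    have e1' : cv (ebk E κ' y (fun _ => 0) 0 (JB E - 0)) (pwc E κ' x x2 0) = b := by
      rw [Nat.sub_zero]
      have h2 : pwc E κ' x x2 0 = fun n => if n = 1 then 1 else 0 := rfl
      rw [h2, cv_comm, cv_delta (ebk_at_zero _ _ _ _ _ _), hb]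
    rw [e1', hJ, ← heo, ← hQ] at h1
    refine h1.trans ?_
    have e3 : pen κ' 0 = 1 := rfl
    have e4 : SB E (fun p => x p + y p) (JB E) = PS E (fun p => ‖x p + y p‖ ^ 2 / p) := PS_blocks hE1 (fun p => ‖x p + y p‖ ^ 2 / p)
    have e6 : SB D x m ≤ B ^ 2 * C₀ * m := by
      unfold SB
      have h2 : ∀ i ∈ Finset.range m, ∑ p ∈ PB D i, ‖x p‖ ^ 2 / (p : ℝ) ≤ B ^ 2 * C₀ := by
        intro i _
        calc ∑ p ∈ PB D i, ‖x p‖ ^ 2 / (p : ℝ) ≤ ∑ p ∈ PB D i, B ^ 2 * (1 / (p : ℝ)) := by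
              refine Finset.sum_le_sum fun p _ => ?_
              rw [mul_one_div]
              have := pow_le_pow_left₀ (norm_nonneg _) (hxB p) 2
              gcongr
          _ = B ^ 2 * ∑ p ∈ PB D i, 1 / (p : ℝ) := by rw [Finset.mul_sum]
          _ ≤ B ^ 2 * C₀ := mul_le_mul_of_nonneg_left (hC₀ D i hD1) (by positivity)
      refine (Finset.sum_le_sum h2).trans (le_of_eq ?_)
      rw [Finset.sum_const, Finset.card_range, nsmul_eq_mul]
      ring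
    rw [e3, e4]
    have h5 : Real.exp (SB D x m + PS E (fun p => ‖x p + y p‖ ^ 2 / p)) ≤ Real.exp (B ^ 2 * C₀ * m) * V := by
      rw [Real.exp_add, hV]
      exact mul_le_mul_of_nonneg_right (Real.exp_le_exp.2 e6) (Real.exp_pos _).le
    have hK40' : 0 < K4 B C₀ := by unfold K4; positivity
    calc K4 B C₀ * (Real.exp (B ^ 2 * C₀ * (0 : ℕ)) * 1) * Real.exp (SB D x m + PS E (fun p => ‖x p + y p‖ ^ 2 / p)) =
        K4 B C₀ * Real.exp (SB D x m + PS E (fun p => ‖x p + y p‖ ^ 2 / p)) := by simp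
      _ ≤ K4 B C₀ * (Real.exp (B ^ 2 * C₀ * m) * V) := mul_le_mul_of_nonneg_left h5 hK40'.le
      _ = K5 * V := by rw [hK5]; ring
  -- the lower bound of `Q`
  have hQlow : c₂ * V ≤ Q := by
    obtain ⟨κ'', hκ''⟩ : ∃ κ'' : ℝ, κ'' = κ * Real.exp (9 / 10 * (m : ℝ)) := ⟨_, rfl⟩
    have h1 := hlow E κ' κ'' x x2 y (fun _ => 0) hE1 hκ1 (by rw [hκ'']; exact hm1) hxB hx2B hy h0B
    have h2 := drop_first (κ := κ) (κ' := κ') (m := m) hD0.le x x2 y (fun _ => 0) (JB E) (M₁ * N)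
    rw [ebk_shift D κ _ _ m (JB E), ← hE, ← hκ'', ← hb, ← heo, ← hQ] at h2
    refine le_trans ?_ h2
    have hlen : M9 E κ'' * M9 E κ' ≤ M₁ * N := by
      rw [hN]
      apply Nat.mul_le_mul_right
      rw [hM₁]
      unfold eM
      rw [← hD]
      unfold M9
      apply Nat.floor_mono
      apply Real.exp_le_exp.2
      rw [hκ'', hE]
      have h3 : Real.exp (9 / 10 * (m : ℝ)) * Real.exp (-(m : ℝ)) ≤ 1 := by
        rw [← Real.exp_add, Real.exp_le_one_iff]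
        have : (0 : ℝ) ≤ m := Nat.cast_nonneg m
        linarith
      calc 26 * (κ * Real.exp (9 / 10 * (m : ℝ))) * (D * Real.exp (-(m : ℝ))) =
          26 * κ * D * (Real.exp (9 / 10 * (m : ℝ)) * Real.exp (-(m : ℝ))) := by ring
        _ ≤ 26 * κ * D * 1 := mul_le_mul_of_nonneg_left h3 (by positivity)
        _ = 26 * κ * D := mul_one _
    refine le_trans ?_ (N2_mono_len hlen _)
    rw [← hb] at h1
    refine le_trans (le_of_eq ?_) h1
    rw [hV]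
    rfl
  rw [← hx, ← hV]
  refine ⟨c * Q, ?_, ?_, ?_, ?_, ?_⟩
  · calc c * c₂ * V = c * (c₂ * V) := by ring
      _ ≤ c * Q := mul_le_mul_of_nonneg_left hQlow hc.le
  · have h1 : c * Q ≤ c * (K5 * V) := mul_le_mul_of_nonneg_left hQup hc.le
    have h2 : 0 ≤ (C / c + 1) * V := by positivity
    linarith
  · calc T * (c * Q) = c * T * Q := by ring
      _ ≤ _ := g1
      _ = _ := by simp only [hPf]
  · have h1 : ∫ t in T..(2 * T), zpr k α t * Pf E κ' y t ≤ C * T * Q := by simp only [hPf]; exact g2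
    refine h1.trans ?_
    have h2 : C * T * Q = C / c * (T * (c * Q)) := by field_simp
    rw [h2]
    apply mul_le_mul_of_nonneg_right _ (by positivity)
    have : 0 < c * K5 := by positivity
    linarith
  · intro w hw
    obtain ⟨Lp, hLp1, hLp2, hLp3, hLp4, hLp5⟩ := dp_pwc (κ' := κ') hE1 hlenb w (fun _ => 0)
    have hNT : ∀ j, ((N * Lp j : ℕ) : ℝ) ≤ T ^ θ := by
      intro j
      have h2 : ((Lp j : ℕ) : ℝ) ≤ Real.exp (4 * E) := by
        rw [← Real.log_le_iff_le_exp (by exact_mod_cast hLp1 j)]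
        exact hLp2 j
      push_cast
      calc (N : ℝ) * Lp j ≤ Real.exp (26 * κ' * E) * Real.exp (4 * E) := by gcongr
        _ = Real.exp ((26 * κ' + 4) * E) := by rw [← Real.exp_add]; congr 1; ring
        _ ≤ Real.exp (θ * Real.log T) := Real.exp_le_exp.2 h3θ
        _ = T ^ θ := by rw [Real.rpow_def_of_pos hT0, mul_comm]
    have gj : ∀ j ∈ Finset.range (JB E), ∫ t in T..(2 * T), zpr k α t * Pf E κ' y t * ‖pw E κ' w (fun _ => 0) (j + 1) t‖ ^ 2 ≤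
        C * T * (pen κ' (j + 1) * KP B C₀ * Q) := by
      intro j hj
      have hsb : ∀ q, cv b (pwc E κ' w (fun _ => 0) (j + 1)) q ≠ 0 → 1 ≤ q ∧ q ≤ N * Lp j := by
        intro q hq
        constructor
        · rcases Nat.eq_zero_or_pos q with h | h
          · exfalso
            apply hq
            rw [h]
            exact cv_zero _ _
          · exact h
        · by_contra h
          exact hq (cv_len _ _ _ _ hlenb (hLp3 j) q (by omega))
      have e0 : ∀ t, zpr k α t * Pf E κ' y t * ‖pw E κ' w (fun _ => 0) (j + 1) t‖ ^ 2 =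
          zpr k α t * ‖dp (N * Lp j) (cv b (pwc E κ' w (fun _ => 0) (j + 1))) t‖ ^ 2 := by
        intro t
        rw [hLp5 j t, norm_mul, mul_pow, hPf]
        ring
      simp only [e0]
      refine ((hN1 (N * Lp j) (hNT j) _ hsb).2).trans (mul_le_mul_of_nonneg_left ?_ (by positivity))
      have h1 := ratioA (A := B) (C₀ := C₀) (κ := κ) (κ' := κ') (m := m) (D := D) (by linarith) hD0.le
        (fun i => hC₀ _ i (by rw [← hE]; exact hE1)) (x := x) (x2 := x2)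
        (y := y) (y2 := fun _ => 0) (w := w) (w2 := fun _ => 0) hxB hx2B hy h0B hw h0B
        (Finset.mem_range.1 hj) (M₁ * (N * Lp j))
      rw [← hE, ← heo, ← hb] at h1
      refine h1.trans ?_
      apply mul_le_mul_of_nonneg_left _ (mul_nonneg (pen_nonneg _ _) hKP0.le)
      rw [hQ]
      exact N2_ext_le (cv_len _ _ _ _ hlenE1 hlenb)
    refine (Finset.sum_le_sum gj).trans ?_
    have h1 : ∑ j ∈ Finset.range (JB E), C * T * (pen κ' (j + 1) * KP B C₀ * Q) =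
        (∑ j ∈ Finset.range (JB E), pen κ' (j + 1)) * (C * T * KP B C₀ * Q) := by
      rw [Finset.sum_mul]
      exact Finset.sum_congr rfl fun j _ => by ring
    rw [h1]
    calc (∑ j ∈ Finset.range (JB E), pen κ' (j + 1)) * (C * T * KP B C₀ * Q) ≤
        c / (M * (C + 1) * KP B C₀) * (C * T * KP B C₀ * Q) :=
          mul_le_mul_of_nonneg_right (hpen κ' hκ2 (JB E)) (by positivity)
      _ = c / M * T * Q * (C / (C + 1)) := by field_simp
      _ ≤ c / M * T * Q * 1 := by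
          apply mul_le_mul_of_nonneg_left _ (by positivity)
          rw [div_le_one (by linarith)]
          linarith
      _ = 1 / M * (T * (c * Q)) := by ring

end

end Pool.Agent.H469.F4
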