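import Pool.Agent.H469.F4.T1

set_option autoImplicit false

/-!
# Several points: the weights
-/

namespace Pool.Agent.H469.F4

open Filter Topology MeasureTheory Complex Pool.Agent.Q97.UM
open Pool.Agent.Q14.UM (mem_PB PB_disj cv_len)
open Pool.Agent.Results.MP_fa2474_nt.OrderForEveryPolynomial (order order_eq sum_close norm_ap_le sum_prime ap_sq)

noncomputable section

theorem zf_apn {n : ℕ} (a α : Fin n → ℝ) (E : ℝ) (i : ℕ) (t : ℝ) :
    zf E (ap a α) (fun _ => 0) i t = ∑ j, (a j : ℂ) * Zb E i (t + α j) := by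
  have h0 : (fun _ : ℕ => (0 : ℂ)) = lc a (fun _ => fun _ => 0) := by
    funext p
    unfold lc
    simp
  have hlc : ap a α = lc a (fun i => ua (α i)) := rfl
  rw [hlc, h0, Pool.Agent.Q176.UM.zf_lc E a (fun i => ua (α i)) (fun _ => fun _ => 0) i t]
  refine Finset.sum_congr rfl fun j _ => ?_
  congr 1
  have h1 := zf_c (E := E) (i := i) (c := fun _ => 1) (ci := 1) (fun _ _ => rfl) (α j) t
  simpa using h1

/-- the weight of several points at good points -/
theorem Pf_ap {n : ℕ} {S E κ' : ℝ} (hE : 1 ≤ E) (hκ : 16 ≤ κ') (hS : 0 < S) {a α : Fin n → ℝ} (ha : ∑ j, |a j| ≤ S) {t : ℝ}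
    (h : ∀ j, GG S E κ' (t + α j)) :
    Pf E κ' (ap a α) t ≤ 4 * Real.exp (2 * ∑ j, a j * FJ E (JB E) (t + α j)) ∧
      Real.exp (2 * ∑ j, a j * FJ E (JB E) (t + α j)) ≤ 4 * Pf E κ' (ap a α) t := by
  have hA := cmp_small (t := t) hE hκ (a := ap a α) (a2 := fun _ => 0) fun i hi => by
    rw [zf_apn]
    have h4 : (0 : ℝ) ≤ R9 κ' i := Nat.cast_nonneg _
    have h1 : ∀ j, ‖(a j : ℂ) * Zb E i (t + α j)‖ ≤ |a j| * ((R9 κ' i : ℝ) / (20 * S)) := by
      intro j
      rw [norm_mul, Complex.norm_real, Real.norm_eq_abs]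
      apply mul_le_mul_of_nonneg_left _ (abs_nonneg _)
      rw [le_div_iff₀ (by positivity)]
      have := h j i hi
      linarith
    calc ‖∑ j, (a j : ℂ) * Zb E i (t + α j)‖ ≤ ∑ j, |a j| * ((R9 κ' i : ℝ) / (20 * S)) := (norm_sum_le _ _).trans (Finset.sum_le_sum fun j _ => h1 j)
      _ = (∑ j, |a j|) * ((R9 κ' i : ℝ) / (20 * S)) := (Finset.sum_mul _ _ _).symm
      _ ≤ S * ((R9 κ' i : ℝ) / (20 * S)) := mul_le_mul_of_nonneg_right ha (by positivity)
      _ = (R9 κ' i : ℝ) / 20 := by field_simp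
      _ ≤ (R9 κ' i : ℝ) / 10 := by linarith
  have eA : Mm E (ap a α) (fun _ => 0) t = Real.exp (∑ j, a j * FJ E (JB E) (t + α j)) := by
    rw [Mm_sum hE]
    congr 1
    have h1 : ∑ i ∈ Finset.range (JB E), zf E (ap a α) (fun _ => 0) i t = ∑ j, (a j : ℂ) * ∑ i ∈ Finset.range (JB E), Zb E i (t + α j) := by
      rw [Finset.sum_congr rfl fun i _ => zf_apn a α E i t, Finset.sum_comm]
      exact Finset.sum_congr rfl fun j _ => (Finset.mul_sum _ _ _).symm
    rw [h1, Complex.re_sum]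
    refine Finset.sum_congr rfl fun j _ => ?_
    unfold FJ
    rw [Complex.re_ofReal_mul]
  rw [eA] at hA
  obtain ⟨a1, b2⟩ := sq_bounds (norm_nonneg _) (Real.exp_pos _) hA
  rw [← Real.exp_nat_mul] at a1 b2
  have e : ((2 : ℕ) : ℝ) * (∑ j, a j * FJ E (JB E) (t + α j)) = 2 * ∑ j, a j * FJ E (JB E) (t + α j) := by push_cast; ring
  rw [e] at a1 b2
  exact ⟨a1, b2⟩

/-- the covariances -/
def eC {n : ℕ} (E : ℝ) (α : Fin n → ℝ) (j l : Fin n) : ℝ := PS E fun p => Real.cos ((α j - α l) * Real.log p) / p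

/-- the levels -/
def vC {n : ℕ} (E : ℝ) (c α : Fin n → ℝ) (j : Fin n) : ℝ := ∑ l, c l * eC E α j l

/-- the quadratic form -/
def QE {n : ℕ} (E : ℝ) (c α : Fin n → ℝ) : ℝ := ∑ j, c j * vC E c α j

theorem eC_symm {n : ℕ} (E : ℝ) (α : Fin n → ℝ) (j l : Fin n) : eC E α j l = eC E α l j := by
  unfold eC
  congr 1
  funext p
  rw [← Real.cos_neg]
  congr 2
  ring

/-- the sum over the primes -/
def e0 (E : ℝ) : ℝ := PS E fun p => 1 / (p : ℝ)

theorem eC_self {n : ℕ} (E : ℝ) (α : Fin n → ℝ) (j : Fin n) : eC E α j j = e0 E := by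
  unfold eC e0
  congr 1
  funext p
  rw [sub_self, zero_mul, Real.cos_zero]

theorem VV_ap {n : ℕ} (E : ℝ) (k a α : Fin n → ℝ) : VV E (ap k α) (ap a α) = Real.exp (QE E (fun j => k j + a j) α) := by
  unfold VV
  congr 1
  have h1 : (fun p : ℕ => ‖ap k α p + ap a α p‖ ^ 2 / (p : ℝ)) = fun p : ℕ => ‖ap (fun j => k j + a j) α p‖ ^ 2 / (p : ℝ) := by
    funext p
    congr 3
    unfold ap
    rw [← Finset.sum_add_distrib]
    refine Finset.sum_congr rfl fun j _ => ?_
    push_cast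
    ring
  rw [h1]
  unfold PS
  rw [sum_prime]
  unfold QE vC eC PS
  refine Finset.sum_congr rfl fun j _ => ?_
  rw [Finset.mul_sum]
  exact Finset.sum_congr rfl fun l _ => by ring

/-- one coefficient changed -/
theorem QE_add {n : ℕ} (E : ℝ) (c α : Fin n → ℝ) (j : Fin n) (s : ℝ) :
    QE E (fun i => c i + if i = j then s else 0) α = QE E c α + 2 * s * vC E c α j + s ^ 2 * e0 E := by
  have h1 : ∀ i, vC E (fun i => c i + if i = j then s else 0) α i = vC E c α i + s * eC E α i j := by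
    intro i
    unfold vC
    have h2 : ∀ l, (c l + if l = j then s else 0) * eC E α i l = c l * eC E α i l + (if l = j then s * eC E α i l else 0) := by
      intro l
      split_ifs <;> ring
    rw [Finset.sum_congr rfl fun l _ => h2 l, Finset.sum_add_distrib, Finset.sum_ite_eq' Finset.univ j]
    simp
  unfold QE
  rw [Finset.sum_congr rfl fun i _ => by rw [h1 i]]
  have h2 : ∀ i, (c i + if i = j then s else 0) * (vC E c α i + s * eC E α i j) =
      c i * vC E c α i + s * (c i * eC E α j i) + (if i = j then s * (vC E c α i + s * eC E α i j) else 0) := by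
    intro i
    rw [eC_symm E α i j]
    split_ifs <;> ring
  rw [Finset.sum_congr rfl fun i _ => h2 i, Finset.sum_add_distrib, Finset.sum_add_distrib, ← Finset.mul_sum, Finset.sum_ite_eq' Finset.univ j]
  simp only [Finset.mem_univ, if_true]
  rw [eC_self]
  have h3 : ∑ i, c i * eC E α j i = vC E c α j := rfl
  rw [h3]
  ring

end

end Pool.Agent.H469.F4
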