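import Pool.Agent.H469.F4.T2

set_option autoImplicit false

/-!
# Several points: the pointwise inequality
-/

namespace Pool.Agent.H469.F4

open Filter Topology MeasureTheory Complex Pool.Agent.Q97.UM
open Pool.Agent.Q14.UM (mem_PB PB_disj cv_len)
open Pool.Agent.Results.MP_fa2474_nt.OrderForEveryPolynomial (order order_eq sum_close norm_ap_le sum_prime ap_sq)

noncomputable section

variable {n : ℕ}

/-- the first weight -/
def aN (n : ℕ) (k : Fin n → ℝ) (j : Fin n) : ℝ := k j - 1 / n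

/-- one coefficient changed -/
def ad (c : Fin n → ℝ) (j : Fin n) (s : ℝ) (i : Fin n) : ℝ := c i + if i = j then s else 0

/-- the top part -/
def tN (E κ' b : ℝ) (k α : Fin n → ℝ) (j : Fin n) (t : ℝ) : ℝ :=
  Real.exp (-(b * (vC E k α j + b * e0 E))) * Pf E κ' (ap (ad (aN n k) j (b / 2)) α) t

/-- the bottom part -/
def uN (E κ' b : ℝ) (k α : Fin n → ℝ) (j : Fin n) (t : ℝ) : ℝ :=
  Real.exp (b * (vC E k α j - b * e0 E)) * Pf E κ' (ap (ad (aN n k) j (-(b / 2))) α) t

/-- the weight -/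
def wN (E κ' S b : ℝ) (k α : Fin n → ℝ) (t : ℝ) : ℝ :=
  Pf E κ' (ap (aN n k) α) t - (∑ j, (tN E κ' b k α j t + uN E κ' b k α j t) + Pf E κ' (ap (aN n k) α) t * ∑ j, pW E κ' S (α j) t)

theorem tN_nonneg (E κ' b : ℝ) (k α : Fin n → ℝ) (j : Fin n) (t : ℝ) : 0 ≤ tN E κ' b k α j t := mul_nonneg (Real.exp_pos _).le (Pf_nonneg _ _ _ _)

theorem uN_nonneg (E κ' b : ℝ) (k α : Fin n → ℝ) (j : Fin n) (t : ℝ) : 0 ≤ uN E κ' b k α j t := mul_nonneg (Real.exp_pos _).le (Pf_nonneg _ _ _ _)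

theorem tN_cont (E κ' b : ℝ) (k α : Fin n → ℝ) (j : Fin n) : Continuous (tN E κ' b k α j) := continuous_const.mul (Pf_cont _ _ _)

theorem uN_cont (E κ' b : ℝ) (k α : Fin n → ℝ) (j : Fin n) : Continuous (uN E κ' b k α j) := continuous_const.mul (Pf_cont _ _ _)

theorem wN_cont (E κ' S b : ℝ) (k α : Fin n → ℝ) : Continuous (wN E κ' S b k α) := by
  unfold wN
  exact (Pf_cont _ _ _).sub ((continuous_finsetSum _ fun j _ => (tN_cont _ _ _ _ _ _).add (uN_cont _ _ _ _ _ _)).add
    ((Pf_cont _ _ _).mul (continuous_finsetSum _ fun j _ => pW_cont _ _ _ _)))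

/-- the exponent of the weight with one coefficient changed -/
theorem sum_ad (c : Fin n → ℝ) (j : Fin n) (s : ℝ) (F : Fin n → ℝ) : ∑ i, ad c j s i * F i = ∑ i, c i * F i + s * F j := by
  unfold ad
  have h2 : ∀ i, (c i + if i = j then s else 0) * F i = c i * F i + (if i = j then s * F i else 0) := by
    intro i
    split_ifs <;> ring
  rw [Finset.sum_congr rfl fun i _ => h2 i, Finset.sum_add_distrib, Finset.sum_ite_eq' Finset.univ j]
  simp

theorem abs_ad (c : Fin n → ℝ) (j : Fin n) (s : ℝ) : ∑ i, |ad c j s i| ≤ ∑ i, |c i| + |s| := by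
  unfold ad
  have h2 : ∀ i, |c i + if i = j then s else 0| ≤ |c i| + (if i = j then |s| else 0) := by
    intro i
    split_ifs
    · exact abs_add_le _ _
    · simp
  refine (Finset.sum_le_sum fun i _ => h2 i).trans (le_of_eq ?_)
  rw [Finset.sum_add_distrib, Finset.sum_ite_eq' Finset.univ j]
  simp

theorem abs_aN {k : Fin n → ℝ} (hn : 0 < n) (hk : ∀ j, 0 ≤ k j) : ∑ j, |aN n k j| ≤ ∑ j, k j + 1 := by
  unfold aN
  have hn0 : (0 : ℝ) < n := by exact_mod_cast hn
  have h2 : ∀ j, |k j - 1 / (n : ℝ)| ≤ k j + 1 / n := by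
    intro j
    have h3 : (0 : ℝ) < 1 / n := by positivity
    rw [abs_le]
    constructor <;> linarith [hk j]
  refine (Finset.sum_le_sum fun i _ => h2 i).trans (le_of_eq ?_)
  rw [Finset.sum_add_distrib, Finset.sum_const, Finset.card_univ, Fintype.card_fin, nsmul_eq_mul]
  field_simp

/-- where the weight is positive -/
theorem wN_pos {E κ' S b : ℝ} {k α : Fin n → ℝ} {t : ℝ} (hE : 1 ≤ E) (hκ : 16 ≤ κ') (hb : 0 < b) (hb1 : b ≤ 1) (hn : 0 < n)
    (hk : ∀ j, 0 ≤ k j) (hS : ∑ j, k j + 3 ≤ S) (h : 0 < wN E κ' S b k α t) :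
    (∀ j, GG S E κ' (t + α j)) ∧ wN E κ' S b k α t ≤ 4 * Real.exp (2 * ∑ j, aN n k j * FJ E (JB E) (t + α j)) ∧
    (∀ j, FJ E (JB E) (t + α j) < vC E k α j + b * e0 E + Real.log 16 / b) ∧
    ∀ j, vC E k α j - b * e0 E - Real.log 16 / b < FJ E (JB E) (t + α j) := by
  have hk0 : 0 ≤ ∑ j, k j := Finset.sum_nonneg fun j _ => hk j
  have hS0 : 0 < S := by linarith
  obtain ⟨P, hP⟩ : ∃ P : ℝ, P = Pf E κ' (ap (aN n k) α) t := ⟨_, rfl⟩
  have hP0 : 0 ≤ P := by rw [hP]; exact Pf_nonneg _ _ _ _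
  have hst : ∀ j, tN E κ' b k α j t + uN E κ' b k α j t ≤ ∑ j, (tN E κ' b k α j t + uN E κ' b k α j t) := fun j =>
    Finset.single_le_sum (f := fun j => tN E κ' b k α j t + uN E κ' b k α j t)
      (fun i _ => add_nonneg (tN_nonneg _ _ _ _ _ _ _) (uN_nonneg _ _ _ _ _ _ _)) (Finset.mem_univ j)
  have hsp : ∀ j, pW E κ' S (α j) t ≤ ∑ j, pW E κ' S (α j) t := fun j =>
    Finset.single_le_sum (f := fun j => pW E κ' S (α j) t) (fun i _ => pW_nonneg _ _ _ _ _) (Finset.mem_univ j)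
  have hsum0 : 0 ≤ ∑ j, (tN E κ' b k α j t + uN E κ' b k α j t) :=
    Finset.sum_nonneg fun i _ => add_nonneg (tN_nonneg _ _ _ _ _ _ _) (uN_nonneg _ _ _ _ _ _ _)
  have hpen0 : 0 ≤ P * ∑ j, pW E κ' S (α j) t := mul_nonneg hP0 (Finset.sum_nonneg fun i _ => pW_nonneg _ _ _ _ _)
  have hw : wN E κ' S b k α t = P - (∑ j, (tN E κ' b k α j t + uN E κ' b k α j t) + P * ∑ j, pW E κ' S (α j) t) := by
    rw [hP]
    rfl
  rw [hw] at h ⊢
  have hPp : 0 < P := by linarith
  have hG : ∀ j, GG S E κ' (t + α j) := by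
    intro j
    by_contra hcon
    have h5 := bad_GG hS0.le (by linarith : 0 < κ') hcon
    have h6 : (1 : ℝ) ≤ ∑ j, pW E κ' S (α j) t := h5.trans (hsp j)
    have h7 : P * 1 ≤ P * ∑ j, pW E κ' S (α j) t := mul_le_mul_of_nonneg_left h6 hP0
    linarith
  have haN := abs_aN hn hk
  obtain ⟨F, hF⟩ : ∃ F : Fin n → ℝ, F = fun j => FJ E (JB E) (t + α j) := ⟨_, rfl⟩
  have hFj : ∀ j, FJ E (JB E) (t + α j) = F j := fun j => by rw [hF]
  obtain ⟨p1, -⟩ := Pf_ap (S := S) hE hκ hS0 (a := aN n k) (α := α) (by linarith) hG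
  simp only [hFj] at p1 ⊢
  rw [← hP] at p1
  obtain ⟨G, hGd⟩ : ∃ G : ℝ, G = ∑ j, aN n k j * F j := ⟨_, rfl⟩
  rw [← hGd] at p1 ⊢
  refine ⟨hG, by linarith, fun j => ?_, fun j => ?_⟩
  · obtain ⟨-, u1⟩ := Pf_ap (S := S) hE hκ hS0 (a := ad (aN n k) j (b / 2)) (α := α) (by
      have h1 := abs_ad (aN n k) j (b / 2)
      rw [abs_of_pos (by linarith : 0 < b / 2)] at h1
      linarith) hG
    simp only [hFj] at u1
    rw [sum_ad, ← hGd] at u1
    have h1 : tN E κ' b k α j t < 4 * Real.exp (2 * G) := by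
      have := hst j
      have := uN_nonneg E κ' b k α j t
      linarith
    have h2 : Real.exp (b * F j - b * (vC E k α j + b * e0 E)) * Real.exp (2 * G) < 16 * Real.exp (2 * G) := by
      calc Real.exp (b * F j - b * (vC E k α j + b * e0 E)) * Real.exp (2 * G) =
            Real.exp (-(b * (vC E k α j + b * e0 E))) * Real.exp (2 * (G + b / 2 * F j)) := by
            rw [← Real.exp_add, ← Real.exp_add]
            congr 1
            ring
        _ ≤ Real.exp (-(b * (vC E k α j + b * e0 E))) * (4 * Pf E κ' (ap (ad (aN n k) j (b / 2)) α) t) :=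
            mul_le_mul_of_nonneg_left u1 (Real.exp_pos _).le
        _ = 4 * tN E κ' b k α j t := by unfold tN; ring
        _ < 4 * (4 * Real.exp (2 * G)) := by linarith
        _ = _ := by ring
    have h3 := lt_of_mul_lt_mul_right h2 (Real.exp_pos _).le
    rw [← Real.lt_log_iff_exp_lt (by norm_num)] at h3
    have h5 : F j - (vC E k α j + b * e0 E) < Real.log 16 / b := by
      rw [lt_div_iff₀ hb]
      linarith
    linarith
  · obtain ⟨-, u1⟩ := Pf_ap (S := S) hE hκ hS0 (a := ad (aN n k) j (-(b / 2))) (α := α) (by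
      have h1 := abs_ad (aN n k) j (-(b / 2))
      rw [abs_neg, abs_of_pos (by linarith : 0 < b / 2)] at h1
      linarith) hG
    simp only [hFj] at u1
    rw [sum_ad, ← hGd] at u1
    have h1 : uN E κ' b k α j t < 4 * Real.exp (2 * G) := by
      have := hst j
      have := tN_nonneg E κ' b k α j t
      linarith
    have h2 : Real.exp (b * (vC E k α j - b * e0 E) - b * F j) * Real.exp (2 * G) < 16 * Real.exp (2 * G) := by
      calc Real.exp (b * (vC E k α j - b * e0 E) - b * F j) * Real.exp (2 * G) =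
            Real.exp (b * (vC E k α j - b * e0 E)) * Real.exp (2 * (G + -(b / 2) * F j)) := by
            rw [← Real.exp_add, ← Real.exp_add]
            congr 1
            ring
        _ ≤ Real.exp (b * (vC E k α j - b * e0 E)) * (4 * Pf E κ' (ap (ad (aN n k) j (-(b / 2))) α) t) :=
            mul_le_mul_of_nonneg_left u1 (Real.exp_pos _).le
        _ = 4 * uN E κ' b k α j t := by unfold uN; ring
        _ < 4 * (4 * Real.exp (2 * G)) := by linarith
        _ = _ := by ring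
    have h3 := lt_of_mul_lt_mul_right h2 (Real.exp_pos _).le
    rw [← Real.lt_log_iff_exp_lt (by norm_num)] at h3
    have h5 : (vC E k α j - b * e0 E) - F j < Real.log 16 / b := by
      rw [lt_div_iff₀ hb]
      linarith
    linarith

/-- the exponents `1/n` except at one point -/
def oneE (n : ℕ) (j i : Fin n) : ℝ := if i = j then 0 else 1 / n

theorem zpr_split (j : Fin n) (α : Fin n → ℝ) (t : ℝ) :
    zpr (fun _ => 1 / (n : ℝ)) α t = ‖zt (t + α j)‖ ^ (2 / (n : ℝ)) * zpr (oneE n j) α t := by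
  unfold zpr oneE
  rw [← Finset.mul_prod_erase Finset.univ _ (Finset.mem_univ j), ← Finset.mul_prod_erase Finset.univ (fun i => ‖zt (t + α i)‖ ^ (2 * if i = j then (0 : ℝ) else 1 / n))
    (Finset.mem_univ j)]
  rw [if_pos rfl, mul_zero, Real.rpow_zero, one_mul]
  congr 1
  · congr 1
    ring
  · refine Finset.prod_congr rfl fun i hi => ?_
    rw [if_neg (Finset.ne_of_mem_erase hi)]

theorem zpr_sq (α : Fin n → ℝ) (t : ℝ) : zpr (fun _ => 1 / (n : ℝ)) α t ^ 2 = zpr (fun _ => 2 / (n : ℝ)) α t := by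
  unfold zpr
  rw [← Finset.prod_pow]
  refine Finset.prod_congr rfl fun i _ => ?_
  rw [← Real.rpow_natCast, ← Real.rpow_mul (norm_nonneg _)]
  congr 1
  push_cast
  ring

/-- the weight of a point below its level -/
def dN (n : ℕ) (E b : ℝ) : ℝ := 16 * Real.exp (2 / n * (Real.log 16 / b - 2 * b * e0 E))

/-- the weight of the second moment -/
def eN (E b : ℝ) (k α : Fin n → ℝ) : ℝ := 64 * Real.exp (2 * QE E k α + 2 * (b * e0 E + Real.log 16 / b) * ∑ j, k j)

/-- the indicator of the set where all the values are large -/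
def allab (lam α : Fin n → ℝ) (t : ℝ) : ℝ := Set.indicator {t : ℝ | ∀ j, lam j < ‖zt (t + α j)‖} (fun _ => (1 : ℝ)) t

theorem allab_nonneg (lam α : Fin n → ℝ) (t : ℝ) : 0 ≤ allab lam α t := by
  unfold allab
  exact Set.indicator_nonneg (fun _ _ => zero_le_one) _

theorem allab_one {lam α : Fin n → ℝ} {t : ℝ} (h : ∀ j, lam j < ‖zt (t + α j)‖) : allab lam α t = 1 := by
  unfold allab
  rw [Set.indicator_of_mem]
  exact h

/-- **the pointwise inequality** -/
theorem pointN {E κ' S b μ : ℝ} {k α : Fin n → ℝ} {t : ℝ} (hE : 1 ≤ E) (hκ : 16 ≤ κ') (hb : 0 < b) (hb1 : b ≤ 1) (hn : 0 < n) (hμ : 0 < μ)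
    (hk : ∀ j, 0 ≤ k j) (hS : ∑ j, k j + 3 ≤ S) :
    zpr (fun _ => 1 / (n : ℝ)) α t * wN E κ' S b k α t ≤
      ∑ j, dN n E b * (zpr (oneE n j) α t * Pf E κ' (ap (ad (aN n k) j (1 / n)) α) t) +
      μ / 2 * eN E b k α * (zpr (fun _ => 2 / (n : ℝ)) α t * Pf E κ' (ap (fun j => k j - 2 / n) α) t) +
      1 / (2 * μ) * allab (fun j => Real.exp (vC E k α j - 3 * b * e0 E)) α t := by
  have hn0 : (0 : ℝ) < n := by exact_mod_cast hn
  have hn1 : (1 : ℝ) ≤ n := by exact_mod_cast hn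
  have hk0 : 0 ≤ ∑ j, k j := Finset.sum_nonneg fun j _ => hk j
  have hS0 : 0 < S := by linarith
  have hd0 : 0 ≤ dN n E b := by unfold dN; positivity
  have he0 : 0 ≤ eN E b k α := by unfold eN; positivity
  have hterm : ∀ j, 0 ≤ dN n E b * (zpr (oneE n j) α t * Pf E κ' (ap (ad (aN n k) j (1 / n)) α) t) := fun j =>
    mul_nonneg hd0 (mul_nonneg (zpr_nonneg _ _ _) (Pf_nonneg _ _ _ _))
  have hsum0 : 0 ≤ ∑ j, dN n E b * (zpr (oneE n j) α t * Pf E κ' (ap (ad (aN n k) j (1 / n)) α) t) := Finset.sum_nonneg fun j _ => hterm j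
  have hmid0 : 0 ≤ μ / 2 * eN E b k α * (zpr (fun _ => 2 / (n : ℝ)) α t * Pf E κ' (ap (fun j => k j - 2 / n) α) t) :=
    mul_nonneg (by positivity) (mul_nonneg (zpr_nonneg _ _ _) (Pf_nonneg _ _ _ _))
  have hind0 : 0 ≤ 1 / (2 * μ) * allab (fun j => Real.exp (vC E k α j - 3 * b * e0 E)) α t := mul_nonneg (by positivity) (allab_nonneg _ _ _)
  rcases le_or_gt (wN E κ' S b k α t) 0 with hw | hw
  · have h1 := mul_nonpos_of_nonneg_of_nonpos (zpr_nonneg (fun _ => 1 / (n : ℝ)) α t) hw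
    linarith
  · obtain ⟨hG, g1, g2, g3⟩ := wN_pos hE hκ hb hb1 hn hk hS hw
    have haN := abs_aN hn hk
    obtain ⟨F, hF⟩ : ∃ F : Fin n → ℝ, F = fun j => FJ E (JB E) (t + α j) := ⟨_, rfl⟩
    have hFj : ∀ j, FJ E (JB E) (t + α j) = F j := fun j => by rw [hF]
    simp only [hFj] at g1 g2 g3
    obtain ⟨q, hq⟩ : ∃ q : ℝ, q = wN E κ' S b k α t := ⟨_, rfl⟩
    rw [← hq] at g1 hw ⊢
    obtain ⟨ℓ, hℓ⟩ : ∃ ℓ : ℝ, ℓ = Real.log 16 / b := ⟨_, rfl⟩
    rw [← hℓ] at g2 g3
    by_cases hall : ∀ j, Real.exp (vC E k α j - 3 * b * e0 E) < ‖zt (t + α j)‖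
    · rw [allab_one hall, mul_one]
      obtain ⟨-, u1⟩ := Pf_ap (S := S) hE hκ hS0 (a := fun j => k j - 2 / n) (α := α) (by
        have h2 : ∀ j, |k j - 2 / (n : ℝ)| ≤ k j + 2 / n := by
          intro j
          have h3 : (0 : ℝ) < 2 / n := by positivity
          rw [abs_le]
          constructor <;> linarith [hk j]
        refine (Finset.sum_le_sum fun i _ => h2 i).trans ?_
        rw [Finset.sum_add_distrib, Finset.sum_const, Finset.card_univ, Fintype.card_fin, nsmul_eq_mul]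
        have : (n : ℝ) * (2 / n) = 2 := by field_simp
        linarith) hG
      simp only [hFj] at u1
      obtain ⟨Z1, hZ1⟩ : ∃ Z1 : ℝ, Z1 = zpr (fun _ => 1 / (n : ℝ)) α t := ⟨_, rfl⟩
      have hZ10 : 0 ≤ Z1 := by rw [hZ1]; exact zpr_nonneg _ _ _
      have hZ2 := zpr_sq α t
      rw [← hZ1] at hZ2 ⊢
      rw [← hZ2]
      have h1 : Z1 * q ≤ μ / 2 * (Z1 * q) ^ 2 + 1 / (2 * μ) := by
        obtain ⟨z, hz⟩ : ∃ z : ℝ, z = Z1 * q := ⟨_, rfl⟩
        rw [← hz]
        have h2 : 0 ≤ (μ * z - 1) ^ 2 / (2 * μ) := by positivity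
        have h3 : (μ * z - 1) ^ 2 / (2 * μ) = μ / 2 * z ^ 2 + 1 / (2 * μ) - z := by
          field_simp
          ring
        linarith
      have h2 : (Z1 * q) ^ 2 ≤ eN E b k α * (Z1 ^ 2 * Pf E κ' (ap (fun j => k j - 2 / n) α) t) := by
        have h3 : q ^ 2 ≤ (4 * Real.exp (2 * ∑ j, aN n k j * F j)) ^ 2 := pow_le_pow_left₀ hw.le g1 2
        have hsplit : 2 * (2 * ∑ j, aN n k j * F j) = 2 * (∑ j, (k j - 2 / n) * F j) + 2 * ∑ j, k j * F j := by
          rw [Finset.mul_sum, Finset.mul_sum, Finset.mul_sum, Finset.mul_sum, ← Finset.sum_add_distrib]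
          refine Finset.sum_congr rfl fun j _ => ?_
          unfold aN
          ring
        have h4 : (4 * Real.exp (2 * ∑ j, aN n k j * F j)) ^ 2 =
            16 * (Real.exp (2 * ∑ j, (k j - 2 / n) * F j) * Real.exp (2 * ∑ j, k j * F j)) := by
          rw [mul_pow, ← Real.exp_nat_mul, ← Real.exp_add]
          have : ((2 : ℕ) : ℝ) * (2 * ∑ j, aN n k j * F j) = 2 * (∑ j, (k j - 2 / n) * F j) + 2 * ∑ j, k j * F j := by
            push_cast
            exact hsplit
          rw [this]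
          norm_num
        have h5 : 2 * ∑ j, k j * F j ≤ 2 * QE E k α + 2 * (b * e0 E + ℓ) * ∑ j, k j := by
          have h6 : ∑ j, k j * F j ≤ ∑ j, k j * (vC E k α j + b * e0 E + ℓ) :=
            Finset.sum_le_sum fun j _ => mul_le_mul_of_nonneg_left (g2 j).le (hk j)
          have h7 : ∑ j, k j * (vC E k α j + b * e0 E + ℓ) = QE E k α + (b * e0 E + ℓ) * ∑ j, k j := by
            unfold QE
            rw [Finset.mul_sum, ← Finset.sum_add_distrib]
            exact Finset.sum_congr rfl fun j _ => by ring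
          linarith
        have hP0 : 0 ≤ Pf E κ' (ap (fun j => k j - 2 / n) α) t := Pf_nonneg _ _ _ _
        calc (Z1 * q) ^ 2 = Z1 ^ 2 * q ^ 2 := by ring
          _ ≤ Z1 ^ 2 * (16 * (4 * Pf E κ' (ap (fun j => k j - 2 / n) α) t * Real.exp (2 * QE E k α + 2 * (b * e0 E + ℓ) * ∑ j, k j))) := by
              apply mul_le_mul_of_nonneg_left _ (by positivity)
              rw [h4] at h3
              refine h3.trans ?_
              apply mul_le_mul_of_nonneg_left _ (by norm_num)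
              exact mul_le_mul u1 (Real.exp_le_exp.2 h5) (Real.exp_pos _).le (by positivity)
          _ = _ := by unfold eN; rw [← hℓ]; ring
      have h6 := mul_le_mul_of_nonneg_left h2 (by linarith : 0 ≤ μ / 2)
      linarith
    · push Not at hall
      obtain ⟨j, hj⟩ := hall
      have hs0 : 0 ≤ ‖zt (t + α j)‖ := norm_nonneg _
      obtain ⟨-, u1⟩ := Pf_ap (S := S) hE hκ hS0 (a := ad (aN n k) j (1 / n)) (α := α) (by
        have h1 := abs_ad (aN n k) j (1 / n)
        rw [abs_of_pos (by positivity : (0 : ℝ) < 1 / n)] at h1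
        have h2 : (1 : ℝ) / n ≤ 1 := by rw [div_le_one hn0]; exact hn1
        linarith) hG
      simp only [hFj] at u1
      rw [sum_ad] at u1
      have h1 : zpr (fun _ => 1 / (n : ℝ)) α t * q ≤ dN n E b * (zpr (oneE n j) α t * Pf E κ' (ap (ad (aN n k) j (1 / n)) α) t) := by
        rw [zpr_split j α t]
        have h2 : ‖zt (t + α j)‖ ^ (2 / (n : ℝ)) ≤ Real.exp (2 / n * (vC E k α j - 3 * b * e0 E)) := by
          calc ‖zt (t + α j)‖ ^ (2 / (n : ℝ)) ≤ Real.exp (vC E k α j - 3 * b * e0 E) ^ (2 / (n : ℝ)) := Real.rpow_le_rpow hs0 hj (by positivity)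
            _ = _ := by rw [← Real.exp_mul, mul_comm]
        have h3 : Real.exp (2 * ∑ i, aN n k i * F i) ≤ Real.exp (-(2 / n * (vC E k α j - b * e0 E - ℓ))) * Real.exp (2 * (∑ i, aN n k i * F i + 1 / n * F j)) := by
          rw [← Real.exp_add]
          apply Real.exp_le_exp.2
          have h4 : 2 / n * (vC E k α j - b * e0 E - ℓ) ≤ 2 / n * F j := mul_le_mul_of_nonneg_left (g3 j).le (by positivity)
          have h5 : 2 * (∑ i, aN n k i * F i + 1 / n * F j) = 2 * ∑ i, aN n k i * F i + 2 / n * F j := by ring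
          rw [h5]
          linarith
        have hz0 : 0 ≤ zpr (oneE n j) α t := zpr_nonneg _ _ _
        have hP0 : 0 ≤ Pf E κ' (ap (ad (aN n k) j (1 / n)) α) t := Pf_nonneg _ _ _ _
        calc ‖zt (t + α j)‖ ^ (2 / (n : ℝ)) * zpr (oneE n j) α t * q ≤
            Real.exp (2 / n * (vC E k α j - 3 * b * e0 E)) * zpr (oneE n j) α t *
              (4 * (Real.exp (-(2 / n * (vC E k α j - b * e0 E - ℓ))) * (4 * Pf E κ' (ap (ad (aN n k) j (1 / n)) α) t))) := by
              apply mul_le_mul _ _ hw.le (by positivity)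
              · exact mul_le_mul_of_nonneg_right h2 hz0
              · refine g1.trans ?_
                apply mul_le_mul_of_nonneg_left _ (by norm_num)
                refine h3.trans ?_
                exact mul_le_mul_of_nonneg_left u1 (Real.exp_pos _).le
          _ = 16 * (Real.exp (2 / n * (vC E k α j - 3 * b * e0 E)) * Real.exp (-(2 / n * (vC E k α j - b * e0 E - ℓ)))) *
              (zpr (oneE n j) α t * Pf E κ' (ap (ad (aN n k) j (1 / n)) α) t) := by ring
          _ = _ := by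
              rw [← Real.exp_add]
              unfold dN
              rw [← hℓ]
              congr 3
              ring
      have h2 := Finset.single_le_sum (f := fun j => dN n E b * (zpr (oneE n j) α t * Pf E κ' (ap (ad (aN n k) j (1 / n)) α) t))
        (fun i _ => hterm i) (Finset.mem_univ j)
      have h3 : zpr (fun _ => 1 / (n : ℝ)) α t * q ≤ ∑ j, dN n E b * (zpr (oneE n j) α t * Pf E κ' (ap (ad (aN n k) j (1 / n)) α) t) := h1.trans h2
      linarith

end

end Pool.Agent.H469.F4
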