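import Pool.Agent.H469.F4.T3

set_option autoImplicit false

/-!
# Several points: the integrals
-/

namespace Pool.Agent.H469.F4

open Filter Topology MeasureTheory Complex Pool.Agent.Q97.UM
open Pool.Agent.Q14.UM (mem_PB PB_disj cv_len)
open Pool.Agent.Results.MP_fa2474_nt.OrderForEveryPolynomial (order order_eq sum_close norm_ap_le sum_prime ap_sq)

noncomputable section

variable {n : ℕ}

/-- the sum over the primes is `log E + O(1)` -/
theorem e0_log : ∃ C : ℝ, 0 ≤ C ∧ ∀ E : ℝ, 1 ≤ E → |e0 E - Real.log E| ≤ C := by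
  obtain ⟨C, hC, h⟩ := PS_quad (B := 1) (by norm_num)
  refine ⟨C, hC, fun E hE => ?_⟩
  have h1 := h E 1 0 0 0 0 (by simpa using hE) (by simpa using hE) (by norm_num) (by norm_num) (by norm_num)
  unfold e0
  simpa using h1

theorem e0_nonneg (E : ℝ) : 0 ≤ e0 E := by
  unfold e0 PS
  exact Finset.sum_nonneg fun p _ => by positivity

theorem allab_open (lam α : Fin n → ℝ) : IsOpen {t : ℝ | ∀ j, lam j < ‖zt (t + α j)‖} := by
  have h1 : {t : ℝ | ∀ j, lam j < ‖zt (t + α j)‖} = ⋂ j, {t : ℝ | lam j < ‖zt (t + α j)‖} := by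
    ext t
    simp
  rw [h1]
  exact isOpen_iInter_of_finite fun j => isOpen_lt continuous_const ((ztc.comp (by fun_prop)).norm)

theorem allab_int (lam α : Fin n → ℝ) (S T : ℝ) : IntervalIntegrable (allab lam α) volume S T := by
  have h1 : IntervalIntegrable (fun _ : ℝ => (1 : ℝ)) volume S T := continuous_const.intervalIntegrable _ _
  exact ⟨h1.1.indicator (allab_open lam α).measurableSet, h1.2.indicator (allab_open lam α).measurableSet⟩

theorem allab_eq (lam α : Fin n → ℝ) {T : ℝ} (hT : 0 ≤ T) :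
    ∫ t in T..(2 * T), allab lam α t = (volume {t : ℝ | t ∈ Set.Icc T (2 * T) ∧ ∀ j, lam j < ‖zt (t + α j)‖}).toReal := by
  rw [intervalIntegral.integral_of_le (by linarith), ← integral_Icc_eq_integral_Ioc]
  unfold allab
  rw [integral_indicator (allab_open lam α).measurableSet, setIntegral_const, smul_eq_mul, mul_one]
  unfold Measure.real
  rw [Measure.restrict_apply (allab_open lam α).measurableSet]
  congr 2
  ext t
  constructor
  · rintro ⟨h1, h2⟩
    exact ⟨h2, h1⟩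
  · rintro ⟨h1, h2⟩
    exact ⟨h2, h1⟩

/-- the properties of the weights used below -/
def KitN (n : ℕ) (E κ' B c₀ C M T : ℝ) : Prop := ∀ k α : Fin n → ℝ, (∀ j, 0 ≤ k j) → ∑ j, k j ≤ 2 → (∀ j, |α j| ≤ T / 2) → ∀ y : ℕ → ℂ, (∀ p, ‖y p‖ ≤ B) →
      ∃ Q : ℝ, c₀ * VV E (ap k α) y ≤ Q ∧ Q ≤ C * VV E (ap k α) y ∧
        T * Q ≤ ∫ t in T..(2 * T), zpr k α t * Pf E κ' y t ∧
        ∫ t in T..(2 * T), zpr k α t * Pf E κ' y t ≤ C * (T * Q) ∧
        ∀ w : ℕ → ℂ, (∀ p, ‖w p‖ ≤ B) → ∑ j ∈ Finset.range (JB E), ∫ t in T..(2 * T), zpr k α t *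
          Pf E κ' y t * ‖pw E κ' w (fun _ => 0) (j + 1) t‖ ^ 2 ≤ 1 / M * (T * Q)

theorem kit_up {E κ' B c₀ C M T : ℝ} (h : KitN n E κ' B c₀ C M T) (hC : 0 < C) (hT : 0 < T) {k α a : Fin n → ℝ} (hk : ∀ j, 0 ≤ k j) (hk2 : ∑ j, k j ≤ 2)
    (hα : ∀ j, |α j| ≤ T / 2) (ha : ∑ j, |a j| ≤ B) :
    ∫ t in T..(2 * T), zpr k α t * Pf E κ' (ap a α) t ≤ C ^ 2 * (T * Real.exp (QE E (fun j => k j + a j) α)) := by
  obtain ⟨Q, q1, q2, q3, q4, q5⟩ := h k α hk hk2 hα (ap a α) (fun p => norm_ap_le ha α p)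
  rw [VV_ap] at q2
  calc ∫ t in T..(2 * T), zpr k α t * Pf E κ' (ap a α) t ≤ C * (T * Q) := q4
    _ ≤ C * (T * (C * Real.exp (QE E (fun j => k j + a j) α))) := by gcongr
    _ = _ := by ring

/-- **the integral of the weight** -/
theorem wN_low {E κ' B c₀ C T S b : ℝ} {k α : Fin n → ℝ} (h : KitN n E κ' B c₀ C (8 * n) T) (hC : 0 < C) (hT : 0 < T)
    (hn : 0 < n) (hb : 0 < b) (hb1 : b ≤ 1) (hk : ∀ j, 0 ≤ k j) (hα : ∀ j, |α j| ≤ T / 2) (hS0 : 0 ≤ S) (hSB : S ≤ B) (hKB : ∑ j, k j + 3 ≤ B)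
    (hsmall : 2 * n * (C ^ 2 * Real.exp (-(3 / 4 * b ^ 2 * e0 E))) ≤ c₀ / 8) :
    3 / 4 * (c₀ * (T * Real.exp (QE E k α))) ≤ ∫ t in T..(2 * T), zpr (fun _ => 1 / (n : ℝ)) α t * wN E κ' S b k α t := by
  have hn0 : (0 : ℝ) < n := by exact_mod_cast hn
  have haN := abs_aN hn hk
  obtain ⟨o, ho⟩ : ∃ o : Fin n → ℝ, o = fun _ => 1 / (n : ℝ) := ⟨_, rfl⟩
  have ho0 : ∀ j, 0 ≤ o j := fun j => by rw [ho]; positivity
  have ho1 : ∑ j, o j ≤ 2 := by
    rw [ho, Finset.sum_const, Finset.card_univ, Fintype.card_fin, nsmul_eq_mul]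
    have : (n : ℝ) * (1 / n) = 1 := by field_simp
    linarith
  rw [← ho]
  obtain ⟨P, hP⟩ : ∃ P : ℝ → ℝ, P = Pf E κ' (ap (aN n k) α) := ⟨_, rfl⟩
  obtain ⟨Q, q1, q2, q3, q4, q5⟩ := h o α ho0 ho1 hα (ap (aN n k) α) (fun p => norm_ap_le (by linarith : ∑ j, |aN n k j| ≤ B) α p)
  rw [VV_ap] at q1 q2
  have hok : (fun j => o j + aN n k j) = k := by
    funext j
    rw [ho]
    unfold aN
    ring
  rw [hok] at q1 q2
  obtain ⟨A, hA⟩ : ∃ A : ℝ, A = Real.exp (QE E k α) := ⟨_, rfl⟩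
  have hA0 : 0 < A := by rw [hA]; exact Real.exp_pos _
  rw [← hA] at q1 q2 ⊢
  rw [← hP] at q3 q4 q5
  have zc : Continuous (zpr o α) := zpr_cont ho0 α
  have Pc : Continuous P := by rw [hP]; exact Pf_cont _ _ _
  -- the parts
  have ht : ∀ j, ∫ t in T..(2 * T), zpr o α t * tN E κ' b k α j t ≤ C ^ 2 * (T * A) * Real.exp (-(3 / 4 * b ^ 2 * e0 E)) := by
    intro j
    have e1 : ∀ t, zpr o α t * tN E κ' b k α j t = Real.exp (-(b * (vC E k α j + b * e0 E))) * (zpr o α t * Pf E κ' (ap (ad (aN n k) j (b / 2)) α) t) := by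
      intro t
      unfold tN
      ring
    simp only [e1]
    rw [intervalIntegral.integral_const_mul]
    have h1 := kit_up (a := ad (aN n k) j (b / 2)) h hC hT ho0 ho1 hα (by
      have h1 := abs_ad (aN n k) j (b / 2)
      rw [abs_of_pos (by linarith : 0 < b / 2)] at h1
      linarith)
    have e2 : (fun i => o i + ad (aN n k) j (b / 2) i) = fun i => k i + if i = j then b / 2 else 0 := by
      funext i
      rw [ho]
      unfold ad aN
      ring
    rw [e2, QE_add] at h1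
    refine (mul_le_mul_of_nonneg_left h1 (Real.exp_pos _).le).trans (le_of_eq ?_)
    rw [hA]
    have e3 : Real.exp (-(b * (vC E k α j + b * e0 E))) * Real.exp (QE E k α + 2 * (b / 2) * vC E k α j + (b / 2) ^ 2 * e0 E) =
        Real.exp (QE E k α) * Real.exp (-(3 / 4 * b ^ 2 * e0 E)) := by
      rw [← Real.exp_add, ← Real.exp_add]
      congr 1
      ring
    calc Real.exp (-(b * (vC E k α j + b * e0 E))) * (C ^ 2 * (T * Real.exp (QE E k α + 2 * (b / 2) * vC E k α j + (b / 2) ^ 2 * e0 E))) =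
        C ^ 2 * T * (Real.exp (-(b * (vC E k α j + b * e0 E))) * Real.exp (QE E k α + 2 * (b / 2) * vC E k α j + (b / 2) ^ 2 * e0 E)) := by ring
      _ = _ := by rw [e3]; ring
  have hu : ∀ j, ∫ t in T..(2 * T), zpr o α t * uN E κ' b k α j t ≤ C ^ 2 * (T * A) * Real.exp (-(3 / 4 * b ^ 2 * e0 E)) := by
    intro j
    have e1 : ∀ t, zpr o α t * uN E κ' b k α j t = Real.exp (b * (vC E k α j - b * e0 E)) * (zpr o α t * Pf E κ' (ap (ad (aN n k) j (-(b / 2))) α) t) := by
      intro t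
      unfold uN
      ring
    simp only [e1]
    rw [intervalIntegral.integral_const_mul]
    have h1 := kit_up (a := ad (aN n k) j (-(b / 2))) h hC hT ho0 ho1 hα (by
      have h1 := abs_ad (aN n k) j (-(b / 2))
      rw [abs_neg, abs_of_pos (by linarith : 0 < b / 2)] at h1
      linarith)
    have e2 : (fun i => o i + ad (aN n k) j (-(b / 2)) i) = fun i => k i + if i = j then -(b / 2) else 0 := by
      funext i
      rw [ho]
      unfold ad aN
      ring
    rw [e2, QE_add] at h1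
    refine (mul_le_mul_of_nonneg_left h1 (Real.exp_pos _).le).trans (le_of_eq ?_)
    rw [hA]
    have e3 : Real.exp (b * (vC E k α j - b * e0 E)) * Real.exp (QE E k α + 2 * (-(b / 2)) * vC E k α j + (-(b / 2)) ^ 2 * e0 E) =
        Real.exp (QE E k α) * Real.exp (-(3 / 4 * b ^ 2 * e0 E)) := by
      rw [← Real.exp_add, ← Real.exp_add]
      congr 1
      ring
    calc Real.exp (b * (vC E k α j - b * e0 E)) * (C ^ 2 * (T * Real.exp (QE E k α + 2 * (-(b / 2)) * vC E k α j + (-(b / 2)) ^ 2 * e0 E))) =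
        C ^ 2 * T * (Real.exp (b * (vC E k α j - b * e0 E)) * Real.exp (QE E k α + 2 * (-(b / 2)) * vC E k α j + (-(b / 2)) ^ 2 * e0 E)) := by ring
      _ = _ := by rw [e3]; ring
  have hp : ∀ j, ∫ t in T..(2 * T), zpr o α t * (P t * pW E κ' S (α j) t) ≤ 1 / (8 * n) * (T * Q) := by
    intro j
    have h1 := q5 (wS S (α j)) (fun p => (wS_norm hS0 (α j) p).trans hSB)
    have h2 : ∫ t in T..(2 * T), zpr o α t * (P t * pW E κ' S (α j) t) =
        ∑ l ∈ Finset.range (JB E), ∫ t in T..(2 * T), zpr o α t * P t * ‖pw E κ' (wS S (α j)) (fun _ => 0) (l + 1) t‖ ^ 2 := by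
      unfold pW
      simp only [← mul_assoc]
      simp only [Finset.mul_sum]
      exact intervalIntegral.integral_finsetSum fun l _ => ((zc.mul Pc).mul ((Pool.Agent.Q184.UM.pw_cont _ _ _ _ _).norm.pow 2)).intervalIntegrable _ _
    rw [h2]
    exact h1
  -- the sum
  have hsplit : ∀ t, zpr o α t * wN E κ' S b k α t = zpr o α t * P t - (∑ j, (zpr o α t * tN E κ' b k α j t + zpr o α t * uN E κ' b k α j t) +
      ∑ j, zpr o α t * (P t * pW E κ' S (α j) t)) := by
    intro t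
    unfold wN
    rw [← hP, ← Finset.mul_sum, ← Finset.mul_sum]
    simp only [← mul_add]
    rw [← Finset.mul_sum]
    ring
  simp only [hsplit]
  have i1 : IntervalIntegrable (fun t => zpr o α t * P t) volume T (2 * T) := (zc.mul Pc).intervalIntegrable _ _
  have it : ∀ j, IntervalIntegrable (fun t => zpr o α t * tN E κ' b k α j t) volume T (2 * T) := fun j => (zc.mul (tN_cont _ _ _ _ _ _)).intervalIntegrable _ _
  have iu : ∀ j, IntervalIntegrable (fun t => zpr o α t * uN E κ' b k α j t) volume T (2 * T) := fun j => (zc.mul (uN_cont _ _ _ _ _ _)).intervalIntegrable _ _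
  have ip : ∀ j, IntervalIntegrable (fun t => zpr o α t * (P t * pW E κ' S (α j) t)) volume T (2 * T) := fun j =>
    (zc.mul (Pc.mul (pW_cont _ _ _ _))).intervalIntegrable _ _
  have itu : IntervalIntegrable (fun t => ∑ j, (zpr o α t * tN E κ' b k α j t + zpr o α t * uN E κ' b k α j t)) volume T (2 * T) :=
    (continuous_finsetSum _ fun j _ => (zc.mul (tN_cont _ _ _ _ _ _)).add (zc.mul (uN_cont _ _ _ _ _ _))).intervalIntegrable _ _
  have ips : IntervalIntegrable (fun t => ∑ j, zpr o α t * (P t * pW E κ' S (α j) t)) volume T (2 * T) :=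
    (continuous_finsetSum _ fun j _ => zc.mul (Pc.mul (pW_cont _ _ _ _))).intervalIntegrable _ _
  rw [intervalIntegral.integral_sub i1 (itu.add ips), intervalIntegral.integral_add itu ips,
    intervalIntegral.integral_finsetSum fun j _ => (it j).add (iu j), intervalIntegral.integral_finsetSum fun j _ => ip j]
  have s1 : ∑ j, ∫ t in T..(2 * T), (zpr o α t * tN E κ' b k α j t + zpr o α t * uN E κ' b k α j t) ≤
      2 * n * (C ^ 2 * (T * A) * Real.exp (-(3 / 4 * b ^ 2 * e0 E))) := by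
    have h1 : ∀ j, ∫ t in T..(2 * T), (zpr o α t * tN E κ' b k α j t + zpr o α t * uN E κ' b k α j t) ≤
        2 * (C ^ 2 * (T * A) * Real.exp (-(3 / 4 * b ^ 2 * e0 E))) := by
      intro j
      rw [intervalIntegral.integral_add (it j) (iu j)]
      linarith [ht j, hu j]
    refine (Finset.sum_le_sum fun j _ => h1 j).trans (le_of_eq ?_)
    rw [Finset.sum_const, Finset.card_univ, Fintype.card_fin, nsmul_eq_mul]
    ring
  have s2 : ∑ j, ∫ t in T..(2 * T), zpr o α t * (P t * pW E κ' S (α j) t) ≤ 1 / 8 * (T * Q) := by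
    refine (Finset.sum_le_sum fun j _ => hp j).trans (le_of_eq ?_)
    rw [Finset.sum_const, Finset.card_univ, Fintype.card_fin, nsmul_eq_mul]
    field_simp
  have s3 : 2 * n * (C ^ 2 * (T * A) * Real.exp (-(3 / 4 * b ^ 2 * e0 E))) ≤ c₀ / 8 * (T * A) := by
    have := mul_le_mul_of_nonneg_right hsmall (by positivity : 0 ≤ T * A)
    linarith
  have s4 : T * (c₀ * A) ≤ T * Q := mul_le_mul_of_nonneg_left q1 hT.le
  linarith

/-- **the upper bound for the integral of the weight** -/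
theorem wN_up {E κ' B c₀ C M T S b μ : ℝ} {k α : Fin n → ℝ} (h : KitN n E κ' B c₀ C M T) (hC : 0 < C) (hT : 0 < T) (hE : 1 ≤ E) (hκ : 16 ≤ κ')
    (hn : 0 < n) (hb : 0 < b) (hb1 : b ≤ 1) (hμ : 0 < μ) (hk : ∀ j, 0 ≤ k j) (hα : ∀ j, |α j| ≤ T / 2) (hS : ∑ j, k j + 3 ≤ S) (hKB : ∑ j, k j + 3 ≤ B) :
    ∫ t in T..(2 * T), zpr (fun _ => 1 / (n : ℝ)) α t * wN E κ' S b k α t ≤ n * dN n E b * (C ^ 2 * (T * Real.exp (QE E k α))) +
      μ / 2 * eN E b k α * (C ^ 2 * (T * Real.exp (QE E k α))) +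
      1 / (2 * μ) * ∫ t in T..(2 * T), allab (fun j => Real.exp (vC E k α j - 3 * b * e0 E)) α t := by
  have hn0 : (0 : ℝ) < n := by exact_mod_cast hn
  have hn1 : (1 : ℝ) ≤ n := by exact_mod_cast hn
  have haN := abs_aN hn hk
  have hk0 : 0 ≤ ∑ j, k j := Finset.sum_nonneg fun j _ => hk j
  have hd0 : 0 ≤ dN n E b := by unfold dN; positivity
  have he0 : 0 ≤ eN E b k α := by unfold eN; positivity
  have one0 : ∀ i : Fin n, (0 : ℝ) ≤ (fun _ : Fin n => 1 / (n : ℝ)) i := fun i => by positivity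
  have two0 : ∀ i : Fin n, (0 : ℝ) ≤ (fun _ : Fin n => 2 / (n : ℝ)) i := fun i => by positivity
  have two2 : ∑ i : Fin n, (fun _ : Fin n => 2 / (n : ℝ)) i ≤ 2 := by
    rw [Finset.sum_const, Finset.card_univ, Fintype.card_fin, nsmul_eq_mul]
    have : (n : ℝ) * (2 / n) = 2 := by field_simp
    linarith
  have oneE0 : ∀ j i : Fin n, 0 ≤ oneE n j i := by
    intro j i
    unfold oneE
    split_ifs
    · exact le_rfl
    · positivity
  have oneE2 : ∀ j : Fin n, ∑ i, oneE n j i ≤ 2 := by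
    intro j
    have h1 : ∀ i, oneE n j i ≤ 1 / n := by
      intro i
      unfold oneE
      split_ifs
      · positivity
      · exact le_rfl
    refine (Finset.sum_le_sum fun i _ => h1 i).trans ?_
    rw [Finset.sum_const, Finset.card_univ, Fintype.card_fin, nsmul_eq_mul]
    have : (n : ℝ) * (1 / n) = 1 := by field_simp
    linarith
  obtain ⟨A, hA⟩ : ∃ A : ℝ, A = Real.exp (QE E k α) := ⟨_, rfl⟩
  rw [← hA]
  have h1 : ∀ j, ∫ t in T..(2 * T), zpr (oneE n j) α t * Pf E κ' (ap (ad (aN n k) j (1 / n)) α) t ≤ C ^ 2 * (T * A) := by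
    intro j
    have h2 := kit_up (a := ad (aN n k) j (1 / n)) h hC hT (oneE0 j) (oneE2 j) hα (by
      have h1 := abs_ad (aN n k) j (1 / n)
      rw [abs_of_pos (by positivity : (0 : ℝ) < 1 / n)] at h1
      have h2 : (1 : ℝ) / n ≤ 1 := by rw [div_le_one hn0]; exact hn1
      linarith)
    have e1 : (fun i => oneE n j i + ad (aN n k) j (1 / n) i) = k := by
      funext i
      unfold oneE ad aN
      split_ifs <;> ring
    rw [e1, ← hA] at h2
    exact h2
  have h2 : ∫ t in T..(2 * T), zpr (fun _ => 2 / (n : ℝ)) α t * Pf E κ' (ap (fun j => k j - 2 / n) α) t ≤ C ^ 2 * (T * A) := by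
    have h3 := kit_up (a := fun j => k j - 2 / (n : ℝ)) h hC hT two0 two2 hα (by
      have h2 : ∀ j, |k j - 2 / (n : ℝ)| ≤ k j + 2 / n := by
        intro j
        have h3 : (0 : ℝ) < 2 / n := by positivity
        rw [abs_le]
        constructor <;> linarith [hk j]
      refine (Finset.sum_le_sum fun i _ => h2 i).trans ?_
      rw [Finset.sum_add_distrib, Finset.sum_const, Finset.card_univ, Fintype.card_fin, nsmul_eq_mul]
      have : (n : ℝ) * (2 / n) = 2 := by field_simp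
      linarith)
    have e1 : (fun j => 2 / (n : ℝ) + (k j - 2 / n)) = k := by
      funext i
      ring
    rw [e1, ← hA] at h3
    exact h3
  have c1 : ∀ j, Continuous fun t => dN n E b * (zpr (oneE n j) α t * Pf E κ' (ap (ad (aN n k) j (1 / n)) α) t) := fun j =>
    continuous_const.mul ((zpr_cont (oneE0 j) α).mul (Pf_cont _ _ _))
  have c2 : Continuous fun t => μ / 2 * eN E b k α * (zpr (fun _ => 2 / (n : ℝ)) α t * Pf E κ' (ap (fun j => k j - 2 / n) α) t) :=
    continuous_const.mul ((zpr_cont two0 α).mul (Pf_cont _ _ _))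
  have c3 : Continuous fun t => ∑ j, dN n E b * (zpr (oneE n j) α t * Pf E κ' (ap (ad (aN n k) j (1 / n)) α) t) := continuous_finsetSum _ fun j _ => c1 j
  have i4 := (allab_int (fun j => Real.exp (vC E k α j - 3 * b * e0 E)) α T (2 * T)).const_mul (1 / (2 * μ))
  have c32 : Continuous fun t => (∑ j, dN n E b * (zpr (oneE n j) α t * Pf E κ' (ap (ad (aN n k) j (1 / n)) α) t)) +
      μ / 2 * eN E b k α * (zpr (fun _ => 2 / (n : ℝ)) α t * Pf E κ' (ap (fun j => k j - 2 / n) α) t) := c3.add c2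
  have i32 : IntervalIntegrable (fun t => (∑ j, dN n E b * (zpr (oneE n j) α t * Pf E κ' (ap (ad (aN n k) j (1 / n)) α) t)) +
      μ / 2 * eN E b k α * (zpr (fun _ => 2 / (n : ℝ)) α t * Pf E κ' (ap (fun j => k j - 2 / n) α) t)) volume T (2 * T) := c32.intervalIntegrable _ _
  have i0 : IntervalIntegrable (fun t => zpr (fun _ => 1 / (n : ℝ)) α t * wN E κ' S b k α t) volume T (2 * T) :=
    ((zpr_cont one0 α).mul (wN_cont _ _ _ _ _ _)).intervalIntegrable _ _
  have h3 := intervalIntegral.integral_mono_on (by linarith : T ≤ 2 * T) i0 (i32.add i4) fun t _ => pointN hE hκ hb hb1 hn hμ hk hS (α := α) (t := t)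
  rw [intervalIntegral.integral_add i32 i4, intervalIntegral.integral_add (c3.intervalIntegrable _ _) (c2.intervalIntegrable _ _),
    intervalIntegral.integral_finsetSum fun j _ => (c1 j).intervalIntegrable _ _, intervalIntegral.integral_const_mul,
    intervalIntegral.integral_const_mul] at h3
  refine h3.trans ?_
  have h4 : ∑ j, ∫ t in T..(2 * T), dN n E b * (zpr (oneE n j) α t * Pf E κ' (ap (ad (aN n k) j (1 / n)) α) t) ≤ n * dN n E b * (C ^ 2 * (T * A)) := by
    have h5 : ∀ j, ∫ t in T..(2 * T), dN n E b * (zpr (oneE n j) α t * Pf E κ' (ap (ad (aN n k) j (1 / n)) α) t) ≤ dN n E b * (C ^ 2 * (T * A)) := by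
      intro j
      rw [intervalIntegral.integral_const_mul]
      exact mul_le_mul_of_nonneg_left (h1 j) hd0
    refine (Finset.sum_le_sum fun j _ => h5 j).trans (le_of_eq ?_)
    rw [Finset.sum_const, Finset.card_univ, Fintype.card_fin, nsmul_eq_mul]
    ring
  have h5 := mul_le_mul_of_nonneg_left h2 (by positivity : 0 ≤ μ / 2 * eN E b k α)
  linarith

end

end Pool.Agent.H469.F4
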