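import Pool.Agent.H469.F4.T4

set_option autoImplicit false

/-!
# Several points: large deviations at all levels
-/

namespace Pool.Agent.H469.F4

open Filter Topology MeasureTheory Complex Pool.Agent.Q97.UM
open Pool.Agent.Q14.UM (mem_PB PB_disj cv_len)
open Pool.Agent.Results.MP_fa2474_nt.OrderForEveryPolynomial (order order_eq sum_close norm_ap_le sum_prime ap_sq)

noncomputable section

variable {n : ℕ}

/-- **the lower bound, in terms of the sums over the primes** -/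
theorem ldN_core (hn : 0 < n) {K b : ℝ} (hK : 0 ≤ K) (hb : 0 < b) (hb1 : b ≤ 1) : ∃ δ c C : ℝ, 0 < δ ∧ δ ≤ 1 ∧ 0 < c ∧ 0 < C ∧ ∀ᶠ T : ℝ in atTop,
    1 ≤ δ * Real.log T ∧
    (∀ k α : Fin n → ℝ, (∀ j, 0 ≤ k j) → ∑ j, k j ≤ K → (∀ j, |α j| ≤ T / 2) →
      c * T * Real.exp (-QE (δ * Real.log T) k α - 2 * b * K * e0 (δ * Real.log T)) ≤
        ∫ t in T..(2 * T), allab (fun j => Real.exp (vC (δ * Real.log T) k α j - 3 * b * e0 (δ * Real.log T))) α t) ∧
    ∀ k α : Fin n → ℝ, (∀ j, 0 ≤ k j) → ∑ j, k j ≤ 2 → (∀ j, |α j| ≤ T / 2) →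
      ∫ t in T..(2 * T), zpr k α t ≤ C * T * Real.exp (QE (δ * Real.log T) k α) := by
  have hn0 : (0 : ℝ) < n := by exact_mod_cast hn
  obtain ⟨B, hB⟩ : ∃ B : ℝ, B = K + 3 := ⟨_, rfl⟩
  obtain ⟨δ, κ', c₀, C, hδ, hδ1, hκ, hc₀, hC, hev⟩ := toolkitN n (M := 8 * n) (B := B) (by positivity) (by linarith)
  obtain ⟨C₁, hC₁, hlog⟩ := e0_log
  obtain ⟨ℓ, hℓ⟩ : ∃ ℓ : ℝ, ℓ = Real.log 16 / b := ⟨_, rfl⟩
  have hℓ0 : 0 ≤ ℓ := by
    rw [hℓ]
    have := Real.log_nonneg (by norm_num : (1 : ℝ) ≤ 16)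
    positivity
  -- the sum over the primes is large
  have hE : Tendsto (fun T : ℝ => Real.log (δ * Real.log T) - C₁) atTop atTop :=
    tendsto_atTop_add_const_right _ _ (Real.tendsto_log_atTop.comp (Real.tendsto_log_atTop.const_mul_atTop hδ))
  have t1 : ∀ᶠ x : ℝ in atTop, 2 * n * (C ^ 2 * Real.exp (-(3 / 4 * b ^ 2 * x))) ≤ c₀ / 8 := by
    have h1 : Tendsto (fun x : ℝ => 2 * n * (C ^ 2 * Real.exp (-(3 / 4 * b ^ 2 * x)))) atTop (𝓝 (2 * n * (C ^ 2 * 0))) :=
      ((Real.tendsto_exp_neg_atTop_nhds_zero.comp (tendsto_id.const_mul_atTop (by positivity))).const_mul _).const_mul _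
    rw [mul_zero, mul_zero] at h1
    filter_upwards [h1.eventually_lt_const (by positivity : (0 : ℝ) < c₀ / 8)] with x hx
    exact hx.le
  have t2 : ∀ᶠ x : ℝ in atTop, n * (16 * (Real.exp (2 / n * ℓ) * Real.exp (-(4 * b / n * x)))) * C ^ 2 ≤ c₀ / 8 := by
    have h1 : Tendsto (fun x : ℝ => n * (16 * (Real.exp (2 / n * ℓ) * Real.exp (-(4 * b / n * x)))) * C ^ 2) atTop
        (𝓝 (n * (16 * (Real.exp (2 / n * ℓ) * 0)) * C ^ 2)) :=
      ((((Real.tendsto_exp_neg_atTop_nhds_zero.comp (tendsto_id.const_mul_atTop (by positivity))).const_mul _).const_mul _).const_mul _).mul_const _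
    rw [mul_zero, mul_zero, mul_zero, zero_mul] at h1
    filter_upwards [h1.eventually_lt_const (by positivity : (0 : ℝ) < c₀ / 8)] with x hx
    exact hx.le
  obtain ⟨x₀, hx₀⟩ := eventually_atTop.1 (t1.and t2)
  refine ⟨δ, c₀ ^ 2 / (256 * C ^ 2 * Real.exp (2 * ℓ * K)), C ^ 2, hδ, hδ1, by positivity, by positivity, ?_⟩
  filter_upwards [hev, hE.eventually_ge_atTop x₀, eventually_ge_atTop (16 : ℝ)] with T hev hx hT16
  obtain ⟨hE1, htk⟩ := hev
  obtain ⟨E, hEd⟩ : ∃ E : ℝ, E = δ * Real.log T := ⟨_, rfl⟩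
  rw [← hEd] at hE1 htk hx ⊢
  have hT0 : 0 < T := by linarith
  have htk : KitN n E κ' B c₀ C (8 * n) T := htk
  have he0 : x₀ ≤ e0 E := by
    have h1 := (abs_le.1 (hlog E hE1)).1
    linarith
  obtain ⟨s1, s2⟩ := hx₀ (e0 E) he0
  have he00 := e0_nonneg E
  refine ⟨hE1, fun k α hk hkK hα => ?_, fun k α hk hk2 hα => ?_⟩
  · have hk0 : 0 ≤ ∑ j, k j := Finset.sum_nonneg fun j _ => hk j
    have h1 := wN_low (S := B) (k := k) (α := α) htk hC hT0 hn hb hb1 hk hα (by linarith) le_rfl (by linarith) s1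
    obtain ⟨X, hX⟩ : ∃ X : ℝ, X = eN E b k α := ⟨_, rfl⟩
    have hX0 : 0 < X := by rw [hX]; unfold eN; positivity
    have hμ0 : 0 < c₀ / (4 * X * C ^ 2) := by positivity
    have h2 := wN_up (S := B) (μ := c₀ / (4 * X * C ^ 2)) (k := k) (α := α) htk hC hT0 hE1 hκ hn hb hb1 hμ0 hk hα (by linarith) (by linarith)
    rw [← hX] at h2
    obtain ⟨I, hI⟩ : ∃ I : ℝ, I = ∫ t in T..(2 * T), allab (fun j => Real.exp (vC E k α j - 3 * b * e0 E)) α t := ⟨_, rfl⟩
    rw [← hI] at h2 ⊢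
    obtain ⟨A, hA⟩ : ∃ A : ℝ, A = Real.exp (QE E k α) := ⟨_, rfl⟩
    have hA0 : 0 < A := by rw [hA]; exact Real.exp_pos _
    rw [← hA] at h1 h2
    have h3 : n * dN n E b * (C ^ 2 * (T * A)) ≤ c₀ / 8 * (T * A) := by
      have e1 : dN n E b = 16 * (Real.exp (2 / n * ℓ) * Real.exp (-(4 * b / n * e0 E))) := by
        unfold dN
        rw [← hℓ, ← Real.exp_add]
        congr 2
        ring
      have h4 := mul_le_mul_of_nonneg_right s2 (by positivity : 0 ≤ T * A)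
      rw [e1]
      linarith
    have h4 : c₀ / (4 * X * C ^ 2) / 2 * X * (C ^ 2 * (T * A)) = c₀ / 8 * (T * A) := by
      field_simp
      norm_num
    have h5 : 1 / (2 * (c₀ / (4 * X * C ^ 2))) * I = 2 * X * C ^ 2 / c₀ * I := by
      field_simp
      norm_num
    rw [h4, h5] at h2
    have h6 : c₀ / 2 * (T * A) ≤ 2 * X * C ^ 2 / c₀ * I := by linarith
    have h7 : c₀ ^ 2 * (T * A) ≤ 4 * X * C ^ 2 * I := by
      have h8 := mul_le_mul_of_nonneg_left h6 (by positivity : 0 ≤ 2 * c₀)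
      have e1 : 2 * c₀ * (2 * X * C ^ 2 / c₀ * I) = 4 * X * C ^ 2 * I := by field_simp; ring
      rw [e1] at h8
      linarith
    -- the size of the second moment
    have hXle : X ≤ 64 * (A ^ 2 * (Real.exp (2 * b * K * e0 E) * Real.exp (2 * ℓ * K))) := by
      rw [hX]
      unfold eN
      rw [← hℓ, hA, ← Real.exp_nat_mul, ← Real.exp_add, ← Real.exp_add]
      apply mul_le_mul_of_nonneg_left _ (by norm_num)
      apply Real.exp_le_exp.2
      have h8 : 2 * (b * e0 E + ℓ) * ∑ j, k j ≤ 2 * (b * e0 E + ℓ) * K := mul_le_mul_of_nonneg_left hkK (by positivity)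
      push_cast
      linarith
    have hI0 : 0 ≤ I := by
      rw [hI]
      exact intervalIntegral.integral_nonneg (by linarith) fun t _ => allab_nonneg _ _ _
    have h8 : c₀ ^ 2 * (T * A) ≤ 256 * A ^ 2 * (Real.exp (2 * b * K * e0 E) * Real.exp (2 * ℓ * K)) * C ^ 2 * I := by
      refine h7.trans ?_
      have h9 := mul_le_mul_of_nonneg_right hXle (by positivity : 0 ≤ 4 * C ^ 2 * I)
      linarith
    have h9 : Real.exp (-QE E k α - 2 * b * K * e0 E) = 1 / (A * Real.exp (2 * b * K * e0 E)) := by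
      rw [Real.exp_sub, Real.exp_neg, ← hA]
      field_simp
    rw [h9]
    have h10 : c₀ ^ 2 / (256 * C ^ 2 * Real.exp (2 * ℓ * K)) * T * (1 / (A * Real.exp (2 * b * K * e0 E))) =
        c₀ ^ 2 * (T * A) / (256 * A ^ 2 * (Real.exp (2 * b * K * e0 E) * Real.exp (2 * ℓ * K)) * C ^ 2) := by
      field_simp
    rw [h10, div_le_iff₀ (by positivity)]
    linarith
  · have h1 := kit_up (a := fun _ => 0) htk hC hT0 hk hk2 hα (by simp; linarith)
    have e1 : (fun j => k j + (fun _ : Fin n => (0 : ℝ)) j) = k := by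
      funext j
      simp
    rw [e1] at h1
    have e2 : ∀ t, Pf E κ' (ap (fun _ : Fin n => (0 : ℝ)) α) t = 1 := by
      intro t
      have h2 : ap (fun _ : Fin n => (0 : ℝ)) α = fun _ => 0 := by
        funext p
        unfold ap
        simp
      rw [h2]
      exact Pf_zero hE1 hκ t
    simp only [e2, mul_one] at h1
    linarith

end

end Pool.Agent.H469.F4
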