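import Pool.Agent.H469.F4.T5

set_option autoImplicit false

/-!
# Several points: large deviations in terms of zeta near the 1-line
-/

namespace Pool.Agent.H469.F4

open Filter Topology MeasureTheory Complex Pool.Agent.Q97.UM
open Pool.Agent.Q14.UM (mem_PB PB_disj cv_len)
open Pool.Agent.Results.MP_fa2474_nt.OrderForEveryPolynomial (order order_eq sum_close norm_ap_le sum_prime ap_sq)

noncomputable section

variable {n : ℕ}

/-- the logarithm of zeta near the 1-line -/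
def Zl (T u : ℝ) : ℝ := Real.log ‖riemannZeta (1 + 1 / Real.log T + u * I)‖

/-- the levels for a given covariance -/
def lR (R : Fin n → Fin n → ℝ) (k : Fin n → ℝ) (j : Fin n) : ℝ := ∑ l, k l * R j l

/-- the quadratic form of a covariance -/
def qR (R : Fin n → Fin n → ℝ) (k : Fin n → ℝ) : ℝ := ∑ j, k j * lR R k j

theorem lR_close {R R' : Fin n → Fin n → ℝ} {k : Fin n → ℝ} {C K : ℝ} (h : ∀ j l, |R j l - R' j l| ≤ C) (hC : 0 ≤ C) (hk : ∀ j, 0 ≤ k j) (hK : ∑ j, k j ≤ K) (j : Fin n) :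
    |lR R k j - lR R' k j| ≤ K * C := by
  unfold lR
  rw [← Finset.sum_sub_distrib]
  calc |∑ l, (k l * R j l - k l * R' j l)| ≤ ∑ l, |k l * R j l - k l * R' j l| := Finset.abs_sum_le_sum_abs _ _
    _ ≤ ∑ l, k l * C := Finset.sum_le_sum fun l _ => by
        rw [← mul_sub, abs_mul, abs_of_nonneg (hk l)]
        exact mul_le_mul_of_nonneg_left (h j l) (hk l)
    _ = (∑ l, k l) * C := by rw [Finset.sum_mul]
    _ ≤ K * C := mul_le_mul_of_nonneg_right hK hC

theorem qR_close {R R' : Fin n → Fin n → ℝ} {k : Fin n → ℝ} {C K : ℝ} (h : ∀ j l, |R j l - R' j l| ≤ C) (hC : 0 ≤ C) (hk : ∀ j, 0 ≤ k j) (hK : ∑ j, k j ≤ K) (hK0 : 0 ≤ K) :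
    |qR R k - qR R' k| ≤ K ^ 2 * C := by
  unfold qR
  rw [← Finset.sum_sub_distrib]
  calc |∑ j, (k j * lR R k j - k j * lR R' k j)| ≤ ∑ j, |k j * lR R k j - k j * lR R' k j| := Finset.abs_sum_le_sum_abs _ _
    _ ≤ ∑ j, k j * (K * C) := Finset.sum_le_sum fun j _ => by
        rw [← mul_sub, abs_mul, abs_of_nonneg (hk j)]
        exact mul_le_mul_of_nonneg_left (lR_close h hC hk hK j) (hk j)
    _ = (∑ j, k j) * (K * C) := by rw [Finset.sum_mul]
    _ ≤ K * (K * C) := mul_le_mul_of_nonneg_right hK (by positivity)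
    _ = _ := by ring

theorem allab_mono {lam lam' α : Fin n → ℝ} (h : ∀ j, lam' j ≤ lam j) (t : ℝ) : allab lam α t ≤ allab lam' α t := by
  unfold allab
  apply Set.indicator_le_indicator_of_subset
  · intro s hs j
    exact lt_of_le_of_lt (h j) (hs j)
  · intro _
    exact zero_le_one

theorem allab_int_mono {lam lam' α : Fin n → ℝ} (h : ∀ j, lam' j ≤ lam j) {T : ℝ} (hT : 0 ≤ T) :
    ∫ t in T..(2 * T), allab lam α t ≤ ∫ t in T..(2 * T), allab lam' α t :=
  intervalIntegral.integral_mono_on (by linarith) (allab_int _ _ _ _) (allab_int _ _ _ _) fun t _ => allab_mono h t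

/-- **large deviations in terms of zeta near the 1-line** -/
theorem ldN_zeta (hn : 0 < n) {K ε : ℝ} (hK : 0 ≤ K) (hε : 0 < ε) : ∀ᶠ T : ℝ in atTop, ∀ k α : Fin n → ℝ, (∀ j, 0 ≤ k j) → (∀ j, |α j| ≤ T / 2) →
    (∑ j, k j ≤ K → T * Real.exp (-qR (fun j l => Zl T (α j - α l)) k - ε * Real.log (Real.log T)) ≤
      ∫ t in T..(2 * T), allab (fun j => Real.exp (lR (fun j l => Zl T (α j - α l)) k j - ε * Real.log (Real.log T))) α t) ∧
    (∑ j, k j ≤ 2 → ∫ t in T..(2 * T), zpr k α t ≤ T * Real.exp (qR (fun j l => Zl T (α j - α l)) k + ε * Real.log (Real.log T))) := by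
  obtain ⟨b, hb⟩ : ∃ b : ℝ, b = min 1 (ε / (6 * (K + 1))) := ⟨_, rfl⟩
  have hb0 : 0 < b := by rw [hb]; exact lt_min one_pos (by positivity)
  have hb1 : b ≤ 1 := by rw [hb]; exact min_le_left _ _
  have hbε : b * (6 * (K + 1)) ≤ ε := by
    have h1 : b ≤ ε / (6 * (K + 1)) := by rw [hb]; exact min_le_right _ _
    rwa [le_div_iff₀ (by positivity)] at h1
  have hbK : 0 ≤ b * K := by positivity
  obtain ⟨δ, c, C, hδ, hδ1, hc, hC, hev⟩ := ldN_core hn hK hb0 hb1
  obtain ⟨Cz, hz⟩ := Pool.Agent.Q149.UM.t_MZ δ hδ hδ1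
  obtain ⟨Cw, hCw⟩ : ∃ Cw : ℝ, Cw = max Cz 0 := ⟨_, rfl⟩
  have hCw0 : 0 ≤ Cw := by rw [hCw]; exact le_max_right _ _
  obtain ⟨C₁, hC₁, hlog⟩ := e0_log
  have hℓ : Tendsto (fun T : ℝ => Real.log (Real.log T)) atTop atTop := Real.tendsto_log_atTop.comp Real.tendsto_log_atTop
  obtain ⟨W, hW⟩ : ∃ W : ℝ, W = (3 * C₁ + K * Cw) + (K ^ 2 * Cw + 2 * K * C₁ + |Real.log c|) + (4 * Cw + |Real.log C|) := ⟨_, rfl⟩
  filter_upwards [hev, hz, hℓ.eventually_ge_atTop (2 / ε * W), eventually_ge_atTop (16 : ℝ), Real.tendsto_log_atTop.eventually_ge_atTop 1,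
    hℓ.eventually_ge_atTop 0] with T hev gz hbig hT16 hL1 hℓ0
  obtain ⟨hE1, hlow, hup⟩ := hev
  obtain ⟨E, hEd⟩ : ∃ E : ℝ, E = δ * Real.log T := ⟨_, rfl⟩
  obtain ⟨ℓ, hℓd⟩ : ∃ ℓ : ℝ, ℓ = Real.log (Real.log T) := ⟨_, rfl⟩
  rw [← hEd] at hE1 hlow hup
  rw [← hℓd] at hbig hℓ0
  simp only [← hℓd]
  have hT0 : 0 < T := by linarith
  have hL0 : 0 < Real.log T := by linarith
  have hbig' : W ≤ ε / 2 * ℓ := by
    rw [div_mul_eq_mul_div, div_le_iff₀ hε] at hbig
    linarith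
  have he0 : e0 E ≤ ℓ + C₁ := by
    have h1 := (abs_le.1 (hlog E hE1)).2
    have h2 : Real.log E ≤ ℓ := by
      rw [hℓd]
      apply Real.log_le_log (by linarith)
      rw [hEd]
      nlinarith
    linarith
  have he00 := e0_nonneg E
  have hKC1 : 0 ≤ K * C₁ := by positivity
  have hKCw : 0 ≤ K * Cw := by positivity
  have hK2Cw : 0 ≤ K ^ 2 * Cw := by positivity
  have hac := abs_nonneg (Real.log c)
  have haC := abs_nonneg (Real.log C)
  intro k α hk hα
  have hexpE : Real.exp E = T ^ δ := by rw [Real.rpow_def_of_pos hT0, mul_comm, hEd]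
  have hclose : ∀ j l : Fin n, |(fun j l => eC E α j l) j l - (fun j l => Zl T (α j - α l)) j l| ≤ Cw := by
    intro j l
    have h1 := gz (α j - α l)
    have h2 : eC E α j l = ∑ p ∈ (Finset.Icc 1 ⌊T ^ δ⌋₊).filter Nat.Prime, Real.cos ((α j - α l) * Real.log p) / p := by
      unfold eC PS
      rw [hexpE]
    show |eC E α j l - Zl T (α j - α l)| ≤ Cw
    rw [h2, hCw]
    unfold Zl
    exact h1.trans (le_max_left _ _)
  have hvC : ∀ j, vC E k α j = lR (fun j l => eC E α j l) k j := fun j => rfl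
  have hQE : QE E k α = qR (fun j l => eC E α j l) k := rfl
  refine ⟨fun hkK => ?_, fun hk2 => ?_⟩
  · have h1 := hlow k α hk hkK hα
    have h2 := allab_int_mono (lam := fun j => Real.exp (vC E k α j - 3 * b * e0 E))
      (lam' := fun j => Real.exp (lR (fun j l => Zl T (α j - α l)) k j - ε * ℓ)) (α := α) (fun j => by
        apply Real.exp_le_exp.2
        have h3 := (abs_le.1 (lR_close hclose hCw0 hk hkK j)).1
        rw [← hvC] at h3
        have h4 : 3 * b * e0 E ≤ 3 * b * (ℓ + C₁) := mul_le_mul_of_nonneg_left he0 (by positivity)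
        have h5 : 3 * b ≤ ε / 2 := by nlinarith
        have h6 : 3 * b * ℓ ≤ ε / 2 * ℓ := mul_le_mul_of_nonneg_right h5 hℓ0
        have h7 : 3 * b * C₁ ≤ 3 * C₁ := by nlinarith
        linarith) hT0.le
    refine le_trans ?_ (h1.trans h2)
    have h3 := (abs_le.1 (qR_close hclose hCw0 hk hkK hK)).2
    rw [← hQE] at h3
    have h4 : Real.exp (-qR (fun j l => Zl T (α j - α l)) k - ε * ℓ) ≤ c * Real.exp (-QE E k α - 2 * b * K * e0 E) := by
      have h5 : c = Real.exp (Real.log c) := (Real.exp_log hc).symm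
      rw [h5, ← Real.exp_add]
      apply Real.exp_le_exp.2
      have h6 : 2 * b * K * e0 E ≤ 2 * b * K * (ℓ + C₁) := mul_le_mul_of_nonneg_left he0 (by positivity)
      have h7 : 2 * b * K ≤ ε / 2 := by nlinarith
      have h8 : 2 * b * K * ℓ ≤ ε / 2 * ℓ := mul_le_mul_of_nonneg_right h7 hℓ0
      have h9 : 2 * b * K * C₁ ≤ 2 * K * C₁ := by nlinarith
      have h10 := neg_abs_le (Real.log c)
      linarith
    calc T * Real.exp (-qR (fun j l => Zl T (α j - α l)) k - ε * ℓ) ≤ T * (c * Real.exp (-QE E k α - 2 * b * K * e0 E)) :=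
          mul_le_mul_of_nonneg_left h4 hT0.le
      _ = _ := by ring
  · have h1 := hup k α hk hk2 hα
    refine h1.trans ?_
    have h3 := (abs_le.1 (qR_close hclose hCw0 hk hk2 (by norm_num))).2
    rw [← hQE] at h3
    have h4 : C * Real.exp (QE E k α) ≤ Real.exp (qR (fun j l => Zl T (α j - α l)) k + ε * ℓ) := by
      have h5 : C = Real.exp (Real.log C) := (Real.exp_log hC).symm
      rw [h5, ← Real.exp_add]
      apply Real.exp_le_exp.2
      have h10 := le_abs_self (Real.log C)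
      have h11 : 0 ≤ ε / 2 * ℓ := by positivity
      linarith
    calc C * T * Real.exp (QE E k α) = T * (C * Real.exp (QE E k α)) := by ring
      _ ≤ _ := mul_le_mul_of_nonneg_left h4 hT0.le

/-- the overlap of two points -/
def ov (T u : ℝ) : ℝ := -Real.log (max (1 / Real.log T) |u|) / Real.log (Real.log T)

/-- zeta near the 1-line in a window -/
theorem Zl_ov : ∃ C : ℝ, 0 ≤ C ∧ ∀ᶠ T : ℝ in atTop, ∀ u : ℝ, |u| ≤ 1 → |Zl T u - Real.log (Real.log T) * ov T u| ≤ C := by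
  obtain ⟨c, K, hc, hK, hbox⟩ := zeta_box
  have hl0 := abs_nonneg (Real.log K)
  have hl1 := abs_nonneg (Real.log c)
  refine ⟨|Real.log K| + |Real.log c| + 1, by positivity, ?_⟩
  have hℓ : Tendsto (fun T : ℝ => Real.log (Real.log T)) atTop atTop := Real.tendsto_log_atTop.comp Real.tendsto_log_atTop
  filter_upwards [Real.tendsto_log_atTop.eventually_ge_atTop 1, hℓ.eventually_gt_atTop 0] with T hL1 hℓ0 u hu
  obtain ⟨D, hD⟩ : ∃ D : ℝ, D = Real.log T := ⟨_, rfl⟩
  unfold Zl ov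
  rw [← hD] at hL1 hℓ0 ⊢
  have hD0 : 0 < D := by linarith
  have e0 : (1 + 1 / (D : ℂ) + u * I : ℂ) = ((1 + 1 / D : ℝ) : ℂ) + ((u : ℝ) : ℂ) * I := by push_cast; ring
  have e1 : (1 + 1 / (D : ℂ) + u * I : ℂ).re = 1 + 1 / D := by
    rw [e0]
    simp
  have e2 : (1 + 1 / (D : ℂ) + u * I : ℂ).im = u := by
    rw [e0]
    simp
  have e3 : (1 + 1 / (D : ℂ) + u * I : ℂ) - 1 = ((1 / D : ℝ) : ℂ) + ((u : ℝ) : ℂ) * I := by push_cast; ring
  have hD1 : 1 / D ≤ 1 := by
    rw [div_le_one hD0]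
    exact hL1
  have hD2 : 0 < 1 / D := by positivity
  have h4 := hbox (1 + 1 / (D : ℂ) + u * I) (by rw [e1]; linarith) (by rw [e1]; linarith) (by rw [e2]; exact hu) (by
    intro h
    rw [h] at e1
    simp at e1
    linarith)
  obtain ⟨m, hm⟩ : ∃ m : ℝ, m = max (1 / D) |u| := ⟨_, rfl⟩
  have hm0 : 0 < m := by rw [hm]; exact lt_of_lt_of_le hD2 (le_max_left _ _)
  obtain ⟨N, hN⟩ : ∃ N : ℝ, N = ‖(1 + 1 / (D : ℂ) + u * I : ℂ) - 1‖ := ⟨_, rfl⟩
  have h5 : N ≤ 2 * m := by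
    rw [hN, e3]
    refine (norm_add_le _ _).trans ?_
    rw [norm_mul, Complex.norm_I, mul_one, Complex.norm_real, Complex.norm_real, Real.norm_eq_abs, Real.norm_eq_abs, abs_of_pos hD2]
    have h6 := le_max_left (1 / D) |u|
    have h7 := le_max_right (1 / D) |u|
    rw [← hm] at h6 h7
    linarith
  have h6 : m ≤ N := by
    rw [hN, hm, e3]
    have h5 := Complex.abs_re_le_norm (((1 / D : ℝ) : ℂ) + ((u : ℝ) : ℂ) * I)
    have h6 := Complex.abs_im_le_norm (((1 / D : ℝ) : ℂ) + ((u : ℝ) : ℂ) * I)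
    simp only [Complex.add_re, Complex.ofReal_re, Complex.mul_re, Complex.I_re, mul_zero, Complex.ofReal_im, Complex.I_im, mul_one,
      sub_self, add_zero, Complex.add_im, Complex.mul_im, zero_add] at h5 h6
    rw [abs_of_pos hD2] at h5
    exact max_le h5 h6
  rw [← hN] at h4
  rw [← hm]
  obtain ⟨Z, hZ⟩ : ∃ Z : ℝ, Z = ‖riemannZeta (1 + 1 / (D : ℂ) + u * I)‖ := ⟨_, rfl⟩
  rw [← hZ] at h4 ⊢
  have hN0 : 0 < N := by linarith
  have hZ0 : 0 < Z := by
    by_contra h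
    have h10 : Z ≤ 0 := not_lt.1 h
    have h11 := h4.1
    have h12 : N * Z ≤ 0 := mul_nonpos_of_nonneg_of_nonpos hN0.le h10
    linarith
  have g1 := Real.log_le_log hc h4.1
  have g2 := Real.log_le_log (by positivity) h4.2
  rw [Real.log_mul hN0.ne' hZ0.ne'] at g1 g2
  have g3 := Real.log_le_log hm0 h6
  have g4 := Real.log_le_log hN0 h5
  rw [Real.log_mul (by norm_num) hm0.ne'] at g4
  have g5 := Real.log_two_lt_d9
  have e4 : Real.log D * (-Real.log m / Real.log D) = -Real.log m := by field_simp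
  rw [e4]
  have g6 := le_abs_self (Real.log K)
  have g7 := neg_abs_le (Real.log c)
  rw [abs_le]
  constructor <;> linarith

theorem ov_zero {T : ℝ} (hℓ : 0 < Real.log (Real.log T)) (hL : 0 < Real.log T) : ov T 0 = 1 := by
  unfold ov
  rw [abs_zero, max_eq_left (by positivity), one_div, Real.log_inv, neg_neg, div_self hℓ.ne']

theorem ov_neg (T u : ℝ) : ov T (-u) = ov T u := by
  unfold ov
  rw [abs_neg]

theorem ov_nonneg {T u : ℝ} (hℓ : 0 < Real.log (Real.log T)) (hL : 1 ≤ Real.log T) (hu : |u| ≤ 1) : 0 ≤ ov T u := by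
  unfold ov
  apply div_nonneg _ hℓ.le
  rw [neg_nonneg]
  apply Real.log_nonpos
  · exact le_max_of_le_right (abs_nonneg u)
  · apply max_le _ hu
    rw [div_le_one (by linarith)]
    exact hL

/-- **large deviations in a window** -/
theorem ldN_window (hn : 0 < n) {K ε : ℝ} (hK : 0 ≤ K) (hε : 0 < ε) : ∀ᶠ T : ℝ in atTop, ∀ k α : Fin n → ℝ, (∀ j, 0 ≤ k j) → (∀ j, |α j| ≤ T / 2) →
    (∀ j l, |α j - α l| ≤ 1) →
    (∑ j, k j ≤ K → T * Real.log T ^ (-qR (fun j l => ov T (α j - α l)) k - ε) ≤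
      ∫ t in T..(2 * T), allab (fun j => Real.log T ^ (lR (fun j l => ov T (α j - α l)) k j - ε)) α t) ∧
    (∑ j, k j ≤ 2 → ∫ t in T..(2 * T), zpr k α t ≤ T * Real.log T ^ (qR (fun j l => ov T (α j - α l)) k + ε)) := by
  obtain ⟨C, hC, h1⟩ := Zl_ov
  have hℓ : Tendsto (fun T : ℝ => Real.log (Real.log T)) atTop atTop := Real.tendsto_log_atTop.comp Real.tendsto_log_atTop
  filter_upwards [h1, ldN_zeta hn hK (by linarith : 0 < ε / 2), hℓ.eventually_ge_atTop (2 / ε * (K * C + K ^ 2 * C + 4 * C)), eventually_gt_atTop (0 : ℝ),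
    Real.tendsto_log_atTop.eventually_ge_atTop 1, hℓ.eventually_gt_atTop 0] with T h1 h2 hbig hT0 hL1 hℓ0 k α hk hα hw
  obtain ⟨g1, g2⟩ := h2 k α hk hα
  have hL0 : 0 < Real.log T := by linarith
  obtain ⟨ℓ, hℓd⟩ : ∃ ℓ : ℝ, ℓ = Real.log (Real.log T) := ⟨_, rfl⟩
  rw [← hℓd] at hbig hℓ0 g1 g2
  have hbig' : K * C + K ^ 2 * C + 4 * C ≤ ε / 2 * ℓ := by
    rw [div_mul_eq_mul_div, div_le_iff₀ hε] at hbig
    linarith
  have hKC : 0 ≤ K * C := by positivity
  have hK2C : 0 ≤ K ^ 2 * C := by positivity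
  have hrp : ∀ x : ℝ, Real.log T ^ x = Real.exp (ℓ * x) := fun x => by rw [Real.rpow_def_of_pos hL0, hℓd]
  have hclose : ∀ j l : Fin n, |(fun j l => Zl T (α j - α l)) j l - (fun j l => ℓ * ov T (α j - α l)) j l| ≤ C := by
    intro j l
    have := h1 (α j - α l) (hw j l)
    rw [← hℓd] at this
    exact this
  have el : ∀ j, lR (fun j l => ℓ * ov T (α j - α l)) k j = ℓ * lR (fun j l => ov T (α j - α l)) k j := by
    intro j
    unfold lR
    rw [Finset.mul_sum]
    exact Finset.sum_congr rfl fun l _ => by ring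
  have eq' : qR (fun j l => ℓ * ov T (α j - α l)) k = ℓ * qR (fun j l => ov T (α j - α l)) k := by
    unfold qR
    rw [Finset.mul_sum]
    exact Finset.sum_congr rfl fun j _ => by rw [el j]; ring
  refine ⟨fun hkK => ?_, fun hk2 => ?_⟩
  · have h3 := (abs_le.1 (qR_close hclose hC hk hkK hK)).2
    rw [eq'] at h3
    have h4 := allab_int_mono (lam := fun j => Real.exp (lR (fun j l => Zl T (α j - α l)) k j - ε / 2 * ℓ))
      (lam' := fun j => Real.log T ^ (lR (fun j l => ov T (α j - α l)) k j - ε)) (α := α) (fun j => by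
        show Real.log T ^ (lR (fun j l => ov T (α j - α l)) k j - ε) ≤ _
        rw [hrp]
        apply Real.exp_le_exp.2
        have h3 := (abs_le.1 (lR_close hclose hC hk hkK j)).1
        rw [el] at h3
        linarith) hT0.le
    refine le_trans ?_ ((g1 hkK).trans h4)
    rw [hrp]
    apply mul_le_mul_of_nonneg_left _ hT0.le
    apply Real.exp_le_exp.2
    linarith
  · have h3 := (abs_le.1 (qR_close hclose hC hk hk2 (by norm_num))).2
    rw [eq'] at h3
    refine (g2 hk2).trans ?_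
    rw [hrp]
    apply mul_le_mul_of_nonneg_left _ hT0.le
    apply Real.exp_le_exp.2
    linarith

end

end Pool.Agent.H469.F4
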