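import Pool.Agent.H469.F4.T6

set_option autoImplicit false

/-!
# Several points: the rate
-/

namespace Pool.Agent.H469.F4

open Filter Topology MeasureTheory Complex Pool.Agent.Q97.UM

noncomputable section

variable {n : ℕ}

/-- the value of the dual problem -/
def dV (R : Fin n → Fin n → ℝ) (v k : Fin n → ℝ) : ℝ := 2 * ∑ j, k j * v j - qR R k

/-- one coefficient changed -/
def sh (k : Fin n → ℝ) (j : Fin n) (s : ℝ) (i : Fin n) : ℝ := k i + if i = j then s else 0

theorem lR_sh {R : Fin n → Fin n → ℝ} (k : Fin n → ℝ) (j i : Fin n) (s : ℝ) : lR R (sh k j s) i = lR R k i + s * R i j := by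
  unfold lR sh
  have h2 : ∀ l, (k l + if l = j then s else 0) * R i l = k l * R i l + (if l = j then s * R i l else 0) := by
    intro l
    split_ifs <;> ring
  rw [Finset.sum_congr rfl fun l _ => h2 l, Finset.sum_add_distrib, Finset.sum_ite_eq' Finset.univ j]
  simp

theorem qR_sh {R : Fin n → Fin n → ℝ} (hs : ∀ j l, R j l = R l j) (hd : ∀ j, R j j = 1) (k : Fin n → ℝ) (j : Fin n) (s : ℝ) :
    qR R (sh k j s) = qR R k + 2 * s * lR R k j + s ^ 2 := by
  unfold qR
  rw [Finset.sum_congr rfl fun i _ => by rw [lR_sh k j i s]]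
  have h2 : ∀ i, sh k j s i * (lR R k i + s * R i j) =
      k i * lR R k i + s * (k i * R j i) + (if i = j then s * (lR R k i + s * R i j) else 0) := by
    intro i
    unfold sh
    rw [hs i j]
    split_ifs <;> ring
  rw [Finset.sum_congr rfl fun i _ => h2 i, Finset.sum_add_distrib, Finset.sum_add_distrib, ← Finset.mul_sum, Finset.sum_ite_eq' Finset.univ j]
  simp only [Finset.mem_univ, if_true]
  rw [hd]
  have h3 : ∑ i, k i * R j i = lR R k j := rfl
  rw [h3]
  ring

theorem lin_sh (k v : Fin n → ℝ) (j : Fin n) (s : ℝ) : ∑ i, sh k j s i * v i = ∑ i, k i * v i + s * v j := by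
  unfold sh
  have h2 : ∀ i, (k i + if i = j then s else 0) * v i = k i * v i + (if i = j then s * v i else 0) := by
    intro i
    split_ifs <;> ring
  rw [Finset.sum_congr rfl fun i _ => h2 i, Finset.sum_add_distrib, Finset.sum_ite_eq' Finset.univ j]
  simp

theorem dV_sh {R : Fin n → Fin n → ℝ} (hs : ∀ j l, R j l = R l j) (hd : ∀ j, R j j = 1) (v k : Fin n → ℝ) (j : Fin n) (s : ℝ) :
    dV R v (sh k j s) = dV R v k + 2 * s * (v j - lR R k j) - s ^ 2 := by
  unfold dV
  rw [lin_sh, qR_sh hs hd]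
  ring

/-- the maximiser -/
theorem kkt {R : Fin n → Fin n → ℝ} (h0 : ∀ j l, 0 ≤ R j l) (hs : ∀ j l, R j l = R l j) (hd : ∀ j, R j j = 1) {v : Fin n → ℝ} {A : ℝ}
    (hA : 0 ≤ A) (hv : ∀ j, v j ≤ A) :
    ∃ k : Fin n → ℝ, (∀ j, 0 ≤ k j) ∧ (∀ j, k j ≤ A) ∧ (∀ j, v j ≤ lR R k j) ∧ ∑ j, k j * v j = qR R k := by
  obtain ⟨k, hkm, hmax⟩ := (isCompact_Icc (a := (fun _ : Fin n => (0 : ℝ))) (b := fun _ => A)).exists_isMaxOn
    (Set.nonempty_Icc.2 fun _ => hA) (f := dV R v) (by
      apply Continuous.continuousOn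
      unfold dV qR lR
      fun_prop)
  have hk0 : ∀ j, 0 ≤ k j := fun j => hkm.1 j
  have hkA : ∀ j, k j ≤ A := fun j => hkm.2 j
  have hstep : ∀ (j : Fin n) (s : ℝ), 0 ≤ k j + s → k j + s ≤ A → 2 * s * (v j - lR R k j) - s ^ 2 ≤ 0 := by
    intro j s h1 h2
    have h3 : sh k j s ∈ Set.Icc (fun _ : Fin n => (0 : ℝ)) (fun _ => A) := by
      constructor
      · intro i
        show 0 ≤ sh k j s i
        unfold sh
        split_ifs with h
        · rw [h]; exact h1
        · rw [add_zero]; exact hk0 i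
      · intro i
        show sh k j s i ≤ A
        unfold sh
        split_ifs with h
        · rw [h]; exact h2
        · rw [add_zero]; exact hkA i
    have h4 := hmax h3
    have h5 : dV R v (sh k j s) ≤ dV R v k := h4
    rw [dV_sh hs hd] at h5
    linarith
  have hge : ∀ j, v j ≤ lR R k j := by
    intro j
    rcases (hkA j).lt_or_eq with h | h
    · by_contra hcon
      push Not at hcon
      obtain ⟨s, hsd⟩ : ∃ s : ℝ, s = min (A - k j) (v j - lR R k j) := ⟨_, rfl⟩
      have hs0 : 0 < s := by rw [hsd]; exact lt_min (by linarith) (by linarith)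
      have hs1 : s ≤ A - k j := by rw [hsd]; exact min_le_left _ _
      have hs2 : s ≤ v j - lR R k j := by rw [hsd]; exact min_le_right _ _
      have h1 := hstep j s (by linarith [hk0 j]) (by linarith)
      nlinarith
    · have h1 : k j * R j j ≤ lR R k j := by
        unfold lR
        exact Finset.single_le_sum (f := fun l => k l * R j l) (fun l _ => mul_nonneg (hk0 l) (h0 j l)) (Finset.mem_univ j)
      rw [hd, mul_one] at h1
      linarith [hv j]
  have hle : ∀ j, 0 < k j → lR R k j ≤ v j := by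
    intro j hj
    by_contra hcon
    push Not at hcon
    obtain ⟨s, hsd⟩ : ∃ s : ℝ, s = min (k j) (lR R k j - v j) := ⟨_, rfl⟩
    have hs0 : 0 < s := by rw [hsd]; exact lt_min hj (by linarith)
    have hs1 : s ≤ k j := by rw [hsd]; exact min_le_left _ _
    have hs2 : s ≤ lR R k j - v j := by rw [hsd]; exact min_le_right _ _
    have h1 := hstep j (-s) (by linarith) (by linarith [hkA j])
    nlinarith
  refine ⟨k, hk0, hkA, hge, ?_⟩
  unfold qR
  refine Finset.sum_congr rfl fun j _ => ?_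
  rcases (hk0 j).lt_or_eq with h | h
  · rw [le_antisymm (hge j) (hle j h)]
  · rw [← h, zero_mul, zero_mul]

/-- truncation of the dual variable -/
theorem dV_trunc {R : Fin n → Fin n → ℝ} (h0 : ∀ j l, 0 ≤ R j l) (hs : ∀ j l, R j l = R l j) (hd : ∀ j, R j j = 1) {v k : Fin n → ℝ}
    (hv : ∀ j, 0 ≤ v j) (hk : ∀ j, 0 ≤ k j) : dV R v k ≤ dV R v (fun j => min (k j) (v j)) := by
  obtain ⟨m, hm⟩ : ∃ m : Fin n → ℝ, m = fun j => min (k j) (v j) := ⟨_, rfl⟩
  obtain ⟨d, hdd⟩ : ∃ d : Fin n → ℝ, d = fun j => k j - min (k j) (v j) := ⟨_, rfl⟩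
  rw [← hm]
  have hm0 : ∀ j, 0 ≤ m j := fun j => by rw [hm]; exact le_min (hk j) (hv j)
  have hd0 : ∀ j, 0 ≤ d j := fun j => by rw [hdd]; exact sub_nonneg.2 (min_le_left _ _)
  have hk' : ∀ j, k j = m j + d j := fun j => by rw [hm, hdd]; ring
  have hdm : ∀ j, d j * v j = d j * m j := by
    intro j
    rw [hdd, hm]
    rcases le_total (k j) (v j) with h | h
    · simp only [min_eq_left h, sub_self, zero_mul]
    · simp only [min_eq_right h]
  have hl : ∀ j, lR R k j = lR R m j + lR R d j := by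
    intro j
    unfold lR
    rw [← Finset.sum_add_distrib]
    exact Finset.sum_congr rfl fun l _ => by rw [hk']; ring
  have hq : qR R k = qR R m + 2 * ∑ j, d j * lR R m j + qR R d := by
    have h1 : ∑ j, m j * lR R d j = ∑ j, d j * lR R m j := by
      unfold lR
      simp only [Finset.mul_sum]
      rw [Finset.sum_comm]
      refine Finset.sum_congr rfl fun j _ => Finset.sum_congr rfl fun l _ => ?_
      rw [hs l j]
      ring
    have h2 : qR R k = ∑ j, (m j * lR R m j + m j * lR R d j + d j * lR R m j + d j * lR R d j) := by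
      unfold qR
      exact Finset.sum_congr rfl fun j _ => by rw [hl, hk']; ring
    rw [h2, Finset.sum_add_distrib, Finset.sum_add_distrib, Finset.sum_add_distrib, h1]
    unfold qR
    ring
  have hqd : 0 ≤ qR R d := by
    unfold qR lR
    exact Finset.sum_nonneg fun j _ => mul_nonneg (hd0 j) (Finset.sum_nonneg fun l _ => mul_nonneg (hd0 l) (h0 j l))
  have hlin : ∑ j, k j * v j = ∑ j, m j * v j + ∑ j, d j * m j := by
    rw [← Finset.sum_add_distrib]
    exact Finset.sum_congr rfl fun j _ => by rw [hk', add_mul, hdm]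
  have hml : ∑ j, d j * m j ≤ ∑ j, d j * lR R m j := by
    refine Finset.sum_le_sum fun j _ => mul_le_mul_of_nonneg_left ?_ (hd0 j)
    have h1 : m j * R j j ≤ lR R m j := by
      unfold lR
      exact Finset.single_le_sum (f := fun l => m l * R j l) (fun l _ => mul_nonneg (hm0 l) (h0 j l)) (Finset.mem_univ j)
    rw [hd, mul_one] at h1
    exact h1
  unfold dV
  rw [hq, hlin]
  linarith

/-- the rate -/
def rN (R : Fin n → Fin n → ℝ) (v : Fin n → ℝ) : ℝ := sSup {x : ℝ | ∃ k : Fin n → ℝ, (∀ j, 0 ≤ k j) ∧ x = dV R v k}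

theorem dV_le {R : Fin n → Fin n → ℝ} (h0 : ∀ j l, 0 ≤ R j l) (hd : ∀ j, R j j = 1) {v k : Fin n → ℝ}
    (hk : ∀ j, 0 ≤ k j) : dV R v k ≤ ∑ j, v j ^ 2 := by
  unfold dV
  have h1 : ∑ j, k j ^ 2 ≤ qR R k := by
    unfold qR
    refine Finset.sum_le_sum fun j _ => ?_
    have h1 : k j * R j j ≤ lR R k j := by
      unfold lR
      exact Finset.single_le_sum (f := fun l => k l * R j l) (fun l _ => mul_nonneg (hk l) (h0 j l)) (Finset.mem_univ j)
    rw [hd, mul_one] at h1
    rw [sq]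
    exact mul_le_mul_of_nonneg_left h1 (hk j)
  have h2 : 2 * ∑ j, k j * v j ≤ ∑ j, k j ^ 2 + ∑ j, v j ^ 2 := by
    rw [Finset.mul_sum, ← Finset.sum_add_distrib]
    refine Finset.sum_le_sum fun j _ => ?_
    have := sq_nonneg (k j - v j)
    linarith
  linarith

theorem rN_bdd {R : Fin n → Fin n → ℝ} (h0 : ∀ j l, 0 ≤ R j l) (hd : ∀ j, R j j = 1) (v : Fin n → ℝ) :
    BddAbove {x : ℝ | ∃ k : Fin n → ℝ, (∀ j, 0 ≤ k j) ∧ x = dV R v k} := by
  refine ⟨∑ j, v j ^ 2, ?_⟩
  rintro x ⟨k, hk, rfl⟩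
  exact dV_le h0 hd hk

theorem le_rN {R : Fin n → Fin n → ℝ} (h0 : ∀ j l, 0 ≤ R j l) (hd : ∀ j, R j j = 1) {v k : Fin n → ℝ} (hk : ∀ j, 0 ≤ k j) : dV R v k ≤ rN R v :=
  le_csSup (rN_bdd h0 hd v) ⟨k, hk, rfl⟩

end

end Pool.Agent.H469.F4
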