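import Pool.Agent.H469.F4.T7

set_option autoImplicit false

/-!
# Several points: the joint large deviations
-/

namespace Pool.Agent.H469.F4

open Filter Topology MeasureTheory Complex Pool.Agent.Q97.UM
open Pool.Agent.Q14.UM (mem_PB PB_disj cv_len)
open Pool.Agent.Results.MP_fa2474_nt.OrderForEveryPolynomial (order order_eq sum_close norm_ap_le sum_prime ap_sq)

noncomputable section

variable {n : ℕ}

/-- the proportion of the points where all the values are large -/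
def PN (T : ℝ) (V α : Fin n → ℝ) : ℝ := T⁻¹ * (volume {t : ℝ | t ∈ Set.Icc T (2 * T) ∧ ∀ j, V j < ‖zt (t + α j)‖}).toReal

theorem PN_eq {T : ℝ} (hT : 0 < T) (V α : Fin n → ℝ) : PN T V α = T⁻¹ * ∫ t in T..(2 * T), allab V α t := by
  unfold PN
  rw [allab_eq V α hT.le]

theorem PN_nonneg {T : ℝ} (hT : 0 < T) (V α : Fin n → ℝ) : 0 ≤ PN T V α := by
  unfold PN
  positivity

/-- Markov's inequality -/
theorem chern {T : ℝ} (hT : 0 < T) {m α V : Fin n → ℝ} (hm : ∀ j, 0 ≤ m j) (hV : ∀ j, 0 ≤ V j) :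
    (∏ j, V j ^ (2 * m j)) * (T * PN T V α) ≤ ∫ t in T..(2 * T), zpr m α t := by
  rw [PN_eq hT, mul_inv_cancel_left₀ hT.ne', ← intervalIntegral.integral_const_mul]
  refine intervalIntegral.integral_mono_on (by linarith) ((allab_int V α _ _).const_mul _) ((zpr_cont hm α).intervalIntegrable _ _) fun t _ => ?_
  unfold allab Set.indicator
  split_ifs with h
  · rw [mul_one]
    unfold zpr
    refine Finset.prod_le_prod (fun j _ => Real.rpow_nonneg (hV j) _) fun j _ => ?_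
    exact Real.rpow_le_rpow (hV j) (h j).le (mul_nonneg (by norm_num) (hm j))
  · rw [mul_zero]
    exact zpr_nonneg _ _ _

/-- the covariances in a window -/
theorem ovR {T : ℝ} (hL : 1 ≤ Real.log T) (hℓ : 0 < Real.log (Real.log T)) {α : Fin n → ℝ} (hw : ∀ j l, |α j - α l| ≤ 1) :
    (∀ j l, 0 ≤ (fun j l => ov T (α j - α l)) j l) ∧ (∀ j l, (fun j l => ov T (α j - α l)) j l = (fun j l => ov T (α j - α l)) l j) ∧
    ∀ j, (fun j l => ov T (α j - α l)) j j = 1 := by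
  refine ⟨fun j l => ov_nonneg hℓ hL (hw j l), fun j l => ?_, fun j => ?_⟩
  · show ov T (α j - α l) = ov T (α l - α j)
    rw [← ov_neg]
    congr 1
    ring
  · show ov T (α j - α j) = 1
    rw [sub_self]
    exact ov_zero hℓ (by linarith)

/-- **the lower bound in a window, at all levels** -/
theorem jointN_low (hn : 0 < n) {A ε : ℝ} (hA : 0 ≤ A) (hε : 0 < ε) : ∀ᶠ T : ℝ in atTop, ∀ v α : Fin n → ℝ, (∀ j, v j ≤ A) → (∀ j, |α j| ≤ T / 2) →
    (∀ j l, |α j - α l| ≤ 1) →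
    Real.log T ^ (-rN (fun j l => ov T (α j - α l)) v - ε) ≤ PN T (fun j => Real.log T ^ v j) α := by
  have hn0 : (0 : ℝ) < n := by exact_mod_cast hn
  obtain ⟨e, he⟩ : ∃ e : ℝ, e = min 1 (ε / (1 + 2 * (n * (A + 1)))) := ⟨_, rfl⟩
  have he0 : 0 < e := by rw [he]; exact lt_min one_pos (by positivity)
  have he1 : e ≤ 1 := by rw [he]; exact min_le_left _ _
  have heε : e * (1 + 2 * (n * (A + 1))) ≤ ε := by
    have h1 : e ≤ ε / (1 + 2 * (n * (A + 1))) := by rw [he]; exact min_le_right _ _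
    rwa [le_div_iff₀ (by positivity)] at h1
  have hℓ : Tendsto (fun T : ℝ => Real.log (Real.log T)) atTop atTop := Real.tendsto_log_atTop.comp Real.tendsto_log_atTop
  filter_upwards [ldN_window hn (K := n * (A + 1)) (by positivity) he0, eventually_gt_atTop (0 : ℝ),
    Real.tendsto_log_atTop.eventually_ge_atTop 1, hℓ.eventually_gt_atTop 0] with T h1 hT0 hL1 hℓ0 v α hv hα hw
  obtain ⟨r0, rs, rd⟩ := ovR hL1 hℓ0 hw
  obtain ⟨R, hR⟩ : ∃ R : Fin n → Fin n → ℝ, R = fun j l => ov T (α j - α l) := ⟨_, rfl⟩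
  rw [← hR] at r0 rs rd ⊢
  obtain ⟨k, hk0, hkA, hkv, hkq⟩ := kkt r0 rs rd (v := fun j => v j + e) (A := A + 1) (by linarith) (fun j => by
    show v j + e ≤ A + 1
    linarith [hv j])
  have hksum : ∑ j, k j ≤ n * (A + 1) := by
    refine (Finset.sum_le_sum fun j _ => hkA j).trans (le_of_eq ?_)
    rw [Finset.sum_const, Finset.card_univ, Fintype.card_fin, nsmul_eq_mul]
  have h2 := (h1 k α hk0 hα hw).1 hksum
  rw [← hR] at h2
  have h3 := allab_int_mono (lam := fun j => Real.log T ^ (lR R k j - e)) (lam' := fun j => Real.log T ^ v j) (α := α) (fun j => by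
    apply Real.rpow_le_rpow_of_exponent_le hL1
    have : v j + e ≤ lR R k j := hkv j
    linarith) hT0.le
  have h4 := h2.trans h3
  rw [PN_eq hT0, le_inv_mul_iff₀ hT0]
  refine le_trans ?_ h4
  apply mul_le_mul_of_nonneg_left _ hT0.le
  apply Real.rpow_le_rpow_of_exponent_le hL1
  have h5 := le_rN r0 rd (v := v) hk0
  unfold dV at h5
  have h6 : ∑ j, k j * (v j + e) = ∑ j, k j * v j + e * ∑ j, k j := by
    rw [Finset.mul_sum, ← Finset.sum_add_distrib]
    exact Finset.sum_congr rfl fun j _ => by ring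
  have hkq' : ∑ j, k j * (v j + e) = qR R k := hkq
  rw [h6] at hkq'
  have h7 : e * ∑ j, k j ≤ e * (n * (A + 1)) := mul_le_mul_of_nonneg_left hksum he0.le
  linarith

/-- **the upper bound in a window, when the sum of the levels is at most 2** -/
theorem jointN_up (hn : 0 < n) {ε : ℝ} (hε : 0 < ε) : ∀ᶠ T : ℝ in atTop, ∀ v α : Fin n → ℝ, (∀ j, 0 ≤ v j) → ∑ j, v j ≤ 2 → (∀ j, |α j| ≤ T / 2) →
    (∀ j l, |α j - α l| ≤ 1) →
    PN T (fun j => Real.log T ^ v j) α ≤ Real.log T ^ (-rN (fun j l => ov T (α j - α l)) v + ε) := by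
  have hℓ : Tendsto (fun T : ℝ => Real.log (Real.log T)) atTop atTop := Real.tendsto_log_atTop.comp Real.tendsto_log_atTop
  filter_upwards [ldN_window hn (K := 0) le_rfl hε, eventually_gt_atTop (0 : ℝ),
    Real.tendsto_log_atTop.eventually_ge_atTop 1, hℓ.eventually_gt_atTop 0] with T h1 hT0 hL1 hℓ0 v α hv0 hv2 hα hw
  obtain ⟨r0, rs, rd⟩ := ovR hL1 hℓ0 hw
  obtain ⟨R, hR⟩ : ∃ R : Fin n → Fin n → ℝ, R = fun j l => ov T (α j - α l) := ⟨_, rfl⟩
  rw [← hR] at r0 rs rd ⊢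
  have hL0 : 0 < Real.log T := by linarith
  obtain ⟨L, hL⟩ : ∃ L : ℝ, L = Real.log T := ⟨_, rfl⟩
  obtain ⟨P, hP⟩ : ∃ P : ℝ, P = PN T (fun j => Real.log T ^ v j) α := ⟨_, rfl⟩
  rw [← hP]
  have hP0 : 0 ≤ P := by rw [hP]; exact PN_nonneg hT0 _ _
  have hbound : ∀ k : Fin n → ℝ, (∀ j, 0 ≤ k j) → P ≤ Real.log T ^ (-dV R v k + ε) := by
    intro k hk
    obtain ⟨m, hm⟩ : ∃ m : Fin n → ℝ, m = fun j => min (k j) (v j) := ⟨_, rfl⟩
    have hm0 : ∀ j, 0 ≤ m j := fun j => by rw [hm]; exact le_min (hk j) (hv0 j)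
    have hm2 : ∑ j, m j ≤ 2 := by
      refine (Finset.sum_le_sum fun j _ => ?_).trans hv2
      rw [hm]
      exact min_le_right _ _
    have h2 := (h1 m α hm0 hα hw).2 hm2
    rw [← hR] at h2
    have h3 := chern hT0 (α := α) (V := fun j => Real.log T ^ v j) hm0 (fun j => by positivity)
    rw [← hP] at h3
    have h4 : ∏ j, (Real.log T ^ v j) ^ (2 * m j) = Real.log T ^ (2 * ∑ j, m j * v j) := by
      rw [Finset.mul_sum, Real.rpow_sum_of_pos hL0]
      refine Finset.prod_congr rfl fun j _ => ?_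
      rw [← Real.rpow_mul hL0.le]
      congr 1
      ring
    rw [h4] at h3
    have h5 : Real.log T ^ (2 * ∑ j, m j * v j) * P ≤ Real.log T ^ (qR R m + ε) := by
      have h6 := h3.trans h2
      have h7 : T * (Real.log T ^ (2 * ∑ j, m j * v j) * P) ≤ T * Real.log T ^ (qR R m + ε) := by linarith
      exact le_of_mul_le_mul_left h7 hT0
    have h6 : P ≤ Real.log T ^ (-dV R v m + ε) := by
      have h8 : Real.log T ^ (-dV R v m + ε) = (Real.log T ^ (2 * ∑ j, m j * v j))⁻¹ * Real.log T ^ (qR R m + ε) := by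
        rw [← Real.rpow_neg hL0.le, ← Real.rpow_add hL0]
        congr 1
        unfold dV
        ring
      rw [h8, le_inv_mul_iff₀ (by positivity)]
      exact h5
    refine h6.trans (Real.rpow_le_rpow_of_exponent_le hL1 ?_)
    have h9 := dV_trunc r0 rs rd hv0 hk
    rw [← hm] at h9
    linarith
  rcases hP0.lt_or_eq with h | h
  · obtain ⟨ℓ, hℓd⟩ : ∃ ℓ : ℝ, ℓ = Real.log (Real.log T) := ⟨_, rfl⟩
    rw [← hℓd] at hℓ0
    have h2 : rN R v ≤ ε - Real.log P / ℓ := by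
      apply csSup_le
      · exact ⟨_, fun _ => 0, fun _ => le_rfl, rfl⟩
      · rintro x ⟨k, hk, rfl⟩
        have h3 := Real.log_le_log h (hbound k hk)
        rw [Real.log_rpow hL0, ← hℓd] at h3
        have h4 : Real.log P / ℓ ≤ -dV R v k + ε := by
          rw [div_le_iff₀ hℓ0]
          exact h3
        linarith
    have h3 : Real.log P ≤ (-rN R v + ε) * ℓ := by
      have h4 : Real.log P / ℓ ≤ -rN R v + ε := by linarith
      rwa [div_le_iff₀ hℓ0] at h4
    rw [Real.rpow_def_of_pos hL0, ← hℓd, mul_comm]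
    exact (Real.log_le_iff_le_exp h).1 h3
  · rw [← h]
    positivity

/-- the levels, in terms of zeta near the 1-line -/
def levN (T : ℝ) (k α : Fin n → ℝ) (j : Fin n) : ℝ := ∏ l, ‖riemannZeta (1 + 1 / Real.log T + (α j - α l : ℝ) * I)‖ ^ k l

theorem levN_eq {T : ℝ} (hT : 1 < T) (k α : Fin n → ℝ) (j : Fin n) : levN T k α j = Real.exp (lR (fun j l => Zl T (α j - α l)) k j) := by
  unfold levN lR
  rw [Real.exp_sum]
  refine Finset.prod_congr rfl fun l _ => ?_
  rw [Real.rpow_def_of_pos (norm_pos_iff.2 (Pool.Agent.Results.MP_fa2474_nt.OrderForEveryPolynomial.zeta_one_ne hT)), mul_comm]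
  rfl

theorem order_exp {T : ℝ} (hT : 1 < T) (k α : Fin n → ℝ) : order T k α = Real.exp (qR (fun j l => Zl T (α j - α l)) k) := by
  rw [order_eq hT]
  congr 1
  unfold qR lR Zl
  refine Finset.sum_congr rfl fun j _ => ?_
  rw [Finset.mul_sum]
  exact Finset.sum_congr rfl fun l _ => by ring

/-- **all shifts** -/
theorem jointN_all (hn : 0 < n) {K ε : ℝ} (hK : 0 ≤ K) (hε : 0 < ε) : ∀ᶠ T : ℝ in atTop, ∀ k α : Fin n → ℝ, (∀ j, 0 ≤ k j) → (∀ j, |α j| ≤ T / 2) →
    (∑ j, k j ≤ K → (order T k α)⁻¹ * Real.log T ^ (-ε) ≤ PN T (fun j => levN T k α j * Real.log T ^ (-ε)) α) ∧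
    (∑ j, k j ≤ 2 → PN T (fun j => levN T k α j * Real.log T ^ (-ε)) α ≤ (order T k α)⁻¹ * Real.log T ^ (5 * ε)) := by
  filter_upwards [ldN_zeta hn hK hε, eventually_gt_atTop (1 : ℝ), Real.tendsto_log_atTop.eventually_ge_atTop 1] with T h1 hT1 hL1 k α hk hα
  obtain ⟨g1, g2⟩ := h1 k α hk hα
  have hT0 : 0 < T := by linarith
  have hL0 : 0 < Real.log T := by linarith
  obtain ⟨ℓ, hℓd⟩ : ∃ ℓ : ℝ, ℓ = Real.log (Real.log T) := ⟨_, rfl⟩
  rw [← hℓd] at g1 g2
  have hℓ0 : 0 ≤ ℓ := by rw [hℓd]; exact Real.log_nonneg hL1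
  have hrp : ∀ x : ℝ, Real.log T ^ x = Real.exp (x * ℓ) := fun x => by rw [Real.rpow_def_of_pos hL0, hℓd, mul_comm]
  have hV : (fun j => levN T k α j * Real.log T ^ (-ε)) = fun j => Real.exp (lR (fun j l => Zl T (α j - α l)) k j - ε * ℓ) := by
    funext j
    rw [levN_eq hT1, hrp, ← Real.exp_add]
    congr 1
    ring
  rw [hV, order_exp hT1, hrp, hrp, ← Real.exp_neg]
  refine ⟨fun hkK => ?_, fun hk2 => ?_⟩
  · rw [PN_eq hT0, le_inv_mul_iff₀ hT0, ← Real.exp_add]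
    have e1 : -qR (fun j l => Zl T (α j - α l)) k + -ε * ℓ = -qR (fun j l => Zl T (α j - α l)) k - ε * ℓ := by ring
    rw [e1]
    exact g1 hkK
  · have h3 := chern hT0 (α := α) (V := fun j => Real.exp (lR (fun j l => Zl T (α j - α l)) k j - ε * ℓ)) hk (fun j => (Real.exp_pos _).le)
    obtain ⟨P, hP⟩ : ∃ P : ℝ, P = PN T (fun j => Real.exp (lR (fun j l => Zl T (α j - α l)) k j - ε * ℓ)) α := ⟨_, rfl⟩
    rw [← hP] at h3 ⊢
    have hP0 : 0 ≤ P := by rw [hP]; exact PN_nonneg hT0 _ _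
    obtain ⟨q, hq⟩ : ∃ q : ℝ, q = qR (fun j l => Zl T (α j - α l)) k := ⟨_, rfl⟩
    have h4 : ∏ j, Real.exp (lR (fun j l => Zl T (α j - α l)) k j - ε * ℓ) ^ (2 * k j) = Real.exp (2 * q - 2 * ε * ℓ * ∑ j, k j) := by
      have e1 : ∀ j, Real.exp (lR (fun j l => Zl T (α j - α l)) k j - ε * ℓ) ^ (2 * k j) =
          Real.exp ((lR (fun j l => Zl T (α j - α l)) k j - ε * ℓ) * (2 * k j)) := fun j => by rw [← Real.exp_mul]
      rw [Finset.prod_congr rfl fun j _ => e1 j, ← Real.exp_sum]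
      congr 1
      rw [hq]
      unfold qR
      rw [Finset.mul_sum, Finset.mul_sum, ← Finset.sum_sub_distrib]
      exact Finset.sum_congr rfl fun j _ => by ring
    have h5 := h3.trans (g2 hk2)
    rw [h4, ← hq] at h5
    rw [← hq, ← Real.exp_add]
    have h6 : Real.exp (2 * q - 2 * ε * ℓ * ∑ j, k j) * P ≤ Real.exp (q + ε * ℓ) := by
      have h7 : T * (Real.exp (2 * q - 2 * ε * ℓ * ∑ j, k j) * P) ≤ T * Real.exp (q + ε * ℓ) := by linarith
      exact le_of_mul_le_mul_left h7 hT0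
    have h8 : Real.exp (2 * q - 4 * ε * ℓ) * P ≤ Real.exp (q + ε * ℓ) := by
      refine le_trans (mul_le_mul_of_nonneg_right (Real.exp_le_exp.2 ?_) hP0) h6
      have h9 : 2 * ε * ℓ * ∑ j, k j ≤ 2 * ε * ℓ * 2 := mul_le_mul_of_nonneg_left hk2 (by positivity)
      linarith
    have h9 : Real.exp (-q + 5 * ε * ℓ) = (Real.exp (2 * q - 4 * ε * ℓ))⁻¹ * Real.exp (q + ε * ℓ) := by
      rw [← Real.exp_neg, ← Real.exp_add]
      congr 1
      ring
    rw [h9, le_inv_mul_iff₀ (Real.exp_pos _)]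
    exact h8

end

end Pool.Agent.H469.F4
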