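import Pool.Agent.H469.F4.T8
import Pool.Graph.R_pool_sql_team_seeded_3997aac3.Q97.UM.Base11
import Pool.Graph.R_pool_sql_team_seeded_3997aac3.Q98.UM.Lem

set_option autoImplicit false

/-!
# Several points: the joint large deviations, sharper error terms
-/

namespace Pool.Agent.H469.F4

open Filter Topology MeasureTheory Complex Pool.Agent.Q97.UM
open Pool.Agent.Q14.UM (mem_PB PB_disj cv_len)
open Pool.Agent.Results.MP_fa2474_nt.OrderForEveryPolynomial (order order_eq sum_close norm_ap_le sum_prime ap_sq)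

noncomputable section

variable {n : ℕ}

/-- the upper bound for the moments, up to a constant -/
theorem momN_up (hn : 0 < n) : ∃ C : ℝ, 0 ≤ C ∧ ∀ᶠ T : ℝ in atTop, ∀ k α : Fin n → ℝ, (∀ j, 0 ≤ k j) → ∑ j, k j ≤ 2 → (∀ j, |α j| ≤ T / 2) →
    ∫ t in T..(2 * T), zpr k α t ≤ T * Real.exp (qR (fun j l => Zl T (α j - α l)) k + C) := by
  obtain ⟨δ, c, C, hδ, hδ1, hc, hC, hev⟩ := ldN_core hn (K := 0) (b := 1) le_rfl one_pos le_rfl
  obtain ⟨Cz, hz⟩ := Pool.Agent.Q149.UM.t_MZ δ hδ hδ1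
  obtain ⟨Cw, hCw⟩ : ∃ Cw : ℝ, Cw = max Cz 0 := ⟨_, rfl⟩
  have hCw0 : 0 ≤ Cw := by rw [hCw]; exact le_max_right _ _
  refine ⟨4 * Cw + |Real.log C|, by positivity, ?_⟩
  filter_upwards [hev, hz, eventually_ge_atTop (16 : ℝ)] with T hev gz hT16
  obtain ⟨hE1, hlow, hup⟩ := hev
  obtain ⟨E, hEd⟩ : ∃ E : ℝ, E = δ * Real.log T := ⟨_, rfl⟩
  rw [← hEd] at hE1 hlow hup
  have hT0 : 0 < T := by linarith
  intro k α hk hk2 hα
  have hexpE : Real.exp E = T ^ δ := by rw [Real.rpow_def_of_pos hT0, mul_comm, hEd]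
  have hclose : ∀ j l : Fin n, |(fun j l => eC E α j l) j l - (fun j l => Zl T (α j - α l)) j l| ≤ Cw := by
    intro j l
    have h1 := gz (α j - α l)
    have h2 : eC E α j l = ∑ p ∈ (Finset.Icc 1 ⌊T ^ δ⌋₊).filter Nat.Prime, Real.cos ((α j - α l) * Real.log p) / p := by
      unfold eC PS
      rw [hexpE]
    show |eC E α j l - Zl T (α j - α l)| ≤ Cw
    rw [h2, hCw]
    unfold Zl
    exact h1.trans (le_max_left _ _)
  have hQE : QE E k α = qR (fun j l => eC E α j l) k := rfl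
  have h1 := hup k α hk hk2 hα
  refine h1.trans ?_
  have h3 := (abs_le.1 (qR_close hclose hCw0 hk hk2 (by norm_num))).2
  rw [← hQE] at h3
  have h4 : C * Real.exp (QE E k α) ≤ Real.exp (qR (fun j l => Zl T (α j - α l)) k + (4 * Cw + |Real.log C|)) := by
    have h5 : C = Real.exp (Real.log C) := (Real.exp_log hC).symm
    have h6 : C * Real.exp (QE E k α) = Real.exp (Real.log C + QE E k α) := by
      rw [Real.exp_add, ← h5]
    rw [h6]
    apply Real.exp_le_exp.2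
    have h10 := le_abs_self (Real.log C)
    linarith
  calc C * T * Real.exp (QE E k α) = T * (C * Real.exp (QE E k α)) := by ring
    _ ≤ _ := mul_le_mul_of_nonneg_left h4 hT0.le

theorem PN_mono {T : ℝ} (hT : 0 < T) {V V' α : Fin n → ℝ} (h : ∀ j, V' j ≤ V j) : PN T V α ≤ PN T V' α := by
  rw [PN_eq hT, PN_eq hT]
  exact mul_le_mul_of_nonneg_left (allab_int_mono h hT.le) (by positivity)

theorem zeros_nullN (α : Fin n → ℝ) : volume {t : ℝ | ∃ j, zt (t + α j) = 0} = 0 := by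
  have h1 : {t : ℝ | ∃ j, zt (t + α j) = 0} = ⋃ j, {t : ℝ | zt (t + α j) = 0} := by
    ext t
    simp
  rw [h1]
  apply Set.Countable.measure_zero
  apply Set.countable_iUnion
  intro j
  have h2 : {t : ℝ | zt (t + α j) = 0} = (fun t => t + α j) ⁻¹' {t : ℝ | zt t = 0} := rfl
  rw [h2]
  exact Set.Countable.preimage Pool.Agent.Q98.UM.countable_zt (add_left_injective (α j))

/-- the lower bound of the library, for one-sided events -/
theorem jld_low (n : ℕ) {K : ℝ} (hK : 0 ≤ K) : ∃ C : ℝ, 0 ≤ C ∧ ∀ᶠ T : ℝ in atTop, ∀ k α : Fin n → ℝ, (∀ j, 0 ≤ k j) → ∑ j, k j ≤ K → (∀ j, |α j| ≤ T / 2) →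
    Real.exp (-qR (fun j l => Zl T (α j - α l)) k - C * Real.sqrt (Real.log (Real.log T))) ≤
      PN T (fun j => Real.exp (lR (fun j l => Zl T (α j - α l)) k j - C * Real.sqrt (Real.log (Real.log T)))) α := by
  obtain ⟨A, hA⟩ : ∃ A : ℝ, A = max (n : ℝ) K + 1 := ⟨_, rfl⟩
  have hA1 : 1 ≤ A := by
    rw [hA]
    have : (0 : ℝ) ≤ max (n : ℝ) K := hK.trans (le_max_right _ _)
    linarith
  have hnA : (n : ℝ) ≤ A := by
    rw [hA]
    linarith [le_max_left (n : ℝ) K]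
  have hKA : K ≤ A := by
    rw [hA]
    linarith [le_max_right (n : ℝ) K]
  obtain ⟨C, hC, h⟩ := b_JLD A hA1
  refine ⟨C + 1, by linarith, ?_⟩
  have hℓ : Tendsto (fun T : ℝ => Real.log (Real.log T)) atTop atTop := Real.tendsto_log_atTop.comp Real.tendsto_log_atTop
  filter_upwards [h, eventually_gt_atTop (0 : ℝ), hℓ.eventually_gt_atTop 0] with T h hT0 hℓ0 k α hk hkK hα
  obtain ⟨s, hs⟩ : ∃ s : ℝ, s = Real.sqrt (Real.log (Real.log T)) := ⟨_, rfl⟩
  have hs0 : 0 < s := by rw [hs]; exact Real.sqrt_pos.2 hℓ0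
  have h1 := h n k α hnA (by
    refine le_trans (le_of_eq (Finset.sum_congr rfl fun j _ => abs_of_nonneg (hk j))) (hkK.trans hKA)) hα
  rw [← hs] at h1 ⊢
  have hq : ∑ j, k j * Pre T k α j = qR (fun j l => Zl T (α j - α l)) k := rfl
  rw [hq] at h1
  have hl : ∀ j, Pre T k α j = lR (fun j l => Zl T (α j - α l)) k j := fun j => rfl
  obtain ⟨W, hW⟩ : ∃ W : Set ℝ, W = {t : ℝ | t ∈ Set.Icc T (2 * T) ∧ ∀ j, Real.exp (lR (fun j l => Zl T (α j - α l)) k j - (C + 1) * s) < ‖zt (t + α j)‖} := ⟨_, rfl⟩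
  have hsub : {t : ℝ | T ≤ t ∧ t ≤ 2 * T ∧ ∀ j, |Real.log ‖zt (t + α j)‖ - Pre T k α j| ≤ C * s} ⊆ W ∪ {t : ℝ | ∃ j, zt (t + α j) = 0} := by
    rintro t ⟨a1, a2, a3⟩
    by_cases hz : ∃ j, zt (t + α j) = 0
    · exact Or.inr hz
    · left
      rw [hW]
      refine ⟨⟨a1, a2⟩, fun j => ?_⟩
      rw [not_exists] at hz
      have hp : 0 < ‖zt (t + α j)‖ := norm_pos_iff.2 (hz j)
      rw [← Real.lt_log_iff_exp_lt hp]
      have h2 := (abs_le.1 (a3 j)).1
      rw [hl] at h2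
      nlinarith
  have hWfin : volume W ≠ ⊤ := by
    refine ne_top_of_le_ne_top ?_ (measure_mono (show W ⊆ Set.Icc T (2 * T) from fun t ht => by
      rw [hW] at ht
      exact ht.1))
    rw [Real.volume_Icc]
    exact ENNReal.ofReal_ne_top
  have h2 : volume {t : ℝ | T ≤ t ∧ t ≤ 2 * T ∧ ∀ j, |Real.log ‖zt (t + α j)‖ - Pre T k α j| ≤ C * s} ≤ volume W := by
    refine (measure_mono hsub).trans ((measure_union_le _ _).trans ?_)
    rw [zeros_nullN, add_zero]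
  have h3 : volume.real {t : ℝ | T ≤ t ∧ t ≤ 2 * T ∧ ∀ j, |Real.log ‖zt (t + α j)‖ - Pre T k α j| ≤ C * s} ≤ (volume W).toReal :=
    ENNReal.toReal_mono hWfin h2
  unfold PN
  rw [← hW, le_inv_mul_iff₀ hT0]
  refine le_trans ?_ (h1.trans h3)
  apply mul_le_mul_of_nonneg_left _ hT0.le
  apply Real.exp_le_exp.2
  nlinarith

theorem lR_smul (a : ℝ) (R : Fin n → Fin n → ℝ) (k : Fin n → ℝ) (j : Fin n) : lR (fun j l => a * R j l) k j = a * lR R k j := by
  unfold lR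
  rw [Finset.mul_sum]
  exact Finset.sum_congr rfl fun l _ => by ring

theorem qR_smul (a : ℝ) (R : Fin n → Fin n → ℝ) (k : Fin n → ℝ) : qR (fun j l => a * R j l) k = a * qR R k := by
  unfold qR
  rw [Finset.mul_sum]
  exact Finset.sum_congr rfl fun j _ => by rw [lR_smul]; ring

/-- **the lower bound in a window** -/
theorem jointS_low (n : ℕ) {A : ℝ} (hA : 0 ≤ A) : ∃ C : ℝ, 0 ≤ C ∧ ∀ᶠ T : ℝ in atTop, ∀ v α : Fin n → ℝ, (∀ j, v j ≤ A) → (∀ j, |α j| ≤ T / 2) →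
    (∀ j l, |α j - α l| ≤ 1) →
    Real.log T ^ (-rN (fun j l => ov T (α j - α l)) v) * Real.exp (-(C * Real.sqrt (Real.log (Real.log T)))) ≤ PN T (fun j => Real.log T ^ v j) α := by
  obtain ⟨K, hK⟩ : ∃ K : ℝ, K = n * (A + 1) := ⟨_, rfl⟩
  have hK0 : 0 ≤ K := by rw [hK]; positivity
  obtain ⟨C₁, hC₁, hlow⟩ := jld_low n hK0
  obtain ⟨Cz, hCz, hz⟩ := Zl_ov
  obtain ⟨D, hD⟩ : ∃ D : ℝ, D = C₁ + K * Cz + 1 := ⟨_, rfl⟩
  have hD0 : 0 < D := by rw [hD]; positivity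
  refine ⟨2 * K * D + K ^ 2 * Cz + C₁, by positivity, ?_⟩
  have hℓ : Tendsto (fun T : ℝ => Real.log (Real.log T)) atTop atTop := Real.tendsto_log_atTop.comp Real.tendsto_log_atTop
  have hsq : Tendsto (fun T : ℝ => Real.sqrt (Real.log (Real.log T))) atTop atTop := Real.tendsto_sqrt_atTop.comp hℓ
  filter_upwards [hlow, hz, eventually_gt_atTop (0 : ℝ), Real.tendsto_log_atTop.eventually_ge_atTop 1, hℓ.eventually_gt_atTop 0,
    hsq.eventually_ge_atTop 1, hsq.eventually_ge_atTop D] with T hlow hz hT0 hL1 hℓ0 hs1 hsD v α hv hα hw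
  obtain ⟨s, hs⟩ : ∃ s : ℝ, s = Real.sqrt (Real.log (Real.log T)) := ⟨_, rfl⟩
  rw [← hs] at hlow hs1 hsD ⊢
  have hL0 : 0 < Real.log T := by linarith
  have hs0 : 0 < s := by linarith
  obtain ⟨r0, rs, rd⟩ := ovR hL1 hℓ0 hw
  obtain ⟨ℓ, hℓd⟩ : ∃ ℓ : ℝ, ℓ = Real.log (Real.log T) := ⟨_, rfl⟩
  have hℓs : ℓ = s * s := by rw [hs, hℓd, Real.mul_self_sqrt hℓ0.le]
  obtain ⟨R, hR⟩ : ∃ R : Fin n → Fin n → ℝ, R = fun j l => ov T (α j - α l) := ⟨_, rfl⟩
  rw [← hR] at r0 rs rd ⊢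
  obtain ⟨e, he⟩ : ∃ e : ℝ, e = D / s := ⟨_, rfl⟩
  have he0 : 0 < e := by rw [he]; positivity
  have he1 : e ≤ 1 := by rw [he, div_le_one hs0]; exact hsD
  have heℓ : e * ℓ = D * s := by
    rw [he, hℓs]
    field_simp
  obtain ⟨k, hk0, hkA, hkv, hkq⟩ := kkt r0 rs rd (v := fun j => v j + e) (A := A + 1) (by linarith) (fun j => by
    show v j + e ≤ A + 1
    linarith [hv j])
  have hksum : ∑ j, k j ≤ K := by
    refine (Finset.sum_le_sum fun j _ => hkA j).trans (le_of_eq ?_)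
    rw [Finset.sum_const, Finset.card_univ, Fintype.card_fin, nsmul_eq_mul, hK]
  have h1 := hlow k α hk0 hksum hα
  have hclose : ∀ j l, |(fun j l => Zl T (α j - α l)) j l - (fun j l => ℓ * R j l) j l| ≤ Cz := by
    intro j l
    show |Zl T (α j - α l) - ℓ * R j l| ≤ Cz
    rw [hR, hℓd]
    exact hz (α j - α l) (hw j l)
  have hKCz : 0 ≤ K * Cz := by positivity
  have hlev : ∀ j, Real.log T ^ v j ≤ Real.exp (lR (fun j l => Zl T (α j - α l)) k j - C₁ * s) := by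
    intro j
    rw [Real.rpow_def_of_pos hL0, ← hℓd]
    apply Real.exp_le_exp.2
    have h2 := (abs_le.1 (lR_close hclose hCz hk0 hksum j)).1
    rw [lR_smul] at h2
    have h3 : v j + e ≤ lR R k j := hkv j
    have hℓ0' : 0 < ℓ := by rw [hℓd]; exact hℓ0
    have h4 : ℓ * (v j + e) ≤ ℓ * lR R k j := mul_le_mul_of_nonneg_left h3 hℓ0'.le
    have h5 : ℓ * (v j + e) = ℓ * v j + D * s := by rw [mul_add, mul_comm ℓ e, heℓ]
    have h6 : K * Cz ≤ K * Cz * s := le_mul_of_one_le_right hKCz hs1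
    have h7 : D * s = C₁ * s + K * Cz * s + s := by rw [hD]; ring
    linarith
  refine le_trans ?_ (h1.trans (PN_mono hT0 hlev))
  rw [Real.rpow_def_of_pos hL0, ← hℓd, ← Real.exp_add]
  apply Real.exp_le_exp.2
  have h2 := (abs_le.1 (qR_close hclose hCz hk0 hksum hK0)).2
  rw [qR_smul] at h2
  have h3 := le_rN r0 rd (v := v) hk0
  unfold dV at h3
  have h6 : ∑ j, k j * (v j + e) = ∑ j, k j * v j + e * ∑ j, k j := by
    rw [Finset.mul_sum, ← Finset.sum_add_distrib]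
    exact Finset.sum_congr rfl fun j _ => by ring
  have hkq' : ∑ j, k j * (v j + e) = qR R k := hkq
  rw [h6] at hkq'
  have hℓ0' : 0 < ℓ := by rw [hℓd]; exact hℓ0
  have h7 : qR R k ≤ rN R v + 2 * (e * ∑ j, k j) := by linarith
  have h8 : ℓ * qR R k ≤ ℓ * (rN R v + 2 * (e * ∑ j, k j)) := mul_le_mul_of_nonneg_left h7 hℓ0'.le
  have h9 : ℓ * (rN R v + 2 * (e * ∑ j, k j)) = ℓ * rN R v + 2 * (D * s) * ∑ j, k j := by
    rw [← heℓ]
    ring
  have h10 : 2 * (D * s) * ∑ j, k j ≤ 2 * (D * s) * K := mul_le_mul_of_nonneg_left hksum (by positivity)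
  have h11 : K ^ 2 * Cz ≤ K ^ 2 * Cz * s := le_mul_of_one_le_right (by positivity) hs1
  nlinarith

/-- **the upper bound in a window, when the sum of the levels is at most 2** -/
theorem jointS_up (hn : 0 < n) : ∃ C : ℝ, 0 < C ∧ ∀ᶠ T : ℝ in atTop, ∀ v α : Fin n → ℝ, (∀ j, 0 ≤ v j) → ∑ j, v j ≤ 2 → (∀ j, |α j| ≤ T / 2) →
    (∀ j l, |α j - α l| ≤ 1) →
    PN T (fun j => Real.log T ^ v j) α ≤ C * Real.log T ^ (-rN (fun j l => ov T (α j - α l)) v) := by
  obtain ⟨C₀, hC₀, hmom⟩ := momN_up hn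
  obtain ⟨Cz, hCz, hz⟩ := Zl_ov
  obtain ⟨G, hG⟩ : ∃ G : ℝ, G = C₀ + 4 * Cz := ⟨_, rfl⟩
  refine ⟨Real.exp G, Real.exp_pos _, ?_⟩
  have hℓ : Tendsto (fun T : ℝ => Real.log (Real.log T)) atTop atTop := Real.tendsto_log_atTop.comp Real.tendsto_log_atTop
  filter_upwards [hmom, hz, eventually_gt_atTop (0 : ℝ),
    Real.tendsto_log_atTop.eventually_ge_atTop 1, hℓ.eventually_gt_atTop 0] with T hmom hz hT0 hL1 hℓ0 v α hv0 hv2 hα hw
  obtain ⟨r0, rs, rd⟩ := ovR hL1 hℓ0 hw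
  obtain ⟨R, hR⟩ : ∃ R : Fin n → Fin n → ℝ, R = fun j l => ov T (α j - α l) := ⟨_, rfl⟩
  rw [← hR] at r0 rs rd ⊢
  have hL0 : 0 < Real.log T := by linarith
  obtain ⟨ℓ, hℓd⟩ : ∃ ℓ : ℝ, ℓ = Real.log (Real.log T) := ⟨_, rfl⟩
  have hclose : ∀ j l, |(fun j l => Zl T (α j - α l)) j l - (fun j l => ℓ * R j l) j l| ≤ Cz := by
    intro j l
    show |Zl T (α j - α l) - ℓ * R j l| ≤ Cz
    rw [hR, hℓd]
    exact hz (α j - α l) (hw j l)
  rw [← hℓd] at hℓ0
  obtain ⟨P, hP⟩ : ∃ P : ℝ, P = PN T (fun j => Real.log T ^ v j) α := ⟨_, rfl⟩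
  rw [← hP]
  have hP0 : 0 ≤ P := by rw [hP]; exact PN_nonneg hT0 _ _
  have hbound : ∀ k : Fin n → ℝ, (∀ j, 0 ≤ k j) → P ≤ Real.exp (G - ℓ * dV R v k) := by
    intro k hk
    obtain ⟨m, hm⟩ : ∃ m : Fin n → ℝ, m = fun j => min (k j) (v j) := ⟨_, rfl⟩
    have hm0 : ∀ j, 0 ≤ m j := fun j => by rw [hm]; exact le_min (hk j) (hv0 j)
    have hm2 : ∑ j, m j ≤ 2 := by
      refine (Finset.sum_le_sum fun j _ => ?_).trans hv2
      rw [hm]
      exact min_le_right _ _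
    have h2 := hmom m α hm0 hm2 hα
    have h3 := chern hT0 (α := α) (V := fun j => Real.log T ^ v j) hm0 (fun j => by positivity)
    rw [← hP] at h3
    have h4 : ∏ j, (Real.log T ^ v j) ^ (2 * m j) = Real.exp (ℓ * (2 * ∑ j, m j * v j)) := by
      rw [Finset.mul_sum, Finset.mul_sum, Real.exp_sum]
      refine Finset.prod_congr rfl fun j _ => ?_
      rw [← Real.rpow_mul hL0.le, Real.rpow_def_of_pos hL0, ← hℓd]
      congr 1
      ring
    rw [h4] at h3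
    have h6 := (abs_le.1 (qR_close hclose hCz hm0 hm2 (by norm_num))).2
    rw [qR_smul] at h6
    have h5 : Real.exp (ℓ * (2 * ∑ j, m j * v j)) * P ≤ Real.exp (ℓ * qR R m + G) := by
      have h7 : T * (Real.exp (ℓ * (2 * ∑ j, m j * v j)) * P) ≤ T * Real.exp (ℓ * qR R m + G) := by
        have h8 : T * Real.exp (qR (fun j l => Zl T (α j - α l)) m + C₀) ≤ T * Real.exp (ℓ * qR R m + G) := by
          apply mul_le_mul_of_nonneg_left _ hT0.le
          apply Real.exp_le_exp.2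
          rw [hG]
          linarith
        have h9 := (h3.trans h2).trans h8
        linarith
      exact le_of_mul_le_mul_left h7 hT0
    have h7 : P ≤ Real.exp (G - ℓ * dV R v m) := by
      have h8 : Real.exp (G - ℓ * dV R v m) = (Real.exp (ℓ * (2 * ∑ j, m j * v j)))⁻¹ * Real.exp (ℓ * qR R m + G) := by
        rw [← Real.exp_neg, ← Real.exp_add]
        congr 1
        unfold dV
        ring
      rw [h8, le_inv_mul_iff₀ (Real.exp_pos _)]
      exact h5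
    refine h7.trans (Real.exp_le_exp.2 ?_)
    have h9 := dV_trunc r0 rs rd hv0 hk
    rw [← hm] at h9
    have h10 : ℓ * dV R v k ≤ ℓ * dV R v m := mul_le_mul_of_nonneg_left h9 hℓ0.le
    linarith
  rcases hP0.lt_or_eq with h | h
  · have h2 : rN R v ≤ (G - Real.log P) / ℓ := by
      apply csSup_le
      · exact ⟨_, fun _ => 0, fun _ => le_rfl, rfl⟩
      · rintro x ⟨k, hk, rfl⟩
        have h3 := (Real.log_le_iff_le_exp h).2 (hbound k hk)
        rw [le_div_iff₀ hℓ0]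
        linarith
    rw [le_div_iff₀ hℓ0] at h2
    rw [Real.rpow_def_of_pos hL0, ← hℓd, ← Real.exp_add, ← Real.log_le_iff_le_exp h]
    linarith
  · rw [← h]
    positivity

/-- **all shifts** -/
theorem jointS_all (hn : 0 < n) {K : ℝ} (hK : 0 ≤ K) : ∃ C : ℝ, 0 < C ∧ ∀ᶠ T : ℝ in atTop, ∀ k α : Fin n → ℝ, (∀ j, 0 ≤ k j) → (∀ j, |α j| ≤ T / 2) →
    (∑ j, k j ≤ K → (order T k α)⁻¹ * Real.exp (-(C * Real.sqrt (Real.log (Real.log T)))) ≤
      PN T (fun j => levN T k α j * Real.exp (-(C * Real.sqrt (Real.log (Real.log T))))) α) ∧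
    (∑ j, k j ≤ 2 → ∀ x : ℝ, 0 < x → x ≤ 1 → x ^ 4 * PN T (fun j => levN T k α j * x) α ≤ C * (order T k α)⁻¹) := by
  obtain ⟨C₀, hC₀, hmom⟩ := momN_up hn
  obtain ⟨C₁, hC₁, hlow⟩ := jld_low n hK
  have hE0 : 0 < Real.exp C₀ := Real.exp_pos _
  refine ⟨C₁ + Real.exp C₀, by positivity, ?_⟩
  filter_upwards [hmom, hlow, eventually_gt_atTop (1 : ℝ)] with T hmom hlow hT1 k α hk hα
  have hT0 : 0 < T := by linarith
  obtain ⟨s, hs⟩ : ∃ s : ℝ, s = Real.sqrt (Real.log (Real.log T)) := ⟨_, rfl⟩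
  have hs0 : 0 ≤ s := by rw [hs]; exact Real.sqrt_nonneg _
  rw [← hs] at hlow ⊢
  rw [order_exp hT1, ← Real.exp_neg]
  obtain ⟨q, hq⟩ : ∃ q : ℝ, q = qR (fun j l => Zl T (α j - α l)) k := ⟨_, rfl⟩
  rw [← hq]
  refine ⟨fun hkK => ?_, fun hk2 x hx0 hx1 => ?_⟩
  · have h1 := hlow k α hk hkK hα
    rw [← hq] at h1
    have h2 : Real.exp (-q) * Real.exp (-((C₁ + Real.exp C₀) * s)) ≤ Real.exp (-q - C₁ * s) := by
      rw [← Real.exp_add]
      apply Real.exp_le_exp.2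
      nlinarith [mul_nonneg hE0.le hs0]
    refine h2.trans (h1.trans (PN_mono hT0 fun j => ?_))
    rw [levN_eq hT1, ← Real.exp_add]
    apply Real.exp_le_exp.2
    nlinarith [mul_nonneg hE0.le hs0]
  · have h3 := chern hT0 (α := α) (V := fun j => levN T k α j * x) hk (fun j => by
      show 0 ≤ levN T k α j * x
      rw [levN_eq hT1]
      positivity)
    obtain ⟨P, hP⟩ : ∃ P : ℝ, P = PN T (fun j => levN T k α j * x) α := ⟨_, rfl⟩
    rw [← hP] at h3 ⊢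
    have hP0 : 0 ≤ P := by rw [hP]; exact PN_nonneg hT0 _ _
    have h4 : ∏ j, (levN T k α j * x) ^ (2 * k j) = Real.exp (2 * q) * x ^ (2 * ∑ j, k j) := by
      have e1 : ∀ j, (levN T k α j * x) ^ (2 * k j) = Real.exp (2 * (k j * lR (fun j l => Zl T (α j - α l)) k j)) * x ^ (2 * k j) := fun j => by
        rw [levN_eq hT1, Real.mul_rpow (Real.exp_pos _).le hx0.le, ← Real.exp_mul]
        congr 2
        ring
      rw [Finset.prod_congr rfl fun j _ => e1 j, Finset.prod_mul_distrib, ← Real.exp_sum, ← Finset.mul_sum, Finset.mul_sum (f := k),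
        Real.rpow_sum_of_pos hx0, hq]
      rfl
    rw [h4] at h3
    have h5 := h3.trans (hmom k α hk hk2 hα)
    rw [← hq] at h5
    have h6 : Real.exp (2 * q) * x ^ (2 * ∑ j, k j) * P ≤ Real.exp (q + C₀) := by
      have h7 : T * (Real.exp (2 * q) * x ^ (2 * ∑ j, k j) * P) ≤ T * Real.exp (q + C₀) := by linarith
      exact le_of_mul_le_mul_left h7 hT0
    have h7 : x ^ 4 ≤ x ^ (2 * ∑ j, k j) := by
      have e1 : x ^ 4 = x ^ (4 : ℝ) := by
        rw [← Real.rpow_natCast]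
        norm_num
      rw [e1]
      exact Real.rpow_le_rpow_of_exponent_ge hx0 hx1 (by linarith)
    have h8 : Real.exp (2 * q) * (x ^ 4 * P) ≤ Real.exp (q + C₀) := by
      refine le_trans ?_ h6
      rw [← mul_assoc]
      exact mul_le_mul_of_nonneg_right (mul_le_mul_of_nonneg_left h7 (Real.exp_pos _).le) hP0
    have h9 : x ^ 4 * P ≤ (Real.exp (2 * q))⁻¹ * Real.exp (q + C₀) := by
      rw [le_inv_mul_iff₀ (Real.exp_pos _)]
      exact h8
    refine h9.trans ?_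
    have h10 : (Real.exp (2 * q))⁻¹ * Real.exp (q + C₀) = Real.exp C₀ * Real.exp (-q) := by
      rw [← Real.exp_neg, ← Real.exp_add, ← Real.exp_add]
      congr 1
      ring
    rw [h10]
    exact mul_le_mul_of_nonneg_right (by linarith) (Real.exp_pos _).le

end

end Pool.Agent.H469.F4
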