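import Pool.Agent.H469.F4.STRA
import Pool.Agent.H469.F4.PT1A

set_option autoImplicit false

/-!
# All mean values that are needed, with a perturbation; coefficients of modulus at most `A`
-/

namespace Pool.Agent.H469.F4

open Filter Topology MeasureTheory Complex Pool.Agent.Q97.UM
open Pool.Agent.Q176.UM (qb_lc zf_sub pw_norm geo_sum JB_le one_le_sum' N2_nn)

noncomputable section

/-- all mean values that are needed -/
def S_TORA : Prop := ∀ A : ℝ, 1 ≤ A → ∀ m : ℕ, ∃ κ₀ : ℝ, 4 ≤ κ₀ ∧ ∀ κ : ℝ, κ₀ ≤ κ → ∃ C : ℝ, 1 ≤ C ∧ ∀ D : ℝ, 1 ≤ D →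
  ∀ (k : Fin m → ℝ) (a a2 : Fin m → ℕ → ℂ), FamA A k a a2 →
  ∀ (N : ℕ) (b : ℕ → ℂ), 1 ≤ N → Real.log N ≤ D → (∀ n, b n ≠ 0 → 1 ≤ n ∧ n ≤ N) → ∀ W : ℝ,
    MB (fun t => ‖Ef D κ (lc k a) (lc k a2) 0 t * dp N b t‖ ^ 2) W → ∀ (i i' : Fin m) (q : ℕ), q ≤ JB D →
      (∀ ω : ℝ, 1 ≤ ω → ∀ d d2 : ℕ → ℂ, Pert A D ω d → Pert A D ω d2 →
        MB (fun t => ‖cexp (∑ l ∈ Finset.range (JB D), (zf D (a i) (a2 i) l t + zf D d d2 l t))‖ ^ 2 *
          ‖Ef D κ (fun n => lc k a n - a i n) (fun n => lc k a2 n - a2 i n) q t * pw D κ (a i') (a2 i') q t * dp N b t‖ ^ 2)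
          (C * Real.exp (C * ω ^ (3 / 5 : ℝ)) * Real.exp (-(2 * (q : ℝ))) * W)) ∧
      MB (fun t => ‖Ef D κ (lc k a) (lc k a2) q t * pw D κ (a i') (a2 i') q t * dp N b t‖ ^ 2) (C * Real.exp (-(2 * (q : ℝ))) * W) ∧
      MB (fun t => ‖Ef D κ (fun n => lc k a n - a i n) (fun n => lc k a2 n - a2 i n) q t * pw D κ (a i') (a2 i') q t * dp N b t‖ ^ 2)
        (Real.exp (C * Real.sqrt D) * W)

theorem geo4 (n J : ℕ) (h : n ≤ J) : ∑ l ∈ Finset.Ico n J, Real.exp (-(4 / 10 * (l : ℝ))) ≤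
    4 * (Real.exp (-(4 / 10 * (n : ℝ))) - Real.exp (-(4 / 10 * (J : ℝ)))) := by
  induction J, h using Nat.le_induction with
  | base => simp
  | succ J hJ ih =>
    rw [Finset.sum_Ico_succ_top hJ]
    have h1 : Real.exp (-(4 / 10 * ((J + 1 : ℕ) : ℝ))) ≤ Real.exp (-(4 / 10 * (J : ℝ))) * (3 / 4) := by
      have e : -(4 / 10 * ((J + 1 : ℕ) : ℝ)) = -(4 / 10 * (J : ℝ)) + (-(4 / 10)) := by push_cast; ring
      rw [e, Real.exp_add]
      refine mul_le_mul_of_nonneg_left ?_ (Real.exp_pos _).le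
      rw [Real.exp_neg, inv_le_comm₀ (Real.exp_pos _) (by norm_num)]
      have h2 := Real.add_one_le_exp (4 / 10 : ℝ)
      refine le_trans ?_ h2
      norm_num
    have h2 := Real.exp_pos (-(4 / 10 * (J : ℝ)))
    linarith

/-- the crude bound for the product of the truncated exponentials -/
theorem Ef_crudeA (hTEX : S_TEX) {m : ℕ} {A D κ : ℝ} (hκ : 4 ≤ κ) {k : Fin m → ℝ}
    {a a2 : Fin m → ℕ → ℂ} (hF : FamA A k a a2) (i : Fin m) (q : ℕ) (t : ℝ) :
    ‖Ef D κ (fun n => lc k a n - a i n) (fun n => lc k a2 n - a2 i n) q t‖ ≤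
      Real.exp (2 * ∑ i, ∑ l ∈ Finset.range (JB D + 1), ‖zf D (a i) (a2 i) l t‖) := by
  unfold Ef
  rw [norm_prod]
  have hk1 : ∀ i, k i ≤ 1 := fun i =>
    (one_le_sum' k hF.nn i).trans hF.sm
  have h1 : ∀ l, ‖TEx (R9 κ l) (zf D (fun n => lc k a n - a i n) (fun n => lc k a2 n - a2 i n) l t)‖ ≤
      Real.exp (2 * ∑ i, ‖zf D (a i) (a2 i) l t‖) := by
    intro l
    have hR : 1 ≤ R9 κ l := by
      have h2 := Pool.Agent.Q176.UM.R9_ge κ l
      have h3 : 0 < κ * Real.exp (9 / 10 * (l : ℝ)) := by positivity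
      have h4 : (0 : ℝ) < R9 κ l := h3.trans_le h2
      exact_mod_cast h4
    refine ((hTEX (R9 κ l) _ hR).1).trans (Real.exp_le_exp.2 ?_)
    rw [zf_sub D (lc k a) (lc k a2) (a i) (a2 i), Pool.Agent.Q176.UM.zf_lc]
    refine (norm_sub_le _ _).trans ?_
    have h5 : ‖∑ i, (k i : ℂ) * zf D (a i) (a2 i) l t‖ ≤ ∑ i, ‖zf D (a i) (a2 i) l t‖ := by
      refine (norm_sum_le _ _).trans (Finset.sum_le_sum fun i _ => ?_)
      rw [norm_mul, Complex.norm_real, Real.norm_eq_abs, abs_of_nonneg (hF.nn i)]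
      exact mul_le_of_le_one_left (norm_nonneg _) (hk1 i)
    have h6 := one_le_sum' (fun i => ‖zf D (a i) (a2 i) l t‖) (fun i => norm_nonneg _) i
    linarith
  calc ∏ l ∈ Finset.Ico q (JB D), ‖TEx (R9 κ l) (zf D (fun n => lc k a n - a i n)
        (fun n => lc k a2 n - a2 i n) l t)‖ ≤
      ∏ l ∈ Finset.Ico q (JB D), Real.exp (2 * ∑ i, ‖zf D (a i) (a2 i) l t‖) :=
        Finset.prod_le_prod (fun l _ => norm_nonneg _) fun l _ => h1 l
    _ = Real.exp (∑ l ∈ Finset.Ico q (JB D), 2 * ∑ i, ‖zf D (a i) (a2 i) l t‖) :=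
        (Real.exp_sum _ _).symm
    _ ≤ Real.exp (∑ l ∈ Finset.range (JB D + 1), 2 * ∑ i, ‖zf D (a i) (a2 i) l t‖) := by
        rw [Real.exp_le_exp]
        refine Finset.sum_le_sum_of_subset_of_nonneg ?_ fun l _ _ => by positivity
        intro l hl
        rw [Finset.mem_Ico] at hl
        rw [Finset.mem_range]
        omega
    _ = _ := by
        rw [← Finset.mul_sum, Finset.sum_comm]

theorem pert_zero {A D : ℝ} (hA : 0 ≤ A) : Pert A D 1 (fun _ => 0) :=
  ⟨fun _ => by simpa using hA, fun l p _ => by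
    simp only [norm_zero]
    positivity⟩

theorem t_TORA (hTEX : S_TEX) (hPMT : S_PMT) (hXM : S_XM) (hJL : S_JLA) (hSTR : S_STRA) (hMVL : S_MVL) : S_TORA := by
  intro A hA m
  obtain ⟨C₂, hC₂, hPMT⟩ := hPMT
  obtain ⟨κJ, hκJ4, hJL⟩ := hJL A hA m
  obtain ⟨κS, hκS4, hSTR⟩ := hSTR A hA m
  refine ⟨max (max κJ κS) (11600 * (C₂ * A ^ 2) * Real.exp 1),
    hκJ4.trans ((le_max_left _ _).trans (le_max_left _ _)), fun κ hκ => ?_⟩
  have hκJ : κJ ≤ κ := (le_max_left _ _).trans ((le_max_left _ _).trans hκ)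
  have hκS : κS ≤ κ := (le_max_right _ _).trans ((le_max_left _ _).trans hκ)
  have hκ4 : 4 ≤ κ := hκJ4.trans hκJ
  have hκ0 : 0 < κ := by linarith
  have hκe : 11600 * (C₂ * A ^ 2) * Real.exp 1 ≤ κ := (le_max_right _ _).trans hκ
  obtain ⟨CJ, hCJ, hJL⟩ := hJL κ hκJ
  obtain ⟨CS, hCS, hSTR⟩ := hSTR κ hκS
  obtain ⟨C₁, hC₁, hXM⟩ := hXM (26 * κ + 5) 8 A m (by linarith) (by norm_num) hA
  have hCS0 : 0 < CS := by linarith
  -- the constants
  obtain ⟨Ca, hCa⟩ : ∃ Ca : ℝ, Ca = 1 + CS * Real.exp 2 * Real.exp ((CS + 4) ^ 4) := ⟨_, rfl⟩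
  have hCa1 : 1 ≤ Ca := by rw [hCa]; have : 0 ≤ CS * Real.exp 2 * Real.exp ((CS + 4) ^ 4) := by positivity
                           linarith
  obtain ⟨Cf, hCf⟩ : ∃ Cf : ℝ, Cf = Real.exp 3 * (Ca + 2 * CS) := ⟨_, rfl⟩
  have hCf0 : 0 < Cf := by rw [hCf]; positivity
  obtain ⟨C, hC⟩ : ∃ C : ℝ, C = Cf + (2 * κ + CS) + Ca + (3 * C₁ + 3 * CJ + 3) := ⟨_, rfl⟩
  refine ⟨C, by rw [hC]; linarith, ?_⟩
  have hCf' : Cf ≤ C := by rw [hC]; linarith
  have hCκ : 2 * κ + CS ≤ C := by rw [hC]; linarith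
  have hCa' : Ca ≤ C := by rw [hC]; linarith
  have hC3 : 3 * C₁ + 3 * CJ + 3 ≤ C := by rw [hC]; linarith
  intro D hD k a a2 hF N b hN1 hND hb W hW i₀ i' q hq
  have hW0 : 0 ≤ W := Pool.Agent.Q176.UM.MB.nonneg (fun t => by positivity) hW
  have hBc := Pool.Agent.Q86.UM.dp_cont N b
  have hzc : ∀ (x x2 : ℕ → ℂ) (l : ℕ), Continuous (zf D x x2 l) := fun x x2 l => Pool.Agent.Q86.UM.zf_cont _ _ _ _
  have hEc : ∀ (x x2 : ℕ → ℂ) (l : ℕ), Continuous (Ef D κ x x2 l) := fun x x2 l => Pool.Agent.Q86.UM.Ef_cont _ _ _ _ _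
  have hpc : Continuous (pw D κ (a i') (a2 i') q) := Pool.Agent.Q86.UM.pw_cont _ _ _ _ _
  have hSc : ∀ n : ℕ, Continuous fun t => ∑ i, ∑ l ∈ Finset.range n, ‖zf D (a i) (a2 i) l t‖ :=
    fun n => continuous_finsetSum _ fun i _ => continuous_finsetSum _ fun l _ => (hzc _ _ l).norm
  -- the first two terms of STR, for the factor `pw`
  have hmain : ∀ (ω : ℝ), 1 ≤ ω → ∀ d d2 : ℕ → ℂ, Pert A D ω d → Pert A D ω d2 → ∀ j₁ : ℕ, q ≤ j₁ → j₁ ≤ JB D →
      (j₁ = q ∨ Real.exp (((j₁ - 1 : ℕ) : ℝ) / 2) ≤ ω ^ (3 / 5 : ℝ)) →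
      MB (fun t => ‖Ef D κ (lc k a) (lc k a2) j₁ t * dp N b t‖ ^ 2 * Real.exp (6 * SZ D a a2 d d2 j₁ t) *
        ‖pw D κ (a i') (a2 i') q t‖ ^ 2) (Ca * Real.exp (CS * ω ^ (3 / 5 : ℝ)) * Real.exp (-(2 * (q : ℝ))) * W) := by
    intro ω hω d d2 hd hd2 j₁ hqj _ hor
    have hωp : 0 ≤ ω ^ (3 / 5 : ℝ) := Real.rpow_nonneg (by linarith) _
    have hE1 : 1 ≤ Real.exp (CS * ω ^ (3 / 5 : ℝ)) := Real.one_le_exp (by positivity)
    rcases Nat.eq_zero_or_pos j₁ with h0 | h0
    · subst h0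
      have hq0 : q = 0 := by omega
      subst hq0
      refine Pool.Agent.Q176.UM.MB.le ?_ (Pool.Agent.Q176.UM.MB.congr (fun t => ?_) hW)
      · simp only [Nat.cast_zero, mul_zero, neg_zero, Real.exp_zero, mul_one]
        have h1 : 1 ≤ Ca * Real.exp (CS * ω ^ (3 / 5 : ℝ)) := by nlinarith
        nlinarith
      · simp [pw, SZ]
    · obtain ⟨j, rfl⟩ : ∃ j, j₁ = j + 1 := ⟨j₁ - 1, by omega⟩
      have hS := hSTR D hD k a a2 hF ω hω d d2 hd hd2 N b hN1 hND hb W hW j
      cases q with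
      | zero =>
        rcases hor with hor | hor
        · omega
        · rw [Nat.add_sub_cancel] at hor
          refine Pool.Agent.Q176.UM.MB.le ?_ (Pool.Agent.Q176.UM.MB.congr (fun t => ?_) hS.1)
          · simp only [Nat.cast_zero, mul_zero, neg_zero, Real.exp_zero, mul_one]
            have h1 : CS ≤ Ca := by
              have e1 : 1 ≤ Real.exp 2 := Real.one_le_exp (by norm_num)
              have e2 : 1 ≤ Real.exp ((CS + 4) ^ 4) := Real.one_le_exp (by positivity)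
              have e3 : 1 ≤ Real.exp 2 * Real.exp ((CS + 4) ^ 4) := by nlinarith
              rw [hCa, mul_assoc]
              nlinarith
            have h2 : Real.exp (CS * Real.exp ((j : ℝ) / 2)) ≤ Real.exp (CS * ω ^ (3 / 5 : ℝ)) :=
              Real.exp_le_exp.2 (mul_le_mul_of_nonneg_left hor hCS0.le)
            gcongr
          · simp [pw]
      | succ q' =>
        have hM := (hS.2 i' q').1
        refine Pool.Agent.Q176.UM.MB.le ?_ (Pool.Agent.Q176.UM.MB.congr (fun t => ?_) hM)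
        · have e : Real.exp (-(2 * (q' : ℝ))) = Real.exp 2 * Real.exp (-(2 * ((q' + 1 : ℕ) : ℝ))) := by
            rw [← Real.exp_add]
            congr 1
            push_cast
            ring
          have hq2 := Real.exp_pos (-(2 * ((q' + 1 : ℕ) : ℝ)))
          have hkey : Real.exp (CS * Real.exp ((j : ℝ) / 2)) * Real.exp (-(s7 q' : ℝ)) ≤
              Real.exp ((CS + 4) ^ 4) * Real.exp (CS * ω ^ (3 / 5 : ℝ)) * (Real.exp 2 * Real.exp (-(2 * ((q' + 1 : ℕ) : ℝ)))) := by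
            rw [← e]
            rcases hor with hor | hor
            · have hjq : j = q' := by omega
              subst hjq
              have h1 := fin_leA hCS0.le j
              calc _ ≤ Real.exp ((CS + 4) ^ 4) * Real.exp (-(2 * (j : ℝ))) := h1
                _ = Real.exp ((CS + 4) ^ 4) * 1 * Real.exp (-(2 * (j : ℝ))) := by ring
                _ ≤ _ := by gcongr
            · rw [Nat.add_sub_cancel] at hor
              have h1 := fin_leA (le_refl (0 : ℝ)) q'
              rw [zero_mul, Real.exp_zero, one_mul, zero_add] at h1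
              have h2 : Real.exp (CS * Real.exp ((j : ℝ) / 2)) ≤ Real.exp (CS * ω ^ (3 / 5 : ℝ)) :=
                Real.exp_le_exp.2 (mul_le_mul_of_nonneg_left hor hCS0.le)
              have h3 : Real.exp ((4 : ℝ) ^ 4) ≤ Real.exp ((CS + 4) ^ 4) := by
                apply Real.exp_le_exp.2
                gcongr
                linarith
              calc _ ≤ Real.exp (CS * ω ^ (3 / 5 : ℝ)) * (Real.exp ((4 : ℝ) ^ 4) * Real.exp (-(2 * (q' : ℝ)))) := by
                    gcongr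
                _ ≤ Real.exp (CS * ω ^ (3 / 5 : ℝ)) * (Real.exp ((CS + 4) ^ 4) * Real.exp (-(2 * (q' : ℝ)))) := by
                    gcongr
                _ = _ := by ring
          calc CS * Real.exp (CS * Real.exp ((j : ℝ) / 2)) * Real.exp (-(s7 q' : ℝ)) * W =
              CS * (Real.exp (CS * Real.exp ((j : ℝ) / 2)) * Real.exp (-(s7 q' : ℝ))) * W := by ring
            _ ≤ CS * (Real.exp ((CS + 4) ^ 4) * Real.exp (CS * ω ^ (3 / 5 : ℝ)) *
                (Real.exp 2 * Real.exp (-(2 * ((q' + 1 : ℕ) : ℝ))))) * W := by gcongr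
            _ = (CS * Real.exp 2 * Real.exp ((CS + 4) ^ 4)) * Real.exp (CS * ω ^ (3 / 5 : ℝ)) *
                Real.exp (-(2 * ((q' + 1 : ℕ) : ℝ))) * W := by ring
            _ ≤ Ca * Real.exp (CS * ω ^ (3 / 5 : ℝ)) * Real.exp (-(2 * ((q' + 1 : ℕ) : ℝ))) * W := by
                gcongr
                rw [hCa]
                linarith
        · rw [pw_norm, ← pow_mul, mul_comm (s7 q') 2]
  -- (second)
  have second : MB (fun t => ‖Ef D κ (lc k a) (lc k a2) q t * pw D κ (a i') (a2 i') q t *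
      dp N b t‖ ^ 2) (C * Real.exp (-(2 * (q : ℝ))) * W) := by
    cases q with
    | zero =>
      refine Pool.Agent.Q176.UM.MB.le ?_ (Pool.Agent.Q176.UM.MB.congr (fun t => ?_) hW)
      · simp only [Nat.cast_zero, mul_zero, neg_zero, Real.exp_zero, mul_one]
        nlinarith
      · simp [pw]
    | succ q' =>
      have hS := hSTR D hD k a a2 hF 1 le_rfl _ _ (pert_zero (by linarith)) (pert_zero (by linarith)) N b hN1 hND hb W hW q'
      have hM := (hS.2 i' q').1
      refine Pool.Agent.Q176.UM.MB.le ?_ (Pool.Agent.Q176.UM.MB.mono ?_ ?_ (fun t => ?_) hM)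
      · have h1 := fin_leA hCS0.le q'
        have e : Real.exp (-(2 * (q' : ℝ))) = Real.exp 2 * Real.exp (-(2 * ((q' + 1 : ℕ) : ℝ))) := by
          rw [← Real.exp_add]
          congr 1
          push_cast
          ring
        calc CS * Real.exp (CS * Real.exp ((q' : ℝ) / 2)) * Real.exp (-(s7 q' : ℝ)) * W =
            CS * (Real.exp (CS * Real.exp ((q' : ℝ) / 2)) * Real.exp (-(s7 q' : ℝ))) * W := by ring
          _ ≤ CS * (Real.exp ((CS + 4) ^ 4) * Real.exp (-(2 * (q' : ℝ)))) * W := by gcongr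
          _ = (CS * Real.exp 2 * Real.exp ((CS + 4) ^ 4)) * Real.exp (-(2 * ((q' + 1 : ℕ) : ℝ))) * W := by
              rw [e]; ring
          _ ≤ C * Real.exp (-(2 * ((q' + 1 : ℕ) : ℝ))) * W := by
              gcongr
              refine le_trans ?_ hCa'
              rw [hCa]
              linarith
      · exact (((hEc _ _ _).mul hpc).mul hBc).norm.pow 2
      · refine Continuous.mul (Continuous.mul (((hEc _ _ _).mul hBc).norm.pow 2) ?_) ?_
        · exact Real.continuous_exp.comp (continuous_const.mul (SZ_cont _ _ _ _ _ _))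
        · exact ((continuous_const.mul (hzc _ _ _).norm).div_const _).pow _
      · have e1 : ‖Ef D κ (lc k a) (lc k a2) (q' + 1) t * pw D κ (a i') (a2 i') (q' + 1) t *
            dp N b t‖ ^ 2 = ‖Ef D κ (lc k a) (lc k a2) (q' + 1) t * dp N b t‖ ^ 2 * 1 *
              (20 * ‖zf D (a i') (a2 i') q' t‖ / R9 κ q') ^ (2 * s7 q') := by
          rw [norm_mul, norm_mul, pw_norm, norm_mul, mul_comm 2 (s7 q'), pow_mul]
          ring
        rw [e1]
        have h1 : 1 ≤ Real.exp (6 * SZ D a a2 (fun _ => 0) (fun _ => 0) (q' + 1) t) :=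
          Real.one_le_exp (mul_nonneg (by norm_num) (SZ_nonneg _ _ _ _ _ _ _))
        gcongr
  -- (first)
  have first : ∀ ω : ℝ, 1 ≤ ω → ∀ d d2 : ℕ → ℂ, Pert A D ω d → Pert A D ω d2 →
      MB (fun t => ‖cexp (∑ l ∈ Finset.range (JB D), (zf D (a i₀) (a2 i₀) l t + zf D d d2 l t))‖ ^ 2 *
        ‖Ef D κ (fun n => lc k a n - a i₀ n) (fun n => lc k a2 n - a2 i₀ n) q t *
          pw D κ (a i') (a2 i') q t * dp N b t‖ ^ 2)
        (C * Real.exp (C * ω ^ (3 / 5 : ℝ)) * Real.exp (-(2 * (q : ℝ))) * W) := by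
    intro ω hω d d2 hd hd2
    have hω0 : 0 < ω := by linarith
    have hωp : 0 ≤ ω ^ (3 / 5 : ℝ) := Real.rpow_nonneg hω0.le _
    obtain ⟨j₁, hj₁⟩ : ∃ j₁ : ℕ, j₁ = max q (min (JB D) ⌈Real.log ω⌉₊) := ⟨_, rfl⟩
    have hqj : q ≤ j₁ := by rw [hj₁]; exact le_max_left _ _
    have hjJ : j₁ ≤ JB D := by
      rw [hj₁]
      exact max_le hq (min_le_left _ _)
    have hbig : j₁ = JB D ∨ ω ≤ Real.exp (j₁ : ℝ) := by
      rcases le_total (JB D) ⌈Real.log ω⌉₊ with h | h
      · left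
        rw [hj₁, min_eq_left h]
        exact max_eq_right hq
      · right
        have h1 : ⌈Real.log ω⌉₊ ≤ j₁ := by
          rw [hj₁, min_eq_right h]
          exact le_max_right _ _
        have h2 : Real.log ω ≤ j₁ := (Nat.le_ceil _).trans (by exact_mod_cast h1)
        calc ω = Real.exp (Real.log ω) := (Real.exp_log hω0).symm
          _ ≤ _ := Real.exp_le_exp.2 h2
    have hsmall : j₁ = q ∨ Real.exp (((j₁ - 1 : ℕ) : ℝ) / 2) ≤ ω ^ (3 / 5 : ℝ) := by
      rcases le_total (min (JB D) ⌈Real.log ω⌉₊) q with h | h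
      · left
        rw [hj₁]
        exact max_eq_left h
      · rcases Nat.eq_zero_or_pos j₁ with h0 | h0
        · left
          omega
        · right
          have h1 : j₁ ≤ ⌈Real.log ω⌉₊ := by
            rw [hj₁, max_eq_right h]
            exact min_le_right _ _
          have hlog : 0 ≤ Real.log ω := Real.log_nonneg hω
          have h2 : ((j₁ - 1 : ℕ) : ℝ) ≤ Real.log ω := by
            have h3 := (Nat.ceil_lt_add_one hlog).le
            have h4 : (j₁ : ℝ) ≤ ⌈Real.log ω⌉₊ := by exact_mod_cast h1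
            rw [Nat.cast_sub h0]
            push_cast
            linarith
          rw [Real.rpow_def_of_pos hω0]
          apply Real.exp_le_exp.2
          linarith
    -- the bound for the sum of the perturbation
    obtain ⟨E, hEd⟩ : ∃ E : ℝ, E = κ * ω ^ (3 / 5 : ℝ) := ⟨_, rfl⟩
    have hE0 : 0 ≤ E := by rw [hEd]; positivity
    have hEb : ∀ t : ℝ, ∀ s : Finset ℕ, s ⊆ Finset.Ico j₁ (JB D) →
        (∀ l ∈ s, Real.exp l / ω * ‖zf D d d2 l t‖ ≤ κ * Real.exp (6 / 10 * (l : ℝ)) / 20) →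
        ∑ l ∈ s, ‖zf D d d2 l t‖ ≤ E := by
      intro t s hs hsl
      rcases hbig with hbig | hbig
      · have hs0 : s = ∅ := by
          rw [hbig, Finset.Ico_self] at hs
          exact Finset.subset_empty.1 hs
        rw [hs0, Finset.sum_empty]
        exact hE0
      · have h1 : ∀ l ∈ s, ‖zf D d d2 l t‖ ≤ ω * κ / 20 * Real.exp (-(4 / 10 * (l : ℝ))) := by
          intro l hl
          have h2 := hsl l hl
          have h3 : ‖zf D d d2 l t‖ = ω * Real.exp (-(l : ℝ)) * (Real.exp l / ω * ‖zf D d d2 l t‖) := by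
            have : Real.exp (-(l : ℝ)) * Real.exp l = 1 := by
              rw [← Real.exp_add, neg_add_cancel, Real.exp_zero]
            have h4 : ω * Real.exp (-(l : ℝ)) * (Real.exp l / ω * ‖zf D d d2 l t‖) =
                (ω / ω) * (Real.exp (-(l : ℝ)) * Real.exp l) * ‖zf D d d2 l t‖ := by ring
            rw [h4, this, div_self hω0.ne']
            ring
          rw [h3]
          calc ω * Real.exp (-(l : ℝ)) * (Real.exp l / ω * ‖zf D d d2 l t‖) ≤
              ω * Real.exp (-(l : ℝ)) * (κ * Real.exp (6 / 10 * (l : ℝ)) / 20) :=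
                mul_le_mul_of_nonneg_left h2 (by positivity)
            _ = ω * κ / 20 * (Real.exp (-(l : ℝ)) * Real.exp (6 / 10 * (l : ℝ))) := by ring
            _ = _ := by
                rw [← Real.exp_add]
                congr 2
                ring
        refine (Finset.sum_le_sum h1).trans ?_
        rw [← Finset.mul_sum]
        have h2 : ∑ l ∈ s, Real.exp (-(4 / 10 * (l : ℝ))) ≤ ∑ l ∈ Finset.Ico j₁ (JB D), Real.exp (-(4 / 10 * (l : ℝ))) :=
          Finset.sum_le_sum_of_subset_of_nonneg hs fun _ _ _ => (Real.exp_pos _).le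
        have h3 := geo4 j₁ (JB D) hjJ
        have h4 := Real.exp_pos (-(4 / 10 * (JB D : ℝ)))
        have h5 : Real.exp (-(4 / 10 * (j₁ : ℝ))) ≤ ω ^ (-(4 / 10) : ℝ) := by
          have h6 : Real.exp (-(4 / 10 * (j₁ : ℝ))) = (Real.exp (j₁ : ℝ)) ^ (-(4 / 10) : ℝ) := by
            rw [← Real.exp_mul]
            congr 1
            ring
          rw [h6]
          exact Real.rpow_le_rpow_of_nonpos hω0 hbig (by norm_num)
        have h6 : ω * ω ^ (-(4 / 10) : ℝ) = ω ^ (3 / 5 : ℝ) := by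
          nth_rewrite 1 [← Real.rpow_one ω]
          rw [← Real.rpow_add hω0]
          norm_num
        have h7 : 0 ≤ ω * κ / 20 := by positivity
        calc ω * κ / 20 * ∑ l ∈ s, Real.exp (-(4 / 10 * (l : ℝ))) ≤ ω * κ / 20 * (4 * ω ^ (-(4 / 10) : ℝ)) := by
              apply mul_le_mul_of_nonneg_left _ h7
              linarith
          _ = κ / 5 * (ω * ω ^ (-(4 / 10) : ℝ)) := by ring
          _ = κ / 5 * ω ^ (3 / 5 : ℝ) := by rw [h6]
          _ ≤ E := by
              rw [hEd]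
              apply mul_le_mul_of_nonneg_right _ hωp
              linarith
    -- the pointwise inequality
    have hP : ∀ t, ‖cexp (∑ l ∈ Finset.range (JB D), (zf D (a i₀) (a2 i₀) l t + zf D d d2 l t))‖ ^ 2 *
        ‖Ef D κ (fun n => lc k a n - a i₀ n) (fun n => lc k a2 n - a2 i₀ n) q t *
          pw D κ (a i') (a2 i') q t * dp N b t‖ ^ 2 ≤
        Real.exp 3 * Real.exp (2 * E) * (‖Ef D κ (lc k a) (lc k a2) j₁ t * dp N b t‖ ^ 2 *
          Real.exp (6 * SZ D a a2 d d2 j₁ t) * ‖pw D κ (a i') (a2 i') q t‖ ^ 2 +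
          ∑ j ∈ Finset.Ico j₁ (JB D), ‖Ef D κ (lc k a) (lc k a2) (j + 1) t * dp N b t‖ ^ 2 *
            Real.exp (6 * SZ D a a2 d d2 (j + 1) t) *
            ((∑ i, (20 * ‖zf D (a i) (a2 i) j t‖ / R9 κ j) ^ (2 * s7 j)) + yh D ω κ d d2 j t ^ (2 * s7 j)) *
            ‖pw D κ (a i') (a2 i') q t‖ ^ 2) := by
      intro t
      have h := pt1A hTEX m κ hκ4 (JB D) k (fun i l => zf D (a i) (a2 i) l t) (fun l => zf D d d2 l t)
        (fun l => Real.exp l / ω * ‖zf D d d2 l t‖) E hF.nn hF.sm i₀ q j₁ hqj hjJ (fun l => by positivity) (hEb t)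
      have e1 : (∏ l ∈ Finset.Ico q (JB D), TEx (R9 κ l) ((∑ i, (k i : ℂ) * zf D (a i) (a2 i) l t) -
          zf D (a i₀) (a2 i₀) l t)) =
          Ef D κ (fun n => lc k a n - a i₀ n) (fun n => lc k a2 n - a2 i₀ n) q t := by
        unfold Ef
        refine Finset.prod_congr rfl fun l _ => ?_
        rw [zf_sub D (lc k a) (lc k a2) (a i₀) (a2 i₀), Pool.Agent.Q176.UM.zf_lc]
      have e2 : ∀ n, (∏ l ∈ Finset.Ico n (JB D), TEx (R9 κ l)
          (∑ i, (k i : ℂ) * zf D (a i) (a2 i) l t)) = Ef D κ (lc k a) (lc k a2) n t := by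
        intro n
        unfold Ef
        refine Finset.prod_congr rfl fun l _ => ?_
        rw [Pool.Agent.Q176.UM.zf_lc]
      simp only [e1, e2] at h
      have h2 := mul_le_mul_of_nonneg_right h
        (show 0 ≤ ‖pw D κ (a i') (a2 i') q t‖ ^ 2 * ‖dp N b t‖ ^ 2 by positivity)
      refine le_trans (le_of_eq ?_) (h2.trans (le_of_eq ?_))
      · rw [norm_mul, norm_mul]
        ring
      · rw [mul_assoc (Real.exp 3 * Real.exp (2 * E)), add_mul, Finset.sum_mul]
        unfold SZ yh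
        congr 2
        · rw [norm_mul]
          ring
        · refine Finset.sum_congr rfl fun j _ => ?_
          rw [norm_mul]
          ring
    -- the penalty is at most `1 + ...`
    obtain ⟨q', hq'⟩ : ∃ q' : ℕ, ∀ t, ‖pw D κ (a i') (a2 i') q t‖ ^ 2 ≤
        1 + (20 * ‖zf D (a i') (a2 i') q' t‖ / R9 κ q') ^ (2 * s7 q') := by
      cases q with
      | zero =>
        refine ⟨0, fun t => ?_⟩
        simp only [pw, norm_one, one_pow]
        have : 0 ≤ (20 * ‖zf D (a i') (a2 i') 0 t‖ / R9 κ 0) ^ (2 * s7 0) := by positivity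
        linarith
      | succ q' =>
        refine ⟨q', fun t => ?_⟩
        rw [pw_norm, ← pow_mul, mul_comm (s7 q') 2]
        linarith
    obtain ⟨G, hG⟩ : ∃ G : ℕ → ℝ → ℝ, G = fun j t =>
      ‖Ef D κ (lc k a) (lc k a2) (j + 1) t * dp N b t‖ ^ 2 * Real.exp (6 * SZ D a a2 d d2 (j + 1) t) *
        (1 + (20 * ‖zf D (a i') (a2 i') q' t‖ / R9 κ q') ^ (2 * s7 q')) *
        ((∑ i, (20 * ‖zf D (a i) (a2 i) j t‖ / R9 κ j) ^ (2 * s7 j)) + yh D ω κ d d2 j t ^ (2 * s7 j)) := ⟨_, rfl⟩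
    have hGc : ∀ j, Continuous (G j) := by
      intro j
      rw [hG]
      refine Continuous.mul (Continuous.mul (Continuous.mul (((hEc _ _ _).mul hBc).norm.pow 2) ?_) ?_) ?_
      · exact Real.continuous_exp.comp (continuous_const.mul (SZ_cont _ _ _ _ _ _))
      · exact continuous_const.add (((continuous_const.mul (hzc _ _ _).norm).div_const _).pow _)
      · exact (continuous_finsetSum _ fun i _ =>
          ((continuous_const.mul (hzc _ _ _).norm).div_const _).pow _).add ((yh_cont _ _ _ _ _ _).pow _)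
    have hGM : ∀ j, MB (G j) (CS * Real.exp (-(2 * (j : ℝ))) * W) := by
      intro j
      rw [hG]
      exact ((hSTR D hD k a a2 hF ω hω d d2 hd hd2 N b hN1 hND hb W hW j).2 i' q').2
    have hMc : Continuous fun t => ‖Ef D κ (lc k a) (lc k a2) j₁ t * dp N b t‖ ^ 2 *
        Real.exp (6 * SZ D a a2 d d2 j₁ t) * ‖pw D κ (a i') (a2 i') q t‖ ^ 2 := by
      refine Continuous.mul (Continuous.mul (((hEc _ _ _).mul hBc).norm.pow 2) ?_) (hpc.norm.pow 2)
      exact Real.continuous_exp.comp (continuous_const.mul (SZ_cont _ _ _ _ _ _))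
    have hM := hmain ω hω d d2 hd hd2 j₁ hqj hjJ hsmall
    have hR := Pool.Agent.Q176.UM.MB.cmul (c := Real.exp 3 * Real.exp (2 * E)) (by positivity)
      (Pool.Agent.Q176.UM.MB.add hMc (continuous_finsetSum (Finset.Ico j₁ (JB D)) fun j _ => hGc j) hM
        (Pool.Agent.Q176.UM.MB.sum (Finset.Ico j₁ (JB D)) (fun j _ => hGc j) (fun j _ => hGM j)))
    refine Pool.Agent.Q176.UM.MB.le ?_ (Pool.Agent.Q176.UM.MB.mono ?_ ?_ (fun t => ?_) hR)
    · rw [← Finset.sum_mul, ← Finset.mul_sum]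
      have h1 := geo_sum j₁ (JB D) hjJ
      have h2 := Real.exp_pos (-(2 * (JB D : ℝ)))
      have h3 : Real.exp (-(2 * (j₁ : ℝ))) ≤ Real.exp (-(2 * (q : ℝ))) := by
        apply Real.exp_le_exp.2
        have : (q : ℝ) ≤ j₁ := by exact_mod_cast hqj
        linarith
      have h4 : ∑ j ∈ Finset.Ico j₁ (JB D), Real.exp (-(2 * (j : ℝ))) ≤ 2 * Real.exp (-(2 * (q : ℝ))) := by linarith
      have hE1 : 1 ≤ Real.exp (CS * ω ^ (3 / 5 : ℝ)) := Real.one_le_exp (by positivity)
      have hE2 : Real.exp (2 * E) * Real.exp (CS * ω ^ (3 / 5 : ℝ)) ≤ Real.exp (C * ω ^ (3 / 5 : ℝ)) := by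
        rw [← Real.exp_add]
        apply Real.exp_le_exp.2
        rw [hEd]
        have := mul_le_mul_of_nonneg_right hCκ hωp
        linarith
      have hEq := Real.exp_pos (-(2 * (q : ℝ)))
      calc Real.exp 3 * Real.exp (2 * E) * (Ca * Real.exp (CS * ω ^ (3 / 5 : ℝ)) * Real.exp (-(2 * (q : ℝ))) * W +
            CS * (∑ j ∈ Finset.Ico j₁ (JB D), Real.exp (-(2 * (j : ℝ)))) * W) ≤
          Real.exp 3 * Real.exp (2 * E) * (Ca * Real.exp (CS * ω ^ (3 / 5 : ℝ)) * Real.exp (-(2 * (q : ℝ))) * W +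
            CS * (2 * Real.exp (-(2 * (q : ℝ))) * Real.exp (CS * ω ^ (3 / 5 : ℝ))) * W) := by
            gcongr
            refine h4.trans ?_
            exact le_mul_of_one_le_right (by positivity) hE1
        _ = Real.exp 3 * (Ca + 2 * CS) * (Real.exp (2 * E) * Real.exp (CS * ω ^ (3 / 5 : ℝ))) *
            Real.exp (-(2 * (q : ℝ))) * W := by ring
        _ ≤ C * Real.exp (C * ω ^ (3 / 5 : ℝ)) * Real.exp (-(2 * (q : ℝ))) * W := by
            have hc1 : Real.exp 3 * (Ca + 2 * CS) ≤ C := by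
              rw [← hCf]
              exact hCf'
            have hC0 : 0 ≤ C := hCf0.le.trans hCf'
            gcongr
    · refine Continuous.mul ?_ ((((hEc _ _ _).mul hpc).mul hBc).norm.pow 2)
      exact ((Complex.continuous_exp.comp (continuous_finsetSum _ fun l _ => (hzc _ _ l).add (hzc _ _ l))).norm).pow 2
    · exact continuous_const.mul (hMc.add (continuous_finsetSum _ fun j _ => hGc j))
    · refine (hP t).trans (mul_le_mul_of_nonneg_left (add_le_add le_rfl
        (Finset.sum_le_sum fun j _ => ?_)) (by positivity))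
      rw [hG]
      simp only
      have h1 : 0 ≤ ‖Ef D κ (lc k a) (lc k a2) (j + 1) t * dp N b t‖ ^ 2 * Real.exp (6 * SZ D a a2 d d2 (j + 1) t) := by
        positivity
      have h2 : 0 ≤ (∑ i, (20 * ‖zf D (a i) (a2 i) j t‖ / R9 κ j) ^ (2 * s7 j)) + yh D ω κ d d2 j t ^ (2 * s7 j) := by
        have : 0 ≤ yh D ω κ d d2 j t := by
          unfold yh
          positivity
        positivity
      calc _ = (‖Ef D κ (lc k a) (lc k a2) (j + 1) t * dp N b t‖ ^ 2 * Real.exp (6 * SZ D a a2 d d2 (j + 1) t)) *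
            ‖pw D κ (a i') (a2 i') q t‖ ^ 2 *
            ((∑ i, (20 * ‖zf D (a i) (a2 i) j t‖ / R9 κ j) ^ (2 * s7 j)) + yh D ω κ d d2 j t ^ (2 * s7 j)) := by ring
        _ ≤ _ := mul_le_mul_of_nonneg_right (mul_le_mul_of_nonneg_left (hq' t) h1) h2
  -- (third)
  have third : MB (fun t => ‖Ef D κ (fun n => lc k a n - a i₀ n) (fun n => lc k a2 n - a2 i₀ n) q t *
      pw D κ (a i') (a2 i') q t * dp N b t‖ ^ 2) (Real.exp ((3 * C₁ + 3 * CJ + 3) * Real.sqrt D) * W) := by
    have hDs : 1 ≤ Real.sqrt D := Real.one_le_sqrt.2 hD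
    have hJB := JB_le hD
    have hNn := N2_nn N b
    have hNN : N2 N b ≤ 2 * (Real.exp (CJ * (3 * Real.sqrt D)) * W) := by
      have h1 := hJL D hD k a a2 hF N b hN1 hND hb W hW (JB D)
      have h2 := Pool.Agent.Q176.UM.MB.congr (G := fun t => ‖dp N b t‖ ^ 2) (fun t => by
        have : Ef D κ (lc k a) (lc k a2) (JB D + 1) t = 1 := by
          unfold Ef
          rw [Finset.Ico_eq_empty (by omega), Finset.prod_empty]
        rw [this, one_mul]) h1
      refine (Pool.Agent.Q176.UM.N2_le hMVL h2).trans ?_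
      gcongr
    have hx := hXM D hD a a2 hF.b1 hF.b2 N b hN1 (by
      have : 1 * D ≤ (26 * κ + 5) * D := by gcongr; linarith
      linarith) hb (JB D)
    have hp4 : MB (fun t => ‖dp N b t‖ ^ 2 * ‖pw D κ (a i') (a2 i') q t‖ ^ 4) (2 * N2 N b) := by
      cases q with
      | zero =>
        refine Pool.Agent.Q176.UM.MB.congr (fun t => ?_) (Pool.Agent.Q176.UM.MB_dp hMVL N b)
        simp [pw]
      | succ q' =>
        have h1 := blkA hC₂ hPMT hA hκe hκ4 hD (hF.b1 i') (hF.b2 i') hN1 (by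
          have : 1 * D ≤ (26 * κ + 5) * D := by gcongr; linarith
          linarith) hb (j := q') (r := 2 * s7 q') (by omega) (R9_ge6 hκ4 q')
        refine Pool.Agent.Q176.UM.MB.le ?_ (Pool.Agent.Q176.UM.MB.congr (G := fun t => ‖dp N b t‖ ^ 2 *
          ‖pw D κ (a i') (a2 i') (q' + 1) t‖ ^ 4) (fun t => ?_) h1)
        · have h2 : Real.exp (-1) ^ (2 * s7 q') ≤ 1 := by
            refine pow_le_one₀ (Real.exp_pos _).le ?_
            rw [Real.exp_le_one_iff]
            norm_num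
          have h3 := mul_le_mul_of_nonneg_right h2 (show 0 ≤ 2 * N2 N b by linarith)
          linarith
        · rw [pw_norm, ← pow_mul]
          congr 2
          ring
    have c1 : Continuous fun t => ‖dp N b t‖ ^ 2 *
        Real.exp (8 * ∑ i, ∑ l ∈ Finset.range (JB D + 1), ‖zf D (a i) (a2 i) l t‖) :=
      (hBc.norm.pow 2).mul (Real.continuous_exp.comp (continuous_const.mul (hSc _)))
    have c2 : Continuous fun t => ‖dp N b t‖ ^ 2 * ‖pw D κ (a i') (a2 i') q t‖ ^ 4 :=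
      (hBc.norm.pow 2).mul (hpc.norm.pow 4)
    refine Pool.Agent.Q176.UM.MB.le ?_ (Pool.Agent.Q176.UM.MB.mono ?_ (c1.add c2) (fun t => ?_)
      (Pool.Agent.Q176.UM.MB.add c1 c2 hx hp4))
    · have h1 : Real.exp (C₁ * Real.exp ((JB D : ℝ) / 2)) ≤ Real.exp (C₁ * (3 * Real.sqrt D)) := by
        rw [Real.exp_le_exp]
        gcongr
      have h2 : 8 ≤ Real.exp (3 * Real.sqrt D) := by
        have h3 : Real.exp 3 ≤ Real.exp (3 * Real.sqrt D) := by
          rw [Real.exp_le_exp]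
          linarith
        have h4 := Real.add_one_le_exp 1
        have h5 : Real.exp 3 = Real.exp 1 ^ 3 := by
          rw [← Real.exp_nat_mul]
          norm_num
        have h6 : (2 : ℝ) ^ 3 ≤ Real.exp 1 ^ 3 := by
          gcongr
          linarith
        linarith
      have h3 : 1 ≤ Real.exp (C₁ * (3 * Real.sqrt D)) := Real.one_le_exp (by positivity)
      calc Real.exp (C₁ * Real.exp ((JB D : ℝ) / 2)) * N2 N b + 2 * N2 N b ≤
          Real.exp (C₁ * (3 * Real.sqrt D)) * N2 N b +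
            2 * Real.exp (C₁ * (3 * Real.sqrt D)) * N2 N b := by
            gcongr
            linarith
        _ = 3 * Real.exp (C₁ * (3 * Real.sqrt D)) * N2 N b := by ring
        _ ≤ 3 * Real.exp (C₁ * (3 * Real.sqrt D)) *
            (2 * (Real.exp (CJ * (3 * Real.sqrt D)) * W)) := by gcongr
        _ = 6 * (Real.exp (C₁ * (3 * Real.sqrt D)) * Real.exp (CJ * (3 * Real.sqrt D)) * W) := by ring
        _ ≤ Real.exp (3 * Real.sqrt D) *
            (Real.exp (C₁ * (3 * Real.sqrt D)) * Real.exp (CJ * (3 * Real.sqrt D)) * W) := by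
            gcongr
            linarith
        _ = Real.exp ((3 * C₁ + 3 * CJ + 3) * Real.sqrt D) * W := by
            rw [← Real.exp_add, ← mul_assoc, ← Real.exp_add]
            congr 2
            ring
    · exact (((hEc _ _ _).mul hpc).mul hBc).norm.pow 2
    · have h1 := Ef_crudeA hTEX (D := D) hκ4 hF i₀ q t
      obtain ⟨S, hS⟩ : ∃ S : ℝ, S = ∑ i, ∑ l ∈ Finset.range (JB D + 1), ‖zf D (a i) (a2 i) l t‖ :=
        ⟨_, rfl⟩
      rw [← hS] at h1
      show ‖Ef D κ (fun n => lc k a n - a i₀ n) (fun n => lc k a2 n - a2 i₀ n) q t *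
        pw D κ (a i') (a2 i') q t * dp N b t‖ ^ 2 ≤
        ‖dp N b t‖ ^ 2 * Real.exp (8 * ∑ i, ∑ l ∈ Finset.range (JB D + 1),
          ‖zf D (a i) (a2 i) l t‖) + ‖dp N b t‖ ^ 2 * ‖pw D κ (a i') (a2 i') q t‖ ^ 4
      rw [← hS, norm_mul, norm_mul]
      have h2 : ‖Ef D κ (fun n => lc k a n - a i₀ n) (fun n => lc k a2 n - a2 i₀ n) q t‖ ^ 2 ≤
          Real.exp (4 * S) := by
        have h3 := pow_le_pow_left₀ (norm_nonneg _) h1 2
        refine h3.trans (le_of_eq ?_)
        rw [← Real.exp_nat_mul]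
        congr 1
        push_cast
        ring
      have h4 : Real.exp (8 * S) = Real.exp (4 * S) ^ 2 := by
        rw [← Real.exp_nat_mul]
        congr 1
        push_cast
        ring
      rw [h4]
      set u := Real.exp (4 * S)
      set v := ‖pw D κ (a i') (a2 i') q t‖
      set w := ‖dp N b t‖
      set x := ‖Ef D κ (fun n => lc k a n - a i₀ n) (fun n => lc k a2 n - a2 i₀ n) q t‖
      have hu : 0 ≤ u := (Real.exp_pos _).le
      calc (x * v * w) ^ 2 = x ^ 2 * v ^ 2 * w ^ 2 := by ring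
        _ ≤ u * v ^ 2 * w ^ 2 := by gcongr
        _ ≤ w ^ 2 * u ^ 2 + w ^ 2 * v ^ 4 := by
            nlinarith [sq_nonneg (u - v ^ 2), sq_nonneg w, mul_nonneg (sq_nonneg w) (sq_nonneg (u - v ^ 2)),
              mul_nonneg (sq_nonneg w) (add_nonneg (sq_nonneg u) (sq_nonneg (v ^ 2)))]
  refine ⟨first, second, ?_⟩
  refine Pool.Agent.Q176.UM.MB.le ?_ third
  gcongr

theorem b_TORA : S_TORA := t_TORA b_TEX b_PMT b_XM b_JLA b_STRA Pool.Agent.Q84.UM.t_MVL

end

end Pool.Agent.H469.F4
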