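import Pool.Agent.H469.F4.MUL
import Pool.Graph.R_pool_sql_team_seeded_843ab51a.V1167.PP.Tor

set_option autoImplicit false

/-!
# Mean values of functions of finitely many prime phases
-/

namespace Pool.Agent.H469.F4

open Filter Topology MeasureTheory UnitAddTorus Pool.Agent.V1167.PP

noncomputable section

variable {ι : Type*} [Fintype ι]

/-- the uniform law on the cube -/
def cube (ι : Type*) [Fintype ι] : Measure (ι → ℝ) := Measure.pi fun _ => volume.restrict (Set.Icc (0 : ℝ) 1)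

instance : IsProbabilityMeasure (volume.restrict (Set.Icc (0 : ℝ) 1)) := ⟨by simp⟩

instance : IsProbabilityMeasure (cube ι) := by unfold cube; infer_instance

/-- the integral of a function on the torus -/
def Lc (G : UnitAddTorus ι → ℂ) : ℂ := ∫ x, G (fun j => ((x j : ℝ) : UnitAddCircle)) ∂(cube ι)

theorem Lc_int (G : C(UnitAddTorus ι, ℂ)) : Integrable (fun x : ι → ℝ => G (fun j => ((x j : ℝ) : UnitAddCircle))) (cube ι) := by
  refine (integrable_const (‖G‖ : ℝ)).mono (G.continuous.comp mk_cont).aestronglyMeasurable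
    (Eventually.of_forall fun x => ?_)
  rw [norm_norm]
  exact G.norm_coe_le_norm _

theorem Lc_char (n : ι → ℤ) : Lc (mFourier n : UnitAddTorus ι → ℂ) = if n = 0 then 1 else 0 := by
  unfold Lc cube
  have e : ∀ x : ι → ℝ, mFourier n (fun j => ((x j : ℝ) : UnitAddCircle)) = ∏ j, ex (n j * x j) := by
    intro x
    show ∏ j, fourier (n j) ((x j : ℝ) : UnitAddCircle) = _
    exact Finset.prod_congr rfl fun j _ => fourier_ex _ _
  simp_rw [e]
  rw [integral_fintype_prod_eq_prod (𝕜 := ℂ) (f := fun j (y : ℝ) => ex (n j * y))]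
  simp_rw [ex_int]
  split_ifs with h
  · subst h
    simp
  · obtain ⟨j, hj⟩ : ∃ j, n j ≠ 0 := by
      by_contra hcon
      push Not at hcon
      exact h (funext hcon)
    exact Finset.prod_eq_zero (Finset.mem_univ j) (if_neg hj)

theorem int_ex {l : ℝ} (hl : l ≠ 0) (V : ℝ) : ‖∫ t in V..(2 * V), ex (l * t / (2 * Real.pi))‖ ≤ 2 / |l| := by
  have hc : (Complex.I * l : ℂ) ≠ 0 := mul_ne_zero Complex.I_ne_zero (by exact_mod_cast hl)
  have e : ∀ t : ℝ, ex (l * t / (2 * Real.pi)) = Complex.exp ((Complex.I * l) * t) := by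
    intro t
    unfold ex
    congr 1
    push_cast
    have : (Real.pi : ℂ) ≠ 0 := by exact_mod_cast Real.pi_ne_zero
    field_simp
  simp_rw [e]
  rw [integral_exp_mul_complex hc, norm_div, norm_mul, Complex.norm_I, one_mul, Complex.norm_real, Real.norm_eq_abs]
  apply div_le_div_of_nonneg_right _ (abs_nonneg _)
  refine (norm_sub_le _ _).trans ?_
  have h1 : ∀ y : ℝ, ‖Complex.exp ((Complex.I * l) * y)‖ = 1 := by
    intro y
    have : (Complex.I * l * y : ℂ) = ((l * y : ℝ) : ℂ) * Complex.I := by push_cast; ring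
    rw [this, Complex.norm_exp_ofReal_mul_I]
  rw [h1, h1]
  norm_num

theorem nk_ne_one {p : ι → ℕ} (hp : ∀ j, (p j).Prime) {n : ι → ℤ} (h1 : nk p n = 1) (h2 : nk p (-n) = 1) : n = 0 := by
  funext j
  unfold nk at h1 h2
  rw [Finset.prod_eq_one_iff_of_one_le' (fun i _ => Nat.one_le_pow _ _ (hp i).pos)] at h1 h2
  have a1 := h1 j (Finset.mem_univ j)
  have a2 := h2 j (Finset.mem_univ j)
  rw [Nat.pow_eq_one] at a1 a2
  have hpj := (hp j).one_lt
  have b1 : (n j).toNat = 0 := by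
    rcases a1 with h | h
    · omega
    · exact h
  have b2 : ((-n) j).toNat = 0 := by
    rcases a2 with h | h
    · omega
    · exact h
  rw [Pi.neg_apply] at b2
  rw [Pi.zero_apply]
  omega

/-- **mean values over long intervals are integrals over the torus** -/
theorem weyl {p : ι → ℕ} (hp : ∀ j, (p j).Prime) (hi : Function.Injective p) (G : C(UnitAddTorus ι, ℂ)) :
    Tendsto (fun V : ℝ => ∫ t in Set.Icc V (2 * V), ((1 / V : ℝ) : ℂ) * G (ph p t)) atTop (𝓝 (Lc G)) := by
  refine sw (A := fun V : ℝ => Set.Icc V (2 * V)) (w := fun V _ => ((1 / V : ℝ) : ℂ)) (M := 1) (ph_cont p) ?_ ?_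
    (L0 := fun G => Lc (G : UnitAddTorus ι → ℂ)) ?_ ?_ (M0 := 1) ?_ ?_ G
  · exact Eventually.of_forall fun V => continuousOn_const.integrableOn_compact isCompact_Icc
  · filter_upwards [eventually_gt_atTop (0 : ℝ)] with V hV
    rw [setIntegral_const, smul_eq_mul, Complex.norm_real, Real.norm_of_nonneg (by positivity)]
    rw [measureReal_def, Real.volume_Icc, ENNReal.toReal_ofReal (by linarith)]
    have : 2 * V - V = V := by ring
    rw [this]
    exact le_of_eq (mul_one_div_cancel hV.ne')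
  · intro x y
    unfold Lc
    rw [← integral_add (Lc_int x) (Lc_int y)]
    rfl
  · intro c x
    unfold Lc
    rw [← integral_const_mul]
    rfl
  · intro x
    unfold Lc
    refine (norm_integral_le_of_norm_le_const (C := ‖x‖) (Eventually.of_forall fun y => x.norm_coe_le_norm _)).trans ?_
    simp
  · intro n
    rw [Lc_char]
    split_ifs with h
    · refine (tendsto_const_nhds (x := (1 : ℂ))).congr' ?_
      filter_upwards [eventually_gt_atTop (0 : ℝ)] with V hV
      subst h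
      have e : ∀ t, mFourier (0 : ι → ℤ) (ph p t) = 1 := fun t => by
        rw [mF_ph]
        simp [ex]
      simp_rw [e, mul_one]
      rw [setIntegral_const, measureReal_def, Real.volume_Icc, ENNReal.toReal_ofReal (by linarith)]
      have e2 : 2 * V - V = V := by ring
      rw [e2, Complex.real_smul]
      push_cast
      have : (V : ℂ) ≠ 0 := by exact_mod_cast hV.ne'
      field_simp
    · have hl : ∑ j, n j * Real.log (p j) ≠ 0 := by
        intro h0
        have h1 := nk_log hp n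
        rw [h0, sub_eq_zero] at h1
        have h2 : nk p n = nk p (-n) := by
          have h3 := Real.log_injOn_pos (Set.mem_Ioi.2 (by exact_mod_cast Nat.pos_of_ne_zero (nk_ne hp n)))
            (Set.mem_Ioi.2 (by exact_mod_cast Nat.pos_of_ne_zero (nk_ne hp (-n)))) h1
          exact_mod_cast h3
        have h4 := nk_cop hp hi n
        rw [h2, Nat.coprime_self] at h4
        exact h (nk_ne_one hp (h2.trans h4) h4)
      rw [tendsto_zero_iff_norm_tendsto_zero]
      have hb : Tendsto (fun V : ℝ => 1 / V * (2 / |∑ j, n j * Real.log (p j)|)) atTop (𝓝 0) := by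
        have := (tendsto_inv_atTop_zero (𝕜 := ℝ)).mul_const (2 / |∑ j, n j * Real.log (p j)|)
        rw [zero_mul] at this
        refine this.congr fun V => ?_
        rw [one_div]
      refine squeeze_zero' (Eventually.of_forall fun V => norm_nonneg _) ?_ hb
      filter_upwards [eventually_gt_atTop (0 : ℝ)] with V hV
      rw [integral_const_mul, norm_mul, Complex.norm_real, Real.norm_of_nonneg (by positivity)]
      apply mul_le_mul_of_nonneg_left _ (by positivity)
      simp_rw [mF_ph]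
      rw [integral_Icc_eq_integral_Ioc, ← intervalIntegral.integral_of_le (by linarith)]
      exact int_ex hl V

/-! ### the tilted law -/

/-- the Euler factors on the torus -/
def efT (s : ℝ) (p : ι → ℕ) (θ : UnitAddTorus ι) : ℝ := ∏ j, ‖1 - fourier 1 (θ j) / (Real.sqrt (p j) : ℂ)‖ ^ (-(2 * s))

theorem efT_mk (s : ℝ) (p : ι → ℕ) (x : ι → ℝ) : efT s p (fun j => ((x j : ℝ) : UnitAddCircle)) = ∏ j, ef s (p j) (x j) := by
  unfold efT ef
  refine Finset.prod_congr rfl fun j _ => ?_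
  rw [fourier_ex]
  congr 4
  push_cast
  rw [one_mul]

theorem efT_cont {p : ι → ℕ} (hp : ∀ j, (p j).Prime) (s : ℝ) : Continuous (efT s p) := by
  unfold efT
  refine continuous_finsetProd _ fun j _ => ?_
  have h1 : Continuous fun θ : UnitAddTorus ι => ‖1 - fourier 1 (θ j) / (Real.sqrt (p j) : ℂ)‖ := by fun_prop
  refine h1.rpow_const fun θ => Or.inl fun h0 => ?_
  have h1 := sqp (hp j)
  have hz : ‖fourier 1 (θ j) / (Real.sqrt (p j) : ℂ)‖ < 1 := by
    rw [norm_div, Complex.norm_real, Real.norm_of_nonneg (by positivity), div_lt_one (by linarith)]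
    have : ‖(fourier 1 (θ j) : ℂ)‖ = 1 := by
      rw [fourier_apply]
      exact Circle.norm_coe _
    rw [this]
    exact h1
  rw [norm_eq_zero, sub_eq_zero] at h0
  rw [← h0] at hz
  simp at hz

theorem efT_nonneg (s : ℝ) (p : ι → ℕ) (θ : UnitAddTorus ι) : 0 ≤ efT s p θ :=
  Finset.prod_nonneg fun _ _ => Real.rpow_nonneg (norm_nonneg _) _

/-- the product of the masses -/
def mass (s : ℝ) (p : ι → ℕ) : ℝ := ∏ j, ∫ y in Set.Icc (0 : ℝ) 1, ef s (p j) y

theorem mass_pos {p : ι → ℕ} (hp : ∀ j, (p j).Prime) (s : ℝ) : 0 < mass s p :=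
  Finset.prod_pos fun j _ => ef_mass_pos (hp j)

/-- the Euler factors times a continuous function -/
def efC {p : ι → ℕ} (hp : ∀ j, (p j).Prime) (s : ℝ) (G : C(UnitAddTorus ι, ℂ)) : C(UnitAddTorus ι, ℂ) :=
  ⟨fun θ => (efT s p θ : ℂ) * G θ, (Complex.continuous_ofReal.comp (efT_cont hp s)).mul G.continuous⟩

theorem tilt_fin {p : ι → ℕ} (hp : ∀ j, (p j).Prime) (s : ℝ) (G : C(UnitAddTorus ι, ℂ)) :
    Lc (efC hp s G : UnitAddTorus ι → ℂ) = (mass s p : ℂ) * Lam s p G := by
  obtain ⟨B, hB⟩ : ∃ B : ℝ, B = ‖(⟨fun θ => (efT s p θ : ℂ), Complex.continuous_ofReal.comp (efT_cont hp s)⟩ : C(UnitAddTorus ι, ℂ))‖ :=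
    ⟨_, rfl⟩
  have hBb : ∀ θ, ‖(efT s p θ : ℂ)‖ ≤ B := fun θ => by
    rw [hB]
    exact ContinuousMap.norm_coe_le_norm
      (⟨fun θ => (efT s p θ : ℂ), Complex.continuous_ofReal.comp (efT_cont hp s)⟩ : C(UnitAddTorus ι, ℂ)) θ
  have hB0 : 0 ≤ B := by rw [hB]; exact norm_nonneg _
  have h := dense_lim (X := C(UnitAddTorus ι, ℂ)) (L := fun _ G => Lc (efC hp s G : UnitAddTorus ι → ℂ))
    (L0 := fun G => (mass s p : ℂ) * Lam s p G) (M := max B ‖(mass s p : ℂ)‖)
    (Eventually.of_forall fun _ x y => ?_) (Eventually.of_forall fun _ c x => ?_) (Eventually.of_forall fun _ x => ?_)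
    (fun x y => ?_) (fun c x => ?_) (fun x => ?_) span_mFourier_closure_eq_top ?_ G
  · exact tendsto_nhds_unique tendsto_const_nhds h
  · have e : (efC hp s (x + y) : C(UnitAddTorus ι, ℂ)) = efC hp s x + efC hp s y := by
      ext θ
      simp [efC, mul_add]
    rw [e]
    unfold Lc
    rw [← integral_add (Lc_int (efC hp s x)) (Lc_int (efC hp s y))]
    rfl
  · have e : (efC hp s (c • x) : C(UnitAddTorus ι, ℂ)) = c • efC hp s x := by
      ext θ
      simp [efC]
      ring
    rw [e]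
    unfold Lc
    rw [← integral_const_mul]
    rfl
  · unfold Lc
    refine (norm_integral_le_of_norm_le_const (C := B * ‖x‖) (Eventually.of_forall fun y => ?_)).trans ?_
    · show ‖(efT s p _ : ℂ) * x _‖ ≤ _
      rw [norm_mul]
      exact mul_le_mul (hBb _) (x.norm_coe_le_norm _) (norm_nonneg _) hB0
    · simp only [probReal_univ, mul_one]
      exact mul_le_mul_of_nonneg_right (le_max_left _ _) (norm_nonneg _)
  · rw [Lam_add hp, mul_add]
  · rw [Lam_smul]
    ring
  · rw [norm_mul]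
    exact mul_le_mul (le_max_right _ _) (Lam_bound (s := s) hp x) (norm_nonneg _) (le_max_of_le_left hB0)
  · rintro _ ⟨n, rfl⟩
    have key : Lc (efC hp s (mFourier n) : UnitAddTorus ι → ℂ) = (mass s p : ℂ) * Lam s p (mFourier n) := by
      have hl := fun j => law_prob (s := s) (hp j)
      unfold Lc Lam cube
      have e : ∀ x : ι → ℝ, mFourier n (fun j => ((x j : ℝ) : UnitAddCircle)) = ∏ j, ex (n j * x j) := by
        intro x
        show ∏ j, fourier (n j) ((x j : ℝ) : UnitAddCircle) = _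
        exact Finset.prod_congr rfl fun j _ => fourier_ex _ _
      have e' : ∀ x : ι → ℝ, (efC hp s (mFourier n) : C(UnitAddTorus ι, ℂ)) (fun j => ((x j : ℝ) : UnitAddCircle)) =
          ∏ j, ((ef s (p j) (x j) : ℂ) * ex (n j * x j)) := by
        intro x
        show (efT s p _ : ℂ) * mFourier n _ = _
        rw [efT_mk, e, Finset.prod_mul_distrib, Complex.ofReal_prod]
      simp_rw [e', e]
      rw [integral_fintype_prod_eq_prod (𝕜 := ℂ) (f := fun j (y : ℝ) => (ef s (p j) y : ℂ) * ex (n j * y)),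
        integral_fintype_prod_eq_prod (𝕜 := ℂ) (f := fun j (y : ℝ) => ex (n j * y))]
      unfold mass
      rw [Complex.ofReal_prod, ← Finset.prod_mul_distrib]
      refine Finset.prod_congr rfl fun j _ => ?_
      rw [law_integral (hp j), ← integral_const_mul]
      refine integral_congr_ae (Eventually.of_forall fun y => ?_)
      simp only
      unfold rho
      have h0 : ((∫ y in Set.Icc (0 : ℝ) 1, ef s (p j) y : ℝ) : ℂ) ≠ 0 := by exact_mod_cast (ef_mass_pos (s := s) (hp j)).ne'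
      push_cast
      field_simp
    rw [key]
    exact tendsto_const_nhds

/-! ### Dirichlet polynomials with given absolute value -/

theorem dp_ext {N N' : ℕ} {b : ℕ → ℂ} (hb : ∀ n, b n ≠ 0 → 1 ≤ n ∧ n ≤ N) (h : N ≤ N') (t : ℝ) :
    Pool.Agent.Q97.UM.dp N' b t = Pool.Agent.Q97.UM.dp N b t := by
  unfold Pool.Agent.Q97.UM.dp
  symm
  apply Finset.sum_subset (Finset.Icc_subset_Icc_right h)
  intro n hn hn2
  have h1 : b n = 0 := by
    by_contra h0
    have h2 := hb n h0
    exact hn2 (Finset.mem_Icc.2 h2)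
  rw [h1, zero_mul]

/-- trigonometric polynomials of the phases as Dirichlet polynomials -/
theorem span_dp {p : ι → ℕ} (hp : ∀ j, (p j).Prime) {Q : C(UnitAddTorus ι, ℂ)}
    (hQ : Q ∈ Submodule.span ℂ (Set.range (mFourier : (ι → ℤ) → C(UnitAddTorus ι, ℂ)))) :
    ∃ M₀ : ℕ, ∀ M : ℕ, M₀ ≤ M → ∃ (N : ℕ) (b : ℕ → ℂ), (∀ n, b n ≠ 0 → 1 ≤ n ∧ n ≤ N) ∧
      ∀ t : ℝ, Pool.Agent.Q97.UM.dp N b t = Q (ph p t) * Complex.exp (((-(M * ∑ j, Real.log (p j)) * t : ℝ) : ℂ) * Complex.I) := by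
  induction hQ using Submodule.span_induction with
  | mem z hz =>
    obtain ⟨n, rfl⟩ := hz
    refine ⟨∑ j, (n j).natAbs, fun M hM => ?_⟩
    have hMn : ∀ j, n j ≤ M := fun j => by
      have h1 : (n j).natAbs ≤ ∑ j, (n j).natAbs := Finset.single_le_sum (f := fun j => (n j).natAbs) (fun _ _ => Nat.zero_le _) (Finset.mem_univ j)
      omega
    obtain ⟨m, hm⟩ : ∃ m : ℕ, m = ∏ j, p j ^ ((M : ℤ) - n j).toNat := ⟨_, rfl⟩
    have hm0 : m ≠ 0 := by
      rw [hm]
      exact Finset.prod_ne_zero_iff.mpr fun j _ => pow_ne_zero _ (hp j).ne_zero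
    have hlog : Real.log m = ∑ j, ((M : ℝ) - n j) * Real.log (p j) := by
      rw [hm]
      push_cast
      rw [Real.log_prod fun j _ => by have := (hp j).ne_zero; positivity]
      refine Finset.sum_congr rfl fun j _ => ?_
      rw [Real.log_pow]
      congr 1
      have h1 : (((M : ℤ) - n j).toNat : ℤ) = (M : ℤ) - n j := Int.toNat_of_nonneg (by have := hMn j; omega)
      exact_mod_cast h1
    refine ⟨m, fun k => if k = m then ((Real.sqrt m : ℝ) : ℂ) else 0, fun k hk => ?_, fun t => ?_⟩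
    · have : k = m := by
        by_contra h
        exact hk (if_neg h)
      omega
    · unfold Pool.Agent.Q97.UM.dp
      rw [Finset.sum_eq_single m]
      · simp only [if_true]
        rw [mF_ph]
        have hmc : (m : ℂ) ≠ 0 := by exact_mod_cast hm0
        have hmr : (0 : ℝ) < m := by exact_mod_cast Nat.pos_of_ne_zero hm0
        have e1 : (Real.sqrt m : ℂ) = Complex.exp ((Real.log m / 2 : ℝ) : ℂ) := by
          rw [← Complex.ofReal_exp]
          congr 1
          rw [Real.sqrt_eq_rpow, Real.rpow_def_of_pos hmr]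
          congr 1
          ring
        rw [e1, Complex.cpow_def_of_ne_zero hmc, ← Complex.exp_add]
        unfold ex
        rw [← Complex.exp_add]
        congr 1
        rw [← Complex.natCast_log, hlog]
        have e2 : ∑ j, ((M : ℝ) - n j) * Real.log (p j) = M * ∑ j, Real.log (p j) - ∑ j, n j * Real.log (p j) := by
          rw [Finset.mul_sum, ← Finset.sum_sub_distrib]
          exact Finset.sum_congr rfl fun j _ => by ring
        rw [e2]
        obtain ⟨S1, hS1⟩ : ∃ S1 : ℝ, S1 = ∑ j, Real.log (p j) := ⟨_, rfl⟩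
        obtain ⟨S2, hS2⟩ : ∃ S2 : ℝ, S2 = ∑ j, n j * Real.log (p j) := ⟨_, rfl⟩
        rw [← hS1, ← hS2]
        push_cast
        have : (Real.pi : ℂ) ≠ 0 := by exact_mod_cast Real.pi_ne_zero
        field_simp
        ring
      · intro k _ hk
        simp only [if_neg hk, zero_mul]
      · intro h
        exact absurd (Finset.mem_Icc.2 ⟨Nat.pos_of_ne_zero hm0, le_rfl⟩) h
  | zero =>
    refine ⟨0, fun M _ => ⟨0, fun _ => 0, fun n hn => absurd rfl hn, fun t => ?_⟩⟩
    unfold Pool.Agent.Q97.UM.dp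
    simp
  | add x y _ _ hx hy =>
    obtain ⟨M₁, h1⟩ := hx
    obtain ⟨M₂, h2⟩ := hy
    refine ⟨max M₁ M₂, fun M hM => ?_⟩
    obtain ⟨N₁, b₁, s1, e1⟩ := h1 M ((le_max_left _ _).trans hM)
    obtain ⟨N₂, b₂, s2, e2⟩ := h2 M ((le_max_right _ _).trans hM)
    refine ⟨max N₁ N₂, fun n => b₁ n + b₂ n, fun n hn => ?_, fun t => ?_⟩
    · by_cases h3 : b₁ n = 0
      · have h4 : b₂ n ≠ 0 := fun h => hn (by simp only [h3, h, add_zero])
        exact ⟨(s2 n h4).1, (s2 n h4).2.trans (le_max_right _ _)⟩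
      · exact ⟨(s1 n h3).1, (s1 n h3).2.trans (le_max_left _ _)⟩
    · have h3 : Pool.Agent.Q97.UM.dp (max N₁ N₂) (fun n => b₁ n + b₂ n) t =
          Pool.Agent.Q97.UM.dp (max N₁ N₂) b₁ t + Pool.Agent.Q97.UM.dp (max N₁ N₂) b₂ t := by
        unfold Pool.Agent.Q97.UM.dp
        rw [← Finset.sum_add_distrib]
        exact Finset.sum_congr rfl fun n _ => by ring
      rw [h3, dp_ext s1 (le_max_left _ _), dp_ext s2 (le_max_right _ _), e1, e2, ContinuousMap.add_apply]
      ring
  | smul c x _ hx =>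
    obtain ⟨M₁, h1⟩ := hx
    refine ⟨M₁, fun M hM => ?_⟩
    obtain ⟨N₁, b₁, s1, e1⟩ := h1 M hM
    refine ⟨N₁, fun n => c * b₁ n, fun n hn => s1 n (right_ne_zero_of_mul hn), fun t => ?_⟩
    have h3 : Pool.Agent.Q97.UM.dp N₁ (fun n => c * b₁ n) t = c * Pool.Agent.Q97.UM.dp N₁ b₁ t := by
      unfold Pool.Agent.Q97.UM.dp
      rw [Finset.mul_sum]
      exact Finset.sum_congr rfl fun n _ => by ring
    rw [h3, e1, ContinuousMap.smul_apply, smul_eq_mul]
    ring

/-- a nonnegative continuous function of the phases is close to the square of a Dirichlet polynomial -/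
theorem approx_sq {p : ι → ℕ} (hp : ∀ j, (p j).Prime) (G : C(UnitAddTorus ι, ℝ)) (hG : ∀ θ, 0 ≤ G θ) {ε : ℝ} (hε : 0 < ε) :
    ∃ (Q : C(UnitAddTorus ι, ℂ)) (N : ℕ) (b : ℕ → ℂ), (∀ n, b n ≠ 0 → 1 ≤ n ∧ n ≤ N) ∧
      (∀ θ, |‖Q θ‖ ^ 2 - G θ| ≤ ε) ∧ ∀ t : ℝ, ‖Pool.Agent.Q97.UM.dp N b t‖ = ‖Q (ph p t)‖ := by
  obtain ⟨H, hH⟩ : ∃ H : C(UnitAddTorus ι, ℂ), ∀ θ, H θ = ((Real.sqrt (G θ) : ℝ) : ℂ) :=
    ⟨⟨fun θ => ((Real.sqrt (G θ) : ℝ) : ℂ), by fun_prop⟩, fun _ => rfl⟩
  obtain ⟨η, hη⟩ : ∃ η : ℝ, η = min 1 (ε / (2 * ‖H‖ + 1)) := ⟨_, rfl⟩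
  have hη0 : 0 < η := by rw [hη]; positivity
  have hη1 : η ≤ 1 := by rw [hη]; exact min_le_left _ _
  have hη2 : η * (2 * ‖H‖ + 1) ≤ ε := by
    have h1 : η ≤ ε / (2 * ‖H‖ + 1) := by rw [hη]; exact min_le_right _ _
    rwa [le_div_iff₀ (by positivity)] at h1
  have hx : H ∈ closure (Submodule.span ℂ (Set.range (mFourier : (ι → ℤ) → C(UnitAddTorus ι, ℂ))) : Set C(UnitAddTorus ι, ℂ)) := by
    rw [← Submodule.topologicalClosure_coe, span_mFourier_closure_eq_top]; trivial
  obtain ⟨Q, hQ, hd⟩ := Metric.mem_closure_iff.mp hx η hη0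
  obtain ⟨M₀, h⟩ := span_dp hp hQ
  obtain ⟨N, b, hb, he⟩ := h M₀ le_rfl
  refine ⟨Q, N, b, hb, fun θ => ?_, fun t => ?_⟩
  · rw [dist_eq_norm] at hd
    have h1 : ‖H θ - Q θ‖ ≤ η := ((H - Q).norm_coe_le_norm θ).trans hd.le
    have h2 : ‖H θ‖ ≤ ‖H‖ := H.norm_coe_le_norm θ
    have h3 : ‖H θ‖ ^ 2 = G θ := by
      rw [hH, Complex.norm_real, Real.norm_of_nonneg (Real.sqrt_nonneg _), Real.sq_sqrt (hG θ)]
    rw [← h3]
    have h4 : |‖Q θ‖ - ‖H θ‖| ≤ η := by
      refine (abs_norm_sub_norm_le _ _).trans ?_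
      rw [norm_sub_rev]
      exact h1
    have h5 : ‖Q θ‖ ^ 2 - ‖H θ‖ ^ 2 = (‖Q θ‖ - ‖H θ‖) * (‖Q θ‖ + ‖H θ‖) := by ring
    rw [h5, abs_mul]
    have h6 : |‖Q θ‖ + ‖H θ‖| ≤ 2 * ‖H‖ + 1 := by
      rw [abs_of_nonneg (by positivity)]
      have := (abs_le.1 h4).2
      linarith
    calc |‖Q θ‖ - ‖H θ‖| * |‖Q θ‖ + ‖H θ‖| ≤ η * (2 * ‖H‖ + 1) := mul_le_mul h4 h6 (abs_nonneg _) hη0.le
      _ ≤ ε := hη2
  · rw [he t, norm_mul, Complex.norm_exp_ofReal_mul_I, mul_one]

end

end Pool.Agent.H469.F4
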