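import Pool.Graph.R_pool_sql_team_seeded_3997aac3.Q97.UM.Base10

set_option autoImplicit false

/-!
# The twisted second moment of zeta on long intervals, for Dirichlet polynomials of length `T ^ (51/100)`
-/

namespace Pool.Agent.H469.F4

open Filter Topology MeasureTheory Complex Pool.Agent.Q97.UM
open Pool.Agent.H306R2.SM (om cl Yf)
open Pool.Agent.H262R4.TM (Ck Rng f_TSM2)
open Pool.Agent.H262R4.TM.TTW (om_nonneg om_cont om_poly zeta_cont z2_bound)
open Pool.Agent.Q210.UM (Ad fd fd_nonneg fd_cont int_om_fd short QF_smul fd_smul om_low)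

/-- The upper bound for the smooth moment. -/
theorem moment2 (hQ : S_QL) : ∃ (η C : ℝ), 0 < η ∧ 1 ≤ C ∧ ∀ᶠ T : ℝ in atTop, ∀ k : ℕ, Rng T k →
    ∀ M : ℕ, (M : ℝ) ≤ T ^ (515 / 1000 : ℝ) → ∀ a : ℕ → ℂ, (∀ n, ‖a n‖ ≤ 1) →
    ∫ t in Set.Ioi (0 : ℝ), om k (k / T) t * fd M a t ≤
      C * Real.log T * (QF M a).re + T ^ (-η) := by
  obtain ⟨η, hη, hT⟩ := f_TSM2 (515 / 1000) (by norm_num)
  obtain ⟨C, hC1, hC⟩ := hQ
  refine ⟨η, 3 + 2 * C, hη, by linarith, ?_⟩
  have ev1 : ∀ᶠ T : ℝ in atTop, Real.log (4 * Real.log T ^ 2) + 2 ≤ Real.log T := by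
    have h1 : Tendsto (fun T : ℝ => Real.log T) atTop atTop := Real.tendsto_log_atTop
    have h2 : ∀ᶠ x : ℝ in atTop, Real.log (4 * x ^ 2) + 2 ≤ x := by
      have h3 := (Real.isLittleO_log_id_atTop).bound (show (0 : ℝ) < 1 / 4 by norm_num)
      filter_upwards [h3, eventually_ge_atTop (8 : ℝ)] with x hx hx8
      have hx0 : 0 < x := by linarith
      rw [Real.norm_of_nonneg (Real.log_nonneg (by linarith)), id, Real.norm_of_nonneg hx0.le] at hx
      rw [Real.log_mul (by norm_num) (by positivity), Real.log_pow]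
      have h4 : Real.log 4 ≤ 2 := by
        have h5 : (4 : ℝ) = 2 ^ 2 := by norm_num
        rw [h5, Real.log_pow]
        have := Real.log_two_lt_d9
        push_cast
        linarith
      push_cast
      linarith
    exact h1.eventually h2
  filter_upwards [hT, ev1, eventually_ge_atTop (Real.exp 2)] with T hT1 hT2 hTe
  intro k hk M hM a ha
  have hT0 : 0 < T := (Real.exp_pos 2).trans_le hTe
  have hL2 : 2 ≤ Real.log T := by
    rw [Real.le_log_iff_exp_le hT0]
    exact hTe
  have hT1' : 1 ≤ T := le_trans (Real.one_le_exp (by norm_num)) hTe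
  have hk1 : (1 : ℝ) ≤ k := by
    have := hk.1
    nlinarith
  rcases Nat.eq_zero_or_pos M with rfl | hM0
  · have h1 : ∀ t, om k (k / T) t * fd 0 a t = 0 := by
      intro t
      unfold fd Ad
      simp
    simp only [h1, integral_zero]
    have h2 : QF 0 a = 0 := by
      unfold QF
      simp
    rw [h2, Complex.zero_re, mul_zero, zero_add]
    positivity
  have hmain := hT1 k hk M hM a ha
  obtain ⟨q1, q2, q3⟩ := hC M a hM0
  set Λ : ℝ := Real.log (Yf k T) + Ck k with hΛ
  set F : ℂ := ∑ h ∈ Finset.Icc 1 M, ∑ k ∈ Finset.Icc 1 M, a h * (starRingEnd ℂ) (a k) *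
    ((1 / (Nat.lcm h k : ℝ) * Real.log ((Nat.gcd h k : ℝ) ^ 2 / ((h : ℝ) * k)) : ℝ) : ℂ) with hF
  have hY : 0 < Yf k T := by
    unfold Yf
    positivity
  have hsplit : ∑ h ∈ Finset.Icc 1 M, ∑ l ∈ Finset.Icc 1 M, a h * (starRingEnd ℂ) (a l) *
        ((1 / (Nat.lcm h l : ℝ) *
          (Real.log (Yf k T * (Nat.gcd h l : ℝ) ^ 2 / ((h : ℝ) * l)) + Ck k) : ℝ) : ℂ) =
      (Λ : ℂ) * QF M a + F := by
    unfold QF
    rw [hF, Finset.mul_sum, ← Finset.sum_add_distrib]
    apply Finset.sum_congr rfl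
    intro h hh
    rw [Finset.mul_sum, ← Finset.sum_add_distrib]
    apply Finset.sum_congr rfl
    intro l hl
    rw [Finset.mem_Icc] at hh hl
    have hh0 : (0 : ℝ) < h := by exact_mod_cast hh.1
    have hl0 : (0 : ℝ) < l := by exact_mod_cast hl.1
    have hg0 : (0 : ℝ) < (Nat.gcd h l : ℝ) := by
      exact_mod_cast Nat.gcd_pos_of_pos_left l hh.1
    have h1 : Real.log (Yf k T * (Nat.gcd h l : ℝ) ^ 2 / ((h : ℝ) * l)) =
        Real.log (Yf k T) + Real.log ((Nat.gcd h l : ℝ) ^ 2 / ((h : ℝ) * l)) := by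
      rw [mul_div_assoc, Real.log_mul hY.ne' (by positivity)]
    rw [h1, hΛ]
    push_cast
    ring
  rw [hsplit] at hmain
  have hint : ∫ t in Set.Ioi (0 : ℝ), om k (k / T) t * fd M a t =
      ∫ t in Set.Ioi (0 : ℝ), om k (k / T) t * ‖riemannZeta (cl t)‖ ^ 2 *
        ‖∑ n ∈ Finset.Icc 1 M, a n * (n : ℂ) ^ (-(cl t))‖ ^ 2 := by
    congr 1
    funext t
    unfold fd Ad
    ring
  rw [hint]
  set J : ℝ := ∫ t in Set.Ioi (0 : ℝ), om k (k / T) t * ‖riemannZeta (cl t)‖ ^ 2 *
        ‖∑ n ∈ Finset.Icc 1 M, a n * (n : ℂ) ^ (-(cl t))‖ ^ 2 with hJ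
  have hre : J - (Λ * (QF M a).re + F.re) ≤ T ^ (-η) := by
    refine le_trans ?_ hmain
    refine le_trans (le_of_eq ?_) (Complex.re_le_norm _)
    simp
  have hFre : F.re ≤ C * (1 + Real.log M) * (QF M a).re := (Complex.re_le_norm F).trans q3
  have hlogM : Real.log M ≤ Real.log T := by
    have hM0r : (0 : ℝ) < M := by exact_mod_cast hM0
    apply Real.log_le_log hM0r
    refine hM.trans ?_
    calc T ^ (515 / 1000 : ℝ) ≤ T ^ (1 : ℝ) := Real.rpow_le_rpow_of_exponent_le hT1' (by norm_num)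
      _ = T := Real.rpow_one T
  have hΛ3 : Λ ≤ 3 * Real.log T := by
    have h1 : Real.log (Yf k T) ≤ Real.log T := by
      apply Real.log_le_log hY
      unfold Yf
      apply div_le_self hT0.le
      have := Real.pi_gt_three
      nlinarith
    have h2 : ((harmonic k : ℚ) : ℝ) ≤ 1 + Real.log k := harmonic_le_one_add_log k
    have h3 : Real.log k ≤ Real.log (4 * Real.log T ^ 2) :=
      Real.log_le_log (by linarith) hk.2
    have h4 : Real.eulerMascheroniConstant < 1 := by
      have := Real.eulerMascheroniConstant_lt_two_thirds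
      linarith
    rw [hΛ]
    unfold Ck
    linarith
  have h5 : Λ * (QF M a).re ≤ 3 * Real.log T * (QF M a).re := mul_le_mul_of_nonneg_right hΛ3 q1
  have h6 : C * (1 + Real.log M) * (QF M a).re ≤ 2 * C * Real.log T * (QF M a).re := by
    apply mul_le_mul_of_nonneg_right _ q1
    nlinarith
  have h7 : (3 + 2 * C) * Real.log T * (QF M a).re =
      3 * Real.log T * (QF M a).re + 2 * C * Real.log T * (QF M a).re := by ring
  linarith

/-- The long interval, coefficients of modulus at most one. -/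
theorem long2 (hQ : S_QL) : ∃ (θ C : ℝ), 0 < θ ∧ θ ≤ 1 / 8 ∧ 1 ≤ C ∧ ∀ᶠ T : ℝ in atTop, ∀ M : ℕ,
    (M : ℝ) ≤ T ^ (51 / 100 : ℝ) → ∀ (a : ℕ → ℂ), (∀ n, ‖a n‖ ≤ 1) → 0 ≤ (QF M a).re →
    ∫ t in (T / 2)..(3 * T), fd M a t ≤ C * T * (Real.log T * (QF M a).re + T ^ (-θ)) := by
  obtain ⟨η, C, hη, hC, hev⟩ := moment2 hQ
  obtain ⟨T₁, hT₁⟩ := eventually_atTop.1 hev
  refine ⟨min (1 / 8) (η / 2), 336 * Real.exp 2 * C, by positivity,
    (min_le_left _ _).trans (by norm_num), ?_, ?_⟩
  · have h1 : (1 : ℝ) ≤ Real.exp 2 := Real.one_le_exp (by norm_num)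
    nlinarith
  set θ := min (1 / 8) (η / 2) with hθ
  have hθ1 : θ ≤ 1 / 8 := min_le_left _ _
  have hθ2 : θ ≤ η / 2 := min_le_right _ _
  filter_upwards [eventually_ge_atTop (2 * T₁), eventually_ge_atTop (Real.exp 4),
    eventually_ge_atTop (4 : ℝ), (tendsto_rpow_atTop (by norm_num : (0 : ℝ) < 1 / 200)).eventually_ge_atTop 2] with T hTT hTe hT4 hT200
  intro M hM a ha hQ0
  have hT0 : 0 < T := by linarith
  set L := Real.log T with hL
  have hL4 : 4 ≤ L := by
    rw [hL, Real.le_log_iff_exp_le hT0]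
    exact hTe
  set w : ℝ := T / (16 * L) with hw
  have hw0 : 0 < w := by positivity
  set n : ℕ := ⌈20 * L⌉₊ with hn
  have hn1 : 20 * L ≤ n := Nat.le_ceil _
  have hn2 : (n : ℝ) ≤ 21 * L := by
    have := Nat.ceil_lt_add_one (show 0 ≤ 20 * L by positivity)
    linarith
  set g : ℕ → ℝ := fun i => T / 2 + 2 * i * w with hg
  have hsqrt : T ^ (1 / 2 : ℝ) ≤ T / 2 := by
    have h1 : T ^ (1 / 2 : ℝ) * T ^ (1 / 2 : ℝ) = T := by
      rw [← Real.rpow_add hT0]
      norm_num
    have h2 : (2 : ℝ) ≤ T ^ (1 / 2 : ℝ) := by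
      have h3 : (4 : ℝ) ^ (1 / 2 : ℝ) ≤ T ^ (1 / 2 : ℝ) :=
        Real.rpow_le_rpow (by norm_num) hT4 (by norm_num)
      have h4 : (4 : ℝ) ^ (1 / 2 : ℝ) = 2 := by
        rw [show (4 : ℝ) = 2 ^ (2 : ℝ) by norm_num, ← Real.rpow_mul (by norm_num)]
        norm_num
      rwa [h4] at h3
    nlinarith
  -- one interval
  have hone : ∀ i < n, ∫ t in (g i)..(g (i + 1)), fd M a t ≤
      8 * Real.exp 2 * T / L * (2 * C * L * (QF M a).re + T ^ (-θ)) := by
    intro i hi
    set T' : ℝ := T / 2 + (2 * i + 1) * w with hT'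
    have hi0 : (0 : ℝ) ≤ i := Nat.cast_nonneg i
    have hi1 : (i : ℝ) + 1 ≤ n := by exact_mod_cast hi
    have e1 : g i = T' - w := by
      rw [hg, hT']
      ring
    have e2 : g (i + 1) = T' + w := by
      rw [hg, hT']
      push_cast
      ring
    have hlow : T / 2 ≤ T' := by
      rw [hT']
      have : 0 ≤ (2 * (i : ℝ) + 1) * w := by positivity
      linarith
    have hnw : (n : ℝ) * w ≤ 21 / 16 * T := by
      calc (n : ℝ) * w ≤ 21 * L * w := mul_le_mul_of_nonneg_right hn2 hw0.le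
        _ = 21 / 16 * T := by
          rw [hw]
          field_simp
    have hup : T' ≤ 4 * T := by
      rw [hT']
      have : (2 * (i : ℝ) + 1) * w ≤ 2 * (n * w) := by nlinarith
      linarith
    have hT'0 : 0 < T' := by linarith
    set L' := Real.log T' with hL'
    have hL'1 : L / 2 ≤ L' := by
      have h1 : T ^ (1 / 2 : ℝ) ≤ T' := hsqrt.trans hlow
      have h2 := Real.log_le_log (by positivity) h1
      rw [Real.log_rpow hT0] at h2
      linarith
    have hL'2 : L' ≤ 2 * L := by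
      have h1 : T' ≤ T ^ 2 := by nlinarith
      have h2 := Real.log_le_log hT'0 h1
      rw [Real.log_pow] at h2
      push_cast at h2
      linarith
    have hL'3 : 2 ≤ L' := by linarith
    set k : ℕ := ⌈L' ^ 2⌉₊ with hk
    have hk1 : L' ^ 2 ≤ k := Nat.le_ceil _
    have hk2 : (k : ℝ) ≤ 4 * L' ^ 2 := by
      have := Nat.ceil_lt_add_one (show 0 ≤ L' ^ 2 by positivity)
      nlinarith
    have hww : w ≤ T' / (4 * L') := by
      rw [hw, div_le_div_iff₀ (by positivity) (by positivity)]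
      nlinarith
    have hwT : w ≤ T' / 2 := by
      refine hww.trans ?_
      apply div_le_div_of_nonneg_left hT'0.le (by norm_num)
      linarith
    have h1 := short M a ha hT'0 (by linarith : 1 ≤ L') hk1 hk2 hw0.le hww hwT
    rw [e1, e2]
    have hMT : (M : ℝ) ≤ T' ^ (515 / 1000 : ℝ) := by
      refine hM.trans ?_
      have k1 : T ^ (51 / 100 : ℝ) * 2 ≤ T ^ (515 / 1000 : ℝ) := by
        calc T ^ (51 / 100 : ℝ) * 2 ≤ T ^ (51 / 100 : ℝ) * T ^ (1 / 200 : ℝ) :=
              mul_le_mul_of_nonneg_left hT200 (by positivity)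
          _ = T ^ (515 / 1000 : ℝ) := by
              rw [← Real.rpow_add hT0]
              norm_num
      have k2 : (T / 2) ^ (515 / 1000 : ℝ) ≤ T' ^ (515 / 1000 : ℝ) :=
        Real.rpow_le_rpow (by positivity) hlow (by norm_num)
      have k3 : T ^ (515 / 1000 : ℝ) / 2 ≤ (T / 2) ^ (515 / 1000 : ℝ) := by
        rw [Real.div_rpow hT0.le (by norm_num)]
        apply div_le_div_of_nonneg_left (by positivity) (by positivity)
        calc (2 : ℝ) ^ (515 / 1000 : ℝ) ≤ 2 ^ (1 : ℝ) :=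
              Real.rpow_le_rpow_of_exponent_le (by norm_num) (by norm_num)
          _ = 2 := Real.rpow_one 2
      linarith
    have h2 := hT₁ T' (by linarith) k ⟨hk1, hk2⟩ M hMT a ha
    have h3 : T' ^ (-η) ≤ T ^ (-θ) := by
      calc T' ^ (-η) ≤ (T ^ (1 / 2 : ℝ)) ^ (-η) :=
            Real.rpow_le_rpow_of_nonpos (by positivity) (hsqrt.trans hlow) (by linarith)
        _ = T ^ (-(η / 2)) := by
          rw [← Real.rpow_mul hT0.le]
          congr 1
          ring
        _ ≤ T ^ (-θ) := Real.rpow_le_rpow_of_exponent_le (by linarith) (by linarith)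
    have h4 : C * L' * (QF M a).re ≤ 2 * C * L * (QF M a).re := by
      apply mul_le_mul_of_nonneg_right _ hQ0
      nlinarith
    have h5 : T' * Real.exp 2 / L' ≤ 8 * Real.exp 2 * T / L := by
      rw [div_le_div_iff₀ (by linarith) (by linarith)]
      have h6 : T' * L ≤ (4 * T) * (2 * L') := mul_le_mul hup (by linarith) (by linarith) (by linarith)
      have h7 := mul_le_mul_of_nonneg_left h6 (Real.exp_pos 2).le
      nlinarith
    have h8 : 0 ≤ 2 * C * L * (QF M a).re + T ^ (-θ) := by positivity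
    calc ∫ t in (T' - w)..(T' + w), fd M a t ≤
          T' * Real.exp 2 / L' * ∫ t in Set.Ioi (0 : ℝ), om k (k / T') t * fd M a t := h1
      _ ≤ T' * Real.exp 2 / L' * (2 * C * L * (QF M a).re + T ^ (-θ)) := by
          apply mul_le_mul_of_nonneg_left _ (by positivity)
          linarith
      _ ≤ _ := mul_le_mul_of_nonneg_right h5 h8
  have hsum := intervalIntegral.sum_integral_adjacent_intervals (f := fd M a) (μ := volume) (a := g)
    (n := n) (fun i _ => (fd_cont M a).intervalIntegrable _ _)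
  have hg0 : g 0 = T / 2 := by
    rw [hg]
    simp
  have hgn : 3 * T ≤ g n := by
    have h1 : 5 / 4 * T ≤ n * w := by
      calc 5 / 4 * T = 20 * L * w := by
            rw [hw]
            field_simp
            norm_num
        _ ≤ n * w := mul_le_mul_of_nonneg_right hn1 hw0.le
    have h2 : g n = T / 2 + 2 * (n * w) := by
      rw [hg]
      ring
    rw [h2]
    linarith
  have hle : ∫ t in (T / 2)..(3 * T), fd M a t ≤ ∫ t in (g 0)..(g n), fd M a t := by
    rw [hg0]
    apply intervalIntegral.integral_mono_interval le_rfl (by linarith) hgn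
    · exact Eventually.of_forall fun t => fd_nonneg M a t
    · exact (fd_cont M a).intervalIntegrable _ _
  rw [← hsum] at hle
  have hall := Finset.sum_le_card_nsmul (Finset.range n) _ _ fun i hi => hone i (Finset.mem_range.1 hi)
  rw [Finset.card_range, nsmul_eq_mul] at hall
  have hP : 0 ≤ 2 * C * L * (QF M a).re + T ^ (-θ) := by positivity
  calc ∫ t in (T / 2)..(3 * T), fd M a t ≤
        n * (8 * Real.exp 2 * T / L * (2 * C * L * (QF M a).re + T ^ (-θ))) := hle.trans hall
    _ ≤ (21 * L) * (8 * Real.exp 2 * T / L * (2 * C * L * (QF M a).re + T ^ (-θ))) :=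
        mul_le_mul_of_nonneg_right hn2 (by positivity)
    _ = 168 * Real.exp 2 * T * (2 * C * L * (QF M a).re + T ^ (-θ)) := by
        field_simp
        ring
    _ ≤ 168 * Real.exp 2 * T * (2 * C * (L * (QF M a).re + T ^ (-θ))) := by
        apply mul_le_mul_of_nonneg_left _ (by positivity)
        have h9 : 0 < T ^ (-θ) := by positivity
        nlinarith
    _ = 336 * Real.exp 2 * C * T * (L * (QF M a).re + T ^ (-θ)) := by ring

/-- the twisted second moment for polynomials of length `T ^ (51/100)` -/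
theorem tsl (hQ : S_QL) : ∃ (η C : ℝ), 0 < η ∧ η ≤ 1 / 8 ∧ 1 ≤ C ∧ ∀ᶠ T : ℝ in atTop, ∀ M : ℕ, (M : ℝ) ≤ T ^ (51 / 100 : ℝ) →
    ∀ (c : ℕ → ℂ) (lam : ℝ), (∀ n, ‖c n‖ ≤ lam) →
    ∫ t in (T / 2)..(3 * T), ‖zt t‖ ^ 2 * ‖dp M c t‖ ^ 2 ≤
      C * T * (Real.log T * (QF M c).re + T ^ (-η) * lam ^ 2) := by
  obtain ⟨θ, C, hθ0, hθ1, hC, hev⟩ := long2 hQ
  obtain ⟨C', hC', hq⟩ := hQ
  refine ⟨θ, C, hθ0, hθ1, hC, ?_⟩
  filter_upwards [hev, eventually_ge_atTop (1 : ℝ)] with T hT hT1
  intro M hM c lam hc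
  have hT0 : 0 < T := by linarith
  have hlam : 0 ≤ lam := (norm_nonneg _).trans (hc 0)
  have hpos : ∀ a : ℕ → ℂ, 0 ≤ (QF M a).re := by
    intro a
    rcases Nat.eq_zero_or_pos M with rfl | hM0
    · unfold QF
      simp
    · exact (hq M a hM0).1
  change ∫ t in (T / 2)..(3 * T), fd M c t ≤ _
  rcases hlam.eq_or_lt with h0 | h0
  · have hc0 : ∀ n, c n = 0 := by
      intro n
      have h1 := hc n
      rw [← h0] at h1
      exact norm_le_zero_iff.1 h1
    have h1 : ∀ t, fd M c t = 0 := by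
      intro t
      unfold fd Ad
      simp [hc0]
    simp only [h1, intervalIntegral.integral_zero]
    have h2 : 0 ≤ Real.log T := Real.log_nonneg hT1
    have h3 := hpos c
    positivity
  · have hcl : c = fun n => (lam : ℂ) * (c n / lam) := by
      funext n
      have : (lam : ℂ) ≠ 0 := by exact_mod_cast h0.ne'
      field_simp
    have ha : ∀ n, ‖c n / (lam : ℂ)‖ ≤ 1 := by
      intro n
      rw [norm_div, Complex.norm_real, Real.norm_of_nonneg hlam, div_le_one h0]
      exact hc n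
    have h1 := hT M hM (fun n => c n / lam) ha (hpos _)
    rw [hcl, QF_smul]
    simp only [fd_smul]
    rw [intervalIntegral.integral_const_mul]
    have h2 : (((lam ^ 2 : ℝ) : ℂ) * QF M fun n => c n / lam).re =
        lam ^ 2 * (QF M fun n => c n / lam).re := by
      rw [Complex.re_ofReal_mul]
    rw [h2]
    calc lam ^ 2 * ∫ t in (T / 2)..(3 * T), fd M (fun n => c n / lam) t ≤
          lam ^ 2 * (C * T * (Real.log T * (QF M fun n => c n / lam).re + T ^ (-θ))) :=
          mul_le_mul_of_nonneg_left h1 (by positivity)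
      _ = _ := by ring


end Pool.Agent.H469.F4
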