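import Pool.Agent.H469.F4.QB
import Pool.Agent.H469.F4.TSL

set_option autoImplicit false

/-!
# The fourth power of a shifted value of zeta against a mean value
-/

namespace Pool.Agent.H469.F4

open Filter Topology MeasureTheory Complex Pool.Agent.Q97.UM
open Pool.Agent.Q86.UM (dp_bdd)

noncomputable section

variable {φ κ : ℝ → ℝ} {c₀ C₀ : ℝ}

theorem af_norm (h : Cut φ κ c₀ C₀) (T : ℝ) (k : ℕ) : ‖af φ T k‖ ≤ 1 := by
  unfold af
  rw [Complex.norm_real, Real.norm_of_nonneg (h.bd _).1]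
  exact (h.bd _).2

/-- a bound for the coefficients of a product -/
theorem cv_bd {a b : ℕ → ℂ} {M : ℕ} {B : ℝ} (ha : ∀ n, n ≠ 0 → ‖a n‖ ≤ 1) (hb : ∀ n, b n ≠ 0 → 1 ≤ n ∧ n ≤ M)
    (hB : ∀ n, ‖b n‖ ≤ B) (n : ℕ) : ‖cv a b n‖ ≤ M * B := by
  have hB0 : 0 ≤ B := (norm_nonneg _).trans (hB 0)
  have h1 : ‖cv a b n‖ ≤ ∑ p ∈ n.divisorsAntidiagonal, ‖b p.2‖ := by
    unfold cv
    refine (norm_sum_le _ _).trans (Finset.sum_le_sum fun p hp => ?_)
    obtain ⟨h1, h2⟩ := Nat.mem_divisorsAntidiagonal.1 hp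
    have h3 : p.1 ≠ 0 := fun h => h2 (by rw [← h1, h, zero_mul])
    rw [norm_mul]
    calc ‖a p.1‖ * ‖b p.2‖ ≤ 1 * ‖b p.2‖ := mul_le_mul_of_nonneg_right (ha _ h3) (norm_nonneg _)
      _ = _ := one_mul _
  have h2 : ∑ p ∈ n.divisorsAntidiagonal, ‖b p.2‖ = ∑ d ∈ n.divisors, ‖b d‖ :=
    Nat.sum_divisorsAntidiagonal' (fun _ d => ‖b d‖)
  have h3 : ∑ d ∈ n.divisors, ‖b d‖ ≤ ∑ d ∈ Finset.Icc 1 M, ‖b d‖ := by
    rw [← Finset.sum_filter_ne_zero]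
    refine Finset.sum_le_sum_of_subset_of_nonneg (fun d hd => ?_) fun _ _ _ => norm_nonneg _
    rw [Finset.mem_filter] at hd
    exact Finset.mem_Icc.2 (hb d (norm_ne_zero_iff.1 hd.2))
  have h4 : ∑ d ∈ Finset.Icc 1 M, ‖b d‖ ≤ ∑ _d ∈ Finset.Icc 1 M, B := Finset.sum_le_sum fun d _ => hB d
  rw [Finset.sum_const, Nat.card_Icc, nsmul_eq_mul] at h4
  rw [h2] at h1
  refine h1.trans (h3.trans (h4.trans (le_of_eq ?_)))
  simp

theorem ztc : Continuous zt := Pool.Agent.Q150.UM.zt_cont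

theorem dpc (N : ℕ) (b : ℕ → ℂ) : Continuous (dp N b) := (Pool.Agent.Q84.UM.t_DPM.2.2 N b 0).2

theorem A0c (φ : ℝ → ℝ) (T : ℝ) : Continuous (A0 φ T) := dpc _ _

theorem af_zero (h : Cut φ κ c₀ C₀) {T : ℝ} (hT : 1 < T) (k : ℕ) (hk : ⌊T ^ (101 / 200 : ℝ)⌋₊ < k) : af φ T k = 0 := by
  unfold af
  have hL0 : 0 < Real.log T := Real.log_pos hT
  have hT0 : 0 < T := by linarith
  rw [h.zero]
  · simp
  · have h1 : T ^ (101 / 200 : ℝ) < k := (Nat.floor_lt (by positivity)).1 hk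
    have h2 : 101 / 200 * Real.log T ≤ Real.log k := by
      rw [← Real.log_rpow hT0]
      exact Real.log_le_log (by positivity) h1.le
    have h3 : 101 / 200 ≤ Real.log k / Real.log T := by
      rw [le_div_iff₀ hL0]
      exact h2
    exact h3.trans (le_abs_self _)

/-- the error exponent -/
theorem ev_log (ε : ℝ) (hε : 0 < ε) (A : ℝ) : ∀ᶠ T : ℝ in atTop, A * (Real.log T + 1) ≤ T ^ ε := by
  have h1 := (isLittleO_log_rpow_atTop hε).bound (show (0 : ℝ) < 1 / (2 * (|A| + 1)) by positivity)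
  have h2 := (tendsto_rpow_atTop hε).eventually_ge_atTop (2 * (|A| + 1))
  filter_upwards [h1, h2, eventually_ge_atTop (1 : ℝ)] with T h3 h4 h5
  have hT0 : 0 < T := by linarith
  have hl : 0 ≤ Real.log T := Real.log_nonneg h5
  have hp : 0 ≤ T ^ ε := by positivity
  rw [Real.norm_of_nonneg hl, Real.norm_of_nonneg hp] at h3
  have hA : 0 ≤ |A| := abs_nonneg A
  have hA2 : A ≤ |A| := le_abs_self A
  have h6 : A * (Real.log T + 1) ≤ (|A| + 1) * (Real.log T + 1) :=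
    mul_le_mul_of_nonneg_right (by linarith) (by linarith)
  have h7 : (|A| + 1) * Real.log T ≤ T ^ ε / 2 := by
    have h8 := mul_le_mul_of_nonneg_left h3 (show 0 ≤ |A| + 1 by positivity)
    refine h8.trans (le_of_eq ?_)
    field_simp
  have h9 : (|A| + 1) * (Real.log T + 1) = (|A| + 1) * Real.log T + (|A| + 1) := by ring
  linarith

/-- the bound for one frequency -/
theorem one_freq (h : Cut φ κ c₀ C₀) (hQ : S_QL) : ∃ θ₀ : ℝ, 0 < θ₀ ∧ θ₀ ≤ 1 / 400 ∧ ∀ δ : ℝ, 0 < δ → δ ≤ 1 / 2 →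
    ∃ C : ℝ, 0 ≤ C ∧ ∀ᶠ T : ℝ in atTop, ∀ α : ℝ, ∀ (M : ℕ) (c : ℕ → ℂ), (M : ℝ) ≤ T ^ θ₀ →
    (∀ n, c n ≠ 0 → 1 ≤ n ∧ n ≤ M ∧ n ∈ Nat.smoothNumbers (⌊T ^ δ⌋₊ + 1)) → ∀ a S : ℝ, 0 ≤ a →
    (∀ w : ℝ, MB (fun t => ‖cexp (PA ⌊T ^ δ⌋₊ (ua α) (ua (2 * α)) t)‖ ^ 2 *
      ‖cexp (PA ⌊T ^ δ⌋₊ (ua (α + w / Real.log T)) (ua (2 * (α + w / Real.log T))) t)‖ ^ 2 * ‖dp M c t‖ ^ 2)
      (Real.exp (a * (1 + |w|) ^ (3 / 5 : ℝ)) * S)) → ∀ y : ℝ,
    ∫ s in (T / 2)..(3 * T), (‖zt s‖ ^ 2 * ‖dp M (fun n => c n * (n : ℂ) ^ (α * I)) s‖ ^ 2) *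
      ‖A0 φ T (s - y / Real.log T)‖ ^ 2 ≤ C * T * (Iy κ a y * S + T ^ (-θ₀) * N2 M c) := by
  obtain ⟨η, C₁, hη0, hη1, hC₁, htsl⟩ := tsl hQ
  obtain ⟨θ₀, hθ⟩ : ∃ θ₀ : ℝ, θ₀ = min (η / 4) (1 / 400) := ⟨_, rfl⟩
  have hθ0 : 0 < θ₀ := by rw [hθ]; exact lt_min (by positivity) (by norm_num)
  have hθη : θ₀ ≤ η / 4 := by rw [hθ]; exact min_le_left _ _
  have hθ4 : θ₀ ≤ 1 / 400 := by rw [hθ]; exact min_le_right _ _
  refine ⟨θ₀, hθ0, hθ4, fun δ hδ hδ1 => ?_⟩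
  obtain ⟨K, hK, hqf⟩ := qf_bound h δ hδ hδ1
  refine ⟨C₁ * (K + 1), by positivity, ?_⟩
  filter_upwards [htsl, hqf, eventually_gt_atTop (1 : ℝ)] with T hT hq hT1
  intro α M c hM hc a S ha hS y
  have hT0 : 0 < T := by linarith
  have hL0 : 0 < Real.log T := Real.log_pos hT1
  have hN2 : 0 ≤ N2 M c := Pool.Agent.Q86.UM.N2_nonneg M c
  obtain ⟨K₀, hK₀⟩ : ∃ K₀ : ℕ, K₀ = ⌊T ^ (101 / 200 : ℝ)⌋₊ := ⟨_, rfl⟩
  obtain ⟨ct, hct⟩ : ∃ ct : ℕ → ℂ, ct = fun n : ℕ => c n * (n : ℂ) ^ (α * I) := ⟨_, rfl⟩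
  obtain ⟨av, hav⟩ : ∃ av : ℕ → ℂ, av = fun k => af φ T k * (k : ℂ) ^ (((y / Real.log T : ℝ) : ℂ) * I) := ⟨_, rfl⟩
  have hq1 := hq α M c hc a S ha hS y
  rw [← hct, ← hK₀, ← hav] at hq1
  rw [← hct]
  have hctz : ∀ n, ct n ≠ 0 → 1 ≤ n ∧ n ≤ M := fun n hn => by
    have h1 : c n ≠ 0 := by
      rw [hct] at hn
      exact left_ne_zero_of_mul hn
    exact ⟨(hc n h1).1, (hc n h1).2.1⟩
  -- the bound of the coefficients
  have hlam : ∀ n, ‖ct n‖ ≤ √(M * N2 M c) := by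
    intro n
    by_cases hcn : c n = 0
    · rw [hct]
      simp only [hcn, zero_mul, norm_zero]
      positivity
    · obtain ⟨h1, h2, -⟩ := hc n hcn
      have h3 : ‖ct n‖ = ‖c n‖ := by
        rw [hct]
        simp only
        rw [norm_mul, norm_cpow_I α (by omega), mul_one]
      rw [h3]
      apply Real.le_sqrt_of_sq_le
      have hn1 : (0 : ℝ) < n := by exact_mod_cast h1
      have h4 : ‖c n‖ ^ 2 / n ≤ N2 M c := by
        unfold N2
        exact Finset.single_le_sum (f := fun n : ℕ => ‖c n‖ ^ 2 / (n : ℝ)) (fun m _ => by positivity)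
          (Finset.mem_Icc.2 ⟨h1, h2⟩)
      rw [div_le_iff₀ hn1] at h4
      have h5 : (n : ℝ) ≤ M := by exact_mod_cast h2
      nlinarith
  have hlam2 : ∀ n, ‖cv av ct n‖ ≤ M * √(M * N2 M c) := by
    refine cv_bd (fun n hn => ?_) hctz hlam
    rw [hav]
    simp only
    rw [norm_mul, norm_cpow_I _ hn, mul_one]
    exact af_norm h T n
  have hlen : ((K₀ * M : ℕ) : ℝ) ≤ T ^ (51 / 100 : ℝ) := by
    push_cast
    calc (K₀ : ℝ) * M ≤ T ^ (101 / 200 : ℝ) * T ^ θ₀ := by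
          apply mul_le_mul _ hM (Nat.cast_nonneg _) (by positivity)
          rw [hK₀]
          exact Nat.floor_le (by positivity)
      _ = T ^ (101 / 200 + θ₀) := (Real.rpow_add hT0 _ _).symm
      _ ≤ T ^ (51 / 100 : ℝ) := Real.rpow_le_rpow_of_exponent_le hT1.le (by linarith)
  have h1 := hT (K₀ * M) hlen (cv av ct) _ hlam2
  have hprod : ∀ s, (‖zt s‖ ^ 2 * ‖dp M ct s‖ ^ 2) * ‖A0 φ T (s - y / Real.log T)‖ ^ 2 =
      ‖zt s‖ ^ 2 * ‖dp (K₀ * M) (cv av ct) s‖ ^ 2 := by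
    intro s
    have h2 : A0 φ T (s - y / Real.log T) = dp K₀ av s := by
      unfold A0
      rw [hK₀, hav]
      exact (Pool.Agent.Q84.UM.t_DPM.2.1 _ (af φ T) s (y / Real.log T)).1
    have h3 : dp K₀ av s * dp M ct s = dp (K₀ * M) (cv av ct) s := by
      refine Pool.Agent.Q84.UM.t_DPM.1 K₀ M av ct s (fun n hn => ?_) (fun n hn => ?_)
      · rw [hav]
        simp only
        rw [af_zero h hT1 n (by rw [← hK₀]; exact hn), zero_mul]
      · by_contra h0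
        have := (hctz n h0).2
        omega
    rw [h2, ← h3, norm_mul]
    ring
  have h2 : ∫ s in (T / 2)..(3 * T), (‖zt s‖ ^ 2 * ‖dp M ct s‖ ^ 2) * ‖A0 φ T (s - y / Real.log T)‖ ^ 2 =
      ∫ s in (T / 2)..(3 * T), ‖zt s‖ ^ 2 * ‖dp (K₀ * M) (cv av ct) s‖ ^ 2 :=
    intervalIntegral.integral_congr fun s _ => hprod s
  rw [h2]
  refine h1.trans ?_
  have h3 : T ^ (-η) * ((M : ℝ) * √(M * N2 M c)) ^ 2 ≤ T ^ (-θ₀) * N2 M c := by
    rw [mul_pow, Real.sq_sqrt (by positivity)]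
    have h4 : T ^ (-η) * (M : ℝ) ^ 3 ≤ T ^ (-θ₀) := by
      calc T ^ (-η) * (M : ℝ) ^ 3 ≤ T ^ (-η) * (T ^ θ₀) ^ 3 :=
            mul_le_mul_of_nonneg_left (pow_le_pow_left₀ (Nat.cast_nonneg _) hM 3) (by positivity)
        _ = T ^ (-η + 3 * θ₀) := by
            rw [← Real.rpow_natCast, ← Real.rpow_mul hT0.le, ← Real.rpow_add hT0]
            congr 1
            push_cast
            ring
        _ ≤ T ^ (-θ₀) := Real.rpow_le_rpow_of_exponent_le hT1.le (by linarith)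
    calc T ^ (-η) * ((M : ℝ) ^ 2 * (M * N2 M c)) = T ^ (-η) * (M : ℝ) ^ 3 * N2 M c := by ring
      _ ≤ _ := mul_le_mul_of_nonneg_right h4 hN2
  have hI0 := Iy_nonneg κ a y
  have hS0 : 0 ≤ S := by
    have h1 := Pool.Agent.Q176.UM.MB.nonneg (fun t => by positivity) (hS 0)
    exact nonneg_of_mul_nonneg_right h1 (Real.exp_pos _)
  have h4 : 0 ≤ Iy κ a y * S := mul_nonneg hI0 hS0
  have h5 : 0 ≤ T ^ (-θ₀) * N2 M c := by positivity
  have h6 : Real.log T * (QF (K₀ * M) (cv av ct)).re + T ^ (-η) * ((M : ℝ) * √(M * N2 M c)) ^ 2 ≤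
      (K + 1) * (Iy κ a y * S + T ^ (-θ₀) * N2 M c) := by
    have h7 : K * Iy κ a y * S = K * (Iy κ a y * S) := by ring
    rw [h7] at hq1
    have h8 : 0 ≤ K * (T ^ (-θ₀) * N2 M c) := mul_nonneg hK h5
    nlinarith
  calc C₁ * T * (Real.log T * (QF (K₀ * M) (cv av ct)).re + T ^ (-η) * ((M : ℝ) * √(M * N2 M c)) ^ 2) ≤
        C₁ * T * ((K + 1) * (Iy κ a y * S + T ^ (-θ₀) * N2 M c)) := mul_le_mul_of_nonneg_left h6 (by positivity)
    _ = _ := by ring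

/-- the interchange of the integrals -/
theorem swap_int (h : Cut φ κ c₀ C₀) (T : ℝ) (hT : 1 < T) (F : ℝ → ℝ) (hF : Continuous F) :
    ∫ s in (T / 2)..(3 * T), F s * ∫ v : ℝ, |κ v| * ‖A0 φ T (s - v / Real.log T)‖ ^ 2 =
      ∫ v : ℝ, |κ v| * ∫ s in (T / 2)..(3 * T), F s * ‖A0 φ T (s - v / Real.log T)‖ ^ 2 := by
  have hle : T / 2 ≤ 3 * T := by linarith
  obtain ⟨Bd, hBd⟩ : ∃ Bd : ℝ, Bd = ∑ n ∈ Finset.Icc 1 ⌊T ^ (101 / 200 : ℝ)⌋₊, ‖af φ T n‖ := ⟨_, rfl⟩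
  have hgB : ∀ x, ‖A0 φ T x‖ ≤ Bd := fun x => by
    rw [hBd]
    exact dp_bdd _ _ _
  simp only [intervalIntegral.integral_of_le hle]
  obtain ⟨μ, hμ⟩ : ∃ μ : Measure ℝ, μ = volume.restrict (Set.Ioc (T / 2) (3 * T)) := ⟨_, rfl⟩
  rw [← hμ]
  have hFi : Integrable F μ := by
    rw [hμ]
    exact (intervalIntegrable_iff_integrableOn_Ioc_of_le hle).1 (hF.intervalIntegrable _ _)
  have hsf : SFinite μ := by
    rw [hμ]
    infer_instance
  have hint : Integrable (Function.uncurry fun s v : ℝ => F s * (|κ v| * ‖A0 φ T (s - v / Real.log T)‖ ^ 2)) (μ.prod volume) := by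
    have h1 : Integrable (fun z : ℝ × ℝ => F z.1 * |κ z.2|) (μ.prod volume) := hFi.mul_prod h.int_abs
    refine (h1.norm.mul_const (Bd ^ 2)).mono' ?_ (Eventually.of_forall fun z => ?_)
    · have h2 := h.cont
      have h3 := A0c φ T
      have h4 : Continuous (Function.uncurry fun s v : ℝ => F s * (|κ v| * ‖A0 φ T (s - v / Real.log T)‖ ^ 2)) := by
        have e1 : Continuous fun z : ℝ × ℝ => F z.1 := hF.comp continuous_fst
        have e2 : Continuous fun z : ℝ × ℝ => |κ z.2| := (h2.comp continuous_snd).abs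
        have e3 : Continuous fun z : ℝ × ℝ => A0 φ T (z.1 - z.2 / Real.log T) :=
          h3.comp (continuous_fst.sub (continuous_snd.div_const _))
        exact e1.mul (e2.mul (e3.norm.pow 2))
      exact h4.aestronglyMeasurable
    · simp only [Function.uncurry]
      rw [norm_mul, norm_mul, norm_mul, Real.norm_of_nonneg (sq_nonneg ‖A0 φ T (z.1 - z.2 / Real.log T)‖), ← mul_assoc]
      refine mul_le_mul_of_nonneg_left ?_ (by positivity)
      exact pow_le_pow_left₀ (norm_nonneg _) (hgB _) 2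
  have hsw := integral_integral_swap hint
  simp only [integral_const_mul] at hsw
  rw [hsw]
  refine integral_congr_ae (Eventually.of_forall fun v => ?_)
  simp only
  rw [← integral_const_mul]
  refine integral_congr_ae (Eventually.of_forall fun s => ?_)
  simp only
  ring

/-- the mean square of zeta on `[T/2, 3T]` -/
theorem mean2 (hQ : S_QL) : ∃ C : ℝ, 0 ≤ C ∧ ∀ᶠ T : ℝ in atTop, ∫ s in (T / 2)..(3 * T), ‖zt s‖ ^ 2 ≤ C * T * (Real.log T + 1) := by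
  obtain ⟨η, C₁, hη0, hη1, hC₁, htsl⟩ := tsl hQ
  refine ⟨C₁, by linarith, ?_⟩
  filter_upwards [htsl, eventually_ge_atTop (1 : ℝ)] with T hT hT1
  have hT0 : 0 < T := by linarith
  have h1 := hT 1 (by
    rw [Nat.cast_one]
    exact Real.one_le_rpow hT1 (by norm_num)) (fun _ => 1) 1 (fun n => by simp)
  have h2 : ∀ s, dp 1 (fun _ => (1 : ℂ)) s = 1 := fun s => by simp [dp]
  have h3 : (QF 1 (fun _ => (1 : ℂ))).re = 1 := by simp [QF]
  simp only [h2, h3, norm_one, one_pow, mul_one] at h1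
  refine h1.trans ?_
  apply mul_le_mul_of_nonneg_left _ (by positivity)
  have h4 : T ^ (-η) ≤ 1 := by
    calc T ^ (-η) ≤ T ^ (0 : ℝ) := Real.rpow_le_rpow_of_exponent_le hT1 (by linarith)
      _ = 1 := Real.rpow_zero T
  linarith

/-- **the fourth power against a mean value** -/
theorem tsb4 (h : Cut φ κ c₀ C₀) (hQ : S_QL) : ∃ θ₀ : ℝ, 0 < θ₀ ∧ θ₀ ≤ 1 / 400 ∧ ∀ δ : ℝ, 0 < δ → δ ≤ 1 / 2 → ∀ a : ℝ, 0 ≤ a →
    ∃ C : ℝ, 0 ≤ C ∧ ∀ᶠ T : ℝ in atTop, ∀ α : ℝ, |α| ≤ T / 2 → ∀ (M : ℕ) (c : ℕ → ℂ), (M : ℝ) ≤ T ^ θ₀ →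
    (∀ n, c n ≠ 0 → 1 ≤ n ∧ n ≤ M ∧ n ∈ Nat.smoothNumbers (⌊T ^ δ⌋₊ + 1)) → ∀ S : ℝ,
    (∀ w : ℝ, MB (fun t => ‖cexp (PA ⌊T ^ δ⌋₊ (ua α) (ua (2 * α)) t)‖ ^ 2 *
      ‖cexp (PA ⌊T ^ δ⌋₊ (ua (α + w / Real.log T)) (ua (2 * (α + w / Real.log T))) t)‖ ^ 2 * ‖dp M c t‖ ^ 2)
      (Real.exp (a * (1 + |w|) ^ (3 / 5 : ℝ)) * S)) →
    ∫ t in T..(2 * T), ‖zt (t + α)‖ ^ 4 * ‖dp M c t‖ ^ 2 ≤ C * T * (S + T ^ (-θ₀) * N2 M c) := by
  obtain ⟨θ₀, hθ0, hθ1, hone⟩ := one_freq h hQ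
  obtain ⟨C₂, hC₂, hafe⟩ := afe_sq h
  obtain ⟨C₃, hC₃, hmean⟩ := mean2 hQ
  refine ⟨θ₀, hθ0, hθ1, fun δ hδ hδ1 a ha => ?_⟩
  obtain ⟨C₁, hC₁, hfr⟩ := hone δ hδ hδ1
  obtain ⟨I₀, hI₀⟩ : ∃ I₀ : ℝ, I₀ = Iy κ a 0 := ⟨_, rfl⟩
  have hI0 : 0 ≤ I₀ := by rw [hI₀]; exact Iy_nonneg κ a 0
  obtain ⟨J, hJ⟩ : ∃ J : ℝ, J = ∫ v : ℝ, |κ v| := ⟨_, rfl⟩
  have hJ0 : 0 ≤ J := by
    rw [hJ]
    exact integral_nonneg fun v => abs_nonneg _
  refine ⟨C₂ * (C₁ * (I₀ + I₀ * I₀ + 1 + J) + 1), by positivity, ?_⟩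
  have hlog := ev_log (3 / 4 - 2 * θ₀) (by linarith) C₃
  filter_upwards [hfr, hafe, hmean, hlog, eventually_gt_atTop (1 : ℝ)] with T hfr hafe hmean hlog hT1
  intro α hα M c hM hc S hS
  have hT0 : 0 < T := by linarith
  have hL0 : 0 < Real.log T := Real.log_pos hT1
  have hle : T / 2 ≤ 3 * T := by linarith
  have hN2 : 0 ≤ N2 M c := Pool.Agent.Q86.UM.N2_nonneg M c
  have hS0 : 0 ≤ S := by
    have h1 := Pool.Agent.Q176.UM.MB.nonneg (fun t => by positivity) (hS 0)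
    exact nonneg_of_mul_nonneg_right h1 (Real.exp_pos _)
  obtain ⟨ct, hct⟩ : ∃ ct : ℕ → ℂ, ct = fun n : ℕ => c n * (n : ℂ) ^ (α * I) := ⟨_, rfl⟩
  obtain ⟨F, hF⟩ : ∃ F : ℝ → ℝ, F = fun s => ‖zt s‖ ^ 2 * ‖dp M ct s‖ ^ 2 := ⟨_, rfl⟩
  have hFc : Continuous F := by
    rw [hF]
    exact (ztc.norm.pow 2).mul ((dpc _ _).norm.pow 2)
  have hF0 : ∀ s, 0 ≤ F s := fun s => by rw [hF]; positivity
  obtain ⟨R, hR⟩ : ∃ R : ℝ → ℝ, R = fun y => ∫ s in (T / 2)..(3 * T), F s * ‖A0 φ T (s - y / Real.log T)‖ ^ 2 := ⟨_, rfl⟩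
  obtain ⟨E, hE⟩ : ∃ E : ℝ, E = T ^ (-θ₀) * N2 M c := ⟨_, rfl⟩
  have hE0 : 0 ≤ E := by rw [hE]; positivity
  have hRb : ∀ y, R y ≤ C₁ * T * (Iy κ a y * S + E) := by
    intro y
    have h1 := hfr α M c hM hc a S ha hS y
    rw [hR, hF, hct, hE]
    exact h1
  have hR0 : ∀ y, 0 ≤ R y := fun y => by
    rw [hR]
    exact intervalIntegral.integral_nonneg hle fun s _ => mul_nonneg (hF0 s) (by positivity)
  -- translation
  have h2 : ∫ t in T..(2 * T), ‖zt (t + α)‖ ^ 4 * ‖dp M c t‖ ^ 2 ≤ ∫ s in (T / 2)..(3 * T), F s * ‖zt s‖ ^ 2 := by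
    have h3 : ∫ t in T..(2 * T), ‖zt (t + α)‖ ^ 4 * ‖dp M c t‖ ^ 2 =
        ∫ s in (T + α)..(2 * T + α), F s * ‖zt s‖ ^ 2 := by
      rw [← intervalIntegral.integral_comp_add_right (fun s => F s * ‖zt s‖ ^ 2) α]
      refine intervalIntegral.integral_congr fun t _ => ?_
      rw [hF, hct]
      simp only
      rw [← (Pool.Agent.Q84.UM.t_DPM.2.1 M c (t + α) α).1, add_sub_cancel_right]
      ring
    rw [h3]
    rw [abs_le] at hα
    refine intervalIntegral.integral_mono_interval (by linarith) (by linarith) (by linarith)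
      (Eventually.of_forall fun t => mul_nonneg (hF0 t) (by positivity)) ?_
    exact (hFc.mul (ztc.norm.pow 2)).intervalIntegrable _ _
  refine h2.trans ?_
  -- the pointwise bound
  obtain ⟨Bd, hBd⟩ : ∃ Bd : ℝ, Bd = ∑ n ∈ Finset.Icc 1 ⌊T ^ (101 / 200 : ℝ)⌋₊, ‖af φ T n‖ := ⟨_, rfl⟩
  have hgB : ∀ x, ‖A0 φ T x‖ ≤ Bd := fun x => by
    rw [hBd]
    exact dp_bdd _ _ _
  obtain ⟨V, hV⟩ : ∃ V : ℝ → ℝ, V = fun s => ∫ v : ℝ, |κ v| * ‖A0 φ T (s - v / Real.log T)‖ ^ 2 := ⟨_, rfl⟩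
  have hVc : Continuous V := by
    rw [hV]
    refine continuous_of_dominated (bound := fun v => |κ v| * Bd ^ 2) (fun s => ?_) (fun s => ?_) (h.int_abs.mul_const _) ?_
    · have h3 := A0c φ T
      exact ((h.cont.abs).mul ((h3.comp (by fun_prop)).norm.pow 2)).aestronglyMeasurable
    · refine Eventually.of_forall fun v => ?_
      rw [Real.norm_of_nonneg (by positivity)]
      exact mul_le_mul_of_nonneg_left (pow_le_pow_left₀ (norm_nonneg _) (hgB _) 2) (abs_nonneg _)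
    · refine Eventually.of_forall fun v => ?_
      have h3 := A0c φ T
      exact continuous_const.mul ((h3.comp (by fun_prop)).norm.pow 2)
  have h4 : ∫ s in (T / 2)..(3 * T), F s * ‖zt s‖ ^ 2 ≤
      ∫ s in (T / 2)..(3 * T), C₂ * (F s * ‖A0 φ T (s - 0 / Real.log T)‖ ^ 2 + F s * V s + T ^ (-(3 / 4) : ℝ) * F s) := by
    have cA : Continuous fun s : ℝ => A0 φ T (s - 0 / Real.log T) := (A0c φ T).comp (by fun_prop)
    refine intervalIntegral.integral_mono_on hle ((hFc.mul (ztc.norm.pow 2)).intervalIntegrable _ _) ?_ fun s hs => ?_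
    · exact (continuous_const.mul (((hFc.mul (cA.norm.pow 2)).add (hFc.mul hVc)).add
        (continuous_const.mul hFc))).intervalIntegrable _ _
    · have h5 := hafe s hs.1 hs.2
      have h6 := mul_le_mul_of_nonneg_left h5 (hF0 s)
      refine h6.trans (le_of_eq ?_)
      rw [hV]
      simp only [zero_div, sub_zero]
      ring
  have h5 : ∫ s in (T / 2)..(3 * T), C₂ * (F s * ‖A0 φ T (s - 0 / Real.log T)‖ ^ 2 + F s * V s + T ^ (-(3 / 4) : ℝ) * F s) =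
      C₂ * (R 0 + (∫ v : ℝ, |κ v| * R v) + T ^ (-(3 / 4) : ℝ) * ∫ s in (T / 2)..(3 * T), F s) := by
    have cA : Continuous fun s : ℝ => A0 φ T (s - 0 / Real.log T) := (A0c φ T).comp (by fun_prop)
    have c1 : Continuous fun s : ℝ => F s * ‖A0 φ T (s - 0 / Real.log T)‖ ^ 2 := hFc.mul (cA.norm.pow 2)
    have c2 : Continuous fun s : ℝ => F s * V s := hFc.mul hVc
    have c3 : Continuous fun s : ℝ => T ^ (-(3 / 4) : ℝ) * F s := continuous_const.mul hFc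
    have c4 : Continuous fun s : ℝ => F s * ‖A0 φ T (s - 0 / Real.log T)‖ ^ 2 + F s * V s := c1.add c2
    rw [intervalIntegral.integral_const_mul, intervalIntegral.integral_add (c4.intervalIntegrable _ _) (c3.intervalIntegrable _ _),
      intervalIntegral.integral_add (c1.intervalIntegrable _ _) (c2.intervalIntegrable _ _), intervalIntegral.integral_const_mul]
    have h6 := swap_int h T hT1 F hFc
    rw [hV, hR]
    simp only
    rw [h6]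
  refine h4.trans ?_
  rw [h5]
  -- the pieces
  have p1 : R 0 ≤ C₁ * T * (I₀ * S + E) := by
    have := hRb 0
    rw [← hI₀] at this
    exact this
  have hint : Integrable fun v : ℝ => |κ v| * Real.exp (a * (1 + |v|) ^ (3 / 5 : ℝ)) := by
    have h7 := Iy_int h a ha 0
    simpa using h7
  have hIeq : ∫ v : ℝ, |κ v| * Real.exp (a * (1 + |v|) ^ (3 / 5 : ℝ)) = I₀ := by
    rw [hI₀]
    unfold Iy
    simp
  have p2 : ∫ v : ℝ, |κ v| * R v ≤ C₁ * T * (I₀ * I₀ * S + J * E) := by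
    have h7 : ∫ v : ℝ, |κ v| * R v ≤ ∫ v : ℝ, (C₁ * T * (I₀ * S) * (|κ v| * Real.exp (a * (1 + |v|) ^ (3 / 5 : ℝ))) + C₁ * T * E * |κ v|) := by
      refine integral_mono_of_nonneg (Eventually.of_forall fun v => mul_nonneg (abs_nonneg _) (hR0 v))
        ((hint.const_mul _).add (h.int_abs.const_mul _)) (Eventually.of_forall fun v => ?_)
      simp only
      have h8 := hRb v
      have h9 := Iy_le h a ha v
      rw [← hI₀] at h9
      have h10 : Real.exp (a * |v| ^ (3 / 5 : ℝ)) ≤ Real.exp (a * (1 + |v|) ^ (3 / 5 : ℝ)) := by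
        apply Real.exp_le_exp.2
        apply mul_le_mul_of_nonneg_left _ ha
        exact Real.rpow_le_rpow (abs_nonneg _) (by linarith) (by norm_num)
      have h11 : Iy κ a v ≤ Real.exp (a * (1 + |v|) ^ (3 / 5 : ℝ)) * I₀ := h9.trans (mul_le_mul_of_nonneg_right h10 hI0)
      have h12 : R v ≤ C₁ * T * (Real.exp (a * (1 + |v|) ^ (3 / 5 : ℝ)) * I₀ * S + E) := by
        refine h8.trans ?_
        apply mul_le_mul_of_nonneg_left _ (by positivity)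
        have := mul_le_mul_of_nonneg_right h11 hS0
        linarith
      have h13 := mul_le_mul_of_nonneg_left h12 (abs_nonneg (κ v))
      refine h13.trans (le_of_eq ?_)
      ring
    rw [integral_add (hint.const_mul _) (h.int_abs.const_mul _), integral_const_mul, integral_const_mul, hIeq, ← hJ] at h7
    refine h7.trans (le_of_eq ?_)
    ring
  have p3 : T ^ (-(3 / 4) : ℝ) * ∫ s in (T / 2)..(3 * T), F s ≤ T * E := by
    have h7 : ∫ s in (T / 2)..(3 * T), F s ≤ ∫ s in (T / 2)..(3 * T), (M * N2 M c) * ‖zt s‖ ^ 2 := by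
      refine intervalIntegral.integral_mono_on hle (hFc.intervalIntegrable _ _)
        ((continuous_const.mul (ztc.norm.pow 2)).intervalIntegrable _ _) fun s _ => ?_
      have h8 := (Pool.Agent.Q84.UM.t_DPM.2.2 M ct s).1
      have h9 : N2 M ct = N2 M c := by
        rw [hct]
        exact (Pool.Agent.Q84.UM.t_DPM.2.1 M c 0 α).2
      rw [h9] at h8
      rw [hF]
      simp only
      rw [mul_comm]
      exact mul_le_mul_of_nonneg_right h8 (by positivity)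
    rw [intervalIntegral.integral_const_mul] at h7
    have h8 : ∫ s in (T / 2)..(3 * T), F s ≤ T ^ θ₀ * N2 M c * (T * T ^ (3 / 4 - 2 * θ₀)) := by
      refine h7.trans ?_
      apply mul_le_mul (mul_le_mul_of_nonneg_right hM hN2) _ (intervalIntegral.integral_nonneg hle fun s _ => by positivity)
        (by positivity)
      calc ∫ s in (T / 2)..(3 * T), ‖zt s‖ ^ 2 ≤ C₃ * T * (Real.log T + 1) := hmean
        _ = T * (C₃ * (Real.log T + 1)) := by ring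
        _ ≤ _ := mul_le_mul_of_nonneg_left hlog hT0.le
    have h9 : T ^ (-(3 / 4) : ℝ) * (T ^ θ₀ * T ^ (3 / 4 - 2 * θ₀)) = T ^ (-θ₀) := by
      rw [← Real.rpow_add hT0, ← Real.rpow_add hT0]
      congr 1
      ring
    calc T ^ (-(3 / 4) : ℝ) * ∫ s in (T / 2)..(3 * T), F s ≤
          T ^ (-(3 / 4) : ℝ) * (T ^ θ₀ * N2 M c * (T * T ^ (3 / 4 - 2 * θ₀))) :=
          mul_le_mul_of_nonneg_left h8 (by positivity)
      _ = T ^ (-(3 / 4) : ℝ) * (T ^ θ₀ * T ^ (3 / 4 - 2 * θ₀)) * (T * N2 M c) := by ring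
      _ = T * E := by rw [h9, hE]; ring
  have h14 : R 0 + (∫ v : ℝ, |κ v| * R v) + T ^ (-(3 / 4) : ℝ) * ∫ s in (T / 2)..(3 * T), F s ≤
      (C₁ * (I₀ + I₀ * I₀ + 1 + J) + 1) * (T * (S + E)) := by
    have h15 : C₁ * T * (I₀ * S + E) + C₁ * T * (I₀ * I₀ * S + J * E) + T * E ≤
        (C₁ * (I₀ + I₀ * I₀ + 1 + J) + 1) * (T * (S + E)) := by
      have e : (C₁ * (I₀ + I₀ * I₀ + 1 + J) + 1) * (T * (S + E)) -
          (C₁ * T * (I₀ * S + E) + C₁ * T * (I₀ * I₀ * S + J * E) + T * E) =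
          C₁ * T * (1 + J) * S + C₁ * T * (I₀ + I₀ * I₀) * E + T * S := by ring
      have : 0 ≤ C₁ * T * (1 + J) * S + C₁ * T * (I₀ + I₀ * I₀) * E + T * S := by positivity
      linarith
    linarith
  calc C₂ * (R 0 + (∫ v : ℝ, |κ v| * R v) + T ^ (-(3 / 4) : ℝ) * ∫ s in (T / 2)..(3 * T), F s) ≤
        C₂ * ((C₁ * (I₀ + I₀ * I₀ + 1 + J) + 1) * (T * (S + E))) := mul_le_mul_of_nonneg_left h14 (by linarith)
    _ = _ := by rw [hE]; ring

end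

end Pool.Agent.H469.F4
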