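import Pool.Agent.H469.F4.P8

set_option autoImplicit false

/-!
# Maxima over arbitrary compact sets: the sum over the points
-/

namespace Pool.Agent.H469.F4

open Filter Topology MeasureTheory Complex Pool.Agent.Q97.UM
open Pool.Agent.Q14.UM (mem_PB PB_disj cv_len)

noncomputable section

/-- the maximum over a set -/
def MA (A : Set ℝ) (t : ℝ) : ℝ := sSup ((fun h : ℝ => ‖zt (t + h)‖) '' A)

theorem MA_bdd {A : Set ℝ} (hA : IsCompact A) (t : ℝ) : BddAbove ((fun h : ℝ => ‖zt (t + h)‖) '' A) :=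
  hA.bddAbove_image (zth_cont t).continuousOn

theorem le_MA {A : Set ℝ} (hA : IsCompact A) {t h : ℝ} (hh : h ∈ A) : ‖zt (t + h)‖ ≤ MA A t :=
  le_csSup (MA_bdd hA t) ⟨h, hh, rfl⟩

theorem MA_nonneg (A : Set ℝ) (t : ℝ) : 0 ≤ MA A t := by
  apply Real.sSup_nonneg
  rintro x ⟨h, -, rfl⟩
  exact norm_nonneg _

theorem ex_MA {A : Set ℝ} (hA : IsCompact A) (hne : A.Nonempty) (t : ℝ) : ∃ h ∈ A, MA A t = ‖zt (t + h)‖ := by
  obtain ⟨h, hh, he⟩ := (hA.image_of_continuousOn (f := fun h : ℝ => ‖zt (t + h)‖) (zth_cont t).continuousOn).sSup_mem (hne.image _)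
  exact ⟨h, hh, he.symm⟩

theorem MA_cont {A : Set ℝ} (hA : IsCompact A) : Continuous (MA A) := by
  have h1 : Continuous (Function.uncurry fun t h : ℝ => ‖zt (t + h)‖) :=
    (ztc.comp (continuous_fst.add continuous_snd)).norm
  exact hA.continuous_sSup h1

/-- the level at which two points separate -/
def levY (J : ℕ) (E x x' : ℝ) : ℕ := min J ⌊Real.log (|x - x'| * E)⌋₊

/-- **the competitors** -/
theorem pair_set {E κ' β b V C Cv E₀ T H X Y : ℝ} {J : ℕ} (hF : VF Cv E₀) (hU : Upb E κ' β C T) (hC : 0 < C) (hT : 0 ≤ T)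
    (hβ0 : 0 ≤ β) (hβ4 : β ≤ 4) (hV0 : 0 < V) (hV2 : V ≤ 2) (hE₀ : 1 ≤ E₀) (hEE : E₀ ≤ E) (hJ : J = ⌊Real.log (E / E₀)⌋₊)
    (hm1' : 1 ≤ |X - Y| * E) (hX : |X| ≤ T / 2) (hH : |X - Y| ≤ H) :
    ∫ t in T..(2 * T), fz β (t + X) * kW E κ' b V (levY J E X Y) Y t ≤
      4 * Real.exp (2 * V * (Real.log 4 / b)) * (C ^ 2 * Real.exp Cv) * (T * Real.exp (β ^ 2 / 4 * Real.log E)) *
        (Real.exp (V ^ 2) * (|X - Y| * E) ^ (-(V ^ 2)) + (5 + Real.log (H + 1)) ^ 8 * (Real.exp 1 * E₀ / E) ^ (V ^ 2)) := by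
  have hE₀0 : 0 < E₀ := by linarith
  have hE0 : 0 < E := by linarith
  obtain ⟨m, hm⟩ : ∃ m : ℝ, m = |X - Y| * E := ⟨_, rfl⟩
  have hm1 : 1 ≤ m := by rw [hm]; exact hm1'
  have hm0 : 0 < m := by linarith
  have hlm : 0 ≤ Real.log m := Real.log_nonneg hm1
  obtain ⟨j, hj⟩ : ∃ j : ℕ, j = levY J E X Y := ⟨_, rfl⟩
  have hj' : j = min J ⌊Real.log m⌋₊ := by rw [hj, hm]; rfl
  have hjJ : j ≤ J := by rw [hj']; exact min_le_left _ _
  have hjm : j ≤ ⌊Real.log m⌋₊ := by rw [hj']; exact min_le_right _ _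
  have hdist : |X - Y| = m / E := by
    rw [hm]
    field_simp
  have hmH : m / E ≤ H := by
    rw [← hdist]
    exact hH
  obtain ⟨g1, g2⟩ := last_lev hE₀ hEE hJ
  have hjE : E₀ ≤ E * Real.exp (-(j : ℝ)) := by
    refine g1.trans ?_
    apply mul_le_mul_of_nonneg_left _ hE0.le
    apply Real.exp_le_exp.2
    have : (j : ℝ) ≤ J := by exact_mod_cast hjJ
    linarith
  obtain ⟨-, -, h3⟩ := hF E β V X j hjE hβ0 hβ4 (by rw [abs_of_pos hV0]; exact hV2)
  obtain ⟨h4, h5⟩ := h3 hV0.le Y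
  rw [hdist] at h4 h5
  rw [← hj, ← hm]
  have hH0 : 0 ≤ H := le_trans (by positivity) hmH
  have hlH : 0 ≤ Real.log (H + 1) := Real.log_nonneg (by linarith)
  have hD1 : 1 ≤ (5 + Real.log (H + 1)) ^ 8 := one_le_pow₀ (by linarith)
  have hV := sq_nonneg V
  have n2 : 0 ≤ (Real.exp 1 * E₀ / E) ^ (V ^ 2) := by positivity
  have n1 : 0 ≤ Real.exp (V ^ 2) * m ^ (-(V ^ 2)) := by positivity
  rcases le_total (m / E) 1 with hc | hc
  · have h6 : 1 ≤ m / E * (E * Real.exp (-(j : ℝ))) := by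
      have h7 : (j : ℝ) ≤ Real.log m := by
        have : (j : ℝ) ≤ (⌊Real.log m⌋₊ : ℝ) := by exact_mod_cast hjm
        exact this.trans (Nat.floor_le hlm)
      have h8 : Real.exp j ≤ m := by
        rw [← Real.le_log_iff_exp_le hm0]
        exact h7
      have e : Real.exp j * Real.exp (-(j : ℝ)) = 1 := by rw [← Real.exp_add]; simp
      calc (1 : ℝ) = Real.exp j * Real.exp (-(j : ℝ)) := e.symm
        _ ≤ m * Real.exp (-(j : ℝ)) := mul_le_mul_of_nonneg_right h8 (Real.exp_pos _).le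
        _ = _ := by field_simp
    have h7 := h4 hc h6
    have h8 := comp_le (κ' := κ') (b := b) (F := 0) hU hC hT hX hV0 hV2 (j := j) (Y := Y) (by rw [add_zero]; exact h7)
    refine h8.trans ?_
    apply mul_le_mul_of_nonneg_left _ (by positivity)
    rw [Real.exp_zero, mul_one]
    have h9 := exp_lev (V := V) hE₀0 hEE hm1 hJ
    rw [← hj'] at h9
    nlinarith
  · have hjJ' : j = J := by
      rw [hj', min_eq_left]
      rw [hJ]
      apply Nat.floor_mono
      apply Real.log_le_log (by positivity)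
      rw [one_le_div hE0] at hc
      exact (div_le_self hE0.le hE₀).trans hc
    have h7 := h5 (by rw [hjJ']; exact g2) hc
    have h8 := comp_le (κ' := κ') (b := b) (F := β * V * Real.log (5 + Real.log (m / E + 1))) hU hC hT hX hV0 hV2 (j := j) (Y := Y) h7
    refine h8.trans ?_
    apply mul_le_mul_of_nonneg_left _ (by positivity)
    have h9 := exp_last (V := V) hE₀0 hEE hJ
    rw [← hjJ'] at h9
    have hlm2 : 0 ≤ Real.log (m / E + 1) := Real.log_nonneg (by linarith [div_nonneg hm0.le hE0.le])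
    have h10 : Real.exp (β * V * Real.log (5 + Real.log (m / E + 1))) ≤ (5 + Real.log (H + 1)) ^ 8 := by
      have h11 : Real.log (5 + Real.log (m / E + 1)) ≤ Real.log (5 + Real.log (H + 1)) := by
        apply Real.log_le_log (by linarith)
        have : Real.log (m / E + 1) ≤ Real.log (H + 1) := Real.log_le_log (by positivity) (by linarith)
        linarith
      have h12 : 0 ≤ Real.log (5 + Real.log (H + 1)) := Real.log_nonneg (by linarith)
      have h13 : β * V ≤ 8 := by nlinarith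
      have h14 : 0 ≤ β * V := by positivity
      calc Real.exp (β * V * Real.log (5 + Real.log (m / E + 1))) ≤ Real.exp (((8 : ℕ) : ℝ) * Real.log (5 + Real.log (H + 1))) := by
            apply Real.exp_le_exp.2
            push_cast
            exact mul_le_mul h13 h11 (Real.log_nonneg (by linarith)) (by norm_num)
        _ = _ := by
            rw [Real.exp_nat_mul, Real.exp_log (by linarith)]
    calc Real.exp (-(V ^ 2 * (j : ℝ))) * Real.exp (β * V * Real.log (5 + Real.log (m / E + 1))) ≤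
        (Real.exp 1 * E₀ / E) ^ (V ^ 2) * (5 + Real.log (H + 1)) ^ 8 := mul_le_mul h9 h10 (Real.exp_pos _).le n2
      _ ≤ _ := by linarith

/-- the weight of one of the points -/
def psiS (E κ' b V : ℝ) (S : Finset ℝ) (j₀ J : ℕ) (x t : ℝ) : ℝ :=
  1 - (oW E κ' b V j₀ J x t + (∑ y ∈ S.erase x, kW E κ' b V (levY J E x y) y t +
    pW E κ' 4 x t))

theorem psiS_sum_le {E κ' β b V t : ℝ} {A : Set ℝ} {S : Finset ℝ} {j₀ J : ℕ} (hE : 1 ≤ E) (hκ : 16 ≤ κ') (hβ0 : 0 ≤ β) (hb : 0 < b) (hb1 : b ≤ 1)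
    (hV0 : 0 < V) (hV2 : V ≤ 2) (hJ : j₀ ≤ J) (hJB : J ≤ JB E) (hA : IsCompact A) (hy : ∀ x ∈ S, x ∈ A)
    (hsep : ∀ x ∈ S, ∀ y ∈ S, x ≠ y → Real.exp j₀ ≤ |x - y| * E) :
    ∑ x ∈ S, fz β (t + x) * psiS E κ' b V S j₀ J x t ≤ MA A t ^ β := by
  have hE0 : 0 < E := by linarith
  have hlevj : ∀ x ∈ S, ∀ y ∈ S, x ≠ y → j₀ ≤ levY J E x y := by
    intro i hi k hk hik
    unfold levY
    apply le_min hJ
    apply Nat.le_floor
    have h1 := hsep i hi k hk hik
    rw [Real.le_log_iff_exp_le (lt_of_lt_of_le (Real.exp_pos _) h1)]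
    exact h1
  have hkn : ∀ i, 0 ≤ ∑ k ∈ S.erase i, kW E κ' b V (levY J E i k) k t := fun i =>
    Finset.sum_nonneg fun k _ => kW_nonneg _ _ _ _ _ _ _
  apply one_only S (fun i : ℝ => fz β (t + i)) (fun i => psiS E κ' b V S j₀ J i t)
    (Real.rpow_nonneg (MA_nonneg A t) _) (fun i _ => fz_nonneg _ _)
  · intro i hi
    exact Real.rpow_le_rpow (norm_nonneg _) (le_MA hA (hy i hi)) hβ0
  · intro i _
    show psiS E κ' b V S j₀ J i t ≤ 1
    unfold psiS
    have h1 := oW_nonneg E κ' b V j₀ J i t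
    have h2 := hkn i
    have h3 := pW_nonneg E κ' 4 i t
    linarith
  · intro i hi k hk h1 h2
    by_contra hik
    have h1' : 0 < psiS E κ' b V S j₀ J i t := h1
    have h2' : 0 < psiS E κ' b V S j₀ J k t := h2
    unfold psiS at h1' h2'
    have o1 := oW_nonneg E κ' b V j₀ J i t
    have p1 := pW_nonneg E κ' 4 i t
    have o2 := oW_nonneg E κ' b V j₀ J k t
    have p2 := pW_nonneg E κ' 4 k t
    have s2 := hkn k
    have s1 : kW E κ' b V (levY J E i k) k t ≤ ∑ k ∈ S.erase i, kW E κ' b V (levY J E i k) k t :=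
      Finset.single_le_sum (f := fun k : ℝ => kW E κ' b V (levY J E i k) k t) (fun k _ => kW_nonneg _ _ _ _ _ _ _)
        (Finset.mem_erase.2 ⟨fun h => hik h.symm, hk⟩)
    have hl : levY J E i k ≤ J := min_le_left _ _
    exact excl (S := 4) hE hκ (by norm_num) hb (by linarith) hV0 (by linarith) (hlevj i hi k hk hik) hl
      (hl.trans hJB) (x := k) (t := t) (by linarith) (by linarith) (by linarith)

/-- **the sum over the points** -/
theorem set_core {E κ' β b V C Cv E₀ T H η c₀ z D : ℝ} {J j₀ : ℕ} {A : Set ℝ} {S : Finset ℝ} (hF : VF Cv E₀) (hU : Upb E κ' β C T) (hC : 0 < C)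
    (hT : 0 < T)
    (hβ0 : 0 < β) (hβ4 : β ≤ 4) (hb : 0 < b) (hb1 : b ≤ 1) (hV : V = β / 2 - b) (hV0 : 0 < V) (hE₀ : 1 ≤ E₀) (hκ : 16 ≤ κ')
    (hj₀ : Real.exp j₀ ≤ E / E₀) (hJ : J = ⌊Real.log (E / E₀)⌋₊) (hH : 0 ≤ H) (hA : IsCompact A) (hy : ∀ x ∈ S, x ∈ A)
    (hAT : ∀ h ∈ A, |h| ≤ T / 2) (hAH : ∀ h ∈ A, ∀ h' ∈ A, |h - h'| ≤ H)
    (hsep : ∀ x ∈ S, ∀ y ∈ S, x ≠ y → Real.exp j₀ ≤ |x - y| * E) (hc₀ : 0 < c₀)
    (hQ : ∀ X, |X| ≤ T / 2 → ∃ Q : ℝ, c₀ * VV E (aw β X) (fun _ => 0) ≤ Q ∧ T * Q ≤ ∫ t in T..(2 * T), fz β (t + X) ∧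
      ∫ t in T..(2 * T), fz β (t + X) * pW E κ' 4 X t ≤ 1 / 8 * (T * Q))
    (hz : ∀ x ∈ S, ∑ y ∈ S.erase x, (|x - y| * E) ^ (-(V ^ 2)) ≤ z)
    (hη : η = c₀ * Real.exp (-Cv) / 8) (hD : D = 4 * Real.exp (2 * V * (Real.log 4 / b)) * (C ^ 2 * Real.exp Cv))
    (h1 : C ^ 2 * Real.exp Cv * (Real.exp (-(3 / 4 * b ^ 2) * j₀) * (1 - Real.exp (-(3 / 4 * b ^ 2)))⁻¹) ≤ η)
    (h2 : D * (Real.exp (V ^ 2) * z) ≤ η)
    (h3 : D * (S.card * ((5 + Real.log (H + 1)) ^ 8 * (Real.exp 1 * E₀ / E) ^ (V ^ 2))) ≤ η) :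
    S.card * (4 * η * (T * Real.exp (β ^ 2 / 4 * Real.log E))) ≤ ∫ t in T..(2 * T), MA A t ^ β := by
  have hE₀0 : 0 < E₀ := by linarith
  have hEE1 : 1 ≤ E / E₀ := (Real.one_le_exp (Nat.cast_nonneg _)).trans hj₀
  have hE0 : 0 < E := by
    by_contra h
    have : E / E₀ ≤ 0 := div_nonpos_of_nonpos_of_nonneg (not_lt.1 h) hE₀0.le
    linarith
  have hEE : E₀ ≤ E := by rwa [one_le_div hE₀0] at hEE1
  have hE1 : 1 ≤ E := hE₀.trans hEE
  have hV2 : V ≤ 2 := by rw [hV]; linarith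
  have hη0 : 0 < η := by rw [hη]; positivity
  have hJ0 : j₀ ≤ J := by
    rw [hJ]
    apply Nat.le_floor
    rw [Real.le_log_iff_exp_le (by positivity)]
    exact hj₀
  obtain ⟨g1, g2⟩ := last_lev hE₀ hEE hJ
  have hJB : J ≤ JB E := by
    have := JB_shift hE0 J (hE₀.trans g1)
    omega
  have hXT : ∀ x ∈ S, |x| ≤ T / 2 := fun x hx => hAT _ (hy x hx)
  obtain ⟨G, hG⟩ : ∃ G : ℝ, G = Real.exp (β ^ 2 / 4 * Real.log E) := ⟨_, rfl⟩
  have hG0 : 0 < G := by rw [hG]; exact Real.exp_pos _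
  rw [← hG]
  obtain ⟨P, hP⟩ : ∃ P : ℝ, P = (5 + Real.log (H + 1)) ^ 8 * (Real.exp 1 * E₀ / E) ^ (V ^ 2) := ⟨_, rfl⟩
  have hlH : 0 ≤ Real.log (H + 1) := Real.log_nonneg (by linarith)
  have hP0 : 0 ≤ P := by rw [hP]; positivity
  rw [← hP] at h3
  have hD0 : 0 < D := by rw [hD]; positivity
  -- the mean value of one weight
  have hfc : ∀ X, Continuous fun t => fz β (t + X) := fun X => (fz_cont hβ0.le).comp (by fun_prop)
  have hone : ∀ X ∈ S, 4 * η * (T * G) ≤ ∫ t in T..(2 * T), fz β (t + X) * psiS E κ' b V S j₀ J X t := by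
    intro X hi
    have hXT' : |X| ≤ T / 2 := hXT X hi
    obtain ⟨Q, q1, q2, q3⟩ := hQ X hXT'
    have c1 : Continuous fun t => fz β (t + X) := hfc X
    have c2 : Continuous fun t => fz β (t + X) * oW E κ' b V j₀ J X t := c1.mul (oW_cont _ _ _ _ _ _ _)
    have c3 : ∀ k : ℝ, Continuous fun t => fz β (t + X) * kW E κ' b V (levY J E X k) k t := fun k => c1.mul (kW_cont _ _ _ _ _ _)
    have c4 : Continuous fun t => fz β (t + X) * pW E κ' 4 X t := c1.mul (pW_cont _ _ _ _)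
    have c5 : Continuous fun t => ∑ k ∈ S.erase X, fz β (t + X) * kW E κ' b V (levY J E X k) k t :=
      continuous_finsetSum _ fun k _ => c3 k
    have e1 : ∀ t, fz β (t + X) * psiS E κ' b V S j₀ J X t = fz β (t + X) -
        (fz β (t + X) * oW E κ' b V j₀ J X t + (∑ k ∈ S.erase X, fz β (t + X) * kW E κ' b V (levY J E X k) k t +
          fz β (t + X) * pW E κ' 4 X t)) := by
      intro t
      unfold psiS
      rw [← Finset.mul_sum]
      ring
    simp only [e1]
    have i1 : IntervalIntegrable (fun t => fz β (t + X)) volume T (2 * T) := c1.intervalIntegrable _ _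
    have i2 : IntervalIntegrable (fun t => fz β (t + X) * oW E κ' b V j₀ J X t) volume T (2 * T) := c2.intervalIntegrable _ _
    have i4 : IntervalIntegrable (fun t => fz β (t + X) * pW E κ' 4 X t) volume T (2 * T) := c4.intervalIntegrable _ _
    have i5 : IntervalIntegrable (fun t => ∑ k ∈ S.erase X, fz β (t + X) * kW E κ' b V (levY J E X k) k t) volume T (2 * T) :=
      c5.intervalIntegrable _ _
    have i54 : IntervalIntegrable (fun t => ∑ k ∈ S.erase X, fz β (t + X) * kW E κ' b V (levY J E X k) k t +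
      fz β (t + X) * pW E κ' 4 X t) volume T (2 * T) := i5.add i4
    have i254 : IntervalIntegrable (fun t => fz β (t + X) * oW E κ' b V j₀ J X t + (∑ k ∈ S.erase X,
      fz β (t + X) * kW E κ' b V (levY J E X k) k t + fz β (t + X) * pW E κ' 4 X t)) volume T (2 * T) := i2.add i54
    rw [intervalIntegral.integral_sub i1 i254, intervalIntegral.integral_add i2 i54, intervalIntegral.integral_add i5 i4,
      intervalIntegral.integral_finsetSum fun k _ => (c3 k).intervalIntegrable _ _]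
    -- the own part
    have b1 : ∫ t in T..(2 * T), fz β (t + X) * oW E κ' b V j₀ J X t ≤ η * (T * G) := by
      have h4 := own_le (κ' := κ') (Cv := Cv) (E₀ := E₀) hU hC hT.le hXT' hβ0.le hb (by linarith) hV (j₀ := j₀) (J := J) fun j hj => by
        have h5 := (hF E β (-(b / 2)) X j (by
          refine g1.trans ?_
          apply mul_le_mul_of_nonneg_left _ hE0.le
          apply Real.exp_le_exp.2
          have : (j : ℝ) ≤ J := by exact_mod_cast hj
          linarith) hβ0.le hβ4 (by rw [abs_neg, abs_of_pos (by linarith)]; linarith)).2.1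
        exact h5
      rw [← hG] at h4
      calc _ ≤ C ^ 2 * Real.exp Cv * (T * G) * (Real.exp (-(3 / 4 * b ^ 2) * j₀) * (1 - Real.exp (-(3 / 4 * b ^ 2)))⁻¹) := h4
        _ = C ^ 2 * Real.exp Cv * (Real.exp (-(3 / 4 * b ^ 2) * j₀) * (1 - Real.exp (-(3 / 4 * b ^ 2)))⁻¹) * (T * G) := by ring
        _ ≤ η * (T * G) := mul_le_mul_of_nonneg_right h1 (by positivity)
    -- the competitors
    have b2 : ∑ k ∈ S.erase X, ∫ t in T..(2 * T), fz β (t + X) * kW E κ' b V (levY J E X k) k t ≤ 2 * (η * (T * G)) := by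
      have h4 : ∀ k ∈ S.erase X, ∫ t in T..(2 * T), fz β (t + X) * kW E κ' b V (levY J E X k) k t ≤
          D * (T * G) * (Real.exp (V ^ 2) * (|X - k| * E) ^ (-(V ^ 2)) + P) := by
        intro k hk
        rw [Finset.mem_erase] at hk
        have h6 := pair_set (κ' := κ') (b := b) (H := H) (X := X) (Y := k) hF hU hC hT.le hβ0.le hβ4 hV0 hV2 hE₀ hEE hJ
          ((Real.one_le_exp (Nat.cast_nonneg _)).trans (hsep X hi k hk.2 fun h => hk.1 h.symm)) hXT'
          (hAH _ (hy X hi) _ (hy k hk.2))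
        rw [← hD, ← hG, ← hP] at h6
        exact h6
      refine (Finset.sum_le_sum h4).trans ?_
      rw [← Finset.mul_sum, Finset.sum_add_distrib, ← Finset.mul_sum, Finset.sum_const, nsmul_eq_mul]
      have h5 : (((S.erase X).card : ℕ) : ℝ) ≤ S.card := by
        have := Finset.card_erase_le (s := S) (a := X)
        exact_mod_cast this
      have h7 := hz X hi
      calc D * (T * G) * (Real.exp (V ^ 2) * ∑ k ∈ S.erase X, (|X - k| * E) ^ (-(V ^ 2)) +
            ((S.erase X).card : ℕ) * P) ≤ D * (T * G) * (Real.exp (V ^ 2) * z + S.card * P) := by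
            apply mul_le_mul_of_nonneg_left _ (by positivity)
            exact add_le_add (mul_le_mul_of_nonneg_left h7 (Real.exp_pos _).le) (mul_le_mul_of_nonneg_right h5 hP0)
        _ = (D * (Real.exp (V ^ 2) * z) + D * (S.card * P)) * (T * G) := by ring
        _ ≤ (η + η) * (T * G) := mul_le_mul_of_nonneg_right (add_le_add h2 h3) (by positivity)
        _ = _ := by ring
    -- the main term
    have b3 : 8 * (η * G) ≤ Q := by
      have h4 := (hF E β 0 X 0 (by simpa using hEE) hβ0.le hβ4 (by simp)).1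
      rw [← hG] at h4
      calc 8 * (η * G) = c₀ * (Real.exp (-Cv) * G) := by rw [hη]; ring
        _ ≤ c₀ * VV E (aw β X) (fun _ => 0) := mul_le_mul_of_nonneg_left h4 hc₀.le
        _ ≤ Q := q1
    have b4 : 8 * (η * (T * G)) ≤ T * Q := by
      calc 8 * (η * (T * G)) = T * (8 * (η * G)) := by ring
        _ ≤ _ := mul_le_mul_of_nonneg_left b3 hT.le
    linarith
  -- the sum
  have cM : Continuous fun t => MA A t ^ β := (MA_cont hA).rpow_const fun _ => Or.inr hβ0.le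
  have cpsi : ∀ i : ℝ, Continuous fun t => fz β (t + i) * psiS E κ' b V S j₀ J i t := by
    intro i
    unfold psiS
    exact (hfc _).mul (continuous_const.sub ((oW_cont _ _ _ _ _ _ _).add ((continuous_finsetSum _ fun k _ => kW_cont _ _ _ _ _ _).add (pW_cont _ _ _ _))))
  calc S.card * (4 * η * (T * G)) = ∑ i ∈ S, 4 * η * (T * G) := by rw [Finset.sum_const, nsmul_eq_mul]
    _ ≤ ∑ i ∈ S, ∫ t in T..(2 * T), fz β (t + i) * psiS E κ' b V S j₀ J i t :=
        Finset.sum_le_sum fun i hi => hone i hi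
    _ = ∫ t in T..(2 * T), ∑ i ∈ S, fz β (t + i) * psiS E κ' b V S j₀ J i t :=
        (intervalIntegral.integral_finsetSum fun i _ => (cpsi i).intervalIntegrable _ _).symm
    _ ≤ _ := by
        refine intervalIntegral.integral_mono_on (by linarith) ((continuous_finsetSum _ fun i _ => cpsi i).intervalIntegrable _ _)
          (cM.intervalIntegrable _ _) fun t _ => ?_
        exact psiS_sum_le hE1 hκ hβ0.le hb hb1 hV0 hV2 hJ0 hJB hA hy hsep

end

end Pool.Agent.H469.F4
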