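import Pool.Agent.H469.F4.U1

set_option autoImplicit false

/-!
# Maxima over arbitrary compact sets: separated sets
-/

namespace Pool.Agent.H469.F4

open Filter Topology

noncomputable section

/-- points with mutual distances at least `r` -/
def Sep (r : ℝ) (S : Finset ℝ) : Prop := ∀ x ∈ S, ∀ y ∈ S, x ≠ y → r ≤ |x - y|

theorem Sep.mono {r r' : ℝ} {S S' : Finset ℝ} (h : Sep r S) (hr : r' ≤ r) (hS : S' ⊆ S) : Sep r' S' :=
  fun x hx y hy hxy => hr.trans (h x (hS hx) y (hS hy) hxy)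

/-- regularity: at most `D (R/r)^d` separated points in an interval of radius `R ≤ 1` -/
def Rg (d D r : ℝ) (A : Set ℝ) : Prop := ∀ S : Finset ℝ, (∀ x ∈ S, x ∈ A) → Sep r S → ∀ x ∈ S, ∀ R : ℝ, r ≤ R → R ≤ 1 →
  ((S.filter fun y => |y - x| ≤ R).card : ℝ) ≤ D * (R / r) ^ d

/-- separated points in an interval -/
theorem card_sep {r a b : ℝ} (hr : 0 < r) (hab : a ≤ b) {S : Finset ℝ} (hS : Sep r S) (h : ∀ x ∈ S, a ≤ x ∧ x ≤ b) : (S.card : ℝ) ≤ (b - a) / r + 1 := by
  have h1 : S.card ≤ (Finset.range (⌊(b - a) / r⌋₊ + 1)).card := by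
    apply Finset.card_le_card_of_injOn (fun x => ⌊(x - a) / r⌋₊)
    · intro x hx
      obtain ⟨h2, h3⟩ := h x hx
      rw [Finset.mem_coe, Finset.mem_range, Nat.lt_succ_iff]
      apply Nat.floor_mono
      exact div_le_div_of_nonneg_right (by linarith) hr.le
    · intro x hx y hy hxy
      by_contra hne
      have h2 := hS x hx y hy hne
      obtain ⟨h3, -⟩ := h x hx
      obtain ⟨h4, -⟩ := h y hy
      have h5 : ⌊(x - a) / r⌋₊ = ⌊(y - a) / r⌋₊ := hxy
      have hx0 : 0 ≤ (x - a) / r := div_nonneg (by linarith) hr.le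
      have hy0 : 0 ≤ (y - a) / r := div_nonneg (by linarith) hr.le
      have f1 := Nat.floor_le hx0
      have f2 := Nat.lt_floor_add_one ((x - a) / r)
      have f3 := Nat.floor_le hy0
      have f4 := Nat.lt_floor_add_one ((y - a) / r)
      rw [h5] at f1 f2
      have h6 : |(x - a) / r - (y - a) / r| < 1 := by
        rw [abs_lt]
        constructor <;> linarith
      have h7 : (x - a) / r - (y - a) / r = (x - y) / r := by ring
      rw [h7, abs_div, abs_of_pos hr, div_lt_one hr] at h6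
      linarith
  rw [Finset.card_range] at h1
  have h2 : (S.card : ℝ) ≤ (⌊(b - a) / r⌋₊ : ℝ) + 1 := by exact_mod_cast h1
  have h3 : 0 ≤ (b - a) / r := div_nonneg (by linarith) hr.le
  linarith [Nat.floor_le h3]

/-- every set is regular of exponent one -/
theorem Rg_one {r : ℝ} (hr : 0 < r) (A : Set ℝ) : Rg 1 3 r A := by
  intro S _ hS x _ R hR _
  have h1 := card_sep (r := r) (a := x - R) (b := x + R) hr (by linarith) (S := S.filter fun y => |y - x| ≤ R)
    (hS.mono le_rfl (Finset.filter_subset _ _)) (by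
      intro y hy
      have h2 := abs_le.1 (Finset.mem_filter.1 hy).2
      constructor <;> linarith)
  rw [Real.rpow_one]
  have h2 : x + R - (x - R) = 2 * R := by ring
  rw [h2] at h1
  have h3 : 1 ≤ R / r := (one_le_div hr).2 hR
  have h4 : 2 * R / r = 2 * (R / r) := by ring
  rw [h4] at h1
  linarith

/-- thinning -/
theorem thin {d D r K : ℝ} {A : Set ℝ} (hr : 0 < r) (hK : 1 ≤ K) (hKr : K * r ≤ 1) (hR : Rg d D r A) {S : Finset ℝ}
    (hS : ∀ x ∈ S, x ∈ A) (hsep : Sep r S) : ∃ U : Finset ℝ, U ⊆ S ∧ Sep (K * r) U ∧ (S.card : ℝ) ≤ D * K ^ d * U.card := by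
  classical
  obtain ⟨U, hU, hmax⟩ := Finset.exists_max_image (S.powerset.filter fun U => Sep (K * r) U) (fun U => U.card)
    ⟨∅, by
      rw [Finset.mem_filter]
      exact ⟨Finset.empty_mem_powerset _, fun x hx => absurd hx (Finset.notMem_empty x)⟩⟩
  rw [Finset.mem_filter, Finset.mem_powerset] at hU
  obtain ⟨hUS, hUsep⟩ := hU
  have hKr0 : 0 < K * r := by positivity
  have hcov : ∀ x ∈ S, ∃ u ∈ U, |x - u| ≤ K * r := by
    intro x hx
    by_contra hcon
    push Not at hcon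
    have hxU : x ∉ U := by
      intro h
      have := hcon x h
      rw [sub_self, abs_zero] at this
      linarith
    have h1 := hmax (insert x U) (by
      rw [Finset.mem_filter, Finset.mem_powerset]
      refine ⟨Finset.insert_subset hx hUS, ?_⟩
      intro y hy z hz hyz
      rw [Finset.mem_insert] at hy hz
      rcases hy with rfl | hy
      · rcases hz with rfl | hz
        · exact absurd rfl hyz
        · exact (hcon z hz).le
      · rcases hz with rfl | hz
        · rw [abs_sub_comm]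
          exact (hcon y hy).le
        · exact hUsep y hy z hz hyz)
    have h2 : (insert x U).card ≤ U.card := h1
    rw [Finset.card_insert_of_notMem hxU] at h2
    omega
  refine ⟨U, hUS, hUsep, ?_⟩
  have h1 : S ⊆ U.biUnion fun u => S.filter fun y => |y - u| ≤ K * r := by
    intro x hx
    obtain ⟨u, hu, h⟩ := hcov x hx
    rw [Finset.mem_biUnion]
    exact ⟨u, hu, Finset.mem_filter.2 ⟨hx, h⟩⟩
  have h2 : (S.card : ℝ) ≤ ∑ u ∈ U, ((S.filter fun y => |y - u| ≤ K * r).card : ℝ) := by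
    have h3 := (Finset.card_le_card h1).trans Finset.card_biUnion_le
    exact_mod_cast h3
  refine h2.trans ?_
  have h3 : ∀ u ∈ U, ((S.filter fun y => |y - u| ≤ K * r).card : ℝ) ≤ D * K ^ d := by
    intro u hu
    have h4 := hR S hS hsep u (hUS hu) (K * r) (by nlinarith) hKr
    have h5 : K * r / r = K := by field_simp
    rw [h5] at h4
    exact h4
  refine (Finset.sum_le_sum h3).trans (le_of_eq ?_)
  rw [Finset.sum_const, nsmul_eq_mul]
  ring

/-- the sum over the shells -/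
theorem sum_shell {d D r δ K s : ℝ} {A : Set ℝ} (hr : 0 < r) (hr1 : r ≤ 1) (hδ : 0 < δ) (hδ1 : δ ≤ 1) (hd : 0 ≤ d) (hds : d < s) (hD : 0 ≤ D) (hK : 1 ≤ K)
    (hR : Rg d D r A) {U : Finset ℝ} (hU : ∀ x ∈ U, x ∈ A) (hsep : Sep r U) {x : ℝ} (hx : x ∈ U)
    (hfar : ∀ y ∈ U.erase x, K ≤ |x - y| * (δ / r)) :
    ∑ y ∈ U.erase x, (|x - y| * (δ / r)) ^ (-s) ≤ D * (2 / δ) ^ d * K ^ (d - s) * (1 - 2 ^ (d - s))⁻¹ + U.card * (δ / r) ^ (-s) := by
  classical
  have hs0 : 0 < s := by linarith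
  have hE0 : 0 < δ / r := by positivity
  obtain ⟨E, hE⟩ : ∃ E : ℝ, E = δ / r := ⟨_, rfl⟩
  rw [← hE] at hfar hE0 ⊢
  have hK0 : 0 < K := by linarith
  obtain ⟨M, hM⟩ := pow_unbounded_of_one_lt (E / K) (by norm_num : (1 : ℝ) < 2)
  -- near and far points
  have hsplit : ∀ y ∈ U.erase x, (|x - y| * E) ^ (-s) ≤
      (∑ l ∈ Finset.range M, if |y - x| ≤ 1 ∧ |x - y| * E < K * 2 ^ (l + 1) then (K * 2 ^ l) ^ (-s) else 0) + E ^ (-s) := by
    intro y hy
    have h1 := hfar y hy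
    obtain ⟨m, hm⟩ : ∃ m : ℝ, m = |x - y| * E := ⟨_, rfl⟩
    rw [← hm] at h1 ⊢
    have hm0 : 0 < m := by linarith
    have hsum0 : 0 ≤ ∑ l ∈ Finset.range M, if |y - x| ≤ 1 ∧ m < K * 2 ^ (l + 1) then (K * 2 ^ l : ℝ) ^ (-s) else 0 :=
      Finset.sum_nonneg fun l _ => by
        split_ifs
        · positivity
        · exact le_rfl
    rcases le_or_gt |x - y| 1 with h2 | h2
    · have h3 : 1 ≤ m / K := (one_le_div hK0).2 h1
      obtain ⟨l, hl1, hl2⟩ := exists_nat_pow_near h3 (by norm_num : (1 : ℝ) < 2)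
      rw [le_div_iff₀ hK0] at hl1
      rw [div_lt_iff₀ hK0] at hl2
      have hmE : m ≤ E := by
        rw [hm]
        exact mul_le_of_le_one_left hE0.le h2
      have hlM : l < M := by
        by_contra hcon
        push Not at hcon
        have h4 : (2 : ℝ) ^ M ≤ 2 ^ l := pow_le_pow_right₀ (by norm_num) hcon
        rw [div_lt_iff₀ hK0] at hM
        have h5 : (2 : ℝ) ^ M * K ≤ 2 ^ l * K := mul_le_mul_of_nonneg_right h4 hK0.le
        linarith
      have h4 := Finset.single_le_sum (f := fun l => if |y - x| ≤ 1 ∧ m < K * 2 ^ (l + 1) then (K * 2 ^ l : ℝ) ^ (-s) else 0)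
        (fun l _ => by
          show 0 ≤ if |y - x| ≤ 1 ∧ m < K * 2 ^ (l + 1) then (K * 2 ^ l : ℝ) ^ (-s) else 0
          split_ifs
          · positivity
          · exact le_rfl) (Finset.mem_range.2 hlM)
      have h5 : (if |y - x| ≤ 1 ∧ m < K * 2 ^ (l + 1) then (K * 2 ^ l : ℝ) ^ (-s) else 0) = (K * 2 ^ l) ^ (-s) := by
        rw [if_pos]
        refine ⟨by rw [abs_sub_comm]; exact h2, by linarith⟩
      have h6 : m ^ (-s) ≤ (K * 2 ^ l) ^ (-s) := Real.rpow_le_rpow_of_nonpos (by positivity) (by linarith) (by linarith)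
      have h7 : 0 ≤ E ^ (-s) := Real.rpow_nonneg hE0.le _
      have h8 : (if |y - x| ≤ 1 ∧ m < K * 2 ^ (l + 1) then (K * 2 ^ l : ℝ) ^ (-s) else 0) ≤
        ∑ l ∈ Finset.range M, if |y - x| ≤ 1 ∧ m < K * 2 ^ (l + 1) then (K * 2 ^ l : ℝ) ^ (-s) else 0 := h4
      rw [h5] at h8
      linarith
    · have h3 : m ^ (-s) ≤ E ^ (-s) := by
        apply Real.rpow_le_rpow_of_nonpos hE0 _ (by linarith)
        rw [hm]
        exact le_mul_of_one_le_left hE0.le h2.le
      linarith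
  refine (Finset.sum_le_sum hsplit).trans ?_
  rw [Finset.sum_add_distrib, Finset.sum_comm, Finset.sum_const, nsmul_eq_mul]
  have hcard : (((U.erase x).card : ℕ) : ℝ) ≤ U.card := by exact_mod_cast Finset.card_erase_le
  have hfarpart : ((U.erase x).card : ℝ) * E ^ (-s) ≤ U.card * E ^ (-s) := mul_le_mul_of_nonneg_right hcard (Real.rpow_nonneg hE0.le _)
  -- the shells
  have hshell : ∀ l : ℕ, ∑ y ∈ U.erase x, (if |y - x| ≤ 1 ∧ |x - y| * E < K * 2 ^ (l + 1) then (K * 2 ^ l : ℝ) ^ (-s) else 0) ≤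
      D * (2 / δ) ^ d * K ^ (d - s) * (2 ^ (d - s)) ^ l := by
    intro l
    rw [← Finset.sum_filter, Finset.sum_const, nsmul_eq_mul]
    obtain ⟨R, hRd⟩ : ∃ R : ℝ, R = min 1 (K * 2 ^ (l + 1) / E) := ⟨_, rfl⟩
    have h2l : (1 : ℝ) ≤ 2 ^ (l + 1) := one_le_pow₀ (by norm_num)
    have hEr : E * r = δ := by rw [hE]; field_simp
    have hrR : r ≤ R := by
      rw [hRd]
      apply le_min hr1
      rw [le_div_iff₀ hE0]
      nlinarith
    have hR1 : R ≤ 1 := by rw [hRd]; exact min_le_left _ _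
    have h1 : (((U.erase x).filter fun y => |y - x| ≤ 1 ∧ |x - y| * E < K * 2 ^ (l + 1)).card : ℝ) ≤ D * (R / r) ^ d := by
      have h2 : ((U.erase x).filter fun y => |y - x| ≤ 1 ∧ |x - y| * E < K * 2 ^ (l + 1)) ⊆ U.filter fun y => |y - x| ≤ R := by
        intro y hy
        rw [Finset.mem_filter] at hy ⊢
        refine ⟨Finset.mem_of_mem_erase hy.1, ?_⟩
        rw [hRd]
        apply le_min hy.2.1
        rw [le_div_iff₀ hE0, abs_sub_comm]
        exact hy.2.2.le
      have h3 : (((U.erase x).filter fun y => |y - x| ≤ 1 ∧ |x - y| * E < K * 2 ^ (l + 1)).card : ℝ) ≤ ((U.filter fun y => |y - x| ≤ R).card : ℝ) := by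
        exact_mod_cast Finset.card_le_card h2
      exact h3.trans (hR U hU hsep x hx R hrR hR1)
    have h4 : R / r ≤ K * 2 ^ (l + 1) / δ := by
      have h5 : R ≤ K * 2 ^ (l + 1) / E := by rw [hRd]; exact min_le_right _ _
      rw [div_le_iff₀ hr]
      refine h5.trans (le_of_eq ?_)
      rw [← hEr]
      field_simp
    have hRr : 0 ≤ R / r := div_nonneg (by linarith) hr.le
    have h5 : (R / r) ^ d ≤ (K * 2 ^ (l + 1) / δ) ^ d := Real.rpow_le_rpow hRr h4 hd
    have h6 : (K * 2 ^ (l + 1) / δ) ^ d * (K * 2 ^ l) ^ (-s) = (2 / δ) ^ d * K ^ (d - s) * (2 ^ (d - s)) ^ l := by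
      have e1 : K * 2 ^ (l + 1) / δ = 2 / δ * (K * 2 ^ l) := by rw [pow_succ]; ring
      have e2 : (0 : ℝ) < K * 2 ^ l := by positivity
      rw [e1, Real.mul_rpow (by positivity) e2.le, mul_assoc, ← Real.rpow_add e2, Real.mul_rpow hK0.le (by positivity), ← sub_eq_add_neg]
      have e3 : ((2 : ℝ) ^ l) ^ (d - s) = (2 ^ (d - s)) ^ l := by
        rw [← Real.rpow_natCast, ← Real.rpow_natCast, ← Real.rpow_mul (by norm_num), ← Real.rpow_mul (by norm_num), mul_comm]
      rw [e3]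
      ring
    calc (((U.erase x).filter fun y => |y - x| ≤ 1 ∧ |x - y| * E < K * 2 ^ (l + 1)).card : ℝ) * (K * 2 ^ l) ^ (-s) ≤
          D * (K * 2 ^ (l + 1) / δ) ^ d * (K * 2 ^ l) ^ (-s) := by
          apply mul_le_mul_of_nonneg_right _ (by positivity)
          exact h1.trans (mul_le_mul_of_nonneg_left h5 hD)
      _ = D * ((K * 2 ^ (l + 1) / δ) ^ d * (K * 2 ^ l) ^ (-s)) := by ring
      _ = _ := by rw [h6]; ring
  have hq0 : (0 : ℝ) ≤ 2 ^ (d - s) := by positivity
  have hq1 : (2 : ℝ) ^ (d - s) < 1 := Real.rpow_lt_one_of_one_lt_of_neg (by norm_num) (by linarith)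
  have hgeo : ∑ l ∈ Finset.range M, ((2 : ℝ) ^ (d - s)) ^ l ≤ (1 - 2 ^ (d - s))⁻¹ := by
    rw [← tsum_geometric_of_lt_one hq0 hq1]
    exact (summable_geometric_of_lt_one hq0 hq1).sum_le_tsum _ fun l _ => by positivity
  have hsum : ∑ l ∈ Finset.range M, ∑ y ∈ U.erase x, (if |y - x| ≤ 1 ∧ |x - y| * E < K * 2 ^ (l + 1) then (K * 2 ^ l : ℝ) ^ (-s) else 0) ≤
      D * (2 / δ) ^ d * K ^ (d - s) * (1 - 2 ^ (d - s))⁻¹ := by
    refine (Finset.sum_le_sum fun l _ => hshell l).trans ?_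
    rw [← Finset.mul_sum]
    exact mul_le_mul_of_nonneg_left hgeo (by positivity)
  linarith

end

end Pool.Agent.H469.F4
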