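import Pool.Agent.H469.F4.U3

set_option autoImplicit false

/-!
# Maxima over arbitrary compact sets: upper bound and exact order
-/

namespace Pool.Agent.H469.F4

open Filter Topology MeasureTheory Complex Pool.Agent.Q97.UM

noncomputable section

/-- the largest number of points of `A` with mutual distances at least `r` -/
def nsep (r : ℝ) (A : Set ℝ) : ℕ := sSup {m : ℕ | ∃ S : Finset ℝ, (∀ x ∈ S, x ∈ A) ∧ Sep r S ∧ S.card = m}

theorem nsep_bdd {r R : ℝ} {A : Set ℝ} (hr : 0 < r) (hR : 0 ≤ R) (hA : ∀ x ∈ A, |x| ≤ R) :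
    BddAbove {m : ℕ | ∃ S : Finset ℝ, (∀ x ∈ S, x ∈ A) ∧ Sep r S ∧ S.card = m} := by
  refine ⟨⌈(R - (-R)) / r + 1⌉₊, ?_⟩
  rintro m ⟨S, hS, hsep, rfl⟩
  have h1 := card_sep (a := -R) (b := R) hr (by linarith) hsep fun x hx => abs_le.1 (hA x (hS x hx))
  have h2 := h1.trans (Nat.le_ceil _)
  exact_mod_cast h2

theorem nsep_spec {r R : ℝ} {A : Set ℝ} (hr : 0 < r) (hR : 0 ≤ R) (hA : ∀ x ∈ A, |x| ≤ R) :
    (∃ S : Finset ℝ, (∀ x ∈ S, x ∈ A) ∧ Sep r S ∧ S.card = nsep r A) ∧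
    ∀ S : Finset ℝ, (∀ x ∈ S, x ∈ A) → Sep r S → S.card ≤ nsep r A := by
  have hb := nsep_bdd hr hR hA
  refine ⟨?_, fun S hS hsep => le_csSup hb ⟨S, hS, hsep, rfl⟩⟩
  have hne : {m : ℕ | ∃ S : Finset ℝ, (∀ x ∈ S, x ∈ A) ∧ Sep r S ∧ S.card = m}.Nonempty :=
    ⟨0, ∅, fun x hx => absurd hx (Finset.notMem_empty x), fun x hx => absurd hx (Finset.notMem_empty x), rfl⟩
  exact Nat.sSup_mem hne hb

theorem nsep_pos {r R : ℝ} {A : Set ℝ} (hr : 0 < r) (hR : 0 ≤ R) (hA : ∀ x ∈ A, |x| ≤ R) (hne : A.Nonempty) : 1 ≤ nsep r A := by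
  obtain ⟨a, ha⟩ := hne
  have h1 := (nsep_spec hr hR hA).2 {a} (fun x hx => by rw [Finset.mem_singleton] at hx; rw [hx]; exact ha)
    (fun x hx y hy hxy => by
      rw [Finset.mem_singleton] at hx hy
      exact absurd (hx.trans hy.symm) hxy)
  rwa [Finset.card_singleton] at h1

/-- a maximal separated set is a net -/
theorem nsep_cover {r R : ℝ} {A : Set ℝ} (hr : 0 < r) (hR : 0 ≤ R) (hA : ∀ x ∈ A, |x| ≤ R) {S : Finset ℝ} (hS : ∀ x ∈ S, x ∈ A) (hsep : Sep r S)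
    (hcard : S.card = nsep r A) : ∀ h ∈ A, ∃ x ∈ S, |h - x| ≤ r := by
  classical
  intro h hh
  by_contra hcon
  push Not at hcon
  have hhS : h ∉ S := by
    intro hx
    have := hcon h hx
    rw [sub_self, abs_zero] at this
    linarith
  have h1 := (nsep_spec hr hR hA).2 (insert h S) (by
    intro x hx
    rw [Finset.mem_insert] at hx
    rcases hx with rfl | hx
    · exact hh
    · exact hS x hx) (by
    intro y hy z hz hyz
    rw [Finset.mem_insert] at hy hz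
    rcases hy with rfl | hy
    · rcases hz with rfl | hz
      · exact absurd rfl hyz
      · exact (hcon z hz).le
    · rcases hz with rfl | hz
      · rw [abs_sub_comm]
        exact (hcon y hy).le
      · exact hsep y hy z hz hyz)
  rw [Finset.card_insert_of_notMem hhS, hcard] at h1
  omega

/-- **upper bound** -/
theorem set_upper {β : ℝ} (hβ0 : 0 < β) (hβ4 : β ≤ 4) : ∃ C : ℝ, 0 < C ∧ ∀ᶠ T : ℝ in atTop, ∀ A : Set ℝ, IsCompact A → A.Nonempty →
    (∀ h ∈ A, |h| ≤ T / 16) → ∀ S : Finset ℝ, (∀ x ∈ S, x ∈ A) → (∀ h ∈ A, ∃ x ∈ S, |h - x| ≤ 1 / Real.log T) →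
      ∫ t in T..(2 * T), MA A t ^ β ≤ C * T * (S.card * Real.log T ^ (β ^ 2 / 4)) := by
  obtain ⟨C, hC, h⟩ := micro_upper hβ0 hβ4
  refine ⟨2 * C, by positivity, ?_⟩
  filter_upwards [h, eventually_ge_atTop (32 : ℝ), Real.tendsto_log_atTop.eventually_ge_atTop 1] with T hT hT32 hL1 A hA hne hAT S hSA hcov
  have hT0 : 0 < T := by linarith
  have hL0 : 0 < Real.log T := by linarith
  obtain ⟨L, hL⟩ : ∃ L : ℝ, L = Real.log T := ⟨_, rfl⟩
  rw [← hL] at hT hL1 hL0 hcov ⊢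
  have hd0 : 0 < 1 / L := by positivity
  have hd1 : 1 / L ≤ 1 := by rw [div_le_one hL0]; exact hL1
  have hcM : ∀ x, Continuous fun t => MH (1 / L) x t ^ β := fun x => (MH_cont _ x).rpow_const fun _ => Or.inr hβ0.le
  have hM0 : ∀ x t, 0 ≤ MH (1 / L) x t ^ β := fun x t => Real.rpow_nonneg (MH_nonneg hd0.le x t) _
  have hpt : ∀ t, MA A t ^ β ≤ ∑ x ∈ S, (MH (1 / L) (x - 1 / L) t ^ β + MH (1 / L) x t ^ β) := by
    intro t
    obtain ⟨h, hh, he⟩ := ex_MA hA hne t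
    obtain ⟨x, hx, hhx⟩ := hcov h hh
    rw [abs_le] at hhx
    have h1 : MA A t ^ β ≤ MH (1 / L) (x - 1 / L) t ^ β + MH (1 / L) x t ^ β := by
      rw [he]
      rcases le_total h x with h2 | h2
      · have h3 := le_MH (H := 1 / L) (x := x - 1 / L) (t := t) (h := h) ⟨by linarith, by linarith⟩
        have h4 := Real.rpow_le_rpow (norm_nonneg _) h3 hβ0.le
        linarith [hM0 x t]
      · have h3 := le_MH (H := 1 / L) (x := x) (t := t) (h := h) ⟨h2, by linarith⟩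
        have h4 := Real.rpow_le_rpow (norm_nonneg _) h3 hβ0.le
        linarith [hM0 (x - 1 / L) t]
    exact h1.trans (Finset.single_le_sum (f := fun x => MH (1 / L) (x - 1 / L) t ^ β + MH (1 / L) x t ^ β)
      (fun x _ => add_nonneg (hM0 _ _) (hM0 _ _)) hx)
  have c1 : ∀ x, Continuous fun t => MH (1 / L) (x - 1 / L) t ^ β + MH (1 / L) x t ^ β := fun x => (hcM _).add (hcM _)
  refine (intervalIntegral.integral_mono_on (by linarith) (((MA_cont hA).rpow_const fun _ => Or.inr hβ0.le).intervalIntegrable _ _)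
    ((continuous_finsetSum _ fun x _ => c1 x).intervalIntegrable _ _) fun t _ => hpt t).trans ?_
  rw [intervalIntegral.integral_finsetSum fun x _ => (c1 x).intervalIntegrable _ _]
  have h1 : ∀ x ∈ S, ∫ t in T..(2 * T), (MH (1 / L) (x - 1 / L) t ^ β + MH (1 / L) x t ^ β) ≤ 2 * (C * T * L ^ (β ^ 2 / 4)) := by
    intro x hx
    have hxT := abs_le.1 (hAT x (hSA x hx))
    rw [intervalIntegral.integral_add ((hcM _).intervalIntegrable _ _) ((hcM _).intervalIntegrable _ _)]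
    have h2 := hT (x - 1 / L) (by
      rw [abs_le]
      constructor <;> linarith)
    have h3 := hT x (by
      rw [abs_le]
      constructor <;> linarith)
    linarith
  refine (Finset.sum_le_sum h1).trans (le_of_eq ?_)
  rw [Finset.sum_const, nsmul_eq_mul]
  ring

/-- **exact order over sets** -/
theorem set_order {β ε d D B : ℝ} (hβ0 : 0 < β) (hβ4 : β ≤ 4) (hd0 : 0 ≤ d) (hd : d < β ^ 2 / 4) (hD1 : 1 ≤ D) (hB : 0 ≤ B) (hε : 0 < ε) :
    ∃ c C : ℝ, 0 < c ∧ 0 < C ∧ ∀ᶠ T : ℝ in atTop, ∀ A : Set ℝ, IsCompact A → A.Nonempty → (∀ h ∈ A, |h| ≤ Real.log T ^ B) →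
      ∫ t in T..(2 * T), MA A t ^ β ≤ C * T * (nsep (1 / Real.log T) A * Real.log T ^ (β ^ 2 / 4)) ∧
      (Rg d D (1 / Real.log T) A → (nsep (1 / Real.log T) A : ℝ) ≤ Real.log T ^ (β ^ 2 / 4 - ε) →
        c * T * (nsep (1 / Real.log T) A * Real.log T ^ (β ^ 2 / 4)) ≤ ∫ t in T..(2 * T), MA A t ^ β) := by
  obtain ⟨c, hc, h1⟩ := set_lower hβ0 hβ4 hd0 hd hD1 hB hε
  obtain ⟨C, hC, h2⟩ := set_upper hβ0 hβ4
  refine ⟨c, C, hc, hC, ?_⟩
  filter_upwards [h1, h2, pow_len B, Real.tendsto_log_atTop.eventually_ge_atTop 1] with T h1 h2 hlen hL1 A hA hne hAB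
  have hr : 0 < 1 / Real.log T := by positivity
  have hR : 0 ≤ Real.log T ^ B := by positivity
  obtain ⟨⟨S, hSA, hSsep, hScard⟩, -⟩ := nsep_spec hr hR hAB
  refine ⟨?_, fun hReg hN => ?_⟩
  · have := h2 A hA hne (fun h hh => (hAB h hh).trans hlen) S hSA (nsep_cover hr hR hAB hSA hSsep hScard)
    rwa [hScard] at this
  · have := h1 A hA hAB hReg S hSA hSsep (by rw [hScard]; exact hN)
    rwa [hScard] at this

end

end Pool.Agent.H469.F4
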