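import Pool.Agent.H469.F4.U4
import Pool.Agent.H469.F4.R3

set_option autoImplicit false

/-!
# From moments to frozen moments and large deviations
-/

namespace Pool.Agent.H469.F4

open Filter Topology MeasureTheory Complex Pool.Agent.Q97.UM

noncomputable section

/-- the moments of a function -/
def mm (X : ℝ → ℝ) (b T : ℝ) : ℝ := T⁻¹ * ∫ t in T..(2 * T), X t ^ b

/-- the exponent of the moment is `f` -/
def BdX (X : ℝ → ℝ) (b f : ℝ) : Prop := ∀ δ : ℝ, 0 < δ → ∀ᶠ T : ℝ in atTop, Real.log T ^ (f - δ) ≤ mm X b T ∧ mm X b T ≤ Real.log T ^ (f + δ)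

/-- the proportion of the points with a large value -/
def pp (X : ℝ → ℝ) (V T : ℝ) : ℝ := T⁻¹ * (volume {t : ℝ | t ∈ Set.Icc T (2 * T) ∧ V < X t}).toReal

/-- upper bound for the frozen moments -/
theorem froz_up {X : ℝ → ℝ} (hXc : Continuous X) (hX0 : ∀ t, 0 ≤ X t) {s β : ℝ} (hs : 0 < s) (hs1 : s ≤ 1) (hβ0 : 0 < β) (hβ : β ≤ 2 * s)
    (h : ∀ b : ℝ, 2 * s < b → b ≤ 4 → BdX X b (s ^ 2 + b ^ 2 / 4)) {η : ℝ} (hη : 0 < η) : ∀ᶠ T : ℝ in atTop, mm X β T ≤ Real.log T ^ (β * s + η) := by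
  obtain ⟨ρ, hρ⟩ : ∃ ρ : ℝ, ρ = min 1 (η / 4) := ⟨_, rfl⟩
  have hρ0 : 0 < ρ := by rw [hρ]; exact lt_min one_pos (by linarith)
  have hρ1 : ρ ≤ 1 := by rw [hρ]; exact min_le_left _ _
  have hρη : ρ ≤ η / 4 := by rw [hρ]; exact min_le_right _ _
  obtain ⟨b, hb⟩ : ∃ b : ℝ, b = 2 * s + ρ := ⟨_, rfl⟩
  have hb0 : 0 < b := by rw [hb]; linarith
  obtain ⟨ϑ, hϑ⟩ : ∃ ϑ : ℝ, ϑ = β / b := ⟨_, rfl⟩
  have hϑ0 : 0 < ϑ := by rw [hϑ]; exact div_pos hβ0 hb0
  have hϑ1 : ϑ ≤ 1 := by rw [hϑ, div_le_one hb0, hb]; linarith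
  have hϑb : b * ϑ = β := by rw [hϑ]; field_simp
  filter_upwards [h b (by rw [hb]; linarith) (by rw [hb]; linarith) (η / 2) (by linarith), eventually_gt_atTop (0 : ℝ),
    Real.tendsto_log_atTop.eventually_ge_atTop 1] with T h1 hT0 hL1
  have hL0 : 0 < Real.log T := by linarith
  have h2 := h1.2
  unfold mm at h2 ⊢
  rw [inv_mul_le_iff₀ hT0] at h2 ⊢
  have h3 := hold (f := fun _ => (1 : ℝ)) (g := fun t => X t ^ b) continuous_const (hXc.rpow_const fun _ => Or.inr hb0.le) (fun _ => zero_le_one)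
    (fun t => Real.rpow_nonneg (hX0 t) _) (by linarith : T ≤ 2 * T) hϑ0.le hϑ1 (A := T) (B := T * Real.log T ^ (s ^ 2 + b ^ 2 / 4 + η / 2)) hT0
    (by positivity) (by simp; linarith) h2
  have e1 : ∀ t, (1 : ℝ) ^ (1 - ϑ) * (X t ^ b) ^ ϑ = X t ^ β := by
    intro t
    rw [Real.one_rpow, one_mul, ← Real.rpow_mul (hX0 t), hϑb]
  simp only [e1] at h3
  refine h3.trans ?_
  rw [Real.mul_rpow hT0.le (by positivity), ← mul_assoc, ← Real.rpow_add hT0]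
  have e2 : 1 - ϑ + ϑ = 1 := by ring
  rw [e2, Real.rpow_one, ← Real.rpow_mul hL0.le]
  apply mul_le_mul_of_nonneg_left _ hT0.le
  apply Real.rpow_le_rpow_of_exponent_le hL1
  have h4 : (s ^ 2 + b ^ 2 / 4) * ϑ ≤ β * s + η / 2 := by
    have h5 : s ^ 2 + b ^ 2 / 4 ≤ b * (s + ρ / 4) := by
      rw [hb]
      nlinarith
    have h6 : (s ^ 2 + b ^ 2 / 4) * ϑ ≤ b * (s + ρ / 4) * ϑ := mul_le_mul_of_nonneg_right h5 hϑ0.le
    have h7 : b * (s + ρ / 4) * ϑ = β * (s + ρ / 4) := by rw [← hϑb]; ring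
    rw [h7] at h6
    have h8 : β * (ρ / 4) ≤ 2 * (ρ / 4) := mul_le_mul_of_nonneg_right (by linarith) (by linarith)
    linarith
  have h9 : η / 2 * ϑ ≤ η / 2 := mul_le_of_le_one_right (by linarith) hϑ1
  linarith

/-- lower bound for the frozen moments -/
theorem froz_low {X : ℝ → ℝ} (hXc : Continuous X) (hX0 : ∀ t, 0 ≤ X t) {s β : ℝ} (hs : 0 < s) (hs1 : s ≤ 1) (hβ0 : 0 < β) (hβ : β ≤ 2 * s)
    (h : ∀ b : ℝ, 2 * s < b → b ≤ 4 → BdX X b (s ^ 2 + b ^ 2 / 4)) {η : ℝ} (hη : 0 < η) : ∀ᶠ T : ℝ in atTop, Real.log T ^ (β * s - η) ≤ mm X β T := by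
  obtain ⟨ρ, hρ⟩ : ∃ ρ : ℝ, ρ = min 1 (η / 4) := ⟨_, rfl⟩
  have hρ0 : 0 < ρ := by rw [hρ]; exact lt_min one_pos (by linarith)
  have hρ1 : ρ ≤ 1 := by rw [hρ]; exact min_le_left _ _
  have hρη : ρ ≤ η / 4 := by rw [hρ]; exact min_le_right _ _
  obtain ⟨δ, hδ⟩ : ∃ δ : ℝ, δ = ρ * η / 16 := ⟨_, rfl⟩
  have hδ0 : 0 < δ := by rw [hδ]; positivity
  obtain ⟨b, hb⟩ : ∃ b : ℝ, b = 2 * s + ρ := ⟨_, rfl⟩
  obtain ⟨b', hb'⟩ : ∃ b' : ℝ, b' = 2 * s + 2 * ρ := ⟨_, rfl⟩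
  have hb0 : 0 < b := by rw [hb]; linarith
  have hb'0 : 0 < b' := by rw [hb']; linarith
  have hbb : b < b' := by rw [hb, hb']; linarith
  have hβb : β < b := by rw [hb]; linarith
  obtain ⟨ϑ, hϑ⟩ : ∃ ϑ : ℝ, ϑ = (b - β) / (b' - β) := ⟨_, rfl⟩
  have hd : 0 < b' - β := by linarith
  have hϑ0 : 0 < ϑ := by rw [hϑ]; exact div_pos (by linarith) hd
  have hϑ1 : ϑ < 1 := by rw [hϑ, div_lt_one hd]; linarith
  have hϑb : b = β * (1 - ϑ) + b' * ϑ := by
    rw [hϑ]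
    field_simp
    ring
  obtain ⟨e, he⟩ : ∃ e : ℝ, e = s ^ 2 + β ^ 2 / 4 - (b - β) * (b' - β) / 4 - δ * (1 + ϑ) / (1 - ϑ) := ⟨_, rfl⟩
  have hkey : ϑ * (b' - β) = b - β := by
    rw [hϑ]
    field_simp
  have h1ϑ : (1 - ϑ) * (b' - β) = ρ := by
    rw [sub_mul, one_mul, hkey, hb, hb']
    ring
  have h1ϑ0 : 0 < 1 - ϑ := by linarith
  have heq : s ^ 2 + b ^ 2 / 4 - δ = (1 - ϑ) * e + ϑ * (s ^ 2 + b' ^ 2 / 4 + δ) := by
    have e3 : (b - β) * (b' - β) = ϑ * (b' - β) ^ 2 := by rw [← hkey]; ring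
    have e4 : (1 - ϑ) * (δ * (1 + ϑ) / (1 - ϑ)) = δ * (1 + ϑ) := by field_simp
    rw [he, mul_sub, e4, e3, hϑb]
    ring
  have hege : β * s - η ≤ e := by
    have h1 : δ * (1 + ϑ) / (1 - ϑ) ≤ η / 2 := by
      rw [div_le_iff₀ h1ϑ0]
      have h2 : b' - β ≤ 4 := by rw [hb']; linarith
      have h3 : ρ ≤ (1 - ϑ) * 4 := by
        rw [← h1ϑ]
        exact mul_le_mul_of_nonneg_left h2 h1ϑ0.le
      have h4 : δ * (1 + ϑ) ≤ δ * 2 := mul_le_mul_of_nonneg_left (by linarith) hδ0.le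
      have h5 : δ * 2 = ρ * (η / 8) := by rw [hδ]; ring
      have h6 : ρ * (η / 8) ≤ (1 - ϑ) * 4 * (η / 8) := mul_le_mul_of_nonneg_right h3 (by linarith)
      linarith
    have h7 : (b - β) * (b' - β) / 4 ≤ (2 * s - β) ^ 2 / 4 + 2 * ρ := by
      rw [hb, hb']
      have h8 : 0 ≤ 2 * s - β := by linarith
      have h9 : 2 * s - β ≤ 2 := by linarith
      nlinarith
    rw [he]
    nlinarith
  filter_upwards [h b (by rw [hb]; linarith) (by rw [hb]; linarith) δ hδ0, h b' (by rw [hb']; linarith) (by rw [hb']; linarith) δ hδ0,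
    eventually_gt_atTop (0 : ℝ), Real.tendsto_log_atTop.eventually_ge_atTop 1] with T g1 g2 hT0 hL1
  have hL0 : 0 < Real.log T := by linarith
  have g1 := g1.1
  have g2 := g2.2
  unfold mm at g1 g2 ⊢
  rw [le_inv_mul_iff₀ hT0] at g1 ⊢
  rw [inv_mul_le_iff₀ hT0] at g2
  have cM : ∀ p : ℝ, 0 < p → Continuous fun t => X t ^ p := fun p hp => hXc.rpow_const fun _ => Or.inr hp.le
  have hM0 : ∀ (p : ℝ) (t : ℝ), 0 ≤ X t ^ p := fun p t => Real.rpow_nonneg (hX0 t) _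
  obtain ⟨A, hA⟩ : ∃ A : ℝ, A = ∫ t in T..(2 * T), X t ^ β := ⟨_, rfl⟩
  have hA0 : 0 ≤ A := by rw [hA]; exact intervalIntegral.integral_nonneg (by linarith) fun t _ => hM0 β t
  rw [← hA]
  have e2 : ∀ t, (X t ^ β) ^ (1 - ϑ) * (X t ^ b') ^ ϑ = X t ^ b := by
    intro t
    have h0 := hX0 t
    rw [← Real.rpow_mul h0, ← Real.rpow_mul h0, ← Real.rpow_add' h0]
    · congr 1
      rw [hϑb]
    · rw [← hϑb]
      linarith
  have hexp : T * Real.log T ^ (β * s - η) ≤ T * Real.log T ^ e :=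
    mul_le_mul_of_nonneg_left (Real.rpow_le_rpow_of_exponent_le hL1 hege) hT0.le
  refine hexp.trans ?_
  apply le_of_forall_gt_imp_ge_of_dense
  intro A' hA'
  have h4 := hold (cM β hβ0) (cM b' hb'0) (hM0 β) (hM0 b') (by linarith : T ≤ 2 * T) (θ := ϑ) hϑ0.le hϑ1.le (A := A')
      (B := T * Real.log T ^ (s ^ 2 + b' ^ 2 / 4 + δ)) (by linarith) (by positivity) (by rw [← hA]; exact hA'.le) g2
  simp only [e2] at h4
  have h5 := solve (c := 1) (C := 1) (e0 := s ^ 2 + b ^ 2 / 4 - δ) (e1 := s ^ 2 + b' ^ 2 / 4 + δ) (e := e) hϑ1 one_pos one_pos hT0 hL0 (by linarith : 0 ≤ A') heq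
    (by simpa only [one_mul] using g1.trans h4)
  rw [Real.one_rpow, div_one, Real.one_rpow, one_mul] at h5
  exact h5

/-- the exponents of the moments -/
def expS (s b : ℝ) : ℝ := if b ≤ 2 * s then b * s else s ^ 2 + b ^ 2 / 4

theorem all_mom {X : ℝ → ℝ} (hXc : Continuous X) (hX0 : ∀ t, 0 ≤ X t) {s : ℝ} (hs : 0 ≤ s) (hs1 : s ≤ 1)
    (h : ∀ b : ℝ, 2 * s < b → b ≤ 4 → BdX X b (s ^ 2 + b ^ 2 / 4)) {β : ℝ} (hβ0 : 0 < β) (hβ4 : β ≤ 4) : BdX X β (expS s β) := by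
  unfold expS
  split_ifs with h1
  · have hs0 : 0 < s := by linarith
    intro δ hδ
    filter_upwards [froz_up hXc hX0 hs0 hs1 hβ0 h1 h hδ, froz_low hXc hX0 hs0 hs1 hβ0 h1 h hδ] with T h2 h3
    exact ⟨h3, h2⟩
  · exact h β (not_le.1 h1) hβ4

/-- Markov's inequality -/
theorem pp_up {X : ℝ → ℝ} (hXc : Continuous X) (hX0 : ∀ t, 0 ≤ X t) {β v f ε : ℝ} (hβ0 : 0 < β) (h : BdX X β f) (hε : 0 < ε) :
    ∀ᶠ T : ℝ in atTop, pp X (Real.log T ^ v) T ≤ Real.log T ^ (f - β * v + ε) := by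
  filter_upwards [h ε hε, eventually_gt_atTop (0 : ℝ), Real.tendsto_log_atTop.eventually_ge_atTop 1] with T hb hT0 hL1
  have hL0 : 0 < Real.log T := by linarith
  have hMc : Continuous fun t => X t ^ β := hXc.rpow_const fun _ => Or.inr hβ0.le
  have h1 : pp X (Real.log T ^ v) T = T⁻¹ * ∫ t in T..(2 * T), above X (Real.log T ^ v) t := by
    unfold pp
    rw [above_eq hXc _ hT0.le]
  have h2 : Real.log T ^ (β * v) * ∫ t in T..(2 * T), above X (Real.log T ^ v) t ≤ ∫ t in T..(2 * T), X t ^ β := by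
    rw [← intervalIntegral.integral_const_mul]
    refine intervalIntegral.integral_mono_on (by linarith) ((above_int hXc _ _ _).const_mul _) (hMc.intervalIntegrable _ _) fun t _ => ?_
    rcases lt_or_ge (Real.log T ^ v) (X t) with h | h
    · rw [above_of_lt h, mul_one, mul_comm β v, Real.rpow_mul hL0.le]
      exact Real.rpow_le_rpow (by positivity) h.le hβ0.le
    · rw [above_of_le h, mul_zero]
      exact Real.rpow_nonneg (hX0 t) _
  have h3 : Real.log T ^ (β * v) * pp X (Real.log T ^ v) T ≤ mm X β T := by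
    rw [h1]
    unfold mm
    have := mul_le_mul_of_nonneg_left h2 (by positivity : 0 ≤ T⁻¹)
    linarith
  have h4 : Real.log T ^ (f - β * v + ε) = (Real.log T ^ (β * v))⁻¹ * Real.log T ^ (f + ε) := by
    rw [← Real.rpow_neg hL0.le, ← Real.rpow_add hL0]
    congr 1
    ring
  rw [h4, le_inv_mul_iff₀ (by positivity)]
  exact h3.trans hb.2

/-- monotonicity -/
theorem pp_anti {X : ℝ → ℝ} {V W T : ℝ} (hVW : V ≤ W) (hT : 0 < T) : pp X W T ≤ pp X V T := by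
  unfold pp
  apply mul_le_mul_of_nonneg_left _ (by positivity)
  apply ENNReal.toReal_mono
  · refine ((measure_mono (fun t ht => ht.1 : {t : ℝ | t ∈ Set.Icc T (2 * T) ∧ V < X t} ⊆ Set.Icc T (2 * T))).trans_lt ?_).ne
    exact measure_Icc_lt_top
  · apply measure_mono
    rintro t ⟨h1, h2⟩
    exact ⟨h1, lt_of_le_of_lt hVW h2⟩

theorem pp_le_one {X : ℝ → ℝ} {V T : ℝ} (hT : 0 < T) : pp X V T ≤ 1 := by
  unfold pp
  have h1 : (volume {t : ℝ | t ∈ Set.Icc T (2 * T) ∧ V < X t}).toReal ≤ T := by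
    have h2 : (volume {t : ℝ | t ∈ Set.Icc T (2 * T) ∧ V < X t}).toReal ≤ (volume (Set.Icc T (2 * T))).toReal :=
      ENNReal.toReal_mono measure_Icc_lt_top.ne (measure_mono fun t ht => ht.1)
    rw [Real.volume_Icc, ENNReal.toReal_ofReal (by linarith)] at h2
    linarith
  rw [inv_mul_le_iff₀ hT, mul_one]
  exact h1

/-- **lower bound for the large deviations** -/
theorem pp_low {X : ℝ → ℝ} (hXc : Continuous X) (hX0 : ∀ t, 0 ≤ X t) {F : ℝ → ℝ} {β v ρ ε : ℝ} (hρ : 0 < ρ) (hρβ : ρ < β)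
    (hB : ∀ b, |b - β| ≤ ρ → BdX X b (F b))
    (hf : ∀ b, |b - β| ≤ ρ → F b ≤ F β + v * (b - β) + (b - β) ^ 2) (hε : 0 < ε) :
    ∀ᶠ T : ℝ in atTop, Real.log T ^ (F β - β * v - ε) ≤ pp X (Real.log T ^ (v - ε)) T := by
  have hβ0 : 0 < β := by linarith
  obtain ⟨e, he⟩ : ∃ e : ℝ, e = min 1 (ε / (β + 2)) := ⟨_, rfl⟩
  have he0 : 0 < e := by rw [he]; exact lt_min one_pos (by positivity)
  have he1 : e ≤ 1 := by rw [he]; exact min_le_left _ _
  have heε : e * (β + 2) ≤ ε := by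
    have h1 : e ≤ ε / (β + 2) := by rw [he]; exact min_le_right _ _
    rwa [le_div_iff₀ (by linarith)] at h1
  obtain ⟨η, hη⟩ : ∃ η : ℝ, η = min ρ (e / 2) := ⟨_, rfl⟩
  have hη0 : 0 < η := by rw [hη]; exact lt_min hρ (by linarith)
  have hηρ : η ≤ ρ := by rw [hη]; exact min_le_left _ _
  have hηe : η ≤ e / 2 := by rw [hη]; exact min_le_right _ _
  obtain ⟨δ, hδ⟩ : ∃ δ : ℝ, δ = η * e / 8 := ⟨_, rfl⟩
  have hδ0 : 0 < δ := by rw [hδ]; positivity
  have a1 : |β - η - β| ≤ ρ := by rw [show β - η - β = -η by ring, abs_neg, abs_of_pos hη0]; exact hηρ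
  have a2 : |β + η - β| ≤ ρ := by rw [show β + η - β = η by ring, abs_of_pos hη0]; exact hηρ
  have b0 := hB β (by rw [sub_self, abs_zero]; exact hρ.le) δ hδ0
  have b1 := hB (β - η) a1 δ hδ0
  have b2 := hB (β + η) a2 δ hδ0
  have f1 := hf (β - η) a1
  have f2 := hf (β + η) a2
  have l1 : ∀ᶠ T : ℝ in atTop, (4 : ℝ) ≤ Real.log T ^ (2 * δ) :=
    ((tendsto_rpow_atTop (by linarith : 0 < 2 * δ)).comp Real.tendsto_log_atTop).eventually_ge_atTop _
  have hgap : 0 < ε - δ - β * e := by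
    have : δ ≤ e := by rw [hδ]; nlinarith
    nlinarith
  have l2 : ∀ᶠ T : ℝ in atTop, (2 : ℝ) ≤ Real.log T ^ (ε - δ - β * e) :=
    ((tendsto_rpow_atTop hgap).comp Real.tendsto_log_atTop).eventually_ge_atTop _
  filter_upwards [b0, b1, b2, l1, l2, eventually_ge_atTop (16 : ℝ), Real.tendsto_log_atTop.eventually_ge_atTop 1] with T b0 b1 b2 l1 l2 hT16 hL1
  have hT0 : 0 < T := by linarith
  obtain ⟨L, hL⟩ : ∃ L : ℝ, L = Real.log T := ⟨_, rfl⟩
  rw [← hL] at b0 b1 b2 l1 l2 hL1 ⊢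
  have hanti : pp X (L ^ (v - e)) T ≤ pp X (L ^ (v - ε)) T :=
    pp_anti (Real.rpow_le_rpow_of_exponent_le hL1 (by nlinarith)) hT0
  refine le_trans ?_ hanti
  have hL0 : 0 < L := by linarith
  have hXb : ∀ b : ℝ, 0 < b → Continuous fun t => X t ^ b := fun b hb => hXc.rpow_const fun _ => Or.inr hb.le
  obtain ⟨a, ha⟩ : ∃ a : ℝ, a = L ^ (v - e) := ⟨_, rfl⟩
  obtain ⟨b, hb⟩ : ∃ b : ℝ, b = L ^ (v + e) := ⟨_, rfl⟩
  have ha0 : 0 < a := by rw [ha]; positivity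
  have hb0 : 0 < b := by rw [hb]; positivity
  have hab : a ≤ b := by rw [ha, hb]; exact Real.rpow_le_rpow_of_exponent_le hL1 (by linarith)
  have hP : pp X (L ^ (v - e)) T = T⁻¹ * ∫ t in T..(2 * T), above X a t := by
    unfold pp
    rw [above_eq hXc _ hT0.le, ha]
  have c1 : Continuous fun t => a ^ η * X t ^ (β - η) := continuous_const.mul (hXb _ (by linarith))
  have c2 : Continuous fun t => b ^ (-η) * X t ^ (β + η) := continuous_const.mul (hXb _ (by linarith))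
  have i1 : IntervalIntegrable (fun t => a ^ η * X t ^ (β - η)) volume T (2 * T) := c1.intervalIntegrable _ _
  have i2 : IntervalIntegrable (fun t => b ^ (-η) * X t ^ (β + η)) volume T (2 * T) := c2.intervalIntegrable _ _
  have i3 : IntervalIntegrable (fun t => b ^ β * above X a t) volume T (2 * T) := (above_int hXc a _ _).const_mul _
  have i12 : IntervalIntegrable (fun t => a ^ η * X t ^ (β - η) + b ^ (-η) * X t ^ (β + η)) volume T (2 * T) := i1.add i2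
  obtain ⟨I0, hI0⟩ : ∃ I : ℝ, I = ∫ t in T..(2 * T), X t ^ β := ⟨_, rfl⟩
  obtain ⟨I1, hI1⟩ : ∃ I : ℝ, I = ∫ t in T..(2 * T), X t ^ (β - η) := ⟨_, rfl⟩
  obtain ⟨I2, hI2⟩ : ∃ I : ℝ, I = ∫ t in T..(2 * T), X t ^ (β + η) := ⟨_, rfl⟩
  obtain ⟨I3, hI3⟩ : ∃ I : ℝ, I = ∫ t in T..(2 * T), above X a t := ⟨_, rfl⟩
  have hint : I0 ≤ a ^ η * I1 + b ^ (-η) * I2 + b ^ β * I3 := by
    have h1 := intervalIntegral.integral_mono_on (μ := volume) (by linarith : T ≤ 2 * T) ((hXb β hβ0).intervalIntegrable T (2 * T)) (i12.add i3) fun t _ =>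
      split_mom (hX0 t) ha0 hab hη0 (by linarith) (above X a t) (fun h => above_of_lt h) (above_nonneg X a t)
    rw [intervalIntegral.integral_add i12 i3, intervalIntegral.integral_add i1 i2, intervalIntegral.integral_const_mul,
      intervalIntegral.integral_const_mul, intervalIntegral.integral_const_mul, ← hI0, ← hI1, ← hI2, ← hI3] at h1
    exact h1
  unfold mm at b0 b1 b2
  rw [← hI0] at b0
  rw [← hI1] at b1
  rw [← hI2] at b2
  rw [hP, ← hI3]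
  have hint2 : T⁻¹ * I0 ≤ a ^ η * (T⁻¹ * I1) + b ^ (-η) * (T⁻¹ * I2) + b ^ β * (T⁻¹ * I3) := by
    have := mul_le_mul_of_nonneg_left hint (by positivity : 0 ≤ T⁻¹)
    linarith
  obtain ⟨G, hG⟩ : ∃ G : ℝ, G = F β := ⟨_, rfl⟩
  rw [← hG] at b0 f1 f2 ⊢
  have u1 : a ^ η * (T⁻¹ * I1) ≤ L ^ (G - 3 * δ) := by
    calc a ^ η * (T⁻¹ * I1) ≤ a ^ η * L ^ (F (β - η) + δ) := mul_le_mul_of_nonneg_left b1.2 (by positivity)
      _ = L ^ ((v - e) * η + (F (β - η) + δ)) := by rw [ha, ← Real.rpow_mul hL0.le, ← Real.rpow_add hL0]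
      _ ≤ _ := by
          apply Real.rpow_le_rpow_of_exponent_le hL1
          have h1 : η ^ 2 ≤ η * (e / 2) := by
            rw [sq]
            exact mul_le_mul_of_nonneg_left hηe hη0.le
          have h2 : (β - η - β) = -η := by ring
          rw [h2] at f1
          nlinarith
  have u2 : b ^ (-η) * (T⁻¹ * I2) ≤ L ^ (G - 3 * δ) := by
    calc b ^ (-η) * (T⁻¹ * I2) ≤ b ^ (-η) * L ^ (F (β + η) + δ) := mul_le_mul_of_nonneg_left b2.2 (by positivity)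
      _ = L ^ ((v + e) * (-η) + (F (β + η) + δ)) := by rw [hb, ← Real.rpow_mul hL0.le, ← Real.rpow_add hL0]
      _ ≤ _ := by
          apply Real.rpow_le_rpow_of_exponent_le hL1
          have h1 : η ^ 2 ≤ η * (e / 2) := by
            rw [sq]
            exact mul_le_mul_of_nonneg_left hηe hη0.le
          have h2 : (β + η - β) = η := by ring
          rw [h2] at f2
          nlinarith
  have u3 : 4 * L ^ (G - 3 * δ) ≤ L ^ (G - δ) := by
    calc 4 * L ^ (G - 3 * δ) ≤ L ^ (2 * δ) * L ^ (G - 3 * δ) := mul_le_mul_of_nonneg_right l1 (by positivity)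
      _ = L ^ (G - δ) := by
          rw [← Real.rpow_add hL0]
          congr 1
          ring
  have u4 : L ^ (G - δ) / 2 ≤ b ^ β * (T⁻¹ * I3) := by linarith [b0.1]
  have u5 : L ^ (G - β * v - ε) * b ^ β ≤ L ^ (G - δ) / 2 := by
    have h1 : L ^ (G - β * v - ε) * b ^ β * L ^ (ε - δ - β * e) = L ^ (G - δ) := by
      rw [hb, ← Real.rpow_mul hL0.le, ← Real.rpow_add hL0, ← Real.rpow_add hL0]
      congr 1
      ring
    have h2 : 0 < L ^ (G - β * v - ε) * b ^ β := by positivity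
    have h3 : L ^ (G - β * v - ε) * b ^ β * 2 ≤ L ^ (G - δ) := by
      rw [← h1]
      exact mul_le_mul_of_nonneg_left l2 h2.le
    linarith
  have u6 : L ^ (G - β * v - ε) * b ^ β ≤ (T⁻¹ * I3) * b ^ β := by linarith
  exact le_of_mul_le_mul_right u6 (by positivity)

/-- **the large deviations** -/
theorem pp_all {X : ℝ → ℝ} (hXc : Continuous X) (hX0 : ∀ t, 0 ≤ X t) {s : ℝ} (hs : 0 ≤ s) (hs1 : s ≤ 1)
    (h : ∀ b : ℝ, 2 * s < b → b ≤ 4 → BdX X b (s ^ 2 + b ^ 2 / 4)) {v : ℝ} (hv2 : v < 2) {η : ℝ} (hη : 0 < η) :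
    ∀ᶠ T : ℝ in atTop, Real.log T ^ (-(if v ≤ s then 0 else v ^ 2 - s ^ 2) - η) ≤ pp X (Real.log T ^ v) T ∧
      pp X (Real.log T ^ v) T ≤ Real.log T ^ (-(if v ≤ s then 0 else v ^ 2 - s ^ 2) + η) := by
  have hlow : ∀ u : ℝ, s ≤ u → u < 2 → ∀ η : ℝ, 0 < η → ∀ᶠ T : ℝ in atTop, Real.log T ^ (-(u ^ 2 - s ^ 2) - η) ≤ pp X (Real.log T ^ u) T := by
    intro u hu1 hu2 η hη
    obtain ⟨ε, hε⟩ : ∃ ε : ℝ, ε = min (η / 6) ((2 - u) / 4) := ⟨_, rfl⟩
    have hε0 : 0 < ε := by rw [hε]; exact lt_min (by linarith) (by linarith)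
    have hε1 : ε ≤ η / 6 := by rw [hε]; exact min_le_left _ _
    have hε2 : ε ≤ (2 - u) / 4 := by rw [hε]; exact min_le_right _ _
    have h1 := pp_low (F := fun b => s ^ 2 + b ^ 2 / 4) hXc hX0 (β := 2 * (u + ε)) (v := u + ε) (ρ := ε) (ε := ε) hε0 (by linarith)
      (fun b hb => by
        have hb' := abs_le.1 hb
        exact h b (by linarith [hb'.1]) (by linarith [hb'.2])) (by
      intro b hb
      show s ^ 2 + b ^ 2 / 4 ≤ s ^ 2 + (2 * (u + ε)) ^ 2 / 4 + (u + ε) * (b - 2 * (u + ε)) + (b - 2 * (u + ε)) ^ 2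
      have := sq_nonneg (b - 2 * (u + ε))
      nlinarith) hε0
    filter_upwards [h1, Real.tendsto_log_atTop.eventually_ge_atTop 1] with T h1 hL1
    rw [add_sub_cancel_right] at h1
    refine le_trans ?_ h1
    apply Real.rpow_le_rpow_of_exponent_le hL1
    show -(u ^ 2 - s ^ 2) - η ≤ s ^ 2 + (2 * (u + ε)) ^ 2 / 4 - 2 * (u + ε) * (u + ε) - ε
    nlinarith
  split_ifs with h1
  · filter_upwards [hlow s le_rfl (by linarith) η hη, eventually_gt_atTop (0 : ℝ), Real.tendsto_log_atTop.eventually_ge_atTop 1] with T h2 hT0 hL1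
    constructor
    · rw [sub_self] at h2
      exact h2.trans (pp_anti (Real.rpow_le_rpow_of_exponent_le hL1 h1) hT0)
    · exact (pp_le_one hT0).trans (Real.one_le_rpow hL1 (by linarith))
  · push Not at h1
    filter_upwards [hlow v h1.le hv2 η hη, pp_up (v := v) hXc hX0 (β := 2 * v) (by linarith) (h (2 * v) (by linarith) (by linarith)) hη] with T h2 h3
    refine ⟨h2, ?_⟩
    have e1 : s ^ 2 + (2 * v) ^ 2 / 4 - 2 * v * v + η = -(v ^ 2 - s ^ 2) + η := by ring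
    rw [e1] at h3
    exact h3

end

end Pool.Agent.H469.F4
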