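import Pool.Agent.H469.F4.U5

set_option autoImplicit false

/-!
# Maxima over a fixed compact set of dimension `d`
-/

namespace Pool.Agent.H469.F4

open Filter Topology MeasureTheory Complex Pool.Agent.Q97.UM

noncomputable section

/-- the box dimension of `A` is `d` -/
def BoxDim (A : Set ℝ) (d : ℝ) : Prop := Tendsto (fun r : ℝ => Real.log (nsep r A) / Real.log (1 / r)) (𝓝[>] 0) (𝓝 d)

/-- the Assouad dimension of `A` is at most `d` -/
def AssouadLe (A : Set ℝ) (d : ℝ) : Prop := ∀ d' : ℝ, d < d' → ∃ D : ℝ, ∀ r : ℝ, 0 < r → r ≤ 1 → Rg d' D r A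

/-- the box count in terms of `T` -/
theorem box_T {A : Set ℝ} (hA : IsCompact A) (hne : A.Nonempty) {d : ℝ} (h : BoxDim A d) {δ : ℝ} (hδ : 0 < δ) :
    ∀ᶠ T : ℝ in atTop, Real.log T ^ (d - δ) ≤ nsep (1 / Real.log T) A ∧ (nsep (1 / Real.log T) A : ℝ) ≤ Real.log T ^ (d + δ) := by
  obtain ⟨R, hR⟩ := hA.isBounded.exists_norm_le
  have hAR : ∀ x ∈ A, |x| ≤ max R 0 := fun x hx => (hR x hx).trans (le_max_left _ _)
  have h1 : Tendsto (fun T : ℝ => 1 / Real.log T) atTop (𝓝[>] 0) := by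
    apply tendsto_nhdsWithin_iff.2
    constructor
    · simp only [one_div]
      exact Real.tendsto_log_atTop.inv_tendsto_atTop
    · filter_upwards [Real.tendsto_log_atTop.eventually_ge_atTop 1] with T hT
      have h0 : (0 : ℝ) < Real.log T := lt_of_lt_of_le one_pos hT
      exact one_div_pos.2 h0
  have h2 := h.comp h1
  have h3 := h2.eventually (Metric.ball_mem_nhds d hδ)
  filter_upwards [h3, Real.tendsto_log_atTop.eventually_ge_atTop 2] with T h3 hL2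
  have hL0 : 0 < Real.log T := by linarith
  obtain ⟨L, hL⟩ : ∃ L : ℝ, L = Real.log T := ⟨_, rfl⟩
  simp only [Function.comp_apply] at h3
  rw [← hL] at h3 hL2 hL0 ⊢
  rw [one_div_one_div, Real.dist_eq, abs_lt] at h3
  obtain ⟨h4, h5⟩ := h3
  replace h4 : d - δ < Real.log (nsep (1 / L) A) / Real.log L := by linarith
  replace h5 : Real.log (nsep (1 / L) A) / Real.log L < d + δ := by linarith
  have hlog : 0 < Real.log L := Real.log_pos (by linarith)
  have hN : 1 ≤ nsep (1 / L) A := nsep_pos (by positivity) (le_max_right R 0) hAR hne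
  have hN0 : (0 : ℝ) < nsep (1 / L) A := by exact_mod_cast hN
  rw [lt_div_iff₀ hlog] at h4
  rw [div_lt_iff₀ hlog] at h5
  constructor
  · rw [Real.rpow_def_of_pos hL0, ← Real.le_log_iff_exp_le hN0, mul_comm]
    exact h4.le
  · rw [Real.rpow_def_of_pos hL0, ← Real.log_le_iff_le_exp hN0, mul_comm]
    exact h5.le

theorem dim_nonneg {A : Set ℝ} (hA : IsCompact A) (hne : A.Nonempty) {d : ℝ} (h : BoxDim A d) : 0 ≤ d := by
  obtain ⟨R, hR⟩ := hA.isBounded.exists_norm_le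
  have hAR : ∀ x ∈ A, |x| ≤ max R 0 := fun x hx => (hR x hx).trans (le_max_left _ _)
  refine ge_of_tendsto h ?_
  filter_upwards [Ioo_mem_nhdsGT (zero_lt_one' ℝ)] with r hr
  have hN : 1 ≤ nsep r A := nsep_pos hr.1 (le_max_right R 0) hAR hne
  apply div_nonneg
  · exact Real.log_nonneg (by exact_mod_cast hN)
  · exact Real.log_nonneg (by rw [le_div_iff₀ hr.1, one_mul]; exact hr.2.le)

theorem dim_le_one {A : Set ℝ} (hA : IsCompact A) (hne : A.Nonempty) {d : ℝ} (h : BoxDim A d) : d ≤ 1 := by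
  obtain ⟨R, hR⟩ := hA.isBounded.exists_norm_le
  have hAR : ∀ x ∈ A, |x| ≤ max R 0 := fun x hx => (hR x hx).trans (le_max_left _ _)
  obtain ⟨K, hK⟩ : ∃ K : ℝ, K = max R 0 := ⟨_, rfl⟩
  rw [← hK] at hAR
  have hK0 : 0 ≤ K := by rw [hK]; exact le_max_right _ _
  by_contra hcon
  push Not at hcon
  obtain ⟨δ, hδ⟩ : ∃ δ : ℝ, δ = (d - 1) / 2 := ⟨_, rfl⟩
  have hδ0 : 0 < δ := by rw [hδ]; linarith
  have h1 := box_T hA hne h hδ0
  have l1 : ∀ᶠ T : ℝ in atTop, (2 * K + 2 : ℝ) ≤ Real.log T ^ δ :=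
    ((tendsto_rpow_atTop hδ0).comp Real.tendsto_log_atTop).eventually_ge_atTop _
  obtain ⟨T, hT1, hT2, hL1⟩ := (h1.and (l1.and (Real.tendsto_log_atTop.eventually_ge_atTop 1))).exists
  have hL0 : 0 < Real.log T := by linarith
  obtain ⟨L, hL⟩ : ∃ L : ℝ, L = Real.log T := ⟨_, rfl⟩
  rw [← hL] at hT1 hT2 hL1 hL0
  have hr : 0 < 1 / L := by positivity
  obtain ⟨⟨S, hSA, hSsep, hScard⟩, -⟩ := nsep_spec hr hK0 hAR
  have h2 := card_sep (a := -K) (b := K) hr (by linarith) hSsep fun x hx => abs_le.1 (hAR x (hSA x hx))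
  rw [hScard, div_div_eq_mul_div, div_one] at h2
  have h3 : L ^ (d - δ) = L ^ δ * L := by
    rw [show d - δ = δ + 1 by rw [hδ]; ring, Real.rpow_add hL0, Real.rpow_one]
  have h4 : (2 * K + 2) * L ≤ L ^ δ * L := mul_le_mul_of_nonneg_right hT2 hL0.le
  have h5 := hT1.1
  rw [h3] at h5
  nlinarith

/-- **the exponents of the moments above the critical point** -/
theorem set_BdX {A : Set ℝ} (hA : IsCompact A) (hne : A.Nonempty) {d : ℝ} (hbox : BoxDim A d) (has : AssouadLe A d) {b : ℝ} (hb : 2 * Real.sqrt d < b) (hb4 : b ≤ 4) :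
    BdX (MA A) b (Real.sqrt d ^ 2 + b ^ 2 / 4) := by
  have hd0 := dim_nonneg hA hne hbox
  have hs0 := Real.sqrt_nonneg d
  have hss : Real.sqrt d ^ 2 = d := Real.sq_sqrt hd0
  rw [hss]
  have hb0 : 0 < b := by linarith
  have hdb : d < b ^ 2 / 4 := by nlinarith
  intro δ hδ
  obtain ⟨ε, hε⟩ : ∃ ε : ℝ, ε = (b ^ 2 / 4 - d) / 2 := ⟨_, rfl⟩
  have hε0 : 0 < ε := by rw [hε]; linarith
  obtain ⟨δ', hδ'⟩ : ∃ δ' : ℝ, δ' = min ε (δ / 2) := ⟨_, rfl⟩
  have hδ'0 : 0 < δ' := by rw [hδ']; exact lt_min hε0 (by linarith)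
  have hδ'1 : δ' ≤ ε := by rw [hδ']; exact min_le_left _ _
  have hδ'2 : δ' ≤ δ / 2 := by rw [hδ']; exact min_le_right _ _
  obtain ⟨D, hD⟩ := has (d + ε) (by linarith)
  obtain ⟨R, hR⟩ := hA.isBounded.exists_norm_le
  obtain ⟨c, C, hc, hC, h1⟩ := set_order (β := b) (ε := ε) (d := d + ε) (D := max D 1) (B := 1) hb0 hb4 (by linarith) (by rw [hε]; linarith) (le_max_right _ _)
    zero_le_one hε0
  have l1 : ∀ᶠ T : ℝ in atTop, 1 / c ≤ Real.log T ^ (δ / 2) :=
    ((tendsto_rpow_atTop (by linarith : 0 < δ / 2)).comp Real.tendsto_log_atTop).eventually_ge_atTop _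
  have l2 : ∀ᶠ T : ℝ in atTop, C ≤ Real.log T ^ (δ / 2) :=
    ((tendsto_rpow_atTop (by linarith : 0 < δ / 2)).comp Real.tendsto_log_atTop).eventually_ge_atTop _
  filter_upwards [h1, l1, l2, box_T hA hne hbox hδ'0, eventually_gt_atTop (0 : ℝ), Real.tendsto_log_atTop.eventually_ge_atTop 1,
    Real.tendsto_log_atTop.eventually_ge_atTop R] with T h1 l1 l2 hN hT0 hL1 hLR
  have hL0 : 0 < Real.log T := by linarith
  obtain ⟨h2, h3⟩ := h1 A hA hne fun h hh => by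
    rw [Real.rpow_one]
    exact (hR h hh).trans hLR
  have hReg : Rg (d + ε) (max D 1) (1 / Real.log T) A := by
    intro S hS hsep x hx ρ hρ1 hρ2
    have hr : 0 < 1 / Real.log T := by positivity
    have := hD (1 / Real.log T) hr (by rw [div_le_one hL0]; exact hL1) S hS hsep x hx ρ hρ1 hρ2
    refine this.trans (mul_le_mul_of_nonneg_right (le_max_left _ _) ?_)
    have : 0 ≤ ρ / (1 / Real.log T) := div_nonneg (by linarith) hr.le
    positivity
  have h4 := h3 hReg (hN.2.trans (Real.rpow_le_rpow_of_exponent_le hL1 (by rw [hε] at hδ'1 ⊢; linarith)))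
  clear h1 h3
  obtain ⟨L, hL⟩ : ∃ L : ℝ, L = Real.log T := ⟨_, rfl⟩
  unfold mm
  rw [← hL] at h2 h4 hN l1 l2 hL0 hL1 ⊢
  rw [le_inv_mul_iff₀ hT0, inv_mul_le_iff₀ hT0]
  constructor
  · refine le_trans ?_ h4
    have h5 : L ^ (d + b ^ 2 / 4 - δ) ≤ c * (L ^ (d - δ') * L ^ (b ^ 2 / 4)) := by
      rw [div_le_iff₀ hc] at l1
      calc L ^ (d + b ^ 2 / 4 - δ) = 1 * L ^ (d + b ^ 2 / 4 - δ) := by rw [one_mul]
        _ ≤ L ^ (δ / 2) * c * L ^ (d + b ^ 2 / 4 - δ) := mul_le_mul_of_nonneg_right l1 (by positivity)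
        _ = c * L ^ (d - δ / 2 + b ^ 2 / 4) := by
            rw [mul_comm _ c, mul_assoc, ← Real.rpow_add hL0]
            congr 2
            ring
        _ ≤ c * L ^ (d - δ' + b ^ 2 / 4) := mul_le_mul_of_nonneg_left (Real.rpow_le_rpow_of_exponent_le hL1 (by linarith)) hc.le
        _ = _ := by rw [Real.rpow_add hL0]
    calc T * L ^ (d + b ^ 2 / 4 - δ) ≤ T * (c * (L ^ (d - δ') * L ^ (b ^ 2 / 4))) := mul_le_mul_of_nonneg_left h5 hT0.le
      _ = c * T * (L ^ (d - δ') * L ^ (b ^ 2 / 4)) := by ring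
      _ ≤ _ := by
          apply mul_le_mul_of_nonneg_left _ (by positivity)
          exact mul_le_mul_of_nonneg_right hN.1 (by positivity)
  · refine h2.trans ?_
    have h5 : C * (L ^ (d + δ') * L ^ (b ^ 2 / 4)) ≤ L ^ (d + b ^ 2 / 4 + δ) := by
      calc C * (L ^ (d + δ') * L ^ (b ^ 2 / 4)) ≤ L ^ (δ / 2) * (L ^ (d + δ') * L ^ (b ^ 2 / 4)) := mul_le_mul_of_nonneg_right l2 (by positivity)
        _ = L ^ (δ / 2 + (d + δ') + b ^ 2 / 4) := by rw [← mul_assoc, ← Real.rpow_add hL0, ← Real.rpow_add hL0]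
        _ ≤ _ := Real.rpow_le_rpow_of_exponent_le hL1 (by linarith)
    calc C * T * (nsep (1 / L) A * L ^ (b ^ 2 / 4)) ≤ C * T * (L ^ (d + δ') * L ^ (b ^ 2 / 4)) := by
          apply mul_le_mul_of_nonneg_left _ (by positivity)
          exact mul_le_mul_of_nonneg_right hN.2 (by positivity)
      _ = T * (C * (L ^ (d + δ') * L ^ (b ^ 2 / 4))) := by ring
      _ ≤ _ := mul_le_mul_of_nonneg_left h5 hT0.le

/-- **all moments of the maximum over a set** -/
theorem set_mom {A : Set ℝ} (hA : IsCompact A) (hne : A.Nonempty) {d : ℝ} (hbox : BoxDim A d) (has : AssouadLe A d) {β : ℝ} (hβ0 : 0 < β) (hβ4 : β ≤ 4) :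
    BdX (MA A) β (expS (Real.sqrt d) β) :=
  all_mom (MA_cont hA) (MA_nonneg A) (Real.sqrt_nonneg d) (Real.sqrt_le_one.2 (dim_le_one hA hne hbox)) (fun _ hb hb4 => set_BdX hA hne hbox has hb hb4) hβ0 hβ4

end

end Pool.Agent.H469.F4
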