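import Pool.Agent.H469.F4.TSB4
import Pool.Agent.H469.F4.TORA

set_option autoImplicit false

/-!
# The upper bound for products of shifted values of zeta of total order at most four, relative to every Dirichlet polynomial
-/

namespace Pool.Agent.H469.F4

open Filter Topology MeasureTheory Complex Pool.Agent.Q97.UM
open Pool.Agent.Q184.UM (IB geo_sum pt2_all ev_grow N2_of_MB MB_of Ef_cont pw_cont dp_cont ua_norm)

noncomputable section

/-- the summation for fixed `T` and `b`, with general weights -/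
theorem ubm_coreG {m : ℕ} {κ T W CP K1 K2 K3 ε D : ℝ} {N : ℕ} {b : ℕ → ℂ} {k : Fin m → ℝ} {Z : Fin m → ℝ → ℝ}
    (hZc : ∀ i, Continuous (Z i)) (hT : 0 ≤ T)
    (hCP : 0 ≤ CP) (hW : 0 ≤ W) (hK3 : 0 ≤ K3) (hK1 : 0 ≤ K1) (hK2 : 0 ≤ K2) (hk : ∀ i, 0 ≤ k i) (hε0 : 0 ≤ ε)
    {a a2 : Fin m → ℕ → ℂ}
    (hP : ∀ t : ℝ, (∏ i, Z i t ^ (2 * k i)) * ‖dp N b t‖ ^ 2 ≤ CP * (‖Ef D κ (lc k a) (lc k a2) 0 t * dp N b t‖ ^ 2 +
      ∑ i', Z i' t ^ 2 * ‖Ef D κ (fun n => lc k a n - a i' n) (fun n => lc k a2 n - a2 i' n) 0 t *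
        pw D κ (a i') (a2 i') 0 t * dp N b t‖ ^ 2 +
      ∑ j ∈ Finset.range (JB D), ∑ i, (‖Ef D κ (lc k a) (lc k a2) (j + 1) t * pw D κ (a i) (a2 i) (j + 1) t * dp N b t‖ ^ 2 +
        ∑ i', Z i' t ^ 2 * ‖Ef D κ (fun n => lc k a n - a i' n) (fun n => lc k a2 n - a2 i' n) (j + 1) t *
          pw D κ (a i) (a2 i) (j + 1) t * dp N b t‖ ^ 2)))
    (h0 : ∫ t in T..(2 * T), ‖Ef D κ (lc k a) (lc k a2) 0 t * dp N b t‖ ^ 2 ≤ T * W)
    (h1 : ∀ q : ℕ, q ≤ JB D → ∀ i, ∫ t in T..(2 * T), ‖Ef D κ (lc k a) (lc k a2) q t * pw D κ (a i) (a2 i) q t * dp N b t‖ ^ 2 ≤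
        K1 * Real.exp (-(2 * (q : ℝ))) * (T * W))
    (h2 : ∀ q : ℕ, q ≤ JB D → ∀ i i', ∫ t in T..(2 * T), Z i' t ^ 2 *
      ‖Ef D κ (fun n => lc k a n - a i' n) (fun n => lc k a2 n - a2 i' n) q t *
        pw D κ (a i) (a2 i) q t * dp N b t‖ ^ 2 ≤
        (T * W) * (K2 * Real.exp (-(2 * (q : ℝ))) + K3 * ε))
    (hε : ((JB D : ℝ) + 1) * ε ≤ 1) :
    ∫ t in T..(2 * T), (∏ i, Z i t ^ (2 * k i)) * ‖dp N b t‖ ^ 2 ≤
      CP * (1 + m * (K2 + K3) + m * (K1 * 2) + m * (m * (K2 * 2 + K3))) * (T * W) := by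
  have hTW : 0 ≤ T * W := mul_nonneg hT hW
  have cE : ∀ (x x2 : ℕ → ℂ) (q : ℕ) (i : Fin m), Continuous fun t => Ef D κ x x2 q t * pw D κ (a i) (a2 i) q t * dp N b t :=
    fun x x2 q i => ((Ef_cont D κ x x2 q).mul (pw_cont D κ (a i) (a2 i) q)).mul (dp_cont N b)
  have i0 : IB T (fun t => ‖Ef D κ (lc k a) (lc k a2) 0 t * dp N b t‖ ^ 2) (T * W) :=
    ⟨((Ef_cont D κ _ _ 0).mul (dp_cont N b)).norm.pow 2, h0⟩
  have i1 : ∀ q : ℕ, q ≤ JB D → ∀ i, IB T (fun t => ‖Ef D κ (lc k a) (lc k a2) q t * pw D κ (a i) (a2 i) q t * dp N b t‖ ^ 2)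
      (K1 * Real.exp (-(2 * (q : ℝ))) * (T * W)) := fun q hq i => ⟨(cE _ _ q i).norm.pow 2, h1 q hq i⟩
  have i2 : ∀ q : ℕ, q ≤ JB D → ∀ i i', IB T (fun t => Z i' t ^ 2 *
      ‖Ef D κ (fun n => lc k a n - a i' n) (fun n => lc k a2 n - a2 i' n) q t *
        pw D κ (a i) (a2 i) q t * dp N b t‖ ^ 2)
        ((T * W) * (K2 * Real.exp (-(2 * (q : ℝ))) + K3 * ε)) := fun q hq i i' =>
    ⟨((hZc i').pow 2).mul ((cE _ _ q i).norm.pow 2), h2 q hq i i'⟩
  have itot := (i0.add (IB.sum (s := (Finset.univ : Finset (Fin m))) fun i' _ => i2 0 (Nat.zero_le _) i' i')).add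
    (IB.sum (s := Finset.range (JB D)) fun j hj => IB.sum (s := (Finset.univ : Finset (Fin m))) fun i _ =>
      (i1 (j + 1) (by have := Finset.mem_range.1 hj; omega) i).add
        (IB.sum (s := (Finset.univ : Finset (Fin m))) fun i' _ => i2 (j + 1) (by have := Finset.mem_range.1 hj; omega) i i'))
  have itot' := itot.const_mul hCP
  have hcont : Continuous fun t : ℝ => (∏ i, Z i t ^ (2 * k i)) * ‖dp N b t‖ ^ 2 := by
    refine Continuous.mul (continuous_finsetProd _ fun i _ => ?_) ((dp_cont N b).norm.pow 2)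
    exact (hZc i).rpow_const fun t => Or.inr (by have := hk i; linarith)
  refine (itot'.le hT hcont hP).trans ?_
  rw [mul_assoc CP]
  refine mul_le_mul_of_nonneg_left ?_ hCP
  simp only [Finset.sum_const, Finset.card_univ, Fintype.card_fin, nsmul_eq_mul]
  have g := geo_sum (JB D + 1)
  rw [Finset.sum_range_succ'] at g
  have g1 : ∑ j ∈ Finset.range (JB D), Real.exp (-(2 * ((j + 1 : ℕ) : ℝ))) ≤ 2 := by
    have : 0 ≤ Real.exp (-(2 * ((0 : ℕ) : ℝ))) := (Real.exp_pos _).le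
    linarith
  have g2 : (JB D : ℝ) * ε ≤ 1 := by
    have : ((JB D : ℝ) + 1) * ε = (JB D : ℝ) * ε + ε := by ring
    linarith
  have g3 : ε ≤ 1 := by
    have : 0 ≤ (JB D : ℝ) * ε := by positivity
    have : ((JB D : ℝ) + 1) * ε = (JB D : ℝ) * ε + ε := by ring
    linarith
  have hm0 : (0 : ℝ) ≤ m := Nat.cast_nonneg m
  obtain ⟨G, hG⟩ : ∃ G : ℝ, G = T * W := ⟨_, rfl⟩
  rw [← hG] at hTW ⊢
  have e1 : ∑ j ∈ Finset.range (JB D), ((m : ℝ) * (K1 * Real.exp (-(2 * ((j + 1 : ℕ) : ℝ))) * G +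
      (m : ℝ) * (G * (K2 * Real.exp (-(2 * ((j + 1 : ℕ) : ℝ))) + K3 * ε)))) =
      (m * K1 + m * m * K2) * G * (∑ j ∈ Finset.range (JB D), Real.exp (-(2 * ((j + 1 : ℕ) : ℝ)))) +
        m * m * K3 * G * ((JB D : ℝ) * ε) := by
    rw [Finset.mul_sum]
    have : m * m * K3 * G * ((JB D : ℝ) * ε) = ∑ j ∈ Finset.range (JB D), m * m * K3 * G * ε := by
      rw [Finset.sum_const, Finset.card_range, nsmul_eq_mul]
      ring
    rw [this, ← Finset.sum_add_distrib]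
    exact Finset.sum_congr rfl fun j _ => by ring
  have e2 : Real.exp (-(2 * ((0 : ℕ) : ℝ))) = 1 := by simp
  rw [e1, e2]
  have f1 : (m * K1 + m * m * K2) * G * (∑ j ∈ Finset.range (JB D), Real.exp (-(2 * ((j + 1 : ℕ) : ℝ)))) ≤
      (m * K1 + m * m * K2) * G * 2 := mul_le_mul_of_nonneg_left g1 (by positivity)
  have f2 : m * m * K3 * G * ((JB D : ℝ) * ε) ≤ m * m * K3 * G * 1 := mul_le_mul_of_nonneg_left g2 (by positivity)
  have f3 : (m : ℝ) * (G * (K2 * 1 + K3 * ε)) ≤ m * (G * (K2 * 1 + K3 * 1)) := by gcongr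
  calc _ ≤ G + m * (G * (K2 * 1 + K3 * 1)) + ((m * K1 + m * m * K2) * G * 2 + m * m * K3 * G * 1) :=
        add_le_add (add_le_add le_rfl f3) (add_le_add f1 f2)
    _ = _ := by ring

theorem norm_exp_I_sub_one (x : ℝ) : ‖cexp ((x : ℂ) * I) - 1‖ ≤ |x| := by
  have h := Real.norm_exp_I_mul_ofReal_sub_one_le (x := x)
  rw [mul_comm] at h
  simpa using h

/-- the difference of the coefficients of two shifts at a prime -/
theorem ua_diff (α β : ℝ) {p : ℕ} (hp : p ≠ 0) : ‖ua (α + β) p - ua α p‖ ≤ |β| * Real.log p := by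
  have h0 : (p : ℂ) ≠ 0 := by exact_mod_cast hp
  have h1 : ua (α + β) p = ua α p * cexp (((-(β * Real.log p) : ℝ) : ℂ) * I) := by
    unfold ua
    rw [Complex.cpow_def_of_ne_zero h0, Complex.cpow_def_of_ne_zero h0, ← Complex.exp_add]
    congr 1
    rw [← Complex.natCast_log]
    push_cast
    ring
  have h2 : ua (α + β) p - ua α p = ua α p * (cexp (((-(β * Real.log p) : ℝ) : ℂ) * I) - 1) := by
    rw [h1]
    ring
  rw [h2, norm_mul]
  have h3 := norm_exp_I_sub_one (-(β * Real.log p))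
  have h4 : |(-(β * Real.log p))| = |β| * Real.log p := by
    rw [abs_neg, abs_mul, abs_of_nonneg (Real.log_natCast_nonneg p)]
  rw [h4] at h3
  have h5 : 0 ≤ |β| * Real.log p := mul_nonneg (abs_nonneg _) (Real.log_natCast_nonneg p)
  calc ‖ua α p‖ * ‖cexp (((-(β * Real.log p) : ℝ) : ℂ) * I) - 1‖ ≤ 1 * (|β| * Real.log p) :=
        mul_le_mul (ua_norm α p) h3 (norm_nonneg _) zero_le_one
    _ = _ := one_mul _

theorem log_PB {D : ℝ} {l p : ℕ} (hp : p ∈ PB D l) : Real.log p ≤ D * Real.exp (-(l : ℝ)) := by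
  unfold PB at hp
  obtain ⟨h1, h2, h3⟩ := Finset.mem_filter.1 hp
  have h4 := (Finset.mem_Icc.1 h1).2
  have h5 : (p : ℝ) ≤ XB D l := by
    refine le_trans ?_ (Nat.floor_le (by unfold XB; positivity))
    exact_mod_cast h4
  have h6 : (0 : ℝ) < p := by exact_mod_cast h2.pos
  calc Real.log p ≤ Real.log (XB D l) := Real.log_le_log h6 h5
    _ = _ := by
      unfold XB
      rw [Real.log_exp]

/-- the perturbation belonging to a translation by `w / log T` -/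
theorem pert_ua {T δ : ℝ} (hL : 0 < Real.log T) (hδ0 : 0 < δ) (hδ1 : δ ≤ 1) (α w : ℝ) :
    Pert 2 (δ * Real.log T) (1 + |w|) (fun n => ua (α + w / Real.log T) n - ua α n) ∧
    Pert 2 (δ * Real.log T) (1 + |w|) (fun n => ua (2 * (α + w / Real.log T)) n - ua (2 * α) n) := by
  have h0 : 0 ≤ |w| := abs_nonneg w
  have hb : ∀ (x y : ℝ) (n : ℕ), ‖ua x n - ua y n‖ ≤ 2 := fun x y n => by
    have h1 := ua_norm x n
    have h2 := ua_norm y n
    have h3 := norm_sub_le (ua x n) (ua y n)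
    linarith
  have hs : ∀ (x β : ℝ), |β| ≤ 2 * (|w| / Real.log T) → ∀ l, ∀ p ∈ PB (δ * Real.log T) l, ‖ua (x + β) p - ua x p‖ ≤
      2 * (1 + |w|) * Real.exp (-(l : ℝ)) := by
    intro x β hβ l p hp
    have hpp : p ≠ 0 := by
      unfold PB at hp
      exact (Finset.mem_filter.1 hp).2.1.ne_zero
    have h1 := ua_diff x β hpp
    have h2 := log_PB hp
    have h3 : 0 ≤ Real.log p := Real.log_natCast_nonneg p
    have h4 : 0 < Real.exp (-(l : ℝ)) := Real.exp_pos _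
    calc ‖ua (x + β) p - ua x p‖ ≤ |β| * Real.log p := h1
      _ ≤ (2 * (|w| / Real.log T)) * (δ * Real.log T * Real.exp (-(l : ℝ))) := mul_le_mul hβ h2 h3 (by positivity)
      _ = 2 * |w| * δ * Real.exp (-(l : ℝ)) := by
          field_simp
      _ ≤ 2 * (1 + |w|) * Real.exp (-(l : ℝ)) := by
          apply mul_le_mul_of_nonneg_right _ h4.le
          nlinarith
  have hw : |w / Real.log T| = |w| / Real.log T := by rw [abs_div, abs_of_pos hL]
  have hw0 : 0 ≤ |w| / Real.log T := by positivity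
  refine ⟨⟨fun n => hb _ _ n, fun l p hp => ?_⟩, ⟨fun n => hb _ _ n, fun l p hp => ?_⟩⟩
  · exact hs α (w / Real.log T) (by rw [hw]; linarith) l p hp
  · have e : 2 * (α + w / Real.log T) = 2 * α + 2 * (w / Real.log T) := by ring
    rw [e]
    refine hs (2 * α) (2 * (w / Real.log T)) ?_ l p hp
    rw [abs_mul, hw, abs_of_pos (by norm_num : (0 : ℝ) < 2)]

/-- the exponential of the blocks -/
theorem exp_blocks {D : ℝ} (hD : 1 ≤ D) (α α' t : ℝ) :
    ‖cexp (∑ l ∈ Finset.range (JB D), (zf D (fun n => 2 * ua α n) (fun n => 2 * ua (2 * α) n) l t +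
      zf D (fun n => ua α' n - ua α n) (fun n => ua (2 * α') n - ua (2 * α) n) l t))‖ ^ 2 =
    ‖cexp (PA ⌊Real.exp D⌋₊ (ua α) (ua (2 * α)) t)‖ ^ 2 * ‖cexp (PA ⌊Real.exp D⌋₊ (ua α') (ua (2 * α')) t)‖ ^ 2 := by
  have h1 : ∀ a a2, ∑ l ∈ Finset.range (JB D), zf D a a2 l t = PA ⌊Real.exp D⌋₊ a a2 t := fun a a2 =>
    Pool.Agent.Q14.UM.sum_zj D a a2 hD t
  rw [Finset.sum_add_distrib, h1, h1, ← mul_pow, ← norm_mul, ← Complex.exp_add]
  have h2 : PA ⌊Real.exp D⌋₊ (fun n => 2 * ua α n) (fun n => 2 * ua (2 * α) n) t +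
      PA ⌊Real.exp D⌋₊ (fun n => ua α' n - ua α n) (fun n => ua (2 * α') n - ua (2 * α) n) t =
      PA ⌊Real.exp D⌋₊ (ua α) (ua (2 * α)) t + PA ⌊Real.exp D⌋₊ (ua α') (ua (2 * α')) t := by
    unfold PA
    rw [← Finset.sum_add_distrib, ← Finset.sum_add_distrib]
    refine Finset.sum_congr rfl fun p _ => ?_
    ring
  rw [h2]

/-- **the upper bound for products of total order at most four, relative to every Dirichlet polynomial** -/
theorem ubm4 (m : ℕ) : ∃ κ₀ : ℝ, 4 ≤ κ₀ ∧ ∀ κ : ℝ, κ₀ ≤ κ → ∃ δ₀ : ℝ, 0 < δ₀ ∧ ∀ δ : ℝ, 0 < δ → δ ≤ δ₀ → ∃ θ C : ℝ, 0 < θ ∧ 0 ≤ C ∧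
  ∀ᶠ T : ℝ in atTop, ∀ k α : Fin m → ℝ, (∀ j, 0 ≤ k j) → ∑ j, k j ≤ 2 → (∀ j, |α j| ≤ T / 2) →
    ∀ N : ℕ, (N : ℝ) ≤ T ^ θ → ∀ b : ℕ → ℂ, (∀ n, b n ≠ 0 → 1 ≤ n ∧ n ≤ N) →
      ∫ t in T..(2 * T), (∏ j, ‖zt (t + α j)‖ ^ (2 * k j)) * ‖dp N b t‖ ^ 2 ≤
        C * T * N2 (M9 (δ * Real.log T) κ * N)
          (cv (ebk (δ * Real.log T) κ (ap k α) (ap k (fun j => 2 * α j)) 0 (JB (δ * Real.log T))) b) := by
  have hP2 := b_PT2
  have hCOF := b_COF
  have hDPM := Pool.Agent.Q84.UM.t_DPM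
  have hMVL := Pool.Agent.Q84.UM.t_MVL
  obtain ⟨φ, ψ, c₀, C₀, hcut⟩ := exists_cut
  obtain ⟨κ₁, hκ₁, hTOR⟩ := b_TORA 2 (by norm_num) m
  refine ⟨κ₁, hκ₁, fun κ hκ => ?_⟩
  have hκ4 : 4 ≤ κ := hκ₁.trans hκ
  obtain ⟨CT, hCT, hTOR⟩ := hTOR κ hκ
  obtain ⟨CP, hCP, hP⟩ := pt2_all hP2 m hκ4
  obtain ⟨θ₀, hθ₀, hθ₀8, hTSB⟩ := tsb4 hcut Pool.Agent.Q178.UM.QL.t_QL
  refine ⟨θ₀ / (26 * κ + 5), by positivity, fun δ hδ0 hδ1 => ?_⟩
  have hδ2 : (26 * κ + 5) * δ ≤ θ₀ := by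
    rw [le_div_iff₀ (by positivity)] at hδ1
    linarith
  have hδ3 : δ ≤ 1 / 2 := by nlinarith
  obtain ⟨CS, hCS, hTS⟩ := hTSB δ hδ0 hδ3 CT (by linarith)
  refine ⟨δ, CP * (1 + m * (CS * CT + CS) + m * ((4 * CT) * 2) + m * (m * ((CS * CT) * 2 + CS))) * 2, hδ0, by positivity, ?_⟩
  have hgrow := ev_grow (C := CT) (δ := δ) (θ := θ₀) hδ0 hθ₀
  filter_upwards [hTS, hgrow, eventually_ge_atTop (16 : ℝ), Real.tendsto_log_atTop.eventually_ge_atTop 1,
    Real.tendsto_log_atTop.eventually_ge_atTop (1 / δ)] with T hTS hgrow hT hL1 hLδ k α hk hk1 hα N hN b hb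
  have hT0 : 0 < T := by linarith
  have hT1 : 1 ≤ T := by linarith
  have hL0 : 0 < Real.log T := by linarith
  have hDexp : Real.exp (δ * Real.log T) = T ^ δ := by
    rw [Real.rpow_def_of_pos hT0, mul_comm]
  have hpert := fun x w => pert_ua (T := T) hL0 hδ0 (by linarith : δ ≤ 1) x w
  obtain ⟨D, hDd⟩ : ∃ D : ℝ, D = δ * Real.log T := ⟨_, rfl⟩
  rw [← hDd] at hgrow hDexp hpert ⊢
  have hD1 : 1 ≤ D := by
    rw [hDd]
    rw [div_le_iff₀ hδ0] at hLδ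
    linarith
  rcases Nat.eq_zero_or_pos N with hN0 | hN1
  · -- trivial case
    subst hN0
    have h1 : ∀ t, dp 0 b t = 0 := fun t => by simp [dp]
    simp only [h1, norm_zero]
    have h2 : ∫ t in T..(2 * T), (∏ j, ‖zt (t + α j)‖ ^ (2 * k j)) * (0 : ℝ) ^ 2 = 0 := by
      simp
    rw [h2]
    have := Pool.Agent.Q184.UM.N2_nonneg (M9 D κ * 0) (cv (ebk D κ (ap k α) (ap k (fun j => 2 * α j)) 0 (JB D)) b)
    positivity
  have hNr : (1 : ℝ) ≤ N := by exact_mod_cast hN1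
  have hlogN : Real.log N ≤ D := by
    have h1 := Real.log_le_log (by linarith) hN
    rw [Real.log_rpow hT0] at h1
    rw [hDd]
    exact h1
  -- the family, with half the exponents and doubled coefficients
  obtain ⟨kk, hkk⟩ : ∃ kk : Fin m → ℝ, kk = fun i => k i / 2 := ⟨_, rfl⟩
  obtain ⟨a, ha⟩ : ∃ a : Fin m → ℕ → ℂ, a = fun i n => 2 * ua (α i) n := ⟨_, rfl⟩
  obtain ⟨a2, ha2⟩ : ∃ a2 : Fin m → ℕ → ℂ, a2 = fun i n => 2 * ua (2 * α i) n := ⟨_, rfl⟩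
  have hla : ap k α = lc kk a := by
    funext n
    rw [hkk, ha]
    unfold ap lc ua
    refine Finset.sum_congr rfl fun i _ => ?_
    push_cast
    ring
  have hla2 : ap k (fun j => 2 * α j) = lc kk a2 := by
    funext n
    rw [hkk, ha2]
    unfold ap lc ua
    refine Finset.sum_congr rfl fun i _ => ?_
    push_cast
    ring
  have hkk0 : ∀ i, 0 ≤ kk i := fun i => by rw [hkk]; have := hk i; positivity
  have hkk1 : ∑ i, kk i ≤ 1 := by
    rw [hkk]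
    simp only
    rw [← Finset.sum_div]
    linarith
  rw [hla, hla2]
  obtain ⟨e, he⟩ : ∃ e : ℕ → ℂ, e = ebk D κ (lc kk a) (lc kk a2) 0 (JB D) := ⟨_, rfl⟩
  rw [← he]
  obtain ⟨W, hW⟩ : ∃ W : ℝ, W = 2 * N2 (M9 D κ * N) (cv e b) := ⟨_, rfl⟩
  have hW0 : 0 ≤ W := by rw [hW]; have := Pool.Agent.Q184.UM.N2_nonneg (M9 D κ * N) (cv e b); positivity
  have hκ1 : 1 ≤ κ := by linarith
  have hbN : ∀ n, N < n → b n = 0 := by
    intro n hn
    by_contra h
    have := (hb n h).2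
    omega
  have hWe : ∀ t, dp (M9 D κ * N) (cv e b) t = Ef D κ (lc kk a) (lc kk a2) 0 t * dp N b t := by
    obtain ⟨he1, he2, -⟩ := hCOF κ D hκ1 hD1 (lc kk a) (lc kk a2) (fun _ => 1) (fun _ => 1) 0 0
    rw [Nat.sub_zero, ← he] at he1 he2
    have heN : ∀ n, M9 D κ < n → e n = 0 := by
      intro n hn
      by_contra h
      have := (he1 n h).2
      omega
    intro t
    rw [← hDPM.1 (M9 D κ) N e b t heN hbN, he2]
  have hWMB : MB (fun t => ‖Ef D κ (lc kk a) (lc kk a2) 0 t * dp N b t‖ ^ 2) W := by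
    have h1 := MB_of hMVL (M9 D κ * N) (cv e b)
    rw [hW]
    simpa only [hWe] using h1
  have hbd2 : ∀ (x : ℝ) (n : ℕ), ‖2 * ua x n‖ ≤ 2 := fun x n => by
    rw [norm_mul]
    have := ua_norm x n
    simp only [Complex.norm_ofNat]
    linarith
  have hfam : FamA 2 kk a a2 := by
    refine ⟨hkk0, hkk1, fun i n => ?_, fun i n => ?_⟩
    · rw [ha]
      exact hbd2 _ _
    · rw [ha2]
      exact hbd2 _ _
  have hTORq := hTOR D hD1 kk a a2 hfam N b hN1 hlogN hb W hWMB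
  have hlen : ∀ M : ℕ, 1 ≤ M → Real.log M ≤ (26 * κ + 4) * D + Real.log N → (M : ℝ) ≤ T ^ θ₀ := by
    intro M hM hMl
    have h1 : Real.log M ≤ θ₀ * Real.log T := by
      have h2 : (26 * κ + 4) * D + Real.log N ≤ (26 * κ + 5) * δ * Real.log T := by
        have h3 : (26 * κ + 4) * D + Real.log N ≤ (26 * κ + 4) * D + D := by linarith
        refine h3.trans (le_of_eq ?_)
        rw [hDd]; ring
      have h4 : (26 * κ + 5) * δ * Real.log T ≤ θ₀ * Real.log T := mul_le_mul_of_nonneg_right hδ2 hL0.le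
      linarith
    have hM1 : (0 : ℝ) < M := by exact_mod_cast hM
    rw [Real.rpow_def_of_pos hT0, ← Real.exp_log hM1]
    apply Real.exp_le_exp.2
    linarith
  have hmono : ∀ {x y : ℝ}, x ≤ y → T ^ x ≤ T ^ y := fun h => Real.rpow_le_rpow_of_exponent_le hT1 h
  have hθ4 : T ^ θ₀ ≤ T ^ (1 / 4 : ℝ) := hmono (by linarith)
  -- the main term
  have part0 : ∫ t in T..(2 * T), ‖Ef D κ (lc kk a) (lc kk a2) 0 t * dp N b t‖ ^ 2 ≤ T * W := by
    have hl : ((M9 D κ * N : ℕ) : ℝ) ≤ T ^ (1 / 4 : ℝ) := by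
      refine le_trans ?_ hθ4
      push_cast
      have h1 : ((M9 D κ : ℕ) : ℝ) ≤ Real.exp (26 * κ * D) := Nat.floor_le (Real.exp_pos _).le
      have h2 : (N : ℝ) ≤ Real.exp D := by
        rw [hDexp]; exact hN
      calc ((M9 D κ : ℕ) : ℝ) * N ≤ Real.exp (26 * κ * D) * Real.exp D := by gcongr
        _ = Real.exp ((26 * κ + 1) * D) := by rw [← Real.exp_add]; congr 1; ring
        _ ≤ Real.exp (Real.log T * θ₀) := by
            apply Real.exp_le_exp.2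
            rw [hDd]
            have : (26 * κ + 1) * (δ * Real.log T) ≤ (26 * κ + 5) * δ * Real.log T := by
              have : 0 ≤ δ * Real.log T := by positivity
              nlinarith
            have h4 : (26 * κ + 5) * δ * Real.log T ≤ θ₀ * Real.log T := mul_le_mul_of_nonneg_right hδ2 hL0.le
            linarith
        _ = T ^ θ₀ := by rw [Real.rpow_def_of_pos hT0]
    have h1 := (hMVL T hT (M9 D κ * N) hl (cv e b)).2
    simp only [hWe] at h1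
    refine h1.trans (le_of_eq ?_)
    rw [hW]; ring
  -- the first part
  have part1 : ∀ q : ℕ, q ≤ JB D → ∀ i, ∫ t in T..(2 * T), ‖Ef D κ (lc kk a) (lc kk a2) q t * pw D κ (a i) (a2 i) q t * dp N b t‖ ^ 2 ≤
        (4 * CT) * Real.exp (-(2 * (q : ℝ))) * (T * W) := by
    intro q hq i
    obtain ⟨-, -, h1⟩ := hCOF κ D hκ1 hD1 (lc kk a) (lc kk a2) (a i) (a2 i) q q
    obtain ⟨M, c, hM1, hMl, hcs, hdp⟩ := h1 N b hN1 hlogN hb
    have h2 := (hTORq i i q hq).2.1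
    simp only [← hdp] at h2 ⊢
    have h3 := N2_of_MB hMVL h2
    have h4 := (hMVL T hT M ((hlen M hM1 hMl).trans hθ4) c).2
    refine h4.trans ?_
    calc 2 * T * N2 M c ≤ 2 * T * (2 * (CT * Real.exp (-(2 * (q : ℝ))) * W)) := by gcongr
      _ = _ := by ring
  -- the second part
  have part2 : ∀ q : ℕ, q ≤ JB D → ∀ i i', ∫ t in T..(2 * T), (‖zt (t + α i')‖ ^ 2) ^ 2 *
      ‖Ef D κ (fun n => lc kk a n - a i' n) (fun n => lc kk a2 n - a2 i' n) q t *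
        pw D κ (a i) (a2 i) q t * dp N b t‖ ^ 2 ≤
        (T * W) * ((CS * CT) * Real.exp (-(2 * (q : ℝ))) + CS * (T ^ (-θ₀) * (2 * Real.exp (CT * Real.sqrt D)))) := by
    intro q hq i i'
    obtain ⟨-, -, h1⟩ := hCOF κ D hκ1 hD1 (fun n => lc kk a n - a i' n) (fun n => lc kk a2 n - a2 i' n) (a i) (a2 i) q q
    obtain ⟨M, c, hM1, hMl, hcs, hdp⟩ := h1 N b hN1 hlogN hb
    obtain ⟨h2, -, h3⟩ := hTORq i' i q hq
    simp only [← hdp] at h2 h3 ⊢
    have h4 := N2_of_MB hMVL h3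
    have hMm := hlen M hM1 hMl
    have h5 := hTS (α i') (hα i') M c hMm (fun n hn => by
      rw [← hDexp]
      exact hcs n hn) (CT * Real.exp (-(2 * (q : ℝ))) * W) (fun w => by
        obtain ⟨q1, q2⟩ := hpert (α i') w
        have h6 := h2 (1 + |w|) (by have := abs_nonneg w; linarith) _ _ q1 q2
        have e1 : a i' = fun n => 2 * ua (α i') n := by rw [ha]
        have e2 : a2 i' = fun n => 2 * ua (2 * α i') n := by rw [ha2]
        rw [← hDexp]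
        have h7 : ∀ t, ‖cexp (∑ l ∈ Finset.range (JB D), (zf D (a i') (a2 i') l t +
            zf D (fun n => ua (α i' + w / Real.log T) n - ua (α i') n)
              (fun n => ua (2 * (α i' + w / Real.log T)) n - ua (2 * α i') n) l t))‖ ^ 2 =
            ‖cexp (PA ⌊Real.exp D⌋₊ (ua (α i')) (ua (2 * α i')) t)‖ ^ 2 *
              ‖cexp (PA ⌊Real.exp D⌋₊ (ua (α i' + w / Real.log T)) (ua (2 * (α i' + w / Real.log T))) t)‖ ^ 2 := by
          intro t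
          rw [e1, e2]
          exact exp_blocks hD1 (α i') (α i' + w / Real.log T) t
        simp only [h7] at h6
        have h8 : CT * Real.exp (CT * (1 + |w|) ^ (3 / 5 : ℝ)) * Real.exp (-(2 * (q : ℝ))) * W =
            Real.exp (CT * (1 + |w|) ^ (3 / 5 : ℝ)) * (CT * Real.exp (-(2 * (q : ℝ))) * W) := by ring
        rw [h8] at h6
        exact h6)
    have h9 : ∫ t in T..(2 * T), (‖zt (t + α i')‖ ^ 2) ^ 2 * ‖dp M c t‖ ^ 2 =
        ∫ t in T..(2 * T), ‖zt (t + α i')‖ ^ 4 * ‖dp M c t‖ ^ 2 :=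
      intervalIntegral.integral_congr fun t _ => by
        rw [← pow_mul]
    rw [h9]
    refine h5.trans ?_
    have hTθ0 : 0 ≤ T ^ (-θ₀) := Real.rpow_nonneg hT0.le _
    calc CS * T * (CT * Real.exp (-(2 * (q : ℝ))) * W + T ^ (-θ₀) * N2 M c) ≤
        CS * T * (CT * Real.exp (-(2 * (q : ℝ))) * W + T ^ (-θ₀) * (2 * (Real.exp (CT * Real.sqrt D) * W))) := by gcongr
      _ = _ := by ring
  have hε : ((JB D : ℝ) + 1) * (T ^ (-θ₀) * (2 * Real.exp (CT * Real.sqrt D))) ≤ 1 := by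
    have h1 : T ^ (-θ₀) * T ^ θ₀ = 1 := by
      rw [← Real.rpow_add hT0, neg_add_cancel, Real.rpow_zero]
    calc ((JB D : ℝ) + 1) * (T ^ (-θ₀) * (2 * Real.exp (CT * Real.sqrt D))) =
        T ^ (-θ₀) * (2 * Real.exp (CT * Real.sqrt D) * ((JB D : ℝ) + 1)) := by ring
      _ ≤ T ^ (-θ₀) * T ^ θ₀ := mul_le_mul_of_nonneg_left hgrow (Real.rpow_nonneg hT0.le _)
      _ = 1 := h1
  have hfin := ubm_coreG (m := m) (κ := κ) (T := T) (W := W) (D := D) (N := N) (b := b) (k := kk)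
    (Z := fun i t => ‖zt (t + α i)‖ ^ 2) (a := a) (a2 := a2) (fun i => (ztc.comp (by fun_prop)).norm.pow 2)
    hT0.le (by linarith : (0 : ℝ) ≤ CP) hW0 hCS (by positivity) (by positivity) hkk0
    (by have := Real.rpow_nonneg hT0.le (-θ₀); positivity)
    (fun t => hP D t kk a a2 (fun i => ‖zt (t + α i)‖ ^ 2) hkk0 hkk1 (fun i => by positivity) (dp N b t))
    part0 part1 part2 hε
  have hlhs : ∫ t in T..(2 * T), (∏ j, ‖zt (t + α j)‖ ^ (2 * k j)) * ‖dp N b t‖ ^ 2 =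
      ∫ t in T..(2 * T), (∏ i, (‖zt (t + α i)‖ ^ 2) ^ (2 * kk i)) * ‖dp N b t‖ ^ 2 := by
    refine intervalIntegral.integral_congr fun t _ => ?_
    congr 1
    refine Finset.prod_congr rfl fun i _ => ?_
    rw [← Real.rpow_natCast, ← Real.rpow_mul (norm_nonneg _), hkk]
    congr 1
    push_cast
    ring
  rw [hlhs]
  refine hfin.trans (le_of_eq ?_)
  rw [hW]
  ring

end

end Pool.Agent.H469.F4
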