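import Pool.Agent.H469.F4.NP4

set_option autoImplicit false

/-!
# Mean square of the product with a polynomial whose coefficients decay
-/

namespace Pool.Agent.H469.F4

open Filter Topology MeasureTheory Complex Pool.Agent.Q97.UM Pool.Agent.Q14.UM
open Pool.Agent.Q299.UM (Fp Fp_apply NN_Fp qb_le te_le cvp_le Ee Ee_apply NN NN_mul NN_one NN_pow NN_Ee NN_sum NN_prod Le Le_mul
  Ee_sum Ee_zero SPA SPA_mul SPA_one SPA_pow SPA_Ee SPA_prod SPA_mono N2A N2A_nonneg N2A_mul N2A_prod N2A_local Fp_one Fp_self SPA_Fp Fp_l1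
  sum_ap Le_trans Le_refl ebk_le)

noncomputable section

/-- multiplication by `n^(-τ)` -/
def dk (τ : ℝ) (F : ArithmeticFunction ℝ) : ArithmeticFunction ℝ := ⟨fun n => F n * (n : ℝ) ^ (-τ), by simp⟩

theorem dk_apply (τ : ℝ) (F : ArithmeticFunction ℝ) (n : ℕ) : dk τ F n = F n * (n : ℝ) ^ (-τ) := rfl

theorem dk_one (τ : ℝ) : dk τ 1 = 1 := by
  ext n
  rw [dk_apply, ArithmeticFunction.one_apply]
  split_ifs with h
  · rw [h]
    simp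
  · rw [zero_mul]

theorem dk_mul (τ : ℝ) (F G : ArithmeticFunction ℝ) : dk τ (F * G) = dk τ F * dk τ G := by
  ext n
  rw [dk_apply, ArithmeticFunction.mul_apply, ArithmeticFunction.mul_apply, Finset.sum_mul]
  refine Finset.sum_congr rfl fun x hx => ?_
  rw [Nat.mem_divisorsAntidiagonal] at hx
  rw [dk_apply, dk_apply, ← hx.1, Nat.cast_mul, Real.mul_rpow (Nat.cast_nonneg _) (Nat.cast_nonneg _)]
  ring

theorem dk_prod {ι : Type*} (τ : ℝ) (s : Finset ι) (F : ι → ArithmeticFunction ℝ) : dk τ (∏ i ∈ s, F i) = ∏ i ∈ s, dk τ (F i) := by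
  classical
  induction s using Finset.induction_on with
  | empty => rw [Finset.prod_empty, Finset.prod_empty, dk_one]
  | insert i s hi ih => rw [Finset.prod_insert hi, Finset.prod_insert hi, dk_mul, ih]

theorem NN_dk (τ : ℝ) {F : ArithmeticFunction ℝ} (hF : NN F) : NN (dk τ F) := fun n => mul_nonneg (hF n) (by positivity)

theorem SPA_dk (τ : ℝ) {P : ℕ → Prop} {F : ArithmeticFunction ℝ} (hF : SPA P F) : SPA P (dk τ F) := by
  intro n hn q hq hqn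
  refine hF n ?_ q hq hqn
  rw [dk_apply] at hn
  exact left_ne_zero_of_mul hn

theorem Wt_dk {τ : ℝ} (hτ : 0 ≤ τ) (X : ℕ) {F : ArithmeticFunction ℝ} (hF : NN F) : Wt X (dk τ F) ≤ Wt X F := by
  unfold Wt
  refine Finset.sum_le_sum fun n hn => ?_
  have h1 : (1 : ℝ) ≤ n := by exact_mod_cast (Finset.mem_Icc.1 hn).1
  have h2 : (n : ℝ) ^ (-τ) ≤ 1 := Real.rpow_le_one_of_one_le_of_nonpos h1 (by linarith)
  apply mul_le_mul_of_nonneg_right _ (wt_pos n).le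
  rw [dk_apply]
  exact mul_le_of_le_one_right (hF n) h2

/-- the factor at `p` -/
theorem local_dk {A τ : ℝ} (hτ : 0 ≤ τ) {a a2 : ℕ → ℂ} (ha : ∀ n, ‖a n‖ ≤ A) (ha2 : ∀ n, ‖a2 n‖ ≤ A) {p : ℕ} (hp : p.Prime)
    (R X : ℕ) : N2A X (Ee (Fp a a2 p) R * dk τ (geo p)) ≤
      Real.exp ((‖a p‖ + (p : ℝ) ^ (-τ)) ^ 2 / p + 4 * (Real.exp (2 * A) * 4) ^ 2 * (1 / (p : ℝ) ^ 2)) := by
  have hp0 : (0 : ℝ) < p := by exact_mod_cast hp.pos
  have hA : 0 ≤ A := (norm_nonneg _).trans (ha 0)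
  have hN1 : NN (Ee (Fp a a2 p) R) := NN_Ee (NN_Fp a a2 p) R
  have hN2 : NN (dk τ (geo p)) := NN_dk τ (NN_geo p)
  refine (N2A_Wt (NN_mul hN1 hN2) hp (SPA_mul (SPA_Ee (SPA_Fp a a2 hp) R) (SPA_dk τ (SPA_geo p))) X).trans ?_
  have h0 : dk τ (geo p) 1 = 1 := by rw [dk_apply, geo_one]; simp
  have h1 : (Ee (Fp a a2 p) R * dk τ (geo p)) 1 = 1 := by
    rw [mul_at_one, Ee_one (Fp_one a a2 hp), h0, one_mul]
  have h2 : (Ee (Fp a a2 p) R * dk τ (geo p)) p ≤ ‖a p‖ + (p : ℝ) ^ (-τ) := by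
    rw [mul_at_prime _ _ hp, Ee_one (Fp_one a a2 hp), h0, dk_apply, geo_prime hp, one_mul, one_mul, mul_one]
    have := Ee_prime (NN_Fp a a2 p) (Fp_one a a2 hp) hp R
    rw [Fp_self a a2 hp] at this
    linarith
  have h2' : 0 ≤ (Ee (Fp a a2 p) R * dk τ (geo p)) p := NN_mul hN1 hN2 p
  have h3 : Wt X (Ee (Fp a a2 p) R * dk τ (geo p)) ≤ Real.exp (2 * A) * 4 := by
    refine (Wt_mul X hN1 hN2).trans ?_
    apply mul_le_mul _ _ (Wt_nonneg X hN2) (Real.exp_pos _).le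
    · refine (Wt_Ee X (NN_Fp a a2 p) R).trans (Real.exp_le_exp.2 ?_)
      refine (Wt_Fp a a2 p X).trans ?_
      have := ha p
      have := ha2 p
      linarith
    · exact (Wt_dk hτ X (NN_geo p)).trans (Wt_geo hp X)
  have h3' : 0 ≤ Wt X (Ee (Fp a a2 p) R * dk τ (geo p)) := Wt_nonneg X (NN_mul hN1 hN2)
  rw [h1]
  have h4 : (Ee (Fp a a2 p) R * dk τ (geo p)) p ^ 2 / (p : ℝ) ≤ (‖a p‖ + (p : ℝ) ^ (-τ)) ^ 2 / p :=
    div_le_div_of_nonneg_right (pow_le_pow_left₀ h2' h2 2) hp0.le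
  have h5 : 4 * Wt X (Ee (Fp a a2 p) R * dk τ (geo p)) ^ 2 / (p : ℝ) ^ 2 ≤ 4 * (Real.exp (2 * A) * 4) ^ 2 * (1 / (p : ℝ) ^ 2) := by
    rw [mul_one_div]
    apply div_le_div_of_nonneg_right _ (by positivity)
    exact mul_le_mul_of_nonneg_left (pow_le_pow_left₀ h3' h3 2) (by norm_num)
  have h6 := Real.add_one_le_exp ((‖a p‖ + (p : ℝ) ^ (-τ)) ^ 2 / (p : ℝ) + 4 * (Real.exp (2 * A) * 4) ^ 2 * (1 / (p : ℝ) ^ 2))
  linarith

/-- **upper bound for decaying coefficients** -/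
theorem upper_dk {A B τ : ℝ} (hB : 0 ≤ B) (hτ : 0 ≤ τ) {D κ : ℝ} (hD : 1 ≤ D) {a a2 : ℕ → ℂ} (ha : ∀ n, ‖a n‖ ≤ A)
    (ha2 : ∀ n, ‖a2 n‖ ≤ A) {b : ℕ → ℂ} (hb : ∀ n, b n ≠ 0 → 1 ≤ n ∧ n ≤ ⌊Real.exp D⌋₊) (hbB : ∀ n, 1 ≤ n → ‖b n‖ ≤ B * (n : ℝ) ^ (-τ))
    (Y : ℕ) :
    N2 Y (cv (ebk D κ a a2 0 (JB D)) b) ≤ B ^ 2 * Real.exp (8 * (Real.exp (2 * A) * 4) ^ 2) *
      Real.exp (∑ p ∈ (Finset.Icc 1 ⌊Real.exp D⌋₊).filter Nat.Prime, (‖a p‖ + (p : ℝ) ^ (-τ)) ^ 2 / p) := by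
  classical
  obtain ⟨E, hE⟩ : ∃ E : ArithmeticFunction ℝ, E = ∏ j ∈ Finset.range (JB D), ∏ p ∈ PB D j, Ee (Fp a a2 p) (R9 κ j) := ⟨_, rfl⟩
  obtain ⟨P, hP⟩ : ∃ P : ArithmeticFunction ℝ, P = ∏ p ∈ (Finset.Icc 1 ⌊Real.exp D⌋₊).filter Nat.Prime, dk τ (geo p) := ⟨_, rfl⟩
  have hNE : NN E := by
    rw [hE]
    exact NN_prod _ _ fun j _ => NN_prod _ _ fun p _ => NN_Ee (NN_Fp a a2 p) _
  have hNP : NN P := by
    rw [hP]
    exact NN_prod _ _ fun p _ => NN_dk τ (NN_geo p)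
  have hPd : P = dk τ (Gp ⌊Real.exp D⌋₊) := by
    rw [hP]
    unfold Gp
    rw [dk_prod]
  have hbP : ∀ n, ‖b n‖ ≤ (B • P) n := by
    intro n
    rw [ArithmeticFunction.smul_map, smul_eq_mul]
    by_cases h2 : b n = 0
    · rw [h2, norm_zero]
      exact mul_nonneg hB (hNP n)
    · obtain ⟨h3, h4⟩ := hb n h2
      have h5 := Gp_ge h3 h4
      refine (hbB n h3).trans ?_
      apply mul_le_mul_of_nonneg_left _ hB
      rw [hPd, dk_apply]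
      have : 0 ≤ (n : ℝ) ^ (-τ) := by positivity
      nlinarith
  have hcv : ∀ n, ‖cv (ebk D κ a a2 0 (JB D)) b n‖ ≤ (B • (E * P)) n := by
    intro n
    have h1 : B • (E * P) = E * (B • P) := by rw [mul_smul_comm]
    rw [h1, ArithmeticFunction.mul_apply]
    unfold cv
    refine (norm_sum_le _ _).trans (Finset.sum_le_sum fun x _ => ?_)
    rw [norm_mul]
    refine mul_le_mul ?_ (hbP _) (norm_nonneg _) (hNE _)
    rw [hE]
    exact ebk_le D κ a a2 (JB D) x.1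
  have h1 : N2 Y (cv (ebk D κ a a2 0 (JB D)) b) ≤ N2A Y (B • (E * P)) := by
    unfold N2 N2A
    refine Finset.sum_le_sum fun n _ => ?_
    have := hcv n
    gcongr
  refine h1.trans ?_
  rw [N2A_smul, mul_assoc]
  apply mul_le_mul_of_nonneg_left _ (by positivity)
  have h2 : E * P = ∏ x ∈ (Finset.range (JB D)).sigma (fun j => PB D j), (Ee (Fp a a2 x.2) (R9 κ x.1) * dk τ (geo x.2)) := by
    have h3 : P = ∏ x ∈ (Finset.range (JB D)).sigma (fun j => PB D j), dk τ (geo x.2) := by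
      rw [hP, PB_union D hD, Finset.prod_biUnion, Finset.prod_sigma]
      intro i _ j _ hij
      rw [Function.onFun, Finset.disjoint_left]
      intro p hp hp'
      exact hij (PB_disj D (by linarith) hp hp')
    rw [Finset.prod_mul_distrib, ← h3, hE, Finset.prod_sigma']
  rw [h2]
  refine (N2A_prod Y _ _ (fun x : (_ : ℕ) × ℕ => x.2) ?_ ?_).trans ?_
  · rintro ⟨i, p⟩ hx ⟨j, q⟩ hy h
    rw [Finset.mem_sigma] at hx hy
    simp only at h hx hy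
    subst h
    have := PB_disj D (by linarith) hx.2 hy.2
    subst this
    rfl
  · rintro ⟨i, p⟩ hx
    rw [Finset.mem_sigma] at hx
    exact SPA_mul (SPA_Ee (SPA_Fp a a2 (mem_PB hx.2).1) _) (SPA_dk τ (SPA_geo p))
  · obtain ⟨K, hK⟩ : ∃ K : ℝ, K = 4 * (Real.exp (2 * A) * 4) ^ 2 := ⟨_, rfl⟩
    have hK0 : 0 ≤ K := by rw [hK]; positivity
    have h3 : ∀ x ∈ (Finset.range (JB D)).sigma (fun j => PB D j), N2A Y (Ee (Fp a a2 x.2) (R9 κ x.1) * dk τ (geo x.2)) ≤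
        Real.exp ((‖a x.2‖ + (x.2 : ℝ) ^ (-τ)) ^ 2 / x.2 + K * (1 / (x.2 : ℝ) ^ 2)) := by
      rintro ⟨j, p⟩ hx
      rw [Finset.mem_sigma] at hx
      rw [hK]
      exact local_dk hτ ha ha2 (mem_PB hx.2).1 (R9 κ j) Y
    refine (Finset.prod_le_prod (fun x _ => N2A_nonneg _ _) h3).trans ?_
    rw [← Real.exp_sum, ← Real.exp_add, Real.exp_le_exp,
      Finset.sum_sigma' (Finset.range (JB D)) (fun j => PB D j)
        (fun _ p => (‖a p‖ + (p : ℝ) ^ (-τ)) ^ 2 / (p : ℝ) + K * (1 / (p : ℝ) ^ 2)) |>.symm]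
    have h5 : ∑ j ∈ Finset.range (JB D), ∑ p ∈ PB D j, ((‖a p‖ + (p : ℝ) ^ (-τ)) ^ 2 / (p : ℝ) + K * (1 / (p : ℝ) ^ 2)) =
        ∑ p ∈ (Finset.Icc 1 ⌊Real.exp D⌋₊).filter Nat.Prime, ((‖a p‖ + (p : ℝ) ^ (-τ)) ^ 2 / (p : ℝ) + K * (1 / (p : ℝ) ^ 2)) := by
      rw [PB_union D hD, Finset.sum_biUnion]
      intro i _ j _ hij
      rw [Function.onFun, Finset.disjoint_left]
      intro p hp hp'
      exact hij (PB_disj D (by linarith) hp hp')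
    rw [h5, Finset.sum_add_distrib, ← Finset.mul_sum]
    have h6 : ∑ p ∈ (Finset.Icc 1 ⌊Real.exp D⌋₊).filter Nat.Prime, (1 / (p : ℝ) ^ 2) ≤ 2 :=
      (Finset.sum_le_sum_of_subset_of_nonneg (Finset.filter_subset _ _) (fun p _ _ => by positivity)).trans (sum_inv_sq _)
    have h7 : K * ∑ p ∈ (Finset.Icc 1 ⌊Real.exp D⌋₊).filter Nat.Prime, (1 / (p : ℝ) ^ 2) ≤ K * 2 :=
      mul_le_mul_of_nonneg_left h6 hK0
    rw [hK] at h7 ⊢
    linarith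

end

end Pool.Agent.H469.F4
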