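import Pool.Graph.R_pool_sql_team_seeded_64922ed1.X107.MU.MU15

set_option autoImplicit false

/-!
# Right of the line: zeta times a finite Euler product against a short polynomial, up to a power saving
-/

namespace Pool.Agent.H469.F4

open Filter Topology MeasureTheory Complex
open Pool.Agent.X107.MU (Qd Qd_cont GZ JG GZ_sq GZ_cont Cz Cz_ge dia gauss_fin split_t norm_cpow S1_pos Ic_pos ev_exp exp_le_of zl_bound shift_int
  zeta_shift_cont GZ_contOn)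
open ZU ZU.J_c3a

noncomputable section

/-- Fubini on an interval -/
theorem fub {a b B : ℝ} (hab : a ≤ b) (hB : 0 < B) {G : ℂ → ℂ} (hG : ContinuousOn G {z : ℂ | a ≤ z.re ∧ z.re ≤ b})
    {q : ℝ → ℝ} (hq : Continuous q) {T1 T2 : ℝ} (hT : T1 ≤ T2) {V : ℝ}
    (hV : ∀ s ∈ rect a b B, ∫ t in T1..T2, q t * ‖G (s + t * I)‖ ^ 2 ≤ V) :
    ∫ t in T1..T2, q t * (∫ w in rect a b B, ‖G (w + t * I)‖ ^ 2) ≤ (b - a) * (2 * B) * V := by
  have e : ∀ (w : ℂ) (u : ℝ), w + ((T1 + u : ℝ) : ℂ) * I = (w + u * I) + T1 * I := by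
    intro w u
    push_cast
    ring
  have h1 := (fubini_bound a b B hab hB (fun w => G (w + T1 * I)) (hG.comp (by fun_prop) (fun w hw => by simpa using hw))
    (fun u => q (T1 + u)) (by fun_prop) (T2 - T1) (by linarith) V (fun s hs => by
      have h2 := intervalIntegral.integral_comp_add_left (a := 0) (b := T2 - T1) (fun t => q t * ‖G (s + t * I)‖ ^ 2) T1
      rw [add_zero, add_sub_cancel] at h2
      refine le_trans (le_of_eq ?_) (hV s hs)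
      rw [← h2]
      refine intervalIntegral.integral_congr fun u _ => ?_
      show q (T1 + u) * ‖G ((s + u * I) + T1 * I)‖ ^ 2 = q (T1 + u) * ‖G (s + ((T1 + u : ℝ) : ℂ) * I)‖ ^ 2
      rw [e])).2
  have h3 := intervalIntegral.integral_comp_add_left (a := 0) (b := T2 - T1)
    (fun t => q t * (∫ w in rect a b B, ‖G (w + t * I)‖ ^ 2)) T1
  rw [add_zero, add_sub_cancel] at h3
  rw [← h3]
  refine le_trans (le_of_eq ?_) h1
  refine intervalIntegral.integral_congr fun u _ => ?_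
  show q (T1 + u) * (∫ w in rect a b B, ‖G (w + ((T1 + u : ℝ) : ℂ) * I)‖ ^ 2) =
    q (T1 + u) * (∫ w in rect a b B, ‖G ((w + u * I) + T1 * I)‖ ^ 2)
  simp_rw [e]

/-- the sum of `n^(-1-ρ)` -/
def Zs (ρ : ℝ) : ℝ := ∑' n : ℕ, (n : ℝ) ^ (-(1 + ρ))

theorem Zs_sum {ρ : ℝ} (hρ : 0 < ρ) : Summable fun n : ℕ => (n : ℝ) ^ (-(1 + ρ)) := Real.summable_nat_rpow.2 (by linarith)

theorem Zs_nonneg (ρ : ℝ) : 0 ≤ Zs ρ := tsum_nonneg fun n => by positivity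

/-- mean values of polynomials -/
theorem mvq {ρ K : ℝ} (hρ : 0 < ρ) (hK : 0 ≤ K) {Y X : ℕ} (hY : 1 ≤ Y) {Bs : Finset ℕ} (hBs : ∀ n ∈ Bs, Y < n ∧ n ≤ X) {c : ℕ → ℂ}
    (hc : ∀ n, ‖c n‖ ≤ K) {w : ℂ} (hw : 1 / 2 + ρ ≤ w.re) {T : ℝ} (hT : 0 < T) :
    ∫ t in (0 : ℝ)..T, ‖Qd Bs c w t‖ ^ 2 ≤ Real.exp 1 * (√Real.pi * T * (K ^ 2 * ((Y : ℝ) ^ (-ρ) * Zs ρ) +
      (K * X) ^ 2 * Real.exp (-(T ^ 2 / (4 * (X : ℝ) ^ 2))))) := by
  classical
  have hB1 : ∀ n ∈ Bs, 1 ≤ n := fun n hn => by have := (hBs n hn).1; omega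
  obtain ⟨x, hx⟩ : ∃ x : ℕ → ℂ, ∀ n, x n = c n * (n : ℂ) ^ (-w) := ⟨_, fun _ => rfl⟩
  have hQ : ∀ t : ℝ, Qd Bs c w t = ∑ n ∈ Bs, x n * (n : ℂ) ^ (-(t * I)) := by
    intro t
    unfold Qd
    refine Finset.sum_congr rfl fun n hn => ?_
    rw [hx, split_t (hB1 n hn), mul_assoc]
  have hxn : ∀ n ∈ Bs, ‖x n‖ ≤ K * (n : ℝ) ^ (-(1 / 2 + ρ)) := by
    intro n hn
    rw [hx, norm_mul, norm_cpow (hB1 n hn)]
    refine mul_le_mul (hc n) ?_ (by positivity) hK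
    exact Real.rpow_le_rpow_of_exponent_le (by exact_mod_cast hB1 n hn) (by linarith)
  obtain ⟨i1, b1⟩ := gauss_fin Bs (fun n : ℕ => n) X (fun n hn => ⟨hB1 n hn, (hBs n hn).2⟩) x T hT
  have hle : ∫ t in (0 : ℝ)..T, ‖Qd Bs c w t‖ ^ 2 ≤
      Real.exp 1 * ∫ t : ℝ, Real.exp (-(t / T) ^ 2) * ‖∑ n ∈ Bs, x n * (((fun n : ℕ => n) n : ℕ) : ℂ) ^ (-(t * I))‖ ^ 2 := by
    rw [intervalIntegral.integral_of_le hT.le, ← integral_const_mul]
    refine (setIntegral_mono_on ?_ (i1.const_mul _).integrableOn measurableSet_Ioc fun t ht => ?_).trans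
      (setIntegral_le_integral (i1.const_mul _) (Eventually.of_forall fun t => by positivity))
    · have h1 : Continuous fun t : ℝ => ‖Qd Bs c w t‖ ^ 2 := (Qd_cont Bs hB1 c w).norm.pow 2
      exact (h1.continuousOn.integrableOn_compact isCompact_Icc).mono_set Set.Ioc_subset_Icc_self
    · rw [hQ t, ← mul_assoc]
      refine le_mul_of_one_le_left (by positivity) ?_
      rw [← Real.exp_add]
      apply Real.one_le_exp
      have h6 : (t / T) ^ 2 ≤ 1 := by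
        have h7 : 0 ≤ t / T := div_nonneg ht.1.le hT.le
        have h8 : t / T ≤ 1 := (div_le_one hT).2 ht.2
        nlinarith
      linarith
  refine hle.trans (mul_le_mul_of_nonneg_left (b1.trans ?_) (Real.exp_pos 1).le)
  refine mul_le_mul_of_nonneg_left (add_le_add ?_ ?_) (by positivity)
  · have h1 : dia Bs (fun n : ℕ => n) (fun i => ‖x i‖) = ∑ n ∈ Bs, ‖x n‖ ^ 2 := by
      unfold dia
      refine Finset.sum_congr rfl fun n hn => ?_
      rw [Finset.sum_ite_eq Bs n (fun j => ‖x n‖ * ‖x j‖), if_pos hn, sq]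
    rw [h1]
    have h2 : ∀ n ∈ Bs, ‖x n‖ ^ 2 ≤ K ^ 2 * ((Y : ℝ) ^ (-ρ) * (n : ℝ) ^ (-(1 + ρ))) := by
      intro n hn
      have hn0 : (0 : ℝ) < n := by exact_mod_cast hB1 n hn
      have hY0 : (0 : ℝ) < Y := by exact_mod_cast hY
      have h3 : ((n : ℝ) ^ (-(1 / 2 + ρ))) ^ 2 = (n : ℝ) ^ (-ρ) * (n : ℝ) ^ (-(1 + ρ)) := by
        rw [← Real.rpow_add hn0, ← Real.rpow_natCast, ← Real.rpow_mul hn0.le]
        congr 1
        push_cast
        ring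
      have h4 : (n : ℝ) ^ (-ρ) ≤ (Y : ℝ) ^ (-ρ) :=
        Real.rpow_le_rpow_of_nonpos hY0 (by exact_mod_cast (hBs n hn).1.le) (by linarith)
      calc ‖x n‖ ^ 2 ≤ (K * (n : ℝ) ^ (-(1 / 2 + ρ))) ^ 2 := pow_le_pow_left₀ (norm_nonneg _) (hxn n hn) 2
        _ = K ^ 2 * ((n : ℝ) ^ (-ρ) * (n : ℝ) ^ (-(1 + ρ))) := by rw [mul_pow, h3]
        _ ≤ _ := by gcongr
    refine (Finset.sum_le_sum h2).trans ?_
    rw [← Finset.mul_sum, ← Finset.mul_sum]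
    have h5 : ∑ n ∈ Bs, (n : ℝ) ^ (-(1 + ρ)) ≤ Zs ρ := (Zs_sum hρ).sum_le_tsum _ fun n _ => by positivity
    gcongr
  · refine mul_le_mul_of_nonneg_right ?_ (Real.exp_pos _).le
    refine pow_le_pow_left₀ (Finset.sum_nonneg fun _ _ => norm_nonneg _) ?_ 2
    have h2 : ∀ n ∈ Bs, ‖x n‖ ≤ K := by
      intro n hn
      refine (hxn n hn).trans (mul_le_of_le_one_right hK ?_)
      exact Real.rpow_le_one_of_one_le_of_nonpos (by exact_mod_cast hB1 n hn) (by linarith)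
    refine (Finset.sum_le_sum h2).trans ?_
    rw [Finset.sum_const, nsmul_eq_mul, mul_comm]
    refine mul_le_mul_of_nonneg_left ?_ hK
    have h4 : Bs ⊆ Finset.Icc 1 X := fun n hn => Finset.mem_Icc.2 ⟨hB1 n hn, (hBs n hn).2⟩
    have h5 := Finset.card_le_card h4
    rw [Nat.card_Icc, Nat.add_sub_cancel] at h5
    exact_mod_cast h5

/-- the rough numbers up to `Y` as a Dirichlet polynomial -/
def G4 (z Y : ℕ) (w : ℂ) : ℂ := ∑ n ∈ S1 z Y, (n : ℂ) ^ (-w)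

/-- its local mean square -/
def J4 (a b B : ℝ) (z Y : ℕ) (t : ℝ) : ℝ := ∫ w in rect a b B, ‖G4 z Y (w + t * I)‖ ^ 2

theorem poly_cont (Bs : Finset ℕ) (hB : ∀ n ∈ Bs, 1 ≤ n) (c : ℕ → ℂ) : Continuous fun w : ℂ => ∑ n ∈ Bs, c n * (n : ℂ) ^ (-w) := by
  refine continuous_finsetSum _ fun n hn => continuous_const.mul ?_
  have h0 : (n : ℂ) ≠ 0 := by
    have := hB n hn
    exact_mod_cast (by omega : n ≠ 0)
  exact Continuous.const_cpow (by fun_prop) (Or.inl h0)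

theorem G4_cont (z Y : ℕ) : Continuous (G4 z Y) := by
  have h := poly_cont (S1 z Y) S1_pos (fun _ => 1)
  unfold G4
  simpa only [one_mul] using h

theorem Jcont {a b B : ℝ} (hab : a ≤ b) (hB : 0 < B) {G : ℂ → ℂ} (hG : ContinuousOn G {z : ℂ | a ≤ z.re ∧ z.re ≤ b}) :
    Continuous fun t : ℝ => ∫ w in rect a b B, ‖G (w + t * I)‖ ^ 2 :=
  (fubini_bound a b B hab hB G hG (fun _ => 0) continuous_const 0 le_rfl 0 (fun s _ => by simp)).1

theorem J4_cont {a b B : ℝ} (hab : a ≤ b) (hB : 0 < B) (z Y : ℕ) : Continuous (J4 a b B z Y) :=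
  Jcont hab hB (G4_cont z Y).continuousOn

theorem J4_nonneg (a b B : ℝ) (z Y : ℕ) (t : ℝ) : 0 ≤ J4 a b B z Y t := integral_nonneg fun _ => by positivity

theorem S1_mono {z Y L : ℕ} (h : Y ≤ L) : S1 z Y ⊆ S1 z L := by
  unfold S1
  exact Finset.filter_subset_filter _ (Finset.Icc_subset_Icc_right h)

theorem S1_le {z L n : ℕ} (h : n ∈ S1 z L) : n ≤ L := by
  unfold S1 at h
  exact (Finset.mem_Icc.1 (Finset.mem_filter.1 h).1).2

theorem S1_diff {z Y L n : ℕ} (h : n ∈ S1 z L \ S1 z Y) : Y < n ∧ n ≤ L := by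
  obtain ⟨h1, h2⟩ := Finset.mem_sdiff.1 h
  refine ⟨?_, S1_le h1⟩
  by_contra hc
  refine h2 ?_
  unfold S1 at h1 ⊢
  rw [Finset.mem_filter, Finset.mem_Icc] at h1 ⊢
  exact ⟨⟨h1.1.1, not_lt.1 hc⟩, h1.2⟩

end

end Pool.Agent.H469.F4
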