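import Pool.Agent.H469.F4.UL2

set_option autoImplicit false

/-!
# The error terms have mean a power of `T` below `1`
-/

namespace Pool.Agent.H469.F4

open Filter Topology MeasureTheory Complex
open Pool.Agent.X107.MU (Qd Qd_cont GZ JG GZ_sq GZ_cont Cz Cz_ge dia gauss_fin split_t norm_cpow S1_pos Ic_pos ev_exp exp_le_of zl_bound shift_int
  zeta_shift_cont GZ_contOn)
open ZU ZU.J_c3a

noncomputable section

theorem Qd_eq (Bs : Finset ℕ) (c : ℕ → ℂ) (w : ℂ) (t : ℝ) : Qd Bs c w t = ∑ n ∈ Bs, c n * (n : ℂ) ^ (-(w + t * I)) := rfl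

theorem zetaDN_contOn (L : ℕ) {a b : ℝ} (hb : b < 1) :
    ContinuousOn (fun w : ℂ => riemannZeta w - DN L w) {w : ℂ | a ≤ w.re ∧ w.re ≤ b} := by
  intro w hw
  have hw1 : w ≠ 1 := by
    rintro rfl
    have := hw.2
    simp at this
    linarith
  exact ((differentiableAt_riemannZeta hw1).continuousAt.sub (ZU.J_c3.rough_mv_DN_cont L).continuousAt).continuousWithinAt

theorem err {a b B : ℝ} (ha : 1 / 2 < a) (hab : a ≤ b) (hb : b < 1) (hB : 0 < B) {θ : ℝ} (hθ : 0 < θ) (hθ1 : θ ≤ 1 / 2) :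
    ∃ p : ℝ, 0 ≤ p ∧ p < 1 ∧ ∀ z : ℕ, ∃ K : ℝ, 0 ≤ K ∧ ∀ᶠ T : ℝ in atTop, ∃ M : ℝ → ℝ, Continuous M ∧ (∀ t, 0 ≤ M t) ∧
      (∀ t, JG a b B z t ≤ M t + 6 * J4 a b B z ⌊T ^ θ⌋₊ t) ∧ ∫ t in (0 : ℝ)..T, M t ≤ K * T ^ p := by
  obtain ⟨ρ, hρ⟩ : ∃ ρ, ρ = a - 1 / 2 := ⟨_, rfl⟩
  have hρ0 : 0 < ρ := by linarith
  have hρ1 : ρ ≤ 1 / 2 := by linarith
  have ha0 : 0 < a := by linarith
  obtain ⟨κ, hκa, hκb⟩ : ∃ κ, 1 / (2 * a) < κ ∧ κ < 1 := exists_between (by rw [div_lt_one (by linarith)]; linarith)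
  have hκ2 : 1 / 2 < κ := by
    refine lt_trans ?_ hκa
    rw [div_lt_div_iff₀ (by norm_num) (by linarith)]
    linarith
  obtain ⟨p0, hp0, hp01, K0, hK0, hzl⟩ := zl_bound ha hab hb hB hκa hκb
  obtain ⟨α, hα⟩ : ∃ α, α = (1 + κ) / 2 := ⟨_, rfl⟩
  have hα1 : α < 1 := by linarith
  obtain ⟨p, hp⟩ : ∃ p, p = max p0 (1 - θ * ρ) := ⟨_, rfl⟩
  have hθρ : 0 < θ * ρ := by positivity
  have hpa : p0 ≤ p := by rw [hp]; exact le_max_left _ _
  have hpb : 1 - θ * ρ ≤ p := by rw [hp]; exact le_max_right _ _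
  have hp1 : p < 1 := by rw [hp]; exact max_lt hp01 (by linarith)
  have hpn : 0 ≤ p := hp0.trans hpa
  refine ⟨p, hpn, hp1, fun z => ?_⟩
  obtain ⟨E0, hE0⟩ : ∃ E0, E0 = Real.exp 1 * √Real.pi * (2 * Zs ρ + 1) := ⟨_, rfl⟩
  have hZ := Zs_nonneg ρ
  have hpi := Real.pi_pos
  have hE0n : 0 ≤ E0 := by rw [hE0]; positivity
  have hC := Cz_ge z
  obtain ⟨P, hP⟩ : ∃ P : ℕ, P = ∏ p ∈ pr z, p := ⟨_, rfl⟩
  have hP1 : 1 ≤ P := by rw [hP]; exact pr_pos (Finset.Subset.refl _)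
  have hV0 : 0 ≤ (b - a) * (2 * B) := mul_nonneg (by linarith) (by linarith)
  refine ⟨(b - a) * (2 * B) * (3 * Cz z ^ 2 * K0 + 6 * E0 + 3 * (Cz z ^ 2 * E0)), by positivity, ?_⟩
  have f1 := ev_exp 3 (2 - 2 * α) 1 (by linarith) one_pos
  have f2 : ∀ᶠ T : ℝ in atTop, (P : ℝ) ≤ T ^ ((1 - κ) / 2) := (tendsto_rpow_atTop (by linarith)).eventually_ge_atTop _
  have f3 : ∀ᶠ T : ℝ in atTop, (1 : ℝ) ≤ T ^ θ := (tendsto_rpow_atTop hθ).eventually_ge_atTop _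
  filter_upwards [f1, f2, f3, hzl, eventually_ge_atTop (1 : ℝ)] with T g1 g2 g3 g4 hT1
  have hT0 : 0 < T := by linarith
  obtain ⟨L, hL⟩ : ∃ L, L = ⌊T ^ κ⌋₊ := ⟨_, rfl⟩
  obtain ⟨Y, hY⟩ : ∃ Y, Y = ⌊T ^ θ⌋₊ := ⟨_, rfl⟩
  rw [← hL] at g4
  rw [← hY]
  have hY1 : 1 ≤ Y := by rw [hY]; exact Nat.le_floor (by push_cast; exact g3)
  have hYL : Y ≤ L := by
    rw [hY, hL]
    exact Nat.floor_le_floor (Real.rpow_le_rpow_of_exponent_le hT1 (by linarith))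
  have hL1 : 1 ≤ L := hY1.trans hYL
  obtain ⟨X, hX⟩ : ∃ X, X = L * P := ⟨_, rfl⟩
  have hLX : L ≤ X := by rw [hX]; exact Nat.le_mul_of_pos_right L hP1
  have hX1 : 1 ≤ X := hL1.trans hLX
  have hXT : (X : ℝ) ≤ T ^ α := by
    have h1 : (L : ℝ) ≤ T ^ κ := by rw [hL]; exact Nat.floor_le (by positivity)
    have h2 : T ^ α = T ^ κ * T ^ ((1 - κ) / 2) := by
      rw [← Real.rpow_add hT0]
      congr 1
      rw [hα]
      ring
    rw [hX, h2]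
    push_cast
    exact mul_le_mul h1 g2 (Nat.cast_nonneg _) (by positivity)
  have hTp : 1 ≤ T ^ p := Real.one_le_rpow hT1 hpn
  -- the two parts of the mean value
  have t1 : T * (Y : ℝ) ^ (-ρ) ≤ 2 * T ^ p := by
    have h1 : T ^ θ / 2 ≤ Y := by
      have := Nat.lt_floor_add_one (T ^ θ)
      rw [← hY] at this
      have h2 : (1 : ℝ) ≤ Y := by exact_mod_cast hY1
      linarith
    have h2 : (Y : ℝ) ^ (-ρ) ≤ (T ^ θ / 2) ^ (-ρ) := Real.rpow_le_rpow_of_nonpos (by positivity) h1 (by linarith)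
    have h3 : (T ^ θ / 2) ^ (-ρ) = T ^ (-(θ * ρ)) * 2 ^ ρ := by
      rw [Real.div_rpow (by positivity) (by norm_num), ← Real.rpow_mul hT0.le, Real.rpow_neg (by norm_num : (0 : ℝ) ≤ 2), div_inv_eq_mul]
      congr 2
      ring
    have h4 : (2 : ℝ) ^ ρ ≤ 2 := by
      calc (2 : ℝ) ^ ρ ≤ (2 : ℝ) ^ (1 : ℝ) := Real.rpow_le_rpow_of_exponent_le (by norm_num) (by linarith)
        _ = 2 := Real.rpow_one 2
    have h5 : T * T ^ (-(θ * ρ)) = T ^ (1 - θ * ρ) := by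
      rw [sub_eq_add_neg, Real.rpow_add hT0, Real.rpow_one]
    have h6 : T ^ (1 - θ * ρ) ≤ T ^ p := Real.rpow_le_rpow_of_exponent_le hT1 hpb
    calc T * (Y : ℝ) ^ (-ρ) ≤ T * (T ^ (-(θ * ρ)) * 2 ^ ρ) := by rw [← h3]; gcongr
      _ = T ^ (1 - θ * ρ) * 2 ^ ρ := by rw [← h5]; ring
      _ ≤ T ^ p * 2 := mul_le_mul h6 h4 (by positivity) (by positivity)
      _ = _ := by ring
  have t2 : T * ((X : ℝ) ^ 2 * Real.exp (-(T ^ 2 / (4 * (X : ℝ) ^ 2)))) ≤ T ^ p := by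
    refine le_trans ?_ hTp
    have hX0 : (0 : ℝ) < X := by exact_mod_cast hX1
    have q1 : T * (X : ℝ) ^ 2 ≤ T ^ (3 : ℝ) := by
      have : (X : ℝ) ≤ T := hXT.trans (by
        calc T ^ α ≤ T ^ (1 : ℝ) := Real.rpow_le_rpow_of_exponent_le hT1 hα1.le
          _ = T := Real.rpow_one T)
      have h5 : T ^ (3 : ℝ) = T * T ^ 2 := by
        rw [show (3 : ℝ) = ((3 : ℕ) : ℝ) by norm_num, Real.rpow_natCast]
        ring
      rw [h5]
      exact mul_le_mul_of_nonneg_left (pow_le_pow_left₀ hX0.le this 2) hT0.le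
    calc T * ((X : ℝ) ^ 2 * Real.exp (-(T ^ 2 / (4 * (X : ℝ) ^ 2)))) =
        (T * (X : ℝ) ^ 2) * Real.exp (-(T ^ 2 / (4 * (X : ℝ) ^ 2))) := by ring
      _ ≤ T ^ (3 : ℝ) * Real.exp (-(1 / 4) * T ^ (2 - 2 * α)) :=
          mul_le_mul q1 (exp_le_of hX0 hT1 hXT) (Real.exp_nonneg _) (by positivity)
      _ ≤ 1 := g1
  have hmv : ∀ (Kc : ℝ), 0 ≤ Kc → ∀ (Bs : Finset ℕ) (c : ℕ → ℂ), (∀ n ∈ Bs, Y < n ∧ n ≤ X) → (∀ n, ‖c n‖ ≤ Kc) →
      ∀ w ∈ rect a b B, ∫ t in (0 : ℝ)..T, ‖Qd Bs c w t‖ ^ 2 ≤ Kc ^ 2 * E0 * T ^ p := by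
    intro Kc hKc Bs c hBs hc w hw
    refine (mvq hρ0 hKc hY1 hBs hc (by have := hw.1; linarith) hT0).trans ?_
    have h1 : Real.exp 1 * (√Real.pi * T * (Kc ^ 2 * ((Y : ℝ) ^ (-ρ) * Zs ρ) + (Kc * X) ^ 2 * Real.exp (-(T ^ 2 / (4 * (X : ℝ) ^ 2))))) =
        Kc ^ 2 * (Real.exp 1 * √Real.pi) * ((T * (Y : ℝ) ^ (-ρ)) * Zs ρ + T * ((X : ℝ) ^ 2 * Real.exp (-(T ^ 2 / (4 * (X : ℝ) ^ 2))))) := by
      ring
    rw [h1]
    calc _ ≤ Kc ^ 2 * (Real.exp 1 * √Real.pi) * ((2 * T ^ p) * Zs ρ + T ^ p) := by gcongr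
      _ = _ := by rw [hE0]; ring
  -- the functions
  obtain ⟨G1, hG1⟩ : ∃ G1 : ℂ → ℂ, G1 = fun w => riemannZeta w - DN L w := ⟨_, rfl⟩
  obtain ⟨G2, hG2⟩ : ∃ G2 : ℂ → ℂ, G2 = fun w => ∑ n ∈ S1 z L \ S1 z Y, (fun _ => (1 : ℂ)) n * (n : ℂ) ^ (-w) := ⟨_, rfl⟩
  obtain ⟨G3, hG3⟩ : ∃ G3 : ℂ → ℂ, G3 = fun w => ∑ n ∈ Finset.Icc (L + 1) X, cf z L n * (n : ℂ) ^ (-w) := ⟨_, rfl⟩
  have hd1 : ∀ n ∈ S1 z L \ S1 z Y, 1 ≤ n := fun n hn => by have := (S1_diff hn).1; omega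
  have c1 : ContinuousOn G1 {w : ℂ | a ≤ w.re ∧ w.re ≤ b} := by rw [hG1]; exact zetaDN_contOn L hb
  have c2 : Continuous G2 := by rw [hG2]; exact poly_cont _ hd1 _
  have c3 : Continuous G3 := by rw [hG3]; exact poly_cont _ Ic_pos _
  have j1 := Jcont hab hB c1
  have j2 := Jcont hab hB (c2.continuousOn (s := {w : ℂ | a ≤ w.re ∧ w.re ≤ b}))
  have j3 := Jcont hab hB (c3.continuousOn (s := {w : ℂ | a ≤ w.re ∧ w.re ≤ b}))
  have i1 : ∫ t in (0 : ℝ)..T, (fun _ : ℝ => (1 : ℝ)) t * (∫ w in rect a b B, ‖G1 (w + t * I)‖ ^ 2) ≤ (b - a) * (2 * B) * (K0 * T ^ p) := by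
    refine fub hab hB c1 continuous_const hT0.le fun s hs => ?_
    simp only [one_mul]
    rw [hG1]
    refine (shift_int hb T hT0.le L g4 hs).trans ?_
    exact mul_le_mul_of_nonneg_left (Real.rpow_le_rpow_of_exponent_le hT1 hpa) hK0
  have i2 : ∫ t in (0 : ℝ)..T, (fun _ : ℝ => (1 : ℝ)) t * (∫ w in rect a b B, ‖G2 (w + t * I)‖ ^ 2) ≤
      (b - a) * (2 * B) * (1 ^ 2 * E0 * T ^ p) := by
    refine fub hab hB c2.continuousOn continuous_const hT0.le fun s hs => ?_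
    simp only [one_mul]
    rw [hG2]
    have h := hmv 1 zero_le_one (S1 z L \ S1 z Y) (fun _ => 1) (fun n hn => ⟨(S1_diff hn).1, (S1_diff hn).2.trans hLX⟩) (by simp) s hs
    simp only [Qd_eq] at h
    exact h.trans (le_of_eq (by ring))
  have i3 : ∫ t in (0 : ℝ)..T, (fun _ : ℝ => (1 : ℝ)) t * (∫ w in rect a b B, ‖G3 (w + t * I)‖ ^ 2) ≤
      (b - a) * (2 * B) * (Cz z ^ 2 * E0 * T ^ p) := by
    refine fub hab hB c3.continuousOn continuous_const hT0.le fun s hs => ?_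
    simp only [one_mul]
    rw [hG3]
    have h := hmv (Cz z) (by linarith) (Finset.Icc (L + 1) X) (cf z L) (fun n hn => by
      have := Finset.mem_Icc.1 hn
      exact ⟨by omega, this.2⟩) (fun n => cf_norm z L n) s hs
    simp only [Qd_eq] at h
    exact h
  simp only [one_mul] at i1 i2 i3
  refine ⟨fun t => 3 * Cz z ^ 2 * (∫ w in rect a b B, ‖G1 (w + t * I)‖ ^ 2) + 6 * (∫ w in rect a b B, ‖G2 (w + t * I)‖ ^ 2) +
    3 * (∫ w in rect a b B, ‖G3 (w + t * I)‖ ^ 2), ((j1.const_mul _).add (j2.const_mul _)).add (j3.const_mul _), fun t => ?_, fun t => ?_, ?_⟩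
  · have k1 : 0 ≤ ∫ w in rect a b B, ‖G1 (w + t * I)‖ ^ 2 := integral_nonneg fun _ => by positivity
    have k2 : 0 ≤ ∫ w in rect a b B, ‖G2 (w + t * I)‖ ^ 2 := integral_nonneg fun _ => by positivity
    have k3 : 0 ≤ ∫ w in rect a b B, ‖G3 (w + t * I)‖ ^ 2 := integral_nonneg fun _ => by positivity
    positivity
  · have hcomp := ZU.J_e1b.fubini_bound_compact a b B
    have hsh : ∀ w ∈ rect a b B, (w + t * I) ∈ {w : ℂ | a ≤ w.re ∧ w.re ≤ b} := by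
      intro w hw
      have h1 := hw.1
      have h2 := hw.2.1
      constructor
      · simpa using h1
      · simpa using h2
    have hint : ∀ G : ℂ → ℂ, ContinuousOn G {w : ℂ | a ≤ w.re ∧ w.re ≤ b} → IntegrableOn (fun w => ‖G (w + t * I)‖ ^ 2) (rect a b B) := by
      intro G hG
      have h1 : ContinuousOn (fun w => G (w + t * I)) (rect a b B) := hG.comp (by fun_prop) hsh
      exact (h1.norm.pow 2).integrableOn_compact hcomp
    have n1 := hint G1 c1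
    have n2 := hint G2 c2.continuousOn
    have n3 := hint G3 c3.continuousOn
    have n4 := hint (G4 z Y) (G4_cont z Y).continuousOn
    have n0 := hint (GZ z) (GZ_contOn z hb)
    have h1 : JG a b B z t ≤ ∫ w in rect a b B, (((3 * Cz z ^ 2 * ‖G1 (w + t * I)‖ ^ 2 + 6 * ‖G2 (w + t * I)‖ ^ 2) +
        3 * ‖G3 (w + t * I)‖ ^ 2) + 6 * ‖G4 z Y (w + t * I)‖ ^ 2) := by
      unfold JG
      refine setIntegral_mono_on n0 ((((n1.const_mul _).add (n2.const_mul _)).add (n3.const_mul _)).add (n4.const_mul _))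
        hcomp.measurableSet fun w hw => ?_
      have hw0 : 0 < w.re := by have := hw.1; linarith
      have h2 := GZ_sq z L hL1 w hw0 t
      rw [← hP, ← hX] at h2
      have e1 : G1 (w + t * I) = riemannZeta (w + t * I) - DN L (w + t * I) := by rw [hG1]
      have e3 : G3 (w + t * I) = Qd (Finset.Icc (L + 1) X) (cf z L) w t := by rw [hG3, Qd_eq]
      have e2 : Qd (S1 z L) (fun _ => 1) w t = G2 (w + t * I) + G4 z Y (w + t * I) := by
        rw [hG2, Qd_eq, ← Finset.sum_sdiff (S1_mono (z := z) hYL)]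
        unfold G4
        simp only [one_mul]
      rw [e1, e3]
      have h3 : ‖Qd (S1 z L) (fun _ => 1) w t‖ ^ 2 ≤ 2 * ‖G2 (w + t * I)‖ ^ 2 + 2 * ‖G4 z Y (w + t * I)‖ ^ 2 := by
        rw [e2]
        have h4 := norm_add_le (G2 (w + t * I)) (G4 z Y (w + t * I))
        have h5 := norm_nonneg (G2 (w + t * I) + G4 z Y (w + t * I))
        nlinarith [sq_nonneg (‖G2 (w + t * I)‖ - ‖G4 z Y (w + t * I)‖)]
      linarith
    refine h1.trans (le_of_eq ?_)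
    have m1 : IntegrableOn (fun w => 3 * Cz z ^ 2 * ‖G1 (w + t * I)‖ ^ 2) (rect a b B) := n1.const_mul _
    have m2 : IntegrableOn (fun w => 6 * ‖G2 (w + t * I)‖ ^ 2) (rect a b B) := n2.const_mul _
    have m3 : IntegrableOn (fun w => 3 * ‖G3 (w + t * I)‖ ^ 2) (rect a b B) := n3.const_mul _
    have m4 : IntegrableOn (fun w => 6 * ‖G4 z Y (w + t * I)‖ ^ 2) (rect a b B) := n4.const_mul _
    have m12 : IntegrableOn (fun w => 3 * Cz z ^ 2 * ‖G1 (w + t * I)‖ ^ 2 + 6 * ‖G2 (w + t * I)‖ ^ 2) (rect a b B) := m1.add m2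
    have m123 : IntegrableOn (fun w => 3 * Cz z ^ 2 * ‖G1 (w + t * I)‖ ^ 2 + 6 * ‖G2 (w + t * I)‖ ^ 2 +
      3 * ‖G3 (w + t * I)‖ ^ 2) (rect a b B) := m12.add m3
    rw [integral_add m123 m4, integral_add m12 m3, integral_add m1 m2,
      integral_const_mul, integral_const_mul, integral_const_mul, integral_const_mul]
    rfl
  · have k1 : IntervalIntegrable (fun t : ℝ => 3 * Cz z ^ 2 * (∫ w in rect a b B, ‖G1 (w + t * I)‖ ^ 2)) volume 0 T :=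
      (j1.const_mul _).intervalIntegrable _ _
    have k2 : IntervalIntegrable (fun t : ℝ => 6 * (∫ w in rect a b B, ‖G2 (w + t * I)‖ ^ 2)) volume 0 T :=
      (j2.const_mul _).intervalIntegrable _ _
    have k3 : IntervalIntegrable (fun t : ℝ => 3 * (∫ w in rect a b B, ‖G3 (w + t * I)‖ ^ 2)) volume 0 T :=
      (j3.const_mul _).intervalIntegrable _ _
    have k12 : IntervalIntegrable (fun t : ℝ => 3 * Cz z ^ 2 * (∫ w in rect a b B, ‖G1 (w + t * I)‖ ^ 2) +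
      6 * (∫ w in rect a b B, ‖G2 (w + t * I)‖ ^ 2)) volume 0 T := k1.add k2
    rw [intervalIntegral.integral_add k12 k3, intervalIntegral.integral_add k1 k2, intervalIntegral.integral_const_mul,
      intervalIntegral.integral_const_mul, intervalIntegral.integral_const_mul]
    have m1 := mul_le_mul_of_nonneg_left i1 (show 0 ≤ 3 * Cz z ^ 2 by positivity)
    have m2 := mul_le_mul_of_nonneg_left i2 (show (0 : ℝ) ≤ 6 by norm_num)
    have m3 := mul_le_mul_of_nonneg_left i3 (show (0 : ℝ) ≤ 3 by norm_num)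
    refine (add_le_add (add_le_add m1 m2) m3).trans (le_of_eq ?_)
    ring

end

end Pool.Agent.H469.F4
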