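import Pool.Agent.H469.F4.UL1
import Pool.Agent.H469.F4.UL3
import Pool.Agent.H469.F4.PHC
import Pool.Agent.H469.F4.SP5

set_option autoImplicit false

/-!
# The short polynomial under the moment measure
-/

namespace Pool.Agent.H469.F4

open Filter Topology MeasureTheory Complex Pool.Agent.Q97.UM
open Pool.Agent.X107.MU (norm_cpow S1_pos)
open ZU (rect)
open ZU.J_c3a (S1 S1_gt)

noncomputable section

/-- the coefficients of the polynomial on the line -/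
def bw (z Y : ℕ) (w : ℂ) (n : ℕ) : ℂ := if n ∈ S1 z Y then (n : ℂ) ^ (1 / 2 - w) else 0

theorem dp_bw (z Y : ℕ) (w : ℂ) (t : ℝ) : dp Y (bw z Y w) t = G4 z Y (w + t * I) := by
  classical
  unfold dp G4 bw
  have h1 : S1 z Y ⊆ Finset.Icc 1 Y := fun n hn => Finset.mem_Icc.2 ⟨S1_pos n hn, S1_le hn⟩
  rw [← Finset.sum_subset h1]
  · refine Finset.sum_congr rfl fun n hn => ?_
    have hn0 : (n : ℂ) ≠ 0 := by
      have := S1_pos n hn
      exact_mod_cast (by omega : n ≠ 0)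
    rw [if_pos hn, ← Complex.cpow_add _ _ hn0]
    congr 1
    ring
  · intro n _ hn
    rw [if_neg hn, zero_mul]

theorem bw_supp (z Y : ℕ) (w : ℂ) : ∀ n, bw z Y w n ≠ 0 → 1 ≤ n ∧ n ≤ Y := by
  intro n hn
  unfold bw at hn
  by_cases h : n ∈ S1 z Y
  · exact ⟨S1_pos n h, S1_le h⟩
  · rw [if_neg h] at hn
    exact absurd rfl hn

theorem bw_norm {z Y : ℕ} (hz : 1 ≤ z) {w : ℂ} {τ : ℝ} (hτ : 0 ≤ τ) (hw : 1 / 2 + 2 * τ ≤ w.re) :
    ∀ n, 1 ≤ n → ‖bw z Y w n‖ ≤ (z : ℝ) ^ (-τ) * (n : ℝ) ^ (-τ) := by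
  intro n hn
  unfold bw
  have hz0 : (0 : ℝ) < z := by exact_mod_cast hz
  have hn0 : (0 : ℝ) < n := by exact_mod_cast hn
  by_cases h : n ∈ S1 z Y
  · rw [if_pos h]
    have h1 : ‖(n : ℂ) ^ (1 / 2 - w)‖ = (n : ℝ) ^ (1 / 2 - w.re) := by
      rw [Complex.norm_natCast_cpow_of_pos hn]
      simp
    rw [h1]
    have h2 : (n : ℝ) ^ (1 / 2 - w.re) ≤ (n : ℝ) ^ (-τ + -τ) :=
      Real.rpow_le_rpow_of_exponent_le (by exact_mod_cast hn) (by linarith)
    refine h2.trans ?_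
    rw [Real.rpow_add hn0]
    apply mul_le_mul_of_nonneg_right _ (by positivity)
    exact Real.rpow_le_rpow_of_nonpos hz0 (by exact_mod_cast (S1_gt h).le) (by linarith)
  · rw [if_neg h, norm_zero]
    positivity

/-- **the short polynomial** -/
theorem wt_J4 {a b B : ℝ} (ha : 1 / 2 < a) (hab : a ≤ b) (hB : 0 < B) :
    ∃ θ τ C : ℝ, 0 < θ ∧ θ ≤ 1 / 2 ∧ 0 < τ ∧ 0 ≤ C ∧ ∀ᶠ T : ℝ in atTop, ∀ s : ℝ, 0 ≤ s → s ≤ 2 → ∀ z : ℕ, 1 ≤ z →
      ∫ t in T..(2 * T), ‖zt t‖ ^ (2 * s) * J4 a b B z ⌊(2 * T) ^ θ⌋₊ t ≤ C * (z : ℝ) ^ (-τ) * (T * Real.log T ^ (s ^ 2)) := by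
  obtain ⟨κ, δ, hκ, hδ, h⟩ := ord4 1
  obtain ⟨hδ1, h26, θ₀, c₀, C₀, hθ₀, hθ8, hc, hC, hev⟩ := h δ hδ le_rfl
  obtain ⟨K, hK1, hK⟩ := exp_PR (B := 4) (by norm_num)
  have hK0 : 0 < K := by linarith
  obtain ⟨τ, hτ⟩ : ∃ τ, τ = (a - 1 / 2) / 2 := ⟨_, rfl⟩
  have hτ0 : 0 < τ := by rw [hτ]; linarith
  obtain ⟨E, hE⟩ : ∃ E : ℝ, E = Real.exp (8 * (Real.exp (2 * 2) * 4) ^ 2) * (Real.exp (5 * Zs τ) * K) := ⟨_, rfl⟩
  have hE0 : 0 < E := by rw [hE]; positivity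
  obtain ⟨θ, hθd⟩ : ∃ θ : ℝ, θ = min θ₀ δ / 2 := ⟨_, rfl⟩
  have hθ0 : 0 < θ := by rw [hθd]; positivity
  have hθa : 2 * θ ≤ θ₀ := by rw [hθd]; linarith [min_le_left θ₀ δ]
  have hθb : 2 * θ ≤ δ := by rw [hθd]; linarith [min_le_right θ₀ δ]
  have hV0 : 0 ≤ (b - a) * (2 * B) := mul_nonneg (by linarith) (by linarith)
  refine ⟨θ, 2 * τ, (b - a) * (2 * B) * (C₀ * E), hθ0, by linarith, by positivity, by positivity, ?_⟩
  have hD : Tendsto (fun T : ℝ => δ * Real.log T) atTop atTop := Real.tendsto_log_atTop.const_mul_atTop hδ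
  filter_upwards [hev, hD.eventually_ge_atTop 1, eventually_ge_atTop (16 : ℝ)] with T g1 g2 hT16 s hs0 hs2 z hz
  have hT0 : 0 < T := by linarith
  have hL0 : 0 < Real.log T := Real.log_pos (by linarith)
  obtain ⟨-, -, -, -, i3⟩ := g1 (fun _ : Fin 1 => s) (fun _ => 0) (fun _ => hs0) (by rw [Fin.sum_univ_one]; exact hs2)
    (fun _ => by rw [abs_zero]; linarith)
  obtain ⟨Y, hY⟩ : ∃ Y : ℕ, Y = ⌊(2 * T) ^ θ⌋₊ := ⟨_, rfl⟩
  rw [← hY]
  have hYT : (Y : ℝ) ≤ T ^ (2 * θ) := by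
    rw [hY]
    refine (Nat.floor_le (by positivity)).trans ?_
    rw [Real.rpow_mul hT0.le]
    refine Real.rpow_le_rpow (by positivity) ?_ hθ0.le
    rw [Real.rpow_two]
    nlinarith
  have hY1 : (Y : ℝ) ≤ T ^ θ₀ := hYT.trans (Real.rpow_le_rpow_of_exponent_le (by linarith) hθa)
  have hY2 : Y ≤ ⌊Real.exp (δ * Real.log T)⌋₊ := by
    refine Nat.le_floor (hYT.trans ?_)
    refine (Real.rpow_le_rpow_of_exponent_le (by linarith) hθb).trans (le_of_eq ?_)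
    rw [Real.rpow_def_of_pos hT0, mul_comm]
  -- the mean square on the line
  have hkey : ∀ w ∈ rect a b B, ∫ t in T..(2 * T), ‖zt t‖ ^ (2 * s) * ‖G4 z Y (w + t * I)‖ ^ 2 ≤
      C₀ * E * (z : ℝ) ^ (-(2 * τ)) * (T * Real.log T ^ (s ^ 2)) := by
    intro w hw
    have j2 := (i3 Y hY1 (bw z Y w) (bw_supp z Y w)).2
    have hzpr : ∀ t, zpr (fun _ : Fin 1 => s) (fun _ => 0) t = ‖zt t‖ ^ (2 * s) := fun t => by
      unfold zpr
      rw [Fin.prod_univ_one, add_zero]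
    have hint : ∫ t in T..(2 * T), zpr (fun _ : Fin 1 => s) (fun _ => 0) t * ‖dp Y (bw z Y w) t‖ ^ 2 =
        ∫ t in T..(2 * T), ‖zt t‖ ^ (2 * s) * ‖G4 z Y (w + t * I)‖ ^ 2 := by
      congr 1
      funext t
      rw [hzpr, dp_bw]
    rw [hint] at j2
    refine j2.trans ?_
    have hap : ap (fun _ : Fin 1 => s) (fun _ => 0) = fun _ => (s : ℂ) := by
      funext p
      unfold ap
      simp
    have hap2 : ap (fun _ : Fin 1 => s) (fun _ => 2 * 0) = fun _ => (s : ℂ) := by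
      rw [← hap]
      simp
    have heo : eo δ κ T (fun _ : Fin 1 => s) (fun _ => 0) =
        ebk (δ * Real.log T) κ (fun _ => (s : ℂ)) (fun _ => (s : ℂ)) 0 (JB (δ * Real.log T)) := by
      unfold eo
      rw [hap2, hap]
    rw [heo]
    have hsn : ∀ _n : ℕ, ‖(s : ℂ)‖ ≤ 2 := fun _ => by
      rw [Complex.norm_real, Real.norm_of_nonneg hs0]
      exact hs2
    have hup := upper_dk (A := 2) (B := (z : ℝ) ^ (-τ)) (τ := τ) (by positivity) hτ0.le (κ := κ) g2 (a := fun _ => (s : ℂ))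
      (a2 := fun _ => (s : ℂ)) hsn hsn (b := bw z Y w) (fun n hn => ⟨(bw_supp z Y w n hn).1, (bw_supp z Y w n hn).2.trans hY2⟩)
      (bw_norm hz hτ0.le (by have := hw.1; rw [hτ]; linarith)) (eM δ κ T * Y)
    have hsum : Real.exp (∑ p ∈ (Finset.Icc 1 ⌊Real.exp (δ * Real.log T)⌋₊).filter Nat.Prime, (‖(s : ℂ)‖ + (p : ℝ) ^ (-τ)) ^ 2 / p) ≤
        Real.exp (5 * Zs τ) * (K * Real.log T ^ (s ^ 2)) := by
      obtain ⟨X, hX⟩ : ∃ X : ℕ, X = ⌊Real.exp (δ * Real.log T)⌋₊ := ⟨_, rfl⟩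
      rw [← hX]
      have hX2 : 2 ≤ X := by
        rw [hX]
        refine Nat.le_floor ?_
        push_cast
        have h1 := Real.exp_one_gt_d9
        have h2 := Real.exp_le_exp.2 g2
        linarith
      have h1 : ∑ p ∈ (Finset.Icc 1 X).filter Nat.Prime, (‖(s : ℂ)‖ + (p : ℝ) ^ (-τ)) ^ 2 / (p : ℝ) ≤ 5 * Zs τ + s ^ 2 * PR X := by
        have h2 : ∀ p ∈ (Finset.Icc 1 X).filter Nat.Prime, (‖(s : ℂ)‖ + (p : ℝ) ^ (-τ)) ^ 2 / (p : ℝ) ≤
            5 * (p : ℝ) ^ (-(1 + τ)) + s ^ 2 * (1 / (p : ℝ)) := by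
          intro p hp
          have hpp := (Finset.mem_filter.1 hp).2
          have hp0 : (0 : ℝ) < p := by exact_mod_cast hpp.pos
          have hp1 : (1 : ℝ) ≤ p := by exact_mod_cast hpp.one_lt.le
          obtain ⟨x, hx⟩ : ∃ x : ℝ, x = (p : ℝ) ^ (-τ) := ⟨_, rfl⟩
          have hx0 : 0 ≤ x := by rw [hx]; positivity
          have hx1 : x ≤ 1 := by rw [hx]; exact Real.rpow_le_one_of_one_le_of_nonpos hp1 (by linarith)
          have h3 : (p : ℝ) ^ (-(1 + τ)) = x * (1 / p) := by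
            rw [hx, show -(1 + τ) = -τ + -1 by ring, Real.rpow_add hp0, Real.rpow_neg_one, one_div]
          rw [h3, ← hx, Complex.norm_real, Real.norm_of_nonneg hs0, div_eq_mul_one_div]
          have h4 : (s + x) ^ 2 ≤ 5 * x + s ^ 2 := by nlinarith
          calc (s + x) ^ 2 * (1 / (p : ℝ)) ≤ (5 * x + s ^ 2) * (1 / (p : ℝ)) := mul_le_mul_of_nonneg_right h4 (by positivity)
            _ = _ := by ring
        refine (Finset.sum_le_sum h2).trans ?_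
        rw [Finset.sum_add_distrib, ← Finset.mul_sum, ← Finset.mul_sum]
        refine add_le_add ?_ le_rfl
        exact mul_le_mul_of_nonneg_left ((Zs_sum hτ0).sum_le_tsum _ fun n _ => by positivity) (by norm_num)
      refine (Real.exp_le_exp.2 h1).trans ?_
      rw [Real.exp_add]
      apply mul_le_mul_of_nonneg_left _ (Real.exp_pos _).le
      have h2 := (hK X hX2 (s ^ 2) (by rw [abs_of_nonneg (sq_nonneg s)]; nlinarith)).1
      refine h2.trans ?_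
      apply mul_le_mul_of_nonneg_left _ hK0.le
      have hX1 : (1 : ℝ) ≤ X := by exact_mod_cast (by omega : 1 ≤ X)
      refine Real.rpow_le_rpow (Real.log_nonneg hX1) ?_ (sq_nonneg s)
      have h3 : Real.log X ≤ δ * Real.log T := by
        rw [Real.log_le_iff_le_exp (by linarith), hX]
        exact Nat.floor_le (Real.exp_pos _).le
      nlinarith
    calc C₀ * T * N2 (eM δ κ T * Y) (cv (ebk (δ * Real.log T) κ (fun _ => (s : ℂ)) (fun _ => (s : ℂ)) 0 (JB (δ * Real.log T))) (bw z Y w)) ≤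
        C₀ * T * (((z : ℝ) ^ (-τ)) ^ 2 * Real.exp (8 * (Real.exp (2 * 2) * 4) ^ 2) * (Real.exp (5 * Zs τ) * (K * Real.log T ^ (s ^ 2)))) := by
          apply mul_le_mul_of_nonneg_left _ (by positivity)
          refine hup.trans ?_
          exact mul_le_mul_of_nonneg_left hsum (by positivity)
      _ = _ := by
          have e1 : ((z : ℝ) ^ (-τ)) ^ 2 = (z : ℝ) ^ (-(2 * τ)) := by
            rw [← Real.rpow_natCast, ← Real.rpow_mul (Nat.cast_nonneg z)]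
            congr 1
            push_cast
            ring
          rw [e1, hE]
          ring
  have hfub := fub hab hB (G4_cont z Y).continuousOn (ztw_cont hs0) (by linarith : T ≤ 2 * T) hkey
  refine hfub.trans (le_of_eq ?_)
  ring

end

end Pool.Agent.H469.F4
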