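import Pool.Agent.H469.F4.UL4

set_option autoImplicit false

/-!
# The tails of the Euler product under the moment measure on the critical line
-/

namespace Pool.Agent.H469.F4

open Filter Topology MeasureTheory Complex Pool.Agent.Q97.UM
open Pool.Agent.X107.MU (JG JG_cont JG_nonneg)
open ZU (rect)

noncomputable section

theorem rpow_split {x V s : ℝ} (hx : 0 ≤ x) (hV : 0 < V) (hs0 : 0 ≤ s) (hs2 : s ≤ 2) :
    x ^ (2 * s) ≤ V ^ (2 * s) + V ^ (2 * s - 4) * x ^ (2 * 2 : ℝ) := by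
  rcases le_or_gt x V with h | h
  · have h1 : x ^ (2 * s) ≤ V ^ (2 * s) := Real.rpow_le_rpow hx h (by linarith)
    have h2 : 0 ≤ V ^ (2 * s - 4) * x ^ (2 * 2 : ℝ) := by positivity
    linarith
  · have hx0 : 0 < x := hV.trans h
    have h1 : x ^ (2 * s) = x ^ (2 * s - 4) * x ^ (2 * 2 : ℝ) := by
      rw [← Real.rpow_add hx0]
      congr 1
      ring
    have h2 : x ^ (2 * s - 4) ≤ V ^ (2 * s - 4) := Real.rpow_le_rpow_of_nonpos hV h.le (by linarith)
    have h3 : x ^ (2 * s - 4) * x ^ (2 * 2 : ℝ) ≤ V ^ (2 * s - 4) * x ^ (2 * 2 : ℝ) :=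
      mul_le_mul_of_nonneg_right h2 (by positivity)
    have h4 : 0 ≤ V ^ (2 * s) := by positivity
    linarith

/-- the fourth moment -/
theorem fourth : ∃ C : ℝ, 0 < C ∧ ∀ᶠ T : ℝ in atTop, ∫ t in T..(2 * T), ‖zt t‖ ^ (2 * 2 : ℝ) ≤ C * (T * Real.log T ^ 4) := by
  obtain ⟨c, C, hc, hC, h⟩ := phase_all
  have h1 := h 2 (by norm_num) le_rfl (fun _ => 1) continuous_const (fun _ => zero_le_one) 1 one_pos
  obtain ⟨E, hE⟩ : ∃ E : ℝ, E = EI 2 (fun _ => 1) := ⟨_, rfl⟩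
  rw [← hE] at h1
  have hE0 : 0 ≤ E := by rw [hE]; exact integral_nonneg fun _ => zero_le_one
  refine ⟨C * E + 1, by positivity, ?_⟩
  filter_upwards [h1] with T hT
  have h2 := hT.2
  simp only [mul_one] at h2
  refine h2.trans (le_of_eq ?_)
  congr 2
  rw [← Real.rpow_natCast]
  norm_num

/-- the weight on the exceptional set -/
def gx (s a b B lam : ℝ) (z : ℕ) (t : ℝ) : ℝ := {t | lam ≤ JG a b B z t}.indicator (fun t => ‖zt t‖ ^ (2 * s)) t

theorem gx_set {a b B : ℝ} (hab : a ≤ b) (hb : b < 1) (hB : 0 < B) (lam : ℝ) (z : ℕ) : MeasurableSet {t | lam ≤ JG a b B z t} :=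
  (isClosed_le continuous_const (JG_cont hab hb hB z)).measurableSet

theorem gx_nonneg (s a b B lam : ℝ) (z : ℕ) (t : ℝ) : 0 ≤ gx s a b B lam z t :=
  Set.indicator_nonneg (fun _ _ => by positivity) _

theorem gx_int {s a b B : ℝ} (hs0 : 0 ≤ s) (hab : a ≤ b) (hb : b < 1) (hB : 0 < B) (lam : ℝ) (z : ℕ) (x y : ℝ) :
    IntervalIntegrable (gx s a b B lam z) volume x y := by
  have h1 : IntervalIntegrable (fun t => ‖zt t‖ ^ (2 * s)) volume x y := (ztw_cont hs0).intervalIntegrable _ _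
  unfold gx
  constructor
  · exact h1.1.indicator (gx_set hab hb hB lam z)
  · exact h1.2.indicator (gx_set hab hb hB lam z)

theorem tail_dy {s : ℝ} (hs0 : 0 ≤ s) (hs2 : s < 2) {a b B lam ε : ℝ} (ha : 1 / 2 < a) (hab : a ≤ b) (hb : b < 1) (hB : 0 < B)
    (hlam : 0 < lam) (hε : 0 < ε) : ∃ Z0 : ℕ, ∀ z ≥ Z0, ∀ᶠ T : ℝ in atTop,
      ∫ t in T..(2 * T), gx s a b B lam z t ≤ ε * (T * Real.log T ^ (s ^ 2)) := by
  obtain ⟨θ, τ, C, hθ, hθ2, hτ, hC, hJ⟩ := wt_J4 ha hab hB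
  obtain ⟨p, hp0, hp1, herr⟩ := err ha hab hb hB hθ hθ2
  obtain ⟨C4, hC4, h4⟩ := fourth
  have hz0 : ∀ᶠ z : ℕ in atTop, 12 / lam * C * (z : ℝ) ^ (-τ) < ε / 2 := by
    have h1 : Tendsto (fun z : ℕ => 12 / lam * C * (z : ℝ) ^ (-τ)) atTop (𝓝 (12 / lam * C * 0)) :=
      ((tendsto_rpow_neg_atTop hτ).comp tendsto_natCast_atTop_atTop).const_mul _
    rw [mul_zero] at h1
    exact h1.eventually (gt_mem_nhds (by positivity))
  obtain ⟨Z0, hZ0⟩ := eventually_atTop.1 hz0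
  refine ⟨max Z0 1, fun z hz => ?_⟩
  have hz1 : 1 ≤ z := (le_max_right _ _).trans hz
  have hzε := hZ0 z ((le_max_left _ _).trans hz)
  obtain ⟨K, hK, hM⟩ := herr z
  obtain ⟨c, hc⟩ : ∃ c : ℝ, c = (1 - p) / 8 := ⟨_, rfl⟩
  have hc0 : 0 < c := by rw [hc]; linarith
  obtain ⟨r, hr⟩ : ∃ r : ℝ, r = c * (4 - 2 * s) := ⟨_, rfl⟩
  have hr0 : 0 < r := by rw [hr]; exact mul_pos hc0 (by linarith)
  have f1 : ∀ᶠ T : ℝ in atTop, 2 / lam * (2 * K) * T ^ (-((1 - p) / 2)) < ε / 4 := by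
    have h1 : Tendsto (fun T : ℝ => 2 / lam * (2 * K) * T ^ (-((1 - p) / 2))) atTop (𝓝 (2 / lam * (2 * K) * 0)) :=
      (tendsto_rpow_neg_atTop (by linarith)).const_mul _
    rw [mul_zero] at h1
    exact h1.eventually (gt_mem_nhds (by positivity))
  have f2 : ∀ᶠ T : ℝ in atTop, C4 * (Real.log T ^ 4 * T ^ (-r)) < ε / 4 := by
    have h1 : Tendsto (fun T : ℝ => Real.log T ^ 4 * T ^ (-r)) atTop (𝓝 0) := by
      have h2 := (isLittleO_log_rpow_rpow_atTop (s := r) 4 hr0).tendsto_div_nhds_zero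
      refine h2.congr' ?_
      filter_upwards [eventually_gt_atTop (0 : ℝ)] with T hT
      rw [Real.rpow_neg hT.le, div_eq_mul_inv]
      congr 1
      rw [← Real.rpow_natCast]
      norm_num
    have h2 := h1.const_mul C4
    rw [mul_zero] at h2
    exact h2.eventually (gt_mem_nhds (by positivity))
  have htwo : Tendsto (fun T : ℝ => 2 * T) atTop atTop := tendsto_id.const_mul_atTop (by norm_num)
  filter_upwards [hJ, htwo.eventually hM, h4, f1, f2, eventually_ge_atTop (1 : ℝ),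
    Real.tendsto_log_atTop.eventually_ge_atTop 1] with T g1 g2 g3 g4 g5 hT1 hL1
  have hT0 : 0 < T := by linarith
  obtain ⟨M, hMc, hM0, hJM, hMi⟩ := g2
  have j1 := g1 s hs0 hs2.le z hz1
  obtain ⟨Y, hY⟩ : ∃ Y : ℕ, Y = ⌊(2 * T) ^ θ⌋₊ := ⟨_, rfl⟩
  rw [← hY] at hJM j1
  obtain ⟨V, hV⟩ : ∃ V : ℝ, V = T ^ c := ⟨_, rfl⟩
  have hV0 : 0 < V := by rw [hV]; positivity
  -- the pointwise bound
  have hpt : ∀ t, gx s a b B lam z t ≤ (2 / lam * V ^ (2 * s)) * M t + V ^ (2 * s - 4) * ‖zt t‖ ^ (2 * 2 : ℝ) +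
      12 / lam * (‖zt t‖ ^ (2 * s) * J4 a b B z Y t) := by
    intro t
    have n1 := hM0 t
    have n2 := J4_nonneg a b B z Y t
    have n3 : 0 ≤ ‖zt t‖ ^ (2 * s) := by positivity
    have n4 : 0 ≤ V ^ (2 * s - 4) * ‖zt t‖ ^ (2 * 2 : ℝ) := by positivity
    have n5 : 0 ≤ (2 / lam * V ^ (2 * s)) * M t := by positivity
    have n6 : 0 ≤ 12 / lam * (‖zt t‖ ^ (2 * s) * J4 a b B z Y t) := by positivity
    obtain ⟨e1, he1⟩ : ∃ e1 : ℝ, e1 = (2 / lam * V ^ (2 * s)) * M t := ⟨_, rfl⟩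
    obtain ⟨e2, he2⟩ : ∃ e2 : ℝ, e2 = V ^ (2 * s - 4) * ‖zt t‖ ^ (2 * 2 : ℝ) := ⟨_, rfl⟩
    obtain ⟨e3, he3⟩ : ∃ e3 : ℝ, e3 = 12 / lam * (‖zt t‖ ^ (2 * s) * J4 a b B z Y t) := ⟨_, rfl⟩
    rw [← he2] at n4
    rw [← he1] at n5
    rw [← he3] at n6
    unfold gx
    rw [← he1, ← he2, ← he3]
    by_cases h : lam ≤ JG a b B z t
    · rw [Set.indicator_of_mem (show t ∈ {t | lam ≤ JG a b B z t} from h)]
      have h1 := h.trans (hJM t)
      rcases le_or_gt (lam / 2) (M t) with h2 | h2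
      · have h3 := rpow_split (norm_nonneg (zt t)) hV0 hs0 hs2.le
        rw [← he2] at h3
        have h5 : V ^ (2 * s) ≤ e1 := by
          calc V ^ (2 * s) = (2 / lam * V ^ (2 * s)) * (lam / 2) := by field_simp
            _ ≤ _ := by rw [he1]; exact mul_le_mul_of_nonneg_left h2 (by positivity)
        linarith
      · have h3 : lam / 12 ≤ J4 a b B z Y t := by linarith
        have h5 : ‖zt t‖ ^ (2 * s) ≤ e3 := by
          calc ‖zt t‖ ^ (2 * s) = 12 / lam * (‖zt t‖ ^ (2 * s) * (lam / 12)) := by field_simp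
            _ ≤ _ := by rw [he3]; gcongr
        linarith
    · rw [Set.indicator_of_notMem (show t ∉ {t | lam ≤ JG a b B z t} from h)]
      linarith
  have i1 : IntervalIntegrable (fun t => (2 / lam * V ^ (2 * s)) * M t) volume T (2 * T) := (hMc.const_mul _).intervalIntegrable _ _
  have i2 : IntervalIntegrable (fun t => V ^ (2 * s - 4) * ‖zt t‖ ^ (2 * 2 : ℝ)) volume T (2 * T) :=
    ((ztw_cont (s := 2) (by norm_num)).const_mul _).intervalIntegrable _ _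
  have i3 : IntervalIntegrable (fun t => 12 / lam * (‖zt t‖ ^ (2 * s) * J4 a b B z Y t)) volume T (2 * T) :=
    (((ztw_cont hs0).mul (J4_cont hab hB z Y)).const_mul _).intervalIntegrable _ _
  have i12 : IntervalIntegrable (fun t => (2 / lam * V ^ (2 * s)) * M t + V ^ (2 * s - 4) * ‖zt t‖ ^ (2 * 2 : ℝ)) volume T (2 * T) :=
    i1.add i2
  have hI := intervalIntegral.integral_mono_on (show T ≤ 2 * T by linarith) (gx_int hs0 hab hb hB lam z T (2 * T)) (i12.add i3)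
    fun t _ => hpt t
  rw [intervalIntegral.integral_add i12 i3, intervalIntegral.integral_add i1 i2, intervalIntegral.integral_const_mul,
    intervalIntegral.integral_const_mul, intervalIntegral.integral_const_mul] at hI
  refine hI.trans ?_
  -- the three terms
  have hW : T ≤ T * Real.log T ^ (s ^ 2) := le_mul_of_one_le_right hT0.le (Real.one_le_rpow hL1 (sq_nonneg s))
  have b1 : (2 / lam * V ^ (2 * s)) * (∫ t in T..(2 * T), M t) ≤ ε / 4 * T := by
    have k1 : ∫ t in T..(2 * T), M t ≤ ∫ t in (0 : ℝ)..(2 * T), M t :=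
      intervalIntegral.integral_mono_interval hT0.le (by linarith) le_rfl (Eventually.of_forall hM0) (hMc.intervalIntegrable _ _)
    have k2 : (2 * T) ^ p ≤ 2 * T ^ p := by
      rw [Real.mul_rpow (by norm_num) hT0.le]
      apply mul_le_mul_of_nonneg_right _ (by positivity)
      calc (2 : ℝ) ^ p ≤ (2 : ℝ) ^ (1 : ℝ) := Real.rpow_le_rpow_of_exponent_le (by norm_num) hp1.le
        _ = 2 := Real.rpow_one 2
    have k3 : ∫ t in T..(2 * T), M t ≤ 2 * K * T ^ p := by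
      refine (k1.trans hMi).trans ?_
      have := mul_le_mul_of_nonneg_left k2 hK
      linarith
    have k4 : V ^ (2 * s) ≤ T ^ ((1 - p) / 2) := by
      rw [hV, ← Real.rpow_mul hT0.le]
      apply Real.rpow_le_rpow_of_exponent_le hT1
      rw [hc]
      nlinarith
    have k5 : T ^ ((1 - p) / 2) * T ^ p = T ^ (-((1 - p) / 2)) * T := by
      have : T ^ (-((1 - p) / 2)) * T = T ^ (-((1 - p) / 2)) * T ^ (1 : ℝ) := by rw [Real.rpow_one]
      rw [this, ← Real.rpow_add hT0, ← Real.rpow_add hT0]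
      congr 1
      ring
    calc (2 / lam * V ^ (2 * s)) * (∫ t in T..(2 * T), M t) ≤ (2 / lam * T ^ ((1 - p) / 2)) * (2 * K * T ^ p) := by
          refine mul_le_mul ?_ k3 (intervalIntegral.integral_nonneg (by linarith) fun t _ => hM0 t) (by positivity)
          exact mul_le_mul_of_nonneg_left k4 (by positivity)
      _ = 2 / lam * (2 * K) * (T ^ ((1 - p) / 2) * T ^ p) := by ring
      _ = 2 / lam * (2 * K) * T ^ (-((1 - p) / 2)) * T := by rw [k5]; ring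
      _ ≤ ε / 4 * T := mul_le_mul_of_nonneg_right g4.le hT0.le
  have b2 : V ^ (2 * s - 4) * (∫ t in T..(2 * T), ‖zt t‖ ^ (2 * 2 : ℝ)) ≤ ε / 4 * T := by
    have k1 : V ^ (2 * s - 4) = T ^ (-r) := by
      rw [hV, ← Real.rpow_mul hT0.le, hr]
      congr 1
      ring
    rw [k1]
    calc T ^ (-r) * (∫ t in T..(2 * T), ‖zt t‖ ^ (2 * 2 : ℝ)) ≤ T ^ (-r) * (C4 * (T * Real.log T ^ 4)) :=
          mul_le_mul_of_nonneg_left g3 (by positivity)
      _ = C4 * (Real.log T ^ 4 * T ^ (-r)) * T := by ring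
      _ ≤ ε / 4 * T := mul_le_mul_of_nonneg_right g5.le hT0.le
  have b3 : 12 / lam * (∫ t in T..(2 * T), ‖zt t‖ ^ (2 * s) * J4 a b B z Y t) ≤ ε / 2 * (T * Real.log T ^ (s ^ 2)) := by
    calc 12 / lam * (∫ t in T..(2 * T), ‖zt t‖ ^ (2 * s) * J4 a b B z Y t) ≤
        12 / lam * (C * (z : ℝ) ^ (-τ) * (T * Real.log T ^ (s ^ 2))) := mul_le_mul_of_nonneg_left j1 (by positivity)
      _ = (12 / lam * C * (z : ℝ) ^ (-τ)) * (T * Real.log T ^ (s ^ 2)) := by ring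
      _ ≤ _ := mul_le_mul_of_nonneg_right hzε.le (by linarith)
  have hεW : ε / 4 * T ≤ ε / 4 * (T * Real.log T ^ (s ^ 2)) := mul_le_mul_of_nonneg_left hW (by positivity)
  linarith

/-! ### from dyadic intervals to `[0, T]` -/

theorem dyad_up' {f : ℝ → ℝ} (hi : ∀ a b : ℝ, IntervalIntegrable f volume a b) (hf0 : ∀ t, 0 ≤ f t) {p b T₀ : ℝ} (hp : 0 ≤ p)
    (hb : 0 ≤ b) (hT₀ : 3 ≤ T₀) (hup : ∀ T : ℝ, T₀ ≤ T → ∫ t in T..(2 * T), f t ≤ b * (T * Real.log T ^ p)) (n : ℕ) :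
    ∀ T : ℝ, T₀ ≤ T → T ≤ 2 ^ n * T₀ → ∫ t in T₀..T, f t ≤ 2 * b * (T * Real.log T ^ p) := by
  have hlog : ∀ T : ℝ, T₀ ≤ T → 0 ≤ Real.log T := fun T hT => Real.log_nonneg (by linarith)
  induction n with
  | zero =>
    intro T hT1 hT2
    rw [pow_zero, one_mul] at hT2
    have h1 : T = T₀ := le_antisymm hT2 hT1
    rw [h1, intervalIntegral.integral_same]
    have := hlog T₀ le_rfl
    positivity
  | succ n ih =>
    intro T hT1 hT2
    have hT0 : 0 < T := by linarith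
    have hLT := hlog T hT1
    rcases le_or_gt T (2 * T₀) with h | h
    · have h1 : ∫ t in T₀..T, f t ≤ ∫ t in T₀..(2 * T₀), f t := by
        apply intervalIntegral.integral_mono_interval le_rfl hT1 h
        · exact Eventually.of_forall fun t => hf0 t
        · exact hi _ _
      refine (h1.trans (hup T₀ le_rfl)).trans ?_
      have h2 : T₀ * Real.log T₀ ^ p ≤ T * Real.log T ^ p := by
        apply mul_le_mul hT1 _ (Real.rpow_nonneg (hlog T₀ le_rfl) _) hT0.le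
        exact Real.rpow_le_rpow (hlog T₀ le_rfl) (Real.log_le_log (by linarith) hT1) hp
      have h3 : 0 ≤ T * Real.log T ^ p := by positivity
      calc b * (T₀ * Real.log T₀ ^ p) ≤ b * (T * Real.log T ^ p) := mul_le_mul_of_nonneg_left h2 hb
        _ ≤ 2 * b * (T * Real.log T ^ p) := by nlinarith [mul_nonneg hb h3]
    · have h1 : ∫ t in T₀..T, f t = (∫ t in T₀..(T / 2), f t) + ∫ t in (T / 2)..T, f t :=
        (intervalIntegral.integral_add_adjacent_intervals (hi _ _) (hi _ _)).symm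
      have h2 := ih (T / 2) (by linarith) (by rw [pow_succ] at hT2; linarith)
      have h3 := hup (T / 2) (by linarith)
      have h4 : 2 * (T / 2) = T := by ring
      rw [h4] at h3
      have h5 : Real.log (T / 2) ^ p ≤ Real.log T ^ p :=
        Real.rpow_le_rpow (hlog _ (by linarith)) (Real.log_le_log (by linarith) (by linarith)) hp
      have h6 : T / 2 * Real.log (T / 2) ^ p ≤ T / 2 * Real.log T ^ p := mul_le_mul_of_nonneg_left h5 (by linarith)
      rw [h1]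
      have h7 : 0 ≤ T * Real.log T ^ p := by positivity
      have h8 : 2 * b * (T / 2 * Real.log (T / 2) ^ p) ≤ 2 * b * (T / 2 * Real.log T ^ p) :=
        mul_le_mul_of_nonneg_left h6 (by positivity)
      have h9 : b * (T / 2 * Real.log (T / 2) ^ p) ≤ b * (T / 2 * Real.log T ^ p) := mul_le_mul_of_nonneg_left h6 hb
      nlinarith [mul_nonneg hb h7]

theorem dyad_full {f : ℝ → ℝ} (hi : ∀ a b : ℝ, IntervalIntegrable f volume a b) (hf0 : ∀ t, 0 ≤ f t) {p b ε : ℝ} (hp : 0 ≤ p)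
    (hb : 0 ≤ b) (hε : 0 < ε) (hup : ∀ᶠ T : ℝ in atTop, ∫ t in T..(2 * T), f t ≤ b * (T * Real.log T ^ p)) :
    ∀ᶠ T : ℝ in atTop, ∫ t in (0 : ℝ)..T, f t ≤ (2 * b + ε) * (T * Real.log T ^ p) := by
  obtain ⟨T₁, hT₁⟩ := eventually_atTop.1 hup
  obtain ⟨T₀, hT₀⟩ : ∃ T₀ : ℝ, T₀ = max T₁ 3 := ⟨_, rfl⟩
  have hT03 : 3 ≤ T₀ := by rw [hT₀]; exact le_max_right _ _
  have hup' : ∀ T : ℝ, T₀ ≤ T → ∫ t in T..(2 * T), f t ≤ b * (T * Real.log T ^ p) := fun T hT =>
    hT₁ T ((le_max_left _ _).trans (by rw [hT₀] at hT; exact hT))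
  obtain ⟨K, hK⟩ : ∃ K : ℝ, K = ∫ t in (0 : ℝ)..T₀, f t := ⟨_, rfl⟩
  have hεT : ∀ᶠ T : ℝ in atTop, K ≤ ε * T := (tendsto_id.const_mul_atTop hε).eventually_ge_atTop K
  filter_upwards [hεT, eventually_ge_atTop T₀, Real.tendsto_log_atTop.eventually_ge_atTop 1] with T g1 g2 hL
  have hT0 : 0 < T := by linarith
  have h2 : ∫ t in (0 : ℝ)..T, f t = K + ∫ t in T₀..T, f t := by
    rw [hK]
    exact (intervalIntegral.integral_add_adjacent_intervals (hi _ _) (hi _ _)).symm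
  obtain ⟨n, hn⟩ : ∃ n : ℕ, T ≤ 2 ^ n * T₀ := by
    obtain ⟨n, hn⟩ := pow_unbounded_of_one_lt T (show (1 : ℝ) < 2 by norm_num)
    refine ⟨n, hn.le.trans ?_⟩
    have : (0 : ℝ) < 2 ^ n := by positivity
    nlinarith
  have h3 := dyad_up' hi hf0 hp hb hT03 hup' n T g2 hn
  have h4 : K ≤ ε * (T * Real.log T ^ p) := by
    refine g1.trans (mul_le_mul_of_nonneg_left ?_ hε.le)
    exact le_mul_of_one_le_right hT0.le (Real.one_le_rpow hL hp)
  rw [h2]
  linarith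

/-- **the tails on `[0, T]`** -/
theorem tail_line {s : ℝ} (hs0 : 0 ≤ s) (hs2 : s < 2) {a b B lam ε : ℝ} (ha : 1 / 2 < a) (hab : a ≤ b) (hb : b < 1) (hB : 0 < B)
    (hlam : 0 < lam) (hε : 0 < ε) : ∃ Z0 : ℕ, ∀ z ≥ Z0, ∀ᶠ T : ℝ in atTop,
      (Real.log T ^ (s ^ 2))⁻¹ / T * ∫ t in Set.Icc 0 T ∩ {t | lam ≤ JG a b B z t}, ‖zt t‖ ^ (2 * s) ≤ ε := by
  obtain ⟨Z0, hZ0⟩ := tail_dy hs0 hs2 ha hab hb hB hlam (show 0 < ε / 4 by positivity)
  refine ⟨Z0, fun z hz => ?_⟩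
  filter_upwards [dyad_full (gx_int hs0 hab hb hB lam z) (gx_nonneg s a b B lam z) (sq_nonneg s) (by positivity)
    (show 0 < ε / 4 by positivity) (hZ0 z hz), eventually_gt_atTop (0 : ℝ), Real.tendsto_log_atTop.eventually_gt_atTop 0] with T g1 hT0 hL0
  have h1 : ∫ t in Set.Icc 0 T ∩ {t | lam ≤ JG a b B z t}, ‖zt t‖ ^ (2 * s) = ∫ t in (0 : ℝ)..T, gx s a b B lam z t := by
    rw [intervalIntegral.integral_of_le hT0.le, ← integral_Icc_eq_integral_Ioc]
    unfold gx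
    rw [setIntegral_indicator (gx_set hab hb hB lam z)]
  rw [h1]
  have hW : 0 < T * Real.log T ^ (s ^ 2) := by positivity
  have h2 : (Real.log T ^ (s ^ 2))⁻¹ / T * ∫ t in (0 : ℝ)..T, gx s a b B lam z t =
      (∫ t in (0 : ℝ)..T, gx s a b B lam z t) / (T * Real.log T ^ (s ^ 2)) := by
    field_simp
  rw [h2, div_le_iff₀ hW]
  refine g1.trans ?_
  apply mul_le_mul_of_nonneg_right _ hW.le
  linarith

end

end Pool.Agent.H469.F4
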