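import Pool.Agent.H469.F4.UL5

set_option autoImplicit false

/-!
# The law of the values right of the line for systems of weights with two-sided bounds
-/

namespace Pool.Agent.H469.F4

open Filter Topology MeasureTheory Complex
open Pool.Agent.X107.MU (JG JG_cont JG_nonneg Xt xt xt_norm xt_cont EE EE_xt BE BE_cont BE_ne BadG badG_large GZ urysohn Xt_compact Zt int_split)
open Pool.Agent.X107.UZ (kN pN pN_mem pN_prime pN_inj Ev)
open Pool.Agent.V1167.PP (law law_prob ex ex_norm ex_cont)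

noncomputable section

/-- restriction to the primes up to `z` -/
def rz (z : ℕ) (X : Nat.Primes → ℂ) (j : Fin (kN z)) : ℂ := X ⟨pN z j, pN_prime z j⟩

theorem rz_cont (z : ℕ) : Continuous (rz z) := continuous_pi fun _ => continuous_apply _

theorem rz_zp (z : ℕ) (t : ℝ) : rz z (zp t) = xt z t := by
  funext j
  unfold rz zp xt Pool.Agent.X110.NA.ee
  have hp := (pN_prime z j).pos
  have hpc : ((pN z j : ℕ) : ℂ) ≠ 0 := by exact_mod_cast hp.ne'
  show ((pN z j : ℕ) : ℂ) ^ ((t : ℂ) * I) = _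
  rw [Complex.cpow_def_of_ne_zero hpc, ← Complex.natCast_log]
  congr 1
  have hpi : (Real.pi : ℂ) ≠ 0 := by exact_mod_cast Real.pi_ne_zero
  push_cast
  field_simp

/-- the mean value of a function of the phases of the primes up to `z` -/
def ER (s : ℝ) (z : ℕ) (F : (Fin (kN z) → ℂ) → ℝ) : ℝ := EI s fun X => F (rz z X)

/-- weights for which the law of the small primes is known up to constants and the tails are small -/
structure S2 (s c1 C1 : ℝ) (Z0 : ℝ → ℝ → ℝ → ℝ → ℝ → ℕ) (Z : ℝ → ℝ → ℝ) (D : ℝ → Set ℝ) (c : ℝ → ℝ) : Prop where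
  c0 : ∀ᶠ T in atTop, 0 ≤ c T
  Zn : ∀ T t, 0 ≤ Z T t
  Zi : ∀ᶠ T in atTop, IntegrableOn (Z T) (D T)
  Dm : ∀ T, MeasurableSet (D T)
  law : ∀ (z : ℕ) (F : (Fin (kN z) → ℂ) → ℝ), Continuous F → (∀ x, 0 ≤ F x) → ∀ η : ℝ, 0 < η → ∀ᶠ T in atTop,
    c1 * ER s z F - η ≤ c T * ∫ t in D T, Z T t * F (xt z t) ∧ c T * ∫ t in D T, Z T t * F (xt z t) ≤ C1 * ER s z F + η
  tail : ∀ a b B lam ε : ℝ, 1 / 2 < a → a ≤ b → b < 1 → 0 < B → 0 < lam → 0 < ε → ∀ z ≥ Z0 a b B lam ε,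
    ∀ᶠ T in atTop, c T * ∫ t in D T ∩ {t | lam ≤ JG a b B z t}, Z T t ≤ ε

/-- the additive form of the tails -/
theorem tail_add2 (Z0 : ℝ → ℝ → ℝ → ℝ → ℝ → ℕ) {K : Set ℂ} (hK : IsCompact K)
    (hKs : ∀ z ∈ K, 1 / 2 < z.re ∧ z.re < 1) {η ε : ℝ} (hη : 0 < η) (hε : 0 < ε) :
    ∃ z1 : ℕ, ∀ z ≥ z1, ∃ W : Set ℝ, MeasurableSet W ∧
      (∀ t, t ∉ W → ∀ w ∈ K, ‖riemannZeta (w + t * Complex.I) - EE z (xt z t) w‖ ≤ η) ∧
      ∀ (s c1 C1 : ℝ) (Z : ℝ → ℝ → ℝ) (D : ℝ → Set ℝ) (c : ℝ → ℝ), S2 s c1 C1 Z0 Z D c → ∀ᶠ T in atTop,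
        c T * ∫ t in D T ∩ W, Z T t ≤ ε := by
  obtain ⟨a', b', B', C, k1, k2, k3, k4, hC, hbad⟩ := badG_large hK hKs
  have hK0 : ∀ w ∈ K, 0 < w.re := fun w hw => by linarith [(hKs w hw).1]
  obtain ⟨z0, hz0⟩ : ∃ z0, z0 = Z0 a' b' B' ((1 / 2) ^ 2 / C) (ε / 2) := ⟨_, rfl⟩
  -- a bound for the product of the small primes
  obtain ⟨A, hA⟩ : ∃ A : ℝ, ∀ q ∈ Xt (kN z0) ×ˢ K, ‖EE z0 q.1 q.2‖ ≤ A := by
    have h1 : ContinuousOn (fun q : (Fin (kN z0) → ℂ) × ℂ => EE z0 q.1 q.2) (Xt (kN z0) ×ˢ K) := by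
      unfold EE
      exact ((BE_cont 0 z0).continuousOn).inv₀ fun q hq => BE_ne hq.1 (hK0 _ hq.2)
    exact ((Xt_compact (kN z0)).prod hK).exists_bound_of_continuousOn h1
  obtain ⟨A', hA', hA0⟩ : ∃ A' : ℝ, (∀ q ∈ Xt (kN z0) ×ˢ K, ‖EE z0 q.1 q.2‖ ≤ A') ∧ 0 ≤ A' :=
    ⟨max A 0, fun q hq => (hA q hq).trans (le_max_left _ _), le_max_right _ _⟩
  obtain ⟨ρ, hρ⟩ : ∃ ρ, ρ = min (η / (4 * (A' + 1))) (1 / 2) := ⟨_, rfl⟩
  have hρ0 : 0 < ρ := by rw [hρ]; positivity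
  have hρ1 : ρ ≤ 1 / 2 := by rw [hρ]; exact min_le_right _ _
  have hρ2 : ρ * (4 * (A' + 1)) ≤ η := by
    have : ρ ≤ η / (4 * (A' + 1)) := by rw [hρ]; exact min_le_left _ _
    rwa [le_div_iff₀ (by positivity)] at this
  refine ⟨Z0 a' b' B' (ρ ^ 2 / C) (ε / 2), fun z hz => ?_⟩
  have hM : ∀ (z : ℕ) (x : ℝ), MeasurableSet {t : ℝ | x ≤ JG a' b' B' z t} := fun z x =>
    (isClosed_le continuous_const (JG_cont k2 k3 k4 z)).measurableSet
  refine ⟨{t | (1 / 2) ^ 2 / C ≤ JG a' b' B' z0 t} ∪ {t | ρ ^ 2 / C ≤ JG a' b' B' z t}, (hM _ _).union (hM _ _),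
    fun t ht w hw => ?_, fun s c1 C1 Z D c h => ?_⟩
  · rw [Set.mem_union, not_or] at ht
    obtain ⟨ht1, ht2⟩ := ht
    have g1 : ‖GZ z0 (w + t * Complex.I)‖ < 1 / 2 := by
      by_contra hcon
      push Not at hcon
      refine ht1 ?_
      show (1 / 2) ^ 2 / C ≤ JG a' b' B' z0 t
      rw [div_le_iff₀ hC, mul_comm]
      exact hbad z0 (1 / 2) t t (by norm_num) ⟨w, hw, hcon⟩ (by simp)
    have g2 : ‖GZ z (w + t * Complex.I)‖ < ρ := by
      by_contra hcon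
      push Not at hcon
      refine ht2 ?_
      show ρ ^ 2 / C ≤ JG a' b' B' z t
      rw [div_le_iff₀ hC, mul_comm]
      exact hbad z ρ t t hρ0.le ⟨w, hw, hcon⟩ (by simp)
    have g3 := hA' (xt z0 t, w) ⟨fun j => xt_norm z0 t j, hw⟩
    rw [EE_xt] at g3 ⊢
    have hn0 : ZU.EM z0 (fun _ => 1) (w + t * Complex.I) ≠ 0 := by
      intro h0
      unfold GZ at g1
      rw [h0, mul_zero, zero_sub, norm_neg, norm_one] at g1
      linarith
    have hn : ZU.EM z (fun _ => 1) (w + t * Complex.I) ≠ 0 := by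
      intro h0
      unfold GZ at g2
      rw [h0, mul_zero, zero_sub, norm_neg, norm_one] at g2
      linarith
    unfold GZ at g1 g2
    generalize ZU.EM z0 (fun _ => 1) (w + t * Complex.I) = E0 at g1 g3 hn0
    generalize ZU.EM z (fun _ => 1) (w + t * Complex.I) = E at g2 hn ⊢
    generalize riemannZeta (w + t * Complex.I) = x at g1 g2 ⊢
    have h1 : ‖x‖ ≤ 2 * A' := by
      have e : x = E0⁻¹ * (x * E0) := by field_simp
      have h2 : ‖x * E0‖ ≤ 2 := by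
        have := norm_add_le (x * E0 - 1) 1
        rw [sub_add_cancel, norm_one] at this
        linarith
      rw [e, norm_mul]
      calc ‖E0⁻¹‖ * ‖x * E0‖ ≤ A' * 2 := mul_le_mul g3 h2 (norm_nonneg _) hA0
        _ = 2 * A' := by ring
    have h3 : 1 / 2 ≤ ‖x * E‖ := by
      have := norm_sub_norm_le (1 : ℂ) (1 - x * E)
      rw [norm_one, sub_sub_cancel, norm_sub_rev] at this
      linarith
    have e1 : (x - E⁻¹) * (x * E) = x * (x * E - 1) := by field_simp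
    have h4 : ‖x - E⁻¹‖ * ‖x * E‖ ≤ 2 * A' * ρ := by
      rw [← norm_mul, e1, norm_mul]
      exact mul_le_mul h1 g2.le (norm_nonneg _) (by positivity)
    have h5 : ‖x - E⁻¹‖ * (1 / 2) ≤ 2 * A' * ρ := (mul_le_mul_of_nonneg_left h3 (norm_nonneg _)).trans h4
    nlinarith
  · have t1 := h.tail a' b' B' ((1 / 2) ^ 2 / C) (ε / 2) k1 k2 k3 k4 (by positivity) (by positivity) z0 hz0.ge
    have t2 := h.tail a' b' B' (ρ ^ 2 / C) (ε / 2) k1 k2 k3 k4 (by positivity) (by positivity) z hz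
    filter_upwards [t1, t2, h.c0, h.Zi] with T h1 h2 h3 h4
    rw [Set.inter_union_distrib_left]
    have h5 : ∫ t in (D T ∩ {t | (1 / 2) ^ 2 / C ≤ JG a' b' B' z0 t}) ∪ (D T ∩ {t | ρ ^ 2 / C ≤ JG a' b' B' z t}), Z T t ≤
        (∫ t in D T ∩ {t | (1 / 2) ^ 2 / C ≤ JG a' b' B' z0 t}, Z T t) + ∫ t in D T ∩ {t | ρ ^ 2 / C ≤ JG a' b' B' z t}, Z T t := by
      rw [← integral_add_measure (h4.mono_set Set.inter_subset_left) (h4.mono_set Set.inter_subset_left)]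
      refine integral_mono_measure (Measure.restrict_union_le _ _) (Eventually.of_forall fun t => h.Zn T t) ?_
      exact Integrable.add_measure (h4.mono_set Set.inter_subset_left) (h4.mono_set Set.inter_subset_left)
    have h6 := mul_le_mul_of_nonneg_left h5 h3
    rw [mul_add] at h6
    linarith

/-- **the core theorem** -/
theorem core2 (Z0 : ℝ → ℝ → ℝ → ℝ → ℝ → ℕ) {K : Set ℂ} (hK : IsCompact K)
    (hKs : ∀ z ∈ K, 1 / 2 < z.re ∧ z.re < 1) (A : Set (ℂ → ℂ)) {δ ε η : ℝ} (hδε : δ < ε) (hη : 0 < η) :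
    ∃ z1 : ℕ, ∀ z ≥ z1, ∃ F : (Fin (kN z) → ℂ) → ℝ, Continuous F ∧ (∀ x, 0 ≤ F x) ∧ (∀ x, F x ≤ 1) ∧
      (∀ x ∈ Xt (kN z), Ev K A δ (EE z x) → F x = 1) ∧ (∀ x ∈ Xt (kN z), 0 < F x → Ev K A ε (EE z x)) ∧
      ∀ (s c1 C1 : ℝ) (Z : ℝ → ℝ → ℝ) (D : ℝ → Set ℝ) (c : ℝ → ℝ), S2 s c1 C1 Z0 Z D c → ∀ᶠ T in atTop,
        c T * ∫ t in D T ∩ {t | Zt K A δ t}, Z T t ≤ C1 * ER s z F + η ∧
        c1 * ER s z F - η ≤ c T * ∫ t in D T ∩ {t | Zt K A ε t}, Z T t := by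
  have hK0 : ∀ w ∈ K, 0 < w.re := fun w hw => by linarith [(hKs w hw).1]
  obtain ⟨z1, hz1⟩ := tail_add2 Z0 hK hKs (show 0 < (ε - δ) / 3 by linarith) (half_pos hη)
  refine ⟨z1, fun z hz => ?_⟩
  obtain ⟨W, hWm, hW, hWt⟩ := hz1 z hz
  obtain ⟨F, hFc, hF0, hF1, hFa, hFb⟩ := urysohn z hK hK0 A (δ + (ε - δ) / 3) (show 0 < (ε - δ) / 3 by linarith)
  refine ⟨F, hFc, hF0, hF1, fun x hx h => hFa x hx (h.le (by linarith)), fun x hx h => (hFb x hx h).le (by linarith),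
    fun s c1 C1 Z D c h => ?_⟩
  have hφc : Continuous fun t => F (xt z t) := hFc.comp (xt_cont z)
  have m1 : MeasurableSet ({t | F (xt z t) = 1} ∪ W) :=
    (isClosed_eq hφc continuous_const).measurableSet.union hWm
  have m2 : MeasurableSet ({t | 0 < F (xt z t)} ∩ Wᶜ) :=
    (isOpen_lt continuous_const hφc).measurableSet.inter hWm.compl
  have s1 : {t | Zt K A δ t} ⊆ {t | F (xt z t) = 1} ∪ W := by
    intro t ht
    by_cases hw : t ∈ W
    · exact Or.inr hw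
    · refine Or.inl (hFa _ (fun j => xt_norm z t j) ?_)
      exact ht.mono fun w hwK => by
        rw [norm_sub_rev]
        exact hW t hw w hwK
  have s2 : {t | 0 < F (xt z t)} ∩ Wᶜ ⊆ {t | Zt K A ε t} := by
    rintro t ⟨ht, hw⟩
    have h1 := (hFb _ (fun j => xt_norm z t j) ht).mono (h := fun w => riemannZeta (w + t * Complex.I))
      (ε := (ε - δ) / 3) fun w hwK => hW t hw w hwK
    exact h1.le (by linarith)
  filter_upwards [h.law z F hFc hF0 (η / 2) (by positivity), hWt s c1 C1 Z D c h, h.c0, h.Zi] with T g1 g3 g4 g5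
  have hi : IntegrableOn (fun t => Z T t * F (xt z t)) (D T) := by
    refine g5.mul_bdd (c := 1) hφc.measurable.aestronglyMeasurable (Eventually.of_forall fun t => ?_)
    rw [Real.norm_of_nonneg (hF0 _)]
    exact hF1 _
  constructor
  · have h1 : ∫ t in D T ∩ {t | Zt K A δ t}, Z T t ≤ ∫ t in D T ∩ ({t | F (xt z t) = 1} ∪ W), Z T t :=
      setIntegral_mono_set (g5.mono_set Set.inter_subset_left) (Eventually.of_forall fun t => h.Zn T t)
        (Eventually.of_forall fun t (ht : t ∈ D T ∩ _) => ⟨ht.1, s1 ht.2⟩)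
    have h2 : ∫ t in D T ∩ ({t | F (xt z t) = 1} ∪ W), Z T t ≤ (∫ t in D T, Z T t * F (xt z t)) + ∫ t in D T ∩ W, Z T t := by
      rw [← setIntegral_indicator m1, ← setIntegral_indicator hWm, ← integral_add hi (g5.indicator hWm)]
      refine setIntegral_mono_on (g5.indicator m1) (hi.add (g5.indicator hWm)) (h.Dm T) fun t _ => ?_
      have hz := h.Zn T t
      by_cases hw : t ∈ W
      · rw [Set.indicator_of_mem hw, Set.indicator_of_mem (Set.mem_union_right _ hw)]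
        have := mul_nonneg hz (hF0 (xt z t))
        linarith
      · rw [Set.indicator_of_notMem hw, add_zero]
        by_cases h1 : F (xt z t) = 1
        · have hmem : t ∈ {t | F (xt z t) = 1} ∪ W := Or.inl h1
          rw [Set.indicator_of_mem hmem, h1, mul_one]
        · rw [Set.indicator_of_notMem]
          · exact mul_nonneg hz (hF0 _)
          · rintro (h2 | h2)
            · exact h1 h2
            · exact hw h2
    have h3 := mul_le_mul_of_nonneg_left (h1.trans h2) g4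
    rw [mul_add] at h3
    linarith [g1.2]
  · have h1 := int_split (φ := fun t => F (xt z t)) (h.Dm T) m2 hWm g5 (h.Zn T) hφc.measurable (fun t => hF0 _) (fun t => hF1 _)
      (fun t ht1 ht2 => by
        by_contra hcon
        push Not at hcon
        exact ht1 ⟨hcon, ht2⟩)
    have h2 : ∫ t in D T ∩ ({t | 0 < F (xt z t)} ∩ Wᶜ), Z T t ≤ ∫ t in D T ∩ {t | Zt K A ε t}, Z T t :=
      setIntegral_mono_set (g5.mono_set Set.inter_subset_left) (Eventually.of_forall fun t => h.Zn T t)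
        (Eventually.of_forall fun t (ht : t ∈ D T ∩ _) => ⟨ht.1, s2 ht.2⟩)
    have h3 := mul_le_mul_of_nonneg_left h1 g4
    have h4 := mul_le_mul_of_nonneg_left h2 g4
    rw [mul_add] at h3
    linarith [g1.1]

end

end Pool.Agent.H469.F4
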