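import Pool.Agent.H469.F4.UL6
import Pool.Graph.R_pool_sql_team_seeded_64922ed1.X107.MU.MU27
import Pool.Graph.R_pool_sql_team_seeded_843ab51a.V1167.PP.Main

set_option autoImplicit false

/-!
# The critical line and the lines near it as systems of weights
-/

namespace Pool.Agent.H469.F4

open Filter Topology MeasureTheory Complex Pool.Agent.Q97.UM
open Pool.Agent.X107.MU (JG JG_cont JG_nonneg Xt xt xt_norm xt_cont EE EE_xt BE BE_cont BE_ne BadG badG_large GZ urysohn Xt_compact Zt int_split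
  Sys tgt_pos of_weight Zt_SS prod_pNC)
open Pool.Agent.X107.UZ (kN pN pN_mem pN_prime pN_inj Ev)
open Pool.Agent.V1167.PP (law law_prob ex ex_norm ex_cont full_phases)
open Pool.Agent.H306R2 (aF aF_pos)
open Pool.Agent.Y834.UT (Tgt SS)

noncomputable section

/-- the normalisation -/
def cl (s T : ℝ) : ℝ := (Real.log T ^ (s ^ 2))⁻¹ / T

theorem line_law : ∃ c C : ℝ, 0 < c ∧ 0 < C ∧ ∀ s : ℝ, 0 ≤ s → s ≤ 2 → ∀ G : (Nat.Primes → ℂ) → ℝ, Continuous G →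
    (∀ z, 0 ≤ G z) → ∀ η : ℝ, 0 < η → ∀ᶠ T : ℝ in atTop,
    c * EI s G - η ≤ cl s T * ∫ t in Set.Icc 0 T, ‖zt t‖ ^ (2 * s) * G (zp t) ∧
    cl s T * ∫ t in Set.Icc 0 T, ‖zt t‖ ^ (2 * s) * G (zp t) ≤ C * EI s G + η := by
  obtain ⟨c, C, hc, hC, h⟩ := phase_shift
  refine ⟨c, C, hc, hC, fun s hs0 hs2 G hG hG0 η hη => ?_⟩
  filter_upwards [h s hs0 hs2 0 G hG hG0 η hη, eventually_gt_atTop (0 : ℝ), Real.tendsto_log_atTop.eventually_gt_atTop 0] with T g1 hT0 hL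
  have h3 : ∫ u in (0 : ℝ)..1, ‖zt (0 + u * T)‖ ^ (2 * s) * G (zp (0 + u * T)) =
      (1 / T) * ∫ t in Set.Icc 0 T, ‖zt t‖ ^ (2 * s) * G (zp t) := by
    have h4 := intervalIntegral.integral_comp_mul_right (a := 0) (b := 1) (fun t => ‖zt t‖ ^ (2 * s) * G (zp t)) hT0.ne'
    rw [zero_mul, one_mul, smul_eq_mul] at h4
    rw [one_div, integral_Icc_eq_integral_Ioc, ← intervalIntegral.integral_of_le hT0.le, ← h4]
    congr 1
    funext u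
    rw [zero_add]
  rw [h3] at g1
  have h5 : Real.exp (-(s ^ 2 * Real.log (Real.log T))) = (Real.log T ^ (s ^ 2))⁻¹ := by
    rw [Real.rpow_def_of_pos hL, ← Real.exp_neg]
    congr 1
    ring
  rw [h5] at g1
  have h6 : ∀ x : ℝ, (Real.log T ^ (s ^ 2))⁻¹ * (1 / T * x) = cl s T * x := by
    intro x
    unfold cl
    ring
  rw [h6] at g1
  exact g1

/-- the thresholds of the line -/
theorem exists_Zl {s : ℝ} (hs0 : 0 ≤ s) (hs2 : s < 2) : ∃ Z0 : ℝ → ℝ → ℝ → ℝ → ℝ → ℕ, ∀ a b B lam ε : ℝ, 1 / 2 < a → a ≤ b → b < 1 →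
    0 < B → 0 < lam → 0 < ε → ∀ z ≥ Z0 a b B lam ε, ∀ᶠ T : ℝ in atTop,
      cl s T * ∫ t in Set.Icc 0 T ∩ {t | lam ≤ JG a b B z t}, ‖zt t‖ ^ (2 * s) ≤ ε := by
  have h : ∀ a b B lam ε : ℝ, ∃ z0 : ℕ, 1 / 2 < a → a ≤ b → b < 1 →
    0 < B → 0 < lam → 0 < ε → ∀ z ≥ z0, ∀ᶠ T : ℝ in atTop,
      cl s T * ∫ t in Set.Icc 0 T ∩ {t | lam ≤ JG a b B z t}, ‖zt t‖ ^ (2 * s) ≤ ε := by
    intro a b B lam ε
    by_cases hh : 1 / 2 < a ∧ a ≤ b ∧ b < 1 ∧ 0 < B ∧ 0 < lam ∧ 0 < ε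
    · obtain ⟨h2, h3, h4, h5, h6, h7⟩ := hh
      obtain ⟨z0, hz0⟩ := tail_line hs0 hs2 h2 h3 h4 h5 h6 h7
      exact ⟨z0, fun _ _ _ _ _ _ => hz0⟩
    · exact ⟨0, fun h2 h3 h4 h5 h6 h7 => absurd ⟨h2, h3, h4, h5, h6, h7⟩ hh⟩
  choose Z0 hZ0 using h
  exact ⟨Z0, hZ0⟩

theorem S2.weaken {s c1 C1 : ℝ} {Z0 Z0' : ℝ → ℝ → ℝ → ℝ → ℝ → ℕ} {Z : ℝ → ℝ → ℝ} {D : ℝ → Set ℝ} {c : ℝ → ℝ}
    (h : S2 s c1 C1 Z0 Z D c) (hZ : ∀ a b B lam ε, Z0 a b B lam ε ≤ Z0' a b B lam ε) : S2 s c1 C1 Z0' Z D c :=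
  ⟨h.c0, h.Zn, h.Zi, h.Dm, h.law, fun a b B lam ε h1 h2 h3 h4 h5 h6 z hz => h.tail a b B lam ε h1 h2 h3 h4 h5 h6 z
    ((hZ a b B lam ε).trans hz)⟩

/-- the critical line -/
theorem line_sys : ∃ c C : ℝ, 0 < c ∧ 0 < C ∧ ∀ s : ℝ, 0 ≤ s → s < 2 → ∃ Z0 : ℝ → ℝ → ℝ → ℝ → ℝ → ℕ,
    S2 s c C Z0 (fun _ t => ‖zt t‖ ^ (2 * s)) (fun T => Set.Icc 0 T) (cl s) := by
  obtain ⟨c, C, hc, hC, h⟩ := line_law
  refine ⟨c, C, hc, hC, fun s hs0 hs2 => ?_⟩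
  obtain ⟨Z0, hZ0⟩ := exists_Zl hs0 hs2
  refine ⟨Z0, ?_, fun T t => by positivity, ?_, fun T => measurableSet_Icc, ?_, hZ0⟩
  · filter_upwards [eventually_gt_atTop (0 : ℝ), Real.tendsto_log_atTop.eventually_gt_atTop 0] with T hT hL
    unfold cl
    positivity
  · exact Eventually.of_forall fun T => (ztw_cont hs0).continuousOn.integrableOn_compact isCompact_Icc
  · intro z F hF hF0 η hη
    have h1 := h s hs0 hs2.le (fun X => F (rz z X)) (hF.comp (rz_cont z)) (fun X => hF0 _) η hη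
    simp only [rz_zp] at h1
    exact h1

theorem exists_path : ∃ δ : ℝ → ℝ, Tendsto δ atTop (𝓝 0) ∧ Tendsto (fun T : ℝ => δ T * Real.log T) atTop atTop := by
  have h1 : Tendsto (fun T : ℝ => √(Real.log T)) atTop atTop :=
    Real.tendsto_sqrt_atTop.comp Real.tendsto_log_atTop
  refine ⟨fun T => (√(Real.log T))⁻¹, h1.inv_tendsto_atTop, ?_⟩
  refine h1.congr' ?_
  filter_upwards [eventually_gt_atTop (1 : ℝ)] with T hT
  have hL := Real.log_pos hT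
  have h2 : √(Real.log T) ≠ 0 := (Real.sqrt_pos.2 hL).ne'
  field_simp
  rw [Real.sq_sqrt hL.le]

/-- a line near the critical line -/
theorem near_sys {s : ℝ} (hs : 0 < s) (hs2 : s ≤ 2) : ∃ (Z0 : ℝ → ℝ → ℝ → ℝ → ℝ → ℕ) (Z : ℝ → ℝ → ℝ) (D : ℝ → Set ℝ) (c : ℝ → ℝ),
    Sys s Z0 Z D c ∧ S2 s (aF s) (aF s) Z0 Z D c := by
  obtain ⟨Z0, hZ0⟩ := Pool.Agent.X107.MU.sys_path Pool.Agent.Y901.SHR.done Pool.Agent.Y753.SHR.star
  obtain ⟨δ, hδ, hδL⟩ := exists_path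
  obtain ⟨E, -, -, hsys⟩ := hZ0 δ hδ hδL 0 le_rfl {s} (Set.countable_singleton s) (fun r hr => by
    rw [Set.mem_singleton_iff] at hr
    rw [hr]
    exact hs)
  have h1 := (hsys s (Set.mem_singleton s)).2 hs2
  refine ⟨Z0 s, _, _, _, h1, h1.c0, h1.Zn, h1.Zi, h1.Dm, ?_, h1.tail⟩
  intro z F hF hF0 η hη
  have hG : Continuous fun X : Nat.Primes → ℂ => ((F (rz z X) : ℝ) : ℂ) := Complex.continuous_ofReal.comp (hF.comp (rz_cont z))
  have h2 := full_phases hδ hδL hs hs2 (BoundedContinuousFunction.const ℝ 1) hG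
  have h3 := (Complex.continuous_re.tendsto _).comp h2
  have e1 : ∀ T : ℝ, ((((2 * δ T) ^ (s ^ 2) / T : ℝ) : ℂ) * ∫ t in Set.Icc 0 T, ((Pool.Agent.W184.zn (1 / 2 + δ T) t ^ (2 * s) *
          (BoundedContinuousFunction.const ℝ (1 : ℝ))
            ((Real.log (Pool.Agent.W184.zn (1 / 2 + δ T) t) - s * Pool.Agent.Y753.NL.ell (δ T)) / Pool.Agent.Y753.NL.sg (δ T)) : ℝ) : ℂ) *
            (fun X : Nat.Primes → ℂ => ((F (rz z X) : ℝ) : ℂ)) (fun p => ((p : ℕ) : ℂ) ^ ((t:ℂ) * Complex.I))).re =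
      (2 * δ T) ^ (s ^ 2) / T * ∫ t in Set.Icc 0 T, ‖riemannZeta (1 / 2 + δ T + (t : ℂ) * Complex.I)‖ ^ (2 * s) * F (xt z t) := by
    intro T
    have e2 : ∀ t : ℝ, ((Pool.Agent.W184.zn (1 / 2 + δ T) t ^ (2 * s) *
          (BoundedContinuousFunction.const ℝ (1 : ℝ))
            ((Real.log (Pool.Agent.W184.zn (1 / 2 + δ T) t) - s * Pool.Agent.Y753.NL.ell (δ T)) / Pool.Agent.Y753.NL.sg (δ T)) : ℝ) : ℂ) *
            (fun X : Nat.Primes → ℂ => ((F (rz z X) : ℝ) : ℂ)) (fun p => ((p : ℕ) : ℂ) ^ ((t:ℂ) * Complex.I)) =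
        ((‖riemannZeta (1 / 2 + δ T + (t : ℂ) * Complex.I)‖ ^ (2 * s) * F (xt z t) : ℝ) : ℂ) := by
      intro t
      have e3 : rz z (fun p => ((p : ℕ) : ℂ) ^ ((t:ℂ) * Complex.I)) = xt z t := rz_zp z t
      have e4 : Pool.Agent.W184.zn (1 / 2 + δ T) t = ‖riemannZeta (1 / 2 + δ T + (t : ℂ) * Complex.I)‖ := by
        unfold Pool.Agent.W184.zn
        congr 2
        push_cast
        ring
      show _ * ((F (rz z (fun p => ((p : ℕ) : ℂ) ^ ((t:ℂ) * Complex.I))) : ℝ) : ℂ) = _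
      rw [e3, e4, BoundedContinuousFunction.const_apply, mul_one]
      push_cast
      ring
    simp_rw [e2]
    rw [integral_complex_ofReal, ← Complex.ofReal_mul, Complex.ofReal_re]
  have e5 : (((aF s * ∫ x, (BoundedContinuousFunction.const ℝ (1 : ℝ)) x ∂(ProbabilityTheory.gaussianReal 0 1) : ℝ) : ℂ) *
      ∫ x, (fun X : Nat.Primes → ℂ => ((F (rz z X) : ℝ) : ℂ)) (fun p => ex (x p))
        ∂(Measure.infinitePi fun p : Nat.Primes => law s p)).re = aF s * ER s z F := by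
    simp only [BoundedContinuousFunction.const_apply, integral_const, smul_eq_mul, probReal_univ, mul_one]
    rw [integral_complex_ofReal, ← Complex.ofReal_mul, Complex.ofReal_re]
    rfl
  have h4 : Tendsto (fun T => (2 * δ T) ^ (s ^ 2) / T * ∫ t in Set.Icc 0 T,
      ‖riemannZeta (1 / 2 + δ T + (t : ℂ) * Complex.I)‖ ^ (2 * s) * F (xt z t)) atTop (𝓝 (aF s * ER s z F)) := by
    rw [← e5]
    exact h3.congr e1
  filter_upwards [h4.eventually (lt_mem_nhds (show aF s * ER s z F - η < aF s * ER s z F by linarith)),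
    h4.eventually (gt_mem_nhds (show aF s * ER s z F < aF s * ER s z F + η by linarith))] with T g1 g2
  exact ⟨g1.le, g2.le⟩

end

end Pool.Agent.H469.F4
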