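import Pool.Agent.H469.F4.UL7

set_option autoImplicit false

/-!
# Values right of the line under the moments on the critical line
-/

namespace Pool.Agent.H469.F4

open Filter Topology MeasureTheory Complex Pool.Agent.Q97.UM
open Pool.Agent.X107.MU (JG JG_cont JG_nonneg Xt xt xt_norm xt_cont EE EE_xt BE BE_cont BE_ne BadG badG_large GZ urysohn Xt_compact Zt int_split
  Sys tgt_pos of_weight Zt_SS prod_pNC)
open Pool.Agent.X107.UZ (kN pN pN_mem pN_prime pN_inj Ev)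
open Pool.Agent.V1167.PP (law law_prob ex ex_norm ex_cont full_phases)
open Pool.Agent.H306R2 (aF aF_pos)
open Pool.Agent.Y834.UT (Tgt SS)

noncomputable section

/-- the Euler product over the primes up to `z` -/
def eul (z : ℕ) (X : Nat.Primes → ℂ) (w : ℂ) : ℂ :=
  ∏ p ∈ (Finset.Icc 1 z).subtype Nat.Prime, (1 - (starRingEnd ℂ) (X p) * ((p : ℕ) : ℂ) ^ (-w))⁻¹

theorem EE_eul (z : ℕ) (X : Nat.Primes → ℂ) (w : ℂ) : EE z (rz z X) w = eul z X w := by
  classical
  obtain ⟨g, hg⟩ : ∃ g : ℕ → ℂ, ∀ p, g p = if h : p.Prime then (1 - (starRingEnd ℂ) (X ⟨p, h⟩) * (p : ℂ) ^ (-w)) else 1 := ⟨_, fun _ => rfl⟩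
  have h1 : BE 0 z (rz z X) w = ∏ p ∈ (Finset.Icc 1 z).filter Nat.Prime, g p := by
    have h2 := prod_pNC z g
    have h3 : ZU.pr z = (Finset.Icc 1 z).filter Nat.Prime := rfl
    rw [h3] at h2
    rw [← h2]
    unfold BE
    refine Finset.prod_congr rfl fun j _ => ?_
    rw [if_pos (pN_prime z j).pos, hg, dif_pos (pN_prime z j)]
    rfl
  unfold EE eul
  rw [h1, Finset.prod_inv_distrib, ← Finset.prod_subtype_eq_prod_filter]
  congr 1
  refine Finset.prod_congr rfl fun p _ => ?_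
  rw [hg, dif_pos p.2]

theorem nu_torus (s : ℝ) : ∀ᵐ X ∂(nu s), ∀ p, ‖X p‖ = 1 := by
  rw [ae_all_iff]
  intro p
  unfold nu
  have hm : MeasurableSet {X : Nat.Primes → ℂ | ‖X p‖ = 1} :=
    measurableSet_eq_fun (measurable_norm.comp (measurable_pi_apply p)) measurable_const
  rw [ae_map_iff ex_meas.aemeasurable hm]
  exact Eventually.of_forall fun x => ex_norm _

/-- the event -/
def evt (z : ℕ) (K : Set ℂ) (A : Set (ℂ → ℂ)) (ε : ℝ) : Set (Nat.Primes → ℂ) := {X | Ev K A ε (eul z X)}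

theorem ER_eq (s : ℝ) (z : ℕ) {F : (Fin (kN z) → ℂ) → ℝ} (hF : Continuous F) : ER s z F = ∫ X, F (rz z X) ∂(nu s) :=
  (nu_int s (hF.comp (rz_cont z))).symm

theorem ER_bounds (s : ℝ) (z : ℕ) {K : Set ℂ} {A : Set (ℂ → ℂ)} {δ ε : ℝ} {F : (Fin (kN z) → ℂ) → ℝ} (hF : Continuous F)
    (hF0 : ∀ x, 0 ≤ F x) (hF1 : ∀ x, F x ≤ 1) (ha : ∀ x ∈ Xt (kN z), Ev K A δ (EE z x) → F x = 1)
    (hb : ∀ x ∈ Xt (kN z), 0 < F x → Ev K A ε (EE z x)) :
    (nu s).real (evt z K A δ) ≤ ER s z F ∧ ER s z F ≤ (nu s).real (evt z K A ε) := by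
  have hprob := nu_prob s
  have hc : Continuous fun X => F (rz z X) := hF.comp (rz_cont z)
  have hi : Integrable (fun X => F (rz z X)) (nu s) := by
    refine (integrable_const (1 : ℝ)).mono' hc.aestronglyMeasurable (Eventually.of_forall fun X => ?_)
    rw [Real.norm_of_nonneg (hF0 _)]
    exact hF1 _
  have hEE : ∀ X, EE z (rz z X) = eul z X := fun X => funext fun w => EE_eul z X w
  rw [ER_eq s z hF]
  constructor
  · have h1 : (nu s) (evt z K A δ) ≤ (nu s) {X | 1 ≤ F (rz z X)} := by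
      refine measure_mono_ae ?_
      filter_upwards [nu_torus s] with X hX hE
      have hE' : Ev K A δ (eul z X) := hE
      show 1 ≤ F (rz z X)
      rw [← hEE] at hE'
      exact (ha (rz z X) (fun j => hX _) hE').ge
    have h2 : (nu s).real (evt z K A δ) ≤ (nu s).real {X | 1 ≤ F (rz z X)} := ENNReal.toReal_mono (measure_ne_top _ _) h1
    have h3 := mul_meas_ge_le_integral_of_nonneg (Eventually.of_forall fun X => hF0 (rz z X)) hi 1
    rw [one_mul] at h3
    exact h2.trans h3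
  · have hm : MeasurableSet {X | 0 < F (rz z X)} := (isOpen_lt continuous_const hc).measurableSet
    have h1 : (nu s) {X | 0 < F (rz z X)} ≤ (nu s) (evt z K A ε) := by
      refine measure_mono_ae ?_
      filter_upwards [nu_torus s] with X hX hE
      have hE' : 0 < F (rz z X) := hE
      show Ev K A ε (eul z X)
      rw [← hEE]
      exact hb (rz z X) (fun j => hX _) hE'
    have h2 : (nu s).real {X | 0 < F (rz z X)} ≤ (nu s).real (evt z K A ε) := ENNReal.toReal_mono (measure_ne_top _ _) h1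
    refine le_trans ?_ h2
    have h3 : ∫ X, F (rz z X) ∂(nu s) ≤ ∫ X, {X | 0 < F (rz z X)}.indicator (fun _ => (1 : ℝ)) X ∂(nu s) := by
      refine integral_mono hi ((integrable_const (1 : ℝ)).indicator hm) fun X => ?_
      by_cases h : 0 < F (rz z X)
      · rw [Set.indicator_of_mem (show X ∈ {X | 0 < F (rz z X)} from h)]
        exact hF1 _
      · rw [Set.indicator_of_notMem (show X ∉ {X | 0 < F (rz z X)} from h)]
        exact not_lt.1 h
    refine h3.trans (le_of_eq ?_)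
    rw [integral_indicator hm, setIntegral_const, smul_eq_mul, mul_one]

/-- the moment over the ordinates in `P` -/
def Mo (s : ℝ) (P : Set ℝ) (T : ℝ) : ℝ := cl s T * ∫ t in Set.Icc 0 T ∩ P, ‖zt t‖ ^ (2 * s)

/-- **law and universality** -/
theorem law_univ : ∃ c C : ℝ, 0 < c ∧ 0 < C ∧ ∀ s : ℝ, 0 < s → s < 2 → ∀ K : Set ℂ, IsCompact K →
    (∀ z ∈ K, 1 / 2 < z.re ∧ z.re < 1) →
    (∀ (A : Set (ℂ → ℂ)) (δ ε η : ℝ), δ < ε → 0 < η → ∃ z₀ : ℕ, ∀ z ≥ z₀, ∀ᶠ T : ℝ in atTop,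
      c * (nu s).real (evt z K A δ) - η ≤ Mo s {t | Zt K A ε t} T ∧ Mo s {t | Zt K A δ t} T ≤ C * (nu s).real (evt z K A ε) + η) ∧
    (∀ f : ℂ → ℂ, Tgt K f → ∀ ε : ℝ, 0 < ε → ∃ κ : ℝ, 0 < κ ∧ ∀ᶠ T : ℝ in atTop, κ ≤ Mo s {t | Zt K {f} ε t} T) ∧
    (∀ f : ℂ → ℂ, (∀ ε : ℝ, 0 < ε → ¬ Tendsto (Mo s {t | Zt K {f} ε t}) atTop (𝓝 0)) → Tgt K f) := by
  obtain ⟨c, C, hc, hC, h⟩ := line_sys
  refine ⟨c, C, hc, hC, fun s hs0 hs2 K hK hKs => ?_⟩
  obtain ⟨Zl, hZl⟩ := h s hs0.le hs2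
  obtain ⟨Zn, Z, D, cn, hSys, hnear⟩ := near_sys hs0 hs2.le
  have haF := aF_pos hs0
  obtain ⟨Z0, hZ0⟩ : ∃ Z0 : ℝ → ℝ → ℝ → ℝ → ℝ → ℕ, Z0 = fun a b B lam ε => max (Zl a b B lam ε) (Zn a b B lam ε) := ⟨_, rfl⟩
  have hL : S2 s c C Z0 (fun _ t => ‖zt t‖ ^ (2 * s)) (fun T => Set.Icc 0 T) (cl s) := hZl.weaken fun a b B lam ε => by
    rw [hZ0]; exact le_max_left _ _
  have hN : S2 s (aF s) (aF s) Z0 Z D cn := hnear.weaken fun a b B lam ε => by rw [hZ0]; exact le_max_right _ _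
  refine ⟨fun A δ ε η hδε hη => ?_, fun f hf ε hε => ?_, fun f hf => ?_⟩
  · obtain ⟨z1, hz1⟩ := core2 Z0 hK hKs A hδε hη
    refine ⟨z1, fun z hz => ?_⟩
    obtain ⟨F, hF, hF0, hF1, ha, hb, hcore⟩ := hz1 z hz
    obtain ⟨b1, b2⟩ := ER_bounds s z hF hF0 hF1 ha hb
    filter_upwards [hcore s c C _ _ _ hL] with T hT
    constructor
    · have h1 := mul_le_mul_of_nonneg_left b1 hc.le
      exact (by linarith : c * (nu s).real (evt z K A δ) - η ≤ c * ER s z F - η).trans hT.2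
    · have h1 := mul_le_mul_of_nonneg_left b2 hC.le
      exact hT.1.trans (by linarith)
  · obtain ⟨κ, hκ, hk⟩ := tgt_pos hs0 Zn hK hKs hf (show 0 < ε / 2 by positivity)
    obtain ⟨κ', hκ'⟩ : ∃ κ', κ' = c * (κ / (2 * aF s)) := ⟨_, rfl⟩
    have hκ'0 : 0 < κ' := by rw [hκ']; positivity
    obtain ⟨η, hη⟩ : ∃ η, η = min (κ / 2) (κ' / 2) := ⟨_, rfl⟩
    have hη0 : 0 < η := by rw [hη]; positivity
    have hη1 : η ≤ κ / 2 := by rw [hη]; exact min_le_left _ _
    have hη2 : η ≤ κ' / 2 := by rw [hη]; exact min_le_right _ _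
    obtain ⟨z1, hz1⟩ := core2 Z0 hK hKs {f} (show ε / 2 < ε by linarith) hη0
    obtain ⟨F, hF, hF0, hF1, ha, hb, hcore⟩ := hz1 z1 le_rfl
    have hE : κ / (2 * aF s) ≤ ER s z1 F := by
      obtain ⟨T, hT1, hT2⟩ := ((hk Z D cn hSys).and (hcore s _ _ _ _ _ hN)).exists
      rw [Zt_SS] at hT2
      rw [div_le_iff₀ (by positivity)]
      have := hT2.1
      linarith
    refine ⟨κ' / 2, by positivity, ?_⟩
    filter_upwards [hcore s c C _ _ _ hL] with T hT
    have h1 := mul_le_mul_of_nonneg_left hE hc.le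
    rw [← hκ'] at h1
    exact (by linarith : κ' / 2 ≤ c * ER s z1 F - η).trans hT.2
  · refine of_weight (Z0 := Zn) (s := s) hK hKs fun ε hε => ⟨Z, D, cn, hSys, fun ht => ?_⟩
    -- the mass near the line does not tend to zero
    refine hf (ε / 2) (by positivity) ?_
    rw [← Zt_SS] at ht
    refine tendsto_order.2 ⟨fun x hx => ?_, fun x hx => ?_⟩
    · filter_upwards [hL.c0] with T hT
      exact hx.trans_le (mul_nonneg hT (integral_nonneg fun t => by positivity))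
    · obtain ⟨η, hη⟩ : ∃ η, η = min (x / 4) (aF s * (x / (4 * C)) / 2) := ⟨_, rfl⟩
      have hη0 : 0 < η := by rw [hη]; positivity
      have hη1 : η ≤ x / 4 := by rw [hη]; exact min_le_left _ _
      have hη2 : η ≤ aF s * (x / (4 * C)) / 2 := by rw [hη]; exact min_le_right _ _
      obtain ⟨z1, hz1⟩ := core2 Z0 hK hKs {f} (show ε / 2 < ε by linarith) hη0
      obtain ⟨F, hF, hF0, hF1, ha, hb, hcore⟩ := hz1 z1 le_rfl
      have hE : ER s z1 F ≤ x / (2 * C) := by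
        by_contra hcon
        push Not at hcon
        have hpos : 0 < aF s * (x / (4 * C)) / 2 := by positivity
        obtain ⟨T, hT1, hT2⟩ := ((hcore s _ _ _ _ _ hN).and (ht.eventually (gt_mem_nhds hpos))).exists
        have h1 := mul_lt_mul_of_pos_left hcon haF
        have h2 : aF s * (x / (2 * C)) = 2 * (aF s * (x / (4 * C))) := by
          field_simp
          ring
        have h3 := hT1.2
        rw [h2] at h1
        have h4 : 0 < aF s * (x / (4 * C)) := by positivity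
        linarith
      filter_upwards [hcore s c C _ _ _ hL] with T hT
      have h1 := mul_le_mul_of_nonneg_left hE hC.le
      have h2 : C * (x / (2 * C)) = x / 2 := by
        field_simp
      rw [h2] at h1
      have h3 : Mo s {t | Zt K {f} (ε / 2) t} T ≤ C * ER s z1 F + η := hT.1
      linarith

end

end Pool.Agent.H469.F4
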