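import Pool.Agent.H469.F4.U2

set_option autoImplicit false

/-!
# Large regular separated subsets
-/

namespace Pool.Agent.H469.F4

open Filter Topology

noncomputable section

/-- the capacities -/
def cap (s : ℝ) (m : ℕ) : ℕ := ⌈((2 : ℝ) ^ m) ^ s⌉₊

theorem cap_zero (s : ℝ) : cap s 0 = 1 := by
  unfold cap
  simp

theorem cap_mono {s : ℝ} (hs : 0 ≤ s) {m n : ℕ} (h : m ≤ n) : cap s m ≤ cap s n := by
  unfold cap
  apply Nat.ceil_mono
  apply Real.rpow_le_rpow (by positivity) _ hs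
  exact pow_le_pow_right₀ (by norm_num) h

theorem cap_pos {s : ℝ} (hs : 0 ≤ s) (m : ℕ) : 1 ≤ cap s m := by
  rw [← cap_zero s]
  exact cap_mono hs (Nat.zero_le m)

theorem cap_le {s : ℝ} (hs : 0 ≤ s) (m : ℕ) : (cap s m : ℝ) ≤ 2 * ((2 : ℝ) ^ m) ^ s := by
  have h1 : (1 : ℝ) ≤ ((2 : ℝ) ^ m) ^ s := Real.one_le_rpow (one_le_pow₀ (by norm_num)) hs
  have h2 := (Nat.ceil_lt_add_one (by linarith : (0 : ℝ) ≤ ((2 : ℝ) ^ m) ^ s)).le
  unfold cap
  linarith

/-- **the tree** -/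
theorem tree (A : Set ℝ) {r s : ℝ} (hr : 0 < r) (hs : 0 ≤ s) (n : ℕ) : ∀ a : ℝ, ∃ (S : Finset ℝ) (F : Finset (ℝ × ℕ)),
    (∀ x ∈ S, x ∈ A ∧ a ≤ x ∧ x < a + 2 ^ n * r) ∧
    (∀ m i : ℕ, (S.filter fun x => a + i * 2 ^ m * r ≤ x ∧ x < a + (i + 1) * 2 ^ m * r).card ≤ cap s m) ∧
    S.card ≤ cap s n ∧
    (∀ x ∈ A, a ≤ x → x < a + 2 ^ n * r → ∃ p ∈ F, p.1 ≤ x ∧ x < p.1 + 2 ^ p.2 * r) ∧
    ∑ p ∈ F, cap s p.2 ≤ S.card := by
  classical
  induction n with
  | zero =>
    intro a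
    by_cases h : ∃ x ∈ A, a ≤ x ∧ x < a + 2 ^ 0 * r
    · obtain ⟨x, hx, h1, h2⟩ := h
      refine ⟨{x}, {(a, 0)}, ?_, ?_, ?_, ?_, ?_⟩
      · intro y hy
        rw [Finset.mem_singleton] at hy
        rw [hy]
        exact ⟨hx, h1, h2⟩
      · intro m i
        refine (Finset.card_filter_le _ _).trans ?_
        rw [Finset.card_singleton]
        exact cap_pos hs m
      · rw [Finset.card_singleton]
        exact cap_pos hs 0
      · intro y _ h3 h4
        exact ⟨(a, 0), Finset.mem_singleton_self _, h3, h4⟩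
      · rw [Finset.sum_singleton, Finset.card_singleton]
        exact le_of_eq (cap_zero s)
    · refine ⟨∅, ∅, ?_, ?_, ?_, ?_, ?_⟩
      · intro y hy
        exact absurd hy (Finset.notMem_empty y)
      · intro m i
        simp
      · simp
      · intro y hy h3 h4
        exact absurd ⟨y, hy, h3, h4⟩ h
      · simp
  | succ n ih =>
    intro a
    obtain ⟨S₁, F₁, i1, r1, k1, c1, t1⟩ := ih a
    obtain ⟨S₂, F₂, i2, r2, k2, c2, t2⟩ := ih (a + 2 ^ n * r)
    have hdisj : Disjoint S₁ S₂ := by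
      rw [Finset.disjoint_left]
      intro x h1 h2
      linarith [(i1 x h1).2.2, (i2 x h2).2.1]
    have hpow : (2 : ℝ) ^ (n + 1) * r = 2 ^ n * r + 2 ^ n * r := by rw [pow_succ]; ring
    have hin : ∀ x ∈ S₁ ∪ S₂, x ∈ A ∧ a ≤ x ∧ x < a + 2 ^ (n + 1) * r := by
      intro x hx
      have hp : 0 < (2 : ℝ) ^ n * r := by positivity
      rw [hpow]
      rw [Finset.mem_union] at hx
      rcases hx with h | h
      · obtain ⟨g1, g2, g3⟩ := i1 x h
        exact ⟨g1, g2, by linarith⟩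
      · obtain ⟨g1, g2, g3⟩ := i2 x h
        exact ⟨g1, by linarith, by linarith⟩
    have hreg : ∀ m i : ℕ, m ≤ n → ((S₁ ∪ S₂).filter fun x => a + i * 2 ^ m * r ≤ x ∧ x < a + (i + 1) * 2 ^ m * r).card ≤ cap s m := by
      intro m i hm
      obtain ⟨q, hq⟩ := Nat.exists_eq_add_of_le hm
      have h2n : (2 : ℝ) ^ n = 2 ^ q * 2 ^ m := by rw [hq, pow_add, mul_comm]
      have hrm : 0 < (2 : ℝ) ^ m * r := by positivity
      rcases lt_or_ge i (2 ^ q) with hi | hi
      · have hi' : ((i : ℝ) + 1) ≤ 2 ^ q := by exact_mod_cast hi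
        have h3 : (a + (i + 1) * 2 ^ m * r) ≤ a + 2 ^ n * r := by
          rw [h2n]
          have := mul_le_mul_of_nonneg_right hi' hrm.le
          linarith
        refine le_trans (Finset.card_le_card ?_) (r1 m i)
        intro x hx
        rw [Finset.mem_filter, Finset.mem_union] at hx
        rw [Finset.mem_filter]
        refine ⟨?_, hx.2⟩
        rcases hx.1 with h | h
        · exact h
        · linarith [(i2 x h).2.1, hx.2.2]
      · obtain ⟨i', hi'⟩ := Nat.exists_eq_add_of_le hi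
        have hi'' : (i : ℝ) = 2 ^ q + i' := by rw [hi']; push_cast; ring
        have e1 : a + (i : ℝ) * 2 ^ m * r = a + 2 ^ n * r + i' * 2 ^ m * r := by rw [hi'', h2n]; ring
        have e2 : a + ((i : ℝ) + 1) * 2 ^ m * r = a + 2 ^ n * r + (i' + 1) * 2 ^ m * r := by rw [hi'', h2n]; ring
        refine le_trans (Finset.card_le_card ?_) (r2 m i')
        intro x hx
        rw [Finset.mem_filter, Finset.mem_union, e1, e2] at hx
        rw [Finset.mem_filter]
        refine ⟨?_, hx.2⟩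
        rcases hx.1 with h | h
        · have h4 : 0 ≤ (i' : ℝ) * 2 ^ m * r := by positivity
          linarith [(i1 x h).2.2, hx.2.1]
        · exact h
    rcases le_or_gt (S₁ ∪ S₂).card (cap s (n + 1)) with hc | hc
    · refine ⟨S₁ ∪ S₂, F₁ ∪ F₂, hin, ?_, hc, ?_, ?_⟩
      · intro m i
        rcases Nat.lt_or_ge n m with hm | hm
        · exact (Finset.card_filter_le _ _).trans (hc.trans (cap_mono hs hm))
        · exact hreg m i hm
      · intro x hx h1 h2
        rw [hpow] at h2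
        rcases lt_or_ge x (a + 2 ^ n * r) with h | h
        · obtain ⟨p, hp, h3⟩ := c1 x hx h1 h
          exact ⟨p, Finset.mem_union_left _ hp, h3⟩
        · obtain ⟨p, hp, h3⟩ := c2 x hx h (by linarith)
          exact ⟨p, Finset.mem_union_right _ hp, h3⟩
      · rw [Finset.card_union_of_disjoint hdisj]
        have h1 : ∑ p ∈ F₁ ∪ F₂, cap s p.2 ≤ ∑ p ∈ F₁, cap s p.2 + ∑ p ∈ F₂, cap s p.2 := by
          rw [← Finset.sum_union_inter]
          exact Nat.le_add_right _ _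
        omega
    · obtain ⟨S, hS, hSc⟩ := Finset.exists_subset_card_eq (s := S₁ ∪ S₂) (n := cap s (n + 1)) hc.le
      refine ⟨S, {(a, n + 1)}, fun x hx => hin x (hS hx), ?_, le_of_eq hSc, ?_, ?_⟩
      · intro m i
        rcases Nat.lt_or_ge n m with hm | hm
        · exact (Finset.card_filter_le _ _).trans ((le_of_eq hSc).trans (cap_mono hs hm))
        · refine le_trans (Finset.card_le_card ?_) (hreg m i hm)
          exact Finset.filter_subset_filter _ hS
      · intro x _ h1 h2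
        exact ⟨(a, n + 1), Finset.mem_singleton_self _, h1, h2⟩
      · rw [Finset.sum_singleton, hSc]

/-- **a large regular separated subset** -/
theorem reg_subset (A : Set ℝ) {r s : ℝ} (hr : 0 < r) (hs : 0 ≤ s) (hs1 : s ≤ 1) (n : ℕ) (a : ℝ) (hA : ∀ x ∈ A, a ≤ x ∧ x < a + 2 ^ n * r) :
    ∃ (S : Finset ℝ) (F : Finset (ℝ × ℕ)), (∀ x ∈ S, x ∈ A) ∧ Sep r S ∧ Rg s 24 r S ∧ S.card ≤ cap s n ∧
      (∀ x ∈ A, ∃ p ∈ F, p.1 ≤ x ∧ x < p.1 + 2 ^ p.2 * r) ∧ ∑ p ∈ F, cap s p.2 ≤ 2 * S.card := by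
  classical
  obtain ⟨S, F, i1, r1, k1, c1, t1⟩ := tree A hr hs n a
  -- the cells
  have hcell : ∀ (m : ℕ) (x : ℝ), x ∈ S → a + (⌊(x - a) / (2 ^ m * r)⌋₊ : ℝ) * 2 ^ m * r ≤ x ∧ x < a + ((⌊(x - a) / (2 ^ m * r)⌋₊ : ℝ) + 1) * 2 ^ m * r := by
    intro m x hx
    have h1 := (i1 x hx).2.1
    have hq : 0 < (2 : ℝ) ^ m * r := by positivity
    have h2 : 0 ≤ (x - a) / (2 ^ m * r) := div_nonneg (by linarith) hq.le
    have h3 := Nat.floor_le h2
    have h4 := Nat.lt_floor_add_one ((x - a) / (2 ^ m * r))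
    rw [le_div_iff₀ hq] at h3
    rw [div_lt_iff₀ hq] at h4
    constructor <;> linarith
  have hone : ∀ x ∈ S, ∀ y ∈ S, ⌊(x - a) / r⌋₊ = ⌊(y - a) / r⌋₊ → x = y := by
    intro x hx y hy hxy
    have h1 := r1 0 ⌊(x - a) / r⌋₊
    rw [cap_zero, Finset.card_le_one] at h1
    have hx' := hcell 0 x hx
    have hy' := hcell 0 y hy
    simp only [pow_zero, one_mul, mul_one] at hx' hy' h1
    apply h1
    · rw [Finset.mem_filter]
      exact ⟨hx, hx'⟩
    · rw [Finset.mem_filter, hxy]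
      exact ⟨hy, hy'⟩
  -- regularity of the subsets
  have hreg : ∀ W : Finset ℝ, W ⊆ S → ∀ x ∈ W, ∀ R : ℝ, r ≤ R → R ≤ 1 → ((W.filter fun y => |y - x| ≤ R).card : ℝ) ≤ 24 * (R / r) ^ s := by
    intro W hW x hx R hR _
    obtain ⟨m, hm1, hm2⟩ := exists_nat_pow_near ((one_le_div hr).2 hR) (by norm_num : (1 : ℝ) < 2)
    rw [div_lt_iff₀ hr] at hm2
    obtain ⟨M, hM⟩ : ∃ M : ℕ, M = m + 1 := ⟨_, rfl⟩
    rw [← hM] at hm2
    have hq : 0 < (2 : ℝ) ^ M * r := by positivity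
    obtain ⟨i, hi⟩ : ∃ i : ℕ, i = ⌊(x - a) / (2 ^ M * r)⌋₊ := ⟨_, rfl⟩
    have hxc := hcell M x (hW hx)
    rw [← hi] at hxc
    obtain ⟨G, hG⟩ : ∃ G : ℕ → Finset ℝ, G = fun i : ℕ => S.filter fun x => a + (i : ℝ) * 2 ^ M * r ≤ x ∧ x < a + ((i : ℝ) + 1) * 2 ^ M * r := ⟨_, rfl⟩
    have hsub : (W.filter fun y => |y - x| ≤ R) ⊆ (G (i - 1) ∪ G i) ∪ G (i + 1) := by
      intro y hy
      rw [Finset.mem_filter] at hy
      have hyS := hW hy.1
      have hyc := hcell M y hyS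
      obtain ⟨k, hk⟩ : ∃ k : ℕ, k = ⌊(y - a) / (2 ^ M * r)⌋₊ := ⟨_, rfl⟩
      rw [← hk] at hyc
      have hyG : y ∈ G k := by
        rw [hG, Finset.mem_filter]
        exact ⟨hyS, hyc⟩
      have hyx := abs_le.1 hy.2
      have h1 : k < i + 2 := by
        by_contra hcon
        push Not at hcon
        have h2 : ((i : ℝ) + 2) ≤ k := by exact_mod_cast hcon
        have h3 : ((i : ℝ) + 2) * (2 ^ M * r) ≤ k * (2 ^ M * r) := mul_le_mul_of_nonneg_right h2 hq.le
        linarith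
      have h2 : i < k + 2 := by
        by_contra hcon
        push Not at hcon
        have h2 : ((k : ℝ) + 2) ≤ i := by exact_mod_cast hcon
        have h3 : ((k : ℝ) + 2) * (2 ^ M * r) ≤ i * (2 ^ M * r) := mul_le_mul_of_nonneg_right h2 hq.le
        linarith
      have h3 : k = i - 1 ∨ k = i ∨ k = i + 1 := by omega
      rw [Finset.mem_union, Finset.mem_union]
      rcases h3 with h | h | h
      · left; left; rw [← h]; exact hyG
      · left; right; rw [← h]; exact hyG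
      · right; rw [← h]; exact hyG
    have hGc : ∀ k, (G k).card ≤ cap s M := by
      intro k
      rw [hG]
      exact r1 M k
    have h1 : (W.filter fun y => |y - x| ≤ R).card ≤ 3 * cap s M := by
      refine (Finset.card_le_card hsub).trans ((Finset.card_union_le _ _).trans ?_)
      have h2 := Finset.card_union_le (G (i - 1)) (G i)
      have h3 := hGc (i - 1)
      have h4 := hGc i
      have h5 := hGc (i + 1)
      omega
    have h2 : ((W.filter fun y => |y - x| ≤ R).card : ℝ) ≤ 3 * cap s M := by exact_mod_cast h1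
    have h3 := cap_le hs M
    have h4 : ((2 : ℝ) ^ M) ^ s ≤ 2 * (R / r) ^ s := by
      rw [hM, pow_succ, Real.mul_rpow (by positivity) (by norm_num)]
      have h5 : ((2 : ℝ) ^ m) ^ s ≤ (R / r) ^ s := Real.rpow_le_rpow (by positivity) hm1 hs
      have h6 : (2 : ℝ) ^ s ≤ 2 := by
        calc (2 : ℝ) ^ s ≤ 2 ^ (1 : ℝ) := Real.rpow_le_rpow_of_exponent_le (by norm_num) hs1
          _ = 2 := Real.rpow_one 2
      have h7 : 0 ≤ (R / r) ^ s := Real.rpow_nonneg (div_nonneg (by linarith) hr.le) _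
      calc ((2 : ℝ) ^ m) ^ s * 2 ^ s ≤ (R / r) ^ s * 2 := mul_le_mul h5 h6 (by positivity) h7
        _ = _ := by ring
    have h5 : 0 ≤ (R / r) ^ s := Real.rpow_nonneg (div_nonneg (by linarith) hr.le) _
    linarith
  -- parity
  have hfin : ∀ W : Finset ℝ, W ⊆ S → (∀ x ∈ W, ∀ y ∈ W, ⌊(x - a) / r⌋₊ % 2 = ⌊(y - a) / r⌋₊ % 2) → S.card ≤ 2 * W.card →
      ∃ (S : Finset ℝ) (F : Finset (ℝ × ℕ)), (∀ x ∈ S, x ∈ A) ∧ Sep r S ∧ Rg s 24 r S ∧ S.card ≤ cap s n ∧
      (∀ x ∈ A, ∃ p ∈ F, p.1 ≤ x ∧ x < p.1 + 2 ^ p.2 * r) ∧ ∑ p ∈ F, cap s p.2 ≤ 2 * S.card := by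
    intro W hW hpar hcard
    refine ⟨W, F, fun x hx => (i1 x (hW hx)).1, ?_, ?_, (Finset.card_le_card hW).trans k1, fun x hx => c1 x hx (hA x hx).1 (hA x hx).2, t1.trans hcard⟩
    · intro x hx y hy hxy
      have hx' := hcell 0 x (hW hx)
      have hy' := hcell 0 y (hW hy)
      simp only [pow_zero, one_mul, mul_one] at hx' hy'
      have h1 := hpar x hx y hy
      have h2 : ⌊(x - a) / r⌋₊ ≠ ⌊(y - a) / r⌋₊ := fun h => hxy (hone x (hW hx) y (hW hy) h)
      obtain ⟨i, hi⟩ : ∃ i : ℕ, i = ⌊(x - a) / r⌋₊ := ⟨_, rfl⟩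
      obtain ⟨k, hk⟩ : ∃ k : ℕ, k = ⌊(y - a) / r⌋₊ := ⟨_, rfl⟩
      rw [← hi, ← hk] at h1 h2
      rw [← hi] at hx'
      rw [← hk] at hy'
      rcases Nat.lt_or_gt_of_ne h2 with h | h
      · have h3 : i + 2 ≤ k := by omega
        have h4 : ((i : ℝ) + 2) ≤ k := by exact_mod_cast h3
        have h5 : ((i : ℝ) + 2) * r ≤ k * r := mul_le_mul_of_nonneg_right h4 hr.le
        rw [abs_sub_comm]
        refine le_trans ?_ (le_abs_self _)
        linarith
      · have h3 : k + 2 ≤ i := by omega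
        have h4 : ((k : ℝ) + 2) ≤ i := by exact_mod_cast h3
        have h5 : ((k : ℝ) + 2) * r ≤ i * r := mul_le_mul_of_nonneg_right h4 hr.le
        refine le_trans ?_ (le_abs_self _)
        linarith
    · intro V hV _ x hx R hR hR1
      exact hreg V (fun y hy => hW (by exact_mod_cast hV y hy)) x hx R hR hR1
  have hsplit := Finset.card_filter_add_card_filter_not (s := S) (fun x => ⌊(x - a) / r⌋₊ % 2 = 0)
  rcases le_total (S.filter fun x => ¬ ⌊(x - a) / r⌋₊ % 2 = 0).card (S.filter fun x => ⌊(x - a) / r⌋₊ % 2 = 0).card with h | h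
  · apply hfin (S.filter fun x => ⌊(x - a) / r⌋₊ % 2 = 0) (Finset.filter_subset _ _)
    · intro x hx y hy
      rw [(Finset.mem_filter.1 hx).2, (Finset.mem_filter.1 hy).2]
    · omega
  · apply hfin (S.filter fun x => ¬ ⌊(x - a) / r⌋₊ % 2 = 0) (Finset.filter_subset _ _)
    · intro x hx y hy
      have h1 := (Finset.mem_filter.1 hx).2
      have h2 := (Finset.mem_filter.1 hy).2
      omega
    · omega

end

end Pool.Agent.H469.F4
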