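import Pool.Agent.H469.F4.V1
import Mathlib.Topology.MetricSpace.HausdorffDimension

set_option autoImplicit false

/-!
# Regular separated subsets of a set of positive Hausdorff dimension
-/

namespace Pool.Agent.H469.F4

open Filter Topology MeasureTheory
open scoped ENNReal

noncomputable section

/-- **positive content** -/
theorem content_pos {A : Set ℝ} {s : ℝ} (hs : 0 < s) (h : ENNReal.ofReal s < dimH A) : ∃ c : ℝ, 0 < c ∧ ∀ (r : ℝ) (F : Finset (ℝ × ℕ)), 0 < r →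
    (∀ x ∈ A, ∃ p ∈ F, p.1 ≤ x ∧ x < p.1 + 2 ^ p.2 * r) → c ≤ ∑ p ∈ F, (2 ^ p.2 * r) ^ s := by
  by_contra hcon
  push Not at hcon
  have h1 : ∀ n : ℕ, ∃ (r : ℝ) (F : Finset (ℝ × ℕ)), 0 < r ∧ (∀ x ∈ A, ∃ p ∈ F, p.1 ≤ x ∧ x < p.1 + 2 ^ p.2 * r) ∧
      ∑ p ∈ F, (2 ^ p.2 * r) ^ s < 1 / ((n : ℝ) + 1) := fun n => hcon (1 / ((n : ℝ) + 1)) (by positivity)
  choose r F hr hcov hsum using h1
  have hlen : ∀ (n : ℕ) (p : ℝ × ℕ), 0 < (2 : ℝ) ^ p.2 * r n := fun n p => mul_pos (by positivity) (hr n)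
  have hterm : ∀ (n : ℕ) (p : ℝ × ℕ), p ∈ F n → (2 : ℝ) ^ p.2 * r n ≤ (1 / ((n : ℝ) + 1)) ^ (1 / s) := by
    intro n p hp
    have h2 : ((2 : ℝ) ^ p.2 * r n) ^ s ≤ 1 / ((n : ℝ) + 1) :=
      (Finset.single_le_sum (f := fun p : ℝ × ℕ => ((2 : ℝ) ^ p.2 * r n) ^ s) (fun q _ => Real.rpow_nonneg (hlen n q).le _) hp).trans (hsum n).le
    calc (2 : ℝ) ^ p.2 * r n = (((2 : ℝ) ^ p.2 * r n) ^ s) ^ (1 / s) := by
          rw [← Real.rpow_mul (hlen n p).le, mul_one_div_cancel hs.ne', Real.rpow_one]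
      _ ≤ _ := Real.rpow_le_rpow (Real.rpow_nonneg (hlen n p).le _) h2 (by positivity)
  have hlim : Tendsto (fun n : ℕ => 1 / ((n : ℝ) + 1)) atTop (𝓝 0) := tendsto_one_div_add_atTop_nhds_zero_nat
  have hrho : Tendsto (fun n : ℕ => ENNReal.ofReal ((1 / ((n : ℝ) + 1)) ^ (1 / s))) atTop (𝓝 0) := by
    have h2 : Tendsto (fun n : ℕ => (1 / ((n : ℝ) + 1)) ^ (1 / s)) atTop (𝓝 0) := by
      have := hlim.rpow_const (p := 1 / s) (Or.inr (by positivity))
      rwa [Real.zero_rpow (by positivity)] at this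
    have := ENNReal.tendsto_ofReal h2
    rwa [ENNReal.ofReal_zero] at this
  have hle := Measure.hausdorffMeasure_le_liminf_sum (ι := fun n : ℕ => (F n : Type)) s A (l := atTop)
    (fun n : ℕ => ENNReal.ofReal ((1 / ((n : ℝ) + 1)) ^ (1 / s))) hrho
    (fun n (p : F n) => Set.Ico p.1.1 (p.1.1 + 2 ^ p.1.2 * r n))
    (Filter.Eventually.of_forall fun n p => by
      rw [Real.ediam_Ico, add_sub_cancel_left]
      exact ENNReal.ofReal_le_ofReal (hterm n p.1 p.2))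
    (Filter.Eventually.of_forall fun n x hx => by
      obtain ⟨p, hp, h3, h4⟩ := hcov n x hx
      exact Set.mem_iUnion.2 ⟨⟨p, hp⟩, h3, h4⟩)
  have hzero : Measure.hausdorffMeasure s A ≤ 0 := by
    refine hle.trans ?_
    have h5 : Tendsto (fun n : ℕ => ENNReal.ofReal (1 / ((n : ℝ) + 1))) atTop (𝓝 0) := by
      have := ENNReal.tendsto_ofReal hlim
      rwa [ENNReal.ofReal_zero] at this
    rw [← h5.liminf_eq]
    refine Filter.liminf_le_liminf (Filter.Eventually.of_forall fun n => ?_)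
    have h6 : ∀ p : F n, Metric.ediam (Set.Ico p.1.1 (p.1.1 + 2 ^ p.1.2 * r n)) ^ s = ENNReal.ofReal ((2 ^ p.1.2 * r n) ^ s) := by
      intro p
      rw [Real.ediam_Ico, add_sub_cancel_left, ENNReal.ofReal_rpow_of_nonneg (hlen n p.1).le hs.le]
    show ∑ p : F n, Metric.ediam (Set.Ico p.1.1 (p.1.1 + 2 ^ p.1.2 * r n)) ^ s ≤ _
    simp only [h6]
    rw [← ENNReal.ofReal_sum_of_nonneg fun p _ => Real.rpow_nonneg (hlen n p.1).le _]
    apply ENNReal.ofReal_le_ofReal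
    rw [Finset.sum_coe_sort (F n) (fun p : ℝ × ℕ => ((2 : ℝ) ^ p.2 * r n) ^ s)]
    exact (hsum n).le
  have htop := hausdorffMeasure_of_lt_dimH (s := A) (d := s.toNNReal) h
  rw [Real.coe_toNNReal s hs.le] at htop
  rw [htop] at hzero
  exact absurd hzero (by simp)

/-- **large regular separated subsets** -/
theorem frostman {A : Set ℝ} {K s : ℝ} (hK : 0 < K) (hA : ∀ x ∈ A, |x| ≤ K) (hs : 0 < s) (hs1 : s ≤ 1) (h : ENNReal.ofReal s < dimH A) :
    ∃ c C : ℝ, 0 < c ∧ 0 < C ∧ ∀ r : ℝ, 0 < r → r ≤ 1 → ∃ S : Finset ℝ, (∀ x ∈ S, x ∈ A) ∧ Sep r S ∧ Rg s 24 r S ∧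
      c * (1 / r) ^ s ≤ S.card ∧ (S.card : ℝ) ≤ C * (1 / r) ^ s := by
  obtain ⟨c, hc, hcont⟩ := content_pos hs h
  refine ⟨c / 2, 2 * (8 * K + 8) ^ s, by positivity, by positivity, fun r hr hr1 => ?_⟩
  have hKr : 1 ≤ (2 * K + 1) / r := by
    rw [one_le_div hr]
    linarith
  obtain ⟨n, hn1, hn2⟩ := exists_nat_pow_near hKr (by norm_num : (1 : ℝ) < 2)
  rw [le_div_iff₀ hr] at hn1
  rw [div_lt_iff₀ hr] at hn2
  obtain ⟨S, F, h1, h2, h3, h4, h5, h6⟩ := reg_subset A hr hs.le hs1 (n + 1) (-K) (fun x hx => by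
    have := abs_le.1 (hA x hx)
    constructor <;> linarith [this.1, this.2])
  refine ⟨S, h1, h2, h3, ?_, ?_⟩
  · have h7 := hcont r F hr h5
    have h8 : ∑ p ∈ F, ((2 : ℝ) ^ p.2 * r) ^ s ≤ r ^ s * ∑ p ∈ F, (cap s p.2 : ℝ) := by
      rw [Finset.mul_sum]
      apply Finset.sum_le_sum
      intro p _
      rw [Real.mul_rpow (by positivity) hr.le, mul_comm]
      apply mul_le_mul_of_nonneg_left _ (by positivity)
      exact Nat.le_ceil _
    have h9 : (∑ p ∈ F, (cap s p.2 : ℝ)) ≤ 2 * S.card := by exact_mod_cast h6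
    have h10 : c ≤ r ^ s * (2 * S.card) := h7.trans (h8.trans (mul_le_mul_of_nonneg_left h9 (by positivity)))
    have h11 : (1 / r) ^ s * r ^ s = 1 := by
      rw [← Real.mul_rpow (by positivity) hr.le, one_div_mul_cancel hr.ne', Real.one_rpow]
    have h12 : 0 < (1 / r) ^ s := by positivity
    calc c / 2 * (1 / r) ^ s ≤ (r ^ s * (2 * S.card)) / 2 * (1 / r) ^ s := by
          apply mul_le_mul_of_nonneg_right _ h12.le
          linarith
      _ = ((1 / r) ^ s * r ^ s) * S.card := by ring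
      _ = S.card := by rw [h11, one_mul]
  · have h7 : (S.card : ℝ) ≤ cap s (n + 1) := by exact_mod_cast h4
    refine h7.trans ((cap_le hs.le _).trans ?_)
    rw [mul_assoc]
    apply mul_le_mul_of_nonneg_left _ (by norm_num)
    rw [← Real.mul_rpow (by positivity) (by positivity)]
    apply Real.rpow_le_rpow (by positivity) _ hs.le
    rw [pow_succ, mul_one_div, le_div_iff₀ hr]
    linarith

end

end Pool.Agent.H469.F4
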