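import Pool.Agent.H469.F4.U6
import Mathlib.Topology.Instances.CantorSet

set_option autoImplicit false

/-!
# The Cantor set
-/

namespace Pool.Agent.H469.F4

open Filter Topology

noncomputable section

theorem sep_affine {r a c : ℝ} (ha : 0 < a) {S : Finset ℝ} (hS : Sep r S) :
    Sep (a * r) (S.image fun x => a * x + c) ∧ (S.image fun x => a * x + c).card = S.card := by
  constructor
  · intro y hy z hz hyz
    rw [Finset.mem_image] at hy hz
    obtain ⟨x, hx, rfl⟩ := hy
    obtain ⟨w, hw, rfl⟩ := hz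
    have hxw : x ≠ w := fun h => hyz (by rw [h])
    have h1 := hS x hx w hw hxw
    have e : a * x + c - (a * w + c) = a * (x - w) := by ring
    rw [e, abs_mul, abs_of_pos ha]
    exact mul_le_mul_of_nonneg_left h1 ha.le
  · apply Finset.card_image_of_injective
    intro x y h
    have h' : a * x + c = a * y + c := h
    have h2 : a * x = a * y := by linarith
    exact mul_left_cancel₀ ha.ne' h2

theorem cantor_half {x : ℝ} (hx : x ∈ cantorSet) : (x ≤ 1 / 3 ∧ 3 * x + 0 ∈ cantorSet) ∨ (2 / 3 ≤ x ∧ 3 * x + (-2) ∈ cantorSet) := by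
  rw [cantorSet_eq_union_halves] at hx
  rcases hx with ⟨y, hy, rfl⟩ | ⟨y, hy, rfl⟩
  · left
    have h1 := cantorSet_subset_unitInterval hy
    have e : 3 * (y / 3) + 0 = y := by ring
    refine ⟨by linarith [h1.2], ?_⟩
    show 3 * (y / 3) + 0 ∈ cantorSet
    rw [e]
    exact hy
  · right
    have h1 := cantorSet_subset_unitInterval hy
    have e : 3 * ((2 + y) / 3) + (-2) = y := by ring
    refine ⟨by linarith [h1.1], ?_⟩
    show 3 * ((2 + y) / 3) + (-2) ∈ cantorSet
    rw [e]
    exact hy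

theorem cantor_left {y : ℝ} (hy : y ∈ cantorSet) : 1 / 3 * y + 0 ∈ cantorSet := by
  rw [cantorSet_eq_union_halves]
  left
  exact ⟨y, hy, by ring⟩

theorem cantor_right {y : ℝ} (hy : y ∈ cantorSet) : 1 / 3 * y + 2 / 3 ∈ cantorSet := by
  rw [cantorSet_eq_union_halves]
  right
  exact ⟨y, hy, by ring⟩

/-- the number of separated points in the Cantor set -/
theorem cantor_glob (k : ℕ) : ∀ (r : ℝ) (S : Finset ℝ), 1 < 3 ^ k * r → (∀ x ∈ S, x ∈ cantorSet) → Sep r S → S.card ≤ 2 ^ k := by
  classical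
  induction k with
  | zero =>
    intro r S hr hS hsep
    rw [pow_zero, one_mul] at hr
    rw [pow_zero, Finset.card_le_one]
    intro a ha b hb
    by_contra hab
    have h1 := hsep a ha b hb hab
    have h2 := cantorSet_subset_unitInterval (hS a ha)
    have h3 := cantorSet_subset_unitInterval (hS b hb)
    have h4 : |a - b| ≤ 1 := by
      rw [abs_le]
      constructor <;> linarith [h2.1, h2.2, h3.1, h3.2]
    linarith
  | succ k ih =>
    intro r S hr hS hsep
    have hr' : 1 < 3 ^ k * (3 * r) := by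
      rw [pow_succ] at hr
      linarith
    have h1 : (S.filter fun x => x ≤ 1 / 3).card ≤ 2 ^ k := by
      obtain ⟨g1, g2⟩ := sep_affine (c := 0) (by norm_num : (0 : ℝ) < 3) (hsep.mono le_rfl (Finset.filter_subset (fun x => x ≤ 1 / 3) S))
      rw [← g2]
      apply ih (3 * r) _ hr' _ g1
      intro y hy
      rw [Finset.mem_image] at hy
      obtain ⟨x, hx, rfl⟩ := hy
      rw [Finset.mem_filter] at hx
      rcases cantor_half (hS x hx.1) with h | h
      · exact h.2
      · linarith [h.1, hx.2]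
    have h2 : (S.filter fun x => ¬ x ≤ 1 / 3).card ≤ 2 ^ k := by
      obtain ⟨g1, g2⟩ := sep_affine (c := -2) (by norm_num : (0 : ℝ) < 3) (hsep.mono le_rfl (Finset.filter_subset (fun x => ¬ x ≤ 1 / 3) S))
      rw [← g2]
      apply ih (3 * r) _ hr' _ g1
      intro y hy
      rw [Finset.mem_image] at hy
      obtain ⟨x, hx, rfl⟩ := hy
      rw [Finset.mem_filter] at hx
      rcases cantor_half (hS x hx.1) with h | h
      · exact absurd h.1 hx.2
      · exact h.2
    have h3 := Finset.card_filter_add_card_filter_not (s := S) (fun x => x ≤ 1 / 3)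
    rw [pow_succ]
    omega

/-- the number of separated points in a short interval -/
theorem cantor_loc (m : ℕ) : ∀ (k : ℕ) (r : ℝ) (S : Finset ℝ), 1 < 3 ^ k * (3 ^ m * r) → (∀ x ∈ S, x ∈ cantorSet) → Sep r S →
    (∀ x ∈ S, ∀ y ∈ S, |x - y| * 3 ^ m < 1) → S.card ≤ 2 ^ k := by
  classical
  induction m with
  | zero =>
    intro k r S hr hS hsep _
    exact cantor_glob k r S (by simpa using hr) hS hsep
  | succ m ih =>
    intro k r S hr hS hsep hd
    have h3m : (1 : ℝ) ≤ 3 ^ m := one_le_pow₀ (by norm_num)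
    have hr' : 1 < 3 ^ k * (3 ^ m * (3 * r)) := by
      rw [pow_succ] at hr
      linarith
    rcases S.eq_empty_or_nonempty with rfl | ⟨a, ha⟩
    · simp
    have hclose : ∀ x ∈ S, ∀ y ∈ S, |x - y| < 1 / 3 := by
      intro x hx y hy
      have h1 := hd x hx y hy
      rw [pow_succ] at h1
      have h2 := abs_nonneg (x - y)
      nlinarith
    have hfin : ∀ c : ℝ, (∀ x ∈ S, 3 * x + c ∈ cantorSet) → S.card ≤ 2 ^ k := by
      intro c hc
      obtain ⟨g1, g2⟩ := sep_affine (c := c) (by norm_num : (0 : ℝ) < 3) hsep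
      rw [← g2]
      apply ih k (3 * r) _ hr' _ g1
      · intro y hy z hz
        rw [Finset.mem_image] at hy hz
        obtain ⟨x, hx, rfl⟩ := hy
        obtain ⟨w, hw, rfl⟩ := hz
        have h1 := hd x hx w hw
        have e : 3 * x + c - (3 * w + c) = 3 * (x - w) := by ring
        rw [e, abs_mul, abs_of_pos (by norm_num : (0 : ℝ) < 3)]
        rw [pow_succ] at h1
        linarith
      · intro y hy
        rw [Finset.mem_image] at hy
        obtain ⟨x, hx, rfl⟩ := hy
        exact hc x hx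
    rcases cantor_half (hS a ha) with h | h
    · apply hfin 0
      intro x hx
      rcases cantor_half (hS x hx) with h' | h'
      · exact h'.2
      · have h1 := abs_lt.1 (hclose x hx a ha)
        linarith [h.1, h'.1]
    · apply hfin (-2)
      intro x hx
      rcases cantor_half (hS x hx) with h' | h'
      · have h1 := abs_lt.1 (hclose x hx a ha)
        linarith [h.1, h'.1]
      · exact h'.2

/-- many separated points -/
theorem cantor_pts (n : ℕ) : ∃ S : Finset ℝ, (∀ x ∈ S, x ∈ cantorSet) ∧ Sep ((1 / 3) ^ n) S ∧ S.card = 2 ^ n := by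
  classical
  induction n with
  | zero =>
    refine ⟨{0}, ?_, ?_, by simp⟩
    · intro x hx
      rw [Finset.mem_singleton] at hx
      rw [hx]
      exact zero_mem_cantorSet
    · intro x hx y hy hxy
      rw [Finset.mem_singleton] at hx hy
      exact absurd (hx.trans hy.symm) hxy
  | succ n ih =>
    obtain ⟨S, hS, hsep, hc⟩ := ih
    obtain ⟨g1, g2⟩ := sep_affine (c := 0) (by norm_num : (0 : ℝ) < 1 / 3) hsep
    obtain ⟨g3, g4⟩ := sep_affine (c := 2 / 3) (by norm_num : (0 : ℝ) < 1 / 3) hsep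
    have b1 : ∀ y ∈ S.image (fun x => 1 / 3 * x + 0), y ∈ cantorSet ∧ y ≤ 1 / 3 := by
      intro y hy
      rw [Finset.mem_image] at hy
      obtain ⟨x, hx, rfl⟩ := hy
      have h1 := cantorSet_subset_unitInterval (hS x hx)
      exact ⟨cantor_left (hS x hx), by linarith [h1.2]⟩
    have b2 : ∀ y ∈ S.image (fun x => 1 / 3 * x + 2 / 3), y ∈ cantorSet ∧ 2 / 3 ≤ y := by
      intro y hy
      rw [Finset.mem_image] at hy
      obtain ⟨x, hx, rfl⟩ := hy
      have h1 := cantorSet_subset_unitInterval (hS x hx)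
      exact ⟨cantor_right (hS x hx), by linarith [h1.1]⟩
    have hpow : (1 / 3 : ℝ) ^ (n + 1) = 1 / 3 * (1 / 3) ^ n := by rw [pow_succ]; ring
    have hp1 : (1 / 3 : ℝ) ^ n ≤ 1 := pow_le_one₀ (by norm_num) (by norm_num)
    refine ⟨S.image (fun x => 1 / 3 * x + 0) ∪ S.image (fun x => 1 / 3 * x + 2 / 3), ?_, ?_, ?_⟩
    · intro y hy
      rw [Finset.mem_union] at hy
      rcases hy with h | h
      · exact (b1 y h).1
      · exact (b2 y h).1
    · rw [hpow]
      intro y hy z hz hyz
      rw [Finset.mem_union] at hy hz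
      rcases hy with hy | hy <;> rcases hz with hz | hz
      · exact g1 y hy z hz hyz
      · have h1 := (b1 y hy).2
        have h2 := (b2 z hz).2
        rw [abs_sub_comm, abs_of_nonneg (by linarith)]
        linarith
      · have h1 := (b2 y hy).2
        have h2 := (b1 z hz).2
        rw [abs_of_nonneg (by linarith)]
        linarith
      · exact g3 y hy z hz hyz
    · rw [Finset.card_union_of_disjoint, g2, g4, hc, pow_succ]
      · ring
      · rw [Finset.disjoint_left]
        intro y h1 h2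
        linarith [(b1 y h1).2, (b2 y h2).2]

/-- the dimension of the Cantor set -/
def dC : ℝ := Real.log 2 / Real.log 3

theorem dC_pos : 0 < dC := div_pos (Real.log_pos (by norm_num)) (Real.log_pos (by norm_num))

theorem three_dC : (3 : ℝ) ^ dC = 2 := by
  have h3 : 0 < Real.log 3 := Real.log_pos (by norm_num)
  rw [Real.rpow_def_of_pos (by norm_num)]
  unfold dC
  rw [mul_div_cancel₀ _ h3.ne', Real.exp_log (by norm_num)]

theorem two_pow_dC (k : ℕ) : (2 : ℝ) ^ k = (3 ^ k : ℝ) ^ dC := by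
  rw [← three_dC, ← Real.rpow_natCast, ← Real.rpow_natCast, ← Real.rpow_mul (by norm_num), ← Real.rpow_mul (by norm_num), mul_comm]

/-- a count in terms of a ratio -/
theorem count_ratio {ρ : ℝ} (hρ0 : 0 < ρ) {N : ℕ} (h : ∀ k : ℕ, 1 < 3 ^ k * ρ → N ≤ 2 ^ k) (hρ1 : ρ ≤ 1) : (N : ℝ) ≤ 2 * (1 / ρ) ^ dC := by
  obtain ⟨k, hk1, hk2⟩ := exists_nat_pow_near ((one_le_div hρ0).2 hρ1) (by norm_num : (1 : ℝ) < 3)
  have h1 : 1 < 3 ^ (k + 1) * ρ := by
    rw [div_lt_iff₀ hρ0] at hk2
    exact hk2
  have h2 := h (k + 1) h1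
  have h3 : (N : ℝ) ≤ 2 ^ (k + 1) := by exact_mod_cast h2
  refine h3.trans ?_
  rw [pow_succ, mul_comm, two_pow_dC]
  apply mul_le_mul_of_nonneg_left _ (by norm_num)
  exact Real.rpow_le_rpow (by positivity) hk1 dC_pos.le

/-- **regularity of the Cantor set** -/
theorem cantor_Rg {r : ℝ} (hr : 0 < r) : Rg dC 8 r cantorSet := by
  intro S hS hsep x hx R hR hR1
  have hR0 : 0 < R := by linarith
  obtain ⟨W, hW⟩ : ∃ W : Finset ℝ, W = S.filter fun y => |y - x| ≤ R := ⟨_, rfl⟩
  have hWS : W ⊆ S := by rw [hW]; exact Finset.filter_subset _ _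
  have hWc : ∀ x ∈ W, x ∈ cantorSet := fun x hx => hS x (hWS hx)
  have hWsep : Sep r W := hsep.mono le_rfl hWS
  rw [← hW]
  have hq1 : 1 ≤ R / r := (one_le_div hr).2 hR
  have hq : 1 ≤ (R / r) ^ dC := Real.one_le_rpow hq1 dC_pos.le
  rcases le_or_gt (3 * R) 1 with h3 | h3
  · obtain ⟨m, hm1, hm2⟩ := exists_nat_pow_near ((one_le_div (by positivity : 0 < 3 * R)).2 h3) (by norm_num : (1 : ℝ) < 3)
    rw [le_div_iff₀ (by positivity)] at hm1
    rw [div_lt_iff₀ (by positivity)] at hm2
    have hd : ∀ y ∈ W, ∀ z ∈ W, |y - z| * 3 ^ m < 1 := by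
      intro y hy z hz
      rw [hW, Finset.mem_filter] at hy hz
      have h1 := abs_le.1 hy.2
      have h2 := abs_le.1 hz.2
      have h4 : |y - z| ≤ 2 * R := by
        rw [abs_le]
        constructor <;> linarith [h1.1, h1.2, h2.1, h2.2]
      have h5 : |y - z| * 3 ^ m ≤ 2 * R * 3 ^ m := mul_le_mul_of_nonneg_right h4 (by positivity)
      nlinarith
    have hcard : ∀ k : ℕ, 1 < 3 ^ k * (3 ^ m * r) → W.card ≤ 2 ^ k := fun k hk => cantor_loc m k r W hk hWc hWsep hd
    rcases le_or_gt (3 ^ m * r) 1 with h4 | h4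
    · have h5 := count_ratio (by positivity : 0 < 3 ^ m * r) hcard h4
      refine h5.trans ?_
      have h6 : 1 / (3 ^ m * r) ≤ 9 * (R / r) := by
        rw [div_le_iff₀ (by positivity)]
        have e : 9 * (R / r) * (3 ^ m * r) = 9 * R * 3 ^ m := by field_simp
        rw [e]
        rw [pow_succ] at hm2
        linarith
      have h7 : (1 / (3 ^ m * r)) ^ dC ≤ (9 * (R / r)) ^ dC := Real.rpow_le_rpow (by positivity) h6 dC_pos.le
      have h8 : (9 * (R / r)) ^ dC = 4 * (R / r) ^ dC := by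
        rw [Real.mul_rpow (by norm_num) (by linarith)]
        congr 1
        have : (9 : ℝ) = 3 * 3 := by norm_num
        rw [this, Real.mul_rpow (by norm_num) (by norm_num), three_dC]
        norm_num
      rw [h8] at h7
      linarith
    · have h5 := hcard 0 (by simpa using h4)
      have h6 : (W.card : ℝ) ≤ 1 := by exact_mod_cast h5
      linarith
  · have h5 := count_ratio hr (fun k hk => cantor_glob k r W hk hWc hWsep) (hR.trans hR1)
    refine h5.trans ?_
    have h6 : 1 / r ≤ 3 * (R / r) := by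
      rw [← mul_div_assoc]
      exact div_le_div_of_nonneg_right h3.le hr.le
    have h7 : (1 / r) ^ dC ≤ (3 * (R / r)) ^ dC := Real.rpow_le_rpow (by positivity) h6 dC_pos.le
    rw [Real.mul_rpow (by norm_num) (by linarith), three_dC] at h7
    linarith

theorem cantor_Assouad : AssouadLe cantorSet dC := by
  intro d' hd'
  refine ⟨8, fun r hr _ S hS hsep x hx R hR hR1 => ?_⟩
  refine (cantor_Rg hr S hS hsep x hx R hR hR1).trans ?_
  apply mul_le_mul_of_nonneg_left _ (by norm_num)
  exact Real.rpow_le_rpow_of_exponent_le ((one_le_div hr).2 hR) hd'.le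

/-- the box count of the Cantor set -/
theorem cantor_nsep {r : ℝ} (hr : 0 < r) (hr1 : r ≤ 1) : 1 / 2 * (1 / r) ^ dC ≤ nsep r cantorSet ∧ (nsep r cantorSet : ℝ) ≤ 2 * (1 / r) ^ dC := by
  have hA : ∀ x ∈ cantorSet, |x| ≤ 1 := fun x hx => by
    have h1 := cantorSet_subset_unitInterval hx
    rw [abs_of_nonneg h1.1]
    exact h1.2
  obtain ⟨⟨S, hSA, hSsep, hScard⟩, hmax⟩ := nsep_spec hr zero_le_one hA
  constructor
  · obtain ⟨n, hn1, hn2⟩ := exists_nat_pow_near ((one_le_div hr).2 hr1) (by norm_num : (1 : ℝ) < 3)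
    obtain ⟨W, hW1, hW2, hW3⟩ := cantor_pts n
    have h1 : r ≤ (1 / 3) ^ n := by
      rw [le_div_iff₀ hr] at hn1
      rw [one_div, inv_pow, ← one_div, le_div_iff₀ (by positivity)]
      linarith
    have h2 := hmax W hW1 (hW2.mono h1 (Finset.Subset.refl _))
    rw [hW3] at h2
    have h3 : (2 : ℝ) ^ n ≤ nsep r cantorSet := by exact_mod_cast h2
    refine le_trans ?_ h3
    rw [two_pow_dC]
    have h4 : (1 / r) ^ dC ≤ (3 * 3 ^ n) ^ dC := by
      apply Real.rpow_le_rpow (by positivity) _ dC_pos.le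
      rw [pow_succ] at hn2
      linarith
    rw [Real.mul_rpow (by norm_num) (by positivity), three_dC] at h4
    linarith
  · rw [← hScard]
    exact count_ratio hr (fun k hk => cantor_glob k r S hk hSA hSsep) hr1

theorem cantor_box : BoxDim cantorSet dC := by
  unfold BoxDim
  have hlog : Tendsto (fun r : ℝ => Real.log (1 / r)) (𝓝[>] 0) atTop := by
    simp only [one_div]
    exact Real.tendsto_log_atTop.comp tendsto_inv_nhdsGT_zero
  have h0 : Tendsto (fun r : ℝ => Real.log 2 / Real.log (1 / r)) (𝓝[>] 0) (𝓝 0) := hlog.const_div_atTop _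
  have hl : Tendsto (fun r : ℝ => dC - Real.log 2 / Real.log (1 / r)) (𝓝[>] 0) (𝓝 dC) := by
    simpa using (tendsto_const_nhds (x := dC)).sub h0
  have hu : Tendsto (fun r : ℝ => dC + Real.log 2 / Real.log (1 / r)) (𝓝[>] 0) (𝓝 dC) := by
    simpa using (tendsto_const_nhds (x := dC)).add h0
  have hev : ∀ᶠ r : ℝ in 𝓝[>] 0, 0 < r ∧ r ≤ 1 ∧ 0 < Real.log (1 / r) := by
    filter_upwards [Ioo_mem_nhdsGT (zero_lt_one' ℝ), hlog.eventually_gt_atTop 0] with r hr h
    exact ⟨hr.1, hr.2.le, h⟩
  have l2 : Real.log (1 / 2) = -Real.log 2 := by rw [one_div, Real.log_inv]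
  refine tendsto_of_tendsto_of_tendsto_of_le_of_le' hl hu ?_ ?_
  · filter_upwards [hev] with r hr
    obtain ⟨hr0, hr1, hlr⟩ := hr
    obtain ⟨h1, h2⟩ := cantor_nsep hr0 hr1
    have hp : 0 < (1 / r) ^ dC := by positivity
    rw [le_div_iff₀ hlr, sub_mul, div_mul_cancel₀ _ hlr.ne']
    have h3 := Real.log_le_log (by positivity) h1
    rw [Real.log_mul (by norm_num) hp.ne', Real.log_rpow (by positivity), l2] at h3
    linarith
  · filter_upwards [hev] with r hr
    obtain ⟨hr0, hr1, hlr⟩ := hr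
    obtain ⟨h1, h2⟩ := cantor_nsep hr0 hr1
    have hp : 0 < (1 / r) ^ dC := by positivity
    have hN : (0 : ℝ) < nsep r cantorSet := lt_of_lt_of_le (by positivity) h1
    rw [div_le_iff₀ hlr, add_mul, div_mul_cancel₀ _ hlr.ne']
    have h3 := Real.log_le_log hN h2
    rw [Real.log_mul (by norm_num) hp.ne', Real.log_rpow (by positivity)] at h3
    linarith

end

end Pool.Agent.H469.F4
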