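import Pool.Agent.H469.F4.V3
import Pool.Agent.H469.F4.W8

set_option autoImplicit false

/-!
# The dimension law for the maxima over a compact set
-/

namespace Pool.Agent.H469.F4

open Filter Topology MeasureTheory
open scoped ENNReal

noncomputable section

theorem MA_mono {A B : Set ℝ} (hB : IsCompact B) (h : A ⊆ B) (t : ℝ) : MA A t ≤ MA B t := by
  rcases A.eq_empty_or_nonempty with rfl | hne
  · have : MA ∅ t = 0 := by
      unfold MA
      rw [Set.image_empty, Real.sSup_empty]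
    rw [this]
    exact MA_nonneg B t
  · exact csSup_le_csSup (MA_bdd hB t) (hne.image _) (Set.image_mono h)

theorem mm_mono {X : ℝ → ℝ → ℝ} {Y : ℝ → ℝ} (hXc : ∀ T, Continuous (X T)) (hX0 : ∀ T t, 0 ≤ X T t) (hYc : Continuous Y) {β T : ℝ} (hβ : 0 < β) (hT : 0 < T)
    (h : ∀ t, X T t ≤ Y t) : mmF X β T ≤ mm Y β T := by
  unfold mmF mm
  apply mul_le_mul_of_nonneg_left _ (by positivity)
  refine intervalIntegral.integral_mono_on (by linarith) (((hXc T).rpow_const fun _ => Or.inr hβ.le).intervalIntegrable _ _)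
    ((hYc.rpow_const fun _ => Or.inr hβ.le).intervalIntegrable _ _) fun t _ => ?_
  exact Real.rpow_le_rpow (hX0 T t) (h t) hβ.le

theorem pp_mono {X : ℝ → ℝ → ℝ} {Y : ℝ → ℝ} {V T : ℝ} (hT : 0 < T) (h : ∀ t, X T t ≤ Y t) : ppF X V T ≤ pp Y V T := by
  unfold ppF pp
  apply mul_le_mul_of_nonneg_left _ (by positivity)
  apply ENNReal.toReal_mono
  · refine ((measure_mono (fun t ht => ht.1 : {t : ℝ | t ∈ Set.Icc T (2 * T) ∧ V < Y t} ⊆ Set.Icc T (2 * T))).trans_lt ?_).ne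
    exact measure_Icc_lt_top
  · apply measure_mono
    rintro t ⟨h1, h2⟩
    exact ⟨h1, lt_of_lt_of_le h2 (h t)⟩

theorem nsep_card {r K : ℝ} {S : Finset ℝ} (hr : 0 < r) (hK : 0 ≤ K) (hS : ∀ x ∈ S, |x| ≤ K) : nsep r (S : Set ℝ) ≤ S.card := by
  obtain ⟨⟨W, hW1, hW2, hW3⟩, -⟩ := nsep_spec (A := (S : Set ℝ)) hr hK (fun x hx => hS x (by exact_mod_cast hx))
  rw [← hW3]
  exact Finset.card_le_card fun x hx => by exact_mod_cast hW1 x hx

/-- **families of regular separated sets** -/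
theorem fam {A : Set ℝ} (hA : IsCompact A) {s c C D : ℝ} (hs0 : 0 ≤ s) (hD : 1 ≤ D) (hc : 0 < c) (hC : 0 < C) {S : ℝ → Finset ℝ}
    (hS : ∀ r : ℝ, 0 < r → r ≤ 1 → (∀ x ∈ S r, x ∈ A) ∧ Sep r (S r) ∧ Rg s D r (S r : Set ℝ) ∧ c * (1 / r) ^ s ≤ (S r).card ∧ ((S r).card : ℝ) ≤ C * (1 / r) ^ s) :
    (∀ b : ℝ, 2 * Real.sqrt s < b → b ≤ 4 → UpF (fun T => MA (S (1 / Real.log T) : Set ℝ)) b (Real.sqrt s ^ 2 + b ^ 2 / 4)) ∧
    (∀ b : ℝ, 2 * Real.sqrt s < b → b ≤ 4 → LoF (fun T => MA (S (1 / Real.log T) : Set ℝ)) b (Real.sqrt s ^ 2 + b ^ 2 / 4)) := by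
  have hss : Real.sqrt s ^ 2 = s := Real.sq_sqrt hs0
  have hq0 := Real.sqrt_nonneg s
  obtain ⟨R, hR⟩ := hA.isBounded.exists_norm_le
  have hAR : ∀ x ∈ A, |x| ≤ max R 0 := fun x hx => (hR x hx).trans (le_max_left _ _)
  obtain ⟨K, hK⟩ : ∃ K : ℝ, K = max R 0 := ⟨_, rfl⟩
  have hK0 : 0 ≤ K := by rw [hK]; exact le_max_right _ _
  rw [← hK] at hAR
  rw [hss]
  constructor
  · intro b hb hb4 δ hδ
    have hb0 : 0 < b := by linarith
    obtain ⟨C', hC', h1⟩ := upper_nsep hb0 hb4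
    have l1 : ∀ᶠ T : ℝ in atTop, C' * C ≤ Real.log T ^ δ :=
      ((tendsto_rpow_atTop hδ).comp Real.tendsto_log_atTop).eventually_ge_atTop _
    filter_upwards [h1, l1, eventually_ge_atTop (16 * K), eventually_gt_atTop (0 : ℝ), Real.tendsto_log_atTop.eventually_ge_atTop 1] with T h1 l1 hTK hT0 hL1
    have hL0 : 0 < Real.log T := by linarith
    have hr0 : 0 < 1 / Real.log T := by positivity
    have hr1 : 1 / Real.log T ≤ 1 := by rw [div_le_one hL0]; exact hL1
    obtain ⟨g1, g2, g3, g4, g5⟩ := hS (1 / Real.log T) hr0 hr1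
    rw [one_div_one_div] at g4 g5
    have hne : ((S (1 / Real.log T) : Finset ℝ) : Set ℝ).Nonempty := by
      rw [Finset.coe_nonempty, ← Finset.card_pos]
      have : (0 : ℝ) < (S (1 / Real.log T)).card := lt_of_lt_of_le (by positivity) g4
      exact_mod_cast this
    have h2 := h1 _ (S (1 / Real.log T)).finite_toSet.isCompact hne (fun x hx => (hAR x (g1 x (by exact_mod_cast hx))).trans (by linarith))
    have h3 : (nsep (1 / Real.log T) (S (1 / Real.log T) : Set ℝ) : ℝ) ≤ C * Real.log T ^ s := by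
      refine le_trans ?_ g5
      exact_mod_cast nsep_card hr0 hK0 fun x hx => hAR x (g1 x hx)
    unfold mmF
    rw [inv_mul_le_iff₀ hT0]
    refine h2.trans ?_
    calc C' * T * (nsep (1 / Real.log T) (S (1 / Real.log T) : Set ℝ) * Real.log T ^ (b ^ 2 / 4)) ≤ C' * T * (C * Real.log T ^ s * Real.log T ^ (b ^ 2 / 4)) := by
          apply mul_le_mul_of_nonneg_left _ (by positivity)
          exact mul_le_mul_of_nonneg_right h3 (by positivity)
      _ = T * (C' * C * (Real.log T ^ s * Real.log T ^ (b ^ 2 / 4))) := by ring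
      _ ≤ T * (Real.log T ^ δ * (Real.log T ^ s * Real.log T ^ (b ^ 2 / 4))) := by
          apply mul_le_mul_of_nonneg_left _ hT0.le
          exact mul_le_mul_of_nonneg_right l1 (by positivity)
      _ = _ := by
          rw [← Real.rpow_add hL0, ← Real.rpow_add hL0]
          congr 2
          ring
  · intro b hb hb4 δ hδ
    have hb0 : 0 < b := by linarith
    have hdb : s < b ^ 2 / 4 := by nlinarith
    obtain ⟨ε, hε⟩ : ∃ ε : ℝ, ε = (b ^ 2 / 4 - s) / 2 := ⟨_, rfl⟩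
    have hε0 : 0 < ε := by rw [hε]; linarith
    obtain ⟨c', hc', h1⟩ := set_lower (β := b) (ε := ε) (d := s) (D := D) (B := 1) hb0 hb4 hs0 hdb hD zero_le_one hε0
    have l1 : ∀ᶠ T : ℝ in atTop, 1 / (c' * c) ≤ Real.log T ^ δ :=
      ((tendsto_rpow_atTop hδ).comp Real.tendsto_log_atTop).eventually_ge_atTop _
    have l2 : ∀ᶠ T : ℝ in atTop, C ≤ Real.log T ^ ε :=
      ((tendsto_rpow_atTop hε0).comp Real.tendsto_log_atTop).eventually_ge_atTop _
    filter_upwards [h1, l1, l2, eventually_gt_atTop (0 : ℝ), Real.tendsto_log_atTop.eventually_ge_atTop 1,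
      Real.tendsto_log_atTop.eventually_ge_atTop K] with T h1 l1 l2 hT0 hL1 hLK
    have hL0 : 0 < Real.log T := by linarith
    have hr0 : 0 < 1 / Real.log T := by positivity
    have hr1 : 1 / Real.log T ≤ 1 := by rw [div_le_one hL0]; exact hL1
    obtain ⟨g1, g2, g3, g4, g5⟩ := hS (1 / Real.log T) hr0 hr1
    rw [one_div_one_div] at g4 g5
    have h2 := h1 (S (1 / Real.log T) : Set ℝ) (S (1 / Real.log T)).finite_toSet.isCompact (fun x hx => by
      rw [Real.rpow_one]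
      exact (hAR x (g1 x (by exact_mod_cast hx))).trans hLK) g3 (S (1 / Real.log T)) (fun x hx => by exact_mod_cast hx) g2 (by
        refine g5.trans ?_
        calc C * Real.log T ^ s ≤ Real.log T ^ ε * Real.log T ^ s := mul_le_mul_of_nonneg_right l2 (by positivity)
          _ = Real.log T ^ (b ^ 2 / 4 - ε) := by
              rw [← Real.rpow_add hL0]
              congr 1
              rw [hε]
              ring)
    unfold mmF
    rw [le_inv_mul_iff₀ hT0]
    refine le_trans ?_ h2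
    have hcc : 0 < c' * c := by positivity
    rw [div_le_iff₀ hcc] at l1
    calc T * Real.log T ^ (s + b ^ 2 / 4 - δ) = T * Real.log T ^ (s + b ^ 2 / 4 - δ) * 1 := by ring
      _ ≤ T * Real.log T ^ (s + b ^ 2 / 4 - δ) * (Real.log T ^ δ * (c' * c)) := mul_le_mul_of_nonneg_left l1 (by positivity)
      _ = c' * T * (c * (Real.log T ^ (s + b ^ 2 / 4 - δ) * Real.log T ^ δ)) := by ring
      _ = c' * T * (c * Real.log T ^ s * Real.log T ^ (b ^ 2 / 4)) := by
          rw [← Real.rpow_add hL0, mul_assoc c, ← Real.rpow_add hL0]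
          congr 3
          ring
      _ ≤ c' * T * ((S (1 / Real.log T)).card * Real.log T ^ (b ^ 2 / 4)) := by
          apply mul_le_mul_of_nonneg_left _ (by positivity)
          exact mul_le_mul_of_nonneg_right g4 (by positivity)

/-- such families exist below the Hausdorff dimension -/
theorem fam_exists {A : Set ℝ} (hA : IsCompact A) (hne : A.Nonempty) {s : ℝ} (hs0 : 0 ≤ s) (hs1 : s ≤ 1) (h : s = 0 ∨ ENNReal.ofReal s < dimH A) :
    ∃ (S : ℝ → Finset ℝ) (c C : ℝ), 0 < c ∧ 0 < C ∧ ∀ r : ℝ, 0 < r → r ≤ 1 → (∀ x ∈ S r, x ∈ A) ∧ Sep r (S r) ∧ Rg s 24 r (S r : Set ℝ) ∧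
      c * (1 / r) ^ s ≤ (S r).card ∧ ((S r).card : ℝ) ≤ C * (1 / r) ^ s := by
  classical
  rcases hs0.eq_or_lt with h0 | h0
  · have h : s = 0 := h0.symm
    obtain ⟨a, ha⟩ := hne
    refine ⟨fun _ => {a}, 1, 1, one_pos, one_pos, fun r hr hr1 => ⟨?_, ?_, ?_, ?_, ?_⟩⟩
    · intro x hx
      rw [Finset.mem_singleton] at hx
      rw [hx]
      exact ha
    · intro x hx y hy hxy
      rw [Finset.mem_singleton] at hx hy
      exact absurd (hx.trans hy.symm) hxy
    · intro W hW _ x hx R hR _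
      have h1 : (W.filter fun y => |y - x| ≤ R).card ≤ 1 := by
        refine (Finset.card_filter_le _ _).trans ?_
        have h2 : W ⊆ {a} := fun y hy => by exact_mod_cast hW y hy
        have := Finset.card_le_card h2
        rwa [Finset.card_singleton] at this
      have h2 : ((W.filter fun y => |y - x| ≤ R).card : ℝ) ≤ 1 := by exact_mod_cast h1
      have h3 : 1 ≤ (R / r) ^ s := Real.one_le_rpow ((one_le_div hr).2 hR) hs0
      linarith
    · rw [h, Real.rpow_zero, Finset.card_singleton]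
      norm_num
    · rw [h, Real.rpow_zero, Finset.card_singleton]
      norm_num
  · have h2 : ENNReal.ofReal s < dimH A := h.resolve_left h0.ne'
    obtain ⟨R, hR⟩ := hA.isBounded.exists_norm_le
    obtain ⟨c, C, hc, hC, h1⟩ := frostman (K := max R 1) (by positivity) (fun x hx => (hR x hx).trans (le_max_left _ _)) h0 hs1 h2
    choose! S hS using h1
    exact ⟨S, c, C, hc, hC, fun r hr hr1 => hS r hr hr1⟩

theorem expS_low {σ τ β : ℝ} (hτ : 0 ≤ τ) (hτσ : τ ≤ σ) (hσ1 : σ ≤ 1) (hβ0 : 0 ≤ β) (hβ4 : β ≤ 4) : expS σ β - 4 * (σ - τ) ≤ expS τ β := by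
  unfold expS
  split_ifs with h1 h2 h2
  · nlinarith
  · nlinarith [sq_nonneg (τ - β / 2)]
  · exfalso
    linarith
  · nlinarith

theorem rate_low {σ τ v : ℝ} (hτ : 0 ≤ τ) (hτσ : τ ≤ σ) (hσ1 : σ ≤ 1) :
    -(if v ≤ σ then 0 else v ^ 2 - σ ^ 2) - 2 * (σ - τ) ≤ -(if v ≤ τ then 0 else v ^ 2 - τ ^ 2) := by
  split_ifs with h1 h2 h2
  · linarith
  · nlinarith
  · exfalso
    linarith
  · nlinarith

/-- **lower bounds in terms of the Hausdorff dimension** -/
theorem haus_low {A : Set ℝ} (hA : IsCompact A) (hne : A.Nonempty) {s : ℝ} (hs0 : 0 ≤ s) (hs1 : s ≤ 1) (h : ENNReal.ofReal s ≤ dimH A) {η : ℝ} (hη : 0 < η) :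
    (∀ β : ℝ, 0 < β → β ≤ 4 → ∀ᶠ T : ℝ in atTop, Real.log T ^ (expS (Real.sqrt s) β - η) ≤ mm (MA A) β T) ∧
    (∀ v : ℝ, v < 2 → ∀ᶠ T : ℝ in atTop, Real.log T ^ (-(if v ≤ Real.sqrt s then 0 else v ^ 2 - s) - η) ≤ pp (MA A) (Real.log T ^ v) T) := by
  obtain ⟨σ, hσ⟩ : ∃ σ : ℝ, σ = Real.sqrt s := ⟨_, rfl⟩
  have hσ0 : 0 ≤ σ := by rw [hσ]; exact Real.sqrt_nonneg s
  have hσs : σ ^ 2 = s := by rw [hσ]; exact Real.sq_sqrt hs0
  have hσ1 : σ ≤ 1 := by rw [hσ]; exact Real.sqrt_le_one.2 hs1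
  obtain ⟨ρ, hρ⟩ : ∃ ρ : ℝ, ρ = min (σ / 2) (η / 8) := ⟨_, rfl⟩
  have hρσ : ρ ≤ σ / 2 := by rw [hρ]; exact min_le_left _ _
  have hρη : ρ ≤ η / 8 := by rw [hρ]; exact min_le_right _ _
  have hρ0 : 0 ≤ ρ := by rw [hρ]; exact le_min (by linarith) (by linarith)
  obtain ⟨τ, hτ⟩ : ∃ τ : ℝ, τ = σ - ρ := ⟨_, rfl⟩
  have hτ0 : 0 ≤ τ := by rw [hτ]; linarith
  have hτσ : τ ≤ σ := by rw [hτ]; linarith
  have hτ1 : τ ^ 2 ≤ 1 := by nlinarith
  have hcase : τ ^ 2 = 0 ∨ ENNReal.ofReal (τ ^ 2) < dimH A := by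
    rcases hσ0.eq_or_lt with h0 | h0
    · left
      have : τ = 0 := by linarith
      rw [this]
      norm_num
    · right
      refine lt_of_lt_of_le ?_ h
      have hρp : 0 < ρ := by rw [hρ]; exact lt_min (by linarith) (by linarith)
      have h1 : τ ^ 2 < s := by
        rw [← hσs, hτ]
        nlinarith
      exact (ENNReal.ofReal_lt_ofReal_iff (lt_of_le_of_lt (sq_nonneg τ) h1)).2 h1
  obtain ⟨S, c, C, hc, hC, hS⟩ := fam_exists hA hne (sq_nonneg τ) hτ1 hcase
  obtain ⟨hU, hL⟩ := fam hA (sq_nonneg τ) (by norm_num) hc hC hS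
  rw [Real.sqrt_sq hτ0] at hU hL
  obtain ⟨X, hX⟩ : ∃ X : ℝ → ℝ → ℝ, X = fun T => MA (S (1 / Real.log T) : Set ℝ) := ⟨_, rfl⟩
  rw [← hX] at hU hL
  have hXc : ∀ T, Continuous (X T) := fun T => by
    rw [hX]
    exact MA_cont (S (1 / Real.log T)).finite_toSet.isCompact
  have hX0 : ∀ T t, 0 ≤ X T t := fun T t => by
    rw [hX]
    exact MA_nonneg _ _
  have hXA : ∀ T : ℝ, 1 ≤ Real.log T → ∀ t, X T t ≤ MA A t := fun T hL1 t => by
    rw [hX]
    have hL0 : 0 < Real.log T := by linarith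
    exact MA_mono hA (fun x hx => (hS (1 / Real.log T) (by positivity) (by rw [div_le_one hL0]; exact hL1)).1 x (by exact_mod_cast hx)) t
  have hτ1' : τ ≤ 1 := by linarith
  constructor
  · intro β hβ0 hβ4
    have h1 := all_lowF hXc hX0 hτ1' hU hL hβ0 hβ4 (η / 2) (by linarith)
    filter_upwards [h1, eventually_gt_atTop (0 : ℝ), Real.tendsto_log_atTop.eventually_ge_atTop 1] with T h1 hT0 hL1
    refine le_trans ?_ (h1.trans (mm_mono hXc hX0 (MA_cont hA) hβ0 hT0 (hXA T hL1)))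
    apply Real.rpow_le_rpow_of_exponent_le hL1
    have h2 := expS_low hτ0 hτσ hσ1 hβ0.le hβ4
    rw [← hσ]
    have h3 : 4 * (σ - τ) ≤ η / 2 := by rw [hτ]; linarith
    linarith
  · intro v hv
    have h1 := pp_all_lowF hXc hX0 hτ0 hU hL hv (by linarith) (η := η / 2) (by linarith)
    filter_upwards [h1, eventually_gt_atTop (0 : ℝ), Real.tendsto_log_atTop.eventually_ge_atTop 1] with T h1 hT0 hL1
    refine le_trans ?_ (h1.trans (pp_mono hT0 (hXA T hL1)))
    apply Real.rpow_le_rpow_of_exponent_le hL1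
    have h2 := rate_low (v := v) hτ0 hτσ hσ1
    rw [hσs] at h2
    rw [← hσ]
    have h3 : 2 * (σ - τ) ≤ η / 2 := by rw [hτ]; linarith
    linarith

/-- the upper box dimension is at most `d` -/
def UBoxLe (A : Set ℝ) (d : ℝ) : Prop := ∀ d' : ℝ, d < d' → ∀ᶠ r : ℝ in 𝓝[>] 0, (nsep r A : ℝ) ≤ (1 / r) ^ d'

theorem BoxDim.ubox {A : Set ℝ} {d : ℝ} (hA : IsCompact A) (hne : A.Nonempty) (h : BoxDim A d) : UBoxLe A d := by
  intro d' hd'
  obtain ⟨R, hR⟩ := hA.isBounded.exists_norm_le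
  have hAR : ∀ x ∈ A, |x| ≤ max R 0 := fun x hx => (hR x hx).trans (le_max_left _ _)
  have h1 := h.eventually_lt_const hd'
  filter_upwards [h1, Ioo_mem_nhdsGT (zero_lt_one' ℝ)] with r h1 hr
  have hr0 : 0 < r := hr.1
  have hlog : 0 < Real.log (1 / r) := Real.log_pos ((one_lt_div hr0).2 hr.2)
  have hN : 1 ≤ nsep r A := nsep_pos hr0 (le_max_right R 0) hAR hne
  have hN0 : (0 : ℝ) < nsep r A := by exact_mod_cast hN
  rw [div_lt_iff₀ hlog] at h1
  rw [Real.rpow_def_of_pos (by positivity), ← Real.log_le_iff_le_exp hN0, mul_comm]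
  exact h1.le

/-- **upper bounds in terms of the upper box dimension** -/
theorem box_up {A : Set ℝ} (hA : IsCompact A) (hne : A.Nonempty) {d : ℝ} (hd0 : 0 ≤ d) (hd1 : d ≤ 1) (h : UBoxLe A d) {η : ℝ} (hη : 0 < η) :
    (∀ β : ℝ, 0 < β → β ≤ 4 → ∀ᶠ T : ℝ in atTop, mm (MA A) β T ≤ Real.log T ^ (expS (Real.sqrt d) β + η)) ∧
    (∀ v : ℝ, v < 2 → ∀ᶠ T : ℝ in atTop, pp (MA A) (Real.log T ^ v) T ≤ Real.log T ^ (-(if v ≤ Real.sqrt d then 0 else v ^ 2 - d) + η)) := by
  have hss : Real.sqrt d ^ 2 = d := Real.sq_sqrt hd0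
  have hq0 := Real.sqrt_nonneg d
  obtain ⟨R, hR⟩ := hA.isBounded.exists_norm_le
  obtain ⟨X, hX⟩ : ∃ X : ℝ → ℝ → ℝ, X = fun _ => MA A := ⟨_, rfl⟩
  have hXc : ∀ T, Continuous (X T) := fun T => by
    rw [hX]
    exact MA_cont hA
  have hX0 : ∀ T t, 0 ≤ X T t := fun T t => by
    rw [hX]
    exact MA_nonneg _ _
  have hlim : Tendsto (fun T : ℝ => 1 / Real.log T) atTop (𝓝[>] 0) := by
    apply tendsto_nhdsWithin_iff.2
    constructor
    · simp only [one_div]
      exact Real.tendsto_log_atTop.inv_tendsto_atTop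
    · filter_upwards [Real.tendsto_log_atTop.eventually_ge_atTop 1] with T hT
      have h0 : (0 : ℝ) < Real.log T := lt_of_lt_of_le one_pos hT
      exact one_div_pos.2 h0
  have hU : ∀ b : ℝ, 2 * Real.sqrt d < b → b ≤ 4 → UpF X b (Real.sqrt d ^ 2 + b ^ 2 / 4) := by
    intro b hb hb4 δ hδ
    rw [hss]
    have hb0 : 0 < b := by linarith
    obtain ⟨C', hC', h1⟩ := upper_nsep hb0 hb4
    have l1 : ∀ᶠ T : ℝ in atTop, C' ≤ Real.log T ^ (δ / 2) :=
      ((tendsto_rpow_atTop (by linarith : 0 < δ / 2)).comp Real.tendsto_log_atTop).eventually_ge_atTop _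
    filter_upwards [h1, l1, hlim.eventually (h (d + δ / 2) (by linarith)), eventually_ge_atTop (16 * R), eventually_gt_atTop (0 : ℝ),
      Real.tendsto_log_atTop.eventually_ge_atTop 1] with T h1 l1 hN hTR hT0 hL1
    have hL0 : 0 < Real.log T := by linarith
    rw [one_div_one_div] at hN
    have h2 := h1 A hA hne (fun x hx => (hR x hx).trans (by linarith))
    unfold mmF
    rw [inv_mul_le_iff₀ hT0, hX]
    refine h2.trans ?_
    calc C' * T * (nsep (1 / Real.log T) A * Real.log T ^ (b ^ 2 / 4)) ≤ C' * T * (Real.log T ^ (d + δ / 2) * Real.log T ^ (b ^ 2 / 4)) := by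
          apply mul_le_mul_of_nonneg_left _ (by positivity)
          exact mul_le_mul_of_nonneg_right hN (by positivity)
      _ = T * (C' * (Real.log T ^ (d + δ / 2) * Real.log T ^ (b ^ 2 / 4))) := by ring
      _ ≤ T * (Real.log T ^ (δ / 2) * (Real.log T ^ (d + δ / 2) * Real.log T ^ (b ^ 2 / 4))) := by
          apply mul_le_mul_of_nonneg_left _ hT0.le
          exact mul_le_mul_of_nonneg_right l1 (by positivity)
      _ = _ := by
          rw [← Real.rpow_add hL0, ← Real.rpow_add hL0]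
          congr 2
          ring
  constructor
  · intro β hβ0 hβ4
    have h1 := all_upF hXc hX0 (Real.sqrt_le_one.2 hd1) hU hβ0 hβ4 η hη
    filter_upwards [h1] with T h1
    rw [hX] at h1
    exact h1
  · intro v hv
    have h1 := pp_all_upF hXc hX0 hq0 hU hv hη
    rw [hss] at h1
    filter_upwards [h1] with T h1
    rw [hX] at h1
    exact h1

end

end Pool.Agent.H469.F4
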