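import Pool.Agent.H469.F4.W1

set_option autoImplicit false

/-!
# Maxima over compact sets, all orders: the sum over the points
-/

namespace Pool.Agent.H469.F4

open Filter Topology MeasureTheory Complex Pool.Agent.Q97.UM
open Pool.Agent.Q14.UM (mem_PB PB_disj cv_len)

noncomputable section

/-- **the competitors** -/
theorem pairW_le {E κ' β b V B C Cv E₀ T H X Y : ℝ} {J N : ℕ} (hF : VH Cv E₀ B) (hU : UpbS E κ' B C T) (hC : 0 < C) (hT : 0 ≤ T)
    (hβ2 : 2 < β) (hβB : β ≤ B) (hV0 : 0 < V) (hVB : β / 2 - 1 + V ≤ B) (hN : β * V ≤ N) (hE₀ : 1 ≤ E₀) (hEE : E₀ ≤ E)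
    (hJ : J = ⌊Real.log (E / E₀)⌋₊) (hm1' : 1 ≤ |X - Y| * E) (hX : |X| ≤ T / 2) (hH : |X - Y| ≤ H) :
    ∫ t in T..(2 * T), fz 2 (t + X) * kG E κ' b V (β / 2 - 1) (JB E) (levY J E X Y) X Y t ≤
      16 * Real.exp (2 * V * (Real.log 16 / b)) * (C ^ 2 * Real.exp Cv) * (T * Real.exp (β ^ 2 / 4 * Real.log E)) *
        (Real.exp (V ^ 2) * (|X - Y| * E) ^ (-(V ^ 2)) + (5 + Real.log (H + 1)) ^ N * (Real.exp 1 * E₀ / E) ^ (V ^ 2)) := by
  have hE₀0 : 0 < E₀ := by linarith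
  have hE0 : 0 < E := by linarith
  have hE1 : 1 ≤ E := by linarith
  have hβ0 : 0 ≤ β := by linarith
  obtain ⟨m, hm⟩ : ∃ m : ℝ, m = |X - Y| * E := ⟨_, rfl⟩
  have hm1 : 1 ≤ m := by rw [hm]; exact hm1'
  have hm0 : 0 < m := by linarith
  have hlm : 0 ≤ Real.log m := Real.log_nonneg hm1
  obtain ⟨j, hj⟩ : ∃ j : ℕ, j = levY J E X Y := ⟨_, rfl⟩
  have hj' : j = min J ⌊Real.log m⌋₊ := by rw [hj, hm]; rfl
  have hjJ : j ≤ J := by rw [hj']; exact min_le_left _ _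
  have hjm : j ≤ ⌊Real.log m⌋₊ := by rw [hj']; exact min_le_right _ _
  have hdist : |X - Y| = m / E := by
    rw [hm]
    field_simp
  have hmH : m / E ≤ H := by
    rw [← hdist]
    exact hH
  obtain ⟨g1, g2⟩ := last_lev hE₀ hEE hJ
  have hjE : E₀ ≤ E * Real.exp (-(j : ℝ)) := by
    refine g1.trans ?_
    apply mul_le_mul_of_nonneg_left _ hE0.le
    apply Real.exp_le_exp.2
    have : (j : ℝ) ≤ J := by exact_mod_cast hjJ
    linarith
  obtain ⟨-, -, h3⟩ := hF E β V X j hjE hβ0 hβB (by rw [abs_of_pos hV0]; linarith)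
  obtain ⟨h4, h5⟩ := h3 hV0.le Y
  rw [hdist] at h4 h5
  rw [← hj, ← hm]
  have hH0 : 0 ≤ H := le_trans (by positivity) hmH
  have hlH : 0 ≤ Real.log (H + 1) := Real.log_nonneg (by linarith)
  have hD1 : 1 ≤ (5 + Real.log (H + 1)) ^ N := one_le_pow₀ (by linarith)
  have hV := sq_nonneg V
  have n2 : 0 ≤ (Real.exp 1 * E₀ / E) ^ (V ^ 2) := by positivity
  have n1 : 0 ≤ Real.exp (V ^ 2) * m ^ (-(V ^ 2)) := by positivity
  rcases le_total (m / E) 1 with hc | hc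
  · have h6 : 1 ≤ m / E * (E * Real.exp (-(j : ℝ))) := by
      have h7 : (j : ℝ) ≤ Real.log m := by
        have : (j : ℝ) ≤ (⌊Real.log m⌋₊ : ℝ) := by exact_mod_cast hjm
        exact this.trans (Nat.floor_le hlm)
      have h8 : Real.exp j ≤ m := by
        rw [← Real.le_log_iff_exp_le hm0]
        exact h7
      have e : Real.exp j * Real.exp (-(j : ℝ)) = 1 := by rw [← Real.exp_add]; simp
      calc (1 : ℝ) = Real.exp j * Real.exp (-(j : ℝ)) := e.symm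
        _ ≤ m * Real.exp (-(j : ℝ)) := mul_le_mul_of_nonneg_right h8 (Real.exp_pos _).le
        _ = _ := by field_simp
    have h7 := h4 hc h6
    have h8 := compH_le (κ' := κ') (b := b) (F := 0) hE1 hU hC hT hX hβ2 hV0 hVB (j := j) (Y := Y) (by rw [add_zero]; exact h7)
    refine h8.trans ?_
    apply mul_le_mul_of_nonneg_left _ (by positivity)
    rw [Real.exp_zero, mul_one]
    have h9 := exp_lev (V := V) hE₀0 hEE hm1 hJ
    rw [← hj'] at h9
    nlinarith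
  · have hjJ' : j = J := by
      rw [hj', min_eq_left]
      rw [hJ]
      apply Nat.floor_mono
      apply Real.log_le_log (by positivity)
      rw [one_le_div hE0] at hc
      exact (div_le_self hE0.le hE₀).trans hc
    have h7 := h5 (by rw [hjJ']; exact g2) hc
    have h8 := compH_le (κ' := κ') (b := b) (F := β * V * Real.log (5 + Real.log (m / E + 1))) hE1 hU hC hT hX hβ2 hV0 hVB (j := j)
      (Y := Y) h7
    refine h8.trans ?_
    apply mul_le_mul_of_nonneg_left _ (by positivity)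
    have h9 := exp_last (V := V) hE₀0 hEE hJ
    rw [← hjJ'] at h9
    have hlm2 : 0 ≤ Real.log (m / E + 1) := Real.log_nonneg (by linarith [div_nonneg hm0.le hE0.le])
    have h10 : Real.exp (β * V * Real.log (5 + Real.log (m / E + 1))) ≤ (5 + Real.log (H + 1)) ^ N := by
      have h11 : Real.log (5 + Real.log (m / E + 1)) ≤ Real.log (5 + Real.log (H + 1)) := by
        apply Real.log_le_log (by linarith)
        have : Real.log (m / E + 1) ≤ Real.log (H + 1) := Real.log_le_log (by positivity) (by linarith)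
        linarith
      have h12 : 0 ≤ Real.log (5 + Real.log (H + 1)) := Real.log_nonneg (by linarith)
      have h14 : 0 ≤ β * V := by positivity
      calc Real.exp (β * V * Real.log (5 + Real.log (m / E + 1))) ≤ Real.exp ((N : ℝ) * Real.log (5 + Real.log (H + 1))) := by
            apply Real.exp_le_exp.2
            exact mul_le_mul hN h11 (Real.log_nonneg (by linarith)) (Nat.cast_nonneg _)
        _ = _ := by
            rw [Real.exp_nat_mul, Real.exp_log (by linarith)]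
    calc Real.exp (-(V ^ 2 * (j : ℝ))) * Real.exp (β * V * Real.log (5 + Real.log (m / E + 1))) ≤
        (Real.exp 1 * E₀ / E) ^ (V ^ 2) * (5 + Real.log (H + 1)) ^ N := mul_le_mul h9 h10 (Real.exp_pos _).le n2
      _ ≤ _ := by linarith

theorem psW_cont {E κ' S b V a i : ℝ} {U : Finset ℝ} {j₀ J Jt : ℕ} : Continuous (psW E κ' S b V a U j₀ J Jt i) := by
  unfold psW
  exact (Pf_cont _ _ _).sub ((oH_cont _ _ _ _ _ _ _ _ _).add ((continuous_finsetSum _ fun k _ => kG_cont _ _ _ _ _ _ _ _ _).add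
    ((Pf_cont _ _ _).mul (pW_cont _ _ _ _))))

/-- **the mean value of one weight** -/
theorem oneW {E κ' S β b V B C Cv E₀ T H η c₀ z D : ℝ} {J j₀ N : ℕ} {A : Set ℝ} {U : Finset ℝ} (hF : VH Cv E₀ B) (hU : UpbS E κ' B C T)
    (hC : 0 < C) (hT : 0 < T) (hβ2 : 2 < β) (hβB : β ≤ B) (hb : 0 < b) (hb1 : b ≤ 1) (hV : V = β / 2 - b) (hV0 : 0 < V)
    (hVB : β / 2 - 1 + V ≤ B) (hN : β * V ≤ N) (hE₀ : 1 ≤ E₀)
    (hj₀ : Real.exp j₀ ≤ E / E₀) (hJ : J = ⌊Real.log (E / E₀)⌋₊) (hH : 0 ≤ H) (hy : ∀ x ∈ U, x ∈ A)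
    (hAT : ∀ h ∈ A, |h| ≤ T / 2) (hAH : ∀ h ∈ A, ∀ h' ∈ A, |h - h'| ≤ H)
    (hsep : ∀ x ∈ U, ∀ y ∈ U, x ≠ y → Real.exp j₀ ≤ |x - y| * E) (hc₀ : 0 < c₀)
    (hQ : ∀ X, |X| ≤ T / 2 → ∃ Q : ℝ, c₀ * VV E (aw 2 X) (yF E (β / 2 - 1) (JB E) X) ≤ Q ∧
      T * Q ≤ ∫ t in T..(2 * T), fz 2 (t + X) * Pf E κ' (yF E (β / 2 - 1) (JB E) X) t ∧
      ∫ t in T..(2 * T), fz 2 (t + X) * (Pf E κ' (yF E (β / 2 - 1) (JB E) X) t * pW E κ' S X t) ≤ 1 / 8 * (T * Q))
    (hz : ∀ x ∈ U, ∑ y ∈ U.erase x, (|x - y| * E) ^ (-(V ^ 2)) ≤ z)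
    (hη : η = c₀ * Real.exp (-Cv) / 8) (hD : D = 16 * Real.exp (2 * V * (Real.log 16 / b)) * (C ^ 2 * Real.exp Cv))
    (h1 : C ^ 2 * Real.exp Cv * (Real.exp (-(3 / 4 * b ^ 2) * j₀) * (1 - Real.exp (-(3 / 4 * b ^ 2)))⁻¹) ≤ η)
    (h2 : D * (Real.exp (V ^ 2) * z) ≤ η)
    (h3 : D * (U.card * ((5 + Real.log (H + 1)) ^ N * (Real.exp 1 * E₀ / E) ^ (V ^ 2))) ≤ η) :
    ∀ X ∈ U, 4 * η * (T * Real.exp (β ^ 2 / 4 * Real.log E)) ≤
      ∫ t in T..(2 * T), fz 2 (t + X) * psW E κ' S b V (β / 2 - 1) U j₀ J (JB E) X t := by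
  have hβ0 : 0 < β := by linarith
  have hE₀0 : 0 < E₀ := by linarith
  have hEE1 : 1 ≤ E / E₀ := (Real.one_le_exp (Nat.cast_nonneg _)).trans hj₀
  have hE0 : 0 < E := by
    by_contra h
    have : E / E₀ ≤ 0 := div_nonpos_of_nonpos_of_nonneg (not_lt.1 h) hE₀0.le
    linarith
  have hEE : E₀ ≤ E := by rwa [one_le_div hE₀0] at hEE1
  have hE1 : 1 ≤ E := hE₀.trans hEE
  have hη0 : 0 < η := by rw [hη]; positivity
  have hJ0 : j₀ ≤ J := by
    rw [hJ]
    apply Nat.le_floor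
    rw [Real.le_log_iff_exp_le (by positivity)]
    exact hj₀
  obtain ⟨g1, g2⟩ := last_lev hE₀ hEE hJ
  have hJB : J ≤ JB E := by
    have := JB_shift hE0 J (hE₀.trans g1)
    omega
  have hXT : ∀ x ∈ U, |x| ≤ T / 2 := fun x hx => hAT _ (hy x hx)
  obtain ⟨G, hG⟩ : ∃ G : ℝ, G = Real.exp (β ^ 2 / 4 * Real.log E) := ⟨_, rfl⟩
  have hG0 : 0 < G := by rw [hG]; exact Real.exp_pos _
  rw [← hG]
  obtain ⟨P, hP⟩ : ∃ P : ℝ, P = (5 + Real.log (H + 1)) ^ N * (Real.exp 1 * E₀ / E) ^ (V ^ 2) := ⟨_, rfl⟩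
  have hlH : 0 ≤ Real.log (H + 1) := Real.log_nonneg (by linarith)
  have hP0 : 0 ≤ P := by rw [hP]; positivity
  rw [← hP] at h3
  have hD0 : 0 < D := by rw [hD]; positivity
  have hfc : ∀ X, Continuous fun t => fz 2 (t + X) := fun X => (fz_cont (by norm_num)).comp (by fun_prop)
  intro X hi
  have hXT' : |X| ≤ T / 2 := hXT X hi
  obtain ⟨Q, q1, q2, q3⟩ := hQ X hXT'
  have c0 : Continuous fun t => fz 2 (t + X) := hfc X
  have c1 : Continuous fun t => fz 2 (t + X) * Pf E κ' (yF E (β / 2 - 1) (JB E) X) t := c0.mul (Pf_cont _ _ _)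
  have c2 : Continuous fun t => fz 2 (t + X) * oH E κ' b V (β / 2 - 1) j₀ J (JB E) X t := c0.mul (oH_cont _ _ _ _ _ _ _ _ _)
  have c3 : ∀ k : ℝ, Continuous fun t => fz 2 (t + X) * kG E κ' b V (β / 2 - 1) (JB E) (levY J E X k) X k t :=
    fun k => c0.mul (kG_cont _ _ _ _ _ _ _ _ _)
  have c4 : Continuous fun t => fz 2 (t + X) * (Pf E κ' (yF E (β / 2 - 1) (JB E) X) t * pW E κ' S X t) := c0.mul ((Pf_cont _ _ _).mul (pW_cont _ _ _ _))
  have c5 : Continuous fun t => ∑ k ∈ U.erase X, fz 2 (t + X) * kG E κ' b V (β / 2 - 1) (JB E) (levY J E X k) X k t :=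
    continuous_finsetSum _ fun k _ => c3 k
  have e1 : ∀ t, fz 2 (t + X) * psW E κ' S b V (β / 2 - 1) U j₀ J (JB E) X t =
      fz 2 (t + X) * Pf E κ' (yF E (β / 2 - 1) (JB E) X) t -
      (fz 2 (t + X) * oH E κ' b V (β / 2 - 1) j₀ J (JB E) X t +
        (∑ k ∈ U.erase X, fz 2 (t + X) * kG E κ' b V (β / 2 - 1) (JB E) (levY J E X k) X k t +
        fz 2 (t + X) * (Pf E κ' (yF E (β / 2 - 1) (JB E) X) t * pW E κ' S X t))) := by
    intro t
    unfold psW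
    rw [← Finset.mul_sum]
    ring
  simp only [e1]
  have i1 : IntervalIntegrable (fun t => fz 2 (t + X) * Pf E κ' (yF E (β / 2 - 1) (JB E) X) t) volume T (2 * T) := c1.intervalIntegrable _ _
  have i2 : IntervalIntegrable (fun t => fz 2 (t + X) * oH E κ' b V (β / 2 - 1) j₀ J (JB E) X t) volume T (2 * T) := c2.intervalIntegrable _ _
  have i4 : IntervalIntegrable (fun t => fz 2 (t + X) * (Pf E κ' (yF E (β / 2 - 1) (JB E) X) t * pW E κ' S X t)) volume T (2 * T) := c4.intervalIntegrable _ _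
  have i5 : IntervalIntegrable (fun t => ∑ k ∈ U.erase X, fz 2 (t + X) * kG E κ' b V (β / 2 - 1) (JB E) (levY J E X k) X k t)
    volume T (2 * T) := c5.intervalIntegrable _ _
  have i54 : IntervalIntegrable (fun t => ∑ k ∈ U.erase X, fz 2 (t + X) * kG E κ' b V (β / 2 - 1) (JB E) (levY J E X k) X k t +
    fz 2 (t + X) * (Pf E κ' (yF E (β / 2 - 1) (JB E) X) t * pW E κ' S X t)) volume T (2 * T) := i5.add i4
  have i254 : IntervalIntegrable (fun t => fz 2 (t + X) * oH E κ' b V (β / 2 - 1) j₀ J (JB E) X t + (∑ k ∈ U.erase X,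
    fz 2 (t + X) * kG E κ' b V (β / 2 - 1) (JB E) (levY J E X k) X k t +
    fz 2 (t + X) * (Pf E κ' (yF E (β / 2 - 1) (JB E) X) t * pW E κ' S X t))) volume T (2 * T) := i2.add i54
  rw [intervalIntegral.integral_sub i1 i254, intervalIntegral.integral_add i2 i54, intervalIntegral.integral_add i5 i4,
    intervalIntegral.integral_finsetSum fun k _ => (c3 k).intervalIntegrable _ _]
  -- the own part
  have b1 : ∫ t in T..(2 * T), fz 2 (t + X) * oH E κ' b V (β / 2 - 1) j₀ J (JB E) X t ≤ η * (T * G) := by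
    have h4 := ownH_le (κ' := κ') (Cv := Cv) hE1 hU hC hT.le hXT' hβ2 hb (by linarith) hV (j₀ := j₀) (J := J) fun j hj => by
      have h5 := (hF E β (-(b / 2)) X j (by
        refine g1.trans ?_
        apply mul_le_mul_of_nonneg_left _ hE0.le
        apply Real.exp_le_exp.2
        have : (j : ℝ) ≤ J := by exact_mod_cast hj
        linarith) hβ0.le hβB (by rw [abs_neg, abs_of_pos (by linarith)]; linarith)).2.1
      exact h5
    rw [← hG] at h4
    calc _ ≤ C ^ 2 * Real.exp Cv * (T * G) * (Real.exp (-(3 / 4 * b ^ 2) * j₀) * (1 - Real.exp (-(3 / 4 * b ^ 2)))⁻¹) := h4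
      _ = C ^ 2 * Real.exp Cv * (Real.exp (-(3 / 4 * b ^ 2) * j₀) * (1 - Real.exp (-(3 / 4 * b ^ 2)))⁻¹) * (T * G) := by ring
      _ ≤ η * (T * G) := mul_le_mul_of_nonneg_right h1 (by positivity)
  -- the competitors
  have b2 : ∑ k ∈ U.erase X, ∫ t in T..(2 * T), fz 2 (t + X) * kG E κ' b V (β / 2 - 1) (JB E) (levY J E X k) X k t ≤
      2 * (η * (T * G)) := by
    have h4 : ∀ k ∈ U.erase X, ∫ t in T..(2 * T), fz 2 (t + X) * kG E κ' b V (β / 2 - 1) (JB E) (levY J E X k) X k t ≤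
        D * (T * G) * (Real.exp (V ^ 2) * (|X - k| * E) ^ (-(V ^ 2)) + P) := by
      intro k hk
      rw [Finset.mem_erase] at hk
      have h6 := pairW_le (κ' := κ') (b := b) (H := H) (X := X) (Y := k) (N := N) hF hU hC hT.le hβ2 hβB hV0 hVB hN hE₀ hEE hJ
        ((Real.one_le_exp (Nat.cast_nonneg _)).trans (hsep X hi k hk.2 fun h => hk.1 h.symm)) hXT'
        (hAH _ (hy X hi) _ (hy k hk.2))
      rw [← hD, ← hG, ← hP] at h6
      exact h6
    refine (Finset.sum_le_sum h4).trans ?_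
    rw [← Finset.mul_sum, Finset.sum_add_distrib, ← Finset.mul_sum, Finset.sum_const, nsmul_eq_mul]
    have h5 : (((U.erase X).card : ℕ) : ℝ) ≤ U.card := by
      have := Finset.card_erase_le (s := U) (a := X)
      exact_mod_cast this
    have h7 := hz X hi
    calc D * (T * G) * (Real.exp (V ^ 2) * ∑ k ∈ U.erase X, (|X - k| * E) ^ (-(V ^ 2)) +
          ((U.erase X).card : ℕ) * P) ≤ D * (T * G) * (Real.exp (V ^ 2) * z + U.card * P) := by
          apply mul_le_mul_of_nonneg_left _ (by positivity)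
          exact add_le_add (mul_le_mul_of_nonneg_left h7 (Real.exp_pos _).le) (mul_le_mul_of_nonneg_right h5 hP0)
      _ = (D * (Real.exp (V ^ 2) * z) + D * (U.card * P)) * (T * G) := by ring
      _ ≤ (η + η) * (T * G) := mul_le_mul_of_nonneg_right (add_le_add h2 h3) (by positivity)
      _ = _ := by ring
  -- the main term
  have b3 : 8 * (η * G) ≤ Q := by
    have h4 := (hF E β 0 X 0 (by simpa using hEE) hβ0.le hβB (by simp; linarith)).1
    rw [← hG] at h4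
    rw [VV_shift0 hE1] at q1
    calc 8 * (η * G) = c₀ * (Real.exp (-Cv) * G) := by rw [hη]; ring
      _ ≤ c₀ * VV E (aw β X) (fun _ => 0) := mul_le_mul_of_nonneg_left h4 hc₀.le
      _ ≤ Q := q1
  have b4 : 8 * (η * (T * G)) ≤ T * Q := by
    calc 8 * (η * (T * G)) = T * (8 * (η * G)) := by ring
      _ ≤ _ := mul_le_mul_of_nonneg_left b3 hT.le
  linarith

/-- **the sum over the points** -/
theorem set_coreH {E κ' S β b V B C Cv E₀ T H η c₀ z D c : ℝ} {J j₀ N : ℕ} {A : Set ℝ} {U : Finset ℝ} (hF : VH Cv E₀ B) (hU : UpbS E κ' B C T)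
    (hU0 : ∀ X : ℝ, |X| ≤ T / 2 → ∫ t in T..(2 * T), Pf E κ' (yF E (β / 2) (JB E) X) t ≤ C * (T * (C * VV E (fun _ => 0) (yF E (β / 2) (JB E) X))))
    (hC : 0 < C) (hT : 0 < T) (hβ2 : 2 < β) (hβS : β ≤ S) (hβB : β ≤ B) (hb : 0 < b) (hb1 : b ≤ 1) (hV : V = β / 2 - b) (hV0 : 0 < V)
    (hVB : β / 2 - 1 + V ≤ B) (hN : β * V ≤ N) (hE₀ : 1 ≤ E₀) (hκ : 16 ≤ κ')
    (hj₀ : Real.exp j₀ ≤ E / E₀) (hJ : J = ⌊Real.log (E / E₀)⌋₊) (hH : 0 ≤ H) (hA : IsCompact A) (hy : ∀ x ∈ U, x ∈ A)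
    (hAT : ∀ h ∈ A, |h| ≤ T / 2) (hAH : ∀ h ∈ A, ∀ h' ∈ A, |h - h'| ≤ H)
    (hsep : ∀ x ∈ U, ∀ y ∈ U, x ≠ y → Real.exp j₀ ≤ |x - y| * E) (hc₀ : 0 < c₀) (hc : 0 < c)
    (hQ : ∀ X, |X| ≤ T / 2 → ∃ Q : ℝ, c₀ * VV E (aw 2 X) (yF E (β / 2 - 1) (JB E) X) ≤ Q ∧
      T * Q ≤ ∫ t in T..(2 * T), fz 2 (t + X) * Pf E κ' (yF E (β / 2 - 1) (JB E) X) t ∧
      ∫ t in T..(2 * T), fz 2 (t + X) * (Pf E κ' (yF E (β / 2 - 1) (JB E) X) t * pW E κ' S X t) ≤ 1 / 8 * (T * Q))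
    (hz : ∀ x ∈ U, ∑ y ∈ U.erase x, (|x - y| * E) ^ (-(V ^ 2)) ≤ z)
    (hη : η = c₀ * Real.exp (-Cv) / 8) (hD : D = 16 * Real.exp (2 * V * (Real.log 16 / b)) * (C ^ 2 * Real.exp Cv))
    (h1 : C ^ 2 * Real.exp Cv * (Real.exp (-(3 / 4 * b ^ 2) * j₀) * (1 - Real.exp (-(3 / 4 * b ^ 2)))⁻¹) ≤ η)
    (h2 : D * (Real.exp (V ^ 2) * z) ≤ η)
    (h3 : D * (U.card * ((5 + Real.log (H + 1)) ^ N * (Real.exp 1 * E₀ / E) ^ (V ^ 2))) ≤ η)
    (h4c : (β / 2 - 1) * c ^ β * (4 * (C ^ 2 * Real.exp Cv)) ≤ β / 4 * c ^ (β - 2) * η) :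
    U.card * (β / 4 * c ^ (β - 2) * η * (T * Real.exp (β ^ 2 / 4 * Real.log E))) ≤ ∫ t in T..(2 * T), MA A t ^ β := by
  have hβ0 : 0 < β := by linarith
  have hE₀0 : 0 < E₀ := by linarith
  have hEE1 : 1 ≤ E / E₀ := (Real.one_le_exp (Nat.cast_nonneg _)).trans hj₀
  have hE0 : 0 < E := by
    by_contra h
    have : E / E₀ ≤ 0 := div_nonpos_of_nonpos_of_nonneg (not_lt.1 h) hE₀0.le
    linarith
  have hEE : E₀ ≤ E := by rwa [one_le_div hE₀0] at hEE1
  have hE1 : 1 ≤ E := hE₀.trans hEE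
  have hη0 : 0 < η := by rw [hη]; positivity
  have hJ0 : j₀ ≤ J := by
    rw [hJ]
    apply Nat.le_floor
    rw [Real.le_log_iff_exp_le (by positivity)]
    exact hj₀
  obtain ⟨g1, g2⟩ := last_lev hE₀ hEE hJ
  have hJB : J ≤ JB E := by
    have := JB_shift hE0 J (hE₀.trans g1)
    omega
  have hXT : ∀ x ∈ U, |x| ≤ T / 2 := fun x hx => hAT _ (hy x hx)
  obtain ⟨G, hG⟩ : ∃ G : ℝ, G = Real.exp (β ^ 2 / 4 * Real.log E) := ⟨_, rfl⟩
  have hG0 : 0 < G := by rw [hG]; exact Real.exp_pos _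
  rw [← hG]
  obtain ⟨P, hP⟩ : ∃ P : ℝ, P = (5 + Real.log (H + 1)) ^ N * (Real.exp 1 * E₀ / E) ^ (V ^ 2) := ⟨_, rfl⟩
  have hlH : 0 ≤ Real.log (H + 1) := Real.log_nonneg (by linarith)
  have hP0 : 0 ≤ P := by rw [hP]; positivity
  have hD0 : 0 < D := by rw [hD]; positivity
  have hfc : ∀ X, Continuous fun t => fz 2 (t + X) := fun X => (fz_cont (by norm_num)).comp (by fun_prop)
  have hone0 := oneW (S := S) (κ' := κ') (H := H) (N := N) hF hU hC hT hβ2 hβB hb hb1 hV hV0 hVB hN hE₀ hj₀ hJ hH hy hAT hAH hsep hc₀ hQ hz hη hD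
    h1 h2 h3
  rw [← hG] at hone0
  have hone : ∀ X ∈ U, 4 * η * (T * G) ≤ ∫ t in T..(2 * T), fz 2 (t + X) * psW E κ' S b V (β / 2 - 1) U j₀ J (JB E) X t := hone0
  -- the correction
  have hcor : ∀ i ∈ U, ∫ t in T..(2 * T), Pf E κ' (yF E (β / 2) (JB E) i) t ≤ C ^ 2 * Real.exp Cv * (T * G) := by
    intro i hi
    have h4 := hU0 _ (hXT i hi)
    rw [VV_shift1 hE1] at h4
    have h5 := (hF E β 0 i 0 (by simpa using hEE) hβ0.le hβB (by simp; linarith)).2.1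
    have e2 : β ^ 2 / 4 * Real.log E + (0 * β + (0 : ℝ) ^ 2) * ((0 : ℕ) : ℝ) = β ^ 2 / 4 * Real.log E := by simp
    rw [e2, ← hG] at h5
    calc _ ≤ _ := h4
      _ ≤ C * (T * (C * (Real.exp Cv * G))) := by
          apply mul_le_mul_of_nonneg_left _ hC.le
          apply mul_le_mul_of_nonneg_left _ hT.le
          exact mul_le_mul_of_nonneg_left h5 hC.le
      _ = _ := by ring
  -- the sum
  have hca : 0 < β / 2 * c ^ (β - 2) := by positivity
  have hcb : 0 < (β / 2 - 1) * c ^ β := mul_pos (by linarith) (by positivity)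
  have cM : Continuous fun t => MA A t ^ β := (MA_cont hA).rpow_const fun _ => Or.inr hβ0.le
  have cpsi : ∀ i : ℝ, Continuous fun t => fz 2 (t + i) * psW E κ' S b V (β / 2 - 1) U j₀ J (JB E) i t := fun i => (hfc _).mul psW_cont
  have cP : ∀ i : ℝ, Continuous fun t => Pf E κ' (yF E (β / 2) (JB E) i) t := fun i => Pf_cont _ _ _
  have cpt : ∀ i : ℝ, Continuous fun t => β / 2 * c ^ (β - 2) * (fz 2 (t + i) * (1 / 4 * psW E κ' S b V (β / 2 - 1) U j₀ J (JB E) i t)) -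
      (β / 2 - 1) * c ^ β * (4 * Pf E κ' (yF E (β / 2) (JB E) i) t) := fun i =>
    (continuous_const.mul ((hfc _).mul (continuous_const.mul psW_cont))).sub (continuous_const.mul (continuous_const.mul (cP i)))
  have hpt : ∀ i ∈ U, β / 4 * c ^ (β - 2) * η * (T * G) ≤ ∫ t in T..(2 * T), (β / 2 * c ^ (β - 2) * (fz 2 (t + i) *
      (1 / 4 * psW E κ' S b V (β / 2 - 1) U j₀ J (JB E) i t)) - (β / 2 - 1) * c ^ β * (4 * Pf E κ' (yF E (β / 2) (JB E) i) t)) := by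
    intro i hi
    have e1 : ∀ t, β / 2 * c ^ (β - 2) * (fz 2 (t + i) *
      (1 / 4 * psW E κ' S b V (β / 2 - 1) U j₀ J (JB E) i t)) - (β / 2 - 1) * c ^ β * (4 * Pf E κ' (yF E (β / 2) (JB E) i) t) =
      β / 2 * c ^ (β - 2) / 4 * (fz 2 (t + i) * psW E κ' S b V (β / 2 - 1) U j₀ J (JB E) i t) -
        (β / 2 - 1) * c ^ β * 4 * Pf E κ' (yF E (β / 2) (JB E) i) t := fun t => by ring
    simp only [e1]
    have i1 : IntervalIntegrable (fun t => β / 2 * c ^ (β - 2) / 4 * (fz 2 (t + i) * psW E κ' S b V (β / 2 - 1) U j₀ J (JB E) i t))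
      volume T (2 * T) := (continuous_const.mul (cpsi i)).intervalIntegrable _ _
    have i2 : IntervalIntegrable (fun t => (β / 2 - 1) * c ^ β * 4 * Pf E κ' (yF E (β / 2) (JB E) i) t)
      volume T (2 * T) := (continuous_const.mul (cP i)).intervalIntegrable _ _
    rw [intervalIntegral.integral_sub i1 i2, intervalIntegral.integral_const_mul, intervalIntegral.integral_const_mul]
    have h4 := mul_le_mul_of_nonneg_left (hone i hi) (by positivity : 0 ≤ β / 2 * c ^ (β - 2) / 4)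
    have h5 := mul_le_mul_of_nonneg_left (hcor i hi) (by linarith : 0 ≤ (β / 2 - 1) * c ^ β * 4)
    have h6 := mul_le_mul_of_nonneg_right h4c (by positivity : 0 ≤ T * G)
    have e2 : β / 2 * c ^ (β - 2) / 4 * (4 * η * (T * G)) = 2 * (β / 4 * c ^ (β - 2) * η * (T * G)) := by ring
    have e3 : (β / 2 - 1) * c ^ β * 4 * (C ^ 2 * Real.exp Cv * (T * G)) = (β / 2 - 1) * c ^ β * (4 * (C ^ 2 * Real.exp Cv)) * (T * G) := by ring
    rw [e2] at h4
    rw [e3] at h5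
    linarith
  calc U.card * (β / 4 * c ^ (β - 2) * η * (T * G)) = ∑ i ∈ U, β / 4 * c ^ (β - 2) * η * (T * G) := by
        rw [Finset.sum_const, nsmul_eq_mul]
    _ ≤ ∑ i ∈ U, ∫ t in T..(2 * T), (β / 2 * c ^ (β - 2) * (fz 2 (t + i) *
      (1 / 4 * psW E κ' S b V (β / 2 - 1) U j₀ J (JB E) i t)) - (β / 2 - 1) * c ^ β * (4 * Pf E κ' (yF E (β / 2) (JB E) i) t)) :=
        Finset.sum_le_sum fun i hi => hpt i hi
    _ = ∫ t in T..(2 * T), ∑ i ∈ U, (β / 2 * c ^ (β - 2) * (fz 2 (t + i) *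
      (1 / 4 * psW E κ' S b V (β / 2 - 1) U j₀ J (JB E) i t)) - (β / 2 - 1) * c ^ β * (4 * Pf E κ' (yF E (β / 2) (JB E) i) t)) :=
        (intervalIntegral.integral_finsetSum fun i _ => (cpt i).intervalIntegrable _ _).symm
    _ ≤ _ := by
        refine intervalIntegral.integral_mono_on (by linarith) ((continuous_finsetSum _ fun i _ => cpt i).intervalIntegrable _ _)
          (cM.intervalIntegrable _ _) fun t _ => ?_
        exact psW_sum_le hE1 hκ hβ2 hβS hb hb1 hV0 (by linarith) hc hJ0 hJB hA hy hsep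

end

end Pool.Agent.H469.F4
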