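import Pool.Agent.H469.F4.W2

set_option autoImplicit false

/-!
# Maxima over compact sets, all orders: lower bound
-/

namespace Pool.Agent.H469.F4

open Filter Topology MeasureTheory Complex Pool.Agent.Q97.UM

noncomputable section

/-- **lower bound over sets, all orders** -/
theorem set_lowerH {β ε B' : ℝ} (hβ2 : 2 < β) (hB' : 0 ≤ B') (hε : 0 < ε) :
    ∃ c : ℝ, 0 < c ∧ ∀ᶠ T : ℝ in atTop, ∀ A : Set ℝ, IsCompact A → (∀ h ∈ A, |h| ≤ Real.log T ^ B') →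
    ∀ S : Finset ℝ, (∀ x ∈ S, x ∈ A) → Sep (1 / Real.log T) S → (S.card : ℝ) ≤ Real.log T ^ (β ^ 2 / 4 - ε) →
      c * T * (S.card * Real.log T ^ (β ^ 2 / 4)) ≤ ∫ t in T..(2 * T), MA A t ^ β := by
  have hβ0 : 0 < β := by linarith
  obtain ⟨B, hB⟩ : ∃ B : ℝ, B = 2 * β := ⟨_, rfl⟩
  obtain ⟨δ, κ', c₀, C, hδ, hδ1, hκ, hc₀, hC, hev⟩ := toolkit (B := B) (by linarith)
  obtain ⟨Cv, E₀, hCv, hE₀, hF⟩ := VV_H (B := B) (by linarith)
  have hF : VH Cv E₀ B := hF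
  have hE₀0 : 0 < E₀ := by linarith
  obtain ⟨e, he⟩ : ∃ e : ℝ, e = min ε 1 := ⟨_, rfl⟩
  have he0 : 0 < e := by rw [he]; exact lt_min hε one_pos
  have heε : e ≤ ε := by rw [he]; exact min_le_left _ _
  have he1 : e ≤ 1 := by rw [he]; exact min_le_right _ _
  obtain ⟨b, hb⟩ : ∃ b : ℝ, b = min (e / (4 * β)) ((β / 2 - 1) / 2) := ⟨_, rfl⟩
  have hb0 : 0 < b := by rw [hb]; exact lt_min (by positivity) (by linarith)
  have hb16 : b ≤ e / (4 * β) := by rw [hb]; exact min_le_left _ _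
  have hbβ : b ≤ (β / 2 - 1) / 2 := by rw [hb]; exact min_le_right _ _
  have hβb : β * b ≤ e / 4 := by
    calc β * b ≤ β * (e / (4 * β)) := mul_le_mul_of_nonneg_left hb16 hβ0.le
      _ = e / 4 := by field_simp
  have hb1 : b ≤ 1 := by nlinarith
  obtain ⟨V, hV⟩ : ∃ V : ℝ, V = β / 2 - b := ⟨_, rfl⟩
  have hV1 : 1 < V := by rw [hV]; linarith
  have hV0 : 0 < V := by linarith
  have hs : 1 < V ^ 2 := by nlinarith
  have hps : β ^ 2 / 4 - e < V ^ 2 := by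
    have h1 : V ^ 2 = β ^ 2 / 4 - β * b + b ^ 2 := by rw [hV]; ring
    have h2 : 0 ≤ b ^ 2 := sq_nonneg b
    rw [h1]
    linarith
  obtain ⟨η, hη⟩ : ∃ η : ℝ, η = c₀ * Real.exp (-Cv) / 8 := ⟨_, rfl⟩
  have hη0 : 0 < η := by rw [hη]; positivity
  obtain ⟨D', hD'⟩ : ∃ D' : ℝ, D' = 16 * Real.exp (2 * V * (Real.log 16 / b)) * (C ^ 2 * Real.exp Cv) := ⟨_, rfl⟩
  have hD'0 : 0 < D' := by rw [hD']; positivity
  obtain ⟨G, hG⟩ : ∃ G : ℝ, G = 3 * (2 / δ) ^ (1 : ℝ) * (1 - 2 ^ (1 - V ^ 2))⁻¹ := ⟨_, rfl⟩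
  have hq1 : (2 : ℝ) ^ (1 - V ^ 2) < 1 := Real.rpow_lt_one_of_one_lt_of_neg (by norm_num) (by linarith)
  have hG0 : 0 < G := by
    rw [hG]
    have : 0 < 1 - (2 : ℝ) ^ (1 - V ^ 2) := by linarith
    positivity
  -- the constant in Young's inequality
  obtain ⟨M, hM⟩ : ∃ M : ℝ, M = (β / 2 - 1) * (4 * (C ^ 2 * Real.exp Cv)) := ⟨_, rfl⟩
  have hM0 : 0 < M := by rw [hM]; exact mul_pos (by linarith) (by positivity)
  obtain ⟨c, hcd⟩ : ∃ c : ℝ, c = Real.sqrt (β / 4 * η / M) := ⟨_, rfl⟩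
  have hc0 : 0 < c := by rw [hcd]; exact Real.sqrt_pos.2 (by positivity)
  have hc2 : c ^ 2 = β / 4 * η / M := by rw [hcd]; exact Real.sq_sqrt (by positivity)
  have h4c : (β / 2 - 1) * c ^ β * (4 * (C ^ 2 * Real.exp Cv)) ≤ β / 4 * c ^ (β - 2) * η := by
    have h1 : c ^ β = c ^ (β - 2) * c ^ 2 := by
      have : β = (β - 2) + 2 := by ring
      conv_lhs => rw [this, Real.rpow_add hc0]
      congr 1
      exact_mod_cast Real.rpow_natCast c 2
    rw [h1, hc2]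
    have h2 : (β / 2 - 1) * (c ^ (β - 2) * (β / 4 * η / M)) * (4 * (C ^ 2 * Real.exp Cv)) = M * (β / 4 * η / M) * c ^ (β - 2) := by rw [hM]; ring
    rw [h2, mul_div_cancel₀ _ hM0.ne']
    exact le_of_eq (by ring)
  -- the exponent of the iterated logarithm
  obtain ⟨N, hN1, hN⟩ : ∃ N : ℕ, 1 ≤ N ∧ β * V ≤ N := ⟨⌈β * V⌉₊ + 1, by omega, by push_cast; linarith [Nat.le_ceil (β * V)]⟩
  -- the first level
  have t1 : ∀ᶠ j : ℕ in atTop, C ^ 2 * Real.exp Cv * (Real.exp (-(3 / 4 * b ^ 2) * j) * (1 - Real.exp (-(3 / 4 * b ^ 2)))⁻¹) ≤ η := by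
    have h1 : Tendsto (fun j : ℕ => C ^ 2 * Real.exp Cv * (Real.exp (-(3 / 4 * b ^ 2 * (j : ℝ))) * (1 - Real.exp (-(3 / 4 * b ^ 2)))⁻¹)) atTop
        (𝓝 (C ^ 2 * Real.exp Cv * (0 * (1 - Real.exp (-(3 / 4 * b ^ 2)))⁻¹))) :=
      ((Real.tendsto_exp_neg_atTop_nhds_zero.comp (tendsto_natCast_atTop_atTop.const_mul_atTop (by positivity))).mul_const _).const_mul _
    rw [zero_mul, mul_zero] at h1
    filter_upwards [h1.eventually_lt_const hη0] with j hj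
    rw [neg_mul]
    exact hj.le
  have t2 : ∀ᶠ j : ℕ in atTop, D' * (Real.exp (V ^ 2) * (G * Real.exp j ^ (1 - V ^ 2))) ≤ η / 2 := by
    have h1 : Tendsto (fun j : ℕ => D' * (Real.exp (V ^ 2) * (G * Real.exp (-((V ^ 2 - 1) * (j : ℝ)))))) atTop
        (𝓝 (D' * (Real.exp (V ^ 2) * (G * 0)))) :=
      (((Real.tendsto_exp_neg_atTop_nhds_zero.comp (tendsto_natCast_atTop_atTop.const_mul_atTop (by linarith))).const_mul _).const_mul _).const_mul _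
    rw [mul_zero, mul_zero, mul_zero] at h1
    filter_upwards [h1.eventually_lt_const (by positivity : 0 < η / 2)] with j hj
    have e1 : Real.exp j ^ (1 - V ^ 2) = Real.exp (-((V ^ 2 - 1) * (j : ℝ))) := by
      rw [← Real.exp_mul]
      congr 1
      ring
    rw [e1]
    exact hj.le
  obtain ⟨j₀, f1, f2⟩ := (t1.and t2).exists
  obtain ⟨K, hK⟩ : ∃ K : ℝ, K = Real.exp j₀ := ⟨_, rfl⟩
  have hK1 : 1 ≤ K := by rw [hK]; exact Real.one_le_exp (Nat.cast_nonneg _)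
  have hK0 : 0 < K := by linarith
  rw [← hK] at f2
  have hKδ : 1 ≤ K / δ := by
    rw [one_le_div hδ]
    linarith
  have t3 := Real.tendsto_log_atTop.eventually (small_bigN (N := N) (q := B' + 1) (E₀ := E₀) (δ := δ) (D := D') (s := V ^ 2) (p := β ^ 2 / 4 - e)
    (η := η / (2 * Real.exp (V ^ 2))) hN1 (by linarith) hE₀0 hδ hD'0.le hps (by positivity))
  have t4 : ∀ᶠ T : ℝ in atTop, E₀ * K ≤ δ * Real.log T := (Real.tendsto_log_atTop.const_mul_atTop hδ).eventually_ge_atTop _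
  have t5 : ∀ᶠ T : ℝ in atTop, Real.log T ^ B' ≤ T / 4 := by
    filter_upwards [pow_len B', eventually_gt_atTop (0 : ℝ)] with T hT hT0
    linarith
  have t6 : ∀ᶠ T : ℝ in atTop, 6 ≤ Real.log (Real.log T) := (Real.tendsto_log_atTop.comp Real.tendsto_log_atTop).eventually_ge_atTop 6
  refine ⟨β / 4 * c ^ (β - 2) * η * (1 / (3 * (K / δ) ^ (1 : ℝ))) * δ ^ (β ^ 2 / 4), by positivity, ?_⟩
  filter_upwards [hev, t3, t4, t5, t6, eventually_ge_atTop (16 : ℝ), Real.tendsto_log_atTop.eventually_ge_atTop 1] with T hev t3 t4 t5 t6 hT16 hL1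
    A hA hAB S hSA hSsep hScard
  obtain ⟨hE1, htk⟩ := hev
  obtain ⟨L, hL⟩ : ∃ L : ℝ, L = Real.log T := ⟨_, rfl⟩
  rw [← hL] at hE1 htk t3 t4 t5 t6 hL1 hAB hSsep hScard ⊢
  obtain ⟨E, hE⟩ : ∃ E : ℝ, E = δ * L := ⟨_, rfl⟩
  rw [← hE] at hE1 htk t3 t4
  have hT0 : 0 < T := by linarith
  have hL0 : 0 < L := by linarith
  have hE0 : 0 < E := by linarith
  have hr0 : 0 < 1 / L := by positivity
  have hr1 : 1 / L ≤ 1 := by rw [div_le_one hL0]; exact hL1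
  have hEr : δ / (1 / L) = E := by rw [hE]; field_simp
  have hReg : Rg 1 3 (1 / L) A := Rg_one hr0 A
  -- thinning
  have hKr : K / δ * (1 / L) ≤ 1 := by
    rw [div_mul_div_comm, mul_one, ← hE, div_le_one hE0]
    calc K = 1 * K := (one_mul K).symm
      _ ≤ E₀ * K := mul_le_mul_of_nonneg_right hE₀ hK0.le
      _ ≤ E := t4
  obtain ⟨U, hUS, hUsep, hUcard⟩ := thin hr0 hKδ hKr hReg hSA hSsep
  have hUA : ∀ x ∈ U, x ∈ A := fun x hx => hSA x (hUS hx)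
  have hUsep' : Sep (1 / L) U := hSsep.mono le_rfl hUS
  have hsepE : ∀ x ∈ U, ∀ y ∈ U, x ≠ y → K ≤ |x - y| * E := by
    intro x hx y hy hxy
    have h1 := hUsep x hx y hy hxy
    have h2 : K / δ * (1 / L) * E = K := by rw [hE]; field_simp
    have h3 := mul_le_mul_of_nonneg_right h1 hE0.le
    linarith
  have hcardUS : (U.card : ℝ) ≤ S.card := by exact_mod_cast Finset.card_le_card hUS
  have hUp : (U.card : ℝ) ≤ 2 * L ^ (β ^ 2 / 4 - e) := by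
    have h1 : L ^ (β ^ 2 / 4 - ε) ≤ L ^ (β ^ 2 / 4 - e) := Real.rpow_le_rpow_of_exponent_le hL1 (by linarith)
    have h2 : 0 ≤ L ^ (β ^ 2 / 4 - e) := by positivity
    linarith
  obtain ⟨J, hJ⟩ : ∃ J : ℕ, J = ⌊Real.log (E / E₀)⌋₊ := ⟨_, rfl⟩
  have htk1 : ∀ X : ℝ, |X| ≤ T / 2 → ∀ y : ℕ → ℂ, (∀ n, ‖y n‖ ≤ B) → ∃ Q : ℝ, c₀ * VV E (aw 2 X) y ≤ Q ∧ Q ≤ C * VV E (aw 2 X) y ∧
      T * Q ≤ ∫ t in T..(2 * T), fz 2 (t + X) * Pf E κ' y t ∧
      ∫ t in T..(2 * T), fz 2 (t + X) * Pf E κ' y t ≤ C * (T * Q) ∧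
      ∀ w : ℕ → ℂ, (∀ n, ‖w n‖ ≤ B) → ∑ j ∈ Finset.range (JB E), ∫ t in T..(2 * T), fz 2 (t + X) * Pf E κ' y t * ‖pw E κ' w (fun _ => 0) (j + 1) t‖ ^ 2 ≤
        1 / 8 * (T * Q) := by
    intro X hX y hy
    have h1 := htk ![2 / 2, 0] ![X, X] (by intro j; fin_cases j <;> simp) (by simp) (by intro j; fin_cases j <;> simpa using hX) y hy
    rw [ap_one] at h1
    simp only [zpr_one] at h1
    exact h1
  have hU : UpbS E κ' B C T := by
    intro X hX y hy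
    obtain ⟨Q, q1, q2, q3, q4, q5⟩ := htk1 X hX y hy
    refine q4.trans ?_
    apply mul_le_mul_of_nonneg_left _ hC.le
    exact mul_le_mul_of_nonneg_left q2 hT0.le
  have hU0 : ∀ X : ℝ, |X| ≤ T / 2 → ∫ t in T..(2 * T), Pf E κ' (yF E (β / 2) (JB E) X) t ≤ C * (T * (C * VV E (fun _ => 0) (yF E (β / 2) (JB E) X))) := by
    intro X hX
    have h1 := htk ![0 / 2, 0] ![X, X] (by intro j; fin_cases j <;> simp) (by simp) (by intro j; fin_cases j <;> simpa using hX) (yF E (β / 2) (JB E) X)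
      (fun n => norm_yF (by rw [abs_of_pos (by linarith)]; linarith) E (JB E) X n)
    rw [ap_one] at h1
    simp only [zpr_one, Real.rpow_zero, one_mul] at h1
    have e0 : aw 0 X = fun _ => 0 := by
      funext n
      unfold aw
      simp
    rw [e0] at h1
    obtain ⟨Q, q1, q2, q3, q4, q5⟩ := h1
    refine q4.trans ?_
    apply mul_le_mul_of_nonneg_left _ hC.le
    exact mul_le_mul_of_nonneg_left q2 hT0.le
  have hQ : ∀ X, |X| ≤ T / 2 → ∃ Q : ℝ, c₀ * VV E (aw 2 X) (yF E (β / 2 - 1) (JB E) X) ≤ Q ∧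
      T * Q ≤ ∫ t in T..(2 * T), fz 2 (t + X) * Pf E κ' (yF E (β / 2 - 1) (JB E) X) t ∧
      ∫ t in T..(2 * T), fz 2 (t + X) * (Pf E κ' (yF E (β / 2 - 1) (JB E) X) t * pW E κ' β X t) ≤ 1 / 8 * (T * Q) := by
    intro X hX
    obtain ⟨Q, q1, q2, q3, q4, q5⟩ := htk1 X hX (yF E (β / 2 - 1) (JB E) X) (fun n => norm_yF (by rw [abs_of_pos (by linarith)]; linarith) E (JB E) X n)
    refine ⟨Q, q1, q3, ?_⟩
    have h1 := q5 (wS β X) (fun n => (wS_norm hβ0.le X n).trans (by linarith))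
    have hfc : Continuous fun t => fz 2 (t + X) * Pf E κ' (yF E (β / 2 - 1) (JB E) X) t := ((fz_cont (by norm_num)).comp (by fun_prop)).mul (Pf_cont _ _ _)
    have h2 : ∫ t in T..(2 * T), fz 2 (t + X) * (Pf E κ' (yF E (β / 2 - 1) (JB E) X) t * pW E κ' β X t) =
        ∑ j ∈ Finset.range (JB E), ∫ t in T..(2 * T), fz 2 (t + X) * Pf E κ' (yF E (β / 2 - 1) (JB E) X) t * ‖pw E κ' (wS β X) (fun _ => 0) (j + 1) t‖ ^ 2 := by
      unfold pW
      simp only [← mul_assoc]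
      simp only [Finset.mul_sum]
      exact intervalIntegral.integral_finsetSum fun j _ => (hfc.mul ((Pool.Agent.Q184.UM.pw_cont _ _ _ _ _).norm.pow 2)).intervalIntegrable _ _
    rw [h2]
    exact h1
  obtain ⟨H, hH⟩ : ∃ H : ℝ, H = 2 * L ^ B' := ⟨_, rfl⟩
  have hLB : (1 : ℝ) ≤ L ^ B' := Real.one_le_rpow hL1 hB'
  have hH0 : 0 ≤ H := by rw [hH]; positivity
  have hDH : (5 + Real.log (H + 1)) ^ N ≤ (6 + (B' + 1) * Real.log L) ^ N := by
    apply pow_le_pow_left₀ (by have := Real.log_nonneg (by linarith : 1 ≤ H + 1); linarith)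
    have h1 : H + 1 ≤ 3 * L ^ B' := by rw [hH]; linarith
    have h2 : Real.log (H + 1) ≤ Real.log (3 * L ^ B') := Real.log_le_log (by linarith) h1
    rw [Real.log_mul (by norm_num) (by positivity), Real.log_rpow hL0] at h2
    have h3 : Real.log 3 ≤ 2 := by
      have := Real.log_le_sub_one_of_pos (by norm_num : (0 : ℝ) < 3)
      linarith
    linarith
  have hHlog0 : 0 ≤ Real.log (H + 1) := Real.log_nonneg (by linarith)
  have ht3 : D' * (U.card * ((5 + Real.log (H + 1)) ^ N * (Real.exp 1 * E₀ / E) ^ (V ^ 2))) ≤ η / (2 * Real.exp (V ^ 2)) := by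
    refine le_trans ?_ t3
    apply mul_le_mul_of_nonneg_left _ hD'0.le
    apply mul_le_mul hUp _ (by positivity) (by positivity)
    exact mul_le_mul_of_nonneg_right hDH (by positivity)
  have heV : 1 ≤ Real.exp (V ^ 2) := Real.one_le_exp (sq_nonneg V)
  obtain ⟨z₁, hz₁⟩ : ∃ z₁ : ℝ, z₁ = G * K ^ (1 - V ^ 2) := ⟨_, rfl⟩
  have hz : ∀ x ∈ U, ∑ y ∈ U.erase x, (|x - y| * E) ^ (-(V ^ 2)) ≤ z₁ + U.card * E ^ (-(V ^ 2)) := by
    intro x hx
    have h1 := sum_shell hr0 hr1 hδ hδ1 zero_le_one hs (by norm_num) hK1 hReg hUA hUsep' hx (by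
      intro y hy
      rw [hEr]
      exact hsepE x hx y (Finset.mem_of_mem_erase hy) (fun h => (Finset.ne_of_mem_erase hy) h.symm))
    rw [hEr] at h1
    refine h1.trans (le_of_eq ?_)
    rw [hz₁, hG]
    ring
  have hEV : E ^ (-(V ^ 2)) ≤ (5 + Real.log (H + 1)) ^ N * (Real.exp 1 * E₀ / E) ^ (V ^ 2) := by
    have h1 : E ^ (-(V ^ 2)) = (1 / E) ^ (V ^ 2) := by
      rw [one_div, Real.inv_rpow hE0.le, Real.rpow_neg hE0.le]
    have h2 : (1 / E) ^ (V ^ 2) ≤ (Real.exp 1 * E₀ / E) ^ (V ^ 2) := by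
      apply Real.rpow_le_rpow (by positivity) _ (sq_nonneg V)
      apply div_le_div_of_nonneg_right _ hE0.le
      have h3 : (1 : ℝ) ≤ Real.exp 1 := Real.one_le_exp (by norm_num)
      calc (1 : ℝ) = 1 * 1 := (one_mul 1).symm
        _ ≤ Real.exp 1 * E₀ := mul_le_mul h3 hE₀ (by norm_num) (by linarith)
    have h3 : 1 ≤ (5 + Real.log (H + 1)) ^ N := one_le_pow₀ (by linarith)
    rw [h1]
    have h4 : 0 ≤ (Real.exp 1 * E₀ / E) ^ (V ^ 2) := by positivity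
    exact h2.trans (le_mul_of_one_le_left h4 h3)
  have h2c : D' * (Real.exp (V ^ 2) * (z₁ + U.card * E ^ (-(V ^ 2)))) ≤ η := by
    have h1 : D' * (Real.exp (V ^ 2) * z₁) ≤ η / 2 := by rw [hz₁]; exact f2
    have h2 : D' * (U.card * E ^ (-(V ^ 2))) ≤ η / (2 * Real.exp (V ^ 2)) := by
      refine le_trans ?_ ht3
      apply mul_le_mul_of_nonneg_left _ hD'0.le
      exact mul_le_mul_of_nonneg_left hEV (Nat.cast_nonneg _)
    have h3 : D' * (Real.exp (V ^ 2) * (U.card * E ^ (-(V ^ 2)))) ≤ η / 2 := by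
      calc D' * (Real.exp (V ^ 2) * (U.card * E ^ (-(V ^ 2)))) = Real.exp (V ^ 2) * (D' * (U.card * E ^ (-(V ^ 2)))) := by ring
        _ ≤ Real.exp (V ^ 2) * (η / (2 * Real.exp (V ^ 2))) := mul_le_mul_of_nonneg_left h2 (by positivity)
        _ = η / 2 := by field_simp
    calc D' * (Real.exp (V ^ 2) * (z₁ + U.card * E ^ (-(V ^ 2)))) = D' * (Real.exp (V ^ 2) * z₁) + D' * (Real.exp (V ^ 2) * (U.card * E ^ (-(V ^ 2)))) := by ring
      _ ≤ η := by linarith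
  have h3c : D' * (U.card * ((5 + Real.log (H + 1)) ^ N * (Real.exp 1 * E₀ / E) ^ (V ^ 2))) ≤ η := by
    refine ht3.trans ?_
    rw [div_le_iff₀ (by positivity)]
    exact le_mul_of_one_le_right hη0.le (by linarith)
  have hcore := set_coreH (S := β) (H := H) (J := J) (A := A) (U := U) (N := N) (c := c) hF hU hU0 hC hT0 hβ2 le_rfl (by linarith) hb0 hb1 hV hV0
    (by linarith) hN hE₀ hκ (j₀ := j₀) (by rw [← hK, le_div_iff₀ hE₀0]; linarith) hJ hH0 hA hUA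
    (fun h hh => (hAB h hh).trans (by linarith))
    (fun h hh h' hh' => by
      have h1 := hAB h hh
      have h2 := hAB h' hh'
      rw [hH]
      calc |h - h'| ≤ |h| + |h'| := abs_sub _ _
        _ ≤ _ := by linarith)
    (fun x hx y hy hxy => by rw [← hK]; exact hsepE x hx y hy hxy) hc₀ hc0 hQ hz hη hD' f1 h2c h3c h4c
  refine le_trans ?_ hcore
  have hAe : Real.exp (β ^ 2 / 4 * Real.log E) = δ ^ (β ^ 2 / 4) * L ^ (β ^ 2 / 4) := by
    rw [mul_comm (β ^ 2 / 4), ← Real.rpow_def_of_pos hE0, hE, Real.mul_rpow hδ.le hL0.le]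
  rw [hAe]
  have hDK : 0 < 3 * (K / δ) ^ (1 : ℝ) := by positivity
  have h7 : 1 / (3 * (K / δ) ^ (1 : ℝ)) * S.card ≤ U.card := by
    rw [one_div, inv_mul_le_iff₀ hDK]
    exact hUcard
  calc β / 4 * c ^ (β - 2) * η * (1 / (3 * (K / δ) ^ (1 : ℝ))) * δ ^ (β ^ 2 / 4) * T * (S.card * L ^ (β ^ 2 / 4)) =
      (1 / (3 * (K / δ) ^ (1 : ℝ)) * S.card) * (β / 4 * c ^ (β - 2) * η * (T * (δ ^ (β ^ 2 / 4) * L ^ (β ^ 2 / 4)))) := by ring
    _ ≤ U.card * (β / 4 * c ^ (β - 2) * η * (T * (δ ^ (β ^ 2 / 4) * L ^ (β ^ 2 / 4)))) := mul_le_mul_of_nonneg_right h7 (by positivity)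

end

end Pool.Agent.H469.F4
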