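import Pool.Agent.H469.F4.W3
import Pool.Agent.H469.F4.S7

set_option autoImplicit false

/-!
# Large deviations of the maxima over compact sets
-/

namespace Pool.Agent.H469.F4

open Filter Topology MeasureTheory Complex Pool.Agent.Q97.UM
open Pool.Agent.Q14.UM (mem_PB PB_disj cv_len)

noncomputable section

/-- the weight of one of the points -/
def psV (E κ' S b V V₂ a : ℝ) (U : Finset ℝ) (j₀ J : ℕ) (i t : ℝ) : ℝ :=
  psW E κ' S b V a U j₀ J (JB E) i t - (topH E κ' b V₂ a i t + botH E κ' b V a i t)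

theorem psV_cont {E κ' S b V V₂ a i : ℝ} {U : Finset ℝ} {j₀ J : ℕ} : Continuous (psV E κ' S b V V₂ a U j₀ J i) := by
  unfold psV
  exact psW_cont.sub ((topH_cont _ _ _ _ _ _).add (botH_cont _ _ _ _ _ _))

/-- where the weight is positive -/
theorem psV_pos {E κ' S b V V₂ a i t : ℝ} {U : Finset ℝ} {j₀ J : ℕ} (hE : 1 ≤ E) (hκ : 16 ≤ κ') (hS : 1 ≤ S) (hb : 0 < b) (hb1 : b ≤ 1) (ha0 : 0 ≤ a)
    (ha : a + 1 ≤ S) (hJB : J ≤ JB E) (h : 0 < psV E κ' S b V V₂ a U j₀ J i t) :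
    0 < psW E κ' S b V a U j₀ J (JB E) i t ∧ GG S E κ' (t + i) ∧
    psV E κ' S b V V₂ a U j₀ J i t ≤ 4 * Real.exp (2 * a * FJ E (JB E) (t + i)) ∧
    FJ E (JB E) (t + i) < V₂ * Real.log E + Real.log 16 / b ∧
    V * Real.log E - Real.log 16 / b < FJ E (JB E) (t + i) := by
  have ht := topH_nonneg E κ' b V₂ a i t
  have hb' := botH_nonneg E κ' b V a i t
  have h0 : 0 < psW E κ' S b V a U j₀ J (JB E) i t := by
    unfold psV at h
    linarith
  obtain ⟨g1, g2, -, -⟩ := psW_pos hE hκ hS hb hb1 ha0 (by linarith) hJB le_rfl h0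
  have g3 := psW_le (E := E) (κ' := κ') (S := S) (b := b) (V := V) (a := a) (U := U) (j₀ := j₀) (J := J) (Jt := JB E) (i := i) (t := t)
  obtain ⟨-, u1⟩ := Pf_yF (S := S) hE hκ (a := a + b / 2) (by rw [abs_of_nonneg (by linarith)]; linarith) (le_refl (JB E)) g1
  obtain ⟨-, u2⟩ := Pf_yF (S := S) hE hκ (a := a - b / 2) (by rw [abs_le]; constructor <;> linarith) (le_refl (JB E)) g1
  obtain ⟨F, hF⟩ : ∃ F : ℝ, F = FJ E (JB E) (t + i) := ⟨_, rfl⟩
  rw [← hF] at g2 u1 u2 ⊢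
  refine ⟨h0, g1, ?_, ?_, ?_⟩
  · unfold psV
    linarith
  · have h1 : topH E κ' b V₂ a i t < 4 * Real.exp (2 * a * F) := by
      unfold psV at h
      linarith
    have h2 : Real.exp (b * F - b * V₂ * Real.log E) * Real.exp (2 * a * F) < 16 * Real.exp (2 * a * F) := by
      calc Real.exp (b * F - b * V₂ * Real.log E) * Real.exp (2 * a * F) = Real.exp (-(b * V₂ * Real.log E)) * Real.exp (2 * (a + b / 2) * F) := by
            rw [← Real.exp_add, ← Real.exp_add]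
            congr 1
            ring
        _ ≤ Real.exp (-(b * V₂ * Real.log E)) * (4 * Pf E κ' (yF E (a + b / 2) (JB E) i) t) :=
            mul_le_mul_of_nonneg_left u1 (Real.exp_pos _).le
        _ = 4 * topH E κ' b V₂ a i t := by unfold topH; ring
        _ < 4 * (4 * Real.exp (2 * a * F)) := by linarith
        _ = _ := by ring
    have h3 := lt_of_mul_lt_mul_right h2 (Real.exp_pos _).le
    rw [← Real.lt_log_iff_exp_lt (by norm_num)] at h3
    have h4 : b * (F - V₂ * Real.log E) < Real.log 16 := by linarith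
    have h5 : F - V₂ * Real.log E < Real.log 16 / b := by
      rw [lt_div_iff₀ hb]
      linarith
    linarith
  · have h1 : botH E κ' b V a i t < 4 * Real.exp (2 * a * F) := by
      unfold psV at h
      linarith
    have h2 : Real.exp (b * V * Real.log E - b * F) * Real.exp (2 * a * F) < 16 * Real.exp (2 * a * F) := by
      calc Real.exp (b * V * Real.log E - b * F) * Real.exp (2 * a * F) = Real.exp (b * V * Real.log E) * Real.exp (2 * (a - b / 2) * F) := by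
            rw [← Real.exp_add, ← Real.exp_add]
            congr 1
            ring
        _ ≤ Real.exp (b * V * Real.log E) * (4 * Pf E κ' (yF E (a - b / 2) (JB E) i) t) :=
            mul_le_mul_of_nonneg_left u2 (Real.exp_pos _).le
        _ = 4 * botH E κ' b V a i t := by unfold botH; ring
        _ < 4 * (4 * Real.exp (2 * a * F)) := by linarith
        _ = _ := by ring
    have h3 := lt_of_mul_lt_mul_right h2 (Real.exp_pos _).le
    rw [← Real.lt_log_iff_exp_lt (by norm_num)] at h3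
    have h4 : b * (V * Real.log E - F) < Real.log 16 := by linarith
    have h5 : V * Real.log E - F < Real.log 16 / b := by
      rw [lt_div_iff₀ hb]
      linarith
    linarith

/-- **the pointwise inequality** -/
theorem ldW_point {E κ' S β b V V₂ μ lam t : ℝ} {A : Set ℝ} {U : Finset ℝ} {j₀ J : ℕ} (hE : 1 ≤ E) (hκ : 16 ≤ κ') (hβ2 : 2 < β) (hS : β ≤ S) (hb : 0 < b) (hb1 : b ≤ 1)
    (hV0 : 0 < V) (hVS : V ≤ S) (hμ : 0 < μ) (hJ : j₀ ≤ J) (hJB : J ≤ JB E)
    (hA : IsCompact A) (hy : ∀ x ∈ U, x ∈ A) (hsep : ∀ x ∈ U, ∀ y ∈ U, x ≠ y → Real.exp j₀ ≤ |x - y| * E) :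
    ∑ i ∈ U, (fz 2 (t + i) * psV E κ' S b V V₂ (β / 2 - 1) U j₀ J i t -
      (wD1 E b V lam * Pf E κ' (yF E (β / 2) (JB E) i) t +
        μ / 2 * wD2 E β b V₂ * (fz 4 (t + i) * Pf E κ' (yF E (β / 2 - 2) (JB E) i) t))) ≤
      1 / (2 * μ) * above (MA A) lam t := by
  have hE0 : 0 < E := by linarith
  have hD1 : 0 ≤ wD1 E b V lam := by unfold wD1; positivity
  have hD2 : 0 ≤ μ / 2 * wD2 E β b V₂ := by unfold wD2; positivity
  have hR : 0 ≤ 1 / (2 * μ) * above (MA A) lam t := mul_nonneg (by positivity) (above_nonneg _ _ _)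
  apply one_only' (U) _ (fun i => 0 < psV E κ' S b V V₂ (β / 2 - 1) U j₀ J i t) hR
  · intro i _ h
    have h1 : psV E κ' S b V V₂ (β / 2 - 1) U j₀ J i t ≤ 0 := not_lt.1 h
    have h2 : fz 2 (t + i) * psV E κ' S b V V₂ (β / 2 - 1) U j₀ J i t ≤ 0 := mul_nonpos_of_nonneg_of_nonpos (fz_nonneg _ _) h1
    have h3 := mul_nonneg hD1 (Pf_nonneg E κ' (yF E (β / 2) (JB E) i) t)
    have h4 := mul_nonneg hD2 (mul_nonneg (fz_nonneg 4 (t + i)) (Pf_nonneg E κ' (yF E (β / 2 - 2) (JB E) i) t))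
    linarith
  · intro i hi h
    obtain ⟨-, g1, g2, g3, g4⟩ := psV_pos hE hκ (by linarith) hb hb1 (by linarith) (by linarith) hJB h
    obtain ⟨-, u1⟩ := Pf_yF (S := S) hE hκ (a := β / 2) (by rw [abs_of_pos (by linarith)]; linarith) (le_refl (JB E)) g1
    obtain ⟨-, u2⟩ := Pf_yF (S := S) hE hκ (a := β / 2 - 2) (by rw [abs_le]; constructor <;> linarith) (le_refl (JB E)) g1
    obtain ⟨F, hF⟩ : ∃ F : ℝ, F = FJ E (JB E) (t + i) := ⟨_, rfl⟩
    rw [← hF] at g2 g3 g4 u1 u2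
    obtain ⟨q, hq⟩ : ∃ q : ℝ, q = psV E κ' S b V V₂ (β / 2 - 1) U j₀ J i t := ⟨_, rfl⟩
    rw [← hq] at g2 h ⊢
    obtain ⟨P1, hP1⟩ : ∃ P1 : ℝ, P1 = Pf E κ' (yF E (β / 2) (JB E) i) t := ⟨_, rfl⟩
    obtain ⟨P2, hP2⟩ : ∃ P2 : ℝ, P2 = Pf E κ' (yF E (β / 2 - 2) (JB E) i) t := ⟨_, rfl⟩
    have hP10 : 0 ≤ P1 := by rw [hP1]; exact Pf_nonneg _ _ _ _
    have hP20 : 0 ≤ P2 := by rw [hP2]; exact Pf_nonneg _ _ _ _
    rw [← hP1] at u1 ⊢
    rw [← hP2] at u2 ⊢
    rw [fz_two, fz_four]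
    obtain ⟨s, hs⟩ : ∃ s : ℝ, s = ‖zt (t + i)‖ := ⟨_, rfl⟩
    have hs0 : 0 ≤ s := by rw [hs]; exact norm_nonneg _
    have hsM : s ≤ MA A t := by
      rw [hs]
      exact le_MA hA (hy i hi)
    rw [← hs]
    obtain ⟨ℓ, hℓ⟩ : ∃ ℓ : ℝ, ℓ = Real.log 16 / b := ⟨_, rfl⟩
    rw [← hℓ] at g3 g4
    have e1 : 2 * (β / 2 - 1) * F = (β - 2) * F := by ring
    rw [e1] at g2
    rcases le_or_gt s lam with hsl | hsl
    · have h1 : s ^ 2 * q ≤ wD1 E b V lam * P1 := by
        have h2 : s ^ 2 ≤ lam ^ 2 := pow_le_pow_left₀ hs0 hsl 2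
        have h3 : q ≤ 4 * (Real.exp (2 * (ℓ - V * Real.log E)) * Real.exp (2 * (β / 2) * F)) := by
          refine g2.trans ?_
          rw [← Real.exp_add]
          apply mul_le_mul_of_nonneg_left _ (by norm_num)
          apply Real.exp_le_exp.2
          have e2 : 2 * (ℓ - V * Real.log E) + 2 * (β / 2) * F = (β - 2) * F + 2 * (F - (V * Real.log E - ℓ)) := by ring
          rw [e2]
          linarith
        calc s ^ 2 * q ≤ lam ^ 2 * (4 * (Real.exp (2 * (ℓ - V * Real.log E)) * Real.exp (2 * (β / 2) * F))) :=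
              mul_le_mul h2 h3 h.le (by positivity)
          _ ≤ lam ^ 2 * (4 * (Real.exp (2 * (ℓ - V * Real.log E)) * (4 * P1))) := by
              apply mul_le_mul_of_nonneg_left _ (by positivity)
              apply mul_le_mul_of_nonneg_left _ (by norm_num)
              exact mul_le_mul_of_nonneg_left u1 (Real.exp_pos _).le
          _ = wD1 E b V lam * P1 := by unfold wD1; rw [← hℓ]; ring
      have h4 : 0 ≤ μ / 2 * wD2 E β b V₂ * (s ^ 4 * P2) := mul_nonneg hD2 (by positivity)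
      linarith
    · have hab : above (MA A) lam t = 1 := above_of_lt (lt_of_lt_of_le hsl hsM)
      rw [hab, mul_one]
      have h1 : s ^ 2 * q ≤ μ / 2 * (s ^ 2 * q) ^ 2 + 1 / (2 * μ) := by
        obtain ⟨z, hz⟩ : ∃ z : ℝ, z = s ^ 2 * q := ⟨_, rfl⟩
        rw [← hz]
        have h2 : 0 ≤ (μ * z - 1) ^ 2 / (2 * μ) := by positivity
        have h3 : (μ * z - 1) ^ 2 / (2 * μ) = μ / 2 * z ^ 2 + 1 / (2 * μ) - z := by
          field_simp
          ring
        linarith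
      have h2 : (s ^ 2 * q) ^ 2 ≤ wD2 E β b V₂ * (s ^ 4 * P2) := by
        have h3 : q ^ 2 ≤ (4 * Real.exp ((β - 2) * F)) ^ 2 := pow_le_pow_left₀ h.le g2 2
        have h4 : (4 * Real.exp ((β - 2) * F)) ^ 2 = 16 * Real.exp ((β - 4) * F + β * F) := by
          rw [mul_pow, ← Real.exp_nat_mul]
          have : ((2 : ℕ) : ℝ) * ((β - 2) * F) = (β - 4) * F + β * F := by push_cast; ring
          rw [this]
          norm_num
        have h5 : Real.exp ((β - 4) * F + β * F) ≤ 4 * P2 * Real.exp (β * (V₂ * Real.log E + ℓ)) := by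
          rw [Real.exp_add]
          have e2 : 2 * (β / 2 - 2) * F = (β - 4) * F := by ring
          rw [e2] at u2
          apply mul_le_mul u2 _ (Real.exp_pos _).le (by linarith)
          apply Real.exp_le_exp.2
          exact mul_le_mul_of_nonneg_left g3.le (by linarith)
        calc (s ^ 2 * q) ^ 2 = s ^ 4 * q ^ 2 := by ring
          _ ≤ s ^ 4 * (16 * (4 * P2 * Real.exp (β * (V₂ * Real.log E + ℓ)))) := by
              apply mul_le_mul_of_nonneg_left _ (by positivity)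
              rw [h4] at h3
              linarith
          _ = _ := by unfold wD2; rw [← hℓ]; ring
      have h6 := mul_le_mul_of_nonneg_left h2 (by linarith : 0 ≤ μ / 2)
      have h7 : 0 ≤ wD1 E b V lam * P1 := mul_nonneg hD1 hP10
      linarith
  · intro i hi k hk h1 h2
    obtain ⟨q1, -⟩ := psV_pos hE hκ (by linarith) hb hb1 (by linarith) (by linarith) hJB h1
    obtain ⟨q2, -⟩ := psV_pos hE hκ (by linarith) hb hb1 (by linarith) (by linarith) hJB h2
    exact psW_unique hE hκ (by linarith) hb hb1 (by linarith) (by linarith) hV0 hVS hJ hJB le_rfl (hsep i hi k hk) hk q1 q2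

/-- **large deviations: the sum over the points** -/
theorem ldW_core {E κ' S β b V V₂ B C Cv E₀ T H η c₀ z D lam : ℝ} {J j₀ N : ℕ} {A : Set ℝ} {U : Finset ℝ} (hF : VH Cv E₀ B) (hU : UpbS E κ' B C T)
    (hU0 : ∀ X : ℝ, |X| ≤ T / 2 → ∫ t in T..(2 * T), Pf E κ' (yF E (β / 2) (JB E) X) t ≤ C * (T * (C * VV E (fun _ => 0) (yF E (β / 2) (JB E) X))))
    (hU4 : ∀ X : ℝ, |X| ≤ T / 2 → ∫ t in T..(2 * T), fz 4 (t + X) * Pf E κ' (yF E (β / 2 - 2) (JB E) X) t ≤
      C * (T * (C * VV E (aw 4 X) (yF E (β / 2 - 2) (JB E) X))))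
    (hC : 0 < C) (hT : 0 < T) (hβ2 : 2 < β) (hβS : β ≤ S) (hβB : β + b ≤ B) (hb : 0 < b) (hb1 : b ≤ 1) (hV : V = β / 2 - b) (hV0 : 0 < V)
    (hV₂ : V₂ = β / 2 + b)
    (hVB : β / 2 - 1 + V ≤ B) (hN : β * V ≤ N) (hE₀ : 1 ≤ E₀) (hκ : 16 ≤ κ')
    (hj₀ : Real.exp j₀ ≤ E / E₀) (hJ : J = ⌊Real.log (E / E₀)⌋₊) (hH : 0 ≤ H) (hA : IsCompact A) (hy : ∀ x ∈ U, x ∈ A)
    (hAT : ∀ h ∈ A, |h| ≤ T / 2) (hAH : ∀ h ∈ A, ∀ h' ∈ A, |h - h'| ≤ H)
    (hsep : ∀ x ∈ U, ∀ y ∈ U, x ≠ y → Real.exp j₀ ≤ |x - y| * E) (hc₀ : 0 < c₀)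
    (hQ : ∀ X, |X| ≤ T / 2 → ∃ Q : ℝ, c₀ * VV E (aw 2 X) (yF E (β / 2 - 1) (JB E) X) ≤ Q ∧
      T * Q ≤ ∫ t in T..(2 * T), fz 2 (t + X) * Pf E κ' (yF E (β / 2 - 1) (JB E) X) t ∧
      ∫ t in T..(2 * T), fz 2 (t + X) * (Pf E κ' (yF E (β / 2 - 1) (JB E) X) t * pW E κ' S X t) ≤ 1 / 8 * (T * Q))
    (hz : ∀ x ∈ U, ∑ y ∈ U.erase x, (|x - y| * E) ^ (-(V ^ 2)) ≤ z)
    (hη : η = c₀ * Real.exp (-Cv) / 8) (hD : D = 16 * Real.exp (2 * V * (Real.log 16 / b)) * (C ^ 2 * Real.exp Cv))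
    (h1 : C ^ 2 * Real.exp Cv * (Real.exp (-(3 / 4 * b ^ 2) * j₀) * (1 - Real.exp (-(3 / 4 * b ^ 2)))⁻¹) ≤ η)
    (h2 : D * (Real.exp (V ^ 2) * z) ≤ η)
    (h3 : D * (U.card * ((5 + Real.log (H + 1)) ^ N * (Real.exp 1 * E₀ / E) ^ (V ^ 2))) ≤ η)
    (h5 : C ^ 2 * Real.exp Cv * Real.exp (-(3 / 4 * b ^ 2) * Real.log E) ≤ η / 2)
    (h6 : wD1 E b V lam * (C ^ 2 * Real.exp Cv) ≤ η) :
    U.card * (4 * η ^ 2 * (T * Real.exp (β ^ 2 / 4 * Real.log E)) / (wD2 E β b V₂ * (C ^ 2 * Real.exp Cv))) ≤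
      ∫ t in T..(2 * T), above (MA A) lam t := by
  have hE₀0 : 0 < E₀ := by linarith
  have hEE1 : 1 ≤ E / E₀ := (Real.one_le_exp (Nat.cast_nonneg _)).trans hj₀
  have hE0 : 0 < E := by
    by_contra h
    have : E / E₀ ≤ 0 := div_nonpos_of_nonpos_of_nonneg (not_lt.1 h) hE₀0.le
    linarith
  have hEE : E₀ ≤ E := by rwa [one_le_div hE₀0] at hEE1
  have hE1 : 1 ≤ E := hE₀.trans hEE
  have hJ0 : j₀ ≤ J := by
    rw [hJ]
    apply Nat.le_floor
    rw [Real.le_log_iff_exp_le (by positivity)]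
    exact hj₀
  obtain ⟨g1, g2⟩ := last_lev hE₀ hEE hJ
  have hJB : J ≤ JB E := by
    have := JB_shift hE0 J (hE₀.trans g1)
    omega
  clear g1 g2
  have hXT : ∀ x ∈ U, |x| ≤ T / 2 := fun x hx => hAT _ (hy x hx)
  have hone0 := oneW (S := S) (κ' := κ') (H := H) (N := N) hF hU hC hT hβ2 (by linarith) hb hb1 hV hV0 hVB hN hE₀ hj₀ hJ hH hy hAT hAH hsep hc₀ hQ hz hη hD
    h1 h2 h3
  have hβ0 : 0 < β := by linarith
  have hη0 : 0 < η := by rw [hη]; positivity
  obtain ⟨G, hG⟩ : ∃ G : ℝ, G = Real.exp (β ^ 2 / 4 * Real.log E) := ⟨_, rfl⟩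
  have hG0 : 0 < G := by rw [hG]; exact Real.exp_pos _
  rw [← hG] at hone0 ⊢
  obtain ⟨C2, hC2⟩ : ∃ C2 : ℝ, C2 = C ^ 2 * Real.exp Cv := ⟨_, rfl⟩
  have hC20 : 0 < C2 := by rw [hC2]; positivity
  rw [← hC2] at h5 h6 ⊢
  have hD10 : 0 ≤ wD1 E b V lam := by unfold wD1; positivity
  have hD20 : 0 < wD2 E β b V₂ := by unfold wD2; positivity
  have hfc : ∀ X, Continuous fun t => fz 2 (t + X) := fun X => (fz_cont (by norm_num)).comp (by fun_prop)
  have hfc4 : ∀ X, Continuous fun t => fz 4 (t + X) := fun X => (fz_cont (by norm_num)).comp (by fun_prop)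
  obtain ⟨μ, hμ⟩ : ∃ μ : ℝ, μ = 2 * η / (wD2 E β b V₂ * C2) := ⟨_, rfl⟩
  have hμ0 : 0 < μ := by rw [hμ]; positivity
  have hμe : μ / 2 * wD2 E β b V₂ * C2 = η := by
    rw [hμ]
    field_simp
  -- one point
  have hone : ∀ i ∈ U, η * (T * G) ≤ ∫ t in T..(2 * T), (fz 2 (t + i) * psV E κ' S b V V₂ (β / 2 - 1) U j₀ J i t -
      (wD1 E b V lam * Pf E κ' (yF E (β / 2) (JB E) i) t +
        μ / 2 * wD2 E β b V₂ * (fz 4 (t + i) * Pf E κ' (yF E (β / 2 - 2) (JB E) i) t))) := by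
    intro i hi
    have g0 := hone0 i hi
    have hX := hXT i hi
    have g1 := top_le (κ' := κ') hF hE1 hEE hU hC hT.le hX hβ2 hb hβB hV₂
    have g2 := bot_le (κ' := κ') hF hE1 hEE hU hC hT.le hX hβ2 hb hb1 hβB hV
    rw [← hG, ← hC2] at g1 g2
    have g3 := hU0 _ hX
    have e3 : VV E (fun _ => 0) (yF E (β / 2) (JB E) i) = VV E (aw β i) (fun _ => 0) := by
      rw [VV_shift1 hE1, yF_zero0]
    have g4 := hU4 _ hX
    have e4 : VV E (aw 4 i) (yF E (β / 2 - 2) (JB E) i) = VV E (aw β i) (fun _ => 0) := by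
      have e5 : β / 2 - 2 = (β - 4) / 2 := by ring
      rw [e5, VV_shiftG hE1]
    rw [e3] at g3
    rw [e4] at g4
    have g5 := VVup (X := i) hF hEE hβ0.le (by linarith)
    rw [← hG] at g5
    have g6 : C * (T * (C * VV E (aw β i) (fun _ => 0))) ≤ C2 * (T * G) := by
      calc _ ≤ C * (T * (C * (Real.exp Cv * G))) := by
            apply mul_le_mul_of_nonneg_left _ hC.le
            apply mul_le_mul_of_nonneg_left _ hT.le
            exact mul_le_mul_of_nonneg_left g5 hC.le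
        _ = _ := by rw [hC2]; ring
    have c1 : Continuous fun t => fz 2 (t + i) * psW E κ' S b V (β / 2 - 1) U j₀ J (JB E) i t := (hfc i).mul psW_cont
    have c2 : Continuous fun t => fz 2 (t + i) * topH E κ' b V₂ (β / 2 - 1) i t := (hfc i).mul (topH_cont _ _ _ _ _ _)
    have c3 : Continuous fun t => fz 2 (t + i) * botH E κ' b V (β / 2 - 1) i t := (hfc i).mul (botH_cont _ _ _ _ _ _)
    have c4 : Continuous fun t => wD1 E b V lam * Pf E κ' (yF E (β / 2) (JB E) i) t := continuous_const.mul (Pf_cont _ _ _)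
    have c5 : Continuous fun t => μ / 2 * wD2 E β b V₂ * (fz 4 (t + i) * Pf E κ' (yF E (β / 2 - 2) (JB E) i) t) :=
      continuous_const.mul ((hfc4 i).mul (Pf_cont _ _ _))
    have e1 : ∀ t, fz 2 (t + i) * psV E κ' S b V V₂ (β / 2 - 1) U j₀ J i t -
      (wD1 E b V lam * Pf E κ' (yF E (β / 2) (JB E) i) t + μ / 2 * wD2 E β b V₂ * (fz 4 (t + i) * Pf E κ' (yF E (β / 2 - 2) (JB E) i) t)) =
      fz 2 (t + i) * psW E κ' S b V (β / 2 - 1) U j₀ J (JB E) i t - ((fz 2 (t + i) * topH E κ' b V₂ (β / 2 - 1) i t +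
        fz 2 (t + i) * botH E κ' b V (β / 2 - 1) i t) + (wD1 E b V lam * Pf E κ' (yF E (β / 2) (JB E) i) t +
        μ / 2 * wD2 E β b V₂ * (fz 4 (t + i) * Pf E κ' (yF E (β / 2 - 2) (JB E) i) t))) := by
      intro t
      unfold psV
      ring
    simp only [e1]
    have i1 : IntervalIntegrable (fun t => fz 2 (t + i) * psW E κ' S b V (β / 2 - 1) U j₀ J (JB E) i t) volume T (2 * T) := c1.intervalIntegrable _ _
    have i2 : IntervalIntegrable (fun t => fz 2 (t + i) * topH E κ' b V₂ (β / 2 - 1) i t) volume T (2 * T) := c2.intervalIntegrable _ _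
    have i3 : IntervalIntegrable (fun t => fz 2 (t + i) * botH E κ' b V (β / 2 - 1) i t) volume T (2 * T) := c3.intervalIntegrable _ _
    have i4 : IntervalIntegrable (fun t => wD1 E b V lam * Pf E κ' (yF E (β / 2) (JB E) i) t) volume T (2 * T) := c4.intervalIntegrable _ _
    have i5 : IntervalIntegrable (fun t => μ / 2 * wD2 E β b V₂ * (fz 4 (t + i) * Pf E κ' (yF E (β / 2 - 2) (JB E) i) t)) volume T (2 * T) :=
      c5.intervalIntegrable _ _
    have i23 : IntervalIntegrable (fun t => fz 2 (t + i) * topH E κ' b V₂ (β / 2 - 1) i t + fz 2 (t + i) * botH E κ' b V (β / 2 - 1) i t)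
      volume T (2 * T) := i2.add i3
    have i45 : IntervalIntegrable (fun t => wD1 E b V lam * Pf E κ' (yF E (β / 2) (JB E) i) t +
      μ / 2 * wD2 E β b V₂ * (fz 4 (t + i) * Pf E κ' (yF E (β / 2 - 2) (JB E) i) t)) volume T (2 * T) := i4.add i5
    have iall : IntervalIntegrable (fun t => (fz 2 (t + i) * topH E κ' b V₂ (β / 2 - 1) i t + fz 2 (t + i) * botH E κ' b V (β / 2 - 1) i t) +
      (wD1 E b V lam * Pf E κ' (yF E (β / 2) (JB E) i) t + μ / 2 * wD2 E β b V₂ * (fz 4 (t + i) * Pf E κ' (yF E (β / 2 - 2) (JB E) i) t)))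
      volume T (2 * T) := i23.add i45
    rw [intervalIntegral.integral_sub i1 iall, intervalIntegral.integral_add i23 i45, intervalIntegral.integral_add i2 i3,
      intervalIntegral.integral_add i4 i5, intervalIntegral.integral_const_mul (wD1 E b V lam), intervalIntegral.integral_const_mul (μ / 2 * wD2 E β b V₂)]
    have f1 : C2 * (T * G) * Real.exp (-(3 / 4 * b ^ 2) * Real.log E) ≤ η / 2 * (T * G) := by
      calc _ = C2 * Real.exp (-(3 / 4 * b ^ 2) * Real.log E) * (T * G) := by ring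
        _ ≤ _ := mul_le_mul_of_nonneg_right h5 (by positivity)
    have f2 : wD1 E b V lam * ∫ t in T..(2 * T), Pf E κ' (yF E (β / 2) (JB E) i) t ≤ η * (T * G) := by
      calc _ ≤ wD1 E b V lam * (C2 * (T * G)) := mul_le_mul_of_nonneg_left (g3.trans g6) hD10
        _ = wD1 E b V lam * C2 * (T * G) := by ring
        _ ≤ _ := mul_le_mul_of_nonneg_right h6 (by positivity)
    have f3 : μ / 2 * wD2 E β b V₂ * ∫ t in T..(2 * T), fz 4 (t + i) * Pf E κ' (yF E (β / 2 - 2) (JB E) i) t ≤ η * (T * G) := by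
      calc _ ≤ μ / 2 * wD2 E β b V₂ * (C2 * (T * G)) := mul_le_mul_of_nonneg_left (g4.trans g6) (by positivity)
        _ = μ / 2 * wD2 E β b V₂ * C2 * (T * G) := by ring
        _ = _ := by rw [hμe]
    linarith
  -- the sum
  have cP : ∀ i : ℝ, Continuous fun t => fz 2 (t + i) * psV E κ' S b V V₂ (β / 2 - 1) U j₀ J i t -
      (wD1 E b V lam * Pf E κ' (yF E (β / 2) (JB E) i) t +
        μ / 2 * wD2 E β b V₂ * (fz 4 (t + i) * Pf E κ' (yF E (β / 2 - 2) (JB E) i) t)) := fun i =>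
    ((hfc _).mul psV_cont).sub ((continuous_const.mul (Pf_cont _ _ _)).add (continuous_const.mul ((hfc4 _).mul (Pf_cont _ _ _))))
  have hsum : U.card * (η * (T * G)) ≤ 1 / (2 * μ) * ∫ t in T..(2 * T), above (MA A) lam t := by
    calc U.card * (η * (T * G)) = ∑ i ∈ U, η * (T * G) := by rw [Finset.sum_const, nsmul_eq_mul]
      _ ≤ ∑ i ∈ U, ∫ t in T..(2 * T), (fz 2 (t + i) * psV E κ' S b V V₂ (β / 2 - 1) U j₀ J i t -
        (wD1 E b V lam * Pf E κ' (yF E (β / 2) (JB E) i) t +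
        μ / 2 * wD2 E β b V₂ * (fz 4 (t + i) * Pf E κ' (yF E (β / 2 - 2) (JB E) i) t))) :=
          Finset.sum_le_sum fun i hi => hone i hi
      _ = ∫ t in T..(2 * T), ∑ i ∈ U, (fz 2 (t + i) * psV E κ' S b V V₂ (β / 2 - 1) U j₀ J i t -
        (wD1 E b V lam * Pf E κ' (yF E (β / 2) (JB E) i) t +
        μ / 2 * wD2 E β b V₂ * (fz 4 (t + i) * Pf E κ' (yF E (β / 2 - 2) (JB E) i) t))) :=
          (intervalIntegral.integral_finsetSum fun i _ => (cP i).intervalIntegrable _ _).symm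
      _ ≤ ∫ t in T..(2 * T), 1 / (2 * μ) * above (MA A) lam t := by
          refine intervalIntegral.integral_mono_on (by linarith) ((continuous_finsetSum _ fun i _ => cP i).intervalIntegrable _ _)
            ((above_int (MA_cont hA) lam _ _).const_mul _) fun t _ => ?_
          exact ldW_point hE1 hκ hβ2 hβS hb hb1 hV0 (by linarith) hμ0 hJ0 hJB hA hy hsep
      _ = _ := intervalIntegral.integral_const_mul _ _
  have e6 : U.card * (4 * η ^ 2 * (T * G) / (wD2 E β b V₂ * C2)) = 2 * μ * (U.card * (η * (T * G))) := by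
    rw [hμ]
    ring
  rw [e6]
  calc 2 * μ * (U.card * (η * (T * G))) ≤ 2 * μ * (1 / (2 * μ) * ∫ t in T..(2 * T), above (MA A) lam t) := mul_le_mul_of_nonneg_left hsum (by positivity)
    _ = _ := by field_simp

end

end Pool.Agent.H469.F4
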