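import Pool.Agent.H469.F4.W6
import Pool.Agent.H469.F4.U6
import Pool.Agent.H469.F4.S11

set_option autoImplicit false

/-!
# Maxima over all compact sets: moments, large deviations, frozen phase, equivalence
-/

namespace Pool.Agent.H469.F4

open Filter Topology MeasureTheory Complex Pool.Agent.Q97.UM

noncomputable section

/-- upper bound, order at most four -/
theorem upper_nsep {β : ℝ} (hβ0 : 0 < β) (hβ4 : β ≤ 4) : ∃ C : ℝ, 0 < C ∧ ∀ᶠ T : ℝ in atTop, ∀ A : Set ℝ, IsCompact A → A.Nonempty →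
    (∀ h ∈ A, |h| ≤ T / 16) → ∫ t in T..(2 * T), MA A t ^ β ≤ C * T * (nsep (1 / Real.log T) A * Real.log T ^ (β ^ 2 / 4)) := by
  obtain ⟨C, hC, h⟩ := set_upper hβ0 hβ4
  refine ⟨C, hC, ?_⟩
  filter_upwards [h, Real.tendsto_log_atTop.eventually_ge_atTop 1, eventually_ge_atTop (0 : ℝ)] with T h hL1 hT0 A hA hne hAT
  have hr : 0 < 1 / Real.log T := by positivity
  obtain ⟨⟨S, hSA, hSsep, hScard⟩, -⟩ := nsep_spec hr (by positivity : 0 ≤ T / 16) hAT
  have := h A hA hne hAT S hSA (nsep_cover hr (by positivity : 0 ≤ T / 16) hAT hSA hSsep hScard)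
  rwa [hScard] at this

/-- upper bound, all orders -/
theorem upper_nsepG {β : ℝ} (hβ0 : 0 < β) : ∃ C : ℝ, 0 < C ∧ ∀ᶠ T : ℝ in atTop, ∀ A : Set ℝ, IsCompact A → A.Nonempty →
    (∀ h ∈ A, |h| ≤ T / 16) → ∫ t in T..(2 * T), MA A t ^ β ≤ C * (nsep (1 / Real.log T) A * (T + ∫ t in (T / 2)..(3 * T), fz β t)) := by
  obtain ⟨C, hC, h⟩ := micro_gen hβ0
  refine ⟨2 * C, by positivity, ?_⟩
  filter_upwards [h, eventually_ge_atTop (32 : ℝ), Real.tendsto_log_atTop.eventually_ge_atTop 1] with T hT hT32 hL1 A hA hne hAT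
  have hT0 : 0 < T := by linarith
  have hL0 : 0 < Real.log T := by linarith
  obtain ⟨L, hL⟩ : ∃ L : ℝ, L = Real.log T := ⟨_, rfl⟩
  rw [← hL] at hT hL1 hL0 ⊢
  obtain ⟨P, hP⟩ : ∃ P : ℝ, P = T + ∫ t in (T / 2)..(3 * T), fz β t := ⟨_, rfl⟩
  rw [← hP] at hT ⊢
  have hd0 : 0 < 1 / L := by positivity
  have hd1 : 1 / L ≤ 1 := by rw [div_le_one hL0]; exact hL1
  obtain ⟨⟨S, hSA, hSsep, hScard⟩, -⟩ := nsep_spec hd0 (by positivity : 0 ≤ T / 16) hAT
  have hcov := nsep_cover hd0 (by positivity : 0 ≤ T / 16) hAT hSA hSsep hScard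
  rw [← hScard]
  have hcM : ∀ x, Continuous fun t => MH (1 / L) x t ^ β := fun x => (MH_cont _ x).rpow_const fun _ => Or.inr hβ0.le
  have hM0 : ∀ x t, 0 ≤ MH (1 / L) x t ^ β := fun x t => Real.rpow_nonneg (MH_nonneg hd0.le x t) _
  have hpt : ∀ t, MA A t ^ β ≤ ∑ x ∈ S, (MH (1 / L) (x - 1 / L) t ^ β + MH (1 / L) x t ^ β) := by
    intro t
    obtain ⟨h, hh, he⟩ := ex_MA hA hne t
    obtain ⟨x, hx, hhx⟩ := hcov h hh
    rw [abs_le] at hhx
    have h1 : MA A t ^ β ≤ MH (1 / L) (x - 1 / L) t ^ β + MH (1 / L) x t ^ β := by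
      rw [he]
      rcases le_total h x with h2 | h2
      · have h3 := le_MH (H := 1 / L) (x := x - 1 / L) (t := t) (h := h) ⟨by linarith, by linarith⟩
        have h4 := Real.rpow_le_rpow (norm_nonneg _) h3 hβ0.le
        linarith [hM0 x t]
      · have h3 := le_MH (H := 1 / L) (x := x) (t := t) (h := h) ⟨h2, by linarith⟩
        have h4 := Real.rpow_le_rpow (norm_nonneg _) h3 hβ0.le
        linarith [hM0 (x - 1 / L) t]
    exact h1.trans (Finset.single_le_sum (f := fun x => MH (1 / L) (x - 1 / L) t ^ β + MH (1 / L) x t ^ β)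
      (fun x _ => add_nonneg (hM0 _ _) (hM0 _ _)) hx)
  have c1 : ∀ x, Continuous fun t => MH (1 / L) (x - 1 / L) t ^ β + MH (1 / L) x t ^ β := fun x => (hcM _).add (hcM _)
  refine (intervalIntegral.integral_mono_on (by linarith) (((MA_cont hA).rpow_const fun _ => Or.inr hβ0.le).intervalIntegrable _ _)
    ((continuous_finsetSum _ fun x _ => c1 x).intervalIntegrable _ _) fun t _ => hpt t).trans ?_
  rw [intervalIntegral.integral_finsetSum fun x _ => (c1 x).intervalIntegrable _ _]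
  have h1 : ∀ x ∈ S, ∫ t in T..(2 * T), (MH (1 / L) (x - 1 / L) t ^ β + MH (1 / L) x t ^ β) ≤ 2 * (C * P) := by
    intro x hx
    have hxT := abs_le.1 (hAT x (hSA x hx))
    rw [intervalIntegral.integral_add ((hcM _).intervalIntegrable _ _) ((hcM _).intervalIntegrable _ _)]
    have h2 := hT (x - 1 / L) (by
      rw [abs_le]
      constructor <;> linarith)
    have h3 := hT x (by
      rw [abs_le]
      constructor <;> linarith)
    linarith
  refine (Finset.sum_le_sum h1).trans (le_of_eq ?_)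
  rw [Finset.sum_const, nsmul_eq_mul]
  ring

/-- lower bound, order larger than two -/
theorem lower_nsep {β ε B : ℝ} (hβ2 : 2 < β) (hB : 0 ≤ B) (hε : 0 < ε) : ∃ c : ℝ, 0 < c ∧ ∀ᶠ T : ℝ in atTop, ∀ A : Set ℝ, IsCompact A →
    (∀ h ∈ A, |h| ≤ Real.log T ^ B) → (nsep (1 / Real.log T) A : ℝ) ≤ Real.log T ^ (β ^ 2 / 4 - ε) →
      c * T * (nsep (1 / Real.log T) A * Real.log T ^ (β ^ 2 / 4)) ≤ ∫ t in T..(2 * T), MA A t ^ β := by
  obtain ⟨c, hc, h⟩ := set_lowerH hβ2 hB hε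
  refine ⟨c, hc, ?_⟩
  filter_upwards [h, Real.tendsto_log_atTop.eventually_ge_atTop 1] with T h hL1 A hA hAB hN
  have hr : 0 < 1 / Real.log T := by positivity
  have hR : 0 ≤ Real.log T ^ B := by positivity
  obtain ⟨⟨S, hSA, hSsep, hScard⟩, -⟩ := nsep_spec hr hR hAB
  have := h A hA hAB S hSA hSsep (by rw [hScard]; exact hN)
  rwa [hScard] at this

theorem half_floor {x : ℝ} (hx : 1 ≤ x) : x / 2 ≤ ⌊x⌋₊ := by
  have h1 := Nat.lt_floor_add_one x
  have h2 : (1 : ℝ) ≤ ⌊x⌋₊ := by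
    have : 1 ≤ ⌊x⌋₊ := Nat.le_floor (by exact_mod_cast hx)
    exact_mod_cast this
  linarith

/-- **large deviations over all compact sets** -/
theorem ldS {v η B : ℝ} (hv : 1 ≤ v) (hη : 0 < η) (hB : 0 ≤ B) : ∀ᶠ T : ℝ in atTop, ∀ A : Set ℝ, IsCompact A → (∀ h ∈ A, |h| ≤ Real.log T ^ B) →
    T * (min (nsep (1 / Real.log T) A : ℝ) (Real.log T ^ (v ^ 2)) * Real.log T ^ (-(v ^ 2) - η)) ≤ ∫ t in T..(2 * T), above (MA A) (Real.log T ^ v) t := by
  obtain ⟨ρ, hρ⟩ : ∃ ρ : ℝ, ρ = min 1 (η / (4 * (v + 1))) := ⟨_, rfl⟩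
  have hρ0 : 0 < ρ := by rw [hρ]; exact lt_min one_pos (by positivity)
  have hρ1 : ρ ≤ 1 := by rw [hρ]; exact min_le_left _ _
  have hρ2 : ρ ≤ η / (4 * (v + 1)) := by rw [hρ]; exact min_le_right _ _
  have hρ3 : ρ * (2 * v + 2) ≤ η / 2 := by
    calc ρ * (2 * v + 2) ≤ η / (4 * (v + 1)) * (2 * v + 2) := mul_le_mul_of_nonneg_right hρ2 (by linarith)
      _ = η / 2 := by
          have : v + 1 ≠ 0 := by linarith
          field_simp
          ring
  have hsq : (v + ρ) ^ 2 + ρ ≤ v ^ 2 + η / 2 := by nlinarith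
  obtain ⟨c, hc, h⟩ := ld_set (β := 2 * (v + ρ)) (ε := (v + ρ) ^ 2 - v ^ 2) (ρ := ρ) (B' := B) (by linarith) hB (by nlinarith) hρ0
  have hbig : ∀ᶠ T : ℝ in atTop, 1 ≤ c / 2 * Real.log T ^ (η / 2) :=
    (((tendsto_rpow_atTop (by linarith : 0 < η / 2)).comp Real.tendsto_log_atTop).const_mul_atTop (by positivity : 0 < c / 2)).eventually_ge_atTop 1
  filter_upwards [h, hbig, eventually_gt_atTop (0 : ℝ), Real.tendsto_log_atTop.eventually_ge_atTop 1] with T h hbig hT hL1 A hA hAB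
  have hL0 : 0 < Real.log T := by linarith
  have e1 : (2 * (v + ρ)) ^ 2 / 4 = (v + ρ) ^ 2 := by ring
  have e2 : (v + ρ) ^ 2 - ((v + ρ) ^ 2 - v ^ 2) = v ^ 2 := by ring
  have e3 : 2 * (v + ρ) / 2 - ρ = v := by ring
  rw [e1, e2, e3] at h
  have hr : 0 < 1 / Real.log T := by positivity
  have hR : 0 ≤ Real.log T ^ B := by positivity
  obtain ⟨⟨S, hSA, hSsep, hScard⟩, -⟩ := nsep_spec hr hR hAB
  obtain ⟨m, hm⟩ : ∃ m : ℝ, m = min (nsep (1 / Real.log T) A : ℝ) (Real.log T ^ (v ^ 2)) := ⟨_, rfl⟩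
  have hm0 : 0 ≤ m := by rw [hm]; exact le_min (Nat.cast_nonneg _) (by positivity)
  obtain ⟨W, hWS, hWc⟩ := Finset.exists_subset_card_eq (s := S) (n := min (nsep (1 / Real.log T) A) ⌊Real.log T ^ (v ^ 2)⌋₊) (by rw [hScard]; exact min_le_left _ _)
  have hW1 : (W.card : ℝ) ≤ Real.log T ^ (v ^ 2) := by
    have h1 : W.card ≤ ⌊Real.log T ^ (v ^ 2)⌋₊ := by rw [hWc]; exact min_le_right _ _
    exact (Nat.cast_le.2 h1).trans (Nat.floor_le (by positivity))
  have hW2 : m / 2 ≤ W.card := by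
    have h1 := half_floor (Real.one_le_rpow hL1 (sq_nonneg v) : 1 ≤ Real.log T ^ (v ^ 2))
    rw [hWc, Nat.cast_min]
    apply le_min
    · have : m ≤ nsep (1 / Real.log T) A := by rw [hm]; exact min_le_left _ _
      linarith
    · have : m ≤ Real.log T ^ (v ^ 2) := by rw [hm]; exact min_le_right _ _
      linarith
  have h0 := h A hA hAB W (fun x hx => hSA x (hWS hx)) (hSsep.mono le_rfl hWS) hW1
  rw [← hm]
  refine le_trans ?_ h0
  have h1 : Real.log T ^ (-(v ^ 2) - η) ≤ c / 2 * Real.log T ^ (-(v + ρ) ^ 2 - ρ) := by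
    calc Real.log T ^ (-(v ^ 2) - η) = 1 * Real.log T ^ (-(v ^ 2) - η) := (one_mul _).symm
      _ ≤ c / 2 * Real.log T ^ (η / 2) * Real.log T ^ (-(v ^ 2) - η) := mul_le_mul_of_nonneg_right hbig (by positivity)
      _ = c / 2 * Real.log T ^ (-(v ^ 2) - η / 2) := by
          rw [mul_assoc, ← Real.rpow_add hL0]
          congr 2
          ring
      _ ≤ c / 2 * Real.log T ^ (-(v + ρ) ^ 2 - ρ) := by
          apply mul_le_mul_of_nonneg_left _ (by positivity)
          exact Real.rpow_le_rpow_of_exponent_le hL1 (by linarith)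
  calc T * (m * Real.log T ^ (-(v ^ 2) - η)) ≤ T * (m * (c / 2 * Real.log T ^ (-(v + ρ) ^ 2 - ρ))) :=
        mul_le_mul_of_nonneg_left (mul_le_mul_of_nonneg_left h1 hm0) hT.le
    _ = c * T * (m / 2 * Real.log T ^ (-(v + ρ) ^ 2 - ρ)) := by ring
    _ ≤ c * T * (W.card * Real.log T ^ (-(v + ρ) ^ 2 - ρ)) := by
        apply mul_le_mul_of_nonneg_left _ (by positivity)
        exact mul_le_mul_of_nonneg_right hW2 (by positivity)

/-- Markov's inequality -/
theorem markS {A : Set ℝ} (hA : IsCompact A) {β v T : ℝ} (hβ0 : 0 < β) (hT : 0 ≤ T) (hL : 0 < Real.log T) :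
    Real.log T ^ (β * v) * ∫ t in T..(2 * T), above (MA A) (Real.log T ^ v) t ≤ ∫ t in T..(2 * T), MA A t ^ β := by
  have cM : Continuous fun t => MA A t ^ β := (MA_cont hA).rpow_const fun _ => Or.inr hβ0.le
  rw [← intervalIntegral.integral_const_mul]
  refine intervalIntegral.integral_mono_on (by linarith) ((above_int (MA_cont hA) _ _ _).const_mul _) (cM.intervalIntegrable _ _) fun t _ => ?_
  rcases lt_or_ge (Real.log T ^ v) (MA A t) with h3 | h3
  · rw [above_of_lt h3, mul_one, mul_comm β v, Real.rpow_mul hL.le]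
    exact Real.rpow_le_rpow (by positivity) h3.le hβ0.le
  · rw [above_of_le h3, mul_zero]
    exact Real.rpow_nonneg (MA_nonneg A t) _

/-- large deviations, upper bound -/
theorem ldS_up {v : ℝ} (hv0 : 0 < v) (hv2 : v ≤ 2) : ∃ C : ℝ, 0 < C ∧ ∀ᶠ T : ℝ in atTop, ∀ A : Set ℝ, IsCompact A → A.Nonempty → (∀ h ∈ A, |h| ≤ T / 16) →
    ∫ t in T..(2 * T), above (MA A) (Real.log T ^ v) t ≤ C * T * (nsep (1 / Real.log T) A * Real.log T ^ (-(v ^ 2))) := by
  obtain ⟨C, hC, h⟩ := upper_nsep (β := 2 * v) (by linarith) (by linarith)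
  refine ⟨C, hC, ?_⟩
  filter_upwards [h, eventually_gt_atTop (0 : ℝ), Real.tendsto_log_atTop.eventually_ge_atTop 1] with T h hT hL1 A hA hne hAT
  have hL0 : 0 < Real.log T := by linarith
  have h1 := (markS hA (β := 2 * v) (v := v) (by linarith) hT.le hL0).trans (h A hA hne hAT)
  have e1 : C * T * (nsep (1 / Real.log T) A * Real.log T ^ ((2 * v) ^ 2 / 4)) =
      Real.log T ^ (2 * v * v) * (C * T * (nsep (1 / Real.log T) A * Real.log T ^ (-(v ^ 2)))) := by
    have : Real.log T ^ ((2 * v) ^ 2 / 4) = Real.log T ^ (2 * v * v) * Real.log T ^ (-(v ^ 2)) := by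
      rw [← Real.rpow_add hL0]
      congr 1
      ring
    rw [this]
    ring
  rw [e1] at h1
  exact le_of_mul_le_mul_left h1 (by positivity)

/-- **the frozen phase, lower bound** -/
theorem frozS_low {β v η B : ℝ} (hβ0 : 0 < β) (hv : 1 ≤ v) (hη : 0 < η) (hB : 0 ≤ B) : ∀ᶠ T : ℝ in atTop, ∀ A : Set ℝ, IsCompact A →
    (∀ h ∈ A, |h| ≤ Real.log T ^ B) → Real.log T ^ (v ^ 2) ≤ (nsep (1 / Real.log T) A : ℝ) →
      T * Real.log T ^ (β * v - η) ≤ ∫ t in T..(2 * T), MA A t ^ β := by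
  filter_upwards [ldS hv hη hB, eventually_gt_atTop (0 : ℝ), Real.tendsto_log_atTop.eventually_ge_atTop 1] with T h hT hL1 A hA hAB hN
  have hL0 : 0 < Real.log T := by linarith
  refine le_trans ?_ (markS hA (v := v) hβ0 hT.le hL0)
  have h1 := h A hA hAB
  rw [min_eq_right hN] at h1
  have e1 : T * Real.log T ^ (β * v - η) = Real.log T ^ (β * v) * (T * (Real.log T ^ (v ^ 2) * Real.log T ^ (-(v ^ 2) - η))) := by
    have e2 : Real.log T ^ (v ^ 2) * Real.log T ^ (-(v ^ 2) - η) = Real.log T ^ (-η) := by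
      rw [← Real.rpow_add hL0]
      congr 1
      ring
    rw [e2]
    have e3 : Real.log T ^ (β * v - η) = Real.log T ^ (β * v) * Real.log T ^ (-η) := by
      rw [← Real.rpow_add hL0]
      congr 1
    rw [e3]
    ring
  rw [e1]
  exact mul_le_mul_of_nonneg_left h1 (by positivity)

/-- **the frozen phase, upper bound** -/
theorem frozS_up {β v : ℝ} (hβ0 : 0 < β) (hβv : β ≤ 2 * v) (hv2 : v ≤ 2) : ∃ C : ℝ, 0 < C ∧ ∀ᶠ T : ℝ in atTop, ∀ A : Set ℝ, IsCompact A → A.Nonempty →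
    (∀ h ∈ A, |h| ≤ T / 16) → (nsep (1 / Real.log T) A : ℝ) ≤ Real.log T ^ (v ^ 2) → ∫ t in T..(2 * T), MA A t ^ β ≤ C * T * Real.log T ^ (β * v) := by
  have hv0 : 0 < v := by linarith
  obtain ⟨C, hC, h⟩ := upper_nsep (β := 2 * v) (by linarith) (by linarith)
  obtain ⟨ϑ, hϑ⟩ : ∃ ϑ : ℝ, ϑ = β / (2 * v) := ⟨_, rfl⟩
  have hϑ0 : 0 < ϑ := by rw [hϑ]; positivity
  have hϑ1 : ϑ ≤ 1 := by rw [hϑ, div_le_one (by linarith)]; exact hβv
  have hϑb : 2 * v * ϑ = β := by rw [hϑ]; field_simp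
  refine ⟨C ^ ϑ, by positivity, ?_⟩
  filter_upwards [h, eventually_gt_atTop (0 : ℝ), Real.tendsto_log_atTop.eventually_ge_atTop 1] with T h hT0 hL1 A hA hne hAT hN
  have hL0 : 0 < Real.log T := by linarith
  have h2 := h A hA hne hAT
  have h2' : ∫ t in T..(2 * T), MA A t ^ (2 * v) ≤ C * T * Real.log T ^ (2 * v ^ 2) := by
    refine h2.trans ?_
    apply mul_le_mul_of_nonneg_left _ (by positivity)
    calc _ ≤ Real.log T ^ (v ^ 2) * Real.log T ^ ((2 * v) ^ 2 / 4) := mul_le_mul_of_nonneg_right hN (by positivity)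
      _ = _ := by
          rw [← Real.rpow_add hL0]
          congr 1
          ring
  have hXc := MA_cont hA
  have h3 := hold (f := fun _ => (1 : ℝ)) (g := fun t => MA A t ^ (2 * v)) continuous_const (hXc.rpow_const fun _ => Or.inr (by linarith)) (fun _ => zero_le_one)
    (fun t => Real.rpow_nonneg (MA_nonneg A t) _) (by linarith : T ≤ 2 * T) hϑ0.le hϑ1 (A := T) (B := C * T * Real.log T ^ (2 * v ^ 2)) hT0
    (by positivity) (by simp; linarith) h2'
  have e1 : ∀ t, (1 : ℝ) ^ (1 - ϑ) * (MA A t ^ (2 * v)) ^ ϑ = MA A t ^ β := by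
    intro t
    rw [Real.one_rpow, one_mul, ← Real.rpow_mul (MA_nonneg A t), hϑb]
  simp only [e1] at h3
  refine h3.trans (le_of_eq ?_)
  rw [Real.mul_rpow (by positivity) (by positivity), Real.mul_rpow hC.le hT0.le, ← Real.rpow_mul hL0.le]
  have e2 : T ^ (1 - ϑ) * T ^ ϑ = T := by
    rw [← Real.rpow_add hT0]
    have : 1 - ϑ + ϑ = 1 := by ring
    rw [this, Real.rpow_one]
  have e3 : 2 * v ^ 2 * ϑ = β * v := by rw [← hϑb]; ring
  rw [e3]
  calc T ^ (1 - ϑ) * (C ^ ϑ * T ^ ϑ * Real.log T ^ (β * v)) = C ^ ϑ * (T ^ (1 - ϑ) * T ^ ϑ) * Real.log T ^ (β * v) := by ring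
    _ = _ := by rw [e2]

/-- the maximum over an interval -/
theorem MA_Icc (H t : ℝ) : MA (Set.Icc 0 H) t = MH H 0 t := by
  unfold MA MH
  rw [zero_add]

theorem nsep_Icc {r H : ℝ} (hr : 0 < r) (hH : 0 ≤ H) : (nsep r (Set.Icc 0 H) : ℝ) ≤ H / r + 1 := by
  have hA : ∀ x ∈ Set.Icc 0 H, |x| ≤ H := fun x hx => by
    rw [abs_of_nonneg hx.1]
    exact hx.2
  obtain ⟨⟨S, hSA, hSsep, hScard⟩, -⟩ := nsep_spec hr hH hA
  have h1 := card_sep (a := 0) (b := H) hr hH hSsep fun x hx => hSA x hx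
  rw [hScard, sub_zero] at h1
  exact h1

/-- **the moments and the maxima over all compact sets** -/
theorem set_equiv {β a : ℝ} (hβ : 0 < β) (ha : 0 ≤ a) :
    (∃ C : ℝ, ∀ᶠ T : ℝ in atTop, (1 / T) * ∫ t in (0 : ℝ)..T, fz β t ≤ C * Real.log T ^ a) ↔
    (∃ C : ℝ, ∀ᶠ T : ℝ in atTop, ∀ A : Set ℝ, IsCompact A → A.Nonempty → (∀ h ∈ A, |h| ≤ T / 16) →
      (1 / T) * ∫ t in T..(2 * T), MA A t ^ β ≤ C * (nsep (1 / Real.log T) A * Real.log T ^ a)) := by
  have fc : Continuous (fz β) := fz_cont hβ.le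
  have fi : ∀ S T : ℝ, IntervalIntegrable (fz β) volume S T := fun S T => fc.intervalIntegrable _ _
  constructor
  · rintro ⟨C, hC⟩
    obtain ⟨C₂, hC₂, h2⟩ := upper_nsepG hβ
    obtain ⟨D, hD⟩ : ∃ D : ℝ, D = max C 0 := ⟨_, rfl⟩
    have hD0 : 0 ≤ D := by rw [hD]; exact le_max_right _ _
    have hCD : C ≤ D := by rw [hD]; exact le_max_left _ _
    have h3 : ∀ᶠ T : ℝ in atTop, (1 / (3 * T)) * ∫ t in (0 : ℝ)..(3 * T), fz β t ≤ C * Real.log (3 * T) ^ a :=
      (tendsto_id.const_mul_atTop (by norm_num : (0 : ℝ) < 3)).eventually hC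
    refine ⟨C₂ * (1 + 3 * D * 2 ^ a), ?_⟩
    filter_upwards [h2, h3, eventually_ge_atTop (32 : ℝ), Real.tendsto_log_atTop.eventually_ge_atTop 1] with T h2 h3 hT32 hL1 A hA hne hAT
    have hT0 : 0 < T := by linarith
    have hL0 : 0 < Real.log T := by linarith
    have h4 := h2 A hA hne hAT
    have h5 : ∫ t in (T / 2)..(3 * T), fz β t ≤ ∫ t in (0 : ℝ)..(3 * T), fz β t := by
      apply intervalIntegral.integral_mono_interval (by linarith) (by linarith) le_rfl _ (fi _ _)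
      exact Filter.Eventually.of_forall fun t => fz_nonneg β t
    have h6 : Real.log (3 * T) ≤ 2 * Real.log T := by
      have h7 : Real.log (3 * T) ≤ Real.log (T ^ 2) := Real.log_le_log (by linarith) (by nlinarith)
      rw [Real.log_pow] at h7
      exact_mod_cast h7
    have h7 : Real.log (3 * T) ^ a ≤ 2 ^ a * Real.log T ^ a := by
      rw [← Real.mul_rpow (by norm_num) hL0.le]
      exact Real.rpow_le_rpow (Real.log_nonneg (by linarith)) h6 ha
    have h8 : ∫ t in (0 : ℝ)..(3 * T), fz β t ≤ 3 * T * (D * (2 ^ a * Real.log T ^ a)) := by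
      rw [one_div, inv_mul_le_iff₀ (by positivity)] at h3
      refine h3.trans (mul_le_mul_of_nonneg_left ?_ (by positivity))
      have h9 : 0 ≤ Real.log (3 * T) ^ a := Real.rpow_nonneg (Real.log_nonneg (by linarith)) _
      exact (mul_le_mul_of_nonneg_right hCD h9).trans (mul_le_mul_of_nonneg_left h7 hD0)
    have h9 : (1 : ℝ) ≤ Real.log T ^ a := Real.one_le_rpow hL1 ha
    rw [one_div, inv_mul_le_iff₀ hT0]
    refine h4.trans ?_
    have h10 : T + ∫ t in (T / 2)..(3 * T), fz β t ≤ T * ((1 + 3 * D * 2 ^ a) * Real.log T ^ a) := by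
      have h11 : T * 1 ≤ T * Real.log T ^ a := mul_le_mul_of_nonneg_left h9 hT0.le
      linarith
    have h12 : (0 : ℝ) ≤ nsep (1 / Real.log T) A := Nat.cast_nonneg _
    calc C₂ * (nsep (1 / Real.log T) A * (T + ∫ t in (T / 2)..(3 * T), fz β t)) ≤
        C₂ * (nsep (1 / Real.log T) A * (T * ((1 + 3 * D * 2 ^ a) * Real.log T ^ a))) :=
          mul_le_mul_of_nonneg_left (mul_le_mul_of_nonneg_left h10 h12) hC₂.le
      _ = _ := by ring
  · rintro ⟨C, hC⟩
    rw [order_equiv hβ ha]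
    obtain ⟨D, hD⟩ : ∃ D : ℝ, D = max C 0 := ⟨_, rfl⟩
    have hD0 : 0 ≤ D := by rw [hD]; exact le_max_right _ _
    have hCD : C ≤ D := by rw [hD]; exact le_max_left _ _
    refine ⟨D, ?_⟩
    filter_upwards [hC, eventually_ge_atTop (32 : ℝ), Real.tendsto_log_atTop.eventually_ge_atTop 1] with T h hT32 hL1 H hH0 hH1
    have hL0 : 0 < Real.log T := by linarith
    have h1 := h (Set.Icc 0 H) isCompact_Icc ⟨0, le_rfl, hH0⟩ (fun x hx => by
      rw [abs_of_nonneg hx.1]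
      exact hx.2.trans hH1)
    simp only [MA_Icc] at h1
    refine h1.trans ?_
    have h2 := nsep_Icc (r := 1 / Real.log T) (by positivity) hH0
    rw [div_div_eq_mul_div, div_one] at h2
    have h3 : 0 ≤ (nsep (1 / Real.log T) (Set.Icc 0 H) : ℝ) * Real.log T ^ a := by positivity
    refine (mul_le_mul_of_nonneg_right hCD h3).trans ?_
    apply mul_le_mul_of_nonneg_left _ hD0
    apply mul_le_mul_of_nonneg_right _ (by positivity)
    linarith

end

end Pool.Agent.H469.F4
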